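import Mathlib

/-! The Golod-Shafarevich construction (Vinberg's filtered form): over a countable field there is
an infinite dimensional algebra generated by three elements whose augmentation ideal is nil. -/

namespace Pool.Agent.H64.Golod

open Module

variable (F : Type) [Field F]

abbrev A := MonoidAlgebra F (FreeMonoid (Fin 3))

noncomputable def x (j : Fin 3) : A F := MonoidAlgebra.single (FreeMonoid.of j) 1

noncomputable def D : (Fin 3 → A F) →ₗ[F] A F :=
  ∑ j, (LinearMap.mulLeft F (x F j)).comp (LinearMap.proj j)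

variable {F}

lemma D_apply (u : Fin 3 → A F) : D F u = ∑ j, x F j * u j := by simp [D]

lemma coeff_D_cons (u : Fin 3 → A F) (i : Fin 3) (w : FreeMonoid (Fin 3)) :
    (D F u).coeff (FreeMonoid.of i * w) = (u i).coeff w := by
  rw [D_apply, MonoidAlgebra.coeff_sum, Finsupp.finset_sum_apply, Finset.sum_eq_single i]
  · rw [x, MonoidAlgebra.coeff_single_mul_mul, one_mul]
  · intro j _ hj
    apply MonoidAlgebra.coeff_single_mul_of_forall_mul_ne
    intro d h
    have := congrArg FreeMonoid.toList h
    simp at this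
    exact hj this.1
  · simp

lemma coeff_D_one (u : Fin 3 → A F) : (D F u).coeff 1 = 0 := by
  rw [D_apply, MonoidAlgebra.coeff_sum, Finsupp.finset_sum_apply]
  refine Finset.sum_eq_zero fun j _ => ?_
  apply MonoidAlgebra.coeff_single_mul_of_forall_mul_ne
  intro d h
  have := congrArg FreeMonoid.toList h
  simp at this

lemma D_inj : Function.Injective (D F) := by
  intro u v h
  funext i
  ext w
  rw [← coeff_D_cons, h, coeff_D_cons]

lemma decomp (a : A F) : ∃ (c : F) (u : Fin 3 → A F), a = c • 1 + D F u := by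
  induction a using MonoidAlgebra.induction_linear with
  | zero => exact ⟨0, 0, by simp⟩
  | add a b ha hb =>
    obtain ⟨c, u, rfl⟩ := ha
    obtain ⟨c', u', rfl⟩ := hb
    exact ⟨c + c', u + u', by rw [add_smul, map_add]; abel⟩
  | single w c =>
    induction w using FreeMonoid.inductionOn' with
    | one => exact ⟨c, 0, by simp [MonoidAlgebra.one_def]⟩
    | of_mul j w _ =>
      refine ⟨0, Pi.single j (MonoidAlgebra.single w c), ?_⟩
      rw [D_apply, Finset.sum_eq_single j]
      · simp [x, MonoidAlgebra.single_mul_single]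
      · intro i _ hi; simp [hi]
      · simp

lemma D_mul (u : Fin 3 → A F) (b : A F) : D F u * b = D F fun j => u j * b := by
  simp [D_apply, Finset.sum_mul, mul_assoc]

variable (F) in
/-- powers of the augmentation ideal -/
noncomputable def J : ℕ → Submodule F (A F)
  | 0 => ⊤
  | n + 1 => (Submodule.pi Set.univ fun _ => J n).map (D F)

lemma mem_J_succ {n : ℕ} {a : A F} : a ∈ J F (n + 1) ↔ ∃ u, (∀ j, u j ∈ J F n) ∧ D F u = a := by
  simp [J, Submodule.mem_pi]

lemma J_anti (n : ℕ) : J F (n + 1) ≤ J F n := by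
  induction n with
  | zero => exact le_top
  | succ n ih =>
    intro a ha
    obtain ⟨u, hu, rfl⟩ := mem_J_succ.1 ha
    exact mem_J_succ.2 ⟨u, fun j => ih (hu j), rfl⟩

lemma J_anti' : Antitone (J F) := antitone_nat_of_succ_le J_anti

lemma J_left (n : ℕ) (a b : A F) (hb : b ∈ J F n) : a * b ∈ J F n := by
  induction n generalizing a b with
  | zero => trivial
  | succ n ih =>
    obtain ⟨c, v, rfl⟩ := decomp a
    rw [add_mul, smul_mul_assoc, one_mul, D_mul]
    exact Submodule.add_mem _ (Submodule.smul_mem _ _ hb)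
      (mem_J_succ.2 ⟨_, fun j => ih _ _ (J_anti n hb), rfl⟩)

lemma J_mul (m n : ℕ) (a b : A F) (ha : a ∈ J F m) (hb : b ∈ J F n) : a * b ∈ J F (n + m) := by
  induction m generalizing a with
  | zero => exact J_left n a b hb
  | succ m ih =>
    obtain ⟨u, hu, rfl⟩ := mem_J_succ.1 ha
    rw [D_mul]
    exact mem_J_succ.2 ⟨_, fun j => ih _ (hu j), rfl⟩

lemma J_right (n : ℕ) (a b : A F) (ha : a ∈ J F n) : a * b ∈ J F n := by
  simpa using J_mul n 0 a b ha trivial

lemma J_pow (a : A F) (ha : a ∈ J F 1) (n : ℕ) : a ^ n ∈ J F n := by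
  induction n with
  | zero => trivial
  | succ n ih => rw [pow_succ']; exact J_mul 1 n _ _ ha ih

lemma one_not_mem : (1 : A F) ∉ J F 1 := fun h => by
  obtain ⟨u, -, hu⟩ := mem_J_succ.1 h
  have := coeff_D_one u
  rw [hu] at this
  simp [MonoidAlgebra.one_def] at this

lemma x_mem (j : Fin 3) : x F j ∈ J F 1 := by
  refine mem_J_succ.2 ⟨Pi.single j 1, fun _ => trivial, ?_⟩
  rw [D_apply, Finset.sum_eq_single j]
  · simp
  · intro i _ hi; simp [hi]
  · simp

section relations

variable (r : ℕ → A F)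

/-- the two-sided ideal generated by the relations -/
noncomputable def I : Submodule F (A F) := Submodule.span F {y | ∃ a k b, y = a * r k * b}

lemma I_left (a b : A F) (hb : b ∈ I r) : a * b ∈ I r := by
  induction hb using Submodule.span_induction with
  | mem y hy =>
    obtain ⟨a', k, b', rfl⟩ := hy
    exact Submodule.subset_span ⟨a * a', k, b', by simp [mul_assoc]⟩
  | zero => simp
  | add y z _ _ h1 h2 => rw [mul_add]; exact Submodule.add_mem _ h1 h2
  | smul c y _ h => rw [mul_smul_comm]; exact Submodule.smul_mem _ _ h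

lemma I_right (a b : A F) (ha : a ∈ I r) : a * b ∈ I r := by
  induction ha using Submodule.span_induction with
  | mem y hy =>
    obtain ⟨a', k, b', rfl⟩ := hy
    exact Submodule.subset_span ⟨a', k, b' * b, by simp [mul_assoc]⟩
  | zero => simp
  | add y z _ _ h1 h2 => rw [add_mul]; exact Submodule.add_mem _ h1 h2
  | smul c y _ h => rw [smul_mul_assoc]; exact Submodule.smul_mem _ _ h

noncomputable def K (n : ℕ) : Submodule F (A F) := I r ⊔ J F n

noncomputable def c (n : ℕ) : ℕ := finrank F (A F ⧸ K r n)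

variable (hr : ∀ k, r k ∈ J F (k + 2))

include hr in
lemma c_one [FiniteDimensional F (A F ⧸ I r)] : 1 ≤ c r 1 := by
  haveI : FiniteDimensional F (A F ⧸ K r 1) :=
    Module.Finite.of_surjective (Submodule.factor (le_sup_left : I r ≤ K r 1))
      (Submodule.factor_surjective _)
  have : K r 1 ≠ ⊤ := by
    intro h
    apply one_not_mem (F := F)
    have : K r 1 ≤ J F 1 := sup_le (Submodule.span_le.2 (by
      rintro _ ⟨a, k, b, rfl⟩
      exact J_right _ _ _ (J_left _ _ _ (J_anti' (by omega) (hr k))))) le_rfl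
    exact this (h ▸ trivial)
  haveI := Submodule.Quotient.nontrivial_iff.2 this
  exact Module.finrank_pos

include hr in
lemma gs [FiniteDimensional F (A F ⧸ I r)] (n : ℕ) :
    3 * c r (n + 1) ≤ c r (n + 2) + ∑ k ∈ Finset.range n, c r (n - k) := by
  haveI : ∀ m, FiniteDimensional F (A F ⧸ K r m) := fun m =>
    Module.Finite.of_surjective (Submodule.factor (le_sup_left : I r ≤ K r m))
      (Submodule.factor_surjective _)
  choose d hd1 hd2 using fun k => mem_J_succ.1 (hr k)
  have hK : ∀ (j : Fin 3) a, a ∈ K r (n + 1) → x F j * a ∈ K r (n + 2) := by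
    intro j a ha
    obtain ⟨y, hy, z, hz, rfl⟩ := Submodule.mem_sup.1 ha
    rw [mul_add]
    exact Submodule.add_mem_sup (I_left r _ _ hy) (J_mul 1 (n + 1) _ _ (x_mem j) hz)
  let α : (Fin 3 → A F ⧸ K r (n + 1)) →ₗ[F] A F ⧸ K r (n + 2) :=
    ∑ j, ((K r (n + 1)).mapQ (K r (n + 2)) (LinearMap.mulLeft F (x F j)) (hK j)).comp
      (LinearMap.proj j)
  have hα : ∀ u : Fin 3 → A F, α (fun j => (K r (n + 1)).mkQ (u j)) = (K r (n + 2)).mkQ (D F u) := by
    intro u
    simp [α, D_apply]
  have hK' : ∀ (k : Fin n) (j : Fin 3) a, a ∈ K r (n - k) → d k j * a ∈ K r (n + 1) := by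
    intro k j a ha
    obtain ⟨y, hy, z, hz, rfl⟩ := Submodule.mem_sup.1 ha
    rw [mul_add]
    refine Submodule.add_mem_sup (I_left r _ _ hy) ?_
    have := J_mul _ _ _ _ (hd1 k j) hz
    rwa [show n - k + (k + 1) = n + 1 by omega] at this
  let β : ((k : Fin n) → A F ⧸ K r (n - k)) →ₗ[F] (Fin 3 → A F ⧸ K r (n + 1)) :=
    ∑ k : Fin n, (LinearMap.pi fun j => (K r (n - k)).mapQ (K r (n + 1))
      (LinearMap.mulLeft F (d k j)) (hK' k j)).comp (LinearMap.proj k)
  let π : (Fin 3 → A F) →ₗ[F] (Fin 3 → A F ⧸ K r (n + 1)) :=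
    LinearMap.pi fun j => (K r (n + 1)).mkQ.comp (LinearMap.proj j)
  let W : Submodule F (Fin 3 → A F) := (LinearMap.range β).comap π
  have hW0 : ∀ u : Fin 3 → A F, (∀ j, u j ∈ K r (n + 1)) → u ∈ W := by
    intro u hu
    have : π u = 0 := funext fun j => (Submodule.Quotient.mk_eq_zero _).2 (hu j)
    show π u ∈ LinearMap.range β
    rw [this]; exact Submodule.zero_mem _
  have hJ : J F (n + 2) ≤ W.map (D F) := by
    intro a ha
    obtain ⟨u, hu, rfl⟩ := mem_J_succ.1 ha
    exact ⟨u, hW0 u fun j => Submodule.mem_sup_right (hu j), rfl⟩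
  have hsub : K r (n + 2) ≤ W.map (D F) := by
    refine sup_le (Submodule.span_le.2 ?_) hJ
    rintro _ ⟨a, k, b, rfl⟩
    obtain ⟨e, v, rfl⟩ := decomp a
    rw [mul_assoc, add_mul, smul_mul_assoc, one_mul, D_mul]
    refine Submodule.add_mem _ (Submodule.smul_mem _ _ ?_) ⟨_, hW0 _ fun j =>
      Submodule.mem_sup_left (Submodule.subset_span ⟨v j, k, b, (mul_assoc _ _ _).symm⟩), rfl⟩
    by_cases hk : k < n
    · refine ⟨fun j => d k j * b, ⟨Pi.single ⟨k, hk⟩ ((K r _).mkQ b), ?_⟩, by rw [← D_mul, hd2]⟩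
      simp only [β, LinearMap.coe_sum, Finset.sum_apply]
      rw [Finset.sum_eq_single ⟨k, hk⟩]
      · funext j; simp [π]
      · intro i _ hi; simp [hi]
      · simp
    · exact hJ (J_right _ _ _ (J_anti' (by omega) (hr k)))
  have hker : LinearMap.ker α ≤ LinearMap.range β := by
    intro y hy
    choose u hu using fun j => (K r (n + 1)).mkQ_surjective (y j)
    obtain rfl : y = fun j => (K r (n + 1)).mkQ (u j) := funext fun j => (hu j).symm
    rw [LinearMap.mem_ker, hα, Submodule.mkQ_apply, Submodule.Quotient.mk_eq_zero] at hy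
    obtain ⟨w, hw, he⟩ := hsub hy
    rw [D_inj he] at hw
    exact hw
  have h1 := LinearMap.finrank_range_add_finrank_ker α
  have h2 := Submodule.finrank_le (LinearMap.range α)
  have h3 := Submodule.finrank_mono hker
  have h4 := LinearMap.finrank_range_le β
  rw [Module.finrank_pi_fintype, Finset.sum_const, Finset.card_univ, Fintype.card_fin,
    smul_eq_mul] at h1
  rw [Module.finrank_pi_fintype] at h4
  rw [← Fin.sum_univ_eq_sum_range (fun k => c r (n - k))]
  unfold c
  omega

include hr in
theorem infinite_dim : ¬ FiniteDimensional F (A F ⧸ I r) := by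
  intro h
  have key : ∀ n, ∑ k ∈ Finset.range n, c r (n - k) ≤ c r (n + 1) ∧ n + 1 ≤ c r (n + 1) := by
    intro n
    induction n with
    | zero => exact ⟨by simp, c_one r hr⟩
    | succ n ih =>
      have := gs r hr n
      rw [Finset.sum_range_succ']
      simp only [Nat.add_sub_add_right, Nat.sub_zero, add_assoc, Nat.reduceAdd]
      omega
  have h1 := (key (finrank F (A F ⧸ I r))).2
  have h2 : c r (finrank F (A F ⧸ I r) + 1) ≤ finrank F (A F ⧸ I r) :=
    LinearMap.finrank_le_finrank_of_surjective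
      (Submodule.factor_surjective (le_sup_left : I r ≤ K r _))
  omega

/-- left multiplication on the quotient -/
noncomputable def act : A F →ₐ[F] End F (A F ⧸ I r) where
  toFun a := (I r).mapQ (I r) (LinearMap.mulLeft F a) (fun b hb => I_left r a b hb)
  map_one' := by ext; simp
  map_mul' a b := by ext; simp [mul_assoc]
  map_zero' := by ext; simp
  map_add' a b := by ext; simp [add_mul]
  commutes' c := by ext; simp [← Submodule.Quotient.mk_smul]

lemma act_mk (a b : A F) : act r a ((I r).mkQ b) = (I r).mkQ (a * b) := rfl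

end relations

/-- Golod's nil algebra, as a cyclic module over the free algebra. -/
theorem golod (F : Type) [Field F] [Countable F] :
    ∃ (M : Type) (_ : AddCommGroup M) (_ : Module F M) (ρ : A F →ₐ[F] End F M) (e : M),
      ¬ FiniteDimensional F M ∧ (∀ m, ∃ a, ρ a e = m) ∧ ∀ a ∈ J F 1, IsNilpotent (ρ a) := by
  haveI : Countable (A F) := MonoidAlgebra.coeff_injective.countable
  obtain ⟨f, hf⟩ := exists_surjective_nat (J F 1)
  let r : ℕ → A F := fun k => (f k : A F) ^ (k + 2)
  refine ⟨A F ⧸ I r, inferInstance, inferInstance, act r, (I r).mkQ 1,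
    infinite_dim r fun k => J_pow _ (f k).2 _, fun m => ?_, fun a ha => ?_⟩
  · obtain ⟨a, rfl⟩ := (I r).mkQ_surjective m
    exact ⟨a, by rw [act_mk, mul_one]⟩
  · obtain ⟨k, hk⟩ := hf ⟨a, ha⟩
    refine ⟨k + 2, ?_⟩
    rw [← map_pow]
    refine LinearMap.ext fun m => ?_
    obtain ⟨b, rfl⟩ := (I r).mkQ_surjective m
    rw [act_mk, LinearMap.zero_apply, Submodule.mkQ_apply, Submodule.Quotient.mk_eq_zero]
    exact Submodule.subset_span ⟨1, k, b, by simp [r, hk]⟩

end Pool.Agent.H64.Golod
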