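import Pool.Agent.H64.ActDefs

namespace Pool.Agent.H64.Act

open Pool.Agent.H64.ActDefs

variable {K : Type} [Ring K] {X Y : Type}

/-- representations with a nonzero fixed vector -/
def Fix (K : Type) [Ring K] : Set (GRep K) := {ρ | ∃ v : ρ.V, v ≠ 0 ∧ ∀ g, ρ.act v g = v}

lemma act_zero (ρ : GRep K) (g : ρ.G) : ρ.act 0 g = 0 := by simp [GRep.act]
lemma act_one (ρ : GRep K) (v : ρ.V) : ρ.act v 1 = v := by simp [GRep.act]

lemma fix_abstract : IsAbstract (Fix K) := by
  rintro ρ σ ⟨e, f, h⟩ ⟨v, hv, hg⟩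
  refine ⟨e v, by simpa using hv, fun g => ?_⟩
  obtain ⟨g, rfl⟩ := f.surjective g
  rw [← h, hg]

lemma fix_saturated : IsSaturated (Fix K) := by
  intro ρ
  constructor
  · rintro ⟨v, hv, hg⟩
    refine ⟨v, hv, fun g => ?_⟩
    obtain ⟨g, rfl⟩ := QuotientGroup.mk_surjective g
    exact hg g
  · rintro ⟨v, hv, hg⟩
    exact ⟨v, hv, fun g => hg (QuotientGroup.mk g)⟩

lemma fix_hered : IsRightHereditary (Fix K) := by
  rintro ρ ⟨v, hv, hg⟩ H
  exact ⟨v, hv, fun g => hg g.1⟩

lemma actAlg_single (ρ : GRep K) (β : Y → ρ.G) (v : ρ.V) (f : FreeGroup Y) (k : K) :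
    ρ.actAlg β v (MonoidAlgebra.single f k) = k • ρ.act v (FreeGroup.lift β f) := by
  simp [GRep.actAlg]

noncomputable def ax (K : Type) [Ring K] (x : X) (y : Y) : Formula K X Y :=
  .exX x (.and (.not (.lin [(x, MonoidAlgebra.single 1 1)]))
    (.allY y (.lin [(x, MonoidAlgebra.single (FreeGroup.of y) 1),
      (x, MonoidAlgebra.single 1 (-1))])))

lemma fix_axiom (x : X) (y : Y) : Fix K = Models {ax K x y} := by
  ext ρ
  simp only [Models, Set.mem_singleton_iff, forall_eq, Set.mem_setOf_eq, ax, Sat, Fix,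
    List.map_cons, List.map_nil, List.sum_cons, List.sum_nil, actAlg_single, map_one, act_one,
    Function.update_self, FreeGroup.lift_apply_of, one_smul, add_zero, neg_smul, add_neg_eq_zero]
  constructor
  · exact fun h _ _ => h
  · exact fun h => h (fun _ => 0) (fun _ => 1)

lemma lift_local (f : FreeGroup Y) : ∃ S : Set Y, S.Finite ∧ ∀ (G : Type) [Group G]
    (β β' : Y → G), (∀ y ∈ S, β y = β' y) → FreeGroup.lift β f = FreeGroup.lift β' f := by
  induction f using FreeGroup.induction_on with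
  | C1 => exact ⟨∅, Set.finite_empty, fun G _ β β' _ => by simp⟩
  | of y => exact ⟨{y}, Set.finite_singleton y, fun G _ β β' h => by simpa using h⟩
  | inv_of y ih => exact ⟨{y}, Set.finite_singleton y, fun G _ β β' h => by simpa using h⟩
  | mul a b iha ihb =>
    obtain ⟨S, hS, h1⟩ := iha
    obtain ⟨T, hT, h2⟩ := ihb
    refine ⟨S ∪ T, hS.union hT, fun G _ β β' h => ?_⟩
    rw [map_mul, map_mul, h1 G β β' fun y hy => h y (Or.inl hy),
      h2 G β β' fun y hy => h y (Or.inr hy)]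

lemma lift_coe {G : Type} [Group G] (H : Subgroup G) (β : Y → H) (f : FreeGroup Y) :
    ((FreeGroup.lift β f : H) : G) = FreeGroup.lift (fun y => (β y : G)) f := by
  have : H.subtype.comp (FreeGroup.lift β) = FreeGroup.lift (fun y => (β y : G)) := by
    ext y; simp
  exact DFunLike.congr_fun this f

lemma alg_local (u : MonoidAlgebra K (FreeGroup Y)) : ∃ S : Set Y, S.Finite ∧
    ∀ (ρ : GRep K) (H : Subgroup ρ.G) (β : Y → ρ.G) (β' : Y → H), (∀ y ∈ S, β y = β' y) →
      ∀ v, ρ.actAlg β v u = (ρ.restrict H).actAlg β' v u := by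
  choose S hS h using lift_local (Y := Y)
  refine ⟨⋃ f ∈ u.coeff.support, S f, (u.coeff.support.finite_toSet).biUnion fun f _ => hS f,
    fun ρ H β β' hβ v => ?_⟩
  refine Finset.sum_congr rfl fun f hf => ?_
  have : FreeGroup.lift β f = ((FreeGroup.lift β' f : H) : ρ.G) := by
    rw [lift_coe]
    exact h f ρ.G _ _ fun y hy => hβ y (Set.mem_biUnion hf hy)
  show _ • ρ.act v (FreeGroup.lift β f) = _ • ρ.act v ((FreeGroup.lift β' f : H) : ρ.G)
  rw [this]
  rfl

lemma list_local (w : List (X × MonoidAlgebra K (FreeGroup Y))) : ∃ S : Set Y, S.Finite ∧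
    ∀ (ρ : GRep K) (H : Subgroup ρ.G) (β : Y → ρ.G) (β' : Y → H), (∀ y ∈ S, β y = β' y) →
      ∀ α : X → ρ.V, (w.map fun p => ρ.actAlg β (α p.1) p.2) =
        (w.map fun p => (ρ.restrict H).actAlg β' (α p.1) p.2) := by
  induction w with
  | nil => exact ⟨∅, Set.finite_empty, fun _ _ _ _ _ _ => rfl⟩
  | cons p w ih =>
    obtain ⟨S, hS, h1⟩ := alg_local p.2
    obtain ⟨T, hT, h2⟩ := ih
    refine ⟨S ∪ T, hS.union hT, fun ρ H β β' h α => ?_⟩
    rw [List.map_cons, h1 ρ H β β' fun y hy => h y (Or.inl hy),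
      h2 ρ H β β' fun y hy => h y (Or.inr hy)]
    rfl

lemma sat_local (φ : Formula K X Y) (hφ : IsActionFormula φ) : ∃ S : Set Y, S.Finite ∧
    ∀ (ρ : GRep K) (H : Subgroup ρ.G) (β : Y → ρ.G) (β' : Y → H), (∀ y ∈ S, β y = β' y) →
      ∀ α : X → ρ.V, Sat ρ φ α β ↔ Sat (ρ.restrict H) φ α β' := by
  induction φ with
  | lin w =>
    obtain ⟨S, hS, h⟩ := list_local w
    refine ⟨S, hS, fun ρ H β β' hβ α => ?_⟩
    simp only [Sat]
    rw [h ρ H β β' hβ α]
    rfl
  | one f => exact hφ.elim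
  | and φ ψ ih1 ih2 =>
    obtain ⟨S, hS, h1⟩ := ih1 hφ.1
    obtain ⟨T, hT, h2⟩ := ih2 hφ.2
    exact ⟨S ∪ T, hS.union hT, fun ρ H β β' h α =>
      and_congr (h1 ρ H β β' (fun y hy => h y (Or.inl hy)) α)
        (h2 ρ H β β' (fun y hy => h y (Or.inr hy)) α)⟩
  | or φ ψ ih1 ih2 =>
    obtain ⟨S, hS, h1⟩ := ih1 hφ.1
    obtain ⟨T, hT, h2⟩ := ih2 hφ.2
    exact ⟨S ∪ T, hS.union hT, fun ρ H β β' h α =>
      or_congr (h1 ρ H β β' (fun y hy => h y (Or.inl hy)) α)
        (h2 ρ H β β' (fun y hy => h y (Or.inr hy)) α)⟩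
  | not φ ih =>
    obtain ⟨S, hS, h⟩ := ih hφ
    exact ⟨S, hS, fun ρ H β β' hβ α => not_congr (h ρ H β β' hβ α)⟩
  | allX x φ ih =>
    obtain ⟨S, hS, h⟩ := ih hφ
    exact ⟨S, hS, fun ρ H β β' hβ α => forall_congr' fun v => h ρ H β β' hβ _⟩
  | exX x φ ih =>
    obtain ⟨S, hS, h⟩ := ih hφ
    exact ⟨S, hS, fun ρ H β β' hβ α => exists_congr fun v => h ρ H β β' hβ _⟩
  | allY y φ _ => exact hφ.elim
  | exY y φ _ => exact hφ.elim

/-- finitary permutations of the naturals -/
def FS : Subgroup (Equiv.Perm ℕ) where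
  carrier := {g | {i | g i ≠ i}.Finite}
  one_mem' := by simp
  mul_mem' := by
    intro a b ha hb
    refine (Set.Finite.union ha hb).subset fun i hi => ?_
    by_contra h
    simp only [Set.mem_union, Set.mem_setOf_eq, not_or, not_not] at h
    exact hi (by simp [h.1, h.2])
  inv_mem' := by
    intro a ha
    refine Set.Finite.subset ha fun i hi h => hi ?_
    rw [Equiv.Perm.inv_eq_iff_eq]
    exact h.symm

noncomputable def R (K : Type) [Ring K] : GRep K where
  V := ℕ →₀ K
  G := FS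
  hom :=
    { toFun := fun g => MulOpposite.op (Finsupp.domLCongr (g.1).symm)
      map_one' := by
        apply MulOpposite.unop_injective
        ext v i
        simp [Finsupp.equivMapDomain_apply]
      map_mul' := fun a b => by
        apply MulOpposite.unop_injective
        ext v i
        simp [Finsupp.equivMapDomain_apply] }

lemma R_act (v : ℕ →₀ K) (g : FS) (i : ℕ) :
    (show ℕ →₀ K from (R K).act v g) i = v (g.1 i) := rfl

lemma R_not [Nontrivial K] : R K ∉ Fix K := by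
  rintro ⟨v, hv, hg⟩
  change ℕ →₀ K at v
  obtain ⟨i, hi⟩ : ∃ i, v i ≠ 0 := by
    by_contra h
    push Not at h
    exact hv (Finsupp.ext h)
  obtain ⟨j, hj⟩ := Infinite.exists_notMem_finset v.support
  have hs : Equiv.swap i j ∈ FS := by
    refine (Set.toFinite {i, j}).subset fun k hk => ?_
    by_contra h
    simp only [Set.mem_insert_iff, Set.mem_singleton_iff, not_or] at h
    exact hk (Equiv.swap_apply_of_ne_of_ne h.1 h.2)
  have := R_act v ⟨_, hs⟩ j
  rw [hg] at this
  simp only [Equiv.swap_apply_right] at this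
  exact hj (Finsupp.mem_support_iff.2 (this ▸ hi))

def St (n : ℕ) : Subgroup FS := (MulAction.stabilizer (Equiv.Perm ℕ) n).comap FS.subtype

lemma R_res [Nontrivial K] (n : ℕ) : (R K).restrict (St n) ∈ Fix K := by
  refine ⟨(Finsupp.single n 1 : ℕ →₀ K), by
    intro h
    exact one_ne_zero (Finsupp.single_eq_zero.1 h), fun g => ?_⟩
  refine Finsupp.ext fun i => ?_
  have hg : g.1.1 n = n := g.2
  refine (R_act (Finsupp.single n (1 : K)) g.1 i).trans ?_
  simp only [Finsupp.single_apply]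
  congr 1
  apply propext
  constructor
  · intro h
    exact g.1.1.injective (hg.trans h)
  · rintro rfl
    exact hg.symm

lemma not_action [Nontrivial K] (T : Set (Formula K X Y)) (hT : ∀ φ ∈ T, IsActionFormula φ) :
    Fix K ≠ Models T := by
  intro h
  apply R_not (K := K)
  rw [h]
  intro φ hφ α β
  obtain ⟨S, hS, hl⟩ := sat_local φ (hT φ hφ)
  have hfin : (⋃ y ∈ S, {i | (show FS from β y).1 i ≠ i}).Finite :=
    hS.biUnion fun y _ => (show FS from β y).2
  obtain ⟨n, hn⟩ := hfin.infinite_compl.nonempty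
  classical
  have hmem : ∀ y ∈ S, β y ∈ St n := by
    intro y hy
    by_contra hc
    exact hn (Set.mem_biUnion hy hc)
  have h2 := R_res (K := K) n
  rw [h] at h2
  refine (hl (R K) (St n) β (fun y => if hy : y ∈ S then ⟨β y, hmem y hy⟩ else 1)
    (fun y hy => by simp [hy]) α).2 (h2 φ hφ α _)

theorem main (K X Y : Type) [Ring K] [Nontrivial K] [Infinite X] [Infinite Y] :
    ∃ C : Set (GRep K), IsAbstract C ∧ (∃ T : Set (Formula K X Y), C = Models T) ∧
      IsSaturated C ∧ IsRightHereditary C ∧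
      ¬ ∃ T : Set (Formula K X Y), (∀ φ ∈ T, IsActionFormula φ) ∧ C = Models T :=
  ⟨Fix K, fix_abstract, ⟨_, fix_axiom (Classical.arbitrary X) (Classical.arbitrary Y)⟩,
    fix_saturated, fix_hered, fun ⟨T, hT, h⟩ => not_action T hT h⟩

end Pool.Agent.H64.Act
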