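import Mathlib

/-! Representations `(V,G)` over a ring, two-sorted first-order formulas, formulas of action. -/

namespace Pool.Agent.H64.ActDefs

/-- A representation: a `K`-module `V` with a right action of a group `G` by automorphisms. -/
structure GRep (K : Type) [Ring K] : Type 1 where
  V : Type
  G : Type
  [addV : AddCommGroup V]
  [modV : Module K V]
  [grpG : Group G]
  hom : G →* (V ≃ₗ[K] V)ᵐᵒᵖ

attribute [instance] GRep.addV GRep.modV GRep.grpG

variable {K : Type} [Ring K]

/-- `v ∘ g`. -/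
def GRep.act (ρ : GRep K) (v : ρ.V) (g : ρ.G) : ρ.V := (ρ.hom g).unop v

/-- The faithful representation `(V, G/N)`, `N` the kernel of the action. -/
noncomputable def GRep.faithful (ρ : GRep K) : GRep K where
  V := ρ.V
  G := ρ.G ⧸ ρ.hom.ker
  hom := QuotientGroup.kerLift ρ.hom

/-- The subrepresentation `(V, H)`. -/
def GRep.restrict (ρ : GRep K) (H : Subgroup ρ.G) : GRep K where
  V := ρ.V
  G := H
  hom := ρ.hom.comp H.subtype

/-- Isomorphism of representations. -/
def GRep.Iso (ρ σ : GRep K) : Prop :=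
  ∃ (e : ρ.V ≃ₗ[K] σ.V) (f : ρ.G ≃* σ.G), ∀ v g, e (ρ.act v g) = σ.act (e v) (f g)

/-- First-order formulas with module variables `X` and group variables `Y`. -/
inductive Formula (K X Y : Type) [Ring K] : Type
  | lin (w : List (X × MonoidAlgebra K (FreeGroup Y))) : Formula K X Y
  | one (f : FreeGroup Y) : Formula K X Y
  | and (φ ψ : Formula K X Y) : Formula K X Y
  | or (φ ψ : Formula K X Y) : Formula K X Y
  | not (φ : Formula K X Y) : Formula K X Y
  | allX (x : X) (φ : Formula K X Y) : Formula K X Y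
  | exX (x : X) (φ : Formula K X Y) : Formula K X Y
  | allY (y : Y) (φ : Formula K X Y) : Formula K X Y
  | exY (y : Y) (φ : Formula K X Y) : Formula K X Y

variable {X Y : Type}

/-- The value of `v ∘ u` for `u = Σ k_f f ∈ KF` under the assignment `β : Y → G`. -/
noncomputable def GRep.actAlg (ρ : GRep K) (β : Y → ρ.G) (v : ρ.V)
    (u : MonoidAlgebra K (FreeGroup Y)) : ρ.V :=
  u.coeff.sum fun f k => k • ρ.act v (FreeGroup.lift β f)

open Classical in
/-- Satisfaction under assignments `α : X → V`, `β : Y → G`. -/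
def Sat (ρ : GRep K) : Formula K X Y → (X → ρ.V) → (Y → ρ.G) → Prop
  | .lin w, α, β => (w.map fun p => ρ.actAlg β (α p.1) p.2).sum = 0
  | .one f, _, β => FreeGroup.lift β f = 1
  | .and φ ψ, α, β => Sat ρ φ α β ∧ Sat ρ ψ α β
  | .or φ ψ, α, β => Sat ρ φ α β ∨ Sat ρ ψ α β
  | .not φ, α, β => ¬ Sat ρ φ α β
  | .allX x φ, α, β => ∀ v, Sat ρ φ (Function.update α x v) β
  | .exX x φ, α, β => ∃ v, Sat ρ φ (Function.update α x v) β
  | .allY y φ, α, β => ∀ g, Sat ρ φ α (Function.update β y g)
  | .exY y φ, α, β => ∃ g, Sat ρ φ α (Function.update β y g)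

/-- Formulas of action: type (1) atoms only, no quantifiers over group variables. -/
def IsActionFormula : Formula K X Y → Prop
  | .lin _ => True
  | .one _ => False
  | .and φ ψ => IsActionFormula φ ∧ IsActionFormula ψ
  | .or φ ψ => IsActionFormula φ ∧ IsActionFormula ψ
  | .not φ => IsActionFormula φ
  | .allX _ φ => IsActionFormula φ
  | .exX _ φ => IsActionFormula φ
  | .allY _ _ => False
  | .exY _ _ => False

/-- `T'`: the representations in which every formula of `T` holds under all assignments. -/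
def Models (T : Set (Formula K X Y)) : Set (GRep K) :=
  {ρ | ∀ φ ∈ T, ∀ α β, Sat ρ φ α β}

/-- Closed under isomorphism. -/
def IsAbstract (C : Set (GRep K)) : Prop := ∀ ρ σ : GRep K, ρ.Iso σ → ρ ∈ C → σ ∈ C

/-- Saturated class. -/
def IsSaturated (C : Set (GRep K)) : Prop := ∀ ρ : GRep K, ρ ∈ C ↔ ρ.faithful ∈ C

/-- Right hereditary class. -/
def IsRightHereditary (C : Set (GRep K)) : Prop :=
  ∀ ρ ∈ C, ∀ H : Subgroup ρ.G, ρ.restrict H ∈ C

end Pool.Agent.H64.ActDefs
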