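import Mathlib

/-! Affine algebraic groups over a field, given by their groups of points with coordinates. -/

namespace Pool.Agent.H64.AffDefs

open MvPolynomial

/-- The structure of (the group of `K`-points of) an affine algebraic group over `K` on a group
`G`: coordinates identify `G` with a Zariski closed subset of an affine space, and
multiplication and inversion are given by polynomials. -/
structure AffineGroupStr (K G : Type) [Field K] [Group G] : Type 1 where
  ι : Type
  fin : Finite ι
  coord : G → ι → K
  inj : Function.Injective coord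
  closed : ∃ S : Set (MvPolynomial ι K), ∀ c : ι → K, c ∈ Set.range coord ↔ ∀ p ∈ S, eval c p = 0
  mul_poly : ∀ i, ∃ p : MvPolynomial (ι ⊕ ι) K,
    ∀ g h, coord (g * h) i = eval (Sum.elim (coord g) (coord h)) p
  inv_poly : ∀ i, ∃ p : MvPolynomial ι K, ∀ g, coord g⁻¹ i = eval (coord g) p

/-- `φ = α ∘ σ_*` with `σ` a field automorphism applied to coordinates and `α` polynomial. -/
def IsSemialgebraic {K G H : Type} [Field K] [Group G] [Group H] (A : AffineGroupStr K G)
    (B : AffineGroupStr K H) (φ : G ≃* H) : Prop :=
  ∃ σ : K ≃+* K, ∀ j, ∃ p : MvPolynomial A.ι K,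
    ∀ g, B.coord (φ g) j = eval (fun i => σ (A.coord g i)) p

/-- Not a direct product of two nontrivial groups, even abstractly. -/
def Indecomposable (G : Type) [Group G] : Prop :=
  ∀ (G₁ G₂ : Type) [Group G₁] [Group G₂], (G ≃* G₁ × G₂) → Subsingleton G₁ ∨ Subsingleton G₂

/-- No proper subgroup of finite index (this forces Zariski connectedness). -/
def NoFiniteIndex (G : Type) [Group G] : Prop := ∀ H : Subgroup G, H.FiniteIndex → H = ⊤

end Pool.Agent.H64.AffDefs
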