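import Mathlib

set_option autoImplicit false

namespace Pool.Agent.H64.Alm

/-- abstract properties of the ideal of small-rank endomorphisms -/
structure Sm (E : Type*) [Ring E] where
  I : E → Prop
  zero : I 0
  add : ∀ {a b : E}, I a → I b → I (a + b)
  mull : ∀ (r : E) {a : E}, I a → I (r * a)
  mulr : ∀ {a : E} (r : E), I a → I (a * r)
  one : ¬ I 1
  big : ∀ {a : E}, ¬ I a → ∃ r s, r * a * s = 1
  small : ∀ {a : E}, I a → ∃ z l, l * z = 1 ∧ a * z = 0
  idem : ∀ {e : E}, e * e = e → ¬ I e → ∃ i p, p * i = 1 ∧ i * p = e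
  two : ∃ u0 u1 v0 v1 : E, v0 * u0 = 1 ∧ v1 * u1 = 1 ∧ v0 * u1 = 0 ∧ v1 * u0 = 0 ∧
    u0 * v0 + u1 * v1 = 1

variable {E : Type*} [Ring E] (S : Sm E)

theorem Sm.neg {a : E} (h : S.I a) : S.I (-a) := by
  have := S.mull (-1) h
  simpa using this

theorem Sm.sub {a b : E} (h : S.I a) (h' : S.I b) : S.I (a - b) := by
  rw [sub_eq_add_neg]; exact S.add h (S.neg h')

theorem Sm.sum {ι : Type*} (s : Finset ι) (f : ι → E) (h : ∀ i ∈ s, S.I (f i)) :
    S.I (∑ i ∈ s, f i) := by
  classical
  induction s using Finset.induction_on with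
  | empty => simpa using S.zero
  | insert a s ha ih =>
    rw [Finset.sum_insert ha]
    exact S.add (h a (Finset.mem_insert_self _ _))
      (ih fun i hi => h i (Finset.mem_insert_of_mem hi))

theorem Sm.notI {a l m : E} (h : l * a * m = 1) : ¬ S.I a := fun ha =>
  S.one (h ▸ S.mulr m (S.mull l ha))

include S in
theorem Sm.kill (c : E) : ∃ w w' z z' : E, w * w' = 1 ∧ z' * z = 1 ∧ w * c * z = 0 := by
  by_cases hc : S.I c
  · obtain ⟨z, l, h1, h2⟩ := S.small hc
    exact ⟨1, 1, z, l, by simp, h1, by simpa using h2⟩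
  · obtain ⟨r, s, h⟩ := S.big hc
    obtain ⟨u0, u1, v0, v1, h0, h1, h01, -, -⟩ := S.two
    refine ⟨v0 * r, c * s * u0, s * u1, v1 * r * c, ?_, ?_, ?_⟩
    · calc v0 * r * (c * s * u0) = v0 * (r * c * s) * u0 := by noncomm_ring
        _ = 1 := by rw [h, mul_one, h0]
    · calc v1 * r * c * (s * u1) = v1 * (r * c * s) * u1 := by noncomm_ring
        _ = 1 := by rw [h, mul_one, h1]
    · calc v0 * r * c * (s * u1) = v0 * (r * c * s) * u1 := by noncomm_ring
        _ = 0 := by rw [h, mul_one, h01]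

theorem Sm.half {a b : E} (ha : ¬ S.I a) :
    (∃ z l l', l * (a * z) = 1 ∧ l' * (b * z) = 1) ∨ (∃ z l, l * (a * z) = 1 ∧ b * z = 0) := by
  obtain ⟨r, s, h⟩ := S.big ha
  by_cases hb : S.I (b * s)
  · right
    obtain ⟨z, l, h1, h2⟩ := S.small hb
    refine ⟨s * z, l * r, ?_, by rw [← mul_assoc, h2]⟩
    calc l * r * (a * (s * z)) = l * (r * a * s) * z := by noncomm_ring
      _ = 1 := by rw [h, mul_one, h1]
  · left
    obtain ⟨r', s', h'⟩ := S.big hb
    refine ⟨s * s', r' * b * s * r, r', ?_, ?_⟩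
    · calc r' * b * s * r * (a * (s * s')) = r' * (b * s) * (r * a * s) * s' := by noncomm_ring
        _ = 1 := by rw [h, mul_one, h']
    · rw [← h']; noncomm_ring

theorem Sm.both {a b : E} (ha : ¬ S.I a) (hb : ¬ S.I b) :
    ∃ z l l', l * (a * z) = 1 ∧ l' * (b * z) = 1 := by
  rcases S.half (b := b) ha with h | ⟨z1, l1, h1, h1'⟩
  · exact h
  rcases S.half (b := a) hb with ⟨z, l, l', h, h'⟩ | ⟨z2, l2, h2, h2'⟩
  · exact ⟨z, l', l, h', h⟩
  refine ⟨z1 + z2, l1, l2, ?_, ?_⟩
  · rw [mul_add, h2', add_zero, h1]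
  · rw [mul_add, h1', zero_add, h2]

/-- x is the value of a unit in K -/
def InK (K : Subgroup Eˣ) (x : E) : Prop := ∃ k ∈ K, (k : E) = x

theorem InK.mul {K : Subgroup Eˣ} {x y : E} (hx : InK K x) (hy : InK K y) : InK K (x * y) := by
  obtain ⟨a, ha, rfl⟩ := hx
  obtain ⟨b, hb, rfl⟩ := hy
  exact ⟨a * b, K.mul_mem ha hb, by simp⟩

theorem InK.one (K : Subgroup Eˣ) : InK K 1 := ⟨1, K.one_mem, rfl⟩

theorem InK.inv {K : Subgroup Eˣ} {x y : E} (hx : InK K x) (h : x * y = 1) : InK K y := by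
  obtain ⟨a, ha, rfl⟩ := hx
  refine ⟨a⁻¹, K.inv_mem ha, ?_⟩
  calc ((a⁻¹ : Eˣ) : E) = (a⁻¹ : Eˣ) * ((a : E) * y) := by rw [h, mul_one]
    _ = y := by rw [← mul_assoc, Units.inv_mul, one_mul]

theorem InK.negsq {K : Subgroup Eˣ} {c : E} (hx : InK K (1 + c)) (h : c * c = 0) :
    InK K (1 - c) :=
  hx.inv (by
    calc (1 + c) * (1 - c) = 1 - c * c := by noncomm_ring
      _ = 1 := by rw [h, sub_zero])

theorem InK.commL {K : Subgroup Eˣ} {c z : E} (hc : InK K (1 + c)) (hz : InK K (1 + z))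
    (h1 : c * c = 0) (h2 : z * z = 0) (h3 : c * z = 0) : InK K (1 + z * c) := by
  have := ((hz.mul hc).mul (hz.negsq h2)).mul (hc.negsq h1)
  have e : (1 + z) * (1 + c) * (1 - z) * (1 - c) = 1 + z * c := by
    have e1 : (1 + z) * (1 + c) * (1 - z) = 1 + c + z * c - z * z - c * z - z * (c * z) := by
      noncomm_ring
    rw [e1, h2, h3]
    calc (1 + c + z * c - 0 - 0 - z * 0) * (1 - c) = 1 + z * c - c * c - z * (c * c) := by
          noncomm_ring
      _ = _ := by rw [h1]; simp
  rwa [e] at this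

theorem InK.commR {K : Subgroup Eˣ} {c z : E} (hc : InK K (1 + c)) (hz : InK K (1 + z))
    (h1 : c * c = 0) (h2 : z * z = 0) (h3 : z * c = 0) : InK K (1 + c * z) :=
  InK.commL hz hc h2 h1 h3

/-- partial swap: any z with f z left invertible is moved to -i -/
theorem move {K : Subgroup Eˣ} {e f i p : E} (hef : e + f = 1) (hff : f * f = f)
    (hpi : p * i = 1) (hip : i * p = e)
    (hU : ∀ b, f * b = 0 → b * f = b → InK K (1 + b))
    (hL : ∀ c, f * c = c → c * f = 0 → InK K (1 + c))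
    {z l : E} (hz : l * (f * z) = 1) : ∃ k ∈ K, (k : E) * z = -i := by
  have he : e = 1 - f := by rw [← hef]; simp
  have hfe : f * e = 0 := by rw [he, mul_sub, hff]; simp
  have hef' : e * f = 0 := by rw [he, sub_mul, hff]; simp
  have hei : e * i = i := by rw [← hip, mul_assoc, hpi, mul_one]
  have hpe : p * e = p := by rw [← hip, ← mul_assoc, hpi, one_mul]
  have hfi : f * i = 0 := by rw [← hei, ← mul_assoc, hfe, zero_mul]
  have hpf : p * f = 0 := by rw [← hpe, mul_assoc, hef', mul_zero]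
  have k1 : InK K (1 + -(e * z * l * f)) := hU _
    (by rw [mul_neg, ← mul_assoc, ← mul_assoc, ← mul_assoc, hfe]; simp)
    (by rw [neg_mul, mul_assoc _ f f, hff])
  have k2 : InK K (1 + -(i * l * f)) := hU _
    (by rw [mul_neg, ← mul_assoc, ← mul_assoc, hfi]; simp)
    (by rw [neg_mul, mul_assoc _ f f, hff])
  have k3 : InK K (1 + f * z * p) := hL _
    (by rw [← mul_assoc, ← mul_assoc, hff])
    (by rw [mul_assoc _ p f, hpf, mul_zero])
  obtain ⟨k, hk, hk'⟩ := (k3.mul k2).mul k1
  refine ⟨k, hk, ?_⟩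
  have a1 : (1 + -(e * z * l * f)) * z = f * z := by
    calc (1 + -(e * z * l * f)) * z = z - e * z * (l * (f * z)) := by noncomm_ring
      _ = (1 - e) * z := by rw [hz]; noncomm_ring
      _ = f * z := by rw [he]; simp
  have a2 : (1 + -(i * l * f)) * (f * z) = f * z - i := by
    calc (1 + -(i * l * f)) * (f * z) = f * z - i * (l * ((f * f) * z)) := by noncomm_ring
      _ = _ := by rw [hff, hz, mul_one]
  have a3 : (1 + f * z * p) * (f * z - i) = -i := by
    calc (1 + f * z * p) * (f * z - i)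
        = f * z - i + f * z * (p * f) * z - f * z * (p * i) := by noncomm_ring
      _ = -i := by rw [hpf, hpi]; noncomm_ring
  rw [hk', mul_assoc, mul_assoc, a1, a2, a3]

/-- generation of the unit group -/
theorem gen {K : Subgroup Eˣ} {e f : E} (hef : e + f = 1) (hff : f * f = f)
    (he : ¬ S.I e) (hf : ¬ S.I f)
    (hU : ∀ b, f * b = 0 → b * f = b → InK K (1 + b))
    (hL : ∀ c, f * c = c → c * f = 0 → InK K (1 + c))
    (hD : ∀ d : Eˣ, (d : E) * e = e → e * d = e → d ∈ K) : K = ⊤ := by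
  have he1 : e = 1 - f := by rw [← hef]; simp
  have hfe : f * e = 0 := by rw [he1, mul_sub, hff]; simp
  have hef' : e * f = 0 := by rw [he1, sub_mul, hff]; simp
  have hee : e * e = e := by
    calc e * e = e * (e + f) := by rw [mul_add, hef', add_zero]
      _ = e := by rw [hef, mul_one]
  obtain ⟨i, p, hpi, hip⟩ := S.idem hee he
  rw [eq_top_iff]
  intro g _
  have hfg : ¬ S.I (f * ((g⁻¹ : Eˣ) : E)) := fun h => hf (by
    have := S.mulr (g : E) h
    rwa [mul_assoc, Units.inv_mul, mul_one] at this)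
  obtain ⟨z, l, l', h1, h2⟩ := S.both hf hfg
  obtain ⟨k, hk, hkz⟩ := move hef hff hpi hip hU hL h1
  obtain ⟨k', hk', hkz'⟩ := move hef hff hpi hip hU hL (z := ((g⁻¹ : Eˣ) : E) * z) (l := l')
    (by rw [← h2]; noncomm_ring)
  set a : Eˣ := k * g * k'⁻¹ with ha
  have hai : (a : E) * i = i := by
    have : (a : E) * (-i) = -i := by
      conv_lhs => rw [← hkz']
      rw [ha, ← hkz]
      simp only [Units.val_mul, mul_assoc, Units.inv_mul_cancel_left, Units.mul_inv_cancel_left]
    simpa using this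
  have hae : (a : E) * e = e := by rw [← hip, ← mul_assoc, hai]
  have hae' : ((a⁻¹ : Eˣ) : E) * e = e := by
    conv_lhs => rw [← hae]
    rw [Units.inv_mul_cancel_left]
  have haK : a ∈ K := by
    have q : ∀ x y : E, x * y = 1 → x * e = e → y * e = e →
        (e + f * x * f) * (e + f * y * f) = 1 := by
      intro x y hxy hx hy
      have t1 : f * x * f * (f * y * f) = f := by
        calc f * x * f * (f * y * f) = f * x * (f * f) * y * f := by noncomm_ring
          _ = f * x * (1 - e) * y * f := by rw [hff, he1]; simp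
          _ = f * (x * y) * f - f * (x * e) * y * f := by noncomm_ring
          _ = f := by rw [hxy, hx, hfe, mul_one, hff]; simp
      calc (e + f * x * f) * (e + f * y * f)
          = e * e + (e * f) * y * f + f * x * (f * e) + f * x * f * (f * y * f) := by noncomm_ring
        _ = 1 := by rw [t1, hee, hef', hfe, ← hef]; simp
    let d : Eˣ := ⟨e + f * a * f, e + f * (a⁻¹ : Eˣ) * f, q _ _ a.mul_inv hae hae',
      q _ _ a.inv_mul hae' hae⟩
    have hd : d ∈ K := hD d
      (by show (e + f * a * f) * e = e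
          rw [add_mul, hee, mul_assoc _ f e, hfe]; simp)
      (by show e * (e + f * a * f) = e
          rw [mul_add, hee, ← mul_assoc, ← mul_assoc, hef']; simp)
    obtain ⟨u, hu, hu'⟩ := hU (e * a * f)
      (by rw [← mul_assoc, ← mul_assoc, hfe]; simp) (by rw [mul_assoc _ f f, hff])
    have : a = d * u := by
      ext
      rw [Units.val_mul d u, hu']
      show (a : E) = (e + f * a * f) * (1 + e * a * f)
      calc (a : E) = (e + f) * a * (e + f) := by rw [hef]; simp
        _ = e * (a * e) + f * (a * e) + e * a * f + f * a * f := by noncomm_ring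
        _ = e + f * a * f + (e * e) * a * f + f * a * (f * e) * a * f := by
          rw [hae, hee, hfe]; noncomm_ring
        _ = _ := by noncomm_ring
    rw [this]; exact K.mul_mem hd hu
  have : g = k⁻¹ * a * k' := by rw [ha]; group
  rw [this]
  exact K.mul_mem (K.mul_mem (K.inv_mem hk) haK) hk'

end Pool.Agent.H64.Alm
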