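import Pool.Agent.H64.Alm1

set_option autoImplicit false

namespace Pool.Agent.H64.Alm

variable {E : Type*} [Ring E] (S : Sm E) {ι : Type*} [Fintype ι] [DecidableEq ι]

structure Sys (e : ι → E) : Prop where
  idm : ∀ i, e i * e i = e i
  ort : ∀ i j, i ≠ j → e i * e j = 0
  tot : ∑ i, e i = 1
  big : ∀ i, ¬ S.I (e i)

/-- the almost stabiliser -/
def M (e : ι → E) : Subgroup Eˣ where
  carrier := {g | ∃ σ : Equiv.Perm ι, ∀ i, S.I ((g : E) * e i - e (σ i) * g)}
  one_mem' := ⟨1, fun i => by simpa using S.zero⟩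
  mul_mem' := by
    rintro a b ⟨σ, ha⟩ ⟨τ, hb⟩
    refine ⟨σ * τ, fun i => ?_⟩
    have := S.add (S.mull (a : E) (hb i)) (S.mulr (b : E) (ha (τ i)))
    convert this using 1
    simp only [Units.val_mul, Equiv.Perm.mul_apply]; noncomm_ring
  inv_mem' := by
    rintro a ⟨σ, ha⟩
    refine ⟨σ⁻¹, fun i => ?_⟩
    have := S.neg (S.mull ((a⁻¹ : Eˣ) : E) (S.mulr ((a⁻¹ : Eˣ) : E) (ha (σ⁻¹ i))))
    convert this using 1
    have h : σ (σ⁻¹ i) = i := by simp
    rw [h, sub_mul, mul_sub, mul_assoc (e i), Units.mul_inv, mul_one, mul_assoc,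
      Units.inv_mul_cancel_left]
    simp

variable {S} {e : ι → E}

theorem memM_comm {d : Eˣ} (h : ∀ i, (d : E) * e i = e i * d) : d ∈ M S e :=
  ⟨1, fun i => by rw [h i]; simpa using S.zero⟩

theorem Sys.sqz (H : Sys S e) {K : Subgroup Eˣ} (hK : M S e ≤ K) {i : ι} {z : E}
    (h1 : e i * z = z) (h2 : z * e i = z) (h : z * z = 0) : InK K (1 + z) := by
  let d : Eˣ := ⟨1 + z, 1 - z,
    by calc (1 + z) * (1 - z) = 1 - z * z := by noncomm_ring
        _ = 1 := by rw [h, sub_zero],
    by calc (1 - z) * (1 + z) = 1 - z * z := by noncomm_ring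
        _ = 1 := by rw [h, sub_zero]⟩
  refine ⟨d, hK (memM_comm fun j => ?_), rfl⟩
  show (1 + z) * e j = e j * (1 + z)
  by_cases hj : j = i
  · subst hj; rw [add_mul, mul_add, h1, h2]; simp
  · have a1 : z * e j = 0 := by rw [← h2, mul_assoc, H.ort i j (Ne.symm hj), mul_zero]
    have a2 : e j * z = 0 := by rw [← h1, ← mul_assoc, H.ort j i hj, zero_mul]
    rw [add_mul, mul_add, a1, a2]; simp

theorem Sys.cols (H : Sys S e) {g : Eˣ} (hg : g ∉ M S e) :
    ∃ j i k, i ≠ k ∧ ¬ S.I (e i * g * e j) ∧ ¬ S.I (e j * (g⁻¹ : Eˣ) * e k) := by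
  by_contra hcon
  push Not at hcon
  apply hg
  have ex : ∀ j, ∃ i, ¬ S.I (e i * g * e j) ∧ ¬ S.I (e j * (g⁻¹ : Eˣ) * e i) := by
    intro j
    by_contra h
    apply H.big j
    have : e j = ∑ i, (e j * (g⁻¹ : Eˣ) * e i) * (e i * g * e j) := by
      calc e j = e j * (g⁻¹ : Eˣ) * (∑ i, e i) * g * e j := by
            rw [H.tot, mul_one, mul_assoc (e j), Units.inv_mul, mul_one, H.idm]
        _ = _ := by
          rw [Finset.mul_sum, Finset.sum_mul, Finset.sum_mul]
          refine Finset.sum_congr rfl fun i _ => ?_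
          conv_lhs => rw [← H.idm i]
          noncomm_ring
    rw [this]
    refine S.sum _ _ fun i _ => ?_
    by_cases h1 : S.I (e i * g * e j)
    · exact S.mull _ h1
    · refine S.mulr _ ?_
      by_contra h2
      exact h ⟨i, h1, h2⟩
  choose σ h1 h2 using ex
  have h3 : ∀ j i, i ≠ σ j → S.I (e i * g * e j) := fun j i hi => by
    by_contra h
    exact h2 j (hcon j i (σ j) hi h)
  have hs : Function.Surjective σ := by
    intro i
    by_contra h
    apply H.big i
    have : e i = ∑ j, (e i * g * e j) * ((g⁻¹ : Eˣ) * e i) := by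
      calc e i = e i * g * (∑ j, e j) * ((g⁻¹ : Eˣ) * e i) := by
            rw [H.tot, mul_one, mul_assoc (e i), Units.mul_inv_cancel_left, H.idm]
        _ = _ := by rw [Finset.mul_sum, Finset.sum_mul]
    rw [this]
    exact S.sum _ _ fun j _ => S.mulr _ (h3 j i fun hh => h ⟨j, hh.symm⟩)
  have hb : Function.Bijective σ := Finite.surjective_iff_bijective.mp hs
  refine ⟨Equiv.ofBijective σ hb, fun j => ?_⟩
  show S.I ((g : E) * e j - e (σ j) * g)
  have a1 : S.I ((g : E) * e j - e (σ j) * g * e j) := by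
    have : (g : E) * e j - e (σ j) * g * e j = ∑ i ∈ Finset.univ.erase (σ j), e i * g * e j := by
      rw [Finset.sum_erase_eq_sub (Finset.mem_univ _), ← Finset.sum_mul, ← Finset.sum_mul, H.tot,
        one_mul]
    rw [this]
    exact S.sum _ _ fun i hi => h3 j i (Finset.ne_of_mem_erase hi)
  have a2 : S.I (e (σ j) * g - e (σ j) * g * e j) := by
    have : e (σ j) * (g : E) - e (σ j) * g * e j
        = ∑ i ∈ Finset.univ.erase j, e (σ j) * g * e i := by
      rw [Finset.sum_erase_eq_sub (Finset.mem_univ _), ← Finset.mul_sum, H.tot, mul_one]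
    rw [this]
    exact S.sum _ _ fun i hi => h3 i (σ j) fun hh => Finset.ne_of_mem_erase hi (hb.1 hh).symm
  have := S.sub a1 a2
  convert this using 1
  noncomm_ring

/-- a big transvection in K -/
theorem Sys.trans (H : Sys S e) {K : Subgroup Eˣ} (hK : M S e ≤ K) {g : Eˣ} (hgK : g ∈ K)
    (hg : g ∉ M S e) :
    ∃ i k a, i ≠ k ∧ e i * a = a ∧ a * e k = a ∧ ¬ S.I a ∧ InK K (1 + a) := by
  obtain ⟨j, i, k, hik, hα, hβ⟩ := H.cols hg
  obtain ⟨r, r', hr⟩ := S.big hα
  obtain ⟨s, s', hs⟩ := S.big hβ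
  obtain ⟨ik, pk, hpi, hip⟩ := S.idem (H.idm k) (H.big k)
  obtain ⟨ii, pi, hpi', hip'⟩ := S.idem (H.idm i) (H.big i)
  obtain ⟨w, w', z0, z0', hw, hz0, h0⟩ := S.kill (s * e j * r')
  obtain ⟨w1, w1', z1, z1', hw1, hz1, h1⟩ := S.kill (pk * g * e j * r' * z0)
  obtain ⟨w2, w2', z2, z2', hw2, hz2, h2⟩ := S.kill (w1 * pk * s' * w')
  have hpk : pk * e k = pk := by rw [← hip, ← mul_assoc, hpi, one_mul]
  have hii : e i * ii = ii := by rw [← hip', mul_assoc, hpi', mul_one]
  set G : E := (g : E) with hG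
  set G' : E := ((g⁻¹ : Eˣ) : E) with hG'
  have hGG : G * G' = 1 := g.mul_inv
  have hGG' : G' * G = 1 := g.inv_mul
  have hjj := H.idm j
  have hkk := H.idm k
  set x : E := e j * r' * z0 * z1 * (w * s * e j) with hx
  set y : E := e k * s' * w' * z2 * (w2 * w1 * pk) with hy
  have hxx : x * x = 0 := by
    calc x * x = e j * r' * z0 * z1 * (w * (s * (e j * e j) * r') * z0) * z1 * (w * s * e j) := by
          rw [hx]; noncomm_ring
      _ = 0 := by rw [hjj, h0]; simp
  have hyy : y * y = 0 := by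
    calc y * y = e k * s' * w' * z2 * (w2 * (w1 * (pk * e k) * s' * w') * z2) * (w2 * w1 * pk) := by
          rw [hy]; noncomm_ring
      _ = 0 := by rw [hpk, h2]; simp
  have hyx : y * G * x = 0 := by
    calc y * G * x = e k * s' * w' * z2 * w2 * (w1 * (pk * G * e j * r' * z0) * z1) * (w * s * e j) := by
          rw [hy, hx]; noncomm_ring
      _ = 0 := by rw [h1]; simp
  have kx : InK K (1 + x) := H.sqz hK (i := j)
    (by rw [hx]; simp only [← mul_assoc, hjj]) (by rw [hx]; simp only [mul_assoc, hjj]) hxx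
  have hyk : y * e k = y := by rw [hy]; simp only [mul_assoc, hpk]
  have hky : e k * y = y := by rw [hy]; simp only [← mul_assoc, hkk]
  have ky : InK K (1 + y) := H.sqz hK (i := k) hky hyk hyy
  have kG : InK K G := ⟨g, hgK, rfl⟩
  have kG' : InK K G' := ⟨g⁻¹, K.inv_mem hgK, rfl⟩
  have kh : InK K (1 + G * x * G') := by
    have := (kG.mul kx).mul kG'
    rwa [mul_add, add_mul, mul_one, hGG] at this
  have hh : (G * x * G') * (G * x * G') = 0 := by
    calc (G * x * G') * (G * x * G') = G * x * (G' * G) * x * G' := by noncomm_ring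
      _ = G * (x * x) * G' := by rw [hGG']; noncomm_ring
      _ = 0 := by rw [hxx]; simp
  have hyh : y * (G * x * G') = 0 := by rw [← mul_assoc, ← mul_assoc, hyx, zero_mul]
  have kc : InK K (1 + G * x * G' * y) := InK.commL ky kh hyy hh hyh
  set c : E := G * x * G' * y with hc
  have hcc : c * c = 0 := by
    calc c * c = G * x * G' * (y * (G * x * G')) * y := by rw [hc]; noncomm_ring
      _ = 0 := by rw [hyh]; simp
  have hck : c * e k = c := by rw [hc, mul_assoc, hyk]
  have hbig : ¬ S.I (e i * c) := by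
    apply S.notI (l := z2' * z1' * z0' * r) (m := ik * w1' * w2')
    calc z2' * z1' * z0' * r * (e i * c) * (ik * w1' * w2')
        = z2' * z1' * z0' * (r * (e i * G * e j) * r') * z0 * z1 *
          (w * (s * (e j * G' * e k) * s') * w') * z2 * (w2 * (w1 * (pk * ik) * w1') * w2') := by
          rw [hc, hx, hy]; noncomm_ring
      _ = z2' * (z1' * (z0' * z0) * z1) * z2 := by
          rw [hr, hs, hpi, mul_one w, hw, mul_one w1, hw1, mul_one w2, hw2]; noncomm_ring
      _ = 1 := by rw [hz0, mul_one, hz1, mul_one, hz2]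
  obtain ⟨t, t', ht⟩ := S.big hbig
  obtain ⟨w3, w3', z3, z3', hw3, hz3, h3⟩ := S.kill (t * ii)
  set z : E := ii * z3 * (w3 * t * e i) with hz
  have hzz : z * z = 0 := by
    calc z * z = ii * z3 * (w3 * (t * (e i * ii)) * z3) * (w3 * t * e i) := by
          rw [hz]; noncomm_ring
      _ = 0 := by rw [hii, h3]; simp
  have hiz : e i * z = z := by rw [hz]; simp only [← mul_assoc, hii]
  have kz : InK K (1 + z) := H.sqz hK (i := i) hiz
    (by rw [hz]; simp only [mul_assoc, H.idm i]) hzz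
  have hcz : c * z = 0 := by
    rw [← hck, ← hiz, mul_assoc, ← mul_assoc (e k), H.ort k i hik.symm]; simp
  refine ⟨i, k, z * c, hik, by rw [← mul_assoc, hiz], by rw [mul_assoc, hck], ?_,
    InK.commL kc kz hcc hzz hcz⟩
  apply S.notI (l := z3' * pi) (m := t' * w3')
  calc z3' * pi * (z * c) * (t' * w3')
      = z3' * (pi * ii) * z3 * (w3 * (t * (e i * c) * t') * w3') := by rw [hz]; noncomm_ring
    _ = 1 := by rw [hpi', ht, mul_one, hz3, mul_one, hw3, one_mul]

end Pool.Agent.H64.Alm
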