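import Pool.Agent.H64.Alm2

set_option autoImplicit false

namespace Pool.Agent.H64.Alm

variable {E : Type*} [Ring E] {S : Sm E} {ι : Type*} [Fintype ι] [DecidableEq ι] {e : ι → E}

/-- the corner ring is additively generated by products of square-zero elements -/
theorem corner (S : Sm E) {ε : E} (hε : ε * ε = ε) (hb : ¬ S.I ε) (r : E) :
    ∃ a b c c' d d' : E, ε * r * ε = a + b + c * c' + d * d' ∧
      (∀ z ∈ [a, b, c, c', d, d'], ε * z = z ∧ z * ε = z ∧ z * z = 0) := by
  obtain ⟨i, p, hpi, hip⟩ := S.idem hε hb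
  obtain ⟨u0, u1, v0, v1, h0, h1, h01, h10, hs⟩ := S.two
  have hi : ε * i = i := by rw [← hip, mul_assoc, hpi, mul_one]
  have hp : p * ε = p := by rw [← hip, ← mul_assoc, hpi, one_mul]
  have key : ∀ u m v : E, v * u = 0 →
      ε * (i * u * m * v * p) = i * u * m * v * p ∧ i * u * m * v * p * ε = i * u * m * v * p ∧
        (i * u * m * v * p) * (i * u * m * v * p) = 0 := by
    intro u m v h
    refine ⟨by simp only [← mul_assoc, hi], by simp only [mul_assoc, hp], ?_⟩
    calc (i * u * m * v * p) * (i * u * m * v * p)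
        = i * u * m * (v * (p * i) * u) * m * v * p := by noncomm_ring
      _ = 0 := by rw [hpi, mul_one v, h]; simp
  refine ⟨i * u0 * (v0 * p * r * i * u1) * v1 * p, i * u1 * (v1 * p * r * i * u0) * v0 * p,
    i * u0 * (v0 * p * r * i * u0) * v1 * p, i * u1 * 1 * v0 * p,
    i * u1 * (v1 * p * r * i * u1) * v0 * p, i * u0 * 1 * v1 * p, ?_, ?_⟩
  · have e1 : i * u0 * (v0 * p * r * i * u0) * v1 * p * (i * u1 * 1 * v0 * p)
        = i * u0 * (v0 * p * r * i * u0) * v0 * p := by
      calc _ = i * u0 * (v0 * p * r * i * u0) * (v1 * (p * i) * u1) * v0 * p := by noncomm_ring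
        _ = _ := by rw [hpi, mul_one v1, h1, mul_one]
    have e2 : i * u1 * (v1 * p * r * i * u1) * v0 * p * (i * u0 * 1 * v1 * p)
        = i * u1 * (v1 * p * r * i * u1) * v1 * p := by
      calc _ = i * u1 * (v1 * p * r * i * u1) * (v0 * (p * i) * u0) * v1 * p := by noncomm_ring
        _ = _ := by rw [hpi, mul_one v0, h0, mul_one]
    rw [e1, e2]
    calc ε * r * ε = i * (u0 * v0 + u1 * v1) * p * r * i * (u0 * v0 + u1 * v1) * p := by
          rw [hs, ← hip]; noncomm_ring
      _ = _ := by noncomm_ring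
  · intro z hz
    simp only [List.mem_cons, List.not_mem_nil, or_false] at hz
    rcases hz with rfl | rfl | rfl | rfl | rfl | rfl
    · exact key _ _ _ h10
    · exact key _ _ _ h01
    · exact key _ _ _ h10
    · exact key _ _ _ h01
    · exact key _ _ _ h01
    · exact key _ _ _ h10

/-- transvections in position i k lying in K -/
def T (e : ι → E) (K : Subgroup Eˣ) (i k : ι) (a : E) : Prop :=
  e i * a = a ∧ a * e k = a ∧ InK K (1 + a)

theorem Sys.Tzero (H : Sys S e) {K : Subgroup Eˣ} {i k : ι} (hik : i ≠ k) {a b : E}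
    (ha : T e K i k a) (hb : e i * b = b) : a * b = 0 := by
  rw [← ha.2.1, ← hb, mul_assoc, ← mul_assoc (e k), H.ort k i hik.symm]; simp

theorem Sys.Tadd (H : Sys S e) {K : Subgroup Eˣ} {i k : ι} (hik : i ≠ k) {a b : E}
    (ha : T e K i k a) (hb : T e K i k b) : T e K i k (a + b) := by
  refine ⟨by rw [mul_add, ha.1, hb.1], by rw [add_mul, ha.2.1, hb.2.1], ?_⟩
  have := ha.2.2.mul hb.2.2
  rwa [show (1 + a) * (1 + b) = 1 + (a + b) + a * b by noncomm_ring, H.Tzero hik ha hb.1,
    add_zero] at this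

theorem Sys.TL (H : Sys S e) {K : Subgroup Eˣ} (hK : M S e ≤ K) {i k : ι} (hik : i ≠ k) {a : E}
    (ha : T e K i k a) (r : E) : T e K i k (e i * r * e i * a) := by
  have q : ∀ z b : E, (e i * z = z ∧ z * e i = z ∧ z * z = 0) → T e K i k b →
      T e K i k (z * b) := fun z b hz hb =>
    ⟨by rw [← mul_assoc, hz.1], by rw [mul_assoc, hb.2.1],
      InK.commL hb.2.2 (H.sqz hK hz.1 hz.2.1 hz.2.2) (H.Tzero hik hb hb.1) hz.2.2
        (H.Tzero hik hb hz.1)⟩
  obtain ⟨x, y, c, c', d, d', h, hz⟩ := corner S (H.idm i) (H.big i) r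
  rw [h, add_mul, add_mul, add_mul, mul_assoc, mul_assoc]
  exact H.Tadd hik (H.Tadd hik (H.Tadd hik (q _ _ (hz x (by simp)) ha) (q _ _ (hz y (by simp)) ha))
    (q _ _ (hz c (by simp)) (q _ _ (hz c' (by simp)) ha)))
    (q _ _ (hz d (by simp)) (q _ _ (hz d' (by simp)) ha))

theorem Sys.TR (H : Sys S e) {K : Subgroup Eˣ} (hK : M S e ≤ K) {i k : ι} (hik : i ≠ k) {a : E}
    (ha : T e K i k a) (r : E) : T e K i k (a * (e k * r * e k)) := by
  have q : ∀ z b : E, (e k * z = z ∧ z * e k = z ∧ z * z = 0) → T e K i k b →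
      T e K i k (b * z) := fun z b hz hb =>
    ⟨by rw [← mul_assoc, hb.1], by rw [mul_assoc, hz.2.1],
      InK.commR hb.2.2 (H.sqz hK hz.1 hz.2.1 hz.2.2) (H.Tzero hik hb hb.1) hz.2.2
        (by rw [← hz.2.1, ← hb.1, mul_assoc, ← mul_assoc (e k), H.ort k i hik.symm]; simp)⟩
  obtain ⟨x, y, c, c', d, d', h, hz⟩ := corner S (H.idm k) (H.big k) r
  rw [h, mul_add, mul_add, mul_add, ← mul_assoc, ← mul_assoc]
  exact H.Tadd hik (H.Tadd hik (H.Tadd hik (q _ _ (hz x (by simp)) ha) (q _ _ (hz y (by simp)) ha))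
    (q _ _ (hz c' (by simp)) (q _ _ (hz c (by simp)) ha)))
    (q _ _ (hz d' (by simp)) (q _ _ (hz d (by simp)) ha))

theorem Sys.perm (H : Sys S e) (σ : Equiv.Perm ι) :
    ∃ w : Eˣ, ∀ i, (w : E) * e i = e (σ i) * w := by
  choose ii p hpi hip using fun i => S.idem (H.idm i) (H.big i)
  have hi : ∀ i, e i * ii i = ii i := fun i => by rw [← hip, mul_assoc, hpi, mul_one]
  have hp : ∀ i, p i * e i = p i := fun i => by rw [← hip, ← mul_assoc, hpi, one_mul]
  have hpj : ∀ i j, i ≠ j → p i * e j = 0 := fun i j h => by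
    rw [← hp i, mul_assoc, H.ort i j h, mul_zero]
  have hij : ∀ i j, i ≠ j → e j * ii i = 0 := fun i j h => by
    rw [← hi i, ← mul_assoc, H.ort j i h.symm, zero_mul]
  have hpij : ∀ i j, i ≠ j → p i * ii j = 0 := fun i j h => by
    rw [← hi j, ← mul_assoc, hpj i j h, zero_mul]
  have mul : ∀ τ τ' : Equiv.Perm ι, (∑ i, ii (τ i) * p i) * (∑ i, ii (τ' i) * p i)
      = ∑ i, ii ((τ * τ') i) * p i := by
    intro τ τ'
    rw [Finset.mul_sum]
    refine Finset.sum_congr rfl fun j _ => ?_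
    rw [Finset.sum_mul, Finset.sum_eq_single (τ' j)]
    · rw [mul_assoc, ← mul_assoc (p _), hpi, one_mul]; rfl
    · intro b _ hb
      rw [mul_assoc, ← mul_assoc (p _), hpij _ _ hb]; simp
    · simp
  have one : ∑ i, ii ((1 : Equiv.Perm ι) i) * p i = 1 := by
    rw [← H.tot]; exact Finset.sum_congr rfl fun i _ => hip i
  refine ⟨⟨∑ i, ii (σ i) * p i, ∑ i, ii (σ⁻¹ i) * p i, by rw [mul, mul_inv_cancel, one],
    by rw [mul, inv_mul_cancel, one]⟩, fun j => ?_⟩
  show (∑ i, ii (σ i) * p i) * e j = e (σ j) * ∑ i, ii (σ i) * p i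
  rw [Finset.sum_mul, Finset.mul_sum, Finset.sum_eq_single j, Finset.sum_eq_single j]
  · rw [mul_assoc, hp, ← mul_assoc, hi]
  · intro b _ hb
    rw [← mul_assoc, hij _ _ (fun h => hb (σ.injective h)), zero_mul]
  · simp
  · intro b _ hb
    rw [mul_assoc, hpj _ _ hb, mul_zero]
  · simp

theorem Sys.allT (H : Sys S e) {K : Subgroup Eˣ} (hK : M S e < K) {i' k' : ι} (h' : i' ≠ k')
    (b : E) : InK K (1 + e i' * b * e k') := by
  obtain ⟨g, hgK, hg⟩ := SetLike.exists_of_lt hK
  obtain ⟨i, k, a, hik, h1, h2, h3, h4⟩ := H.trans hK.le hgK hg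
  obtain ⟨r, s, hr⟩ := S.big h3
  have all : ∀ b : E, InK K (1 + e i * b * e k) := by
    intro b
    have := (H.TR hK.le hik (H.TL hK.le hik ⟨h1, h2, h4⟩ (b * r)) s).2.2
    convert this using 2
    calc e i * b * e k = e i * b * (r * a * s) * e k := by rw [hr, mul_one]
      _ = e i * b * (r * (e i * (a * e k)) * s) * e k := by rw [h2, h1]
      _ = _ := by noncomm_ring
  let σ : Equiv.Perm ι := Equiv.swap (Equiv.swap i i' k) k' * Equiv.swap i i'
  have s1 : σ i = i' := by
    show Equiv.swap (Equiv.swap i i' k) k' (Equiv.swap i i' i) = i'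
    rw [Equiv.swap_apply_left]
    refine Equiv.swap_apply_of_ne_of_ne (fun h => hik ?_) h'
    apply (Equiv.swap i i').injective
    rw [Equiv.swap_apply_left]; exact h
  have s2 : σ k = k' := by
    show Equiv.swap (Equiv.swap i i' k) k' (Equiv.swap i i' k) = k'
    rw [Equiv.swap_apply_left]
  obtain ⟨w, hw⟩ := H.perm σ
  have hwK : w ∈ K := hK.le ⟨σ, fun j => by rw [hw j]; simpa using S.zero⟩
  have k1 : InK K (w : E) := ⟨w, hwK, rfl⟩
  have k2 : InK K ((w⁻¹ : Eˣ) : E) := ⟨w⁻¹, K.inv_mem hwK, rfl⟩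
  have := (k1.mul (all ((w⁻¹ : Eˣ) * b * w))).mul k2
  convert this using 1
  have a1 := hw i
  have a2 := hw k
  rw [s1] at a1
  rw [s2] at a2
  calc 1 + e i' * b * e k'
      = 1 + e i' * ((w : E) * (w⁻¹ : Eˣ)) * b * e k' * ((w : E) * (w⁻¹ : Eˣ)) := by
        rw [w.mul_inv]; simp
    _ = (w : E) * (w⁻¹ : Eˣ) + (e i' * w) * (w⁻¹ : Eˣ) * b * (e k' * w) * (w⁻¹ : Eˣ) := by
        rw [w.mul_inv, ← w.mul_inv]; noncomm_ring
    _ = _ := by rw [← a1, ← a2]; noncomm_ring

theorem InK.sum {K : Subgroup Eˣ} (s : Finset ι) (f : ι → E) (h : ∀ i ∈ s, InK K (1 + f i))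
    (h0 : ∀ i ∈ s, ∀ j ∈ s, f i * f j = 0) : InK K (1 + ∑ i ∈ s, f i) := by
  induction s using Finset.induction_on with
  | empty => simpa using InK.one K
  | insert a s ha ih =>
    have h1 := ih (fun i hi => h i (Finset.mem_insert_of_mem hi))
      (fun i hi j hj => h0 i (Finset.mem_insert_of_mem hi) j (Finset.mem_insert_of_mem hj))
    have := (h a (Finset.mem_insert_self _ _)).mul h1
    have z : f a * ∑ i ∈ s, f i = 0 := by
      rw [Finset.mul_sum]
      exact Finset.sum_eq_zero fun j hj =>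
        h0 a (Finset.mem_insert_self _ _) j (Finset.mem_insert_of_mem hj)
    rw [Finset.sum_insert ha]
    rwa [show (1 + f a) * (1 + ∑ i ∈ s, f i) = 1 + (f a + ∑ i ∈ s, f i) + f a * ∑ i ∈ s, f i by
      noncomm_ring, z, add_zero] at this

theorem Sys.coatom (H : Sys S e) {o o' : ι} (ho : o ≠ o') : IsCoatom (M S e) := by
  have hsum : ∑ j ∈ Finset.univ.erase o, e j = 1 - e o := by
    rw [Finset.sum_erase_eq_sub (Finset.mem_univ _), H.tot]
  constructor
  · intro htop
    obtain ⟨i, p, hpi, hip⟩ := S.idem (H.idm o) (H.big o)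
    obtain ⟨i', p', hpi', hip'⟩ := S.idem (H.idm o') (H.big o')
    have hi : e o * i = i := by rw [← hip, mul_assoc, hpi, mul_one]
    have hp : p' * e o' = p' := by rw [← hip', ← mul_assoc, hpi', one_mul]
    have h0 : e o' * i = 0 := by rw [← hi, ← mul_assoc, H.ort o' o ho.symm, zero_mul]
    have hss : (i * p') * (i * p') = 0 := by
      rw [← hp]
      calc i * (p' * e o') * (i * (p' * e o')) = i * p' * (e o' * i) * (p' * e o') := by noncomm_ring
        _ = 0 := by rw [h0]; simp
    let d : Eˣ := ⟨1 + i * p', 1 - i * p',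
      by calc (1 + i * p') * (1 - i * p') = 1 - (i * p') * (i * p') := by noncomm_ring
          _ = 1 := by rw [hss, sub_zero],
      by calc (1 - i * p') * (1 + i * p') = 1 - (i * p') * (i * p') := by noncomm_ring
          _ = 1 := by rw [hss, sub_zero]⟩
    obtain ⟨σ, hσ⟩ : d ∈ M S e := htop ▸ Subgroup.mem_top d
    have h1 : S.I ((1 + i * p') * e o' - e (σ o') * (1 + i * p')) := hσ o'
    by_cases hs : σ o' = o'
    · rw [hs, add_mul, mul_add, mul_assoc, hp, ← mul_assoc, h0] at h1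
      refine S.notI (l := p) (m := i') ?_ h1
      calc p * (1 * e o' + i * p' - (e o' * 1 + 0 * p')) * i' = (p * i) * (p' * i') := by
            noncomm_ring
        _ = 1 := by rw [hpi, hpi', one_mul]
    · apply H.big o'
      have := S.mull (e o') h1
      rwa [mul_sub, ← mul_assoc (e o') (e (σ o')), H.ort _ _ (Ne.symm hs), zero_mul, sub_zero,
        ← mul_assoc, mul_add, ← mul_assoc, h0, zero_mul, add_zero, mul_one, H.idm] at this
  · intro K hK
    refine gen S (e := 1 - e o) (f := e o) (by simp) (H.idm o) ?_ (H.big o) ?_ ?_ ?_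
    · intro h
      apply H.big o'
      have := S.mull (e o') h
      rwa [mul_sub, H.ort _ _ ho.symm, mul_one, sub_zero] at this
    · intro b h1 h2
      have : b = ∑ j ∈ Finset.univ.erase o, e j * b * e o := by
        rw [← Finset.sum_mul, ← Finset.sum_mul, hsum, sub_mul, h1, one_mul, sub_zero, h2]
      rw [this]
      refine InK.sum _ _ (fun j hj => H.allT hK (Finset.ne_of_mem_erase hj) b) ?_
      intro i _ j hj
      calc e i * b * e o * (e j * b * e o) = e i * b * (e o * e j) * b * e o := by noncomm_ring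
        _ = 0 := by rw [H.ort o j (Finset.ne_of_mem_erase hj).symm]; simp
    · intro b h1 h2
      have : b = ∑ j ∈ Finset.univ.erase o, e o * b * e j := by
        rw [← Finset.mul_sum, hsum, h1, mul_sub, h2, mul_one, sub_zero]
      rw [this]
      refine InK.sum _ _ (fun j hj => H.allT hK (Finset.ne_of_mem_erase hj).symm b) ?_
      intro i hi j _
      calc e o * b * e i * (e o * b * e j) = e o * b * (e i * e o) * b * e j := by noncomm_ring
        _ = 0 := by rw [H.ort i o (Finset.ne_of_mem_erase hi)]; simp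
    · intro d h1 h2
      refine hK.le (memM_comm fun j => ?_)
      by_cases hj : j = o
      · subst hj
        have a1 : (d : E) * e j = d - (1 - e j) := by rw [← h1]; noncomm_ring
        have a2 : e j * (d : E) = d - (1 - e j) := by rw [← h2]; noncomm_ring
        rw [a1, a2]
      · have b1 : (1 - e o) * e j = e j := by rw [sub_mul, H.ort o j (Ne.symm hj)]; simp
        have b2 : e j * (1 - e o) = e j := by rw [mul_sub, H.ort j o hj]; simp
        calc (d : E) * e j = d * (1 - e o) * e j := by rw [mul_assoc, b1]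
          _ = e j * ((1 - e o) * d) := by rw [h1, h2, b1, b2]
          _ = e j * d := by rw [← mul_assoc, b2]

end Pool.Agent.H64.Alm
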