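import Pool.Agent.H64.Alm3

set_option autoImplicit false

namespace Pool.Agent.H64.Alm

universe u v

variable {F : Type v} [Field F] {V : Type u} [AddCommGroup V] [Module F V]

theorem emb (U : Submodule F V) (h : ¬ Module.rank F U < Module.rank F V) :
    ∃ z l : Module.End F V, l * z = 1 ∧ LinearMap.range z = U := by
  have h1 : Module.rank F V = Module.rank F U := le_antisymm (not_lt.mp h) (Submodule.rank_le U)
  obtain ⟨φ⟩ := nonempty_linearEquiv_of_rank_eq h1
  obtain ⟨l, hl⟩ := LinearMap.exists_leftInverse_of_injective (U.subtype ∘ₗ φ.toLinearMap)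
    (by rw [LinearMap.ker_eq_bot]; exact U.subtype_injective.comp φ.injective)
  refine ⟨U.subtype ∘ₗ φ.toLinearMap, l, hl, ?_⟩
  rw [LinearMap.range_comp, LinearEquiv.range, Submodule.map_top, Submodule.range_subtype]

theorem fac {a z : Module.End F V} (h : LinearMap.range z ≤ LinearMap.range a) :
    ∃ s : Module.End F V, a * s = z := by
  obtain ⟨t, ht⟩ := LinearMap.exists_rightInverse_of_surjective a.rangeRestrict
    (LinearMap.range_rangeRestrict a)
  refine ⟨t ∘ₗ z.codRestrict _ (fun v => h ⟨v, rfl⟩), ?_⟩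
  ext v
  have := congrArg Subtype.val (LinearMap.congr_fun ht ⟨z v, h ⟨v, rfl⟩⟩)
  exact this

noncomputable def smV (hV : Cardinal.aleph0 ≤ Module.rank F V) : Sm (Module.End F V) where
  I a := LinearMap.rank a < Module.rank F V
  zero := by
    rw [LinearMap.rank_zero]; exact lt_of_lt_of_le Cardinal.aleph0_pos hV
  add := fun {a b} ha hb =>
    lt_of_le_of_lt (LinearMap.rank_add_le a b) (Cardinal.add_lt_of_lt hV ha hb)
  mull := fun r {a} ha => lt_of_le_of_lt (LinearMap.rank_comp_le_right a r) ha
  mulr := fun {a} r ha => lt_of_le_of_lt (LinearMap.rank_comp_le_left r a) ha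
  one := by
    have : LinearMap.range (1 : Module.End F V) = ⊤ := LinearMap.range_id
    show ¬ Module.rank F (LinearMap.range (1 : Module.End F V)) < _
    rw [this, rank_top]; exact lt_irrefl _
  big := fun {a} ha => by
    obtain ⟨z, l, h1, h2⟩ := emb (LinearMap.range a) ha
    obtain ⟨s, hs⟩ := fac h2.le
    exact ⟨l, s, by rw [mul_assoc, hs, h1]⟩
  small := fun {a} ha => by
    have : ¬ Module.rank F (LinearMap.ker a) < Module.rank F V := fun h =>
      lt_irrefl _ (lt_of_eq_of_lt (LinearMap.rank_range_add_rank_ker a).symm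
        (Cardinal.add_lt_of_lt hV ha h))
    obtain ⟨z, l, h1, h2⟩ := emb (LinearMap.ker a) this
    refine ⟨z, l, h1, ?_⟩
    ext v
    have : z v ∈ LinearMap.ker a := h2 ▸ ⟨v, rfl⟩
    exact this
  idem := fun {e} he hb => by
    obtain ⟨z, l, h1, h2⟩ := emb (LinearMap.range e) hb
    obtain ⟨s, hs⟩ := fac h2.le
    obtain ⟨t, ht⟩ := fac h2.ge
    have hez : e * z = z := by rw [← hs, ← mul_assoc, he]
    refine ⟨z, l * e, by rw [mul_assoc, hez, h1], ?_⟩
    rw [← ht, ← mul_assoc l, h1, one_mul]
  two := by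
    have h : Module.rank F V = Module.rank F (V × V) := by
      rw [rank_prod', Cardinal.add_eq_self hV]
    obtain ⟨φ⟩ := nonempty_linearEquiv_of_rank_eq h
    refine ⟨φ.symm.toLinearMap ∘ₗ LinearMap.inl F V V, φ.symm.toLinearMap ∘ₗ LinearMap.inr F V V,
      LinearMap.fst F V V ∘ₗ φ.toLinearMap, LinearMap.snd F V V ∘ₗ φ.toLinearMap, ?_, ?_, ?_, ?_, ?_⟩
    · ext v; simp
    · ext v; simp
    · ext v; simp
    · ext v; simp
    · ext v
      apply φ.injective
      simp

theorem rank_quot (U W : Submodule F V) (π : Module.End F V) (h : LinearMap.ker π = U) :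
    Module.rank F (↥(U ⊔ W) ⧸ U.submoduleOf (U ⊔ W)) = Module.rank F (W.map π) := by
  have e := LinearMap.quotKerEquivRange (π ∘ₗ (U ⊔ W).subtype)
  have h1 : LinearMap.ker (π ∘ₗ (U ⊔ W).subtype) = U.submoduleOf (U ⊔ W) := by
    rw [LinearMap.ker_comp, h]; rfl
  have h2 : LinearMap.range (π ∘ₗ (U ⊔ W).subtype) = W.map π := by
    rw [LinearMap.range_comp, Submodule.range_subtype, Submodule.map_sup]
    have : U.map π = ⊥ := by
      rw [← h, eq_bot_iff]; rintro _ ⟨x, hx, rfl⟩; exact hx
    rw [this, bot_sup_eq]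
  rw [← h1, ← h2]
  exact e.rank_eq

theorem projs {ι : Type*} [Fintype ι] [DecidableEq ι] (W : ι → Submodule F V)
    (h : DirectSum.IsInternal W) :
    ∃ e : ι → Module.End F V, (∀ i, LinearMap.range (e i) = W i) ∧ (∀ i, e i * e i = e i) ∧
      (∀ i j, i ≠ j → e i * e j = 0) ∧ ∑ i, e i = 1 := by
  have hind := h.submodule_iSupIndep
  have htop := h.submodule_iSup_eq_top
  have hc : ∀ i, IsCompl (W i) (⨆ (j) (_ : j ≠ i), W j) := fun i =>
    ⟨hind i, by
      rw [codisjoint_iff, eq_top_iff, ← htop]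
      refine iSup_le fun j => ?_
      by_cases hj : j = i
      · subst hj; exact le_sup_left
      · exact le_sup_of_le_right (le_iSup₂_of_le j hj le_rfl)⟩
  have a1 : ∀ i v, v ∈ W i → (W i).projection _ (hc i) v = v := fun i v hv =>
    Submodule.projection_apply_of_mem_left _ hv
  have a2 : ∀ i j v, j ≠ i → v ∈ W j → (W i).projection _ (hc i) v = 0 := fun i j v hj hv =>
    Submodule.projection_apply_of_mem_right _
      ((le_iSup₂_of_le (f := fun j (_ : j ≠ i) => W j) j hj le_rfl) hv)
  refine ⟨fun i => (W i).projection _ (hc i), fun i => Submodule.range_projection _,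
    fun i => ?_, fun i j hij => ?_, ?_⟩
  · ext v; exact a1 i _ (Submodule.projection_apply_mem _ _)
  · ext v; exact a2 i j _ hij.symm (Submodule.projection_apply_mem _ _)
  · ext v
    have hv : v ∈ ⨆ i, W i := htop ▸ Submodule.mem_top
    induction hv using Submodule.iSup_induction' with
    | mem j x hx =>
      rw [LinearMap.sum_apply, Finset.sum_eq_single j]
      · exact a1 j x hx
      · intro b _ hb; exact a2 b j x hb.symm hx
      · simp
    | zero => simp
    | add x y _ _ hx hy => rw [map_add, map_add, hx, hy]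

end Pool.Agent.H64.Alm
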