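import Pool.Agent.H64.BranchDefs

set_option autoImplicit false

namespace Pool.Agent.H64.Branch

/-- alphabet -/
abbrev X := Fin 5
/-- permutations of words -/
abbrev P := Equiv.Perm (List X)

/-- wreath recursion as a function -/
def wf (σ : Equiv.Perm X) (f : X → P) : List X → List X
  | [] => []
  | x :: w => σ x :: f x w

/-- wreath recursion -/
def wr (σ : Equiv.Perm X) (f : X → P) : P where
  toFun := wf σ f
  invFun := wf σ⁻¹ fun y => (f (σ⁻¹ y))⁻¹
  left_inv w := by cases w <;> simp [wf]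
  right_inv w := by cases w <;> simp [wf]

@[simp] theorem wr_nil (σ : Equiv.Perm X) (f : X → P) : wr σ f [] = [] := rfl
@[simp] theorem wr_cons (σ : Equiv.Perm X) (f : X → P) (x : X) (w : List X) :
    wr σ f (x :: w) = σ x :: f x w := rfl

theorem wr_mul (σ τ : Equiv.Perm X) (f g : X → P) :
    wr σ f * wr τ g = wr (σ * τ) fun x => f (τ x) * g x := by
  ext1 w; cases w <;> simp

theorem wr_one : wr 1 (fun _ => 1) = 1 := by
  ext1 w; cases w <;> simp

theorem wr_inv (σ : Equiv.Perm X) (f : X → P) :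
    (wr σ f)⁻¹ = wr σ⁻¹ fun y => (f (σ⁻¹ y))⁻¹ := by
  ext1 w; cases w <;> rfl

theorem wr_inj {σ τ : Equiv.Perm X} {f g : X → P} (h : wr σ f = wr τ g) : σ = τ ∧ f = g := by
  have key : ∀ x w, σ x = τ x ∧ f x w = g x w := fun x w => by
    simpa using congrArg (fun p : P => p (x :: w)) h
  exact ⟨Equiv.ext fun x => (key x []).1, funext fun x => Equiv.ext fun w => (key x w).2⟩

/-- the base group -/
def base : (X → P) →* P where
  toFun f := wr 1 f
  map_one' := wr_one
  map_mul' f g := by rw [wr_mul]; rfl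

/-- rooted automorphisms -/
def root : Equiv.Perm X →* P where
  toFun σ := wr σ fun _ => 1
  map_one' := wr_one
  map_mul' f g := by rw [wr_mul]; simp

theorem base_def (f : X → P) : base f = wr 1 f := rfl
theorem root_def (σ : Equiv.Perm X) : root σ = wr σ fun _ => 1 := rfl

theorem wr_eq (σ : Equiv.Perm X) (f : X → P) : wr σ f = root σ * base f := by
  rw [root_def, base_def, wr_mul]; simp

/-- planting at a first-level vertex -/
def at1 (x : X) : P →* P := base.comp (MonoidHom.mulSingle (fun _ => P) x)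

theorem at1_def (x : X) (g : P) : at1 x g = wr 1 (Pi.mulSingle x g) := rfl

/-- planting at a vertex -/
def atv : List X → P →* P
  | [] => MonoidHom.id P
  | x :: v => (at1 x).comp (atv v)

theorem atv_append (v u : List X) (g : P) : atv (v ++ u) g = atv v (atv u g) := by
  induction v with
  | nil => rfl
  | cons x v ih => simp [atv, ih]

theorem conj_at1 (σ : Equiv.Perm X) (f : X → P) (x : X) (k : P) :
    wr σ f * at1 x k * (wr σ f)⁻¹ = at1 (σ x) (f x * k * (f x)⁻¹) := by
  rw [mul_inv_eq_iff_eq_mul, at1_def, at1_def, wr_mul, wr_mul, mul_one, one_mul]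
  congr 1
  funext y
  by_cases h : y = x
  · subst h; simp
  · simp [Pi.mulSingle_eq_of_ne h, Pi.mulSingle_eq_of_ne (σ.injective.ne h)]

theorem base_mem {M : Subgroup P} (f : X → P) (h : ∀ x, at1 x (f x) ∈ M) : base f ∈ M :=
  Subgroup.pi_mem_of_mulSingle_mem (H := M.comap base) f h

/-- first generator -/
def α : Equiv.Perm X := ⟨![1, 2, 0, 3, 4], ![2, 0, 1, 3, 4], by decide, by decide⟩
/-- second generator -/
def β : Equiv.Perm X := ⟨![0, 1, 3, 4, 2], ![0, 1, 4, 2, 3], by decide, by decide⟩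
/-- the local group -/
def A : Subgroup (Equiv.Perm X) := Subgroup.closure {α, β}

theorem α_mem : α ∈ A := Subgroup.subset_closure (by simp)
theorem β_mem : β ∈ A := Subgroup.subset_closure (by simp)

theorem A_trans (x y : X) : ∃ σ ∈ A, σ x = y := by
  have h : ∀ y : X, ∃ σ ∈ A, σ 0 = y := by
    intro y
    have a := α_mem
    have b := β_mem
    fin_cases y
    · exact ⟨1, one_mem _, rfl⟩
    · exact ⟨α, a, rfl⟩
    · exact ⟨α * α, mul_mem a a, rfl⟩
    · exact ⟨β * α * α, mul_mem (mul_mem b a) a, rfl⟩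
    · exact ⟨β * β * α * α, mul_mem (mul_mem (mul_mem b b) a) a, rfl⟩
  obtain ⟨σ, h1, h2⟩ := h x
  obtain ⟨τ, h3, h4⟩ := h y
  exact ⟨τ * σ⁻¹, mul_mem h3 (inv_mem h1), by rw [← h2]; simp [h4]⟩

/-- the wreath product subgroup -/
def wrSub (K : Subgroup P) : Subgroup P where
  carrier := {g | ∃ σ ∈ A, ∃ f : X → P, (∀ x, f x ∈ K) ∧ g = wr σ f}
  one_mem' := ⟨1, one_mem _, _, fun _ => one_mem _, wr_one.symm⟩
  mul_mem' := by
    rintro _ _ ⟨σ, hσ, f, hf, rfl⟩ ⟨τ, hτ, g, hg, rfl⟩
    exact ⟨_, mul_mem hσ hτ, _, fun x => mul_mem (hf _) (hg _), wr_mul _ _ _ _⟩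
  inv_mem' := by
    rintro _ ⟨σ, hσ, f, hf, rfl⟩
    exact ⟨_, inv_mem hσ, _, fun x => inv_mem (hf _), wr_inv _ _⟩

theorem single_mem {K : Subgroup P} (x : X) {g : P} (hg : g ∈ K) (y : X) :
    (Pi.mulSingle x g : X → P) y ∈ K := by
  by_cases h : y = x
  · subst h; simpa using hg
  · simp [Pi.mulSingle_eq_of_ne h]

theorem wrSub_le {K M : Subgroup P} (h1 : ∀ σ ∈ A, root σ ∈ M) (h2 : ∀ x, ∀ g ∈ K, at1 x g ∈ M) :
    wrSub K ≤ M := by
  rintro _ ⟨σ, hσ, f, hf, rfl⟩
  rw [wr_eq]
  exact mul_mem (h1 σ hσ) (base_mem f fun x => h2 x _ (hf x))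

theorem root_wrSub (K : Subgroup P) {σ : Equiv.Perm X} (h : σ ∈ A) : root σ ∈ wrSub K :=
  ⟨σ, h, _, fun _ => one_mem _, rfl⟩

theorem at1_wrSub {K : Subgroup P} (x : X) {g : P} (h : g ∈ K) : at1 x g ∈ wrSub K :=
  ⟨1, one_mem _, _, single_mem x h, rfl⟩

section
variable {K : Subgroup P} (hK : wrSub K = K)
include hK

theorem len (w : List X) : ∀ g ∈ K, (g w).length = w.length := by
  induction w with
  | nil => intro g hg; rw [← hK] at hg; obtain ⟨σ, -, f, -, rfl⟩ := hg; rfl
  | cons x w ih =>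
    intro g hg; rw [← hK] at hg; obtain ⟨σ, -, f, hf, rfl⟩ := hg
    simp [ih _ (hf x)]

theorem snoc (u : List X) (x : X) : ∀ g ∈ K, ∃ y, g (u ++ [x]) = g u ++ [y] := by
  induction u with
  | nil =>
    intro g hg
    have := len hK [x] g hg
    obtain ⟨y, hy⟩ := List.length_eq_one_iff.1 this
    have h0 := List.length_eq_zero_iff.1 (len hK [] g hg)
    exact ⟨y, by simp [hy, h0]⟩
  | cons z u ih =>
    intro g hg; rw [← hK] at hg; obtain ⟨σ, -, f, hf, rfl⟩ := hg
    obtain ⟨y, hy⟩ := ih _ (hf z)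
    exact ⟨y, by simp [hy]⟩

theorem treeAut (g : P) (hg : g ∈ K) : IsTreeAut g := by
  have key : ∀ g ∈ K, ∀ u v, Adj u v → Adj (g u) (g v) := by
    rintro g hg u v (⟨x, rfl⟩ | ⟨x, rfl⟩)
    · exact Or.inl (snoc hK u x g hg)
    · exact Or.inr (snoc hK v x g hg)
  intro u v
  exact ⟨key g hg u v, fun h => by simpa using key g⁻¹ (inv_mem hg) _ _ h⟩

theorem trans (u : List X) : ∀ v : List X, u.length = v.length →
    ∃ g ∈ K, g u = v ∧ ∀ k, g * atv u k * g⁻¹ = atv v k := by
  induction u with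
  | nil =>
    intro v h
    rw [List.length_eq_zero_iff.1 h.symm]
    exact ⟨1, one_mem _, rfl, by simp⟩
  | cons x u ih =>
    intro v h
    cases v with
    | nil => simp at h
    | cons y v =>
      obtain ⟨g, hg, e, e2⟩ := ih v (by simpa using h)
      obtain ⟨σ, hσ, rfl⟩ := A_trans x y
      refine ⟨wr σ fun _ => g, hK ▸ ⟨σ, hσ, _, fun _ => hg, rfl⟩, by simp [e], fun k => ?_⟩
      simp only [atv, MonoidHom.comp_apply, conj_at1, e2]

theorem st_le (n : ℕ) : ∀ g ∈ St K n, g ∈ Rist K n := by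
  induction n with
  | zero =>
    intro g hg
    apply Subgroup.subset_closure
    simp only [Set.mem_iUnion]
    exact ⟨[], rfl, hg, fun u hu hne => absurd (List.length_eq_zero_iff.1 hu) hne⟩
  | succ n ih =>
    rintro g ⟨hg, hfix⟩
    rw [← hK] at hg; obtain ⟨σ, -, f, hf, rfl⟩ := hg
    have h1 : ∀ x u, List.length u = n → σ x = x ∧ f x u = u := fun x u hu => by
      simpa using hfix (x :: u) (by simp [hu])
    have h2 : σ = 1 := Equiv.ext fun x => (h1 x (List.replicate n 0) (by simp)).1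
    subst h2
    refine base_mem f fun x => ?_
    have h3 := ih (f x) ⟨hf x, fun u hu => (h1 x u hu).2⟩
    have : Rist K n ≤ (Rist K (n + 1)).comap (at1 x) := by
      rw [Rist, Subgroup.closure_le]
      intro k hk
      simp only [Set.mem_iUnion] at hk
      obtain ⟨v, hv, ⟨k1, k2⟩, k3⟩ := hk
      apply Subgroup.subset_closure
      simp only [Set.mem_iUnion]
      refine ⟨x :: v, by simpa using hv, ⟨hK ▸ at1_wrSub x k1, ?_⟩, ?_⟩
      · intro u hu
        cases u with
        | nil => rfl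
        | cons y u =>
          by_cases h : y = x
          · subst h; simp [at1_def, k2 u (by simpa using hu)]
          · simp [at1_def, Pi.mulSingle_eq_of_ne h]
      · intro u hu hne w
        cases u with
        | nil => simp at hu
        | cons y u =>
          by_cases h : y = x
          · subst h
            simp [at1_def, k3 u (by simpa using hu) (fun e => hne (by rw [e])) w]
          · simp [at1_def, Pi.mulSingle_eq_of_ne h]
    exact this h3

theorem st_index (n : ℕ) :
    (⨅ v : List.Vector X n, MulAction.stabilizer P v.1).relIndex K ≠ 0 := by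
  refine Subgroup.relIndex_iInf_ne_zero fun v => ?_
  change (MulAction.stabilizer K v.1).index ≠ 0
  rw [MulAction.index_stabilizer]
  refine Set.ncard_ne_zero_of_mem (MulAction.mem_orbit_self _) ?_
  refine (List.finite_length_eq X n).subset ?_
  rintro _ ⟨g, rfl⟩
  exact (len hK v.1 g.1 g.2).trans v.2

theorem branch : IsBranch K := by
  refine ⟨treeAut hK, fun u v h => ?_, fun n h => st_index hK n ?_⟩
  · obtain ⟨g, h1, h2, -⟩ := trans hK u v h
    exact ⟨g, h1, h2⟩
  · rw [← Subgroup.inf_relIndex_right]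
    refine Subgroup.relIndex_eq_zero_of_le_left ?_ h
    intro g hg
    exact st_le hK n g ⟨hg.2, fun u hu => Subgroup.mem_iInf.1 hg.1 ⟨u, hu⟩⟩

theorem base_index {L : Subgroup P} (h : L.relIndex K ≠ 0) :
    ((Subgroup.pi Set.univ fun _ : X => L).map base).relIndex K ≠ 0 := by
  have hinj : Function.Injective base := fun f g e => (wr_inj e).2
  refine Subgroup.relIndex_ne_zero_trans (K := (Subgroup.pi Set.univ fun _ : X => K).map base)
    ?_ ?_
  · rw [Subgroup.relIndex_map_map_of_injective _ _ hinj]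
    have : (Subgroup.pi Set.univ fun _ : X => L) =
        ⨅ x : X, L.comap (Pi.evalMonoidHom (fun _ => P) x) := by
      ext f; simp [Subgroup.mem_pi, Subgroup.mem_iInf]
    rw [this]
    refine Subgroup.relIndex_iInf_ne_zero fun x => ?_
    rw [Subgroup.relIndex_comap]
    refine fun e => h (Subgroup.relIndex_eq_zero_of_le_right ?_ e)
    rintro _ ⟨f, hf, rfl⟩
    exact hf x trivial
  · intro e
    apply st_index hK 1
    rw [← Subgroup.inf_relIndex_right]
    refine Subgroup.relIndex_eq_zero_of_le_left ?_ e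
    rintro g ⟨h1, h2⟩
    rw [← hK] at h2
    obtain ⟨σ, -, f, hf, rfl⟩ := h2
    have : σ = 1 := Equiv.ext fun x => by
      have := Subgroup.mem_iInf.1 h1 ⟨[x], rfl⟩
      simpa using congrArg List.head? this
    subst this
    exact ⟨f, fun x _ => hf x, rfl⟩

end

end Pool.Agent.H64.Branch
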