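import Pool.Agent.H64.Branch1

set_option autoImplicit false

namespace Pool.Agent.H64.Branch

/-- directed automorphisms as functions -/
def bf (s : X → Equiv.Perm X) : List X → List X
  | [] => []
  | x :: w => x :: (if x = 0 then bf s w else root (s x) w)

theorem bf_mul (s t : X → Equiv.Perm X) (w : List X) : bf s (bf t w) = bf (s * t) w := by
  induction w with
  | nil => rfl
  | cons x w ih =>
    by_cases h : x = 0
    · simp [bf, h, ih]
    · simp [bf, h]

theorem bf_one (w : List X) : bf 1 w = w := by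
  induction w with
  | nil => rfl
  | cons x w ih =>
    by_cases h : x = 0
    · simp [bf, h, ih]
    · simp [bf, h]

/-- directed automorphisms -/
def dir : (X → Equiv.Perm X) →* P where
  toFun s := ⟨bf s, bf s⁻¹, fun w => by rw [bf_mul, inv_mul_cancel, bf_one],
    fun w => by rw [bf_mul, mul_inv_cancel, bf_one]⟩
  map_one' := Equiv.ext bf_one
  map_mul' s t := Equiv.ext fun w => (bf_mul s t w).symm

theorem dir_eq (s : X → Equiv.Perm X) :
    dir s = wr 1 fun x => if x = 0 then dir s else root (s x) := by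
  ext1 w
  cases w with
  | nil => rfl
  | cons x w =>
    change x :: _ = x :: _
    by_cases h : x = 0 <;> simp [h] <;> rfl

/-- labels -/
def s0 : X → Equiv.Perm X := ![1, α, β, 1, 1]

theorem s0_mem (x : X) : s0 x ∈ A := by
  fin_cases x
  exacts [one_mem _, α_mem, β_mem, one_mem _, one_mem _]

/-- powers of the directed generator -/
def bp (c : ZMod 3) : P := dir fun x => s0 x ^ c.val

theorem bp_add (c d : ZMod 3) : bp (c + d) = bp c * bp d := by
  rw [bp, bp, bp, ← map_mul]
  congr 1
  funext x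
  revert c d x
  decide +kernel

theorem bp_zero : bp 0 = 1 := by
  have := bp_add 0 0
  rw [add_zero] at this
  exact left_eq_mul.1 this

theorem bp_neg (c : ZMod 3) : bp (-c) = (bp c)⁻¹ := by
  rw [eq_inv_iff_mul_eq_one, ← bp_add, neg_add_cancel, bp_zero]

/-- sections of the directed elements -/
def sec (c : ZMod 3) (x : X) : P := if x = 0 then bp c else root (s0 x ^ c.val)

theorem bp_eq (c : ZMod 3) : bp c = wr 1 (sec c) := dir_eq _

theorem bp_root {c : ZMod 3} {σ : Equiv.Perm X} (h : bp c = root σ) : c = 0 := by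
  rw [bp_eq, root_def] at h
  have := congrFun (wr_inj h).2 1
  simp only [sec, one_ne_zero, if_false] at this
  rw [← wr_one, root_def] at this
  exact (by decide +kernel : ∀ c : ZMod 3, s0 1 ^ c.val = 1 → c = 0) c (wr_inj this).1

/-- the big group -/
def G : Subgroup P := Subgroup.closure {root α, root β, bp 1}

theorem root_G {σ : Equiv.Perm X} (h : σ ∈ A) : root σ ∈ G := by
  have : A ≤ G.comap root := by
    rw [A, Subgroup.closure_le]
    rintro _ (rfl | rfl) <;> exact Subgroup.subset_closure (by simp)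
  exact this h

theorem bp_mem {K : Subgroup P} (h : bp 1 ∈ K) (c : ZMod 3) : bp c ∈ K := by
  have : c = 0 ∨ c = 1 ∨ c = -1 := by revert c; decide
  rcases this with rfl | rfl | rfl
  · rw [bp_zero]; exact one_mem _
  · exact h
  · rw [bp_neg]; exact inv_mem h

theorem b_G : bp 1 ∈ G := Subgroup.subset_closure (by simp)

theorem comm_bp (c : ZMod 3) (σ : Equiv.Perm X) :
    bp c * root σ * (bp c)⁻¹ * (root σ)⁻¹ = base fun x => sec c x * (sec c (σ⁻¹ x))⁻¹ := by
  rw [mul_inv_eq_iff_eq_mul, mul_inv_eq_iff_eq_mul, bp_eq, root_def, base_def, wr_mul, wr_mul,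
    wr_mul]
  simp

/-- an even permutation fixing 0 and 2 -/
def γ : Equiv.Perm X := α * α * β * α
/-- an even permutation fixing 1 and 2 -/
def κ : Equiv.Perm X := α * β * α * α

theorem γ_mem : γ ∈ A := mul_mem (mul_mem (mul_mem α_mem α_mem) β_mem) α_mem
theorem κ_mem : κ ∈ A := mul_mem (mul_mem (mul_mem α_mem β_mem) α_mem) α_mem

theorem base_eq {f g : X → P} (h0 : f 0 = g 0) (h1 : f 1 = g 1) (h2 : f 2 = g 2) (h3 : f 3 = g 3)
    (h4 : f 4 = g 4) : base f = base g := by
  congr 1
  funext x
  fin_cases x <;> assumption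

theorem at3_G {σ : Equiv.Perm X} (h : σ ∈ A) : at1 3 (root σ) ∈ G := by
  have e1 : base ![1, root α, 1, (root α)⁻¹, 1] ∈ G := by
    have := mul_mem (mul_mem (mul_mem b_G (root_G γ_mem)) (inv_mem b_G)) (inv_mem (root_G γ_mem))
    rw [comm_bp] at this
    have g0 : γ⁻¹ 0 = 0 := by decide
    have g1 : γ⁻¹ 1 = 4 := by decide
    have g2 : γ⁻¹ 2 = 2 := by decide
    have g3 : γ⁻¹ 3 = 1 := by decide
    have g4 : γ⁻¹ 4 = 3 := by decide
    convert this using 1
    apply base_eq <;> simp only [g0, g1, g2, g3, g4] <;> simp [sec, s0, ZMod.val_one]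
  have e2 : base ![1, 1, root β, (root β)⁻¹, 1] ∈ G := by
    have := mul_mem (mul_mem (mul_mem b_G (root_G β_mem)) (inv_mem b_G)) (inv_mem (root_G β_mem))
    rw [comm_bp] at this
    have g0 : β⁻¹ 0 = 0 := by decide
    have g1 : β⁻¹ 1 = 1 := by decide
    have g2 : β⁻¹ 2 = 4 := by decide
    have g3 : β⁻¹ 3 = 2 := by decide
    have g4 : β⁻¹ 4 = 3 := by decide
    convert this using 1
    apply base_eq <;> simp only [g0, g1, g2, g3, g4] <;> simp [sec, s0, ZMod.val_one]
  let S : Subgroup (Equiv.Perm X) := G.comap ((at1 3).comp root)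
  have c1 : ∀ s ∈ S, α * s * α⁻¹ ∈ S := by
    intro s hs
    have := mul_mem (mul_mem (inv_mem e1) hs) (inv_mem (inv_mem e1))
    rw [← map_inv, base_def, MonoidHom.comp_apply, conj_at1] at this
    simpa [S] using this
  have c2 : ∀ s ∈ S, β * s * β⁻¹ ∈ S := by
    intro s hs
    have := mul_mem (mul_mem (inv_mem e2) hs) (inv_mem (inv_mem e2))
    rw [← map_inv, base_def, MonoidHom.comp_apply, conj_at1] at this
    simpa [S] using this
  have c3 : α⁻¹ * β⁻¹ * α * β ∈ S := by
    have := mul_mem (mul_mem (mul_mem e1 e2) (inv_mem e1)) (inv_mem e2)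
    rw [← map_inv base, ← map_inv base, ← map_mul, ← map_mul, ← map_mul] at this
    change base _ ∈ G
    convert this using 1
    apply base_eq <;> simp
  have ha : α ∈ S := by
    have := c2 _ (c2 _ (c1 _ (c1 _ (c2 _ c3))))
    convert this using 1
    decide +kernel
  have hb : β ∈ S := by
    have := c1 _ (c2 _ (c2 _ c3))
    convert this using 1
    decide +kernel
  have : A ≤ S := by
    rw [A, Subgroup.closure_le]
    rintro _ (rfl | rfl)
    exacts [ha, hb]
  exact this h

theorem at1_move {K : Subgroup P} (hK : ∀ σ ∈ A, root σ ∈ K) {x : X} {g : P} (h : at1 x g ∈ K)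
    (y : X) : at1 y g ∈ K := by
  obtain ⟨σ, hσ, rfl⟩ := A_trans x y
  have := mul_mem (mul_mem (hK σ hσ) h) (inv_mem (hK σ hσ))
  rw [root_def, conj_at1] at this
  simpa using this

theorem bp_split (c : ZMod 3) :
    bp c = base (fun x => if x = 0 then 1 else root (s0 x ^ c.val)) * at1 0 (bp c) := by
  conv_lhs => rw [bp_eq]
  rw [at1_def, base_def, wr_mul, mul_one]
  congr 1
  funext x
  by_cases h : x = 0
  · subst h; simp [sec]
  · simp [sec, h]

theorem fin_part {K : Subgroup P} (h : ∀ x, ∀ σ ∈ A, at1 x (root σ) ∈ K) (c : ZMod 3) :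
    base (fun x => if x = 0 then 1 else root (s0 x ^ c.val)) ∈ K := by
  refine base_mem _ fun x => ?_
  split_ifs
  · rw [map_one]; exact one_mem _
  · exact h _ _ (pow_mem (s0_mem x) _)

theorem G_wr : wrSub G = G := by
  have h1 : ∀ x, ∀ σ ∈ A, at1 x (root σ) ∈ G := fun x σ h =>
    at1_move (fun _ => root_G) (at3_G h) x
  apply le_antisymm
  · refine wrSub_le (fun _ => root_G) fun x g hg => ?_
    have : G ≤ G.comap (at1 x) := by
      refine (Subgroup.closure_le _).2 ?_
      rintro _ (rfl | rfl | rfl)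
      · exact h1 x _ α_mem
      · exact h1 x _ β_mem
      · refine at1_move (x := 0) (fun _ => root_G) ?_ x
        have := mul_mem (inv_mem (fin_part h1 1)) b_G
        rw [bp_split 1] at this
        simpa [← bp_split] using this
    exact this hg
  · refine (Subgroup.closure_le _).2 ?_
    rintro _ (rfl | rfl | rfl)
    · exact root_wrSub _ α_mem
    · exact root_wrSub _ β_mem
    · refine ⟨1, one_mem _, _, fun x => ?_, bp_eq 1⟩
      unfold sec
      split_ifs
      · exact b_G
      · exact root_G (pow_mem (s0_mem x) _)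

/-- finitary automorphisms of bounded depth -/
def D : ℕ → Subgroup P
  | 0 => ⊥
  | n + 1 => wrSub (D n)

theorem wrSub_mono {K L : Subgroup P} (h : K ≤ L) : wrSub K ≤ wrSub L := by
  rintro _ ⟨σ, hσ, f, hf, rfl⟩
  exact ⟨σ, hσ, f, fun x => h (hf x), rfl⟩

theorem D_mono : Monotone D := by
  refine monotone_nat_of_le_succ fun n => ?_
  induction n with
  | zero => exact bot_le
  | succ n ih => exact wrSub_mono ih

/-- the finitary group -/
def H : Subgroup P := ⨆ n, D n

theorem mem_H {g : P} : g ∈ H ↔ ∃ n, g ∈ D n :=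
  Subgroup.mem_iSup_of_directed D_mono.directed_le

theorem root_H {σ : Equiv.Perm X} (h : σ ∈ A) : root σ ∈ H := mem_H.2 ⟨1, root_wrSub _ h⟩

theorem at1_H (x : X) {g : P} (h : g ∈ H) : at1 x g ∈ H := by
  obtain ⟨n, hn⟩ := mem_H.1 h
  exact mem_H.2 ⟨n + 1, at1_wrSub x hn⟩

theorem atv_H (v : List X) {g : P} (h : g ∈ H) : atv v g ∈ H := by
  induction v with
  | nil => exact h
  | cons x v ih => exact at1_H x ih

theorem H_wr : wrSub H = H := by
  refine le_antisymm (wrSub_le (fun _ => root_H) fun x g hg => at1_H x hg) (iSup_le fun n => ?_)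
  exact (D_mono (Nat.le_succ n)).trans (wrSub_mono (le_iSup D n))

theorem H_le : H ≤ G := by
  refine iSup_le fun n => ?_
  induction n with
  | zero => exact bot_le
  | succ n ih => exact (wrSub_mono ih).trans G_wr.le

theorem G_fg : G.FG := by
  classical
  exact ⟨{root α, root β, bp 1}, by simp [G]⟩

theorem H_index : H.relIndex G = 0 := by
  by_contra h
  haveI : Group.FG G := (Group.fg_iff_subgroup_fg G).2 G_fg
  haveI : (H.subgroupOf G).FiniteIndex := ⟨h⟩
  have h1 : (H.subgroupOf G).FG := (Group.fg_iff_subgroup_fg _).1 inferInstance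
  obtain ⟨S, hS⟩ : H.FG := by
    classical
    obtain ⟨S, hS⟩ := h1
    refine ⟨S.image G.subtype, ?_⟩
    rw [Finset.coe_image, ← MonoidHom.map_closure, hS, Subgroup.subgroupOf_map_subtype,
      inf_eq_left.2 H_le]
  have h3 : ∀ g ∈ S, ∃ n, g ∈ D n := fun g hg => mem_H.1 (hS ▸ Subgroup.subset_closure hg)
  choose! k hk using h3
  have h4 : H ≤ D (S.sup k) := by
    rw [← hS, Subgroup.closure_le]
    intro g hg
    exact D_mono (Finset.le_sup hg) (hk g hg)
  have h5 : ∀ n, atv (List.replicate n 0) (root α) ∉ D n := by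
    intro n
    induction n with
    | zero =>
      intro e
      have e2 : root α = 1 := e
      rw [← wr_one, root_def] at e2
      exact absurd (wr_inj e2).1 (by decide)
    | succ n ih =>
      rintro ⟨σ, -, f, hf, e⟩
      have e2 := congrFun (wr_inj e).2 0
      apply ih
      rw [MonoidHom.mulSingle_apply, Pi.mulSingle_eq_same] at e2
      exact e2 ▸ hf 0
  exact h5 _ (h4 (atv_H _ (root_H α_mem)))

end Pool.Agent.H64.Branch
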