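import Pool.Agent.H64.Branch2

set_option autoImplicit false

namespace Pool.Agent.H64.Branch

/-- nucleus with germ values -/
def Lev : ℕ → P → ZMod 3 → Prop
  | 0, g, c => (∃ σ ∈ A, g = root σ ∧ c = 0) ∨ g = bp c
  | n + 1, g, c => ∃ σ ∈ A, ∃ (f : X → P) (cs : X → ZMod 3),
      g = wr σ f ∧ (∀ x, Lev n (f x) (cs x)) ∧ c = ∑ x, cs x

theorem lev_sec (c : ZMod 3) (x : X) : Lev 0 (sec c x) (if x = 0 then c else 0) := by
  unfold sec
  split_ifs
  · exact Or.inr rfl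
  · exact Or.inl ⟨_, pow_mem (s0_mem x) _, rfl, rfl⟩

theorem lev_one0 : Lev 0 1 0 := Or.inr bp_zero.symm

theorem lev_base {g : P} {c : ZMod 3} (h : Lev 0 g c) : Lev 1 g c := by
  rcases h with ⟨σ, hσ, rfl, rfl⟩ | rfl
  · exact ⟨σ, hσ, _, fun _ => 0, rfl, fun _ => lev_one0, by simp⟩
  · exact ⟨1, one_mem _, _, _, bp_eq c, lev_sec c, by simp⟩

theorem lev_mul (n : ℕ) : ∀ {g h : P} {c d : ZMod 3}, Lev n g c → Lev n h d →
    Lev (n + 1) (g * h) (c + d) := by
  induction n with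
  | zero =>
    rintro g h c d (⟨σ, hσ, rfl, rfl⟩ | rfl) (⟨τ, hτ, rfl, rfl⟩ | rfl)
    · exact lev_base (Or.inl ⟨σ * τ, mul_mem hσ hτ, (map_mul _ _ _).symm, by simp⟩)
    · exact ⟨σ, hσ, _, _, by rw [wr_eq, bp_eq]; rfl, lev_sec d, by simp⟩
    · refine ⟨τ, hτ, fun x => sec c (τ x), _, ?_, fun x => lev_sec c (τ x), ?_⟩
      · rw [bp_eq, root_def, wr_mul]; simp
      · rw [Equiv.sum_comp τ (fun x => if x = 0 then c else 0)]; simp
    · exact lev_base (Or.inr (bp_add c d).symm)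
  | succ n ih =>
    rintro g h c d ⟨σ, hσ, f, cs, rfl, hf, rfl⟩ ⟨τ, hτ, f', ds, rfl, hf', rfl⟩
    refine ⟨σ * τ, mul_mem hσ hτ, _, _, wr_mul _ _ _ _, fun x => ih (hf (τ x)) (hf' x), ?_⟩
    rw [Finset.sum_add_distrib, Equiv.sum_comp τ cs]

theorem lev_one (n : ℕ) : Lev n 1 0 := by
  induction n with
  | zero => exact lev_one0
  | succ n ih => exact ⟨1, one_mem _, _, fun _ => 0, wr_one.symm, fun _ => ih, by simp⟩

theorem lev_mono {n m : ℕ} (h : n ≤ m) {g : P} {c : ZMod 3} (hg : Lev n g c) : Lev m g c := by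
  induction h with
  | refl => exact hg
  | step _ ih => simpa using lev_mul _ ih (lev_one _)

theorem lev_inv (n : ℕ) : ∀ {g : P} {c : ZMod 3}, Lev n g c → Lev n g⁻¹ (-c) := by
  induction n with
  | zero =>
    rintro g c (⟨σ, hσ, rfl, rfl⟩ | rfl)
    · exact Or.inl ⟨σ⁻¹, inv_mem hσ, (map_inv _ _).symm, by simp⟩
    · exact Or.inr (bp_neg c).symm
  | succ n ih =>
    rintro g c ⟨σ, hσ, f, cs, rfl, hf, rfl⟩
    refine ⟨σ⁻¹, inv_mem hσ, _, _, wr_inv _ _, fun x => ih (hf (σ⁻¹ x)), ?_⟩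
    rw [Finset.sum_neg_distrib, Equiv.sum_comp σ⁻¹ cs]

theorem lev_uniq (n : ℕ) : ∀ {g : P} {c d : ZMod 3}, Lev n g c → Lev n g d → c = d := by
  induction n with
  | zero =>
    rintro g c d (⟨σ, hσ, rfl, rfl⟩ | rfl) (⟨τ, hτ, e, rfl⟩ | e)
    · rfl
    · exact (bp_root e.symm).symm
    · exact bp_root e
    · have : bp (c - d) = root 1 := by
        rw [sub_eq_add_neg, bp_add, bp_neg, e, map_one, mul_inv_cancel]
      exact sub_eq_zero.1 (bp_root this)
  | succ n ih =>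
    rintro g c d ⟨σ, hσ, f, cs, rfl, hf, rfl⟩ ⟨τ, hτ, f', ds, e, hf', rfl⟩
    obtain ⟨-, rfl⟩ := wr_inj e
    exact Finset.sum_congr rfl fun x _ => ih (hf x) (hf' x)

theorem lev_mul' {n m : ℕ} {g h : P} {c d : ZMod 3} (h1 : Lev n g c) (h2 : Lev m h d) :
    ∃ k, Lev k (g * h) (c + d) :=
  ⟨_, lev_mul (max n m) (lev_mono (le_max_left _ _) h1) (lev_mono (le_max_right _ _) h2)⟩

theorem lev_G {g : P} (hg : g ∈ G) : ∃ n c, Lev n g c := by
  induction hg using Subgroup.closure_induction with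
  | mem g hg =>
    rcases hg with rfl | rfl | rfl
    · exact ⟨0, 0, Or.inl ⟨_, α_mem, rfl, rfl⟩⟩
    · exact ⟨0, 0, Or.inl ⟨_, β_mem, rfl, rfl⟩⟩
    · exact ⟨0, 1, Or.inr rfl⟩
  | one => exact ⟨0, 0, lev_one0⟩
  | mul a b _ _ ha hb =>
    obtain ⟨n, c, h1⟩ := ha
    obtain ⟨m, d, h2⟩ := hb
    obtain ⟨k, hk⟩ := lev_mul' h1 h2
    exact ⟨k, _, hk⟩
  | inv a _ ha =>
    obtain ⟨n, c, h1⟩ := ha
    exact ⟨n, _, lev_inv n h1⟩

/-- elements of total germ zero -/
def Z : Subgroup P where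
  carrier := {g | ∃ n, Lev n g 0}
  one_mem' := ⟨0, lev_one0⟩
  mul_mem' := fun ⟨_, h1⟩ ⟨_, h2⟩ => by simpa using lev_mul' h1 h2
  inv_mem' := fun ⟨n, h1⟩ => ⟨n, by simpa using lev_inv n h1⟩

theorem b_not_Z : bp 1 ∉ Z := by
  rintro ⟨n, hn⟩
  exact absurd (lev_uniq n hn (lev_mono (Nat.zero_le n) (Or.inr rfl))) (by decide)

theorem at1_lev (x : X) {n : ℕ} {g : P} {c : ZMod 3} (h : Lev n g c) :
    Lev (n + 1) (at1 x g) c := by
  refine ⟨1, one_mem _, _, Pi.single x c, at1_def x g, fun y => ?_, by simp⟩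
  by_cases e : y = x
  · subst e; simpa using h
  · simpa [Pi.mulSingle_eq_of_ne e, Pi.single_eq_of_ne e] using lev_one n

theorem H_Z : H ≤ Z := by
  refine iSup_le fun n => ?_
  induction n with
  | zero => exact bot_le
  | succ n ih =>
    refine wrSub_le (fun σ hσ => ⟨0, Or.inl ⟨σ, hσ, rfl, rfl⟩⟩) fun x g hg => ?_
    obtain ⟨m, hm⟩ := ih hg
    exact ⟨m + 1, at1_lev x hm⟩

/-- a pair of opposite germs -/
def dd (c : ZMod 3) : P := at1 0 (bp c) * at1 3 (bp c)⁻¹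

theorem dd_eq (c : ZMod 3) : bp c * root κ * (bp c)⁻¹ * (root κ)⁻¹ = dd c := by
  rw [comm_bp, dd, at1, at1, MonoidHom.comp_apply, MonoidHom.comp_apply, ← map_mul]
  have g0 : κ⁻¹ 0 = 4 := by decide
  have g1 : κ⁻¹ 1 = 1 := by decide
  have g2 : κ⁻¹ 2 = 2 := by decide
  have g3 : κ⁻¹ 3 = 0 := by decide
  have g4 : κ⁻¹ 4 = 3 := by decide
  apply base_eq <;> simp only [g0, g1, g2, g3, g4] <;> simp [sec, s0]

theorem dd_neg : dd (-1) = (dd 1)⁻¹ := by
  rw [dd, dd, at1, at1, MonoidHom.comp_apply, MonoidHom.comp_apply, MonoidHom.comp_apply,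
    MonoidHom.comp_apply, ← map_mul, ← map_mul, ← map_inv]
  apply base_eq <;> simp [bp_neg]

theorem find_sec (n : ℕ) : ∀ {g : P} {c : ZMod 3}, Lev n g c → g ∉ H →
    ∃ u v : List X, ∃ j : ZMod 3, j ≠ 0 ∧
      ∀ k, g * atv u k * g⁻¹ = atv v (bp j * k * (bp j)⁻¹) := by
  induction n with
  | zero =>
    rintro g c (⟨σ, hσ, rfl, rfl⟩ | rfl) hg
    · exact absurd (root_H hσ) hg
    · refine ⟨[], [], c, ?_, fun k => rfl⟩
      rintro rfl
      exact hg (bp_zero ▸ one_mem _)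
  | succ n ih =>
    rintro g c ⟨σ, hσ, f, cs, rfl, hf, rfl⟩ hg
    obtain ⟨x, hx⟩ : ∃ x, f x ∉ H := by
      by_contra h
      push Not at h
      exact hg (H_wr ▸ ⟨σ, hσ, f, h, rfl⟩)
    obtain ⟨u, v, j, hj, e⟩ := ih (hf x) hx
    exact ⟨x :: u, σ x :: v, j, hj, fun k => by
      simp only [atv, MonoidHom.comp_apply, conj_at1, e]⟩

/-- the subgroup of index three -/
def N0 : Subgroup P := H ⊔ Subgroup.closure (Set.range fun v => atv v (dd 1))

theorem H_N0 : H ≤ N0 := le_sup_left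

theorem d_N0 (v : List X) : atv v (dd 1) ∈ N0 :=
  (le_sup_right : _ ≤ N0) (Subgroup.subset_closure ⟨v, rfl⟩)

theorem N0_le {M : Subgroup P} (h1 : H ≤ M) (h2 : ∀ v, atv v (dd 1) ∈ M) : N0 ≤ M :=
  sup_le h1 ((Subgroup.closure_le _).2 (by rintro _ ⟨v, rfl⟩; exact h2 v))

theorem at1_N0 (x : X) {g : P} (h : g ∈ N0) : at1 x g ∈ N0 :=
  N0_le (M := N0.comap (at1 x)) (fun _ hg => H_N0 (at1_H x hg)) (fun v => d_N0 (x :: v)) h

theorem N0_Z : N0 ≤ Z := by
  refine N0_le H_Z fun v => ?_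
  induction v with
  | nil =>
    have h1 : Lev 0 (bp 1) 1 := Or.inr rfl
    obtain ⟨k, hk⟩ := lev_mul' (at1_lev 0 h1) (at1_lev 3 (lev_inv 0 h1))
    exact ⟨k, by rwa [add_neg_cancel] at hk⟩
  | cons x v ih =>
    obtain ⟨m, hm⟩ := ih
    exact ⟨m + 1, at1_lev x hm⟩

theorem pair_N0 : at1 0 (bp 1) * at1 1 (bp 1)⁻¹ ∈ N0 := by
  have h := mul_mem (mul_mem (H_N0 (root_H (inv_mem γ_mem))) (d_N0 []))
    (inv_mem (H_N0 (root_H (inv_mem γ_mem))))
  have e : ∀ a b c : P, a * (b * c) * a⁻¹ = (a * b * a⁻¹) * (a * c * a⁻¹) := fun a b c => by group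
  change root γ⁻¹ * (at1 0 (bp 1) * at1 3 (bp 1)⁻¹) * (root γ⁻¹)⁻¹ ∈ N0 at h
  rw [e, root_def, conj_at1, conj_at1] at h
  have g0 : γ⁻¹ 0 = 0 := by decide
  have g3 : γ⁻¹ 3 = 1 := by decide
  simpa only [g0, g3, one_mul, inv_one, mul_one] using h

theorem conj_root {σ : Equiv.Perm X} (h : σ ∈ A) : bp 1 * root σ * (bp 1)⁻¹ ∈ N0 := by
  have : A ≤ (N0.comap (MulAut.conj (bp 1)).toMonoidHom).comap root := by
    rw [A, Subgroup.closure_le]
    rintro _ (rfl | rfl)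
    · change bp 1 * root α * (bp 1)⁻¹ ∈ N0
      rw [← mul_mem_cancel_right (inv_mem (H_N0 (root_H α_mem))), comm_bp]
      have h1 := mul_mem (mul_mem (H_N0 (at1_H 1 (root_H α_mem))) pair_N0)
        (H_N0 (mul_mem (at1_H 0 (root_H (inv_mem β_mem)))
          (at1_H 2 (root_H (mul_mem β_mem (inv_mem α_mem))))))
      simp only [at1, MonoidHom.comp_apply, ← map_mul base] at h1
      convert h1 using 1
      have g0 : α⁻¹ 0 = 2 := by decide
      have g1 : α⁻¹ 1 = 0 := by decide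
      have g2 : α⁻¹ 2 = 1 := by decide
      have g3 : α⁻¹ 3 = 3 := by decide
      have g4 : α⁻¹ 4 = 4 := by decide
      apply base_eq <;> simp only [g0, g1, g2, g3, g4] <;> simp [sec, s0, ZMod.val_one]
    · change bp 1 * root β * (bp 1)⁻¹ ∈ N0
      rw [← mul_mem_cancel_right (inv_mem (H_N0 (root_H β_mem))), comm_bp]
      refine H_N0 (base_mem _ fun x => at1_H x ?_)
      by_cases hx : x = 0
      · have g0 : β⁻¹ 0 = 0 := by decide
        rw [hx, g0, mul_inv_cancel]; exact one_mem _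
      · have : β⁻¹ x ≠ 0 := by revert x; decide
        simp only [sec, hx, this, if_false]
        exact mul_mem (root_H (pow_mem (s0_mem _) _)) (inv_mem (root_H (pow_mem (s0_mem _) _)))
  exact this h

theorem conj_step (x : X) {g : P} (h1 : g ∈ N0) (h2 : bp 1 * g * (bp 1)⁻¹ ∈ N0) :
    bp 1 * at1 x g * (bp 1)⁻¹ ∈ N0 := by
  rw [bp_eq, conj_at1]
  apply at1_N0
  unfold sec
  split_ifs
  · exact h2
  · have := H_N0 (root_H (pow_mem (s0_mem x) (1 : ZMod 3).val))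
    exact mul_mem (mul_mem this h1) (inv_mem this)

theorem conj_N0 {g : P} (h : g ∈ N0) : bp 1 * g * (bp 1)⁻¹ ∈ N0 := by
  refine N0_le (M := N0.comap (MulAut.conj (bp 1)).toMonoidHom) (iSup_le fun n => ?_)
    (fun v => ?_) h
  · induction n with
    | zero => exact bot_le
    | succ n ih =>
      exact wrSub_le (fun σ hσ => conj_root hσ) fun x g hg =>
        conj_step x (H_N0 (mem_H.2 ⟨n, hg⟩)) (ih hg)
  · induction v with
    | nil =>
      change bp 1 * dd 1 * (bp 1)⁻¹ ∈ N0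
      have e : ∀ a b c : P, a * (b * c) * a⁻¹ = (a * b * a⁻¹) * (a * c * a⁻¹) :=
        fun a b c => by group
      have := d_N0 []
      rw [dd, e]
      conv => enter [2, 1]; rw [bp_eq, conj_at1, ← bp_eq]
      conv => enter [2, 2]; rw [bp_eq, conj_at1, ← bp_eq]
      simpa [sec, s0, dd, atv] using this
    | cons x v ih => exact conj_step x (d_N0 v) ih

theorem N0_index : N0.relIndex G ≠ 0 := by
  have cj : ∀ c : ZMod 3, ∀ g ∈ N0, bp c * g * (bp c)⁻¹ ∈ N0 := by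
    intro c g hg
    have : c = 0 ∨ c = 1 ∨ c = 1 + 1 := by revert c; decide
    rcases this with rfl | rfl | rfl
    · simpa [bp_zero] using hg
    · exact conj_N0 hg
    · have := conj_N0 (conj_N0 hg)
      rw [bp_add]; simpa [mul_assoc] using this
  have key : ∀ g ∈ G, ∃ c, (bp c)⁻¹ * g ∈ N0 := by
    intro g hg
    induction hg using Subgroup.closure_induction with
    | mem g hg =>
      rcases hg with rfl | rfl | rfl
      · exact ⟨0, by simpa [bp_zero] using H_N0 (root_H α_mem)⟩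
      · exact ⟨0, by simpa [bp_zero] using H_N0 (root_H β_mem)⟩
      · exact ⟨1, by simp⟩
    | one => exact ⟨0, by simp [bp_zero]⟩
    | mul a b _ _ ha hb =>
      obtain ⟨c, h1⟩ := ha
      obtain ⟨d, h2⟩ := hb
      refine ⟨c + d, ?_⟩
      have := mul_mem (cj (-d) _ h1) h2
      rw [bp_add]
      simpa [bp_neg, mul_assoc] using this
    | inv a _ ha =>
      obtain ⟨c, h1⟩ := ha
      refine ⟨-c, ?_⟩
      have := cj c _ (inv_mem h1)
      simpa [bp_neg, mul_assoc] using this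
  haveI : Finite (G ⧸ N0.subgroupOf G) := by
    refine Finite.of_surjective
      (fun c : ZMod 3 => ((⟨bp c, bp_mem b_G c⟩ : G) : G ⧸ N0.subgroupOf G)) fun q => ?_
    obtain ⟨g, rfl⟩ := QuotientGroup.mk_surjective q
    obtain ⟨c, hc⟩ := key g.1 g.2
    exact ⟨c, QuotientGroup.eq.2 hc⟩
  exact Subgroup.index_ne_zero_of_finite

/-- iterated base subgroups -/
def KK : ℕ → Subgroup P
  | 0 => N0
  | n + 1 => (Subgroup.pi Set.univ fun _ : X => KK n).map base

theorem KK_index (n : ℕ) : (KK n).relIndex G ≠ 0 := by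
  induction n with
  | zero => exact N0_index
  | succ n ih => exact base_index G_wr ih

theorem KK_le (n : ℕ) : ∀ M : Subgroup P,
    (∀ v : List X, v.length = n → N0 ≤ M.comap (atv v)) → KK n ≤ M := by
  induction n with
  | zero => exact fun M h => h [] rfl
  | succ n ih =>
    rintro M h _ ⟨f, hf, rfl⟩
    refine base_mem f fun x => ?_
    exact ih (M.comap (at1 x)) (fun v hv => h (x :: v) (by simp [hv])) (hf x trivial)

theorem big (M : Subgroup P) (h1 : H ≤ M) (h2 : M ≤ G) (h3 : M ≠ H) : M.relIndex G ≠ 0 := by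
  obtain ⟨g, hg, hgH⟩ : ∃ g ∈ M, g ∉ H := by
    by_contra h
    push Not at h
    exact h3 (le_antisymm h h1)
  obtain ⟨n, c, hl⟩ := lev_G (h2 hg)
  obtain ⟨u, v, j, hj, e⟩ := find_sec n hl hgH
  have hv : atv v (dd 1) ∈ M := by
    have := mul_mem (mul_mem (mul_mem hg (h1 (atv_H u (root_H κ_mem)))) (inv_mem hg))
      (inv_mem (h1 (atv_H v (root_H κ_mem))))
    rw [e, ← map_inv, ← map_mul, dd_eq] at this
    have hj' : j = 1 ∨ j = -1 := (by decide : ∀ j : ZMod 3, j ≠ 0 → j = 1 ∨ j = -1) j hj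
    rcases hj' with rfl | rfl
    · exact this
    · rw [dd_neg, map_inv] at this; exact (inv_mem_iff.1 this)
  have same : ∀ w w' : List X, w.length = w'.length → atv w (dd 1) ∈ M → atv w' (dd 1) ∈ M := by
    intro w w' hw hm
    obtain ⟨k, hk, -, e⟩ := trans H_wr w w' hw
    rw [← e]
    exact mul_mem (mul_mem (h1 hk) hm) (inv_mem (h1 hk))
  have deep : ∀ m, atv (v ++ List.replicate m 0) (dd 1) ∈ M := by
    intro m
    induction m with
    | zero => simpa using hv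
    | succ m ih =>
      rw [List.replicate_succ', ← List.append_assoc, atv_append]
      have hk := h1 (atv_H (v ++ List.replicate m 0) (at1_H 0 (root_H κ_mem)))
      have := mul_mem (mul_mem (mul_mem ih hk) (inv_mem ih)) (inv_mem hk)
      rw [← map_inv, ← map_inv, ← map_mul, ← map_mul, ← map_mul] at this
      convert this using 2
      rw [← dd_eq 1]
      change at1 0 _ = _
      conv_rhs => rw [dd_eq 1, dd]
      simp only [at1, MonoidHom.comp_apply, ← map_mul base, ← map_inv base]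
      apply base_eq <;> simp
  refine fun e => KK_index v.length (Subgroup.relIndex_eq_zero_of_le_left ?_ e)
  refine KK_le _ M fun w hw => N0_le (fun k hk => h1 (atv_H w hk)) fun u => ?_
  change atv w (atv u (dd 1)) ∈ M
  rw [← atv_append]
  exact same _ _ (by simp [hw]) (deep u.length)

theorem main : ∃ G H : Subgroup (Equiv.Perm (List (Fin 5))),
    G.FG ∧ IsBranch G ∧ H ≤ G ∧ IsBranch H ∧ H.relIndex G = 0 ∧
      ∀ M, H ≤ M → M ⋖ G → M.relIndex G ≠ 0 := by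
  refine ⟨G, H, G_fg, branch G_wr, H_le, branch H_wr, H_index, fun M h1 h2 =>
    big M h1 h2.le ?_⟩
  rintro rfl
  refine h2.2 (c := Z ⊓ G) (lt_of_le_of_ne (le_inf H_Z H_le) fun e => ?_)
    (lt_of_le_of_ne inf_le_right fun e => b_not_Z (inf_eq_right.1 e b_G))
  apply N0_index
  refine Subgroup.relIndex_eq_zero_of_le_left N0_Z ?_
  rw [← Subgroup.inf_relIndex_right, ← e]
  exact H_index

end Pool.Agent.H64.Branch
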