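import Mathlib

set_option autoImplicit false

namespace Pool.Agent.H64.Branch

variable {X : Type}

/-- Adjacency in the rooted tree of finite strings over the alphabet X. -/
def Adj (u v : List X) : Prop := (∃ x, v = u ++ [x]) ∨ (∃ x, u = v ++ [x])

/-- Graph automorphisms of the tree. -/
def IsTreeAut (g : Equiv.Perm (List X)) : Prop := ∀ u v, Adj u v ↔ Adj (g u) (g v)

/-- Pointwise stabiliser of the n-th layer. -/
def St (G : Subgroup (Equiv.Perm (List X))) (n : ℕ) : Set (Equiv.Perm (List X)) :=
  {g | g ∈ G ∧ ∀ u : List X, u.length = n → g u = u}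

/-- Rigid vertex stabiliser. -/
def rist (G : Subgroup (Equiv.Perm (List X))) (v : List X) : Set (Equiv.Perm (List X)) :=
  {g | g ∈ St G v.length ∧
    ∀ u : List X, u.length = v.length → u ≠ v → ∀ w : List X, g (u ++ w) = u ++ w}

/-- Rigid layer stabiliser. -/
def Rist (G : Subgroup (Equiv.Perm (List X))) (n : ℕ) : Subgroup (Equiv.Perm (List X)) :=
  Subgroup.closure (⋃ v ∈ {v : List X | v.length = n}, rist G v)

/-- Branch groups acting on the tree. -/
def IsBranch (G : Subgroup (Equiv.Perm (List X))) : Prop :=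
  (∀ g ∈ G, IsTreeAut g) ∧
  (∀ u v : List X, u.length = v.length → ∃ g ∈ G, g u = v) ∧
  ∀ n, (Rist G n).relIndex G ≠ 0

end Pool.Agent.H64.Branch
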