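import Mathlib

/-! Brachymorphisms, part 1: rings with a degree function and the splitting of linked systems. -/

namespace Pool.Agent.H64.Brc

/-- A size function (`degree + 1`, and `0` on `0`) with a weak algorithm, over the field with two elements. -/
structure Deg (A : Type) [Ring A] where
  d : A → ℕ
  d_eq_zero : ∀ a, d a = 0 ↔ a = 0
  d_one : d 1 = 1
  cst : ∀ a, d a ≤ 1 → a = 0 ∨ a = 1
  d_add : ∀ a b, d (a + b) ≤ max (d a) (d b)
  d_neg : ∀ a, d (-a) = d a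
  d_mul : ∀ a b, a ≠ 0 → b ≠ 0 → d (a * b) + 1 = d a + d b
  W : ∀ (n : ℕ) (l a m x : A), l ≠ 0 → x ≠ 0 → d (l * a - m * x) + 1 < d l + d x + n →
    ∃ e, d (a - e * x) < d x + n ∧ d (m - l * e) < d l + n

/-- The opposite ring on the same additive group. -/
def Flip (A : Type) : Type := A

instance (A : Type) [Ring A] : Ring (Flip A) :=
  { (inferInstance : AddCommGroupWithOne A) with
    mul := fun a b => @HMul.hMul A A A _ b a
    mul_assoc := fun a b c => (mul_assoc (G := A) c b a).symm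
    one_mul := fun a => mul_one (M := A) a
    mul_one := fun a => one_mul (M := A) a
    zero_mul := fun a => mul_zero (M₀ := A) a
    mul_zero := fun a => zero_mul (M₀ := A) a
    left_distrib := fun a b c => add_mul (R := A) b c a
    right_distrib := fun a b c => mul_add (R := A) c a b }

variable {A : Type} [Ring A]

namespace Deg
variable (D : Deg A)

theorem d_zero : D.d 0 = 0 := (D.d_eq_zero 0).2 rfl

theorem d_sub (a b : A) : D.d (a - b) ≤ max (D.d a) (D.d b) := by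
  have := D.d_add a (-b)
  rwa [D.d_neg, ← sub_eq_add_neg] at this

theorem d_sub_comm (a b : A) : D.d (a - b) = D.d (b - a) := by
  rw [← D.d_neg, neg_sub]

theorem d_mul_le (a b : A) : D.d (a * b) ≤ D.d a + D.d b - 1 := by
  by_cases ha : a = 0
  · simp [ha, D.d_zero]
  by_cases hb : b = 0
  · simp [hb, D.d_zero]
  have := D.d_mul a b ha hb
  omega

theorem ne_zero {a : A} (h : 1 ≤ D.d a) : a ≠ 0 := by
  rintro rfl
  rw [D.d_zero] at h
  omega

theorem pos {a : A} (h : a ≠ 0) : 1 ≤ D.d a := by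
  have := (D.d_eq_zero a).not.2 h
  omega

theorem d_add_of_lt {a b : A} (h : D.d b < D.d a) : D.d (a + b) = D.d a := by
  have h1 := D.d_add a b
  have h2 := D.d_sub (a + b) b
  rw [add_sub_cancel_right] at h2
  omega

/-- Elements of size `≤ n`. -/
def Fl (n : ℕ) : AddSubgroup A where
  carrier := {a | D.d a ≤ n}
  zero_mem' := by simp [D.d_zero]
  add_mem' := fun {a b} ha hb => by
    have := D.d_add a b
    simp only [Set.mem_setOf_eq] at *
    omega
  neg_mem' := fun {a} ha => by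
    simp only [Set.mem_setOf_eq] at *
    rwa [D.d_neg]

theorem mem_Fl {n : ℕ} {a : A} : a ∈ D.Fl n ↔ D.d a ≤ n := Iff.rfl

/-- The degree structure on the opposite ring. -/
def flip : Deg (Flip A) where
  d := D.d
  d_eq_zero := D.d_eq_zero
  d_one := D.d_one
  cst := D.cst
  d_add := D.d_add
  d_neg := D.d_neg
  d_mul := fun a b ha hb => (D.d_mul b a hb ha).trans (Nat.add_comm _ _)
  W := fun n l a m x hl hx h => by
    have h' : D.d (@HMul.hMul A A A _ a l - @HMul.hMul A A A _ x m) + 1 < D.d l + D.d x + n := h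
    rw [D.d_sub_comm] at h'
    obtain ⟨e, h1, h2⟩ := D.W n x m a l hx hl (by omega)
    exact ⟨e, h2, h1⟩

end Deg

/-- Sums of products. -/
def P (Z Y : AddSubgroup A) : AddSubgroup A :=
  AddSubgroup.closure {a | ∃ z ∈ Z, ∃ y ∈ Y, a = z * y}

theorem mul_mem_P {Z Y : AddSubgroup A} {z y : A} (hz : z ∈ Z) (hy : y ∈ Y) : z * y ∈ P Z Y :=
  AddSubgroup.subset_closure ⟨z, hz, y, hy, rfl⟩

theorem P_le {Z Y W : AddSubgroup A} (h : ∀ z ∈ Z, ∀ y ∈ Y, z * y ∈ W) : P Z Y ≤ W := by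
  refine (AddSubgroup.closure_le _).2 ?_
  rintro _ ⟨z, hz, y, hy, rfl⟩
  exact h z hz y hy

theorem P_mono {Z Y Z' Y' : AddSubgroup A} (h1 : Z ≤ Z') (h2 : Y ≤ Y') : P Z Y ≤ P Z' Y' :=
  P_le fun _ hz _ hy => mul_mem_P (h1 hz) (h2 hy)

theorem P_deg (D : Deg A) {Z Y : AddSubgroup A} {a b : ℕ} (hZ : ∀ z ∈ Z, D.d z ≤ a)
    (hY : ∀ y ∈ Y, D.d y ≤ b) {E : A} (hE : E ∈ P Z Y) : D.d E ≤ a + b - 1 := by
  refine D.mem_Fl.1 (P_le (W := D.Fl (a + b - 1)) ?_ hE)
  intro z hz y hy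
  have := D.d_mul_le z y
  have := hZ z hz
  have := hY y hy
  rw [D.mem_Fl]
  omega

theorem P_flip (Z Y : AddSubgroup A) : P (A := Flip A) Y Z = P Z Y := by
  apply le_antisymm
  · exact P_le (A := Flip A) fun y hy z hz => mul_mem_P (A := A) hz hy
  · exact P_le (A := A) fun z hz y hy => mul_mem_P (A := Flip A) hy hz

/-- A link between a row and a column. -/
def Rel (t' : A) (Z : AddSubgroup A) (t : A) (Y : AddSubgroup A) (x m : A) : Prop :=
  x ∈ Y ∧ m ∈ Z ∧ t' * x - m * t ∈ P Z Y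

theorem Rel.mono {t' t x m : A} {Z Y Z' Y' : AddSubgroup A} (h : Rel t' Z t Y x m) (h1 : Z ≤ Z')
    (h2 : Y ≤ Y') : Rel t' Z' t Y' x m := ⟨h2 h.1, h1 h.2.1, P_mono h1 h2 h.2.2⟩

theorem Rel_flip {t' t x m : A} {Z Y : AddSubgroup A} :
    Rel (A := Flip A) t Y t' Z m x ↔ Rel t' Z t Y x m := by
  unfold Rel
  rw [P_flip]
  have : (@HMul.hMul (Flip A) (Flip A) (Flip A) _ t m - @HMul.hMul (Flip A) (Flip A) (Flip A) _ x t') =
      -(t' * x - m * t : A) := (neg_sub (t' * x) (m * t)).symm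
  rw [this]
  constructor
  · rintro ⟨h1, h2, h3⟩
    exact ⟨h2, h1, (neg_mem_iff (H := P Z Y)).1 h3⟩
  · rintro ⟨h1, h2, h3⟩
    exact ⟨h2, h1, (neg_mem_iff (H := P Z Y)).2 h3⟩

/-- A linked system of rows and columns (with exceptional generators). -/
structure Sys (D : Deg A) {κ ι : Type} (t' : κ → A) (Z : κ → AddSubgroup A) (t : ι → A)
    (Y : ι → AddSubgroup A) (ER : κ → A) (EC : ι → A) : Prop where
  ht : ∀ c, 2 ≤ D.d (t c)
  hY1 : ∀ c, (1 : A) ∈ Y c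
  hYd : ∀ c, ∀ y ∈ Y c, D.d y < D.d (t c)
  ht' : ∀ r, 2 ≤ D.d (t' r)
  hZ1 : ∀ r, (1 : A) ∈ Z r
  hZd : ∀ r, ∀ z ∈ Z r, D.d z < D.d (t' r)
  spanC : ∀ c (W : AddSubgroup A), (1 : A) ∈ W → EC c ∈ W →
    (∀ r x m, Rel (t' r) (Z r) (t c) (Y c) x m → x ∈ W) → Y c ≤ W
  spanR : ∀ r (W : AddSubgroup A), (1 : A) ∈ W → ER r ∈ W →
    (∀ c x m, Rel (t' r) (Z r) (t c) (Y c) x m → m ∈ W) → Z r ≤ W

variable {D : Deg A} {κ ι : Type} {t' : κ → A} {Z : κ → AddSubgroup A} {t : ι → A}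
  {Y : ι → AddSubgroup A} {ER : κ → A} {EC : ι → A}

theorem Sys.flip (h : Sys D t' Z t Y ER EC) : Sys (A := Flip A) D.flip t Y t' Z EC ER where
  ht := h.ht'
  hY1 := h.hZ1
  hYd := h.hZd
  ht' := h.ht
  hZ1 := h.hY1
  hZd := h.hYd
  spanC := fun r W h1 h2 h3 => h.spanR r W h1 h2 fun c x m hr => h3 c m x (Rel_flip.2 hr)
  spanR := fun c W h1 h2 h3 => h.spanC c W h1 h2 fun r x m hr => h3 r m x (Rel_flip.2 hr)

theorem Sys.unflip (h : Sys (A := Flip A) D.flip t Y t' Z EC ER) : Sys D t' Z t Y ER EC where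
  ht := h.ht'
  hY1 := h.hZ1
  hYd := h.hZd
  ht' := h.ht
  hZ1 := h.hY1
  hZd := h.hYd
  spanC := fun c W h1 h2 h3 => h.spanR c W h1 h2 fun r m x hr => h3 r x m (Rel_flip.1 hr)
  spanR := fun r W h1 h2 h3 => h.spanC r W h1 h2 fun c m x hr => h3 c x m (Rel_flip.1 hr)

theorem Sys.discharge (h : Sys D t' Z t Y ER EC)
    (hC : ∀ c, EC c = 0 ∨ ∃ r m, Rel (t' r) (Z r) (t c) (Y c) (EC c) m)
    (hR : ∀ r, ER r = 0 ∨ ∃ c x, Rel (t' r) (Z r) (t c) (Y c) x (ER r)) :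
    Sys D t' Z t Y (fun _ => 0) (fun _ => 0) where
  ht := h.ht
  hY1 := h.hY1
  hYd := h.hYd
  ht' := h.ht'
  hZ1 := h.hZ1
  hZd := h.hZd
  spanC := fun c W h1 _ h3 => h.spanC c W h1 (by
    rcases hC c with h0 | ⟨r, m, hr⟩
    · rw [h0]; exact W.zero_mem
    · exact h3 r _ m hr) h3
  spanR := fun r W h1 _ h3 => h.spanR r W h1 (by
    rcases hR r with h0 | ⟨c, x, hr⟩
    · rw [h0]; exact W.zero_mem
    · exact h3 c x _ hr) h3

end Pool.Agent.H64.Brc
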