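import Pool.Agent.H64.Brc1

/-! Brachymorphisms, part 2: splitting a column of a linked system. -/

namespace Pool.Agent.H64.Brc

variable {A : Type} [Ring A]

/-- Remainders of `Y` modulo `ξ`. -/
def Rem (D : Deg A) (Y : AddSubgroup A) (ξ : A) : AddSubgroup A where
  carrier := {p | D.d p ≤ D.d ξ - 1 ∧ ∃ q, p + q * ξ ∈ Y}
  zero_mem' := ⟨by simp [D.d_zero], 0, by simp⟩
  add_mem' := by
    rintro a b ⟨ha, q, hq⟩ ⟨hb, q', hq'⟩
    refine ⟨(D.Fl _).add_mem ha hb, q + q', ?_⟩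
    have := Y.add_mem hq hq'
    convert this using 1
    noncomm_ring
  neg_mem' := by
    rintro a ⟨ha, q, hq⟩
    refine ⟨(D.Fl _).neg_mem ha, -q, ?_⟩
    have := Y.neg_mem hq
    convert this using 1
    noncomm_ring

/-- Quotients of `Y` modulo `ξ`. -/
def Quo (D : Deg A) (Y : AddSubgroup A) (ξ : A) : AddSubgroup A where
  carrier := {q | ∃ p, D.d p ≤ D.d ξ - 1 ∧ p + q * ξ ∈ Y}
  zero_mem' := ⟨0, by simp [D.d_zero], by simp⟩
  add_mem' := by
    rintro a b ⟨p, ha, hq⟩ ⟨p', hb, hq'⟩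
    refine ⟨p + p', (D.Fl _).add_mem ha hb, ?_⟩
    have := Y.add_mem hq hq'
    convert this using 1
    noncomm_ring
  neg_mem' := by
    rintro a ⟨p, ha, hq⟩
    refine ⟨-p, (D.Fl _).neg_mem ha, ?_⟩
    have := Y.neg_mem hq
    convert this using 1
    noncomm_ring

/-- New row elements created by a column split. -/
def Ext (D : Deg A) (t' : A) (Z Yr : AddSubgroup A) (ξ : A) : AddSubgroup A where
  carrier := {m | D.d m ≤ D.d t' - 1 ∧ ∃ x ∈ Yr, t' * x - m * ξ ∈ P Z Yr}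
  zero_mem' := ⟨by simp [D.d_zero], 0, Yr.zero_mem, by simp⟩
  add_mem' := by
    rintro a b ⟨ha, q, hq0, hq⟩ ⟨hb, q', hq0', hq'⟩
    refine ⟨(D.Fl _).add_mem ha hb, q + q', Yr.add_mem hq0 hq0', ?_⟩
    have := (P Z Yr).add_mem hq hq'
    convert this using 1
    noncomm_ring
  neg_mem' := by
    rintro a ⟨ha, q, hq0, hq⟩
    refine ⟨(D.Fl _).neg_mem ha, -q, Yr.neg_mem hq0, ?_⟩
    have := (P Z Yr).neg_mem hq
    convert this using 1
    noncomm_ring

/-- Elements whose quotient and remainder lie in prescribed subgroups. -/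
def QR (D : Deg A) (Wq Wr : AddSubgroup A) (ξ : A) : AddSubgroup A where
  carrier := {y | ∃ q ∈ Wq, ∃ p ∈ Wr, D.d p ≤ D.d ξ - 1 ∧ y = p + q * ξ}
  zero_mem' := ⟨0, Wq.zero_mem, 0, Wr.zero_mem, by simp [D.d_zero], by simp⟩
  add_mem' := by
    rintro _ _ ⟨q, hq, p, hp, hd, rfl⟩ ⟨q', hq', p', hp', hd', rfl⟩
    exact ⟨q + q', Wq.add_mem hq hq', p + p', Wr.add_mem hp hp', (D.Fl _).add_mem hd hd',
      by noncomm_ring⟩
  neg_mem' := by
    rintro _ ⟨q, hq, p, hp, hd, rfl⟩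
    exact ⟨-q, Wq.neg_mem hq, -p, Wr.neg_mem hp, (D.Fl _).neg_mem hd, by noncomm_ring⟩

theorem div_unique (D : Deg A) {ξ p q p' q' : A} (hξ : ξ ≠ 0) (hp : D.d p ≤ D.d ξ - 1)
    (hp' : D.d p' ≤ D.d ξ - 1) (h : p + q * ξ = p' + q' * ξ) : q = q' ∧ p = p' := by
  have h1 : (q - q') * ξ = p' - p := by
    rw [sub_mul, sub_eq_sub_iff_add_eq_add, add_comm (q * ξ), h]
  have h2 : q = q' := by
    by_contra hne
    have h3 := D.d_mul _ _ (sub_ne_zero.2 hne) hξ
    have h4 := D.pos (sub_ne_zero.2 hne)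
    have h5 := D.d_sub p' p
    have h6 := D.pos hξ
    rw [h1] at h3
    omega
  subst h2
  exact ⟨rfl, add_right_cancel h⟩

variable {D : Deg A} {κ ι : Type} {t' : κ → A} {Z : κ → AddSubgroup A} {t : ι → A}
  {Y : ι → AddSubgroup A} {ER : κ → A} {EC : ι → A}

/-- Key computation: a link with the column `t = η ξ + tr` gives links with `η` and with `ξ`. -/
theorem link_split {T T' ξ η tr : A} {Z0 Y0 Yq Yr : AddSubgroup A} (hξ : 2 ≤ D.d ξ)
    (hT' : 2 ≤ D.d T') (hZ : ∀ z ∈ Z0, D.d z < D.d T') (hYr : ∀ y ∈ Yr, D.d y ≤ D.d ξ - 1)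
    (hT : T = η * ξ + tr) (htr : tr ∈ Yr) (h1 : (1 : A) ∈ Yq)
    (hY : ∀ y ∈ Y0, ∃ q ∈ Yq, ∃ p ∈ Yr, y = p + q * ξ) {x m : A} (hr : Rel T' Z0 T Y0 x m) :
    ∃ q ∈ Yq, ∃ p ∈ Yr, x = p + q * ξ ∧ ∃ m' ∈ Ext D T' Z0 Yr ξ,
      Rel T' (Z0 ⊔ Ext D T' Z0 Yr ξ) ξ Yr p m' ∧ Rel T' (Z0 ⊔ Ext D T' Z0 Yr ξ) η Yq q m := by
  obtain ⟨hx, hm, hE⟩ := hr
  obtain ⟨q, hq, p, hp, rfl⟩ := hY x hx
  have key : ∀ E ∈ P Z0 Y0, ∃ Eq ∈ P Z0 Yq, ∃ Er ∈ P Z0 Yr, E = Er + Eq * ξ := by
    intro E hE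
    induction hE using AddSubgroup.closure_induction with
    | mem a ha =>
      obtain ⟨z, hz, y, hy, rfl⟩ := ha
      obtain ⟨q, hq, p, hp, rfl⟩ := hY y hy
      exact ⟨z * q, mul_mem_P hz hq, z * p, mul_mem_P hz hp, by noncomm_ring⟩
    | zero => exact ⟨0, zero_mem _, 0, zero_mem _, by simp⟩
    | add a b _ _ ha hb =>
      obtain ⟨q, hq, p, hp, rfl⟩ := ha
      obtain ⟨q', hq', p', hp', rfl⟩ := hb
      exact ⟨q + q', add_mem hq hq', p + p', add_mem hp hp', by noncomm_ring⟩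
    | neg a _ ha =>
      obtain ⟨q, hq, p, hp, rfl⟩ := ha
      exact ⟨-q, neg_mem hq, -p, neg_mem hp, by noncomm_ring⟩
  obtain ⟨Eq, hEq, Er, hEr, hE'⟩ := key _ hE
  have e1 : T' * p - (m * η - T' * q + Eq) * ξ = Er + m * tr := by
    have : Er = T' * (p + q * ξ) - m * T - Eq * ξ := by rw [hE']; abel
    rw [this, hT]
    noncomm_ring
  have e2 : Er + m * tr ∈ P Z0 Yr := add_mem hEr (mul_mem_P hm htr)
  have hmem : m * η - T' * q + Eq ∈ Ext D T' Z0 Yr ξ := by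
    refine ⟨?_, p, hp, e1 ▸ e2⟩
    by_cases h0 : m * η - T' * q + Eq = 0
    · rw [h0, D.d_zero]; omega
    have h3 := D.d_mul _ _ h0 (D.ne_zero (by omega : 1 ≤ D.d ξ))
    have h4 : (m * η - T' * q + Eq) * ξ = T' * p - (Er + m * tr) := by rw [← e1]; abel
    have h5 := D.d_sub (T' * p) (Er + m * tr)
    have h6 := D.d_mul_le T' p
    have h7 := hYr p hp
    have h8 := P_deg D (a := D.d T' - 1) (b := D.d ξ - 1)
      (fun z hz => by have := hZ z hz; omega) hYr e2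
    rw [h4] at h3
    omega
  refine ⟨q, hq, p, hp, rfl, _, hmem, ⟨hp, AddSubgroup.mem_sup_right hmem, ?_⟩,
    ⟨hq, AddSubgroup.mem_sup_left hm, ?_⟩⟩
  · rw [e1]
    exact P_mono le_sup_left le_rfl e2
  · have : T' * q - m * η = Eq - (m * η - T' * q + Eq) * 1 := by noncomm_ring
    rw [this]
    exact sub_mem (P_mono le_sup_left le_rfl hEq) (mul_mem_P (AddSubgroup.mem_sup_right hmem) h1)

theorem Sys.split [DecidableEq ι] (h : Sys D t' Z t Y ER EC) (b : ι) (hb : EC b = 0) (ξ η ξ1 : A)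
    (hξ : 2 ≤ D.d ξ) (hη : 2 ≤ D.d η) (h1 : D.d ξ1 < D.d ξ) (hy0 : t b - η * ξ - ξ1 ∈ Y b)
    (hy0d : D.d (t b - η * ξ - ξ1) < D.d ξ) (hdiv : ∀ y ∈ Y b, ∃ q, D.d (y - q * ξ) < D.d ξ) :
    ∃ (Z' : κ → AddSubgroup A) (Y' : Option ι → AddSubgroup A),
      Sys D t' Z' (fun o => o.elim η (Function.update t b ξ)) Y' ER
        (fun o => o.elim 0 (Function.update EC b ξ1)) ∧ (∀ r, Z r ≤ Z' r) ∧
      (∀ c, c ≠ b → Y' (some c) = Y c) ∧ ξ1 ∈ Y' (some b) ∧
      (∀ y ∈ Y b, D.d y < D.d ξ → y ∈ Y' (some b)) ∧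
      (∀ r, ∀ m ∈ Z' r, ∃ z ∈ Z r, ∃ x, D.d x < D.d ξ ∧ t' r * x - (m - z) * ξ ∈ P (Z r) (Y' (some b))) ∧
      D.d (t b) + 1 = D.d η + D.d ξ := by
  obtain ⟨Yr, hYr⟩ : ∃ Yr, Yr = Rem D (Y b) ξ ⊔ AddSubgroup.zmultiples ξ1 := ⟨_, rfl⟩
  obtain ⟨Yq, hYq⟩ : ∃ Yq, Yq = Quo D (Y b) ξ ⊔ AddSubgroup.zmultiples 1 := ⟨_, rfl⟩
  have hξ0 : ξ ≠ 0 := D.ne_zero (by omega)
  have hη0 : η ≠ 0 := D.ne_zero (by omega)
  have low : ∀ y ∈ Y b, D.d y < D.d ξ → y ∈ Yr := fun y hy hd => by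
    rw [hYr]
    exact AddSubgroup.mem_sup_left ⟨by omega, 0, by simpa using hy⟩
  have hξ1 : ξ1 ∈ Yr := by
    rw [hYr]; exact AddSubgroup.mem_sup_right (AddSubgroup.mem_zmultiples _)
  have hYrd : ∀ y ∈ Yr, D.d y ≤ D.d ξ - 1 := by
    have : Yr ≤ D.Fl (D.d ξ - 1) := by
      rw [hYr]
      refine sup_le (fun y hy => hy.1) ?_
      rw [AddSubgroup.zmultiples_le, D.mem_Fl]
      omega
    exact this
  have htr : (t b - η * ξ - ξ1) + ξ1 ∈ Yr := add_mem (low _ hy0 hy0d) hξ1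
  have hT : t b = η * ξ + ((t b - η * ξ - ξ1) + ξ1) := by abel
  have hdt : D.d (t b) + 1 = D.d η + D.d ξ := by
    have h2 := D.d_mul _ _ hη0 hξ0
    have h3 := hYrd _ htr
    rw [hT, D.d_add_of_lt (by omega)]
    exact h2
  have h1q : (1 : A) ∈ Yq := by
    rw [hYq]; exact AddSubgroup.mem_sup_right (AddSubgroup.mem_zmultiples _)
  have hYY : ∀ y ∈ Y b, ∃ q ∈ Yq, ∃ p ∈ Yr, y = p + q * ξ := by
    intro y hy
    obtain ⟨q, hq⟩ := hdiv y hy
    refine ⟨q, ?_, y - q * ξ, ?_, by abel⟩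
    · rw [hYq]
      exact AddSubgroup.mem_sup_left ⟨y - q * ξ, by omega, by simpa using hy⟩
    · rw [hYr]
      exact AddSubgroup.mem_sup_left ⟨by omega, q, by simpa using hy⟩
  have hYqd : ∀ q ∈ Yq, D.d q < D.d η := by
    have : Yq ≤ D.Fl (D.d η - 1) := by
      rw [hYq]
      refine sup_le ?_ ?_
      · rintro q ⟨p, hp, hq⟩
        rw [D.mem_Fl]
        by_cases h0 : q = 0
        · rw [h0, D.d_zero]; omega
        have h2 := D.d_mul _ _ h0 hξ0
        have h3 := h.hYd b _ hq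
        have h4 := D.d_sub (p + q * ξ) p
        rw [add_sub_cancel_left] at h4
        omega
      · rw [AddSubgroup.zmultiples_le, D.mem_Fl, D.d_one]
        omega
    intro q hq
    have := D.mem_Fl.1 (this hq)
    omega
  have link := fun r x m (hr : Rel (t' r) (Z r) (t b) (Y b) x m) =>
    link_split (D := D) hξ (h.ht' r) (h.hZd r) hYrd hT htr h1q hYY hr
  -- the old column lies in `QR`
  have inQR : ∀ Wq Wr : AddSubgroup A, (1 : A) ∈ Wr →
      (∀ r q m, Rel (t' r) (Z r ⊔ Ext D (t' r) (Z r) Yr ξ) η Yq q m → q ∈ Wq) →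
      (∀ r p m, Rel (t' r) (Z r ⊔ Ext D (t' r) (Z r) Yr ξ) ξ Yr p m → p ∈ Wr) →
      Y b ≤ QR D Wq Wr ξ := by
    intro Wq Wr h1r hq hr
    refine h.spanC b _ ⟨0, zero_mem _, 1, h1r, by rw [D.d_one]; omega, by simp⟩
      (by rw [hb]; exact zero_mem _) ?_
    intro r x m hrel
    obtain ⟨q, -, p, hp, rfl, m', -, r1, r2⟩ := link r x m hrel
    exact ⟨q, hq r q m r2, p, hr r p m' r1, hYrd p hp, rfl⟩
  refine ⟨fun r => Z r ⊔ Ext D (t' r) (Z r) Yr ξ,
    fun o => o.elim Yq (Function.update Y b Yr), ?_, fun r => le_sup_left, ?_, ?_, ?_, ?_, hdt⟩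
  · constructor
    · rintro (_ | c)
      · exact hη
      · by_cases hc : c = b
        · subst hc; simpa using hξ
        · simpa [Function.update_of_ne hc] using h.ht c
    · rintro (_ | c)
      · exact h1q
      · by_cases hc : c = b
        · subst hc
          simpa using low 1 (h.hY1 c) (by rw [D.d_one]; omega)
        · simpa [Function.update_of_ne hc] using h.hY1 c
    · rintro (_ | c)
      · exact hYqd
      · by_cases hc : c = b
        · subst hc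
          intro y hy
          have := hYrd y (by simpa using hy)
          simp only [Option.elim, Function.update_self]
          omega
        · simpa [Function.update_of_ne hc] using h.hYd c
    · exact h.ht'
    · exact fun r => AddSubgroup.mem_sup_left (h.hZ1 r)
    · intro r z hz
      have : Z r ⊔ Ext D (t' r) (Z r) Yr ξ ≤ D.Fl (D.d (t' r) - 1) := by
        refine sup_le (fun z hz => ?_) (fun z hz => hz.1)
        have := h.hZd r z hz
        rw [D.mem_Fl]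
        omega
      have h2 := D.mem_Fl.1 (this hz)
      have := h.ht' r
      omega
    · rintro (_ | c) W hW1 hWE hW
      · show Yq ≤ W
        have h2 := inQR W ⊤ trivial hW (fun _ _ _ _ => trivial)
        rw [hYq]
        refine sup_le ?_ (by rwa [AddSubgroup.zmultiples_le])
        rintro q ⟨p, hp, hq⟩
        obtain ⟨q', hq', p', -, hp', he⟩ := h2 hq
        rwa [(div_unique D hξ0 hp hp' he).1]
      · by_cases hc : c = b
        · subst hc
          simp only [Option.elim, Function.update_self] at hWE hW ⊢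
          have h2 := inQR ⊤ W hW1 (fun _ _ _ _ => trivial) hW
          rw [hYr]
          refine sup_le ?_ (by rwa [AddSubgroup.zmultiples_le])
          rintro p ⟨hp, q, hq⟩
          obtain ⟨q', -, p', hp'', hp', he⟩ := h2 hq
          rwa [(div_unique D hξ0 hp hp' he).2]
        · simp only [Option.elim, Function.update_of_ne hc] at hWE hW ⊢
          exact h.spanC c W hW1 hWE fun r x m hr => hW r x m (hr.mono le_sup_left le_rfl)
    · intro r W hW1 hWE hW
      refine sup_le ?_ ?_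
      · refine h.spanR r W hW1 hWE fun c x m hr => ?_
        by_cases hc : c = b
        · subst hc
          obtain ⟨q, -, p, -, -, m', -, -, r2⟩ := link r x m hr
          exact hW none q m r2
        · refine hW (some c) x m ?_
          simp only [Option.elim, Function.update_of_ne hc]
          exact hr.mono le_sup_left le_rfl
      · intro m hm
        obtain ⟨hd, x, hx, hE⟩ := id hm
        refine hW (some b) x m ?_
        simp only [Option.elim, Function.update_self]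
        exact ⟨hx, AddSubgroup.mem_sup_right hm, P_mono le_sup_left le_rfl hE⟩
  · intro c hc
    simp [Function.update_of_ne hc]
  · simpa using hξ1
  · simpa using low
  · intro r m hm
    obtain ⟨z, hz, e, ⟨-, x, hx, hE⟩, rfl⟩ := AddSubgroup.mem_sup.1 hm
    refine ⟨z, hz, x, by have := hYrd x hx; omega, ?_⟩
    simpa using hE

end Pool.Agent.H64.Brc
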