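import Pool.Agent.H64.Brc4

/-! Brachymorphisms, part 5: a fine chain contains every chain with the same top. -/

namespace Pool.Agent.H64.Brc

open Matrix

variable {A : Type} [Ring A] {D : Deg A}

theorem d_sum_le {ι : Type} [Fintype ι] {f : ι → A} {n : ℕ} (h : ∀ i, D.d (f i) ≤ n) :
    D.d (∑ i, f i) ≤ n :=
  D.mem_Fl.1 (sum_mem fun i _ => D.mem_Fl.2 (h i))

theorem cst_mul_mem {N : AddSubgroup A} {k y : A} (hk : D.d k ≤ 1) (hy : y ∈ N) : k * y ∈ N := by
  rcases D.cst k hk with rfl | rfl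
  · simp
  · simpa using hy

theorem mul_cst_mem {N : AddSubgroup A} {k y : A} (hk : D.d k ≤ 1) (hy : y ∈ N) : y * k ∈ N := by
  rcases D.cst k hk with rfl | rfl
  · simp
  · simpa using hy

theorem step_deg {N : AddSubgroup A} {p τ n : A} (hp : p ≠ 0) (hN : ∀ y ∈ N, D.d y ≤ D.d p)
    (hτ : 2 ≤ D.d τ) (hn : n ∈ N) : D.d (τ * p + n) + 1 = D.d τ + D.d p := by
  have h1 := D.d_mul τ p (D.ne_zero (by omega)) hp
  have := hN n hn
  rw [D.d_add_of_lt (by omega)]
  exact h1

theorem Ch.deg {Q : A → Prop} (hQ : ∀ τ, Q τ → 2 ≤ D.d τ) {N : AddSubgroup A} {p : A}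
    (h : Ch Q N p) : p ≠ 0 ∧ ∀ y ∈ N, D.d y ≤ D.d p := by
  induction h with
  | base =>
    refine ⟨D.ne_zero D.d_one.ge, ?_⟩
    have : AddSubgroup.zmultiples (1 : A) ≤ D.Fl (D.d 1) := by
      rw [AddSubgroup.zmultiples_le, D.mem_Fl]
    exact this
  | @step N p τ n _ hτ hn ih =>
    have h1 := step_deg ih.1 ih.2 (hQ τ hτ) hn
    have h2 := hQ τ hτ
    have h3 := D.pos ih.1
    refine ⟨D.ne_zero (by omega), ?_⟩
    have : N ⊔ AddSubgroup.zmultiples (τ * p + n) ≤ D.Fl (D.d (τ * p + n)) := by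
      refine sup_le (fun y hy => ?_) (by rw [AddSubgroup.zmultiples_le, D.mem_Fl])
      have := ih.2 y hy
      rw [D.mem_Fl]
      omega
    exact this

theorem Ch.bound {N : AddSubgroup A} {p : A} (h : Ch (fun τ => 2 ≤ D.d τ) N p) (m : ℕ)
    (hm : D.d p < m) : Ch (fun τ => 2 ≤ D.d τ ∧ D.d τ < m) N p := by
  induction h with
  | base => exact Ch.base
  | @step N p τ n h0 hτ hn ih =>
    have h2 := h0.deg (D := D) (fun _ h => h)
    have h1 := step_deg h2.1 h2.2 hτ hn
    have h3 := D.pos h2.1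
    exact Ch.step τ n (ih (by omega)) ⟨hτ, by omega⟩ hn

/-- Indecomposable blocks. -/
def Indec (D : Deg A) (τ : A) : Prop :=
  2 ≤ D.d τ ∧ ¬ ∃ N, Ch (fun σ => 2 ≤ D.d σ ∧ D.d σ < D.d τ) N τ

theorem mem_sup_low {N : AddSubgroup A} {q y : A} (hN : ∀ y ∈ N, D.d y < D.d q)
    (hy : y ∈ N ⊔ AddSubgroup.zmultiples q) (hd : D.d y < D.d q) : y ∈ N := by
  obtain ⟨n, hn, _, ⟨z, rfl⟩, rfl⟩ := AddSubgroup.mem_sup.1 hy
  have h1 : D.d (z • (1 : A)) ≤ 1 := D.mem_Fl.1 (zsmul_mem (D.mem_Fl.2 D.d_one.le) z)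
  have h2 : z • q = (z • (1 : A)) * q := by simp
  simp only at hd ⊢
  rw [h2] at hd ⊢
  rcases D.cst _ h1 with h3 | h3
  · simpa [h3] using hn
  · rw [h3, one_mul, add_comm, D.d_add_of_lt (hN n hn)] at hd
    omega

theorem Indec.const {τ : A} (hτ : Indec D τ) {N : AddSubgroup A}
    (h : Ch (fun τ => 2 ≤ D.d τ) N τ) {y : A} (hy : y ∈ N) (hd : D.d y < D.d τ) : D.d y ≤ 1 := by
  cases h with
  | base => rw [D.d_one] at hd; omega
  | @step N p σ n h0 hσ hn =>
    have h2 := h0.deg (D := D) (fun _ h => h)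
    have h1 := step_deg h2.1 h2.2 hσ hn
    have h3 := mem_sup_low (fun y hy => by have := h2.2 y hy; omega) hy hd
    by_contra h4
    have h5 := h2.2 y h3
    exact hτ.2 ⟨_, Ch.step σ n (h0.bound _ (by omega)) ⟨hσ, by omega⟩ hn⟩

section
variable {κ ι : Type} [Fintype κ] [Fintype ι] [DecidableEq κ] [DecidableEq ι]
  {τ : ι → A} {τ' : κ → A} {C : Matrix ι ι A} {C' : Matrix κ κ A}

theorem entry {X L : Matrix κ ι A} (h : (diagonal τ' + C') * X = L * (diagonal τ + C)) (i : κ) (j : ι) :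
    τ' i * X i j - L i j * τ j = ∑ k, L i k * C k j - ∑ k, C' i k * X k j := by
  have := congrFun (congrFun h i) j
  rw [Matrix.add_mul, Matrix.mul_add, Matrix.add_apply, Matrix.add_apply, diagonal_mul, mul_diagonal,
    Matrix.mul_apply, Matrix.mul_apply] at this
  rw [sub_eq_sub_iff_add_eq_add, this, add_comm]

theorem sylv (hτ : ∀ j, 2 ≤ D.d (τ j)) (hτ' : ∀ i, 2 ≤ D.d (τ' i)) (hC : ∀ i j, D.d (C i j) ≤ 1)
    (hC' : ∀ i j, D.d (C' i j) ≤ 1) : ∀ (ν : ℕ) (X L : Matrix κ ι A),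
    (diagonal τ' + C') * X = L * (diagonal τ + C) → (∀ i j, D.d (X i j) < D.d (τ j) + ν) →
    (∀ i j, D.d (L i j) < D.d (τ' i) + ν) →
    ∃ Y : Matrix κ ι A, (∀ i j, D.d ((X - Y * (diagonal τ + C)) i j) < D.d (τ j)) ∧
      ∀ i j, D.d ((L - (diagonal τ' + C') * Y) i j) < D.d (τ' i) := by
  intro ν
  induction ν with
  | zero => intro X L _ h1 h2; exact ⟨0, by simpa using h1, by simpa using h2⟩
  | succ ν ih =>
    intro X L h h1 h2
    have hE : ∀ i j, ∃ e, D.d (X i j - e * τ j) < D.d (τ j) + ν ∧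
        D.d (L i j - τ' i * e) < D.d (τ' i) + ν := by
      intro i j
      have a1 := hτ j
      have a2 := hτ' i
      refine D.W ν _ _ _ _ (D.ne_zero (by omega)) (D.ne_zero (by omega)) ?_
      rw [entry h]
      have a3 := D.d_sub (∑ k, L i k * C k j) (∑ k, C' i k * X k j)
      have a4 : D.d (∑ k, L i k * C k j) ≤ D.d (τ' i) + ν := d_sum_le fun k => by
        have := D.d_mul_le (L i k) (C k j)
        have := h2 i k
        have := hC k j
        omega
      have a5 : D.d (∑ k, C' i k * X k j) ≤ D.d (τ j) + ν := d_sum_le fun k => by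
        have := D.d_mul_le (C' i k) (X k j)
        have := h1 k j
        have := hC' i k
        omega
      omega
    choose E hE1 hE2 using hE
    have hEd : ∀ i j, D.d (E i j) ≤ ν + 1 := by
      intro i j
      by_cases h0 : E i j = 0
      · rw [h0, D.d_zero]; omega
      have a1 := hτ j
      have a2 := D.d_mul _ (τ j) h0 (D.ne_zero (by omega))
      have a3 := D.d_sub (X i j) (X i j - E i j * τ j)
      rw [sub_sub_cancel] at a3
      have := hE1 i j
      have := h1 i j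
      omega
    obtain ⟨Y, hY1, hY2⟩ := ih (X - (of E) * (diagonal τ + C)) (L - (diagonal τ' + C') * (of E))
      (by rw [Matrix.mul_sub, Matrix.sub_mul, h, Matrix.mul_assoc]) (by
        intro i j
        rw [Matrix.mul_add, Matrix.sub_apply, Matrix.add_apply, mul_diagonal, Matrix.mul_apply,
          ← sub_sub]
        have a3 := D.d_sub (X i j - of E i j * τ j) (∑ k, of E i k * C k j)
        have a4 : D.d (∑ k, of E i k * C k j) ≤ ν + 1 := d_sum_le fun k => by
          have := D.d_mul_le (E i k) (C k j)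
          have := hEd i k
          have := hC k j
          rw [of_apply]
          omega
        have := hE1 i j
        have := hτ j
        rw [of_apply] at *
        omega) (by
        intro i j
        rw [Matrix.add_mul, Matrix.sub_apply, Matrix.add_apply, diagonal_mul, Matrix.mul_apply,
          ← sub_sub]
        have a3 := D.d_sub (L i j - τ' i * of E i j) (∑ k, C' i k * of E k j)
        have a4 : D.d (∑ k, C' i k * of E k j) ≤ ν + 1 := d_sum_le fun k => by
          have := D.d_mul_le (C' i k) (E k j)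
          have := hEd k j
          have := hC' i k
          rw [of_apply]
          omega
        have := hE2 i j
        have := hτ' i
        rw [of_apply] at *
        omega)
    refine ⟨of E + Y, ?_, ?_⟩
    · rw [Matrix.add_mul, ← sub_sub]; exact hY1
    · rw [Matrix.mul_add, ← sub_sub]; exact hY2

theorem sylv_const (hτ : ∀ j, Indec D (τ j)) (hτ' : ∀ i, 2 ≤ D.d (τ' i)) (hC : ∀ i j, D.d (C i j) ≤ 1)
    (hC' : ∀ i j, D.d (C' i j) ≤ 1) {X L : Matrix κ ι A}
    (h : (diagonal τ' + C') * X = L * (diagonal τ + C)) :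
    ∃ Y : Matrix κ ι A, ∀ i j, D.d ((X - Y * (diagonal τ + C)) i j) ≤ 1 := by
  obtain ⟨Y, hY1, hY2⟩ := sylv (fun j => (hτ j).1) hτ' hC hC'
    (∑ i, ∑ j, (D.d (X i j) + D.d (L i j))) X L h (by
      intro i j
      have a1 := Finset.single_le_sum (f := fun i => ∑ j, (D.d (X i j) + D.d (L i j)))
        (fun _ _ => Nat.zero_le _) (Finset.mem_univ i)
      have a2 := Finset.single_le_sum (f := fun j => (D.d (X i j) + D.d (L i j)))
        (fun _ _ => Nat.zero_le _) (Finset.mem_univ j)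
      have := (hτ j).1
      omega) (by
      intro i j
      have a1 := Finset.single_le_sum (f := fun i => ∑ j, (D.d (X i j) + D.d (L i j)))
        (fun _ _ => Nat.zero_le _) (Finset.mem_univ i)
      have a2 := Finset.single_le_sum (f := fun j => (D.d (X i j) + D.d (L i j)))
        (fun _ _ => Nat.zero_le _) (Finset.mem_univ j)
      have := hτ' i
      omega)
  refine ⟨Y, ?_⟩
  have h' : (diagonal τ' + C') * (X - Y * (diagonal τ + C)) =
      (L - (diagonal τ' + C') * Y) * (diagonal τ + C) := by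
    rw [Matrix.mul_sub, Matrix.sub_mul, h, Matrix.mul_assoc]
  generalize X - Y * (diagonal τ + C) = X' at *
  generalize L - (diagonal τ' + C') * Y = L' at *
  obtain ⟨Yc, hYc⟩ : ∃ Yc : ι → AddSubgroup A,
    Yc = fun j => AddSubgroup.closure (insert 1 (Set.range fun i => X' i j)) := ⟨_, rfl⟩
  obtain ⟨Zr, hZr⟩ : ∃ Zr : κ → AddSubgroup A,
    Zr = fun i => AddSubgroup.closure (insert 1 (Set.range fun j => L' i j)) := ⟨_, rfl⟩
  have y1 : ∀ j, (1 : A) ∈ Yc j := fun j => hYc ▸ AddSubgroup.subset_closure (Set.mem_insert _ _)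
  have z1 : ∀ i, (1 : A) ∈ Zr i := fun i => hZr ▸ AddSubgroup.subset_closure (Set.mem_insert _ _)
  have y2 : ∀ i j, X' i j ∈ Yc j := fun i j =>
    hYc ▸ AddSubgroup.subset_closure (Set.mem_insert_of_mem _ ⟨i, rfl⟩)
  have z2 : ∀ i j, L' i j ∈ Zr i := fun i j =>
    hZr ▸ AddSubgroup.subset_closure (Set.mem_insert_of_mem _ ⟨j, rfl⟩)
  have y3 : ∀ j (W : AddSubgroup A), (1 : A) ∈ W → (∀ i, X' i j ∈ W) → Yc j ≤ W := by
    intro j W a1 a2
    rw [hYc]
    refine (AddSubgroup.closure_le _).2 ?_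
    rintro _ (rfl | ⟨i, rfl⟩)
    exacts [a1, a2 i]
  have z3 : ∀ i (W : AddSubgroup A), (1 : A) ∈ W → (∀ j, L' i j ∈ W) → Zr i ≤ W := by
    intro i W a1 a2
    rw [hZr]
    refine (AddSubgroup.closure_le _).2 ?_
    rintro _ (rfl | ⟨i, rfl⟩)
    exacts [a1, a2 i]
  have rel : ∀ i j, Rel (τ' i) (Zr i) (τ j) (Yc j) (X' i j) (L' i j) := by
    intro i j
    refine ⟨y2 i j, z2 i j, ?_⟩
    rw [entry h']
    refine sub_mem (sum_mem fun k _ => ?_) (sum_mem fun k _ => ?_)
    · simpa using mul_mem_P (mul_cst_mem (hC k j) (z2 i k)) (y1 j)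
    · simpa using mul_mem_P (z1 i) (cst_mul_mem (hC' i k) (y2 k j))
  have hYd : ∀ c, ∀ y ∈ Yc c, D.d y < D.d (τ c) := by
    intro j y hy
    have := (hτ j).1
    have a1 := D.mem_Fl.1 (y3 j (D.Fl (D.d (τ j) - 1)) (by rw [D.mem_Fl, D.d_one]; omega)
      (fun i => by have := hY1 i j; rw [D.mem_Fl]; omega) hy)
    omega
  have S : Sys D τ' Zr τ Yc (fun _ => 0) (fun _ => 0) :=
    { ht := fun j => (hτ j).1
      hY1 := y1
      hYd := hYd
      ht' := hτ'
      hZ1 := z1
      hZd := by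
        intro i y hy
        have := hτ' i
        have a1 := D.mem_Fl.1 (z3 i (D.Fl (D.d (τ' i) - 1)) (by rw [D.mem_Fl, D.d_one]; omega)
          (fun j => by have := hY2 i j; rw [D.mem_Fl]; omega) hy)
        omega
      spanC := fun j W a1 _ a3 => y3 j W a1 fun i => a3 i _ _ (rel i j)
      spanR := fun i W a1 _ a3 => z3 i W a1 fun j => a3 j _ _ (rel i j) }
  intro i j
  obtain ⟨N, hN, hle⟩ := sys_chain D _ κ ι τ' Zr τ Yc (Nat.lt_succ_self _) S j
  exact (hτ j).const hN (hle (y2 i j)) (hY1 i j)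

end

end Pool.Agent.H64.Brc
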