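import Pool.Agent.H64.Brc5

/-! Brachymorphisms, part 6: matrix form of a chain. -/

namespace Pool.Agent.H64.Brc

open Matrix

variable {A : Type} [Ring A] {D : Deg A}

/-- Matrix form of a chain with nonconstant top. -/
structure RepOn (D : Deg A) (Q : A → Prop) (N : AddSubgroup A) (p : A) {ι : Type} [Fintype ι]
    [DecidableEq ι] (τ : ι → A) (C : Matrix ι ι A) (s l : ι → A) (a b : ι) : Prop where
  hQ : ∀ i, Q (τ i)
  hC : ∀ i j, D.d (C i j) ≤ 1
  hs : ∀ i, τ i * s i + ∑ j, C i j * s j = if i = a then p else 0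
  hl : ∀ j, l j * τ j + ∑ i, l i * C i j = if j = b then p else 0
  sb : s b = 1
  la : l a = 1
  sol : ∀ v : ι → A, ∃ m : ι → A, m a = 0 ∧
    ∀ j, m j * τ j + ∑ i, m i * C i j = v j - if j = b then ∑ i, v i * s i else 0
  sN : ∀ i, s i ∈ N
  span : ∀ y ∈ N, ∃ (k : ι → A) (k0 : A), (∀ i, D.d (k i) ≤ 1) ∧ D.d k0 ≤ 1 ∧
    y = ∑ i, k i * s i + k0 * p
  deg : ∀ i, D.d (τ i) + D.d (s i) ≤ D.d p + 1

def Rep (D : Deg A) (Q : A → Prop) (N : AddSubgroup A) (p : A) : Prop :=
  ∃ (ι : Type) (_ : Fintype ι) (_ : DecidableEq ι) (τ : ι → A) (C : Matrix ι ι A) (s l : ι → A)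
    (a b : ι), RepOn D Q N p τ C s l a b

theorem d_zsmul_one (z : ℤ) : D.d (z • (1 : A)) ≤ 1 :=
  D.mem_Fl.1 (zsmul_mem (D.mem_Fl.2 D.d_one.le) z)

theorem Ch.rep {Q : A → Prop} (hQ : ∀ τ, Q τ → 2 ≤ D.d τ) {N : AddSubgroup A} {p : A}
    (h : Ch Q N p) : (N = AddSubgroup.zmultiples 1 ∧ p = 1) ∨ (2 ≤ D.d p ∧ Rep D Q N p) := by
  induction h with
  | base => exact Or.inl ⟨rfl, rfl⟩
  | @step N p τ0 n h0 hτ hn ih =>
    have h2 := h0.deg (D := D) hQ
    have h1 := step_deg h2.1 h2.2 (hQ _ hτ) hn
    have h3 := D.pos h2.1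
    have h4 := hQ _ hτ
    refine Or.inr ⟨by omega, ?_⟩
    rcases ih with ⟨rfl, rfl⟩ | ⟨-, ι, _, _, τ, C, s, l, a, b, R⟩
    · obtain ⟨z, rfl⟩ := hn
      refine ⟨Unit, inferInstance, inferInstance, fun _ => τ0, fun _ _ => z • (1 : A), fun _ => 1,
        fun _ => 1, (), (), ⟨fun _ => hτ, fun _ _ => d_zsmul_one z, by simp, by simp, rfl, rfl,
        fun v => ⟨fun _ => 0, rfl, by simp⟩,
        fun _ => AddSubgroup.mem_sup_left (AddSubgroup.mem_zmultiples _), ?_, fun _ => by omega⟩⟩
      intro y hy
      obtain ⟨_, ⟨z1, rfl⟩, _, ⟨z2, rfl⟩, rfl⟩ := AddSubgroup.mem_sup.1 hy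
      exact ⟨fun _ => z1 • (1 : A), z2 • (1 : A), fun _ => d_zsmul_one _, d_zsmul_one _, by simp [mul_add]⟩
    · obtain ⟨k, k0, hk, hk0, rfl⟩ := R.span n hn
      obtain ⟨m, hma, hm⟩ := R.sol k
      refine ⟨Option ι, inferInstance, inferInstance, fun o => o.elim τ0 τ,
        fun o o' => o.elim (o'.elim k0 k) (fun i => o'.elim (if i = a then -1 else 0) (C i)),
        fun o => o.elim p s, fun o => o.elim 1 (fun i => (τ0 + k0) * l i - m i), none, some b,
        ⟨?_, ?_, ?_, ?_, R.sb, rfl, ?_, ?_, ?_, ?_⟩⟩
      · rintro (_ | i)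
        exacts [hτ, R.hQ i]
      · rintro (_ | i) (_ | j)
        · exact hk0
        · exact hk j
        · show D.d (if i = a then -1 else 0) ≤ 1
          split_ifs <;> simp [D.d_neg, D.d_one, D.d_zero]
        · exact R.hC i j
      · rintro (_ | i)
        · simp only [Fintype.sum_option, Option.elim, if_true]
          abel
        · have := R.hs i
          simp only [Fintype.sum_option, Option.elim, reduceCtorEq, if_false]
          rw [add_left_comm, this]
          split_ifs <;> simp
      · rintro (_ | j)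
        · simp only [Fintype.sum_option, Option.elim, reduceCtorEq, if_false, mul_ite, mul_zero,
            Finset.sum_ite_eq', Finset.mem_univ, if_true, R.la, hma]
          noncomm_ring
        · have e1 := R.hl j
          have e2 := hm j
          simp only [Fintype.sum_option, Option.elim, Option.some.injEq, sub_mul,
            Finset.sum_sub_distrib, mul_assoc, ← Finset.mul_sum]
          have e3 : (τ0 + k0) * (l j * τ j) - m j * τ j + (1 * k j + ((τ0 + k0) * ∑ i, l i * C i j -
              ∑ i, m i * C i j)) = (τ0 + k0) * (l j * τ j + ∑ i, l i * C i j) + k j -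
              (m j * τ j + ∑ i, m i * C i j) := by noncomm_ring
          rw [e3, e1, e2]
          split_ifs
          · noncomm_ring
          · simp
      · intro v
        obtain ⟨m', hma', hm'⟩ := R.sol (fun i => v (some i))
        refine ⟨fun o => o.elim 0 (fun i => m' i - v none * l i), rfl, ?_⟩
        rintro (_ | j)
        · simp only [Fintype.sum_option, Option.elim, reduceCtorEq, if_false, mul_ite, mul_zero,
            Finset.sum_ite_eq', Finset.mem_univ, if_true, R.la, hma']
          noncomm_ring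
        · have e1 := R.hl j
          have e2 := hm' j
          simp only [Fintype.sum_option, Option.elim, Option.some.injEq, sub_mul,
            Finset.sum_sub_distrib, mul_assoc, ← Finset.mul_sum]
          have e3 : m' j * τ j - v none * (l j * τ j) + (0 * k j + (∑ i, m' i * C i j -
              v none * ∑ i, l i * C i j)) = (m' j * τ j + ∑ i, m' i * C i j) -
              v none * (l j * τ j + ∑ i, l i * C i j) := by noncomm_ring
          rw [e3, e1, e2]
          split_ifs
          · noncomm_ring
          · simp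
      · rintro (_ | i)
        · exact AddSubgroup.mem_sup_left h0.top_mem
        · exact AddSubgroup.mem_sup_left (R.sN i)
      · intro y hy
        obtain ⟨y1, hy1, _, ⟨z2, rfl⟩, rfl⟩ := AddSubgroup.mem_sup.1 hy
        obtain ⟨k', k0', hk', hk0', rfl⟩ := R.span y1 hy1
        refine ⟨fun o => o.elim k0' k', z2 • (1 : A), ?_, d_zsmul_one _, ?_⟩
        · rintro (_ | i)
          exacts [hk0', hk' i]
        · simp only [Fintype.sum_option, Option.elim, smul_mul_assoc, one_mul]
          abel
      · rintro (_ | i)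
        · simp only [Option.elim]
          omega
        · have := R.deg i
          simp only [Option.elim]
          omega

/-- A fine chain contains every chain with the same top. -/
theorem fine_max {N N' : AddSubgroup A} {p : A} (h : Ch (Indec D) N p)
    (h' : Ch (fun τ => 2 ≤ D.d τ) N' p) : N' ≤ N := by
  rcases h.rep (D := D) (fun _ h => h.1) with ⟨rfl, rfl⟩ | ⟨hp, ι, _, _, τ, C, s, l, a, b, R⟩
  · rcases h'.rep (D := D) (fun _ h => h) with ⟨rfl, -⟩ | ⟨hp, -⟩
    · exact le_rfl
    · rw [D.d_one] at hp; omega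
  rcases h'.rep (D := D) (fun _ h => h) with ⟨-, rfl⟩ | ⟨-, κ, _, _, τ', C', s', l', a', b', R'⟩
  · rw [D.d_one] at hp; omega
  obtain ⟨Y, hY⟩ := sylv_const (D := D) R.hQ R'.hQ R.hC R'.hC
    (X := of fun i j => if j = b then s' i else 0) (L := of fun i j => if i = a' then l j else 0) (by
      ext i j
      rw [Matrix.add_mul, Matrix.mul_add, Matrix.add_apply, Matrix.add_apply, diagonal_mul,
        mul_diagonal, Matrix.mul_apply, Matrix.mul_apply]
      simp only [of_apply]
      have e1 := R.hl j
      have e2 := R'.hs i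
      by_cases hj : j = b <;> by_cases hi : i = a' <;> simp only [hi, hj, if_true, if_false] at * <;>
        simp [e1, e2])
  have hs' : ∀ i, s' i ∈ N := by
    intro i
    have e1 : ∑ j, ((of fun i j => if j = b then s' i else 0 : Matrix κ ι A) -
        Y * (diagonal τ + C)) i j * s j = s' i - Y i a * p := by
      have e2 : ∀ j, (Y * (diagonal τ + C)) i j * s j = Y i j * (τ j * s j) + ∑ k, Y i k * (C k j * s j) := by
        intro j
        rw [Matrix.mul_add, Matrix.add_apply, mul_diagonal, Matrix.mul_apply, add_mul, Finset.sum_mul]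
        simp only [mul_assoc]
      simp only [Matrix.sub_apply, sub_mul, Finset.sum_sub_distrib, of_apply, ite_mul, zero_mul,
        Finset.sum_ite_eq', Finset.mem_univ, if_true, R.sb, mul_one, e2, Finset.sum_add_distrib]
      rw [Finset.sum_comm, ← Finset.sum_add_distrib]
      simp only [← Finset.mul_sum, ← mul_add, R.hs, mul_ite, mul_zero, Finset.sum_ite_eq',
        Finset.mem_univ, if_true]
    have e3 : s' i - Y i a * p ∈ N := e1 ▸ sum_mem fun j _ => cst_mul_mem (hY i j) (R.sN j)
    have e4 : D.d (s' i - Y i a * p) ≤ D.d p - 1 := e1 ▸ d_sum_le fun j => by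
      have := D.d_mul_le (((of fun i j => if j = b then s' i else 0 : Matrix κ ι A) -
        Y * (diagonal τ + C)) i j) (s j)
      have := hY i j
      have := R.deg j
      have := (R.hQ j).1
      omega
    have e5 : Y i a = 0 := by
      by_contra h0
      have a1 := D.d_mul _ p h0 (D.ne_zero (by omega))
      have a2 := D.pos h0
      have a3 := D.d_sub (s' i) (s' i - Y i a * p)
      rw [sub_sub_cancel] at a3
      have := R'.deg i
      have := R'.hQ i
      omega
    simpa [e5] using e3
  intro y hy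
  obtain ⟨k, k0, hk, hk0, rfl⟩ := R'.span y hy
  exact add_mem (sum_mem fun j _ => cst_mul_mem (hk j) (hs' j)) (cst_mul_mem hk0 h.top_mem)

end Pool.Agent.H64.Brc
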