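import Pool.Agent.H64.Brc6

/-! Brachymorphisms, part 7: a brachymorphism with prescribed values on indecomposable blocks. -/

namespace Pool.Agent.H64.Brc

variable {A : Type} [Ring A] {D : Deg A} {F : A → ZMod 2}

theorem Deg.add_self (D : Deg A) (a : A) : a + a = 0 := by
  have h1 := D.d_add 1 1
  rw [D.d_one, max_self] at h1
  rcases D.cst _ h1 with h | h
  · rw [← mul_one a, ← mul_add, h, mul_zero]
  · exact absurd (add_eq_left.1 h) (D.ne_zero D.d_one.ge)

theorem Deg.add_self' (D : Deg A) (q : A × ZMod 2) : q + q = 0 :=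
  Prod.ext (D.add_self _) (CharTwo.add_self_eq_zero _)

theorem mem_sup_two (D : Deg A) {G : AddSubgroup (A × ZMod 2)} {q x : A × ZMod 2}
    (h : x ∈ G ⊔ AddSubgroup.zmultiples q) : x ∈ G ∨ ∃ n ∈ G, x = n + q := by
  obtain ⟨n, hn, _, ⟨z, rfl⟩, rfl⟩ := AddSubgroup.mem_sup.1 h
  rcases Int.even_or_odd' z with ⟨k, rfl | rfl⟩
  · left
    simpa only [mul_comm 2 k, mul_smul, two_smul, D.add_self', smul_zero, add_zero] using hn
  · right
    refine ⟨n, hn, ?_⟩
    simp only [mul_comm 2 k, add_smul, mul_smul, two_smul, D.add_self', smul_zero, zero_add, one_smul]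

theorem sup_shift {B : Type} [AddCommGroup B] {G : AddSubgroup B} {q n : B} (hn : n ∈ G) :
    G ⊔ AddSubgroup.zmultiples (n + q) = G ⊔ AddSubgroup.zmultiples q := by
  apply le_antisymm <;> refine sup_le le_sup_left ?_ <;> rw [AddSubgroup.zmultiples_le]
  · exact add_mem (AddSubgroup.mem_sup_left hn)
      (AddSubgroup.mem_sup_right (AddSubgroup.mem_zmultiples _))
  · have := sub_mem (AddSubgroup.mem_sup_right (S := G) (AddSubgroup.mem_zmultiples (n + q)))
      (AddSubgroup.mem_sup_left (T := AddSubgroup.zmultiples (n + q)) hn)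
    rwa [add_sub_cancel_left] at this

/-- Fine chains with values. -/
inductive ChV (D : Deg A) (F : A → ZMod 2) : AddSubgroup (A × ZMod 2) → A × ZMod 2 → Prop
  | base : ChV D F (AddSubgroup.zmultiples 1) 1
  | step {G : AddSubgroup (A × ZMod 2)} {p : A × ZMod 2} (τ : A) (n : A × ZMod 2) :
      ChV D F G p → Indec D τ → n ∈ G →
      ChV D F (G ⊔ AddSubgroup.zmultiples ((τ, F τ) * p + n)) ((τ, F τ) * p + n)

namespace ChV
variable {G : AddSubgroup (A × ZMod 2)} {p : A × ZMod 2}

theorem proj (h : ChV D F G p) : Ch (Indec D) (G.map (AddMonoidHom.fst _ _)) p.1 := by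
  induction h with
  | base => rw [AddMonoidHom.map_zmultiples]; exact Ch.base
  | step τ n _ hτ hn ih =>
    rw [AddSubgroup.map_sup, AddMonoidHom.map_zmultiples]
    exact Ch.step τ n.1 ih hτ ⟨n, hn, rfl⟩

theorem ne (h : ChV D F G p) : p.1 ≠ 0 := (h.proj.deg (D := D) fun _ h => h.1).1

theorem deg (h : ChV D F G p) {w : A × ZMod 2} (hw : w ∈ G) : D.d w.1 ≤ D.d p.1 :=
  (h.proj.deg (D := D) fun _ h => h.1).2 _ ⟨w, hw, rfl⟩

theorem sdeg (h : ChV D F G p) {τ : A} (hτ : 2 ≤ D.d τ) {n : A × ZMod 2} (hn : n ∈ G) (v : ZMod 2) :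
    D.d ((τ, v) * p + n).1 + 1 = D.d τ + D.d p.1 :=
  step_deg h.ne (h.proj.deg (D := D) fun _ h => h.1).2 hτ ⟨n, hn, rfl⟩

theorem top_mem (h : ChV D F G p) : p ∈ G := by
  cases h with
  | base => exact AddSubgroup.mem_zmultiples _
  | step => exact AddSubgroup.mem_sup_right (AddSubgroup.mem_zmultiples _)

theorem one_mem (h : ChV D F G p) : (1 : A × ZMod 2) ∈ G := by
  induction h with
  | base => exact AddSubgroup.mem_zmultiples _
  | step _ _ _ _ _ ih => exact AddSubgroup.mem_sup_left ih

theorem base_mem (D : Deg A) {w : A × ZMod 2} (hw : w ∈ AddSubgroup.zmultiples (1 : A × ZMod 2)) :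
    w = 0 ∨ w = 1 := by
  rw [← bot_sup_eq (AddSubgroup.zmultiples _)] at hw
  rcases mem_sup_two D hw with h | ⟨n, hn, rfl⟩
  · exact Or.inl h
  · right
    rw [AddSubgroup.mem_bot.1 hn, zero_add]

theorem inj (h : ChV D F G p) {w : A × ZMod 2} (hw : w ∈ G) (h0 : w.1 = 0) : w = 0 := by
  induction h with
  | base =>
    rcases base_mem D hw with rfl | rfl
    · rfl
    · exact absurd h0 (D.ne_zero D.d_one.ge)
  | @step G p τ n hG hτ hn ih =>
    rcases mem_sup_two D hw with h | ⟨m, hm, rfl⟩
    · exact ih h
    · have a1 := hG.sdeg hτ.1 hn (F τ)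
      have a2 := hG.deg hm
      have a3 := hτ.1
      have a4 := D.d_add_of_lt (a := ((τ, F τ) * p + n).1) (b := m.1) (by omega)
      rw [add_comm, ← Prod.fst_add, h0, D.d_zero] at a4
      have := D.pos hG.ne
      omega

theorem retop (h : ChV D F G p) {w : A × ZMod 2} (hw : w ∈ G) (hd : D.d w.1 = D.d p.1) :
    ChV D F G w := by
  cases h with
  | base =>
    rcases base_mem D hw with rfl | rfl
    · rw [Prod.fst_zero, D.d_zero, Prod.fst_one, D.d_one] at hd; omega
    · exact base
  | @step G p τ n hG hτ hn =>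
    have a1 := hG.sdeg hτ.1 hn (F τ)
    have a3 := hτ.1
    rcases mem_sup_two D hw with h | ⟨m, hm, rfl⟩
    · have := hG.deg h
      omega
    · have := step τ (m + n) hG hτ (add_mem hm hn)
      rwa [add_left_comm, sup_shift hm] at this

theorem trunc (h : ChV D F G p) {u : A × ZMod 2} (hu : u ∈ G) (h0 : u.1 ≠ 0) :
    ∃ G', ChV D F G' u ∧ G' ≤ G := by
  induction h with
  | base =>
    rcases base_mem D hu with rfl | rfl
    · exact absurd rfl h0
    · exact ⟨_, base, le_rfl⟩
  | @step G p τ n hG hτ hn ih =>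
    rcases mem_sup_two D hu with h | ⟨m, hm, rfl⟩
    · obtain ⟨G', h1, h2⟩ := ih h
      exact ⟨G', h1, h2.trans le_sup_left⟩
    · have := step τ (m + n) hG hτ (add_mem hm hn)
      rw [add_left_comm, sup_shift hm] at this
      exact ⟨_, this, le_rfl⟩

theorem mul (h : ChV D F G p) {G' : AddSubgroup (A × ZMod 2)} {q : A × ZMod 2} (h' : ChV D F G' q) :
    ∃ G'', ChV D F G'' (q * p) ∧ G ≤ G'' ∧ ∀ w ∈ G', w * p ∈ G'' := by
  induction h' with
  | base =>
    refine ⟨G, by rwa [one_mul], le_rfl, fun w hw => ?_⟩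
    rcases base_mem D hw with rfl | rfl
    · simp
    · simpa using h.top_mem
  | @step G' q τ n _ hτ hn ih =>
    obtain ⟨G'', h1, h2, h3⟩ := ih
    have := step τ (n * p) h1 hτ (h3 n hn)
    rw [← mul_assoc, ← add_mul] at this
    refine ⟨_, this, h2.trans le_sup_left, fun w hw => ?_⟩
    rcases mem_sup_two D hw with h | ⟨m, hm, rfl⟩
    · exact AddSubgroup.mem_sup_left (h3 w h)
    · rw [add_mul m]
      exact add_mem (AddSubgroup.mem_sup_left (h3 m hm))
        (AddSubgroup.mem_sup_right (AddSubgroup.mem_zmultiples _))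

end ChV

theorem Ch.weaken {N : AddSubgroup A} {p : A} (h : Ch (Indec D) N p) :
    Ch (fun τ => 2 ≤ D.d τ) N p := by
  induction h with
  | base => exact Ch.base
  | step τ n _ hτ hn ih => exact Ch.step τ n ih hτ.1 hn

theorem ChV.unique (hF : ∀ τ, F (τ + 1) = F τ + 1) : ∀ (m : ℕ) {G G' : AddSubgroup (A × ZMod 2)}
    {p p' : A × ZMod 2}, D.d p.1 < m → ChV D F G p → ChV D F G' p' → p.1 = p'.1 → p = p' ∧ G = G' := by
  intro m
  induction m with
  | zero => intros; omega
  | succ m ih =>
    intro G G' p p' hm h h' he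
    have le1 := fine_max h.proj (he ▸ h'.proj.weaken)
    have le2 := fine_max h'.proj (he ▸ h.proj.weaken)
    cases h with
    | base =>
      cases h' with
      | base => exact ⟨rfl, rfl⟩
      | @step G' s' τ' n' hG' hτ' hn' =>
        have a1 := hG'.sdeg hτ'.1 hn' (F τ')
        have := D.pos hG'.ne
        have := hτ'.1
        rw [← he, Prod.fst_one, D.d_one] at a1
        omega
    | @step G s τ n hG hτ hn =>
      have a1 := hG.sdeg hτ.1 hn (F τ)
      have a2 := hτ.1
      cases h' with
      | base =>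
        have := D.pos hG.ne
        rw [he, Prod.fst_one, D.d_one] at a1
        omega
      | @step G' s' τ' n' hG' hτ' hn' =>
        have a1' := hG'.sdeg hτ'.1 hn' (F τ')
        have a2' := hτ'.1
        rw [← he] at a1'
        -- the two lower tops have the same degree and the lower chains agree
        obtain ⟨w, hw, hw1⟩ : ∃ w ∈ G, w.1 = s'.1 := by
          obtain ⟨w, hw, hw1⟩ := le1 ⟨s', AddSubgroup.mem_sup_left hG'.top_mem, rfl⟩
          have hw1' : w.1 = s'.1 := hw1
          rcases mem_sup_two D hw with h | ⟨k, hk, rfl⟩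
          · exact ⟨w, h, hw1'⟩
          · have := hG.deg hk
            rw [Prod.fst_add, add_comm] at hw1'
            rw [← hw1', D.d_add_of_lt (by omega)] at a1'
            omega
        obtain ⟨w', hw', hw1'⟩ : ∃ w ∈ G', w.1 = s.1 := by
          obtain ⟨w, hw, hw1⟩ := le2 ⟨s, AddSubgroup.mem_sup_left hG.top_mem, rfl⟩
          have hw1' : w.1 = s.1 := hw1
          rcases mem_sup_two D hw with h | ⟨k, hk, rfl⟩
          · exact ⟨w, h, hw1'⟩
          · have := hG'.deg hk
            rw [Prod.fst_add, add_comm, ← he] at hw1'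
            rw [← hw1', D.d_add_of_lt (by omega)] at a1
            omega
        have b1 := hG.deg hw
        have b2 := hG'.deg hw'
        rw [hw1] at b1
        rw [hw1'] at b2
        obtain ⟨rfl, rfl⟩ := ih (by rw [hw1]; omega) (hG.retop hw (by rw [hw1]; omega)) hG' hw1
        have hs := hG.top_mem
        have main : (τ, F τ) * s + n = (τ', F τ') * w + n' := by
          have e1 : τ * s.1 + n.1 = τ' * w.1 + n'.1 := he
          have e2 : (τ - τ') * s.1 + (n - n').1 = τ' * (w - s).1 := by
            rw [Prod.fst_sub, Prod.fst_sub, ← sub_eq_zero]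
            have : (τ - τ') * s.1 + (n.1 - n'.1) - τ' * (w.1 - s.1) =
              (τ * s.1 + n.1) - (τ' * w.1 + n'.1) := by noncomm_ring
            rw [this, e1, sub_self]
          have hβ : D.d (w - s).1 < D.d s.1 := by
            by_cases h0 : (w - s).1 = 0
            · rw [h0, D.d_zero]; exact D.pos hG.ne
            have c1 := D.d_mul τ' _ (D.ne_zero (by omega)) h0
            have c2 := D.d_add ((τ - τ') * s.1) (n - n').1
            have c3 := hG.deg (sub_mem hn hn')
            have c4 := D.d_mul_le (τ - τ') s.1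
            have c5 := D.d_sub τ τ'
            have c6 := hG.deg (sub_mem hw hs)
            by_contra c7
            -- if `w - s` had top degree, then so would `s` and `w` with sum of lower degree fail
            have c8 := hG.retop (sub_mem hw hs) (by omega)
            clear c1 c2 c3 c4 c5
            cases hG with
            | base =>
              rcases ChV.base_mem D hw with rfl | rfl
              · exact hG'.ne rfl
              · exact h0 (by simp)
            | @step G0 s0 σ n0 hG0 hσ hn0 =>
              have d1 := hG0.sdeg hσ.1 hn0 (F σ)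
              have d2 := hσ.1
              rcases mem_sup_two D hw with h | ⟨k, hk, rfl⟩
              · have := hG0.deg h
                omega
              · have := hG0.deg hk
                rw [add_sub_cancel_right] at c7
                omega
          have hg : D.d (τ - τ') ≤ 1 := by
            by_contra hg
            have c0 := step_deg hG.ne (hG.proj.deg (D := D) fun _ h => h.1).2 (τ := τ - τ') (by omega)
              (n := (n - n').1) ⟨n - n', sub_mem hn hn', rfl⟩
            have h0 : (w - s).1 ≠ 0 := by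
              intro h0
              rw [e2, h0, mul_zero, D.d_zero] at c0
              have := D.pos hG.ne
              omega
            obtain ⟨Gβ, hβ1, hβ2⟩ := hG.trunc (sub_mem hw hs) h0
            have c1 := (ChV.step τ' 0 hβ1 hτ' (zero_mem _))
            have c2 := Ch.step (τ - τ') (n - n').1 hG.proj.weaken (by omega : 2 ≤ D.d (τ - τ'))
              ⟨n - n', sub_mem hn hn', rfl⟩
            have c3 : ((τ', F τ') * (w - s) + 0).1 = (τ - τ') * s.1 + (n - n').1 := by
              rw [e2, add_zero]; rfl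
            obtain ⟨v, hv, hv1⟩ := fine_max c1.proj (c3 ▸ c2)
              (AddSubgroup.mem_sup_left (AddSubgroup.mem_map_of_mem (AddMonoidHom.fst _ _) hs))
            have hv1' : v.1 = s.1 := hv1
            rcases mem_sup_two D hv with h | ⟨k, hk, rfl⟩
            · have := hβ1.deg h
              rw [hv1'] at this
              omega
            · have := hβ1.deg hk
              rw [Prod.fst_add, c3, add_comm] at hv1'
              have c4 := congrArg D.d hv1'
              rw [D.d_add_of_lt (by omega)] at c4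
              omega
          have hgF : (τ - τ', F τ - F τ') * s ∈ G := by
            rcases D.cst _ hg with h0 | h0
            · rw [sub_eq_zero.1 h0, sub_self, sub_self]
              show (0 : A × ZMod 2) * s ∈ G
              rw [zero_mul]
              exact G.zero_mem
            · have : τ = τ' + 1 := by rw [← h0]; abel
              rw [this, hF, add_sub_cancel_left, add_sub_cancel_left]
              show (1 : A × ZMod 2) * s ∈ G
              rwa [one_mul]
          have hu := add_mem hgF (sub_mem hn hn')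
          have e3 : ((τ - τ', F τ - F τ') * s + (n - n')).1 = ((τ', F τ') * (w - s) + 0).1 := by
            rw [add_zero]; exact e2
          have e4 : (τ - τ', F τ - F τ') * s + (n - n') = (τ', F τ') * (w - s) + 0 := by
            by_cases h0 : (w - s).1 = 0
            · rw [hG.inj (sub_mem hw hs) h0] at e3 ⊢
              rw [hG.inj hu (by rw [e3]; simp)]
              simp
            obtain ⟨Gβ, hβ1, -⟩ := hG.trunc (sub_mem hw hs) h0
            have c1 := (ChV.step τ' 0 hβ1 hτ' (zero_mem _))
            obtain ⟨Gu, hu1, -⟩ := hG.trunc hu (e3 ▸ c1.ne)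
            have := hG.deg hu
            exact (ih (by omega) hu1 c1 e3).1
          have e5 : (τ - τ', F τ - F τ') = (τ, F τ) - (τ', F τ') := rfl
          rw [e5] at e4
          rw [← sub_eq_zero] at e4 ⊢
          rw [← e4]
          noncomm_ring
        exact ⟨main, by rw [main]⟩

theorem ChV.exists (D : Deg A) (F : A → ZMod 2) : ∀ (m : ℕ) (r : A), D.d r < m → r ≠ 0 →
    ∃ G v, ChV D F G (r, v) := by
  intro m
  induction m with
  | zero => intros; omega
  | succ m ih =>
    intro r hm hr
    by_cases h1 : D.d r ≤ 1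
    · rcases D.cst r h1 with rfl | rfl
      · exact absurd rfl hr
      · exact ⟨_, 1, ChV.base⟩
    by_cases hi : Indec D r
    · have := ChV.step (F := F) r 0 ChV.base hi (zero_mem _)
      rw [mul_one, add_zero] at this
      exact ⟨_, _, this⟩
    obtain ⟨N, hN⟩ : ∃ N, Ch (fun σ => 2 ≤ D.d σ ∧ D.d σ < D.d r) N r := by
      by_contra h2
      exact hi ⟨by omega, h2⟩
    have key : ∀ N p, Ch (fun σ => 2 ≤ D.d σ ∧ D.d σ < D.d r) N p →
        ∃ G v, ChV D F G (p, v) ∧ N ≤ G.map (AddMonoidHom.fst _ _) := by
      intro N p h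
      induction h with
      | base =>
        refine ⟨_, 1, ChV.base, ?_⟩
        rw [AddMonoidHom.map_zmultiples]
        exact le_rfl
      | @step N p τ n _ hτ hn ih2 =>
        obtain ⟨G, v, hG, hle⟩ := ih2
        obtain ⟨Gτ, vτ, hGτ⟩ := ih τ (by omega) (D.ne_zero (by omega))
        obtain ⟨G'', h1, h2, -⟩ := hG.mul hGτ
        obtain ⟨n', hn', rfl⟩ := hle hn
        have a1 := hG.sdeg hτ.1 hn' vτ
        have a2 := hG.sdeg hτ.1 G.zero_mem vτ
        rw [add_zero] at a2
        have h3 := h1.retop (add_mem h1.top_mem (h2 hn')) (by omega)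
        refine ⟨G'', _, h3, sup_le (hle.trans (AddSubgroup.map_mono h2)) ?_⟩
        rw [AddSubgroup.zmultiples_le]
        exact ⟨_, h3.top_mem, rfl⟩
    obtain ⟨G, v, h, -⟩ := key N r hN
    exact ⟨G, v, h⟩

/-- A brachymorphism with prescribed values on the indecomposable elements. -/
theorem exists_brachy (D : Deg A) (F : A → ZMod 2) (hF : ∀ τ, F (τ + 1) = F τ + 1) :
    ∃ f : A → ZMod 2, (∀ x, f (1 + x) = 1 + f x) ∧ (∀ x y, f (x * y) = f x * f y) ∧
      ∀ τ, D.d τ = 2 → f τ = F τ := by
  classical
  have ex : ∀ r : A, ∃ v, (r = 0 → v = 0) ∧ (r ≠ 0 → ∃ G, ChV D F G (r, v)) := by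
    intro r
    by_cases hr : r = 0
    · exact ⟨0, fun _ => rfl, fun h => absurd hr h⟩
    · obtain ⟨G, v, h⟩ := ChV.exists D F _ r (Nat.lt_succ_self _) hr
      exact ⟨v, fun h => absurd h hr, fun _ => ⟨G, h⟩⟩
  choose f f0 f1 using ex
  have val : ∀ {G p}, ChV D F G p → f p.1 = p.2 := by
    intro G p h
    obtain ⟨G', h'⟩ := f1 p.1 h.ne
    exact congrArg Prod.snd (ChV.unique hF _ (Nat.lt_succ_self _) h' h rfl).1
  have fone : f 1 = 1 := val ChV.base
  refine ⟨f, fun x => ?_, fun x y => ?_, fun τ hτ => ?_⟩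
  · by_cases h1 : D.d x ≤ 1
    · rcases D.cst x h1 with rfl | rfl
      · rw [add_zero, fone, f0 0 rfl, add_zero]
      · rw [D.add_self, f0 0 rfl, fone]; rfl
    · obtain ⟨G, h⟩ := f1 x (D.ne_zero (by omega))
      refine val (h.retop (add_mem h.one_mem h.top_mem) ?_)
      show D.d (1 + x) = D.d x
      rw [add_comm, D.d_add_of_lt (by rw [D.d_one]; omega)]
  · by_cases hx : x = 0
    · rw [hx, zero_mul, f0 0 rfl, zero_mul]
    by_cases hy : y = 0
    · rw [hy, mul_zero, f0 0 rfl, mul_zero]
    obtain ⟨G, h⟩ := f1 x hx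
    obtain ⟨G', h'⟩ := f1 y hy
    obtain ⟨G'', h'', -⟩ := h'.mul h
    exact val h''
  · have hi : Indec D τ := by
      refine ⟨hτ.ge, ?_⟩
      rintro ⟨N, hN⟩
      cases hN with
      | base => rw [D.d_one] at hτ; omega
      | step σ n _ hσ _ => omega
    have := ChV.step (F := F) τ 0 ChV.base hi (zero_mem _)
    rw [mul_one, add_zero] at this
    exact val this

end Pool.Agent.H64.Brc
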