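import Pool.Agent.H64.Brc7

/-! Brachymorphisms, part 8: the weak algorithm in the free algebra on two letters over `ZMod 2`. -/

namespace Pool.Agent.H64.Brc

abbrev R : Type := FreeAlgebra (ZMod 2) Bool

noncomputable def Phi (x : Bool) : R →ₐ[ZMod 2] Matrix (Fin 2) (Fin 2) R :=
  FreeAlgebra.lift (ZMod 2) fun y => !![0, if y = x then 1 else 0; 0, FreeAlgebra.ι (ZMod 2) y]

/-- The constant term. -/
noncomputable def eps : R →ₐ[ZMod 2] ZMod 2 := FreeAlgebra.algebraMapInv

theorem eps_iota (y : Bool) : eps (FreeAlgebra.ι (ZMod 2) y) = 0 := by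
  simp [eps, FreeAlgebra.algebraMapInv]

theorem Phi_entries (x : Bool) (a : R) :
    Phi x a 0 0 = algebraMap _ _ (eps a) ∧ Phi x a 1 0 = 0 ∧ Phi x a 1 1 = a := by
  induction a using FreeAlgebra.induction with
  | grade0 r => simp [Matrix.algebraMap_matrix_apply]
  | grade1 y => simp [Phi, eps_iota]
  | mul a b ha hb => simp [Matrix.mul_apply, Fin.sum_univ_two, ha, hb]
  | add a b ha hb => simp [ha, hb]

/-- The left quotient by a letter. -/
noncomputable def q (x : Bool) : R →+ R where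
  toFun a := Phi x a 0 1
  map_zero' := by simp
  map_add' a b := by simp

theorem q_mul (x : Bool) (a b : R) : q x (a * b) = eps a • q x b + q x a * b := by
  show Phi x (a * b) 0 1 = eps a • Phi x b 0 1 + Phi x a 0 1 * b
  simp [Matrix.mul_apply, Fin.sum_univ_two, Phi_entries, Algebra.smul_def]

theorem q_alg (x : Bool) (r : ZMod 2) : q x (algebraMap _ _ r) = 0 := by
  show Phi x _ 0 1 = 0
  simp [Matrix.algebraMap_matrix_apply]

theorem q_iota (x y : Bool) : q x (FreeAlgebra.ι (ZMod 2) y) = if y = x then 1 else 0 := by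
  show Phi x _ 0 1 = _
  simp [Phi]

theorem q_smul (x : Bool) (r : ZMod 2) (a : R) : q x (r • a) = r • q x a := by
  show Phi x _ 0 1 = r • Phi x _ 0 1
  simp

theorem decomp (a : R) : a = algebraMap _ _ (eps a) + ∑ x, FreeAlgebra.ι (ZMod 2) x * q x a := by
  induction a using FreeAlgebra.induction with
  | grade0 r => simp [q_alg]
  | grade1 y => cases y <;> simp [q_iota, eps_iota]
  | mul a b ha hb =>
    have : a * b = eps a • b + (∑ x, FreeAlgebra.ι (ZMod 2) x * q x a) * b := by
      conv_lhs => rw [ha]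
      rw [add_mul, Algebra.smul_def]
    rw [this]
    conv_lhs => rw [hb]
    rw [← this, ← hb]
    conv_lhs => enter [1]; rw [hb]
    simp only [q_mul, mul_add, Finset.sum_add_distrib, map_mul, smul_add, Finset.smul_sum,
      Finset.sum_mul, mul_assoc, mul_smul_comm, add_assoc]
    rw [Algebra.smul_def]
  | add a b ha hb =>
    conv_lhs => rw [ha, hb]
    simp only [map_add, mul_add, Finset.sum_add_distrib]
    abel

/-- The filtration by length. -/
noncomputable def FL : ℕ → AddSubgroup R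
  | 0 => ⊥
  | n + 1 => ⨅ x, (FL n).comap (q x)

theorem mem_FL_succ {n : ℕ} {a : R} : a ∈ FL (n + 1) ↔ ∀ x, q x a ∈ FL n := by
  simp [FL]

theorem FL_succ (n : ℕ) : FL n ≤ FL (n + 1) := by
  induction n with
  | zero => exact bot_le
  | succ n ih => exact fun a ha => mem_FL_succ.2 fun x => ih (mem_FL_succ.1 ha x)

theorem FL_mono : Monotone FL := monotone_nat_of_le_succ FL_succ

theorem smul_mem' {W : AddSubgroup R} (r : ZMod 2) {a : R} (h : a ∈ W) : r • a ∈ W := by
  rcases (by decide : ∀ r : ZMod 2, r = 0 ∨ r = 1) r with rfl | rfl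
  · simp
  · simpa using h

theorem FL_mul (m n : ℕ) : ∀ {a b : R}, a ∈ FL m → b ∈ FL (n + 1) → a * b ∈ FL (m + n) := by
  induction m with
  | zero => intro a b ha _; rw [AddSubgroup.mem_bot.1 ha, zero_mul]; exact zero_mem _
  | succ m ih =>
    intro a b ha hb
    rw [add_right_comm, mem_FL_succ]
    intro x
    rw [q_mul]
    exact add_mem (smul_mem' _ (FL_mono (by omega) (mem_FL_succ.1 hb x)))
      (ih (mem_FL_succ.1 ha x) hb)

theorem alg_mem (r : ZMod 2) : algebraMap _ R r ∈ FL 1 :=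
  mem_FL_succ.2 fun x => by rw [q_alg]; exact zero_mem _

theorem FL_ex (a : R) : ∃ n, a ∈ FL n := by
  induction a using FreeAlgebra.induction with
  | grade0 r => exact ⟨1, alg_mem r⟩
  | grade1 y =>
    refine ⟨2, mem_FL_succ.2 fun x => ?_⟩
    rw [q_iota]
    split_ifs
    · simpa using alg_mem 1
    · exact zero_mem _
  | mul a b ha hb =>
    obtain ⟨m, hm⟩ := ha
    obtain ⟨n, hn⟩ := hb
    exact ⟨_, FL_mul m n hm (FL_succ n hn)⟩
  | add a b ha hb =>
    obtain ⟨m, hm⟩ := ha
    obtain ⟨n, hn⟩ := hb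
    exact ⟨m + n, add_mem (FL_mono (by omega) hm) (FL_mono (by omega) hn)⟩

open Classical in
/-- Size: degree plus one. -/
noncomputable def dg (a : R) : ℕ := Nat.find (FL_ex a)

theorem dg_le {a : R} {n : ℕ} : dg a ≤ n ↔ a ∈ FL n := by
  classical
  exact ⟨fun h => FL_mono h (Nat.find_spec (FL_ex a)), fun h => Nat.find_min' _ h⟩

theorem dg_zero {a : R} : dg a = 0 ↔ a = 0 := by
  rw [← Nat.le_zero, dg_le]; rfl

theorem dg_add (a b : R) : dg (a + b) ≤ max (dg a) (dg b) :=
  dg_le.2 (add_mem (dg_le.1 (le_max_left _ _)) (dg_le.1 (le_max_right _ _)))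

theorem dg_neg (a : R) : dg (-a) = dg a :=
  le_antisymm (dg_le.2 (neg_mem (dg_le.1 le_rfl))) (dg_le.2 (neg_mem_iff.1 (dg_le.1 le_rfl)))

theorem dg_sub (a b : R) : dg (a - b) ≤ max (dg a) (dg b) := by
  have := dg_add a (-b)
  rwa [dg_neg, ← sub_eq_add_neg] at this

theorem dg_smul (r : ZMod 2) (a : R) : dg (r • a) ≤ dg a := dg_le.2 (smul_mem' r (dg_le.1 le_rfl))

theorem dg_cst (a : R) (h : dg a ≤ 1) : a = 0 ∨ a = 1 := by
  have h1 : ∀ x, q x a = 0 := mem_FL_succ.1 (dg_le.1 h)
  have h2 := decomp a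
  simp only [h1, mul_zero, Finset.sum_const_zero, add_zero] at h2
  generalize eps a = r at h2
  rcases (by decide : ∀ r : ZMod 2, r = 0 ∨ r = 1) r with rfl | rfl
  · left; simpa using h2
  · right; simpa using h2

theorem dg_one : dg 1 = 1 := by
  have h1 : dg 1 ≤ 1 := dg_le.2 (by simpa using alg_mem 1)
  have h2 : dg 1 ≠ 0 := dg_zero.not.2 one_ne_zero
  omega

theorem dg_q (x : Bool) (a : R) : dg (q x a) ≤ dg a - 1 := by
  rcases h : dg a with _ | n
  · rw [dg_zero.1 h, map_zero, dg_zero.2 rfl]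
  · exact dg_le.2 (mem_FL_succ.1 (dg_le.1 h.le) x)

theorem dg_q_ex {a : R} (h : 2 ≤ dg a) : ∃ x, dg (q x a) + 1 = dg a := by
  by_contra hne
  push Not at hne
  have : dg a ≤ (dg a - 2) + 1 := dg_le.2 (mem_FL_succ.2 fun x => dg_le.1 (by
    have := hne x
    have := dg_q x a
    omega))
  omega

theorem dg_mul_le (a b : R) : dg (a * b) ≤ dg a + dg b - 1 := by
  rcases h : dg b with _ | n
  · rw [dg_zero.1 h, mul_zero, dg_zero.2 rfl]; omega
  · exact dg_le.2 (FL_mul _ n (dg_le.1 le_rfl) (dg_le.1 h.le))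

theorem dg_mul (b : R) (hb : b ≠ 0) : ∀ (n : ℕ) (a : R), dg a ≤ n → a ≠ 0 →
    dg (a * b) + 1 = dg a + dg b := by
  have hb' := dg_zero.not.2 hb
  intro n
  induction n with
  | zero => intro a h ha; exact absurd (dg_zero.1 (by omega)) ha
  | succ n ih =>
    intro a h ha
    by_cases h1 : dg a ≤ 1
    · rcases dg_cst a h1 with rfl | rfl
      · exact absurd rfl ha
      · rw [one_mul, dg_one, add_comm]
    obtain ⟨x, hx⟩ := dg_q_ex (a := a) (by omega)
    have h2 := ih (q x a) (by omega) (dg_zero.not.1 (by omega))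
    have h3 := dg_mul_le a b
    have h4 := dg_q x (a * b)
    have h5 := dg_sub (q x (a * b)) (eps a • q x b)
    rw [q_mul, add_sub_cancel_left, ← q_mul] at h5
    have h6 := dg_smul (eps a) (q x b)
    have h7 := dg_q x b
    omega

theorem exists_Q : ∀ (n : ℕ) (l : R), dg l ≤ n → l ≠ 0 → ∃ Q : R →+ R, Q l = 1 ∧
    (∀ e, dg (Q e) ≤ dg e - (dg l - 1)) ∧ ∀ a b, b ≠ 0 → dg (Q (a * b) - Q a * b) < dg b := by
  intro n
  induction n with
  | zero => intro a h ha; exact absurd (dg_zero.1 (by omega)) ha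
  | succ n ih =>
    intro l h hl
    by_cases h1 : dg l ≤ 1
    · rcases dg_cst l h1 with rfl | rfl
      · exact absurd rfl hl
      · refine ⟨AddMonoidHom.id _, rfl, fun e => by simp [dg_one], fun a b hb => ?_⟩
        have := dg_zero.not.2 hb
        simp only [AddMonoidHom.id_apply, sub_self, dg_zero.2 rfl]
        omega
    obtain ⟨x, hx⟩ := dg_q_ex (a := l) (by omega)
    obtain ⟨Q, q1, q2, q3⟩ := ih (q x l) (by omega) (dg_zero.not.1 (by omega))
    refine ⟨Q.comp (q x), q1, fun e => ?_, fun a b hb => ?_⟩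
    · have := q2 (q x e)
      have := dg_q x e
      simp only [AddMonoidHom.comp_apply]
      omega
    · simp only [AddMonoidHom.comp_apply, q_mul, map_add]
      have h2 := dg_add (Q (eps a • q x b)) (Q (q x a * b) - Q (q x a) * b)
      have h3 := q3 (q x a) b hb
      have h4 := q2 (eps a • q x b)
      have h6 := dg_smul (eps a) (q x b)
      have h7 := dg_q x b
      have := dg_zero.not.2 hb
      rw [add_sub_assoc]
      omega

theorem weak (n : ℕ) (l x : R) (hl : l ≠ 0) (hx : x ≠ 0) : ∀ (k : ℕ) (a m : R), dg a ≤ k →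
    dg (l * a - m * x) + 1 < dg l + dg x + n →
    ∃ e, dg (a - e * x) < dg x + n ∧ dg (m - l * e) < dg l + n := by
  have hl' := dg_zero.not.2 hl
  have hx' := dg_zero.not.2 hx
  obtain ⟨Q, q1, q2, q3⟩ := exists_Q _ l le_rfl hl
  have base : ∀ a m : R, dg a < dg x + n → dg (l * a - m * x) + 1 < dg l + dg x + n →
      ∃ e, dg (a - e * x) < dg x + n ∧ dg (m - l * e) < dg l + n := by
    intro a m ha h
    refine ⟨0, by simpa using ha, ?_⟩
    rw [mul_zero, sub_zero]
    by_cases hm : m = 0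
    · rw [hm, dg_zero.2 rfl]; omega
    have h1 := dg_mul x hx _ m le_rfl hm
    have h2 := dg_sub (l * a) (l * a - m * x)
    rw [sub_sub_cancel] at h2
    have h3 := dg_mul_le l a
    omega
  intro k
  induction k with
  | zero => intro a m ha h; exact base a m (by omega) h
  | succ k ih =>
    intro a m ha h
    by_cases h0 : dg a < dg x + n
    · exact base a m h0 h
    have h1 := q3 l a (dg_zero.not.1 (by omega))
    have h2 := q3 m x hx
    have h3 := q2 (l * a - m * x)
    rw [q1, one_mul] at h1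
    have h4 : a - Q m * x = Q (l * a - m * x) + ((Q (m * x) - Q m * x) - (Q (l * a) - a)) := by
      rw [map_sub]; abel
    have h5 := dg_add (Q (l * a - m * x)) ((Q (m * x) - Q m * x) - (Q (l * a) - a))
    have h6 := dg_sub (Q (m * x) - Q m * x) (Q (l * a) - a)
    rw [← h4] at h5
    obtain ⟨e, e1, e2⟩ := ih (a - Q m * x) (m - l * Q m) (by omega) (by
      have : l * (a - Q m * x) - (m - l * Q m) * x = l * a - m * x := by noncomm_ring
      rwa [this])
    refine ⟨Q m + e, ?_, ?_⟩
    · rwa [add_mul, ← sub_sub]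
    · rwa [mul_add, ← sub_sub]

/-- The degree structure on the free algebra. -/
noncomputable def degR : Deg R where
  d := dg
  d_eq_zero := fun _ => dg_zero
  d_one := dg_one
  cst := dg_cst
  d_add := dg_add
  d_neg := dg_neg
  d_mul := fun a b ha hb => dg_mul b hb _ a le_rfl ha
  W := fun n l a m x hl hx h => weak n l x hl hx _ a m le_rfl h

theorem dg_two {a : R} (h : ∀ x, dg (q x a) ≤ 1) (h' : q true a = 1 ∨ q false a = 1) : dg a = 2 := by
  have h1 : dg a ≤ 2 := dg_le.2 (mem_FL_succ.2 fun x => dg_le.1 (h x))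
  have h2 := dg_q true a
  have h3 := dg_q false a
  rcases h' with h4 | h4
  · rw [h4, dg_one] at h2; omega
  · rw [h4, dg_one] at h3; omega

theorem main : ∃ f : R → ZMod 2, (∀ x, f (1 + x) = 1 + f x) ∧ (∀ x y, f (x * y) = f x * f y) ∧
    f (FreeAlgebra.ι (ZMod 2) true + FreeAlgebra.ι (ZMod 2) false) ≠
      f (FreeAlgebra.ι (ZMod 2) true) + f (FreeAlgebra.ι (ZMod 2) false) := by
  obtain ⟨f, h1, h2, h3⟩ := exists_brachy degR
    (fun a => eps a + eps (q true a) * eps (q false a)) (by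
      intro τ
      have : ∀ x, q x 1 = 0 := fun x => by simpa using q_alg x 1
      simp only [map_add, map_one, this, add_zero]
      abel)
  refine ⟨f, h1, h2, ?_⟩
  have d0 : dg 0 = 0 := dg_zero.2 rfl
  rw [h3 _ (dg_two (by rintro (_ | _) <;> simp [q_iota, dg_one]) (by simp [q_iota])),
    h3 _ (dg_two (by rintro (_ | _) <;> simp [q_iota, dg_one, d0]) (by simp [q_iota])),
    h3 _ (dg_two (by rintro (_ | _) <;> simp [q_iota, dg_one, d0]) (by simp [q_iota]))]
  simp [q_iota, eps_iota]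

end Pool.Agent.H64.Brc
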