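import Pool.Agent.H64.Brk2

/-! Brachymorphisms, part 3: every column of a linked system lies in a chain. -/

namespace Pool.Agent.H64.Brk

universe u v

variable {k : Type u} [Field k] {A : Type v} [Ring A] [Algebra k A]
variable {D : Deg k A} {κ ι : Type} {t' : κ → A} {Z : κ → Submodule k A} {t : ι → A}
  {Y : ι → Submodule k A}

theorem Sys.pairC (h : Sys D t' Z t Y (fun _ => 0) (fun _ => 0)) (o : ℕ)
    (hC : ∀ c, ∀ y ∈ Y c, D.d y ≤ 1 ∨ D.d y + o ≤ D.d (t c))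
    (hR : ∀ r, ∀ z ∈ Z r, D.d z ≤ 1 ∨ D.d z + o ≤ D.d (t' r))
    {c : ι} {y : A} (hy : y ∈ Y c) (hy2 : 2 ≤ D.d y) (hyo : D.d y + o = D.d (t c)) :
    ∃ r ξ l, Rel (t' r) (Z r) (t c) (Y c) ξ l ∧ l ≠ 0 ∧ (∀ y ∈ Y c, D.d y ≤ D.d ξ) ∧
      (∀ z ∈ Z r, D.d z ≤ D.d l) ∧ 2 ≤ D.d ξ := by
  have : ∃ r x m, Rel (t' r) (Z r) (t c) (Y c) x m ∧ D.d y ≤ D.d x := by
    by_contra hne
    push Not at hne
    have := h.spanC c (D.Fl (D.d y - 1)) (by rw [D.mem_Fl, D.d_one]; omega) (zero_mem _)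
      (fun r x m hr => by have := hne r x m hr; rw [D.mem_Fl]; omega) hy
    rw [D.mem_Fl] at this
    omega
  obtain ⟨r, x, m, hr, hx⟩ := this
  have hx' := hC c x hr.1
  have hYx : ∀ y ∈ Y c, D.d y ≤ D.d x := fun y' hy' => by have := hC c y' hy'; omega
  have h1 := P_deg D (a := D.d (t' r) - 1) (fun z hz => by have := h.hZd r z hz; omega) hYx hr.2.2
  have ht' := h.ht' r
  have ht := h.ht c
  have h2 := D.d_mul (t' r) x (D.ne_zero (by omega)) (D.ne_zero (by omega))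
  have h3 := D.d_add (t' r * x - m * t c) (m * t c)
  rw [sub_add_cancel] at h3
  have h4 := D.d_sub (t' r * x) (t' r * x - m * t c)
  rw [sub_sub_cancel] at h4
  have hm : m ≠ 0 := by
    rintro rfl
    rw [zero_mul, D.d_zero] at h3
    rw [zero_mul] at h1
    omega
  have h5 := D.d_mul m (t c) hm (D.ne_zero (by omega))
  have h6 := D.pos hm
  refine ⟨r, x, m, hr, hm, hYx, fun z hz => ?_, by omega⟩
  have := hR r z hz
  omega

theorem Sys.pair (h : Sys D t' Z t Y (fun _ => 0) (fun _ => 0))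
    (hnc : (∃ c, ∃ y ∈ Y c, 2 ≤ D.d y) ∨ ∃ r, ∃ z ∈ Z r, 2 ≤ D.d z) :
    ∃ r c ξ l, Rel (t' r) (Z r) (t c) (Y c) ξ l ∧ ξ ≠ 0 ∧ l ≠ 0 ∧ (∀ y ∈ Y c, D.d y ≤ D.d ξ) ∧
      (∀ z ∈ Z r, D.d z ≤ D.d l) ∧ (2 ≤ D.d ξ ∨ 2 ≤ D.d l) := by
  classical
  have hex : ∃ o, (∃ c, ∃ y ∈ Y c, 2 ≤ D.d y ∧ D.d y + o = D.d (t c)) ∨
      ∃ r, ∃ z ∈ Z r, 2 ≤ D.d z ∧ D.d z + o = D.d (t' r) := by
    rcases hnc with ⟨c, y, hy, h2⟩ | ⟨r, z, hz, h2⟩
    · exact ⟨D.d (t c) - D.d y, Or.inl ⟨c, y, hy, h2, by have := h.hYd c y hy; omega⟩⟩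
    · exact ⟨D.d (t' r) - D.d z, Or.inr ⟨r, z, hz, h2, by have := h.hZd r z hz; omega⟩⟩
  have hC : ∀ c, ∀ y ∈ Y c, D.d y ≤ 1 ∨ D.d y + Nat.find hex ≤ D.d (t c) := by
    intro c y hy
    by_cases h2 : D.d y ≤ 1
    · exact Or.inl h2
    have h3 := h.hYd c y hy
    have := Nat.find_min' hex (m := D.d (t c) - D.d y) (Or.inl ⟨c, y, hy, by omega, by omega⟩)
    omega
  have hR : ∀ r, ∀ z ∈ Z r, D.d z ≤ 1 ∨ D.d z + Nat.find hex ≤ D.d (t' r) := by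
    intro r z hz
    by_cases h2 : D.d z ≤ 1
    · exact Or.inl h2
    have h3 := h.hZd r z hz
    have := Nat.find_min' hex (m := D.d (t' r) - D.d z) (Or.inr ⟨r, z, hz, by omega, by omega⟩)
    omega
  rcases Nat.find_spec hex with ⟨c, y, hy, h2, h3⟩ | ⟨r, z, hz, h2, h3⟩
  · obtain ⟨r, ξ, l, a1, a2, a3, a4, a5⟩ := h.pairC _ hC hR hy h2 h3
    exact ⟨r, c, ξ, l, a1, D.ne_zero (by omega), a2, a3, a4, Or.inl a5⟩
  · obtain ⟨c, l, ξ, a1, a2, a3, a4, a5⟩ := h.flip.pairC _ hR hC hz h2 h3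
    have a5' : 2 ≤ D.d l := a5
    exact ⟨r, c, ξ, l, Rel_flip.1 a1, a2, D.ne_zero (by omega), a4, a3, Or.inr a5'⟩

/-- Elements `p + k ξ` with `k` constant and `p` small. -/
def Top (D : Deg k A) (ξ : A) : Submodule k A := QR D (D.Fl 1) ⊤ ξ

theorem Sys.top1 (h : Sys D t' Z t Y (fun _ => 0) (fun _ => 0)) {c : ι} {ξ η : A} (hξ : ξ ≠ 0)
    (hY : ∀ y ∈ Y c, D.d y ≤ D.d ξ) (hη : D.d (t c - η * ξ) ≤ D.d ξ) :
    ∀ y ∈ Y c, ∃ j : k, D.d (y - j • ξ) < D.d ξ := by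
  have h0 := D.pos hξ
  have : Y c ≤ Top D ξ := by
    refine h.spanC c _ ?_ (zero_mem _) ?_
    · by_cases h1 : D.d ξ ≤ 1
      · obtain ⟨j, rfl⟩ := D.cst ξ h1
        have hj : j ≠ 0 := by rintro rfl; simp at hξ
        exact ⟨j⁻¹ • 1, Submodule.smul_mem _ _ (by rw [D.mem_Fl, D.d_one]), 0, trivial,
          by simp [D.d_zero], by simp [smul_smul, hj]⟩
      · exact ⟨0, zero_mem _, 1, trivial, by rw [D.d_one]; omega, by simp⟩
    · intro r x m hr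
      have ht' := h.ht' r
      have h1 := P_deg D (a := D.d (t' r) - 1) (fun z hz => by have := h.hZd r z hz; omega) hY hr.2.2
      have h2 := D.d_mul_le m (t c - η * ξ)
      have h3 := h.hZd r m hr.2.1
      have h4 := D.d_add (t' r * x - m * t c) (m * (t c - η * ξ))
      have h5 : t' r * x - m * t c + m * (t c - η * ξ) = t' r * x - (m * η) * ξ := by noncomm_ring
      rw [h5] at h4
      obtain ⟨e, he, -⟩ := D.W 0 (t' r) x (m * η) ξ (D.ne_zero (by omega)) hξ (by omega)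
      refine ⟨e, ?_, x - e * ξ, trivial, by omega, by abel⟩
      rw [D.mem_Fl]
      by_cases he0 : e = 0
      · rw [he0, D.d_zero]; omega
      have h6 := D.d_mul e ξ he0 hξ
      have h7 := D.d_sub x (x - e * ξ)
      rw [sub_sub_cancel] at h7
      have := hY x hr.1
      omega
  intro y hy
  obtain ⟨j, hk, p, -, hp, rfl⟩ := this hy
  obtain ⟨j', rfl⟩ := D.cst j hk
  exact ⟨j', by rw [smul_mul_assoc, one_mul, add_sub_cancel_right]; omega⟩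

/-- The special pair yields the data of the splits. -/
theorem special {T T' ξ l : A} {Z0 Y0 : Submodule k A} (hr : Rel T' Z0 T Y0 ξ l) (hξ : ξ ≠ 0)
    (hl : l ≠ 0) (hT : D.d ξ < D.d T)
    (hY : ∀ y ∈ Y0, ∃ j : k, D.d (y - j • ξ) < D.d ξ)
    (hZ : ∀ z ∈ Z0, ∃ j : k, D.d (z - j • l) < D.d l) :
    ∃ η η' ξ1 l1, 2 ≤ D.d η ∧ 2 ≤ D.d η' ∧ D.d ξ1 < D.d ξ ∧ D.d l1 < D.d l ∧
      T - η * ξ - ξ1 ∈ Y0 ∧ D.d (T - η * ξ - ξ1) < D.d ξ ∧
      T' - l * η' - l1 ∈ Z0 ∧ D.d (T' - l * η' - l1) < D.d l ∧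
      l * ξ1 - l1 * ξ ∈ P (Z0 ⊓ D.Fl (D.d l - 1)) (Y0 ⊓ D.Fl (D.d ξ - 1)) := by
  have key : ∀ E ∈ P Z0 Y0, ∃ κ ∈ D.Fl 1, ∃ y ∈ Y0 ⊓ D.Fl (D.d ξ - 1), ∃ z ∈ Z0 ⊓ D.Fl (D.d l - 1),
      ∃ e ∈ P (Z0 ⊓ D.Fl (D.d l - 1)) (Y0 ⊓ D.Fl (D.d ξ - 1)), E = l * κ * ξ + l * y + z * ξ + e := by
    intro E hE
    induction hE using Submodule.span_induction with
    | mem a ha =>
      obtain ⟨z, hz, y, hy, rfl⟩ := ha
      obtain ⟨i, hkd⟩ := hY y hy
      obtain ⟨j, hjd⟩ := hZ z hz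
      have m1 : y - i • ξ ∈ Y0 ⊓ D.Fl (D.d ξ - 1) :=
        ⟨Y0.sub_mem hy (Y0.smul_mem i hr.1), by show D.d _ ≤ _; omega⟩
      have m2 : z - j • l ∈ Z0 ⊓ D.Fl (D.d l - 1) :=
        ⟨Z0.sub_mem hz (Z0.smul_mem j hr.2.1), by show D.d _ ≤ _; omega⟩
      refine ⟨(j * i) • 1, Submodule.smul_mem _ _ (by rw [D.mem_Fl, D.d_one]), j • (y - i • ξ),
        Submodule.smul_mem _ _ m1, i • (z - j • l), Submodule.smul_mem _ _ m2, _, mul_mem_P m2 m1, ?_⟩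
      simp only [mul_sub, sub_mul, smul_sub, smul_mul_assoc, mul_smul_comm, smul_smul, mul_one,
        mul_comm i j]
      abel
    | zero => exact ⟨0, zero_mem _, 0, zero_mem _, 0, zero_mem _, 0, zero_mem _, by simp⟩
    | add a b _ _ ha hb =>
      obtain ⟨κ, hk, y, hy, z, hz, e, he, rfl⟩ := ha
      obtain ⟨κ', hk', y', hy', z', hz', e', he', rfl⟩ := hb
      exact ⟨_, add_mem hk hk', _, add_mem hy hy', _, add_mem hz hz', _, add_mem he he',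
        by noncomm_ring⟩
    | smul c a _ ha =>
      obtain ⟨κ, hk, y, hy, z, hz, e, he, rfl⟩ := ha
      exact ⟨_, Submodule.smul_mem _ c hk, _, Submodule.smul_mem _ c hy, _,
        Submodule.smul_mem _ c hz, _, Submodule.smul_mem _ c he,
        by simp only [smul_add, smul_mul_assoc, mul_smul_comm]⟩
  obtain ⟨κ, hk, y, hy, z, hz, e, he, hE⟩ := key _ hr.2.2
  have h0 := D.pos hξ
  have h0' := D.pos hl
  have hyd : D.d y ≤ D.d ξ - 1 := hy.2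
  have hzd : D.d z ≤ D.d l - 1 := hz.2
  have hkd : D.d κ ≤ 1 := hk
  have hed := P_deg D (a := D.d l - 1) (b := D.d ξ - 1)
    (fun z hz => (Submodule.mem_inf.1 hz).2) (fun y hy => (Submodule.mem_inf.1 hy).2) he
  have e1 : l * (T + y) - (T' - z - l * κ) * ξ = -e := by
    have : e = T' * ξ - l * T - (l * κ * ξ + l * y + z * ξ) := by rw [hE]; abel
    rw [this]
    noncomm_ring
  obtain ⟨η, h1, h2⟩ := D.W 0 l (T + y) (T' - z - l * κ) ξ hl hξ (by rw [e1, D.d_neg]; omega)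
  have hη : 2 ≤ D.d η := by
    have h3 := D.d_mul_le η ξ
    have h4 := D.d_add (T + y - η * ξ) (η * ξ)
    rw [sub_add_cancel, D.d_add_of_lt (by omega)] at h4
    omega
  have a1 : T - η * ξ - (T + y - η * ξ) = -y := by abel
  have a2 : T' - l * (η + κ) - (T' - z - l * κ - l * η) = z := by noncomm_ring
  refine ⟨η, η + κ, _, _, hη, by rw [D.d_add_of_lt (by omega)]; exact hη, by simpa using h1,
    by simpa using h2, ?_, ?_, ?_, ?_, ?_⟩
  · rw [a1]; exact neg_mem hy.1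
  · rw [a1, D.d_neg]; omega
  · rw [a2]; exact hz.1
  · rw [a2]; omega
  · have : l * (T + y - η * ξ) - (T' - z - l * κ - l * η) * ξ = -e := by
      rw [← e1]; noncomm_ring
    rw [this]
    exact neg_mem he

/-- Chains with blocks satisfying `Q`. -/
inductive Ch (Q : A → Prop) : Submodule k A → A → Prop
  | base (c : k) : c ≠ 0 → Ch Q (Submodule.span k {1}) (c • 1)
  | step {N : Submodule k A} {p : A} (τ n : A) : Ch Q N p → Q τ → n ∈ N →
      Ch Q (N ⊔ Submodule.span k {τ * p + n}) (τ * p + n)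

theorem Ch.top_mem {Q : A → Prop} {N : Submodule k A} {p : A} (h : Ch Q N p) : p ∈ N := by
  cases h with
  | base c => exact Submodule.smul_mem _ c (Submodule.mem_span_singleton_self _)
  | step => exact Submodule.mem_sup_right (Submodule.mem_span_singleton_self _)

theorem sum_split [Fintype ι] [DecidableEq ι] (D : Deg k A) (t : ι → A) (b : ι) {ξ η : A}
    (hξ : 2 ≤ D.d ξ) (hη : 2 ≤ D.d η) (h : D.d (t b) + 1 = D.d η + D.d ξ) :
    ∑ o : Option ι, (D.d (o.elim η (Function.update t b ξ)) - 2) + 1 = ∑ c, (D.d (t c) - 2) := by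
  rw [Fintype.sum_option, ← Finset.add_sum_erase _ _ (Finset.mem_univ b),
    ← Finset.add_sum_erase _ (fun c => D.d (t c) - 2) (Finset.mem_univ b)]
  have : ∑ x ∈ Finset.univ.erase b, (D.d ((some x).elim η (Function.update t b ξ)) - 2) =
      ∑ x ∈ Finset.univ.erase b, (D.d (t x) - 2) := by
    refine Finset.sum_congr rfl fun x hx => ?_
    simp [Function.update_of_ne (Finset.ne_of_mem_erase hx)]
  rw [this]
  simp only [Option.elim, Function.update_self]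
  omega

theorem P_eq_zero_left {Z0 Y0 : Submodule k A} {e : A} (he : e ∈ P (Z0 ⊓ D.Fl 0) Y0) : e = 0 := by
  refine (P_le (W := ⊥) ?_ he : _)
  intro z hz y _
  have : z = 0 := (D.d_eq_zero z).1 (Nat.le_zero.1 hz.2)
  simp [this]

theorem P_eq_zero_right {Z0 Y0 : Submodule k A} {e : A} (he : e ∈ P Z0 (Y0 ⊓ D.Fl 0)) : e = 0 := by
  refine (P_le (W := ⊥) ?_ he : _)
  intro z _ y hy
  have : y = 0 := (D.d_eq_zero y).1 (Nat.le_zero.1 hy.2)
  simp [this]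

end Pool.Agent.H64.Brk
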