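import Pool.Agent.H64.Brk3

/-! Brachymorphisms, part 4: the linked-system theorem. -/

namespace Pool.Agent.H64.Brk

universe u v

variable {k : Type u} [Field k] {A : Type v} [Ring A] [Algebra k A]

theorem finish {D : Deg k A} {ι : Type} [DecidableEq ι] {t : ι → A} {Y : ι → Submodule k A} {b : ι}
    {ξ η ξ1 : A} (hη : 2 ≤ D.d η) {Y' Y'' : Option ι → Submodule k A}
    (hne : ∀ c, c ≠ b → Y' (some c) = Y c) (hξ1 : ξ1 ∈ Y' (some b))
    (hlow : ∀ y ∈ Y b, D.d y < D.d ξ → y ∈ Y' (some b)) (hy0 : t b - η * ξ - ξ1 ∈ Y b)
    (hy0d : D.d (t b - η * ξ - ξ1) < D.d ξ)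
    (htop : ∀ y ∈ Y b, ∃ j : k, D.d (y - j • ξ) < D.d ξ) (hξY : ξ ∈ Y b)
    (hle : ∀ o, Y' o ≤ Y'' o)
    (IH : ∀ o : Option ι, ∃ N, Ch (fun τ => 2 ≤ D.d τ) N (o.elim η (Function.update t b ξ)) ∧
      Y'' o ≤ N) (c : ι) : ∃ N, Ch (fun τ => 2 ≤ D.d τ) N (t c) ∧ Y c ≤ N := by
  obtain ⟨N, hN, hYN⟩ := IH (some c)
  by_cases hc : c = b
  · subst hc
    simp only [Option.elim, Function.update_self] at hN
    have hle' : Y' (some c) ≤ N := (hle _).trans hYN
    have h1 := Ch.step η ((t c - η * ξ - ξ1) + ξ1) hN hη
      (hle' (add_mem (hlow _ hy0 hy0d) hξ1))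
    have h2 : η * ξ + ((t c - η * ξ - ξ1) + ξ1) = t c := by abel
    rw [h2] at h1
    refine ⟨_, h1, fun y hy => Submodule.mem_sup_left ?_⟩
    obtain ⟨j, hd⟩ := htop y hy
    have := add_mem (hle' (hlow _ (sub_mem hy (Submodule.smul_mem _ j hξY)) hd))
      (Submodule.smul_mem _ j hN.top_mem)
    rwa [sub_add_cancel] at this
  · simp only [Option.elim, Function.update_of_ne hc] at hN
    exact ⟨N, hN, by rw [← hne c hc]; exact (hle _).trans hYN⟩

theorem sys_chain (D : Deg k A) : ∀ (n : ℕ) (κ ι : Type) [Fintype κ] [Fintype ι] [DecidableEq κ]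
    [DecidableEq ι] (t' : κ → A) (Z : κ → Submodule k A) (t : ι → A) (Y : ι → Submodule k A),
    ∑ c, (D.d (t c) - 2) + ∑ r, (D.d (t' r) - 2) < n → Sys D t' Z t Y (fun _ => 0) (fun _ => 0) →
    ∀ c, ∃ N, Ch (fun τ => 2 ≤ D.d τ) N (t c) ∧ Y c ≤ N := by
  intro n
  induction n with
  | zero => intros; omega
  | succ n IH =>
    intro κ ι _ _ _ _ t' Z t Y hn h
    by_cases hnc : (∃ c, ∃ y ∈ Y c, 2 ≤ D.d y) ∨ ∃ r, ∃ z ∈ Z r, 2 ≤ D.d z
    swap
    · intro c
      have h1 := Ch.step (Q := fun τ => 2 ≤ D.d τ) (t c) 0 (Ch.base (1 : k) one_ne_zero) (h.ht c)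
        (zero_mem _)
      rw [one_smul, mul_one, add_zero] at h1
      refine ⟨_, h1, fun y hy => Submodule.mem_sup_left ?_⟩
      have : D.d y ≤ 1 := by
        by_contra h2
        exact hnc (Or.inl ⟨c, y, hy, by omega⟩)
      obtain ⟨j, rfl⟩ := D.cst y this
      exact Submodule.smul_mem _ j (Submodule.mem_span_singleton_self _)
    obtain ⟨r, b, ξ, l, hr, hξ0, hl0, hYξ, hZl, hor⟩ := h.pair hnc
    have p1 := D.pos hξ0
    have p2 := D.pos hl0
    obtain ⟨η0, hη0, hη0'⟩ := D.W 1 l (t b) (t' r) ξ hl0 hξ0 (by
      have := P_deg D hZl hYξ hr.2.2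
      rw [D.d_sub_comm]
      omega)
    have topY := h.top1 hξ0 hYξ (η := η0) (by omega)
    have topZ : ∀ z ∈ Z r, ∃ j : k, D.d (z - j • l) < D.d l :=
      h.flip.top1 (c := r) (ξ := l) (η := η0) hl0 hZl (Nat.lt_succ_iff.1 hη0')
    obtain ⟨η, η', ξ1, l1, hη, hη', hξ1d, hl1d, hy0, hy0d, hz0, hz0d, he⟩ :=
      special (D := D) hr hξ0 hl0 (h.hYd b ξ hr.1) topY topZ
    by_cases hξ : 2 ≤ D.d ξ
    · obtain ⟨Z', Y', S1, hZZ', hne, hξ1, hlow, hext, hdt⟩ := h.split b rfl ξ η ξ1 hξ hη hξ1d hy0 hy0d
        (fun y hy => by obtain ⟨j, hk⟩ := topY y hy; exact ⟨j • 1, by simpa using hk⟩)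
      have s1 := sum_split D t b hξ hη hdt
      by_cases hl : 2 ≤ D.d l
      · have hdiv : ∀ m ∈ Z' r, ∃ q, D.d (m - l * q) < D.d l := by
          intro m hm
          obtain ⟨z, hz, x, hx, hE⟩ := hext r m hm
          obtain ⟨j, hk⟩ := topZ z hz
          have a1 := P_deg D hZl (b := D.d ξ - 1) (fun y hy => by
            have := S1.hYd (some b) y hy
            simp only [Option.elim, Function.update_self] at this
            omega) hE
          have a2 := D.d_add (t' r - l * η' - l1) l1
          rw [sub_add_cancel] at a2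
          have a3 := D.d_mul_le (t' r - l * η') x
          have a4 := D.d_sub (t' r * x - (m - z) * ξ) ((t' r - l * η') * x)
          have a5 : t' r * x - (m - z) * ξ - (t' r - l * η') * x = l * (η' * x) - (m - z) * ξ := by
            noncomm_ring
          rw [a5] at a4
          obtain ⟨e, -, he2⟩ := D.W 0 l (η' * x) (m - z) ξ hl0 hξ0 (by omega)
          refine ⟨e + j • 1, ?_⟩
          have a6 := D.d_add (m - z - l * e) (z - j • l)
          have a7 : m - z - l * e + (z - j • l) = m - l * (e + j • 1) := by
            rw [mul_add, mul_smul_comm, mul_one]; abel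
          rw [a7] at a6
          omega
        obtain ⟨Y'', Z'', S2, hYY, -, hl1, hlow', -, hdt'⟩ :=
          S1.flip.split r rfl l η' l1 hl hη' hl1d (hZZ' r hz0) hz0d hdiv
        have s2 := sum_split D t' r hl hη' hdt'
        have hrel : Rel l (Z'' (some r)) ξ (Y'' (some b)) ξ1 l1 := by
          refine ⟨hYY (some b) hξ1, hl1, P_mono ?_ ?_ he⟩
          · intro z hz
            have : D.d z ≤ D.d l - 1 := hz.2
            exact hlow' z (hZZ' r hz.1) (show D.d z < D.d l by omega)
          · intro y hy
            have : D.d y ≤ D.d ξ - 1 := hy.2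
            exact hYY (some b) (hlow y hy.1 (by omega))
        have S3 := S2.unflip.discharge (by
            rintro (_ | c)
            · exact Or.inl rfl
            · by_cases hc : c = b
              · subst hc
                refine Or.inr ⟨some r, l1, ?_⟩
                simpa only [Option.elim, Function.update_self] using hrel
              · left
                simp only [Option.elim, Function.update_of_ne hc]) (by
            rintro (_ | c)
            · exact Or.inl rfl
            · by_cases hc : c = r
              · subst hc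
                refine Or.inr ⟨some b, ξ1, ?_⟩
                simpa only [Option.elim, Function.update_self] using hrel
              · left
                simp only [Option.elim, Function.update_of_ne hc])
        exact finish hη hne hξ1 hlow hy0 hy0d topY hr.1 hYY
          (IH _ _ _ _ _ _ (by
            have s2' : ∑ o : Option κ, (D.d (o.elim η' (Function.update t' r l)) - 2) + 1 =
              ∑ c, (D.d (t' c) - 2) := s2
            show ∑ o : Option ι, (D.d (o.elim η (Function.update t b ξ)) - 2) +
              ∑ o : Option κ, (D.d (o.elim η' (Function.update t' r l)) - 2) < n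
            omega) S3)
      · have a1 : D.d l - 1 = 0 := by omega
        rw [a1] at he
        have a2 := P_eq_zero_left he
        have a3 : l1 = 0 := (D.d_eq_zero l1).1 (by omega)
        have a4 : ξ1 = 0 := by
          by_contra h0
          have := D.d_mul l ξ1 hl0 h0
          have := D.pos h0
          rw [a3, zero_mul, sub_zero] at a2
          rw [a2, D.d_zero] at *
          omega
        have S3 := S1.discharge (by
            rintro (_ | c)
            · exact Or.inl rfl
            · left
              by_cases hc : c = b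
              · subst hc
                simp [a4]
              · simp only [Option.elim, Function.update_of_ne hc]) (fun _ => Or.inl rfl)
        exact finish hη hne hξ1 hlow hy0 hy0d topY hr.1 (fun _ => le_rfl)
          (IH _ _ _ _ _ _ (by omega) S3)
    · have hl : 2 ≤ D.d l := by omega
      have a1 : D.d ξ - 1 = 0 := by omega
      rw [a1] at he
      have a2 := P_eq_zero_right he
      have a3 : ξ1 = 0 := (D.d_eq_zero ξ1).1 (by omega)
      have a4 : l1 = 0 := by
        by_contra h0
        have := D.d_mul l1 ξ h0 hξ0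
        have := D.pos h0
        rw [a3, mul_zero, zero_sub, neg_eq_zero] at a2
        rw [a2, D.d_zero] at *
        omega
      obtain ⟨Y'', Z'', S2, hYY, -, -, -, -, hdt'⟩ :=
        h.flip.split r rfl l η' l1 hl hη' hl1d hz0 hz0d
          (fun y hy => by
            obtain ⟨j, hk⟩ := topZ y hy
            refine ⟨j • (1 : A), ?_⟩
            show D.d (@HSub.hSub A A A _ y (l * (j • (1 : A)))) < D.d l
            simpa using hk)
      have s2 := sum_split D t' r hl hη' hdt'
      have S3 := S2.unflip.discharge (fun _ => Or.inl rfl) (by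
            rintro (_ | c)
            · exact Or.inl rfl
            · left
              by_cases hc : c = r
              · subst hc
                simp only [Option.elim, Function.update_self]
                exact a4
              · simp only [Option.elim, Function.update_of_ne hc])
      intro c
      obtain ⟨N, hN, hYN⟩ := IH _ _ _ _ _ _ (by
            have s2' : ∑ o : Option κ, (D.d (o.elim η' (Function.update t' r l)) - 2) + 1 =
              ∑ c, (D.d (t' c) - 2) := s2
            show ∑ c, (D.d (t c) - 2) +
              ∑ o : Option κ, (D.d (o.elim η' (Function.update t' r l)) - 2) < n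
            omega) S3 c
      exact ⟨N, hN, (hYY c).trans hYN⟩

end Pool.Agent.H64.Brk
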