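import Pool.Agent.H64.Brk5

/-! Brachymorphisms, part 6: matrix form of a chain. -/

namespace Pool.Agent.H64.Brk

open Matrix

universe u v

variable {k : Type u} [Field k] {A : Type v} [Ring A] [Algebra k A] {D : Deg k A}

/-- Matrix form of a chain with nonconstant top. -/
structure RepOn (D : Deg k A) (Q : A → Prop) (N : Submodule k A) (p : A) {ι : Type} [Fintype ι]
    [DecidableEq ι] (τ : ι → A) (C : Matrix ι ι A) (s l : ι → A) (a b : ι) : Prop where
  hQ : ∀ i, Q (τ i)
  hC : ∀ i j, D.d (C i j) ≤ 1
  hs : ∀ i, τ i * s i + ∑ j, C i j * s j = if i = a then p else 0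
  hl : ∀ j, l j * τ j + ∑ i, l i * C i j = if j = b then p else 0
  sb : s b = 1
  la : l a = 1
  sol : ∀ v : ι → A, ∃ m : ι → A, m a = 0 ∧
    ∀ j, m j * τ j + ∑ i, m i * C i j = v j - if j = b then ∑ i, v i * s i else 0
  sN : ∀ i, s i ∈ N
  span : ∀ y ∈ N, ∃ (g : ι → A) (g0 : A), (∀ i, D.d (g i) ≤ 1) ∧ D.d g0 ≤ 1 ∧
    y = ∑ i, g i * s i + g0 * p
  deg : ∀ i, D.d (τ i) + D.d (s i) ≤ D.d p + 1

def Rep (D : Deg k A) (Q : A → Prop) (N : Submodule k A) (p : A) : Prop :=
  ∃ (ι : Type) (_ : Fintype ι) (_ : DecidableEq ι) (τ : ι → A) (C : Matrix ι ι A) (s l : ι → A)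
    (a b : ι), RepOn D Q N p τ C s l a b

theorem d_zsmul_one (z : k) : D.d (z • (1 : A)) ≤ 1 :=
  (D.d_smul_le z 1).trans D.d_one.le

theorem Ch.rep {Q : A → Prop} (hQ : ∀ τ, Q τ → 2 ≤ D.d τ)
    (hQs : ∀ τ (c : k), c ≠ 0 → Q τ → Q (c • τ)) {N : Submodule k A} {p : A} (h : Ch Q N p) :
    (N = Submodule.span k {1} ∧ ∃ c : k, c ≠ 0 ∧ p = c • 1) ∨ (2 ≤ D.d p ∧ Rep D Q N p) := by
  induction h with
  | base c hc => exact Or.inl ⟨rfl, c, hc, rfl⟩
  | @step N p τ0 n h0 hτ hn ih =>
    have h2 := h0.deg (D := D) hQ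
    have h1 := step_deg h2.1 h2.2 (hQ _ hτ) hn
    have h3 := D.pos h2.1
    have h4 := hQ _ hτ
    refine Or.inr ⟨by omega, ?_⟩
    rcases ih with ⟨rfl, c, hc, rfl⟩ | ⟨-, ι, _, _, τ, C, s, l, a, b, R⟩
    · obtain ⟨z, rfl⟩ := Submodule.mem_span_singleton.1 hn
      refine ⟨Unit, inferInstance, inferInstance, fun _ => c • τ0, fun _ _ => z • (1 : A), fun _ => 1,
        fun _ => 1, (), (), ⟨fun _ => hQs _ c hc hτ, fun _ _ => d_zsmul_one z, by simp, by simp, rfl,
        rfl, fun v => ⟨fun _ => 0, rfl, by simp⟩,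
        fun _ => Submodule.mem_sup_left (Submodule.mem_span_singleton_self _), ?_, fun _ => ?_⟩⟩
      · intro y hy
        obtain ⟨_, a1, _, a2, rfl⟩ := Submodule.mem_sup.1 hy
        obtain ⟨z1, rfl⟩ := Submodule.mem_span_singleton.1 a1
        obtain ⟨z2, rfl⟩ := Submodule.mem_span_singleton.1 a2
        exact ⟨fun _ => z1 • (1 : A), z2 • (1 : A), fun _ => d_zsmul_one _, d_zsmul_one _, by simp⟩
      · rw [D.d_smul hc] at *
        omega
    · obtain ⟨g, g0, hk, hk0, rfl⟩ := R.span n hn
      obtain ⟨m, hma, hm⟩ := R.sol g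
      refine ⟨Option ι, inferInstance, inferInstance, fun o => o.elim τ0 τ,
        fun o o' => o.elim (o'.elim g0 g) (fun i => o'.elim (if i = a then -1 else 0) (C i)),
        fun o => o.elim p s, fun o => o.elim 1 (fun i => (τ0 + g0) * l i - m i), none, some b,
        ⟨?_, ?_, ?_, ?_, R.sb, rfl, ?_, ?_, ?_, ?_⟩⟩
      · rintro (_ | i)
        exacts [hτ, R.hQ i]
      · rintro (_ | i) (_ | j)
        · exact hk0
        · exact hk j
        · show D.d (if i = a then -1 else 0) ≤ 1
          split_ifs <;> simp [D.d_neg, D.d_one, D.d_zero]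
        · exact R.hC i j
      · rintro (_ | i)
        · simp only [Fintype.sum_option, Option.elim, if_true]
          abel
        · have := R.hs i
          simp only [Fintype.sum_option, Option.elim, reduceCtorEq, if_false]
          rw [add_left_comm, this]
          split_ifs <;> simp
      · rintro (_ | j)
        · simp only [Fintype.sum_option, Option.elim, reduceCtorEq, if_false, mul_ite, mul_zero,
            Finset.sum_ite_eq', Finset.mem_univ, if_true, R.la, hma]
          noncomm_ring
        · have e1 := R.hl j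
          have e2 := hm j
          simp only [Fintype.sum_option, Option.elim, Option.some.injEq, sub_mul,
            Finset.sum_sub_distrib, mul_assoc, ← Finset.mul_sum]
          have e3 : (τ0 + g0) * (l j * τ j) - m j * τ j + (1 * g j + ((τ0 + g0) * ∑ i, l i * C i j -
              ∑ i, m i * C i j)) = (τ0 + g0) * (l j * τ j + ∑ i, l i * C i j) + g j -
              (m j * τ j + ∑ i, m i * C i j) := by noncomm_ring
          rw [e3, e1, e2]
          split_ifs
          · noncomm_ring
          · simp
      · intro v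
        obtain ⟨m', hma', hm'⟩ := R.sol (fun i => v (some i))
        refine ⟨fun o => o.elim 0 (fun i => m' i - v none * l i), rfl, ?_⟩
        rintro (_ | j)
        · simp only [Fintype.sum_option, Option.elim, reduceCtorEq, if_false, mul_ite, mul_zero,
            Finset.sum_ite_eq', Finset.mem_univ, if_true, R.la, hma']
          noncomm_ring
        · have e1 := R.hl j
          have e2 := hm' j
          simp only [Fintype.sum_option, Option.elim, Option.some.injEq, sub_mul,
            Finset.sum_sub_distrib, mul_assoc, ← Finset.mul_sum]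
          have e3 : m' j * τ j - v none * (l j * τ j) + (0 * g j + (∑ i, m' i * C i j -
              v none * ∑ i, l i * C i j)) = (m' j * τ j + ∑ i, m' i * C i j) -
              v none * (l j * τ j + ∑ i, l i * C i j) := by noncomm_ring
          rw [e3, e1, e2]
          split_ifs
          · noncomm_ring
          · simp
      · rintro (_ | i)
        · exact Submodule.mem_sup_left h0.top_mem
        · exact Submodule.mem_sup_left (R.sN i)
      · intro y hy
        obtain ⟨y1, hy1, _, a2, rfl⟩ := Submodule.mem_sup.1 hy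
        obtain ⟨z2, rfl⟩ := Submodule.mem_span_singleton.1 a2
        obtain ⟨g', g0', hk', hk0', rfl⟩ := R.span y1 hy1
        refine ⟨fun o => o.elim g0' g', z2 • (1 : A), ?_, d_zsmul_one _, ?_⟩
        · rintro (_ | i)
          exacts [hk0', hk' i]
        · simp only [Fintype.sum_option, Option.elim, smul_mul_assoc, one_mul]
          abel
      · rintro (_ | i)
        · simp only [Option.elim]
          omega
        · have := R.deg i
          simp only [Option.elim]
          omega

/-- A fine chain contains every chain with the same top. -/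
theorem fine_max {N N' : Submodule k A} {p : A} (h : Ch (Indec D) N p)
    (h' : Ch (fun τ => 2 ≤ D.d τ) N' p) : N' ≤ N := by
  have hs : ∀ τ (c : k), c ≠ 0 → 2 ≤ D.d τ → 2 ≤ D.d (c • τ) := fun τ c hc h => by
    rwa [D.d_smul hc]
  rcases h.rep (D := D) (fun _ h => h.1) (fun _ _ hc h => h.smul hc) with
    ⟨rfl, c, hc, rfl⟩ | ⟨hp, ι, _, _, τ, C, s, l, a, b, R⟩
  · rcases h'.rep (D := D) (fun _ h => h) hs with ⟨rfl, -⟩ | ⟨hp, -⟩
    · exact le_rfl
    · rw [D.d_smul hc, D.d_one] at hp; omega
  rcases h'.rep (D := D) (fun _ h => h) hs with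
    ⟨-, c, hc, rfl⟩ | ⟨-, κ, _, _, τ', C', s', l', a', b', R'⟩
  · rw [D.d_smul hc, D.d_one] at hp; omega
  obtain ⟨Y, hY⟩ := sylv_const (D := D) R.hQ R'.hQ R.hC R'.hC
    (X := of fun i j => if j = b then s' i else 0) (L := of fun i j => if i = a' then l j else 0) (by
      ext i j
      rw [Matrix.add_mul, Matrix.mul_add, Matrix.add_apply, Matrix.add_apply, diagonal_mul,
        mul_diagonal, Matrix.mul_apply, Matrix.mul_apply]
      simp only [of_apply]
      have e1 := R.hl j
      have e2 := R'.hs i
      by_cases hj : j = b <;> by_cases hi : i = a' <;> simp only [hi, hj, if_true, if_false] at * <;>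
        simp [e1, e2])
  have hs' : ∀ i, s' i ∈ N := by
    intro i
    have e1 : ∑ j, ((of fun i j => if j = b then s' i else 0 : Matrix κ ι A) -
        Y * (diagonal τ + C)) i j * s j = s' i - Y i a * p := by
      have e2 : ∀ j, (Y * (diagonal τ + C)) i j * s j = Y i j * (τ j * s j) + ∑ e, Y i e * (C e j * s j) := by
        intro j
        rw [Matrix.mul_add, Matrix.add_apply, mul_diagonal, Matrix.mul_apply, add_mul, Finset.sum_mul]
        simp only [mul_assoc]
      simp only [Matrix.sub_apply, sub_mul, Finset.sum_sub_distrib, of_apply, ite_mul, zero_mul,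
        Finset.sum_ite_eq', Finset.mem_univ, if_true, R.sb, mul_one, e2, Finset.sum_add_distrib]
      rw [Finset.sum_comm, ← Finset.sum_add_distrib]
      simp only [← Finset.mul_sum, ← mul_add, R.hs, mul_ite, mul_zero, Finset.sum_ite_eq',
        Finset.mem_univ, if_true]
    have e3 : s' i - Y i a * p ∈ N := e1 ▸ sum_mem fun j _ => cst_mul_mem (hY i j) (R.sN j)
    have e4 : D.d (s' i - Y i a * p) ≤ D.d p - 1 := e1 ▸ d_sum_le fun j => by
      have := D.d_mul_le (((of fun i j => if j = b then s' i else 0 : Matrix κ ι A) -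
        Y * (diagonal τ + C)) i j) (s j)
      have := hY i j
      have := R.deg j
      have := (R.hQ j).1
      omega
    have e5 : Y i a = 0 := by
      by_contra h0
      have a1 := D.d_mul _ p h0 (D.ne_zero (by omega))
      have a2 := D.pos h0
      have a3 := D.d_sub (s' i) (s' i - Y i a * p)
      rw [sub_sub_cancel] at a3
      have := R'.deg i
      have := R'.hQ i
      omega
    simpa [e5] using e3
  intro y hy
  obtain ⟨g, g0, hk, hk0, rfl⟩ := R'.span y hy
  exact add_mem (sum_mem fun j _ => cst_mul_mem (hk j) (hs' j)) (cst_mul_mem hk0 h.top_mem)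

end Pool.Agent.H64.Brk
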