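import Pool.Agent.H64.Brk6

/-! Brachymorphisms, part 7: a brachymorphism with prescribed values on indecomposable blocks. -/

namespace Pool.Agent.H64.Brk

universe u v

variable {k : Type u} [Field k] {A : Type v} [Ring A] [Algebra k A] {D : Deg k A} {F : A → k}

/-- Fine chains with values. -/
inductive ChV (D : Deg k A) (F : A → k) : Submodule k (A × k) → A × k → Prop
  | base (c : k) : c ≠ 0 → ChV D F (Submodule.span k {1}) (c • 1)
  | step {G : Submodule k (A × k)} {p : A × k} (τ : A) (n : A × k) :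
      ChV D F G p → Indec D τ → n ∈ G →
      ChV D F (G ⊔ Submodule.span k {(τ, F τ) * p + n}) ((τ, F τ) * p + n)

namespace ChV
variable {G : Submodule k (A × k)} {p : A × k}

theorem proj (h : ChV D F G p) : Ch (Indec D) (G.map (LinearMap.fst k _ _)) p.1 := by
  induction h with
  | base c hc => rw [Submodule.map_span, Set.image_singleton]; exact Ch.base c hc
  | step τ n _ hτ hn ih =>
    rw [Submodule.map_sup, Submodule.map_span, Set.image_singleton]
    exact Ch.step τ n.1 ih hτ ⟨n, hn, rfl⟩

theorem ne (h : ChV D F G p) : p.1 ≠ 0 := (h.proj.deg (D := D) fun _ h => h.1).1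

theorem deg (h : ChV D F G p) {w : A × k} (hw : w ∈ G) : D.d w.1 ≤ D.d p.1 :=
  (h.proj.deg (D := D) fun _ h => h.1).2 _ ⟨w, hw, rfl⟩

theorem sdeg (h : ChV D F G p) {τ : A} (hτ : 2 ≤ D.d τ) {n : A × k} (hn : n ∈ G) (v : k) :
    D.d ((τ, v) * p + n).1 + 1 = D.d τ + D.d p.1 :=
  step_deg h.ne (h.proj.deg (D := D) fun _ h => h.1).2 hτ ⟨n, hn, rfl⟩

theorem top_mem (h : ChV D F G p) : p ∈ G := by
  cases h with
  | base c => exact Submodule.smul_mem _ c (Submodule.mem_span_singleton_self _)
  | step => exact Submodule.mem_sup_right (Submodule.mem_span_singleton_self _)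

theorem one_mem (h : ChV D F G p) : (1 : A × k) ∈ G := by
  induction h with
  | base => exact Submodule.mem_span_singleton_self _
  | step _ _ _ _ _ ih => exact Submodule.mem_sup_left ih

theorem d_base (D : Deg k A) {c : k} (hc : c ≠ 0) : D.d (c • (1 : A × k)).1 = 1 := by
  rw [Prod.smul_fst, D.d_smul hc, Prod.fst_one, D.d_one]

theorem inj (h : ChV D F G p) {w : A × k} (hw : w ∈ G) (h0 : w.1 = 0) : w = 0 := by
  induction h with
  | base =>
    obtain ⟨c, rfl⟩ := Submodule.mem_span_singleton.1 hw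
    by_cases hc : c = 0
    · simp [hc]
    · have := d_base D hc
      rw [h0, D.d_zero] at this
      omega
  | @step G p τ n hG hτ hn ih =>
    rcases mem_sup_one hw with h | ⟨m, hm, c, hc, rfl⟩
    · exact ih h
    · have a1 := hG.sdeg hτ.1 hn (F τ)
      have a2 := hG.deg hm
      have a3 := hτ.1
      have a5 := D.d_smul hc ((τ, F τ) * p + n).1
      have a4 := D.d_add_of_lt (a := c • ((τ, F τ) * p + n).1) (b := m.1) (by omega)
      rw [add_comm, ← Prod.smul_fst, ← Prod.fst_add, h0, D.d_zero, Prod.smul_fst] at a4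
      have := D.pos hG.ne
      omega

theorem restep (hF : ∀ (c : k) τ, F (c • τ) = c * F τ) (hG : ChV D F G p) {τ : A} (hτ : Indec D τ)
    {n m : A × k} (hn : n ∈ G) (hm : m ∈ G) {c : k} (hc : c ≠ 0) :
    ChV D F (G ⊔ Submodule.span k {(τ, F τ) * p + n}) (m + c • ((τ, F τ) * p + n)) := by
  have := step (c • τ) (m + c • n) hG (hτ.smul hc) (add_mem hm (G.smul_mem c hn))
  have e : (c • τ, F (c • τ)) * p + (m + c • n) = m + c • ((τ, F τ) * p + n) := by
    have : (c • τ, F (c • τ)) = c • (τ, F τ) := by rw [hF]; rfl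
    rw [this, smul_mul_assoc, smul_add, add_left_comm]
  rwa [e, sup_shift hc hm] at this

theorem retop (hF : ∀ (c : k) τ, F (c • τ) = c * F τ) (h : ChV D F G p) {w : A × k} (hw : w ∈ G)
    (hd : D.d w.1 = D.d p.1) : ChV D F G w := by
  cases h with
  | base c hc =>
    obtain ⟨c', rfl⟩ := Submodule.mem_span_singleton.1 hw
    refine base c' ?_
    rintro rfl
    rw [d_base D hc, zero_smul, Prod.fst_zero, D.d_zero] at hd
    omega
  | @step G p τ n hG hτ hn =>
    have a1 := hG.sdeg hτ.1 hn (F τ)
    have a3 := hτ.1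
    rcases mem_sup_one hw with h | ⟨m, hm, c, hc, rfl⟩
    · have := hG.deg h
      omega
    · exact hG.restep hF hτ hn hm hc

theorem trunc (hF : ∀ (c : k) τ, F (c • τ) = c * F τ) (h : ChV D F G p) {u : A × k} (hu : u ∈ G)
    (h0 : u.1 ≠ 0) : ∃ G', ChV D F G' u ∧ G' ≤ G := by
  induction h with
  | base =>
    obtain ⟨c', rfl⟩ := Submodule.mem_span_singleton.1 hu
    refine ⟨_, base c' ?_, le_rfl⟩
    rintro rfl
    simp at h0
  | @step G p τ n hG hτ hn ih =>
    rcases mem_sup_one hu with h | ⟨m, hm, c, hc, rfl⟩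
    · obtain ⟨G', h1, h2⟩ := ih h
      exact ⟨G', h1, h2.trans le_sup_left⟩
    · exact ⟨_, hG.restep hF hτ hn hm hc, le_rfl⟩

theorem lower (h : ChV D F G p) {w : A × k} (hw : w ∈ G) :
    ∃ c : k, D.d (w - c • p).1 < D.d p.1 := by
  cases h with
  | base c hc =>
    obtain ⟨c', rfl⟩ := Submodule.mem_span_singleton.1 hw
    refine ⟨c' * c⁻¹, ?_⟩
    rw [smul_smul, inv_mul_cancel_right₀ hc, sub_self, d_base D hc, Prod.fst_zero, D.d_zero]
    omega
  | @step G p τ n hG hτ hn =>
    have a1 := hG.sdeg hτ.1 hn (F τ)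
    have a3 := hτ.1
    rcases mem_sup_one hw with h | ⟨m, hm, c, hc, rfl⟩
    · have := hG.deg h
      exact ⟨0, by rw [zero_smul, sub_zero]; omega⟩
    · have := hG.deg hm
      exact ⟨c, by rw [add_sub_cancel_right]; omega⟩

theorem mul (hF : ∀ (c : k) τ, F (c • τ) = c * F τ) (h : ChV D F G p) {G' : Submodule k (A × k)}
    {q : A × k} (h' : ChV D F G' q) :
    ∃ G'', ChV D F G'' (q * p) ∧ G ≤ G'' ∧ ∀ w ∈ G', w * p ∈ G'' := by
  induction h' with
  | base c hc =>
    refine ⟨G, ?_, le_rfl, fun w hw => ?_⟩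
    · rw [smul_mul_assoc, one_mul]
      exact h.retop hF (G.smul_mem c h.top_mem) (by rw [Prod.smul_fst, D.d_smul hc])
    · obtain ⟨c', rfl⟩ := Submodule.mem_span_singleton.1 hw
      rw [smul_mul_assoc, one_mul]
      exact G.smul_mem c' h.top_mem
  | @step G' q τ n _ hτ hn ih =>
    obtain ⟨G'', h1, h2, h3⟩ := ih
    have := step τ (n * p) h1 hτ (h3 n hn)
    rw [← mul_assoc, ← add_mul] at this
    refine ⟨_, this, h2.trans le_sup_left, fun w hw => ?_⟩
    rcases mem_sup_one hw with h | ⟨m, hm, c, -, rfl⟩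
    · exact Submodule.mem_sup_left (h3 w h)
    · rw [add_mul m, smul_mul_assoc]
      exact add_mem (Submodule.mem_sup_left (h3 m hm))
        (Submodule.mem_sup_right (Submodule.smul_mem _ c (Submodule.mem_span_singleton_self _)))

theorem low_of_mem (hG : ChV D F G p) {q w : A × k} (hq : D.d p.1 < D.d q.1)
    (hw : w ∈ G ⊔ Submodule.span k {q}) (hd : D.d w.1 < D.d q.1) : w ∈ G := by
  rcases mem_sup_one hw with h | ⟨m, hm, c, hc, rfl⟩
  · exact h
  · have := hG.deg hm
    rw [Prod.fst_add, Prod.smul_fst, add_comm, D.d_add_of_lt (by rw [D.d_smul hc]; omega),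
      D.d_smul hc] at hd
    omega

end ChV

theorem Ch.weaken {N : Submodule k A} {p : A} (h : Ch (Indec D) N p) :
    Ch (fun τ => 2 ≤ D.d τ) N p := by
  induction h with
  | base c hc => exact Ch.base c hc
  | step τ n _ hτ hn ih => exact Ch.step τ n ih hτ.1 hn

theorem ChV.unique (hF : ∀ (c : k) τ, F (c • τ) = c * F τ) (hF' : ∀ (c : k) τ, F (τ + c • 1) = F τ + c) :
    ∀ (m : ℕ) {G G' : Submodule k (A × k)}
    {p p' : A × k}, D.d p.1 < m → ChV D F G p → ChV D F G' p' → p.1 = p'.1 → p = p' ∧ G = G' := by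
  intro m
  induction m with
  | zero => intros; omega
  | succ m ih =>
    intro G G' p p' hm h h' he
    have le1 := fine_max h.proj (he ▸ h'.proj.weaken)
    have le2 := fine_max h'.proj (he ▸ h.proj.weaken)
    cases h with
    | base c hc =>
      cases h' with
      | base c' hc' =>
        refine ⟨?_, rfl⟩
        have := (ChV.base (D := D) (F := F) c hc).inj (w := c • 1 - c' • 1)
          (sub_mem (Submodule.smul_mem _ _ (Submodule.mem_span_singleton_self _))
            (Submodule.smul_mem _ _ (Submodule.mem_span_singleton_self _)))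
          (by rw [Prod.fst_sub, he, sub_self])
        exact sub_eq_zero.1 this
      | @step G' s' τ' n' hG' hτ' hn' =>
        have a1 := hG'.sdeg hτ'.1 hn' (F τ')
        have := D.pos hG'.ne
        have := hτ'.1
        rw [← he, ChV.d_base D hc] at a1
        omega
    | @step G s τ n hG hτ hn =>
      have a1 := hG.sdeg hτ.1 hn (F τ)
      have a2 := hτ.1
      cases h' with
      | base c hc =>
        have := D.pos hG.ne
        rw [he, ChV.d_base D hc] at a1
        omega
      | @step G' s' τ' n' hG' hτ' hn' =>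
        have a1' := hG'.sdeg hτ'.1 hn' (F τ')
        have a2' := hτ'.1
        -- the two lower tops have the same degree and the lower chains agree
        obtain ⟨w, hw, hw1⟩ : ∃ w ∈ G, w.1 = s'.1 := by
          obtain ⟨w, hw, hw1⟩ := le1 ⟨s', Submodule.mem_sup_left hG'.top_mem, rfl⟩
          have hw1' : w.1 = s'.1 := hw1
          exact ⟨w, hG.low_of_mem (by omega) hw (by rw [hw1', he]; omega), hw1'⟩
        obtain ⟨w', hw', hw1'⟩ : ∃ w ∈ G', w.1 = s.1 := by
          obtain ⟨w, hw, hw1⟩ := le2 ⟨s, Submodule.mem_sup_left hG.top_mem, rfl⟩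
          have hw1' : w.1 = s.1 := hw1
          exact ⟨w, hG'.low_of_mem (by omega) hw (by rw [hw1', ← he]; omega), hw1'⟩
        rw [← he] at a1'
        have b1 := hG.deg hw
        have b2 := hG'.deg hw'
        rw [hw1] at b1
        rw [hw1'] at b2
        obtain ⟨rfl, rfl⟩ := ih (by rw [hw1]; omega) (hG.retop hF hw (by rw [hw1]; omega)) hG' hw1
        have hs := hG.top_mem
        have main : (τ, F τ) * s + n = (τ', F τ') * w + n' := by
          obtain ⟨c, hβ⟩ := hG.lower hw
          have hβG : w - c • s ∈ G := sub_mem hw (G.smul_mem c hs)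
          have e1 : τ * s.1 + n.1 = τ' * w.1 + n'.1 := he
          have e2 : (τ - c • τ') * s.1 + (n - n').1 = τ' * (w - c • s).1 := by
            rw [Prod.fst_sub, Prod.fst_sub, Prod.smul_fst, ← sub_eq_zero, sub_mul, mul_sub,
              smul_mul_assoc, mul_smul_comm]
            have : τ * s.1 - c • (τ' * s.1) + (n.1 - n'.1) - (τ' * w.1 - c • (τ' * s.1)) =
              (τ * s.1 + n.1) - (τ' * w.1 + n'.1) := by abel
            rw [this, e1, sub_self]
          have hg : D.d (τ - c • τ') ≤ 1 := by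
            by_contra hg
            have c0 := step_deg hG.ne (hG.proj.deg (D := D) fun _ h => h.1).2 (τ := τ - c • τ')
              (by omega) (n := (n - n').1) ⟨n - n', sub_mem hn hn', rfl⟩
            have h0 : (w - c • s).1 ≠ 0 := by
              intro h0
              rw [e2, h0, mul_zero, D.d_zero] at c0
              have := D.pos hG.ne
              omega
            obtain ⟨Gβ, hβ1, hβ2⟩ := hG.trunc hF hβG h0
            have c1 := (ChV.step τ' 0 hβ1 hτ' (zero_mem _))
            have c2 := Ch.step (τ - c • τ') (n - n').1 hG.proj.weaken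
              (by omega : 2 ≤ D.d (τ - c • τ')) ⟨n - n', sub_mem hn hn', rfl⟩
            have c3 : ((τ', F τ') * (w - c • s) + 0).1 = (τ - c • τ') * s.1 + (n - n').1 := by
              rw [e2, add_zero]; rfl
            obtain ⟨v, hv, hv1⟩ := fine_max c1.proj (c3 ▸ c2)
              (Submodule.mem_sup_left (Submodule.mem_map_of_mem (f := LinearMap.fst k _ _) hs))
            have hv1' : v.1 = s.1 := hv1
            have := hβ1.deg (hβ1.low_of_mem (by rw [c3]; omega) hv (by rw [c3, hv1']; omega))
            rw [hv1'] at this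
            omega
          obtain ⟨g, hg'⟩ := D.cst _ hg
          have e5 : (τ, F τ) = c • (τ', F τ') + g • (1 : A × k) := by
            have : τ = c • τ' + g • 1 := by rw [← hg']; abel
            rw [this, hF', hF]
            ext <;> simp
          have hu : g • s + (n - n') ∈ G := add_mem (G.smul_mem g hs) (sub_mem hn hn')
          have e3 : (g • s + (n - n')).1 = ((τ', F τ') * (w - c • s) + 0).1 := by
            rw [add_zero, Prod.fst_add, Prod.fst_mul, ← e2, hg', smul_mul_assoc, one_mul,
              Prod.smul_fst]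
          have e4 : g • s + (n - n') = (τ', F τ') * (w - c • s) + 0 := by
            by_cases h0 : (w - c • s).1 = 0
            · rw [hG.inj hβG h0] at e3 ⊢
              rw [hG.inj hu (by rw [e3]; simp)]
              simp
            obtain ⟨Gβ, hβ1, -⟩ := hG.trunc hF hβG h0
            have c1 := (ChV.step τ' 0 hβ1 hτ' (zero_mem _))
            obtain ⟨Gu, hu1, -⟩ := hG.trunc hF hu (e3 ▸ c1.ne)
            have := hG.deg hu
            exact (ih (by omega) hu1 c1 e3).1
          rw [e5, add_mul, smul_mul_assoc, smul_mul_assoc, one_mul]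
          rw [mul_sub, mul_smul_comm, add_zero, eq_sub_iff_add_eq] at e4
          rw [← e4]
          abel
        exact ⟨main, by rw [main]⟩

theorem ChV.exists (D : Deg k A) (hF : ∀ (c : k) τ, F (c • τ) = c * F τ) :
    ∀ (m : ℕ) (r : A), D.d r < m → r ≠ 0 → ∃ G v, ChV D F G (r, v) := by
  intro m
  induction m with
  | zero => intros; omega
  | succ m ih =>
    intro r hm hr
    by_cases h1 : D.d r ≤ 1
    · obtain ⟨c, rfl⟩ := D.cst r h1
      exact ⟨_, _, ChV.base c (by rintro rfl; simp at hr)⟩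
    by_cases hi : Indec D r
    · have := ChV.step (F := F) r 0 (ChV.base 1 one_ne_zero) hi (zero_mem _)
      rw [one_smul, mul_one, add_zero] at this
      exact ⟨_, _, this⟩
    obtain ⟨N, hN⟩ : ∃ N : Submodule k A, Ch (fun σ => 2 ≤ D.d σ ∧ D.d σ < D.d r) N r := by
      by_contra h2
      exact hi ⟨by omega, h2⟩
    have key : ∀ (N : Submodule k A) p, Ch (fun σ => 2 ≤ D.d σ ∧ D.d σ < D.d r) N p →
        ∃ G v, ChV D F G (p, v) ∧ N ≤ G.map (LinearMap.fst k _ _) := by
      intro N p h
      induction h with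
      | base c hc =>
        refine ⟨_, _, ChV.base c hc, ?_⟩
        rw [Submodule.map_span, Set.image_singleton]
        exact le_rfl
      | @step N p τ n _ hτ hn ih2 =>
        obtain ⟨G, v, hG, hle⟩ := ih2
        obtain ⟨Gτ, vτ, hGτ⟩ := ih τ (by omega) (D.ne_zero (by omega))
        obtain ⟨G'', h1, h2, -⟩ := hG.mul hF hGτ
        obtain ⟨n', hn', rfl⟩ := hle hn
        have a1 := hG.sdeg hτ.1 hn' vτ
        have a2 := hG.sdeg hτ.1 G.zero_mem vτ
        rw [add_zero] at a2
        have h3 := h1.retop hF (add_mem h1.top_mem (h2 hn')) (by omega)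
        refine ⟨G'', _, h3, sup_le (hle.trans (Submodule.map_mono h2)) ?_⟩
        rw [Submodule.span_singleton_le_iff_mem]
        exact ⟨_, h3.top_mem, rfl⟩
    obtain ⟨G, v, h, -⟩ := key N r hN
    exact ⟨G, v, h⟩

/-- A brachymorphism with prescribed values on the indecomposable elements. -/
theorem exists_brachy (D : Deg k A) (F : A → k) (hF : ∀ (c : k) τ, F (c • τ) = c * F τ)
    (hF' : ∀ (c : k) τ, F (τ + c • 1) = F τ + c) :
    ∃ f : A → k, (∀ x, f (1 + x) = 1 + f x) ∧ (∀ x y, f (x * y) = f x * f y) ∧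
      ∀ τ, D.d τ = 2 → f τ = F τ := by
  classical
  have ex : ∀ r : A, ∃ v, (r = 0 → v = 0) ∧ (r ≠ 0 → ∃ G, ChV D F G (r, v)) := by
    intro r
    by_cases hr : r = 0
    · exact ⟨0, fun _ => rfl, fun h => absurd hr h⟩
    · obtain ⟨G, v, h⟩ := ChV.exists D hF _ r (Nat.lt_succ_self _) hr
      exact ⟨v, fun h => absurd h hr, fun _ => ⟨G, h⟩⟩
  choose f f0 f1 using ex
  have val : ∀ {G p}, ChV D F G p → f p.1 = p.2 := by
    intro G p h
    obtain ⟨G', h'⟩ := f1 p.1 h.ne
    exact congrArg Prod.snd (ChV.unique hF hF' _ (Nat.lt_succ_self _) h' h rfl).1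
  have fc : ∀ c : k, f (c • 1) = c := by
    intro c
    by_cases hc : c = 0
    · rw [hc, zero_smul, f0 0 rfl]
    · simpa using val (ChV.base c hc)
  refine ⟨f, fun x => ?_, fun x y => ?_, fun τ hτ => ?_⟩
  · by_cases h1 : D.d x ≤ 1
    · obtain ⟨c, rfl⟩ := D.cst x h1
      rw [fc, ← fc (1 + c), add_smul, one_smul]
    · obtain ⟨G, h⟩ := f1 x (D.ne_zero (by omega))
      refine val (h.retop hF (add_mem h.one_mem h.top_mem) ?_)
      show D.d (1 + x) = D.d x
      rw [add_comm, D.d_add_of_lt (by rw [D.d_one]; omega)]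
  · by_cases hx : x = 0
    · rw [hx, zero_mul, f0 0 rfl, zero_mul]
    by_cases hy : y = 0
    · rw [hy, mul_zero, f0 0 rfl, mul_zero]
    obtain ⟨G, h⟩ := f1 x hx
    obtain ⟨G', h'⟩ := f1 y hy
    obtain ⟨G'', h'', -⟩ := h'.mul hF h
    exact val h''
  · have hi : Indec D τ := by
      refine ⟨hτ.ge, ?_⟩
      rintro ⟨N, hN⟩
      cases hN with
      | base c hc => rw [D.d_smul hc, D.d_one] at hτ; omega
      | step σ n _ hσ _ => omega
    have := ChV.step (F := F) τ 0 (ChV.base 1 one_ne_zero) hi (zero_mem _)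
    rw [one_smul, mul_one, add_zero] at this
    exact val this

end Pool.Agent.H64.Brk
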