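import Pool.Agent.H64.BrodDefs

set_option autoImplicit false

namespace Pool.Agent.H64.Brod

/-- the relations of the infinite presentation -/
def Rel {G : Type} [Group G] (x : ℕ → G) : Prop :=
  ∀ i j, i < j → x j * x i = x i * x (j + 1)

/-- the separating class -/
def CF : GClass := fun G _ => ∀ x : ℕ → G, Rel x → x 1 = x 2

section
variable {G : Type} [Group G]

/-- the sequence generated by two elements -/
def sq (a b : G) : ℕ → G
  | 0 => a
  | n + 1 => (a ^ n)⁻¹ * b * a ^ n

theorem sq_shift (a b : G) (n : ℕ) : sq a b (n + 2) = a⁻¹ * sq a b (n + 1) * a := by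
  simp only [sq, pow_succ]; group

theorem rel_sq (a b : G) (h2 : sq a b 2 * sq a b 1 = sq a b 1 * sq a b 3)
    (h3 : sq a b 3 * sq a b 1 = sq a b 1 * sq a b 4) : Rel (sq a b) := by
  have sh : ∀ i j, sq a b (j + 1) * sq a b (i + 1) = sq a b (i + 1) * sq a b (j + 2) →
      sq a b (j + 2) * sq a b (i + 2) = sq a b (i + 2) * sq a b (j + 3) := by
    intro i j h
    rw [sq_shift a b j, sq_shift a b i, sq_shift a b (j + 1)]
    calc _ = a⁻¹ * (sq a b (j + 1) * sq a b (i + 1)) * a := by group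
      _ = _ := by rw [h]; group
  have adj : ∀ i, sq a b (i + 2) * sq a b (i + 1) = sq a b (i + 1) * sq a b (i + 3) := by
    intro i
    induction i with
    | zero => exact h2
    | succ i ih => exact sh i (i + 1) ih
  have one : ∀ j, sq a b (j + 2) * sq a b 1 = sq a b 1 * sq a b (j + 3) ∧
      sq a b (j + 3) * sq a b 1 = sq a b 1 * sq a b (j + 4) := by
    intro j
    induction j with
    | zero => exact ⟨h2, h3⟩
    | succ j ih =>
      refine ⟨ih.2, ?_⟩
      obtain ⟨i1, i2⟩ := ih
      have a1 := adj (j + 1)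
      have a2 := adj (j + 2)
      have e4 : sq a b (j + 4) = (sq a b (j + 2))⁻¹ * sq a b (j + 3) * sq a b (j + 2) := by
        rw [mul_assoc, a1]; group
      have e5 : sq a b (j + 5) = (sq a b (j + 3))⁻¹ * sq a b (j + 4) * sq a b (j + 3) := by
        rw [mul_assoc, a2]; group
      have f3 : sq a b (j + 3) = (sq a b 1)⁻¹ * sq a b (j + 2) * sq a b 1 := by
        rw [mul_assoc, i1]; group
      have f4 : sq a b (j + 4) = (sq a b 1)⁻¹ * sq a b (j + 3) * sq a b 1 := by
        rw [mul_assoc, i2]; group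
      change sq a b (j + 4) * sq a b 1 = sq a b 1 * sq a b (j + 5)
      generalize sq a b (j + 5) = u5 at *
      generalize sq a b (j + 4) = u4 at *
      generalize sq a b (j + 3) = u3 at *
      generalize sq a b (j + 2) = u2 at *
      generalize sq a b 1 = u1 at *
      calc u4 * u1 = u2⁻¹ * u3 * u2 * u1 := by rw [← e4]
        _ = u1 * ((u1⁻¹ * u2 * u1)⁻¹ * (u1⁻¹ * u3 * u1) * (u1⁻¹ * u2 * u1)) := by group
        _ = u1 * u5 := by rw [← f3, ← f4, ← e5]
  have all : ∀ i d, sq a b (i + d + 2) * sq a b (i + 1) = sq a b (i + 1) * sq a b (i + d + 3) := by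
    intro i d
    induction i with
    | zero => simpa using (one d).1
    | succ i ih =>
      have := sh i (i + d + 1) ih
      rw [show i + 1 + d + 2 = i + d + 1 + 2 by ring, show i + 1 + d + 3 = i + d + 1 + 3 by ring]
      exact this
  intro i j hij
  cases i with
  | zero =>
    obtain ⟨j, rfl⟩ : ∃ k, j = k + 1 := ⟨j - 1, by omega⟩
    rw [sq_shift]; simp [sq, mul_assoc]
  | succ i =>
    obtain ⟨d, rfl⟩ : ∃ d, j = i + d + 2 := ⟨j - i - 2, by omega⟩
    exact all i d

theorem Rel.eq_sq {x : ℕ → G} (h : Rel x) (n : ℕ) : x n = sq (x 0) (x 1) n := by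
  have : ∀ n, x (n + 1) = sq (x 0) (x 1) (n + 1) := by
    intro n
    induction n with
    | zero => simp [sq]
    | succ n ih =>
      rw [sq_shift, ← ih, mul_assoc, h 0 (n + 1) (by omega)]; group
  cases n with
  | zero => rfl
  | succ n => exact this n

theorem map_sq {H : Type} [Group H] (f : G →* H) (a b : G) (n : ℕ) :
    f (sq a b n) = sq (f a) (f b) n := by
  cases n <;> simp [sq]

theorem Rel.map {H : Type} [Group H] (f : G →* H) {x : ℕ → G} (h : Rel x) :
    Rel (fun n => f (x n)) := by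
  intro i j hij
  simp only [← map_mul, h i j hij]

theorem cf_of_inj {H : Type} [Group H] (f : G →* H) (hf : Function.Injective f) (h : CF H) :
    CF G := fun x hx => hf (h _ (hx.map f))

/-- partial products -/
def pp (x : ℕ → G) : ℕ → G
  | 0 => 1
  | n + 1 => pp x n * x (n + 1)

/-- the inner copy -/
def yy (x : ℕ → G) (n : ℕ) : G := pp x (n + 1) * x (n + 1) * (pp x (n + 2))⁻¹

theorem yy_pp {x : ℕ → G} (h : Rel x) (i d : ℕ) :
    yy x i * pp x (i + d + 2) = pp x (i + d + 1) * x (i + 1) := by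
  induction d with
  | zero => simp [yy]
  | succ d ih =>
    have e : pp x (i + (d + 1) + 2) = pp x (i + d + 2) * x (i + d + 3) := rfl
    have e' : pp x (i + (d + 1) + 1) = pp x (i + d + 1) * x (i + d + 2) := rfl
    rw [e, e', ← mul_assoc, ih, mul_assoc, mul_assoc, h (i + 1) (i + d + 2) (by omega)]

theorem rel_yy {x : ℕ → G} (h : Rel x) : Rel (yy x) := by
  intro i j hij
  obtain ⟨d, rfl⟩ : ∃ d, j = i + d := ⟨j - i, by omega⟩
  have k := yy_pp h i d
  have r1 := h (i + 1) (i + d + 1) (by omega)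
  have r2 := h (i + 1) (i + d + 2) (by omega)
  have e1 : yy x (i + d + 1) = pp x (i + d + 2) * x (i + d + 2) * (x (i + d + 3))⁻¹ *
      (pp x (i + d + 2))⁻¹ := by
    have : pp x (i + d + 1 + 2) = pp x (i + d + 2) * x (i + d + 3) := rfl
    rw [yy, this]; group
  have e2 : yy x (i + d) = pp x (i + d + 1) * x (i + d + 1) * (x (i + d + 2))⁻¹ *
      (pp x (i + d + 1))⁻¹ := by
    have : pp x (i + d + 2) = pp x (i + d + 1) * x (i + d + 2) := rfl
    rw [yy, this]; group
  have k' : yy x i = pp x (i + d + 1) * x (i + 1) * (pp x (i + d + 2))⁻¹ := by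
    rw [← k]; group
  change x (i + d + 1) * x (i + 1) = x (i + 1) * x (i + d + 2) at r1
  change x (i + d + 2) * x (i + 1) = x (i + 1) * x (i + d + 3) at r2
  rw [e1, e2, k']
  generalize pp x (i + d + 2) = P at *
  generalize pp x (i + d + 1) = Q at *
  generalize x (i + d + 3) = u3 at *
  generalize x (i + d + 2) = u2 at *
  generalize x (i + d + 1) = u1 at *
  generalize x (i + 1) = c at *
  have g3 : u3 = c⁻¹ * u2 * c := by rw [mul_assoc, r2]; group
  have g1 : u1 = c * u2 * c⁻¹ := by rw [← r1]; group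
  rw [g3, g1]; group

theorem extClosed_CF : ExtClosed CF := by
  intro G _ N _ hN hQ x hx
  have q := hx.map (QuotientGroup.mk' N)
  have q1 := hQ _ q
  have qn : ∀ n, QuotientGroup.mk' N (x (n + 1)) = QuotientGroup.mk' N (x (n + 2)) := by
    intro n
    induction n with
    | zero => exact q1
    | succ n ih =>
      have a1 := q 0 (n + 1) (by omega)
      have a2 := q 0 (n + 2) (by omega)
      simp only at a1 a2
      rw [ih, a2] at a1
      exact (mul_left_cancel a1).symm
  have hy : ∀ n, yy x n ∈ N := by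
    intro n
    rw [← QuotientGroup.eq_one_iff]
    have : pp x (n + 2) = pp x (n + 1) * x (n + 2) := rfl
    change QuotientGroup.mk' N (yy x n) = 1
    rw [yy, this, map_mul, map_mul, map_inv, map_mul, qn]; group
  have ry : Rel (fun n => (⟨yy x n, hy n⟩ : N)) := by
    intro i j hij
    exact Subtype.ext (rel_yy hx i j hij)
  have e : yy x 1 = yy x 2 := congrArg Subtype.val (hN _ ry)
  simp only [yy, pp] at e
  have r01 := hx 0 1 (by omega)
  have r02 := hx 0 2 (by omega)
  have r03 := hx 0 3 (by omega)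
  have r04 := hx 0 4 (by omega)
  have r23 := hx 2 3 (by omega)
  have r24 := hx 2 4 (by omega)
  norm_num at e r01 r02 r03 r04 r23 r24
  generalize x 0 = u0 at *
  generalize x 1 = u1 at *
  generalize x 2 = u2 at *
  generalize x 3 = u3 at *
  generalize x 4 = u4 at *
  generalize x 5 = u5 at *
  have e2 : u2 = u3 * u3 * u4⁻¹ := by
    calc u2 = (u1 * u2)⁻¹ * (u1 * u2 * u2 * (u3⁻¹ * (u2⁻¹ * u1⁻¹))) * (u1 * u2 * u3) := by group
      _ = _ := by rw [e]; group
  have g3 : u3 = u0⁻¹ * u2 * u0 := by rw [mul_assoc, r02]; group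
  have g4 : u4 = u0⁻¹ * u3 * u0 := by rw [mul_assoc, r03]; group
  have g5 : u5 = u0⁻¹ * u4 * u0 := by rw [mul_assoc, r04]; group
  have k4 : u4 = u2⁻¹ * u3 * u2 := by rw [mul_assoc, r23]; group
  have k5 : u5 = u2⁻¹ * u4 * u2 := by rw [mul_assoc, r24]; group
  have e3 : u3 = u4 * u4 * u5⁻¹ := by
    calc u3 = u0⁻¹ * u2 * u0 := g3
      _ = u0⁻¹ * (u3 * u3 * u4⁻¹) * u0 := by rw [← e2]
      _ = (u0⁻¹ * u3 * u0) * (u0⁻¹ * u3 * u0) * (u0⁻¹ * u4 * u0)⁻¹ := by group
      _ = _ := by rw [← g4, ← g5]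
  have e4 : u2 = u4 * u4 * u5⁻¹ := by
    calc u2 = u2⁻¹ * u2 * u2 := by group
      _ = u2⁻¹ * (u3 * u3 * u4⁻¹) * u2 := by rw [← e2]
      _ = (u2⁻¹ * u3 * u2) * (u2⁻¹ * u3 * u2) * (u2⁻¹ * u4 * u2)⁻¹ := by group
      _ = _ := by rw [← k4, ← k5]
  have e23 : u2 = u3 := e4.trans e3.symm
  rw [← e23] at r02
  rw [← r02] at r01
  exact mul_right_cancel r01

end

theorem CF_int : CF (Multiplicative ℤ) := by
  intro x hx
  have := hx 0 1 (by omega)
  rw [mul_comm] at this
  exact mul_left_cancel this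

theorem quasi_CF : IsQuasivariety CF where
  triv := fun _ _ => rfl
  iso := fun G H _ _ ⟨e⟩ h => cf_of_inj e.symm.toMonoidHom e.symm.injective h
  sub := fun G _ H h => cf_of_inj H.subtype H.subtype_injective h
  prod := fun ι G _ h x hx => funext fun i => h i _ (hx.map (Pi.evalMonoidHom G i))
  ultra := by
    intro ι U G _ h x hx
    obtain ⟨a, ha⟩ := QuotientGroup.mk'_surjective (nullSub U G) (x 0)
    obtain ⟨b, hb⟩ := QuotientGroup.mk'_surjective (nullSub U G) (x 1)
    have hs : ∀ n, x n = QuotientGroup.mk' (nullSub U G) (sq a b n) := by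
      intro n; rw [map_sq, ha, hb, hx.eq_sq n]
    have key : ∀ u v : ∀ i, G i, QuotientGroup.mk' (nullSub U G) u =
        QuotientGroup.mk' (nullSub U G) v ↔ ∀ᶠ i in (U : Filter ι), u i = v i := by
      intro u v
      rw [QuotientGroup.mk'_apply, QuotientGroup.mk'_apply, QuotientGroup.eq]
      change (∀ᶠ i in (U : Filter ι), (u⁻¹ * v) i = 1) ↔ _
      simp [inv_mul_eq_one]
    have r2 := hx 1 2 (by omega)
    have r3 := hx 1 3 (by omega)
    simp only [hs, ← map_mul] at r2 r3
    rw [key] at r2 r3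
    rw [hs, hs, key]
    filter_upwards [r2, r3] with i h2 h3
    have ev : ∀ n, sq a b n i = sq (a i) (b i) n := fun n =>
      map_sq (Pi.evalMonoidHom G i) a b n
    simp only [Pi.mul_apply, ev] at h2 h3 ⊢
    exact h i _ (rel_sq _ _ h2 h3)

end Pool.Agent.H64.Brod
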