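import Pool.Agent.H64.Brod1

set_option autoImplicit false

open Filter Topology Set

namespace Pool.Agent.H64.Brod

/-- right-affine with slope a power of two -/
def Aff (g : ℝ ≃o ℝ) (t : ℝ) (k : ℤ) : Prop :=
  ∀ᶠ s in 𝓝[>] t, g s = g t + (2 : ℝ) ^ k * (s - t)

theorem tend (g : ℝ ≃o ℝ) (t : ℝ) : Tendsto g (𝓝[>] t) (𝓝[>] (g t)) := by
  apply tendsto_nhdsWithin_iff.2
  refine ⟨(g.continuous.tendsto t).mono_left nhdsWithin_le_nhds, ?_⟩
  filter_upwards [self_mem_nhdsWithin] with s hs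
  exact g.lt_iff_lt.2 hs

theorem Aff.mul {g h : ℝ ≃o ℝ} {t : ℝ} {k l : ℤ} (hh : Aff h t l) (hg : Aff g (h t) k) :
    Aff (g * h) t (k + l) := by
  have := (tend h t).eventually hg
  filter_upwards [this, hh] with s h1 h2
  change g (h s) = g (h t) + _
  rw [h1, h2, zpow_add₀ (by norm_num : (2 : ℝ) ≠ 0)]; ring

theorem Aff.inv {g : ℝ ≃o ℝ} {t : ℝ} {k : ℤ} (hg : Aff g (g⁻¹ t) k) : Aff g⁻¹ t (-k) := by
  have := (tend g⁻¹ t).eventually hg
  filter_upwards [this] with s h1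
  have e1 : g (g⁻¹ s) = s := g.apply_symm_apply s
  have e2 : g (g⁻¹ t) = t := g.apply_symm_apply t
  rw [e1, e2] at h1
  have h2 : (2 : ℝ) ^ k ≠ 0 := zpow_ne_zero _ (by norm_num)
  rw [zpow_neg, h1]
  have e3 : g⁻¹ (t + 2 ^ k * (g⁻¹ s - g⁻¹ t)) = g⁻¹ s := by rw [← h1]
  rw [e3]
  field_simp
  ring

theorem Aff.unique {g : ℝ ≃o ℝ} {t : ℝ} {k l : ℤ} (h1 : Aff g t k) (h2 : Aff g t l) : k = l := by
  obtain ⟨s, ⟨e1, e2⟩, hs⟩ := ((h1.and h2).and self_mem_nhdsWithin).exists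
  have hs' : s - t ≠ 0 := sub_ne_zero.2 (ne_of_gt hs)
  have : (2 : ℝ) ^ k = 2 ^ l := by
    apply mul_right_cancel₀ hs'
    linarith
  exact zpow_right_injective₀ (by norm_num) (by norm_num) this

/-- the ambient group of piecewise affine maps -/
def LL : Subgroup (ℝ ≃o ℝ) where
  carrier := {g | (∀ t, t ≤ 0 → g t = t) ∧ ∀ t, ∃ k, Aff g t k}
  one_mem' := ⟨fun _ _ => rfl, fun t => ⟨0, Eventually.of_forall fun s => by simp⟩⟩
  mul_mem' := fun {a b} ha hb => ⟨fun t ht => by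
      change a (b t) = t
      rw [hb.1 t ht, ha.1 t ht], fun t => by
      obtain ⟨l, hl⟩ := hb.2 t
      obtain ⟨k, hk⟩ := ha.2 (b t)
      exact ⟨_, hl.mul hk⟩⟩
  inv_mem' := fun {a} ha => ⟨fun t ht => by
      change a.symm t = t
      rw [OrderIso.symm_apply_eq, ha.1 t ht], fun t => by
      obtain ⟨k, hk⟩ := ha.2 (a⁻¹ t)
      exact ⟨_, hk.inv⟩⟩

theorem surj_of_ne {H : Type} [Group H] (χ : H →* Multiplicative ℤ) (h : ∃ x, χ x ≠ 1) :
    ∃ φ : H →* Multiplicative ℤ, Function.Surjective φ := by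
  obtain ⟨x, hx⟩ := h
  let S : AddSubgroup ℤ := χ.range.toAddSubgroup'
  obtain ⟨d, hd⟩ := Int.subgroup_cyclic S
  have mem : ∀ y, ∃ n : ℤ, n * d = (χ y).toAdd := by
    intro y
    have : (χ y).toAdd ∈ S := ⟨y, rfl⟩
    rw [hd, AddSubgroup.mem_closure_singleton] at this
    simpa using this
  have hd0 : d ≠ 0 := by
    rintro rfl
    obtain ⟨n, hn⟩ := mem x
    apply hx
    have : (χ x).toAdd = 0 := by rw [← hn]; simp
    exact this
  choose c hc using mem
  refine ⟨⟨⟨fun y => Multiplicative.ofAdd (c y), ?_⟩, ?_⟩, ?_⟩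
  · have := hc 1
    simp only [map_one, toAdd_one, mul_eq_zero, hd0, or_false] at this
    simp [this]
  · intro a b
    have : c (a * b) = c a + c b := by
      apply mul_right_cancel₀ hd0
      rw [hc, add_mul, hc, hc, map_mul, toAdd_mul]
    simp [this, ofAdd_add]
  · intro n
    have : n.toAdd * d ∈ S := by
      rw [hd, AddSubgroup.mem_closure_singleton]; exact ⟨n.toAdd, by simp⟩
    obtain ⟨y, hy⟩ := this
    refine ⟨y, ?_⟩
    have h2 := hc y
    rw [hy] at h2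
    have : c y = n.toAdd := mul_right_cancel₀ hd0 h2
    simp [this]

theorem li_LL : LocallyIndicable LL := by
  intro H hH hne
  obtain ⟨S, hS⟩ := hH
  let A : Set ℝ := {t | ∀ g ∈ H, ∀ s, s ≤ t → (g : ℝ ≃o ℝ) s = s}
  have A0 : (0 : ℝ) ∈ A := fun g _ s hs => g.2.1 s hs
  have Abd : BddAbove A := by
    obtain ⟨⟨g, hg⟩, hg1⟩ := (Subgroup.ne_bot_iff_exists_ne_one).1 hne
    by_contra hb
    apply hg1
    ext s
    obtain ⟨t, ht, hst⟩ := not_bddAbove_iff.1 hb s
    exact ht g hg s hst.le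
  set a := sSup A with ha
  have below : ∀ g ∈ H, ∀ s, s < a → (g : ℝ ≃o ℝ) s = s := by
    intro g hg s hs
    obtain ⟨t, ht, hst⟩ := exists_lt_of_lt_csSup ⟨0, A0⟩ hs
    exact ht g hg s hst.le
  have ge : ∀ g ∈ H, a ≤ (g : ℝ ≃o ℝ) a := by
    intro g hg
    apply le_of_forall_lt
    intro s hs
    rw [← below g hg s hs]
    exact (g : ℝ ≃o ℝ).lt_iff_lt.2 hs
  have fix : ∀ g ∈ H, (g : ℝ ≃o ℝ) a = a := by
    intro g hg
    refine le_antisymm ?_ (ge g hg)
    have h1 := ge g⁻¹ (H.inv_mem hg)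
    have h2 := (g : ℝ ≃o ℝ).le_iff_le.2 h1
    have e : (g : ℝ ≃o ℝ) (((g⁻¹ : LL) : ℝ ≃o ℝ) a) = a := (g : ℝ ≃o ℝ).apply_symm_apply a
    rwa [e] at h2
  choose k hk using fun g : H => g.1.2.2 a
  let χ : H →* Multiplicative ℤ := MonoidHom.mk' (fun g => Multiplicative.ofAdd (k g)) (by
    intro g h
    have h1 := hk g
    rw [← fix h.1 h.2] at h1
    have := (hk (g * h)).unique ((hk h).mul h1)
    simp [this, ofAdd_add])
  apply surj_of_ne χ
  by_contra hc
  push Not at hc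
  have ev : ∀ g ∈ S, ∀ᶠ s in 𝓝[>] a, (g : ℝ ≃o ℝ) s = s := by
    intro g hg
    have hgH : g ∈ H := hS ▸ Subgroup.subset_closure hg
    have h1 := hk ⟨g, hgH⟩
    have h2 : k ⟨g, hgH⟩ = 0 := hc ⟨g, hgH⟩
    rw [h2] at h1
    filter_upwards [h1] with s hs
    change (g : ℝ ≃o ℝ) s = (g : ℝ ≃o ℝ) a + _ at hs
    rw [hs, fix g hgH]; simp
  have ev2 := (eventually_all_finset S).2 ev
  obtain ⟨b, hab, hb⟩ := mem_nhdsGT_iff_exists_Ioc_subset.1 ev2
  have hbA : b ∈ A := by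
    intro g hg s hs
    rw [← hS] at hg
    induction hg using Subgroup.closure_induction with
    | mem g hg =>
      have hgH : g ∈ H := hS ▸ Subgroup.subset_closure hg
      rcases lt_trichotomy s a with h | h | h
      · exact below g hgH s h
      · rw [h]; exact fix g hgH
      · exact hb ⟨h, hs⟩ g hg
    | one => rfl
    | mul g h _ _ h1 h2 =>
      change (g : ℝ ≃o ℝ) ((h : ℝ ≃o ℝ) s) = s
      rw [h2, h1]
    | inv g _ h1 =>
      change (g : ℝ ≃o ℝ).symm s = s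
      rw [OrderIso.symm_apply_eq, h1]
  exact absurd (le_csSup Abd hbA) (not_le.2 hab)

/-- generators as functions -/
noncomputable def xf (n : ℕ) (t : ℝ) : ℝ := t + max 0 (min 1 (t - n))

theorem xf_mono (n : ℕ) : StrictMono (xf n) := by
  intro s t h
  have : max 0 (min 1 (s - n)) ≤ max 0 (min (1 : ℝ) (t - n)) := by gcongr
  unfold xf; linarith

theorem xf_lo (n : ℕ) (t : ℝ) (h : t ≤ n) : xf n t = t := by
  unfold xf
  rw [max_eq_left (min_le_of_right_le (by linarith))]; simp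

theorem xf_mid (n : ℕ) (t : ℝ) (h : (n : ℝ) ≤ t) (h' : t ≤ n + 1) : xf n t = 2 * t - n := by
  unfold xf
  rw [min_eq_right (by linarith), max_eq_right (by linarith)]; ring

theorem xf_hi (n : ℕ) (t : ℝ) (h : (n : ℝ) + 1 ≤ t) : xf n t = t + 1 := by
  unfold xf
  rw [min_eq_left (by linarith), max_eq_right (by linarith)]

theorem xf_surj (n : ℕ) : Function.Surjective (xf n) := by
  intro s
  rcases le_total s n with h | h
  · exact ⟨s, xf_lo n s h⟩
  rcases le_total s (n + 2) with h' | h'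
  · exact ⟨(s + n) / 2, by rw [xf_mid n _ (by linarith) (by linarith)]; ring⟩
  · exact ⟨s - 1, by rw [xf_hi n _ (by linarith)]; ring⟩

/-- generators -/
noncomputable def xo (n : ℕ) : ℝ ≃o ℝ := (xf_mono n).orderIsoOfSurjective (xf n) (xf_surj n)

theorem xo_apply (n : ℕ) (t : ℝ) : xo n t = xf n t := rfl

theorem xo_mem (n : ℕ) : xo n ∈ LL := by
  refine ⟨fun t ht => xf_lo n t (ht.trans (Nat.cast_nonneg n)), fun t => ?_⟩
  rcases lt_or_ge t n with h | h
  · refine ⟨0, ?_⟩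
    filter_upwards [Ioo_mem_nhdsGT h] with s hs
    rw [xo_apply, xo_apply, xf_lo n s hs.2.le, xf_lo n t h.le]; simp
  rcases lt_or_ge t (n + 1) with h' | h'
  · refine ⟨1, ?_⟩
    filter_upwards [Ioo_mem_nhdsGT h'] with s hs
    rw [xo_apply, xo_apply, xf_mid n s (h.trans hs.1.le) hs.2.le, xf_mid n t h h'.le]
    simp; ring
  · refine ⟨0, ?_⟩
    filter_upwards [self_mem_nhdsWithin] with s hs
    rw [xo_apply, xo_apply, xf_hi n s (h'.trans (le_of_lt hs)), xf_hi n t h']; simp; ring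

theorem xo_rel (i j : ℕ) (hij : i < j) : xo i * xo j = xo (j + 1) * xo i := by
  ext t
  change xf i (xf j t) = xf (j + 1) (xf i t)
  have hc : (i : ℝ) + 1 ≤ j := by exact_mod_cast hij
  rcases le_total t j with h | h
  · rw [xf_lo j t h, xf_lo (j + 1)]
    have : max 0 (min 1 (t - i)) ≤ (1 : ℝ) := max_le (by norm_num) (min_le_left _ _)
    unfold xf; push_cast; linarith
  · have h1 : t ≤ xf j t := by
      unfold xf; linarith [le_max_left 0 (min 1 (t - j))]
    rw [xf_hi i _ (by linarith), xf_hi i t (by linarith)]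
    unfold xf; push_cast
    rw [show t + 1 - (j + 1) = t - j by ring]; ring

theorem not_CF_LL : ¬ CF LL := by
  intro h
  have := h (fun n => (⟨xo n, xo_mem n⟩ : LL)⁻¹) (by
    intro i j hij
    rw [← mul_inv_rev, ← mul_inv_rev]
    congr 1
    exact Subtype.ext (xo_rel i j hij))
  have e : xo 1 = xo 2 := congrArg Subtype.val (inv_injective this)
  have e2 : xf 1 2 = xf 2 2 := by rw [← xo_apply, e, xo_apply]
  rw [xf_hi 1 2 (by norm_num), xf_lo 2 2 (by norm_num)] at e2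
  norm_num at e2

theorem main : ∃ (G : Type) (_ : Group G), LocallyIndicable G ∧ ¬ InQtilde G :=
  ⟨LL, inferInstance, li_LL, fun h => not_CF_LL (h CF quasi_CF extClosed_CF CF_int)⟩

end Pool.Agent.H64.Brod
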