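import Mathlib

set_option autoImplicit false

namespace Pool.Agent.H64.Brod

/-- A class of groups. -/
def GClass : Type 1 := ∀ (G : Type) [Group G], Prop

/-- The elements of the direct product that are trivial at almost every index. -/
def nullSub {ι : Type} (U : Ultrafilter ι) (G : ι → Type) [∀ i, Group (G i)] :
    Subgroup (∀ i, G i) where
  carrier := {g | ∀ᶠ i in (U : Filter ι), g i = 1}
  one_mem' := Filter.Eventually.of_forall fun _ => rfl
  mul_mem' := fun {a b} ha hb => by
    filter_upwards [ha, hb] with i h1 h2
    simp [h1, h2]
  inv_mem' := fun {a} ha => by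
    filter_upwards [ha] with i h1
    simp [h1]

instance nullSub_normal {ι : Type} (U : Ultrafilter ι) (G : ι → Type) [∀ i, Group (G i)] :
    (nullSub U G).Normal where
  conj_mem := fun n hn g => by
    filter_upwards [hn] with i h1
    simp [h1]

/-- Quasivariety: contains the trivial group, closed under isomorphism, subgroups,
direct products and ultraproducts. -/
structure IsQuasivariety (C : GClass) : Prop where
  triv : C Unit
  iso : ∀ (G H : Type) [Group G] [Group H], Nonempty (G ≃* H) → C G → C H
  sub : ∀ (G : Type) [Group G] (H : Subgroup G), C G → C H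
  prod : ∀ (ι : Type) (G : ι → Type) [∀ i, Group (G i)], (∀ i, C (G i)) → C (∀ i, G i)
  ultra : ∀ (ι : Type) (U : Ultrafilter ι) (G : ι → Type) [∀ i, Group (G i)],
    (∀ i, C (G i)) → C ((∀ i, G i) ⧸ nullSub U G)

/-- Closure under extensions. -/
def ExtClosed (C : GClass) : Prop :=
  ∀ (G : Type) [Group G] (N : Subgroup G) [N.Normal], C N → C (G ⧸ N) → C G

/-- Membership in the smallest extension-closed quasivariety containing the integers. -/
def InQtilde (G : Type) [Group G] : Prop :=
  ∀ C : GClass, IsQuasivariety C → ExtClosed C → C (Multiplicative ℤ) → C G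

/-- Locally indicable groups. -/
def LocallyIndicable (G : Type) [Group G] : Prop :=
  ∀ H : Subgroup G, H.FG → H ≠ ⊥ → ∃ φ : H →* Multiplicative ℤ, Function.Surjective φ

end Pool.Agent.H64.Brod
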