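import Pool.Agent.H64.McLain

set_option autoImplicit false

open scoped commutatorElement Pointwise
open Polynomial

namespace Pool.Agent.H64.CentExt

open Pool.Agent.H64.McLain (UU)

/-- an element survives in a nilpotent image -/
def Det {E : Type} [Group E] (g : E) : Prop :=
  ∃ (H : Type) (_ : Group H) (φ : E →* H), Group.IsNilpotent H ∧ φ g ≠ 1

theorem Det.of_map {E E' : Type} [Group E] [Group E'] (f : E →* E') {g : E} (h : Det (f g)) :
    Det g := by
  obtain ⟨H, _, φ, h1, h2⟩ := h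
  exact ⟨H, inferInstance, φ.comp f, h1, h2⟩

theorem det_of_not_mem {E : Type} [Group E] {g : E} {n : ℕ}
    (h : g ∉ (⊤ : Subgroup E).lowerCentralSeries n) : Det g := by
  refine ⟨E ⧸ (⊤ : Subgroup E).lowerCentralSeries n, inferInstance, QuotientGroup.mk' _, ?_, ?_⟩
  · rw [Subgroup.nilpotent_iff_lowerCentralSeries]
    refine ⟨n, ?_⟩
    have := (⊤ : Subgroup E).map_lowerCentralSeries
      (QuotientGroup.mk' ((⊤ : Subgroup E).lowerCentralSeries n)) n
    rw [Subgroup.map_top_of_surjective _ (QuotientGroup.mk'_surjective _)] at this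
    rw [← this, Subgroup.map_eq_bot_iff, QuotientGroup.ker_mk']
  · intro e
    exact h ((QuotientGroup.eq_one_iff _).1 e)

section filt
variable {R : Type*} [Ring R] (A : ℕ → AddSubgroup R)
  (hmul : ∀ k l a b, a ∈ A k → b ∈ A l → a * b ∈ A (k + l))
  (hanti : ∀ k l, k ≤ l → A l ≤ A k) (hone : (1 : R) ∈ A 0)

include hone in
theorem UU_comm' (k l : ℕ) (g h : Rˣ) (hg : g ∈ UU A hmul hanti k)
    (hh : h ∈ UU A hmul hanti l) : ⁅g, h⁆ ∈ UU A hmul hanti (k + l) := by
  have key : ∀ k l, ∀ g h : Rˣ, g ∈ UU A hmul hanti k → h ∈ UU A hmul hanti l →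
      ((⁅g, h⁆ : Rˣ) : R) - 1 ∈ A (k + l) := by
    intro k l g h hg hh
    have z : ∀ k, ∀ u : Rˣ, (u : R) - 1 ∈ A k → (u : R) ∈ A 0 := by
      intro k u hu
      have := add_mem (hanti 0 k (by omega) hu) hone
      simpa using this
    have e : ((⁅g, h⁆ : Rˣ) : R) - 1 = (((g : R) - 1) * ((h : R) - 1) - ((h : R) - 1) * ((g : R) - 1))
        * ((g⁻¹ : Rˣ) : R) * ((h⁻¹ : Rˣ) : R) := by
      have : ((g : R) - 1) * ((h : R) - 1) - ((h : R) - 1) * ((g : R) - 1) = g * h - h * g := by
        noncomm_ring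
      rw [this, commutatorElement_def]
      simp [sub_mul, mul_assoc]
    rw [e]
    have h1 := sub_mem (hmul _ _ _ _ hg.1 hh.1) (add_comm k l ▸ hmul _ _ _ _ hh.1 hg.1)
    exact hmul (k + l) 0 _ _ (hmul (k + l) 0 _ _ h1 (z _ _ hg.2)) (z _ _ hh.2)
  refine ⟨key k l g h hg hh, ?_⟩
  rw [commutatorElement_inv, add_comm]
  exact key l k h g hh hg

end filt

/-- coefficients -/
abbrev R := (ZMod 3)[X]
/-- vectors -/
abbrev V := R × R
/-- operators -/
abbrev En := Module.End R V

/-- the congruence filtration -/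
def AA (k : ℕ) : AddSubgroup En where
  carrier := {m | ∃ m' : En, m = (X ^ k : R) • m'}
  zero_mem' := ⟨0, by simp⟩
  add_mem' := fun ⟨a, ha⟩ ⟨b, hb⟩ => ⟨a + b, by rw [ha, hb, smul_add]⟩
  neg_mem' := fun ⟨a, ha⟩ => ⟨-a, by rw [ha, smul_neg]⟩

theorem AA_mul (k l : ℕ) (a b : En) (ha : a ∈ AA k) (hb : b ∈ AA l) : a * b ∈ AA (k + l) := by
  obtain ⟨a, rfl⟩ := ha
  obtain ⟨b, rfl⟩ := hb
  exact ⟨a * b, by rw [smul_mul_smul_comm, pow_add]⟩

theorem AA_anti (k l : ℕ) (h : k ≤ l) : AA l ≤ AA k := by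
  rintro _ ⟨a, rfl⟩
  exact ⟨(X ^ (l - k) : R) • a, by rw [smul_smul, ← pow_add, Nat.add_sub_cancel' h]⟩

theorem AA_one : (1 : En) ∈ AA 0 := ⟨1, by simp⟩

theorem AA_inter (m : En) (h : ∀ k, m ∈ AA k) : m = 0 := by
  have z : ∀ p : R, (∀ k, X ^ k ∣ p) → p = 0 := by
    intro p hp
    ext d
    exact X_pow_dvd_iff.1 (hp (d + 1)) d (by omega)
  refine LinearMap.ext fun v => Prod.ext (z _ fun k => ?_) (z _ fun k => ?_)
  · obtain ⟨m', rfl⟩ := h k; simp
  · obtain ⟨m', rfl⟩ := h k; simp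

/-- congruence subgroups -/
noncomputable def U (k : ℕ) : Subgroup Enˣ := UU AA AA_mul AA_anti k

theorem det_of_rep {G : Type} [Group G] (θ : G →* Enˣ) (hθ : ∀ g, θ g ∈ U 1) (g : G)
    (hg : θ g ≠ 1) : Det g := by
  have key : ∀ n, ∀ g ∈ (⊤ : Subgroup G).lowerCentralSeries n, θ g ∈ U (n + 1) := by
    intro n
    induction n with
    | zero => exact fun g _ => hθ g
    | succ n ih =>
      change (⊤ : Subgroup G).lowerCentralSeries (n + 1) ≤ (U (n + 1 + 1)).comap θ
      rw [Subgroup.lowerCentralSeries_succ, Subgroup.commutator_le]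
      intro a ha b _
      rw [Subgroup.mem_comap, map_commutatorElement]
      exact UU_comm' _ _ _ AA_one _ _ _ _ (ih a ha) (hθ b)
  by_contra hc
  apply hg
  ext1
  refine sub_eq_zero.1 (AA_inter _ fun k => ?_)
  by_contra h2
  apply hc
  apply det_of_not_mem (n := k)
  intro h3
  exact h2 (AA_anti k (k + 1) (by omega) (key k g h3).1)

/-- nilpotent parts -/
noncomputable def Na : En := (X : R) • (LinearMap.inl R R R ∘ₗ LinearMap.snd R R R)
/-- nilpotent parts -/
noncomputable def Nb : En := (X : R) • (LinearMap.inr R R R ∘ₗ LinearMap.fst R R R)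

theorem Na_sq : Na * Na = 0 := by
  refine LinearMap.ext fun v => ?_
  simp [Na]

theorem Nb_sq : Nb * Nb = 0 := by
  refine LinearMap.ext fun v => ?_
  simp [Nb]

/-- unit attached to a square-zero element -/
noncomputable def un (N : En) (h : N * N = 0) : Enˣ where
  val := 1 + N
  inv := 1 - N
  val_inv := by simp [add_mul, mul_sub, h]
  inv_val := by simp [sub_mul, mul_add, h]

theorem three (N : En) : N + N + N = 0 := by
  have : (3 : R) = 0 := by
    have : ((3 : ℕ) : R) = 0 := CharP.cast_eq_zero R 3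
    simpa using this
  calc N + N + N = (3 : R) • N := by module
    _ = 0 := by rw [this, zero_smul]

theorem un_sq (N : En) (h : N * N = 0) : un N h * un N h = (un N h)⁻¹ := by
  ext1
  change (1 + N) * (1 + N) = 1 - N
  have := three N
  rw [add_mul, mul_add, mul_add, h]
  simp only [one_mul, mul_one, add_zero]
  rw [eq_sub_iff_add_eq, add_assoc, add_assoc, ← add_assoc N, this, add_zero]

theorem un_mem (M : En) (h : ((X : R) • M) * ((X : R) • M) = 0) : un _ h ∈ U 1 :=
  ⟨⟨M, by simp [un]⟩, ⟨-M, by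
    change (1 - (X : R) • M) - 1 = _
    simp⟩⟩

/-- first matrix -/
noncomputable def A : Enˣ := un Na Na_sq
/-- second matrix -/
noncomputable def B : Enˣ := un Nb Nb_sq

/-- ping-pong sets -/
def Xa : Set V := {v | v.2.degree < v.1.degree}
/-- ping-pong sets -/
def Xb : Set V := {v | v.1.degree < v.2.degree}

theorem deg_lt {p q : R} (h : p.degree < q.degree) :
    q.degree < (p + X * q).degree ∧ q.degree < (p - X * q).degree := by
  have hq : q ≠ 0 := by rintro rfl; simp at h
  have h1 : q.degree < (X * q).degree := by rw [mul_comm]; exact degree_lt_degree_mul_X hq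
  rw [degree_add_eq_right_of_degree_lt (h.trans h1), degree_sub_eq_right_of_degree_lt (h.trans h1)]
  exact ⟨h1, h1⟩

theorem A_pp (v : V) (hv : v ∈ Xb) : A • v ∈ Xa ∧ A⁻¹ • v ∈ Xa := by
  have := deg_lt hv
  constructor
  · change ((1 + Na) v).2.degree < ((1 + Na) v).1.degree
    simpa [Na] using this.1
  · change ((1 - Na) v).2.degree < ((1 - Na) v).1.degree
    simpa [Na] using this.2

theorem B_pp (v : V) (hv : v ∈ Xa) : B • v ∈ Xb ∧ B⁻¹ • v ∈ Xb := by
  have := deg_lt hv
  constructor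
  · change ((1 + Nb) v).1.degree < ((1 + Nb) v).2.degree
    simpa [Nb] using this.1
  · change ((1 - Nb) v).1.degree < ((1 - Nb) v).2.degree
    simpa [Nb] using this.2

theorem pp_pow (a b : Enˣ) (ha : ∀ v ∈ Xb, a • v ∈ Xa) (hb : ∀ v ∈ Xa, b • v ∈ Xb)
    (hb2 : ∀ v ∈ Xa, (b * b) • v ∈ Xb) (n : ℕ) (v : V) (hv : v ∈ Xa) :
    (b * a * b) ^ (n + 1) • v ∈ Xb := by
  have : ∃ w ∈ Xa, (b * a * b) ^ (n + 1) • v = b • w := by
    induction n with
    | zero => exact ⟨a • b • v, ha _ (hb _ hv), by simp [mul_smul]⟩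
    | succ n ih =>
      obtain ⟨w, hw, e⟩ := ih
      refine ⟨a • (b * b) • w, ha _ (hb2 _ hw), ?_⟩
      rw [pow_succ', mul_smul, e]
      simp [mul_smul]
  obtain ⟨w, hw, e⟩ := this
  rw [e]; exact hb w hw

theorem T_pp (n : ℤ) (hn : n ≠ 0) (v : V) (hv : v ∈ Xa) : (B * A * B) ^ n • v ∈ Xb := by
  have hB : B * B = B⁻¹ := un_sq _ _
  rcases Int.eq_nat_or_neg n with ⟨m, rfl | rfl⟩
  · obtain ⟨m, rfl⟩ : ∃ k, m = k + 1 := ⟨m - 1, by omega⟩
    rw [zpow_natCast]
    exact pp_pow A B (fun v hv => (A_pp v hv).1) (fun v hv => (B_pp v hv).1)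
      (fun v hv => hB ▸ (B_pp v hv).2) m v hv
  · obtain ⟨m, rfl⟩ : ∃ k, m = k + 1 := ⟨m - 1, by omega⟩
    rw [zpow_neg, zpow_natCast, ← inv_pow, mul_inv_rev, mul_inv_rev, ← mul_assoc]
    refine pp_pow A⁻¹ B⁻¹ (fun v hv => (A_pp v hv).2) (fun v hv => (B_pp v hv).2)
      (fun v hv => ?_) m v hv
    rw [← mul_inv_rev, hB, inv_inv]
    exact (B_pp v hv).1

theorem A_cube : A ^ 3 = 1 := by
  have : A * A = A⁻¹ := un_sq _ _
  rw [pow_succ, pow_two, this, inv_mul_cancel]

theorem pingpong {Q : Type} [Group Q] (q : Bool → Q) (hq : Subgroup.closure (Set.range q) = ⊤)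
    (h3 : q true ^ 3 = 1) (θ : Q →* Enˣ) (h1 : θ (q true) = A) (h2 : θ (q false) = B * A * B) :
    Function.Injective θ := by
  let j := Monoid.CoprodI.lift (fun i => (Subgroup.zpowers (q i)).subtype)
  have hj : Function.Surjective j := by
    rw [← MonoidHom.range_eq_top, eq_top_iff, ← hq, Subgroup.closure_le]
    rintro _ ⟨i, rfl⟩
    exact ⟨Monoid.CoprodI.of (i := i) ⟨q i, Subgroup.mem_zpowers _⟩, by simp [j]⟩
  have hc : θ.comp j = Monoid.CoprodI.lift (fun i => θ.comp (Subgroup.zpowers (q i)).subtype) := by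
    apply Monoid.CoprodI.ext_hom
    intro i
    ext1 x
    simp [j]
  have disj : Disjoint Xa Xb := by
    rw [Set.disjoint_left]
    intro v h1 h2
    exact lt_asymm (show v.2.degree < v.1.degree from h1) (show v.1.degree < v.2.degree from h2)
  have na : ((1, 0) : V) ∈ Xa := by simp [Xa]
  have nb : ((0, 1) : V) ∈ Xb := by simp [Xb]
  have hinj : Function.Injective (θ.comp j) := by
    rw [hc]
    refine Monoid.CoprodI.lift_injective_of_ping_pong _ (Or.inr ⟨false, ?_⟩)
      (fun i => cond i Xa Xb) ?_ ?_ ?_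
    · have : Infinite (Subgroup.zpowers (q false)) := by
        refine Set.Infinite.to_subtype (s := (Subgroup.zpowers (q false) : Set Q)) ?_
        rw [infinite_zpowers]
        intro hf
        obtain ⟨n, hn, e⟩ := isOfFinOrder_iff_pow_eq_one.1 hf
        have := T_pp n (by omega) _ na
        rw [zpow_natCast, ← h2, ← map_pow, e, map_one, one_smul] at this
        exact Set.disjoint_left.1 disj na this
      exact (Cardinal.natCast_le_aleph0 (n := 3)).trans (Cardinal.aleph0_le_mk _)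
    · intro i; cases i
      · exact ⟨_, nb⟩
      · exact ⟨_, na⟩
    · intro i k hik
      cases i <;> cases k
      · exact absurd rfl hik
      · exact disj.symm
      · exact disj
      · exact absurd rfl hik
    · intro i k hik
      cases i <;> cases k
      · exact absurd rfl hik
      · rintro ⟨_, n, rfl⟩ hne _ ⟨v, hv, rfl⟩
        have hn : n ≠ 0 := by rintro rfl; exact hne (by simp)
        have := T_pp n hn v hv
        simpa [h2] using this
      · rintro ⟨_, n, rfl⟩ hne _ ⟨v, hv, rfl⟩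
        have e : q true ^ n = q true ^ (n % 3) := by
          conv_lhs => rw [← Int.emod_add_mul_ediv n 3, zpow_add, zpow_mul]
          rw [show (3 : ℤ) = (3 : ℕ) from rfl, zpow_natCast, h3]; simp
        have hA : A * A = A⁻¹ := un_sq _ _
        change θ (q true ^ n) • v ∈ Xa
        have : n % 3 = 0 ∨ n % 3 = 1 ∨ n % 3 = 2 := by omega
        rcases this with h | h | h
        · exact absurd (Subtype.ext (by simp [e, h])) hne
        · rw [e, h, zpow_one, h1]; exact (A_pp v hv).1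
        · rw [e, h, zpow_two, map_mul, h1, hA]; exact (A_pp v hv).2
      · exact absurd rfl hik
  rw [injective_iff_map_eq_one]
  intro x hx
  obtain ⟨y, rfl⟩ := hj x
  have : y = 1 := (injective_iff_map_eq_one _).1 hinj y hx
  rw [this, map_one]

end Pool.Agent.H64.CentExt
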