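import Pool.Agent.H64.CentExt1

set_option autoImplicit false

open scoped commutatorElement Pointwise

namespace Pool.Agent.H64.CentExt

/-- the free group -/
abbrev F := FreeGroup Bool
/-- first generator -/
abbrev a : F := FreeGroup.of true
/-- second generator -/
abbrev t : F := FreeGroup.of false
/-- the relator -/
def r : F := t * a ^ 3 * t⁻¹ * a ^ 3
/-- the relation subgroup -/
def RR : Subgroup F := Subgroup.normalClosure {r}

instance : RR.Normal := Subgroup.normalClosure_normal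

theorem r_mem : r ∈ RR := Subgroup.subset_normalClosure rfl

/-- the Baumslag-Solitar group -/
abbrev G := F ⧸ RR

/-- projection -/
def pr : F →* G := QuotientGroup.mk' RR

theorem pr_surj : Function.Surjective pr := QuotientGroup.mk'_surjective _

theorem RR_le {H : Type} [Group H] (φ : F →* H) (h : φ r = 1) : RR ≤ φ.ker :=
  Subgroup.normalClosure_le_normal (by simpa using h)

/-- maps out of the group -/
def dn {H : Type} [Group H] (x y : H) (h : y * x ^ 3 * y⁻¹ * x ^ 3 = 1) : G →* H :=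
  QuotientGroup.lift RR (FreeGroup.lift fun i => cond i x y) (RR_le _ (by simpa [r] using h))

theorem dn_a {H : Type} [Group H] (x y : H) (h) : dn x y h (pr a) = x := by
  simp [dn, pr]

theorem dn_t {H : Type} [Group H] (x y : H) (h) : dn x y h (pr t) = y := by
  simp [dn, pr]

/-- the normal cyclic subgroup -/
def N : Subgroup G := Subgroup.zpowers (pr a ^ 3)

theorem t_conj : pr t * pr a ^ 3 * (pr t)⁻¹ = (pr a ^ 3)⁻¹ := by
  have : pr r = 1 := (QuotientGroup.eq_one_iff _).2 r_mem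
  simp only [r, map_mul, map_pow, map_inv] at this
  exact eq_inv_of_mul_eq_one_left this

instance : N.Normal := by
  have key : ∀ w : F, pr w * pr a ^ 3 * (pr w)⁻¹ = pr a ^ 3 ∨
      pr w * pr a ^ 3 * (pr w)⁻¹ = (pr a ^ 3)⁻¹ := by
    intro w
    have inv : ∀ g b : G, g * b * g⁻¹ = b ∨ g * b * g⁻¹ = b⁻¹ →
        g⁻¹ * b * g⁻¹⁻¹ = b ∨ g⁻¹ * b * g⁻¹⁻¹ = b⁻¹ := by
      rintro g b (h | h)
      · left; conv_lhs => rw [← h]
        group
      · right
        have : b = g * b⁻¹ * g⁻¹ := by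
          have := congrArg (·⁻¹) h
          simp only [mul_inv_rev, inv_inv] at this
          rw [mul_assoc, this]
        conv_lhs => rw [this]
        group
    induction w using FreeGroup.induction_on with
    | C1 => left; simp
    | of x => cases x
              · right; exact t_conj
              · left; group
    | inv_of x ih => rw [map_inv]; exact inv _ _ ih
    | mul x y hx hy =>
      have e : pr (x * y) * pr a ^ 3 * (pr (x * y))⁻¹ =
          pr x * (pr y * pr a ^ 3 * (pr y)⁻¹) * (pr x)⁻¹ := by rw [map_mul]; group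
      have e2 : pr x * (pr a ^ 3)⁻¹ * (pr x)⁻¹ = (pr x * pr a ^ 3 * (pr x)⁻¹)⁻¹ := by group
      rw [e]
      rcases hy with hy | hy <;> rw [hy]
      · exact hx
      · rw [e2]
        rcases hx with hx | hx <;> rw [hx]
        · right; rfl
        · left; exact inv_inv _
  constructor
  rintro _ ⟨k, rfl⟩ g
  obtain ⟨w, rfl⟩ := pr_surj g
  beta_reduce
  rw [← conj_zpow]
  rcases key w with h | h <;> rw [h]
  · exact zpow_mem (Subgroup.mem_zpowers _) _
  · exact zpow_mem (inv_mem (Subgroup.mem_zpowers _)) _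

/-- the linear representation -/
noncomputable def θ : G →* Enˣ := dn A (B * A * B) (by simp [A_cube])

theorem θ_mem (g : G) : θ g ∈ U 1 := by
  obtain ⟨w, rfl⟩ := pr_surj g
  have hA : A ∈ U 1 := un_mem _ _
  have hB : B ∈ U 1 := un_mem _ _
  induction w using FreeGroup.induction_on with
  | C1 => simp
  | of x => cases x
            · rw [θ, dn_t]; exact mul_mem (mul_mem hB hA) hB
            · rw [θ, dn_a]; exact hA
  | inv_of x ih => rw [map_inv, map_inv]; exact inv_mem ih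
  | mul x y hx hy => rw [map_mul, map_mul]; exact mul_mem hx hy

theorem ker_θ (g : G) (hg : θ g = 1) : g ∈ N := by
  have hN : N ≤ θ.ker := by
    rw [N, Subgroup.zpowers_le, MonoidHom.mem_ker, map_pow, θ, dn_a, A_cube]
  have := pingpong (Q := G ⧸ N) (fun i => QuotientGroup.mk' N (pr (FreeGroup.of i))) ?_ ?_
    (QuotientGroup.lift N θ hN) (show θ (pr a) = _ by rw [θ, dn_a])
    (show θ (pr t) = _ by rw [θ, dn_t])
  · rw [← QuotientGroup.eq_one_iff]
    exact (injective_iff_map_eq_one _).1 this _ hg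
  · have h1 := MonoidHom.map_closure ((QuotientGroup.mk' N).comp pr) (Set.range FreeGroup.of)
    rw [FreeGroup.closure_range_of, Subgroup.map_top_of_surjective _
      (by rw [MonoidHom.coe_comp]; exact (QuotientGroup.mk'_surjective N).comp pr_surj), ← Set.range_comp] at h1
    exact h1.symm
  · rw [← map_pow]
    exact (QuotientGroup.eq_one_iff _).2 (Subgroup.mem_zpowers _)

theorem G_det (g : G) (hg : g ≠ 1) : Det g := by
  by_cases h : θ g = 1
  · obtain ⟨k, rfl⟩ := ker_θ g h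
    have hk : k ≠ 0 := by rintro rfl; exact hg (by simp)
    obtain ⟨n, hn⟩ : ∃ n : ℕ, (3 * k).natAbs < 2 ^ n := ⟨_, Nat.lt_two_pow_self⟩
    haveI : NeZero (2 ^ n) := ⟨by positivity⟩
    haveI : Fact (Nat.Prime 2) := ⟨Nat.prime_two⟩
    refine ⟨DihedralGroup (2 ^ n), inferInstance, dn (.r 1) (.sr 0) (by simp), ?_, ?_⟩
    · exact (IsPGroup.of_card (p := 2) (n := n + 1)
        (by rw [DihedralGroup.nat_card, pow_succ'])).isNilpotent
    · beta_reduce
      rw [map_zpow, map_pow, dn_a, ← zpow_natCast, ← zpow_mul, DihedralGroup.r_one_zpow,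
        DihedralGroup.one_def]
      intro e
      injection e with e
      rw [ZMod.intCast_zmod_eq_zero_iff_dvd] at e
      have := Int.natAbs_dvd_natAbs.2 e
      have h2 := Nat.le_of_dvd (by simp; omega) this
      simp only [Int.natAbs_natCast] at h2
      have : ((3 : ℕ) : ℤ) * k = 3 * k := rfl
      rw [this] at h2
      omega
  · exact det_of_rep θ θ_mem g h

theorem ext_det (E : Type) [Group E] (f : E →* G) (hf : Function.Surjective f)
    (hk : f.ker ≤ Subgroup.center E) (g : E) (hg : g ≠ 1) : Det g := by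
  by_cases h : f g = 1
  swap
  · exact (G_det _ h).of_map f
  choose s hs using fun i : Bool => hf (pr (FreeGroup.of i))
  let π : F →* E := FreeGroup.lift s
  have hπ : ∀ w, f (π w) = pr w := by
    have : f.comp π = pr := FreeGroup.ext_hom _ _ fun i => by simp [π, hs]
    exact fun w => DFunLike.congr_fun this w
  let ε : F →* Multiplicative ℤ := FreeGroup.lift fun i => cond i (Multiplicative.ofAdd 1) 1
  have hc : π r ∈ Subgroup.center E := hk (by
    rw [MonoidHom.mem_ker, hπ]; exact (QuotientGroup.eq_one_iff _).2 r_mem)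
  let S : Subgroup F :=
    { carrier := {w | ∃ m : ℤ, π w = π r ^ m ∧ ε w = Multiplicative.ofAdd (6 * m)}
      one_mem' := ⟨0, by simp⟩
      mul_mem' := fun ⟨m, h1, h2⟩ ⟨n, h3, h4⟩ => ⟨m + n, by rw [map_mul, h1, h3, zpow_add], by
        rw [map_mul, h2, h4, mul_add, ofAdd_add]⟩
      inv_mem' := fun ⟨m, h1, h2⟩ => ⟨-m, by rw [map_inv, h1, zpow_neg], by
        rw [map_inv, h2, mul_neg, ofAdd_neg]⟩ }
  haveI : S.Normal := ⟨by
    rintro w ⟨m, h1, h2⟩ x
    refine ⟨m, ?_, ?_⟩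
    · rw [map_mul, map_mul, h1, Subgroup.mem_center_iff.1 (zpow_mem hc m), map_inv]; group
    · rw [map_mul, map_mul, h2, map_inv, mul_comm (ε x)]; group⟩
  have hS : RR ≤ S := Subgroup.normalClosure_le_normal (by
    rintro _ rfl
    refine ⟨1, by simp, ?_⟩
    simp only [r, ε, map_mul, map_pow, map_inv, FreeGroup.lift_apply_of, cond_true, cond_false]
    rfl)
  have hcomm : commutator E ≤ (commutator F).map π := by
    rw [commutator_def, Subgroup.commutator_le]
    intro x _ y _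
    obtain ⟨u, hu⟩ := pr_surj (f x)
    obtain ⟨v, hv⟩ := pr_surj (f y)
    have h1 : (π u)⁻¹ * x ∈ Subgroup.center E := hk (by simp [MonoidHom.mem_ker, hπ, hu])
    have h2 : (π v)⁻¹ * y ∈ Subgroup.center E := hk (by simp [MonoidHom.mem_ker, hπ, hv])
    refine ⟨⁅u, v⁆, Subgroup.commutator_mem_commutator trivial trivial, ?_⟩
    rw [map_commutatorElement]
    have e1 : x = π u * ((π u)⁻¹ * x) := by group
    have e2 : y = π v * ((π v)⁻¹ * y) := by group
    rw [e1, e2]
    generalize (π u)⁻¹ * x = z1 at h1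
    generalize (π v)⁻¹ * y = z2 at h2
    have c1 := Subgroup.mem_center_iff.1 h1
    have c2 := Subgroup.mem_center_iff.1 h2
    calc ⁅π u, π v⁆ = π u * (π v * z2 * z1) * z1⁻¹ * (z2⁻¹ * (π u)⁻¹) * (π v)⁻¹ := by
          rw [commutatorElement_def]; group
      _ = π u * (z1 * (π v * z2)) * z1⁻¹ * ((π u)⁻¹ * z2⁻¹) * (π v)⁻¹ := by
          rw [c1 (π v * z2), Subgroup.mem_center_iff.1 (inv_mem h2) (π u)⁻¹]
      _ = _ := by rw [commutatorElement_def]; group
  refine ⟨Abelianization E, inferInstance, Abelianization.of, inferInstance, fun e => hg ?_⟩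
  have : g ∈ commutator E := by rw [← Abelianization.ker_of]; exact e
  obtain ⟨w, hw, rfl⟩ := hcomm this
  rw [hπ] at h
  obtain ⟨m, h1, h2⟩ := hS ((QuotientGroup.eq_one_iff _).1 h)
  have h3 : ε w = 1 := Abelianization.commutator_subset_ker ε hw
  rw [h3] at h2
  have : 6 * m = 0 := by simpa using h2.symm
  have : m = 0 := by omega
  rw [h1, this, zpow_zero]

theorem kill_nil {E H : Type} [Group E] [Group H] (φ : E →* H) (hH : Group.IsNilpotent H)
    (x y z c e : E) (hz : z = y * x ^ 3 * y⁻¹ * x ^ 3) (hc : c ∈ Subgroup.center E)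
    (he : e ∈ Subgroup.center E) (h1 : z * x * z⁻¹ = c * x) (h2 : z * y * z⁻¹ = e * y) :
    φ (c ^ 2) = 1 := by
  have cc : ∀ w, Commute c w := fun w => (Subgroup.mem_center_iff.1 hc w).symm
  have ee : ∀ w, Commute e w := fun w => (Subgroup.mem_center_iff.1 he w).symm
  have h3 : z * x ^ 3 * z⁻¹ = c ^ 3 * x ^ 3 := by rw [← conj_pow, h1, (cc x).mul_pow]
  have c6 : c ^ 6 = 1 := by
    have : z = c ^ 6 * z := by
      calc z = z * z * z⁻¹ := by group
        _ = (z * y * z⁻¹) * (z * x ^ 3 * z⁻¹) * (z * y * z⁻¹)⁻¹ * (z * x ^ 3 * z⁻¹) := by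
          conv_lhs => rw [show z * z * z⁻¹ = z * (y * x ^ 3 * y⁻¹ * x ^ 3) * z⁻¹ by rw [← hz]]
          group
        _ = e * (y * c ^ 3 * x ^ 3 * y⁻¹) * e⁻¹ * c ^ 3 * x ^ 3 := by rw [h2, h3]; group
        _ = (y * c ^ 3 * x ^ 3 * y⁻¹) * c ^ 3 * x ^ 3 := by rw [(ee _).eq]; group
        _ = c ^ 3 * (c ^ 3 * y * x ^ 3 * y⁻¹) * x ^ 3 := by
          rw [← ((cc _).pow_left 3).eq (b := y * c ^ 3 * x ^ 3 * y⁻¹), ((cc y).pow_left 3).eq]
        _ = c ^ 6 * z := by rw [hz]; group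
    exact (mul_eq_right.1 this.symm)
  obtain ⟨u, hu⟩ : ∃ u, u = x ^ 3 * x ^ 3 * z⁻¹ := ⟨_, rfl⟩
  obtain ⟨η, hη⟩ : ∃ η, η = (c ^ 3)⁻¹ * e := ⟨_, rfl⟩
  have hh : ∀ w, Commute η w := fun w => hη ▸ (((cc w).pow_left 3).inv_left.mul_left (ee w))
  have y1 : y * x ^ 3 * y⁻¹ = z * (x ^ 3)⁻¹ := by rw [hz]; group
  have y2 : y * z⁻¹ * y⁻¹ = z⁻¹ * e := by
    calc y * z⁻¹ * y⁻¹ = z⁻¹ * (z * y * z⁻¹) * y⁻¹ := by group
      _ = _ := by rw [h2]; group
  have y3 : y * u * y⁻¹ = u⁻¹ * η := by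
    calc y * u * y⁻¹ = (y * x ^ 3 * y⁻¹) * (y * x ^ 3 * y⁻¹) * (y * z⁻¹ * y⁻¹) := by
          rw [hu]; group
      _ = z * (x ^ 3)⁻¹ * (z * x ^ 3 * z⁻¹)⁻¹ * e := by rw [y1, y2]; group
      _ = _ := by rw [h3, hu, hη]; group
  obtain ⟨v, hv⟩ : ∃ v, v = u * u * η⁻¹ := ⟨_, rfl⟩
  have y4 : y * v * y⁻¹ = v⁻¹ := by
    calc y * v * y⁻¹ = (y * u * y⁻¹) * (y * u * y⁻¹) * (y * η⁻¹) * y⁻¹ := by rw [hv]; group
      _ = (u⁻¹ * η) * u⁻¹ := by rw [y3, ← (hh y).inv_left.eq]; group
      _ = _ := by rw [← (hh u⁻¹).eq, hv]; group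
  have x1 : z⁻¹ * x * z = c⁻¹ * x := by
    calc z⁻¹ * x * z = (z⁻¹ * c⁻¹) * (c * x) * z := by group
      _ = _ := by rw [← h1, ← (cc z⁻¹).inv_left.eq]; group
  have x2 : u * x * u⁻¹ = c⁻¹ * x := by
    calc u * x * u⁻¹ = x ^ 6 * (z⁻¹ * x * z) * (x ^ 6)⁻¹ := by rw [hu]; group
      _ = (x ^ 6 * c⁻¹) * x * (x ^ 6)⁻¹ := by rw [x1]; group
      _ = _ := by rw [← (cc (x ^ 6)).inv_left.eq]; group
  have x3 : v * x * v⁻¹ = (c ^ 2)⁻¹ * x := by
    calc v * x * v⁻¹ = u * u * (η⁻¹ * x) * η * u⁻¹ * u⁻¹ := by rw [hv]; group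
      _ = u * (u * x * u⁻¹) * u⁻¹ := by rw [(hh x).inv_left.eq]; group
      _ = (u * c⁻¹) * x * u⁻¹ := by rw [x2]; group
      _ = c⁻¹ * (u * x * u⁻¹) := by rw [← (cc u).inv_left.eq]; group
      _ = _ := by rw [x2]; group
  have x4 : ∀ m : ℕ, v ^ m * x * (v ^ m)⁻¹ = ((c ^ 2) ^ m)⁻¹ * x := by
    intro m
    induction m with
    | zero => simp
    | succ m ih =>
      calc v ^ (m + 1) * x * (v ^ (m + 1))⁻¹ = v * (v ^ m * x * (v ^ m)⁻¹) * v⁻¹ := by group
        _ = (v * ((c ^ 2) ^ m)⁻¹) * x * v⁻¹ := by rw [ih]; group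
        _ = ((c ^ 2) ^ m)⁻¹ * (v * x * v⁻¹) := by
          rw [← (((cc v).pow_left 2).pow_left m).inv_left.eq]; group
        _ = _ := by rw [x3]; group
  have lc : ∀ k, φ v ^ (2 ^ k) ∈ (⊤ : Subgroup H).lowerCentralSeries k := by
    intro k
    induction k with
    | zero => trivial
    | succ k ih =>
      have : φ v ^ (2 ^ (k + 1)) = ⁅φ v ^ (2 ^ k), φ y⁆ := by
        rw [← map_pow, ← map_pow, ← map_commutatorElement]
        congr 1
        calc v ^ 2 ^ (k + 1) = v ^ 2 ^ k * (((v⁻¹) ^ 2 ^ k))⁻¹ := by rw [pow_succ]; group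
          _ = _ := by rw [← y4, conj_pow, commutatorElement_def]; group
      rw [this]
      exact Subgroup.commutator_mem_commutator ih trivial
  obtain ⟨k, hk⟩ := Subgroup.nilpotent_iff_lowerCentralSeries.1 hH
  have l1 := lc k
  rw [hk, Subgroup.mem_bot] at l1
  have l2 := congrArg φ (x4 (2 ^ k))
  simp only [map_mul, map_inv, map_pow φ v, l1, one_mul, inv_one, mul_one] at l2
  have l3 : φ (c ^ 2) ^ 2 ^ k = 1 := by
    rw [← map_pow]
    exact inv_eq_one.1 (mul_eq_right.1 l2.symm)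
  have l4 : φ (c ^ 2) ^ 3 = 1 := by rw [← map_pow, ← pow_mul, c6, map_one]
  have l5 := Nat.dvd_gcd (orderOf_dvd_of_pow_eq_one l3) (orderOf_dvd_of_pow_eq_one l4)
  rw [Nat.Coprime.gcd_eq_one (Nat.Coprime.pow_left _ (by norm_num))] at l5
  exact orderOf_eq_one_iff.1 (Nat.dvd_one.1 l5)

end Pool.Agent.H64.CentExt
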