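import Pool.Agent.H64.CentExt2

set_option autoImplicit false

open scoped commutatorElement Pointwise

namespace Pool.Agent.H64.CentExt

/-- matrices -/
abbrev Mat := Matrix (Fin 8) (Fin 8) (ZMod 3)

/-- unipotent generator -/
def mA : Mat := fun i j =>
  if i = j ∨ (i = 2 ∧ j = 0) ∨ (i = 3 ∧ j = 1) ∨ (i = 5 ∧ j = 3) ∨ (i = 7 ∧ j = 5) then 1 else 0

/-- its inverse -/
def mA' : Mat := fun i j =>
  if i = j ∨ (i = 5 ∧ j = 1) ∨ (i = 7 ∧ j = 3) then 1
  else if (i = 2 ∧ j = 0) ∨ (i = 3 ∧ j = 1) ∨ (i = 5 ∧ j = 3) ∨ (i = 7 ∧ j = 5) ∨ (i = 7 ∧ j = 1)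
  then 2 else 0

/-- the involution -/
def mT : Mat := fun i j =>
  if (i = 0 ∧ j = 0) ∨ (i = 7 ∧ j = 7) ∨ (i = 1 ∧ j = 2) ∨ (i = 2 ∧ j = 1) ∨ (i = 3 ∧ j = 4) ∨
    (i = 4 ∧ j = 3) ∨ (i = 5 ∧ j = 6) ∨ (i = 6 ∧ j = 5) then 1 else 0

/-- cube of the generator -/
def mA3 : Mat := fun i j => if i = j ∨ (i = 7 ∧ j = 1) then 1 else 0

theorem t1 : mA * mA' = 1 := by decide +kernel
theorem t2 : mA' * mA = 1 := by decide +kernel
theorem t3 : mT * mT = 1 := by decide +kernel
theorem t4 : mA * mA * mA = mA3 := by decide +kernel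

/-- image of the relator -/
def mZ : Mat := fun i j => if i = j ∨ (i = 7 ∧ j = 1) ∨ (i = 7 ∧ j = 2) then 1 else 0
/-- the central element -/
def mC : Mat := fun i j => if i = j ∨ (i = 7 ∧ j = 0) then 1 else 0
/-- its inverse -/
def mC' : Mat := fun i j => if i = j then 1 else if i = 7 ∧ j = 0 then 2 else 0

theorem t5 : mT * mA3 * mT * mA3 = mZ := by decide +kernel
theorem t6 : mC * mC' = 1 := by decide +kernel
theorem t7 : mC' * mC = 1 := by decide +kernel
theorem t8 : mZ * mA = mC * mA * mZ := by decide +kernel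
theorem t9 : mZ * mT = mT * mZ := by decide +kernel
theorem t10 : mC * mT = mT * mC := by decide +kernel
theorem t11 : mC * mA = mA * mC := by decide +kernel
theorem t12 : mC * mC ≠ 1 := by decide +kernel

/-- units -/
def uA : Matˣ := ⟨mA, mA', t1, t2⟩
/-- units -/
def uT : Matˣ := ⟨mT, mT, t3, t3⟩
/-- units -/
def uC : Matˣ := ⟨mC, mC', t6, t7⟩

/-- the finite representation -/
def π : F →* Matˣ := FreeGroup.lift fun i => cond i uA uT

theorem π_a : π a = uA := by simp [π]
theorem π_t : π t = uT := by simp [π]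

theorem π_r : (π r : Mat) = mZ := by
  simp only [r, map_mul, map_pow, map_inv, π_a, π_t, Units.val_mul, pow_three, ← mul_assoc]
  change mT * mA * mA * mA * mT * mA * mA * mA = mZ
  rw [← t5, ← t4]
  simp only [mul_assoc]

theorem π_ra : π ⁅r, a⁆ = uC := by
  rw [map_commutatorElement, commutatorElement_def, π_a, mul_assoc, ← mul_inv_rev,
    mul_inv_eq_iff_eq_mul]
  ext1
  simp only [Units.val_mul, π_r, ← mul_assoc]
  exact t8

theorem π_rt : π ⁅r, t⁆ = 1 := by
  rw [map_commutatorElement, commutatorElement_eq_one_iff_mul_comm, π_t]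
  ext1
  simp only [Units.val_mul, π_r]
  exact t9

theorem comm_all {H : Type} [Group H] (φ : F →* H) (x : H) (h1 : Commute x (φ a))
    (h2 : Commute x (φ t)) (w : F) : Commute x (φ w) := by
  induction w using FreeGroup.induction_on with
  | C1 => simp
  | of i => cases i
            · exact h2
            · exact h1
  | inv_of i ih => rw [map_inv]; exact ih.inv_right
  | mul u v hu hv => rw [map_mul]; exact hu.mul_right hv

/-- preimage of the centre of the image -/
def Z1 : Subgroup F where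
  carrier := {w | ∀ v, Commute (π w) (π v)}
  one_mem' := fun v => by simp
  mul_mem' := fun ha hb v => by rw [map_mul]; exact (ha v).mul_left (hb v)
  inv_mem' := fun ha v => by rw [map_inv]; exact (ha v).inv_left

instance : Z1.Normal := ⟨fun w hw x v => by
  have : π (x * w * x⁻¹) = π w := by
    rw [map_mul, map_mul, ← (hw x).eq, map_inv]; group
  rw [this]; exact hw v⟩

/-- first layer -/
def N1 : Subgroup F := ⁅RR, ⊤⁆
/-- second layer -/
def N2 : Subgroup F := ⁅N1, ⊤⁆

instance : N1.Normal := by unfold N1; infer_instance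
instance : N2.Normal := by unfold N2; infer_instance

theorem N1_le : N1 ≤ Z1 := by
  have h : RR ≤ (Subgroup.center (F ⧸ Z1)).comap (QuotientGroup.mk' Z1) := by
    apply Subgroup.normalClosure_le_normal
    rintro _ rfl
    change QuotientGroup.mk' Z1 r ∈ Subgroup.center _
    rw [Subgroup.mem_center_iff]
    intro g
    obtain ⟨w, rfl⟩ := QuotientGroup.mk'_surjective Z1 g
    refine (comm_all (QuotientGroup.mk' Z1) _ ?_ ?_ w).eq.symm
    · rw [← commutatorElement_eq_one_iff_commute, ← map_commutatorElement]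
      refine (QuotientGroup.eq_one_iff _).2 fun v => ?_
      rw [π_ra]
      refine comm_all π _ ?_ ?_ v
      · rw [π_a]; exact Units.ext t11
      · rw [π_t]; exact Units.ext t10
    · rw [← commutatorElement_eq_one_iff_commute, ← map_commutatorElement]
      refine (QuotientGroup.eq_one_iff _).2 fun v => ?_
      rw [π_rt]; simp
  rw [N1, Subgroup.commutator_le]
  intro x hx y _
  rw [← QuotientGroup.eq_one_iff]
  change QuotientGroup.mk' Z1 ⁅x, y⁆ = 1
  rw [map_commutatorElement, commutatorElement_eq_one_iff_mul_comm]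
  exact (Subgroup.mem_center_iff.1 (h hx) _).symm

theorem N2_le : N2 ≤ π.ker := by
  rw [N2, Subgroup.commutator_le]
  intro x hx y _
  rw [MonoidHom.mem_ker, map_commutatorElement, commutatorElement_eq_one_iff_commute]
  exact N1_le hx y

theorem central_step (K L : Subgroup F) [K.Normal] [L.Normal] (hL : L = ⁅K, ⊤⁆) :
    (∀ w ∈ K, QuotientGroup.mk' L w ∈ Subgroup.center (F ⧸ L)) ∧
    ∃ f : F ⧸ L →* F ⧸ K, Function.Surjective f ∧ f.ker ≤ Subgroup.center (F ⧸ L) := by
  have h1 : ∀ w ∈ K, QuotientGroup.mk' L w ∈ Subgroup.center (F ⧸ L) := by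
    intro w hw
    rw [Subgroup.mem_center_iff]
    intro g
    obtain ⟨v, rfl⟩ := QuotientGroup.mk'_surjective L g
    symm
    rw [← commutatorElement_eq_one_iff_mul_comm, ← map_commutatorElement]
    refine (QuotientGroup.eq_one_iff _).2 ?_
    rw [hL]
    exact Subgroup.commutator_mem_commutator hw trivial
  have hle : L ≤ (QuotientGroup.mk' K).ker := by
    rw [QuotientGroup.ker_mk', hL]; exact Subgroup.commutator_le_left _ _
  refine ⟨h1, QuotientGroup.lift L (QuotientGroup.mk' K) hle, ?_, ?_⟩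
  · intro g
    obtain ⟨v, rfl⟩ := QuotientGroup.mk'_surjective K g
    exact ⟨QuotientGroup.mk' L v, rfl⟩
  · intro g hg
    obtain ⟨v, rfl⟩ := QuotientGroup.mk'_surjective L g
    exact h1 v ((QuotientGroup.eq_one_iff _).1 hg)

theorem main :
    ∃ (G : Type) (_ : Group G),
      (∀ (E : Type) (_ : Group E) (f : E →* G), Function.Surjective f →
        f.ker ≤ Subgroup.center E →
        ∀ g : E, g ≠ 1 →
          ∃ (H : Type) (_ : Group H) (φ : E →* H), Group.IsNilpotent H ∧ φ g ≠ 1) ∧
      ∃ (E₁ : Type) (_ : Group E₁) (f₁ : E₁ →* G)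
        (E₂ : Type) (_ : Group E₂) (f₂ : E₂ →* E₁),
        Function.Surjective f₁ ∧ f₁.ker ≤ Subgroup.center E₁ ∧
        Function.Surjective f₂ ∧ f₂.ker ≤ Subgroup.center E₂ ∧
        ∃ g : E₂, g ≠ 1 ∧
          ∀ (H : Type) (_ : Group H) (φ : E₂ →* H), Group.IsNilpotent H → φ g = 1 := by
  obtain ⟨-, f1, s1, c1⟩ := central_step RR N1 rfl
  obtain ⟨hc, f2, s2, c2⟩ := central_step N1 N2 rfl
  refine ⟨G, inferInstance, fun E _ f hf hk g hg => ext_det E f hf hk g hg,
    F ⧸ N1, inferInstance, f1, F ⧸ N2, inferInstance, f2, s1, c1, s2, c2,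
    QuotientGroup.mk' N2 ⁅r, a⁆ ^ 2, ?_, ?_⟩
  · intro e
    rw [← map_pow] at e
    have := N2_le ((QuotientGroup.eq_one_iff _).1 e)
    rw [MonoidHom.mem_ker, map_pow, π_ra, pow_two] at this
    exact t12 (congrArg Units.val this)
  · intro H _ φ hH
    refine kill_nil φ hH (QuotientGroup.mk' N2 a) (QuotientGroup.mk' N2 t) (QuotientGroup.mk' N2 r)
      _ (QuotientGroup.mk' N2 ⁅r, t⁆) (by simp [r])
      (hc _ (Subgroup.commutator_mem_commutator r_mem trivial))
      (hc _ (Subgroup.commutator_mem_commutator r_mem trivial)) ?_ ?_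
    · rw [map_commutatorElement, commutatorElement_def]; group
    · rw [map_commutatorElement, commutatorElement_def]; group

end Pool.Agent.H64.CentExt
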