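import Mathlib

/-! From a division ring with a multiplicative ultrametric map to order automorphisms of the line
to a simple domain isomorphic to its idempotent left ideals. -/

namespace Pool.Agent.H64.Chain1

structure Data (D : Type) [DivisionRing D] where
  P : D → (ℝ ≃o ℝ)
  mul : ∀ d e, d ≠ 0 → e ≠ 0 → ∀ x, P (d * e) x = P d (P e x)
  add : ∀ d e, d ≠ 0 → e ≠ 0 → d + e ≠ 0 → ∀ x, min (P d x) (P e x) ≤ P (d + e) x
  ex : ∀ a l : ℝ, 0 < l → ∃ d, d ≠ 0 ∧ ∀ x, P d x = a + l * x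

variable {D : Type} [DivisionRing D] (X : Data D)

lemma P_one (x : ℝ) : X.P 1 x = x := by
  have := X.mul 1 1 one_ne_zero one_ne_zero x
  rw [mul_one] at this
  exact ((X.P 1).injective this).symm

lemma P_neg_one (x : ℝ) : X.P (-1) x = x := by
  have h := X.mul (-1) (-1) (by simp) (by simp) x
  rw [neg_mul_neg, mul_one, P_one] at h
  rcases lt_trichotomy (X.P (-1) x) x with h1 | h1 | h1
  · have := (X.P (-1)).strictMono h1
    linarith
  · exact h1
  · have := (X.P (-1)).strictMono h1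
    linarith

lemma P_neg (d : D) (hd : d ≠ 0) (x : ℝ) : X.P (-d) x = X.P d x := by
  rw [← neg_one_mul, X.mul _ _ (by simp) hd, P_neg_one]

lemma P_inv (d : D) (hd : d ≠ 0) (x : ℝ) : X.P d⁻¹ x = (X.P d).symm x := by
  apply (X.P d).injective
  rw [← X.mul _ _ hd (inv_ne_zero hd), mul_inv_cancel₀ hd, P_one, OrderIso.apply_symm_apply]

/-- the additive groups `A_y` -/
def Ay (y : ℝ) : AddSubgroup D where
  carrier := {d | d ≠ 0 → 0 < X.P d y}
  zero_mem' := fun h => absurd rfl h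
  add_mem' := by
    intro d e hd he h
    by_cases d0 : d = 0
    · subst d0; rw [zero_add] at h ⊢; exact he h
    by_cases e0 : e = 0
    · subst e0; rw [add_zero] at h ⊢; exact hd h
    exact (lt_min (hd d0) (he e0)).trans_le (X.add d e d0 e0 h y)
  neg_mem' := by
    intro d hd h
    have d0 : d ≠ 0 := by simpa using h
    rw [P_neg X d d0]; exact hd d0

lemma mem_Ay {y : ℝ} {d : D} : d ∈ Ay X y ↔ (d ≠ 0 → 0 < X.P d y) := Iff.rfl

def A : NonUnitalSubring D where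
  toAddSubgroup := Ay X (-1)
  mul_mem' := by
    intro d e hd he h
    have d0 := left_ne_zero_of_mul h
    have e0 := right_ne_zero_of_mul h
    rw [X.mul d e d0 e0]
    exact (hd d0).trans ((X.P d).strictMono (by linarith [he e0]))

lemma mem_A {d : D} : d ∈ A X ↔ (d ≠ 0 → 0 < X.P d (-1)) := Iff.rfl

lemma exists_mem : ∃ d : A X, d ≠ 0 := by
  obtain ⟨d, hd, h⟩ := X.ex 2 1 one_pos
  exact ⟨⟨d, fun _ => by rw [h]; norm_num⟩, fun h => hd (congrArg Subtype.val h)⟩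

lemma simple : IsSimpleRing (A X) := by
  haveI : Nontrivial (A X) := by
    obtain ⟨d, hd⟩ := exists_mem X
    exact ⟨d, 0, hd⟩
  refine ⟨⟨fun I => ?_⟩⟩
  by_cases hI : I = ⊥
  · exact Or.inl hI
  right
  obtain ⟨a, ha, a0⟩ : ∃ a ∈ I, a ≠ 0 := by
    by_contra hc
    push Not at hc
    exact hI (eq_bot_iff.2 fun a ha => (TwoSidedIdeal.mem_bot _).2 (hc a ha))
  rw [eq_top_iff]
  intro d _
  by_cases d0 : d = 0
  · rw [d0]; exact I.zero_mem
  have a0' : (a : D) ≠ 0 := fun h => a0 (Subtype.ext h)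
  have d0' : (d : D) ≠ 0 := fun h => d0 (Subtype.ext h)
  set y := (X.P a).symm (-1) with hy
  set z := (X.P d).symm 0 with hz
  have hz1 : z < -1 := by
    rw [hz, OrderIso.symm_apply_lt]; exact d.2 d0'
  obtain ⟨m, hm0, hm⟩ : ∃ m : ℝ, 0 < m ∧ 1 - y < m * (-1 - z) := by
    have : 0 < -1 - z := by linarith
    refine ⟨|1 - y| / (-1 - z) + 1, by positivity, ?_⟩
    rw [add_mul, div_mul_cancel₀ _ this.ne']
    linarith [le_abs_self (1 - y)]
  obtain ⟨s, s0, hs⟩ := X.ex (m + 1) m hm0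
  have hsA : s ∈ A X := fun _ => by rw [hs]; linarith
  have hr : (d : D) * s⁻¹ * (a : D)⁻¹ ∈ A X := fun _ => by
    rw [X.mul _ _ (mul_ne_zero d0' (inv_ne_zero s0)) (inv_ne_zero a0'),
      X.mul _ _ d0' (inv_ne_zero s0), P_inv X _ a0', P_inv X _ s0, ← hy,
      ← OrderIso.symm_apply_lt, ← hz, OrderIso.lt_symm_apply, hs]
    linarith
  have : d = (⟨_, hr⟩ : A X) * a * ⟨s, hsA⟩ := by
    apply Subtype.ext
    show (d : D) = (d : D) * s⁻¹ * (a : D)⁻¹ * a * s
    rw [inv_mul_cancel_right₀ a0', inv_mul_cancel_right₀ s0]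
  rw [this]
  exact I.mul_mem_right _ _ (I.mul_mem_left _ _ ha)

lemma no_one : ¬ ∃ e : A X, (∀ x : A X, e * x = x ∧ x * e = x) ∧
    ∀ x : A X, x ≠ 0 → ∃ y : A X, x * y = e ∧ y * x = e := by
  rintro ⟨e, he, -⟩
  obtain ⟨d, hd⟩ := exists_mem X
  have d0 : (d : D) ≠ 0 := fun h => hd (Subtype.ext h)
  have h1 : (e : D) * d = d := congrArg Subtype.val (he d).1
  have h2 : (e : D) = 1 := by
    rw [← mul_left_inj' d0, h1, one_mul]
  have := e.2 (by rw [h2]; exact one_ne_zero)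
  rw [h2, P_one] at this
  linarith

lemma ideal_eq (L : NonUnitalSubring (A X)) (h0 : L ≠ ⊥) (hl : ∀ r x : A X, x ∈ L → r * x ∈ L)
    (hi : AddSubgroup.closure {z : A X | ∃ a ∈ L, ∃ b ∈ L, z = a * b} = L.toAddSubgroup) :
    ∃ y : ℝ, y ≤ -1 ∧ ∀ d : A X, d ∈ L ↔ (d : D) ∈ Ay X y := by
  let Y : Set ℝ := {y | ∃ b ∈ L, (b : D) ≠ 0 ∧ y = (X.P b).symm (-1)}
  have hY : ∀ y ∈ Y, y ≤ -1 := by
    rintro y ⟨b, -, b0, rfl⟩
    rw [OrderIso.symm_apply_le]
    linarith [b.2 b0]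
  have hne : Y.Nonempty := by
    obtain ⟨b, hb, b0⟩ : ∃ b ∈ L, b ≠ 0 := by
      by_contra hc
      push Not at hc
      exact h0 (eq_bot_iff.2 fun a ha => NonUnitalSubring.mem_bot.2 (hc a ha))
    exact ⟨_, b, hb, fun h => b0 (Subtype.ext h), rfl⟩
  have hbd : BddAbove Y := ⟨-1, hY⟩
  refine ⟨sSup Y, csSup_le hne hY, fun d => ⟨fun hd => ?_, fun hd => ?_⟩⟩
  · have : L.toAddSubgroup ≤ (Ay X (sSup Y)).comap (A X).toAddSubgroup.subtype := by
      rw [← hi, AddSubgroup.closure_le]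
      rintro _ ⟨a, -, b, hb, rfl⟩ h
      have h' : (a : D) * b ≠ 0 := h
      have a0 := left_ne_zero_of_mul h'
      have b0 := right_ne_zero_of_mul h'
      show 0 < X.P ((a : D) * b) (sSup Y)
      rw [X.mul _ _ a0 b0]
      refine (a.2 a0).trans_le ((X.P a).monotone ?_)
      rw [← OrderIso.symm_apply_le]
      exact le_csSup hbd ⟨b, hb, b0, rfl⟩
    exact this hd
  · by_cases d0 : (d : D) = 0
    · rw [show d = 0 from Subtype.ext d0]; exact L.zero_mem
    have h1 := hd d0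
    rw [← OrderIso.symm_apply_lt] at h1
    obtain ⟨_, ⟨b, hb, b0, rfl⟩, h2⟩ := exists_lt_of_lt_csSup hne h1
    have hr : (d : D) * (b : D)⁻¹ ∈ A X := fun _ => by
      rw [X.mul _ _ d0 (inv_ne_zero b0), P_inv X _ b0, ← OrderIso.symm_apply_lt]
      exact h2
    have : d = (⟨_, hr⟩ : A X) * b := by
      apply Subtype.ext
      show (d : D) = (d : D) * (b : D)⁻¹ * b
      rw [inv_mul_cancel_right₀ b0]
    rw [this]
    exact hl _ _ hb

lemma iso (L : NonUnitalSubring (A X)) (y : ℝ) (hy : y ≤ -1)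
    (h : ∀ d : A X, d ∈ L ↔ (d : D) ∈ Ay X y) : Nonempty (L ≃+* A X) := by
  obtain ⟨u, u0, hu⟩ := X.ex 0 (-y) (by linarith)
  have hu1 : X.P u (-1) = y := by rw [hu]; ring
  have hu0 : X.P u 0 = 0 := by rw [hu]; ring
  have key : ∀ d : D, u⁻¹ * d * u ∈ A X ↔ d ∈ Ay X y := by
    intro d
    by_cases d0 : d = 0
    · simp [d0]
    rw [mem_A, mem_Ay, X.mul _ _ (mul_ne_zero (inv_ne_zero u0) d0) u0,
      X.mul _ _ (inv_ne_zero u0) d0, P_inv X _ u0, hu1, OrderIso.lt_symm_apply, hu0]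
    simp [d0, u0]
  have sub : ∀ d : D, d ∈ Ay X y → d ∈ A X := fun d hd d0 =>
    (hd d0).trans_le ((X.P d).monotone hy)
  have back : ∀ e : A X, u * (e : D) * u⁻¹ ∈ Ay X y := fun e => (key _).1 (by
    have : u⁻¹ * (u * (e : D) * u⁻¹) * u = e := by simp [mul_assoc, u0]
    rw [this]; exact e.2)
  refine ⟨{ toFun := fun d => ⟨u⁻¹ * ((d : A X) : D) * u, (key _).2 ((h _).1 d.2)⟩
            invFun := fun e => ⟨⟨u * (e : D) * u⁻¹, sub _ (back e)⟩, (h _).2 (back e)⟩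
            left_inv := fun d => ?_
            right_inv := fun e => ?_
            map_mul' := fun d e => ?_
            map_add' := fun d e => ?_ }⟩
  · apply Subtype.ext; apply Subtype.ext
    show u * (u⁻¹ * ((d : A X) : D) * u) * u⁻¹ = _
    simp [mul_assoc, u0]
  · apply Subtype.ext
    show u⁻¹ * (u * (e : D) * u⁻¹) * u = _
    simp [mul_assoc, u0]
  · apply Subtype.ext
    show u⁻¹ * (((d : A X) : D) * ((e : A X) : D)) * u =
      u⁻¹ * ((d : A X) : D) * u * (u⁻¹ * ((e : A X) : D) * u)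
    simp [mul_assoc, u0]
  · apply Subtype.ext
    show u⁻¹ * (((d : A X) : D) + ((e : A X) : D)) * u =
      u⁻¹ * ((d : A X) : D) * u + (u⁻¹ * ((e : A X) : D) * u)
    rw [mul_add, add_mul]

include X in
theorem main : ∃ (R : Type) (_ : NonUnitalRing R),
      IsSimpleRing R ∧ NoZeroDivisors R ∧
      (¬ ∃ e : R, (∀ x : R, e * x = x ∧ x * e = x) ∧
          ∀ x : R, x ≠ 0 → ∃ y : R, x * y = e ∧ y * x = e) ∧
      ∀ L : NonUnitalSubring R, L ≠ ⊥ →
        (∀ r x : R, x ∈ L → r * x ∈ L) →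
        AddSubgroup.closure {z : R | ∃ a ∈ L, ∃ b ∈ L, z = a * b} = L.toAddSubgroup →
        Nonempty (L ≃+* R) := by
  refine ⟨A X, inferInstance, simple X, ⟨fun {a b} h => ?_⟩, no_one X, fun L h0 hl hi => ?_⟩
  · rcases mul_eq_zero.1 (congrArg Subtype.val h) with h | h
    · exact Or.inl (Subtype.ext h)
    · exact Or.inr (Subtype.ext h)
  · obtain ⟨y, hy, h⟩ := ideal_eq X L h0 hl hi
    exact iso X L y hy h

end Pool.Agent.H64.Chain1
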