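import Mathlib

/-! Actions on Hahn series by scaling exponents and twisting coefficients. -/

namespace Pool.Agent.H64.HahnAct

open HahnSeries

variable {E L : Type*} [Field E] [LinearOrder E] [IsStrictOrderedRing E] [Semiring L]

/-- coefficientwise ring map -/
noncomputable def mapHom (σ : L →+* L) : HahnSeries E L →+* HahnSeries E L where
  toFun x := x.map σ
  map_one' := HahnSeries.map_one σ.toMonoidWithZeroHom
  map_mul' _ _ := HahnSeries.map_mul (σ : L →ₙ+* L)
  map_zero' := by ext; simp
  map_add' _ _ := HahnSeries.map_add (σ : L →+ L)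

/-- scale exponents by `μ` and twist coefficients by `σ` -/
noncomputable def tw (σ : L →+* L) (μ : E) (hμ : 0 < μ) : HahnSeries E L →+* HahnSeries E L :=
  (embDomainRingHom (AddMonoidHom.mulLeft μ) (mul_right_injective₀ hμ.ne')
    (fun _ _ => mul_le_mul_iff_right₀ hμ)).comp (mapHom σ)

lemma tw_coeff (σ : L →+* L) (μ : E) (hμ : 0 < μ) (x : HahnSeries E L) (r : E) :
    (tw σ μ hμ x).coeff r = σ (x.coeff (r / μ)) := by
  have : r = AddMonoidHom.mulLeft μ (r / μ) := by
    simp [mul_div_cancel₀ _ hμ.ne']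
  conv_lhs => rw [this]
  exact embDomain_mk_coeff (f := AddMonoidHom.mulLeft μ) (mul_right_injective₀ hμ.ne')
    (fun _ _ => mul_le_mul_iff_right₀ hμ)

/-- the action of a commutative monoid -/
@[reducible] noncomputable def act {Γ : Type*} [Monoid Γ] (σ : Γ →* (L →+* L)) (μ : Γ →* E)
    (hμ : ∀ g, 0 < μ g) : MulSemiringAction Γ (HahnSeries E L) where
  smul g x := tw (σ g) (μ g) (hμ g) x
  one_smul x := by
    ext r
    show (tw _ _ _ x).coeff r = _
    simp [tw_coeff]
  mul_smul g h x := by
    ext r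
    show (tw _ _ _ x).coeff r = (tw _ _ _ (tw _ _ _ x)).coeff r
    simp [tw_coeff, div_div]
  smul_zero g := map_zero (tw _ _ _)
  smul_add g := map_add (tw _ _ _)
  smul_one g := map_one (tw _ _ _)
  smul_mul g := map_mul (tw _ _ _)

end Pool.Agent.H64.HahnAct
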