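import Mathlib

/-! Skew group rings of torsion-free abelian groups over fields are Ore domains. -/

namespace Pool.Agent.H64.SkewOre

open SkewMonoidAlgebra Pointwise nonZeroDivisors

lemma exists_pow_lt (k : ℕ) : ∃ n : ℕ, (n + 1) ^ k < 2 ^ n := by
  have h := tendsto_pow_const_div_const_pow_of_one_lt k (r := (2 : ℝ)) one_lt_two
  have h2 := (h.eventually (gt_mem_nhds (show (0 : ℝ) < 1 / 2 by norm_num))).and
    (Filter.eventually_ge_atTop 1)
  obtain ⟨m, hm, h1⟩ := h2.exists
  obtain ⟨n, rfl⟩ : ∃ n, m = n + 1 := ⟨m - 1, by omega⟩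
  refine ⟨n, ?_⟩
  rw [div_lt_iff₀ (by positivity), pow_succ] at hm
  have : ((n + 1 : ℕ) : ℝ) ^ k < 2 ^ n := by linarith
  exact_mod_cast this

lemma card_pow_le {Γ : Type*} [CommMonoid Γ] [DecidableEq Γ] (A : Finset Γ) (n : ℕ) :
    (A ^ n).card ≤ (n + 1) ^ A.card := by
  have key : ∀ x ∈ A ^ n, ∃ e : Γ → ℕ, (∀ a, e a ≤ n) ∧ x = ∏ a ∈ A, a ^ e a := by
    induction n with
    | zero =>
      intro x hx
      exact ⟨fun _ => 0, fun _ => le_rfl, by simpa using hx⟩
    | succ n ih =>
      intro x hx
      rw [pow_succ, Finset.mem_mul] at hx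
      obtain ⟨y, hy, b, hb, rfl⟩ := hx
      obtain ⟨e, he, rfl⟩ := ih y hy
      refine ⟨fun a => e a + if a = b then 1 else 0, fun a => ?_, ?_⟩
      · have := he a
        dsimp only
        split_ifs <;> omega
      · simp only [pow_add, Finset.prod_mul_distrib, pow_ite, pow_one, pow_zero]
        rw [Finset.prod_ite_eq' A b, if_pos hb]
  calc (A ^ n).card ≤ (Finset.univ.image fun e : A → Fin (n + 1) => ∏ a : A, (a : Γ) ^ (e a : ℕ)).card := by
        refine Finset.card_le_card fun x hx => ?_
        obtain ⟨e, he, rfl⟩ := key x hx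
        refine Finset.mem_image.2 ⟨fun a => ⟨e a, Nat.lt_succ_of_le (he a)⟩, Finset.mem_univ _, ?_⟩
        exact Finset.prod_coe_sort A fun a => a ^ e a
    _ ≤ _ := Finset.card_image_le.trans (by simp)

lemma exists_folner {Γ : Type*} [CommMonoid Γ] [DecidableEq Γ] (A : Finset Γ) (hA : A.Nonempty) :
    ∃ F : Finset Γ, (F * A).card < 2 * F.card := by
  by_contra h
  push Not at h
  have key : ∀ n, 2 ^ n ≤ (A ^ n).card := by
    intro n
    induction n with
    | zero => simp
    | succ n ih =>
      have := h (A ^ n)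
      rw [pow_succ, pow_succ]
      omega
  obtain ⟨n, hn⟩ := exists_pow_lt A.card
  exact absurd ((key n).trans (card_pow_le A n)) (by omega)

variable {K Γ : Type*} [DivisionRing K]

instance noZeroDivisors [Group Γ] [MulSemiringAction Γ K] [UniqueProds Γ] :
    NoZeroDivisors (SkewMonoidAlgebra K Γ) where
  eq_zero_or_eq_zero_of_mul_eq_zero {f g} h := by
    classical
    by_contra hc
    push Not at hc
    obtain ⟨a, ha, b, hb, hu⟩ := UniqueProds.uniqueMul_of_nonempty (A := f.support) (B := g.support)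
      (Finset.nonempty_iff_ne_empty.2 (mt support_eq_empty.1 hc.1))
      (Finset.nonempty_iff_ne_empty.2 (mt support_eq_empty.1 hc.2))
    have h1 : (f * g).coeff (a * b) = f.coeff a * a • g.coeff b := by
      rw [coeff_mul, sum_def', Finset.sum_eq_single a]
      · rw [sum_def', Finset.sum_eq_single b, if_pos rfl]
        · intro y hy hyb
          exact if_neg fun hh => hyb (hu ha hy hh).2
        · exact fun hh => absurd hb hh
      · intro x hx hxa
        rw [sum_def']
        exact Finset.sum_eq_zero fun y hy => if_neg fun hh => hxa (hu hx hy hh).1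
      · exact fun hh => absurd ha hh
    rw [h] at h1
    rcases mul_eq_zero.1 h1.symm with h2 | h2
    · exact mem_support_iff.1 ha h2
    · exact mem_support_iff.1 hb ((smul_eq_zero_iff_eq a).1 h2)

variable [CommGroup Γ] [MulSemiringAction Γ K]

noncomputable def emb (F : Finset Γ) : (F → K) →ₗ[K] SkewMonoidAlgebra K Γ :=
  ∑ g : F, (lsingle K (g : Γ)).comp (LinearMap.proj g)

lemma emb_apply (F : Finset Γ) (a : F → K) : emb F a = ∑ g : F, single (g : Γ) (a g) := by
  simp [emb, lsingle_apply]

lemma emb_coeff (F : Finset Γ) (a : F → K) (g : F) : (emb F a).coeff g = a g := by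
  classical
  rw [emb_apply, ← coeffAddEquiv_apply, _root_.map_sum, Finsupp.finset_sum_apply,
    Finset.sum_eq_single g]
  · simp
  · intro b _ hb
    simp [Finsupp.single_apply, Subtype.coe_inj, hb]
  · simp

lemma emb_support (F : Finset Γ) (a : F → K) : (emb F a).support ⊆ F := by
  classical
  intro x hx
  by_contra hF
  apply mem_support_iff.1 hx
  rw [emb_apply, ← coeffAddEquiv_apply, _root_.map_sum, Finsupp.finset_sum_apply]
  refine Finset.sum_eq_zero fun g _ => ?_
  have : (g : Γ) ≠ x := fun h => hF (h ▸ g.2)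
  simp [Finsupp.single_apply, this]

theorem ore [UniqueProds Γ] (r : SkewMonoidAlgebra K Γ) (s : (SkewMonoidAlgebra K Γ)⁰) :
    ∃ (r' : SkewMonoidAlgebra K Γ) (s' : (SkewMonoidAlgebra K Γ)⁰), s' * r = r' * s := by
  classical
  obtain ⟨F, hF⟩ := exists_folner (insert 1 (r.support ∪ s.1.support)) (by simp)
  set A := insert 1 (r.support ∪ s.1.support)
  let mr : ∀ x : SkewMonoidAlgebra K Γ, SkewMonoidAlgebra K Γ →ₗ[K] SkewMonoidAlgebra K Γ :=
    fun x => { toFun := fun y => y * x, map_add' := fun a b => add_mul a b x,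
               map_smul' := fun c a => smul_mul_assoc c a x }
  let P : ((F → K) × (F → K)) →ₗ[K] SkewMonoidAlgebra K Γ :=
    ((mr r).comp (emb F)).comp (LinearMap.fst _ _ _) -
      ((mr s).comp (emb F)).comp (LinearMap.snd _ _ _)
  let Q : SkewMonoidAlgebra K Γ →ₗ[K] (↥(F * A) → K) :=
    LinearMap.pi fun g => (Finsupp.lapply (g : Γ)).comp coeffLinearEquiv.toLinearMap
  have hker : LinearMap.ker (Q.comp P) ≠ ⊥ := by
    apply LinearMap.ker_ne_bot_of_finrank_lt
    simp [Module.finrank_prod]
    omega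
  obtain ⟨⟨a, b⟩, hab, hne⟩ := Submodule.exists_mem_ne_zero_of_ne_bot hker
  have hsup : ∀ (c : F → K) (x : SkewMonoidAlgebra K Γ), x.support ⊆ A →
      (emb F c * x).support ⊆ F * A := fun c x hx =>
    (support_mul _ _).trans (Finset.mul_subset_mul (emb_support F c) hx)
  have heq : emb F a * r = emb F b * s := by
    ext g
    by_cases hg : g ∈ F * A
    · have := congrFun (LinearMap.mem_ker.1 hab) ⟨g, hg⟩
      simp only [P, Q, mr, LinearMap.comp_apply, LinearMap.sub_apply, map_sub, Pi.sub_apply,
        Pi.zero_apply, sub_eq_zero] at this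
      exact this
    · rw [notMem_support_iff.1 fun h => hg (hsup a r (fun x hx => by simp [A, hx]) h),
        notMem_support_iff.1 fun h => hg (hsup b s (fun x hx => by simp [A, hx]) h)]
  have hinj : ∀ c : F → K, emb F c = 0 → c = 0 := fun c hc => funext fun g => by
    rw [← emb_coeff F c g, hc]; rfl
  refine ⟨emb F b, ⟨emb F a, mem_nonZeroDivisors_of_ne_zero fun h0 => hne ?_⟩, heq⟩
  rw [h0, zero_mul] at heq
  have hb := (mul_eq_zero.1 heq.symm).resolve_right (nonZeroDivisors.coe_ne_zero s)
  rw [hinj a h0, hinj b hb]; rfl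

noncomputable instance oreSet [UniqueProds Γ] :
    OreLocalization.OreSet (SkewMonoidAlgebra K Γ)⁰ :=
  (OreLocalization.nonempty_oreSet_iff_of_noZeroDivisors.2 ore).some

/-- The skew group ring embeds in a division ring. -/
theorem numerator_inj [UniqueProds Γ] :
    Function.Injective (OreLocalization.numeratorRingHom :
      SkewMonoidAlgebra K Γ →+* OreLocalization (SkewMonoidAlgebra K Γ)⁰ (SkewMonoidAlgebra K Γ)) :=
  OreLocalization.numeratorHom_inj fun _ h => h.1

end Pool.Agent.H64.SkewOre
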