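import Pool.Agent.H64.Chain1
import Pool.Agent.H64.HahnAct
import Pool.Agent.H64.SkewOre

/-! The division ring of fractions of the skew group ring of the positive reals over Hahn series. -/

namespace Pool.Agent.H64.Chain2

open Pool.Agent.H64.HahnAct Pool.Agent.H64.SkewOre Multiplicative nonZeroDivisors Pointwise

abbrev K := HahnSeries ℝ ℚ
abbrev Γ := Multiplicative ℝ

noncomputable def μ : Γ →* ℝ := Real.expMonoidHom

lemma μ_pos (g : Γ) : 0 < μ g := Real.exp_pos _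

lemma μ_le {g h : Γ} : μ g ≤ μ h ↔ g ≤ h := Real.exp_le_exp

noncomputable instance : MulSemiringAction Γ K := act 1 μ μ_pos

lemma smul_coeff (g : Γ) (x : K) (r : ℝ) : (g • x).coeff r = x.coeff (r / μ g) :=
  tw_coeff _ _ _ x r

abbrev R := SkewMonoidAlgebra K Γ

/-- `c` is the minimum of `r + μ(g) x` over the double support -/
def IsMin (d : R) (x c : ℝ) : Prop :=
  (∀ g r, (d.coeff g).coeff r ≠ 0 → c ≤ r + μ g * x) ∧
    ∃ g r, (d.coeff g).coeff r ≠ 0 ∧ c = r + μ g * x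

lemma IsMin.unique {d : R} {x c c' : ℝ} (h : IsMin d x c) (h' : IsMin d x c') : c = c' := by
  obtain ⟨g, r, h1, h2⟩ := h.2
  obtain ⟨g', r', h1', h2'⟩ := h'.2
  exact le_antisymm (h2' ▸ h.1 g' r' h1') (h2 ▸ h'.1 g r h1)

lemma mem_supp {d : R} {g : Γ} {r : ℝ} (h : (d.coeff g).coeff r ≠ 0) : g ∈ d.support :=
  SkewMonoidAlgebra.mem_support_iff.2 fun h0 => h (by rw [h0]; rfl)

lemma supp_ne {d : R} (hd : d ≠ 0) : d.support.Nonempty :=
  Finset.nonempty_iff_ne_empty.2 (mt SkewMonoidAlgebra.support_eq_empty.1 hd)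

lemma exists_isMin {d : R} (hd : d ≠ 0) (x : ℝ) : ∃ c, IsMin d x c := by
  obtain ⟨g, hg, h⟩ := d.support.exists_min_image (fun g => (d.coeff g).order + μ g * x) (supp_ne hd)
  refine ⟨(d.coeff g).order + μ g * x, fun g' r hr => (h g' (mem_supp hr)).trans ?_, g, _,
    HahnSeries.coeff_order_eq_zero.not.2 (SkewMonoidAlgebra.mem_support_iff.1 hg), rfl⟩
  linarith [HahnSeries.order_le_of_coeff_ne_zero hr]

/-- least group element attaining the minimum -/
lemma IsMin.least {d : R} {x c : ℝ} (h : IsMin d x c) : ∃ g r, (d.coeff g).coeff r ≠ 0 ∧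
    c = r + μ g * x ∧ ∀ g' r', (d.coeff g').coeff r' ≠ 0 → c = r' + μ g' * x → g ≤ g' := by
  classical
  obtain ⟨g0, r0, h1, h2⟩ := h.2
  obtain ⟨g, hg, hm⟩ := (d.support.filter fun g => ∃ r, (d.coeff g).coeff r ≠ 0 ∧
    c = r + μ g * x).exists_min_image id ⟨g0, Finset.mem_filter.2 ⟨mem_supp h1, r0, h1, h2⟩⟩
  obtain ⟨r, h3, h4⟩ := (Finset.mem_filter.1 hg).2
  exact ⟨g, r, h3, h4, fun g' r' a b => hm g' (Finset.mem_filter.2 ⟨mem_supp a, r', a, b⟩)⟩

lemma mul_supp {a b : K} {g : Γ} {s : ℝ} (h : (a * g • b).coeff s ≠ 0) :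
    ∃ r1 r2, a.coeff r1 ≠ 0 ∧ b.coeff r2 ≠ 0 ∧ s = r1 + μ g * r2 := by
  obtain ⟨r1, h1, r2, h2, h3⟩ := HahnSeries.support_mul_subset (x := a) (y := g • b) h
  refine ⟨r1, r2 / μ g, h1, by rw [← smul_coeff]; exact h2, ?_⟩
  rw [mul_div_cancel₀ _ (μ_pos g).ne']
  exact h3.symm

lemma coeff_mul' (d e : R) (n : Γ) (s : ℝ) : ((d * e).coeff n).coeff s =
    ∑ g ∈ d.support, (d.coeff g * g • e.coeff (g⁻¹ * n)).coeff s := by
  rw [SkewMonoidAlgebra.coeff_mul_left, SkewMonoidAlgebra.sum_def', HahnSeries.coeff_sum]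

lemma lead (a b : K) (r1 r2 : ℝ) (h1 : a.coeff r1 ≠ 0) (h2 : b.coeff r2 ≠ 0)
    (m1 : ∀ r, a.coeff r ≠ 0 → r1 ≤ r) (m2 : ∀ r, b.coeff r ≠ 0 → r2 ≤ r) :
    (a * b).coeff (r1 + r2) ≠ 0 := by
  have a0 : a ≠ 0 := fun h => h1 (by rw [h]; rfl)
  have b0 : b ≠ 0 := fun h => h2 (by rw [h]; rfl)
  have e1 : r1 = a.order := le_antisymm (m1 _ (HahnSeries.coeff_order_eq_zero.not.2 a0))
    (HahnSeries.order_le_of_coeff_ne_zero h1)
  have e2 : r2 = b.order := le_antisymm (m2 _ (HahnSeries.coeff_order_eq_zero.not.2 b0))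
    (HahnSeries.order_le_of_coeff_ne_zero h2)
  rw [e1, e2, HahnSeries.coeff_mul_order_add_order]
  exact mul_ne_zero (HahnSeries.leadingCoeff_ne_zero.2 a0) (HahnSeries.leadingCoeff_ne_zero.2 b0)

lemma IsMin.mul {d e : R} {x y c : ℝ} (hd : IsMin d y c) (he : IsMin e x y) :
    IsMin (d * e) x c := by
  constructor
  · intro n s h
    rw [coeff_mul'] at h
    obtain ⟨g, -, hg⟩ := Finset.exists_ne_zero_of_sum_ne_zero h
    obtain ⟨r1, r2, h1, h2, rfl⟩ := mul_supp hg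
    have a1 := hd.1 g r1 h1
    have a2 := mul_le_mul_of_nonneg_left (he.1 _ r2 h2) (μ_pos g).le
    have : μ g * μ (g⁻¹ * n) = μ n := by rw [← map_mul]; simp
    rw [mul_add, ← mul_assoc, this] at a2
    linarith
  · obtain ⟨g, r1, h1, e1, m1⟩ := hd.least
    obtain ⟨k, r2, h2, e2, m2⟩ := he.least
    refine ⟨g * k, r1 + μ g * r2, ?_, by rw [e1, e2, map_mul]; ring⟩
    rw [coeff_mul', Finset.sum_eq_single g]
    · rw [inv_mul_cancel_left]
      refine lead _ _ _ _ h1 ?_ (fun r hr => ?_) fun r hr => ?_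
      · rw [smul_coeff, mul_div_cancel_left₀ _ (μ_pos g).ne']; exact h2
      · linarith [hd.1 g r hr]
      · rw [smul_coeff] at hr
        have := he.1 k _ hr
        rw [← le_div_iff₀' (μ_pos g)]
        linarith
    · intro g' _ hne
      by_contra hc
      obtain ⟨s1, s2, b1, b2, b3⟩ := mul_supp hc
      have a1 := hd.1 g' s1 b1
      have a2 := he.1 _ s2 b2
      have a3 := mul_le_mul_of_nonneg_left a2 (μ_pos g').le
      have hm : μ g' * μ (g'⁻¹ * (g * k)) = μ g * μ k := by rw [← map_mul, ← map_mul]; simp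
      rw [mul_add, ← mul_assoc, hm] at a3
      have hc' : c = s1 + μ g' * s2 + μ g * μ k * x := by rw [← b3, e1, e2]; ring
      have f1 : c = s1 + μ g' * y := by linarith
      have f2 : y = s2 + μ (g'⁻¹ * (g * k)) * x := by
        apply mul_left_cancel₀ (μ_pos g').ne'
        rw [mul_add, ← mul_assoc, hm]
        linarith
      have l1 := m1 g' s1 b1 f1
      have l2 := m2 _ s2 b2 f2
      rw [le_inv_mul_iff_mul_le, mul_le_mul_iff_right] at l2
      exact hne (le_antisymm l2 l1)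
    · exact fun h => absurd (mem_supp h1) h

lemma IsMin.lt {d : R} {x x' c c' : ℝ} (h : IsMin d x c) (h' : IsMin d x' c') (hx : x < x') :
    c < c' := by
  obtain ⟨g, r, h1, h2⟩ := h'.2
  have := h.1 g r h1
  nlinarith [μ_pos g]

lemma exists_isMin' {d : R} (hd : d ≠ 0) (c : ℝ) : ∃ x, IsMin d x c := by
  obtain ⟨g, hg, h⟩ := d.support.exists_max_image (fun g => (c - (d.coeff g).order) / μ g)
    (supp_ne hd)
  refine ⟨(c - (d.coeff g).order) / μ g, fun g' r hr => ?_, g, _,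
    HahnSeries.coeff_order_eq_zero.not.2 (SkewMonoidAlgebra.mem_support_iff.1 hg), ?_⟩
  · have := h g' (mem_supp hr)
    rw [div_le_iff₀' (μ_pos g')] at this
    linarith [HahnSeries.order_le_of_coeff_ne_zero hr]
  · rw [mul_div_cancel₀ _ (μ_pos g).ne']; ring

noncomputable def iso (d : R) (hd : d ≠ 0) : ℝ ≃o ℝ :=
  StrictMono.orderIsoOfSurjective (fun x => (exists_isMin hd x).choose)
    (fun x x' h => (exists_isMin hd x).choose_spec.lt (exists_isMin hd x').choose_spec h)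
    (fun c => by
      obtain ⟨x, hx⟩ := exists_isMin' hd c
      exact ⟨x, (exists_isMin hd x).choose_spec.unique hx⟩)

lemma iso_spec (d : R) (hd : d ≠ 0) (x : ℝ) : IsMin d x (iso d hd x) :=
  (exists_isMin hd x).choose_spec

lemma isMin_single (g : Γ) (a x : ℝ) :
    IsMin (SkewMonoidAlgebra.single g (HahnSeries.single a 1)) x (a + μ g * x) := by
  classical
  constructor
  · intro g' r h
    by_cases hg : g = g'
    · subst hg
      by_cases hr : r = a
      · rw [hr]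
      · simp [HahnSeries.coeff_single_of_ne hr] at h
    · simp [Finsupp.single_apply, hg] at h
  · exact ⟨g, a, by simp, rfl⟩

open Classical in
noncomputable def f : R →* WithZero (ℝ ≃o ℝ) where
  toFun d := if h : d = 0 then 0 else (iso d h : ℝ ≃o ℝ)
  map_one' := by
    rw [dif_neg one_ne_zero, ← WithZero.coe_one, WithZero.coe_inj]
    ext x
    have := isMin_single 1 0 x
    rw [μ.map_one, zero_add, one_mul] at this
    exact (iso_spec _ _ x).unique this
  map_mul' d e := by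
    by_cases hd : d = 0
    · simp [hd]
    by_cases he : e = 0
    · simp [he]
    rw [dif_neg hd, dif_neg he, dif_neg (mul_ne_zero hd he), ← WithZero.coe_mul, WithZero.coe_inj]
    ext x
    exact (iso_spec _ _ x).unique ((iso_spec d hd _).mul (iso_spec e he x))

lemma f_apply (d : R) (hd : d ≠ 0) : f d = (iso d hd : ℝ ≃o ℝ) := dif_neg hd

theorem package {R T : Type} [Ring R] [Nontrivial R] [NoZeroDivisors R]
    [OreLocalization.OreSet R⁰] [GroupWithZero T] (f : R →* T) (hf : ∀ r, r ≠ 0 → f r ≠ 0) :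
    ∃ (D : Type) (_ : DivisionRing D) (ι : R →+* D) (Ψ : D →* T), Function.Injective ι ∧
      (∀ r, Ψ (ι r) = f r) ∧ ∀ d e : D, ∃ s r r' : R, s ≠ 0 ∧ ι s * d = ι r ∧ ι s * e = ι r' := by
  have hu : ∀ s : R⁰, IsUnit ((f.comp R⁰.subtype) s) := fun s =>
    isUnit_iff_ne_zero.2 (hf _ (nonZeroDivisors.coe_ne_zero s))
  refine ⟨OreLocalization R⁰ R, inferInstance, OreLocalization.numeratorRingHom,
    OreLocalization.universalMulHom f (IsUnit.liftRight _ hu) (fun s => rfl),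
    OreLocalization.numeratorHom_inj fun _ h => h.1,
    fun r => OreLocalization.universalMulHom_commutes _ _ _, fun d e => ?_⟩
  induction d using OreLocalization.ind with | _ r1 s1
  induction e using OreLocalization.ind with | _ r2 s2
  have h := OreLocalization.ore_eq (s1 : R) s2
  refine ⟨OreLocalization.oreDenom (s1 : R) s2 * s1, OreLocalization.oreDenom (s1 : R) s2 * r1,
    OreLocalization.oreNum (s1 : R) s2 * r2, mul_ne_zero (nonZeroDivisors.coe_ne_zero _)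
    (nonZeroDivisors.coe_ne_zero s1), ?_, ?_⟩
  · exact OreLocalization.mul_cancel'
  · rw [h]; exact OreLocalization.mul_cancel'

section
variable {D : Type} [DivisionRing D] (ι : R →+* D) (Ψ : D →* WithZero (ℝ ≃o ℝ))
  (hι : Function.Injective ι) (Ψ_ι : ∀ r, Ψ (ι r) = f r)
  (common : ∀ d e : D, ∃ s r r' : R, s ≠ 0 ∧ ι s * d = ι r ∧ ι s * e = ι r')

lemma Ψ_ne {d : D} (hd : d ≠ 0) : Ψ d ≠ 0 := ((isUnit_iff_ne_zero.2 hd).map Ψ).ne_zero

open Classical in
noncomputable def P (d : D) : ℝ ≃o ℝ := if h : Ψ d = 0 then 1 else WithZero.unzero h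

lemma P_coe {d : D} (hd : d ≠ 0) : (P Ψ d : WithZero (ℝ ≃o ℝ)) = Ψ d := by
  rw [P, dif_neg (Ψ_ne Ψ hd), WithZero.coe_unzero]

lemma P_mul (d e : D) (hd : d ≠ 0) (he : e ≠ 0) (x : ℝ) :
    P Ψ (d * e) x = P Ψ d (P Ψ e x) := by
  have : P Ψ (d * e) = P Ψ d * P Ψ e := by
    rw [← WithZero.coe_inj, WithZero.coe_mul, P_coe Ψ hd, P_coe Ψ he, P_coe Ψ (mul_ne_zero hd he),
      map_mul]
  rw [this]; rfl

include hι in
lemma ι_ne {r : R} (hr : r ≠ 0) : ι r ≠ 0 := fun h => hr (hι (h.trans (map_zero ι).symm))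

include hι Ψ_ι in
lemma P_ι (r : R) (hr : r ≠ 0) (x : ℝ) : IsMin r x (P Ψ (ι r) x) := by
  have : P Ψ (ι r) = iso r hr := by
    rw [← WithZero.coe_inj, P_coe Ψ (ι_ne ι hι hr), Ψ_ι, f_apply]
  rw [this]; exact iso_spec r hr x

include hι Ψ_ι common in
lemma P_add (d e : D) (hd : d ≠ 0) (he : e ≠ 0) (h : d + e ≠ 0) (x : ℝ) :
    min (P Ψ d x) (P Ψ e x) ≤ P Ψ (d + e) x := by
  obtain ⟨s, r, r', hs, h1, h2⟩ := common d e
  have s0 := ι_ne ι hι hs
  have h3 : ι s * (d + e) = ι (r + r') := by rw [mul_add, h1, h2, map_add]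
  have r0 : r ≠ 0 := fun h => mul_ne_zero s0 hd (by rw [h1, h, map_zero])
  have r0' : r' ≠ 0 := fun h => mul_ne_zero s0 he (by rw [h2, h, map_zero])
  have r0'' : r + r' ≠ 0 := fun h' => mul_ne_zero s0 h (by rw [h3, h', map_zero])
  rw [← (P Ψ (ι s)).le_iff_le, (P Ψ (ι s)).monotone.map_min, ← P_mul Ψ _ _ s0 hd,
    ← P_mul Ψ _ _ s0 he, ← P_mul Ψ _ _ s0 h, h1, h2, h3]
  obtain ⟨g, t, a1, a2⟩ := (P_ι ι Ψ hι Ψ_ι _ r0'' x).2
  rw [a2]
  by_cases b : (r.coeff g).coeff t = 0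
  · refine (min_le_right _ _).trans ((P_ι ι Ψ hι Ψ_ι _ r0' x).1 g t fun b' => a1 ?_)
    simp [b, b']
  · exact (min_le_left _ _).trans ((P_ι ι Ψ hι Ψ_ι _ r0 x).1 g t b)

noncomputable def data : Pool.Agent.H64.Chain1.Data D where
  P := P Ψ
  mul := P_mul Ψ
  add := P_add ι Ψ hι Ψ_ι common
  ex a l hl := by
    have h0 : (SkewMonoidAlgebra.single (ofAdd (Real.log l)) (HahnSeries.single a 1) : R) ≠ 0 := by
      rw [Ne, SkewMonoidAlgebra.single_eq_zero]
      simp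
    refine ⟨ι _, ι_ne ι hι h0, fun x => ?_⟩
    rw [(P_ι ι Ψ hι Ψ_ι _ h0 x).unique (isMin_single _ a x)]
    have : μ (ofAdd (Real.log l)) = l := Real.exp_log hl
    rw [this]

end

theorem exists_data : ∃ (D : Type) (_ : DivisionRing D),
    Nonempty (Pool.Agent.H64.Chain1.Data D) := by
  obtain ⟨D, _, ι, Ψ, h1, h2, h3⟩ := package f fun r hr => by
    rw [f_apply r hr]; exact WithZero.coe_ne_zero
  exact ⟨D, inferInstance, ⟨data ι Ψ h1 h2 h3⟩⟩

end Pool.Agent.H64.Chain2
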