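import Pool.Agent.H64.CheinDefs

namespace Pool.Agent.H64.Chein

open FreeGroup hiding map_mul map_inv map_one
open Pool.Agent.H64.CheinDefs

variable {n : ℕ}

def e (i : Fin n) (u v : FreeGroup (Fin n)) : FreeGroup (Fin n) →* FreeGroup (Fin n) :=
  FreeGroup.lift fun m => if m = i then u * of i * v else of m

lemma e_of (i m : Fin n) (u v : FreeGroup (Fin n)) :
    e i u v (of m) = if m = i then u * of i * v else of m := by simp [e]

def aut (i : Fin n) (u v : FreeGroup (Fin n)) (h : ∀ a b, e i a b u = u ∧ e i a b v = v) :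
    MulAut (FreeGroup (Fin n)) :=
  MonoidHom.toMulEquiv (e i u v) (e i u⁻¹ v⁻¹)
    (by
      ext m
      by_cases hm : m = i
      · simp [e_of, hm, h, mul_assoc]
      · simp [e_of, hm])
    (by
      ext m
      by_cases hm : m = i
      · simp [e_of, hm, h, mul_assoc]
      · simp [e_of, hm])

def K (i j : Fin n) (h : j ≠ i) : MulAut (FreeGroup (Fin n)) :=
  aut i (of j) (of j)⁻¹ fun a b => by simp [e_of, h]

def K3 (i j k : Fin n) (h : j ≠ i) (h' : k ≠ i) : MulAut (FreeGroup (Fin n)) :=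
  aut i 1 (of j * of k * (of j)⁻¹ * (of k)⁻¹) fun a b => by simp [e_of, h, h']

lemma K_of (i j m : Fin n) (h : j ≠ i) :
    K i j h (of m) = if m = i then of j * of i * (of j)⁻¹ else of m := e_of _ _ _ _
lemma K_inv_of (i j m : Fin n) (h : j ≠ i) :
    (K i j h)⁻¹ (of m) = if m = i then (of j)⁻¹ * of i * (of j)⁻¹⁻¹ else of m := e_of _ _ _ _
lemma K3_of (i j k m : Fin n) (h : j ≠ i) (h' : k ≠ i) : K3 i j k h h' (of m) =
    if m = i then 1 * of i * (of j * of k * (of j)⁻¹ * (of k)⁻¹) else of m := e_of _ _ _ _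
lemma K3_inv_of (i j k m : Fin n) (h : j ≠ i) (h' : k ≠ i) : (K3 i j k h h')⁻¹ (of m) =
    if m = i then 1⁻¹ * of i * (of j * of k * (of j)⁻¹ * (of k)⁻¹)⁻¹ else of m := e_of _ _ _ _

lemma aut_ext {φ ψ : MulAut (FreeGroup (Fin n))} (h : ∀ m, φ (of m) = ψ (of m)) : φ = ψ := by
  apply MulEquiv.toMonoidHom_injective
  exact FreeGroup.ext_hom _ _ h

lemma mem_IA {φ : MulAut (FreeGroup (Fin n))}
    (h : ∀ m, Abelianization.of (φ (of m)) = Abelianization.of (of m)) : φ ∈ IA n := by
  have : Abelianization.of.comp φ.toMonoidHom = Abelianization.of := FreeGroup.ext_hom _ _ h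
  exact fun x => DFunLike.congr_fun this x

lemma K_IA (i j : Fin n) (h : j ≠ i) : K i j h ∈ IA n := mem_IA fun m => by
  rw [K_of]; split_ifs with hm
  · simp [hm]
  · rfl

lemma K3_IA (i j k : Fin n) (h : j ≠ i) (h' : k ≠ i) : K3 i j k h h' ∈ IA n := mem_IA fun m => by
  rw [K3_of]; split_ifs with hm
  · simp [hm]
  · rfl

lemma K_C (i j : Fin n) (h : j ≠ i) : K i j h ∈ C n :=
  Subgroup.subset_closure ⟨i, j, h.symm, by simp [K_of], fun m hm => by simp [K_of, hm]⟩

lemma K3_T (i j k : Fin n) (h : j ≠ i) (h' : k ≠ i) (hjk : j < k) : K3 i j k h h' ∈ T n :=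
  Subgroup.subset_closure ⟨i, j, k, h.symm, hjk, h', by simp [K3_of],
    fun m hm => by simp [K3_of, hm]⟩

section
variable {x y z : Fin n} (xy : x ≠ y) (xz : x ≠ z) (yz : y ≠ z)

def L : MulAut (FreeGroup (Fin n)) :=
  (K x y xy.symm)⁻¹ * K3 y x z xy yz.symm * K x z xz.symm * K x y xy.symm * (K y z yz.symm)⁻¹ *
    (K3 x y z xy.symm xz.symm)⁻¹

def R : MulAut (FreeGroup (Fin n)) :=
  K x z xz.symm * (K3 x y z xy.symm xz.symm)⁻¹ * K y x xy * K3 y x z xy yz.symm *
    (K y z yz.symm)⁻¹ * (K y x xy)⁻¹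

lemma L_of (m : Fin n) : L xy xz yz (of m) =
    if m = x then of x * of x * of y * (of z)⁻¹ * (of y)⁻¹ * (of x)⁻¹ * of z
    else if m = y then (of z)⁻¹ * of x * of y * of z * (of y)⁻¹ * (of x)⁻¹ * of y else of m := by
  have := xy.symm
  have := xz.symm
  have := yz.symm
  split_ifs with h1 h2
  · subst h1
    simp only [L, MulAut.mul_apply, K_of, K_inv_of, K3_of, K3_inv_of, if_true, if_false, map_mul,
      map_inv, map_one, *]
    group
  · subst h2
    simp only [L, MulAut.mul_apply, K_of, K_inv_of, K3_of, K3_inv_of, if_true, if_false, map_mul,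
      map_inv, map_one, *]
    group
  · simp only [L, MulAut.mul_apply, K_of, K_inv_of, K3_of, K3_inv_of, if_false, *]

lemma R_of (m : Fin n) : R xy xz yz (of m) =
    if m = x then of z * of x * of y * (of z)⁻¹ * (of y)⁻¹
    else if m = y then of y * of z * (of y)⁻¹ * (of x)⁻¹ * (of z)⁻¹ * of x * of y else of m := by
  have := xy.symm
  have := xz.symm
  have := yz.symm
  split_ifs with h1 h2
  · subst h1
    simp only [R, MulAut.mul_apply, K_of, K_inv_of, K3_of, K3_inv_of, if_true, if_false, map_mul,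
      map_inv, map_one, *]
    group
  · subst h2
    simp only [R, MulAut.mul_apply, K_of, K_inv_of, K3_of, K3_inv_of, if_true, if_false, map_mul,
      map_inv, map_one, *]
    group
  · simp only [R, MulAut.mul_apply, K_of, K_inv_of, K3_of, K3_inv_of, if_false, *]

lemma LR : L xy xz yz * R xy xz yz = R xy xz yz * L xy xz yz := by
  have := xy.symm
  have := xz.symm
  have := yz.symm
  refine aut_ext fun m => ?_
  by_cases h1 : m = x
  · subst h1
    simp only [MulAut.mul_apply, L_of, R_of, if_true, if_false, map_mul, map_inv, *]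
    group
  by_cases h2 : m = y
  · subst h2
    simp only [MulAut.mul_apply, L_of, R_of, if_true, if_false, map_mul, map_inv, *]
    group
  · simp only [MulAut.mul_apply, L_of, R_of, if_false, *]

end

theorem main (n : ℕ) (hn : 3 ≤ n) : Cbar n ⊓ T n ≠ ⊥ := by
  let x : Fin n := ⟨0, by omega⟩
  let y : Fin n := ⟨1, by omega⟩
  let z : Fin n := ⟨2, by omega⟩
  have xy : x ≠ y := by simp [x, y]
  have xz : x ≠ z := by simp [x, z]
  have yz : y ≠ z := by simp [y, z]
  let a := K3 x y z xy.symm xz.symm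
  let b := K3 y x z xy yz.symm
  have ha : a ∈ T n := K3_T _ _ _ _ _ (by simp [y, z])
  have hb : b ∈ T n := K3_T _ _ _ _ _ (by simp [x, z])
  intro hbot
  have hmem : (b * a⁻¹) * (a⁻¹ * b) * ((a⁻¹ * b) * (b * a⁻¹))⁻¹ ∈ Cbar n ⊓ T n := by
    refine ⟨?_, by
      refine (T n).mul_mem ((T n).mul_mem ?_ ?_) ((T n).inv_mem ((T n).mul_mem ?_ ?_)) <;>
        apply (T n).mul_mem <;> first | assumption | exact (T n).inv_mem ha⟩
    let N := Subgroup.normalClosure ((C n).subgroupOf (IA n) : Set (IA n))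
    let π := QuotientGroup.mk' N
    let k : ∀ i j : Fin n, j ≠ i → IA n := fun i j h => ⟨K i j h, K_IA i j h⟩
    have hk : ∀ i j h, π (k i j h) = 1 := fun i j h =>
      (QuotientGroup.eq_one_iff _).2 (Subgroup.subset_normalClosure (K_C i j h))
    let a' : IA n := ⟨a, K3_IA _ _ _ _ _⟩
    let b' : IA n := ⟨b, K3_IA _ _ _ _ _⟩
    let L' : IA n := (k x y xy.symm)⁻¹ * b' * k x z xz.symm * k x y xy.symm * (k y z yz.symm)⁻¹ * a'⁻¹
    let R' : IA n := k x z xz.symm * a'⁻¹ * k y x xy * b' * (k y z yz.symm)⁻¹ * (k y x xy)⁻¹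
    have hLR : L' * R' = R' * L' := Subtype.ext (LR xy xz yz)
    have hL : π L' = π (b' * a'⁻¹) := by simp only [L', map_mul, map_inv, hk]; group
    have hR : π R' = π (a'⁻¹ * b') := by simp only [R', map_mul, map_inv, hk]; group
    refine ⟨(b' * a'⁻¹) * (a'⁻¹ * b') * ((a'⁻¹ * b') * (b' * a'⁻¹))⁻¹, ?_, rfl⟩
    apply (QuotientGroup.eq_one_iff (N := N) _).1
    show π _ = 1
    rw [map_mul, map_inv, map_mul π (b' * a'⁻¹), map_mul π (a'⁻¹ * b'), ← hL, ← hR, ← map_mul, hLR,
      ← map_mul, mul_inv_cancel]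
  rw [hbot, Subgroup.mem_bot, mul_inv_eq_one] at hmem
  have h1 := DFunLike.congr_fun hmem (of x)
  let f : FreeGroup (Fin n) →* Equiv.Perm (Fin 3) := FreeGroup.lift fun m =>
    if m = x then (1 : Equiv.Perm (Fin 3)) else if m = y then Equiv.swap 1 2 else Equiv.swap 0 1
  have := xy.symm
  have := xz.symm
  have := yz.symm
  have fx : f (of x) = (1 : Equiv.Perm (Fin 3)) := by simp [f]
  have fy : f (of y) = Equiv.swap 1 2 := by simp [f, *]
  have fz : f (of z) = Equiv.swap 0 1 := by simp [f, *]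
  have h2 := congrArg f h1
  simp only [a, b, MulAut.mul_apply, K3_of, K3_inv_of, if_true, if_false, map_mul, map_inv,
    map_one, xy, xz, yz, xy.symm, xz.symm, yz.symm, fx, fy, fz] at h2
  exact absurd h2 (by decide +kernel)

end Pool.Agent.H64.Chein
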