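import Mathlib

/-! The subgroups IA, C, T of the automorphism group of a free group. -/

namespace Pool.Agent.H64.CheinDefs

open FreeGroup

/-- `IA(F(n))`: automorphisms acting trivially on the abelianization. -/
def IA (n : ℕ) : Subgroup (MulAut (FreeGroup (Fin n))) where
  carrier := {φ | ∀ x, Abelianization.of (φ x) = Abelianization.of x}
  one_mem' := fun _ => rfl
  mul_mem' := fun ha hb x => (ha _).trans (hb x)
  inv_mem' := fun {φ} h x => (h _).symm.trans (congrArg _ (φ.apply_symm_apply x))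

/-- `C(n)`, generated by the `K_ij : x_i ↦ x_j x_i x_j⁻¹`. -/
def C (n : ℕ) : Subgroup (MulAut (FreeGroup (Fin n))) :=
  Subgroup.closure {φ | ∃ i j : Fin n, i ≠ j ∧ φ (of i) = of j * of i * (of j)⁻¹ ∧
    ∀ m, m ≠ i → φ (of m) = of m}

/-- `T(n)`, generated by the `K_ijk : x_i ↦ x_i x_j x_k x_j⁻¹ x_k⁻¹`, `i ≠ j < k ≠ i`. -/
def T (n : ℕ) : Subgroup (MulAut (FreeGroup (Fin n))) :=
  Subgroup.closure {φ | ∃ i j k : Fin n, i ≠ j ∧ j < k ∧ k ≠ i ∧
    φ (of i) = of i * (of j * of k * (of j)⁻¹ * (of k)⁻¹) ∧ ∀ m, m ≠ i → φ (of m) = of m}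

/-- The normal closure of `C(n)` in `IA(F(n))`. -/
def Cbar (n : ℕ) : Subgroup (MulAut (FreeGroup (Fin n))) :=
  (Subgroup.normalClosure ((C n).subgroupOf (IA n) : Set (IA n))).map (IA n).subtype

end Pool.Agent.H64.CheinDefs
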