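import Mathlib

set_option autoImplicit false

namespace Pool.Agent.H64.Defect

open scoped commutatorElement

/-- vectors -/
abbrev V := Fin 10 → ℚ
/-- endomorphisms -/
abbrev R := Module.End ℚ V
/-- levels -/
def lev : Fin 10 → ℕ := ![0, 1, 1, 2, 3, 3, 4, 5, 5, 6]

/-- filtration -/
def F (k : ℕ) : Submodule ℚ R where
  carrier := {f | ∀ l (m : V), (∀ i, lev i < l → m i = 0) → ∀ i, lev i < l + k → f m i = 0}
  zero_mem' _ _ _ _ _ := rfl
  add_mem' {f g} hf hg l m hm i hi := by simp [hf l m hm i hi, hg l m hm i hi]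
  smul_mem' c f hf l m hm i hi := by simp [hf l m hm i hi]

theorem mulF {f g : R} {i j : ℕ} (hf : f ∈ F i) (hg : g ∈ F j) {k : ℕ} (h : k ≤ i + j := by omega) :
    f * g ∈ F k := fun l m hm a ha => hf (l + j) (g m) (hg l m hm) a (by omega)

theorem monoF {f : R} {i : ℕ} (hf : f ∈ F i) {k : ℕ} (h : k ≤ i := by omega) : f ∈ F k :=
  fun l m hm a ha => hf l m hm a (by omega)

theorem oneF : (1 : R) ∈ F 0 := fun _ _ hm a ha => hm a ha

theorem lev_le (i : Fin 10) : lev i < 7 := by revert i; decide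

theorem F7 {f : R} (hf : f ∈ F 7) : f = 0 := by
  refine LinearMap.ext fun m => funext fun i => ?_
  exact hf 0 m (by simp) i (by simpa using lev_le i)

theorem memF {f : R} {k : ℕ} (h : ∀ (m : V) i, (∀ j, lev j + k ≤ lev i → m j = 0) → f m i = 0) :
    f ∈ F k := fun _ m hm i hi => h m i fun j hj => hm j (by omega)

/-- the corner -/
def E : R := (LinearMap.single ℚ (fun _ => ℚ) 9).comp (LinearMap.proj 0)

/-- first vector -/
def e0 : V := ![1, 0, 0, 0, 0, 0, 0, 0, 0, 0]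

theorem E_apply (m : V) (i : Fin 10) : E m i = if i = 9 then m 0 else 0 := by
  simp [E, Pi.single_apply]

theorem F6 {f : R} (hf : f ∈ F 6) : f = f e0 9 • E := by
  refine LinearMap.ext fun m => funext fun i => ?_
  have h1 : f (m - m 0 • e0) i = 0 := hf 1 _ (fun j hj => by
    fin_cases j <;> simp [lev] at hj; simp [e0]) i (lev_le i)
  rw [map_sub, map_smul, Pi.sub_apply, sub_eq_zero] at h1
  rw [h1, LinearMap.smul_apply, Pi.smul_apply, Pi.smul_apply, E_apply]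
  split_ifs with h
  · simp [h, mul_comm]
  · rw [hf 0 e0 (by simp) i (by clear h1; revert i; decide)]; simp

theorem EF : E ∈ F 6 := memF fun m i h => by
  rw [E_apply]; split_ifs with hi
  · exact h 0 (by subst hi; decide)
  · rfl

theorem powF {f : R} (hf : f ∈ F 1) (n : ℕ) : f ^ n ∈ F n := by
  induction n with
  | zero => exact oneF
  | succ n ih => rw [pow_succ]; exact mulF ih hf

theorem geom {f : R} (hf : f ∈ F 1) : (1 + f) * ∑ i ∈ Finset.range 7, (-f) ^ i = 1 ∧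
    (∑ i ∈ Finset.range 7, (-f) ^ i) * (1 + f) = 1 := by
  have h := F7 (powF ((F 1).neg_mem hf) 7)
  have h1 := mul_neg_geom_sum (-f) 7
  have h2 := geom_sum_mul_neg (-f) 7
  rw [h, sub_zero, sub_neg_eq_add] at h1 h2
  exact ⟨h1, h2⟩

/-- unit `1 + f` -/
def un {f : R} (hf : f ∈ F 1) : Rˣ := ⟨1 + f, _, (geom hf).1, (geom hf).2⟩

theorem inv0 {g : Rˣ} (hg : (g : R) - 1 ∈ F 1) : ((g⁻¹ : Rˣ) : R) ∈ F 0 := by
  have : g = un hg := Units.ext (by simp [un])
  rw [this]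
  exact (F 0).sum_mem fun i _ => monoF (powF ((F 1).neg_mem hg) i)

theorem inv_eq1 (g : Rˣ) : ((g⁻¹ : Rˣ) : R) - 1 = -(((g : R) - 1) * (g⁻¹ : Rˣ)) := by
  simp [sub_mul]

theorem invF {g : Rˣ} {k : ℕ} (hk : 1 ≤ k) (hg : (g : R) - 1 ∈ F k) :
    ((g⁻¹ : Rˣ) : R) - 1 ∈ F k ∧ ((g⁻¹ : Rˣ) : R) - 1 + ((g : R) - 1) ∈ F (k + 1) := by
  have h1 : ((g⁻¹ : Rˣ) : R) - 1 ∈ F k := by
    rw [inv_eq1]; exact (F k).neg_mem (mulF hg (inv0 (monoF hg)))
  refine ⟨h1, ?_⟩
  have : ((g⁻¹ : Rˣ) : R) - 1 + ((g : R) - 1) = -(((g : R) - 1) * (((g⁻¹ : Rˣ) : R) - 1)) := by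
    simp only [sub_mul, mul_sub, Units.mul_inv, mul_one, one_mul]; abel
  rw [this]; exact (F _).neg_mem (mulF hg h1)

theorem mul_sub1 (x y : R) : x * y - 1 = (x - 1) + (y - 1) + (x - 1) * (y - 1) := by
  simp only [mul_add, add_mul, mul_sub, sub_mul, mul_assoc, mul_one, one_mul]; abel

/-- ring commutator -/
def ad (x y : R) : R := x * y - y * x

theorem adF {f g : R} {i j : ℕ} (hf : f ∈ F i) (hg : g ∈ F j) {k : ℕ} (h : k ≤ i + j := by omega) :
    ad f g ∈ F k := (F k).sub_mem (mulF hf hg) (mulF hg hf)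

theorem comm_eq (g h : Rˣ) : ((⁅g, h⁆ : Rˣ) : R) - 1 =
    ad ((g : R) - 1) ((h : R) - 1) * ((g⁻¹ * h⁻¹ : Rˣ) : R) := by
  have : ad ((g : R) - 1) ((h : R) - 1) = g * h - h * g := by
    rw [ad]; simp only [mul_add, add_mul, mul_sub, sub_mul, mul_assoc, mul_one, one_mul]; abel
  rw [this, sub_mul, ← Units.val_mul, ← Units.val_mul, ← Units.val_mul, ← Units.val_mul,
    commutatorElement_def]
  simp [mul_assoc]

theorem invinv {g h : Rˣ} (hg : (g : R) - 1 ∈ F 1) (hh : (h : R) - 1 ∈ F 1) :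
    ((g⁻¹ * h⁻¹ : Rˣ) : R) - 1 ∈ F 1 ∧
      ((g⁻¹ * h⁻¹ : Rˣ) : R) - 1 + ((g : R) - 1) + ((h : R) - 1) ∈ F 2 := by
  obtain ⟨a1, a2⟩ := invF le_rfl hg
  obtain ⟨b1, b2⟩ := invF le_rfl hh
  rw [Units.val_mul, mul_sub1]
  refine ⟨add_mem (add_mem a1 b1) (mulF a1 b1), ?_⟩
  convert add_mem (add_mem a2 b2) (mulF a1 b1 (k := 2)) using 1; abel

theorem comm1 {g h : Rˣ} {i : ℕ} (hi : 1 ≤ i) (hg : (g : R) - 1 ∈ F i) (hh : (h : R) - 1 ∈ F 1) :
    ((⁅g, h⁆ : Rˣ) : R) - 1 ∈ F (i + 1) ∧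
    ((⁅g, h⁆ : Rˣ) : R) - 1 - ad ((g : R) - 1) ((h : R) - 1) ∈ F (i + 2) := by
  have h1 := (invinv (monoF hg) hh).1
  have h2 : ((⁅g, h⁆ : Rˣ) : R) - 1 - ad ((g : R) - 1) ((h : R) - 1) ∈ F (i + 2) := by
    rw [comm_eq, ← mul_sub_one]; exact mulF (adF hg hh (k := i + 1)) h1
  exact ⟨by simpa using add_mem (monoF h2 (k := i + 1)) (adF hg hh (k := i + 1)), h2⟩

/-- two-jets -/
def Jt (k : ℕ) (x p q : R) : Prop := p ∈ F k ∧ q ∈ F (k + 1) ∧ x - p - q ∈ F (k + 2)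

theorem Jt.mem {k : ℕ} {x p q : R} (h : Jt k x p q) : x - p ∈ F (k + 1) ∧ x ∈ F k := by
  have : x - p ∈ F (k + 1) := by simpa using add_mem (monoF h.2.2 (k := k + 1)) h.2.1
  exact ⟨this, by simpa using add_mem (monoF this (k := k)) h.1⟩

theorem jet {g h : Rˣ} {i : ℕ} (hi : 1 ≤ i) {p q b c : R} (p' : R) (hg : Jt i ((g : R) - 1) p q)
    (hh : Jt 1 ((h : R) - 1) b c) (hp : p - p' ∈ F 2) :
    Jt (i + 1) (((⁅g, h⁆ : Rˣ) : R) - 1) (ad p b) (ad p c + ad q b - ad p b * (p' + b)) := by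
  have hp1 : p' ∈ F 1 := by simpa using sub_mem (monoF hg.1 (k := 1)) (monoF hp (k := 1))
  refine ⟨adF hg.1 hh.1, sub_mem (add_mem (adF hg.1 hh.2.1) (adF hg.2.1 hh.1))
    (mulF (adF hg.1 hh.1 (k := i + 1)) (add_mem hp1 hh.1)), ?_⟩
  obtain ⟨u1, u2⟩ := invinv (monoF hg.mem.2) hh.mem.2
  have w2 : ((g⁻¹ * h⁻¹ : Rˣ) : R) - 1 + p' + b ∈ F 2 := by
    convert sub_mem (sub_mem (sub_mem u2 (monoF hg.mem.1 (k := 2))) hh.mem.1) hp using 1; abel
  have u0 : ((g⁻¹ * h⁻¹ : Rˣ) : R) ∈ F 0 := by simpa using add_mem (monoF u1 (k := 0)) oneF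
  rw [comm_eq]
  generalize ((g⁻¹ * h⁻¹ : Rˣ) : R) = u at *
  generalize (g : R) - 1 = x at *
  generalize (h : R) - 1 = y at *
  have := add_mem (add_mem (mulF (adF hg.1 hh.1 (k := i + 1)) w2 (k := i + 1 + 2))
    (mulF (add_mem (adF hg.1 hh.2.1 (k := i + 2)) (adF hg.2.1 hh.1 (k := i + 2))) u1))
    (mulF (add_mem (add_mem (adF hg.1 hh.2.2 (k := i + 3)) (adF hg.2.1 hh.mem.1))
      (adF hg.2.2 hh.mem.2)) u0)
  convert this using 1
  simp only [ad, mul_add, add_mul, mul_sub, sub_mul, mul_assoc, mul_one, one_mul]; abel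

/-- iterated commutator -/
def adl (t : R) : List R → R := List.foldl ad t

theorem adl_cons (t x : R) (l : List R) : adl t (x :: l) = adl (ad t x) l := rfl

theorem adl_add (l : List R) : ∀ s t : R, adl (s + t) l = adl s l + adl t l := by
  induction l with
  | nil => intro s t; rfl
  | cons x l ih =>
    intro s t
    rw [adl_cons, adl_cons, adl_cons, ← ih]; congr 1; simp only [ad, mul_add, add_mul, mul_sub, sub_mul, mul_assoc, mul_one, one_mul]; abel

theorem adlF (l : List R) (hl : ∀ x ∈ l, x ∈ F 1) : ∀ {t : R} {i : ℕ}, t ∈ F i →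
    adl t l ∈ F (i + l.length) := by
  induction l with
  | nil => intro t i h; exact h
  | cons x l ih =>
    intro t i h
    exact monoF (ih (fun y hy => hl y (by simp [hy])) (adF h (hl x (by simp)) (k := i + 1)))
      (by simp; omega)

theorem adl_congr (l : List R) (hl : ∀ x ∈ l, x ∈ F 1) {s t : R} {i : ℕ} (h : s - t ∈ F i)
    (hi : 7 ≤ i + l.length) : adl s l = adl t l := by
  have := adl_add l (s - t) t
  rwa [sub_add_cancel, F7 (monoF (adlF l hl h)), zero_add] at this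

theorem adl_map {A : Type} (f f' : A → R) (l : List A) (h1 : ∀ x ∈ l, f' x ∈ F 1)
    (h2 : ∀ x ∈ l, f x - f' x ∈ F 2) : ∀ {t : R} {i : ℕ}, t ∈ F i → 6 ≤ i + l.length →
    adl t (l.map f) = adl t (l.map f') := by
  induction l with
  | nil => intro t i _ _; rfl
  | cons x l ih =>
    intro t i h hi
    have a1 := h1 x (by simp)
    have a2 := h2 x (by simp)
    have a3 : f x ∈ F 1 := by simpa using add_mem (monoF a2 (k := 1)) a1
    simp only [List.map_cons, adl_cons, List.length_cons] at hi ⊢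
    rw [ih (fun y hy => h1 y (by simp [hy])) (fun y hy => h2 y (by simp [hy]))
      (adF h a3 (k := i + 1)) (by omega)]
    refine adl_congr _ (by simpa using fun y hy => h1 y (by simp [hy])) (i := i + 2) ?_
      (by simp; omega)
    convert adF h a2 (k := i + 2) using 1
    simp only [ad, mul_add, add_mul, mul_sub, sub_mul, mul_assoc, mul_one, one_mul]; abel

theorem torsion {g : Rˣ} (hg : (g : R) - 1 ∈ F 1) {k : ℕ} (hk : 0 < k) (h : g ^ k = 1) : g = 1 := by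
  have key : ∀ i, (g : R) - 1 ∈ F (i + 1) := by
    intro i
    induction i with
    | zero => exact hg
    | succ i ih =>
      have : ∀ n : ℕ, (g : R) ^ n - 1 - (n : ℚ) • ((g : R) - 1) ∈ F (i + 2) := by
        intro n
        induction n with
        | zero => simp
        | succ n ihn =>
          have h1 : (g : R) ^ n - 1 ∈ F (i + 1) := by
            simpa using add_mem (monoF ihn (k := i + 1)) ((F _).smul_mem (n : ℚ) ih)
          convert add_mem ihn (mulF h1 hg (k := i + 2)) using 1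
          rw [pow_succ, mul_sub1]; push_cast; module
      have h2 := this k
      rw [← Units.val_pow_eq_pow_val, h, Units.val_one, sub_self, zero_sub, neg_mem_iff] at h2
      exact (Submodule.smul_mem_iff _ (by positivity)).1 h2
  exact Units.ext (sub_eq_zero.1 (F7 (key 6)))

/-- determinant -/
def det (a b : ℤ × ℤ) : ℤ := a.1 * b.2 - a.2 * b.1

theorem arith (I : AddSubgroup ℚ) (L : AddSubgroup (ℤ × ℤ))
    (h : ∀ a ∈ L, ∀ b ∈ L, ((det a b * (b.1 ^ 3 + b.2 ^ 3) : ℤ) : ℚ) / 6 ∈ I) (g : ℤ × ℤ)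
    {a b c d e : ℤ × ℤ} (ha : a ∈ L) (hb : b ∈ L) (hc : c ∈ L) (hd : d ∈ L) (he : e ∈ L) :
    ((det g a * det b c * det d e : ℤ) : ℚ) ∈ I := by
  obtain ⟨f, hf⟩ := Int.subgroup_cyclic (L.map (AddMonoidHom.fst ℤ ℤ))
  obtain ⟨n, hn⟩ := Int.subgroup_cyclic (L.comap (AddMonoidHom.inr ℤ ℤ))
  have hq : (0, n) ∈ L := by
    have : n ∈ L.comap (AddMonoidHom.inr ℤ ℤ) := hn ▸ AddSubgroup.subset_closure rfl
    exact this
  obtain ⟨⟨f', k⟩, hp, rfl⟩ : f ∈ L.map (AddMonoidHom.fst ℤ ℤ) :=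
    hf ▸ AddSubgroup.subset_closure rfl
  have hL : ∀ x ∈ L, ∃ s t : ℤ, x = (s * f', s * k + t * n) := fun x hx => by
    obtain ⟨s, hs⟩ := AddSubgroup.mem_closure_singleton.1 (hf ▸ AddSubgroup.mem_map_of_mem _ hx)
    have h1 : x.1 = s * f' := by simpa using hs.symm
    have : x.2 - s * k ∈ L.comap (AddMonoidHom.inr ℤ ℤ) := by
      rw [AddSubgroup.mem_comap]
      convert L.sub_mem hx (L.zsmul_mem hp s) using 1
      ext <;> simp [h1]
    obtain ⟨t, ht⟩ := AddSubgroup.mem_closure_singleton.1 (hn ▸ this)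
    exact ⟨s, t, Prod.ext h1 (by simp at ht ⊢; omega)⟩
  obtain ⟨m, u, v, w, x, y, z, rfl, rfl, rfl, hm⟩ : ∃ m u v w x y z : ℤ, f' = m * u ∧ k = m * v ∧
      n = m * w ∧ m = x * f' + y * k + z * n := by
    obtain ⟨u, hu⟩ := (gcd_dvd_left (gcd f' k) n).trans (gcd_dvd_left f' k)
    obtain ⟨v, hv⟩ := (gcd_dvd_left (gcd f' k) n).trans (gcd_dvd_right f' k)
    obtain ⟨w, hw⟩ := gcd_dvd_right (gcd f' k) n
    obtain ⟨x, y, hxy⟩ := exists_gcd_eq_mul_add_mul f' k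
    obtain ⟨x', z, hz⟩ := exists_gcd_eq_mul_add_mul (gcd f' k) n
    exact ⟨_, u, v, w, x * x', y * x', z, hu, hv, hw, by rw [hz, hxy]; ring⟩
  have h0 := h _ hq _ hp
  have h3 := h _ hp _ hq
  have h1 := h _ hq _ (L.add_mem hp hq)
  have h2 := h _ hq _ (L.sub_mem hp hq)
  have hmm : (m * (m * u * (m * w)) ^ 2 : ℚ) ∈ I := by
    have hσ : (m : ℚ) = m * (x * u + y * v + z * w) ^ 4 := by
      have : (m : ℚ) = m * (x * u + y * v + z * w) := by
        have := congrArg (Int.cast : ℤ → ℚ) hm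
        push_cast at this; linear_combination this
      linear_combination (1 + (x * u + y * v + z * w) + (x * u + y * v + z * w) ^ 2 +
        (x * u + y * v + z * w) ^ 3) * this
    have c1 := I.sub_mem (I.sub_mem h2 h1) (I.zsmul_mem h3 2)
    have k2 := I.zsmul_mem c1 u
    have k1 := I.sub_mem (I.zsmul_mem h0 (-6 * w)) (I.zsmul_mem c1 v)
    have k3 := I.zsmul_mem h3 (6 * u)
    have := I.add_mem (I.add_mem
      (I.zsmul_mem k1 (x ^ 2 * ((x * u) ^ 2 + 4 * x * u * y * v + 4 * x * u * z * w +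
        6 * (y * v) ^ 2 + 6 * (z * w) ^ 2 + 12 * y * v * z * w)))
      (I.zsmul_mem k2 (y ^ 2 * ((y * v) ^ 2 + 4 * x * u * y * v + 4 * y * v * z * w +
        6 * (z * w) ^ 2 + 12 * x * u * z * w))))
      (I.zsmul_mem k3 (z ^ 2 * ((z * w) ^ 2 + 4 * x * u * z * w + 4 * y * v * z * w +
        12 * x * u * y * v)))
    convert this using 1
    simp only [det, zsmul_eq_mul, Prod.fst_add, Prod.snd_add, Prod.fst_sub, Prod.snd_sub]
    push_cast
    linear_combination (m * u * (m * w) : ℚ) ^ 2 * hσ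
  obtain ⟨a1, a2, rfl⟩ := hL a ha
  obtain ⟨b1, b2, rfl⟩ := hL b hb
  obtain ⟨c1, c2, rfl⟩ := hL c hc
  obtain ⟨d1, d2, rfl⟩ := hL d hd
  obtain ⟨e1, e2, rfl⟩ := hL e he
  convert I.zsmul_mem hmm ((g.1 * (a1 * v + a2 * w) - g.2 * a1 * u) * (b1 * c2 - b2 * c1) *
    (d1 * e2 - d2 * e1)) using 1
  simp only [det, zsmul_eq_mul]; push_cast; ring

end Pool.Agent.H64.Defect
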