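import Pool.Agent.H64.Defect1

set_option autoImplicit false

namespace Pool.Agent.H64.Defect

open scoped commutatorElement

/-- weight one part -/
def r0 (a b : ℚ) : R where
  toFun m := ![0, a * m 0, b * m 0, m 1 * b - m 2 * a, a * m 3, b * m 3, m 4 * b - m 5 * a,
    a * m 6, b * m 6, m 7 * b - m 8 * a]
  map_add' m n := by funext i; fin_cases i <;> simp <;> ring
  map_smul' c m := by funext i; fin_cases i <;> simp <;> ring

/-- weight two part -/
def om (a b t : ℚ) : R where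
  toFun m := ![0, 0, 0, -2 * t * m 0, t * m 1 + a * (m 1 * b - m 2 * a) / 2 + b * m 2 / 30,
    t * m 2 + b * (m 1 * b - m 2 * a) / 2 - a * m 1 / 30, -2 * t * m 3,
    t * m 4 + a * (m 4 * b - m 5 * a) / 2, t * m 5 + b * (m 4 * b - m 5 * a) / 2, -2 * t * m 6]
  map_add' m n := by funext i; fin_cases i <;> simp <;> ring
  map_smul' c m := by funext i; fin_cases i <;> simp <;> ring

theorem r0_apply (a b : ℚ) (m : V) : r0 a b m = ![0, a * m 0, b * m 0, m 1 * b - m 2 * a, a * m 3,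
    b * m 3, m 4 * b - m 5 * a, a * m 6, b * m 6, m 7 * b - m 8 * a] := rfl

theorem om_apply (a b t : ℚ) (m : V) : om a b t m = ![0, 0, 0, -2 * t * m 0,
    t * m 1 + a * (m 1 * b - m 2 * a) / 2 + b * m 2 / 30,
    t * m 2 + b * (m 1 * b - m 2 * a) / 2 - a * m 1 / 30, -2 * t * m 3,
    t * m 4 + a * (m 4 * b - m 5 * a) / 2, t * m 5 + b * (m 4 * b - m 5 * a) / 2,
    -2 * t * m 6] := rfl

theorem r0F (a b : ℚ) : r0 a b ∈ F 1 := memF fun m i h => by
  fin_cases i <;> simp (config := {decide := true}) [r0_apply, h]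

theorem omF (a b t : ℚ) : om a b t ∈ F 2 := memF fun m i h => by
  fin_cases i <;> simp (config := {decide := true}) [om_apply, h]

theorem r0_add (a b a' b' : ℚ) : r0 (a + a') (b + b') = r0 a b + r0 a' b' :=
  LinearMap.ext fun m => funext fun i => by fin_cases i <;> simp [r0_apply] <;> ring

theorem om_add (a b t a' b' t' : ℚ) : om (a + a') (b + b') (t + t' + (a * b' - b * a') / 2) =
    om a b t + om a' b' t' + r0 a b * r0 a' b' :=
  LinearMap.ext fun m => funext fun i => by fin_cases i <;> simp [r0_apply, om_apply] <;> ring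

theorem r0_neg (a b : ℚ) : r0 (-a) (-b) = - r0 a b :=
  LinearMap.ext fun m => funext fun i => by fin_cases i <;> simp [r0_apply] <;> ring

theorem om_neg (a b t : ℚ) : om (-a) (-b) (-t) = - om a b t + r0 a b * r0 a b :=
  LinearMap.ext fun m => funext fun i => by fin_cases i <;> simp [r0_apply, om_apply] <;> ring

/-- parameters -/
def Par (g : Rˣ) (v : ℤ × ℤ) : Prop := ∃ t, Jt 1 ((g : R) - 1) (r0 v.1 v.2) (om v.1 v.2 t)

theorem Par.one : Par 1 0 := ⟨0, r0F _ _, omF _ _ _, by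
  have h1 : r0 0 0 = 0 := LinearMap.ext fun m => funext fun i => by
    fin_cases i <;> simp [r0_apply]
  have h2 : om 0 0 0 = 0 := LinearMap.ext fun m => funext fun i => by
    fin_cases i <;> simp [om_apply]
  simp [h1, h2]⟩

theorem Par.mul {g h : Rˣ} {v w : ℤ × ℤ} (hg : Par g v) (hh : Par h w) : Par (g * h) (v + w) := by
  obtain ⟨t, hg⟩ := hg
  obtain ⟨s, hh⟩ := hh
  refine ⟨t + s + (v.1 * w.2 - v.2 * w.1) / 2, r0F _ _, omF _ _ _, ?_⟩
  simp only [Prod.fst_add, Prod.snd_add, Int.cast_add, r0_add, om_add, Units.val_mul]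
  convert add_mem (add_mem hg.2.2 hh.2.2) (add_mem (mulF hg.mem.1 hh.mem.2 (k := 1 + 2))
    (mulF hg.1 hh.mem.1)) using 1
  simp only [mul_add, add_mul, mul_sub, sub_mul, mul_assoc, mul_one, one_mul]; abel

theorem Par.inv {g : Rˣ} {v : ℤ × ℤ} (hg : Par g v) : Par g⁻¹ (-v) := by
  obtain ⟨t, hg⟩ := hg
  refine ⟨-t, r0F _ _, omF _ _ _, ?_⟩
  simp only [Prod.fst_neg, Prod.snd_neg, Int.cast_neg, r0_neg, om_neg]
  obtain ⟨h1, h2⟩ := invF le_rfl hg.mem.2
  convert sub_mem (sub_mem (add_mem (mulF hg.mem.1 hg.mem.2 (k := 1 + 2)) (mulF hg.1 hg.mem.1))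
    hg.2.2) (mulF hg.mem.2 h2) using 1
  simp only [mul_add, add_mul, mul_sub, sub_mul, mul_assoc, mul_one, one_mul, Units.mul_inv]; abel

/-- the group -/
def G : Subgroup Rˣ where
  carrier := {g | ∃ v, Par g v}
  one_mem' := ⟨_, Par.one⟩
  mul_mem' := fun ⟨_, h⟩ ⟨_, h'⟩ => ⟨_, h.mul h'⟩
  inv_mem' := fun ⟨_, h⟩ => ⟨_, h.inv⟩

theorem Par.F1 {g : Rˣ} {v : ℤ × ℤ} (hg : Par g v) : (g : R) - 1 ∈ F 1 := hg.choose_spec.mem.2
theorem Par.F2 {g : Rˣ} {v : ℤ × ℤ} (hg : Par g v) : (g : R) - 1 - r0 v.1 v.2 ∈ F 2 :=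
  hg.choose_spec.mem.1
theorem GF1 (g : G) : ((g : Rˣ) : R) - 1 ∈ F 1 := g.2.choose_spec.F1

theorem p4 (a b c d : ℚ) : ad (ad (ad (ad (r0 a b) (r0 c d)) (r0 c d)) (r0 c d)) (r0 c d) = 0 :=
  LinearMap.ext fun m => funext fun i => by
    fin_cases i <;> simp [ad, r0_apply] <;> ring

theorem engel {g h : Rˣ} {v w : ℤ × ℤ} (hg : Par g v) (hh : Par h w) :
    ((⁅⁅⁅⁅g, h⁆, h⁆, h⁆, h⁆ : Rˣ) : R) - 1 =
      (-(((det v w * (w.1 ^ 3 + w.2 ^ 3) : ℤ) : ℚ) / 6)) • E := by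
  obtain ⟨t, hg⟩ := hg
  obtain ⟨s, hh⟩ := hh
  have h1 := jet le_rfl _ hg hh (by rw [sub_self]; exact zero_mem _)
  have h2 := jet (by norm_num) 0 h1 hh (by rw [sub_zero]; exact h1.1)
  have h3 := jet (by norm_num) 0 h2 hh (by rw [sub_zero]; exact monoF h2.1)
  have h4 := jet (by norm_num) 0 h3 hh (by rw [sub_zero]; exact monoF h3.1)
  have h5 := F7 h4.2.2
  have h6 := F6 h4.2.1
  rw [p4, sub_zero, sub_eq_zero] at h5
  rw [p4] at h6
  rw [h5, h6]
  congr 1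
  simp [ad, r0_apply, om_apply, e0, det]
  ring

theorem six (g a b c d e : ℤ × ℤ) :
    adl (r0 g.1 g.2) [r0 a.1 a.2, r0 b.1 b.2, r0 c.1 c.2, r0 d.1 d.2, r0 e.1 e.2] =
      ((12 * (det g a * det b d * det c e) - 6 * (det g a * det b c * det d e) : ℤ) : ℚ) • E := by
  refine (F6 (adlF [r0 a.1 a.2, r0 b.1 b.2, r0 c.1 c.2, r0 d.1 d.2, r0 e.1 e.2] (by simp [r0F])
    (r0F _ _))).trans ?_
  congr 1
  simp [adl, ad, r0_apply, e0, det]
  ring

end Pool.Agent.H64.Defect
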