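import Pool.Agent.H64.Defect2

set_option autoImplicit false

namespace Pool.Agent.H64.Defect

open scoped commutatorElement

/-- `g - 1` -/
def δ (g : G) : R := ((g : Rˣ) : R) - 1

theorem δF (g : G) : δ g ∈ F 1 := GF1 g

theorem δ_mul (g h : G) : δ (g * h) = δ g + δ h + δ g * δ h := mul_sub1 _ _

theorem δ_inv {g : G} {k : ℕ} (hk : 1 ≤ k) (h : δ g ∈ F k) :
    δ g⁻¹ ∈ F k ∧ δ g⁻¹ + δ g ∈ F (k + 1) := invF hk h

theorem δ_comm {g : G} (h : G) {i : ℕ} (hi : 1 ≤ i) (hg : δ g ∈ F i) :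
    δ ⁅g, h⁆ ∈ F (i + 1) ∧ δ ⁅g, h⁆ - ad (δ g) (δ h) ∈ F (i + 2) := comm1 hi hg (δF h)

theorem δ_one : δ 1 = 0 := sub_self _

/-- parameter -/
noncomputable def par (g : G) : ℤ × ℤ := g.2.choose

theorem par_spec (g : G) : Par g (par g) := g.2.choose_spec

theorem six' (g a b c d e : G) : adl (δ g) ([a, b, c, d, e].map δ) =
    ((12 * (det (par g) (par a) * det (par b) (par d) * det (par c) (par e)) -
      6 * (det (par g) (par a) * det (par b) (par c) * det (par d) (par e)) : ℤ) : ℚ) • E := by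
  rw [adl_congr _ (by simp [δF]) (s := δ g) (par_spec g).F2 (by simp),
    adl_map δ (fun x => r0 (par x).1 (par x).2) _ (fun x _ => r0F _ _) (fun x _ => (par_spec x).F2)
      (r0F _ _) (by simp)]
  exact six _ _ _ _ _ _

variable (H : Subgroup G)

/-- image lattice -/
def LL : AddSubgroup (ℤ × ℤ) where
  carrier := {v | ∃ h ∈ H, Par h v}
  zero_mem' := ⟨1, H.one_mem, Par.one⟩
  add_mem' := fun ⟨g, hg, h1⟩ ⟨h, hh, h2⟩ => ⟨g * h, H.mul_mem hg hh, h1.mul h2⟩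
  neg_mem' := fun ⟨g, hg, h1⟩ => ⟨g⁻¹, H.inv_mem hg, h1.inv⟩

/-- central part -/
def II : AddSubgroup ℚ where
  carrier := {r | ∃ h ∈ H, δ h = r • E}
  zero_mem' := ⟨1, H.one_mem, by simp [δ_one]⟩
  add_mem' := fun {r s} ⟨g, hg, h1⟩ ⟨h, hh, h2⟩ => ⟨g * h, H.mul_mem hg hh, by
    rw [δ_mul, h1, h2, F7 (mulF ((F 6).smul_mem r EF) ((F 6).smul_mem s EF)), add_zero, add_smul]⟩
  neg_mem' := fun {r} ⟨g, hg, h1⟩ => ⟨g⁻¹, H.inv_mem hg, by
    have := F7 (δ_inv (g := g) (k := 6) (by norm_num) (h1 ▸ (F 6).smul_mem r EF)).2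
    rw [_root_.neg_smul r E, ← h1, eq_neg_iff_add_eq_zero, this]⟩

theorem comm_mem {K : Type} [Group K] {A : Subgroup K} {g h : K} (hh : h ∈ A) (hg : g ∈ A) :
    ⁅g, h⁆ ∈ A := A.mul_mem (A.mul_mem (A.mul_mem hg hh) (A.inv_mem hg)) (A.inv_mem hh)

theorem II_mem : ∀ a ∈ LL H, ∀ b ∈ LL H,
    ((det a b * (b.1 ^ 3 + b.2 ^ 3) : ℤ) : ℚ) / 6 ∈ II H := by
  rintro a ⟨g, hg, h1⟩ b ⟨h, hh, h2⟩
  rw [← neg_mem_iff]
  exact ⟨⁅⁅⁅⁅g, h⁆, h⁆, h⁆, h⁆, comm_mem hh (comm_mem hh (comm_mem hh (comm_mem hh hg))),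
    engel h1 h2⟩

theorem mapF (l : List G) : ∀ x ∈ l.map δ, x ∈ F 1 := List.forall_mem_map.2 fun x _ => δF x

theorem adl_zero (l : List G) : adl 0 (l.map δ) = 0 :=
  F7 (monoF (adlF _ (mapF l) (F 7).zero_mem))

/-- bounding series -/
def P (k : ℕ) : Subgroup G where
  carrier := {g | δ g ∈ F (k + 1) ∧ ∀ l : List G, (∀ x ∈ l, x ∈ H) → l.length + k = 5 →
    ∃ r ∈ II H, adl (δ g) (l.map δ) = r • E}
  one_mem' := ⟨by simp [δ_one], fun l _ _ => ⟨0, zero_mem _, by simp [δ_one, adl_zero]⟩⟩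
  mul_mem' {g h} hg hh := ⟨by
    rw [δ_mul]; exact add_mem (add_mem hg.1 hh.1) (mulF hg.1 hh.1), fun l h1 h2 => by
    obtain ⟨r, hr, e1⟩ := hg.2 l h1 h2
    obtain ⟨s, hs, e2⟩ := hh.2 l h1 h2
    refine ⟨r + s, add_mem hr hs, ?_⟩
    rw [add_smul, ← e1, ← e2, ← adl_add]
    refine adl_congr _ (mapF l) (i := k + 2) ?_ (by simp; omega)
    rw [δ_mul, add_sub_cancel_left]; exact mulF hg.1 hh.1⟩
  inv_mem' {g} hg := ⟨(δ_inv (by omega) hg.1).1, fun l h1 h2 => by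
    obtain ⟨r, hr, e1⟩ := hg.2 l h1 h2
    refine ⟨-r, neg_mem hr, ?_⟩
    rw [_root_.neg_smul r E, ← e1, eq_neg_iff_add_eq_zero, ← adl_add, ← adl_zero l]
    refine adl_congr _ (mapF l) (i := k + 2) ?_ (by simp; omega)
    rw [sub_zero]; exact (δ_inv (by omega) hg.1).2⟩

theorem P_step {k : ℕ} {g h : G} (hg : g ∈ P H k) (hh : h ∈ H) : ⁅g, h⁆ ∈ P H (k + 1) := by
  refine ⟨(δ_comm h (by omega) hg.1).1, fun l h1 h2 => ?_⟩
  rw [adl_congr _ (mapF l) (δ_comm h (by omega) hg.1).2 (by simp; omega)]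
  exact hg.2 (h :: l) (List.forall_mem_cons.2 ⟨hh, h1⟩) (by simp; omega)

theorem P_zero (g : G) : g ∈ P H 0 := by
  refine ⟨δF g, fun l h1 h2 => ?_⟩
  match l, h2 with
  | [a, b, c, d, e], _ =>
    simp only [List.mem_cons, List.not_mem_nil, or_false, forall_eq_or_imp, forall_eq] at h1
    obtain ⟨ha, hb, hc, hd, he⟩ := h1
    have m : ∀ x ∈ H, par x ∈ LL H := fun x hx => ⟨x, hx, par_spec x⟩
    refine ⟨_, ?_, six' g a b c d e⟩
    have h3 := (II H).zsmul_mem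
      (arith _ _ (II_mem H) (par g) (m a ha) (m b hb) (m d hd) (m c hc) (m e he)) 12
    have h4 := (II H).zsmul_mem
      (arith _ _ (II_mem H) (par g) (m a ha) (m b hb) (m c hc) (m d hd) (m e he)) 6
    convert sub_mem h3 h4 using 1
    simp

theorem P_five : P H 5 ≤ H := fun g hg => by
  obtain ⟨r, ⟨h, hh, e1⟩, e2⟩ := hg.2 [] (by simp) rfl
  have : g = h := Subtype.ext (Units.ext (sub_left_injective (e2.trans e1.symm)))
  rwa [this]

/-- iterated commutator subgroups -/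
def C : ℕ → Subgroup G
  | 0 => ⊤
  | k + 1 => ⁅C k, H⁆

theorem C_le (k : ℕ) : C H k ≤ P H k := by
  induction k with
  | zero => exact fun g _ => P_zero H g
  | succ k ih => exact Subgroup.commutator_le.2 fun g hg h hh => P_step H (ih hg) hh

theorem chain_step {K : Type} [Group K] (B A : Subgroup K) : B ⊔ ⁅A, B⁆ ≤ B ⊔ A ∧
    ((B ⊔ ⁅A, B⁆).subgroupOf (B ⊔ A)).Normal := by
  have h1 : B ⊔ ⁅A, B⁆ ≤ B ⊔ A := sup_le le_sup_left (Subgroup.commutator_le.2 fun g hg h hh =>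
    comm_mem (Subgroup.mem_sup_left hh) (Subgroup.mem_sup_right hg))
  refine ⟨h1, (Subgroup.normal_subgroupOf_iff_le_normalizer h1).2
    (sup_le (le_sup_left.trans Subgroup.le_normalizer) fun a ha => ?_)⟩
  have key : ∀ a ∈ A, B ⊔ ⁅A, B⁆ ≤ (B ⊔ ⁅A, B⁆).comap (MulAut.conj a).toMonoidHom := fun a ha => by
    refine sup_le (fun h hh => ?_) (Subgroup.commutator_le.2 fun g hg h hh => ?_)
    · have := Subgroup.mul_mem _ (Subgroup.mem_sup_right (S := B)
        (Subgroup.commutator_mem_commutator ha hh)) (Subgroup.mem_sup_left hh)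
      simpa [commutatorElement_def] using this
    · have := Subgroup.mem_sup_right (S := B) (Subgroup.mul_mem _
        (Subgroup.commutator_mem_commutator (A.mul_mem ha hg) hh)
        (Subgroup.inv_mem _ (Subgroup.commutator_mem_commutator ha hh)))
      simpa [commutatorElement_def, mul_assoc] using this
  refine Subgroup.mem_normalizer_iff.2 fun n => ⟨fun h => key a ha h, fun h => ?_⟩
  simpa [mul_assoc] using key a⁻¹ (A.inv_mem ha) h

theorem chain : ∃ f : ℕ → Subgroup G, f 0 = H ∧ f 5 = ⊤ ∧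
    ∀ i, i < 5 → f i ≤ f (i + 1) ∧ ((f i).subgroupOf (f (i + 1))).Normal := by
  refine ⟨fun i => H ⊔ C H (5 - i), sup_eq_left.2 ((C_le H 5).trans (P_five H)), sup_top_eq _,
    fun i hi => ?_⟩
  have e : 5 - i = 5 - (i + 1) + 1 := by omega
  simp only [e]
  exact chain_step _ _

theorem tf (g : G) (k : ℕ) (hk : 0 < k) (h : g ^ k = 1) : g = 1 :=
  Subtype.ext (torsion (GF1 g) hk (congrArg Subtype.val h))

theorem exists_par (v : ℤ × ℤ) : ∃ g : G, Par g v := by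
  have h : Par (un (add_mem (r0F v.1 v.2) (monoF (omF v.1 v.2 0) (k := 1)))) v :=
    ⟨0, r0F _ _, omF _ _ _, by simp [un]⟩
  exact ⟨⟨_, _, h⟩, h⟩

theorem par_uniq {g : G} {v : ℤ × ℤ} (h : Par g v) : par g = v := by
  have h1 := sub_mem h.F2 (par_spec g).F2
  have a := h1 0 e0 (by simp) 1 (by decide)
  have b := h1 0 e0 (by simp) 2 (by decide)
  simp [r0_apply, e0, sub_eq_zero] at a b
  exact Prod.ext a b

theorem not_top : upperCentralSeries G 5 ≠ ⊤ := by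
  intro h
  obtain ⟨x, hx⟩ := exists_par (1, 0)
  obtain ⟨y, hy⟩ := exists_par (0, 1)
  have key : ∀ (l : List G) (g : G) (i : ℕ), 1 ≤ i → δ g ∈ F i → l.length + i = 6 →
      g ∈ upperCentralSeries G l.length → adl (δ g) (l.map δ) = 0 := by
    intro l
    induction l with
    | nil =>
      intro g i _ _ _ hg
      rw [Subgroup.mem_bot.1 hg]; exact δ_one
    | cons a l ih =>
      intro g i hi hg hl hu
      simp only [List.length_cons] at hl
      rw [List.map_cons, adl_cons, ← adl_congr _ (mapF l) (δ_comm a hi hg).2 (by simp; omega)]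
      exact ih _ (i + 1) (by omega) (δ_comm a hi hg).1 (by omega)
        (mem_upperCentralSeries_succ_iff.1 hu a)
  have := key [y, x, y, x, y] x 1 le_rfl (δF x) rfl (by simp [h])
  rw [six', par_uniq hx, par_uniq hy] at this
  have := congrArg (fun f : R => f e0 9) this
  simp [det, E_apply, e0] at this

end Pool.Agent.H64.Defect
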