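import Mathlib

set_option autoImplicit false

open scoped commutatorElement

namespace Pool.Agent.H64.Emb2

/-- the unrestricted wreath product with the plane lattice -/
@[ext] structure Wr (G : Type) where
  f : ℤ × ℤ → G
  v : ℤ × ℤ

variable {G : Type} [Group G]

instance : Mul (Wr G) := ⟨fun a b => ⟨fun p => a.f p * b.f (p + a.v), a.v + b.v⟩⟩
instance : One (Wr G) := ⟨⟨fun _ => 1, 0⟩⟩
instance : Inv (Wr G) := ⟨fun a => ⟨fun p => (a.f (p - a.v))⁻¹, -a.v⟩⟩

@[simp] theorem mul_f (a b : Wr G) (p : ℤ × ℤ) : (a * b).f p = a.f p * b.f (p + a.v) := rfl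
@[simp] theorem mul_v (a b : Wr G) : (a * b).v = a.v + b.v := rfl
@[simp] theorem one_f (p : ℤ × ℤ) : (1 : Wr G).f p = 1 := rfl
@[simp] theorem one_v : (1 : Wr G).v = 0 := rfl
@[simp] theorem inv_f (a : Wr G) (p : ℤ × ℤ) : (a⁻¹).f p = (a.f (p - a.v))⁻¹ := rfl
@[simp] theorem inv_v (a : Wr G) : (a⁻¹).v = -a.v := rfl

instance : Group (Wr G) := Group.ofLeftAxioms
  (fun a b c => by ext1; · funext p; simp [mul_assoc, add_assoc]
                   · simp [add_assoc])
  (fun a => by ext1; · funext p; simp
               · simp)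
  (fun a => by ext1; · funext p; simp [sub_eq_add_neg]
               · simp)

/-- the base group -/
def ι : (ℤ × ℤ → G) →* Wr G where
  toFun f := ⟨f, 0⟩
  map_one' := rfl
  map_mul' a b := by ext1; · funext p; simp
                     · simp

theorem der_le (m : ℕ) : derivedSeries (Wr G) (m + 1) ≤ (derivedSeries (ℤ × ℤ → G) m).map ι := by
  induction m with
  | zero =>
    rw [derivedSeries_succ, Subgroup.commutator_le]
    intro a _ b _
    refine ⟨(⁅a, b⁆).f, trivial, ?_⟩
    ext1
    · rfl
    · simp [ι, commutatorElement_def]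
  | succ m ih =>
    rw [derivedSeries_succ, derivedSeries_succ (ℤ × ℤ → G), Subgroup.map_commutator]
    exact Subgroup.commutator_mono ih ih

theorem der_bot {l : ℕ} (h : derivedSeries G l = ⊥) : derivedSeries (Wr G) (l + 1) = ⊥ := by
  have : derivedSeries (ℤ × ℤ → G) l = ⊥ := by
    rw [eq_bot_iff]
    intro f hf
    funext p
    have := map_derivedSeries_le_derivedSeries (Pi.evalMonoidHom (fun _ : ℤ × ℤ => G) p) l
      ⟨f, hf, rfl⟩
    rw [h] at this
    exact this
  rw [eq_bot_iff]
  refine (der_le l).trans ?_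
  rw [this, Subgroup.map_bot]

/-- iterated differences of binomial coefficients -/
noncomputable def D (a : ℕ) (q : ℤ) (m : ℕ) : ℤ := if a ≤ m then Ring.choose q (m - a) else 0

theorem D_succ (a : ℕ) (q : ℤ) (m : ℕ) : D a (q + 1) m - D a q m = D (a + 1) q m := by
  unfold D
  rcases lt_trichotomy a m with h | h | h
  · obtain ⟨k, rfl⟩ : ∃ k, m = a + 1 + k := ⟨m - (a + 1), by omega⟩
    rw [if_pos (by omega), if_pos (by omega), if_pos (by omega),
      show a + 1 + k - a = k + 1 by omega, show a + 1 + k - (a + 1) = k by omega,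
      Ring.choose_succ_succ]
    ring
  · subst h; simp
  · rw [if_neg (by omega), if_neg (by omega), if_neg (by omega)]; simp

section
variable (N : ℕ) (s : ℤ → G)

/-- exponent patterns -/
noncomputable def e (a b : ℕ) (p : ℤ × ℤ) : ℤ :=
  D a (p.1 / N) ((p.1 % N).toNat + 1) * D b p.2 (N - 1 - (p.1 % N).toNat)

/-- column-wise powers -/
noncomputable def β (u : ℤ × ℤ → ℤ) (v : ℤ × ℤ) : Wr G := ⟨fun p => s (p.1 % N) ^ u p, v⟩

/-- horizontal shifts -/
def sh (k : ℤ) : Wr G := ⟨fun _ => 1, (k, 0)⟩

/-- the two-generated subgroup -/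
noncomputable def H : Subgroup (Wr G) := Subgroup.closure {sh 1, β N s (e N 0 0) (0, 1)}

theorem sh_mem (k : ℤ) : sh k ∈ H N s := by
  have h1 : (sh 1 : Wr G) ∈ H N s := Subgroup.subset_closure (by simp)
  induction k using Int.induction_on with
  | zero => exact one_mem _
  | succ k ih =>
    have : (sh (k + 1) : Wr G) = sh k * sh 1 := by
      ext1
      · funext p; simp [sh]
      · simp [sh]
    rw [this]; exact mul_mem ih h1
  | pred k ih =>
    have : (sh (-k - 1) : Wr G) = sh (-k) * (sh 1)⁻¹ := by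
      ext1
      · funext p; simp [sh]
      · simp [sh, sub_eq_add_neg]
    rw [this]; exact mul_mem ih (inv_mem h1)

theorem e_X (hN : 0 < N) (a b : ℕ) (p : ℤ × ℤ) :
    e N a b (p + ((N : ℤ), 0)) - e N a b p = e N (a + 1) b p := by
  have h1 : (p.1 + N) / N = p.1 / N + 1 := by
    have := Int.add_mul_ediv_right p.1 1 (c := (N : ℤ)) (by omega)
    simpa using this
  simp only [e, Prod.fst_add, Prod.snd_add, add_zero, Int.add_emod_right, h1, ← D_succ]
  ring

theorem e_Y (a b : ℕ) (p : ℤ × ℤ) :
    e N a b (p + (0, 1)) - e N a b p = e N a (b + 1) p := by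
  simp only [e, Prod.fst_add, Prod.snd_add, add_zero, ← D_succ]
  ring

theorem comm_X (hN : 0 < N) (a b : ℕ) (v : ℤ × ℤ) :
    ⁅(sh N : Wr G), β N s (e N a b) v⁆ = β N s (e N (a + 1) b) 0 := by
  ext1
  · funext p
    simp only [commutatorElement_def, mul_f, mul_v, inv_f, inv_v, sh, β, one_mul, inv_one, mul_one,
      ← e_X N hN a b p, zpow_sub]
    have : p + (((N : ℤ), (0 : ℤ)) + v + -((N : ℤ), (0 : ℤ))) - v = p := by abel
    rw [this]
    simp
  · simp only [commutatorElement_def, mul_v, inv_v, sh, β]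
    abel

theorem comm_Y (a b : ℕ) :
    ⁅β N s (e N 0 0) (0, 1), β N s (e N a b) 0⁆ = β N s (e N a (b + 1)) 0 := by
  ext1
  · funext p
    simp only [commutatorElement_def, mul_f, mul_v, inv_f, inv_v, β, ← e_Y N a b p]
    simp only [add_zero, add_sub_cancel_right, add_neg_cancel, sub_zero, Prod.fst_add,
      ← zpow_neg, ← zpow_add]
    congr 1; ring
  · simp [commutatorElement_def, β]

theorem β_mem (hN : 0 < N) (a b : ℕ) : β N s (e N (a + 1) b) 0 ∈ ⁅H N s, H N s⁆ := by
  have hb : β N s (e N 0 0) (0, 1) ∈ H N s := Subgroup.subset_closure (by simp)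
  have hle : ⁅H N s, H N s⁆ ≤ H N s := Subgroup.commutator_le_self _
  induction b with
  | zero =>
    induction a with
    | zero => rw [← comm_X N s hN 0 0 (0, 1)]
              exact Subgroup.commutator_mem_commutator (sh_mem N s _) hb
    | succ a ih =>
      rw [← comm_X N s hN _ 0 0]
      exact Subgroup.commutator_mem_commutator (sh_mem N s _) (hle ih)
  | succ b ih =>
    rw [← comm_Y N s]
    exact Subgroup.commutator_mem_commutator hb (hle ih)

/-- the diagonal embedding -/
def δ : G →* Wr G where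
  toFun g := ⟨fun p => if (N : ℤ) ∣ p.1 then g else 1, 0⟩
  map_one' := by ext1; · funext p; simp
                 · simp
  map_mul' a b := by
    ext1
    · funext p; simp only [mul_f, add_zero]; split_ifs <;> simp
    · simp

theorem δ_inj : Function.Injective (δ N : G →* Wr G) := by
  intro a b h
  have := congrArg (fun w : Wr G => w.f 0) h
  simpa [δ] using this

theorem δ_eq (k : ℕ) (hk : k < N) :
    δ N (s k) = sh k * β N s (e N (k + 1) (N - 1 - k)) 0 * (sh k)⁻¹ := by
  ext1
  · funext p
    simp only [mul_f, inv_f, sh, β, δ, one_mul, inv_one, mul_one, MonoidHom.coe_mk, OneHom.coe_mk,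
      Prod.fst_add, e]
    have h0 : 0 ≤ (p.1 + k) % N := Int.emod_nonneg _ (by omega)
    have h1 : (p.1 + k) % N < N := Int.emod_lt_of_pos _ (by omega)
    have hk' : (k : ℤ) % N = k := Int.emod_eq_of_lt (by omega) (by omega)
    have hiff : (N : ℤ) ∣ p.1 ↔ (p.1 + k) % N = k := by
      have := Int.emod_emod_of_dvd
      constructor
      · rintro ⟨c, hc⟩
        rw [hc, add_comm, Int.add_mul_emod_self_left, hk']
      · intro h
        have h2 : (p.1 + k) % N = k % N := by rw [h, hk']
        have := (Int.emod_eq_emod_iff_emod_sub_eq_zero).1 h2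
        simpa using Int.dvd_of_emod_eq_zero this
    split_ifs with h
    · rw [hiff.1 h]; simp [D]
    · rw [hiff] at h
      rcases lt_or_gt_of_ne h with h | h
      · rw [D, if_neg (by omega)]; simp
      · rw [D, D, if_neg (show ¬ (N - 1 - k ≤ N - 1 - ((p.1 + k) % N).toNat) by omega)]; simp
  · simp [δ, sh, β, Prod.ext_iff]

theorem δ_mem (k : ℕ) (hk : k < N) : δ N (s k) ∈ ⁅H N s, H N s⁆ := by
  rw [δ_eq N s k hk]
  have h := β_mem N s (by omega) k (N - 1 - k)
  have hle : ⁅H N s, H N s⁆ ≤ H N s := Subgroup.commutator_le_self _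
  have : ∀ a b : Wr G, a * b * a⁻¹ = ⁅a, b⁆ * b := fun a b => by
    simp [commutatorElement_def]
  rw [this]
  exact mul_mem (Subgroup.commutator_mem_commutator (sh_mem N s _) (hle h)) h

end

theorem main (l : ℕ) (hl : 1 ≤ l) (G : Type) [Group G] (hG : Group.FG G)
    (hd : IsLeast {m | derivedSeries G m = ⊥} l) :
    ∃ (H : Type) (_ : Group H) (a b : H), Subgroup.closure {a, b} = ⊤ ∧
      IsLeast {m | derivedSeries H m = ⊥} (l + 1) ∧ ∃ f : G →* H, Function.Injective f := by
  obtain ⟨S, hS⟩ := hG.out
  let N := S.toList.length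
  let s : ℤ → G := fun k => S.toList.getD k.toNat 1
  have hle : ⁅H N s, H N s⁆ ≤ H N s := Subgroup.commutator_le_self _
  have hδ : ∀ g, δ N g ∈ ⁅H N s, H N s⁆ := by
    intro g
    have : (⊤ : Subgroup G) ≤ (⁅H N s, H N s⁆).comap (δ N) := by
      rw [← hS, Subgroup.closure_le]
      intro x hx
      obtain ⟨k, hk, rfl⟩ := List.getElem_of_mem (Finset.mem_toList.2 hx)
      have := δ_mem N s k hk
      have e1 : s k = S.toList[k] := by simp [s, List.getElem?_eq_getElem hk]
      rw [e1] at this
      exact this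
    exact this trivial
  let f : G →* H N s := (δ N).codRestrict _ (fun g => hle (hδ g))
  have hf : Function.Injective f := fun a b h => δ_inj N (congrArg Subtype.val h)
  have h1 : (sh 1 : Wr G) ∈ H N s := Subgroup.subset_closure (by simp)
  have hb : β N s (e N 0 0) (0, 1) ∈ H N s := Subgroup.subset_closure (by simp)
  refine ⟨H N s, inferInstance, ⟨_, h1⟩, ⟨_, hb⟩, ?_, ⟨?_, ?_⟩, f, hf⟩
  · apply Subgroup.map_injective (H N s).subtype_injective
    rw [MonoidHom.map_closure, ← MonoidHom.range_eq_map, Subgroup.range_subtype]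
    rw [Set.image_pair]; rfl
  · have := map_derivedSeries_le_derivedSeries (H N s).subtype (l + 1)
    rw [der_bot hd.1, le_bot_iff, Subgroup.map_eq_bot_iff_of_injective _
      (H N s).subtype_injective] at this
    exact this
  · have key : ∀ m, (derivedSeries G m).map f ≤ derivedSeries (H N s) (m + 1) := by
      intro m
      induction m with
      | zero =>
        rintro _ ⟨g, -, rfl⟩
        have := hδ g
        rw [← Subgroup.map_subtype_commutator] at this
        obtain ⟨y, hy, hy2⟩ := this
        have : f g = y := Subtype.ext hy2.symm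
        rw [this]; exact hy
      | succ m ih =>
        rw [derivedSeries_succ, derivedSeries_succ _ (m + 1), Subgroup.map_commutator]
        exact Subgroup.commutator_mono ih ih
    intro m hm
    by_contra hc
    have h2 : derivedSeries (H N s) l = ⊥ :=
      le_bot_iff.1 (hm ▸ derivedSeries_antitone _ (by omega : m ≤ l))
    have h3 := key (l - 1)
    rw [show l - 1 + 1 = l by omega, h2, le_bot_iff,
      Subgroup.map_eq_bot_iff_of_injective _ hf] at h3
    have := hd.2 h3
    omega

end Pool.Agent.H64.Emb2
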