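import Mathlib

set_option autoImplicit false

namespace Pool.Agent.H64.FBI

open scoped commutatorElement

/-- law -/
def Law (L : Type) [Group L] (w : FreeGroup ℕ) : Prop := ∀ f : FreeGroup ℕ →* L, f w = 1

/-- exponent `2j+1` by order at most two -/
def InC (j : ℕ) (L : Type) [Group L] : Prop :=
  ∃ χ : L →* Multiplicative (ZMod 2), ∀ x, χ x = 1 → x ^ (2 * j + 1) = 1

/-- common laws -/
def IC (j : ℕ) (w : FreeGroup ℕ) : Prop := ∀ (L : Type) [Group L], InC j L → Law L w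

theorem sep {E : Type} [Group E] (h : ∀ x : E, x ^ 2 = 1) (x : E) (hx : x ≠ 1) :
    ∃ χ : E →* Multiplicative (ZMod 2), χ x ≠ 1 := by
  have hi : ∀ a : E, a⁻¹ = a := fun a => inv_eq_of_mul_eq_one_right (by rw [← pow_two, h])
  letI : CommGroup E := { ‹Group E› with
    mul_comm := fun a b => by rw [← hi (a * b), mul_inv_rev, hi, hi] }
  letI : Module (ZMod 2) (Additive E) := AddCommGroup.zmodModule fun a => by
    rw [← ofMul_toMul a, ← ofMul_pow, h]; rfl
  by_contra! H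
  apply hx
  have : Additive.ofMul x = 0 := (Module.forall_dual_apply_eq_zero_iff (ZMod 2) _).1 fun φ =>
    H (AddMonoidHom.toMultiplicativeRight φ.toAddMonoidHom)
  exact this

theorem law_exp2 {j : ℕ} {w : FreeGroup ℕ} (hw : IC j w) {E : Type} [Group E]
    (h : ∀ x : E, x ^ 2 = 1) : Law E w := fun f => by
  by_contra hx
  obtain ⟨χ, hχ⟩ := sep h _ hx
  exact hχ (hw (Multiplicative (ZMod 2)) ⟨MonoidHom.id _, fun x hx => by
    rw [show x = 1 from hx, one_pow]⟩ (χ.comp f))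

section Words

variable {G : Type} [Group G] (j : ℕ)

/-- correction term -/
def dd (a y : G) : G := (y⁻¹ * a * y * a⁻¹) ^ (j + 1)

/-- first involution -/
def ia (g : G) : G := g ^ (2 * j + 1)

/-- second involution -/
def ib (g h : G) : G := ia j g * ia j (ia j g * ia j h)

/-- first law -/
def e1 (x y : G) : G := (x ^ 2 * y ^ 2) ^ (2 * j + 1)

/-- decomposition word -/
def q2 (a b y : G) : G := dd j (a * b) (dd j b (dd j a y)⁻¹)⁻¹

/-- second law -/
def e2 (g h x : G) : G := q2 j (ia j g) (ib j g h) (x ^ 2)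

/-- inverted element -/
def iv (a b y : G) : G := (y * dd j b y)⁻¹ * a * (y * dd j b y) * a⁻¹

/-- third law -/
def e3 (g h x z : G) : G := ⁅iv j (ia j g) (ib j g h) (x ^ 2), iv j (ib j g h) (ia j g) (z ^ 2)⁆

variable {H : Type} [Group H] (f : G →* H)

theorem map_e1 (x y : G) : f (e1 j x y) = e1 j (f x) (f y) := by simp [e1]
theorem map_e2 (g h x : G) : f (e2 j g h x) = e2 j (f g) (f h) (f x) := by
  simp [e2, q2, dd, ia, ib]
theorem map_e3 (g h x z : G) : f (e3 j g h x z) = e3 j (f g) (f h) (f x) (f z) := by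
  simp [e3, iv, dd, ia, ib, map_commutatorElement]

variable {j}

theorem dd_comm {a y : G} (h : Commute a y) : dd j a y = 1 := by
  rw [dd, mul_assoc y⁻¹, h.eq]; simp

theorem comm_dd {v a y : G} (h1 : Commute v a) (h2 : Commute v y) : Commute v (dd j a y) :=
  (((h2.inv_right.mul_right h1).mul_right h2).mul_right h1.inv_right).pow_right _

theorem inv_dd {a y : G} (ha : a ^ 2 = 1) : a * dd j a y * a⁻¹ = (dd j a y)⁻¹ := by
  have hi : a⁻¹ = a := inv_eq_of_mul_eq_one_right (by rw [← pow_two, ha])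
  have h2 : a * a = 1 := by rw [← pow_two, ha]
  rw [dd, ← conj_pow, ← inv_pow]
  congr 1
  rw [hi]
  simp [mul_assoc, h2, hi]

theorem comm_pr {a y : G} (ha : a ^ 2 = 1) (hs : (y⁻¹ * a * y * a⁻¹) ^ (2 * j + 1) = 1) :
    Commute a (y * dd j a y) := by
  have h1 := inv_dd (j := j) (y := y) ha
  have h2 : dd j a y * dd j a y = y⁻¹ * a * y * a⁻¹ := by
    rw [dd, ← pow_add, show j + 1 + (j + 1) = 2 * j + 1 + 1 by ring, pow_succ, hs, one_mul]
  have h3 : a * (y * dd j a y) * a⁻¹ = y * dd j a y := by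
    calc a * (y * dd j a y) * a⁻¹ = y * (y⁻¹ * a * y * a⁻¹) * (a * dd j a y * a⁻¹) := by group
      _ = _ := by rw [h1, ← h2]; group
  exact mul_inv_eq_iff_eq_mul.1 h3

theorem ia_self {a : G} (ha : a ^ 2 = 1) : ia j a = a := by
  rw [ia, pow_succ, pow_mul, ha, one_pow, one_mul]

end Words

section One

variable {G : Type} [Group G] {j : ℕ} (h1 : ∀ x y : G, e1 j x y = 1)

/-- the subgroup of squares -/
def YY : Subgroup G where
  carrier := {x | ∃ z, z ^ 2 = x}
  one_mem' := ⟨1, one_pow _⟩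
  mul_mem' := by
    rintro _ _ ⟨x, rfl⟩ ⟨y, rfl⟩
    refine ⟨(x ^ 2 * y ^ 2) ^ (j + 1), ?_⟩
    rw [← pow_mul, show (j + 1) * 2 = 2 * j + 1 + 1 by ring, pow_succ]
    exact by rw [show (x ^ 2 * y ^ 2) ^ (2 * j + 1) = 1 from h1 x y, one_mul]
  inv_mem' := by
    rintro _ ⟨x, rfl⟩
    exact ⟨x⁻¹, inv_pow _ _⟩

instance : (YY h1).Normal := ⟨by
  rintro _ ⟨x, rfl⟩ g
  exact ⟨g * x * g⁻¹, conj_pow⟩⟩

theorem sq_mem (x : G) : x ^ 2 ∈ YY h1 := ⟨x, rfl⟩

theorem pow_Y {y : G} (hy : y ∈ YY h1) : y ^ (2 * j + 1) = 1 := by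
  obtain ⟨x, rfl⟩ := hy
  simpa [e1] using h1 x 1

theorem comm_mem {a : G} (ha : a ^ 2 = 1) (y : G) : y⁻¹ * a * y * a⁻¹ ∈ YY h1 := by
  have hi : a⁻¹ = a := inv_eq_of_mul_eq_one_right (by rw [← pow_two, ha])
  have : y⁻¹ * a * y * a⁻¹ = y⁻¹ ^ 2 * (y * a) ^ 2 := by rw [hi, pow_two, pow_two]; group
  rw [this]
  exact mul_mem (sq_mem h1 _) (sq_mem h1 _)

theorem dd_mem {a : G} (ha : a ^ 2 = 1) (y : G) : dd j a y ∈ YY h1 := pow_mem (comm_mem h1 ha y) _

include h1

theorem comm_pr' {a : G} (ha : a ^ 2 = 1) (y : G) : Commute a (y * dd j a y) :=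
  comm_pr ha (pow_Y h1 (comm_mem h1 ha y))

theorem ia_sq (g : G) : ia j g ^ 2 = 1 := by
  rw [ia, ← pow_mul, mul_comm, pow_mul]; exact pow_Y h1 (sq_mem h1 g)

theorem ia_ib (g h : G) : Commute (ia j g) (ib j g h) := by
  refine (Commute.refl _).mul_right ?_
  have ha := ia_sq h1 g
  have hb := ia_sq h1 h
  set a := ia j g
  set b := ia j h
  have hi : a⁻¹ = a := inv_eq_of_mul_eq_one_right (by rw [← pow_two, ha])
  have hi' : b⁻¹ = b := inv_eq_of_mul_eq_one_right (by rw [← pow_two, hb])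
  have h2 : a * a = 1 := by rw [← pow_two, ha]
  have hr : (ia j (a * b))⁻¹ = ia j (a * b) :=
    inv_eq_of_mul_eq_one_right (by rw [← pow_two, ia_sq h1])
  have : a * ia j (a * b) * a⁻¹ = ia j (a * b) := by
    refine Eq.trans ?_ hr
    rw [ia, ← inv_pow, ← conj_pow]
    congr 1
    rw [mul_inv_rev, hi, hi', ← mul_assoc, h2, one_mul]
  exact mul_inv_eq_iff_eq_mul.1 this

theorem ib_sq (g h : G) : ib j g h ^ 2 = 1 := by
  have := ia_ib h1 g h
  have h2 : Commute (ia j g) (ia j (ia j g * ia j h)) := by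
    have h3 := (Commute.refl (ia j g)).inv_right.mul_right this
    rwa [ib, inv_mul_cancel_left] at h3
  rw [ib, h2.mul_pow, ia_sq h1, ia_sq h1, one_mul]

omit h1 in
theorem ib_self {a b : G} (ha : a ^ 2 = 1) (hb : b ^ 2 = 1) (h : Commute a b) : ib j a b = b := by
  rw [ib, ia_self ha, ia_self hb, ia_self (by rw [h.mul_pow, ha, hb, one_mul]), ← mul_assoc,
    ← pow_two, ha, one_mul]

end One

theorem inC_e1 {j : ℕ} {L : Type} [Group L] (h : InC j L) (x y : L) : e1 j x y = 1 := by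
  obtain ⟨χ, h⟩ := h
  have : ∀ c : Multiplicative (ZMod 2), c ^ 2 = 1 := by decide
  exact h _ (by rw [map_mul, map_pow, map_pow, this, this, one_mul])

theorem inC_tri {j : ℕ} {L : Type} [Group L] (h : InC j L) {a b : L} (ha : a ^ 2 = 1)
    (hb : b ^ 2 = 1) (hab : Commute a b) : a = 1 ∨ b = 1 ∨ a * b = 1 := by
  obtain ⟨χ, h⟩ := h
  have : ∀ c d : Multiplicative (ZMod 2), c = 1 ∨ d = 1 ∨ c * d = 1 := by decide
  have key : ∀ x : L, x ^ 2 = 1 → χ x = 1 → x = 1 := fun x hx h' => by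
    rw [← ia_self (j := j) hx]; exact h x h'
  rcases this (χ a) (χ b) with h' | h' | h'
  · exact Or.inl (key a ha h')
  · exact Or.inr (Or.inl (key b hb h'))
  · exact Or.inr (Or.inr (key _ (by rw [hab.mul_pow, ha, hb, one_mul]) (by rw [map_mul, h'])))

theorem inC_e2 {j : ℕ} {L : Type} [Group L] (h : InC j L) (g k x : L) : e2 j g k x = 1 := by
  have h1 := inC_e1 h
  rcases inC_tri h (ia_sq h1 g) (ib_sq h1 g k) (ia_ib h1 g k) with h' | h' | h' <;>
    simp [e2, q2, h', dd]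

theorem inC_e3 {j : ℕ} {L : Type} [Group L] (h : InC j L) (g k x z : L) : e3 j g k x z = 1 := by
  have h1 := inC_e1 h
  rcases inC_tri h (ia_sq h1 g) (ib_sq h1 g k) (ia_ib h1 g k) with h' | h' | h'
  · simp [e3, iv, h']
  · simp [e3, iv, h']
  · have e : ib j g k = ia j g := by
      rw [← inv_eq_of_mul_eq_one_right h']
      exact inv_eq_of_mul_eq_one_right (by rw [← pow_two, ia_sq h1])
    have := comm_pr' h1 (ia_sq h1 g) (x ^ 2)
    have e' : iv j (ia j g) (ia j g) (x ^ 2) = 1 := by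
      rw [iv, mul_assoc _ (ia j g), this.eq]; group
    rw [e3, e, e']; simp

end Pool.Agent.H64.FBI
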