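import Pool.Agent.H64.FBI1

set_option autoImplicit false

namespace Pool.Agent.H64.FBI

open scoped commutatorElement

variable {G : Type} [Group G] {j : ℕ}

theorem cent_ind {V : Set G} (hV : V.Finite) (P : G → Prop)
    (h : ∀ g, (∀ g', (∀ v ∈ V, Commute v g → Commute v g') → (∃ v ∈ V, ¬ Commute v g ∧ Commute v g') →
      P g') → P g) (g : G) : P g := by
  induction hn : {v ∈ V | ¬ Commute v g}.ncard using Nat.strong_induction_on generalizing g with
  | _ n ih =>
    refine h g fun g' h1 ⟨v, hv, h2, h3⟩ => ih _ ?_ g' rfl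
    rw [← hn]
    refine Set.ncard_lt_ncard ⟨fun u hu => ⟨hu.1, fun h => hu.2 (h1 u hu.1 h)⟩, fun hs => ?_⟩
      (hV.subset fun _ h => h.1)
    exact (hs ⟨hv, h2⟩).2 h3

/-- normalises -/
def Nrm (T N : Subgroup G) : Prop := ∀ t ∈ T, ∀ n ∈ N, t * n * t⁻¹ ∈ N

/-- product subgroup -/
def pS (N T : Subgroup G) (h : Nrm T N) : Subgroup G where
  carrier := {g | ∃ t ∈ T, g * t⁻¹ ∈ N}
  one_mem' := ⟨1, one_mem _, by simp⟩
  mul_mem' := by
    rintro a b ⟨t, ht, ha⟩ ⟨s, hs, hb⟩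
    refine ⟨t * s, mul_mem ht hs, ?_⟩
    have := mul_mem ha (h t ht _ hb)
    convert this using 1; group
  inv_mem' := by
    rintro a ⟨t, ht, ha⟩
    refine ⟨t⁻¹, inv_mem ht, ?_⟩
    have := h t⁻¹ (inv_mem ht) _ (inv_mem ha)
    convert this using 1; group

/-- all values over the product satisfy the word -/
def Good (w : FreeGroup ℕ) (T N : Subgroup G) : Prop :=
  ∀ f : FreeGroup ℕ →* G, (∀ i, ∃ t ∈ T, f (FreeGroup.of i) * t⁻¹ ∈ N) → f w = 1

theorem good_of_law {w : FreeGroup ℕ} {T N M : Subgroup G} (hM : Law M w) (hT : T ≤ M)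
    (hN : N ≤ M) : Good w T N := fun f hf => by
  have : ∀ i, f (FreeGroup.of i) ∈ M := fun i => by
    obtain ⟨t, ht, h⟩ := hf i
    simpa using mul_mem (hN h) (hT ht)
  have e : M.subtype.comp (FreeGroup.lift fun i => (⟨_, this i⟩ : M)) = f := by ext; simp
  rw [← e, MonoidHom.comp_apply, hM, map_one]

theorem sup_rep {N₁ N₂ : Subgroup G} (hc : ∀ a ∈ N₁, ∀ b ∈ N₂, Commute a b) {g : G}
    (hg : g ∈ N₁ ⊔ N₂) : ∃ a ∈ N₁, ∃ b ∈ N₂, g = a * b := by
  have hn : Nrm N₂ N₁ := fun t ht n hn => by rw [← (hc n hn t ht).eq]; simpa using hn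
  have : N₁ ⊔ N₂ ≤ pS N₁ N₂ hn :=
    sup_le (fun a ha => ⟨1, one_mem _, by simpa using ha⟩) (fun b hb => ⟨b, hb, by simp⟩)
  obtain ⟨t, ht, h⟩ := this hg
  exact ⟨_, h, t, ht, by simp⟩

theorem nrm_sup {T N₁ N₂ : Subgroup G} (hc : ∀ a ∈ N₁, ∀ b ∈ N₂, Commute a b) (h1 : Nrm T N₁)
    (h2 : Nrm T N₂) : Nrm T (N₁ ⊔ N₂) := fun t ht n hn => by
  obtain ⟨a, ha, b, hb, rfl⟩ := sup_rep hc hn
  have := mul_mem (Subgroup.mem_sup_left (T := N₂) (h1 t ht a ha))
    (Subgroup.mem_sup_right (S := N₁) (h2 t ht b hb))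
  convert this using 1; group

theorem good_sup {w : FreeGroup ℕ} {T N₁ N₂ : Subgroup G} (hc : ∀ a ∈ N₁, ∀ b ∈ N₂, Commute a b)
    (h1 : Nrm T N₁) (h2 : Nrm T N₂) (g1 : Good w T N₁) (g2 : Good w T N₂) :
    Good w T (N₁ ⊔ N₂) := fun f hf => by
  have : ∀ i, ∃ t ∈ T, ∃ a ∈ N₁, ∃ b ∈ N₂, f (FreeGroup.of i) = a * b * t := fun i => by
    obtain ⟨t, ht, h⟩ := hf i
    obtain ⟨a, ha, b, hb, e⟩ := sup_rep hc h
    exact ⟨t, ht, a, ha, b, hb, by rw [← e]; simp⟩
  choose t ht a ha b hb e using this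
  let f0 := FreeGroup.lift t
  let f1 := FreeGroup.lift fun i => a i * t i
  let f2 := FreeGroup.lift fun i => b i * t i
  let R : Subgroup (FreeGroup ℕ) :=
    { carrier := {u | f0 u ∈ T ∧ f1 u * (f0 u)⁻¹ ∈ N₁ ∧ f2 u * (f0 u)⁻¹ ∈ N₂ ∧
        f u = f1 u * (f0 u)⁻¹ * f2 u}
      one_mem' := by simp
      mul_mem' := by
        rintro u v ⟨u0, u1, u2, u3⟩ ⟨v0, v1, v2, v3⟩
        have k1 := h1 _ u0 _ v1
        have k2 := h2 _ u0 _ v2
        refine ⟨by rw [map_mul]; exact mul_mem u0 v0, ?_, ?_, ?_⟩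
        · convert mul_mem u1 k1 using 1; simp only [map_mul]; group
        · convert mul_mem u2 k2 using 1; simp only [map_mul]; group
        · have := (hc _ k1 _ u2).eq
          simp only [map_mul, u3, v3]
          calc _ = f1 u * (f0 u)⁻¹ * (f2 u * (f0 u)⁻¹ * (f0 u * (f1 v * (f0 v)⁻¹) * (f0 u)⁻¹)) *
                f0 u * f2 v := by group
            _ = _ := by rw [← this]; group
      inv_mem' := by
        rintro u ⟨u0, u1, u2, u3⟩
        refine ⟨by rw [map_inv]; exact inv_mem u0, ?_, ?_, ?_⟩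
        · convert h1 _ (inv_mem u0) _ (inv_mem u1) using 1; simp only [map_inv]; group
        · convert h2 _ (inv_mem u0) _ (inv_mem u2) using 1; simp only [map_inv]; group
        · have := (hc _ u1 _ u2).eq
          simp only [map_inv]
          rw [inv_eq_iff_mul_eq_one, u3]
          calc _ = f1 u * (f0 u)⁻¹ * (f2 u * (f0 u)⁻¹) * f0 u * ((f1 u)⁻¹ * f0 u * (f2 u)⁻¹) := by
                group
            _ = _ := by rw [this]; group }
  have hR : ∀ u, u ∈ R := fun u => by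
    have : Subgroup.closure (Set.range (FreeGroup.of : ℕ → FreeGroup ℕ)) ≤ R := by
      rw [Subgroup.closure_le]
      rintro _ ⟨i, rfl⟩
      refine ⟨?_, ?_, ?_, ?_⟩ <;> simp [f0, f1, f2, ht, ha, hb, e, mul_assoc]
    exact this (by rw [FreeGroup.closure_range_of]; trivial)
  have z1 : f1 w = 1 := g1 f1 fun i => ⟨t i, ht i, by simp [f1, ha]⟩
  have z2 : f2 w = 1 := g2 f2 fun i => ⟨t i, ht i, by simp [f2, hb]⟩
  have z0 : f0 w = 1 := g1 f0 fun i => ⟨t i, ht i, by simp [f0]⟩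
  rw [(hR w).2.2.2, z0, z1, z2]; simp

/-- finite elementary abelian `2`-subgroup -/
structure El (V : Subgroup G) : Prop where
  fin : (V : Set G).Finite
  sq : ∀ v ∈ V, v ^ 2 = 1
  cm : ∀ u ∈ V, ∀ v ∈ V, Commute u v

variable (h1 : ∀ x y : G, e1 j x y = 1)

theorem exists_El (s : Finset G) :
    ∃ V : Subgroup G, El V ∧ ∀ g ∈ s, ∃ v ∈ V, g * v⁻¹ ∈ YY h1 := by
  classical
  induction s using Finset.induction_on with
  | empty => exact ⟨⊥, ⟨by simp, by simp, by simp⟩, by simp⟩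
  | insert g s _ ih =>
    obtain ⟨V, hV, hs⟩ := ih
    have : ∃ g', g * g'⁻¹ ∈ YY h1 ∧ ∀ v ∈ V, Commute v g' := by
      refine cent_ind hV.fin (fun g => ∃ g', g * g'⁻¹ ∈ YY h1 ∧ ∀ v ∈ V, Commute v g')
        (fun g ih => ?_) g
      by_cases h : ∀ v ∈ V, Commute v g
      · exact ⟨g, by simp, h⟩
      push Not at h
      obtain ⟨a, ha, hn⟩ := h
      obtain ⟨g', k1, k2⟩ := ih (g * dd j a g)
        (fun v hv h => h.mul_right (comm_dd (hV.cm v hv a ha) h)) ⟨a, ha, hn, comm_pr' h1 (hV.sq a ha) g⟩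
      refine ⟨g', ?_, k2⟩
      have := mul_mem (Subgroup.Normal.conj_mem inferInstance _ (inv_mem (dd_mem h1 (hV.sq a ha) g)) g) k1
      convert this using 1; group
    obtain ⟨g', k1, k2⟩ := this
    have ha := ia_sq h1 g'
    have hc : ∀ v ∈ V, Commute v (ia j g') := fun v hv => (k2 v hv).pow_right _
    have hg : g * (ia j g')⁻¹ ∈ YY h1 := by
      have := mul_mem k1 (inv_mem (sq_mem h1 (g' ^ j)))
      convert this using 1; rw [ia]; group
    generalize ia j g' = a at ha hc hg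
    have h2 : a * a = 1 := by rw [← pow_two, ha]
    have hi : a⁻¹ = a := inv_eq_of_mul_eq_one_right h2
    let V' : Subgroup G :=
      { carrier := {x | ∃ v ∈ V, x = v ∨ x = v * a}
        one_mem' := ⟨1, one_mem _, Or.inl rfl⟩
        mul_mem' := by
          rintro _ _ ⟨u, hu, rfl | rfl⟩ ⟨v, hv, rfl | rfl⟩
          · exact ⟨_, mul_mem hu hv, Or.inl rfl⟩
          · exact ⟨_, mul_mem hu hv, Or.inr (mul_assoc _ _ _).symm⟩
          · exact ⟨_, mul_mem hu hv, Or.inr (by rw [mul_assoc, ← (hc _ hv).eq, mul_assoc])⟩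
          · exact ⟨_, mul_mem hu hv, Or.inl (by
              rw [mul_assoc, ← mul_assoc a, ← (hc _ hv).eq, mul_assoc, h2, mul_one])⟩
        inv_mem' := by
          rintro _ ⟨u, hu, rfl | rfl⟩
          · exact ⟨_, inv_mem hu, Or.inl rfl⟩
          · exact ⟨_, inv_mem hu, Or.inr (by rw [mul_inv_rev, hi, (hc _ (inv_mem hu)).eq])⟩ }
    refine ⟨V', ⟨?_, ?_, ?_⟩, fun x hx => ?_⟩
    · refine (hV.fin.union (hV.fin.image (· * a))).subset ?_
      rintro _ ⟨u, hu, rfl | rfl⟩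
      · exact Or.inl hu
      · exact Or.inr ⟨u, hu, rfl⟩
    · rintro _ ⟨u, hu, rfl | rfl⟩
      · exact hV.sq _ hu
      · rw [(hc _ hu).mul_pow, hV.sq _ hu, ha, one_mul]
    · rintro _ ⟨u, hu, rfl | rfl⟩ _ ⟨v, hv, rfl | rfl⟩
      · exact hV.cm _ hu _ hv
      · exact (hV.cm _ hu _ hv).mul_right (hc _ hu)
      · exact (hV.cm _ hu _ hv).mul_left (hc _ hv).symm
      · exact ((hV.cm _ hu _ hv).mul_right (hc _ hu)).mul_left ((hc _ hv).symm.mul_right (Commute.refl _))
    · rcases Finset.mem_insert.1 hx with rfl | hx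
      · exact ⟨a, ⟨1, one_mem _, Or.inr (one_mul _).symm⟩, hg⟩
      · obtain ⟨v, hv, h⟩ := hs x hx
        exact ⟨v, ⟨v, hv, Or.inl rfl⟩, h⟩

/-- index at most two in `V` -/
def Ix2 (V K : Subgroup G) : Prop := K ≤ V ∧ ∀ a ∈ V, ∀ b ∈ V, a ∈ K ∨ b ∈ K ∨ a * b ∈ K

/-- centraliser in `Y` -/
def CY (K : Subgroup G) : Subgroup G := YY h1 ⊓ Subgroup.centralizer K

theorem mem_CY {K : Subgroup G} {y : G} : y ∈ CY h1 K ↔ y ∈ YY h1 ∧ ∀ v ∈ K, Commute v y := Iff.rfl

theorem nrm_CY {V K : Subgroup G} (hV : El V) (hK : K ≤ V) : Nrm V (CY h1 K) := fun t ht n hn =>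
  ⟨Subgroup.Normal.conj_mem inferInstance _ hn.1 t, fun v hv =>
    (((hV.cm v (hK hv) t ht).mul_right (hn.2 v hv)).mul_right (hV.cm v (hK hv) t ht).inv_right).eq⟩

theorem law_MK {w : FreeGroup ℕ} (hw : IC j w) {V K : Subgroup G} (hV : El V) (hK : Ix2 V K) :
    Good w V (CY h1 K) := by
  obtain ⟨t, ht, ht'⟩ : ∃ t ∈ V, ∀ v ∈ V, v ∈ K ∨ v * t ∈ K := by
    by_cases h : ∀ v ∈ V, v ∈ K
    · exact ⟨1, one_mem _, fun v hv => Or.inl (h v hv)⟩
    · push Not at h
      obtain ⟨t, ht, hn⟩ := h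
      exact ⟨t, ht, fun v hv => by have := hK.2 v hv t ht; tauto⟩
  have h2 : t * t = 1 := by rw [← pow_two, hV.sq t ht]
  have hq : ∀ x : G ⧸ YY h1, x ^ 2 = 1 := fun x => by
    obtain ⟨x, rfl⟩ := QuotientGroup.mk_surjective x
    rw [← QuotientGroup.mk_pow, QuotientGroup.eq_one_iff]; exact sq_mem h1 x
  let Z : Subgroup (G ⧸ YY h1) :=
    { carrier := {x | x = 1 ∨ x = t}
      one_mem' := Or.inl rfl
      mul_mem' := by
        rintro _ _ (rfl | rfl) (rfl | rfl)
        · simp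
        · simp
        · simp
        · left; rw [← pow_two, hq]
      inv_mem' := by
        rintro _ (rfl | rfl)
        · simp
        · right; exact inv_eq_of_mul_eq_one_right (by rw [← pow_two, hq]) }
  let M : Subgroup G := Z.comap (QuotientGroup.mk' _) ⊓ Subgroup.centralizer K
  have hM : InC j M := by
    by_cases h : (t : G ⧸ YY h1) = 1
    · refine ⟨1, fun x _ => Subtype.ext (pow_Y h1 ((QuotientGroup.eq_one_iff _).1 ?_))⟩
      rcases x.2.1 with h' | h'
      · exact h'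
      · exact h'.trans h
    · obtain ⟨χ, hχ⟩ := sep hq _ h
      refine ⟨χ.comp ((QuotientGroup.mk' _).comp M.subtype), fun x hx =>
        Subtype.ext (pow_Y h1 ((QuotientGroup.eq_one_iff _).1 ?_))⟩
      rcases x.2.1 with h' | h'
      · exact h'
      · exact absurd (h' ▸ hx) hχ
  have g1 : Good w ⊥ M := good_of_law (hw M hM) bot_le le_rfl
  have g2 : Good w ⊥ K := good_of_law (M := K)
    (law_exp2 hw fun x => Subtype.ext (hV.sq _ (hK.1 x.2))) bot_le le_rfl
  have nb : ∀ N : Subgroup G, Nrm ⊥ N := fun N t ht n hn => by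
    rw [Subgroup.mem_bot.1 ht]; simpa using hn
  have g3 := good_sup (N₁ := M) (N₂ := K) (fun a ha b hb => (Commute.symm (ha.2 b hb))) (nb M) (nb K)
    g1 g2
  intro f hf
  refine g3 f fun i => ⟨1, one_mem _, ?_⟩
  obtain ⟨v, hv, h⟩ := hf i
  have k1 : f (FreeGroup.of i) * v⁻¹ ∈ M ⊔ K :=
    Subgroup.mem_sup_left ⟨Or.inl ((QuotientGroup.eq_one_iff _).2 h.1), h.2⟩
  have k2 : t ∈ M ⊔ K := Subgroup.mem_sup_left ⟨Or.inr rfl, fun u hu => hV.cm u (hK.1 hu) t ht⟩
  have k3 : v ∈ M ⊔ K := by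
    rcases ht' v hv with h' | h'
    · exact Subgroup.mem_sup_right h'
    · have := mul_mem (Subgroup.mem_sup_right (S := M) h') (inv_mem k2)
      simpa using this
  simpa using mul_mem k1 k3

/-- weight elements -/
def DK (V K : Subgroup G) : Set G :=
  {y | y ∈ CY h1 K ∧ ∀ v ∈ V, v ∉ K → v * y * v⁻¹ = y⁻¹}

theorem DK_comm (h3 : ∀ g h x z : G, e3 j g h x z = 1) {V : Subgroup G} (hV : El V) {a b y z : G}
    (ha : a ∈ V) (hb : b ∈ V) (hy : y ∈ YY h1) (hz : z ∈ YY h1) (ay : a * y * a⁻¹ = y⁻¹)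
    (by' : Commute b y) (az : Commute a z) (bz : b * z * b⁻¹ = z⁻¹) : Commute y z := by
  have key : ∀ a b y : G, y ∈ YY h1 → a * y * a⁻¹ = y⁻¹ → Commute b y →
      ∃ x, iv j a b (x ^ 2) = y := fun a b y hy ay by' => by
    obtain ⟨x, hx⟩ := inv_mem (pow_mem hy (j + 1))
    refine ⟨x, ?_⟩
    rw [hx, iv, dd_comm (by'.pow_right _).inv_right, mul_one, inv_inv, mul_assoc, mul_assoc,
      ← mul_assoc a, ← inv_pow, ← conj_pow, ← conj_inv, ay, inv_inv, ← pow_add,
      show j + 1 + (j + 1) = 2 * j + 1 + 1 by ring, pow_succ, pow_Y h1 hy, one_mul]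
  obtain ⟨x, hx⟩ := key a b y hy ay by'
  obtain ⟨x', hx'⟩ := key b a z hz bz az
  have := h3 a b x x'
  rw [e3, ia_self (hV.sq a ha), ib_self (hV.sq a ha) (hV.sq b hb) (hV.cm a ha b hb), hx, hx'] at this
  exact commutatorElement_eq_one_iff_commute.1 this

include h1 in
theorem main (h2 : ∀ g h x : G, e2 j g h x = 1) (h3 : ∀ g h x z : G, e3 j g h x z = 1)
    {w : FreeGroup ℕ} (hw : IC j w) : Law G w := by
  classical
  intro f
  obtain ⟨s, hs⟩ : ∃ s : Finset ℕ, ∀ f' : FreeGroup ℕ →* G,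
      (∀ i ∈ s, f' (FreeGroup.of i) = f (FreeGroup.of i)) → f' w = f w := by
    clear hw
    induction w using FreeGroup.induction_on with
    | C1 => exact ⟨∅, fun f' _ => by simp⟩
    | of i => exact ⟨{i}, fun f' h => h i (by simp)⟩
    | inv_of i ih => exact ⟨{i}, fun f' h => by rw [map_inv, map_inv, h i (by simp)]⟩
    | mul u v iu iv =>
      obtain ⟨s, hs⟩ := iu
      obtain ⟨t, ht⟩ := iv
      exact ⟨s ∪ t, fun f' h => by
        rw [map_mul, map_mul, hs f' fun i hi => h i (by simp [hi]),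
          ht f' fun i hi => h i (by simp [hi])]⟩
  obtain ⟨V, hV, hsV⟩ := exists_El h1 (s.image fun i => f (FreeGroup.of i))
  let T := pS (CY h1 V) V (nrm_CY h1 hV le_rfl)
  let Yk : Subgroup G → Subgroup G := fun K => Subgroup.closure (DK h1 V K)
  have gT : ∀ K N, Ix2 V K → N ≤ CY h1 K → Good w T N := fun K N hK hN f hf => by
    refine law_MK h1 hw hV hK f fun i => ?_
    obtain ⟨t, ⟨v, hv, ht⟩, h⟩ := hf i
    refine ⟨v, hv, ?_⟩
    have := mul_mem (hN h) (show t * v⁻¹ ∈ CY h1 K from ⟨ht.1, fun u hu => ht.2 u (hK.1 hu)⟩)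
    simpa [mul_assoc] using this
  have nY : ∀ K, K ≤ V → Nrm T (Yk K) := fun K hK t ⟨v, hv, ht⟩ n hn => by
    refine Subgroup.closure_induction (fun y hy => ?_) (by simp) (fun a b _ _ ha hb => ?_)
      (fun a _ ha => ?_) hn
    · refine Subgroup.subset_closure ⟨?_, fun u hu hn => ?_⟩
      · have k := nrm_CY h1 hV hK v hv y hy.1
        have k' : t * v⁻¹ ∈ CY h1 K := ⟨ht.1, fun u hu => ht.2 u (hK hu)⟩
        convert mul_mem (mul_mem k' k) (inv_mem k') using 1; group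
      · have c : Commute u t := by
          have := (Commute.mul_right (ht.2 u hu) (hV.cm u hu v hv))
          simpa using this
        rw [conj_inv, ← hy.2 u hu hn, ← mul_assoc, ← mul_assoc, c.eq, mul_assoc _ t⁻¹,
          (c.inv_inv).symm.eq]
        group
    · convert mul_mem ha hb using 1; group
    · convert inv_mem ha using 1; group
  let I : Set (Subgroup G) := {K | Ix2 V K ∧ ∃ e ∈ V, e ∉ K}
  have cY : ∀ K ∈ I, ∀ K' ∈ I, K ≠ K' → ∀ a ∈ Yk K, ∀ b ∈ Yk K', Commute a b := by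
    have base : ∀ K ∈ I, ∀ K' ∈ I, ∀ c, c ∈ K' → c ∉ K →
        ∀ a ∈ DK h1 V K, ∀ b ∈ DK h1 V K', Commute a b := fun K hK K' hK' c c1 c2 y hy z hz => by
      have cV := hK'.1.1 c1
      obtain ⟨e, eV, eK⟩ := hK'.2
      obtain ⟨b, bV, b1, b2⟩ : ∃ b ∈ V, b ∈ K ∧ b ∉ K' := by
        rcases hK.1.2 e eV c cV with h | h | h
        · exact ⟨e, eV, h, eK⟩
        · exact absurd h c2
        · exact ⟨_, mul_mem eV cV, h, fun h' => eK (by simpa using mul_mem h' (inv_mem c1))⟩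
      exact DK_comm h1 h3 hV cV bV hy.1.1 hz.1.1 (hy.2 c cV c2) (hy.1.2 b b1) (hz.1.2 c c1)
        (hz.2 b bV b2)
    intro K hK K' hK' hne
    have base' : ∀ a ∈ DK h1 V K, ∀ b ∈ DK h1 V K', Commute a b := by
      by_cases h : K' ≤ K
      · have : ¬ K ≤ K' := fun h' => hne (le_antisymm h' h)
        obtain ⟨c, c1, c2⟩ := SetLike.not_le_iff_exists.1 this
        exact fun a ha b hb => (base K' hK' K hK c c1 c2 b hb a ha).symm
      · obtain ⟨c, c1, c2⟩ := SetLike.not_le_iff_exists.1 h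
        exact base K hK K' hK' c c1 c2
    intro a ha b hb
    refine Subgroup.closure_induction (fun y hy => ?_) (Commute.one_left _)
      (fun _ _ _ _ ha hb => ha.mul_left hb) (fun _ _ ha => ha.inv_left) ha
    exact Subgroup.closure_induction (fun z hz => base' y hy z hz) (Commute.one_right _)
      (fun _ _ _ _ ha hb => ha.mul_right hb) (fun _ _ ha => ha.inv_right) hb
  have hI : I.Finite :=
    (hV.fin.finite_subsets.preimage SetLike.coe_injective.injOn).subset fun K hK => hK.1.1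
  have iV : Ix2 V V := ⟨le_rfl, fun a ha _ _ => Or.inl ha⟩
  have ind : ∀ t : Finset (Subgroup G), (∀ K ∈ t, K ∈ I) →
      Nrm T (t.sup Yk) ∧ Good w T (t.sup Yk) := by
    intro t
    induction t using Finset.induction_on with
    | empty =>
      intro _
      exact ⟨fun t _ n hn => by rw [Finset.sup_empty, Subgroup.mem_bot] at hn; simp [hn],
        gT V _ iV (by simp)⟩
    | insert K t hK ih =>
      intro h
      obtain ⟨i1, i2⟩ := ih fun K' hK' => h K' (by simp [hK'])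
      have kI := h K (by simp)
      have hc : ∀ a ∈ Yk K, ∀ b ∈ t.sup Yk, Commute a b := fun a ha b hb => by
        have : t.sup Yk ≤ Subgroup.centralizer {a} := Finset.sup_le fun K' hK' b hb => by
          rw [Subgroup.mem_centralizer_iff]
          rintro _ rfl
          exact cY K kI K' (h K' (by simp [hK'])) (fun e => hK (e ▸ hK')) _ ha b hb
        exact Subgroup.mem_centralizer_iff.1 (this hb) a rfl
      rw [Finset.sup_insert]
      exact ⟨nrm_sup hc (nY K kI.1.1) i1, good_sup hc (nY K kI.1.1) i1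
        (gT K _ kI.1 ((Subgroup.closure_le _).2 fun y hy => hy.1)) i2⟩
  obtain ⟨i1, i2⟩ := ind hI.toFinset fun K hK => hI.mem_toFinset.1 hK
  let R := pS _ T i1
  have rT : T ≤ R := fun t ht => ⟨t, ht, by simp⟩
  have r0 : ∀ y ∈ YY h1, (∀ v ∈ V, Commute v y) → y ∈ R := fun y hy h =>
    rT ⟨1, one_mem _, by simpa using (mem_CY h1).2 ⟨hy, h⟩⟩
  have rY : ∀ y, y ∈ YY h1 → y ∈ R := by
    refine cent_ind hV.fin _ fun y ih hy => ?_
    by_cases h : ∀ a ∈ V, ∀ b ∈ V, Commute a y ∨ Commute b y ∨ Commute (a * b) y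
    · by_cases h' : ∀ v ∈ V, Commute v y
      · exact r0 y hy h'
      push Not at h'
      obtain ⟨t, ht, hn⟩ := h'
      let K : Subgroup G := V ⊓ Subgroup.centralizer {y}
      have mK : ∀ v, v ∈ K ↔ v ∈ V ∧ Commute v y := fun v => by
        simp only [K, Subgroup.mem_inf, Subgroup.mem_centralizer_iff, Set.mem_singleton_iff,
          forall_eq]
        exact ⟨fun h => ⟨h.1, h.2.symm⟩, fun h => ⟨h.1, h.2.symm⟩⟩
      have kI : K ∈ I := ⟨⟨inf_le_left, fun a ha b hb => by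
        simp only [mK, ha, hb, mul_mem ha hb, true_and]; exact h a ha b hb⟩,
        t, ht, fun h => hn ((mK t).1 h).2⟩
      have tt := hV.sq t ht
      have hti : t⁻¹ = t := inv_eq_of_mul_eq_one_right (by rw [← pow_two, tt])
      have spl : ∀ v ∈ V, Commute v y ∨ ∃ u ∈ V, Commute u y ∧ v = u * t := fun v hv => by
        rcases h v hv t ht with h | h | h
        · exact Or.inl h
        · exact absurd h hn
        · exact Or.inr ⟨_, mul_mem hv ht, h, by rw [mul_assoc, ← pow_two, tt, mul_one]⟩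
      have p1 : y * dd j t y ∈ R := r0 _ (mul_mem hy (dd_mem h1 tt y)) fun v hv => by
        rcases spl v hv with h | ⟨u, hu, h, rfl⟩
        · exact h.mul_right (comm_dd (hV.cm v hv t ht) h)
        · exact (h.mul_right (comm_dd (hV.cm u hu t ht) h)).mul_left (comm_pr' h1 tt y)
      have p2 : dd j t y ∈ R := by
        refine ⟨1, one_mem _, ?_⟩
        rw [inv_one, mul_one]
        refine Finset.le_sup (f := Yk) (hI.mem_toFinset.2 kI) (Subgroup.subset_closure ⟨?_, ?_⟩)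
        · exact ⟨dd_mem h1 tt y, fun v hv =>
            comm_dd (hV.cm v ((mK v).1 hv).1 t ht) ((mK v).1 hv).2⟩
        · intro v hv hn'
          rcases spl v hv with h | ⟨u, hu, h, rfl⟩
          · exact absurd ((mK v).2 ⟨hv, h⟩) hn'
          · have c := (comm_dd (j := j) (hV.cm u hu t ht) h).inv_right
            calc _ = u * (t * dd j t y * t⁻¹) * u⁻¹ := by group
              _ = _ := by rw [inv_dd tt, c.eq]; group
      simpa using mul_mem p1 (inv_mem p2)
    · push Not at h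
      obtain ⟨a, ha, b, hb, na, nb, nab⟩ := h
      have sa := hV.sq a ha
      have sb := hV.sq b hb
      have hab := mul_mem ha hb
      have sab := hV.sq _ hab
      obtain ⟨x, hx⟩ := hy
      have q := h2 a b x
      rw [e2, ia_self sa, ib_self sa sb (hV.cm a ha b hb), hx, q2] at q
      have hy : y ∈ YY h1 := ⟨x, hx⟩
      set y1 := (dd j a y)⁻¹ with hy1
      set y2 := (dd j b y1)⁻¹ with hy2
      have m1 : y1 ∈ YY h1 := inv_mem (dd_mem h1 sa _)
      have m2 : y2 ∈ YY h1 := inv_mem (dd_mem h1 sb _)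
      have c1 : ∀ v ∈ V, Commute v y → Commute v y1 := fun v hv h =>
        (comm_dd (hV.cm v hv a ha) h).inv_right
      have c2 : ∀ v ∈ V, Commute v y → Commute v y2 := fun v hv h =>
        (comm_dd (hV.cm v hv b hb) (c1 v hv h)).inv_right
      have p0 := ih (y * dd j a y) (fun v hv h => h.mul_right (comm_dd (hV.cm v hv a ha) h))
        ⟨a, ha, na, comm_pr' h1 sa y⟩ (mul_mem hy (dd_mem h1 sa _))
      have p1 := ih (y1 * dd j b y1) (fun v hv h => (c1 v hv h).mul_right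
        (comm_dd (hV.cm v hv b hb) (c1 v hv h))) ⟨b, hb, nb, comm_pr' h1 sb y1⟩
        (mul_mem m1 (dd_mem h1 sb _))
      have p2 := ih y2 c2 ⟨_, hab, nab, by simpa [q] using comm_pr' h1 sab y2⟩ m2
      have := mul_mem (mul_mem p0 p1) p2
      simpa [hy1, hy2, mul_assoc] using this
  rw [← hs (FreeGroup.lift fun i => if i ∈ s then f (FreeGroup.of i) else 1)
    fun i hi => by simp [hi]]
  refine i2 _ fun i => ?_
  rw [FreeGroup.lift_apply_of]
  split_ifs with hi
  · obtain ⟨v, hv, h⟩ := hsV _ (Finset.mem_image_of_mem _ hi)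
    have := mul_mem (rY _ h) (rT (show v ∈ T from ⟨v, hv, by rw [mul_inv_cancel]; exact one_mem _⟩))
    rw [inv_mul_cancel_right] at this
    exact this
  · exact one_mem R

end Pool.Agent.H64.FBI
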