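import Pool.Agent.H64.Zub2

set_option autoImplicit false

namespace Pool.Agent.H64.Zub

open scoped commutatorElement
open Matrix

/-- product of `k` commutators -/
def cp {G : Type} [Group G] (g : ℕ → G) : ℕ → G
  | 0 => 1
  | k + 1 => cp g k * ⁅g (2 * k + 1), g (2 * k + 2)⁆

theorem map_cp {G H : Type} [Group G] [Group H] (f : G →* H) (g : ℕ → G) (k : ℕ) :
    f (cp g k) = cp (fun i => f (g i)) k := by
  induction k with
  | zero => exact map_one f
  | succ k ih => simp only [cp, map_mul, ih, map_commutatorElement]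

theorem cp_congr {G : Type} [Group G] {g g' : ℕ → G} (k : ℕ)
    (h : ∀ i, 0 < i → i ≤ 2 * k → g i = g' i) : cp g k = cp g' k := by
  induction k with
  | zero => rfl
  | succ k ih =>
    simp only [cp]
    rw [ih fun i h0 hi => h i h0 (by omega), h _ (by omega) (by omega), h _ (by omega) (by omega)]

/-- Heisenberg type group -/
@[ext] structure Hs (p n : ℕ) where
  v : Fin (n + 1) → ZMod p
  w : Fin (n + 1) → ZMod p
  A : Matrix (Fin (n + 1)) (Fin (n + 1)) (ZMod p)

variable {p n : ℕ}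

instance : Mul (Hs p n) := ⟨fun x y => ⟨x.v + y.v, x.w + y.w, x.A + y.A + vecMulVec x.v y.w⟩⟩
instance : One (Hs p n) := ⟨⟨0, 0, 0⟩⟩
instance : Inv (Hs p n) := ⟨fun x => ⟨-x.v, -x.w, -x.A + vecMulVec x.v x.w⟩⟩

@[simp] theorem Hs.mul_v (x y : Hs p n) : (x * y).v = x.v + y.v := rfl
@[simp] theorem Hs.mul_w (x y : Hs p n) : (x * y).w = x.w + y.w := rfl
@[simp] theorem Hs.mul_A (x y : Hs p n) : (x * y).A = x.A + y.A + vecMulVec x.v y.w := rfl
@[simp] theorem Hs.one_v : (1 : Hs p n).v = 0 := rfl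
@[simp] theorem Hs.one_w : (1 : Hs p n).w = 0 := rfl
@[simp] theorem Hs.one_A : (1 : Hs p n).A = 0 := rfl
@[simp] theorem Hs.inv_v (x : Hs p n) : (x⁻¹).v = -x.v := rfl
@[simp] theorem Hs.inv_w (x : Hs p n) : (x⁻¹).w = -x.w := rfl
@[simp] theorem Hs.inv_A (x : Hs p n) : (x⁻¹).A = -x.A + vecMulVec x.v x.w := rfl

instance : Group (Hs p n) := Group.ofLeftAxioms
  (fun x y z => by
    ext <;> simp [vecMulVec_apply] <;> ring)
  (fun x => by ext <;> simp [vecMulVec_apply])
  (fun x => by ext <;> simp [vecMulVec_apply])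

/-- central part -/
def zt (A : Matrix (Fin (n + 1)) (Fin (n + 1)) (ZMod p)) : Hs p n := ⟨0, 0, A⟩

@[simp] theorem zt_v (A : Matrix (Fin (n + 1)) (Fin (n + 1)) (ZMod p)) : (zt A).v = 0 := rfl
@[simp] theorem zt_w (A : Matrix (Fin (n + 1)) (Fin (n + 1)) (ZMod p)) : (zt A).w = 0 := rfl
@[simp] theorem zt_A (A : Matrix (Fin (n + 1)) (Fin (n + 1)) (ZMod p)) : (zt A).A = A := rfl

theorem zt_add (A B : Matrix (Fin (n + 1)) (Fin (n + 1)) (ZMod p)) :
    zt (A + B) = zt A * zt B := by ext <;> simp [vecMulVec_apply]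

theorem zt_zero : zt (0 : Matrix (Fin (n + 1)) (Fin (n + 1)) (ZMod p)) = 1 := rfl

theorem zt_neg (A : Matrix (Fin (n + 1)) (Fin (n + 1)) (ZMod p)) : zt (-A) = (zt A)⁻¹ := by
  ext <;> simp [vecMulVec_apply]

theorem zt_pow (A : Matrix (Fin (n + 1)) (Fin (n + 1)) (ZMod p)) (m : ℕ) :
    zt A ^ m = zt (m • A) := by
  induction m with
  | zero => simp [zt_zero]
  | succ m ih => rw [pow_succ, ih, succ_nsmul, zt_add]

theorem zt_p (A : Matrix (Fin (n + 1)) (Fin (n + 1)) (ZMod p)) : zt A ^ p = 1 := by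
  rw [zt_pow, ← zt_zero]
  congr 1
  ext i j
  simp

theorem zt_comm (A : Matrix (Fin (n + 1)) (Fin (n + 1)) (ZMod p)) (x : Hs p n) :
    zt A * x = x * zt A := by
  ext <;> simp [vecMulVec_apply, add_comm]

theorem comm_zt (x y : Hs p n) : ⁅x, y⁆ = zt (vecMulVec x.v y.w - vecMulVec y.v x.w) := by
  ext <;> simp [commutatorElement_def, vecMulVec_apply]
  ring

/-- coordinates -/
def hsEquiv : Hs p n ≃ (Fin (n + 1) → ZMod p) × (Fin (n + 1) → ZMod p) ×
    (Fin (n + 1) → Fin (n + 1) → ZMod p) where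
  toFun x := (x.v, x.w, x.A)
  invFun y := ⟨y.1, y.2.1, y.2.2⟩
  left_inv _ := rfl
  right_inv _ := rfl

variable [Fact p.Prime]

instance : Finite (Hs p n) := Finite.of_equiv _ hsEquiv.symm

theorem hs_p : IsPGroup p (Hs p n) := by
  refine IsPGroup.of_card (n := (n + 1) + ((n + 1) + (n + 1) * (n + 1))) ?_
  rw [Nat.card_congr hsEquiv]
  simp only [Nat.card_prod, Nat.card_fun, Nat.card_zmod, Nat.card_fin]
  ring

theorem cp_zt (g : ℕ → Hs p n) (k : ℕ) : ∃ A, cp g k = zt A ∧
    ∀ r, (∀ i, i < 2 * k → (g (i + 1)).w ⬝ᵥ r = 0) → A *ᵥ r = 0 := by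
  induction k with
  | zero => exact ⟨0, rfl, fun r _ => by simp⟩
  | succ k ih =>
    obtain ⟨A, hA, hr⟩ := ih
    refine ⟨_, by rw [cp, hA, comm_zt, ← zt_add], fun r h => ?_⟩
    rw [add_mulVec, sub_mulVec, hr r fun i hi => h i (by omega), vecMulVec_mulVec,
      vecMulVec_mulVec, h (2 * k + 1) (by omega), h (2 * k) (by omega)]
    simp

theorem exists_r (g : ℕ → Hs p n) (k : ℕ) (hk : 2 * k < n + 1) :
    ∃ r : Fin (n + 1) → ZMod p, r ≠ 0 ∧ ∀ i, i < 2 * k → (g (i + 1)).w ⬝ᵥ r = 0 := by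
  let M : Matrix (Fin (2 * k)) (Fin (n + 1)) (ZMod p) := fun i => (g (i.1 + 1)).w
  have := LinearMap.ker_ne_bot_of_finrank_lt (f := M.mulVecLin) (by simpa using hk)
  obtain ⟨r, hr, h0⟩ := Submodule.exists_mem_ne_zero_of_ne_bot this
  exact ⟨r, h0, fun i hi => congrFun hr ⟨i, hi⟩⟩

theorem sum_zero (g : Matrix (Fin (n + 1)) (Fin (n + 1)) (ZMod p) → ZMod p)
    (c : Matrix (Fin (n + 1)) (Fin (n + 1)) (ZMod p)) (hc : c ≠ 0) (h : ∀ B, g (B + c) = g B) :
    ∑ B, g B = 0 := by
  obtain ⟨i, j, hij⟩ : ∃ i j, c i j ≠ 0 := by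
    by_contra! h; exact hc (Matrix.ext h)
  have := Equiv.sum_comp (Equiv.addRight c) (fun B => g B * B i j)
  simp only [Equiv.coe_addRight, h, Matrix.add_apply, mul_add, Finset.sum_add_distrib,
    add_eq_left, ← Finset.sum_mul] at this
  exact (mul_eq_zero.1 this).resolve_right hij

/-- the functional -/
def Lam : (Hs p n → ZMod p) →+ ZMod p where
  toFun G := ∑ B : Matrix (Fin (n + 1)) (Fin (n + 1)) (ZMod p), if B 0 0 = 0 then G (zt B) else 0
  map_zero' := by simp
  map_add' G G' := by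
    rw [← Finset.sum_add_distrib]
    refine Finset.sum_congr rfl fun B _ => ?_
    split_ifs <;> simp

theorem lf_pow {K : Type} [Group K] (w : Multiplicative (ZMod p) ≀ᵣ K) (m : ℕ) (s : K) :
    lf (w ^ m) s = ∑ i ∈ Finset.range m, lf w ((w.right ^ i)⁻¹ * s) := by
  induction m with
  | zero => rfl
  | succ m ih =>
    have : (w ^ m).right = w.right ^ m := map_pow RegularWreathProduct.rightHom w m
    rw [pow_succ, lf_mul, Finset.sum_range_succ, Pi.add_apply, ih, this]

theorem lf_inv {K : Type} [Group K] (w : Multiplicative (ZMod p) ≀ᵣ K) (hw : w.right ^ p = 1)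
    (s : K) : lf (w ^ p) (w.right⁻¹ * s) = lf (w ^ p) s := by
  have h := congrFun (congrArg lf (pow_succ' w p ▸ pow_succ w p : w * w ^ p = w ^ p * w)) s
  have : (w ^ p).right = 1 := (map_pow RegularWreathProduct.rightHom w p).trans hw
  rw [lf_mul, lf_mul, this] at h
  simpa [add_comm] using h

theorem prod_shift {M : Type} [CommMonoid M] (f : ℕ → M) (q : ℕ) (h : f q = f 0) :
    ∏ i ∈ Finset.range q, f (i + 1) = ∏ i ∈ Finset.range q, f i := by
  cases q with
  | zero => rfl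
  | succ q => rw [Finset.prod_range_succ, Finset.prod_range_succ' f, h]

theorem vanish (w : Multiplicative (ZMod p) ≀ᵣ Hs p n)
    (A : Matrix (Fin (n + 1)) (Fin (n + 1)) (ZMod p)) (hw : w.right = zt A)
    (r : Fin (n + 1) → ZMod p) (hr : r ≠ 0) (hA : A *ᵥ r = 0) (t : Hs p n) :
    Lam (fun s => ∏ i ∈ Finset.range p, lf (w ^ p) (t * s * zt 1 ^ i)) = 0 := by
  have hp : p.Prime := Fact.out
  by_cases h0 : A - A 0 0 • 1 = 0
  · have h1 : A 0 0 • r = 0 := by
      rw [sub_eq_zero.1 h0] at hA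
      simpa [smul_mulVec] using hA
    have h2 : A = 0 := by
      rw [sub_eq_zero.1 h0, (smul_eq_zero.1 h1).resolve_right hr, zero_smul]
    have h3 : ∀ s, lf (w ^ p) s = 0 := fun s => by
      rw [lf_pow, hw, h2, zt_zero]; simp
    rw [← map_zero (Lam (p := p) (n := n))]
    congr 1
    ext s
    exact Finset.prod_eq_zero (Finset.mem_range.2 hp.pos) (h3 _)
  · set G : Hs p n → ZMod p := fun s => ∏ i ∈ Finset.range p, lf (w ^ p) (s * zt 1 ^ i)
    have g1 : ∀ s, G (s * zt 1) = G s := fun s => by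
      simp only [G, mul_assoc, ← pow_succ']
      exact prod_shift (fun i => lf (w ^ p) (s * zt 1 ^ i)) p (by rw [zt_p, pow_zero])
    have g2 : ∀ (m : ℕ) s, G (s * zt 1 ^ m) = G s := fun m => by
      induction m with
      | zero => simp
      | succ m ih => intro s; rw [pow_succ, ← mul_assoc, g1, ih]
    have g3 : ∀ s, G (s * zt A) = G s := fun s => by
      refine Finset.prod_congr rfl fun i _ => ?_
      rw [← lf_inv w (by rw [hw, zt_p]), hw, ← zt_comm A s]
      simp [mul_assoc]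
    have g4 : ∀ s, G (s * zt (A - A 0 0 • 1)) = G s := fun s => by
      have : A - A 0 0 • 1 = A + (- A 0 0).val • 1 := by
        rw [← Nat.cast_smul_eq_nsmul (ZMod p), ZMod.natCast_zmod_val, neg_smul, sub_eq_add_neg]
      rw [this, zt_add, ← zt_pow, ← mul_assoc, g2, g3]
    refine sum_zero (fun B => if B 0 0 = 0 then G (t * zt B) else 0) _ h0 fun B => ?_
    simp only [zt_add, ← mul_assoc, g4]
    simp

/-- standard basis vector -/
def ev (i : ℕ) : Fin (n + 1) → ZMod p := fun t => if t.1 = i then 1 else 0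

/-- test sequence -/
def vv (j : ℕ) : Hs p n :=
  if j % 2 = 1 then ⟨ev ((j - 1) / 2), 0, 0⟩ else ⟨0, ev ((j - 1) / 2), 0⟩

theorem vv_odd (k : ℕ) : (vv (2 * k + 1) : Hs p n) = ⟨ev k, 0, 0⟩ := by
  rw [vv, if_pos (by omega)]; congr 2; omega

theorem vv_even (k : ℕ) : (vv (2 * k + 2) : Hs p n) = ⟨0, ev k, 0⟩ := by
  rw [vv, if_neg (by omega)]; congr 2; omega

theorem cp_vv (k : ℕ) :
    cp (vv : ℕ → Hs p n) k = zt (diagonal fun t => if t.1 < k then 1 else 0) := by
  induction k with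
  | zero => simp [cp, zt_zero]
  | succ k ih =>
    rw [cp, ih, comm_zt, ← zt_add, vv_odd, vv_even]
    congr 1
    ext i j
    by_cases hij : i = j
    · subst hij
      simp only [Matrix.add_apply, diagonal_apply_eq, Matrix.sub_apply, vecMulVec_apply, ev, Pi.zero_apply]
      split_ifs <;> first | omega | simp
    · have : i.1 ≠ j.1 := fun h => hij (Fin.ext h)
      simp only [Matrix.add_apply, diagonal_apply_ne _ hij, Matrix.sub_apply, vecMulVec_apply, ev,
        Pi.zero_apply]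
      split_ifs <;> first | omega | simp

theorem nonvanish : ∃ u : ℕ → Multiplicative (ZMod p) ≀ᵣ Hs p n, (cp u (n + 1)).right = zt 1 ∧
    Lam (fun s => ∏ i ∈ Finset.range p, lf (cp u (n + 1) ^ p) (1 * s * zt 1 ^ i)) = 1 := by
  classical
  have hp : p.Prime := Fact.out
  set z : Hs p n := cp vv n with hz
  let δ : Hs p n → Multiplicative (ZMod p) := fun s => Multiplicative.ofAdd (if z * s = 1 then 1 else 0)
  let u : ℕ → Multiplicative (ZMod p) ≀ᵣ Hs p n := fun j => ⟨if j = 2 * n + 1 then δ else 1, vv j⟩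
  have h1 : (cp u (n + 1)).right = zt 1 := by
    have := map_cp RegularWreathProduct.rightHom u (n + 1)
    refine this.trans ((cp_vv (n + 1)).trans ?_)
    congr 1
    ext i j
    simp [diagonal_apply, Matrix.one_apply, Nat.lt_succ_iff.1 i.2]
  have h2 : cp u n = RegularWreathProduct.inl z := by
    rw [hz, map_cp]
    refine cp_congr n fun i _ hi => ?_
    simp only [u, if_neg (show i ≠ 2 * n + 1 by omega)]
    rfl
  have h3 : ∀ B, lf (cp u (n + 1)) (zt B) = if B = 0 then 1 else 0 := fun B => by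
    have hb : ¬ (z * (vv (2 * n + 1) * ((vv (2 * n + 1) * vv (2 * n + 2))⁻¹ * (z⁻¹ * zt B))) = 1) := by
      intro h
      have := congrFun (congrArg Hs.w h) (Fin.last n)
      simp [vv_odd, vv_even, ev] at this
    have hB : (zt B = 1) ↔ B = 0 := ⟨fun h => congrArg Hs.A h, fun h => h ▸ zt_zero⟩
    rw [cp, h2]
    simp only [u, commutatorElement_def, lf, if_pos, if_neg (show 2 * n + 2 ≠ 2 * n + 1 by omega),
      RegularWreathProduct.mul_left, RegularWreathProduct.inv_left, RegularWreathProduct.mul_right,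
      RegularWreathProduct.inv_right, RegularWreathProduct.left_inl, RegularWreathProduct.right_inl,
      Pi.mul_apply, Pi.inv_apply, Pi.one_apply, δ, one_mul, mul_one, inv_one, toAdd_mul, toAdd_inv,
      toAdd_ofAdd, mul_inv_cancel_left, hB, if_neg hb, neg_zero, add_zero]
  refine ⟨u, h1, ?_⟩
  have h4 : ∀ (m : ℕ) s, lf (cp u (n + 1) ^ p) (s * zt 1 ^ m) = lf (cp u (n + 1) ^ p) s := by
    intro m
    induction m with
    | zero => simp
    | succ m ih =>
      intro s
      rw [← lf_inv _ (by rw [h1, zt_p]), h1, pow_succ, ← mul_assoc s, ← zt_comm, inv_mul_cancel_left,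
        ih]
  simp only [h4, one_mul, Finset.prod_const, Finset.card_range, ZMod.pow_card]
  show ∑ B : Matrix (Fin (n + 1)) (Fin (n + 1)) (ZMod p),
    (if B 0 0 = 0 then lf (cp u (n + 1) ^ p) (zt B) else 0) = 1
  simp only [lf_pow, h1, zt_pow, ← zt_neg, ← zt_add, h3]
  have key : ∀ i : ℕ, i < p → ∀ B : Matrix (Fin (n + 1)) (Fin (n + 1)) (ZMod p), B 0 0 = 0 →
      (-(i • 1) + B = 0 ↔ i = 0 ∧ B = 0) := by
    intro i hi B hB
    constructor
    · intro h
      have := congrFun (congrFun h 0) 0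
      rw [Matrix.add_apply, Matrix.neg_apply, Matrix.smul_apply, one_apply_eq, nsmul_eq_mul, mul_one,
        hB, add_zero, Matrix.zero_apply, neg_eq_zero] at this
      have h0 : i = 0 := Nat.eq_zero_of_dvd_of_lt ((ZMod.natCast_eq_zero_iff i p).1 this) hi
      subst h0
      exact ⟨rfl, by simpa using h⟩
    · rintro ⟨rfl, rfl⟩; simp
  rw [Finset.sum_eq_single 0]
  · rw [if_pos (Matrix.zero_apply _ _), Finset.sum_eq_single 0]
    · simp
    · intro i hi h0
      rw [if_neg]
      rw [key i (Finset.mem_range.1 hi) 0 rfl]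
      exact fun h => h0 h.1
    · intro h; exact absurd (Finset.mem_range.2 hp.pos) h
  · intro B _ hB
    split_ifs with h
    · refine Finset.sum_eq_zero fun i hi => ?_
      rw [if_neg]
      rw [key i (Finset.mem_range.1 hi) B h]
      exact fun h => hB h.2
    · rfl
  · simp

theorem chain (p n : ℕ) [Fact p.Prime] : ∃ (H : Type) (_ : Group H) (_ : Finite H), IsPGroup p H ∧
    (∀ k, 2 * k < n + 1 → ∀ g : ℕ → H, cp g k ^ p ^ 2 = 1) ∧
    ∃ g : ℕ → H, cp g (n + 1) ^ p ^ 2 ≠ 1 := by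
  obtain ⟨H, _, _, π, hH, hπ, h⟩ := core (hs_p (p := p) (n := n)) (zt 1) (zt_p 1) Lam
  refine ⟨H, inferInstance, inferInstance, hH, fun k hk g => ?_, ?_⟩
  · obtain ⟨A, hA, hr⟩ := cp_zt (fun i => (π (g i)).right) k
    obtain ⟨r, h0, hr'⟩ := exists_r (fun i => (π (g i)).right) k hk
    have h1 : (π (cp g k)).right = zt A :=
      (map_cp (RegularWreathProduct.rightHom.comp π) g k).trans hA
    exact (h _ (by rw [h1, zt_p])).2 (vanish _ A h1 r h0 (hr r hr'))
  · obtain ⟨u, h1, h2⟩ := nonvanish (p := p) (n := n)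
    choose g hg using fun i => hπ (u i)
    have h3 : π (cp g (n + 1)) = cp u (n + 1) := by simp only [map_cp, hg]
    refine ⟨g, fun h4 => ?_⟩
    have := (h _ (by rw [h3, h1, zt_p])).1 h4 1
    rw [h3, h2] at this
    exact one_ne_zero this

end Pool.Agent.H64.Zub
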