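import Pool.Agent.H64.Zub1
import Pool.Agent.H64.Zub3

set_option autoImplicit false

namespace Pool.Agent.H64.Zub

open scoped commutatorElement
open RegularWreathProduct

/-- second word -/
def ww {G : Type} [Group G] (p k : ℕ) (g : ℕ → G) : G :=
  ⁅cp g k ^ p ^ 2, g 0 * cp g k ^ p ^ 2 * (g 0)⁻¹⁆

/-- conjugated commutator -/
def cc {G : Type} [Group G] (x y : G) (i : ℕ) : G := (y ^ i)⁻¹ * ⁅x, y⁆ * y ^ i

/-- two-variable word -/
def WW {G : Type} [Group G] (p k : ℕ) (x y : G) : G := ww p k (cc x y)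

theorem map_ww {G H : Type} [Group G] [Group H] (f : G →* H) (p k : ℕ) (g : ℕ → G) :
    f (ww p k g) = ww p k (fun i => f (g i)) := by
  simp only [ww, map_commutatorElement, map_mul, map_pow, map_inv, map_cp]

theorem map_WW {G H : Type} [Group G] [Group H] (f : G →* H) (p k : ℕ) (x y : G) :
    f (WW p k x y) = WW p k (f x) (f y) := by
  simp only [WW, map_ww, cc, map_commutatorElement, map_mul, map_pow, map_inv]
  rfl

theorem ww_congr {G : Type} [Group G] {g g' : ℕ → G} (p k : ℕ)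
    (h : ∀ i, i ≤ 2 * k → g i = g' i) : ww p k g = ww p k g' := by
  rw [ww, ww, cp_congr k fun i _ hi => h i hi, h 0 (by omega)]

/-- base embedding -/
def bs {D Q : Type} [Group D] [Group Q] : (Q → D) →* D ≀ᵣ Q where
  toFun φ := ⟨φ, 1⟩
  map_one' := rfl
  map_mul' _ _ := by ext <;> simp

theorem eq_bs {D Q : Type} [Group D] [Group Q] (x : D ≀ᵣ Q) (h : x.right = 1) : x = bs x.left :=
  RegularWreathProduct.ext rfl h

variable (p n : ℕ) [Fact p.Prime]

theorem layer2 : ∃ (G : Type) (_ : Group G) (_ : Finite G), IsPGroup p G ∧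
    (∀ k, 2 * k < n + 1 → ∀ g : ℕ → G, ww p k g = 1) ∧
    ∃ g : ℕ → G, ∀ m, ww p (n + 1) g ^ m = 1 → p ^ (n + 1) ∣ 2 * m := by
  classical
  obtain ⟨H, _, _, hH, h1, g, hg⟩ := chain p n
  have : NeZero (p ^ (n + 1)) := ⟨pow_ne_zero _ (Fact.out : p.Prime).ne_zero⟩
  refine ⟨Multiplicative (ZMod (p ^ (n + 1))) ≀ᵣ H, inferInstance, inferInstance,
    isPGroup_wr (isPGroup_zmod p (n + 1)) hH, fun k hk u => ?_, ?_⟩
  · have e : (cp u k ^ p ^ 2).right = 1 := by
      have := map_pow rightHom (cp u k) (p ^ 2)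
      rw [map_cp, h1 k hk] at this
      exact this
    have e' : (u 0 * cp u k ^ p ^ 2 * (u 0)⁻¹).right = 1 := by simp [e]
    rw [ww, eq_bs _ e', eq_bs _ e, ← map_commutatorElement, commutatorElement_eq_one_iff_mul_comm.2
      (mul_comm _ _), map_one]
  · let δ : H → Multiplicative (ZMod (p ^ (n + 1))) := fun s =>
      Multiplicative.ofAdd (if s = 1 then 1 else 0)
    refine ⟨fun i => if i = 0 then bs δ else inl (g i), fun m hm => ?_⟩
    set v := cp g (n + 1) ^ p ^ 2 with hv
    have e : cp (fun i => if i = 0 then bs δ else inl (g i)) (n + 1) ^ p ^ 2 = inl v := by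
      rw [hv, map_pow, map_cp]
      congr 1
      exact cp_congr _ fun i hi _ => if_neg (by omega)
    rw [ww, e, if_pos rfl] at hm
    set c := ⁅(inl v : Multiplicative (ZMod (p ^ (n + 1))) ≀ᵣ H), bs δ * inl v * (bs δ)⁻¹⁆
    have e1 : c.right = 1 := by simp [c, commutatorElement_def, bs]
    have e2 : c.left v = Multiplicative.ofAdd 2 := by
      have : v⁻¹ ≠ 1 := by simpa using hg
      simp [c, commutatorElement_def, bs, δ, hg, this]
      rw [← ofAdd_add, one_add_one_eq_two]
    rw [eq_bs _ e1, ← map_pow] at hm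
    have := congrFun (congrArg RegularWreathProduct.left hm) v
    change c.left v ^ m = 1 at this
    rw [e2, ← ofAdd_nsmul, ofAdd_eq_one] at this
    rw [← ZMod.natCast_eq_zero_iff]
    rw [nsmul_eq_mul] at this
    push_cast
    rw [mul_comm, this]

theorem layer3 : ∃ (G : Type) (_ : Group G) (_ : Finite G), IsPGroup p G ∧
    (∀ k, 2 * k < n + 1 → ∀ x y : G, WW p k x y = 1) ∧
    ∃ x y : G, ∀ m, WW p (n + 1) x y ^ m = 1 → p ^ (n + 1) ∣ 2 * m := by
  obtain ⟨G, _, _, hG, h1, g, hg⟩ := layer2 p n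
  have hp : p.Prime := Fact.out
  have : NeZero (p ^ (2 * n + 3)) := ⟨pow_ne_zero _ hp.ne_zero⟩
  have key : ∀ (k : ℕ) (x y : G ≀ᵣ Multiplicative (ZMod (p ^ (2 * n + 3)))),
      WW p k x y = bs fun s => ww p k fun i => (cc x y i).left s := by
    intro k x y
    have e : cc x y = fun i => bs (cc x y i).left := by
      funext i
      refine eq_bs _ ?_
      have : rightHom (cc x y i) = 1 := by
        rw [cc, map_mul, map_mul, map_commutatorElement,
          commutatorElement_eq_one_iff_mul_comm.2 (mul_comm (rightHom x) _), mul_one, ← map_mul,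
          inv_mul_cancel, map_one]
      exact this
    rw [WW, e, ← map_ww]
    congr 1
    funext s
    exact map_ww (Pi.evalMonoidHom (fun _ => G) s) p k _
  refine ⟨G ≀ᵣ Multiplicative (ZMod (p ^ (2 * n + 3))), inferInstance, inferInstance,
    isPGroup_wr hG (isPGroup_zmod p _), fun k hk x y => ?_, ?_⟩
  · rw [key]
    simp only [h1 k hk]
    rfl
  · let Φ : ℕ → G := fun i => Nat.rec 1 (fun j a => g j * a) i
    refine ⟨bs fun s => Φ s.toAdd.val, inl (Multiplicative.ofAdd 1), fun m hm => hg m ?_⟩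
    rw [key, ← map_pow] at hm
    have := congrFun (congrArg RegularWreathProduct.left hm) (Multiplicative.ofAdd 1)
    refine Eq.trans ?_ this
    refine congrArg (· ^ m) ?_
    refine ww_congr _ _ fun i hi => ?_
    have hlt : 2 * n + 3 < p ^ (2 * n + 3) := Nat.lt_pow_self hp.one_lt
    have v1 : ((i : ZMod (p ^ (2 * n + 3))) + 1).val = i + 1 := by
      rw [← Nat.cast_succ, ZMod.val_natCast_of_lt (by omega)]
    have v2 : (i : ZMod (p ^ (2 * n + 3))).val = i := ZMod.val_natCast_of_lt (by omega)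
    simp [cc, ← map_pow, commutatorElement_def, bs, v1, v2]
    exact (mul_inv_cancel_right (g i) (Φ i)).symm

theorem main : ∃ V : Cls, IsVariety p V ∧ ∀ (X : Type) [Nontrivial X],
    (∃ (F : Type) (_ : Group F) (_ : TopologicalSpace F) (i : X → F), IsFree V X F i) ∧
    ∀ (F : Type) [Group F] [TopologicalSpace F] (i : X → F), IsFree V X F i →
      ∀ N : ℕ, ∃ g : F, IsOfFinOrder g ∧ N < orderOf g := by
  classical
  have hp : p.Prime := Fact.out
  choose G iG fG hG h1 x y hxy using layer3 p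
  let e : ℕ → ℕ := fun k => ∏ j ∈ Finset.range (2 * k), Nat.card (G j)
  have he : ∀ k, 0 < e k := fun k => Finset.prod_pos fun j _ => Nat.card_pos
  let L : ∀ (H : Type) [Group H], Prop := fun H _ => ∀ k, ∀ a b : H, WW p k a b ^ e k = 1
  have hL : ∀ j, L (G j) := fun j k a b => by
    by_cases h : 2 * k < j + 1
    · rw [h1 j k h, one_pow]
    · obtain ⟨c, hc⟩ : Nat.card (G j) ∣ e k :=
        Finset.dvd_prod_of_mem _ (Finset.mem_range.2 (by omega))
      rw [hc, pow_mul, pow_card_eq_one', one_pow]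
  have hV : IsVariety p (fun H _ _ => IsProP p H ∧ L H) := by
    refine variety_of L (fun _ _ _ => rfl) (fun A B _ _ f hf h k a b => hf ?_)
      (fun A B _ _ f hf h k a b => ?_) (fun ι A _ h k a b => funext fun i => ?_)
    · rw [map_pow, map_WW, h, map_one]
    · obtain ⟨a, rfl⟩ := hf a
      obtain ⟨b, rfl⟩ := hf b
      rw [← map_WW, ← map_pow, h, map_one]
    · have := map_WW (Pi.evalMonoidHom A i) p k a b
      exact (congrArg (· ^ e k) this).trans (h i k _ _)
  refine ⟨_, hV, fun X _ => ⟨⟨_, inferInstance, inferInstance, _, exists_free hV X⟩, ?_⟩⟩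
  intro F _ _ i hF N
  obtain ⟨a, b, hab⟩ := exists_pair_ne X
  have hfin : IsOfFinOrder (WW p (2 * N + 1) (i a) (i b)) :=
    isOfFinOrder_iff_pow_eq_one.2 ⟨_, he _, hF.1.2 _ _ _⟩
  refine ⟨_, hfin, ?_⟩
  letI : TopologicalSpace (G (2 * N)) := ⊥
  haveI : DiscreteTopology (G (2 * N)) := ⟨rfl⟩
  obtain ⟨φ, ⟨-, hφ⟩, -⟩ := hF.2.2 (G (2 * N)) ⟨proP_finite (hG _), hL _⟩
    (fun t => if t = a then x _ else if t = b then y _ else 1) (by
      refine tendsto_const_nhds.congr' ?_
      rw [Filter.EventuallyEq, Filter.eventually_cofinite]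
      refine (Set.toFinite {a, b}).subset fun t ht => ?_
      by_contra h
      simp only [Set.mem_insert_iff, Set.mem_singleton_iff, not_or] at h
      exact ht (by rw [if_neg h.1, if_neg h.2]))
  have h2 := congrArg φ (pow_orderOf_eq_one (WW p (2 * N + 1) (i a) (i b)))
  rw [map_pow, map_WW, hφ, hφ, if_pos rfl, if_neg hab.symm, if_pos rfl, map_one] at h2
  have h3 := Nat.le_of_dvd (by have := hfin.orderOf_pos; omega) (hxy _ _ h2)
  have h4 : 2 * N + 1 < p ^ (2 * N + 1) := Nat.lt_pow_self hp.one_lt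
  omega

end Pool.Agent.H64.Zub
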