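import Pool.Agent.H64.FBI2
import Pool.Agent.H64.Zub4

set_option autoImplicit false

namespace Pool.Agent.H64.FBI

open scoped commutatorElement
open Pool.Agent.H64.Zub RegularWreathProduct Filter

theorem chain' (p n : ℕ) [Fact p.Prime] : ∃ (H : Type) (_ : Group H), (∀ x : H, x ^ p ^ 5 = 1) ∧
    (∀ k, 2 * k < n + 1 → ∀ g : ℕ → H, cp g k ^ p ^ 2 = 1) ∧
    ∃ g : ℕ → H, cp g (n + 1) ^ p ^ 2 ≠ 1 := by
  obtain ⟨H, _, _, π, hH, hπ, h⟩ := core (hs_p (p := p) (n := n)) (zt 1) (zt_p 1) Lam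
  have hp : p.Prime := Fact.out
  refine ⟨H, inferInstance, fun x => ?_, fun k hk g => ?_, ?_⟩
  · have a1 : ∀ (y : Hs p n) (m : ℕ), (y ^ m).v = m • y.v ∧ (y ^ m).w = m • y.w := fun y m => by
      induction m with
      | zero => simp
      | succ m ih => simp [pow_succ, ih.1, ih.2, succ_nsmul, add_mul]
    have a2 : ∀ y : Hs p n, y ^ p ^ 2 = 1 := fun y => by
      have : y ^ p = zt (y ^ p).A := by
        ext1
        · rw [(a1 y p).1]; ext; simp
        · rw [(a1 y p).2]; ext; simp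
        · rfl
      rw [pow_two, pow_mul, this, zt_p]
    have a3 : ∀ w : Multiplicative (ZMod p) ≀ᵣ Hs p n, w ^ p ^ 3 = 1 := fun w => by
      have e : (w ^ p ^ 2).right = 1 := (map_pow rightHom w _).trans (a2 _)
      rw [pow_succ, pow_mul, eq_bs _ e, ← map_pow, ← map_one bs]
      congr 1
      ext s
      exact (by rw [Pi.pow_apply, toAdd_pow]; simp)
    have e : π (x ^ p ^ 3) = 1 := by rw [map_pow, a3]
    have := (h (x ^ p ^ 3) (by rw [e]; simp)).2 fun t => by
      rw [e, one_pow, ← map_zero (Lam (p := p) (n := n))]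
      congr 1
      ext s
      exact Finset.prod_eq_zero (Finset.mem_range.2 hp.pos) rfl
    rwa [← pow_mul, ← pow_add] at this
  · obtain ⟨A, hA, hr⟩ := cp_zt (fun i => (π (g i)).right) k
    obtain ⟨r, h0, hr'⟩ := exists_r (fun i => (π (g i)).right) k hk
    have h1 : (π (cp g k)).right = zt A :=
      (map_cp (RegularWreathProduct.rightHom.comp π) g k).trans hA
    exact (h _ (by rw [h1, zt_p])).2 (vanish _ A h1 r h0 (hr r hr'))
  · obtain ⟨u, h1, h2⟩ := nonvanish (p := p) (n := n)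
    choose g hg using fun i => hπ (u i)
    have h3 : π (cp g (n + 1)) = cp u (n + 1) := by simp only [map_cp, hg]
    refine ⟨g, fun h4 => ?_⟩
    have := (h _ (by rw [h3, h1, zt_p])).1 h4 1
    rw [h3, h2] at this
    exact one_ne_zero this

theorem Law.surj {G H : Type} [Group G] [Group H] {w : FreeGroup ℕ} (h : Law G w) (φ : G →* H)
    (hφ : Function.Surjective φ) : Law H w := fun f => by
  choose g hg using fun i => hφ (f (FreeGroup.of i))
  have : φ.comp (FreeGroup.lift g) = f := by ext; simp [hg]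
  rw [← this, MonoidHom.comp_apply, h, map_one]

theorem Law.inj {G H : Type} [Group G] [Group H] {w : FreeGroup ℕ} (h : Law G w) (φ : H →* G)
    (hφ : Function.Injective φ) : Law H w := fun f => hφ (by rw [map_one]; exact h (φ.comp f))

theorem exists_gen (j : ℕ) : ∃ (G : Type) (_ : Group G), InC j G ∧ ∀ w, Law G w → IC j w := by
  classical
  have h0 : ∀ (L : Type) [Group L], InC j L → ∃ (L' : Type) (_ : Group L')
      (χ : L' →* Multiplicative (ZMod 2)), Function.Surjective χ ∧
      (∀ x, χ x = 1 → x ^ (2 * j + 1) = 1) ∧ ∀ w, Law L' w → Law L w := by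
    rintro L _ ⟨χ, h⟩
    by_cases hs : Function.Surjective χ
    · exact ⟨L, inferInstance, χ, hs, h, fun _ h => h⟩
    · have : ∀ x, χ x = 1 := fun x => by
        by_contra hx
        have key : ∀ c d : Multiplicative (ZMod 2), c ≠ 1 → d = 1 ∨ d = c := by decide
        refine hs fun d => ?_
        rcases key _ d hx with rfl | rfl
        · exact ⟨1, map_one _⟩
        · exact ⟨x, rfl⟩
      refine ⟨L × Multiplicative (ZMod 2), inferInstance, MonoidHom.snd _ _, Prod.snd_surjective,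
        fun x hx => Prod.ext (h _ (this _)) ?_, fun w hw => hw.surj (MonoidHom.fst _ _)
          Prod.fst_surjective⟩
      show x.2 ^ _ = 1
      rw [show x.2 = 1 from hx, one_pow]
  have h1 : ∀ w : FreeGroup ℕ, ∃ (L : Type) (_ : Group L) (χ : L →* Multiplicative (ZMod 2)),
      Function.Surjective χ ∧ (∀ x, χ x = 1 → x ^ (2 * j + 1) = 1) ∧ (Law L w → IC j w) := by
    intro w
    by_cases h : IC j w
    · exact ⟨_, inferInstance, MonoidHom.id _, fun x => ⟨x, rfl⟩,
        fun x hx => by rw [show x = 1 from hx, one_pow], fun _ => h⟩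
    · obtain ⟨L, _, hL, hw⟩ : ∃ (L : Type) (_ : Group L), InC j L ∧ ¬ Law L w := by
        by_contra! H
        exact h fun L _ hL => H L _ hL
      obtain ⟨L', _, χ, a, b, c⟩ := h0 L hL
      exact ⟨L', inferInstance, χ, a, b, fun h => absurd (c w h) hw⟩
  choose L iL χ hs hk hl using h1
  let G : Subgroup (∀ w, L w) :=
    { carrier := {g | ∀ w, χ w (g w) = χ 1 (g 1)}
      one_mem' := fun w => by simp
      mul_mem' := fun {a b} ha hb w => by simp [ha w, hb w]
      inv_mem' := fun {a} ha w => by simp [ha w] }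
  refine ⟨G, inferInstance, ⟨(χ 1).comp ((Pi.evalMonoidHom L 1).comp G.subtype), fun x hx => ?_⟩,
    fun w hw => hl w (hw.surj ((Pi.evalMonoidHom L w).comp G.subtype) fun x => ?_)⟩
  · exact Subtype.ext (funext fun w => hk w _ ((x.2 w).trans hx))
  · choose g hg using fun u => hs u (χ w x)
    have : ∀ u, χ u (Function.update g w x u) = χ w x := fun u => by
      by_cases h : u = w
      · subst h; simp
      · rw [Function.update_of_ne h, hg]
    exact ⟨⟨Function.update g w x, fun u => by rw [this, this]⟩, by simp⟩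

/-- verbal closure -/
def VS (S : Finset (FreeGroup ℕ)) : Subgroup (FreeGroup ℕ) :=
  Subgroup.closure {w : FreeGroup ℕ | ∃ s ∈ S, ∃ φ : FreeGroup ℕ →* FreeGroup ℕ, φ s = w}

theorem VS_law {S : Finset (FreeGroup ℕ)} {L : Type} [Group L] (h : ∀ s ∈ S, Law L s)
    {w : FreeGroup ℕ} (hw : w ∈ VS S) : Law L w := fun f => by
  have : VS S ≤ f.ker := (Subgroup.closure_le _).2 (by
    rintro _ ⟨s, hs, φ, rfl⟩
    exact h s hs (f.comp φ))
  exact this hw

instance (S : Finset (FreeGroup ℕ)) : (VS S).Normal := ⟨fun n hn g => by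
  have : VS S ≤ (VS S).comap (MulAut.conj g).toMonoidHom := (Subgroup.closure_le _).2 (by
    rintro _ ⟨s, hs, φ, rfl⟩
    exact Subgroup.subset_closure ⟨s, hs, (MulAut.conj g).toMonoidHom.comp φ, rfl⟩)
  exact this hn⟩

theorem law_VS {S : Finset (FreeGroup ℕ)} {s : FreeGroup ℕ} (hs : s ∈ S) :
    Law (FreeGroup ℕ ⧸ VS S) s := fun f => by
  choose g hg using fun i => QuotientGroup.mk'_surjective (VS S) (f (FreeGroup.of i))
  have : (QuotientGroup.mk' (VS S)).comp (FreeGroup.lift g) = f := by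
    ext i; simp only [MonoidHom.comp_apply, FreeGroup.lift_apply_of, hg]
  rw [← this]
  exact (QuotientGroup.eq_one_iff _).2 (Subgroup.subset_closure ⟨s, hs, _, rfl⟩)

theorem fin_basis (j : ℕ) : ∃ S : Finset (FreeGroup ℕ), ∀ w, IC j w ↔ w ∈ VS S := by
  classical
  let x : ℕ → FreeGroup ℕ := FreeGroup.of
  refine ⟨{e1 j (x 0) (x 1), e2 j (x 0) (x 1) (x 2), e3 j (x 0) (x 1) (x 2) (x 3)}, fun w =>
    ⟨fun h => ?_, fun h L _ hL => VS_law ?_ h⟩⟩
  · refine (QuotientGroup.eq_one_iff _).1 (main (j := j) (fun a b => ?_) (fun a b c => ?_)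
      (fun a b c d => ?_) h (QuotientGroup.mk' _))
    · have := law_VS (Finset.mem_insert_self _ _) (FreeGroup.lift fun i => [a, b].getD i 1)
      simpa [map_e1, x] using this
    · have := law_VS (Finset.mem_insert_of_mem (Finset.mem_insert_self _ _))
        (FreeGroup.lift fun i => [a, b, c].getD i 1)
      simpa [map_e2, x] using this
    · have := law_VS (Finset.mem_insert_of_mem (Finset.mem_insert_of_mem
        (Finset.mem_singleton_self _))) (FreeGroup.lift fun i => [a, b, c, d].getD i 1)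
      simpa [map_e3, x] using this
  · intro s hs f
    simp only [Finset.mem_insert, Finset.mem_singleton] at hs
    rcases hs with rfl | rfl | rfl
    · rw [map_e1, inC_e1 hL]
    · rw [map_e2, inC_e2 hL]
    · rw [map_e3, inC_e3 hL]

/-- the separating words -/
def uu {G : Type} [Group G] (k : ℕ) (g : ℕ → G) : G :=
  cp (fun i => ⁅g (i + 1), g 0 ^ (2 * 121 + 1)⁆) k ^ 3 ^ 2

theorem map_uu {G H : Type} [Group G] [Group H] (f : G →* H) (k : ℕ) (g : ℕ → G) :
    f (uu k g) = uu k fun i => f (g i) := by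
  simp only [uu, map_pow, map_cp, map_commutatorElement]

theorem cp_one {G : Type} [Group G] (k : ℕ) : cp (fun _ => (1 : G)) k = 1 := by
  induction k with
  | zero => rfl
  | succ k ih => simp [cp, ih]

theorem tower (n : ℕ) : ∃ (T : Type) (_ : Group T), InC 121 T ∧
    (∀ k, 2 * k < n + 1 → Law T (uu k FreeGroup.of)) ∧ ¬ Law T (uu (n + 1) FreeGroup.of) := by
  classical
  haveI : Fact (Nat.Prime 3) := ⟨Nat.prime_three⟩
  obtain ⟨H, _, h0, h1, g, hg⟩ := chain' 3 n
  have key : ∀ (k : ℕ) (u : ℕ → H ≀ᵣ Multiplicative (ZMod 2)), uu k u =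
      bs fun s => cp (fun i => (⁅u (i + 1), u 0 ^ (2 * 121 + 1)⁆).left s) k ^ 3 ^ 2 := by
    intro k u
    have e : (fun i => ⁅u (i + 1), u 0 ^ (2 * 121 + 1)⁆) =
        fun i => bs (⁅u (i + 1), u 0 ^ (2 * 121 + 1)⁆).left := by
      funext i
      generalize u 0 ^ (2 * 121 + 1) = z
      refine eq_bs _ ((map_commutatorElement rightHom (u (i + 1)) z).trans ?_)
      exact commutatorElement_eq_one_iff_mul_comm.2 (mul_comm _ _)
    rw [uu, e, ← map_cp, ← map_pow]
    congr 1
    funext s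
    exact congrArg (· ^ 3 ^ 2) (map_cp (Pi.evalMonoidHom (fun _ => H) s) _ k)
  refine ⟨H ≀ᵣ Multiplicative (ZMod 2), inferInstance, ⟨rightHom, fun x hx => ?_⟩,
    fun k hk f => ?_, fun h => hg ?_⟩
  · rw [eq_bs x hx, ← map_pow, ← map_one bs]
    congr 1
    funext s
    exact h0 _
  · rw [map_uu, key]
    simp only [h1 k hk]
    rfl
  · let t : Multiplicative (ZMod 2) := Multiplicative.ofAdd 1
    let u : ℕ → H ≀ᵣ Multiplicative (ZMod 2) := fun i =>
      Nat.casesOn i (inl t) fun i => bs fun s => if s = 1 then g i else 1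
    have := h (FreeGroup.lift u)
    rw [map_uu, key] at this
    have h2 := congrFun (congrArg RegularWreathProduct.left this) 1
    refine Eq.trans ?_ h2
    refine congrArg (fun v => cp v (n + 1) ^ 3 ^ 2) (funext fun i => ?_)
    have ht : t ^ (2 * 121 + 1) = t := ia_self (j := 121) (by decide)
    have ht' : t⁻¹ ≠ 1 := by decide
    have e0 : u 0 ^ (2 * 121 + 1) = inl t := by
      show (inl t : H ≀ᵣ Multiplicative (ZMod 2)) ^ _ = _
      rw [← map_pow, ht]
    simp only [FreeGroup.lift_apply_of, e0]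
    simp [u, commutatorElement_def, bs, ht']

theorem counter : ∃ (G : Type) (_ : Group G) (H : Subgroup G), H.FiniteIndex ∧
    (∃ S, ∀ w, Law G w ↔ w ∈ VS S) ∧ ¬ ∃ S, ∀ w, Law H w ↔ w ∈ VS S := by
  obtain ⟨G, _, ⟨χ, hχ⟩, hG⟩ := exists_gen 121
  obtain ⟨S, hS⟩ := fin_basis 121
  choose T iT h0 h1 h2 using tower
  let E : Subgroup (FreeGroup ℕ) :=
    { carrier := {w | ∀ᶠ n in atTop, Law (T n) w}
      one_mem' := Eventually.of_forall fun n f => map_one f
      mul_mem' := fun {a b} ha hb => (ha.and hb).mono fun n h f => by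
        rw [map_mul, h.1, h.2, one_mul]
      inv_mem' := fun {a} ha => Eventually.mono ha fun n h f => by rw [map_inv, h, inv_one] }
  haveI : E.Normal := ⟨fun a ha g => Eventually.mono ha fun n h f => by simp [h f]⟩
  have hE : ∀ w, Law (FreeGroup ℕ ⧸ E) w ↔ w ∈ E := fun w =>
    ⟨fun h => (QuotientGroup.eq_one_iff _).1 (h (QuotientGroup.mk' E)), fun h f => by
      choose g hg using fun i => QuotientGroup.mk'_surjective E (f (FreeGroup.of i))
      have : (QuotientGroup.mk' E).comp (FreeGroup.lift g) = f := by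
        ext i; simp only [MonoidHom.comp_apply, FreeGroup.lift_apply_of, hg]
      rw [← this]
      exact (QuotientGroup.eq_one_iff _).2 (Eventually.mono h fun n h f => h (f.comp _))⟩
  refine ⟨G × (FreeGroup ℕ ⧸ E), inferInstance, (χ.comp (MonoidHom.fst _ _)).ker, inferInstance,
    ⟨S, fun w => ⟨fun h => (hS w).1 (hG w (h.surj (MonoidHom.fst _ _) Prod.fst_surjective)),
      fun h f => Prod.ext ((hS w).2 h G ⟨χ, hχ⟩ ((MonoidHom.fst _ _).comp f))
        ((hE w).2 (Eventually.of_forall fun n => (hS w).2 h _ (h0 n))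
          ((MonoidHom.snd _ _).comp f))⟩⟩, ?_⟩
  rintro ⟨S', hS'⟩
  have a1 : ∀ s ∈ S', s ∈ E := fun s hs => (hE s).1 (((hS' s).2
    (Subgroup.subset_closure ⟨s, hs, MonoidHom.id _, rfl⟩)).surj
      ((MonoidHom.snd _ _).comp (Subgroup.subtype _)) fun x => ⟨⟨(1, x), map_one χ⟩, rfl⟩)
  obtain ⟨n, hn⟩ := ((eventually_all_finset S').2 a1).exists
  refine h2 n (VS_law hn ((hS' _).1 fun f => Subtype.ext (Prod.ext ?_ ?_)))
  · let f1 := ((MonoidHom.fst _ _).comp (Subgroup.subtype _)).comp f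
    show f1 _ = 1
    have : f1 (FreeGroup.of 0) ^ (2 * 121 + 1) = 1 := hχ _ (f (FreeGroup.of 0)).2
    rw [map_uu, uu, this]
    simp [cp_one]
  · exact (hE _).2 ((eventually_ge_atTop (2 * (n + 1))).mono fun m hm => h1 m (n + 1) (by omega))
      (((MonoidHom.snd _ _).comp (Subgroup.subtype _)).comp f)

theorem final : ¬ (∀ (G : Type) [Group G] (H : Subgroup G), H.FiniteIndex →
      (∃ S : Finset (FreeGroup ℕ),
        {w : FreeGroup ℕ | ∀ f : FreeGroup ℕ →* G, f w = 1} =
          ((Subgroup.closure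
            {w : FreeGroup ℕ | ∃ s ∈ S, ∃ φ : FreeGroup ℕ →* FreeGroup ℕ, φ s = w}
            : Subgroup (FreeGroup ℕ)) : Set (FreeGroup ℕ))) →
      ∃ S : Finset (FreeGroup ℕ),
        {w : FreeGroup ℕ | ∀ f : FreeGroup ℕ →* H, f w = 1} =
          ((Subgroup.closure
            {w : FreeGroup ℕ | ∃ s ∈ S, ∃ φ : FreeGroup ℕ →* FreeGroup ℕ, φ s = w}
            : Subgroup (FreeGroup ℕ)) : Set (FreeGroup ℕ))) := by
  intro h
  obtain ⟨G, _, H, a, ⟨S, b⟩, c⟩ := counter
  obtain ⟨S', hS'⟩ := h G H a ⟨S, Set.ext b⟩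
  exact c ⟨S', fun w => Set.ext_iff.1 hS' w⟩

end Pool.Agent.H64.FBI
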