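import Mathlib

/-! A highly transitive topological full group of the Cantor space onto any countable group. -/

namespace Pool.Agent.H64.FullGroup

open Filter Topology

abbrev K := ℕ → Bool

def p : K := fun _ => false

def cone (n : ℕ) (w : K) : K := fun i => if i < n then false else if i = n then true else w (i - n - 1)

def shift (n : ℕ) (x : K) : K := fun i => x (i + n + 1)

lemma cone_ne (n : ℕ) (w : K) : cone n w ≠ p := fun h => by
  simpa [cone, p] using congrFun h n

lemma exists_true {x : K} (h : x ≠ p) : ∃ n, x n = true := by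
  by_contra h'
  exact h (funext fun i => by simpa [p] using not_exists.1 h' i)

lemma exists_cone {x : K} (h : x ≠ p) : ∃ n w, x = cone n w := by
  classical
  refine ⟨Nat.find (exists_true h), shift (Nat.find (exists_true h)) x, funext fun i => ?_⟩
  unfold cone shift
  split_ifs with h1 h2
  · simpa using Nat.find_min (exists_true h) h1
  · rw [h2]; exact Nat.find_spec (exists_true h)
  · congr 1; omega

lemma cone_inj {n m : ℕ} {w v : K} (h : cone n w = cone m v) : n = m := by
  rcases lt_trichotomy n m with h1 | h1 | h1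
  · simpa [cone, h1] using congrFun h n
  · exact h1
  · simpa [cone, h1] using congrFun h m

lemma shift_cone (n : ℕ) (w : K) : shift n (cone n w) = w := by
  funext i
  simp only [shift, cone]
  rw [if_neg (by omega), if_neg (by omega)]
  congr 1; omega

open Classical in
noncomputable def Tf (σ : ℕ → ℕ) (x : K) : K :=
  if h : x = p then p else
    cone (σ (exists_cone h).choose) (shift (exists_cone h).choose x)

lemma Tf_p (σ : ℕ → ℕ) : Tf σ p = p := by simp [Tf]

lemma Tf_cone (σ : ℕ → ℕ) (n : ℕ) (w : K) : Tf σ (cone n w) = cone (σ n) w := by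
  have h := cone_ne n w
  have h1 : (exists_cone h).choose = n := by
    obtain ⟨v, hv⟩ := (exists_cone h).choose_spec
    exact (cone_inj hv).symm
  rw [Tf, dif_neg h, h1, shift_cone]

lemma cone_cont (n : ℕ) : Continuous (cone n) := by
  refine continuous_pi fun i => ?_
  unfold cone
  split_ifs
  · exact continuous_const
  · exact continuous_const
  · exact continuous_apply _

lemma shift_cont (n : ℕ) : Continuous (shift n) :=
  continuous_pi fun i => continuous_apply _

lemma agree_nhds (x : K) (N : ℕ) : ∀ᶠ y in 𝓝 x, ∀ i < N, y i = x i := by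
  have : ∀ i ∈ Set.Iio N, ∀ᶠ y in 𝓝 x, y i = x i := fun i _ =>
    ((continuous_apply i).tendsto x).eventually (p := fun b => b = x i) (by
      simp [nhds_discrete])
  exact (eventually_all_finite (Set.finite_Iio N)).2 this

lemma Tf_cont (σ : Equiv.Perm ℕ) : Continuous (Tf σ) := by
  rw [continuous_iff_continuousAt]
  intro x
  by_cases hx : x = p
  · subst hx
    rw [ContinuousAt, Tf_p, tendsto_pi_nhds]
    intro i
    obtain ⟨N, hN⟩ : ∃ N, ∀ j ≤ i, σ.symm j < N := by
      obtain ⟨N, hN⟩ := ((Set.finite_Iic i).image σ.symm).bddAbove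
      exact ⟨N + 1, fun j hj => Nat.lt_succ_of_le (hN ⟨j, hj, rfl⟩)⟩
    refine tendsto_const_nhds.congr' ((agree_nhds p N).mono fun y hy => ?_)
    by_cases hyp : y = p
    · simp [hyp, Tf_p]
    · obtain ⟨n, w, rfl⟩ := exists_cone hyp
      have hn : N ≤ n := by
        by_contra hc
        simpa [cone, p] using hy n (by omega)
      have : i < σ n := by
        by_contra hc
        have := hN (σ n) (by omega)
        simp at this
        omega
      simp [Tf_cone, cone, p, this]
  · obtain ⟨n, w, rfl⟩ := exists_cone hx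
    refine ((cone_cont (σ n)).comp (shift_cont n)).continuousAt.congr
      ((agree_nhds (cone n w) (n + 1)).mono fun y hy => ?_)
    have : y = cone n (shift n y) := by
      funext i
      by_cases hi : i < n + 1
      · rw [hy i hi]
        unfold cone
        split_ifs
        · rfl
        · rfl
        · omega
      · unfold cone shift
        rw [if_neg (by omega), if_neg (by omega)]
        congr 1; omega
    show cone (σ n) (shift n y) = Tf σ y
    conv_rhs => rw [this, Tf_cone]

lemma Tf_comp (σ τ : ℕ → ℕ) (x : K) : Tf σ (Tf τ x) = Tf (σ ∘ τ) x := by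
  by_cases hx : x = p
  · simp [hx, Tf_p]
  · obtain ⟨n, w, rfl⟩ := exists_cone hx
    simp [Tf_cone]

lemma Tf_id (x : K) : Tf id x = x := by
  by_cases hx : x = p
  · simp [hx, Tf_p]
  · obtain ⟨n, w, rfl⟩ := exists_cone hx
    simp [Tf_cone]

noncomputable def Th (σ : Equiv.Perm ℕ) : K ≃ₜ K where
  toFun := Tf σ
  invFun := Tf σ.symm
  left_inv x := by rw [Tf_comp]; simp [Tf_id]
  right_inv x := by rw [Tf_comp]; simp [Tf_id]
  continuous_toFun := Tf_cont σ
  continuous_invFun := Tf_cont σ.symm

noncomputable def T : Equiv.Perm ℕ →* (K ≃ₜ K) where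
  toFun := Th
  map_one' := by ext1 x; exact Tf_id x
  map_mul' σ τ := by ext1 x; exact (Tf_comp σ τ x).symm

lemma T_p (σ : Equiv.Perm ℕ) : T σ p = p := Tf_p σ
lemma T_cone (σ : Equiv.Perm ℕ) (n : ℕ) (w : K) : T σ (cone n w) = cone (σ n) w := Tf_cone σ n w

lemma cone_tendsto : Tendsto (fun n => cone n p) atTop (𝓝 p) := by
  rw [tendsto_pi_nhds]
  intro i
  refine tendsto_const_nhds.congr' ((eventually_gt_atTop i).mono fun n hn => ?_)
  simp [cone, p, hn]

variable {L : Type} [Group L] (ρ : L →* Equiv.Perm ℕ)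

lemma germ_mul {g g' s s' : K ≃ₜ K} (hs' : s' p = p) (h : (g : K → K) =ᶠ[𝓝 p] s)
    (h' : (g' : K → K) =ᶠ[𝓝 p] s') : ((g * g' : K ≃ₜ K) : K → K) =ᶠ[𝓝 p] (s * s' : K ≃ₜ K) := by
  have ht : Tendsto s' (𝓝 p) (𝓝 p) := by
    have := s'.continuous.tendsto p
    rwa [hs'] at this
  filter_upwards [h', ht.eventually h] with x h1 h2
  show g (g' x) = s (s' x)
  rw [h1, h2]

/-- homeomorphisms whose germ at `p` is that of an element of `L` -/
def G : Subgroup (K ≃ₜ K) where
  carrier := {g | ∃ l : L, (g : K → K) =ᶠ[𝓝 p] T (ρ l)}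
  one_mem' := ⟨1, by simp⟩
  mul_mem' := by
    rintro g g' ⟨l, h⟩ ⟨l', h'⟩
    exact ⟨l * l', by rw [map_mul, map_mul]; exact germ_mul (T_p _) h h'⟩
  inv_mem' := by
    rintro g ⟨l, h⟩
    refine ⟨l⁻¹, ?_⟩
    have hp : g p = p := h.self_of_nhds.trans (T_p _)
    have ht : Tendsto g.symm (𝓝 p) (𝓝 p) := by
      have := g.symm.continuous.tendsto p
      rwa [show g.symm p = p from by rw [Homeomorph.symm_apply_eq, hp]] at this
    filter_upwards [ht.eventually h] with x hx
    rw [map_inv, map_inv]
    show g.symm x = (T (ρ l)).symm x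
    rw [Homeomorph.eq_symm_apply, ← hx]
    simp

lemma G_p {g : K ≃ₜ K} (hg : g ∈ G ρ) : g p = p := by
  obtain ⟨l, h⟩ := hg
  exact h.self_of_nhds.trans (T_p _)

lemma G_full (g : K ≃ₜ K) : g ∈ G ρ ↔
    ∀ x : K, ∃ U : Set K, IsClopen U ∧ x ∈ U ∧ ∃ γ ∈ G ρ, ∀ y ∈ U, g y = γ y := by
  constructor
  · exact fun hg x => ⟨Set.univ, isClopen_univ, trivial, g, hg, fun _ _ => rfl⟩
  · intro h
    obtain ⟨U, hU, hp, γ, ⟨l, hl⟩, hγ⟩ := h p
    refine ⟨l, EventuallyEq.trans ?_ hl⟩
    filter_upwards [hU.isOpen.mem_nhds hp] with y hy using hγ y hy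

lemma germ_unique (hρ : ∀ l n, ρ l n = n → l = 1) {l l' : L}
    (h : (T (ρ l) : K → K) =ᶠ[𝓝 p] T (ρ l')) : l = l' := by
  obtain ⟨n, hn⟩ := (cone_tendsto.eventually h).exists
  simp only [T_cone] at hn
  have h1 := cone_inj hn
  have : l'⁻¹ * l = 1 := hρ _ n (by
    rw [map_mul, map_inv, Equiv.Perm.mul_apply, h1]; simp)
  exact (inv_mul_eq_one.1 this).symm

noncomputable def proj (hρ : ∀ l n, ρ l n = n → l = 1) : G ρ →* L where
  toFun g := g.2.choose
  map_one' := germ_unique ρ hρ ((1 : G ρ).2.choose_spec.symm.trans (by simp))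
  map_mul' g g' := germ_unique ρ hρ ((g * g').2.choose_spec.symm.trans (by
    rw [map_mul, map_mul]
    exact germ_mul (T_p _) g.2.choose_spec g'.2.choose_spec))

lemma proj_surj (hρ : ∀ l n, ρ l n = n → l = 1) : Function.Surjective (proj ρ hρ) := fun l =>
  ⟨⟨T (ρ l), l, EventuallyEq.rfl⟩, germ_unique ρ hρ
    (Exists.choose_spec (p := fun l' : L => ((T (ρ l) : K → K) =ᶠ[𝓝 p] T (ρ l'))) _).symm⟩

lemma dense_S : Dense ({p}ᶜ : Set K) := by
  intro x
  by_cases hx : x = p
  · subst hx
    exact mem_closure_of_tendsto cone_tendsto (Eventually.of_forall fun n => cone_ne n p)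
  · exact subset_closure hx

/-- an involution exchanging two points and trivial near a finite set -/
lemma exists_swap (x y : K) (F : Set K) (hF : F.Finite) (hx : x ∉ F) (hy : y ∉ F) :
    ∃ g : K ≃ₜ K, g x = y ∧ ∀ z ∈ F, (g : K → K) =ᶠ[𝓝 z] id := by
  classical
  have sep : ∀ a : K, a ∉ F → ∃ N, ∀ z ∈ F, ∃ i < N, z i ≠ a i := by
    intro a ha
    have : ∀ z ∈ F, ∃ i, z i ≠ a i := fun z hz => Function.ne_iff.1 (fun h => ha (h ▸ hz))
    choose! f hf using this
    obtain ⟨N, hN⟩ := (hF.image f).bddAbove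
    exact ⟨N + 1, fun z hz => ⟨f z, Nat.lt_succ_of_le (hN ⟨z, hz, rfl⟩), hf z hz⟩⟩
  obtain ⟨N1, h1⟩ := sep x hx
  obtain ⟨N2, h2⟩ := sep y hy
  set N := max N1 N2
  let P : K → Prop := fun z => (∀ i < N, z i = x i) ∨ (∀ i < N, z i = y i)
  let s : K → K := fun z i => xor (z i) (xor (x i) (y i))
  have hs : Continuous s := continuous_pi fun i =>
    (continuous_of_discreteTopology (f := fun b : Bool => xor b (xor (x i) (y i)))).comp
      (continuous_apply i)
  have hss : ∀ z, s (s z) = z := fun z => funext fun i => by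
    simp only [s]; cases z i <;> cases x i <;> cases y i <;> rfl
  have hP : ∀ z, P z → P (s z) := by
    rintro z (h | h)
    · right; intro i hi; simp only [s, h i hi]; cases x i <;> cases y i <;> rfl
    · left; intro i hi; simp only [s, h i hi]; cases x i <;> cases y i <;> rfl
  have hloc : ∀ z, ∀ᶠ w in 𝓝 z, (P w ↔ P z) := fun z => (agree_nhds z N).mono fun w hw => by
    simp only [P]
    exact or_congr (forall₂_congr fun i hi => by rw [hw i hi])
      (forall₂_congr fun i hi => by rw [hw i hi])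
  let f : K → K := fun z => if P z then s z else z
  have hf : Continuous f := by
    rw [continuous_iff_continuousAt]
    intro z
    by_cases hz : P z
    · exact hs.continuousAt.congr ((hloc z).mono fun w hw => by simp [f, hw.2 hz])
    · exact continuous_id.continuousAt.congr ((hloc z).mono fun w hw => by
        simp [f, mt hw.1 hz])
  have hff : ∀ z, f (f z) = z := fun z => by
    by_cases hz : P z
    · simp [f, hz, hP z hz, hss]
    · simp [f, hz]
  refine ⟨⟨⟨f, f, hff, hff⟩, hf, hf⟩, ?_, fun z hz => ?_⟩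
  · show f x = y
    have : P x := Or.inl fun _ _ => rfl
    simp only [f, if_pos this]
    funext i
    simp only [s]; cases x i <;> cases y i <;> rfl
  · have : ¬ P z := by
      rintro (h | h)
      · obtain ⟨i, hi, hne⟩ := h1 z hz
        exact hne (h i (lt_max_of_lt_left hi))
      · obtain ⟨i, hi, hne⟩ := h2 z hz
        exact hne (h i (lt_max_of_lt_right hi))
    exact (hloc z).mono fun w hw => by
      show f w = w
      simp [f, mt hw.1 this]

lemma high_trans (n : ℕ) (a b : Fin n → K) (ha : Function.Injective a)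
    (hb : Function.Injective b) (ha' : ∀ i, a i ∈ ({p}ᶜ : Set K))
    (hb' : ∀ i, b i ∈ ({p}ᶜ : Set K)) : ∃ g ∈ G ρ, ∀ i, g (a i) = b i := by
  induction n with
  | zero => exact ⟨1, (G ρ).one_mem, fun i => i.elim0⟩
  | succ n ih =>
    obtain ⟨g, hg, h⟩ := ih (fun i => a i.succ) (fun i => b i.succ)
      (ha.comp (Fin.succ_injective n)) (hb.comp (Fin.succ_injective n))
      (fun i => ha' _) (fun i => hb' _)
    obtain ⟨s, hs1, hs2⟩ := exists_swap (g (a 0)) (b 0)
      (insert p (Set.range fun i : Fin n => b i.succ)) ((Set.finite_range _).insert p)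
      (by
        rintro (h1 | ⟨i, h1⟩)
        · exact ha' 0 (g.injective (h1.trans (G_p ρ hg).symm))
        · exact Fin.succ_ne_zero i (ha (g.injective ((h i).trans h1))))
      (by
        rintro (h1 | ⟨i, h1⟩)
        · exact hb' 0 h1
        · exact Fin.succ_ne_zero i (hb h1))
    refine ⟨s * g, (G ρ).mul_mem ⟨1, by rw [map_one, map_one]; exact hs2 p (Or.inl rfl)⟩ hg, fun i => ?_⟩
    refine Fin.cases hs1 (fun i => ?_) i
    show s (g (a i.succ)) = b i.succ
    rw [h i]
    exact (hs2 _ (Or.inr ⟨i, rfl⟩)).self_of_nhds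

lemma exists_free_action (L : Type) [Group L] [Countable L] [Infinite L] :
    ∃ ρ : L →* Equiv.Perm ℕ, ∀ l n, ρ l n = n → l = 1 := by
  obtain ⟨d⟩ := nonempty_denumerable L
  let e : L ≃ ℕ := Denumerable.eqv L
  refine ⟨(e.permCongrHom : Equiv.Perm L ≃* Equiv.Perm ℕ).toMonoidHom.comp
    (MulAction.toPermHom L L), fun l n h => ?_⟩
  have : e (l * e.symm n) = n := h
  rw [← Equiv.eq_symm_apply] at this
  simpa using this

end Pool.Agent.H64.FullGroup
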