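import Mathlib

/-! Iterated wreath product of a group `S` acting on itself, as portraits. -/

namespace H64.Hji

variable {S : Type} [Group S]

def act : (List S → S) → List S → List S
  | _, [] => []
  | p, x :: u => (p [] * x) :: act (fun v => p (x :: v)) u

@[simp] lemma act_nil (p : List S → S) : act p [] = [] := rfl
@[simp] lemma act_cons (p : List S → S) (x : S) (u : List S) :
    act p (x :: u) = (p [] * x) :: act (fun v => p (x :: v)) u := rfl

@[simp] lemma act_length (p : List S → S) (u : List S) : (act p u).length = u.length := by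
  induction u generalizing p with
  | nil => rfl
  | cons x u ih => simp [ih]

lemma act_append (p : List S → S) (v u : List S) :
    act p (v ++ u) = act p v ++ act (fun w => p (v ++ w)) u := by
  induction v generalizing p with
  | nil => simp
  | cons x v ih => simp [ih]

lemma act_comp (p q : List S → S) (u : List S) :
    act (fun v => p (act q v) * q v) u = act p (act q u) := by
  induction u generalizing p q with
  | nil => rfl
  | cons x u ih =>
    simp only [act_cons, act_nil, mul_assoc]
    rw [← ih]

lemma act_congr (p q : List S → S) (u : List S)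
    (h : ∀ w, w <+: u → w.length < u.length → p w = q w) : act p u = act q u := by
  induction u generalizing p q with
  | nil => rfl
  | cons x u ih =>
    simp only [act_cons]
    rw [h [] List.nil_prefix (by simp), ih (fun v => p (x :: v)) (fun v => q (x :: v))]
    intro w hw hl
    exact h _ (by simpa using hw) (by simpa using hl)

lemma act_const_one (u : List S) : act (fun _ => (1 : S)) u = u := by
  induction u with
  | nil => rfl
  | cons x u ih => simp [ih]

lemma act_inj (p : List S → S) : Function.Injective (act p) := by
  intro u v h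
  induction u generalizing p v with
  | nil => cases v with
    | nil => rfl
    | cons y v => simp at h
  | cons x u ih => cases v with
    | nil => simp at h
    | cons y v =>
      simp only [act_cons, List.cons.injEq, mul_right_inj] at h
      obtain ⟨rfl, h⟩ := h
      rw [ih _ h]

lemma act_surj (p : List S → S) : Function.Surjective (act p) := by
  intro u
  induction u generalizing p with
  | nil => exact ⟨[], rfl⟩
  | cons x u ih =>
    obtain ⟨v, hv⟩ := ih (fun v => p (((p [])⁻¹ * x) :: v))
    exact ⟨((p [])⁻¹ * x) :: v, by simp [hv]⟩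

@[ext] structure W (S : Type) where
  lab : List S → S

noncomputable instance : Mul (W S) := ⟨fun p q => ⟨fun v => p.lab (act q.lab v) * q.lab v⟩⟩
instance : One (W S) := ⟨⟨fun _ => 1⟩⟩
noncomputable instance : Inv (W S) :=
  ⟨fun p => ⟨fun v => (p.lab (Function.surjInv (act_surj p.lab) v))⁻¹⟩⟩

lemma mul_lab (p q : W S) (v : List S) : (p * q).lab v = p.lab (act q.lab v) * q.lab v := rfl
@[simp] lemma one_lab (v : List S) : (1 : W S).lab v = 1 := rfl

lemma act_mul (p q : W S) (u : List S) : act (p * q).lab u = act p.lab (act q.lab u) :=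
  act_comp _ _ _
@[simp] lemma act_one (u : List S) : act (1 : W S).lab u = u := act_const_one u

lemma inv_lab_act (p : W S) (v : List S) : (p⁻¹).lab (act p.lab v) = (p.lab v)⁻¹ := by
  show (p.lab (Function.surjInv (act_surj p.lab) (act p.lab v)))⁻¹ = _
  rw [act_inj p.lab (Function.surjInv_eq (act_surj p.lab) (act p.lab v))]

noncomputable instance : Group (W S) := Group.ofLeftAxioms
  (by intro a b c; ext v; simp [mul_lab, act_mul, mul_assoc])
  (by intro a; ext v; simp [mul_lab])
  (by intro a; ext v; simp [mul_lab, inv_lab_act])

lemma act_inv_act (p : W S) (u : List S) : act (p⁻¹).lab (act p.lab u) = u := by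
  rw [← act_mul]; simp
lemma act_act_inv (p : W S) (u : List S) : act p.lab (act (p⁻¹).lab u) = u := by
  rw [← act_mul]; simp

lemma inv_lab (p : W S) (v : List S) : (p⁻¹).lab v = (p.lab (act (p⁻¹).lab v))⁻¹ := by
  rw [← inv_lab_act, act_act_inv]

/-- section -/
def sec (p : W S) (v : List S) : W S := ⟨fun w => p.lab (v ++ w)⟩

lemma act_app (p : W S) (v u : List S) :
    act p.lab (v ++ u) = act p.lab v ++ act (sec p v).lab u := act_append _ _ _

lemma sec_mul (p q : W S) (v : List S) : sec (p * q) v = sec p (act q.lab v) * sec q v := by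
  ext w
  simp only [sec, mul_lab]
  rw [act_append]

@[simp] lemma sec_one (v : List S) : sec (1 : W S) v = 1 := rfl

lemma sec_inv (p : W S) (v : List S) : sec p⁻¹ (act p.lab v) = (sec p v)⁻¹ := by
  rw [eq_inv_iff_mul_eq_one, ← sec_mul]; simp

/-- level stabiliser -/
def St (S : Type) [Group S] (n : ℕ) : Subgroup (W S) where
  carrier := {p | ∀ v : List S, v.length < n → p.lab v = 1}
  one_mem' := by intro v _; rfl
  mul_mem' := by
    intro a b ha hb v hv
    rw [mul_lab, ha _ (by simpa using hv), hb _ hv, one_mul]
  inv_mem' := by
    intro a ha v hv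
    rw [inv_lab, ha _ (by simpa using hv), inv_one]

lemma mem_St {n : ℕ} {p : W S} : p ∈ St S n ↔ ∀ v : List S, v.length < n → p.lab v = 1 := Iff.rfl

lemma St_act {n : ℕ} {p : W S} (hp : p ∈ St S n) (v : List S) (hv : v.length ≤ n) :
    act p.lab v = v := by
  rw [act_congr p.lab (fun _ => 1) v (fun w _ hw => hp w (by omega)), act_const_one]

lemma St_anti {n m : ℕ} (h : n ≤ m) : St S m ≤ St S n := fun _ hp v hv => hp v (by omega)

/-- truncation -/
def tr (n : ℕ) : W S →* W S where
  toFun p := ⟨fun v => if v.length < n then p.lab v else 1⟩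
  map_one' := by ext v; simp
  map_mul' p q := by
    ext v
    by_cases h : v.length < n
    · have : act (fun v : List S => if v.length < n then q.lab v else 1) v = act q.lab v :=
        act_congr _ _ _ (fun w _ hw => by simp [show w.length < n by omega])
      simp [mul_lab, h, this]
    · simp [mul_lab, h]

lemma tr_lab (n : ℕ) (p : W S) (v : List S) :
    (tr n p).lab v = if v.length < n then p.lab v else 1 := rfl

lemma tr_eq_one {n : ℕ} {p : W S} : tr n p = 1 ↔ p ∈ St S n := by
  constructor
  · intro h v hv
    have := congrArg (fun q : W S => q.lab v) h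
    simpa [tr_lab, hv] using this
  · intro h; ext v
    by_cases hv : v.length < n
    · simp [tr_lab, hv, h v hv]
    · simp [tr_lab, hv]

lemma ker_tr (n : ℕ) : (tr n : W S →* W S).ker = St S n := by
  ext p; exact tr_eq_one

instance (n : ℕ) : (St S n).Normal := ker_tr (S := S) n ▸ MonoidHom.normal_ker _

lemma tr_tr (n : ℕ) (p : W S) : tr n (tr n p) = tr n p := by
  ext v; by_cases hv : v.length < n <;> simp [tr_lab, hv]

lemma tr_eq_iff {n : ℕ} {p q : W S} :
    tr n p = tr n q ↔ ∀ v : List S, v.length < n → p.lab v = q.lab v := by
  constructor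
  · intro h v hv
    have := congrArg (fun q : W S => q.lab v) h
    simpa [tr_lab, hv] using this
  · intro h; ext v
    by_cases hv : v.length < n
    · simp [tr_lab, hv, h v hv]
    · simp [tr_lab, hv]

lemma act_of_tr {n : ℕ} {p q : W S} (h : tr n p = tr n q) (v : List S) (hv : v.length ≤ n) :
    act p.lab v = act q.lab v :=
  act_congr _ _ _ (fun w _ hw => tr_eq_iff.1 h w (by omega))

lemma eq_of_tr {p q : W S} (h : ∀ n, tr n p = tr n q) : p = q := by
  ext v
  exact tr_eq_iff.1 (h (v.length + 1)) v (by omega)

/-- moves every vertex of level `N` -/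
def FreeAt (N : ℕ) (p : W S) : Prop := ∀ v : List S, v.length = N → act p.lab v ≠ v

lemma FreeAt.mono {N M : ℕ} {p : W S} (h : FreeAt N p) (hNM : N ≤ M) : FreeAt M p := by
  intro v hv hfix
  rw [← List.take_append_drop N v, act_app] at hfix
  have hl : (List.take N v).length = N := by simp; omega
  exact h _ hl (List.append_inj_left hfix (by simp))

lemma FreeAt.conj {N : ℕ} {p : W S} (h : FreeAt N p) (c : W S) : FreeAt N (c * p * c⁻¹) := by
  intro v hv hfix
  rw [act_mul, act_mul] at hfix
  apply h (act (c⁻¹).lab v) (by simpa using hv)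
  have := congrArg (act (c⁻¹).lab) hfix
  rwa [act_inv_act] at this

/-- product action on two consecutive blocks of levels -/
def join (M : ℕ) : W S × W S →* W S where
  toFun p := ⟨fun v => if v.length < M then p.1.lab v else p.2.lab (v.drop M)⟩
  map_one' := by ext v; simp
  map_mul' p q := by
    ext v
    by_cases h : v.length < M
    · have : act (fun v : List S => if v.length < M then q.1.lab v else q.2.lab (v.drop M)) v
          = act q.1.lab v :=
        act_congr _ _ _ (fun w _ hw => by simp [show w.length < M by omega])
      simp [mul_lab, h, this]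
    · have hl : (List.take M v).length = M := by simp; omega
      have : (act (fun v : List S => if v.length < M then q.1.lab v else q.2.lab (v.drop M)) v).drop M
          = act q.2.lab (v.drop M) := by
        conv_lhs => rw [← List.take_append_drop M v, act_append]
        rw [List.drop_left' (by simp; omega)]
        congr 1
        funext w
        rw [if_neg (by rw [List.length_append, hl]; omega), List.drop_left' hl]
      simp [mul_lab, h, this]

lemma join_lab (M : ℕ) (p q : W S) (v : List S) :
    (join M (p, q)).lab v = if v.length < M then p.lab v else q.lab (v.drop M) := rfl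

lemma tr_join (M : ℕ) (p q : W S) : tr M (join M (p, q)) = tr M p :=
  tr_eq_iff.2 (fun v hv => by simp [join_lab, hv])

lemma sec_join (M : ℕ) (p q : W S) (v : List S) (hv : v.length = M) :
    sec (join M (p, q)) v = q := by
  ext w
  simp only [sec, join_lab]
  rw [if_neg (by rw [List.length_append, hv]; omega), List.drop_left' hv]

lemma free_join_left {M : ℕ} {p : W S} (q : W S) (h : FreeAt M p) : FreeAt M (join M (p, q)) := by
  intro v hv
  rw [act_of_tr (tr_join M p q) v hv.le]
  exact h v hv

lemma free_join_right {M L : ℕ} (p : W S) {q : W S} (h : FreeAt L q) :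
    FreeAt (M + L) (join M (p, q)) := by
  intro v hv hfix
  have hl : (List.take M v).length = M := by simp; omega
  rw [← List.take_append_drop M v, act_app, sec_join _ _ _ _ hl] at hfix
  exact h (v.drop M) (by simp; omega) (List.append_inj_right hfix (by simp))

/-- separating homomorphisms -/
def Sep (S : Type) [Group S] {Γ : Type} [Group Γ] (P : Γ → Prop) : Prop :=
  ∃ L, ∃ κ : Γ →* W S, ∀ g, P g → FreeAt L (κ g)

lemma sep_finset {Γ ι : Type} [Group Γ] (P : ι → Γ → Prop) (h : ∀ i, Sep S (P i)) (s : Finset ι) :
    Sep S (fun g => ∃ i ∈ s, P i g) := by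
  classical
  induction s using Finset.induction_on with
  | empty => exact ⟨0, 1, by simp⟩
  | insert a s _ ih =>
    obtain ⟨L, κ, hκ⟩ := ih
    obtain ⟨L', κ', hκ'⟩ := h a
    refine ⟨L + L', (join L).comp (κ.prod κ'), ?_⟩
    rintro g ⟨i, hi, hP⟩
    rcases Finset.mem_insert.1 hi with rfl | hi
    · exact free_join_right _ (hκ' g hP)
    · exact (free_join_left _ (hκ g ⟨i, hi, hP⟩)).mono (by omega)

def node (s : S) (f : S → W S) : W S :=
  ⟨fun v => match v with
    | [] => s
    | x :: u => (f x).lab u⟩

lemma node_mul (s s' : S) (f f' : S → W S) :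
    node s f * node s' f' = node (s * s') (fun x => f (s' * x) * f' x) := by
  ext v
  cases v with
  | nil => rfl
  | cons x u => rfl

lemma root_mul (p q : W S) : (p * q).lab [] = p.lab [] * q.lab [] := rfl

lemma sec1_mul (p q : W S) (x : S) :
    sec (p * q) [x] = sec p [q.lab [] * x] * sec q [x] := by
  rw [sec_mul]; rfl

lemma sep_St [Finite S] (n : ℕ) : Sep S (fun g : W S => g ∉ St S n) := by
  induction n with
  | zero => exact ⟨0, 1, fun g hg => absurd (fun v hv => by omega) hg⟩
  | succ n ih =>
    have := Fintype.ofFinite S
    obtain ⟨L, κ, hκ⟩ := ih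
    obtain ⟨L', J, hJ⟩ := sep_finset (S := S) (Γ := S → W S) (fun y f => f y ∉ St S n)
      (fun y => ⟨L, κ.comp (Pi.evalMonoidHom (fun _ : S => W S) y), fun f hf => hκ _ hf⟩)
      Finset.univ
    let K : W S → W S := fun g => node (g.lab []) (fun x => J (fun y => sec g [x * y]))
    have hK : ∀ g h, K (g * h) = K g * K h := by
      intro g h
      simp only [K, node_mul, root_mul]
      congr 1
      funext x
      rw [← map_mul]
      congr 1
      funext y
      simp [sec1_mul, mul_assoc]
    refine ⟨L' + 1, MonoidHom.mk' K hK, ?_⟩
    intro g hg v hv hfix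
    cases v with
    | nil => simp at hv
    | cons x u =>
      have h2 : (g.lab [] * x) :: act (J (fun y => sec g [x * y])).lab u = x :: u := hfix
      simp only [List.cons.injEq, mul_eq_right] at h2
      refine hJ _ ?_ u (by simpa using hv) h2.2
      by_contra hcon
      push Not at hcon
      apply hg
      intro w hw
      cases w with
      | nil => exact h2.1
      | cons z w =>
        have := hcon (x⁻¹ * z) (Finset.mem_univ _) w (by simpa using hw)
        simpa [sec] using this

/-- conjugacy of free lifts -/
lemma conj_lift {A : Type} [Group A] (α β : A →* W S) (N : ℕ)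
    (hag : ∀ a, tr N (α a) = tr N (β a)) (hfree : ∀ a, a ≠ 1 → FreeAt N (α a)) :
    ∃ c ∈ St S N, ∀ a, c * α a * c⁻¹ = β a := by
  classical
  let r : List S → List S := fun v => Classical.epsilon (fun u => ∃ a, act (α a).lab u = v)
  have hr : ∀ v, ∃ a, act (α a).lab (r v) = v := fun v =>
    Classical.epsilon_spec (p := fun u => ∃ a, act (α a).lab u = v) ⟨v, 1, by simp⟩
  choose t ht using hr
  have hr2 : ∀ a v, r (act (α a).lab v) = r v := by
    intro a v
    simp only [r]
    congr 1
    funext u
    apply propext
    constructor
    · rintro ⟨b, hb⟩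
      exact ⟨a⁻¹ * b, by rw [map_mul, act_mul, hb, map_inv, act_inv_act]⟩
    · rintro ⟨b, hb⟩
      exact ⟨a * b, by rw [map_mul, act_mul, hb]⟩
  have hlen : ∀ v, (r v).length = v.length := fun v => by
    conv_rhs => rw [← ht v, act_length]
  have ht2 : ∀ a v, v.length = N → t (act (α a).lab v) = a * t v := by
    intro a v hv
    by_contra hne
    apply hfree ((a * t v)⁻¹ * t (act (α a).lab v)) (by rwa [Ne, inv_mul_eq_one, eq_comm]) (r v)
      (by rw [hlen, hv])
    have h1 := ht (act (α a).lab v)
    rw [hr2] at h1
    rw [map_mul, act_mul, h1, map_inv]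
    have h2 : act (α a).lab v = act (α (a * t v)).lab (r v) := by rw [map_mul, act_mul, ht v]
    rw [h2, act_inv_act]
  let γ : List S → W S := fun v => sec (β (t v)) (r v) * (sec (α (t v)) (r v))⁻¹
  let c : W S := ⟨fun u => if u.length < N then 1 else (γ (u.take N)).lab (u.drop N)⟩
  have hc : c ∈ St S N := fun v hv => by simp [c, hv]
  have hsec : ∀ v, v.length = N → sec c v = γ v := by
    intro v hv
    ext w
    simp only [sec, c]
    rw [if_neg (by rw [List.length_append, hv]; omega), List.drop_left' hv, List.take_left' hv]
  refine ⟨c, hc, fun a => ?_⟩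
  rw [mul_inv_eq_iff_eq_mul]
  ext u
  by_cases hu : u.length < N
  · rw [mul_lab, mul_lab, hc _ (by simpa using hu), hc _ hu, St_act hc u hu.le, one_mul, mul_one]
    exact tr_eq_iff.1 (hag a) u hu
  · have hl : (List.take N u).length = N := by simp; omega
    rw [← List.take_append_drop N u]
    generalize List.take N u = v at hl
    generalize List.drop N u = w
    have : sec (c * α a) v = sec (β a * c) v := by
      rw [sec_mul, sec_mul, St_act hc v hl.le, hsec v hl, hsec _ (by simpa using hl)]
      simp only [γ]
      rw [ht2 a v hl, hr2, map_mul, map_mul, sec_mul, sec_mul,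
        ← act_of_tr (hag (t v)) (r v) (by rw [hlen, hl]), ht v]
      group
    exact congrArg (fun q : W S => q.lab w) this

end H64.Hji
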