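import Pool.Agent.H64.Hji1

namespace H64.Hji

open scoped commutatorElement

variable {S : Type} [Group S]

lemma eq_of_act {p q : W S} (h : ∀ u, act p.lab u = act q.lab u) : p = q := by
  ext v
  have := h (v ++ [1])
  rw [act_app, act_app, h v] at this
  simpa [sec] using this

noncomputable def toPerm : W S →* Equiv.Perm (List S) :=
  MonoidHom.mk' (fun p => Equiv.ofBijective (act p.lab) ⟨act_inj _, act_surj _⟩)
    (by intro p q; ext1 u; simp [act_mul])

lemma commute_of_disjoint {p q : W S} (h : ∀ u, act p.lab u = u ∨ act q.lab u = u) :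
    Commute p q := by
  have h1 : Equiv.Perm.Disjoint (toPerm p) (toPerm q) := h
  have h2 := h1.commute
  apply eq_of_act
  intro u
  have := congrArg (fun f : Equiv.Perm (List S) => f u) h2.eq
  rw [act_mul, act_mul]
  exact this

open Classical in
noncomputable def dl0 (v : List S) (s : S) : W S := ⟨fun u => if u = v then s else 1⟩

lemma dl0_fix (v : List S) (s : S) (u : List S) (h : v <+: u → u.length ≤ v.length) :
    act (dl0 v s).lab u = u := by
  rw [act_congr _ (fun _ => 1) u, act_const_one]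
  intro w hw hl
  simp only [dl0]
  rw [if_neg]
  rintro rfl
  have := h hw
  omega

noncomputable def dl (v : List S) : S →* W S := MonoidHom.mk' (dl0 v) (by
  intro s t
  ext u
  rw [mul_lab]
  by_cases h : u = v
  · subst h
    rw [dl0_fix _ _ _ (fun _ => le_rfl)]
    simp [dl0]
  · have : act (dl0 v t).lab u ≠ v := by
      intro h2
      apply h
      apply act_inj (dl0 v t).lab
      rw [h2, dl0_fix _ _ _ (fun _ => le_rfl)]
    simp only [dl0] at this ⊢
    simp [h, this])

open Classical in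
lemma dl_lab (v : List S) (s : S) (u : List S) : (dl v s).lab u = if u = v then s else 1 := rfl

lemma dl_fix (v : List S) (s : S) (u : List S) (h : v <+: u → u.length ≤ v.length) :
    act (dl v s).lab u = u := dl0_fix v s u h

lemma dl_mem_St (v : List S) (s : S) {n : ℕ} (h : n ≤ v.length) : dl v s ∈ St S n := by
  intro u hu
  rw [dl_lab, if_neg]
  rintro rfl
  omega

lemma tr_dl (v : List S) (s : S) {n : ℕ} (h : v.length < n) : tr n (dl v s) = dl v s := by
  ext u
  rw [tr_lab]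
  split_ifs with hu
  · rfl
  · rw [dl_lab, if_neg]
    rintro rfl
    omega

lemma dl_inj (v : List S) : Function.Injective (dl v) := by
  intro s t h
  have := congrArg (fun q : W S => q.lab v) h
  simpa [dl_lab] using this

lemma prefix_act (g : W S) {v u : List S} (h : v <+: u) : act g.lab v <+: act g.lab u := by
  obtain ⟨w, rfl⟩ := h
  rw [act_app]
  exact List.prefix_append _ _

lemma commute_conj_dl (g : W S) (v v' : List S) (s t : S) (hl : v'.length = v.length)
    (h : act g.lab v ≠ v') : Commute (g * dl v s * g⁻¹) (dl v' t) := by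
  apply commute_of_disjoint
  intro u
  by_cases hu : v' <+: u
  · left
    rw [act_mul, act_mul, dl_fix, act_act_inv]
    intro h2
    exfalso
    have h3 := prefix_act g h2
    rw [act_act_inv] at h3
    exact h (List.prefix_of_prefix_length_le h3 hu (by simp [hl]) |>.eq_of_length (by simp [hl]))
  · right
    exact dl_fix _ _ _ (fun h2 => absurd h2 hu)

lemma dl_mem (hS : commutator S = ⊤) (N : Subgroup (W S)) (v : List S)
    (hn : ∀ s, ∀ y ∈ N, dl v s * y * (dl v s)⁻¹ ∈ N) (g : W S) (hg : g ∈ N)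
    (hv : act g.lab v ≠ v) (s : S) : dl v s ∈ N := by
  have key : ∀ s t : S, dl v ⁅t, s⁆ ∈ N := by
    intro s t
    have hz : g * dl v s⁻¹ * g⁻¹ * dl v s ∈ N := by
      have := N.mul_mem hg (hn s⁻¹ _ (N.inv_mem hg))
      simpa [mul_assoc] using this
    have c1 := commute_conj_dl g v v s⁻¹ t rfl hv
    have c2 := commute_conj_dl g v v s⁻¹ s rfl hv
    generalize g * dl v s⁻¹ * g⁻¹ = y at hz c1 c2
    have h2 := N.mul_mem (hn t _ hz) (N.inv_mem hz)
    have h3 : dl v t * (y * dl v s) * (dl v t)⁻¹ * (y * dl v s)⁻¹ = dl v ⁅t, s⁆ := by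
      have c3 : Commute y (dl v ⁅t, s⁆) := by
        rw [commutatorElement_def, map_mul, map_mul, map_mul, map_inv, map_inv]
        exact ((c1.mul_right c2).mul_right c1.inv_right).mul_right c2.inv_right
      calc dl v t * (y * dl v s) * (dl v t)⁻¹ * (y * dl v s)⁻¹
          = (dl v t * y) * dl v s * (dl v t)⁻¹ * (dl v s)⁻¹ * y⁻¹ := by group
        _ = y * dl v ⁅t, s⁆ * y⁻¹ := by
          rw [← c1.eq, commutatorElement_def, map_mul, map_mul, map_mul, map_inv, map_inv]; group
        _ = dl v ⁅t, s⁆ := by rw [c3.eq]; group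
    rwa [h3] at h2
  have : commutator S ≤ N.comap (dl v) := by
    rw [commutator_def, Subgroup.commutator_le]
    intro a _ b _
    exact key b a
  rw [hS] at this
  exact this (Subgroup.mem_top s)

lemma gen_dl (N : Subgroup (W S)) (F : Finset (List S)) :
    (∀ v ∈ F, ∀ s, dl v s ∈ N) → ∀ p : W S, (∀ v, p.lab v ≠ 1 → v ∈ F) → p ∈ N := by
  classical
  induction F using Finset.induction_on_max_value (List.length : List S → ℕ) with
  | empty =>
    intro _ p hp
    have : p = 1 := by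
      ext v
      by_contra h
      simpa using hp v h
    rw [this]; exact N.one_mem
  | insert a F ha hmax ih =>
    intro hF p hp
    have h1 : p * dl a (p.lab a)⁻¹ ∈ N := by
      apply ih (fun v hv => hF v (Finset.mem_insert_of_mem hv))
      intro u hu
      rw [mul_lab] at hu
      by_cases hl : u.length ≤ a.length
      · rw [dl_fix _ _ _ (fun _ => hl), dl_lab] at hu
        by_cases hua : u = a
        · subst hua; simp at hu
        · rw [if_neg hua, mul_one] at hu
          exact (Finset.mem_insert.1 (hp u hu)).resolve_left hua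
      · exfalso
        apply hu
        rw [dl_lab, if_neg (by rintro rfl; omega), mul_one]
        by_contra h2
        rcases Finset.mem_insert.1 (hp _ h2) with h3 | h3
        · have := congrArg List.length h3
          simp at this; omega
        · have := hmax _ h3
          simp at this; omega
    have h2 := N.mul_mem h1 (hF a (Finset.mem_insert_self _ _) (p.lab a))
    rwa [mul_assoc, ← map_mul, inv_mul_cancel, map_one, mul_one] at h2

lemma core [Finite S] (hS : commutator S = ⊤) (N : Subgroup (W S)) (m M : ℕ)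
    (hn : ∀ (v : List S) (s : S), m ≤ v.length → v.length < M → ∀ y ∈ N, dl v s * y * (dl v s)⁻¹ ∈ N)
    (g : W S) (hg : g ∈ N) (hfree : ∀ v : List S, m ≤ v.length → v.length < M → act g.lab v ≠ v)
    (p : W S) (hp : p ∈ St S m) : tr M p ∈ N := by
  classical
  apply gen_dl N ((List.finite_length_lt S M).toFinset.filter (fun v => m ≤ v.length))
  · intro v hv s
    simp only [Finset.mem_filter, Set.Finite.mem_toFinset, Set.mem_setOf_eq] at hv
    exact dl_mem hS N v (fun s => hn v s hv.2 hv.1) g hg (hfree v hv.2 hv.1) s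
  · intro v hv
    simp only [Finset.mem_filter, Set.Finite.mem_toFinset, Set.mem_setOf_eq]
    rw [tr_lab] at hv
    split_ifs at hv with h
    · exact ⟨h, by by_contra h2; exact hv (hp v (by omega))⟩
    · exact absurd rfl hv

def Free (N : ℕ) (A : Subgroup (W S)) : Prop := ∀ g ∈ A, g ≠ 1 → FreeAt N g

lemma FreeAt.of_tr {N : ℕ} {p q : W S} (h : FreeAt N p) (e : tr N q = tr N p) : FreeAt N q := by
  intro v hv
  rw [act_of_tr e v hv.le]
  exact h v hv

lemma ext_free [Finite S] (A : Subgroup (W S)) (N : ℕ) (hA : Free N A) :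
    ∃ (θ : W S →* W S) (N' : ℕ), N < N' ∧ (∀ p, tr N (θ p) = tr N p) ∧ (∀ p ∈ St S N, θ p = 1) ∧
      (∀ a ∈ A, θ a = a) ∧ Free N' θ.range := by
  obtain ⟨L, κ, hκ⟩ := sep_St (S := S) N
  let E : W S →* W S := (join N).comp ((tr N).prod (κ.comp (tr N)))
  have hE : ∀ p, tr N (E p) = tr N p := fun p => by
    show tr N (join N (tr N p, κ (tr N p))) = _
    rw [tr_join, tr_tr]
  obtain ⟨c, hc, hcc⟩ := conj_lift (E.comp A.subtype) A.subtype N (fun a => hE a)
    (fun a ha => (hA a a.2 (by simpa using ha)).of_tr (hE a))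
  refine ⟨(MulAut.conj c).toMonoidHom.comp E, N + L + 1, by omega, ?_, ?_, ?_, ?_⟩
  · intro p
    show tr N (c * E p * c⁻¹) = _
    rw [map_mul, map_mul, map_inv, tr_eq_one.2 hc, hE]; simp
  · intro p hp
    show c * join N (tr N p, κ (tr N p)) * c⁻¹ = 1
    rw [tr_eq_one.2 hp, map_one]
    have : join N ((1 : W S), (1 : W S)) = 1 := map_one (join N)
    rw [this]; simp
  · intro a ha
    exact hcc ⟨a, ha⟩
  · rintro _ ⟨p, rfl⟩ hne
    show FreeAt _ (c * join N (tr N p, κ (tr N p)) * c⁻¹)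
    apply FreeAt.conj
    apply (free_join_right _ (hκ _ _)).mono (by omega)
    intro h
    apply hne
    rw [← tr_eq_one, tr_tr] at h
    show c * join N (tr N p, κ (tr N p)) * c⁻¹ = 1
    rw [h, map_one]
    have : join N ((1 : W S), (1 : W S)) = 1 := map_one (join N)
    rw [this]; simp

lemma sec_mul_St {p q : W S} (hq : q ∈ St S 1) : sec (p * q) [1] = sec p [1] * sec q [1] := by
  rw [sec_mul, St_act hq _ (by simp)]

lemma step [Finite S] (B : Subgroup (W S)) (N : ℕ) (w : W S) (hB : Free N B) :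
    ∃ (B' : Subgroup (W S)) (N' : ℕ) (w' : W S), Free N' B' ∧ B ≤ B' ∧ N < N' ∧
      (∀ p, ∃ b ∈ B', tr N b = tr N p) ∧ (∀ b ∈ B', b ∈ St S N → b = 1) ∧ tr N w' = tr N w ∧
      (∀ h ∈ B, h ∈ St S 1 → w' * sec h [1] * w'⁻¹ ∈ B') ∧
      (∀ h ∈ B, h ∈ St S 1 → w * sec h [1] * w⁻¹ ∈ B →
        w' * sec h [1] * w'⁻¹ = w * sec h [1] * w⁻¹) := by
  obtain ⟨θ, N', h1, h2, h3, h4, h5⟩ := ext_free B N hB
  let α : ↥(B ⊓ St S 1) →* W S := MonoidHom.mk' (fun h => w * sec h.1 [1] * w⁻¹) (by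
    intro a b
    rw [Subgroup.coe_mul, sec_mul_St b.2.2]; group)
  obtain ⟨c, hc, hcc⟩ := conj_lift α (θ.comp α) N (fun a => (h2 _).symm) (by
    intro a ha
    apply FreeAt.conj
    intro u hu hfix
    have hf := (hB a.1 a.2.1 (by simpa using ha)).mono (Nat.le_succ N)
    apply hf ([1] ++ u) (by simp [hu])
    rw [act_app, hfix, St_act a.2.2 _ (by simp)])
  have hkey : ∀ h ∈ B, h ∈ St S 1 →
      (c * w) * sec h [1] * (c * w)⁻¹ = θ (w * sec h [1] * w⁻¹) := by
    intro h hb hs
    have := hcc ⟨h, hb, hs⟩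
    show _ = (θ.comp α) ⟨h, hb, hs⟩
    rw [← this]
    show _ = c * (w * sec h [1] * w⁻¹) * c⁻¹
    group
  refine ⟨θ.range, N', c * w, h5, fun a ha => ⟨a, h4 a ha⟩, h1, fun p => ⟨θ p, ⟨p, rfl⟩, h2 p⟩,
    ?_, ?_, ?_, ?_⟩
  · rintro _ ⟨p, rfl⟩ hp
    apply h3
    rw [← tr_eq_one, ← h2, tr_eq_one]; exact hp
  · rw [map_mul, tr_eq_one.2 hc, one_mul]
  · intro h hb hs
    rw [hkey h hb hs]; exact ⟨_, rfl⟩
  · intro h hb hs hw
    rw [hkey h hb hs, h4 _ hw]

theorem exists_G [Finite S] : ∃ (G : Subgroup (W S)) (w : W S),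
    (∀ g ∈ G, g ≠ 1 → ∃ N, FreeAt N g) ∧
    (∀ x ∈ G, ∀ y ∈ G, ∀ M₀, ∃ M ≥ M₀, ∃ B ≤ G, x ∈ B ∧ y ∈ B ∧
      (∀ p, ∃ b ∈ B, tr M b = tr M p) ∧ (∀ b ∈ B, b ∈ St S M → b = 1)) ∧
    (∀ h ∈ G, h ∈ St S 1 → w * sec h [1] * w⁻¹ ∈ G) := by
  choose fB fN fw H1 H2 H3 H4 H5 H6 H7 H8 using step (S := S)
  let T := {s : Subgroup (W S) × ℕ × W S // Free s.2.1 s.1}
  let f : T → T := fun s => ⟨(fB _ _ s.1.2.2 s.2, fN _ _ s.1.2.2 s.2, fw _ _ s.1.2.2 s.2), H1 _ _ _ _⟩
  let s0 : T := ⟨(⊥, 0, 1), fun g hg hne => absurd hg hne⟩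
  let s : ℕ → T := fun i => f^[i] s0
  have hs : ∀ i, s (i + 1) = f (s i) := fun i => Function.iterate_succ_apply' f i s0
  let B : ℕ → Subgroup (W S) := fun i => (s i).1.1
  let N : ℕ → ℕ := fun i => (s i).1.2.1
  let w : ℕ → W S := fun i => (s i).1.2.2
  have hB : Monotone B := monotone_nat_of_le_succ (fun i => by
    simp only [B]; rw [hs]; exact H2 _ _ _ _)
  have hN : StrictMono N := strictMono_nat_of_lt_succ (fun i => by
    simp only [N]; rw [hs]; exact H3 _ _ _ _)
  have hNi : ∀ i, i ≤ N i := hN.id_le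
  have K1 : ∀ i, Free (N i) (B i) := fun i => (s i).2
  have K4 : ∀ i p, ∃ b ∈ B (i + 1), tr (N i) b = tr (N i) p := fun i => by
    simp only [B]; rw [hs]; exact H4 _ _ _ _
  have K5 : ∀ i, ∀ b ∈ B (i + 1), b ∈ St S (N i) → b = 1 := fun i => by
    simp only [B]; rw [hs]; exact H5 _ _ _ _
  have K6 : ∀ i, tr (N i) (w (i + 1)) = tr (N i) (w i) := fun i => by
    simp only [w]; rw [hs]; exact H6 _ _ _ _
  have K7 : ∀ i, ∀ h ∈ B i, h ∈ St S 1 → w (i + 1) * sec h [1] * (w (i + 1))⁻¹ ∈ B (i + 1) :=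
    fun i => by simp only [w, B]; rw [hs]; exact H7 _ _ _ _
  have K8 : ∀ i, ∀ h ∈ B i, h ∈ St S 1 → w i * sec h [1] * (w i)⁻¹ ∈ B i →
      w (i + 1) * sec h [1] * (w (i + 1))⁻¹ = w i * sec h [1] * (w i)⁻¹ :=
    fun i => by simp only [w, B]; rw [hs]; exact H8 _ _ _ _
  clear_value B N w
  have K9 : ∀ (v : List S) i, v.length < i → ∀ k, (w (i + k)).lab v = (w i).lab v := by
    intro v i hv k
    induction k with
    | zero => rfl
    | succ k ih =>
      rw [← ih]
      exact tr_eq_iff.1 (K6 (i + k)) v (by have := hNi (i + k); omega)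
  let ω : W S := ⟨fun v => (w (v.length + 1)).lab v⟩
  have K10 : ∀ n k, n ≤ k → tr n ω = tr n (w k) := by
    intro n k hk
    rw [tr_eq_iff]
    intro v hv
    obtain ⟨d, rfl⟩ : ∃ d, k = v.length + 1 + d := ⟨k - (v.length + 1), by omega⟩
    exact (K9 v _ (by omega) d).symm
  have hmem : ∀ g, g ∈ (⨆ i, B i) ↔ ∃ i, g ∈ B i := fun g =>
    Subgroup.mem_iSup_of_directed hB.directed_le
  refine ⟨⨆ i, B i, ω, ?_, ?_, ?_⟩
  · intro g hg hne
    obtain ⟨i, hi⟩ := (hmem g).1 hg
    exact ⟨N i, K1 i g hi hne⟩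
  · intro x hx y hy M₀
    obtain ⟨i, hi⟩ := (hmem x).1 hx
    obtain ⟨j, hj⟩ := (hmem y).1 hy
    refine ⟨N (i + j + M₀), by have := hNi (i + j + M₀); omega, B (i + j + M₀ + 1), le_iSup B _,
      hB (by omega) hi, hB (by omega) hj, K4 _, K5 _⟩
  · intro h hh hs1
    obtain ⟨i, hi⟩ := (hmem h).1 hh
    have e : ∀ k, w (i + 1 + k) * sec h [1] * (w (i + 1 + k))⁻¹
        = w (i + 1) * sec h [1] * (w (i + 1))⁻¹ := by
      intro k
      induction k with
      | zero => rfl
      | succ k ih =>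
        rw [← ih]
        apply K8 (i + 1 + k) h (hB (by omega) hi) hs1
        rw [ih]
        exact hB (by omega) (K7 i h hi hs1)
    have : ω * sec h [1] * ω⁻¹ = w (i + 1) * sec h [1] * (w (i + 1))⁻¹ := by
      apply eq_of_tr
      intro n
      rw [← e n]
      simp only [map_mul, map_inv]
      rw [K10 n (i + 1 + n) (by omega)]
    rw [this]
    exact (hmem _).2 ⟨i + 1, K7 i h hi hs1⟩

end H64.Hji
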