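import Pool.Agent.H64.Hji2

namespace H64.Hji

variable {S : Type} [Group S]

/-- the properties of the group produced by `exists_G` -/
structure Good (G : Subgroup (W S)) (w : W S) : Prop where
  free : ∀ g ∈ G, g ≠ 1 → ∃ N, FreeAt N g
  loc : ∀ x ∈ G, ∀ y ∈ G, ∀ M₀, ∃ M ≥ M₀, ∃ B ≤ G, x ∈ B ∧ y ∈ B ∧
      (∀ p, ∃ b ∈ B, tr M b = tr M p) ∧ (∀ b ∈ B, b ∈ St S M → b = 1)
  sec : ∀ h ∈ G, h ∈ St S 1 → w * sec h [1] * w⁻¹ ∈ G

variable {G : Subgroup (W S)} {w : W S}

lemma Good.star [Finite S] (hS : commutator S = ⊤) (hG : Good G w) (N : Subgroup (W S))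
    (hNG : N ≤ G) (n : ℕ) (hn : ∀ c ∈ G, c ∈ St S n → ∀ y ∈ N, c * y * c⁻¹ ∈ N)
    (g : W S) (hg : g ∈ N) (hne : g ≠ 1) : ∃ m, ∀ h ∈ G, h ∈ St S m → h ∈ N := by
  obtain ⟨N₀, hN₀⟩ := hG.free g (hNG hg) hne
  refine ⟨n + N₀, fun h hh hm => ?_⟩
  obtain ⟨M, hM, B, hBG, hgB, hhB, hsurj, hinj⟩ := hG.loc g (hNG hg) h hh (n + N₀)
  have := core hS ((N ⊓ B).map (tr M)) (n + N₀) M (by
      rintro v s h1 h2 _ ⟨y, hy, rfl⟩
      obtain ⟨b, hb, hbe⟩ := hsurj (dl v s)
      rw [tr_dl v s h2] at hbe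
      have hbn : b ∈ St S n := by
        intro u hu
        have := congrArg (fun q : W S => q.lab u) hbe
        simp only [tr_lab] at this
        rw [if_pos (by omega)] at this
        rw [this]
        exact dl_mem_St v s (n := n) (by omega) u hu
      refine ⟨b * y * b⁻¹, ⟨hn b (hBG hb) hbn y hy.1,
        B.mul_mem (B.mul_mem hb hy.2) (B.inv_mem hb)⟩, ?_⟩
      rw [map_mul, map_mul, map_inv, hbe])
    (tr M g) ⟨g, ⟨hg, hgB⟩, rfl⟩ (by
      intro v h1 h2
      rw [act_of_tr (tr_tr M g) v h2.le]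
      exact (hN₀.mono (by omega : N₀ ≤ v.length)) v rfl) h hm
  obtain ⟨y, hy, hye⟩ := this
  have : y⁻¹ * h = 1 := hinj _ (B.mul_mem (B.inv_mem hy.2) hhB) (by
    rw [← tr_eq_one, map_mul, map_inv, hye, inv_mul_cancel])
  rw [inv_mul_eq_one] at this
  rw [← this]; exact hy.1

lemma Good.pattern [Finite S] (hG : Good G w) (s t : S) (hst : s * t ≠ t * s) (k : ℕ) :
    ∃ a b : Fin k → G, (∀ i j, i ≠ j → a i * b j = b j * a i) ∧ ∀ i, a i * b i ≠ b i * a i := by
  classical
  obtain ⟨M, hM, B, hBG, -, -, hsurj, hinj⟩ := hG.loc 1 G.one_mem 1 G.one_mem (k + 1)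
  have hs1 : s ≠ 1 := by rintro rfl; simp at hst
  let v : Fin k → List S := fun i => List.ofFn (fun j : Fin k => if j = i then s else 1)
  have hv : ∀ i j, v i = v j → i = j := by
    intro i j h
    have := congrFun (List.ofFn_injective h) i
    by_contra hne
    simp [hne, hs1] at this
  have hl : ∀ i, (v i).length = k := fun i => by simp [v]
  choose f hf hfe using hsurj
  have hinj2 : ∀ x ∈ B, ∀ y ∈ B, tr M x = tr M y → x = y := by
    intro x hx y hy h
    rw [← inv_mul_eq_one]
    exact hinj _ (B.mul_mem (B.inv_mem hx) hy) (by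
      rw [← tr_eq_one, map_mul, map_inv, h, inv_mul_cancel])
  refine ⟨fun i => ⟨f (dl (v i) s), hBG (hf _)⟩, fun i => ⟨f (dl (v i) t), hBG (hf _)⟩, ?_, ?_⟩
  · intro i j hij
    apply Subtype.ext
    apply hinj2 _ (B.mul_mem (hf _) (hf _)) _ (B.mul_mem (hf _) (hf _))
    simp only [map_mul, hfe]
    rw [← map_mul, ← map_mul]
    congr 1
    have := commute_conj_dl 1 (v i) (v j) s t (by rw [hl, hl]) (by simpa using fun h => hij (hv _ _ h))
    simpa using this.eq
  · intro i h
    have h2 := congrArg (fun x : G => tr M x.1) h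
    simp only [Subgroup.coe_mul, map_mul, hfe] at h2
    rw [tr_dl _ _ (by rw [hl]; omega), tr_dl _ _ (by rw [hl]; omega), ← map_mul, ← map_mul] at h2
    exact hst (dl_inj _ h2)

lemma Good.infinite [Finite S] (hG : Good G w) (s t : S) (hst : s * t ≠ t * s) : Infinite G := by
  by_contra hfin
  rw [not_infinite_iff_finite] at hfin
  obtain ⟨a, b, h1, h2⟩ := hG.pattern s t hst (Nat.card G + 1)
  have : Function.Injective b := by
    intro i j h
    by_contra hne
    apply h2 i
    rw [h]; exact h1 i j hne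
  have := Nat.card_le_card_of_injective b this
  simp at this

universe u

lemma Good.nonlinear [Finite S] (hG : Good G w) (s t : S) (hst : s * t ≠ t * s)
    (K : Type u) [Field K] (n : ℕ) (f : G →* GL (Fin n) K) : ¬ Function.Injective f := by
  intro hf
  obtain ⟨a, b, h1, h2⟩ := hG.pattern s t hst (n * n + 1)
  let A : Fin (n * n + 1) → Matrix (Fin n) (Fin n) K := fun i => (f (a i)).1
  let B : Fin (n * n + 1) → Matrix (Fin n) (Fin n) K := fun i => (f (b i)).1
  have c1 : ∀ i j, i ≠ j → A i * B j - B j * A i = 0 := by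
    intro i j hij
    rw [sub_eq_zero]
    have := congrArg (fun x => (f x).1) (h1 i j hij)
    simpa using this
  have c2 : ∀ i, A i * B i - B i * A i ≠ 0 := by
    intro i h
    rw [sub_eq_zero] at h
    apply h2 i
    apply hf
    rw [map_mul, map_mul]
    exact Units.ext h
  have li : LinearIndependent K B := by
    rw [Fintype.linearIndependent_iff]
    intro c hc i
    have h3 : ∑ j, c j • (A i * B j - B j * A i) = 0 := by
      have : ∑ j, c j • (A i * B j - B j * A i)
          = A i * (∑ j, c j • B j) - (∑ j, c j • B j) * A i := by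
        simp [Finset.mul_sum, Finset.sum_mul, smul_sub, Finset.sum_sub_distrib]
      rw [this, hc]; simp
    rw [Finset.sum_eq_single i (fun j _ hj => by rw [c1 i j (Ne.symm hj), smul_zero])
      (by simp)] at h3
    exact (smul_eq_zero.1 h3).resolve_right (c2 i)
  have := li.fintype_card_le_finrank
  simp [Module.finrank_matrix] at this

lemma fin_index [Finite S] (G : Subgroup (W S)) (m : ℕ) :
    ((St S m).comap G.subtype).FiniteIndex := by
  rw [← ker_tr, MonoidHom.comap_ker]
  have : Finite ((tr m).comp G.subtype).range := by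
    have := (List.finite_length_lt S m).to_subtype
    refine Finite.of_injective (β := {l : List S | l.length < m} → S)
      (fun p v => p.1.lab v.1) ?_
    rintro ⟨_, p, rfl⟩ ⟨_, q, rfl⟩ h
    apply Subtype.ext
    show tr m p.1 = tr m q.1
    rw [tr_eq_iff]
    intro v hv
    have := congrFun h ⟨v, hv⟩
    simpa [tr_lab, hv] using this
  infer_instance

lemma hji_abs {Γ : Type} [Group Γ] [Infinite Γ] (U : ℕ → Subgroup Γ) (hU : ∀ n, (U n).FiniteIndex)
    (star : ∀ (N : Subgroup Γ) (n : ℕ), (∀ c ∈ U n, ∀ y ∈ N, c * y * c⁻¹ ∈ N) →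
      ∀ g ∈ N, g ≠ 1 → ∃ m, U m ≤ N)
    (H : Subgroup Γ) (hH : H.FiniteIndex) :
    Infinite H ∧ ∀ N : Subgroup H, N.Normal → N ≠ ⊥ → N.FiniteIndex := by
  have inf2 : ∀ K : Subgroup Γ, K.FiniteIndex → Infinite K := by
    intro K hK
    by_contra hfin
    rw [not_infinite_iff_finite] at hfin
    have h1 := K.card_mul_index
    rw [Nat.card_eq_zero_of_infinite (α := Γ)] at h1
    rcases Nat.mul_eq_zero.1 h1 with h | h
    · exact Nat.card_pos.ne' h
    · exact hK.index_ne_zero h
  refine ⟨inf2 H hH, fun N hN hne => ?_⟩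
  have := inf2 H.normalCore inferInstance
  obtain ⟨k, hk⟩ := exists_ne (1 : H.normalCore)
  obtain ⟨n, hn⟩ := star H.normalCore 0 (fun c _ y hy => H.normalCore_normal.conj_mem y hy c)
    k.1 k.2 (fun h => hk (Subtype.ext h))
  have hnH : U n ≤ H := hn.trans H.normalCore_le
  obtain ⟨g, hg⟩ := (Subgroup.ne_bot_iff_exists_ne_one).1 hne
  obtain ⟨m, hm⟩ := star (N.map H.subtype) n (by
      rintro c hc _ ⟨y, hy, rfl⟩
      exact ⟨⟨c, hnH hc⟩ * y * (⟨c, hnH hc⟩ : H)⁻¹, hN.conj_mem y hy _, rfl⟩)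
    g.1.1 ⟨g.1, g.2, rfl⟩ (fun h => hg (Subtype.ext (Subtype.ext h)))
  have h1 := hU m
  have h2 : ((U m).subgroupOf H).FiniteIndex := inferInstance
  refine Subgroup.finiteIndex_of_le (H := (U m).subgroupOf H) ?_
  intro x hx
  obtain ⟨y, hy, hye⟩ := hm hx
  have : y = x := Subtype.ext hye
  rwa [← this]

lemma Good.hji [Finite S] (hS : commutator S = ⊤) (hG : Good G w) (s t : S) (hst : s * t ≠ t * s)
    (H : Subgroup G) (hH : H.FiniteIndex) :
    Infinite H ∧ ∀ N : Subgroup H, N.Normal → N ≠ ⊥ → N.FiniteIndex := by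
  have hinf := hG.infinite s t hst
  refine hji_abs (fun n => (St S n).comap G.subtype) (fin_index G) ?_ H hH
  intro N n hn g hg hne
  obtain ⟨m, hm⟩ := hG.star hS (N.map G.subtype) (Subgroup.map_subtype_le _) n (by
      rintro c hc hcn _ ⟨y, hy, rfl⟩
      exact ⟨_, hn ⟨c, hc⟩ hcn y hy, rfl⟩) g.1 ⟨g, hg, rfl⟩ (fun h => hne (Subtype.ext h))
  refine ⟨m, fun x hx => ?_⟩
  obtain ⟨y, hy, hye⟩ := hm x.1 x.2 hx
  have : y = x := Subtype.ext hye
  rwa [← this]

/-- the new action, built from a cocycle -/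
def nact {Γ : Type} (ρ : Γ → S) (φ : Γ → S → Γ) : Γ → List S → List S
  | _, [] => []
  | g, x :: u => (ρ g * x) :: nact ρ φ (φ g x) u

lemma Good.selfsim (hG : Good G w) : ∃ a : MulAction G (List S),
    (∀ g : G, (∀ u : List S, a.smul g u = u) → g = 1) ∧
    ∀ (g : G) (x : S), ∃ (y : S) (h : G), ∀ u : List S, a.smul g (x :: u) = y :: a.smul h u := by
  obtain ⟨M, hM, B, hBG, -, -, hsurj, -⟩ := hG.loc 1 G.one_mem 1 G.one_mem 1
  have ht : ∀ x : S, ∃ t ∈ G, t.lab [] = x := by
    intro x
    obtain ⟨b, hb, hbe⟩ := hsurj (dl [] x)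
    refine ⟨b, hBG hb, ?_⟩
    rw [tr_eq_iff.1 hbe [] (by simp; omega)]
    simp [dl_lab]
  choose t htG ht using ht
  let c : S → W S := fun x => w * (H64.Hji.sec (t x) [1])⁻¹
  have hφ : ∀ (g : G) (x : S), c (g.1.lab [] * x) * H64.Hji.sec g.1 [x] * (c x)⁻¹ ∈ G := by
    intro g x
    have hroot : ((t (g.1.lab [] * x))⁻¹ * (g.1 * t x)).lab [] = 1 := by
      have h0 : ∀ p : W S, (p⁻¹).lab [] = (p.lab [])⁻¹ := fun p => inv_lab_act p []
      rw [root_mul, root_mul, h0, ht, ht, inv_mul_cancel]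
    have := hG.sec ((t (g.1.lab [] * x))⁻¹ * (g.1 * t x))
      (G.mul_mem (G.inv_mem (htG _)) (G.mul_mem g.2 (htG _))) (by
        intro v hv
        obtain rfl : v = [] := List.length_eq_zero_iff.1 (by omega)
        exact hroot)
    have h3 := sec_inv (t (g.1.lab [] * x)) [1]
    simp only [act_cons, act_nil, ht, mul_one] at h3
    rw [sec1_mul, sec1_mul, root_mul, ht, mul_one, mul_one, h3] at this
    convert this using 1
    simp only [c]; group
  let φ : G → S → G := fun g x => ⟨_, hφ g x⟩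
  let ρ : G → S := fun g => g.1.lab []
  have hρ : ∀ g h : G, ρ (g * h) = ρ g * ρ h := fun g h => rfl
  have hφm : ∀ (g h : G) x, φ (g * h) x = φ g (ρ h * x) * φ h x := by
    intro g h x
    apply Subtype.ext
    simp only [φ, ρ, Subgroup.coe_mul, sec1_mul, root_mul, mul_assoc]
    group
  have hφ1 : ∀ x, φ 1 x = 1 := by
    intro x
    apply Subtype.ext
    simp [φ]
  refine ⟨{ smul := nact ρ φ, one_smul := ?_, mul_smul := ?_ }, ?_, ?_⟩
  · intro g h u
    show nact ρ φ (g * h) u = nact ρ φ g (nact ρ φ h u)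
    induction u generalizing g h with
    | nil => rfl
    | cons x u ih => rw [nact, nact, nact, hφm, ih, hρ, mul_assoc]
  · intro u
    show nact ρ φ 1 u = u
    induction u with
    | nil => rfl
    | cons x u ih => rw [nact, hφ1, ih]; simp [ρ]
  · have key : ∀ n, ∀ g : G, (∀ u : List S, nact ρ φ g u = u) → g.1 ∈ St S n := by
      intro n
      induction n with
      | zero => intro g _ v hv; omega
      | succ n ih =>
        intro g hg v hv
        cases v with
        | nil =>
          have := hg [1]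
          simpa [nact, ρ] using this
        | cons x u =>
          have h1 : ρ g = 1 := by
            have := hg [1]
            simpa [nact] using this
          have h2 := ih (φ g x) (fun u => by
            have := hg (x :: u)
            rw [nact] at this
            exact (List.cons.inj this).2)
          have h3 : H64.Hji.sec g.1 [x] ∈ St S n := by
            have h4 := (inferInstance : (St S n).Normal).conj_mem _ h2 (c x)⁻¹
            have h5 : g.1.lab [] = 1 := h1
            simpa [φ, h5, mul_assoc] using h4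
          exact h3 u (by simpa using hv)
    intro g hg
    apply Subtype.ext
    ext v
    exact key (v.length + 1) g hg v (by omega)
  · intro g x
    exact ⟨ρ g * x, φ g x, fun u => rfl⟩

end H64.Hji
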