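import Mathlib

/-! A restricted wreath-type group over the orbits Z^2 / (1,n) and a criterion for it to be Hopfian. -/

set_option autoImplicit false

namespace Pool.Agent.H64.Hop

variable {E : Type} [Group E]

def tt (γ : ℤ × ℤ) (n : ℤ) : ℤ := γ.2 - n * γ.1

def sh (γ ω : ℤ × ℤ) : ℤ × ℤ := (ω.1, ω.2 + tt γ ω.1)

@[simp] lemma sh_fst (γ ω : ℤ × ℤ) : (sh γ ω).1 = ω.1 := rfl

lemma sh_add (γ δ ω : ℤ × ℤ) : sh (γ + δ) ω = sh γ (sh δ ω) := by
  simp only [sh, tt, Prod.fst_add, Prod.snd_add, Prod.mk.injEq, true_and]; ring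

@[simp] lemma sh_zero (ω : ℤ × ℤ) : sh 0 ω = ω := by simp [sh, tt]

@[simp] lemma sh_neg_sh (γ ω : ℤ × ℤ) : sh (-γ) (sh γ ω) = ω := by
  rw [← sh_add]; simp

@[simp] lemma sh_sh_neg (γ ω : ℤ × ℤ) : sh γ (sh (-γ) ω) = ω := by
  rw [← sh_add]; simp

lemma sh_inj (γ : ℤ × ℤ) : Function.Injective (sh γ) := fun a b h => by
  have := congrArg (sh (-γ)) h
  simpa using this

@[ext] structure W (F : ℤ → Subgroup E) where
  b : ℤ × ℤ → E
  γ : ℤ × ℤ
  fin : (Function.mulSupport b).Finite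
  mem : ∀ ω, b ω ∈ F ω.1

variable {F : ℤ → Subgroup E}

lemma fin_sh {b : ℤ × ℤ → E} (h : (Function.mulSupport b).Finite) (γ : ℤ × ℤ) :
    (Function.mulSupport fun ω => b (sh γ ω)).Finite :=
  h.preimage (f := sh γ) (sh_inj γ).injOn

instance : Mul (W F) := ⟨fun x y =>
  { b := fun ω => x.b ω * y.b (sh (-x.γ) ω)
    γ := x.γ + y.γ
    fin := (x.fin.union (fin_sh y.fin _)).subset (Function.mulSupport_mul _ _)
    mem := fun ω => mul_mem (x.mem ω) (y.mem (sh (-x.γ) ω)) }⟩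

instance : One (W F) := ⟨
  { b := fun _ => 1, γ := 0, fin := by simp, mem := fun _ => one_mem _ }⟩

instance : Inv (W F) := ⟨fun x =>
  { b := fun ω => (x.b (sh x.γ ω))⁻¹
    γ := -x.γ
    fin := (fin_sh x.fin x.γ).subset (by intro ω h; simpa using h)
    mem := fun ω => inv_mem (x.mem (sh x.γ ω)) }⟩

@[simp] lemma mul_b (x y : W F) (ω) : (x * y).b ω = x.b ω * y.b (sh (-x.γ) ω) := rfl
@[simp] lemma mul_γ (x y : W F) : (x * y).γ = x.γ + y.γ := rfl
@[simp] lemma one_b (ω) : (1 : W F).b ω = 1 := rfl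
@[simp] lemma one_γ : (1 : W F).γ = 0 := rfl
@[simp] lemma inv_b (x : W F) (ω) : (x⁻¹).b ω = (x.b (sh x.γ ω))⁻¹ := rfl
@[simp] lemma inv_γ (x : W F) : (x⁻¹).γ = -x.γ := rfl

instance : Group (W F) := Group.ofLeftAxioms
  (fun x y z => by
    refine W.ext (funext fun ω => ?_) (by simp [add_assoc])
    simp only [mul_b, mul_γ, mul_assoc, neg_add, ← sh_add, add_comm (-y.γ)])
  (fun x => W.ext (funext fun ω => by simp) (by simp))
  (fun x => W.ext (funext fun ω => by simp) (by simp))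

/-- the element supported at one coordinate -/
def sg (ω : ℤ × ℤ) : F ω.1 →* W F where
  toFun x :=
    { b := fun ω' => if ω' = ω then (x : E) else 1
      γ := 0
      fin := (Set.finite_singleton ω).subset (by
        intro ω' h
        by_contra h'
        exact h (if_neg h'))
      mem := fun ω' => by
        by_cases h : ω' = ω
        · subst h; simp
        · simp [h] }
  map_one' := W.ext (funext fun ω' => by simp) rfl
  map_mul' x y := W.ext (funext fun ω' => by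
    by_cases h : ω' = ω <;> simp [h]) (by simp)

@[simp] lemma sg_γ (ω : ℤ × ℤ) (x : F ω.1) : (sg ω x : W F).γ = 0 := rfl
lemma sg_b (ω : ℤ × ℤ) (x : F ω.1) (ω') :
    (sg ω x : W F).b ω' = if ω' = ω then (x : E) else 1 := rfl

def tr (γ : ℤ × ℤ) : W F := { b := fun _ => 1, γ := γ, fin := by simp, mem := fun _ => one_mem _ }

@[simp] lemma tr_γ (γ : ℤ × ℤ) : (tr γ : W F).γ = γ := rfl
@[simp] lemma tr_b (γ ω : ℤ × ℤ) : (tr γ : W F).b ω = 1 := rfl

lemma tr_add (γ δ : ℤ × ℤ) : (tr (γ + δ) : W F) = tr γ * tr δ :=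
  W.ext (funext fun ω => by simp) rfl

lemma tr_conj (γ ω : ℤ × ℤ) (x : F ω.1) :
    (tr γ : W F) * sg ω x * (tr γ)⁻¹ = sg (sh γ ω) x := by
  refine W.ext (funext fun ω' => ?_) (by simp; rfl)
  simp only [mul_b, tr_b, one_mul, tr_γ, inv_b, inv_one, mul_one, sg_b]
  by_cases h : ω' = sh γ ω
  · subst h; simp
  · rw [if_neg h, if_neg]
    intro h'
    apply h
    rw [← h']; simp

/-- the element with one coordinate removed -/
def rest (g : W F) (ω : ℤ × ℤ) : W F :=
  { b := fun ω' => if ω' = ω then 1 else g.b ω'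
    γ := g.γ
    fin := g.fin.subset (by
      intro ω' h
      by_cases h' : ω' = ω
      · exact absurd (if_pos h') h
      · simpa [h'] using h)
    mem := fun ω' => by
      by_cases h : ω' = ω
      · simp [h]
      · simpa [h] using g.mem ω' }

lemma rest_γ (g : W F) (ω) : (rest g ω).γ = g.γ := rfl

lemma sg_mul_rest (g : W F) (ω : ℤ × ℤ) : sg ω ⟨g.b ω, g.mem ω⟩ * rest g ω = g := by
  refine W.ext (funext fun ω' => ?_) (by simp [rest_γ])
  by_cases h : ω' = ω
  · subst h; simp [sg_b, rest]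
  · simp [sg_b, rest, h]

lemma commute_sg {g : W F} (hg : g.γ = 0) {ω : ℤ × ℤ} (h : g.b ω = 1) (x : F ω.1) :
    Commute (sg ω x) g := by
  refine W.ext (funext fun ω' => ?_) (by simp)
  by_cases h' : ω' = ω
  · subst h'; simp [sg_b, hg, h]
  · simp [sg_b, hg, h']

lemma rest_b (g : W F) (ω) : (rest g ω).b ω = 1 := by simp [rest]

lemma base_ind (p : W F → Prop) (h1 : p 1)
    (hs : ∀ ω x g, g.γ = 0 → p g → p (sg ω x * g)) : ∀ g : W F, g.γ = 0 → p g := by
  have key : ∀ s : Finset (ℤ × ℤ), ∀ g : W F, g.γ = 0 → Function.mulSupport g.b ⊆ s → p g := by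
    intro s
    induction s using Finset.induction_on with
    | empty =>
      intro g hg hs'
      have : g = 1 := W.ext (funext fun ω => by
        by_contra h
        simpa using hs' h) hg
      rwa [this]
    | insert ω s _ ih =>
      intro g hg hs'
      rw [← sg_mul_rest g ω]
      refine hs _ _ _ hg (ih _ hg ?_)
      intro ω' h
      by_cases h' : ω' = ω
      · exact absurd (h' ▸ rest_b g ω) h
      · have h2 : g.b ω' ≠ 1 := by simpa [rest, h'] using h
        simpa [h'] using hs' h2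
  intro g hg
  exact key g.fin.toFinset g hg (by simp)

def piH : W F →* Multiplicative (ℤ × ℤ) where
  toFun g := Multiplicative.ofAdd g.γ
  map_one' := rfl
  map_mul' _ _ := rfl

lemma lin (β : ℤ × ℤ →+ ℤ × ℤ) (hs : Function.Surjective β) (hi : Function.Injective β)
    (h : ∀ n, ∃ m, tt (β (1, m)) n = 0) (m : ℤ) :
    ∃ n, ∀ m', tt (β (1, m')) n = 0 → m' = m := by
  obtain ⟨⟨x0, y0⟩, h0⟩ := hs (1, 0)
  obtain ⟨⟨x1, y1⟩, h1⟩ := hs (0, 1)
  have key : ∀ n m', tt (β (1, m')) n = 0 →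
      ∃ p : ℤ, p * (x0 + n * x1) = 1 ∧ p * (y0 + n * y1) = m' := by
    intro n m' hm
    refine ⟨(β (1, m')).1, ?_⟩
    have : β ((β (1, m')).1 • (((x0, y0) : ℤ × ℤ) + n • (x1, y1))) = β (1, m') := by
      rw [map_zsmul, map_add, map_zsmul, h0, h1]
      unfold tt at hm
      refine Prod.ext (by simp) ?_
      simp only [Prod.smul_snd, Prod.snd_add, smul_eq_mul]
      linarith
    have := hi this
    simp only [Prod.smul_mk, Prod.mk_add_mk, smul_eq_mul, Prod.mk.injEq] at this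
    exact this
  have hu : ∀ n : ℤ, x0 + n * x1 = 1 ∨ x0 + n * x1 = -1 := by
    intro n
    obtain ⟨m', hm'⟩ := h n
    obtain ⟨p, hp, -⟩ := key n m' hm'
    exact Int.eq_one_or_neg_one_of_mul_eq_one (by rw [mul_comm]; exact hp)
  have hx1 : x1 = 0 := by
    have a := hu 0
    have b := hu 3
    omega
  subst hx1
  have hx0 : x0 * x0 = 1 := by
    rcases hu 0 with a | a <;> simp at a <;> simp [a]
  have hy1 : y1 * y1 = 1 := by
    have : β (y1 • ((0, 1) : ℤ × ℤ)) = (0, 1) := by simpa using h1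
    rw [map_zsmul] at this
    have h2 := congrArg Prod.snd this
    simp only [Prod.smul_snd, smul_eq_mul] at h2
    rcases Int.eq_one_or_neg_one_of_mul_eq_one h2 with a | a <;> simp [a]
  refine ⟨y1 * (x0 * m - y0), fun m' hm' => ?_⟩
  obtain ⟨p, hp, hq⟩ := key _ m' hm'
  have hp' : p = x0 := by
    simp only [mul_zero, add_zero] at hp
    calc p = p * (x0 * x0) := by rw [hx0, mul_one]
      _ = (p * x0) * x0 := by ring
      _ = x0 := by rw [hp, one_mul]
  subst hp'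
  calc m' = p * (y0 + (y1 * y1) * (p * m - y0)) := by rw [← hq]; ring
    _ = (p * p) * m := by rw [hy1]; ring
    _ = m := by rw [hx0, one_mul]

theorem hopf (hfg : ∀ n, Group.FG (F n))
    (hz : ∀ n z, z ∈ F n → (∀ y ∈ F n, Commute z y) → z = 1)
    (hnt : ∀ n, ∃ y ∈ F n, y ≠ 1)
    (hab : ∀ n (f : F n →* Multiplicative (ℤ × ℤ)) x, f x = 1)
    (hH : ∀ m n (ψ : F m →* E), ψ.range = F n → Function.Injective ψ)
    (σ : W F →* W F) (hσ : Function.Surjective σ) : Function.Injective σ := by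
  classical
  have hπ : ∀ ω x, (σ (sg ω x)).γ = 0 := fun ω x =>
    hab ω.1 (piH.comp (σ.comp (sg ω))) x
  have hbase : ∀ g : W F, g.γ = 0 → (σ g).γ = 0 :=
    base_ind _ (by simp) (fun ω x g _ h => by simp [hπ, h])
  let β : ℤ × ℤ →+ ℤ × ℤ := AddMonoidHom.mk' (fun γ => (σ (tr γ)).γ)
    (fun γ δ => by simp [tr_add])
  have hβ : ∀ g : W F, (σ g).γ = β g.γ := by
    intro g
    have : g = (g * (tr g.γ)⁻¹) * tr g.γ := by simp
    conv_lhs => rw [this, map_mul, mul_γ, hbase _ (by simp), zero_add]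
    rfl
  have hβs : Function.Surjective β := by
    intro γ
    obtain ⟨g, hg⟩ := hσ (tr γ)
    exact ⟨g.γ, by rw [← hβ, hg]; rfl⟩
  have hβi : Function.Injective β :=
    OrzechProperty.injective_of_surjective_endomorphism β.toIntLinearMap hβs
  have hker : ∀ g : W F, (σ g).γ = 0 → g.γ = 0 := fun g h =>
    hβi (by rw [← hβ, h, map_zero])
  have hm : ∀ (g h : W F) ω', g.γ = 0 → (σ (g * h)).b ω' = (σ g).b ω' * (σ h).b ω' := by
    intro g h ω' hg
    simp [hbase g hg]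
  let A : ∀ ω ω' : ℤ × ℤ, F ω.1 →* E := fun ω ω' =>
    MonoidHom.mk' (fun x => (σ (sg ω x)).b ω') (fun x y => by rw [map_mul, hm _ _ _ rfl])
  have hA : ∀ ω ω' x, A ω ω' x = (σ (sg ω x)).b ω' := fun _ _ _ => rfl
  have hcomm : ∀ (g h : W F) ω', g.γ = 0 → h.γ = 0 → Commute g h →
      Commute ((σ g).b ω') ((σ h).b ω') := by
    intro g h ω' hg hh hc
    unfold Commute SemiconjBy at *
    rw [← hm _ _ _ hg, ← hm _ _ _ hh, hc]
  have hdec : ∀ (ω ω' : ℤ × ℤ) (y : E), y ∈ F ω'.1 →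
      ∃ x ρ, y = A ω ω' x * ρ ∧ (∀ x', Commute (A ω ω' x') ρ) := by
    intro ω ω' y hy
    obtain ⟨g, hg⟩ := hσ (sg ω' ⟨y, hy⟩)
    have g0 : g.γ = 0 := hker g (by rw [hg]; rfl)
    refine ⟨⟨g.b ω, g.mem ω⟩, (σ (rest g ω)).b ω', ?_, fun x' => ?_⟩
    · rw [hA, ← hm _ _ _ rfl, sg_mul_rest, hg, sg_b, if_pos rfl]
    · exact hcomm _ (rest g ω) _ rfl g0 (commute_sg (g := rest g ω) g0 (rest_b g ω) x')
  have hD : ∀ (g : W F) (ω ω' : ℤ × ℤ) x, g.γ = 0 → (σ g).b ω' = A ω ω' x →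
      A ω ω' ⟨g.b ω, g.mem ω⟩ = (σ g).b ω' := by
    intro g ω ω' x g0 hx
    have e : (σ g).b ω' = A ω ω' ⟨g.b ω, g.mem ω⟩ * (σ (rest g ω)).b ω' := by
      rw [hA, ← hm _ _ _ rfl, sg_mul_rest]
    have e2 : (σ (rest g ω)).b ω' = A ω ω' ((⟨g.b ω, g.mem ω⟩ : F ω.1)⁻¹ * x) := by
      rw [map_mul, map_inv, ← hx, e]; simp
    have : (σ (rest g ω)).b ω' = 1 := by
      refine hz ω'.1 _ ((σ _).mem ω') (fun y hy => ?_)
      obtain ⟨x', ρ, rfl, hρ⟩ := hdec ω ω' y hy
      refine Commute.mul_right ?_ (by rw [e2]; exact hρ _)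
      exact (hcomm _ (rest g ω) _ rfl g0 (commute_sg (g := rest g ω) g0 (rest_b g ω) x')).symm
    rw [e, this, mul_one]
  have hN : ∀ (ω ω' : ℤ × ℤ) (c : E), c ∈ F ω'.1 → ∀ x, ∃ x', A ω ω' x' = c * A ω ω' x * c⁻¹ := by
    intro ω ω' c hc x
    obtain ⟨x', ρ, rfl, hρ⟩ := hdec ω ω' c hc
    refine ⟨x' * x * x'⁻¹, ?_⟩
    rw [map_mul, map_mul, map_inv, mul_assoc (A ω ω' x') ρ, ← (hρ x).eq]
    group
  have hE : ∀ (γ ω ω' : ℤ × ℤ), ∃ c ∈ F ω'.1, ∀ x : F ω.1,
      A (sh γ ω) (sh (β γ) ω') x = c * A ω ω' x * c⁻¹ := by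
    intro γ ω ω'
    refine ⟨(σ (tr γ)).b (sh (β γ) ω'), (σ (tr γ)).mem (sh (β γ) ω'), fun x => ?_⟩
    have hb : (σ (tr γ)).γ = β γ := rfl
    rw [hA, ← tr_conj, map_mul, map_mul, map_inv]
    simp [hb, hπ, hA]
  have hFS : ∀ ω : ℤ × ℤ, ∃ T : Finset (ℤ × ℤ), ∀ x ω', ω' ∉ T → A ω ω' x = 1 := by
    intro ω
    obtain ⟨S, hS⟩ := (hfg ω.1).out
    refine ⟨S.biUnion fun s => (σ (sg ω s)).fin.toFinset, fun x ω' h => ?_⟩
    have : Subgroup.closure (S : Set (F ω.1)) ≤ (A ω ω').ker := by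
      rw [Subgroup.closure_le]
      intro s hs
      by_contra h'
      apply h
      rw [Finset.mem_biUnion]
      exact ⟨s, hs, by simpa [hA] using h'⟩
    exact this (by rw [hS]; trivial)
  have hO : ∀ (ω ω' : ℤ × ℤ) x, A ω ω' x ≠ 1 → tt (β (1, ω.1)) ω'.1 = 0 := by
    intro ω ω' x hx
    by_contra ht
    obtain ⟨T, hT⟩ := hFS ω
    have : (T : Set (ℤ × ℤ)).Infinite := by
      refine Set.infinite_of_injective_forall_mem
        (f := fun k : ℤ => sh (β (k • (1, ω.1))) ω') ?_ ?_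
      · intro k l hkl
        have := congrArg Prod.snd hkl
        simp only [map_zsmul, sh, tt, Prod.smul_fst, Prod.smul_snd, smul_eq_mul] at this
        unfold tt at ht
        have h2 : (k - l) * ((β (1, ω.1)).2 - ω'.1 * (β (1, ω.1)).1) = 0 := by linarith
        rcases mul_eq_zero.1 h2 with a | a
        · linarith
        · exact absurd a ht
      · intro k
        obtain ⟨c, -, hc⟩ := hE (k • (1, ω.1)) ω ω'
        by_contra hk
        have e : sh (k • ((1 : ℤ), ω.1)) ω = ω := by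
          simp [sh, tt, mul_comm]
        have h1 := hc x
        have h2 : ∀ ω₂ : ℤ × ℤ, ω₂ = ω → ∀ (x₂ : F ω₂.1), A ω₂ (sh (β (k • (1, ω.1))) ω') x₂ = 1 := by
          intro ω₂ h x₂; subst h; exact hT _ _ hk
        rw [h2 _ e] at h1
        apply hx
        have := h1.symm
        rw [mul_inv_eq_one, mul_eq_left] at this
        exact this
    exact this T.finite_toSet
  have hsub : ∀ (K : Subgroup E) (ω' : ℤ × ℤ), (∀ ω x, A ω ω' x ∈ K) → F ω'.1 ≤ K := by
    intro K ω' h y hy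
    obtain ⟨g, hg⟩ := hσ (sg ω' ⟨y, hy⟩)
    have g0 : g.γ = 0 := hker g (by rw [hg]; rfl)
    have : (σ g).b ω' ∈ K := by
      refine base_ind (fun g => (σ g).b ω' ∈ K) (by simp) (fun ω x g _ hg => ?_) g g0
      show (σ (sg ω x * g)).b ω' ∈ K
      rw [hm _ _ _ rfl]
      exact mul_mem (h ω x) hg
    rwa [hg, sg_b, if_pos rfl] at this
  have hex : ∀ n, ∃ m, tt (β (1, m)) n = 0 := by
    intro n
    by_contra hc
    push Not at hc
    obtain ⟨y, hy, hy1⟩ := hnt n
    have := hsub ⊥ (n, 0) (fun ω x => by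
      by_contra h
      exact hc ω.1 (hO ω (n, 0) x h)) hy
    exact hy1 this
  have hinj : ∀ (ω : ℤ × ℤ) (x : F ω.1), (∀ ω', A ω ω' x = 1) → x = 1 := by
    intro ω
    obtain ⟨n, hn⟩ := lin β hβs hβi hex ω.1
    obtain ⟨T, hT⟩ := hFS ω
    have hc : ∀ ω' ω'' : ℤ × ℤ, ω'.1 = n → ω''.1 = n → ω' ≠ ω'' → ∀ x x₂,
        Commute (A ω ω' x) (A ω ω'' x₂) := by
      intro ω' ω'' h1 h2 hne x x₂
      by_cases hx : A ω ω' x = 1
      · rw [hx]; exact Commute.one_left _
      obtain ⟨γ, hγ⟩ := hβs (0, ω'.2 - ω''.2)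
      have e : sh (β γ) ω'' = ω' := by
        rw [hγ]; exact Prod.ext (by simp [h1, h2]) (by simp [sh, tt])
      obtain ⟨c, hcF, hc⟩ := hE γ ω ω''
      rw [e] at hc
      have hne2 : sh γ ω ≠ ω := by
        intro h
        have h3 : tt γ ω.1 = 0 := by
          have := congrArg Prod.snd h
          simpa [sh] using this
        have h4 : γ = γ.1 • ((1 : ℤ), ω.1) := by
          unfold tt at h3
          refine Prod.ext (by simp) ?_
          simp only [Prod.smul_snd, smul_eq_mul]; linarith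
        have h5 := hO ω ω' x hx
        rw [h4, map_zsmul] at hγ
        have a1 := congrArg Prod.fst hγ
        have a2 := congrArg Prod.snd hγ
        simp only [Prod.smul_fst, Prod.smul_snd, smul_eq_mul] at a1 a2
        unfold tt at h5
        apply hne
        refine Prod.ext (h1.trans h2.symm) ?_
        have : γ.1 * (β (1, ω.1)).2 = ω'.1 * (γ.1 * (β (1, ω.1)).1) := by
          rw [show (β (1, ω.1)).2 = ω'.1 * (β (1, ω.1)).1 by linarith]; ring
        rw [a1, a2] at this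
        linarith
      obtain ⟨x', hx'⟩ := hN ω ω' c (by rw [h1, ← h2]; exact hcF) x
      have : Commute (A ω ω' x') (A (sh γ ω) ω' x₂) :=
        hcomm _ _ _ rfl rfl (commute_sg rfl (by rw [sg_b, if_neg hne2.symm]) x')
      rw [hx', hc] at this
      have h6 := this.eq
      have : c * (A ω ω' x * A ω ω'' x₂) * c⁻¹ = c * (A ω ω'' x₂ * A ω ω' x) * c⁻¹ := by
        calc _ = c * A ω ω' x * c⁻¹ * (c * A ω ω'' x₂ * c⁻¹) := by group
          _ = _ := by rw [h6]; group
      exact mul_left_cancel (mul_right_cancel this)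
    let T' := T.filter fun ω' => ω'.1 = n
    have hc' : ∀ x x₂ : F ω.1, (T' : Set (ℤ × ℤ)).Pairwise
        fun a b => Commute (A ω a x) (A ω b x₂) := by
      intro x x₂ a ha b hb hab
      exact hc a b (Finset.mem_filter.1 ha).2 (Finset.mem_filter.1 hb).2 hab x x₂
    let ψ : F ω.1 →* E := MonoidHom.mk'
      (fun x => T'.noncommProd (fun a => A ω a x) (hc' x x)) (fun x y => by
        rw [← Finset.noncommProd_mul_distrib _ _ (hc' x x) (hc' y y) (hc' y x)]
        exact Finset.noncommProd_congr rfl (fun a _ => by simp) _)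
    have hψ : ∀ x, ψ x = T'.noncommProd (fun a => A ω a x) (hc' x x) := fun _ => rfl
    have hr : ψ.range = F n := by
      apply le_antisymm
      · rintro _ ⟨x, rfl⟩
        rw [hψ]
        refine Subgroup.noncommProd_mem _ _ (fun a ha => ?_)
        rw [← (Finset.mem_filter.1 ha).2]
        exact (σ _).mem a
      · refine hsub ψ.range (n, 0) (fun ω₁ x => ?_)
        by_cases hx : A ω₁ (n, 0) x = 1
        · rw [hx]; exact one_mem _
        have hm1 : ω₁.1 = ω.1 := hn _ (hO _ _ x hx)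
        obtain ⟨γ, hγ⟩ : ∃ γ, ω₁ = sh γ ω :=
          ⟨(0, ω₁.2 - ω.2), Prod.ext hm1 (by simp [sh, tt])⟩
        subst hγ
        obtain ⟨c, hcF, hc⟩ := hE γ ω (sh (-β γ) (n, 0))
        rw [sh_sh_neg] at hc
        set ω' := sh (-β γ) (n, 0) with hω'
        obtain ⟨x', hx'⟩ := hN ω ω' c hcF x
        rw [hc, ← hx'] at hx ⊢
        obtain ⟨g, hg⟩ := hσ (sg ω' ⟨A ω ω' x', (σ _).mem ω'⟩)
        have g0 : g.γ = 0 := hker g (by rw [hg]; rfl)
        have e1 : A ω ω' ⟨g.b ω, g.mem ω⟩ = A ω ω' x' := by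
          have : (σ g).b ω' = A ω ω' x' := by rw [hg, sg_b, if_pos rfl]
          rw [hD g ω ω' x' g0 this, this]
        have e2 : ∀ a, a ≠ ω' → A ω a ⟨g.b ω, g.mem ω⟩ = 1 := by
          intro a ha
          have : (σ g).b a = 1 := by rw [hg, sg_b, if_neg ha]
          rw [hD g ω a 1 g0 (by rw [this, map_one]), this]
        have hmem : ω' ∈ T' := by
          refine Finset.mem_filter.2 ⟨?_, rfl⟩
          by_contra h
          exact hx (hT _ _ h)
        refine ⟨⟨g.b ω, g.mem ω⟩, ?_⟩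
        rw [hψ, ← Finset.noncommProd_erase_mul _ hmem,
          Finset.noncommProd_eq_pow_card _ _ _ 1 (fun a ha => e2 a (Finset.ne_of_mem_erase ha)),
          one_pow, one_mul, e1]
    intro x hx
    apply hH _ _ ψ hr
    rw [map_one, hψ, Finset.noncommProd_eq_pow_card _ _ _ 1 (fun a _ => hx a), one_pow]
  rw [injective_iff_map_eq_one]
  intro g hg
  have g0 : g.γ = 0 := hker g (by rw [hg]; rfl)
  refine W.ext (funext fun ω => ?_) g0
  have := hinj ω ⟨g.b ω, g.mem ω⟩ (fun ω' => by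
    rw [hD g ω ω' 1 g0 (by rw [hg, map_one]; rfl), hg]; rfl)
  exact congrArg Subtype.val this

end Pool.Agent.H64.Hop
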