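import Pool.Agent.H64.Hop1

/-! The integral group ring of the wreath-type group is not Hopfian. -/

set_option autoImplicit false

namespace Pool.Agent.H64.Hop

section Q
variable {E M : Type} [Group E] [Monoid M] (f : ℤ → E →* M)
  (hf : ∀ j k, j ≠ k → ∀ x y, Commute (f j x) (f k y))

def Q (S : Finset ℤ) (y : ℤ → E) : M :=
  S.noncommProd (fun j => f j (y j)) (fun j _ k _ h => hf j k h _ _)

lemma Q_empty (y : ℤ → E) : Q f hf ∅ y = 1 := Finset.noncommProd_empty _ _

lemma Q_insert (S : Finset ℤ) (y : ℤ → E) (j : ℤ) (h : j ∉ S) :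
    Q f hf (insert j S) y = f j (y j) * Q f hf S y :=
  Finset.noncommProd_insert_of_notMem _ _ _ _ h

lemma Q_mul (S : Finset ℤ) (y z : ℤ → E) :
    Q f hf S (fun j => y j * z j) = Q f hf S y * Q f hf S z := by
  unfold Q
  rw [← Finset.noncommProd_mul_distrib _ _ _ _ (fun j _ k _ h => hf j k h _ _)]
  exact Finset.noncommProd_congr rfl (fun a _ => by simp) _

lemma Q_union (S T : Finset ℤ) (y : ℤ → E) (h : ∀ j ∈ T, j ∉ S → y j = 1) :
    Q f hf (S ∪ T) y = Q f hf S y := by
  induction T using Finset.induction_on with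
  | empty => simp
  | insert j T hj ih =>
    have ih' := ih (fun k hk => h k (Finset.mem_insert_of_mem hk))
    rw [Finset.union_insert]
    by_cases h1 : j ∈ S ∪ T
    · rw [Finset.insert_eq_of_mem h1, ih']
    · rw [Q_insert _ _ _ _ _ h1, ih', h j (Finset.mem_insert_self _ _)
        (fun h2 => h1 (Finset.mem_union_left _ h2)), map_one, one_mul]

lemma Q_eq (S T : Finset ℤ) (y : ℤ → E) (hS : ∀ j, j ∉ S → y j = 1) (hT : ∀ j, j ∉ T → y j = 1) :
    Q f hf S y = Q f hf T y := by
  rw [← Q_union f hf S T y (fun j _ h => hS j h), Finset.union_comm,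
    Q_union f hf T S y (fun j _ h => hT j h)]

lemma Q_shift (u : M) (t : ℤ) (hu : ∀ j x, u * f j x = f (j + t) x * u) (S : Finset ℤ)
    (y : ℤ → E) : u * Q f hf S y = Q f hf (S.image (· + t)) (fun j => y (j - t)) * u := by
  induction S using Finset.induction_on with
  | empty => simp [Q_empty]
  | insert j S hj ih =>
    rw [Finset.image_insert, Q_insert _ _ _ _ _ hj, Q_insert _ _ _ _ _ (by simpa using hj),
      ← mul_assoc, hu, mul_assoc, ih, add_sub_cancel_right, mul_assoc]

end Q

variable {E Y : Type} [Group E] [Group Y] (ι : Y →* E)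

def FF (n : ℤ) : Subgroup E := if 0 < n then ⊤ else ι.range

lemma FF_succ {n : ℤ} (h : n ≠ 0) : FF ι (n + 1) = FF ι n := by
  unfold FF
  by_cases h' : 0 < n
  · rw [if_pos h', if_pos (by omega)]
  · rw [if_neg h', if_neg (by omega)]

def s0 (j : ℤ) : Y →* W (FF ι) :=
  (sg (F := FF ι) (0, j)).comp (ι.codRestrict (FF ι 0) (fun y => by simp [FF]))

lemma s0_b (j : ℤ) (y : Y) (ω) : (s0 ι j y).b ω = if ω = (0, j) then ι y else 1 := rfl
lemma s0_γ (j : ℤ) (y : Y) : (s0 ι j y).γ = 0 := rfl

def shift : W (FF ι) →* W (FF ι) where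
  toFun g :=
    { b := fun ω => if ω.1 = 0 then 1 else g.b (ω.1 + 1, ω.2)
      γ := (g.γ.1, g.γ.2 - g.γ.1)
      fin := (g.fin.preimage (f := fun ω : ℤ × ℤ => (ω.1 + 1, ω.2)) (fun a _ b _ h => by
          simp only [Prod.mk.injEq, add_left_inj] at h
          exact Prod.ext h.1 h.2)).subset (by
        intro ω h
        by_cases h' : ω.1 = 0
        · exact absurd (if_pos h') h
        · simpa [h'] using h)
      mem := fun ω => by
        by_cases h : ω.1 = 0
        · simp [h]
        · rw [if_neg h, ← FF_succ ι h]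
          exact g.mem (ω.1 + 1, ω.2) }
  map_one' := W.ext (funext fun ω => by simp) (by simp)
  map_mul' x y := W.ext (funext fun ω => by
      by_cases h : ω.1 = 0
      · simp [h]
      · simp only [mul_b, h, if_false, sh_fst]
        congr 2
        simp only [sh, tt, Prod.fst_neg, Prod.snd_neg, Prod.mk.injEq, true_and]
        ring) (by
      simp only [mul_γ, Prod.fst_add, Prod.snd_add, Prod.mk_add_mk, Prod.mk.injEq, true_and]
      ring)

lemma shift_b (g : W (FF ι)) (ω) :
    (shift ι g).b ω = if ω.1 = 0 then 1 else g.b (ω.1 + 1, ω.2) := rfl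
lemma shift_γ (g : W (FF ι)) : (shift ι g).γ = (g.γ.1, g.γ.2 - g.γ.1) := rfl

lemma shift_s0 (g : W (FF ι)) (j : ℤ) (y : Y) :
    shift ι g * s0 ι j y = s0 ι (j + tt g.γ 1) y * shift ι g := by
  refine W.ext (funext fun ω => ?_) (by simp [s0_γ])
  simp only [mul_b, s0_b, s0_γ, neg_zero, sh_zero, shift_b, shift_γ]
  by_cases h : ω.1 = 0
  · simp only [h, if_true, one_mul, mul_one]
    congr 1
    obtain ⟨a, b⟩ := ω
    simp only at h
    subst h
    simp only [sh, tt, Prod.neg_mk, Prod.mk.injEq, true_and, eq_iff_iff]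
    constructor <;> intro h <;> linarith
  · rw [if_neg h, if_neg, if_neg, mul_one, one_mul]
    · intro h'; exact h (congrArg Prod.fst h')
    · intro h'; exact h (congrArg Prod.fst h')

theorem nonhopf (ρ : E →* MonoidAlgebra ℤ Y) (hρ : ∀ y, ρ (ι y) = MonoidAlgebra.single y 1)
    (v : E) (hv : v ≠ 1) (hv2 : ρ v * ρ v - 2 * ρ v + 1 = 0) :
    ∃ φ : MonoidAlgebra ℤ (W (FF ι)) →+* MonoidAlgebra ℤ (W (FF ι)),
      Function.Surjective φ ∧ ¬ Function.Injective φ := by
  classical
  let f : ℤ → E →* MonoidAlgebra ℤ (W (FF ι)) := fun j =>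
    (MonoidAlgebra.mapDomainRingHom ℤ (s0 ι j)).toMonoidHom.comp ρ
  have hfa : ∀ j x, f j x = MonoidAlgebra.mapDomainRingHom ℤ (s0 ι j) (ρ x) := fun _ _ => rfl
  have hf : ∀ j k, j ≠ k → ∀ x y, Commute (f j x) (f k y) := by
    intro j k hjk x y
    rw [hfa, hfa]
    generalize ρ x = a
    generalize ρ y = b
    induction a using MonoidAlgebra.induction_linear with
    | zero => simp
    | add a a' h1 h2 => rw [map_add]; exact h1.add_left h2
    | single y r =>
      induction b using MonoidAlgebra.induction_linear with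
      | zero => simp
      | add a a' h1 h2 => rw [map_add]; exact h1.add_right h2
      | single y' r' =>
        simp only [MonoidAlgebra.mapDomainRingHom_apply, MonoidAlgebra.mapDomain_single]
        refine MonoidAlgebra.single_commute_single ?_ (Commute.all _ _)
        exact commute_sg (ω := (0, j)) (s0_γ ι k y') (by rw [s0_b, if_neg (by simpa using hjk)]) _
  let S : W (FF ι) → Finset ℤ := fun g => g.fin.toFinset.image Prod.snd
  have hS : ∀ g j, j ∉ S g → g.b (1, j) = 1 := by
    intro g j h
    by_contra h'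
    exact h (Finset.mem_image.2 ⟨(1, j), by simpa using h', rfl⟩)
  let P : W (FF ι) → MonoidAlgebra ℤ (W (FF ι)) := fun g => Q f hf (S g) (fun j => g.b (1, j))
  have hP : ∀ g T, (∀ j, j ∉ T → g.b (1, j) = 1) → P g = Q f hf T (fun j => g.b (1, j)) :=
    fun g T hT => Q_eq f hf _ _ _ (hS g) hT
  have hu : ∀ g j x, MonoidAlgebra.single (shift ι g) (1 : ℤ) * f j x =
      f (j + tt g.γ 1) x * MonoidAlgebra.single (shift ι g) 1 := by
    intro g j x
    rw [hfa, hfa]
    generalize ρ x = a
    induction a using MonoidAlgebra.induction_linear with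
    | zero => simp
    | add a a' h1 h2 => rw [map_add, map_add, mul_add, add_mul, h1, h2]
    | single y r =>
      simp only [MonoidAlgebra.mapDomainRingHom_apply, MonoidAlgebra.mapDomain_single,
        MonoidAlgebra.single_mul_single, shift_s0, one_mul, mul_one]
  let Φ : W (FF ι) →* MonoidAlgebra ℤ (W (FF ι)) :=
    { toFun := fun g => P g * MonoidAlgebra.single (shift ι g) 1
      map_one' := by
        rw [hP 1 ∅ (fun _ _ => rfl), Q_empty, map_one, one_mul]; rfl
      map_mul' := fun g h => by
        have e : ∀ j, sh (-g.γ) (1, j) = (1, j - tt g.γ 1) := by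
          intro j; simp only [sh, tt, Prod.fst_neg, Prod.snd_neg, Prod.mk.injEq, true_and]; ring
        have hT2 : ∀ j, j ∉ S g ∪ (S h).image (· + tt g.γ 1) → h.b (1, j - tt g.γ 1) = 1 := by
          intro j hj
          apply hS
          intro h'
          exact hj (Finset.mem_union_right _ (Finset.mem_image.2 ⟨_, h', by simp⟩))
        have hT1 : ∀ j, j ∉ S g ∪ (S h).image (· + tt g.γ 1) → g.b (1, j) = 1 :=
          fun j hj => hS g j (fun h' => hj (Finset.mem_union_left _ h'))
        rw [hP (g * h) (S g ∪ (S h).image (· + tt g.γ 1)) (fun j hj => by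
          rw [mul_b, e, hT1 j hj, hT2 j hj, one_mul])]
        simp only [mul_b, e]
        rw [Q_mul, ← hP g _ hT1, mul_assoc (P g), mul_assoc (P g), ← mul_assoc _ (P h),
          Q_shift f hf _ _ (hu g), mul_assoc, MonoidAlgebra.single_mul_single, ← map_mul, one_mul,
          Q_eq f hf _ ((S h).image (· + tt g.γ 1)) _ hT2 (fun j hj => by
            apply hS
            intro h'
            exact hj (Finset.mem_image.2 ⟨_, h', by simp⟩))] }
  have hΦ : ∀ g, Φ g = P g * MonoidAlgebra.single (shift ι g) 1 := fun _ => rfl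
  let φ := (MonoidAlgebra.lift ℤ (MonoidAlgebra ℤ (W (FF ι))) (W (FF ι)) Φ).toRingHom
  have hφ : ∀ g, φ (MonoidAlgebra.single g 1) = Φ g := by
    intro g; simp [φ]
  have h1 : ∀ j (x : E), Φ (sg (F := FF ι) (1, j) ⟨x, by simp [FF]⟩) = f j x := by
    intro j x
    have : shift ι (sg (F := FF ι) (1, j) ⟨x, by simp [FF]⟩) = 1 := by
      refine W.ext (funext fun ω => ?_) rfl
      rw [shift_b, sg_b]
      by_cases h : ω.1 = 0
      · simp [h]
      · rw [if_neg h, if_neg]; · rfl
        intro h'
        apply h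
        have := congrArg Prod.fst h'
        simpa using this
    rw [hΦ, this, hP _ (insert j ∅) (fun k hk => by
      rw [sg_b, if_neg (by simpa using hk)]), Q_insert _ _ _ _ _ (by simp), Q_empty, sg_b,
      if_pos rfl, mul_one]
    exact mul_one _
  refine ⟨φ, ?_, ?_⟩
  · have hb : ∀ g : W (FF ι), g.γ = 0 → MonoidAlgebra.single g (1 : ℤ) ∈ φ.range := by
      refine base_ind _ (one_mem _) (fun ω x g _ hg => ?_)
      rw [← one_mul (1 : ℤ), ← MonoidAlgebra.single_mul_single]
      refine mul_mem ?_ hg
      obtain ⟨n, j⟩ := ω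
      by_cases hn : n = 0
      · subst hn
        obtain ⟨x, hx⟩ := x
        obtain ⟨y, rfl⟩ : x ∈ ι.range := by simpa [FF] using hx
        refine ⟨MonoidAlgebra.single (sg (F := FF ι) (1, j) ⟨ι y, by simp [FF]⟩) 1, ?_⟩
        rw [hφ, h1, hfa, hρ]
        simp only [MonoidAlgebra.mapDomainRingHom_apply, MonoidAlgebra.mapDomain_single]
        rfl
      · refine ⟨MonoidAlgebra.single (sg (F := FF ι) (n + 1, j)
          ⟨x, by rw [FF_succ ι hn]; exact x.2⟩) 1, ?_⟩
        rw [hφ, hΦ, hP _ ∅ (fun k _ => by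
          rw [sg_b, if_neg]
          intro h
          apply hn
          have := congrArg Prod.fst h
          simpa using this), Q_empty, one_mul]
        congr 1
        refine W.ext (funext fun ω => ?_) rfl
        rw [shift_b, sg_b, sg_b]
        by_cases h : ω = (n, j)
        · subst h; simp [hn]
        · rw [if_neg h]
          by_cases h2 : ω.1 = 0
          · rw [if_pos h2]
          · rw [if_neg h2, if_neg]
            intro h3
            apply h
            simp only [Prod.mk.injEq, add_left_inj] at h3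
            exact Prod.ext h3.1 h3.2
    have hall : ∀ g : W (FF ι), MonoidAlgebra.single g (1 : ℤ) ∈ φ.range := by
      intro g
      have : g = (g * (tr g.γ)⁻¹) * tr g.γ := by simp
      rw [this, ← one_mul (1 : ℤ), ← MonoidAlgebra.single_mul_single]
      refine mul_mem (hb _ (by simp)) ?_
      refine ⟨MonoidAlgebra.single (tr (g.γ.1, g.γ.2 + g.γ.1)) 1, ?_⟩
      rw [hφ, hΦ, hP _ ∅ (fun _ _ => rfl), Q_empty, one_mul]
      congr 1
      refine W.ext (funext fun ω => by simp [shift_b]) (by simp [shift_γ])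
    intro a
    show a ∈ φ.range
    induction a using MonoidAlgebra.induction_linear with
    | zero => exact zero_mem _
    | add a a' h1 h2 => exact add_mem h1 h2
    | single g r =>
      have : MonoidAlgebra.single g r = r • MonoidAlgebra.single g (1 : ℤ) := by simp
      rw [this]
      exact zsmul_mem (hall g) r
  · intro hinj
    set s : W (FF ι) := sg (F := FF ι) (1, 0) ⟨v, by simp [FF]⟩ with hs
    have hs1 : s ≠ 1 := by
      intro h
      have := congrArg (fun g => g.b (1, 0)) h
      apply hv
      simpa [hs, sg_b] using this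
    have h0 : φ (MonoidAlgebra.single s 1 * MonoidAlgebra.single s 1
        - 2 * MonoidAlgebra.single s 1 + 1) = φ 0 := by
      rw [map_add, map_sub, map_mul, map_mul, map_one, map_ofNat, hφ, hs, h1, hfa, map_zero]
      have := congrArg (MonoidAlgebra.mapDomainRingHom ℤ (s0 ι 0)) hv2
      rwa [map_add, map_sub, map_mul, map_mul, map_one, map_ofNat, map_zero] at this
    have h2 := congrArg (fun a => a.coeff s) (hinj h0)
    have h3 : s * s ≠ s := by simpa using hs1
    simp only [two_mul, MonoidAlgebra.single_mul_single, MonoidAlgebra.one_def,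
      MonoidAlgebra.coeff_add, MonoidAlgebra.coeff_sub, MonoidAlgebra.coeff_single,
      Finsupp.add_apply, Finsupp.sub_apply, Finsupp.single_apply, h3, hs1.symm, if_true,
      if_false] at h2
    simp at h2

end Pool.Agent.H64.Hop
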