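import Mathlib

/-! The finite group Y = (A x A) x| D_5, A = (Z/11)^7, and groups that cannot map onto it. -/

set_option autoImplicit false

namespace Pool.Agent.H64.Hop

open DihedralGroup

abbrev AA : Type := Fin 7 → ZMod 11
abbrev DD : Type := DihedralGroup 5

def ee (i : ZMod 5) : ZMod 11 := 3 ^ i.val

lemma ee_add : ∀ i j : ZMod 5, ee (i + j) = ee i * ee j := by decide
lemma ee_zero : ee 0 = 1 := by decide
lemma ee_inv : ∀ i : ZMod 5, i ≠ 0 → ∃ k : ZMod 11, k * (1 - ee i) = 1 := by decide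

def act : DD → AA × AA → AA × AA
  | r i, p => (ee i • p.1, ee (-i) • p.2)
  | sr i, p => (ee (-i) • p.2, ee i • p.1)

lemma act_one (p : AA × AA) : act 1 p = p := by
  rw [one_def]; simp [act, ee_zero]

lemma act_add (g : DD) (p q : AA × AA) : act g (p + q) = act g p + act g q := by
  cases g <;> simp [act]

lemma act_zero (g : DD) : act g 0 = 0 := by
  cases g <;> simp [act]

lemma act_neg (g : DD) (p : AA × AA) : act g (-p) = -act g p := by
  cases g <;> simp [act]

lemma act_mul (g h : DD) (p : AA × AA) : act (g * h) p = act g (act h p) := by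
  cases g <;> cases h <;>
    simp only [r_mul_r, r_mul_sr, sr_mul_r, sr_mul_sr, act, smul_smul, ← ee_add] <;>
    congr 3 <;> ring

@[ext] structure YY where
  w : AA × AA
  g : DD

instance : Finite YY := Finite.of_injective (fun y : YY => (y.w, y.g)) (fun a b h => by
  simp only [Prod.mk.injEq] at h
  exact YY.ext h.1 h.2)

instance : Mul YY := ⟨fun x y => ⟨x.w + act x.g y.w, x.g * y.g⟩⟩
instance : One YY := ⟨⟨0, 1⟩⟩
instance : Inv YY := ⟨fun x => ⟨-act x.g⁻¹ x.w, x.g⁻¹⟩⟩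

@[simp] lemma ymul_w (x y : YY) : (x * y).w = x.w + act x.g y.w := rfl
@[simp] lemma ymul_g (x y : YY) : (x * y).g = x.g * y.g := rfl
@[simp] lemma yone_w : (1 : YY).w = 0 := rfl
@[simp] lemma yone_g : (1 : YY).g = 1 := rfl
@[simp] lemma yinv_w (x : YY) : (x⁻¹).w = -act x.g⁻¹ x.w := rfl
@[simp] lemma yinv_g (x : YY) : (x⁻¹).g = x.g⁻¹ := rfl

instance : Group YY := Group.ofLeftAxioms
  (fun x y z => YY.ext (by simp [act_add, act_mul, add_assoc]) (by simp [mul_assoc]))
  (fun x => YY.ext (by simp [act_one]) (by simp))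
  (fun x => YY.ext (by simp) (by simp))

def piY : YY →* DD where
  toFun y := y.g
  map_one' := rfl
  map_mul' _ _ := rfl

def jY : DD →* YY where
  toFun g := ⟨0, g⟩
  map_one' := rfl
  map_mul' g h := YY.ext (by simp [act_zero]) rfl

def nn (w : AA × AA) : YY := ⟨w, 1⟩

lemma nn_add (p q : AA × AA) : nn (p + q) = nn p * nn q :=
  YY.ext (by simp [nn, act_one]) (by simp [nn])

lemma nn_pow (p : AA × AA) (k : ℕ) : nn p ^ k = nn (k • p) := by
  induction k with
  | zero => simp [nn]; rfl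
  | succ k ih => rw [pow_succ, ih, ← nn_add, succ_nsmul]

lemma nn_conj (g : DD) (p : AA × AA) : jY g * nn p * (jY g)⁻¹ = nn (act g p) :=
  YY.ext (by simp [nn, jY, act_zero]) (by simp [nn, jY])

lemma nsmul_cast (k : ℕ) (p : AA × AA) : k • p = (k : ZMod 11) • p :=
  (Nat.cast_smul_eq_nsmul (ZMod 11) k p).symm

lemma eq_one_of_pow (y : YY) (hg : y.g = 1) (k : ℕ) (l : ZMod 11) (hl : l * (k : ZMod 11) = 1)
    (h : y ^ k = 1) : y = 1 := by
  have : y = nn y.w := YY.ext rfl hg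
  rw [this, nn_pow, nsmul_cast] at h
  have h2 : (k : ZMod 11) • y.w = 0 := congrArg YY.w h
  refine YY.ext ?_ hg
  rw [← one_smul (ZMod 11) y.w, ← hl, mul_smul, h2, smul_zero]; rfl

lemma fix_zero (i : ZMod 5) (hi : i ≠ 0) (p : AA × AA) (h : act (r i) p = p) : p = 0 := by
  obtain ⟨k, hk⟩ := ee_inv i hi
  obtain ⟨l, hl⟩ := ee_inv (-i) (neg_ne_zero.2 hi)
  have h1 : ee i • p.1 = p.1 := congrArg Prod.fst h
  have h2 : ee (-i) • p.2 = p.2 := congrArg Prod.snd h
  refine Prod.ext ?_ ?_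
  · rw [← one_smul (ZMod 11) p.1, ← hk, mul_smul, sub_smul, h1, one_smul, sub_self, smul_zero]; rfl
  · rw [← one_smul (ZMod 11) p.2, ← hl, mul_smul, sub_smul, h2, one_smul, sub_self, smul_zero]; rfl

lemma fpf (y m : YY) (i : ZMod 5) (hi : i ≠ 0) (hy : y.g = r i) (hm : m.g = 1)
    (h : Commute y (m * y * m⁻¹)) : m = 1 := by
  have h1 := congrArg YY.w h.eq
  simp only [ymul_w, ymul_g, yinv_w, yinv_g, hm, hy, act_one, inv_one, one_mul, mul_one, act_add,
    act_neg] at h1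
  have h2 : act (r i) (m.w - act (r i) m.w) = m.w - act (r i) m.w := by
    rw [sub_eq_add_neg, act_add, act_neg]
    linear_combination (exp := 1) h1
  have h3 := fix_zero i hi _ h2
  exact YY.ext (fix_zero i hi _ (sub_eq_zero.1 h3).symm) hm

lemma y_center (z : YY) (h : ∀ y, Commute z y) : z = 1 := by
  have h1 : ∀ g : DD, g * r 1 = r 1 * g → g * sr 0 = sr 0 * g → g = 1 := by decide
  have hg : z.g = 1 := h1 _ (congrArg YY.g (h (jY (r 1))).eq) (congrArg YY.g (h (jY (sr 0))).eq)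
  have h2 := congrArg YY.w (h (jY (r 1))).eq
  simp only [ymul_w, jY, MonoidHom.coe_mk, OneHom.coe_mk, act_zero, add_zero, zero_add] at h2
  exact YY.ext (fix_zero 1 (by decide) _ h2.symm) hg

def nr : DD → Bool
  | r i => i != 0
  | sr _ => false

lemma nr_spec {g : DD} (h : nr g = true) : ∃ i, i ≠ 0 ∧ g = r i := by
  cases g with
  | r i => exact ⟨i, by simpa [nr] using h, rfl⟩
  | sr i => simp [nr] at h

def d5b (c a v : DD) : Bool :=
  !(c ^ 5 == 1) || c == 1 || !(a * c * a == c⁻¹) || !(a * a == 1) || !(a * v * a == v⁻¹) ||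
    !(a * (c⁻¹ * v * c * v * c⁻¹) * a == (c⁻¹ * v * c * v * c⁻¹)⁻¹) || nr v ||
    nr (c⁻¹ * v * c * v * c⁻¹)

lemma d5b_true : ∀ c a v : DD, d5b c a v = true := by decide +kernel

lemma d5 (c a v : DD) (h1 : c ^ 5 = 1) (h2 : c ≠ 1) (h3 : a * c * a = c⁻¹) (h4 : a * a = 1)
    (h5 : a * v * a = v⁻¹)
    (h6 : a * (c⁻¹ * v * c * v * c⁻¹) * a = (c⁻¹ * v * c * v * c⁻¹)⁻¹) :
    (∃ i, i ≠ 0 ∧ v = r i) ∨ (∃ i, i ≠ 0 ∧ c⁻¹ * v * c * v * c⁻¹ = r i) := by
  have := d5b_true c a v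
  unfold d5b at this
  rw [h1, h3, h4, h5, h6] at this
  simp only [beq_self_eq_true, Bool.not_true, Bool.false_or, Bool.or_false, Bool.or_eq_true,
    beq_iff_eq, h2, false_or] at this
  exact this.imp nr_spec nr_spec

def cY : YY := jY (r 1)
def aY : YY := jY (sr 0)

lemma cY_pow : cY ^ 5 = 1 := by
  rw [cY, ← map_pow, show (r 1 : DD) ^ 5 = 1 by decide, map_one]
lemma aY_mul : aY * aY = 1 := by
  rw [aY, ← map_mul, show (sr 0 : DD) * sr 0 = 1 by decide, map_one]
lemma aY_cY : aY * cY * aY = cY⁻¹ := by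
  rw [aY, cY, ← map_mul, ← map_mul, ← map_inv, show (sr 0 : DD) * r 1 * sr 0 = (r 1)⁻¹ by decide]
lemma nn_aY (x : AA) : Commute (nn (x, x)) aY := by
  have := nn_conj (sr 0) (x, x)
  simp only [act, neg_zero, ee_zero, one_smul] at this
  rw [mul_inv_eq_iff_eq_mul] at this
  exact this.symm

lemma y_gen (H : Subgroup YY) (hn : ∀ w, nn w ∈ H) (hc : cY ∈ H) (ha : aY ∈ H) (y : YY) :
    y ∈ H := by
  have e : y = nn y.w * jY y.g := YY.ext (by simp [nn, jY, act_zero]) (by simp [nn, jY])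
  rw [e]
  refine mul_mem (hn _) ?_
  have hr : ∀ i, jY (r i) ∈ H := by
    intro i
    have : (r i : DD) = r 1 ^ i.val := by revert i; decide
    rw [this, map_pow]
    exact pow_mem hc _
  cases y.g with
  | r i => exact hr i
  | sr i =>
    have : (sr i : DD) = sr 0 * r i := by simp
    rw [this, map_mul]
    exact mul_mem ha (hr i)

theorem no_surj {E : Type} [Group E] (ι : YY →* E) (v t : E) (ht : t ^ 3 = 1)
    (hgen : ∀ H : Subgroup E, (∀ y, ι y ∈ H) → v ∈ H → t ∈ H → H = ⊤)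
    (h1 : ι aY * v * ι aY = v⁻¹)
    (h2 : ι aY * ((ι cY)⁻¹ * v * ι cY * v * (ι cY)⁻¹) * ι aY =
      ((ι cY)⁻¹ * v * ι cY * v * (ι cY)⁻¹)⁻¹)
    (h3 : ∀ n, Commute n aY → Commute v (ι n * v * (ι n)⁻¹))
    (h4 : ∀ n, Commute n aY → Commute ((ι cY)⁻¹ * v * ι cY * v * (ι cY)⁻¹)
      (ι n * ((ι cY)⁻¹ * v * ι cY * v * (ι cY)⁻¹) * (ι n)⁻¹))
    (σ : E →* YY) : ¬ Function.Surjective σ := by
  intro hσ
  have hng : ∀ w, (σ (ι (nn w))).g = 1 := by
    intro w
    have h11 : ∀ g : DD, g ^ 11 = 1 → g = 1 := by decide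
    apply h11
    have : nn w ^ 11 = 1 := by
      rw [nn_pow, nsmul_cast, show ((11 : ℕ) : ZMod 11) = 0 by decide, zero_smul]; rfl
    have h := congrArg (fun y => piY (σ (ι y))) this
    simp only [map_pow, map_one] at h
    exact h
  have hconj : ∀ w, σ (ι (nn (act (r 1) w))) =
      σ (ι cY) * σ (ι (nn w)) * (σ (ι cY))⁻¹ := by
    intro w
    rw [← nn_conj, map_mul, map_mul, map_mul, map_mul, map_inv, map_inv]; rfl
  have hN : ∀ w, σ (ι (nn w)) = 1 := by
    by_cases hc : (σ (ι cY)).g = 1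
    · have hc1 : σ (ι cY) = 1 :=
        eq_one_of_pow _ hc 5 9 (by decide) (by rw [← map_pow, ← map_pow, cY_pow, map_one, map_one])
      intro w
      have e : act (r 1) ((6 : ZMod 11) • w.1, (4 : ZMod 11) • w.2) =
          w + ((6 : ZMod 11) • w.1, (4 : ZMod 11) • w.2) := by
        simp only [act, smul_smul]
        rw [show ee 1 * 6 = 1 + 6 by decide, show ee (-1) * 4 = 1 + 4 by decide]
        refine Prod.ext ?_ ?_ <;> simp [add_smul]
      have := hconj ((6 : ZMod 11) • w.1, (4 : ZMod 11) • w.2)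
      rw [e, hc1, nn_add, map_mul, map_mul] at this
      simpa using this
    · have hd : ∀ x : AA, σ (ι (nn (x, x))) = 1 := by
        intro x
        have := d5 (piY (σ (ι cY))) (piY (σ (ι aY))) (piY (σ v))
          (by rw [← map_pow, ← map_pow, ← map_pow, cY_pow]; simp) hc
          (by simpa only [map_mul, map_inv] using congrArg (fun y => piY (σ (ι y))) aY_cY)
          (by simpa only [map_mul, map_one] using congrArg (fun y => piY (σ (ι y))) aY_mul)
          (by simpa only [map_mul, map_inv] using congrArg (fun y => piY (σ y)) h1)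
          (by simpa only [map_mul, map_inv] using congrArg (fun y => piY (σ y)) h2)
        rcases this with ⟨i, hi, h⟩ | ⟨i, hi, h⟩
        · refine fpf (σ v) _ i hi h (hng _) ?_
          simpa only [map_mul, map_inv] using (h3 _ (nn_aY x)).map σ
        · refine fpf (σ ((ι cY)⁻¹ * v * ι cY * v * (ι cY)⁻¹)) _ i hi ?_ (hng _) ?_
          · rw [← h]; simp only [← map_mul, ← map_inv]; rfl
          · have := (h4 _ (nn_aY x)).map σ
            rwa [map_mul σ _ (ι (nn (x, x)))⁻¹, map_mul σ (ι (nn (x, x))), map_inv] at this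
      intro w
      have e : w = (w.1 - (3 : ZMod 11) • (w.2 - w.1), w.1 - (3 : ZMod 11) • (w.2 - w.1)) +
          act (r 1) (w.2 - w.1, w.2 - w.1) := by
        simp only [act]
        rw [show ee 1 = 3 by decide, show ee (-1) = 1 + 3 by decide]
        refine Prod.ext ?_ ?_ <;> simp [add_smul]
      rw [e, nn_add, map_mul, map_mul, hconj, hd, hd]
      simp
  have e43 : (4 : ZMod 11) * ((3 : ℕ) : ZMod 11) = 1 := by decide
  have h3' : ∀ g : DD, g ^ 3 = 1 → g = 1 := by decide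
  haveI : Fact (Nat.Prime 11) := ⟨by norm_num⟩
  let M : Matrix (Fin 6) (Fin 7) (ZMod 11) := Matrix.of
    ![(σ (ι cY)).w.1, (σ (ι cY)).w.2, (σ (ι aY)).w.1, (σ (ι aY)).w.2, (σ v).w.1, (σ v).w.2]
  obtain ⟨l, hl, hl0⟩ := (Submodule.ne_bot_iff _).1
    (LinearMap.ker_ne_bot_of_finrank_lt (f := M.mulVecLin) (by simp))
  have hM : ∀ k, M k ⬝ᵥ l = 0 := fun k => congrFun (LinearMap.mem_ker.1 hl) k
  let H : Subgroup YY :=
    { carrier := {y | y.w.1 ⬝ᵥ l = 0 ∧ y.w.2 ⬝ᵥ l = 0}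
      one_mem' := by simp
      mul_mem' := by
        rintro x y ⟨a1, a2⟩ ⟨b1, b2⟩
        simp only [Set.mem_setOf_eq, ymul_w, Prod.fst_add, Prod.snd_add, add_dotProduct, a1, a2]
        cases x.g <;> simp [act, b1, b2]
      inv_mem' := by
        rintro x ⟨a1, a2⟩
        simp only [Set.mem_setOf_eq, yinv_w]
        cases x.g⁻¹ <;> simp [act, a1, a2] }
  have hH : H.comap σ = ⊤ := by
    refine hgen _ (fun y => y_gen (H.comap (σ.comp ι)) (fun w => ?_) ⟨hM 0, hM 1⟩ ⟨hM 2, hM 3⟩ y)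
      ⟨hM 4, hM 5⟩ ?_
    · show σ (ι (nn w)) ∈ H
      rw [hN]; exact one_mem _
    · show σ t ∈ H
      have e : σ t ^ 3 = 1 := by rw [← map_pow, ht, map_one]
      rw [eq_one_of_pow (σ t) (h3' _ (by
        have := congrArg piY e
        rwa [map_pow, map_one] at this)) 3 4 e43 e]
      exact one_mem _
  obtain ⟨i, hi⟩ := Function.ne_iff.1 hl0
  obtain ⟨x, hx⟩ := hσ (nn (Pi.single i 1, 0))
  have : x ∈ H.comap σ := by rw [hH]; trivial
  have h5 : (σ x).w.1 ⬝ᵥ l = 0 := this.1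
  rw [hx] at h5
  simp only [nn, single_dotProduct, one_mul] at h5
  exact hi h5

end Pool.Agent.H64.Hop
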