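import Pool.Agent.H64.Hop2
import Pool.Agent.H64.Hop3

/-! A Hopfian group whose integral group ring is not Hopfian. -/

set_option autoImplicit false

namespace Pool.Agent.H64.Hop

lemma hopf_of_rf {G : Type} [Group G] [hG : Group.FG G]
    (hrf : ∀ g : G, g ≠ 1 → ∃ (Q : Type) (_ : Group Q) (_ : Finite Q) (h : G →* Q), h g ≠ 1)
    (σ : G →* G) (hσ : Function.Surjective σ) : Function.Injective σ := by
  rw [injective_iff_map_eq_one]
  intro g hg
  by_contra hne
  obtain ⟨Q, _, _, h, hh⟩ := hrf g hne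
  obtain ⟨S, hS⟩ := hG.out
  haveI : Finite (G →* Q) := Finite.of_injective (fun f : G →* Q => fun s : S => f s)
    (fun f f' e => MonoidHom.eq_of_eqOn_dense hS (fun s hs => congrFun e ⟨s, hs⟩))
  have hi : Function.Injective (fun f : G →* Q => f.comp σ) := fun f f' e =>
    MonoidHom.ext fun x => by
      obtain ⟨y, rfl⟩ := hσ x
      exact DFunLike.congr_fun e y
  obtain ⟨h', rfl⟩ := Finite.injective_iff_surjective.1 hi h
  exact hh (by simp [hg])

section ring
variable {R : Type} [Ring R]

lemma bic (p q s s' : R) (h : q * p = 0) :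
    (1 + p * s * q) * (1 + p * s' * q) = 1 + p * (s + s') * q := by
  have : p * s * q * (p * s' * q) = 0 := by
    rw [show p * s * q * (p * s' * q) = p * s * (q * p) * s' * q by noncomm_ring, h]; simp
  rw [mul_add, add_mul, add_mul, this]; noncomm_ring

lemma key_id (a c : R) (ha : a * a = 1) (hc : c * (c * (c * (c * c))) = 1)
    (hac : a * c = c * (c * (c * (c * a)))) :
    c * ((1 + (1 - a) * c * (1 + a)) * c) =
      (1 + (1 + a) * (c * c) * (1 - a)) * c * (1 + (1 + a) * (c * c) * (1 - a)) := by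
  have ha' : ∀ x, a * (a * x) = x := fun x => by rw [← mul_assoc, ha, one_mul]
  have hc' : ∀ x, c * (c * (c * (c * (c * x)))) = x := fun x => by
    have := congrArg (· * x) hc
    simpa only [mul_assoc, one_mul] using this
  have hac' : ∀ x, a * (c * x) = c * (c * (c * (c * (a * x)))) := fun x => by
    have := congrArg (· * x) hac
    simpa only [mul_assoc] using this
  simp only [mul_add, add_mul, mul_sub, sub_mul, mul_assoc, one_mul, mul_one, ha, ha', hc, hc',
    hac, hac']
  abel

/-- facts on a unit of bicyclic shape -/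
lemma unit_facts (z a : Rˣ) (p q s : R) (hz : (z : R) = 1 + p * s * q) (hqp : q * p = 0)
    (hap : (a : R) * (p * s * q) * a = -(p * s * q)) (haa : a * a = 1) :
    a * z * a = z⁻¹ ∧ ∀ n : Rˣ, Commute (n : R) p → Commute (n : R) q →
      Commute z (n * z * n⁻¹) := by
  constructor
  · rw [eq_inv_iff_mul_eq_one]
    ext
    have haa' : (a : R) * a = 1 := by simpa using congrArg Units.val haa
    simp only [Units.val_mul, hz, Units.val_one]
    rw [mul_add (a : R), add_mul ((a : R) * 1), hap, mul_one, haa', show -(p * s * q) = p * (-s) * q by noncomm_ring,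
      bic _ _ _ _ hqp]
    simp
  · intro n hp hq
    have e : ((n * z * n⁻¹ : Rˣ) : R) = 1 + p * (n * s * (n⁻¹ : Rˣ)) * q := by
      simp only [Units.val_mul, hz]
      rw [mul_add, add_mul, mul_one, Units.mul_inv]
      congr 1
      have hq' : q * (n⁻¹ : Rˣ) = (n⁻¹ : Rˣ) * q := (hq.units_inv_left.eq).symm
      simp only [mul_assoc]
      rw [hq', ← mul_assoc (n : R) p, hp.eq, mul_assoc]
    ext
    rw [Units.val_mul z, Units.val_mul _ z, e, hz, bic _ _ _ _ hqp, bic _ _ _ _ hqp, add_comm s]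

end ring

abbrev ZY : Type := MonoidAlgebra ℤ YY

noncomputable def uY : YY →* ZYˣ := (MonoidAlgebra.of ℤ YY).toHomUnits

lemma uY_val (y : YY) : (uY y : ZY) = MonoidAlgebra.single y 1 := rfl

noncomputable abbrev Ar : ZY := uY aY
noncomputable abbrev Cr : ZY := uY cY

lemma Ar_mul : Ar * Ar = 1 := by
  rw [← Units.val_mul, ← map_mul, aY_mul, map_one, Units.val_one]

lemma qp1 : (1 - Ar) * (1 + Ar) = 0 := by
  rw [sub_mul, mul_add, mul_add, Ar_mul]; simp only [one_mul, mul_one]; abel
lemma qp2 : (1 + Ar) * (1 - Ar) = 0 := by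
  rw [add_mul, mul_sub, mul_sub, Ar_mul]; simp only [one_mul, mul_one]; abel

noncomputable def vU : ZYˣ where
  val := 1 + (1 + Ar) * (Cr * Cr) * (1 - Ar)
  inv := 1 + (1 + Ar) * (-(Cr * Cr)) * (1 - Ar)
  val_inv := by rw [bic _ _ _ _ qp1]; simp
  inv_val := by rw [bic _ _ _ _ qp1]; simp

lemma vU_val : (vU : ZY) = 1 + (1 + Ar) * (Cr * Cr) * (1 - Ar) := rfl

lemma uU_val : (((uY cY)⁻¹ * vU * uY cY * vU * (uY cY)⁻¹ : ZYˣ) : ZY) =
    1 + (1 - Ar) * Cr * (1 + Ar) := by
  have hc : Cr * (Cr * (Cr * (Cr * Cr))) = 1 := by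
    simp only [← Units.val_mul, ← map_mul]
    rw [show cY * (cY * (cY * (cY * cY))) = cY ^ 5 by simp [pow_succ, mul_assoc], cY_pow, map_one,
      Units.val_one]
  have hac : Ar * Cr = Cr * (Cr * (Cr * (Cr * Ar))) := by
    simp only [← Units.val_mul, ← map_mul]
    congr 2
  have := key_id Ar Cr Ar_mul hc hac
  rw [← vU_val] at this
  simp only [Units.val_mul]
  rw [Units.mul_inv_eq_iff_eq_mul, mul_assoc, mul_assoc, Units.inv_mul_eq_iff_eq_mul, ← mul_assoc (vU : ZY)]
  exact this.symm

lemma aa : uY aY * uY aY = 1 := by rw [← map_mul, aY_mul, map_one]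

lemma v_facts : uY aY * vU * uY aY = vU⁻¹ ∧ ∀ n : ZYˣ, Commute (n : ZY) (1 + Ar) →
    Commute (n : ZY) (1 - Ar) → Commute vU (n * vU * n⁻¹) := by
  refine unit_facts vU (uY aY) _ _ _ vU_val qp1 ?_ aa
  have h1 : Ar * (1 + Ar) = 1 + Ar := by rw [mul_add, Ar_mul, mul_one, add_comm]
  have h2 : (1 - Ar) * Ar = -(1 - Ar) := by rw [sub_mul, Ar_mul]; simp
  calc Ar * ((1 + Ar) * (Cr * Cr) * (1 - Ar)) * Ar
      = (Ar * (1 + Ar)) * (Cr * Cr) * ((1 - Ar) * Ar) := by simp only [mul_assoc]
    _ = _ := by rw [h1, h2, mul_neg]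

lemma u_facts : uY aY * ((uY cY)⁻¹ * vU * uY cY * vU * (uY cY)⁻¹) * uY aY =
    ((uY cY)⁻¹ * vU * uY cY * vU * (uY cY)⁻¹)⁻¹ ∧ ∀ n : ZYˣ, Commute (n : ZY) (1 - Ar) →
    Commute (n : ZY) (1 + Ar) → Commute ((uY cY)⁻¹ * vU * uY cY * vU * (uY cY)⁻¹)
      (n * ((uY cY)⁻¹ * vU * uY cY * vU * (uY cY)⁻¹) * n⁻¹) := by
  refine unit_facts _ (uY aY) _ _ _ uU_val qp2 ?_ aa
  have h1 : Ar * (1 - Ar) = -(1 - Ar) := by rw [mul_sub, Ar_mul]; simp
  have h2 : (1 + Ar) * Ar = 1 + Ar := by rw [add_mul, Ar_mul, one_mul, add_comm]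
  calc Ar * ((1 - Ar) * Cr * (1 + Ar)) * Ar
      = (Ar * (1 - Ar)) * Cr * ((1 + Ar) * Ar) := by simp only [mul_assoc]
    _ = _ := by rw [h1, h2, neg_mul, neg_mul]

lemma nu_ne : (1 + Ar) * (Cr * Cr) * (1 - Ar) ≠ 0 := by
  classical
  intro h
  have h2 := congrArg (fun z : ZY =>
    (MonoidAlgebra.mapDomainRingHom ℤ piY z).coeff (DihedralGroup.r 2)) h
  simp only [map_mul, map_add, map_sub, map_one, uY_val, MonoidAlgebra.mapDomainRingHom_apply,
    MonoidAlgebra.mapDomain_single, mul_add, add_mul, mul_sub, sub_mul, one_mul, mul_one,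
    MonoidAlgebra.single_mul_single, MonoidAlgebra.coeff_add, MonoidAlgebra.coeff_sub,
    MonoidAlgebra.coeff_single, Finsupp.add_apply, Finsupp.sub_apply, Finsupp.single_apply,
    map_zero] at h2
  revert h2
  simp only [aY, cY, jY, piY, MonoidHom.coe_mk, OneHom.coe_mk]
  decide

lemma vU_pow (k : ℕ) : ((vU ^ k : ZYˣ) : ZY) = 1 + (1 + Ar) * (k • (Cr * Cr)) * (1 - Ar) := by
  induction k with
  | zero => simp
  | succ k ih => rw [pow_succ, Units.val_mul, ih, vU_val, bic _ _ _ _ qp1, succ_nsmul]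

lemma vU_pow_inj : Function.Injective (fun k : ℕ => vU ^ k) := by
  intro k l h
  have h2 := congrArg Units.val h
  simp only [vU_pow, add_right_inj, mul_smul_comm, smul_mul_assoc] at h2
  obtain ⟨y, hy⟩ : ∃ y, ((1 + Ar) * (Cr * Cr) * (1 - Ar)).coeff y ≠ 0 := by
    by_contra h'
    push Not at h'
    exact nu_ne (MonoidAlgebra.coeff_injective (Finsupp.ext h'))
  have h3 := congrArg (fun z : ZY => z.coeff y) h2
  simp only [MonoidAlgebra.coeff_smul_apply] at h3
  rw [nsmul_eq_mul, nsmul_eq_mul] at h3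
  exact_mod_cast mul_right_cancel₀ hy h3

noncomputable def XX : Subgroup ZYˣ := Subgroup.closure (insert vU (Set.range uY))

noncomputable def iX : YY →* XX :=
  uY.codRestrict XX (fun y => Subgroup.subset_closure (Or.inr ⟨y, rfl⟩))

noncomputable def vX : XX := ⟨vU, Subgroup.subset_closure (Or.inl rfl)⟩

lemma clos_gen {G : Type} [Group G] (S : Set G) (H : Subgroup (Subgroup.closure S))
    (h : ∀ s (hs : s ∈ S), ⟨s, Subgroup.subset_closure hs⟩ ∈ H) (x : Subgroup.closure S) :
    x ∈ H := by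
  obtain ⟨x, hx⟩ := x
  induction hx using Subgroup.closure_induction with
  | mem x hx => exact h x hx
  | one => exact one_mem H
  | mul x y _ _ a b => exact mul_mem a b
  | inv x _ a => exact inv_mem a

lemma x_gen (H : Subgroup XX) (h1 : ∀ y, iX y ∈ H) (h2 : vX ∈ H) (x : XX) : x ∈ H := by
  refine clos_gen _ H (fun s hs => ?_) x
  rcases hs with rfl | ⟨y, rfl⟩
  · exact h2
  · exact h1 y

instance : Infinite XX := Infinite.of_injective (fun k : ℕ => vX ^ k) (fun k l h =>
  vU_pow_inj (by simpa [vX] using congrArg Subtype.val h))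

lemma x_sep (T : Finset XX) :
    ∃ (Q : Type) (_ : Group Q) (_ : Finite Q) (h : XX →* Q), Set.InjOn h T := by
  let H : ∀ m : ℕ, XX →* (MonoidAlgebra (ZMod (m + 1)) YY)ˣ := fun m =>
    (Units.map (MonoidAlgebra.mapRingHom YY (Int.castRingHom (ZMod (m + 1)))).toMonoidHom).comp
      XX.subtype
  have key : ∀ s t : XX, ∀ᶠ m in Filter.atTop, H m s = H m t → s = t := by
    intro s t
    by_cases hst : s = t
    · exact Filter.Eventually.of_forall fun _ _ => hst
    obtain ⟨y, hy⟩ : ∃ y, ((s : ZYˣ) : ZY).coeff y ≠ ((t : ZYˣ) : ZY).coeff y := by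
      by_contra h'
      push Not at h'
      exact hst (Subtype.ext (Units.ext (MonoidAlgebra.coeff_injective (Finsupp.ext h'))))
    refine Filter.eventually_atTop.2
      ⟨(((t : ZYˣ) : ZY).coeff y - ((s : ZYˣ) : ZY).coeff y).natAbs, fun m hm h => ?_⟩
    exfalso
    have h2 := congrArg (fun z : (MonoidAlgebra (ZMod (m + 1)) YY)ˣ => z.val.coeff y) h
    simp only [H, MonoidHom.comp_apply, Units.coe_map, Subgroup.coe_subtype,
      RingHom.toMonoidHom_eq_coe, MonoidHom.coe_coe, MonoidAlgebra.coeff_mapRingHom,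
      eq_intCast] at h2
    rw [ZMod.intCast_eq_intCast_iff_dvd_sub] at h2
    have := Int.eq_zero_of_dvd_of_natAbs_lt_natAbs h2 (by omega)
    exact hy (by linarith)
  have : ∀ᶠ m in Filter.atTop, ∀ s ∈ T, ∀ t ∈ T, H m s = H m t → s = t := by
    simp only [Filter.eventually_all_finset]
    exact fun s _ t _ => key s t
  obtain ⟨m, hm⟩ := this.exists
  haveI : Finite (MonoidAlgebra (ZMod (m + 1)) YY) :=
    Finite.of_injective (fun z => (z.coeff : YY → ZMod (m + 1)))
      (fun a b h => MonoidAlgebra.coeff_injective (DFunLike.coe_injective h))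
  exact ⟨_, inferInstance, inferInstance, H m, fun s hs t ht h => hm s hs t ht h⟩

@[ext] structure Aff (X : Type) [Group X] where
  f : MonoidAlgebra (ZMod 3) X
  x : X

section Aff
variable {X X' : Type} [Group X] [Group X']

noncomputable instance : Mul (Aff X) :=
  ⟨fun a b => ⟨a.f + MonoidAlgebra.single a.x 1 * b.f, a.x * b.x⟩⟩
noncomputable instance : One (Aff X) := ⟨⟨0, 1⟩⟩
noncomputable instance : Inv (Aff X) :=
  ⟨fun a => ⟨-(MonoidAlgebra.single a.x⁻¹ 1 * a.f), a.x⁻¹⟩⟩

@[simp] lemma amul_f (a b : Aff X) : (a * b).f = a.f + MonoidAlgebra.single a.x 1 * b.f := rfl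
@[simp] lemma amul_x (a b : Aff X) : (a * b).x = a.x * b.x := rfl
@[simp] lemma aone_f : (1 : Aff X).f = 0 := rfl
@[simp] lemma aone_x : (1 : Aff X).x = 1 := rfl
@[simp] lemma ainv_f (a : Aff X) : (a⁻¹).f = -(MonoidAlgebra.single a.x⁻¹ 1 * a.f) := rfl
@[simp] lemma ainv_x (a : Aff X) : (a⁻¹).x = a.x⁻¹ := rfl

noncomputable instance : Group (Aff X) := Group.ofLeftAxioms
  (fun a b c => Aff.ext (by
    simp only [amul_f, amul_x, mul_add, add_assoc, ← mul_assoc, MonoidAlgebra.single_mul_single,
      mul_one]) (by simp [mul_assoc]))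
  (fun a => Aff.ext (by simp [← MonoidAlgebra.one_def]) (by simp))
  (fun a => Aff.ext (by simp) (by simp))

noncomputable def ja : X →* Aff X where
  toFun x := ⟨0, x⟩
  map_one' := rfl
  map_mul' x y := Aff.ext (by simp) rfl

noncomputable def pa : Aff X →* X where
  toFun a := a.x
  map_one' := rfl
  map_mul' _ _ := rfl

noncomputable def na (f : MonoidAlgebra (ZMod 3) X) : Aff X := ⟨f, 1⟩

lemma na_add (f g : MonoidAlgebra (ZMod 3) X) : na (f + g) = na f * na g :=
  Aff.ext (by simp [na, ← MonoidAlgebra.one_def]) (by simp [na])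

lemma na_pow (f : MonoidAlgebra (ZMod 3) X) (k : ℕ) : na f ^ k = na (k • f) := by
  induction k with
  | zero => simp [na]; rfl
  | succ k ih => rw [pow_succ, ih, ← na_add, succ_nsmul]

lemma na_cube : na (1 : MonoidAlgebra (ZMod 3) X) ^ 3 = 1 := by
  rw [na_pow, MonoidAlgebra.one_def, MonoidAlgebra.smul_single,
    show 3 • (1 : ZMod 3) = 0 by decide, MonoidAlgebra.single_zero]; rfl

lemma a_gen (H : Subgroup (Aff X)) (h1 : ∀ x, ja x ∈ H) (h2 : na 1 ∈ H) : H = ⊤ := by
  rw [eq_top_iff]
  intro a _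
  have e : a = na a.f * ja a.x := Aff.ext (by simp [na, ja]) (by simp [na, ja])
  rw [e]
  refine mul_mem ?_ (h1 _)
  generalize a.f = f
  induction f using MonoidAlgebra.induction_linear with
  | zero => exact one_mem H
  | add f g a b => rw [na_add]; exact mul_mem a b
  | single x r =>
    have e1 : na (MonoidAlgebra.single x (1 : ZMod 3)) = ja x * na 1 * (ja x)⁻¹ :=
      Aff.ext (by simp [na, ja]) (by simp [na, ja])
    have e2 : MonoidAlgebra.single x r = r.val • MonoidAlgebra.single x (1 : ZMod 3) := by simp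
    rw [e2, ← na_pow, e1]
    exact pow_mem (mul_mem (mul_mem (h1 x) h2) (inv_mem (h1 x))) _

lemma a_center [Infinite X] (z : Aff X) (h : ∀ y, Commute z y) : z = 1 := by
  have h1 := congrArg Aff.f (h (na 1)).eq
  simp only [amul_f, na, mul_one, ← MonoidAlgebra.one_def, one_mul] at h1
  rw [add_comm, add_left_inj, MonoidAlgebra.one_def,
    MonoidAlgebra.single_left_inj (by decide)] at h1
  have h2 : ∀ y, z.f.coeff y = z.f.coeff 1 := by
    intro y
    have := congrArg (fun a : Aff X => a.f.coeff y) (h (ja y)).eq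
    simpa [ja, MonoidAlgebra.coeff_single_mul_apply] using this
  refine Aff.ext (MonoidAlgebra.coeff_injective (Finsupp.ext fun y => ?_)) h1
  obtain ⟨y0, hy0⟩ := Infinite.exists_notMem_finset z.f.coeff.support
  rw [h2 y, ← h2 y0]
  simpa using hy0

noncomputable def amap (h : X →* X') : Aff X →* Aff X' where
  toFun a := ⟨MonoidAlgebra.mapDomainRingHom (ZMod 3) h a.f, h a.x⟩
  map_one' := Aff.ext (by simp) (by simp)
  map_mul' a b := Aff.ext (by
    simp only [amul_f, map_add, map_mul]
    simp) (by simp)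

instance [Finite X] : Finite (Aff X) :=
  Finite.of_injective (fun a : Aff X => ((a.f.coeff : X → ZMod 3), a.x)) (fun a b h => by
    simp only [Prod.mk.injEq] at h
    exact Aff.ext (MonoidAlgebra.coeff_injective (DFunLike.coe_injective h.1)) h.2)

end Aff

abbrev EE : Type := Aff XX

lemma e_rf (g : EE) (hg : g ≠ 1) :
    ∃ (Q : Type) (_ : Group Q) (_ : Finite Q) (h : EE →* Q), h g ≠ 1 := by
  classical
  obtain ⟨Q, _, _, h, hh⟩ := x_sep (insert 1 (insert g.x g.f.coeff.support))
  refine ⟨Aff Q, inferInstance, inferInstance, amap h, fun e => hg ?_⟩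
  have e1 : h g.x = h 1 := by rw [map_one]; exact congrArg Aff.x e
  have e2 : Finsupp.mapDomain h g.f.coeff = 0 := congrArg (fun a : Aff Q => a.f.coeff) e
  refine Aff.ext (MonoidAlgebra.coeff_injective (Finsupp.ext fun y => ?_))
    (hh (by simp) (by simp) e1)
  by_contra hy
  have hy' : y ∈ g.f.coeff.support := by simpa using hy
  have := Finsupp.mapDomain_apply' (f := h) _ g.f.coeff (by intro a ha; simp [ha]) hh
    (a := y) (by simp [hy'])
  rw [e2] at this
  exact hy this.symm

noncomputable def iE : YY →* EE := ja.comp iX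
noncomputable def vE : EE := ja vX

lemma e_gen (H : Subgroup EE) (h1 : ∀ y, iE y ∈ H) (h2 : vE ∈ H) (h3 : na 1 ∈ H) : H = ⊤ :=
  a_gen H (x_gen (H.comap ja) h1 h2) h3

lemma iE_inj : Function.Injective iE := by
  intro a b h
  have : uY a = uY b := congrArg (fun e : EE => (e.x : ZYˣ)) h
  exact MonoidAlgebra.of_injective (R := ℤ) (congrArg Units.val this)

instance : Group.FG EE := by
  rw [Group.fg_iff]
  refine ⟨insert vE (insert (na 1) (Set.range iE)), ?_,
    ((Set.finite_range iE).insert _).insert _⟩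
  exact e_gen _ (fun y => Subgroup.subset_closure (by simp))
    (Subgroup.subset_closure (by simp)) (Subgroup.subset_closure (by simp))

instance : Infinite EE := Infinite.of_injective (ja : XX →* EE) (fun _ _ h => congrArg Aff.x h)

lemma comm_r {n : YY} (h : Commute n aY) : Commute (uY n : ZY) Ar := (h.map uY).units_val

lemma e1 : iE aY * vE * iE aY = vE⁻¹ := by
  simp only [iE, vE, MonoidHom.comp_apply, ← map_mul, ← map_inv]
  exact congrArg _ (Subtype.ext v_facts.1)

lemma e_no_surj (σ : EE →* YY) : ¬ Function.Surjective σ := by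
  refine no_surj iE vE (na 1) na_cube e_gen e1 ?_ (fun n hn => ?_) (fun n hn => ?_) σ
  · simp only [iE, vE, MonoidHom.comp_apply, ← map_mul ja, ← map_inv ja]
    exact congrArg _ (Subtype.ext u_facts.1)
  · simp only [iE, vE, MonoidHom.comp_apply, ← map_mul ja, ← map_inv ja]
    refine Commute.map ?_ _
    exact Subtype.ext (v_facts.2 (uY n) ((Commute.one_right _).add_right (comm_r hn))
      ((Commute.one_right _).sub_right (comm_r hn))).eq
  · simp only [iE, vE, MonoidHom.comp_apply, ← map_mul ja, ← map_inv ja]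
    refine Commute.map ?_ _
    exact Subtype.ext (u_facts.2 (uY n) ((Commute.one_right _).sub_right (comm_r hn))
      ((Commute.one_right _).add_right (comm_r hn))).eq

lemma tf {G : Type} [Group G] (f : G →* Multiplicative (ℤ × ℤ)) (g : G) (k : ℕ) (hk : k ≠ 0)
    (h : f g ^ k = 1) : f g = 1 := by
  have : k • (f g).toAdd = 0 := by rw [← toAdd_pow, h]; rfl
  rcases smul_eq_zero.1 this with a | a
  · exact absurd a hk
  · exact a

instance : Finite iE.range := Finite.of_surjective _ iE.rangeRestrict_surjective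

lemma ff_cases (n : ℤ) : FF iE n = ⊤ ∨ FF iE n = iE.range := by
  unfold FF; split_ifs <;> simp

theorem main : ∃ (G : Type) (_ : Group G),
    (∀ f : G →* G, Function.Surjective f → Function.Injective f) ∧
    ∃ φ : MonoidAlgebra ℤ G →+* MonoidAlgebra ℤ G,
      Function.Surjective φ ∧ ¬ Function.Injective φ := by
  refine ⟨W (FF iE), inferInstance, hopf ?_ ?_ ?_ ?_ ?_, ?_⟩
  · intro n
    rcases ff_cases n with h | h <;> rw [h]
    · exact Group.fg_of_surjective (f := (Subgroup.topEquiv (G := EE)).symm.toMonoidHom)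
        (Subgroup.topEquiv (G := EE)).symm.surjective
    · infer_instance
  · intro n z
    rcases ff_cases n with h | h <;> rw [h]
    · exact fun _ hz => a_center z (fun y => hz y trivial)
    · rintro ⟨y, rfl⟩ hz
      rw [y_center y (fun y' => iE_inj (by
        rw [map_mul, map_mul]; exact (hz _ ⟨y', rfl⟩).eq)), map_one]
  · intro n
    refine ⟨iE cY, ?_, fun h => ?_⟩
    · rcases ff_cases n with h | h <;> rw [h] <;> simp
    · have := congrArg YY.g (iE_inj (h.trans (map_one iE).symm))
      revert this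
      show (DihedralGroup.r 1 : DD) = 1 → False
      decide
  · intro n
    have fin : ∀ (f : YY →* Multiplicative (ℤ × ℤ)) y, f y = 1 := fun f y =>
      tf f y (Nat.card YY) Nat.card_pos.ne' (by rw [← map_pow, pow_card_eq_one', map_one])
    rcases ff_cases n with h | h <;> rw [h]
    · intro f x
      let f' := f.comp (Subgroup.topEquiv (G := EE)).symm.toMonoidHom
      have : f'.ker = ⊤ := by
        refine e_gen _ (fun y => fin (f'.comp iE) y) ?_ ?_
        · refine tf f' vE 2 (by decide) ?_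
          have h1 := congrArg f' e1
          have h2 : f' (iE aY) = 1 := fin (f'.comp iE) aY
          rw [map_mul, map_mul, h2, one_mul, mul_one, map_inv, eq_inv_iff_mul_eq_one] at h1
          rw [pow_two, h1]
        · exact tf f' _ 3 (by decide) (by rw [← map_pow, na_cube, map_one])
      have h3 : (x : EE) ∈ f'.ker := by rw [this]; trivial
      exact h3
    · rintro f ⟨_, y, rfl⟩
      exact fin (f.comp iE.rangeRestrict) y
  · intro m n
    rcases ff_cases m with h | h <;> rcases ff_cases n with h' | h' <;> rw [h, h'] <;> intro ψ hψ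
    · have := hopf_of_rf e_rf (ψ.comp (Subgroup.topEquiv (G := EE)).symm.toMonoidHom)
        ((MonoidHom.range_eq_top.1 hψ).comp (Subgroup.topEquiv (G := EE)).symm.surjective)
      exact Function.Injective.of_comp_right this (Subgroup.topEquiv (G := EE)).symm.surjective
    · exfalso
      refine e_no_surj ((MonoidHom.ofInjective iE_inj).symm.toMonoidHom.comp
        ((ψ.codRestrict iE.range (fun x => by rw [← hψ]; exact ⟨x, rfl⟩)).comp
          (Subgroup.topEquiv (G := EE)).symm.toMonoidHom)) ?_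
      refine (MonoidHom.ofInjective iE_inj).symm.surjective.comp ?_
      rintro ⟨z, hz⟩
      rw [← hψ] at hz
      obtain ⟨x, rfl⟩ := hz
      exact ⟨x, rfl⟩
    · exfalso
      haveI := Finite.of_surjective ψ (MonoidHom.range_eq_top.1 hψ)
      exact not_finite EE
    · have : Function.Surjective
          (ψ.codRestrict iE.range (fun x => hψ.le ⟨x, rfl⟩)) := by
        rintro ⟨z, hz⟩
        obtain ⟨x, rfl⟩ := hψ.ge hz
        exact ⟨x, rfl⟩
      have h2 := Finite.injective_iff_surjective.2 this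
      exact fun a b hab => h2 (Subtype.ext hab)
  · refine nonhopf iE ((Units.coeHom ZY).comp (XX.subtype.comp pa)) (fun y => rfl) vE ?_ ?_
    · intro h
      have h1 : vU = 1 := congrArg (fun e : EE => (e.x : ZYˣ)) h
      have := vU_pow_inj (a₁ := 1) (a₂ := 0) (by simp [h1])
      omega
    · show (vU : ZY) * vU - 2 * vU + 1 = 0
      rw [vU_val, bic _ _ _ _ qp1]
      noncomm_ring

end Pool.Agent.H64.Hop
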