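import Pool.Agent.H64.FBI3

set_option autoImplicit false

namespace Pool.Agent.H64.FBI

open scoped commutatorElement
open Pool.Agent.H64.Zub RegularWreathProduct Filter

theorem chain2 (p n : ℕ) [Fact p.Prime] : ∃ (H : Type) (_ : Group H) (_ : Finite H),
    IsPGroup p H ∧ (∀ x : H, x ^ p ^ 5 = 1) ∧
    (∀ k, 2 * k < n + 1 → ∀ g : ℕ → H, cp g k ^ p ^ 2 = 1) ∧
    ∃ g : ℕ → H, cp g (n + 1) ^ p ^ 2 ≠ 1 := by
  obtain ⟨H, _, _, π, hH, hπ, h⟩ := core (hs_p (p := p) (n := n)) (zt 1) (zt_p 1) Lam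
  have hp : p.Prime := Fact.out
  refine ⟨H, inferInstance, inferInstance, hH, fun x => ?_, fun k hk g => ?_, ?_⟩
  · have a1 : ∀ (y : Hs p n) (m : ℕ), (y ^ m).v = m • y.v ∧ (y ^ m).w = m • y.w := fun y m => by
      induction m with
      | zero => simp
      | succ m ih => simp [pow_succ, ih.1, ih.2, succ_nsmul, add_mul]
    have a2 : ∀ y : Hs p n, y ^ p ^ 2 = 1 := fun y => by
      have : y ^ p = zt (y ^ p).A := by
        ext1
        · rw [(a1 y p).1]; ext; simp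
        · rw [(a1 y p).2]; ext; simp
        · rfl
      rw [pow_two, pow_mul, this, zt_p]
    have a3 : ∀ w : Multiplicative (ZMod p) ≀ᵣ Hs p n, w ^ p ^ 3 = 1 := fun w => by
      have e : (w ^ p ^ 2).right = 1 := (map_pow rightHom w _).trans (a2 _)
      rw [pow_succ, pow_mul, eq_bs _ e, ← map_pow, ← map_one bs]
      congr 1
      ext s
      exact (by rw [Pi.pow_apply, toAdd_pow]; simp)
    have e : π (x ^ p ^ 3) = 1 := by rw [map_pow, a3]
    have := (h (x ^ p ^ 3) (by rw [e]; simp)).2 fun t => by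
      rw [e, one_pow, ← map_zero (Lam (p := p) (n := n))]
      congr 1
      ext s
      exact Finset.prod_eq_zero (Finset.mem_range.2 hp.pos) rfl
    rwa [← pow_mul, ← pow_add] at this
  · obtain ⟨A, hA, hr⟩ := cp_zt (fun i => (π (g i)).right) k
    obtain ⟨r, h0, hr'⟩ := exists_r (fun i => (π (g i)).right) k hk
    have h1 : (π (cp g k)).right = zt A :=
      (map_cp (RegularWreathProduct.rightHom.comp π) g k).trans hA
    exact (h _ (by rw [h1, zt_p])).2 (vanish _ A h1 r h0 (hr r hr'))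
  · obtain ⟨u, h1, h2⟩ := nonvanish (p := p) (n := n)
    choose g hg using fun i => hπ (u i)
    have h3 : π (cp g (n + 1)) = cp u (n + 1) := by simp only [map_cp, hg]
    refine ⟨g, fun h4 => ?_⟩
    have := (h _ (by rw [h3, h1, zt_p])).1 h4 1
    rw [h3, h2] at this
    exact one_ne_zero this

/-- even variables -/
def evn : FreeGroup ℕ →* FreeGroup ℕ := FreeGroup.lift fun i => FreeGroup.of (2 * i)

/-- odd variables -/
def odd : FreeGroup ℕ →* FreeGroup ℕ := FreeGroup.lift fun i => FreeGroup.of (2 * i + 1)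

/-- commutator in disjoint variables -/
def cm (a b : FreeGroup ℕ) : FreeGroup ℕ := ⁅evn a, odd b⁆

theorem law_cm {G : Type} [Group G] {a b : FreeGroup ℕ} :
    Law G (cm a b) ↔ ∀ f g : FreeGroup ℕ →* G, ⁅f a, g b⁆ = 1 := by
  refine ⟨fun h f g => ?_, fun h f => by
    rw [cm, map_commutatorElement]; exact h (f.comp evn) (f.comp odd)⟩
  let k : FreeGroup ℕ →* G := FreeGroup.lift fun i =>
    if i % 2 = 0 then f (FreeGroup.of (i / 2)) else g (FreeGroup.of (i / 2))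
  have e1 : k.comp evn = f := by
    ext i; simp [k, evn]
  have e2 : k.comp odd = g := by
    ext i
    have : (2 * i + 1) / 2 = i := by omega
    simp [k, odd, this]
  have := h k
  rwa [cm, map_commutatorElement, ← MonoidHom.comp_apply, ← MonoidHom.comp_apply, e1, e2] at this

theorem Law.cm_left {G : Type} [Group G] {a : FreeGroup ℕ} (h : Law G a) (b : FreeGroup ℕ) :
    Law G (cm a b) := law_cm.2 fun f g => by rw [h f]; simp

theorem Law.cm_right {G : Type} [Group G] {b : FreeGroup ℕ} (h : Law G b) (a : FreeGroup ℕ) :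
    Law G (cm a b) := law_cm.2 fun f g => by rw [h g]; simp

theorem Law.prod {G H : Type} [Group G] [Group H] {a : FreeGroup ℕ} (h : Law G a) (h' : Law H a) :
    Law (G × H) a := fun f =>
  Prod.ext (h ((MonoidHom.fst _ _).comp f)) (h' ((MonoidHom.snd _ _).comp f))

theorem Law.fst {G H : Type} [Group G] [Group H] {a : FreeGroup ℕ} (h : Law (G × H) a) :
    Law G a := h.surj (MonoidHom.fst _ _) Prod.fst_surjective

theorem Law.snd {G H : Type} [Group G] [Group H] {a : FreeGroup ℕ} (h : Law (G × H) a) :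
    Law H a := h.surj (MonoidHom.snd _ _) Prod.snd_surjective

theorem Law.wr {A D : Type} [CommGroup A] [Group D] {a b : FreeGroup ℕ} (h : Law D a)
    (h' : Law D b) : Law (A ≀ᵣ D) (cm a b) := law_cm.2 fun f g => by
  rw [eq_bs (f a) (h (rightHom.comp f)), eq_bs (g b) (h' (rightHom.comp g)),
    ← map_commutatorElement, commutatorElement_eq_one_iff_mul_comm.2 (mul_comm _ _), map_one]

open Classical in
/-- extension by zero -/
noncomputable def ext0 {A D E : Type} [Group A] [Group D] [Group E] : A ≀ᵣ D →* A ≀ᵣ (D × E) where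
  toFun w := ⟨fun s => if s.2 = 1 then w.left s.1 else 1, (w.right, 1)⟩
  map_one' := by ext <;> simp
  map_mul' w w' := by
    ext s
    · by_cases h : s.2 = 1 <;> simp [h]
    · simp
    · simp

theorem nonlaw {A D E : Type} [Group A] [Group D] [Group E] {a b : FreeGroup ℕ} (h : Law D a)
    (h1 : ¬ Law (A ≀ᵣ D) a) (h2 : ¬ Law E b) :
    ¬ Law (A ≀ᵣ (D × E)) (cm a b) ∧ ¬ Law (A ≀ᵣ (D × E)) (cm b a) := by
  obtain ⟨f, hf⟩ := not_forall.1 h1
  obtain ⟨g, hg⟩ := not_forall.1 h2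
  have e : (f a).right = 1 := h (rightHom.comp f)
  have key : ⁅((ext0 : A ≀ᵣ D →* A ≀ᵣ (D × E)).comp f) a,
      (((inl : D × E →* A ≀ᵣ (D × E)).comp (MonoidHom.inr D E)).comp g) b⁆ ≠ 1 := by
    intro H
    apply hf
    refine RegularWreathProduct.ext (funext fun x => ?_) e
    have := congrFun (congrArg RegularWreathProduct.left H) (x, 1)
    simpa [commutatorElement_def, ext0, e, hg] using this
  exact ⟨fun H => key (law_cm.1 H _ _), fun H => key (by
    rw [← commutatorElement_inv, law_cm.1 H, inv_one])⟩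

theorem law_unit (a : FreeGroup ℕ) : Law PUnit a := fun _ => rfl

theorem not_law_pow {G : Type} [Group G] {g : G} {q : ℕ} (h : g ^ q ≠ 1) :
    ¬ Law G (FreeGroup.of 0 ^ q) := fun H => h (by simpa using H (FreeGroup.lift fun _ => g))

/-- iterated commutator -/
def aa : ℕ → FreeGroup ℕ
  | 0 => FreeGroup.of 0 ^ 1
  | c + 1 => cm (aa c) (FreeGroup.of 0 ^ 1)

theorem aa_mem {G : Type} [Group G] (c : ℕ) : ∀ f : FreeGroup ℕ →* G,
    f (aa c) ∈ (⊤ : Subgroup G).lowerCentralSeries c := by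
  induction c with
  | zero => intro f; trivial
  | succ c ih =>
    intro f
    rw [aa, cm, map_commutatorElement]
    exact Subgroup.commutator_mem_commutator (ih (f.comp evn)) trivial

theorem law_aa {G : Type} [Group G] [Group.IsNilpotent G] {c : ℕ}
    (h : Group.nilpotencyClass G ≤ c) : Law G (aa c) := fun f => by
  have := aa_mem c f
  rwa [Subgroup.lowerCentralSeries_eq_bot_iff_nilpotencyClass_le.2 h, Subgroup.mem_bot] at this

theorem exists_L (c : ℕ) : ∃ (L : Type) (_ : Group L) (_ : Finite L), IsPGroup 3 L ∧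
    (∀ x : L, x ^ 3 ^ 2 = 1) ∧ ¬ Law L (aa c) := by
  have h3 : ∀ x : Multiplicative (ZMod 3), x ^ 3 = 1 := by decide
  have hn : ¬ Law (Multiplicative (ZMod 3)) (FreeGroup.of 0 ^ 1) :=
    not_law_pow (g := Multiplicative.ofAdd 1) (by decide)
  haveI : Fact (Nat.Prime 3) := ⟨Nat.prime_three⟩
  have : ∃ (D : Type) (_ : CommGroup D) (_ : Finite D), (∀ x : D, x ^ 3 = 1) ∧ Law D (aa c) ∧
      ¬ Law (Multiplicative (ZMod 3) ≀ᵣ D) (aa c) := by
    induction c with
    | zero =>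
      refine ⟨PUnit, inferInstance, inferInstance, fun _ => rfl, law_unit _, fun h => hn ?_⟩
      exact h.inj (bs.comp (Pi.constMonoidHom PUnit _)) fun a b h =>
        congrFun (congrArg RegularWreathProduct.left h) 1
    | succ c ih =>
      obtain ⟨D, _, _, h1, h2, h4⟩ := ih
      exact ⟨D × Multiplicative (ZMod 3), inferInstance, inferInstance,
        fun x => Prod.ext (h1 _) (h3 _),
        law_cm.2 fun f g => commutatorElement_eq_one_iff_mul_comm.2 (mul_comm _ _),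
        (nonlaw h2 h4 hn).1⟩
  obtain ⟨D, _, _, h1, -, h4⟩ := this
  refine ⟨_, inferInstance, inferInstance, isPGroup_wr (fun x => ⟨1, h3 x⟩) (fun x => ⟨1, h1 x⟩),
    fun w => ?_, h4⟩
  have e : (w ^ 3).right = 1 := (map_pow rightHom w _).trans (h1 _)
  rw [pow_two, pow_mul, eq_bs _ e, ← map_pow, ← map_one bs]
  congr 1
  funext s
  exact h3 _

theorem nl_int {D : Type} [Group D] {q : ℕ} (hq : q ≠ 0) :
    ¬ Law (Multiplicative ℤ ≀ᵣ D) (FreeGroup.of 0 ^ q) := fun h =>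
  not_law_pow (g := Multiplicative.ofAdd (1 : ℤ)) (by
    rw [← ofAdd_nsmul]; simpa using hq)
    (h.inj (bs.comp (Pi.constMonoidHom D _)) fun a b h =>
      congrFun (congrArg RegularWreathProduct.left h) 1)

/-- an independent system of laws -/
theorem indep : ∃ (E : ℕ → Type) (_ : ∀ k, Group (E k)) (t : ℕ → FreeGroup ℕ) (u : FreeGroup ℕ),
    (∀ k, ¬ Law (E k) (t k)) ∧ (∀ j k, j ≠ k → Law (E j) (t k)) ∧ (∀ k, Law (E k) u) ∧
    ∀ k, ¬ Law (Multiplicative ℤ ≀ᵣ (PUnit × E k)) u := by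
  haveI : Fact (Nat.Prime 3) := ⟨Nat.prime_three⟩
  choose H iH fH pH eH h1 g hg using fun n => chain2 3 n
  choose L iL fL pL eL hL using exists_L
  have pP : ∀ n c, IsPGroup 3 (H n × L c) := fun n c x => ⟨5, Prod.ext (eH _ _) (by
    show x.2 ^ _ = 1
    rw [show 3 ^ 5 = 3 ^ 2 * 3 ^ 3 by norm_num, pow_mul, eL, one_pow])⟩
  have nP : ∀ n c, Group.IsNilpotent (H n × L c) := fun n c => (pP n c).isNilpotent
  let c : ℕ → ℕ := fun k => Nat.rec 0
    (fun k a => a + Group.nilpotencyClass (H (4 ^ k) × L a)) k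
  have hc : Monotone c := monotone_nat_of_le_succ fun k => Nat.le_add_right _ _
  let P : ℕ → Type := fun k => H (4 ^ k) × L (c k)
  let u : FreeGroup ℕ := FreeGroup.of 0 ^ 3 ^ 5
  let v : ℕ → FreeGroup ℕ := fun k => cp FreeGroup.of (4 ^ k + 1) ^ 3 ^ 2
  have lu : ∀ k, Law (P k) u := fun k f => by
    rw [map_pow]
    exact Prod.ext (eH _ _) (by
      show (f (FreeGroup.of 0)).2 ^ _ = 1
      rw [show 3 ^ 5 = 3 ^ 2 * 3 ^ 3 by norm_num, pow_mul, eL, one_pow])
  have lv : ∀ j k, k < j → Law (P j) (v k) := fun j k h => Law.prod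
    (fun f => by
      rw [map_pow, map_cp]
      refine h1 _ _ ?_ _
      have := Nat.pow_le_pow_right (show 0 < 4 by norm_num) (show k + 1 ≤ j from h)
      have : 0 < 4 ^ k := by positivity
      rw [pow_succ] at *
      omega)
    (fun f => by rw [map_pow, eL])
  have nv : ∀ k, ¬ Law (P k) (v k) := fun k h => hg (4 ^ k) (by
    simpa [v, map_cp] using h.fst (FreeGroup.lift (g (4 ^ k))))
  have la : ∀ j k, j < k → Law (P j) (aa (c k)) := fun j k h =>
    law_aa (le_trans (Nat.le_add_left _ _) (hc (show j + 1 ≤ k from h)))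
  have na : ∀ k, ¬ Law (P k) (aa (c k)) := fun k h => hL _ h.snd
  have l3 : ∀ k w, Law (P k) w → Law ((PUnit × P k) × P k) w := fun k w h =>
    ((law_unit w).prod h).prod h
  have hq : (3 ^ 5 : ℕ) ≠ 0 := by norm_num
  refine ⟨fun k => Multiplicative ℤ ≀ᵣ ((PUnit × P k) × P k), inferInstance,
    fun k => cm (cm u (v k)) (aa (c k)), cm u u, fun k => ?_, fun j k h => ?_,
    fun k => (l3 k _ (lu k)).wr (l3 k _ (lu k)),
    fun k => (nonlaw (law_unit u) (nl_int hq) (nl_int hq)).1⟩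
  · exact (nonlaw (((law_unit u).prod (lu k)).cm_left _)
      (nonlaw (law_unit u) (nl_int hq) (nv k)).1 (na k)).1
  · rcases lt_or_gt_of_ne h with h | h
    · exact ((l3 j _ (lu j)).cm_left _).wr (l3 j _ (la j k h))
    · exact ((l3 j _ (lu j)).wr (l3 j _ (lv j k h))).cm_left _

theorem split : ∃ (C : ∀ (G : Type) [Group G], Prop), (∃ w, ¬ ∀ (G : Type) [Group G], C G → Law G w) ∧
    ∀ (W : Subgroup (FreeGroup ℕ)), (∀ φ : FreeGroup ℕ →* FreeGroup ℕ, ∀ w ∈ W, φ w ∈ W) →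
      ∀ w ∈ W, (¬ ∀ (G : Type) [Group G], C G → Law G w) →
        ∃ w₁ ∈ W, ∃ w₂ ∈ W, (¬ ∀ (G : Type) [Group G], C G → Law G w₁) ∧
          (¬ ∀ (G : Type) [Group G], C G → Law G w₂) ∧
          ∀ (G : Type) [Group G], C G → Law G w₁ ∨ Law G w₂ := by
  obtain ⟨E, _, t, u, h1, h2, h3, h4⟩ := indep
  let Adm : ∀ (D : Type) [Group D], ℕ → Prop := fun D _ N => Law D u ∧
    (∀ n, Law D (t (2 * n)) ∨ Law D (t (2 * n + 1))) ∧ ∀ k, N ≤ k → Law D (t k)
  have step : ∀ (D D' : Type) [Group D] [Group D'] (N k : ℕ), Adm D N → 2 * N ≤ k →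
      (∀ w, Law D w → Law (E k) w → Law D' w) → Adm D' (k + 1) := by
    intro D D' _ _ N k ⟨a, b, c⟩ hk h
    refine ⟨h _ a (h3 k), fun n => ?_, fun j hj => h _ (c j (by omega)) (h2 k j (by omega))⟩
    by_cases e1 : k = 2 * n
    · exact Or.inr (h _ (c _ (by omega)) (h2 _ _ (by omega)))
    by_cases e2 : k = 2 * n + 1
    · exact Or.inl (h _ (c _ (by omega)) (h2 _ _ (by omega)))
    exact (b n).imp (fun x => h _ x (h2 _ _ e1)) fun x => h _ x (h2 _ _ e2)
  let C : ∀ (G : Type) [Group G], Prop := fun G _ => ∃ (D : Type) (_ : Group D) (N : ℕ),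
    Adm D N ∧ Nonempty (G ≃* Multiplicative ℤ ≀ᵣ D)
  have hC : ∀ w, (∀ (G : Type) [Group G], C G → Law G w) ↔
      ∀ (D : Type) [Group D] (N : ℕ), Adm D N → Law (Multiplicative ℤ ≀ᵣ D) w := fun w =>
    ⟨fun h D _ N hD => h _ ⟨D, _, N, hD, ⟨MulEquiv.refl _⟩⟩,
      fun h G _ hG => by
        obtain ⟨D, _, N, hD, ⟨e⟩⟩ := hG
        exact (h D N hD).inj e.toMonoidHom e.injective⟩
  refine ⟨C, ⟨FreeGroup.of 0 ^ 1, fun h => nl_int one_ne_zero ((hC _).1 h PUnit 0
    ⟨law_unit _, fun _ => Or.inl (law_unit _), fun _ _ => law_unit _⟩)⟩, fun W hW w hw hn => ?_⟩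
  have cW : ∀ a ∈ W, ∀ b, cm a b ∈ W := fun a ha b => by
    have h := hW evn a ha
    have := mul_mem h (hW (MulAut.conj (odd b)).toMonoidHom _ (inv_mem h))
    simpa [cm, commutatorElement_def, mul_assoc] using this
  obtain ⟨w, hw, hl, D, _, N, hD, hn⟩ : ∃ w ∈ W,
      (∀ (D : Type) [Group D] (N : ℕ), Adm D N → Law D w) ∧
      ∃ (D : Type) (_ : Group D) (N : ℕ), Adm D N ∧ ¬ Law (Multiplicative ℤ ≀ᵣ D) w := by
    by_cases h : ∀ (D : Type) [Group D] (N : ℕ), Adm D N → Law D w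
    · refine ⟨w, hw, h, ?_⟩
      by_contra! H
      exact hn ((hC w).2 fun D _ N hD => H D _ N hD)
    · obtain ⟨D, _, N, hD, hn⟩ : ∃ (D : Type) (_ : Group D) (N : ℕ), Adm D N ∧ ¬ Law D w := by
        by_contra! H
        exact h fun D _ N hD => H D _ N hD
      exact ⟨cm w u, cW w hw u, fun D _ N hD => hD.1.cm_right _, (PUnit × E (2 * N)) × D,
        inferInstance, _, step D _ N (2 * N) hD le_rfl fun w a b => ((law_unit w).prod b).prod a,
        (nonlaw ((law_unit u).prod (h3 _)) (h4 _) hn).2⟩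
  have nn : ∀ k, 2 * N ≤ k → ¬ ∀ (G : Type) [Group G], C G → Law G (cm w (t k)) := fun k hk h =>
    (nonlaw (hl D N hD) hn (h1 k)).1 ((hC _).1 h _ _ (step D _ N k hD hk fun w a b => a.prod b))
  refine ⟨_, cW w hw _, _, cW w hw _, nn (2 * N) le_rfl, nn (2 * N + 1) (by omega), ?_⟩
  rintro G _ ⟨D', _, N', hD', ⟨e⟩⟩
  exact (hD'.2.1 N).imp (fun h => ((hl D' N' hD').wr h).inj e.toMonoidHom e.injective)
    fun h => ((hl D' N' hD').wr h).inj e.toMonoidHom e.injective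

/-- laws of a class -/
def LawsOf (C : ∀ (G : Type) [Group G], Prop) : Subgroup (FreeGroup ℕ) where
  carrier := {w | ∀ (G : Type) [Group G], C G → Law G w}
  one_mem' := fun _ _ _ f => map_one f
  mul_mem' := fun ha hb G _ h f => by rw [map_mul, ha G h, hb G h, one_mul]
  inv_mem' := fun ha G _ h f => by rw [map_inv, ha G h, inv_one]

theorem lawsOf_inv (C : ∀ (G : Type) [Group G], Prop) (φ : FreeGroup ℕ →* FreeGroup ℕ) :
    ∀ w ∈ LawsOf C, φ w ∈ LawsOf C := fun _ h G _ hG f => h G hG (f.comp φ)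

theorem final2 : ¬ (∀ A : Subgroup (FreeGroup ℕ),
      (∀ φ : FreeGroup ℕ →* FreeGroup ℕ, ∀ w ∈ A, φ w ∈ A) →
      ∃ S : Set (Subgroup (FreeGroup ℕ)),
        (∀ N ∈ S, ∀ φ : FreeGroup ℕ →* FreeGroup ℕ, ∀ w ∈ N, φ w ∈ N) ∧
        sInf S = A ∧
        (∀ N ∈ S, sInf (S \ {N}) ≠ A) ∧
        (∀ N ∈ S, ¬ ∃ M₁ M₂ : Subgroup (FreeGroup ℕ),
            (∀ φ : FreeGroup ℕ →* FreeGroup ℕ, ∀ w ∈ M₁, φ w ∈ M₁) ∧
            (∀ φ : FreeGroup ℕ →* FreeGroup ℕ, ∀ w ∈ M₂, φ w ∈ M₂) ∧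
            N < M₁ ∧ N < M₂ ∧ M₁ ⊓ M₂ = N)) := by
  intro h
  obtain ⟨C, ⟨w0, hw0⟩, hs⟩ := split
  obtain ⟨S, s1, s2, s3, s4⟩ := h (LawsOf C) (lawsOf_inv C)
  obtain ⟨N, hN⟩ : S.Nonempty := by
    by_contra H
    rw [Set.not_nonempty_iff_eq_empty.1 H, sInf_empty] at s2
    exact hw0 (show w0 ∈ LawsOf C from s2 ▸ trivial)
  set W := sInf (S \ {N}) with hWd
  have AW : LawsOf C ≤ W := s2 ▸ sInf_le_sInf Set.diff_subset
  have AN : LawsOf C ≤ N := s2 ▸ sInf_le hN
  have WN : ∀ x ∈ W, x ∈ N → x ∈ LawsOf C := fun x h1 h2 => by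
    rw [← s2, Subgroup.mem_sInf]
    intro M hM
    by_cases e : M = N
    · exact e ▸ h2
    · exact Subgroup.mem_sInf.1 h1 M ⟨hM, e⟩
  have hW : ∀ φ : FreeGroup ℕ →* FreeGroup ℕ, ∀ w ∈ W, φ w ∈ W := fun φ w hw =>
    Subgroup.mem_sInf.2 fun M hM => s1 M hM.1 φ w (Subgroup.mem_sInf.1 hw M hM)
  obtain ⟨w, w1, w2⟩ := SetLike.exists_of_lt (lt_of_le_of_ne AW (s3 N hN).symm)
  obtain ⟨a, aW, b, bW, na, nb, hab⟩ := hs W hW w w1 w2
  let X : FreeGroup ℕ → Subgroup (FreeGroup ℕ) := fun a =>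
    LawsOf (fun G _ => C G ∧ Law G a) ⊓ W
  have hX : ∀ a, ∀ φ : FreeGroup ℕ →* FreeGroup ℕ, ∀ w ∈ N ⊔ X a, φ w ∈ N ⊔ X a := fun a φ =>
    (sup_le (fun w hw => Subgroup.mem_sup_left (s1 N hN φ w hw))
      (fun w hw => Subgroup.mem_sup_right ⟨lawsOf_inv _ φ w hw.1, hW φ w hw.2⟩) :
        N ⊔ X a ≤ (N ⊔ X a).comap φ)
  have lt : ∀ a ∈ W, a ∉ LawsOf C → N < N ⊔ X a := fun a aW na =>
    lt_of_le_of_ne le_sup_left fun e => na (WN a aW (e ▸ Subgroup.mem_sup_right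
      ⟨fun G _ h => h.2, aW⟩))
  haveI : N.Normal := ⟨fun n hn g => s1 N hN (MulAut.conj g).toMonoidHom n hn⟩
  refine s4 N hN ⟨_, _, hX a, hX b, lt a aW na, lt b bW nb, le_antisymm ?_ (le_inf le_sup_left
    le_sup_left)⟩
  rintro x ⟨xa, xb⟩
  obtain ⟨n, hn, y, hy, rfl⟩ := Subgroup.mem_sup_of_normal_left.1 xa
  obtain ⟨n', hn', y', hy', e⟩ := Subgroup.mem_sup_of_normal_left.1 xb
  have k : y' * y⁻¹ ∈ LawsOf C := WN _ (mul_mem hy'.2 (inv_mem hy.2)) (by
    have : y' * y⁻¹ = n'⁻¹ * n := by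
      rw [mul_inv_eq_iff_eq_mul, mul_assoc, ← e]; simp
    rw [this]; exact mul_mem (inv_mem hn') hn)
  refine mul_mem hn (AN fun G _ hG f => ?_)
  rcases hab G hG with h | h
  · exact hy.1 G ⟨hG, h⟩ f
  · have := k G hG f
    rwa [map_mul, hy'.1 G ⟨hG, h⟩ f, one_mul, map_inv, inv_eq_one] at this

end Pool.Agent.H64.FBI
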