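import Mathlib

/-! An ordered ring of skew power series, ordered Laurent polynomials over it, and an Ore property. -/

set_option autoImplicit false

namespace Pool.Agent.H64.Kok
open Finset

/-- A positive cone of a (not necessarily commutative) ring. -/
structure OP (A : Type) [Ring A] where
  P : A → Prop
  add : ∀ a b, P a → P b → P (a + b)
  mul : ∀ a b, P a → P b → P (a * b)
  tri : ∀ a, a ≠ 0 → P a ∨ P (-a)
  nz : ¬ P 0

lemma OP.ne {A : Type} [Ring A] (o : OP A) {a : A} (h : o.P a) : a ≠ 0 := fun e => o.nz (e ▸ h)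

lemma OP.nzd {A : Type} [Ring A] (o : OP A) : NoZeroDivisors A := ⟨fun {a b} h => by
  by_contra hc
  push Not at hc
  rcases o.tri a hc.1 with h1 | h1 <;> rcases o.tri b hc.2 with h2 | h2 <;>
    exact o.ne (o.mul _ _ h1 h2) (by simp [h])⟩

abbrev KK := HahnSeries ℤ ℚ

noncomputable def sg : KK →+* KK :=
  HahnSeries.embDomainRingHom (AddMonoidHom.mulLeft (4 : ℤ)) (mul_right_injective₀ (by norm_num))
    (fun _ _ => mul_le_mul_iff_right₀ (by norm_num))

def PK (x : KK) : Prop := 0 < toLex x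

lemma PK_sg {x : KK} (h : PK x) : PK (sg x) := by
  have := (HahnSeries.embDomainOrderEmbedding (R := ℚ) ⟨⟨AddMonoidHom.mulLeft (4 : ℤ),
    mul_right_injective₀ (by norm_num)⟩, mul_le_mul_iff_right₀ (by norm_num)⟩).strictMono h
  have e : toLex (sg 0) < toLex (sg x) := this
  rwa [map_zero] at e

lemma PK_pow {x : KK} (h : PK x) (n : ℕ) : PK ((sg ^ n) x) := by
  induction n with
  | zero => exact h
  | succ n ih => rw [pow_succ']; exact PK_sg ih

lemma sg_coeff (x : KK) (k : ℤ) : (sg x).coeff (4 * k) = x.coeff k :=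
  HahnSeries.embDomain_mk_coeff (f := AddMonoidHom.mulLeft (4 : ℤ)) _ _

lemma sg_coeff' (x : KK) (k : ℤ) (h : k % 4 ≠ 0) : (sg x).coeff k = 0 :=
  HahnSeries.embDomain_of_notMem_range (by
    rintro ⟨j, hj⟩
    have : 4 * j = k := hj
    omega)

noncomputable def ss (i : ℕ) : KK := HahnSeries.single (i : ℤ) 1

lemma sg_indep (f : Fin 4 → KK) (h : ∑ i, sg (f i) * ss i = 0) (i : Fin 4) : f i = 0 := by
  ext k
  have := congrArg (fun x : KK => x.coeff (4 * k + (i : ℕ))) h
  simp only [HahnSeries.coeff_sum, HahnSeries.coeff_zero] at this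
  rw [Finset.sum_eq_single i] at this
  · rwa [ss, HahnSeries.coeff_mul_single_add, sg_coeff, mul_one] at this
  · intro j _ hj
    have e : 4 * k + (i : ℕ) = (4 * k + (i : ℕ) - (j : ℕ)) + (j : ℕ) := by ring
    rw [e, ss, HahnSeries.coeff_mul_single_add, sg_coeff', zero_mul]
    have := Fin.val_ne_of_ne hj
    omega
  · simp

/-- Skew power series with coefficients on the right. -/
def BB : Type := ℕ → KK

noncomputable instance : AddCommGroup BB := inferInstanceAs (AddCommGroup (ℕ → KK))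
noncomputable instance : Mul BB := ⟨fun f g n => ∑ p ∈ antidiagonal n, (sg ^ p.2) (f p.1) * g p.2⟩
noncomputable instance : One BB := ⟨fun n => if n = 0 then 1 else 0⟩

lemma mul_c (f g : BB) (n : ℕ) : (f * g) n = ∑ p ∈ antidiagonal n, (sg ^ p.2) (f p.1) * g p.2 := rfl
lemma one_c (n : ℕ) : (1 : BB) n = if n = 0 then 1 else 0 := rfl
@[simp] lemma add_c (f g : BB) (n : ℕ) : (f + g) n = f n + g n := rfl
@[simp] lemma neg_c (f : BB) (n : ℕ) : (-f) n = -f n := rfl
@[simp] lemma sub_c (f g : BB) (n : ℕ) : (f - g) n = f n - g n := rfl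
@[simp] lemma zero_c (n : ℕ) : (0 : BB) n = 0 := rfl

noncomputable instance : Ring BB := Ring.ofMinimalAxioms add_assoc zero_add neg_add_cancel
  (fun f g h => by
    funext n
    simp only [mul_c, map_sum, map_mul, Finset.sum_mul, Finset.mul_sum, Finset.sum_sigma']
    apply Finset.sum_nbij' (fun ⟨⟨_i, j⟩, ⟨k, l⟩⟩ => ⟨(k, l + j), (l, j)⟩)
      (fun ⟨⟨i, _j⟩, ⟨k, l⟩⟩ => ⟨(i + k, l), (i, k)⟩)
    · rintro ⟨⟨i, j⟩, ⟨k, l⟩⟩ h; simp at h ⊢; omega
    · rintro ⟨⟨i, j⟩, ⟨k, l⟩⟩ h; simp at h ⊢; omega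
    · rintro ⟨⟨i, j⟩, ⟨k, l⟩⟩ h; simp at h ⊢; simp [h.2]
    · rintro ⟨⟨i, j⟩, ⟨k, l⟩⟩ h; simp at h ⊢; simp [h.2]
    · rintro ⟨⟨i, j⟩, ⟨k, l⟩⟩ _
      simp only [add_comm l j, pow_add, RingHom.coe_mul, Function.comp_apply, mul_assoc])
  (fun f => by
    funext n
    rw [mul_c, Finset.sum_eq_single (0, n)]
    · simp [one_c]
    · rintro ⟨i, j⟩ h hne
      rw [one_c, if_neg, map_zero, zero_mul]
      rintro (rfl : i = 0); simp at h; simp [h] at hne
    · simp)
  (fun f => by
    funext n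
    rw [mul_c, Finset.sum_eq_single (n, 0)]
    · simp [one_c]
    · rintro ⟨i, j⟩ h hne
      rw [one_c, if_neg, mul_zero]
      rintro (rfl : j = 0); simp at h; simp [h] at hne
    · simp)
  (fun f g h => by funext n; simp [mul_c, mul_add, Finset.sum_add_distrib])
  (fun f g h => by funext n; simp [mul_c, add_mul, Finset.sum_add_distrib])

@[simp] lemma add_c' (f g : BB) (n : ℕ) : (f + g) n = f n + g n := rfl
@[simp] lemma neg_c' (f : BB) (n : ℕ) : (-f) n = -f n := rfl
@[simp] lemma zero_c' (n : ℕ) : (0 : BB) n = 0 := rfl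
@[simp] lemma sub_c' (f g : BB) (n : ℕ) : (f - g) n = f n - g n := by
  rw [sub_eq_add_neg, add_c', neg_c', sub_eq_add_neg]
lemma sum_c {ι : Type} (s : Finset ι) (f : ι → BB) (n : ℕ) : (∑ i ∈ s, f i) n = ∑ i ∈ s, f i n := by
  classical
  induction s using Finset.induction_on with
  | empty => rfl
  | insert a s h ih => rw [Finset.sum_insert h, Finset.sum_insert h, add_c', ih]

lemma mul_low {f g : BB} {m k : ℕ} (hf : ∀ i < m, f i = 0) (hg : ∀ i < k, g i = 0) :
    (f * g) (m + k) = (sg ^ k) (f m) * g k ∧ ∀ i < m + k, (f * g) i = 0 := by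
  constructor
  · rw [mul_c, Finset.sum_eq_single (m, k)]
    · rintro ⟨i, j⟩ h hne
      simp only [Finset.HasAntidiagonal.mem_antidiagonal, ne_eq, Prod.mk.injEq] at h hne
      rcases lt_or_ge i m with h1 | h1
      · simp [hf i h1]
      · simp [hg j (by omega)]
    · simp
  · intro n hn
    rw [mul_c, Finset.sum_eq_zero]
    rintro ⟨i, j⟩ h
    simp only [Finset.HasAntidiagonal.mem_antidiagonal] at h
    rcases lt_or_ge i m with h1 | h1
    · simp [hf i h1]
    · simp [hg j (by omega)]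

lemma exists_low {f : BB} (h : f ≠ 0) : ∃ m, f m ≠ 0 ∧ ∀ i < m, f i = 0 := by
  classical
  have : ∃ m, f m ≠ 0 := by
    by_contra hc; push Not at hc; exact h (funext hc)
  exact ⟨Nat.find this, Nat.find_spec this, fun i hi => by simpa using Nat.find_min this hi⟩

noncomputable def oB : OP BB where
  P f := ∃ m, PK (f m) ∧ ∀ i < m, f i = 0
  add := by
    rintro f g ⟨m, h1, h2⟩ ⟨k, h3, h4⟩
    rcases lt_trichotomy m k with h | rfl | h
    · exact ⟨m, by simpa [h4 m h] using h1, fun i hi => by simp [h2 i hi, h4 i (by omega)]⟩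
    · exact ⟨m, add_pos h1 h3, fun i hi => by simp [h2 i hi, h4 i hi]⟩
    · exact ⟨k, by simpa [h2 k h] using h3, fun i hi => by simp [h4 i hi, h2 i (by omega)]⟩
  mul := by
    rintro f g ⟨m, h1, h2⟩ ⟨k, h3, h4⟩
    exact ⟨m + k, by rw [(mul_low h2 h4).1]; exact mul_pos (PK_pow h1 k) h3, (mul_low h2 h4).2⟩
  tri := by
    intro f hf
    obtain ⟨m, h1, h2⟩ := exists_low hf
    rcases lt_or_gt_of_ne (show toLex (f m) ≠ 0 from h1) with h | h
    · exact Or.inr ⟨m, neg_pos.2 h, fun i hi => by simp [h2 i hi]⟩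
    · exact Or.inl ⟨m, h, h2⟩
  nz := by
    rintro ⟨m, h, _⟩
    exact lt_irrefl _ h

instance : NoZeroDivisors BB := oB.nzd
instance : Nontrivial BB := ⟨⟨1, 0, fun h => by simpa [one_c] using congrFun h 0⟩⟩

noncomputable def sol (f g : BB) (m : ℕ) : ℕ → KK
  | n => ((sg ^ n) (f m))⁻¹ * (g (m + n) - ∑ j : Fin n, (sg ^ (j : ℕ)) (f (m + n - j)) * sol f g m j)
decreasing_by exact j.2

lemma exists_div {f g : BB} {m : ℕ} (h0 : f m ≠ 0) (hf : ∀ i < m, f i = 0) (hg : ∀ i < m, g i = 0) :
    ∃ c : BB, f * c = g := by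
  refine ⟨sol f g m, funext fun n => ?_⟩
  rcases lt_or_ge n m with h | h
  · rw [hg n h]; exact (mul_low (k := 0) hf (fun i hi => by omega)).2 n h
  · obtain ⟨n, rfl⟩ := Nat.exists_eq_add_of_le h
    have e1 : (f * (show BB from sol f g m)) (m + n) =
        ∑ j ∈ range (n + 1), (sg ^ j) (f (m + n - j)) * sol f g m j := by
      rw [mul_c, ← Finset.Nat.sum_antidiagonal_swap, Finset.Nat.sum_antidiagonal_eq_sum_range_succ_mk]
      symm
      refine Finset.sum_subset (Finset.range_mono (by omega)) fun j h1 h2 => ?_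
      simp only [mem_range] at h1 h2
      simp [hf (m + n - j) (by omega)]
    have h1 : (sg ^ n) (f m) ≠ 0 := (map_ne_zero _).2 h0
    rw [e1, Finset.sum_range_succ, Nat.add_sub_cancel, sol, mul_inv_cancel_left₀ h1,
      Finset.sum_range (fun j => (sg ^ j) (f (m + n - j)) * sol f g m j)]
    abel

lemma chain (f g : BB) : ∃ c, f = g * c ∨ g = f * c := by
  by_cases hf : f = 0
  · exact ⟨0, Or.inl (by simp [hf])⟩
  by_cases hg : g = 0
  · exact ⟨0, Or.inr (by simp [hg])⟩
  obtain ⟨m, h1, h2⟩ := exists_low hf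
  obtain ⟨k, h3, h4⟩ := exists_low hg
  rcases le_total m k with h | h
  · obtain ⟨c, hc⟩ := exists_div h1 h2 (g := g) fun i hi => h4 i (by omega)
    exact ⟨c, Or.inr hc.symm⟩
  · obtain ⟨c, hc⟩ := exists_div h3 h4 (g := f) fun i hi => h2 i (by omega)
    exact ⟨c, Or.inl hc.symm⟩

lemma isUnit_of {f : BB} (h : f 0 ≠ 0) : IsUnit f := by
  obtain ⟨c, hc⟩ := exists_div (g := 1) h (fun i hi => by omega) (fun i hi => by omega)
  have hc0 : c ≠ 0 := by
    rintro rfl
    have := congrFun hc 0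
    simp [one_c] at this
  refine ⟨⟨f, c, hc, ?_⟩, rfl⟩
  have : (c * f - 1) * c = 0 := by rw [sub_mul, mul_assoc, hc]; simp
  exact sub_eq_zero.1 ((mul_eq_zero.1 this).resolve_right hc0)

noncomputable def XX (i : ℕ) : BB := fun n => if n = 1 then ss i else 0
noncomputable def cs : BB := fun n => if n = 0 then ss 1 else 0

lemma XX_cs (i : ℕ) : XX i * cs = XX (i + 1) := by
  funext n
  rw [mul_c, Finset.sum_eq_single (n, 0)]
  · simp only [XX, cs, pow_zero, RingHom.coe_one, id, if_true]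
    split_ifs
    · simp [ss, HahnSeries.single_mul_single]
    · simp
  · rintro ⟨i, j⟩ h hne
    rw [cs, if_neg, mul_zero]
    rintro (rfl : j = 0); simp at h; simp [h] at hne
  · simp

lemma mul_XX (f : BB) (i : ℕ) : (f * XX i) 0 = 0 ∧ ∀ n, (f * XX i) (n + 1) = sg (f n) * ss i := by
  refine ⟨by simp [mul_c, XX], fun n => ?_⟩
  rw [mul_c, Finset.sum_eq_single (n, 1)]
  · simp [XX]
  · rintro ⟨i, j⟩ h hne
    rw [XX, if_neg, mul_zero]
    rintro (rfl : j = 1); simp at h; simp [h] at hne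
  · simp

lemma int_c (n : ℤ) : (n : BB) 0 = n ∧ ∀ k, (n : BB) (k + 1) = 0 := by
  induction n using Int.induction_on with
  | zero => simp
  | succ n ih => push_cast at ih ⊢; simp [ih, one_c]
  | pred n ih => push_cast at ih ⊢; simp only [sub_c', ih, one_c]; simp

lemma XX_indep (n : ℤ) (f : Fin 4 → BB) (h : (n : BB) + ∑ i, f i * XX i = 0) : n = 0 ∧ ∀ i, f i = 0 := by
  constructor
  · have := congrFun h 0
    simp only [add_c', sum_c, (mul_XX _ _).1, (int_c n).1, zero_c', Finset.sum_const_zero, add_zero] at this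
    have h2 : HahnSeries.C (Γ := ℤ) (n : ℚ) = HahnSeries.C 0 := by rw [map_intCast, map_zero]; exact this
    exact_mod_cast HahnSeries.C_injective h2
  · intro i
    funext k
    have := congrFun h (k + 1)
    simp only [add_c', sum_c, (mul_XX _ _).2, (int_c n).2, zero_add, zero_c'] at this
    exact sg_indep (fun i => f i k) this i

section general
variable {A : Type} [Ring A]

lemma dep (hc : ∀ f g : A, ∃ c, f = g * c ∨ g = f * c) [Nontrivial A] {ι : Type} [DecidableEq ι] (m : ℕ) :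
    ∀ (s : Finset ι) (v : ι → ℕ → A), m < s.card → (∀ i ∈ s, ∀ k, m ≤ k → v i k = 0) →
      ∃ c : ι → A, (∃ i ∈ s, c i ≠ 0) ∧ ∀ k, ∑ i ∈ s, v i k * c i = 0 := by
  induction m with
  | zero =>
    intro s v h hv
    obtain ⟨i, hi⟩ := Finset.card_pos.1 h
    exact ⟨fun _ => 1, ⟨i, hi, one_ne_zero⟩, fun k => Finset.sum_eq_zero fun i hi => by simp [hv i hi k]⟩
  | succ m ih =>
    intro s v h hv
    have piv : ∀ t : Finset ι, t.Nonempty → ∃ j ∈ t, ∀ i ∈ t, ∃ d, v i m = v j m * d := by
      intro t ht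
      induction ht using Finset.Nonempty.cons_induction with
      | singleton a => exact ⟨a, by simp, by simpa using ⟨1, by simp⟩⟩
      | cons a t _ _ ih =>
        obtain ⟨j, hj, h⟩ := ih
        obtain ⟨c, h1 | h1⟩ := hc (v a m) (v j m)
        · refine ⟨j, Finset.mem_cons.2 (Or.inr hj), fun i hi => ?_⟩
          rcases Finset.mem_cons.1 hi with rfl | hi
          · exact ⟨c, h1⟩
          · exact h i hi
        · refine ⟨a, by simp, fun i hi => ?_⟩
          rcases Finset.mem_cons.1 hi with rfl | hi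
          · exact ⟨1, by simp⟩
          · obtain ⟨d, hd⟩ := h i hi
            exact ⟨c * d, by rw [hd, h1, mul_assoc]⟩
    obtain ⟨j, hj, hd⟩ := piv s (Finset.card_pos.1 (by omega))
    choose! d hd using hd
    obtain ⟨c, ⟨i, hi, hci⟩, h2⟩ := ih (s.erase j) (fun i k => v i k - v j k * d i)
      (by rw [Finset.card_erase_of_mem hj]; omega) fun i hi k hk => by
        have hi' := Finset.mem_of_mem_erase hi
        rcases hk.eq_or_lt with rfl | hk
        · rw [hd i hi', sub_self]
        · simp [hv i hi' k hk, hv j hj k hk]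
    refine ⟨Function.update c j (-∑ i ∈ s.erase j, d i * c i), ⟨i, Finset.mem_of_mem_erase hi, ?_⟩, fun k => ?_⟩
    · rwa [Function.update_of_ne (Finset.ne_of_mem_erase hi)]
    · have e : ∀ z, ∑ i ∈ s.erase j, v i k * Function.update c j z i = ∑ i ∈ s.erase j, v i k * c i :=
        fun z => Finset.sum_congr rfl fun i hi => by rw [Function.update_of_ne (Finset.ne_of_mem_erase hi)]
      rw [← Finset.add_sum_erase _ _ hj, Function.update_self, e]
      have := h2 k
      simp only [sub_mul, Finset.sum_sub_distrib, mul_assoc] at this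
      rw [mul_neg, Finset.mul_sum, neg_add_eq_sub, this]

open Polynomial

lemma ore0 (hc : ∀ f g : A, ∃ c, f = g * c ∨ g = f * c) [Nontrivial A] (a b : A[X]) :
    ∃ p q : A[X], a * p = b * q ∧ (p ≠ 0 ∨ q ≠ 0) := by
  set d := a.natDegree + b.natDegree
  obtain ⟨c, ⟨i, hi, hci⟩, h⟩ := dep hc (2 * d + 1) ((univ : Finset Bool) ×ˢ range (d + 1))
    (fun i k => ((if i.1 then a else -b) * X ^ i.2).coeff k) (by simp; omega) fun i hi k hk => by
      apply coeff_eq_zero_of_natDegree_lt
      refine lt_of_le_of_lt natDegree_mul_le ?_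
      have h1 : (X ^ i.2 : A[X]).natDegree ≤ i.2 := natDegree_X_pow_le _
      have h2 : i.2 < d + 1 := by simpa using hi
      have h3 : (if i.1 then a else -b).natDegree ≤ d := by
        split_ifs
        · omega
        · rw [natDegree_neg]; omega
      omega
  have co : ∀ (t : Bool), ∀ n < d + 1, (∑ j ∈ range (d + 1), X ^ j * C (c (t, j))).coeff n = c (t, n) := by
    intro t n hn
    simp [finset_sum_coeff, coeff_mul_C, coeff_X_pow, hn]
  refine ⟨∑ j ∈ range (d + 1), X ^ j * C (c (true, j)), ∑ j ∈ range (d + 1), X ^ j * C (c (false, j)), ?_, ?_⟩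
  · ext k
    have := h k
    rw [Finset.sum_product] at this
    simp only [Fintype.sum_bool, if_true, Bool.false_eq_true, if_false, neg_mul, coeff_neg,
      Finset.sum_neg_distrib, add_neg_eq_zero] at this
    simp only [Finset.mul_sum, ← mul_assoc, finset_sum_coeff, coeff_mul_C, this]
  · obtain ⟨t, n⟩ := i
    have hn : n < d + 1 := by simpa using hi
    cases t
    · right; intro e; have := co false n hn; rw [e] at this; exact hci this.symm
    · left; intro e; have := co true n hn; rw [e] at this; exact hci this.symm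

lemma ore1 (hc : ∀ f g : A, ∃ c, f = g * c ∨ g = f * c) [Nontrivial A] (e : A[X] →+* A)
    (e1 : ∀ c, e (C c) = c) (e2 : e X = -1) (a b : A[X]) :
    ∃ p q : A[X], a * p = b * q ∧ (e p ≠ 0 ∨ e q ≠ 0) := by
  have mo : Monic (X + C 1 : A[X]) := monic_X_add_C 1
  have dv : ∀ p : A[X], e p = 0 → ∃ p', p = p' * (X + C 1) := by
    intro p hp
    have h1 := modByMonic_add_div p (X + C 1)
    have h2 := degree_modByMonic_lt p mo
    rw [degree_X_add_C] at h2
    have h3 := eq_C_of_degree_le_zero (Nat.WithBot.lt_one_iff_le_zero.1 h2)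
    have h4 := congrArg e h1
    rw [h3, map_add, map_mul, map_add, e1, e1, e2, hp] at h4
    rw [h3, show (p %ₘ (X + C 1)).coeff 0 = 0 by simpa using h4] at h1
    refine ⟨p /ₘ (X + C 1), ?_⟩
    rw [mul_add, ← X_mul, C_1, mul_one]
    rw [C_0, zero_add, add_mul, C_1, one_mul] at h1
    exact h1.symm
  obtain ⟨p, q, h1, h2⟩ := ore0 hc a b
  generalize hn : p.natDegree + q.natDegree = n
  induction n using Nat.strong_induction_on generalizing p q with
  | _ n ih =>
    by_cases h : e p ≠ 0 ∨ e q ≠ 0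
    · exact ⟨p, q, h1, h⟩
    push Not at h
    obtain ⟨p', rfl⟩ := dv p h.1
    obtain ⟨q', rfl⟩ := dv q h.2
    have dg : ∀ p : A[X], p ≠ 0 → (p * (X + C 1)).natDegree = p.natDegree + 1 := fun p hp => by
      rw [mo.natDegree_mul' hp |> fun _ => natDegree_mul' (by rw [mo.leadingCoeff]; simpa using hp),
        natDegree_X_add_C]
    refine ih _ ?_ p' q' (mo.isRegular.right (by simpa [mul_assoc] using h1)) ?_ rfl
    · by_cases hp : p' = 0 <;> by_cases hq : q' = 0
      · simp [hp, hq] at h2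
      · rw [← hn, dg _ hq, hp]; simp
      · rw [← hn, dg _ hp, hq]; simp
      · rw [← hn, dg _ hp, dg _ hq]; omega
    · exact h2.imp (fun h e => h (by simp [e])) (fun h e => h (by simp [e]))

open LaurentPolynomial in
noncomputable def OP.laurent (o : OP A) : OP (LaurentPolynomial A) where
  P f := ∃ (n : ℕ) (p : A[X]), toLaurent p = f * T n ∧ o.P p.leadingCoeff
  add := by
    rintro f g ⟨m, p, h1, h2⟩ ⟨k, q, h3, h4⟩
    refine ⟨m + k, p * X ^ k + q * X ^ m, ?_, ?_⟩
    · simp only [map_add, map_mul, toLaurent_X_pow, h1, h3, mul_T_assoc, add_mul]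
      push_cast; rw [add_comm (k : ℤ)]
    · rw [← leadingCoeff_mul_X_pow (n := k)] at h2
      rw [← leadingCoeff_mul_X_pow (n := m)] at h4
      rcases lt_trichotomy (p * X ^ k).degree (q * X ^ m).degree with h | h | h
      · rwa [leadingCoeff_add_of_degree_lt h]
      · rw [leadingCoeff_add_of_degree_eq h (o.ne (o.add _ _ h2 h4))]; exact o.add _ _ h2 h4
      · rwa [leadingCoeff_add_of_degree_lt' h]
  mul := by
    rintro f g ⟨m, p, h1, h2⟩ ⟨k, q, h3, h4⟩
    refine ⟨m + k, p * q, ?_, ?_⟩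
    · rw [map_mul, h1, h3, mul_assoc, ← mul_assoc (T m), T_mul, mul_T_assoc, mul_assoc]
      push_cast; rfl
    · rw [leadingCoeff_mul' (o.ne (o.mul _ _ h2 h4))]; exact o.mul _ _ h2 h4
  tri := by
    intro f hf
    obtain ⟨n, p, h⟩ := exists_T_pow f
    have : p.leadingCoeff ≠ 0 := by
      rw [Ne, leadingCoeff_eq_zero]
      rintro rfl
      rw [map_zero] at h
      exact hf ((isUnit_T n).mul_left_eq_zero.1 h.symm)
    rcases o.tri _ this with h1 | h1
    · exact Or.inl ⟨n, p, h, h1⟩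
    · exact Or.inr ⟨n, -p, by simp [h], by rwa [leadingCoeff_neg]⟩
  nz := by
    rintro ⟨n, p, h1, h2⟩
    rw [zero_mul, ← map_zero toLaurent] at h1
    rw [toLaurent_injective h1] at h2
    exact o.nz h2

end general

end Pool.Agent.H64.Kok
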