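import Mathlib

/-! Bi-invariant total orders on groups and relatively convex subgroups. -/

set_option autoImplicit false

namespace Pool.Agent.H64.OrdDefs

/-- The total order `o` on the group `G` is invariant under multiplication on both sides. -/
def BiInv {G : Type} [Group G] (o : LinearOrder G) : Prop :=
  ∀ a b c : G, o.le a b → o.le (c * a) (c * b) ∧ o.le (a * c) (b * c)

/-- `H` is convex for at least one bi-invariant total order on `G`. -/
def RelConvex {G : Type} [Group G] (H : Subgroup G) : Prop :=
  ∃ o : LinearOrder G, BiInv o ∧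
    ∀ h₁ ∈ H, ∀ h₂ ∈ H, ∀ g : G, o.le h₁ g → o.le g h₂ → g ∈ H

end Pool.Agent.H64.OrdDefs
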