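import Mathlib
import Pool.Agent.H64.OrdDefs

/-! Invariant cones on groups, a maximal orderable quotient, and elements acting infinitesimally. -/

set_option autoImplicit false

namespace Pool.Agent.H64.Ord
open Pool.Agent.H64.OrdDefs
open scoped commutatorElement

structure Cone (G : Type) [Group G] where
  P : Set G
  mul : ∀ a ∈ P, ∀ b ∈ P, a * b ∈ P
  conj : ∀ a ∈ P, ∀ g, g * a * g⁻¹ ∈ P
  tot : ∀ a, a ∈ P ∨ a⁻¹ ∈ P

variable {G : Type} [Group G]

lemma Cone.one (c : Cone G) : (1 : G) ∈ c.P := by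
  rcases c.tot 1 with h | h
  · exact h
  · simpa using h

def Cone.ker (c : Cone G) : Subgroup G where
  carrier := {a | a ∈ c.P ∧ a⁻¹ ∈ c.P}
  mul_mem' := fun {a b} ha hb => ⟨c.mul _ ha.1 _ hb.1, by rw [mul_inv_rev]; exact c.mul _ hb.2 _ ha.2⟩
  one_mem' := ⟨c.one, by simpa using c.one⟩
  inv_mem' := fun {a} ha => ⟨ha.2, by simpa using ha.1⟩

lemma Cone.mem_ker (c : Cone G) (a : G) : a ∈ c.ker ↔ a ∈ c.P ∧ a⁻¹ ∈ c.P := Iff.rfl

instance (c : Cone G) : c.ker.Normal :=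
  ⟨fun a ha g => ⟨c.conj _ ha.1 g, by
    have := c.conj _ ha.2 g
    simpa [mul_assoc] using this⟩⟩

lemma Cone.pow (c : Cone G) {a : G} (ha : a ∈ c.P) (n : ℕ) : a ^ n ∈ c.P := by
  induction n with
  | zero => simpa using c.one
  | succ n ih => rw [pow_succ]; exact c.mul _ ih _ ha

lemma Cone.of_pow (c : Cone G) {a : G} {n : ℕ} (hn : 0 < n) (ha : a ^ n ∈ c.P) : a ∈ c.P := by
  rcases c.tot a with h | h
  · exact h
  · obtain ⟨m, rfl⟩ : ∃ m, n = m + 1 := ⟨n - 1, by omega⟩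
    have := c.mul _ (c.pow h m) _ ha
    rwa [pow_succ, ← mul_assoc, inv_pow, inv_mul_cancel, one_mul] at this

lemma Cone.ker_of_pow (c : Cone G) {a : G} {n : ℕ} (hn : 0 < n) (ha : a ^ n ∈ c.ker) : a ∈ c.ker :=
  ⟨c.of_pow hn ha.1, c.of_pow hn (by rw [inv_pow]; exact ha.2)⟩

lemma Cone.ker_of_conj (c : Cone G) {a g : G} (h : a * (g * a * g⁻¹) ∈ c.ker) : a ∈ c.ker := by
  rcases c.tot a with ha | ha
  · refine ⟨ha, ?_⟩
    have := c.mul _ (c.conj _ ha g) _ h.2
    simpa [mul_assoc] using this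
  · refine ⟨?_, ha⟩
    have := c.mul _ h.1 _ (c.conj _ ha g)
    simpa [mul_assoc] using this

lemma exists_max (B : Subgroup G) (c₁ : Cone G) (h₁ : c₁.ker ≤ B) :
    ∃ c₀ : Cone G, c₁.ker ≤ c₀.ker ∧ c₀.ker ≤ B ∧
      ∀ c : Cone G, c₀.ker ≤ c.ker → c.ker ≤ B → c.ker ≤ c₀.ker := by
  classical
  have := zorn_le_nonempty₀ {K : Subgroup G | K ≤ B ∧ ∃ c : Cone G, c.ker = K} ?_ c₁.ker ⟨h₁, c₁, rfl⟩
  · obtain ⟨m, hm1, hm⟩ := this
    obtain ⟨hB, c₀, rfl⟩ := hm.prop
    exact ⟨c₀, hm1, hB, fun c h1 h2 => hm.le_of_ge ⟨h2, c, rfl⟩ h1⟩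
  intro s hs hch y hy
  haveI : Nonempty s := ⟨⟨y, hy⟩⟩
  haveI : IsDirectedOrder s := ⟨fun a b => by
    rcases hch.total a.2 b.2 with h | h
    · exact ⟨b, h, le_rfl⟩
    · exact ⟨a, le_rfl, h⟩⟩
  choose cf hcf using fun K : s => (hs K.2).2
  let U : Ultrafilter s := Ultrafilter.of Filter.atTop
  have hU : (U : Filter s) ≤ Filter.atTop := Ultrafilter.of_le _
  let c : Cone G :=
    { P := {g | ∀ᶠ K in (U : Filter s), g ∈ (cf K).P}
      mul := fun a ha b hb => (Filter.Eventually.and ha hb).mono fun K h => (cf K).mul _ h.1 _ h.2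
      conj := fun a ha g => Filter.Eventually.mono ha fun K h => (cf K).conj _ h g
      tot := fun a => Ultrafilter.eventually_or.1 (Filter.Eventually.of_forall fun K => (cf K).tot a) }
  refine ⟨c.ker, ⟨?_, c, rfl⟩, ?_⟩
  · intro g hg
    obtain ⟨K, hK⟩ := (Filter.Eventually.and hg.1 hg.2).exists
    have : g ∈ (cf K).ker := hK
    rw [hcf] at this
    exact (hs K.2).1 this
  · intro K hK g hg
    have : ∀ᶠ L in (U : Filter s), g ∈ (cf L).ker := by
      apply hU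
      refine (Filter.eventually_ge_atTop (⟨K, hK⟩ : s)).mono fun L hL => ?_
      show g ∈ (cf L).ker
      rw [hcf]; exact hL hg
    exact ⟨this.mono fun L h => h.1, this.mono fun L h => h.2⟩

noncomputable def Cone.ord (c : Cone G) (h : ∀ a ∈ c.ker, a = 1) : LinearOrder G where
  le a b := a⁻¹ * b ∈ c.P
  le_refl a := by simpa using c.one
  le_trans a b d h1 h2 := by
    have := c.mul _ h1 _ h2
    simpa [mul_assoc] using this
  le_antisymm a b h1 h2 := by
    have := h (a⁻¹ * b) ⟨h1, by simpa using h2⟩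
    exact inv_mul_eq_one.1 this
  le_total a b := by
    rcases c.tot (a⁻¹ * b) with h1 | h1
    · exact Or.inl h1
    · exact Or.inr (by simpa using h1)
  toDecidableLE := Classical.decRel _

lemma Cone.ord_bi (c : Cone G) (h : ∀ a ∈ c.ker, a = 1) : BiInv (c.ord h) := by
  intro a b d hab
  refine ⟨?_, ?_⟩
  · show (d * a)⁻¹ * (d * b) ∈ c.P
    have : a⁻¹ * b ∈ c.P := hab
    simpa [mul_assoc] using this
  · show (a * d)⁻¹ * (b * d) ∈ c.P
    have := c.conj _ (show a⁻¹ * b ∈ c.P from hab) d⁻¹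
    simpa [mul_assoc] using this

def Cone.comap {Q : Type} [Group Q] (c : Cone Q) (φ : G →* Q) : Cone G where
  P := {g | φ g ∈ c.P}
  mul a ha b hb := by simpa using c.mul _ ha _ hb
  conj a ha g := by simpa using c.conj _ ha (φ g)
  tot a := by simpa using c.tot (φ a)

def Cone.quo (c : Cone G) : Cone (G ⧸ c.ker) where
  P := {q | ∃ g ∈ c.P, (g : G ⧸ c.ker) = q}
  mul := by
    rintro _ ⟨a, ha, rfl⟩ _ ⟨b, hb, rfl⟩
    exact ⟨a * b, c.mul _ ha _ hb, rfl⟩
  conj := by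
    rintro _ ⟨a, ha, rfl⟩ g
    obtain ⟨g, rfl⟩ := QuotientGroup.mk_surjective g
    exact ⟨g * a * g⁻¹, c.conj _ ha g, rfl⟩
  tot := by
    intro a
    obtain ⟨a, rfl⟩ := QuotientGroup.mk_surjective a
    rcases c.tot a with h | h
    · exact Or.inl ⟨a, h, rfl⟩
    · exact Or.inr ⟨a⁻¹, h, rfl⟩

lemma Cone.quo_ker (c : Cone G) : ∀ a ∈ c.quo.ker, a = 1 := by
  rintro _ ⟨⟨a, ha, rfl⟩, b, hb, hab⟩
  rw [QuotientGroup.eq_one_iff]
  refine ⟨ha, ?_⟩
  have : b⁻¹ * a⁻¹ ∈ c.ker := QuotientGroup.eq.1 hab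
  have := c.mul _ hb _ this.1
  simpa using this

/-- The cone of an order modulo a convex normal subgroup. -/
lemma cone_of_rel (H : Subgroup G) [hn : H.Normal] (h : RelConvex H) : ∃ c : Cone G, c.ker = H := by
  obtain ⟨o, hb, hc⟩ := h
  have t1 : ∀ a b : G, o.le 1 a → b ∈ H → o.le 1 (a * b) ∨ a * b ∈ H := by
    intro a b ha hbH
    rcases o.le_total 1 (a * b) with h1 | h1
    · exact Or.inl h1
    · right
      have := (hb _ _ b⁻¹ h1).2
      rw [mul_inv_cancel_right, one_mul] at this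
      exact H.mul_mem (hc 1 H.one_mem _ (H.inv_mem hbH) a ha this) hbH
  have t2 : ∀ a g : G, o.le 1 a → o.le 1 (g * a * g⁻¹) := by
    intro a g ha
    have := (hb _ _ g⁻¹ (hb _ _ g ha).1).2
    simpa using this
  refine ⟨⟨{a | o.le 1 a ∨ a ∈ H}, ?_, ?_, ?_⟩, ?_⟩
  · rintro a (ha | ha) b (hb' | hb')
    · left
      have := (hb _ _ a hb').1
      rw [mul_one] at this
      exact o.le_trans _ _ _ ha this
    · exact t1 a b ha hb'
    · have := t1 (a * b * a⁻¹) a (t2 b a hb') ha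
      simpa using this
    · exact Or.inr (H.mul_mem ha hb')
  · rintro a (ha | ha) g
    · exact Or.inl (t2 a g ha)
    · exact Or.inr (hn.conj_mem a ha g)
  · intro a
    rcases o.le_total 1 a with h1 | h1
    · exact Or.inl (Or.inl h1)
    · right; left
      have := (hb _ _ a⁻¹ h1).2
      simpa using this
  · ext a
    constructor
    · rintro ⟨h1 | h1, h2 | h2⟩
      · have := (hb _ _ a h2).2
        rw [one_mul, inv_mul_cancel] at this
        rw [o.le_antisymm _ _ this h1]; exact H.one_mem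
      · simpa using h2
      · exact h1
      · exact h1
    · intro ha
      exact ⟨Or.inr ha, Or.inr (H.inv_mem ha)⟩

/-- Lexicographic refinement along a homomorphism to the integers. -/
lemma rel_ker (c : Cone G) (h : ∀ a ∈ c.ker, a = 1) (σ : G → ℤ) (hσ : ∀ a b, σ (a * b) = σ a + σ b)
    (H : Subgroup G) (hH : ∀ a, a ∈ H ↔ σ a = 0) : RelConvex H := by
  have s1 : σ 1 = 0 := (hH 1).1 H.one_mem
  have si : ∀ a, σ a⁻¹ = -σ a := fun a => by
    have := hσ a a⁻¹
    rw [mul_inv_cancel, s1] at this; omega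
  let d : Cone G :=
    { P := {a | 0 < σ a ∨ (σ a = 0 ∧ a ∈ c.P)}
      mul := by
        rintro a (ha | ⟨ha, ha'⟩) b (hb | ⟨hb, hb'⟩)
        · left; rw [hσ]; omega
        · left; rw [hσ]; omega
        · left; rw [hσ]; omega
        · right; exact ⟨by rw [hσ]; omega, c.mul _ ha' _ hb'⟩
      conj := by
        rintro a (ha | ⟨ha, ha'⟩) g
        · left; rw [hσ, hσ, si]; omega
        · right; exact ⟨by rw [hσ, hσ, si]; omega, c.conj _ ha' g⟩
      tot := by
        intro a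
        rcases lt_trichotomy (σ a) 0 with h1 | h1 | h1
        · right; left; rw [si]; omega
        · rcases c.tot a with h2 | h2
          · exact Or.inl (Or.inr ⟨h1, h2⟩)
          · exact Or.inr (Or.inr ⟨by rw [si]; omega, h2⟩)
        · exact Or.inl (Or.inl h1) }
  have hd : ∀ a ∈ d.ker, a = 1 := by
    rintro a ⟨h1 | h1, h2 | h2⟩
    · rw [si] at h2; omega
    · have := h2.1; rw [si] at this; omega
    · have := h1.1; rw [si] at h2; omega
    · exact h a ⟨h1.2, h2.2⟩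
  refine ⟨d.ord hd, d.ord_bi hd, ?_⟩
  intro h1 hh1 h2 hh2 g l1 l2
  rw [hH] at hh1 hh2 ⊢
  have l1' : 0 < σ (h1⁻¹ * g) ∨ (σ (h1⁻¹ * g) = 0 ∧ _) := l1
  have l2' : 0 < σ (g⁻¹ * h2) ∨ (σ (g⁻¹ * h2) = 0 ∧ _) := l2
  rw [hσ, si] at l1' l2'
  rcases l1' with l | l <;> rcases l2' with l' | l' <;> first | omega | (have := l.1; have := l'.1; omega) | (have := l.1; omega) | (have := l'.1; omega)

theorem main (σ : G → ℤ) (hσ : ∀ a b, σ (a * b) = σ a + σ b) (t : G) (ht : σ t = 1)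
    (B : Subgroup G) [B.Normal] (hBσ : ∀ b ∈ B, σ b = 0) (hne : ∃ g, σ g = 0 ∧ g ∉ B)
    (c₁ : Cone G) (h₁ : c₁.ker ≤ B)
    (X : ∀ c : Cone G, c₁.ker ≤ c.ker → ∀ g, g ∉ B → (∀ b ∈ B, ⁅⁅b, g⁆, g⁆ ∈ c.ker) →
      ∀ h, σ h = 0 → h ∈ c.ker)
    (m : ℕ) (hup : derivedSeries G (m + 2) = ⊥) (hlo : ¬ derivedSeries G m ≤ B) :
    ∃ (Q : Type) (_ : Group Q), (∃ o : LinearOrder Q, BiInv o) ∧ derivedSeries Q (m + 2) = ⊥ ∧
      derivedSeries Q (m + 1) ≠ ⊥ ∧
      ∃! H : Subgroup Q, H.Normal ∧ RelConvex H ∧ H ≠ ⊥ ∧ H ≠ ⊤ := by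
  obtain ⟨c₀, k1, k2, k3⟩ := exists_max B c₁ h₁
  have s1 : σ 1 = 0 := hBσ 1 B.one_mem
  have si : ∀ a, σ a⁻¹ = -σ a := fun a => by
    have := hσ a a⁻¹
    rw [mul_inv_cancel, s1] at this; omega
  have sp : ∀ (a : G) (n : ℕ), σ (a ^ n) = n * σ a := fun a n => by
    induction n with
    | zero => simpa using s1
    | succ n ih => rw [pow_succ, hσ, ih]; push_cast; ring
  obtain ⟨g₀, hg₀, hg₀B⟩ := hne
  let φ := QuotientGroup.mk' c₀.ker
  have hφ : Function.Surjective φ := QuotientGroup.mk'_surjective _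
  have hk : ∀ a, φ a = 1 ↔ a ∈ c₀.ker := fun a => QuotientGroup.eq_one_iff a
  let τ : G ⧸ c₀.ker → ℤ := fun q => σ q.out
  have hτ : ∀ a, τ (φ a) = σ a := by
    intro a
    have : (φ a).out⁻¹ * a ∈ c₀.ker := QuotientGroup.eq.1 (by simp [φ])
    have := hBσ _ (k2 this)
    rw [hσ, si] at this
    show σ (φ a).out = _
    omega
  have hτm : ∀ a b, τ (a * b) = τ a + τ b := by
    intro a b
    obtain ⟨a, rfl⟩ := hφ a
    obtain ⟨b, rfl⟩ := hφ b
    rw [← map_mul, hτ, hτ, hτ, hσ]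
  let H : Subgroup (G ⧸ c₀.ker) :=
    { carrier := {q | τ q = 0}
      mul_mem' := fun {a b} ha hb => by
        show τ _ = 0
        rw [hτm, show τ a = 0 from ha, show τ b = 0 from hb]; rfl
      one_mem' := by
        show τ _ = 0
        rw [← map_one φ, hτ, s1]
      inv_mem' := fun {a} ha => by
        obtain ⟨a, rfl⟩ := hφ a
        have ha' : τ (φ a) = 0 := ha
        show τ _ = 0
        rw [← map_inv, hτ, si]; rw [hτ] at ha'; omega }
  have hH : ∀ a, φ a ∈ H ↔ σ a = 0 := fun a => by rw [← hτ]; rfl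
  refine ⟨G ⧸ c₀.ker, inferInstance, ⟨c₀.quo.ord c₀.quo_ker, c₀.quo.ord_bi _⟩, ?_, ?_, H, ⟨?_, ?_, ?_, ?_⟩, ?_⟩
  · rw [← map_derivedSeries_eq hφ, hup, Subgroup.map_bot]
  · intro hbot
    rw [← map_derivedSeries_eq hφ, Subgroup.map_eq_bot_iff, QuotientGroup.ker_mk'] at hbot
    apply hlo
    intro g hg
    by_contra hgB
    refine hg₀B (k2 (X c₀ k1 g hgB (fun b _ => hbot ?_) g₀ hg₀))
    rw [derivedSeries_succ]
    refine Subgroup.commutator_mem_commutator ?_ hg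
    rw [commutatorElement_def]
    exact Subgroup.mul_mem _ ((derivedSeries_normal G m).conj_mem g hg b) (Subgroup.inv_mem _ hg)
  · refine ⟨fun a ha g => ?_⟩
    obtain ⟨a, rfl⟩ := hφ a
    obtain ⟨g, rfl⟩ := hφ g
    rw [← map_inv, ← map_mul, ← map_mul, hH, hσ, hσ, si]
    rw [hH] at ha; omega
  · exact rel_ker c₀.quo c₀.quo_ker τ hτm H fun a => Iff.rfl
  · intro hb
    have : φ g₀ ∈ H := (hH _).2 hg₀
    rw [hb, Subgroup.mem_bot, hk] at this
    exact hg₀B (k2 this)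
  · intro hb
    have : φ t ∈ H := by rw [hb]; trivial
    rw [hH] at this; omega
  · rintro L ⟨hn, hr, hb, htop⟩
    obtain ⟨d, hd⟩ := cone_of_rel L hr
    have hc : ∀ a, a ∈ (d.comap φ).ker ↔ φ a ∈ L := fun a => by
      rw [← hd, Cone.mem_ker, Cone.mem_ker, ← map_inv]; rfl
    have l1 : c₀.ker ≤ (d.comap φ).ker := fun a ha => by
      rw [hc, (hk a).2 ha]; exact L.one_mem
    have l2 : ∃ g ∈ (d.comap φ).ker, g ∉ B := by
      by_contra hcon
      push Not at hcon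
      apply hb
      rw [eq_bot_iff]
      intro a ha
      obtain ⟨a, rfl⟩ := hφ a
      rw [Subgroup.mem_bot, hk]
      exact k3 _ l1 hcon ((hc a).2 ha)
    obtain ⟨g, hg, hgB⟩ := l2
    have l3 : ∀ h, σ h = 0 → h ∈ (d.comap φ).ker := by
      refine X _ (k1.trans l1) g hgB fun b _ => ?_
      rw [commutatorElement_def ⁅b, g⁆]
      exact Subgroup.mul_mem _ (Subgroup.Normal.conj_mem inferInstance g hg _) (Subgroup.inv_mem _ hg)
    ext a
    obtain ⟨a, rfl⟩ := hφ a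
    rw [hH, ← hc]
    refine ⟨fun ha => ?_, l3 a⟩
    by_contra h0
    apply htop
    have tK : t ∈ (d.comap φ).ker := by
      have key : ∀ a ∈ (d.comap φ).ker, 0 < σ a → t ∈ (d.comap φ).ker := by
        intro a ha h0
        apply (d.comap φ).ker_of_pow (n := (σ a).toNat) (by omega)
        have := Subgroup.mul_mem _ (l3 (t ^ (σ a).toNat * a⁻¹) (by rw [hσ, sp, si, ht]; omega)) ha
        simpa using this
      rcases lt_or_gt_of_ne h0 with h | h
      · exact key a⁻¹ (Subgroup.inv_mem _ ha) (by rw [si]; omega)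
      · exact key a ha h
    rw [eq_top_iff]
    intro b _
    obtain ⟨b, rfl⟩ := hφ b
    rw [← hc]
    rcases le_total 0 (σ b) with h | h
    · have := Subgroup.mul_mem _ (l3 (b * (t ^ (σ b).toNat)⁻¹) (by rw [hσ, si, sp, ht]; omega))
        (Subgroup.pow_mem _ tK (σ b).toNat)
      simpa using this
    · have := Subgroup.mul_mem _ (l3 (b * (t ^ (-σ b).toNat)) (by rw [hσ, sp, ht]; omega))
        (Subgroup.inv_mem _ (Subgroup.pow_mem _ tK (-σ b).toNat))
      simpa using this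

/-- The elements of `Γ` acting infinitesimally on an ordered module. -/
theorem core {Γ A : Type} [Group Γ] [AddCommGroup A] (ρ : Γ → A →+ A)
    (ρm : ∀ g h x, ρ (g * h) x = ρ g (ρ h x)) (ρ1 : ∀ x, ρ 1 x = x)
    (B : AddSubgroup A) (hB : ∀ g, ∀ x ∈ B, ρ g x ∈ B) (P : Set A) (PB : ∀ x ∈ P, x ∈ B)
    (Pa : ∀ x ∈ P, ∀ y ∈ P, x + y ∈ P) (Pt : ∀ x ∈ B, x ∈ P ∨ -x ∈ P)
    (Pi : ∀ g, ∀ x ∈ P, ρ g x ∈ P) :
    ∃ C : Subgroup Γ, C.Normal ∧ (∀ g (n : ℕ), 0 < n → g ^ n ∈ C → g ∈ C) ∧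
      (∀ g, (∀ x ∈ B, ρ g (ρ g x - x) - (ρ g x - x) ∈ P ∧ -(ρ g (ρ g x - x) - (ρ g x - x)) ∈ P) → g ∈ C) ∧
      ∀ s ∈ C, ∀ y, ∀ b ∈ B, ρ s b = (2 : ℕ) • b + ρ y b → b ∈ P ∧ -b ∈ P := by
  have P0 : (0 : A) ∈ P := by
    rcases Pt 0 B.zero_mem with h | h
    · exact h
    · simpa using h
  have Pn : ∀ (n : ℕ), ∀ x ∈ P, n • x ∈ P := by
    intro n x hx
    induction n with
    | zero => simpa using P0
    | succ n ih => rw [succ_nsmul]; exact Pa _ ih _ hx
  have Pd : ∀ (n : ℕ), ∀ x ∈ B, (n + 1) • x ∈ P → x ∈ P := by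
    intro n x hx h
    rcases Pt x hx with h1 | h1
    · exact h1
    · have := Pa _ h _ (Pn n _ h1)
      rwa [succ_nsmul, neg_nsmul, add_neg_cancel_comm] at this
  let D : Γ → Prop := fun g => ∀ b ∈ P, ∀ n : ℕ, (n + 1) • b - n • ρ g b ∈ P
  have Dm : ∀ g h, D g → D h → D (g * h) := by
    intro g h hg hh b hb n
    have e1 := hg _ (Pi h b hb) (2 * n + 1)
    have e2 := hh b hb (2 * n + 1)
    apply Pd (4 * n * n + 4 * n)
    · exact B.sub_mem (B.nsmul_mem (PB b hb) _) (B.nsmul_mem (hB _ _ (PB b hb)) _)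
    · have := Pa _ (Pa _ (Pn (n * (2 * n + 1)) _ e1) _ (Pn (n * (2 * n + 2)) _ e2)) _ (Pn (n + 1) _ hb)
      rw [ρm]
      convert this using 1
      module
  have Dp : ∀ g (n : ℕ), 0 < n → D (g ^ n) → D g := by
    intro g n hn hg b hb m
    rcases Pt (ρ g b - b) (B.sub_mem (hB _ _ (PB b hb)) (PB b hb)) with h | h
    · have : ∀ k : ℕ, ρ (g ^ (k + 1)) b - ρ g b ∈ P := by
        intro k
        induction k with
        | zero => simpa using P0
        | succ k ih =>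
          have := Pa _ (Pi (g ^ (k + 1)) _ h) _ ih
          rw [pow_succ g (k + 1), ρm]
          convert this using 1
          rw [map_sub]; abel
      obtain ⟨k, rfl⟩ : ∃ k, n = k + 1 := ⟨n - 1, by omega⟩
      have := Pa _ (hg b hb m) _ (Pn m _ (this k))
      convert this using 1
      module
    · have := Pa _ hb _ (Pn m _ h)
      convert this using 1
      module
  have Dc : ∀ g h, D g → D (h * g * h⁻¹) := by
    intro g h hg b hb n
    have := Pi h _ (hg _ (Pi h⁻¹ b hb) n)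
    rw [map_sub, map_nsmul, map_nsmul, ← ρm h h⁻¹, mul_inv_cancel, ρ1] at this
    rw [ρm, ρm]; exact this
  refine ⟨⟨⟨⟨{g | D g ∧ D g⁻¹}, ?_⟩, ?_⟩, ?_⟩, ?_, ?_, ?_, ?_⟩
  · intro a b ha hb
    exact ⟨Dm _ _ ha.1 hb.1, by rw [mul_inv_rev]; exact Dm _ _ hb.2 ha.2⟩
  · have : D 1 := fun b hb n => by
      rw [ρ1]; convert hb using 1; module
    exact ⟨this, by rw [inv_one]; exact this⟩
  · intro a ha
    exact ⟨ha.2, by rw [inv_inv]; exact ha.1⟩
  · refine ⟨fun a ha g => ⟨Dc _ _ ha.1, ?_⟩⟩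
    have := Dc _ g ha.2
    simpa [mul_assoc] using this
  · intro g n hn hg
    exact ⟨Dp g n hn hg.1, Dp g⁻¹ n hn (by rw [inv_pow]; exact hg.2)⟩
  · intro g hg
    have key : ∀ g : Γ, (∀ x ∈ B, ρ g (ρ g x - x) - (ρ g x - x) ∈ P ∧
        -(ρ g (ρ g x - x) - (ρ g x - x)) ∈ P) → D g⁻¹ := by
      intro g hg b hb n
      have hbB := PB b hb
      have e1 : ∀ k : ℕ, (ρ g b - b) - ρ (g ^ k) (ρ g b - b) ∈ P := by
        intro k
        induction k with
        | zero => simpa [ρ1] using P0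
        | succ k ih =>
          have := Pa _ ih _ (Pi (g ^ k) _ (hg b hbB).2)
          rw [pow_succ, ρm]
          convert this using 1
          generalize ρ g b - b = d
          rw [map_neg, map_sub]; abel
      have e2 : ∀ k : ℕ, b + k • (ρ g b - b) - ρ (g ^ k) b ∈ P := by
        intro k
        induction k with
        | zero => simpa [ρ1] using P0
        | succ k ih =>
          have := Pa _ ih _ (e1 k)
          rw [pow_succ, ρm]
          convert this using 1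
          rw [map_sub (ρ (g ^ k))]; module
      have e3 := Pi g⁻¹ _ (hg b hbB).1
      have e4 := Pa _ (Pa _ (e2 n) _ (Pi (g ^ n) _ hb)) _ (Pn n _ (Pi g⁻¹ _ (hg b hbB).2))
      simp only [map_neg, map_sub, ← ρm, inv_mul_cancel_left, inv_mul_cancel, ρ1] at e4
      convert e4 using 1
      module
    refine ⟨?_, key g hg⟩
    have := key g⁻¹ fun x hx => by
      have h1 := hg _ (hB g⁻¹ _ (hB g⁻¹ _ hx))
      simp only [map_sub, ← ρm, mul_inv_cancel_left, mul_inv_cancel, ρ1] at h1 ⊢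
      constructor
      · convert h1.1 using 1; abel
      · convert h1.2 using 1; abel
    rwa [inv_inv] at this
  · intro s hs y b hb h
    have key : ∀ b ∈ P, ρ s b = (2 : ℕ) • b + ρ y b → -b ∈ P := by
      intro b hb h
      have := Pa _ (hs.1 b hb 2) _ (Pn 2 _ (Pi y b hb))
      rw [h] at this
      convert this using 1
      module
    rcases Pt b hb with h1 | h1
    · exact ⟨h1, key b h1 h⟩
    · refine ⟨?_, h1⟩
      have := key (-b) h1 (by rw [map_neg, map_neg, h]; module)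
      rwa [neg_neg] at this

end Pool.Agent.H64.Ord
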