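import Mathlib
import Pool.Agent.H64.Kok1
import Pool.Agent.H64.Ord1

/-! Fox calculus injectivity and a semidirect product whose normal subgroup is a union of relatively
convex subgroups without being relatively convex. -/

set_option autoImplicit false

namespace Pool.Agent.H64.Kok
open Pool.Agent.H64.OrdDefs Pool.Agent.H64.Ord

section fox
variable {E B : Type} [Ring E] [Ring B] (x : Fin 4 → Eˣ)

def wd : List (Fin 4 × Bool) → Eˣ
  | [] => 1
  | (i, true) :: w => wd w * x i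
  | (i, false) :: w => wd w * (x i)⁻¹

lemma wd_append (v w : List (Fin 4 × Bool)) : wd x (v ++ w) = wd x w * wd x v := by
  induction v with
  | nil => simp [wd]
  | cons a v ih => obtain ⟨i, _ | _⟩ := a <;> simp [wd, ih, mul_assoc]

lemma exists_wd {g : Eˣ} (h : g ∈ Subgroup.closure (Set.range x)) : ∃ w, wd x w = g := by
  induction h using Subgroup.closure_induction'' with
  | one => exact ⟨[], rfl⟩
  | mem a ha => obtain ⟨i, rfl⟩ := ha; exact ⟨[(i, true)], by simp [wd]⟩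
  | inv_mem a ha => obtain ⟨i, rfl⟩ := ha; exact ⟨[(i, false)], by simp [wd]⟩
  | mul a b _ _ ha hb =>
    obtain ⟨v, rfl⟩ := ha
    obtain ⟨w, rfl⟩ := hb
    exact ⟨w ++ v, wd_append x w v⟩

def SA (L : ℕ) : AddSubgroup E := AddSubgroup.closure {r | ∃ w, w.length < L ∧ r = (wd x w : E)}
def SB (L : ℕ) : AddSubgroup E := AddSubgroup.closure
  {r | ∃ w, (w.length < L ∨ ∃ i v, w = (i, true) :: v ∧ v.length < L) ∧ r = (wd x w : E)}

lemma SA_mono {L K : ℕ} (h : L ≤ K) : SA x L ≤ SA x K :=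
  AddSubgroup.closure_mono fun _ ⟨w, h1, h2⟩ => ⟨w, by omega, h2⟩

lemma SB_mono {L K : ℕ} (h : L ≤ K) : SB x L ≤ SB x K :=
  AddSubgroup.closure_mono fun _ ⟨w, h1, h2⟩ =>
    ⟨w, h1.imp (fun h => by omega) (fun ⟨i, v, h3, h4⟩ => ⟨i, v, h3, by omega⟩), h2⟩

lemma dec (w : List (Fin 4 × Bool)) : ∃ (n : ℤ) (d : Fin 4 → E),
    (wd x w : E) = n + ∑ i, d i * (x i + 1) ∧ (∀ i, d i * x i ∈ SB x w.length) ∧
      (∀ i, d i ∈ SA x (w.length + 1)) ∧ ((∃ i v, w = (i, true) :: v) → ∀ i, d i ∈ SA x w.length) := by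
  induction w with
  | nil => exact ⟨1, 0, by simp [wd], by simp, by simp, by simp⟩
  | cons a w ih =>
    obtain ⟨n, d, h1, h2, h3, _⟩ := ih
    have key : ∀ (i : Fin 4) (u : E), ((-n : ℤ) : E) + ∑ k, (-d k + if k = i then u else 0) * (x k + 1) =
        u * (x i + 1) - wd x w := by
      intro i u
      simp only [add_mul, neg_mul, Finset.sum_add_distrib, Finset.sum_neg_distrib, ite_mul, zero_mul,
        Finset.sum_ite_eq', Finset.mem_univ, if_true, h1]
      push_cast; abel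
    obtain ⟨i, _ | _⟩ := a
    · refine ⟨-n, fun k => -d k + if k = i then ((wd x w * (x i)⁻¹ : Eˣ) : E) else 0, ?_, fun k => ?_, fun k => ?_, by simp⟩
      · rw [key]; simp [wd, mul_add]
      · rw [add_mul, neg_mul]
        refine add_mem (neg_mem (SB_mono x (by simp) (h2 k))) ?_
        split_ifs with h
        · subst h
          exact AddSubgroup.subset_closure ⟨w, Or.inl (by simp), by simp⟩
        · simp
      · refine add_mem (neg_mem (SA_mono x (by simp) (h3 k))) ?_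
        split_ifs with h
        · exact AddSubgroup.subset_closure ⟨(i, false) :: w, by simp, rfl⟩
        · simp
    · have h5 : ∀ k, (-d k + if k = i then (wd x w : E) else 0) ∈ SA x (w.length + 1) := fun k => by
        refine add_mem (neg_mem (h3 k)) ?_
        split_ifs with h
        · exact AddSubgroup.subset_closure ⟨w, by simp, rfl⟩
        · simp
      refine ⟨-n, fun k => -d k + if k = i then (wd x w : E) else 0, ?_, fun k => ?_,
        fun k => SA_mono x (by simp) (h5 k), fun _ => h5⟩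
      · rw [key]; simp [wd, mul_add]
      · rw [add_mul, neg_mul]
        refine add_mem (neg_mem (SB_mono x (by simp) (h2 k))) ?_
        split_ifs with h
        · subst h
          exact AddSubgroup.subset_closure ⟨(k, true) :: w, Or.inr ⟨k, w, rfl, by simp⟩, by simp [wd]⟩
        · simp

def DD (D : Fin 4 → AddSubgroup E) : AddSubgroup E where
  carrier := {r | ∃ (n : ℤ) (d : Fin 4 → E), r = n + ∑ i, d i * (x i + 1) ∧ ∀ i, d i ∈ D i}
  zero_mem' := ⟨0, 0, by simp, by simp⟩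
  add_mem' := by
    rintro _ _ ⟨n, d, rfl, h⟩ ⟨n', d', rfl, h'⟩
    refine ⟨n + n', d + d', ?_, fun i => add_mem (h i) (h' i)⟩
    simp only [Pi.add_apply, add_mul, Finset.sum_add_distrib]; push_cast; abel
  neg_mem' := by
    rintro _ ⟨n, d, rfl, h⟩
    refine ⟨-n, -d, ?_, fun i => neg_mem (h i)⟩
    simp only [Pi.neg_apply, neg_mul, Finset.sum_neg_distrib]; push_cast; abel

lemma fox (ev : E →+* B)
    (hi : ∀ (n : ℤ) (f : Fin 4 → B), (n : B) + ∑ i, f i * (ev (x i) + 1) = 0 → n = 0 ∧ ∀ i, f i = 0)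
    (L : ℕ) : ∀ r ∈ SA x L, ev r = 0 → r = 0 := by
  have step : ∀ D : Fin 4 → AddSubgroup E, (∀ i, ∀ r ∈ D i, ev r = 0 → r = 0) →
      ∀ r ∈ DD x D, ev r = 0 → r = 0 := by
    rintro D hD _ ⟨n, d, rfl, h⟩ h0
    simp only [map_add, map_intCast, map_sum, map_mul, map_one] at h0
    obtain ⟨rfl, h1⟩ := hi n _ h0
    simp [fun i => hD i _ (h i) (h1 i)]
  induction L with
  | zero =>
    intro r hr _
    have : SA x 0 ≤ ⊥ := (AddSubgroup.closure_le _).2 fun _ ⟨w, h, _⟩ => by omega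
    exact this hr
  | succ L ih =>
    have h1 : SB x L ≤ DD x fun _ => SA x L := by
      refine (AddSubgroup.closure_le _).2 ?_
      rintro _ ⟨w, hw, rfl⟩
      obtain ⟨n, d, h1, _, h3, h4⟩ := dec x w
      refine ⟨n, d, h1, fun i => ?_⟩
      rcases hw with hw | ⟨k, v, rfl, hv⟩
      · exact SA_mono x hw (h3 i)
      · exact SA_mono x hv (h4 ⟨k, v, rfl⟩ i)
    have h2 : SA x (L + 1) ≤ DD x fun i => (SB x L).comap (AddMonoidHom.mulRight (x i : E)) := by
      refine (AddSubgroup.closure_le _).2 ?_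
      rintro _ ⟨w, hw, rfl⟩
      obtain ⟨n, d, h1, h2, _⟩ := dec x w
      exact ⟨n, d, h1, fun i => SB_mono x (by omega) (h2 i)⟩
    intro r hr
    refine step _ (fun i r hr h0 => ?_) r (h2 hr)
    have := step _ (fun _ => ih) (r * x i) (h1 hr) (by rw [map_mul, h0, zero_mul])
    simpa using this

def Gam : Subgroup Eˣ := Subgroup.closure (Set.range x)
def RR : AddSubgroup E := AddSubgroup.closure {r | ∃ g ∈ Gam x, r = (g : E)}

lemma RR_mul {g : Eˣ} (hg : g ∈ Gam x) {r : E} (hr : r ∈ RR x) : (g : E) * r ∈ RR x := by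
  have : RR x ≤ (RR x).comap (AddMonoidHom.mulLeft (g : E)) := by
    refine (AddSubgroup.closure_le _).2 ?_
    rintro _ ⟨h, hh, rfl⟩
    exact AddSubgroup.subset_closure ⟨g * h, mul_mem hg hh, by simp⟩
  exact this hr

lemma RR_SA {r : E} (hr : r ∈ RR x) : ∃ L, r ∈ SA x L := by
  induction hr using AddSubgroup.closure_induction with
  | mem r hr =>
    obtain ⟨g, hg, rfl⟩ := hr
    obtain ⟨w, rfl⟩ := exists_wd x hg
    exact ⟨w.length + 1, AddSubgroup.subset_closure ⟨w, by simp, rfl⟩⟩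
  | zero => exact ⟨0, zero_mem _⟩
  | add a b _ _ ha hb =>
    obtain ⟨L, ha⟩ := ha
    obtain ⟨K, hb⟩ := hb
    exact ⟨L + K, add_mem (SA_mono x (by omega) ha) (SA_mono x (by omega) hb)⟩
  | neg a _ ha => exact ha.imp fun L h => neg_mem h

end fox

lemma _root_.Pool.Agent.H64.Ord.Cone.left_ker {G : Type} [Group G] (c : Cone G) {a b : G} (ha : a ∈ c.P)
    (hb : b ∈ c.P) (h : a * b ∈ c.ker) : a ∈ c.ker :=
  ⟨ha, by simpa using c.mul _ hb _ h.2⟩

def lexC {G : Type} [Group G] (c d : Cone G) : Cone G where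
  P := {a | a ∈ c.P ∧ (a⁻¹ ∈ c.P → a ∈ d.P)}
  mul := by
    rintro a ⟨h1, h2⟩ b ⟨h3, h4⟩
    refine ⟨c.mul _ h1 _ h3, fun h => d.mul _ (h2 ?_) _ (h4 ?_)⟩
    · simpa using c.mul _ h3 _ h
    · simpa [mul_assoc] using c.mul _ h _ h1
  conj := by
    rintro a ⟨h1, h2⟩ g
    refine ⟨c.conj _ h1 g, fun h => d.conj _ (h2 ?_) g⟩
    simpa [mul_assoc] using c.conj _ h g⁻¹
  tot := by
    intro a
    by_cases h1 : a ∈ c.P <;> by_cases h2 : a⁻¹ ∈ c.P
    · rcases d.tot a with h | h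
      · exact Or.inl ⟨h1, fun _ => h⟩
      · exact Or.inr ⟨h2, fun _ => h⟩
    · exact Or.inl ⟨h1, fun h => (h2 h).elim⟩
    · exact Or.inr ⟨h2, fun h => (h1 (by simpa using h)).elim⟩
    · exact ((c.tot a).elim h1 h2).elim

lemma lexC_ker {G : Type} [Group G] (c d : Cone G) {a : G} (h : a ∈ (lexC c d).ker) :
    a ∈ c.ker ∧ a ∈ d.ker :=
  ⟨⟨h.1.1, h.2.1⟩, h.1.2 h.2.1, h.2.2 (by simpa using h.1.1)⟩

lemma rel_of_cone {G : Type} [Group G] (c d : Cone G) (h : ∀ a ∈ d.ker, a = 1) : RelConvex c.ker := by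
  have hk : ∀ a ∈ (lexC c d).ker, a = 1 := fun a ha => h a (lexC_ker c d ha).2
  refine ⟨(lexC c d).ord hk, (lexC c d).ord_bi hk, fun h1 hh1 h2 hh2 g l1 l2 => ⟨?_, ?_⟩⟩
  · simpa using c.mul _ hh1.1 _ l1.1
  · simpa [mul_assoc] using c.mul _ l2.1 _ hh2.2

section grp
variable {E B : Type} [Ring E] [Ring B]

lemma OP.one (o : OP E) [Nontrivial E] : o.P 1 := by
  rcases o.tri 1 one_ne_zero with h | h
  · exact h
  · simpa using o.mul _ _ h h

lemma OP.asym (o : OP E) {a : E} (h : o.P a) (h' : o.P (-a)) : False :=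
  o.nz (by simpa using o.add _ _ h h')

lemma OP.inv (o : OP E) [Nontrivial E] {u : Eˣ} (h : o.P u) : o.P (u⁻¹ : Eˣ) := by
  rcases o.tri (u⁻¹ : Eˣ) (Units.ne_zero _) with h1 | h1
  · exact h1
  · exact (o.asym o.one (by simpa using o.mul _ _ h h1)).elim

@[ext] structure AF (E : Type) [Ring E] where
  a : E
  b : E
  g : Eˣ

instance : Mul (AF E) := ⟨fun u v => ⟨u.a + u.g * v.a, u.b + u.g * v.b, u.g * v.g⟩⟩
instance : One (AF E) := ⟨⟨0, 0, 1⟩⟩
instance : Inv (AF E) := ⟨fun u => ⟨-((u.g⁻¹ : Eˣ) * u.a), -((u.g⁻¹ : Eˣ) * u.b), u.g⁻¹⟩⟩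
@[simp] lemma mul_a (u v : AF E) : (u * v).a = u.a + u.g * v.a := rfl
@[simp] lemma mul_b (u v : AF E) : (u * v).b = u.b + u.g * v.b := rfl
@[simp] lemma mul_g (u v : AF E) : (u * v).g = u.g * v.g := rfl
@[simp] lemma one_a : (1 : AF E).a = 0 := rfl
@[simp] lemma one_b : (1 : AF E).b = 0 := rfl
@[simp] lemma one_g : (1 : AF E).g = 1 := rfl
@[simp] lemma inv_a (u : AF E) : u⁻¹.a = -((u.g⁻¹ : Eˣ) * u.a) := rfl
@[simp] lemma inv_b (u : AF E) : u⁻¹.b = -((u.g⁻¹ : Eˣ) * u.b) := rfl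
@[simp] lemma inv_g (u : AF E) : u⁻¹.g = u.g⁻¹ := rfl

instance : Group (AF E) := Group.ofLeftAxioms
  (fun u v w => by ext <;> simp [mul_add, mul_assoc, add_assoc])
  (fun u => by ext <;> simp) (fun u => by ext <;> simp)

lemma conj_ab (u v : AF E) (h : u.g = 1) : (v * u * v⁻¹).a = v.g * u.a ∧ (v * u * v⁻¹).b = v.g * u.b := by
  constructor <;> simp [h]

variable (x : Fin 4 → Eˣ)

def GG : Subgroup (AF E) where
  carrier := {u | u.a ∈ RR x ∧ u.b ∈ RR x ∧ u.g ∈ Gam x}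
  mul_mem' := fun {u v} hu hv => ⟨add_mem hu.1 (RR_mul x hu.2.2 hv.1),
    add_mem hu.2.1 (RR_mul x hu.2.2 hv.2.1), mul_mem hu.2.2 hv.2.2⟩
  one_mem' := ⟨zero_mem _, zero_mem _, one_mem _⟩
  inv_mem' := fun {u} hu => ⟨neg_mem (RR_mul x (inv_mem hu.2.2) hu.1),
    neg_mem (RR_mul x (inv_mem hu.2.2) hu.2.1), inv_mem hu.2.2⟩

lemma Gam_pos (o : OP E) [Nontrivial E] (hx : ∀ i, o.P (x i)) {g : Eˣ} (hg : g ∈ Gam x) : o.P g := by
  induction hg using Subgroup.closure_induction with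
  | mem a ha => obtain ⟨i, rfl⟩ := ha; exact hx i
  | one => exact o.one
  | mul a b _ _ ha hb => exact o.mul _ _ ha hb
  | inv a _ ha => exact o.inv ha

def cn (o : OP E) [Nontrivial E] (hx : ∀ i, o.P (x i)) (p q : E) : Cone (GG x) where
  P := {u | o.P ((u.1.g : E) - 1) ∨
    (u.1.g = 1 ∧ (o.P (u.1.a * p - u.1.b * q) ∨ u.1.a * p - u.1.b * q = 0))}
  mul := by
    rintro u (hu | ⟨hu, hu'⟩) v (hv | ⟨hv, hv'⟩)
    · left
      have := o.add _ _ hu (o.mul _ _ (Gam_pos x o hx u.2.2.2) hv)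
      rwa [show ((u.1.g : E) - 1) + u.1.g * (v.1.g - 1) = ((u * v).1.g : E) - 1 by
        simp [mul_sub]] at this
    · left; simpa [hv] using hu
    · left; simpa [hu] using hv
    · right
      refine ⟨by simp [hu, hv], ?_⟩
      have e : (u * v).1.a * p - (u * v).1.b * q = (u.1.a * p - u.1.b * q) + (v.1.a * p - v.1.b * q) := by
        simp [hu, add_mul]; abel
      rw [e]
      rcases hu' with h | h <;> rcases hv' with h' | h'
      · exact Or.inl (o.add _ _ h h')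
      · left; rwa [h', add_zero]
      · left; rwa [h, zero_add]
      · right; rw [h, h', add_zero]
  conj := by
    rintro u (hu | ⟨hu, hu'⟩) v
    · left
      have h := Gam_pos x o hx v.2.2.2
      have := o.mul _ _ (o.mul _ _ h hu) (o.inv h)
      rwa [show (v.1.g : E) * ((u.1.g : E) - 1) * (v.1.g⁻¹ : Eˣ) = ((v * u * v⁻¹).1.g : E) - 1 by
        simp [mul_sub, sub_mul]] at this
    · right
      refine ⟨by simp [hu], ?_⟩
      have e : (v * u * v⁻¹).1.a * p - (v * u * v⁻¹).1.b * q = v.1.g * (u.1.a * p - u.1.b * q) := by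
        show (v.1 * u.1 * v.1⁻¹).a * p - (v.1 * u.1 * v.1⁻¹).b * q = _
        rw [(conj_ab _ _ hu).1, (conj_ab _ _ hu).2, mul_sub, mul_assoc, mul_assoc]
      rw [e]
      exact hu'.imp (fun h => o.mul _ _ (Gam_pos x o hx v.2.2.2) h) (fun h => by rw [h, mul_zero])
  tot := by
    intro u
    by_cases hu : u.1.g = 1
    · have e : (u⁻¹).1.a * p - (u⁻¹).1.b * q = -(u.1.a * p - u.1.b * q) := by
        simp [hu]; abel
      by_cases h : u.1.a * p - u.1.b * q = 0
      · exact Or.inl (Or.inr ⟨hu, Or.inr h⟩)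
      · rcases o.tri _ h with h | h
        · exact Or.inl (Or.inr ⟨hu, Or.inl h⟩)
        · exact Or.inr (Or.inr ⟨by simp [hu], Or.inl (by rwa [e])⟩)
    · rcases o.tri ((u.1.g : E) - 1) (by simpa [sub_eq_zero] using hu) with h | h
      · exact Or.inl (Or.inl h)
      · right; left
        have := o.mul _ _ (o.inv (Gam_pos x o hx u.2.2.2)) h
        rwa [show ((u.1.g⁻¹ : Eˣ) : E) * -((u.1.g : E) - 1) = ((u⁻¹).1.g : E) - 1 by
          simp [mul_sub]] at this

lemma cn_ker (o : OP E) [Nontrivial E] (hx : ∀ i, o.P (x i)) (p q : E) (u : GG x) :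
    u ∈ (cn x o hx p q).ker ↔ u.1.g = 1 ∧ u.1.a * p = u.1.b * q := by
  have e : u.1.g = 1 → (u⁻¹).1.a * p - (u⁻¹).1.b * q = -(u.1.a * p - u.1.b * q) := fun hu => by
    simp [hu]; abel
  constructor
  · rintro ⟨h1 | ⟨h1, h2⟩, h3 | ⟨h3, h4⟩⟩
    · exfalso
      have := o.mul _ _ (Gam_pos x o hx u.2.2.2) h3
      exact o.asym h1 (by simpa [mul_sub] using this)
    · have : u.1.g = 1 := by simpa using h3
      exact (o.nz (by simpa [this] using h1)).elim
    · exact (o.nz (by simpa [h1] using h3)).elim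
    · refine ⟨h1, sub_eq_zero.1 ?_⟩
      rw [e h1] at h4
      rcases h2 with h2 | h2
      · rcases h4 with h4 | h4
        · exact (o.asym h2 h4).elim
        · exact neg_eq_zero.1 h4
      · exact h2
  · rintro ⟨h1, h2⟩
    exact ⟨Or.inr ⟨h1, Or.inr (sub_eq_zero.2 h2)⟩,
      Or.inr ⟨by simp [h1], Or.inr (by rw [e h1, h2, sub_self, neg_zero])⟩⟩

def HH (ev : E →+* B) (s : B) : Subgroup (GG x) where
  carrier := {u | u.1.g = 1 ∧ ev u.1.b = ev u.1.a * s}
  mul_mem' := fun {u v} hu hv => ⟨by simp [hu.1, hv.1], by simp [hu.1, hu.2, hv.2, add_mul]⟩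
  one_mem' := ⟨rfl, by simp⟩
  inv_mem' := fun {u} hu => ⟨by simp [hu.1], by simp [hu.1, hu.2]⟩

instance (ev : E →+* B) (s : B) : (HH x ev s).Normal :=
  ⟨fun u hu v => ⟨by simp [hu.1], by
    show ev (v.1 * u.1 * v.1⁻¹).b = ev (v.1 * u.1 * v.1⁻¹).a * s
    rw [(conj_ab _ _ hu.1).1, (conj_ab _ _ hu.1).2, map_mul, map_mul, hu.2, mul_assoc]⟩⟩

theorem abstr [Nontrivial E] [Nontrivial B] [NoZeroDivisors B] (o : OP E) (hx : ∀ i, o.P (x i))
    (ev : E →+* B) (s : B) (hs : s ≠ 0)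
    (hi : ∀ (n : ℤ) (f : Fin 4 → B), (n : B) + ∑ i, f i * (ev (x i) + 1) = 0 → n = 0 ∧ ∀ i, f i = 0)
    (r1 : ev (x 1) + 1 = (ev (x 0) + 1) * s) (r2 : -(ev (x 3) + 1) = (ev (x 2) + 1) * s)
    (ore : ∀ a b : E, ∃ p q, a * p = b * q ∧ (ev p ≠ 0 ∨ ev q ≠ 0)) :
    (∃ o : LinearOrder (GG x), BiInv o) ∧
      (∀ h ∈ HH x ev s, ∃ N : Subgroup (GG x), RelConvex N ∧ N ≤ HH x ev s ∧ h ∈ N) ∧
      ¬ RelConvex (HH x ev s) := by
  have inj : ∀ r ∈ RR x, ev r = 0 → r = 0 := fun r hr => by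
    obtain ⟨L, h⟩ := RR_SA x hr
    exact fox x ev hi L r h
  let d := lexC (cn x o hx 1 0) (cn x o hx 0 1)
  have hd : ∀ a ∈ d.ker, a = 1 := fun a ha => by
    obtain ⟨h1, h2⟩ := lexC_ker _ _ ha
    rw [cn_ker] at h1 h2
    ext
    · simpa using h1.2
    · simpa using h2.2.symm
    · simp [h1.1]
  refine ⟨⟨d.ord hd, d.ord_bi hd⟩, fun h hh => ?_, fun hr => ?_⟩
  · by_cases h0 : h.1.a = 0
    · refine ⟨d.ker, rel_of_cone d d hd, fun a ha => by rw [hd a ha]; exact one_mem _, ?_⟩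
      have : h = 1 := by
        ext
        · simp [h0]
        · simpa using inj _ h.2.2.1 (by simpa [h0] using hh.2)
        · simp [hh.1]
      rw [this]; exact one_mem _
    · obtain ⟨p, q, h1, h2⟩ := ore h.1.a h.1.b
      have h3 : ev p = s * ev q := by
        have := congrArg ev h1
        rw [map_mul, map_mul, hh.2, mul_assoc] at this
        exact mul_left_cancel₀ (fun e => h0 (inj _ h.2.1 e)) this
      have h4 : ev q ≠ 0 := fun e => by simp [h3, e] at h2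
      refine ⟨_, rel_of_cone (cn x o hx p q) d hd, fun k hk => ?_, (cn_ker ..).2 ⟨hh.1, h1⟩⟩
      rw [cn_ker] at hk
      have := congrArg ev hk.2
      rw [map_mul, map_mul, h3, ← mul_assoc] at this
      exact ⟨hk.1, (mul_right_cancel₀ h4 this).symm⟩
  · obtain ⟨c, hc⟩ := cone_of_rel _ hr
    have o1 : (1 : E) ∈ RR x := AddSubgroup.subset_closure ⟨1, one_mem _, rfl⟩
    let a : GG x := ⟨⟨1, 0, 1⟩, o1, zero_mem _, one_mem _⟩
    let b : GG x := ⟨⟨0, 1, 1⟩, zero_mem _, o1, one_mem _⟩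
    let y : Fin 4 → GG x := fun i => ⟨⟨0, 0, x i⟩, zero_mem _, zero_mem _, Subgroup.subset_closure ⟨i, rfl⟩⟩
    have key : ∀ u ∈ c.P, ∀ v ∈ c.P, ∀ i k, u * (y i * u * (y i)⁻¹ * (v * (y k * v * (y k)⁻¹))) ∈ HH x ev s →
        u ∈ HH x ev s := fun u hu v hv i k h => by
      rw [← hc] at h ⊢
      exact c.left_ker hu (c.mul _ (c.conj _ hu _) _ (c.mul _ hv _ (c.conj _ hv _))) h
    have na : a ∉ HH x ev s := fun h => hs (by simpa [a] using h.2.symm)
    have r3 : ev (x 3) + 1 = -((ev (x 2) + 1) * s) := by rw [← r2, neg_neg]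
    rcases c.tot a with h1 | h1 <;> rcases c.tot b with h2 | h2
    · refine na (key a h1 b h2 0 1 ⟨by simp [a, b, y], ?_⟩)
      simp [a, b, y]
      rw [add_comm, r1, add_comm]
    · refine na (key a h1 _ h2 2 3 ⟨by simp [a, b, y], ?_⟩)
      simp [a, b, y]
      rw [← neg_add, add_comm, r2, add_comm]
    · refine na (inv_mem_iff.1 (key _ h1 b h2 2 3 ⟨by simp [a, b, y], ?_⟩))
      simp [a, b, y]
      rw [← neg_add, add_comm, r3, add_comm, neg_mul]
    · refine na (inv_mem_iff.1 (key _ h1 _ h2 0 1 ⟨by simp [a, b, y], ?_⟩))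
      simp [a, b, y]
      rw [← neg_add, ← neg_add, add_comm, r1, add_comm, neg_mul]

end grp

open LaurentPolynomial Polynomial

noncomputable def evB : LaurentPolynomial BB →+* BB :=
  AddMonoidAlgebra.liftNCRingHom (RingHom.id BB) ((Units.coeHom BB).comp (zpowersHom BBˣ (-1)))
    (fun a n => by
      have : Commute a ((-1 : BBˣ) : BB) := by simp
      exact this.units_zpow_right _)

lemma evB_C (a : BB) : evB (LaurentPolynomial.C a) = a := by
  rw [← single_eq_C, evB, AddMonoidAlgebra.liftNCRingHom_single]; simp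

lemma evB_T : evB (T 1) = -1 := by
  rw [T, evB, AddMonoidAlgebra.liftNCRingHom_single]; simp

noncomputable def ep (i : Fin 4) : BB := if i = 3 then -1 else 1

lemma yy0 (i : Fin 4) : (1 - ep i * XX i : BB) 0 = 1 := by
  simp [(mul_XX _ _).1, one_c]

lemma xx_unit (i : Fin 4) : IsUnit (T 1 * LaurentPolynomial.C (1 - ep i * XX i) : LaurentPolynomial BB) :=
  (isUnit_T 1).mul ((isUnit_of (by rw [yy0]; exact one_ne_zero)).map _)

noncomputable def xx (i : Fin 4) : (LaurentPolynomial BB)ˣ := (xx_unit i).unit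

lemma ev_xx (i : Fin 4) : evB (xx i) + 1 = ep i * XX i := by
  rw [xx, IsUnit.unit_spec, map_mul, evB_T, evB_C]
  exact (fun {A : Type} [Ring A] (u : A) => (by simp : -1 * (1 - u) + 1 = u)) _

theorem final : ∃ (G : Type) (_ : Group G) (H : Subgroup G), H.Normal ∧ (∃ o : LinearOrder G, BiInv o) ∧
    (∀ h ∈ H, ∃ N : Subgroup G, RelConvex N ∧ N ≤ H ∧ h ∈ N) ∧ ¬ RelConvex H := by
  refine ⟨GG xx, inferInstance, HH xx evB cs, inferInstance, abstr xx oB.laurent (fun i => ?_) evB cs ?_ ?_ ?_ ?_ ?_⟩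
  · refine ⟨0, Polynomial.C (1 - ep i * XX i) * X, ?_, ?_⟩
    · rw [xx, IsUnit.unit_spec, map_mul, toLaurent_C, toLaurent_X, T_mul]; simp
    · rw [leadingCoeff_mul_X, leadingCoeff_C]
      exact ⟨0, by rw [yy0]; exact zero_lt_one (α := Lex KK), fun i hi => by omega⟩
  · intro h
    have := congrFun h 0
    simp [cs, ss] at this
  · intro n f h
    simp only [ev_xx, ← mul_assoc] at h
    obtain ⟨h1, h2⟩ := XX_indep n _ h
    refine ⟨h1, fun i => (mul_eq_zero.1 (h2 i)).resolve_right ?_⟩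
    rw [ep]; split_ifs <;> simp
  · rw [ev_xx, ev_xx, mul_assoc, XX_cs]; rfl
  · rw [ev_xx, ev_xx, mul_assoc, XX_cs]; simp [ep]
  · intro a b
    obtain ⟨n, a', ha⟩ := exists_T_pow a
    obtain ⟨m, b', hb⟩ := exists_T_pow b
    obtain ⟨p, q, h1, h2⟩ := ore1 chain (evB.comp toLaurent) (fun c => by simp [evB_C]) (by simp [evB_T]) a' b'
    refine ⟨T n * toLaurent p, T m * toLaurent q, ?_, h2.imp (fun h => ?_) (fun h => ?_)⟩
    · rw [← mul_assoc, ← mul_assoc, ← ha, ← hb, ← map_mul, ← map_mul, h1]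
    · rw [map_mul]; exact mul_ne_zero ((isUnit_T _).map evB).ne_zero h
    · rw [map_mul]; exact mul_ne_zero ((isUnit_T _).map evB).ne_zero h

end Pool.Agent.H64.Kok
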