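import Mathlib

set_option autoImplicit false

namespace Pool.Agent.H64.LAut

/-- index of the copies of the group -/
inductive Ix (G : Type) where
  | a : Ix G
  | b : Ix G
  | c : G → Ix G

/-- rank data -/
structure Rk (G T : Type) [LinearOrder T] where
  r : Ix G → T
  inj : Function.Injective r
  t0 : T
  bot : ∀ t, t0 ≤ t
  pos : ∀ i, t0 < r i
  ha : ∀ g, r .a ≤ r (.c g)
  hb : ∀ g, r .b ≤ r (.c g)

variable {G T : Type} [LinearOrder T]

/-- the poset -/
inductive Om (R : Rk G T) where
  | pt : Ix G → G → Om R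
  | tag : T → Om R

variable [Group G] [Lattice G] [MulLeftMono G] [MulRightMono G]

/-- order between points of copies -/
def cross : Ix G → G → Ix G → G → Prop
  | .a, x, .a, y => x ≤ y
  | .a, _, .b, _ => False
  | .a, x, .c g, y => x * g ≤ y
  | .b, _, .a, _ => False
  | .b, x, .b, y => x ≤ y
  | .b, x, .c _, y => x ≤ y
  | .c _, _, .a, _ => False
  | .c _, _, .b, _ => False
  | .c g, x, .c h, y => g = h ∧ x ≤ y

omit [MulLeftMono G] [MulRightMono G] in
theorem cross_self (i : Ix G) (x y : G) : cross i x i y ↔ x ≤ y := by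
  cases i <;> simp [cross]

omit [MulLeftMono G] in
theorem cross_trans {i j k : Ix G} {x y z : G} (h1 : cross i x j y) (h2 : cross j y k z) :
    cross i x k z := by
  cases i <;> cases j <;> cases k <;> simp only [cross] at h1 h2 ⊢
  all_goals first
    | exact h1.trans h2
    | exact (mul_le_mul_left h1 _).trans h2
    | (obtain ⟨rfl, h2⟩ := h2; exact h1.trans h2)
    | exact h1.trans h2.2
    | exact ⟨h1.1.trans h2.1, h1.2.trans h2.2⟩

omit [MulLeftMono G] [MulRightMono G] in
theorem cross_anti {i j : Ix G} {x y : G} (h1 : cross i x j y) (h2 : cross j y i x) :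
    i = j ∧ x = y := by
  cases i <;> cases j <;> simp only [cross] at h1 h2 ⊢
  · exact ⟨trivial, le_antisymm h1 h2⟩
  · exact ⟨trivial, le_antisymm h1 h2⟩
  · exact ⟨by rw [h1.1], le_antisymm h1.2 h2.2⟩

omit [MulLeftMono G] [MulRightMono G] in
theorem cross_rk (R : Rk G T) {i j : Ix G} {x y : G} (h : cross i x j y) : R.r i ≤ R.r j := by
  cases i <;> cases j <;> simp only [cross] at h
  · exact le_rfl
  · exact R.ha _
  · exact le_rfl
  · exact R.hb _
  · rw [h.1]

omit [MulRightMono G] in
theorem cross_mul (g : G) (i j : Ix G) (x y : G) :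
    cross i (g * x) j (g * y) ↔ cross i x j y := by
  cases i <;> cases j <;> simp [cross, mul_assoc]

/-- the order relation -/
def le' (R : Rk G T) : Om R → Om R → Prop
  | .pt i x, .pt j y => cross i x j y
  | .pt i _, .tag t => R.r i ≤ t
  | .tag _, .pt _ _ => False
  | .tag s, .tag t => s ≤ t

instance (R : Rk G T) : PartialOrder (Om R) where
  le := le' R
  le_refl p := by
    cases p with
    | pt i x => exact (cross_self i x x).2 le_rfl
    | tag t => exact le_refl t
  le_trans p q s h1 h2 := by
    cases p <;> cases q <;> cases s <;> simp only [le'] at h1 h2 ⊢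
    · exact cross_trans h1 h2
    · exact (cross_rk R h1).trans h2
    · exact h1.trans h2
    · exact h1.trans h2
  le_antisymm p q h1 h2 := by
    cases p <;> cases q <;> simp only [le'] at h1 h2
    · obtain ⟨rfl, rfl⟩ := cross_anti h1 h2; rfl
    · rw [le_antisymm h1 h2]

variable {R : Rk G T}

omit [MulLeftMono G] in
theorem pt_le_pt (i j : Ix G) (x y : G) : (Om.pt i x : Om R) ≤ .pt j y ↔ cross i x j y := Iff.rfl
omit [MulLeftMono G] in
theorem pt_le_tag (i : Ix G) (x : G) (t : T) : (Om.pt i x : Om R) ≤ .tag t ↔ R.r i ≤ t := Iff.rfl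
omit [MulLeftMono G] in
theorem tag_le_pt (i : Ix G) (x : G) (t : T) : ¬ (Om.tag t : Om R) ≤ .pt i x := fun h => h
omit [MulLeftMono G] in
theorem tag_le_tag (s t : T) : (Om.tag s : Om R) ≤ .tag t ↔ s ≤ t := Iff.rfl

/-- left multiplication -/
def act (R : Rk G T) (g : G) : Om R → Om R
  | .pt i x => .pt i (g * x)
  | .tag t => .tag t

omit [Lattice G] [MulLeftMono G] [MulRightMono G] in
theorem act_act (g h : G) (p : Om R) : act R g (act R h p) = act R (g * h) p := by
  cases p <;> simp [act, mul_assoc]

omit [Lattice G] [MulLeftMono G] [MulRightMono G] in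
theorem act_one (p : Om R) : act R 1 p = p := by
  cases p <;> simp [act]

/-- the automorphism given by left multiplication -/
def phi (R : Rk G T) (g : G) : Om R ≃o Om R where
  toFun := act R g
  invFun := act R g⁻¹
  left_inv p := by rw [act_act, inv_mul_cancel, act_one]
  right_inv p := by rw [act_act, mul_inv_cancel, act_one]
  map_rel_iff' := by
    intro p q
    cases p <;> cases q
    · exact cross_mul _ _ _ _ _
    · exact Iff.rfl
    · exact Iff.rfl
    · exact Iff.rfl

theorem phi_apply (g : G) (p : Om R) : phi R g p = act R g p := rfl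

theorem exists_lt_one [Nontrivial G] : ∃ g : G, g < 1 := by
  obtain ⟨x, hx⟩ := exists_ne (1 : G)
  by_cases h : 1 ≤ x
  · exact ⟨x⁻¹, by
      have : 1 < x := lt_of_le_of_ne h hx.symm
      exact Left.inv_lt_one_iff.2 this⟩
  · exact ⟨x ⊓ 1, lt_of_le_of_ne inf_le_right (fun e => h (inf_eq_right.1 e))⟩

theorem isMin_iff [Nontrivial G] (p : Om R) : IsMin p ↔ p = .tag R.t0 := by
  constructor
  · intro h
    cases p with
    | pt i x =>
      exfalso
      obtain ⟨g, hg⟩ := exists_lt_one (G := G)
      have h1 : (Om.pt i (x * g) : Om R) ≤ .pt i x := by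
        rw [pt_le_pt, cross_self]; exact mul_le_of_le_one_right' hg.le
      have h2 := h h1
      rw [pt_le_pt, cross_self] at h2
      have : (1 : G) ≤ g := by simpa using h2
      exact absurd hg (not_lt_of_ge this)
    | tag t =>
      have h1 : (Om.tag R.t0 : Om R) ≤ .tag t := R.bot t
      exact le_antisymm (h h1) h1
  · rintro rfl q hq
    cases q with
    | pt i x => exact absurd (R.pos i) (not_lt_of_ge hq)
    | tag t => exact R.bot t

theorem map_t0 [Nontrivial G] (f : Om R ≃o Om R) : f (.tag R.t0) = .tag R.t0 := by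
  rw [← isMin_iff]
  exact (f.isMin_apply).2 ((isMin_iff _).2 rfl)

theorem map_tag_ex [Nontrivial G] (f : Om R ≃o Om R) (t : T) : ∃ s, f (.tag t) = .tag s := by
  have h : f (.tag R.t0) ≤ f (.tag t) := f.le_iff_le.2 (R.bot t)
  rw [map_t0] at h
  cases hq : f (.tag t) with
  | pt i x => rw [hq] at h; exact absurd h (tag_le_pt _ _ _)
  | tag s => exact ⟨s, rfl⟩

theorem tag_le_map [Nontrivial G] [WellFoundedLT T] (f : Om R ≃o Om R) (t : T) :
    (Om.tag t : Om R) ≤ f (.tag t) := by
  choose u hu using map_tag_ex f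
  have hm : StrictMono u := by
    intro s t hst
    have h1 : (Om.tag s : Om R) < .tag t := by
      refine lt_of_le_of_ne hst.le ?_
      intro e; injection e with e; exact hst.ne e
    have h2 := f.lt_iff_lt.2 h1
    rw [hu, hu] at h2
    exact lt_of_le_of_ne h2.le (fun e => h2.ne (by rw [e]))
  rw [hu]
  exact hm.le_apply

theorem map_tag [Nontrivial G] [WellFoundedLT T] (f : Om R ≃o Om R) (t : T) :
    f (.tag t) = .tag t := by
  refine le_antisymm ?_ (tag_le_map f t)
  have := f.le_iff_le.2 (tag_le_map f.symm t)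
  simpa using this

theorem map_pt [Nontrivial G] [WellFoundedLT T] (f : Om R ≃o Om R) (i : Ix G) (x : G) :
    ∃ y, f (.pt i x) = .pt i y := by
  cases hq : f (.pt i x) with
  | tag s =>
    rw [← map_tag f s] at hq
    exact absurd (f.injective hq) (by simp)
  | pt j y =>
    have key : ∀ t, R.r j ≤ t ↔ R.r i ≤ t := by
      intro t
      rw [← pt_le_tag j y t, ← hq, ← map_tag f t, f.le_iff_le, pt_le_tag]
    have : j = i := R.inj (le_antisymm ((key _).2 le_rfl) ((key _).1 le_rfl))
    exact ⟨y, by rw [this]⟩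

theorem surj [Nontrivial G] [WellFoundedLT T] (f : Om R ≃o Om R) : ∃ g, phi R g = f := by
  choose u hu using map_pt f
  choose v hv using map_pt f.symm
  have huv : ∀ i y, u i (v i y) = y := by
    intro i y
    have := hu i (v i y)
    rw [← hv, OrderIso.apply_symm_apply] at this
    injection this with _ h; exact h.symm
  have key : ∀ i j x y, cross i (u i x) j (u j y) ↔ cross i x j y := by
    intro i j x y
    rw [← pt_le_pt (R := R), ← hu, ← hu, f.le_iff_le, pt_le_pt]
  have hc : ∀ g y, u (.c g) y = u .b y := by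
    intro g y
    apply eq_of_forall_le_iff
    intro z
    rw [← huv .b z]
    exact (key .b (.c g) _ y).trans (key .b .b _ y).symm
  have ha : ∀ x g, u .a x * g = u .b (x * g) := by
    intro x g
    apply eq_of_forall_ge_iff
    intro z
    rw [← huv .b z]
    have h1 := key .a (.c g) x (v .b z)
    rw [hc] at h1
    exact h1.trans (key .b .b (x * g) _).symm
  have hab : ∀ x, u .a x = u .b x := fun x => by simpa using ha x 1
  have hb : ∀ x, u .b x = u .b 1 * x := fun x => by
    have := ha 1 x
    rw [hab, one_mul] at this; exact this.symm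
  refine ⟨u .b 1, ?_⟩
  ext p
  rw [phi_apply]
  cases p with
  | tag t => rw [map_tag]; rfl
  | pt i x =>
    rw [hu]
    cases i with
    | a => rw [hab, hb x]; rfl
    | b => rw [hb x]; rfl
    | c g => rw [hc, hb x]; rfl

theorem le_iff (a b : G) : a ≤ b ↔ ∀ p : Om R, phi R a p ≤ phi R b p := by
  constructor
  · intro h p
    cases p with
    | tag t => exact le_refl t
    | pt i x => exact (cross_self i _ _).2 (mul_le_mul_left h x)
  · intro h
    have := h (.pt .a 1)
    simpa [phi_apply, act, pt_le_pt, cross] using this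

/-- wrapper carrying a well-order -/
structure W (G : Type) where
  val : G

theorem exists_rk (G : Type) :
    ∃ (T : Type) (_ : LinearOrder T) (_ : WellFoundedLT T), Nonempty (Rk G T) := by
  obtain ⟨L, hL⟩ := exists_wellOrder (W G)
  refine ⟨WithBot (WithBot (WithBot (W G))), inferInstance, inferInstance, ⟨⟨fun i =>
    match i with
    | .a => ((⊥ : WithBot (WithBot (W G))) : WithBot (WithBot (WithBot (W G))))
    | .b => (((⊥ : WithBot (W G)) : WithBot (WithBot (W G))) : WithBot (WithBot (WithBot (W G))))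
    | .c g => ((((⟨g⟩ : W G) : WithBot (W G)) : WithBot (WithBot (W G))) :
        WithBot (WithBot (WithBot (W G)))), ?_, ⊥, fun _ => bot_le, ?_, ?_, ?_⟩⟩⟩
  · intro i j h
    cases i <;> cases j <;> simp at h ⊢
    exact h
  · intro i; cases i <;> simp
  · intro g; simp
  · intro g; simp

theorem main (G : Type) [Group G] [Lattice G] [MulLeftMono G] [MulRightMono G] :
    ∃ (Ω : Type) (_ : PartialOrder Ω) (φ : G → (Ω ≃o Ω)),
      Function.Bijective φ ∧
      (∀ a b : G, φ (a * b) = (φ b).trans (φ a)) ∧
      (∀ a b : G, a ≤ b ↔ ∀ x : Ω, φ a x ≤ φ b x) := by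
  rcases subsingleton_or_nontrivial G with hG | hG
  · refine ⟨Unit, inferInstance, fun _ => OrderIso.refl _, ⟨fun _ _ _ => Subsingleton.elim _ _,
      fun f => ⟨1, by ext⟩⟩, fun _ _ => by ext, fun a b => ?_⟩
    exact ⟨fun _ _ => le_rfl, fun _ => (Subsingleton.elim a b).le⟩
  · obtain ⟨T, L, hL, ⟨R⟩⟩ := exists_rk G
    refine ⟨Om R, inferInstance, phi R, ⟨?_, surj⟩, ?_, le_iff⟩
    · intro a b h
      exact le_antisymm ((le_iff (R := R) a b).2 fun p => by rw [h])
        ((le_iff (R := R) b a).2 fun p => by rw [h])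
    · intro a b
      ext p
      simp [phi_apply, act_act]

end Pool.Agent.H64.LAut
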