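import Mathlib

set_option autoImplicit false

namespace Pool.Agent.H64.Lerf

open LaurentPolynomial

abbrev F := ZMod 2
abbrev L := LaurentPolynomial F
abbrev Z := ℕ →₀ F

theorem zm (c : F) : c = 0 ∨ c = 1 := by revert c; decide

def K : ℕ → ℕ
  | 0 => 1
  | l + 1 => K l * (8 * (l + 1))

def J : ℕ → ℕ
  | 0 => 0
  | l + 1 => J l + 4 * (l + 1) * K l

theorem K_pos (l : ℕ) : 0 < K l := by
  induction l with
  | zero => decide
  | succ l ih => simp only [K]; positivity

theorem K_gt (l : ℕ) : l < K l := by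
  induction l with
  | zero => decide
  | succ l ih => simp only [K]; nlinarith

theorem K_dvd {l m : ℕ} (h : l ≤ m) : K l ∣ K m := by
  induction h with
  | refl => rfl
  | step _ ih => exact ih.trans (Dvd.intro _ rfl)

theorem dvd_K {k l : ℕ} (hk : 0 < k) (h : k ≤ l) : k ∣ K l := by
  obtain ⟨j, rfl⟩ : ∃ j, k = j + 1 := ⟨k - 1, by omega⟩
  refine Dvd.dvd.trans ?_ (K_dvd h)
  exact ⟨K j * 8, by simp only [K]; ring⟩

theorem J_lt (l : ℕ) : J l < K l := by
  induction l with
  | zero => decide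
  | succ l ih => simp only [K, J]; have := K_pos l; nlinarith

theorem J_dvd {l m : ℕ} (h : l ≤ m) : (K l : ℤ) ∣ (J m : ℤ) - J l := by
  induction h with
  | refl => simp
  | @step m hm ih =>
    have h1 : (K l : ℤ) ∣ K m := Int.natCast_dvd_natCast.2 (K_dvd hm)
    have : (J (m + 1) : ℤ) - J l = (J m - J l) + 4 * (m + 1) * K m := by
      simp only [J]; push_cast; ring
    rw [this]
    exact ih.add (h1.mul_left _)

/-- spikes at level `l + 1` -/
def U (l : ℕ) (i : ℤ) : Prop := ∃ ρ : ℕ, 1 ≤ ρ ∧ ρ ≤ l ∧ (K (l + 1) : ℤ) ∣ i - ρ * (2 * K l + 1)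

def hh (l : ℕ) (i : ℤ) : Prop := (K l : ℤ) ∣ i - J l

theorem U_iff {l : ℕ} {i : ℤ} (h : |i| < (3 * l + 2) * K l) :
    U l i ↔ ∃ ρ : ℕ, 1 ≤ ρ ∧ ρ ≤ l ∧ i = ρ * (2 * K l + 1) := by
  refine ⟨fun ⟨ρ, h1, h2, h3⟩ => ⟨ρ, h1, h2, ?_⟩, fun ⟨ρ, h1, h2, h3⟩ => ⟨ρ, h1, h2, by simp [h3]⟩⟩
  have h4 := Int.eq_zero_of_abs_lt_dvd h3 (by
    have hk : (1 : ℤ) ≤ K l := by exact_mod_cast K_pos l
    have h2' : (ρ : ℤ) ≤ l := by exact_mod_cast h2
    have h0 : (0 : ℤ) ≤ ρ := by positivity
    rw [abs_lt] at h ⊢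
    simp only [K]; push_cast
    constructor <;> nlinarith)
  linarith

theorem not_U {l : ℕ} {i : ℤ} (h : |i| < 2 * K l) : ¬ U l i := by
  have hk : (1 : ℤ) ≤ K l := by exact_mod_cast K_pos l
  rw [U_iff (by nlinarith [(by positivity : (0 : ℤ) ≤ l)])]
  rintro ⟨ρ, h1, -, h3⟩
  have h1' : (1 : ℤ) ≤ ρ := by exact_mod_cast h1
  rw [abs_lt] at h
  nlinarith

theorem not_hh {l : ℕ} {i : ℤ} (h : |i| < (3 * l + 2) * K l) : ¬ hh (l + 1) i := by
  intro h3
  have hk : (1 : ℤ) ≤ K l := by exact_mod_cast K_pos l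
  have hj : (J l : ℤ) < K l := by exact_mod_cast J_lt l
  have hj0 : (0 : ℤ) ≤ J l := by positivity
  have hl : (0 : ℤ) ≤ l := by positivity
  have h4 := Int.eq_zero_of_abs_lt_dvd h3 (by
    rw [abs_lt] at h ⊢
    simp only [K, J]; push_cast
    constructor <;> nlinarith)
  simp only [J] at h4
  push_cast at h4
  rw [abs_lt] at h
  nlinarith

theorem bound_mono {l l' : ℕ} (h : l ≤ l') : ((3 * l + 2) * K l : ℤ) ≤ (3 * l' + 2) * K l' := by
  have h1 : (K l : ℤ) ≤ K l' := by exact_mod_cast Nat.le_of_dvd (K_pos _) (K_dvd h)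
  have h2 : (l : ℤ) ≤ l' := by exact_mod_cast h
  have hk : (1 : ℤ) ≤ K l := by exact_mod_cast K_pos l
  have hl : (0 : ℤ) ≤ l := by positivity
  nlinarith

theorem bound_next {l l' : ℕ} (h : l < l') : ((3 * l + 2) * K l : ℤ) ≤ 2 * K l' := by
  have h1 : (K (l + 1) : ℤ) ≤ K l' := by exact_mod_cast Nat.le_of_dvd (K_pos _) (K_dvd h)
  have hk : (1 : ℤ) ≤ K l := by exact_mod_cast K_pos l
  have hl : (0 : ℤ) ≤ l := by positivity
  simp only [K] at h1
  push_cast at h1
  nlinarith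

theorem U_per {l : ℕ} {i j : ℤ} (h : (K (l + 1) : ℤ) ∣ i - j) : U l i ↔ U l j := by
  refine exists_congr fun ρ => and_congr_right fun _ => and_congr_right fun _ => ?_
  have : i - ρ * (2 * K l + 1) = (i - j) + (j - ρ * (2 * K l + 1)) := by ring
  rw [this]
  exact dvd_add_right h

theorem hh_per {l : ℕ} {i j : ℤ} (h : (K l : ℤ) ∣ i - j) : hh l i ↔ hh l j := by
  have : i - J l = (i - j) + (j - J l) := by ring
  rw [hh, this]
  exact dvd_add_right h

open Classical in
noncomputable def ind (p : Prop) : F := if p then 1 else 0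

theorem ind_congr {p q : Prop} (h : p ↔ q) : ind p = ind q := by rw [propext h]
theorem ind_pos {p : Prop} (h : p) : ind p = 1 := if_pos h
theorem ind_neg {p : Prop} (h : ¬ p) : ind p = 0 := if_neg h

noncomputable def φf (i : ℤ) : ℕ → F
  | 0 => 0
  | l + 1 => ind (U l i)

noncomputable def ψf (i : ℤ) : ℕ → F
  | 0 => 1
  | l + 1 => ind (hh l i) + ind (hh (l + 1) i)

theorem small (i : ℤ) {l : ℕ} (h : i.natAbs ≤ l) : |i| < 2 * K l := by
  have h1 : (l : ℤ) < K l := by exact_mod_cast K_gt l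
  have h2 : |i| ≤ l := by rw [← Int.natCast_natAbs]; exact_mod_cast h
  have hl : (0 : ℤ) ≤ l := by positivity
  linarith

theorem not_hh' (i : ℤ) {l : ℕ} (h : i.natAbs < l) : ¬ hh l i := by
  obtain ⟨l, rfl⟩ : ∃ j, l = j + 1 := ⟨l - 1, by omega⟩
  have := small i (l := l) (by omega)
  have hk : (1 : ℤ) ≤ K l := by exact_mod_cast K_pos l
  exact not_hh (by nlinarith [(by positivity : (0 : ℤ) ≤ l)])

noncomputable def φ (i : ℤ) : Z :=
  Finsupp.onFinset (Finset.range (i.natAbs + 2)) (φf i) fun l hl => by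
    rw [Finset.mem_range]
    by_contra hc
    obtain ⟨l, rfl⟩ : ∃ j, l = j + 1 := ⟨l - 1, by omega⟩
    exact hl (ind_neg (not_U (small i (by omega))))

noncomputable def ψ (i : ℤ) : Z :=
  Finsupp.onFinset (Finset.range (i.natAbs + 2)) (ψf i) fun l hl => by
    rw [Finset.mem_range]
    by_contra hc
    obtain ⟨l, rfl⟩ : ∃ j, l = j + 1 := ⟨l - 1, by omega⟩
    apply hl
    simp only [ψf]
    rw [ind_neg (not_hh' i (by omega)), ind_neg (not_hh' i (by omega)), add_zero]

theorem φ_apply (i : ℤ) (l : ℕ) : φ i l = φf i l := rfl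
theorem ψ_apply (i : ℤ) (l : ℕ) : ψ i l = ψf i l := rfl

def tail (m : ℕ) : Submodule F Z where
  carrier := {z | ∀ l ≤ m, z l = 0}
  zero_mem' := fun _ _ => rfl
  add_mem' := fun ha hb l hl => by simp [ha l hl, hb l hl]
  smul_mem' := fun c z hz l hl => by simp [hz l hl]

theorem tail_anti {m n : ℕ} (h : m ≤ n) : tail n ≤ tail m := fun _ hz l hl => hz l (hl.trans h)

theorem KZ {l m : ℕ} (h : l ≤ m) : (K l : ℤ) ∣ K m := Int.natCast_dvd_natCast.2 (K_dvd h)

theorem φ_per {m : ℕ} {i j : ℤ} (h : (K m : ℤ) ∣ i - j) : φ i - φ j ∈ tail m := by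
  intro l hl
  rw [Finsupp.sub_apply, φ_apply, φ_apply, sub_eq_zero]
  cases l with
  | zero => rfl
  | succ l => exact ind_congr (U_per ((KZ hl).trans h))

theorem ψ_per {m : ℕ} {i j : ℤ} (h : (K m : ℤ) ∣ i - j) : ψ i - ψ j ∈ tail m := by
  intro l hl
  rw [Finsupp.sub_apply, ψ_apply, ψ_apply, sub_eq_zero]
  cases l with
  | zero => rfl
  | succ l =>
    simp only [ψf]
    rw [ind_congr (hh_per ((KZ hl).trans h)), ind_congr (hh_per ((KZ (by omega : l ≤ m)).trans h))]

theorem ψ_win {l : ℕ} {i j : ℤ} (hi : |i| < (3 * l + 2) * K l) (hj : |j| < (3 * l + 2) * K l)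
    (h : (K l : ℤ) ∣ i - j) : ψ i = ψ j := by
  have key : ∀ l', hh l' i ↔ hh l' j := by
    intro l'
    by_cases hl : l' ≤ l
    · exact hh_per ((KZ hl).trans h)
    · obtain ⟨l', rfl⟩ : ∃ j, l' = j + 1 := ⟨l' - 1, by omega⟩
      have := bound_mono (by omega : l ≤ l')
      exact iff_of_false (not_hh (by linarith)) (not_hh (by linarith))
  ext l'
  rw [ψ_apply, ψ_apply]
  cases l' with
  | zero => rfl
  | succ l' => simp only [ψf]; rw [ind_congr (key _), ind_congr (key _)]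

theorem φ_win {l : ℕ} {i j : ℤ} (hi : |i| < (3 * l + 2) * K l) (hj : |j| < (3 * l + 2) * K l)
    (h : (K l : ℤ) ∣ i - j) (hU : ¬ U l j) : φ i - φ j = Finsupp.single (l + 1) (ind (U l i)) := by
  ext l'
  rw [Finsupp.sub_apply, φ_apply, φ_apply]
  cases l' with
  | zero => simp [φf]
  | succ l' =>
    simp only [φf]
    rcases lt_trichotomy l' l with h1 | rfl | h1
    · rw [ind_congr (U_per ((KZ h1).trans h)), sub_self, Finsupp.single_eq_of_ne (by omega)]
    · rw [ind_neg hU, sub_zero, Finsupp.single_eq_same]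
    · have := bound_next h1
      rw [ind_neg (not_U (by linarith)), ind_neg (not_U (by linarith)), sub_self,
        Finsupp.single_eq_of_ne (by omega)]

theorem ψ_J (m : ℕ) : ψ (J m) - Finsupp.single 0 1 ∈ tail m := by
  intro l hl
  rw [Finsupp.sub_apply, ψ_apply]
  cases l with
  | zero => simp [ψf]
  | succ l =>
    simp only [ψf]
    rw [ind_pos (p := hh l _) (J_dvd (by omega)), ind_pos (p := hh (l + 1) _) (J_dvd hl),
      Finsupp.single_eq_of_ne (by omega)]
    decide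

/-- the functional summing the coordinates up to `n` -/
noncomputable def ev (n : ℕ) : Z →ₗ[F] F where
  toFun z := ∑ l ∈ Finset.range (n + 1), z l
  map_add' a b := by simp [Finset.sum_add_distrib]
  map_smul' c a := by simp [Finset.mul_sum]

theorem ev_ψ (n : ℕ) (i : ℤ) : ev n (ψ i) = ind (hh n i) := by
  show ∑ l ∈ Finset.range (n + 1), ψ i l = _
  induction n with
  | zero => simp [ψ_apply, ψf, ind_pos (p := hh 0 i) (by simp [hh, K])]
  | succ n ih =>
    rw [Finset.sum_range_succ, ih, ψ_apply]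
    simp only [ψf]
    rw [← add_assoc, CharTwo.add_self_eq_zero, zero_add]

theorem tail_ev (n : ℕ) : tail n ≤ LinearMap.ker (ev n) := by
  intro z hz
  show ∑ l ∈ Finset.range (n + 1), z l = 0
  exact Finset.sum_eq_zero fun l hl => hz l (by simpa [Nat.lt_succ_iff] using hl)

theorem ev_single (n : ℕ) : ev n (Finsupp.single 0 1) = 1 := by
  show ∑ l ∈ Finset.range (n + 1), (Finsupp.single 0 1 : Z) l = 1
  rw [Finset.sum_eq_single 0] <;> simp +contextual [Finsupp.single_apply, eq_comm]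

/-! ### linear extension -/

noncomputable def lin (f : ℤ → Z) : L →ₗ[F] Z :=
  Finsupp.linearCombination F f ∘ₗ (AddMonoidAlgebra.coeffLinearEquiv F).toLinearMap

theorem lin_T (f : ℤ → Z) (i : ℤ) : lin f (T i) = f i := by
  show Finsupp.linearCombination F f (Finsupp.single i 1) = f i
  rw [Finsupp.linearCombination_single, one_smul]

theorem eq_sum (γ : L) : γ = ∑ d ∈ γ.coeff.support, γ.coeff d • (T d : L) := by
  conv_lhs => rw [← AddMonoidAlgebra.sum_coeff_single γ]
  refine Finset.sum_congr rfl fun d _ => ?_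
  rw [single_eq_C_mul_T, smul_eq_C_mul]

theorem lin_mul (f : ℤ → Z) (γ : L) (p : ℤ) :
    lin f (γ * T p) = ∑ d ∈ γ.coeff.support, γ.coeff d • f (d + p) := by
  conv_lhs => rw [eq_sum γ]
  rw [Finset.sum_mul, map_sum]
  refine Finset.sum_congr rfl fun d _ => ?_
  rw [smul_mul_assoc, map_smul, ← T_add, lin_T]

theorem L_ind {P : L → Prop} (h0 : P 0) (hT : ∀ i, P (T i)) (ha : ∀ x y, P x → P y → P (x + y))
    (γ : L) : P γ := by
  induction γ using AddMonoidAlgebra.induction_linear with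
  | zero => exact h0
  | add x y hx hy => exact ha x y hx hy
  | single i c =>
    rcases zm c with rfl | rfl
    · simpa using h0
    · exact hT i

theorem lin_per {f : ℤ → Z} {m : ℕ} (hf : ∀ i j : ℤ, (K m : ℤ) ∣ i - j → f i - f j ∈ tail m)
    {N : ℤ} (hN : (K m : ℤ) ∣ N) (γ : L) : lin f ((T N - 1) * γ) ∈ tail m := by
  induction γ using L_ind with
  | h0 => simp
  | hT i => rw [sub_mul, one_mul, ← T_add, map_sub, lin_T, lin_T]; exact hf _ _ (by simpa using hN)
  | ha x y hx hy => rw [mul_add, map_add]; exact Submodule.add_mem _ hx hy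

theorem ev_linψ (γ : L) : ∃ n0, ∀ n, n0 ≤ n → ev n (lin ψ γ) = 0 := by
  induction γ using L_ind with
  | h0 => exact ⟨0, by simp⟩
  | hT i => exact ⟨i.natAbs + 1, fun n hn => by rw [lin_T, ev_ψ, ind_neg (not_hh' i (by omega))]⟩
  | ha x y hx hy =>
    obtain ⟨a, ha⟩ := hx
    obtain ⟨b, hb⟩ := hy
    exact ⟨a + b, fun n hn => by rw [map_add, map_add, ha n (by omega), hb n (by omega), add_zero]⟩

abbrev B := L × L

noncomputable def om (b c : B) : Z := lin φ (invert b.1 * c.1) + lin ψ (invert b.2 * c.1)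

theorem om_add_left (a b c : B) : om (a + b) c = om a c + om b c := by
  simp only [om, Prod.fst_add, Prod.snd_add, map_add, add_mul]; abel
theorem om_add_right (a b c : B) : om a (b + c) = om a b + om a c := by
  simp only [om, Prod.fst_add, map_add, mul_add]; abel
theorem om_neg_left (a c : B) : om (-a) c = -om a c := by
  simp only [om, Prod.fst_neg, Prod.snd_neg, map_neg, neg_mul]; abel
theorem om_neg_right (a c : B) : om a (-c) = -om a c := by
  simp only [om, Prod.fst_neg, map_neg, mul_neg]; abel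
theorem om_zero_left (c : B) : om 0 c = 0 := by simp [om]
theorem om_zero_right (c : B) : om c 0 = 0 := by simp [om]
theorem om_sub_left (a b c : B) : om (a - b) c = om a c - om b c := by
  rw [sub_eq_add_neg, om_add_left, om_neg_left, sub_eq_add_neg]
theorem om_sub_right (a b c : B) : om a (b - c) = om a b - om a c := by
  rw [sub_eq_add_neg, om_add_right, om_neg_right, sub_eq_add_neg]

theorem TT (a : ℤ) : (T (-a) : L) * T a = 1 := by rw [← T_add]; simp

theorem om_T (a : ℤ) (b c : B) : om ((T a : L) • b) ((T a : L) • c) = om b c := by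
  have : ∀ x y : L, invert (T a * x) * (T a * y) = invert x * y := by
    intro x y
    rw [map_mul, invert_T]
    linear_combination (invert x * y) * TT a
  simp only [om, Prod.smul_fst, Prod.smul_snd, smul_eq_mul, this]

theorem om_per_right {m : ℕ} {N : ℤ} (hN : (K m : ℤ) ∣ N) (b c : B) :
    om b ((T N - 1 : L) • c) ∈ tail m := by
  simp only [om, Prod.smul_fst, smul_eq_mul]
  rw [mul_left_comm, mul_left_comm (invert b.2)]
  exact Submodule.add_mem _ (lin_per (fun _ _ => φ_per) hN _) (lin_per (fun _ _ => ψ_per) hN _)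

theorem om_per_left {m : ℕ} {N : ℤ} (hN : (K m : ℤ) ∣ N) (b c : B) :
    om ((T N - 1 : L) • b) c ∈ tail m := by
  simp only [om, Prod.smul_fst, Prod.smul_snd, smul_eq_mul, map_mul, map_sub, invert_T, map_one,
    mul_assoc]
  exact Submodule.add_mem _ (lin_per (fun _ _ => φ_per) hN.neg_right _)
    (lin_per (fun _ _ => ψ_per) hN.neg_right _)

noncomputable def cm (b c : B) : Z := om b c - om c b

theorem cm_T (b : B) (p : ℤ) : cm b ((T p : L) • b) =
    lin φ (invert b.1 * b.1 * T p) + lin ψ (invert b.2 * b.1 * T p) -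
      (lin φ (invert b.1 * b.1 * T (-p)) + lin ψ (invert b.2 * b.1 * T (-p))) := by
  simp only [cm, om, Prod.smul_fst, Prod.smul_snd, smul_eq_mul, map_mul, invert_T]
  congr 3 <;> ring

theorem open_lemma (b : B) (hb : b.1 ≠ 0) (k : ℕ) (hk : 0 < k) : ∃ m, ∀ l, m ≤ l → ∃ p : ℤ,
    (k : ℤ) ∣ p ∧ cm b ((T p : L) • b) - cm b ((T (p + K l) : L) • b) = Finsupp.single (l + 1) 1 := by
  have hγ : invert b.1 * b.1 ≠ 0 := mul_ne_zero (by simpa using hb) hb
  simp only [cm_T]
  generalize invert b.1 * b.1 = γ at *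
  generalize invert b.2 * b.1 = δ
  obtain ⟨w, hw⟩ : ∃ w : ℕ, ∀ d ∈ γ.coeff.support ∪ δ.coeff.support, |d| ≤ w := by
    refine ⟨(γ.coeff.support ∪ δ.coeff.support).sup Int.natAbs, fun d hd => ?_⟩
    rw [← Int.natCast_natAbs]
    exact_mod_cast Finset.le_sup (f := Int.natAbs) hd
  obtain ⟨d0, hd0⟩ : γ.coeff.support.Nonempty := by
    rw [Finsupp.support_nonempty_iff]
    intro h
    exact hγ (by ext; simp [h])
  refine ⟨k + 2 * w + 1, fun l hl => ?_⟩
  have hkz : (0 : ℤ) < k := by exact_mod_cast hk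
  obtain ⟨ρ, hρ1, hρ2, hρ3⟩ : ∃ ρ : ℕ, 1 ≤ ρ ∧ ρ ≤ k ∧ (k : ℤ) ∣ ρ - d0 := by
    have h1 := Int.emod_nonneg (d0 - 1) hkz.ne'
    have h2 := Int.emod_lt_of_pos (d0 - 1) hkz
    refine ⟨((d0 - 1) % k).toNat + 1, by omega, by omega, ?_⟩
    push_cast
    rw [Int.toNat_of_nonneg h1]
    exact ⟨-((d0 - 1) / k), by have := Int.emod_add_mul_ediv (d0 - 1) k; linarith⟩
  have hKl : (l : ℤ) < K l := by exact_mod_cast K_gt l
  have hl' : (k : ℤ) + 2 * w + 1 ≤ l := by exact_mod_cast hl
  have hρ1' : (1 : ℤ) ≤ ρ := by exact_mod_cast hρ1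
  have hρ2' : (ρ : ℤ) ≤ k := by exact_mod_cast hρ2
  have hw0 : (0 : ℤ) ≤ w := by positivity
  have hd0w := abs_le.1 (hw d0 (Finset.mem_union_left _ hd0))
  obtain ⟨p, hp⟩ : ∃ p : ℤ, p = ρ * (2 * K l + 1) - d0 := ⟨_, rfl⟩
  have hp1 : 2 * (K l : ℤ) + 1 - w ≤ p := by nlinarith
  have hp2 : p + K l + w < (3 * l + 2) * K l := by nlinarith
  refine ⟨p, ?_, ?_⟩
  · have : p = 2 * ρ * K l + (ρ - d0) := by rw [hp]; ring
    rw [this]
    exact ((Int.natCast_dvd_natCast.2 (dvd_K hk (by omega))).mul_left _).add hρ3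
  have bd : ∀ d ∈ γ.coeff.support ∪ δ.coeff.support, |d + p| < (3 * l + 2) * K l ∧
      |d + (p + K l)| < (3 * l + 2) * K l ∧ |d + -p| < (3 * l + 2) * K l ∧
      |d + -(p + K l)| < (3 * l + 2) * K l := by
    intro d hd
    have := abs_le.1 (hw d hd)
    refine ⟨?_, ?_, ?_, ?_⟩ <;> rw [abs_lt] <;> constructor <;> linarith
  have e1 : lin ψ (δ * T p) = lin ψ (δ * T (p + K l)) := by
    rw [lin_mul, lin_mul]
    refine Finset.sum_congr rfl fun d hd => ?_
    have := bd d (Finset.mem_union_right _ hd)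
    rw [ψ_win this.1 this.2.1 ⟨-1, by ring⟩]
  have e2 : lin ψ (δ * T (-p)) = lin ψ (δ * T (-(p + K l))) := by
    rw [lin_mul, lin_mul]
    refine Finset.sum_congr rfl fun d hd => ?_
    have := bd d (Finset.mem_union_right _ hd)
    rw [ψ_win this.2.2.1 this.2.2.2 ⟨1, by ring⟩]
  have neg : ∀ i : ℤ, |i| < (3 * l + 2) * K l → i < 0 → ¬ U l i := by
    intro i hi h0
    rw [U_iff hi]
    rintro ⟨r, -, -, h⟩
    have : (0 : ℤ) ≤ r * (2 * K l + 1) := by positivity
    linarith
  have e3 : lin φ (γ * T (-p)) = lin φ (γ * T (-(p + K l))) := by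
    rw [lin_mul, lin_mul]
    refine Finset.sum_congr rfl fun d hd => ?_
    have h1 := bd d (Finset.mem_union_left _ hd)
    have h2 := abs_le.1 (hw d (Finset.mem_union_left _ hd))
    have := φ_win h1.2.2.1 h1.2.2.2 ⟨1, by ring⟩ (neg _ h1.2.2.2 (by linarith))
    rw [ind_neg (neg _ h1.2.2.1 (by linarith)), Finsupp.single_zero, sub_eq_zero] at this
    rw [this]
  have e4 : lin φ (γ * T p) - lin φ (γ * T (p + K l)) = Finsupp.single (l + 1) 1 := by
    rw [lin_mul, lin_mul, ← Finset.sum_sub_distrib]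
    have : ∀ d ∈ γ.coeff.support, γ.coeff d • φ (d + p) - γ.coeff d • φ (d + (p + K l)) =
        γ.coeff d • Finsupp.single (l + 1) (ind (d = d0)) := by
      intro d hd
      have h1 := bd d (Finset.mem_union_left _ hd)
      have h2 := abs_le.1 (hw d (Finset.mem_union_left _ hd))
      rw [← smul_sub, φ_win h1.1 h1.2.1 ⟨-1, by ring⟩]
      · congr 2
        refine ind_congr ?_
        rw [U_iff h1.1]
        constructor
        · rintro ⟨r, -, -, h⟩
          have h3 : (2 * K l + 1 : ℤ) ∣ d - d0 := ⟨r - ρ, by linarith⟩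
          have := Int.eq_zero_of_abs_lt_dvd h3 (by rw [abs_lt]; constructor <;> linarith)
          linarith
        · rintro rfl
          exact ⟨ρ, hρ1, by omega, by linarith⟩
      · rw [U_iff h1.2.1]
        rintro ⟨r, -, -, h⟩
        have h3 : (2 * K l + 1 : ℤ) ∣ d - d0 + K l := ⟨r - ρ, by linarith⟩
        have := Int.eq_zero_of_abs_lt_dvd h3 (by rw [abs_lt]; constructor <;> linarith)
        linarith
    rw [Finset.sum_congr rfl this, Finset.sum_eq_single d0]
    · rw [ind_pos rfl]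
      rcases zm (γ.coeff d0) with h | h
      · exact absurd h (Finsupp.mem_support_iff.1 hd0)
      · rw [h, one_smul]
    · intro d _ hd
      rw [ind_neg hd, Finsupp.single_zero, smul_zero]
    · intro h; exact absurd hd0 h
  rw [e1, e2, e3, ← e4]
  abel

end Pool.Agent.H64.Lerf
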