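import Mathlib

namespace Pool.Agent.H64.LogD

open TrivSqZeroExt

def DN (L : Type*) [CommRing L] := DualNumber L

instance (L : Type*) [CommRing L] : CommRing (DN L) := inferInstanceAs (CommRing (DualNumber L))

def DN.fstH (L : Type*) [CommRing L] : DN L →+* L := (fstHom L L L).toRingHom

def DN.snd' {L : Type*} [CommRing L] (x : DN L) : L := TrivSqZeroExt.snd (x : DualNumber L)

lemma DN.snd_mul {L : Type*} [CommRing L] (x y : DN L) :
    DN.snd' (x * y) = DN.fstH L x * DN.snd' y + DN.snd' x * DN.fstH L y :=
  DualNumber.snd_mul (x : DualNumber L) (y : DualNumber L)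

lemma DN.ext' {L : Type*} [CommRing L] (x : DN L) (h1 : DN.fstH L x = 0) (h2 : DN.snd' x = 0) :
    x = 0 := TrivSqZeroExt.ext h1 h2

/-- derivations extend along formally smooth maps -/
theorem exists_ext {k A : Type*} (L : Type*) [CommRing k] [CommRing A] [CommRing L] [Algebra k A]
    [Algebra A L] [Algebra k L] [IsScalarTower k A L] [Algebra.FormallySmooth A L]
    (D : Derivation k A A) :
    ∃ D' : Derivation k L L, ∀ a, D' (algebraMap A L a) = algebraMap A L (D a) := by
  let g0 : A →+* DualNumber L :=
    { toFun := fun a => inl (algebraMap A L a) + inr (algebraMap A L (D a))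
      map_one' := by ext <;> simp
      map_mul' := fun a b => by
        ext
        · simp
        · simp [DualNumber.snd_mul, Algebra.smul_def, algebraMap_eq_inl]; ring
      map_zero' := by ext <;> simp
      map_add' := fun a b => by ext <;> simp [Algebra.smul_def] }
  let g : A →+* DN L := g0
  letI : Algebra A (DN L) := g.toAlgebra
  let p : DN L →ₐ[A] L :=
    { DN.fstH L with
      commutes' := fun a => by
        change (g0 a).fst = _
        simp [g0] }
  have hp : Function.Surjective p := fun x => ⟨(inl x : DualNumber L), rfl⟩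
  have hn : IsNilpotent (RingHom.ker (p : DN L →+* L)) := by
    refine ⟨2, ?_⟩
    rw [pow_two, Ideal.zero_eq_bot, eq_bot_iff, Ideal.mul_le]
    intro x hx y hy
    have hx' : DN.fstH L x = 0 := hx
    have hy' : DN.fstH L y = 0 := hy
    apply DN.ext'
    · simp [hx']
    · simp [DN.snd_mul, hx', hy']
  let G : L →ₐ[A] DN L := Algebra.FormallySmooth.liftOfSurjective (AlgHom.id A L) p hp hn
  have hfst : ∀ x, DN.fstH L (G x) = x := fun x =>
    Algebra.FormallySmooth.liftOfSurjective_apply (AlgHom.id A L) p hp hn x
  have hG : ∀ a, DN.snd' (G (algebraMap A L a)) = algebraMap A L (D a) := by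
    intro a
    rw [G.commutes]
    change (g0 a).snd = _
    simp [g0, Algebra.smul_def, algebraMap_eq_inl]
  have hmul : ∀ x y, DN.snd' (G (x * y)) = x * DN.snd' (G y) + y * DN.snd' (G x) := by
    intro x y
    rw [map_mul, DN.snd_mul, hfst, hfst]
    ring
  have hadd : ∀ x y, DN.snd' (G (x + y)) = DN.snd' (G x) + DN.snd' (G y) := by
    intro x y
    rw [map_add]
    exact TrivSqZeroExt.snd_add _ _
  let f : L →ₗ[k] L :=
    { toFun := fun x => DN.snd' (G x)
      map_add' := hadd
      map_smul' := fun c x => by
        rw [Algebra.smul_def, hmul, IsScalarTower.algebraMap_apply k A L, hG]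
        simp [Algebra.smul_def, ← IsScalarTower.algebraMap_apply] }
  refine ⟨Derivation.mk' f (fun a b => ?_), fun a => hG a⟩
  exact hmul a b

section trace
variable {k F L : Type*} [Field k] [Field F] [Field L] [Algebra k F] [Algebra F L] [Algebra k L]
  [IsScalarTower k F L] [CharZero F] [FiniteDimensional F L]

theorem trace_logDeriv (D : Derivation k F F) (D' : Derivation k L L)
    (h : ∀ a, D' (algebraMap F L a) = algebraMap F L (D a)) (f : L) (hf : f ≠ 0) :
    Algebra.trace F L (D' f / f) = D (Algebra.norm F f) / Algebra.norm F f := by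
  let Ω := AlgebraicClosure F
  haveI : Algebra.FormallyEtale F Ω := Algebra.FormallyEtale.of_isSeparable F Ω
  obtain ⟨E, hE⟩ := exists_ext Ω D
  have key : ∀ (σ : L →ₐ[F] Ω) (x : L), σ (D' x) = E (σ x) := by
    intro σ x
    have hpoly : ∀ p : Polynomial F, σ (D' (Polynomial.aeval x p)) - E (σ (Polynomial.aeval x p)) =
        σ (Polynomial.aeval x (Polynomial.derivative p)) * (σ (D' x) - E (σ x)) := by
      intro p
      induction p using Polynomial.induction_on' with
      | add p q hp hq =>
        simp only [map_add] at *
        linear_combination hp + hq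
      | monomial n a =>
        simp only [Polynomial.aeval_monomial, Polynomial.derivative_monomial, Derivation.leibniz,
          Derivation.leibniz_pow, h, map_mul, map_add, map_pow, smul_eq_mul, AlgHom.commutes, hE,
          nsmul_eq_mul, map_natCast]
        ring
    have hi : IsIntegral F x := Algebra.IsIntegral.isIntegral x
    have h1 := hpoly (minpoly F x)
    rw [minpoly.aeval] at h1
    simp only [map_zero, sub_self] at h1
    have h2 : Polynomial.aeval x (Polynomial.derivative (minpoly F x)) ≠ 0 :=
      (Algebra.IsSeparable.isSeparable F x).aeval_derivative_ne_zero (minpoly.aeval F x)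
    have h3 : σ (Polynomial.aeval x (Polynomial.derivative (minpoly F x))) ≠ 0 := by
      simpa using h2
    exact sub_eq_zero.1 ((mul_eq_zero.1 h1.symm).resolve_left h3)
  apply (algebraMap F Ω).injective
  rw [trace_eq_sum_embeddings Ω, map_div₀, ← hE, Algebra.norm_eq_prod_embeddings F Ω]
  have gen : ∀ s : Finset (L →ₐ[F] Ω), ∑ σ ∈ s, σ (D' f / f) = E (∏ σ ∈ s, σ f) / ∏ σ ∈ s, σ f := by
    classical
    intro s
    induction s using Finset.induction_on with
    | empty => simp
    | insert σ s hσ ih =>
      have h1 : σ f ≠ 0 := by simpa using hf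
      have h2 : ∏ τ ∈ s, τ f ≠ 0 := Finset.prod_ne_zero_iff.2 fun τ _ => by simpa using hf
      rw [Finset.sum_insert hσ, Finset.prod_insert hσ, ih, Derivation.leibniz, map_div₀, key]
      simp only [smul_eq_mul]
      generalize ∏ τ ∈ s, τ f = P at h2 ⊢
      generalize σ f = Q at h1 ⊢
      rw [div_add_div _ _ h1 h2]
      congr 1
      ring
  exact gen _

end trace

/-- horizontal vectors independent over the constants are independent -/
theorem indep_of_const {L V ι : Type*} [Field L] [AddCommGroup V] [Module L V] [Fintype ι]
    (δ : L → L) (hδ1 : δ 1 = 0) (N : V →+ V) (hN : ∀ (h : L) (ω : V), N (h • ω) = δ h • ω + h • N ω)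
    (ω : ι → V) (hω : ∀ i, N (ω i) = 0)
    (hC : ∀ c : ι → L, (∀ i, δ (c i) = 0) → ∑ i, c i • ω i = 0 → ∀ i, c i = 0) :
    LinearIndependent L ω := by
  classical
  have hδ0 : ∀ i, δ 0 • ω i = 0 := by
    intro i
    have := hN 0 (ω i)
    simpa using this.symm
  have main : ∀ n : ℕ, ∀ c : ι → L, (Finset.univ.filter fun i => c i ≠ 0).card ≤ n →
      δ 0 = 0 → ∑ i, c i • ω i = 0 → ∀ i, c i = 0 := by
    intro n
    induction n with
    | zero =>
      intro c hc _ _ i
      by_contra hi
      have : i ∈ Finset.univ.filter fun i => c i ≠ 0 := by simp [hi]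
      rw [Nat.le_zero, Finset.card_eq_zero] at hc
      simp [hc] at this
    | succ n ih =>
      intro c hc h0 hs j
      by_contra hj
      let c' : ι → L := fun i => (c j)⁻¹ * c i
      have hs' : ∑ i, c' i • ω i = 0 := by
        simp only [c', mul_smul, ← Finset.smul_sum, hs, smul_zero]
      have h1 : ∑ i, δ (c' i) • ω i = 0 := by
        have := congrArg N hs'
        rw [map_sum, map_zero] at this
        simpa [hN, hω] using this
      have hcj : c' j = 1 := by simp [c', hj]
      have h2 := ih (fun i => δ (c' i)) (by
        have hsub : (Finset.univ.filter fun i => δ (c' i) ≠ 0) ⊆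
            (Finset.univ.filter fun i => c i ≠ 0).erase j := by
          intro i hi
          simp only [Finset.mem_filter, Finset.mem_univ, true_and, Finset.mem_erase] at hi ⊢
          constructor
          · rintro rfl; exact hi (by rw [hcj, hδ1])
          · intro e; exact hi (by simp [c', e, h0])
        have := Finset.card_le_card hsub
        rw [Finset.card_erase_of_mem (by simp [hj])] at this
        omega) h0 h1
      have := hC c' h2 hs' j
      rw [hcj] at this
      exact one_ne_zero this
  rw [Fintype.linearIndependent_iff]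
  intro c hs i
  by_cases h0 : δ 0 = 0
  · exact main _ c le_rfl h0 hs i
  · exfalso
    have hz : ∀ i, ω i = 0 := fun i => (smul_eq_zero.1 (hδ0 i)).resolve_left h0
    have := hC (fun _ => 1) (fun _ => hδ1) (by simp [hz]) i
    exact one_ne_zero this

end Pool.Agent.H64.LogD
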