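import Pool.Agent.H64.LogD1

namespace Pool.Agent.H64.LogD

open MvPolynomial WithZero

variable {k : Type*} [Field k] {ι : Type*}

open Classical in
noncomputable def vd (k : Type*) [Field k] (ι : Type*) :
    Valuation (MvPolynomial ι k) (WithZero (Multiplicative ℤ)) where
  toFun p := if p = 0 then 0 else exp (p.totalDegree : ℤ)
  map_zero' := by simp
  map_one' := by simp
  map_mul' p q := by
    by_cases hp : p = 0
    · simp [hp]
    by_cases hq : q = 0
    · simp [hq]
    rw [if_neg hp, if_neg hq, if_neg (mul_ne_zero hp hq), totalDegree_mul_of_isDomain hp hq,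
      ← exp_add]
    push_cast; rfl
  map_add_le_max' p q := by
    by_cases h : p + q = 0
    · simp [h]
    by_cases hp : p = 0
    · simp [hp]
    by_cases hq : q = 0
    · simp [hq]
    rw [if_neg hp, if_neg hq, if_neg h]
    have := totalDegree_add p q
    rcases le_max_iff.1 this with h1 | h1
    · exact le_max_of_le_left (by simpa using h1)
    · exact le_max_of_le_right (by simpa using h1)

lemma vd_apply {p : MvPolynomial ι k} (hp : p ≠ 0) : vd k ι p = exp (p.totalDegree : ℤ) := by
  classical
  exact if_neg hp

lemma vd_le {p q : MvPolynomial ι k} (h : p.support ⊆ q.support) : vd k ι p ≤ vd k ι q := by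
  by_cases hp : p = 0
  · simp [hp]
  have hq : q ≠ 0 := by
    rintro rfl
    apply hp
    simpa using h
  rw [vd_apply hp, vd_apply hq]
  simpa using totalDegree_le_of_support_subset h

noncomputable def vF (k : Type*) [Field k] (ι : Type*) :
    Valuation (FractionRing (MvPolynomial ι k)) (WithZero (Multiplicative ℤ)) :=
  (vd k ι).extendToLocalization (S := nonZeroDivisors _) (by
    intro p hp
    have hp' := nonZeroDivisors.ne_zero hp
    change ¬ (vd k ι p = 0)
    rw [vd_apply hp']; exact exp_ne_zero) _

lemma vF_alg (p : MvPolynomial ι k) : vF k ι (algebraMap _ _ p) = vd k ι p :=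
  Valuation.extendToLocalization_apply_map_apply _ _ _ _

noncomputable def eul (a : ι → k) : Derivation k (MvPolynomial ι k) (MvPolynomial ι k) :=
  mkDerivation k fun i => C (a i) * X i

lemma eul_monomial (a : ι → k) (s : ι →₀ ℕ) : ∀ r : k,
    eul a (monomial s r) = C (s.sum fun i e => (e : k) * a i) * monomial s r := by
  induction s using Finsupp.induction_linear with
  | zero => intro r; simp
  | add s t hs ht =>
    intro r
    have e : (monomial (s + t) r : MvPolynomial ι k) = monomial s r * monomial t 1 := by
      simp [monomial_mul]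
    rw [e, Derivation.leibniz, hs, ht, Finsupp.sum_add_index' (by simp) (by intros; push_cast; ring)]
    simp only [smul_eq_mul, map_add]
    ring
  | single i e =>
    intro r
    rw [← C_mul_X_pow_eq_monomial, Derivation.leibniz, Derivation.leibniz_pow,
      Finsupp.sum_single_index (by simp)]
    simp only [eul, mkDerivation_X, derivation_C, smul_eq_mul, nsmul_eq_mul, map_mul, map_natCast]
    cases e with
    | zero => simp
    | succ e => simp only [Nat.add_sub_cancel]; ring

lemma coeff_eul (a : ι → k) (p : MvPolynomial ι k) (s : ι →₀ ℕ) :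
    coeff s (eul a p) = (s.sum fun i e => (e : k) * a i) * coeff s p := by
  classical
  induction p using MvPolynomial.induction_on' with
  | monomial t r =>
    rw [eul_monomial, coeff_C_mul, coeff_monomial]
    split_ifs with h
    · rw [h]
    · simp
  | add p q hp hq => simp [hp, hq, mul_add]

lemma vd_eul_le (a : ι → k) (p : MvPolynomial ι k) : vd k ι (eul a p) ≤ vd k ι p := by
  apply vd_le
  intro s hs
  rw [mem_support_iff] at hs ⊢
  intro h; apply hs; rw [coeff_eul, h, mul_zero]

lemma vd_eul_lt {p : MvPolynomial ι k} (hp : p ≠ 0) :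
    vd k ι (eul (fun _ => 1) p - C (p.totalDegree : k) * p) < vd k ι p := by
  set q := eul (fun _ => 1) p - C (p.totalDegree : k) * p with hq
  by_cases h0 : q = 0
  · rw [h0, map_zero, vd_apply hp]; exact exp_pos
  rw [vd_apply hp, vd_apply h0, exp_lt_exp, Nat.cast_lt]
  have key : ∀ s ∈ q.support, (s.sum fun _ e => e) < p.totalDegree := by
    intro s hs
    rw [mem_support_iff, hq, coeff_sub, coeff_eul, coeff_C_mul, ← sub_mul] at hs
    have h1 : coeff s p ≠ 0 := right_ne_zero_of_mul hs
    have h2 := left_ne_zero_of_mul hs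
    have h3 := le_totalDegree (mem_support_iff.2 h1)
    refine lt_of_le_of_ne h3 fun e => h2 ?_
    rw [← e]
    simp [Finsupp.sum]
  obtain ⟨s, hs⟩ := support_nonempty.2 h0
  have hpos : 0 < p.totalDegree := lt_of_le_of_lt (Nat.zero_le _) (key s hs)
  rw [totalDegree, Finset.sup_lt_iff hpos]
  exact key

lemma vF_const {c : k} (hc : c ≠ 0) : vF k ι (algebraMap k _ c) = 1 := by
  rw [IsScalarTower.algebraMap_apply k (MvPolynomial ι k), vF_alg, vd_apply (by simpa using hc)]
  simp

lemma vF_const_le (c : k) : vF k ι (algebraMap k _ c) ≤ 1 := by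
  by_cases hc : c = 0
  · simp [hc]
  · exact (vF_const hc).le

lemma vF_logDeriv (D : Derivation k (FractionRing (MvPolynomial ι k)) (FractionRing (MvPolynomial ι k)))
    (hD : ∀ p : MvPolynomial ι k, D (algebraMap _ _ p) = algebraMap _ _ (eul (fun _ => 1) p))
    (z : FractionRing (MvPolynomial ι k)) (hz : z ≠ 0) :
    vF k ι (D z / z - algebraMap k _ ((log (vF k ι z) : ℤ) : k)) < 1 := by
  have poly : ∀ p : MvPolynomial ι k, p ≠ 0 →
      vF k ι (D (algebraMap _ _ p) / algebraMap _ _ p - algebraMap k _ (p.totalDegree : k)) < 1 := by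
    intro p hp
    have hp' : algebraMap _ (FractionRing (MvPolynomial ι k)) p ≠ 0 := by simpa using hp
    have e : D (algebraMap _ _ p) / algebraMap _ _ p - algebraMap k _ (p.totalDegree : k) =
        algebraMap _ (FractionRing (MvPolynomial ι k))
          (eul (fun _ => 1) p - C (p.totalDegree : k) * p) / algebraMap _ _ p := by
      rw [hD, map_sub, map_mul, IsScalarTower.algebraMap_apply k (MvPolynomial ι k)]
      field_simp
      rfl
    rw [e, map_div₀, vF_alg, vF_alg, div_lt_one₀ (by rw [vd_apply hp]; exact exp_pos)]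
    exact vd_eul_lt hp
  obtain ⟨p, q, hq, rfl⟩ := IsFractionRing.div_surjective (A := MvPolynomial ι k) z
  have hq0 := nonZeroDivisors.ne_zero hq
  have hp0 : p ≠ 0 := by rintro rfl; simp at hz
  have hp' : algebraMap _ (FractionRing (MvPolynomial ι k)) p ≠ 0 := by simpa using hp0
  have hq' : algebraMap _ (FractionRing (MvPolynomial ι k)) q ≠ 0 := by simpa using hq0
  have e1 : log (vF k ι (algebraMap _ _ p / algebraMap _ _ q)) =
      (p.totalDegree : ℤ) - q.totalDegree := by
    rw [map_div₀, vF_alg, vF_alg, vd_apply hp0, vd_apply hq0, ← exp_sub, log_exp]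
  have e2 : D (algebraMap _ _ p / algebraMap _ _ q) / (algebraMap _ _ p / algebraMap _ _ q) -
      algebraMap k _ ((((p.totalDegree : ℤ) - q.totalDegree : ℤ)) : k) =
      (D (algebraMap _ _ p) / algebraMap _ _ p - algebraMap k _ (p.totalDegree : k)) -
      (D (algebraMap _ _ q) / algebraMap _ _ q - algebraMap k _ (q.totalDegree : k)) := by
    rw [Derivation.leibniz_div]
    push_cast
    simp only [smul_eq_mul, map_sub]
    field_simp
    ring
  rw [e1, e2]
  exact lt_of_le_of_lt (Valuation.map_sub _ _ _) (max_lt (poly p hp0) (poly q hq0))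

/-- residue lemma -/
theorem res [CharZero k] {L : Type*} [Field L] [Algebra k L] [Algebra (MvPolynomial ι k) L]
    [IsScalarTower k (MvPolynomial ι k) L] [Algebra (FractionRing (MvPolynomial ι k)) L]
    [IsScalarTower (MvPolynomial ι k) (FractionRing (MvPolynomial ι k)) L]
    [Module.Finite (FractionRing (MvPolynomial ι k)) L] :
    ∃ w : L → ℤ, (∀ x y, x ≠ 0 → y ≠ 0 → w (x * y) = w x + w y) ∧
      (∀ c : k, c ≠ 0 → w (algebraMap k L c) = 0) ∧
      (∀ i, w (algebraMap (MvPolynomial ι k) L (X i)) ≠ 0) ∧
      ∃ D : Derivation k L L, ∀ (J : Type) [Fintype J] (c : J → k) (f : J → L), (∀ j, f j ≠ 0) →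
        ∑ j, algebraMap k L (c j) * (D (f j) / f j) = 0 → ∑ j, c j * (w (f j) : k) = 0 := by
  let F := FractionRing (MvPolynomial ι k)
  haveI : CharZero F := charZero_of_injective_algebraMap (algebraMap k F).injective
  haveI : IsScalarTower k F L := IsScalarTower.of_algebraMap_eq fun c => by
    rw [IsScalarTower.algebraMap_apply k (MvPolynomial ι k) L,
      IsScalarTower.algebraMap_apply (MvPolynomial ι k) F L,
      ← IsScalarTower.algebraMap_apply k (MvPolynomial ι k) F]
  haveI : Algebra.FormallySmooth (MvPolynomial ι k) F :=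
    Algebra.FormallySmooth.of_isLocalization (nonZeroDivisors _)
  obtain ⟨D, hD⟩ := exists_ext F (eul (k := k) (ι := ι) fun _ => 1)
  haveI : Algebra.FormallyEtale F L := Algebra.FormallyEtale.of_isSeparable F L
  obtain ⟨D', hD'⟩ := exists_ext L D
  have hN : ∀ x : L, x ≠ 0 → vF k ι (Algebra.norm F x) ≠ 0 := by
    intro x hx
    exact (Valuation.ne_zero_iff _).2 (Algebra.norm_ne_zero_iff.2 hx)
  have halg : ∀ z : F, log (vF k ι (Algebra.norm F (algebraMap F L z))) =
      Module.finrank F L * log (vF k ι z) := by
    intro z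
    rw [Algebra.norm_algebraMap, map_pow, log_pow]; simp
  refine ⟨fun x => log (vF k ι (Algebra.norm F x)), ?_, ?_, ?_, D', ?_⟩
  · intro x y hx hy
    simp only [map_mul]
    exact log_mul (hN x hx) (hN y hy)
  · intro c hc
    simp only
    rw [IsScalarTower.algebraMap_apply k F L, halg, vF_const hc]; simp
  · intro i
    simp only
    rw [IsScalarTower.algebraMap_apply (MvPolynomial ι k) F L, halg, vF_alg, vd_apply (X_ne_zero i)]
    simpa using (Module.finrank_pos (R := F) (M := L)).ne'
  · intro J _ c f hf hs
    have h1 := congrArg (Algebra.trace F L) hs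
    rw [map_sum, map_zero] at h1
    have h2 : ∀ j, Algebra.trace F L (algebraMap k L (c j) * (D' (f j) / f j)) =
        algebraMap k F (c j) * (D (Algebra.norm F (f j)) / Algebra.norm F (f j)) := by
      intro j
      rw [IsScalarTower.algebraMap_apply k F L, ← Algebra.smul_def, map_smul,
        trace_logDeriv D D' hD' _ (hf j), smul_eq_mul]
    simp only [h2] at h1
    by_contra hne
    have h3 := vF_const (ι := ι) hne
    have h4 : algebraMap k F (∑ j, c j * ((log (vF k ι (Algebra.norm F (f j))) : ℤ) : k)) =
        ∑ j, - (algebraMap k F (c j) * (D (Algebra.norm F (f j)) / Algebra.norm F (f j) -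
          algebraMap k F ((log (vF k ι (Algebra.norm F (f j))) : ℤ) : k))) := by
      simp only [mul_sub, neg_sub, Finset.sum_sub_distrib, h1, map_sum, map_mul, sub_zero]
    have h5 : vF k ι (algebraMap k F
        (∑ j, c j * ((log (vF k ι (Algebra.norm F (f j))) : ℤ) : k))) < 1 := by
      rw [h4]
      apply Valuation.map_sum_lt _ one_ne_zero
      intro j _
      rw [Valuation.map_neg, map_mul]
      calc _ ≤ 1 * vF k ι _ := mul_le_mul_left (vF_const_le _) _
        _ < 1 := by
          rw [one_mul]
          exact vF_logDeriv D hD _ (Algebra.norm_ne_zero_iff.2 (hf j))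
    exact absurd h3 h5.ne

end Pool.Agent.H64.LogD
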