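import Pool.Agent.H64.LogD2

namespace Pool.Agent.H64.LogD

open WithZero IsDedekindDomain

section dvr
variable {k F L : Type*} [Field k] [Field F] [Field L] [Algebra F L] [Algebra k L]
  [CharZero F] [FiniteDimensional F L] (v : Valuation F (WithZero (Multiplicative ℤ)))

lemma pow_div_le {π o : F} (hπ : v π = exp (-1)) (ho : o ≠ 0) : ∃ c : ℕ, v (π ^ c / o) ≤ 1 := by
  have h0 : v o ≠ 0 := (Valuation.ne_zero_iff _).2 ho
  refine ⟨(- log (v o)).toNat, ?_⟩
  rw [map_div₀, map_pow, hπ, div_le_one₀ (zero_lt_iff.2 h0), ← exp_nsmul, ← le_log_iff_exp_le h0]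
  simp only [nsmul_eq_mul]
  omega

lemma int_mono {π : F} (hπ : v π = exp (-1)) {y : L} {c : ℕ} (d : ℕ) (hd : c ≤ d)
    (h : IsIntegral v.valuationSubring (algebraMap F L π ^ c * y)) :
    IsIntegral v.valuationSubring (algebraMap F L π ^ d * y) := by
  obtain ⟨e, rfl⟩ := Nat.exists_eq_add_of_le hd
  have hπ' : π ∈ v.valuationSubring := by
    rw [Valuation.mem_valuationSubring_iff, hπ, ← exp_zero, exp_le_exp]; omega
  have h1 : IsIntegral v.valuationSubring (algebraMap F L π) :=
    isIntegral_algebraMap (x := (⟨π, hπ'⟩ : v.valuationSubring))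
  have := (h1.pow e).mul h
  have e1 : algebraMap F L π ^ (c + e) * y = algebraMap F L π ^ e * (algebraMap F L π ^ c * y) := by
    ring
  rw [e1]; exact this

lemma int_exists {π : F} (hπ : v π = exp (-1)) (y : L) :
    ∃ c : ℕ, IsIntegral v.valuationSubring (algebraMap F L π ^ c * y) := by
  haveI : Algebra.IsAlgebraic v.valuationSubring L :=
    IsFractionRing.comap_isAlgebraic_iff.mpr (inferInstance : Algebra.IsAlgebraic F L)
  obtain ⟨o, ho, hi⟩ := (Algebra.IsAlgebraic.isAlgebraic (R := v.valuationSubring) y).exists_integral_multiple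
  have ho' : (o : F) ≠ 0 := fun h => ho (Subtype.ext h)
  obtain ⟨c, hc⟩ := pow_div_le v hπ ho'
  refine ⟨c, ?_⟩
  have := hi.smul (⟨π ^ c / o, hc⟩ : v.valuationSubring)
  convert this using 1
  rw [smul_smul, Algebra.smul_def]
  congr 1
  rw [← map_pow]
  change _ = algebraMap F L (π ^ c / o * o)
  rw [div_mul_cancel₀ _ ho']

theorem dvr_bound {π : F} (hπ : v π = exp (-1)) (δ : Derivation k L L) (c₀ : ℕ)
    (h0 : ∀ z : v.valuationSubring,
      IsIntegral v.valuationSubring (algebraMap F L π ^ c₀ * δ (algebraMap F L z))) :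
    ∃ c : ℕ, ∀ f : L, f ≠ 0 → IsIntegral v.valuationSubring (algebraMap F L π ^ c * (δ f / f)) := by
  classical
  have hπ0 : π ≠ 0 := by
    rintro rfl
    rw [map_zero] at hπ; exact exp_ne_zero hπ.symm
  haveI : v.IsNontrivial := ⟨π, by rw [hπ]; exact exp_ne_zero, by
    rw [hπ, ← exp_zero]; intro h; have := exp_injective h; omega⟩
  let O := v.valuationSubring
  haveI : IsDiscreteValuationRing O := inferInstance
  let B := integralClosure O L
  haveI : IsDedekindDomain B := integralClosure.isDedekindDomain O F L
  haveI : IsFractionRing B L := integralClosure.isFractionRing_of_finite_extension F L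
  haveI hfin : Module.Finite O B := IsIntegralClosure.finite O F L B
  set P := algebraMap F L π with hP
  have hP0 : P ≠ 0 := by simpa [hP] using hπ0
  obtain ⟨c, hc⟩ : ∃ c : ℕ, ∀ b : B, IsIntegral O (P ^ c * δ b) := by
    obtain ⟨s, hs⟩ := hfin.1
    choose cc hcc using fun b : B => int_exists v hπ (δ (b : L))
    refine ⟨c₀ + s.sup cc, fun b => ?_⟩
    have hb : b ∈ Submodule.span O (s : Set B) := by rw [hs]; trivial
    induction hb using Submodule.span_induction with
    | mem x hx =>
      exact int_mono v hπ _ ((Finset.le_sup (f := cc) hx).trans (Nat.le_add_left _ _)) (hcc x)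
    | zero => simpa using isIntegral_zero
    | add x y _ _ hx hy =>
      have := hx.add hy
      rw [← mul_add, ← map_add] at this
      exact this
    | smul o x _ hx =>
      have h1 := (int_mono v hπ (c₀ + s.sup cc) (Nat.le_add_right _ _) (h0 o)).mul x.2
      have h2 := (isIntegral_algebraMap (A := L) (x := o)).mul hx
      have := h1.add h2
      have e : ((o • x : B) : L) = algebraMap F L o * x := by
        rw [Subalgebra.coe_smul, Algebra.smul_def]; rfl
      have e2 : algebraMap O L o = algebraMap F L o := rfl
      have e3 : P ^ (c₀ + s.sup cc) * δ ((o • x : B) : L) =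
          P ^ (c₀ + s.sup cc) * δ (algebraMap F L o) * x +
            algebraMap O L o * (P ^ (c₀ + s.sup cc) * δ x) := by
        rw [e, Derivation.leibniz, e2]
        simp only [smul_eq_mul]; ring
      rw [e3]; exact this
  refine ⟨c + 1, fun f hf => ?_⟩
  have key : ∀ w : HeightOneSpectrum B, w.valuation L (P ^ (c + 1) * (δ f / f)) ≤ 1 := by
    intro w
    have hB : ∀ y : L, IsIntegral O y → w.valuation L y ≤ 1 := fun y hy =>
      w.valuation_le_one (⟨y, hy⟩ : B)
    have hθ : ∀ y : L, w.valuation L y ≤ 1 → w.valuation L (P ^ c * δ y) ≤ 1 := by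
      intro y hy
      obtain ⟨n, d, hnd⟩ := w.exists_primeCompl_mul_eq_of_integer y hy
      have hd : w.valuation L (algebraMap B L d) = 1 := by
        rw [HeightOneSpectrum.valuation_of_algebraMap]
        exact (w.intValuation_eq_one_iff_mem_primeCompl _).2 d.2
      have e : P ^ c * δ y * algebraMap B L d =
          P ^ c * δ ((n : B) : L) - y * (P ^ c * δ (((d : B)) : L)) := by
        have := congrArg δ hnd
        rw [Derivation.leibniz] at this
        simp only [smul_eq_mul] at this
        change y * δ ((d : B) : L) + ((d : B) : L) * δ y = δ (n : L) at this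
        change P ^ c * δ y * ((d : B) : L) = _
        rw [← this]; ring
      have h1 := congrArg (w.valuation L) e
      rw [map_mul, hd, mul_one] at h1
      rw [h1]
      refine (Valuation.map_sub _ _ _).trans (max_le (hB _ (hc n)) ?_)
      rw [map_mul]
      exact mul_le_one' hy (hB _ (hc d))
    have hπ' : π ∈ O := by
      rw [Valuation.mem_valuationSubring_iff, hπ, ← exp_zero, exp_le_exp]; omega
    have hPw : w.valuation L P ≤ exp (-1) := by
      have hne : w.asIdeal.comap (algebraMap O B) ≠ ⊥ :=
        Ideal.IsIntegral.comap_ne_bot O w.ne_bot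
      obtain ⟨a, ha, ha0⟩ := Submodule.exists_mem_ne_zero_of_ne_bot hne
      have ha' : (a : F) ≠ 0 := fun h => ha0 (Subtype.ext h)
      obtain ⟨e, he⟩ := pow_div_le v hπ ha'
      have h1 : (⟨π, hπ'⟩ : O) ^ e ∈ w.asIdeal.comap (algebraMap O B) := by
        have : (⟨π, hπ'⟩ : O) ^ e = ⟨π ^ e / a, he⟩ * a := by
          apply Subtype.ext
          change π ^ e = π ^ e / a * a
          rw [div_mul_cancel₀ _ ha']
        rw [this]; exact Ideal.mul_mem_left _ _ ha
      have h2 : (⟨π, hπ'⟩ : O) ∈ w.asIdeal.comap (algebraMap O B) :=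
        Ideal.IsPrime.mem_of_pow_mem inferInstance e h1
      have h3 : w.valuation L (algebraMap B L (algebraMap O B ⟨π, hπ'⟩)) < 1 :=
        (w.valuation_lt_one_iff_mem _).2 h2
      have h4 : algebraMap B L (algebraMap O B ⟨π, hπ'⟩) = P := rfl
      rw [h4] at h3
      have h5 : w.valuation L P ≠ 0 := (Valuation.ne_zero_iff _).2 hP0
      rw [← exp_zero, ← log_lt_iff_lt_exp h5] at h3
      rw [← log_le_iff_le_exp h5]; omega
    obtain ⟨u, hu⟩ := w.valuation_exists_uniformizer L
    have hu0 : u ≠ 0 := by
      rintro rfl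
      rw [map_zero] at hu; exact exp_ne_zero hu.symm
    have hf0 : w.valuation L f ≠ 0 := (Valuation.ne_zero_iff _).2 hf
    set m := log (w.valuation L f) with hm
    have hg : w.valuation L (f * u ^ m) = 1 := by
      rw [map_mul, map_zpow₀, hu, ← exp_log hf0, ← hm, ← exp_zsmul, ← exp_add]; simp
    have hum : u ^ m ≠ 0 := zpow_ne_zero _ hu0
    have e : P ^ (c + 1) * (δ f / f) = P * (P ^ c * δ (f * u ^ m)) / (f * u ^ m) -
        (m : L) * (P ^ c * δ u) * (P / u) := by
      rw [Derivation.leibniz, Derivation.leibniz_zpow, zpow_sub_one₀ hu0]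
      simp only [smul_eq_mul, zsmul_eq_mul]
      field_simp
      ring
    have hP1 : w.valuation L P ≤ 1 := hPw.trans (by rw [← exp_zero, exp_le_exp]; omega)
    rw [e]
    refine (Valuation.map_sub _ _ _).trans (max_le ?_ ?_)
    · rw [map_div₀, hg, div_one, map_mul]
      exact mul_le_one' hP1 (hθ _ hg.le)
    · rw [map_mul, map_mul]
      refine mul_le_one' (mul_le_one' (hB _ ?_) (hθ _ ?_)) ?_
      · simpa using isIntegral_algebraMap (A := L) (x := (m : O))
      · rw [hu, ← exp_zero, exp_le_exp]; omega
      · rw [map_div₀, hu, div_le_one₀ exp_pos]; exact hPw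
  obtain ⟨b, hb⟩ := HeightOneSpectrum.mem_integers_of_valuation_le_one L _ key
  rw [← hb]; exact b.2

end dvr

open MvPolynomial

theorem exists_W {k ι L : Type*} [Field k] [CharZero k] [Fintype ι] [Field L] [Algebra k L]
    [Algebra (MvPolynomial ι k) L]
    [IsScalarTower k (MvPolynomial ι k) L] [Algebra (FractionRing (MvPolynomial ι k)) L]
    [IsScalarTower (MvPolynomial ι k) (FractionRing (MvPolynomial ι k)) L]
    [Module.Finite (FractionRing (MvPolynomial ι k)) L] (δ : Derivation k L L) :
    ∃ W : Submodule k L, Module.Finite k W ∧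
      ∀ f : L, f ≠ 0 → IsIntegral (MvPolynomial ι k) (δ f / f) → δ f / f ∈ W := by
  classical
  let A := MvPolynomial ι k
  let F := FractionRing A
  haveI : CharZero F := charZero_of_injective_algebraMap (algebraMap k F).injective
  haveI : IsScalarTower k F L := IsScalarTower.of_algebraMap_eq fun c => by
    rw [IsScalarTower.algebraMap_apply k A L, IsScalarTower.algebraMap_apply A F L,
      ← IsScalarTower.algebraMap_apply k A F]
  haveI : Algebra.IsAlgebraic A L :=
    IsFractionRing.comap_isAlgebraic_iff.mpr (inferInstance : Algebra.IsAlgebraic F L)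
  let b := Module.finBasis F L
  choose a ha0 ha using fun j => (Algebra.IsAlgebraic.isAlgebraic (R := A) (b j)).exists_integral_multiple
  let T : L →ₗ[k] (Fin (Module.finrank F L) → F) :=
    LinearMap.pi fun j => ((Algebra.trace F L).restrictScalars k) ∘ₗ (LinearMap.mulRight k (a j • b j))
  have hT : ∀ r j, T r j = Algebra.trace F L (r * (a j • b j)) := fun _ _ => rfl
  have hTinj : Function.Injective T := by
    rw [injective_iff_map_eq_zero]
    intro r hr
    apply (traceForm_nondegenerate F L).1 r
    intro y
    have h1 : ∀ j, Algebra.trace F L (r * b j) = 0 := by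
      intro j
      have := congrFun hr j
      rw [hT, mul_smul_comm, ← IsScalarTower.algebraMap_smul F, map_smul] at this
      exact (smul_eq_zero.1 this).resolve_left (by simpa using ha0 j)
    rw [Algebra.traceForm_apply, ← b.sum_repr y, Finset.mul_sum, map_sum]
    apply Finset.sum_eq_zero
    intro j _
    rw [mul_smul_comm, map_smul, h1, smul_zero]
  have hdeg : ∃ d : ℕ, ∀ f : L, f ≠ 0 → ∀ j, ∀ p : A,
      algebraMap A F p = Algebra.trace F L (δ f / f * (a j • b j)) → p.totalDegree ≤ d := by
    rcases isEmpty_or_nonempty ι with hι | ⟨⟨i₀⟩⟩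
    · refine ⟨0, fun f _ j p _ => ?_⟩
      rw [p.eq_C_of_isEmpty]; simp
    let v := vF k ι
    let π : F := (algebraMap A F (X i₀))⁻¹
    have hπ : v π = exp (-1) := by
      rw [map_inv₀, vF_alg, vd_apply (X_ne_zero i₀), totalDegree_X, ← exp_neg]; simp
    set P := algebraMap F L π with hP
    have hX : ∀ i, algebraMap A L (X i) ≠ 0 := by
      intro i
      rw [IsScalarTower.algebraMap_apply A F L]
      simpa using X_ne_zero i
    have hδ : ∀ p : A, δ (algebraMap A L p) = ∑ i, δ (algebraMap A L (X i)) / algebraMap A L (X i) *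
        algebraMap A L (eul (Pi.single i 1) p) := by
      intro p
      induction p using MvPolynomial.induction_on with
      | C r =>
        have : algebraMap A L (C r) = algebraMap k L r := (IsScalarTower.algebraMap_apply k A L r).symm
        rw [this]; simp
      | add p q hp hq => simp only [map_add, hp, hq, mul_add, Finset.sum_add_distrib]
      | mul_X p i hp =>
        rw [map_mul, Derivation.leibniz, hp]
        simp only [Derivation.leibniz, smul_eq_mul, map_add, map_mul, mul_add,
          Finset.sum_add_distrib, Finset.mul_sum]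
        congr 1
        · rw [Finset.sum_eq_single i]
          · simp only [eul, mkDerivation_X, Pi.single_eq_same, map_one, one_mul]
            field_simp [hX i]
          · intro j _ hj
            simp [eul, mkDerivation_X, Pi.single_eq_of_ne' hj]
          · simp
        · apply Finset.sum_congr rfl; intro j _; ring
    choose cc hcc using fun i => int_exists v hπ (δ (algebraMap A L (X i)) / algebraMap A L (X i))
    obtain ⟨c, hc⟩ := dvr_bound v hπ δ (Finset.univ.sup cc) (by
      rintro ⟨z, hz⟩
      obtain ⟨p, q, hq, rfl⟩ := IsFractionRing.div_surjective (A := A) z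
      have hq0 := nonZeroDivisors.ne_zero hq
      have hq' : algebraMap A F q ≠ 0 := by simpa using hq0
      have hq'' : algebraMap A L q ≠ 0 := by
        rw [IsScalarTower.algebraMap_apply A F L]; simpa using hq0
      have hvq : 0 < vd k ι q := by rw [vd_apply hq0]; exact exp_pos
      have hpq : vd k ι p ≤ vd k ι q := by
        rw [Valuation.mem_valuationSubring_iff, map_div₀, vF_alg, vF_alg, div_le_one₀ hvq] at hz
        exact hz
      let y : ι → F := fun i => algebraMap A F (eul (Pi.single i 1) p) / algebraMap A F q -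
        (algebraMap A F p / algebraMap A F q) * (algebraMap A F (eul (Pi.single i 1) q) / algebraMap A F q)
      have hy : ∀ i, y i ∈ v.valuationSubring := by
        intro i
        refine sub_mem ?_ (mul_mem hz ?_)
        · rw [Valuation.mem_valuationSubring_iff, map_div₀, vF_alg, vF_alg, div_le_one₀ hvq]
          exact (vd_eul_le _ _).trans hpq
        · rw [Valuation.mem_valuationSubring_iff, map_div₀, vF_alg, vF_alg, div_le_one₀ hvq]
          exact vd_eul_le _ _
      have e : P ^ (Finset.univ.sup cc) * δ (algebraMap F L (algebraMap A F p / algebraMap A F q)) =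
          ∑ i, (P ^ (Finset.univ.sup cc) * (δ (algebraMap A L (X i)) / algebraMap A L (X i))) *
            algebraMap F L (y i) := by
        simp only [y, map_sub, map_mul, map_div₀, ← IsScalarTower.algebraMap_apply A F L]
        rw [Derivation.leibniz_div, hδ p, hδ q]
        simp only [smul_eq_mul, Finset.mul_sum, ← Finset.sum_sub_distrib]
        apply Finset.sum_congr rfl
        intro i _
        field_simp
      change IsIntegral _ (P ^ _ * δ (algebraMap F L (algebraMap A F p / algebraMap A F q)))
      rw [e]
      apply IsIntegral.sum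
      intro i _
      exact (int_mono v hπ _ (Finset.le_sup (f := cc) (Finset.mem_univ i)) (hcc i)).mul
        (isIntegral_algebraMap (A := L) (x := (⟨y i, hy i⟩ : v.valuationSubring))))
    choose ee hee using fun j => int_exists v hπ (a j • b j)
    refine ⟨c + Finset.univ.sup ee, fun f hf j p hp => ?_⟩
    by_cases hp0 : p = 0
    · simp [hp0]
    have h1 := (hc f hf).mul (int_mono v hπ _ (Finset.le_sup (f := ee) (Finset.mem_univ j)) (hee j))
    have h2 := Algebra.isIntegral_trace (L := F) h1
    have e : P ^ c * (δ f / f) * (P ^ Finset.univ.sup ee * (a j • b j)) =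
        (π ^ (c + Finset.univ.sup ee)) • (δ f / f * (a j • b j)) := by
      rw [Algebra.smul_def (π ^ _), map_pow]; ring
    rw [e, map_smul, ← hp] at h2
    obtain ⟨o, ho⟩ := IsIntegrallyClosed.isIntegral_iff.1 h2
    have h3 : v (π ^ (c + Finset.univ.sup ee) • algebraMap A F p) ≤ 1 := by
      rw [← ho]; exact o.2
    rw [smul_eq_mul, map_mul, map_pow, hπ, vF_alg, vd_apply hp0, ← exp_nsmul, ← exp_add,
      ← exp_zero, exp_le_exp] at h3
    simp only [nsmul_eq_mul] at h3
    push_cast at h3
    omega
  obtain ⟨d, hd⟩ := hdeg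
  let U : Submodule k F := (restrictTotalDegree ι k d).map (IsScalarTower.toAlgHom k A F).toLinearMap
  let V : Submodule k (Fin (Module.finrank F L) → F) := Submodule.pi Set.univ fun _ => U
  haveI : Module.Finite k U := inferInstance
  haveI : Module.Finite k V := by
    rw [Module.Finite.iff_fg]
    exact Submodule.fg_pi fun _ => (Module.Finite.iff_fg).1 inferInstance
  refine ⟨V.comap T, ?_, ?_⟩
  · exact Module.Finite.of_injective (T.restrict (p := V.comap T) (q := V) fun x hx => hx)
      (fun x y h => Subtype.ext (hTinj (congrArg Subtype.val h)))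
  · intro f hf hi j _
    have h1 := Algebra.isIntegral_trace (L := F) (hi.mul (ha j))
    obtain ⟨p, hp⟩ := IsIntegrallyClosed.isIntegral_iff.1 h1
    exact ⟨p, (mem_restrictTotalDegree _ _ _).2 (hd f hf j p hp), hp⟩

end Pool.Agent.H64.LogD
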