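import Pool.Agent.H64.LogD3

namespace Pool.Agent.H64.LogD

open MvPolynomial

lemma finite_of_alg {C F L : Type*} [Field C] [Field F] [Field L] [Algebra C L] [Algebra C F]
    [Algebra F L] [IsScalarTower C F L] [Algebra.IsAlgebraic F L] (y : Finset L)
    (hy : IntermediateField.adjoin C (y : Set L) = ⊤) : Module.Finite F L := by
  have h1 : IntermediateField.adjoin F (y : Set L) = ⊤ := by
    rw [eq_top_iff]
    intro x _
    have hx : x ∈ IntermediateField.adjoin C (y : Set L) := by rw [hy]; trivial
    have : IntermediateField.adjoin C (y : Set L) ≤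
        (IntermediateField.adjoin F (y : Set L)).restrictScalars C := by
      rw [IntermediateField.adjoin_le_iff]
      exact IntermediateField.subset_adjoin F _
    exact this hx
  haveI : FiniteDimensional F (IntermediateField.adjoin F (y : Set L)) :=
    IntermediateField.finiteDimensional_adjoin fun x _ => Algebra.IsIntegral.isIntegral x
  rw [h1] at this
  exact Module.Finite.of_surjective (IntermediateField.topEquiv (F := F) (E := L)).toLinearMap
    (IntermediateField.topEquiv (F := F) (E := L)).surjective

variable {C L : Type} [Field C] [CharZero C] [Field L] [Algebra C L]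

structure Good (C : Type) {L : Type} [Field C] [Field L] [Algebra C L] (w : L → ℤ) : Prop where
  mul : ∀ x y, x ≠ 0 → y ≠ 0 → w (x * y) = w x + w y
  const : ∀ c : C, c ≠ 0 → w (algebraMap C L c) = 0
  res : ∀ (J : Type) [Fintype J] (c : J → C) (f : J → L), (∀ j, f j ≠ 0) →
    (∀ D : Derivation C L L, ∑ j, algebraMap C L (c j) * (D (f j) / f j) = 0) →
    ∑ j, c j * (w (f j) : C) = 0

lemma sep (y : Finset L) (hy : IntermediateField.adjoin C (y : Set L) = ⊤)
    (δ : Derivation C L L) (g : L) (hg : δ g ≠ 0) : ∃ w : L → ℤ, Good C w ∧ w g ≠ 0 := by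
  have ht : Transcendental C g := by
    intro ha
    have hi : IsIntegral C g := ha.isIntegral
    have h1 := δ.map_aeval (minpoly C g) g
    rw [minpoly.aeval, map_zero] at h1
    have h2 : Polynomial.aeval g (Polynomial.derivative (minpoly C g)) ≠ 0 :=
      (minpoly.irreducible hi).separable.aeval_derivative_ne_zero (minpoly.aeval C g)
    exact hg ((smul_eq_zero.1 h1.symm).resolve_left h2)
  obtain ⟨t, hgt, ht⟩ := exists_isTranscendenceBasis_superset (R := C) (s := {g})
    (algebraicIndependent_unique_type_iff.mpr ht)
  let A := MvPolynomial t C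
  let F := FractionRing A
  letI : Algebra A L := (aeval (R := C) ((↑) : t → L)).toRingHom.toAlgebra
  haveI : IsScalarTower C A L := IsScalarTower.of_algebraMap_eq fun c =>
    ((aeval (R := C) ((↑) : t → L)).commutes c).symm
  haveI : FaithfulSMul A L := (faithfulSMul_iff_algebraMap_injective A L).2 ht.1
  letI : Algebra F L := FractionRing.liftAlgebra A L
  haveI : IsScalarTower C F L := IsScalarTower.of_algebraMap_eq fun c => by
    rw [IsScalarTower.algebraMap_apply C A L, IsScalarTower.algebraMap_apply A F L,
      ← IsScalarTower.algebraMap_apply C A F]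
  haveI : Algebra.IsAlgebraic A L := by
    haveI := ht.isAlgebraic
    exact Algebra.IsAlgebraic.of_ringHom_of_comp_eq
      (S := Algebra.adjoin C (Set.range ((↑) : t → L))) ht.1.aevalEquiv (RingHom.id L)
      ht.1.aevalEquiv.surjective Function.injective_id (RingHom.ext fun _ => rfl)
  haveI : Algebra.IsAlgebraic F L := IsFractionRing.comap_isAlgebraic_iff.mp this
  haveI : Module.Finite F L := finite_of_alg y hy
  obtain ⟨w, h1, h2, h3, D, h4⟩ := res (k := C) (ι := t) (L := L)
  refine ⟨w, ⟨h1, h2, fun J _ c f hf h => h4 J c f hf (h D)⟩, ?_⟩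
  have := h3 ⟨g, hgt rfl⟩
  change w (aeval _ _) ≠ 0 at this
  simpa using this

lemma der_finite (y : Finset L) (hy : IntermediateField.adjoin C (y : Set L) = ⊤) :
    Module.Finite L (Derivation C L L) := by
  let T : Derivation C L L →ₗ[L] (y → L) :=
    { toFun := fun D j => D j
      map_add' := fun _ _ => rfl
      map_smul' := fun _ _ => rfl }
  refine Module.Finite.of_injective T ?_
  rw [injective_iff_map_eq_zero]
  intro D hD
  ext x
  have hx : x ∈ IntermediateField.adjoin C (y : Set L) := by rw [hy]; trivial
  induction hx using IntermediateField.adjoin_induction with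
  | mem x hx => exact congrFun hD ⟨x, hx⟩
  | algebraMap c => simp
  | add x y _ _ hx hy => simp_all
  | inv x _ hx => simp_all [Derivation.leibniz_inv]
  | mul x y _ _ hx hy => simp_all

lemma bound (y : Finset L) (hy : IntermediateField.adjoin C (y : Set L) = ⊤)
    (δ : Derivation C L L) (hδ : ∀ x, δ x = 0 → ∃ c, algebraMap C L c = x)
    (W : Submodule C L) [Module.Finite C W] (N : ℕ) (f : Fin N → L) (hf : ∀ j, f j ≠ 0)
    (hW : ∀ j, δ (f j) / f j ∈ W)
    (hinj : ∀ l : Fin N → C, (∀ w, Good C w → ∑ j, l j * (w (f j) : C) = 0) → l = 0) :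
    N ≤ Module.finrank C W + Module.finrank L (Module.Dual L (Derivation C L L)) := by
  haveI := der_finite y hy
  let T : (Fin N → C) →ₗ[C] W := Fintype.linearCombination C fun j => ⟨_, hW j⟩
  have h1 := T.finrank_range_add_finrank_ker
  have h2 : Module.finrank C (LinearMap.range T) ≤ Module.finrank C W := Submodule.finrank_le _
  simp only [Module.finrank_fin_fun] at h1
  suffices Module.finrank C (LinearMap.ker T) ≤
      Module.finrank L (Module.Dual L (Derivation C L L)) by omega
  let b := Module.finBasis C (LinearMap.ker T)
  let om : (Fin N → C) → Module.Dual L (Derivation C L L) := fun l =>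
    { toFun := fun D => ∑ j, algebraMap C L (l j) * (D (f j) / f j)
      map_add' := fun D E => by simp [add_div, mul_add, Finset.sum_add_distrib]
      map_smul' := fun a D => by
        simp only [Derivation.smul_apply, smul_eq_mul, RingHom.id_apply, Finset.mul_sum]
        apply Finset.sum_congr rfl; intro j _; ring }
  have hom : ∀ l D, om l D = ∑ j, algebraMap C L (l j) * (D (f j) / f j) := fun _ _ => rfl
  let co : Module.Dual L (Derivation C L L) →ₗ[L] (Derivation C L L → L) :=
    { toFun := fun φ => φ
      map_add' := fun _ _ => rfl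
      map_smul' := fun _ _ => rfl }
  let Nb : (Derivation C L L → L) →+ (Derivation C L L → L) :=
    { toFun := fun ω D => δ (ω D) - ω ⁅δ, D⁆
      map_zero' := by funext D; simp
      map_add' := fun a b => by funext D; simp; ring }
  have hli : LinearIndependent L (co ∘ fun i => om (b i)) := by
    apply indep_of_const δ (by simp) Nb
    · intro h ω; funext D
      simp [Nb]; ring
    · intro i; funext D
      have hk : ∑ j, algebraMap C L ((b i : Fin N → C) j) * (δ (f j) / f j) = 0 := by
        have h0 : T (b i) = 0 := (b i).2
        have := congrArg Subtype.val h0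
        simp only [T, Fintype.linearCombination_apply, Submodule.coe_sum, Submodule.coe_smul,
          Algebra.smul_def, Submodule.coe_zero] at this
        exact this
      have hk2 := congrArg D hk
      change δ (om (b i) D) - om (b i) ⁅δ, D⁆ = 0
      rw [hom, hom, map_sum, ← Finset.sum_sub_distrib, ← D.map_zero, ← hk, map_sum]
      apply Finset.sum_congr rfl
      intro j _
      have := hf j
      simp only [Derivation.leibniz, Derivation.leibniz_div, Derivation.map_algebraMap,
        Derivation.commutator_apply, smul_eq_mul]
      field_simp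
      ring
    · intro c hc hs
      choose γ hγ using fun i => hδ _ (hc i)
      have h3 : (∑ i, γ i • (b i : Fin N → C)) = 0 := by
        apply hinj
        intro w hw
        apply hw.res _ _ f hf
        intro D
        have := congrFun hs D
        simp only [Finset.sum_apply, Pi.smul_apply, Function.comp_apply, smul_eq_mul,
          Pi.zero_apply] at this
        rw [← this]
        simp only [Finset.sum_apply, Pi.smul_apply, smul_eq_mul, map_sum, map_mul,
          Finset.sum_mul]
        rw [Finset.sum_comm]
        apply Finset.sum_congr rfl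
        intro i _
        change _ = c i * om (b i) D
        rw [hom, Finset.mul_sum, ← hγ]
        apply Finset.sum_congr rfl
        intro j _; ring
      have h4 : ∑ i, γ i • b i = 0 := by
        apply Subtype.ext
        simpa using h3
      have h5 := Fintype.linearIndependent_iff.1 b.linearIndependent γ h4
      intro i
      rw [← hγ, h5, map_zero]
  have := (LinearIndependent.of_comp co hli).fintype_card_le_finrank
  simpa using this

theorem core (y : Finset L) (hy : IntermediateField.adjoin C (y : Set L) = ⊤)
    (δ : Derivation C L L) (hδ : ∀ x, δ x = 0 → ∃ c, algebraMap C L c = x)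
    (W : Submodule C L) [Module.Finite C W] (X : AddSubgroup L)
    (hX : ∀ x ∈ X, x ∈ W ∧ ∃ f, f ≠ 0 ∧ δ f / f = x) : X.FG := by
  classical
  choose ff hf0 hff using fun x : X => (hX x x.2).2
  have hwd : ∀ w, Good C w → ∀ f g : L, f ≠ 0 → g ≠ 0 → δ f / f = δ g / g → w f = w g := by
    intro w hw f g hf hg h
    have h1 : δ (f / g) = 0 := by
      rw [Derivation.leibniz_div]
      rw [div_eq_div_iff hf hg] at h
      simp only [smul_eq_mul]
      rw [mul_comm g, mul_comm f, h]; simp
    obtain ⟨c, hc⟩ := hδ _ h1
    have hc0 : c ≠ 0 := by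
      rintro rfl
      rw [map_zero] at hc
      exact div_ne_zero hf hg hc.symm
    have := hw.mul (f / g) g (div_ne_zero hf hg) hg
    rw [div_mul_cancel₀ _ hg, ← hc, hw.const c hc0, zero_add] at this
    exact this
  have hadd : ∀ w, Good C w → ∀ a b : X, w (ff (a + b)) = w (ff a) + w (ff b) := by
    intro w hw a b
    rw [← hw.mul _ _ (hf0 a) (hf0 b)]
    apply hwd w hw _ _ (hf0 _) (mul_ne_zero (hf0 a) (hf0 b))
    have ha := hf0 a
    have hb := hf0 b
    rw [hff, AddSubgroup.coe_add, ← hff a, ← hff b, Derivation.leibniz]
    simp only [smul_eq_mul]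
    field_simp
    ring
  by_cases h : ∃ S : Finset {w : L → ℤ // Good C w}, ∀ x : X, (∀ w ∈ S, w.1 (ff x) = 0) → x = 0
  · obtain ⟨S, hS⟩ := h
    let Φ : X →+ (S → ℤ) := AddMonoidHom.mk' (fun x w => w.1.1 (ff x)) fun a b => by
      funext w; exact hadd _ w.1.2 a b
    have hΦ : Function.Injective Φ := by
      rw [injective_iff_map_eq_zero]
      intro x hx
      exact hS x fun w hw => congrFun hx ⟨w, hw⟩
    have : Module.Finite ℤ X := Module.Finite.of_injective Φ.toIntLinearMap hΦ
    exact (AddGroup.fg_iff_addSubgroup_fg X).1 (Module.Finite.iff_addGroup_fg.1 this)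
  exfalso
  push Not at h
  have key : ∀ N : ℕ, ∃ (x : Fin N → X) (S : Finset {w : L → ℤ // Good C w}),
      ∀ l : Fin N → C, (∀ w ∈ S, ∑ j, l j * (w.1 (ff (x j)) : C) = 0) → l = 0 := by
    intro N
    induction N with
    | zero => exact ⟨Fin.elim0, ∅, fun l _ => Subsingleton.elim _ _⟩
    | succ N ih =>
      obtain ⟨x, S, hS⟩ := ih
      obtain ⟨g, hg1, hg2⟩ := h S
      have hg3 : δ (ff g) ≠ 0 := by
        intro e
        apply hg2
        apply Subtype.ext
        rw [← hff g, e]; simp
      obtain ⟨w', hw', hw2⟩ := sep y hy δ _ hg3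
      refine ⟨Fin.cons g x, insert ⟨w', hw'⟩ S, fun l hl => ?_⟩
      have h1 : Fin.tail l = 0 := by
        apply hS
        intro w hw
        have := hl w (Finset.mem_insert_of_mem hw)
        rw [Fin.sum_univ_succ] at this
        simpa [hg1 w hw, Fin.tail] using this
      have h2 : ∀ j : Fin N, l j.succ = 0 := fun j => congrFun h1 j
      have h3 := hl _ (Finset.mem_insert_self _ _)
      rw [Fin.sum_univ_succ] at h3
      simp only [h2, zero_mul, Finset.sum_const_zero, add_zero, Fin.cons_zero] at h3
      have h4 : l 0 = 0 := (mul_eq_zero.1 h3).resolve_right (by exact_mod_cast hw2)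
      funext j
      refine Fin.cases h4 h2 j
  obtain ⟨x, S, hS⟩ := key
    (Module.finrank C W + Module.finrank L (Module.Dual L (Derivation C L L)) + 1)
  have := bound y hy δ hδ W _ (fun j => ff (x j)) (fun j => hf0 _)
    (fun j => by rw [hff]; exact (hX _ (x j).2).1) (fun l hl => hS l fun w _ => hl w.1 w.2)
  omega

theorem main (K R L : Type) [Field K] [CharZero K] [CommRing R] [IsDomain R] [Algebra K R]
    [Field L] [Algebra R L] [IsFractionRing R L] [Algebra K L] [IsScalarTower K R L]
    [Algebra.FiniteType K R] (δ : Derivation K R R) :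
    (AddSubgroup.closure
      {r : R | ∃ a b : R, a ≠ 0 ∧ b ≠ 0 ∧ δ a * b - a * δ b = r * a * b}).FG := by
  classical
  haveI : Algebra.FormallySmooth R L := Algebra.FormallySmooth.of_isLocalization (nonZeroDivisors _)
  obtain ⟨d, hd⟩ := exists_ext L δ
  obtain ⟨s, hs⟩ := (inferInstance : Algebra.FiniteType K R).1
  let y : Finset L := s.image (algebraMap R L)
  have hy : IntermediateField.adjoin K (y : Set L) = ⊤ := by
    rw [eq_top_iff]
    intro x _
    have hR : ∀ r : R, algebraMap R L r ∈ IntermediateField.adjoin K (y : Set L) := by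
      intro r
      have hr : r ∈ Algebra.adjoin K (s : Set R) := by rw [hs]; trivial
      induction hr using Algebra.adjoin_induction with
      | mem x hx => exact IntermediateField.subset_adjoin K _ (Finset.mem_coe.2 (Finset.mem_image_of_mem _ hx))
      | algebraMap c =>
        rw [← IsScalarTower.algebraMap_apply]; exact IntermediateField.algebraMap_mem _ c
      | add x y _ _ hx hy => rw [map_add]; exact add_mem hx hy
      | mul x y _ _ hx hy => rw [map_mul]; exact mul_mem hx hy
    obtain ⟨a, b, _, rfl⟩ := IsFractionRing.div_surjective (A := R) x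
    exact div_mem (hR a) (hR b)
  -- the finite-dimensional space
  obtain ⟨W, hWf, hW⟩ : ∃ W : Submodule K L, Module.Finite K W ∧
      ∀ f : L, f ≠ 0 → (∃ r : R, algebraMap R L r = d f / f) → d f / f ∈ W := by
    obtain ⟨n, g, hg, hgi⟩ := exists_integral_inj_algHom_of_fg K R
    let A := MvPolynomial (Fin n) K
    let F := FractionRing A
    letI : Algebra A R := g.toRingHom.toAlgebra
    letI : Algebra A L := ((algebraMap R L).comp g.toRingHom).toAlgebra
    haveI : IsScalarTower A R L := IsScalarTower.of_algebraMap_eq fun _ => rfl
    haveI : IsScalarTower K A L := IsScalarTower.of_algebraMap_eq fun c => by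
      change _ = algebraMap R L (g _)
      rw [g.commutes, ← IsScalarTower.algebraMap_apply]
    haveI : FaithfulSMul A L := (faithfulSMul_iff_algebraMap_injective A L).2
      ((IsFractionRing.injective R L).comp hg)
    letI : Algebra F L := FractionRing.liftAlgebra A L
    haveI : IsScalarTower K F L := IsScalarTower.of_algebraMap_eq fun c => by
      rw [IsScalarTower.algebraMap_apply K A L, IsScalarTower.algebraMap_apply A F L,
        ← IsScalarTower.algebraMap_apply K A F]
    have hint : ∀ r : R, IsIntegral A (algebraMap R L r) := fun r =>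
      IsIntegral.algebraMap (show IsIntegral A r from hgi r)
    haveI : Algebra.IsAlgebraic F L := ⟨fun x => by
      obtain ⟨a, b, _, rfl⟩ := IsFractionRing.div_surjective (A := R) x
      rw [div_eq_mul_inv]
      exact (((hint a).tower_top (A := F)).mul ((hint b).tower_top (A := F)).inv).isAlgebraic⟩
    haveI : Module.Finite F L := finite_of_alg y hy
    obtain ⟨W, h1, h2⟩ := exists_W (k := K) (ι := Fin n) d
    refine ⟨W, h1, fun f hf ⟨r, hr⟩ => h2 f hf (hr ▸ hint r)⟩
  let C : IntermediateField K L :=
    { carrier := {x | d x = 0}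
      mul_mem' := fun {a b} ha hb => by
        simp only [Set.mem_setOf_eq] at *; simp [ha, hb]
      add_mem' := fun {a b} ha hb => by
        simp only [Set.mem_setOf_eq] at *; simp [ha, hb]
      algebraMap_mem' := fun c => by simp
      inv_mem' := fun a ha => by
        simp only [Set.mem_setOf_eq] at *; simp [Derivation.leibniz_inv, ha] }
  haveI : CharZero C := charZero_of_injective_algebraMap (algebraMap K C).injective
  let dC : Derivation C L L := Derivation.mk'
    { toFun := d
      map_add' := map_add d
      map_smul' := fun c x => by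
        have hc : d (c : L) = 0 := c.2
        change d ((c : L) * x) = (c : L) * d x
        simp [hc] } (fun a b => d.leibniz a b)
  have hyC : IntermediateField.adjoin C (y : Set L) = ⊤ := by
    rw [eq_top_iff]
    intro x _
    have hx : x ∈ IntermediateField.adjoin K (y : Set L) := by rw [hy]; trivial
    have : IntermediateField.adjoin K (y : Set L) ≤
        (IntermediateField.adjoin C (y : Set L)).restrictScalars K := by
      rw [IntermediateField.adjoin_le_iff]
      exact IntermediateField.subset_adjoin C _
    exact this hx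
  let W' : Submodule C L := Submodule.span C (W : Set L)
  haveI : Module.Finite C W' := by
    obtain ⟨t, ht⟩ := (Module.Finite.iff_fg).1 hWf
    rw [Module.Finite.iff_fg]
    refine ⟨t, ?_⟩
    simp only [W']
    rw [← ht, Submodule.span_span_of_tower]
  set X := AddSubgroup.closure
      {r : R | ∃ a b : R, a ≠ 0 ∧ b ≠ 0 ∧ δ a * b - a * δ b = r * a * b} with hXdef
  have hlog : ∀ r ∈ X, ∃ f : L, f ≠ 0 ∧ d f / f = algebraMap R L r := by
    intro r hr
    induction hr using AddSubgroup.closure_induction with
    | mem r hr =>
      obtain ⟨a, b, ha, hb, h⟩ := hr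
      have ha' : algebraMap R L a ≠ 0 := by simpa using ha
      have hb' : algebraMap R L b ≠ 0 := by simpa using hb
      refine ⟨algebraMap R L a / algebraMap R L b, div_ne_zero ha' hb', ?_⟩
      have h' := congrArg (algebraMap R L) h
      simp only [map_sub, map_mul] at h'
      rw [Derivation.leibniz_div, hd, hd]
      simp only [smul_eq_mul]
      field_simp
      linear_combination h'
    | zero => exact ⟨1, one_ne_zero, by simp⟩
    | add a b _ _ ha hb =>
      obtain ⟨f, hf, h1⟩ := ha
      obtain ⟨g, hg, h2⟩ := hb
      refine ⟨f * g, mul_ne_zero hf hg, ?_⟩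
      rw [map_add, ← h1, ← h2, Derivation.leibniz]
      simp only [smul_eq_mul]
      field_simp
      ring
    | neg a _ ha =>
      obtain ⟨f, hf, h1⟩ := ha
      refine ⟨f⁻¹, inv_ne_zero hf, ?_⟩
      rw [map_neg, ← h1, Derivation.leibniz_inv]
      simp only [smul_eq_mul]
      field_simp
  have hfg := core y hyC dC (fun x hx => ⟨⟨x, hx⟩, rfl⟩) W'
    (X.map (algebraMap R L).toAddMonoidHom) (by
      rintro _ ⟨r, hr, rfl⟩
      obtain ⟨f, hf, h1⟩ := hlog r hr
      refine ⟨Submodule.subset_span ?_, f, hf, h1⟩
      have := hW f hf ⟨r, h1.symm⟩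
      rw [h1] at this
      exact this)
  have h2 := (AddGroup.fg_iff_addSubgroup_fg _).2 hfg
  have e := AddSubgroup.equivMapOfInjective X (algebraMap R L).toAddMonoidHom
    (IsFractionRing.injective R L)
  exact (AddGroup.fg_iff_addSubgroup_fg X).1
    (AddGroup.fg_of_surjective (f := e.symm.toAddMonoidHom) e.symm.surjective)

end Pool.Agent.H64.LogD
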