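import Mathlib

set_option autoImplicit false

open scoped commutatorElement

namespace Pool.Agent.H64.McLain

/-- solvability from a solvable subgroup containing the commutators -/
theorem solv_of_comm {G : Type*} [Group G] (H K : Subgroup G) [Group.IsSolvable K]
    (h : ∀ p ∈ H, ∀ q ∈ H, ⁅p, q⁆ ∈ K) : Group.IsSolvable H := by
  haveI : Group.IsSolvable (K.subgroupOf H) :=
    Group.isSolvable_of_isSolvable_injective (f := ((H.subtype.comp (K.subgroupOf H).subtype).codRestrict K
      (fun x => x.2))) (fun a b hab => Subtype.ext (Subtype.ext (congrArg (fun u : K => (u : G)) hab)))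
  refine Group.isSolvable_of_ker_le_range (K.subgroupOf H).subtype (Abelianization.of (G := H)) ?_
  rw [Abelianization.ker_of, Subgroup.range_subtype, commutator_def, Subgroup.commutator_le]
  intro p _ q _
  exact h p p.2 q q.2

theorem solv_of_le {G : Type*} [Group G] {H K : Subgroup G} [Group.IsSolvable K] (h : H ≤ K) :
    Group.IsSolvable H :=
  Group.isSolvable_of_isSolvable_injective (Subgroup.inclusion_injective h)

/-- a family of commutator relations kills an element in every finite-dimensional rep -/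
theorem kill {G F W : Type*} [Group G] [Field F] [AddCommGroup W] [Module F W]
    [FiniteDimensional F W] (ρ : G →* Module.End F W) (c : G) (x y : ℕ → G)
    (h1 : ∀ m, x m * y m = c * y m * x m) (h2 : ∀ m l, m ≠ l → x m * y l = y l * x m) :
    ρ c = 1 := by
  by_contra hc
  apply Module.Finite.not_linearIndependent_of_infinite (R := F) (fun m => ρ (x m))
  rw [linearIndependent_iff']
  intro s g hs l hl
  by_contra hg
  apply hc
  have e : ∑ i ∈ s, g i • (ρ (x i) * ρ (y l) - ρ (y l) * ρ (x i)) = 0 := by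
    simp only [smul_sub, Finset.sum_sub_distrib]
    have e1 : ∑ i ∈ s, g i • (ρ (x i) * ρ (y l)) = (∑ i ∈ s, g i • ρ (x i)) * ρ (y l) := by
      simp [Finset.sum_mul]
    have e2 : ∑ i ∈ s, g i • (ρ (y l) * ρ (x i)) = ρ (y l) * (∑ i ∈ s, g i • ρ (x i)) := by
      simp [Finset.mul_sum]
    rw [e1, e2, hs]
    simp
  rw [Finset.sum_eq_single l] at e
  · rcases smul_eq_zero.1 e with h | h
    · exact absurd h hg
    · rw [← map_mul, ← map_mul, h1, sub_eq_zero] at h
      have := congrArg (· * ρ (y l * x l)⁻¹) h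
      simp only [← map_mul] at this
      simpa [mul_assoc] using this
  · intro i _ hi
    rw [← map_mul, ← map_mul, h2 i l hi, sub_self, smul_zero]
  · intro h; exact absurd hl h

section filt
variable {R : Type*} [Ring R] (A : ℕ → AddSubgroup R)
  (hmul : ∀ k l a b, a ∈ A k → b ∈ A l → a * b ∈ A (k + l))
  (hanti : ∀ k l, k ≤ l → A l ≤ A k) (hone : (1 : R) ∈ A 0)

/-- congruence subgroups of a filtration -/
def UU (k : ℕ) : Subgroup Rˣ where
  carrier := {g | (g : R) - 1 ∈ A k ∧ ((g⁻¹ : Rˣ) : R) - 1 ∈ A k}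
  one_mem' := by simp
  inv_mem' := fun h => ⟨h.2, by simpa using h.1⟩
  mul_mem' := by
    have key : ∀ a b : R, a - 1 ∈ A k → b - 1 ∈ A k → a * b - 1 ∈ A k := by
      intro a b ha hb
      have : a * b - 1 = (a - 1) * (b - 1) + (a - 1) + (b - 1) := by noncomm_ring
      rw [this]
      exact add_mem (add_mem (hanti _ _ (by omega) (hmul _ _ _ _ ha hb)) ha) hb
    intro a b ha hb
    exact ⟨by simpa using key _ _ ha.1 hb.1, by simpa using key _ _ hb.2 ha.2⟩

include hone in
theorem UU_comm (k : ℕ) (hk : 1 ≤ k) (g h : Rˣ) (hg : g ∈ UU A hmul hanti k)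
    (hh : h ∈ UU A hmul hanti k) : ⁅g, h⁆ ∈ UU A hmul hanti (k + 1) := by
  have key : ∀ g h : Rˣ, g ∈ UU A hmul hanti k → h ∈ UU A hmul hanti k →
      ((⁅g, h⁆ : Rˣ) : R) - 1 ∈ A (k + 1) := by
    intro g h hg hh
    have z : ∀ u : Rˣ, (u : R) - 1 ∈ A k → (u : R) ∈ A 0 := by
      intro u hu
      have := add_mem (hanti 0 k (by omega) hu) hone
      simpa using this
    have e : ((⁅g, h⁆ : Rˣ) : R) - 1 = (((g : R) - 1) * ((h : R) - 1) - ((h : R) - 1) * ((g : R) - 1))
        * ((g⁻¹ : Rˣ) : R) * ((h⁻¹ : Rˣ) : R) := by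
      have : ((g : R) - 1) * ((h : R) - 1) - ((h : R) - 1) * ((g : R) - 1) = g * h - h * g := by
        noncomm_ring
      rw [this, commutatorElement_def]
      simp [sub_mul, mul_assoc]
    rw [e]
    have h1 := sub_mem (hmul _ _ _ _ hg.1 hh.1) (hmul _ _ _ _ hh.1 hg.1)
    exact hanti _ _ (by omega) (hmul _ _ _ _ (hmul _ _ _ _ h1 (z _ hg.2)) (z _ hh.2))
  refine ⟨key g h hg hh, ?_⟩
  rw [commutatorElement_inv]
  exact key h g hh hg

end filt

/-- the module -/
abbrev V := ℚ → ℤ

/-- matrix units -/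
def E (i j : ℚ) : Module.End ℤ V := (LinearMap.single ℤ (fun _ => ℤ) i) ∘ₗ LinearMap.proj j

theorem E_apply (i j : ℚ) (v : V) (k : ℚ) : E i j v k = if k = i then v j else 0 := by
  simp [E, Pi.single_apply]

theorem E_mul_ne {i j k l : ℚ} (h : j ≠ k) : E i j * E k l = 0 := by
  ext v m
  simp [E_apply, h]

theorem E_mul_eq (i j l : ℚ) : E i j * E j l = E i l := by
  ext v m
  simp [E_apply]

/-- transvections -/
def T (i j : ℚ) (h : i < j) : (Module.End ℤ V)ˣ where
  val := 1 + E i j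
  inv := 1 - E i j
  val_inv := by simp [add_mul, mul_sub, E_mul_ne h.ne']
  inv_val := by simp [sub_mul, mul_add, E_mul_ne h.ne']

/-- the McLain group -/
def Γ : Subgroup (Module.End ℤ V)ˣ :=
  Subgroup.closure {u | ∃ i j, ∃ h : i < j, 0 ≤ i ∧ j ≤ 1 ∧ u = T i j h}

theorem T_mem {i j : ℚ} (h : i < j) (hi : 0 ≤ i) (hj : j ≤ 1) : T i j h ∈ Γ :=
  Subgroup.subset_closure ⟨i, j, h, hi, hj, rfl⟩

theorem T_rel {i k j : ℚ} (h1 : i < k) (h2 : k < j) :
    T i k h1 * T k j h2 = T i j (h1.trans h2) * T k j h2 * T i k h1 := by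
  ext1
  simp [T, add_mul, mul_add, E_mul_eq, E_mul_ne h2.ne', E_mul_ne (h1.trans h2).ne']
  abel

theorem T_comm {i k l j : ℚ} (h1 : i < k) (h2 : l < j) (hkl : k ≠ l) (hji : j ≠ i) :
    T i k h1 * T l j h2 = T l j h2 * T i k h1 := by
  ext1
  simp [T, add_mul, mul_add, E_mul_ne hkl, E_mul_ne hji]
  abel

/-- the central element -/
def z : Γ := ⟨T 0 1 one_pos, T_mem _ le_rfl le_rfl⟩

theorem z_comm (g : Γ) : z * g = g * z := by
  obtain ⟨g, hg⟩ := g
  apply Subtype.ext
  change T 0 1 one_pos * g = g * T 0 1 one_pos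
  induction hg using Subgroup.closure_induction with
  | mem u hu =>
    obtain ⟨i, j, h, hi, hj, rfl⟩ := hu
    exact T_comm _ _ (by linarith) (by linarith)
  | one => simp
  | mul a b _ _ ha hb => rw [← mul_assoc, ha, mul_assoc, hb, mul_assoc]
  | inv a _ ha => exact (Commute.inv_right ha)

theorem top_fixed (g : (Module.End ℤ V)ˣ) (hg : g ∈ Γ) (v : V) : (g : Module.End ℤ V) v 1 = v 1 := by
  induction hg using Subgroup.closure_induction generalizing v with
  | mem u hu =>
    obtain ⟨i, j, h, hi, hj, rfl⟩ := hu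
    have : (1 : ℚ) ≠ i := by linarith
    simp [T, E_apply, this]
  | one => simp
  | mul a b _ _ ha hb => simp [ha, hb]
  | inv a _ ha =>
    rw [← ha ((((a⁻¹ : (Module.End ℤ V)ˣ) : Module.End ℤ V)) v)]
    change ((a : Module.End ℤ V) * ((a⁻¹ : (Module.End ℤ V)ˣ) : Module.End ℤ V)) v 1 = _
    simp

/-- the corner coordinate -/
def nn (g : Γ) : ℤ := (g.1 : Module.End ℤ V) (Pi.single 1 1) 0

theorem nn_z (g : Γ) : nn (z * g) = nn g + 1 := by
  have := top_fixed g.1 g.2 (Pi.single 1 1)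
  simp only [Pi.single_eq_same] at this
  simp [nn, z, T, E_apply, this]

theorem rep_trivial {F W : Type*} [Field F] [AddCommGroup W] [Module F W]
    [FiniteDimensional F W] (ρ : Γ →* Module.End F W) (g : Γ) : ρ g = 1 := by
  obtain ⟨g, hg⟩ := g
  induction hg using Subgroup.closure_induction with
  | mem u hu =>
    obtain ⟨i, j, h, hi, hj, rfl⟩ := hu
    let k : ℕ → ℚ := fun m => i + (j - i) / (m + 2)
    have hp : ∀ m : ℕ, (0 : ℚ) < m + 2 := fun m => by positivity
    have k1 : ∀ m, i < k m := fun m => by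
      have : 0 < (j - i) / (m + 2) := div_pos (by linarith) (hp m)
      simp only [k]; linarith
    have k2 : ∀ m, k m < j := fun m => by
      have : (j - i) / (m + 2) < j - i := by
        rw [div_lt_iff₀ (hp m)]
        have : (0 : ℚ) ≤ m := Nat.cast_nonneg m
        nlinarith
      simp only [k]; linarith
    have kinj : ∀ m l, k m = k l → m = l := by
      intro m l e
      simp only [k, add_right_inj] at e
      rw [div_eq_div_iff (hp m).ne' (hp l).ne'] at e
      have : (l : ℚ) + 2 = m + 2 := mul_left_cancel₀ (by linarith) e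
      exact_mod_cast (add_right_cancel this).symm
    refine kill ρ _ (fun m => ⟨T i (k m) (k1 m), T_mem _ hi ((k2 m).le.trans hj)⟩)
      (fun m => ⟨T (k m) j (k2 m), T_mem _ (hi.trans (k1 m).le) hj⟩) ?_ ?_
    · intro m; exact Subtype.ext (T_rel (k1 m) (k2 m))
    · intro m l hml
      exact Subtype.ext (T_comm (k1 m) (k2 l) (fun e => hml (kinj _ _ e)) h.ne')
  | one => exact map_one ρ
  | mul a b ha hb iha ihb =>
    have : (⟨a * b, mul_mem ha hb⟩ : Γ) = ⟨a, ha⟩ * ⟨b, hb⟩ := rfl
    rw [this, map_mul, iha, ihb, one_mul]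
  | inv a ha iha =>
    have : (⟨a⁻¹, inv_mem ha⟩ : Γ) * ⟨a, ha⟩ = 1 := Subtype.ext (inv_mul_cancel a)
    have h2 := congrArg ρ this
    rwa [map_mul, iha, mul_one, map_one] at h2

/-- rank function of a finite set -/
def rk (F : Finset ℚ) (i : ℚ) : ℕ := if i ∈ F then (F.filter (· < i)).card else F.card

theorem rk_le (F : Finset ℚ) (i : ℚ) : rk F i ≤ F.card := by
  unfold rk; split_ifs
  · exact Finset.card_filter_le _ _
  · exact le_rfl

theorem rk_lt (F : Finset ℚ) {i j : ℚ} (hi : i ∈ F) (hj : j ∈ F) (h : i < j) : rk F i < rk F j := by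
  simp only [rk, hi, hj, if_true]
  apply Finset.card_lt_card
  constructor
  · intro x hx
    simp only [Finset.mem_filter] at hx ⊢
    exact ⟨hx.1, hx.2.trans h⟩
  · intro hs
    have := hs (Finset.mem_filter.2 ⟨hi, h⟩)
    simp at this

/-- the filtration of the endomorphism ring -/
def AA (F : Finset ℚ) (k : ℕ) : AddSubgroup (Module.End ℤ V) where
  carrier := {a | ∀ t (v : V), (∀ i, t ≤ rk F i → v i = 0) → ∀ i, t ≤ rk F i + k → a v i = 0}
  zero_mem' := fun _ _ _ _ _ => rfl
  add_mem' := fun {a b} ha hb t v hv i hi => by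
    simp [ha t v hv i hi, hb t v hv i hi]
  neg_mem' := fun {a} ha t v hv i hi => by simp [ha t v hv i hi]

theorem AA_mul (F : Finset ℚ) (k l : ℕ) (a b : Module.End ℤ V) (ha : a ∈ AA F k)
    (hb : b ∈ AA F l) : a * b ∈ AA F (k + l) := by
  intro t v hv i hi
  exact ha (t - l) (b v) (fun j hj => hb t v hv j (by omega)) i (by omega)

theorem AA_anti (F : Finset ℚ) (k l : ℕ) (h : k ≤ l) : AA F l ≤ AA F k :=
  fun _ ha t v hv i hi => ha t v hv i (by omega)

theorem AA_one (F : Finset ℚ) : (1 : Module.End ℤ V) ∈ AA F 0 :=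
  fun _ _ hv i hi => hv i hi

theorem AA_top (F : Finset ℚ) (a : Module.End ℤ V) (ha : a ∈ AA F (F.card + 1)) : a = 0 := by
  ext v i
  exact ha (F.card + 1) v (fun j hj => absurd (rk_le F j) (by omega)) i (by omega)

/-- unitriangular subgroups -/
def U (F : Finset ℚ) (k : ℕ) : Subgroup (Module.End ℤ V)ˣ := UU (AA F) (AA_mul F) (AA_anti F) k

theorem U_comm (F : Finset ℚ) (k : ℕ) (hk : 1 ≤ k) (g h : (Module.End ℤ V)ˣ) (hg : g ∈ U F k)
    (hh : h ∈ U F k) : ⁅g, h⁆ ∈ U F (k + 1) := UU_comm _ _ _ (AA_one F) k hk g h hg hh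

theorem U_top (F : Finset ℚ) (g : (Module.End ℤ V)ˣ) (hg : g ∈ U F (F.card + 1)) : g = 1 := by
  ext1
  exact sub_eq_zero.1 (AA_top F _ hg.1)

theorem exists_U (g : (Module.End ℤ V)ˣ) (hg : g ∈ Γ) :
    ∃ F : Finset ℚ, ∀ F', F ⊆ F' → g ∈ U F' 1 := by
  induction hg using Subgroup.closure_induction with
  | mem u hu =>
    obtain ⟨i, j, h, hi, hj, rfl⟩ := hu
    refine ⟨{i, j}, fun F' hF => ?_⟩
    have hE : E i j ∈ AA F' 1 := by
      intro t v hv k hk
      rw [E_apply]
      split_ifs with e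
      · subst e
        have := rk_lt F' (hF (by simp)) (hF (show j ∈ ({k, j} : Finset ℚ) by simp)) h
        exact hv j (by omega)
      · rfl
    refine ⟨by simpa [T] using hE, ?_⟩
    change (1 - E i j) - 1 ∈ _
    simpa using hE
  | one => exact ⟨∅, fun _ _ => one_mem _⟩
  | mul a b _ _ ha hb =>
    obtain ⟨F1, h1⟩ := ha
    obtain ⟨F2, h2⟩ := hb
    exact ⟨F1 ∪ F2, fun F' hF => mul_mem (h1 F' (Finset.union_subset_left hF))
      (h2 F' (Finset.union_subset_right hF))⟩
  | inv a _ ha =>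
    obtain ⟨F1, h1⟩ := ha
    exact ⟨F1, fun F' hF => inv_mem (h1 F' hF)⟩

end Pool.Agent.H64.McLain
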