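import Pool.Agent.H64.McLain

set_option autoImplicit false

open scoped commutatorElement

namespace Pool.Agent.H64.McLain

/-- the coinduced module -/
def M : Submodule ℚ (Γ → ℚ) where
  carrier := {f | ∀ g, f (z * g) = 2 * f g}
  zero_mem' := fun _ => by simp
  add_mem' := fun {a b} ha hb g => by simp [ha g, hb g, mul_add]
  smul_mem' := fun c a ha g => by simp [ha g, mul_left_comm]

/-- right translation -/
def act (g : Γ) : M ≃+ M where
  toFun f := ⟨fun x => f.1 (x * g), fun x => by beta_reduce; rw [mul_assoc]; exact f.2 _⟩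
  invFun f := ⟨fun x => f.1 (x * g⁻¹), fun x => by beta_reduce; rw [mul_assoc]; exact f.2 _⟩
  left_inv f := by ext x; simp
  right_inv f := by ext x; simp
  map_add' a b := rfl

theorem act_z (f : M) : act z f = f + f := by
  ext x
  change f.1 (x * z) = f.1 x + f.1 x
  rw [← z_comm, f.2 x, two_mul]

/-- a nonzero element -/
def f0 : M := ⟨fun g => (2 : ℚ) ^ nn g, fun g => by
  beta_reduce
  rw [nn_z, zpow_add₀ (by norm_num), zpow_one, mul_comm]⟩

theorem f0_ne : f0 ≠ 0 := by
  intro h
  have : f0.1 1 = 0 := by rw [h]; rfl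
  exact zpow_ne_zero _ (by norm_num) this

instance : Infinite M := Infinite.of_injective _ (smul_left_injective ℚ f0_ne)

/-- the group algebra -/
abbrev R := AddMonoidAlgebra (ZMod 2) M

/-- the field -/
def K := FractionRing R

noncomputable instance : Field K := inferInstanceAs (Field (FractionRing R))
noncomputable instance : Algebra R K := inferInstanceAs (Algebra R (FractionRing R))
instance : IsFractionRing R K := inferInstanceAs (IsFractionRing R (FractionRing R))

instance : Infinite R := Infinite.of_injective (fun m : M => (AddMonoidAlgebra.single m 1 : R))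
  (fun a b h => by simpa [AddMonoidAlgebra.single_left_inj] using h)

instance : Infinite K := Infinite.of_injective _ (IsFractionRing.injective R K)

instance : CharP R 2 := charP_of_injective_algebraMap (algebraMap (ZMod 2) R).injective 2

/-- action on the group algebra -/
noncomputable def τ : Γ →* (R ≃+* R) where
  toFun g := AddMonoidAlgebra.mapDomainRingEquiv (ZMod 2) (act g)
  map_one' := by
    have : act 1 = AddEquiv.refl M := by ext f x; simp [act]
    rw [this]; ext1 x; ext; simp
  map_mul' g h := by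
    have : act (g * h) = (act h).trans (act g) := by ext f x; simp [act, mul_assoc]
    rw [this, AddMonoidAlgebra.mapDomainRingEquiv_trans]; rfl

theorem τ_z (x : R) : τ z x = x ^ 2 := by
  have : (τ z).toRingHom = frobenius R 2 := by
    apply AddMonoidAlgebra.ringHom_ext
    · intro r
      simp [τ, frobenius_def, AddMonoidAlgebra.single_pow, ZMod.pow_card r]
    · intro m
      simp [τ, frobenius_def, AddMonoidAlgebra.single_pow, act_z, two_smul]
  exact congrArg (fun f : R →+* R => f x) this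

/-- action on the field -/
noncomputable def σ : Γ →* (K ≃+* K) := (IsFractionRing.ringEquivOfRingEquivHom R K).comp τ

theorem σ_z (x : K) : σ z x = x ^ 2 := by
  obtain ⟨a, b, -, rfl⟩ := IsFractionRing.div_surjective (A := R) x
  have : ∀ a : R, σ z (algebraMap R K a) = (algebraMap R K a) ^ 2 := by
    intro a
    change IsFractionRing.ringEquivOfRingEquiv (τ z) (algebraMap R K a) = _
    rw [IsFractionRing.ringEquivOfRingEquiv_algebraMap, τ_z, map_pow]
  rw [map_div₀, this, this, div_pow]

/-- semi-affine maps over a given element -/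
def Rel (p : Equiv.Perm K) (g : Γ) : Prop :=
  ∃ a b : K, a ≠ 0 ∧ ∀ x, p x = a * σ g x + b

theorem Rel.one : Rel 1 1 := ⟨1, 0, one_ne_zero, fun x => by simp⟩

theorem Rel.mul {p q : Equiv.Perm K} {g h : Γ} (hp : Rel p g) (hq : Rel q h) :
    Rel (p * q) (g * h) := by
  obtain ⟨a, b, ha, hp⟩ := hp
  obtain ⟨c, d, hc, hq⟩ := hq
  refine ⟨a * σ g c, a * σ g d + b, mul_ne_zero ha (by simpa using hc), fun x => ?_⟩
  simp only [Equiv.Perm.mul_apply, hp, hq, map_mul, map_add, RingAut.mul_apply]
  ring

theorem Rel.inv {p : Equiv.Perm K} {g : Γ} (hp : Rel p g) : Rel p⁻¹ g⁻¹ := by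
  obtain ⟨a, b, ha, hp⟩ := hp
  refine ⟨σ g⁻¹ a⁻¹, -σ g⁻¹ (a⁻¹ * b), by simpa using ha, fun x => ?_⟩
  rw [Equiv.Perm.inv_eq_iff_eq, hp]
  have e : ∀ y, σ g (σ g⁻¹ y) = y := fun y => by
    rw [← RingAut.mul_apply, ← map_mul]; simp
  simp only [map_add, map_mul, map_neg, e]
  field_simp
  ring

/-- the semi-affine group over a subgroup -/
def GG (D : Subgroup (Module.End ℤ V)ˣ) : Subgroup (Equiv.Perm K) where
  carrier := {p | ∃ g : Γ, g.1 ∈ D ∧ Rel p g}
  one_mem' := ⟨1, one_mem _, Rel.one⟩
  mul_mem' := fun ⟨g, hg, hp⟩ ⟨h, hh, hq⟩ => ⟨g * h, mul_mem hg hh, hp.mul hq⟩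
  inv_mem' := fun ⟨g, hg, hp⟩ => ⟨g⁻¹, inv_mem hg, hp.inv⟩

/-- translations -/
def TT : Subgroup (Equiv.Perm K) where
  carrier := {p | ∃ b : K, ∀ x, p x = x + b}
  one_mem' := ⟨0, fun x => by simp⟩
  mul_mem' := fun ⟨b, hb⟩ ⟨c, hc⟩ => ⟨c + b, fun x => by simp [hb, hc, add_assoc]⟩
  inv_mem' := fun ⟨b, hb⟩ => ⟨-b, fun x => by rw [Equiv.Perm.inv_eq_iff_eq, hb]; simp⟩

instance : Group.IsSolvable TT := Group.isSolvable_of_comm (by
  rintro ⟨p, b, hb⟩ ⟨q, c, hc⟩
  ext x
  simp [hb, hc, add_right_comm])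

theorem solv_top (F : Finset ℚ) : Group.IsSolvable (GG (U F (F.card + 1))) := by
  apply solv_of_comm _ TT
  rintro p ⟨g, hg, a, b, ha, hp⟩ q ⟨h, hh, c, d, hc, hq⟩
  have g1 : g = 1 := Subtype.ext (U_top F _ hg)
  have h1 : h = 1 := Subtype.ext (U_top F _ hh)
  simp only [g1, h1, map_one, RingAut.one_apply] at hp hq
  have ip : ∀ x, p⁻¹ x = a⁻¹ * (x - b) := fun x => by
    rw [Equiv.Perm.inv_eq_iff_eq, hp]; field_simp; ring
  have iq : ∀ x, q⁻¹ x = c⁻¹ * (x - d) := fun x => by
    rw [Equiv.Perm.inv_eq_iff_eq, hq]; field_simp; ring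
  refine ⟨a * d + b - d - c * b, fun x => ?_⟩
  simp only [commutatorElement_def, Equiv.Perm.mul_apply, ip, iq, hp, hq]
  field_simp
  ring

theorem solv_U (F : Finset ℚ) (d : ℕ) : ∀ k, 1 ≤ k → k + d = F.card + 1 →
    Group.IsSolvable (GG (U F k)) := by
  induction d with
  | zero => intro k _ h; rw [show k = F.card + 1 by omega]; exact solv_top F
  | succ d ih =>
    intro k hk h
    haveI := ih (k + 1) (by omega) (by omega)
    apply solv_of_comm _ (GG (U F (k + 1)))
    rintro p ⟨g, hg, hp⟩ q ⟨h, hh, hq⟩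
    exact ⟨⁅g, h⁆, U_comm F k hk _ _ hg hh, ((hp.mul hq).mul hp.inv).mul hq.inv⟩

/-- the permutation group -/
abbrev G := GG ⊤

theorem loc_solv (S : Finset G) : Group.IsSolvable (Subgroup.closure (S : Set G)) := by
  classical
  have h : ∀ p : G, ∃ F : Finset ℚ, ∀ F', F ⊆ F' → p.1 ∈ GG (U F' 1) := by
    rintro ⟨p, g, -, hp⟩
    obtain ⟨F, hF⟩ := exists_U g.1 g.2
    exact ⟨F, fun F' h => ⟨g, hF F' h, hp⟩⟩
  choose φ hφ using h
  let F := S.biUnion φ
  haveI := solv_U F F.card 1 le_rfl (by omega)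
  have hle : Subgroup.closure (S : Set G) ≤ (GG (U F 1)).subgroupOf G := by
    rw [Subgroup.closure_le]
    intro p hp
    exact hφ p F (Finset.subset_biUnion_of_mem φ hp)
  exact Group.isSolvable_of_isSolvable_injective
    (f := (G.subtype.comp (Subgroup.closure (S : Set G)).subtype).codRestrict (GG (U F 1))
      (fun x => hle x.2))
    (fun a b hab => Subtype.ext (Subtype.ext (congrArg (fun u : GG (U F 1) => u.1) hab)))

/-- affine maps -/
noncomputable def aff (a b : K) (ha : a ≠ 0) : G :=
  ⟨(Equiv.mulLeft₀ a ha).trans (Equiv.addRight b), 1, trivial, a, b, ha, fun x => by simp⟩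

theorem aff_apply (a b : K) (ha : a ≠ 0) (x : K) : (aff a b ha).1 x = a * x + b := rfl

/-- field automorphisms as permutations -/
noncomputable def ss : Γ →* G where
  toFun g := ⟨(σ g).toEquiv, g, trivial, 1, 0, one_ne_zero, fun x => by simp⟩
  map_one' := by ext x; simp
  map_mul' g h := by ext x; simp

theorem ss_apply (g : Γ) (x : K) : (ss g).1 x = σ g x := rfl

theorem two_trans : MulAction.IsMultiplyPretransitive G K 2 := by
  rw [MulAction.is_two_pretransitive_iff]
  intro a b c d hab hcd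
  have h1 : a - b ≠ 0 := sub_ne_zero.2 hab
  have h2 : c - d ≠ 0 := sub_ne_zero.2 hcd
  refine ⟨aff ((c - d) / (a - b)) (c - (c - d) / (a - b) * a) (div_ne_zero h2 h1), ?_, ?_⟩
  · change (aff _ _ _).1 a = c
    rw [aff_apply]; ring
  · change (aff _ _ _).1 b = d
    rw [aff_apply]; field_simp; ring

instance : Infinite G := Infinite.of_injective (fun b : K => aff 1 b one_ne_zero) (fun b c h => by
  have := congrArg (fun p : G => p.1 0) h
  simpa [aff_apply] using this)

theorem G_rep_trivial {F W : Type*} [Field F] [AddCommGroup W] [Module F W]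
    [FiniteDimensional F W] (ρ : G →* Module.End F W) (g : G) : ρ g = 1 := by
  classical
  have hs : ∀ γ, ρ (ss γ) = 1 := rep_trivial (ρ.comp ss)
  have idem : ∀ u : G, ρ u * ρ u = ρ u → ρ u = 1 := by
    intro u hu
    have := congrArg (· * ρ u⁻¹) hu
    simp only [← map_mul] at this
    simpa using this
  have hm : ∀ a ha, ρ (aff a 0 ha) = 1 := by
    intro a ha
    apply idem
    have : aff a 0 ha * aff a 0 ha * ss z = ss z * aff a 0 ha := by
      ext x
      simp [aff_apply, ss_apply, σ_z]
      ring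
    have := congrArg ρ this
    simpa [hs] using this
  have ht : ∀ a, a ≠ 0 → ρ (aff 1 a one_ne_zero) = ρ (aff 1 1 one_ne_zero) := by
    intro a ha
    have : aff 1 a one_ne_zero * aff a 0 ha = aff a 0 ha * aff 1 1 one_ne_zero := by
      ext x
      simp [aff_apply]
      ring
    have := congrArg ρ this
    simpa [hm] using this
  have ht1 : ρ (aff 1 1 one_ne_zero) = 1 := by
    apply idem
    obtain ⟨a, ha⟩ := Infinite.exists_notMem_finset ({0, -1} : Finset K)
    simp only [Finset.mem_insert, Finset.mem_singleton, not_or] at ha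
    have h1 : a + 1 ≠ 0 := fun e => ha.2 (eq_neg_of_add_eq_zero_left e)
    have : aff 1 1 one_ne_zero * aff 1 a one_ne_zero = aff 1 (a + 1) one_ne_zero := by
      ext x
      simp [aff_apply, add_assoc]
    have := congrArg ρ this
    rwa [map_mul, ht a ha.1, ht _ h1] at this
  have ht' : ∀ b, ρ (aff 1 b one_ne_zero) = 1 := by
    intro b
    by_cases hb : b = 0
    · have : aff 1 b one_ne_zero = 1 := by ext x; simp [aff_apply, hb]
      rw [this, map_one]
    · rw [ht b hb, ht1]
  obtain ⟨p, γ, h0, a, b, ha, hp⟩ := g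
  have : (⟨p, γ, h0, a, b, ha, hp⟩ : G) = aff 1 b one_ne_zero * aff a 0 ha * ss γ := by
    ext x
    simp [aff_apply, ss_apply, hp]
  rw [this, map_mul, map_mul, hs, hm, ht']; simp

end Pool.Agent.H64.McLain
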