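import Pool.Agent.H64.MealyDefs

namespace Pool.Agent.H64.Mealy

open Pool.Agent.H64.MealyDefs

/-- States: `(0,y)` shift register, `(1,_)` adder, `(2,c)` identity states remembering `c`. -/
abbrev St := Fin 3 × Bool
abbrev Al := Bool × Bool

def M : Mealy St Al where
  δ q a := if q.1 = 0 then (0, a.1) else if q.1 = 1 then (1, false) else (2, a.2)
  out q a := if q.1 = 0 then (q.2, a.2) else if q.1 = 1 then (a.1, xor a.2 a.1) else a

lemma shift_len (y : Bool) (u : List Al) : (M.act (0, y) u).length = u.length := by
  induction u generalizing y with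
  | nil => rfl
  | cons a u ih => simp [Mealy.act, M] at ih ⊢; exact ih.symm.elim (fun h1 h2 => by cases a.1 <;> assumption)

lemma shift_snd (y : Bool) (u : List Al) : (M.act (0, y) u).map Prod.snd = u.map Prod.snd := by
  induction u generalizing y with
  | nil => rfl
  | cons a u ih =>
    have : M.act (0, y) (a :: u) = (y, a.2) :: M.act (0, a.1) u := rfl
    rw [this, List.map_cons, List.map_cons, ih]

lemma shift_fst (y : Bool) (u : List Al) :
    (M.act (0, y) u).map Prod.fst = (y :: u.map Prod.fst).take u.length := by
  induction u generalizing y with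
  | nil => rfl
  | cons a u ih =>
    have : M.act (0, y) (a :: u) = (y, a.2) :: M.act (0, a.1) u := rfl
    rw [this, List.map_cons, List.map_cons, ih, List.length_cons, List.take_succ_cons]

/-- the monoid generated -/
def Reach (u v : List Al) : Prop := u = v ∨ ∃ s ∈ M.semigroup, s u = v

lemma gen_mem (q : St) : M.toEnd q ∈ M.semigroup := Subsemigroup.subset_closure ⟨q, rfl⟩

lemma Reach.step {u v : List Al} (h : Reach u v) (q : St) :
    ∃ s ∈ M.semigroup, s u = M.act q v := by
  rcases h with rfl | ⟨s, hs, rfl⟩
  · exact ⟨_, gen_mem q, rfl⟩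
  · exact ⟨_, Subsemigroup.mul_mem _ (gen_mem q) hs, rfl⟩

lemma Reach.trans {u v w : List Al} (h : Reach u v) (h' : Reach v w) : Reach u w := by
  rcases h with rfl | ⟨s, hs, rfl⟩
  · exact h'
  · rcases h' with rfl | ⟨t, ht, rfl⟩
    · exact Or.inr ⟨s, hs, rfl⟩
    · exact Or.inr ⟨_, Subsemigroup.mul_mem _ ht hs, rfl⟩

lemma setFst (u : List Al) (w : List Bool) :
    ∃ v, Reach u v ∧ v.length = u.length ∧ v.map Prod.snd = u.map Prod.snd ∧
      v.map Prod.fst = (w ++ u.map Prod.fst).take u.length := by
  induction w with
  | nil => exact ⟨u, Or.inl rfl, rfl, rfl, by simp⟩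
  | cons y w ih =>
    obtain ⟨v, h1, h2, h3, h4⟩ := ih
    refine ⟨M.act (0, y) v, Or.inr (h1.step _), by rw [shift_len, h2], by rw [shift_snd, h3], ?_⟩
    rw [shift_fst, h4, h2]
    cases hn : u.length with
    | zero => simp
    | succ n => simp [List.take_take]

lemma setFst' (u : List Al) (w : List Bool) (h : w.length = u.length) :
    Reach u (w.zip (u.map Prod.snd)) := by
  obtain ⟨v, h1, h2, h3, h4⟩ := setFst u w
  rw [← h, List.take_left] at h4
  rw [← h4, ← h3, List.zip_map', ]
  simpa using h1

lemma adder (u : List Al) : M.act (1, false) u = u.map fun a => (a.1, xor a.2 a.1) := by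
  induction u with
  | nil => rfl
  | cons a u ih =>
    have : M.act (1, false) (a :: u) = (a.1, xor a.2 a.1) :: M.act (1, false) u := rfl
    rw [this, ih, List.map_cons]

lemma ident (c : Bool) (u : List Al) : M.act (2, c) u = u := by
  induction u generalizing c with
  | nil => rfl
  | cons a u ih =>
    have : M.act (2, c) (a :: u) = a :: M.act (2, a.2) u := rfl
    rw [this, ih]

lemma aux (u v : List Al) (h : u.length = v.length) :
    (((List.zipWith (fun a b => xor a.2 b.2) u v).zip (u.map Prod.snd)).map
      fun a => (a.1, xor a.2 a.1)).map Prod.snd = v.map Prod.snd := by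
  induction u generalizing v with
  | nil => cases v <;> simp_all
  | cons a u ih =>
    cases v with
    | nil => simp at h
    | cons b v =>
      have := ih v (by simpa using h)
      simp only [List.zipWith_cons_cons, List.map_cons, List.zip_cons_cons, this]
      simp

lemma trans : M.IsTransitive := by
  intro u v _ h
  have h1 := setFst' u (List.zipWith (fun a b => xor a.2 b.2) u v) (by simp [h])
  have h2 : Reach u _ := Or.inr (h1.step (1, false))
  rw [adder] at h2
  have h3 := h2.trans (setFst' _ (v.map Prod.fst) (by simp [h]))
  rw [aux u v h, List.zip_map'] at h3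
  have h4 := h3.step (2, false)
  simpa [ident] using h4

lemma dual_rel (x : Bool) (c c' : Bool) (b : Al) (w : List St) :
    M.dual.act b (M.dual.act (x, c) w) = M.dual.act b (M.dual.act (x, c') w) := by
  induction w generalizing x c c' b with
  | nil => rfl
  | cons q w ih =>
    obtain ⟨i, y⟩ := q
    fin_cases i
    · exact congrArg (List.cons _) (ih _ _ _ _)
    · exact congrArg (List.cons _) (ih _ _ _ _)
    · exact congrArg (List.cons _) (ih _ _ _ _)

lemma dual_inj : Function.Injective M.dual.toEnd := by
  intro a b h
  have key : ∀ a b : Al, M.dual.act a [(0, false)] = M.dual.act b [(0, false)] →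
      M.dual.act a [(2, false)] = M.dual.act b [(2, false)] → a = b := by decide
  exact key a b (congrFun h [(0, false)]) (congrFun h [(2, false)])

lemma notFree : ¬ M.dual.IsFree := by
  intro h
  have := h [(false, false), (false, false)] [(false, false), (false, true)] (by simp) (by simp)
    (by
      funext w
      exact dual_rel false false true (false, false) w)
  simp at this

theorem main : ∃ (Q A : Type) (_ : Fintype Q) (_ : Nonempty Q) (_ : Fintype A) (M : Mealy Q A),
    2 ≤ Fintype.card A ∧ M.IsTransitive ∧ Function.Injective M.dual.toEnd ∧ ¬ M.dual.IsFree :=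
  ⟨St, Al, inferInstance, inferInstance, inferInstance, M, by decide, trans, dual_inj, notFree⟩

end Pool.Agent.H64.Mealy
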