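import Mathlib

/-! Mealy automata, their action on words, the dual automaton. -/

namespace Pool.Agent.H64.MealyDefs

/-- A Mealy automaton with state set `Q` and alphabet `A`. -/
structure Mealy (Q A : Type) where
  δ : Q → A → Q
  out : Q → A → A

variable {Q A : Type}

/-- The action `q ∘ (a w) = λ(q,a) (δ(q,a) ∘ w)` of a state on finite words. -/
def Mealy.act (M : Mealy Q A) : Q → List A → List A
  | _, [] => []
  | q, a :: w => M.out q a :: M.act (M.δ q a) w

/-- The dual automaton. -/
def Mealy.dual (M : Mealy Q A) : Mealy A Q where
  δ a q := M.out q a
  out a q := M.δ q a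

/-- The map of words given by a state, as an element of the monoid of self-maps. -/
def Mealy.toEnd (M : Mealy Q A) (q : Q) : Function.End (List A) := M.act q

/-- The automaton semigroup. -/
def Mealy.semigroup (M : Mealy Q A) : Subsemigroup (Function.End (List A)) :=
  Subsemigroup.closure (Set.range M.toEnd)

/-- Transitivity on every level of the tree. -/
def Mealy.IsTransitive (M : Mealy Q A) : Prop :=
  ∀ u v : List A, 1 ≤ u.length → u.length = v.length → ∃ s ∈ M.semigroup, s u = v

/-- A word of states acts as the composition of the maps of its letters. -/
def Mealy.wordAct (M : Mealy Q A) (w : List Q) : Function.End (List A) := (w.map M.toEnd).prod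

/-- The automaton semigroup is freely generated by the maps of the states. -/
def Mealy.IsFree (M : Mealy Q A) : Prop :=
  ∀ w w' : List Q, w ≠ [] → w' ≠ [] → M.wordAct w = M.wordAct w' → w = w'

end Pool.Agent.H64.MealyDefs
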