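import Mathlib

namespace Pool.Agent.H64.NL

open Subgroup
open scoped commutatorElement

section gen
variable {H : Type*} [Group H]

/-- elements normalising `T` -/
def nz (T : Subgroup H) : Subgroup H where
  carrier := {g | (∀ x ∈ T, g * x * g⁻¹ ∈ T) ∧ (∀ x ∈ T, g⁻¹ * x * g ∈ T)}
  one_mem' := by constructor <;> intro x hx <;> simpa using hx
  mul_mem' := by
    rintro g h ⟨g1, g2⟩ ⟨h1, h2⟩
    constructor
    · intro x hx
      have := g1 _ (h1 x hx)
      have e : g * h * x * (g * h)⁻¹ = g * (h * x * h⁻¹) * g⁻¹ := by group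
      rwa [e]
    · intro x hx
      have := h2 _ (g2 x hx)
      have e : (g * h)⁻¹ * x * (g * h) = h⁻¹ * (g⁻¹ * x * g) * h := by group
      rwa [e]
  inv_mem' := by
    rintro g ⟨g1, g2⟩
    constructor
    · intro x hx; simpa using g2 x hx
    · intro x hx; simpa using g1 x hx

lemma le_nz (T : Subgroup H) : T ≤ nz T := fun g hg =>
  ⟨fun x hx => T.mul_mem (T.mul_mem hg hx) (T.inv_mem hg),
   fun x hx => T.mul_mem (T.mul_mem (T.inv_mem hg) hx) hg⟩

lemma nz_conj {T : Subgroup H} {g x : H} (hg : g ∈ nz T) (hx : x ∈ T) : g * x * g⁻¹ ∈ T := hg.1 x hx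

lemma comm_le (T : Subgroup H) (a b : H) (ha : a ∈ nz T) (hb : b ∈ nz T) (hc : ⁅a, b⁆ ∈ T) :
    ⁅closure {a, b}, closure {a, b}⁆ ≤ T := by
  have hle : closure {a, b} ≤ nz T := by
    rw [closure_le]; rintro x (rfl | rfl)
    · exact ha
    · exact hb
  have hba : ⁅b, a⁆ ∈ T := by
    have := T.inv_mem hc
    rwa [commutatorElement_inv] at this
  have step : ∀ z ∈ closure ({a, b} : Set H), (⁅a, z⁆ ∈ T) → (⁅b, z⁆ ∈ T) →
      ∀ g ∈ closure ({a, b} : Set H), ⁅g, z⁆ ∈ T := by
    intro z _ h1 h2 g hg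
    induction hg using closure_induction with
    | mem x hx =>
      rcases hx with rfl | rfl
      · exact h1
      · exact h2
    | one => simp
    | mul x y hx hy ihx ihy =>
      have e : ⁅x * y, z⁆ = (x * ⁅y, z⁆ * x⁻¹) * ⁅x, z⁆ := by
        simp only [commutatorElement_def]; group
      rw [e]
      exact T.mul_mem (nz_conj (hle hx) ihy) ihx
    | inv x hx ihx =>
      have e : ⁅x⁻¹, z⁆ = x⁻¹ * ⁅x, z⁆⁻¹ * x := by
        simp only [commutatorElement_def]; group
      rw [e]
      exact (hle hx).2 _ (T.inv_mem ihx)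
  have ma : a ∈ closure ({a, b} : Set H) := subset_closure (by simp)
  have mb : b ∈ closure ({a, b} : Set H) := subset_closure (by simp)
  have sa := step a ma (by simp) hba
  have sb := step b mb hc (by simp)
  rw [commutator_le]
  intro g hg z hz
  refine step z hz ?_ ?_ g hg
  · have := T.inv_mem (sa z hz)
    rwa [commutatorElement_inv] at this
  · have := T.inv_mem (sb z hz)
    rwa [commutatorElement_inv] at this

lemma nz_comm {A : Subgroup H} {g : H} (hg : g ∈ nz A) : g ∈ nz ⁅A, A⁆ := by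
  have key : ∀ g ∈ nz A, ∀ x ∈ ⁅A, A⁆, g * x * g⁻¹ ∈ ⁅A, A⁆ := by
    intro g hg x hx
    have : ⁅A, A⁆ ≤ (⁅A, A⁆ : Subgroup H).comap (MulAut.conj g).toMonoidHom := by
      rw [commutator_le]
      intro y hy z hz
      rw [mem_comap, map_commutatorElement]
      exact commutator_mem_commutator (nz_conj hg hy) (nz_conj hg hz)
    exact this hx
  refine ⟨key g hg, fun x hx => ?_⟩
  simpa using key g⁻¹ ((nz A).inv_mem hg) x hx

lemma surj (M R K : Subgroup H) (hRK : R ≤ K) (h : M.relIndex R = M.relIndex K)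
    (hne : M.relIndex K ≠ 0) : ∀ x ∈ K, ∃ r ∈ R, r⁻¹ * x ∈ M := by
  intro x hx
  let f := quotientSubgroupOfEmbeddingOfLE M hRK
  haveI : Finite (K ⧸ M.subgroupOf K) := Nat.finite_of_card_ne_zero hne
  have hb : Function.Bijective f := by
    apply f.injective.bijective_of_nat_card_le
    exact le_of_eq h.symm
  obtain ⟨y, hy⟩ := hb.2 (QuotientGroup.mk ⟨x, hx⟩)
  induction y using QuotientGroup.induction_on with
  | H r =>
    refine ⟨r, r.2, ?_⟩
    have h2 : (QuotientGroup.mk (inclusion hRK r) : K ⧸ M.subgroupOf K) = QuotientGroup.mk ⟨x, hx⟩ := by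
      rw [← hy]; rfl
    rw [QuotientGroup.eq] at h2
    exact h2

end gen

/-- first-level sections of the directed generator -/
def B {r : ℕ} {Γ : Type*} [Group Γ] (a' b' : Γ) : ZMod (r + 7) → Γ := fun i =>
  if i = 0 then b' else if i = 1 then b'⁻¹ else if i = 2 then a' else if i = 3 then a'⁻¹ else 1

lemma cne (r : ℕ) {i j : ℕ} (hi : i < 7) (hj : j < 7) (h : i ≠ j) :
    ((i : ℕ) : ZMod (r + 7)) ≠ (j : ℕ) := by
  intro e
  rw [ZMod.natCast_eq_natCast_iff'] at e
  rw [Nat.mod_eq_of_lt (by omega), Nat.mod_eq_of_lt (by omega)] at e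
  exact h e

structure Step (r : ℕ) (E Γ : Type) [Group E] [Group Γ] where
  v : (ZMod (r + 7) → Γ) →* E
  inj : Function.Injective v
  a : E
  b : E
  a' : Γ
  b' : Γ
  gen : closure {a', b'} = ⊤
  conj : ∀ h, a * v h * a⁻¹ = v (fun i => h (i - 1))
  apow : a ^ (r + 7) = 1
  hb : b = v (B a' b')

namespace Step
variable {r : ℕ} {E Γ : Type} [Group E] [Group Γ] (S : Step r E Γ)

def G : Subgroup E := closure {S.a, S.b}

lemma a_mem : S.a ∈ S.G := subset_closure (by simp)
lemma b_mem : S.b ∈ S.G := subset_closure (by simp)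

lemma G_le_nz {T : Subgroup E} (ha : S.a ∈ nz T) (hb : S.b ∈ nz T) : S.G ≤ nz T := by
  unfold G
  rw [closure_le]; rintro x (rfl | rfl)
  · exact ha
  · exact hb

lemma conj_pow (n : ℕ) (h : ZMod (r + 7) → Γ) :
    S.a ^ n * S.v h * (S.a ^ n)⁻¹ = S.v (fun i => h (i - n)) := by
  induction n with
  | zero => simp
  | succ n ih =>
    have e : S.a ^ (n + 1) * S.v h * (S.a ^ (n + 1))⁻¹ =
        S.a * (S.a ^ n * S.v h * (S.a ^ n)⁻¹) * S.a⁻¹ := by group
    rw [e, ih, S.conj]
    congr 1; funext i; congr 1; push_cast; ring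

lemma conj_inv (h : ZMod (r + 7) → Γ) :
    S.a⁻¹ * S.v h * S.a = S.v (fun i => h (i + 1)) := by
  have := S.conj (fun i => h (i + 1))
  simp only [sub_add_cancel] at this
  rw [← this]; group

/-- shifted copies of `b` -/
lemma shift_mem {K : Subgroup E} (hK : S.a ∈ nz K) (hb : S.b ∈ K) (k : ZMod (r + 7)) :
    S.v (fun i => B S.a' S.b' (i - k)) ∈ K := by
  have h1 := nz_conj ((nz K).pow_mem hK k.val) hb
  rw [S.hb, S.conj_pow] at h1
  simpa using h1

lemma single_shift {K : Subgroup E} (hK : S.a ∈ nz K) {i : ZMod (r + 7)} {x : Γ}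
    (h : S.v (Pi.mulSingle i x) ∈ K) (j : ZMod (r + 7)) : S.v (Pi.mulSingle j x) ∈ K := by
  have h1 := nz_conj ((nz K).pow_mem hK (j - i).val) h
  rw [S.conj_pow] at h1
  convert h1 using 2
  funext l
  simp only [ZMod.natCast_val, ZMod.cast_id', id_eq]
  by_cases hl : l = j
  · subst hl; simp
  · rw [Pi.mulSingle_eq_of_ne hl, Pi.mulSingle_eq_of_ne]
    intro e; apply hl; linear_combination e

/-- the pull-back of `K` along the `0`-th coordinate -/
def pull (K : Subgroup E) : Subgroup Γ := K.comap (S.v.comp (MonoidHom.mulSingle (fun _ => Γ) 0))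

lemma mem_pull {K : Subgroup E} {x : Γ} : x ∈ S.pull K ↔ S.v (Pi.mulSingle 0 x) ∈ K := Iff.rfl

lemma conj_single (h : ZMod (r + 7) → Γ) (x : Γ) :
    S.v h * S.v (Pi.mulSingle 0 x) * (S.v h)⁻¹ = S.v (Pi.mulSingle 0 (h 0 * x * (h 0)⁻¹)) := by
  rw [← map_inv, ← map_mul, ← map_mul]
  congr 1; funext l
  by_cases hl : l = 0
  · subst hl; simp
  · simp [Pi.mulSingle_eq_of_ne hl]

lemma nz_pull {K : Subgroup E} (hK : S.G ≤ nz K) (h : ZMod (r + 7) → Γ) (hh : S.v h ∈ S.G) :
    h 0 ∈ nz (S.pull K) := by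
  constructor
  · intro x hx
    rw [mem_pull, ← conj_single]
    exact nz_conj (hK hh) hx
  · intro x hx
    have := nz_conj (hK (S.G.inv_mem hh)) hx
    rw [← map_inv] at this
    change S.v h⁻¹ * S.v (Pi.mulSingle 0 x) * (S.v h⁻¹)⁻¹ ∈ K at this
    rw [conj_single] at this
    simpa [mem_pull] using this

lemma B0 : B (r := r) S.a' S.b' 0 = S.b' := by simp [B]

lemma B2 : B (r := r) S.a' S.b' 2 = S.a' := by
  have h0 := cne r (i := 2) (j := 0) (by omega) (by omega) (by omega)
  have h1 := cne r (i := 2) (j := 1) (by omega) (by omega) (by omega)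
  simp only [Nat.cast_ofNat, Nat.cast_zero, Nat.cast_one] at h0 h1
  simp [B, h0, h1]

lemma B3 : B (r := r) S.a' S.b' 3 = S.a'⁻¹ := by
  have h0 := cne r (i := 3) (j := 0) (by omega) (by omega) (by omega)
  have h1 := cne r (i := 3) (j := 1) (by omega) (by omega) (by omega)
  have h2 := cne r (i := 3) (j := 2) (by omega) (by omega) (by omega)
  simp only [Nat.cast_ofNat, Nat.cast_zero, Nat.cast_one] at h0 h1 h2
  simp [B, h0, h1, h2]

lemma pull_normal {K : Subgroup E} (hK : S.G ≤ nz K) : ⊤ ≤ nz (S.pull K) := by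
  rw [← S.gen, closure_le]
  have hG : S.a ∈ nz S.G := le_nz _ S.a_mem
  rintro x (rfl | rfl)
  · have := S.nz_pull hK _ (S.shift_mem hG S.b_mem (-2))
    simpa [S.B2] using this
  · have := S.nz_pull hK _ (S.shift_mem hG S.b_mem 0)
    simpa [S.B0] using this

lemma pi_le {K : Subgroup E} (hK : S.a ∈ nz K) {L : Subgroup Γ} (hL : L ≤ S.pull K) :
    (Subgroup.pi Set.univ fun _ => L).map S.v ≤ K := by
  rw [map_le_iff_le_comap, pi_le_iff]
  intro i
  rintro _ ⟨x, hx, rfl⟩
  exact S.single_shift hK (hL hx) i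

lemma P_le {K : Subgroup E} (hK : S.G ≤ nz K) (hc : ⁅S.a', S.b'⁆ ∈ S.pull K) :
    (Subgroup.pi Set.univ fun _ => _root_.commutator Γ).map S.v ≤ K := by
  apply S.pi_le (hK S.a_mem)
  have := comm_le (S.pull K) S.a' S.b' (S.pull_normal hK trivial) (S.pull_normal hK trivial) hc
  rw [S.gen] at this
  exact this

lemma G_nz_D : S.G ≤ nz ⁅S.G, S.G⁆ := fun _ hg => nz_comm (le_nz _ hg)

lemma P_le_D : (Subgroup.pi Set.univ fun _ => _root_.commutator Γ).map S.v ≤ ⁅S.G, S.G⁆ := by
  apply S.P_le S.G_nz_D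
  have hG : S.a ∈ nz S.G := le_nz _ S.a_mem
  have h1 := commutator_mem_commutator (S.shift_mem hG S.b_mem (-3)) S.b_mem
  rw [S.hb, ← map_commutatorElement] at h1
  have e : ⁅(fun i : ZMod (r + 7) => B S.a' S.b' (i - -3)), (B S.a' S.b' : ZMod (r + 7) → Γ)⁆ =
      Pi.mulSingle 0 ⁅S.a'⁻¹, S.b'⁆ := by
    funext l
    by_cases hl : l = 0
    · subst hl
      simp [commutatorElement_def, S.B3, S.B0]
    · rw [Pi.mulSingle_eq_of_ne hl]
      have h40 := cne r (i := 4) (j := 0) (by omega) (by omega) (by omega)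
      have h41 := cne r (i := 4) (j := 1) (by omega) (by omega) (by omega)
      have h42 := cne r (i := 4) (j := 2) (by omega) (by omega) (by omega)
      have h43 := cne r (i := 4) (j := 3) (by omega) (by omega) (by omega)
      have h50 := cne r (i := 5) (j := 0) (by omega) (by omega) (by omega)
      have h51 := cne r (i := 5) (j := 1) (by omega) (by omega) (by omega)
      have h52 := cne r (i := 5) (j := 2) (by omega) (by omega) (by omega)
      have h53 := cne r (i := 5) (j := 3) (by omega) (by omega) (by omega)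
      have h60 := cne r (i := 6) (j := 0) (by omega) (by omega) (by omega)
      have h61 := cne r (i := 6) (j := 1) (by omega) (by omega) (by omega)
      have h62 := cne r (i := 6) (j := 2) (by omega) (by omega) (by omega)
      have h63 := cne r (i := 6) (j := 3) (by omega) (by omega) (by omega)
      simp only [Nat.cast_ofNat, Nat.cast_zero, Nat.cast_one] at *
      simp only [commutatorElement_def, Pi.mul_apply, Pi.inv_apply, sub_neg_eq_add]
      by_cases h1 : l = 1
      · subst h1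
        have : (1 : ZMod (r + 7)) + 3 = 4 := by norm_num
        rw [this]; simp [B, h40, h41, h42, h43]
      by_cases h2 : l = 2
      · subst h2
        have : (2 : ZMod (r + 7)) + 3 = 5 := by norm_num
        rw [this]; simp [B, h50, h51, h52, h53]
      by_cases h3 : l = 3
      · subst h3
        have : (3 : ZMod (r + 7)) + 3 = 6 := by norm_num
        rw [this]; simp [B, h60, h61, h62, h63]
      have : B (r := r) S.a' S.b' l = 1 := by simp [B, hl, h1, h2, h3]
      rw [this]; simp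
  rw [e] at h1
  have h2 : ⁅S.a'⁻¹, S.b'⁆ ∈ S.pull ⁅S.G, S.G⁆ := h1
  have h3 := nz_conj (S.pull_normal S.G_nz_D (mem_top S.a')) ((S.pull _).inv_mem h2)
  have e2 : S.a' * ⁅S.a'⁻¹, S.b'⁆⁻¹ * S.a'⁻¹ = ⁅S.a', S.b'⁆ := by
    simp only [commutatorElement_def]; group
  rwa [e2] at h3

lemma D_le_range : ⁅S.G, S.G⁆ ≤ S.v.range := by
  have ha : S.a ∈ nz S.v.range := by
    constructor
    · rintro _ ⟨h, rfl⟩; rw [S.conj]; exact ⟨_, rfl⟩
    · rintro _ ⟨h, rfl⟩; rw [S.conj_inv]; exact ⟨_, rfl⟩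
  have hb : S.b ∈ S.v.range := ⟨_, S.hb.symm⟩
  apply comm_le _ _ _ ha (le_nz _ hb)
  rw [commutatorElement_def]
  exact S.v.range.mul_mem (nz_conj ha hb) (S.v.range.inv_mem hb)

lemma ba_pow (n : ℕ) : ∃ h : ZMod (r + 7) → Γ, (S.b * S.a) ^ n = S.v h * S.a ^ n ∧
    ∀ i, Abelianization.of (h i) =
      ∏ k ∈ Finset.range n, Abelianization.of (B S.a' S.b' (i - (k : ZMod (r + 7)))) := by
  induction n with
  | zero => exact ⟨1, by simp, by simp⟩
  | succ n ih =>
    obtain ⟨h, h1, h2⟩ := ih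
    refine ⟨h * fun i => B S.a' S.b' (i - n), ?_, ?_⟩
    · rw [pow_succ, h1, map_mul, ← S.conj_pow, ← S.hb]; group
    · intro i
      rw [Finset.prod_range_succ, ← h2]; simp

lemma prodB : ∏ k : ZMod (r + 7), Abelianization.of (B S.a' S.b' k) = 1 := by
  have h01 := cne r (i := 0) (j := 1) (by omega) (by omega) (by omega)
  have h02 := cne r (i := 0) (j := 2) (by omega) (by omega) (by omega)
  have h03 := cne r (i := 0) (j := 3) (by omega) (by omega) (by omega)
  have h12 := cne r (i := 1) (j := 2) (by omega) (by omega) (by omega)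
  have h13 := cne r (i := 1) (j := 3) (by omega) (by omega) (by omega)
  have h23 := cne r (i := 2) (j := 3) (by omega) (by omega) (by omega)
  simp only [Nat.cast_ofNat, Nat.cast_zero, Nat.cast_one] at *
  rw [← Finset.prod_subset (Finset.subset_univ ({0, 1, 2, 3} : Finset (ZMod (r + 7))))]
  · rw [Finset.prod_insert (by simp [h01, h02, h03]), Finset.prod_insert (by simp [h12, h13]),
      Finset.prod_pair h23, S.B0, S.B2, S.B3]
    have : B (r := r) S.a' S.b' 1 = S.b'⁻¹ := by simp [B, h01.symm]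
    rw [this]; simp
  · intro x _ hx
    simp only [Finset.mem_insert, Finset.mem_singleton, not_or] at hx
    simp [B, hx.1, hx.2.1, hx.2.2.1, hx.2.2.2]

lemma ba_mem : (S.b * S.a) ^ (r + 7) ∈ ⁅S.G, S.G⁆ := by
  obtain ⟨h, h1, h2⟩ := S.ba_pow (r + 7)
  rw [h1, S.apow, mul_one]
  apply S.P_le_D
  refine ⟨h, ?_, rfl⟩
  intro i _
  change h i ∈ _root_.commutator Γ
  rw [← Abelianization.ker_of, MonoidHom.mem_ker, h2, ← S.prodB]
  rw [← Fin.prod_univ_eq_prod_range
    (fun k => Abelianization.of (B S.a' S.b' (i - (k : ZMod (r + 7))))) (r + 7)]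
  refine Fintype.prod_equiv ((Equiv.subLeft i : ZMod (r + 7) ≃ ZMod (r + 7))) _ _ ?_
  intro k
  congr 2
  simp only [Equiv.subLeft_apply]
  congr 1
  exact ZMod.natCast_zmod_val (n := r + 7) k

end Step

end Pool.Agent.H64.NL
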