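import Pool.Agent.H64.NL1

namespace Pool.Agent.H64.NL

open Subgroup
open scoped commutatorElement

section gen
variable {H : Type*} [Group H]

def ds (G : Subgroup H) (k : ℕ) : Subgroup H := (derivedSeries G k).map G.subtype

lemma ds_zero (G : Subgroup H) : ds G 0 = G := by
  simp [ds, ← MonoidHom.range_eq_map]

lemma ds_succ (G : Subgroup H) (k : ℕ) : ds G (k + 1) = ⁅ds G k, ds G k⁆ := by
  simp [ds, map_commutator]

lemma ds_one (G : Subgroup H) : ds G 1 = ⁅G, G⁆ := by rw [ds_succ, ds_zero]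

lemma mem_ds {G : Subgroup H} {k : ℕ} (x : G) : (x : H) ∈ ds G k ↔ x ∈ derivedSeries G k := by
  constructor
  · rintro ⟨y, hy, e⟩
    have : y = x := Subtype.ext e
    rwa [← this]
  · intro h; exact ⟨x, h, rfl⟩

lemma mem_comm {G : Subgroup H} (x : G) : (x : H) ∈ ⁅G, G⁆ ↔ x ∈ _root_.commutator G := by
  rw [← ds_one, mem_ds, derivedSeries_one]

lemma nz_ds (G : Subgroup H) (k : ℕ) : G ≤ nz (ds G k) := by
  induction k with
  | zero => rw [ds_zero]; exact le_nz _
  | succ k ih => rw [ds_succ]; exact fun g hg => nz_comm (ih hg)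

lemma ds_le (G : Subgroup H) (k : ℕ) : ds G k ≤ G := by
  rintro _ ⟨y, _, rfl⟩; exact y.2

lemma ds_anti (G : Subgroup H) (k : ℕ) : ds G (k + 1) ≤ ds G k :=
  map_mono (derivedSeries_succ G k ▸ commutator_le_left _ _)

lemma ds_anti' (G : Subgroup H) {k l : ℕ} (h : k ≤ l) : ds G l ≤ ds G k := by
  induction h with
  | refl => exact le_rfl
  | step _ ih => exact (ds_anti G _).trans ih

lemma mem_of_coprime {T : Subgroup H} {x : H} {m n : ℕ} (h : Nat.Coprime m n)
    (hm : x ^ m ∈ T) (hn : x ^ n ∈ T) : x ∈ T := by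
  have e := Nat.gcd_eq_gcd_ab m n
  rw [h] at e
  have : x = (x ^ m) ^ (Nat.gcdA m n) * (x ^ n) ^ (Nat.gcdB m n) := by
    rw [← zpow_natCast, ← zpow_natCast, ← zpow_mul, ← zpow_mul, ← zpow_add, ← e]; simp
  rw [this]
  exact T.mul_mem (T.zpow_mem hm _) (T.zpow_mem hn _)

end gen

namespace Step
variable {r : ℕ} {E Γ : Type} [Group E] [Group Γ] (S : Step r E Γ)

lemma b_pow_mem : S.b ^ (r + 7) ∈ ⁅S.G, S.G⁆ := by
  let a : S.G := ⟨S.a, S.a_mem⟩
  let b : S.G := ⟨S.b, S.b_mem⟩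
  have h1 : (b * a) ^ (r + 7) ∈ _root_.commutator S.G := (mem_comm _).1 S.ba_mem
  have h2 : a ^ (r + 7) = 1 := Subtype.ext S.apow
  have h3 : b ^ (r + 7) ∈ _root_.commutator S.G := by
    rw [← Abelianization.ker_of, MonoidHom.mem_ker] at h1 ⊢
    rw [map_pow, map_mul, mul_pow, ← map_pow, ← map_pow, h2, map_one, mul_one] at h1
    exact h1
  exact (mem_comm _).2 h3

lemma b_mem_D {m : ℕ} (hc : Nat.Coprime (r + 7) m) (ha : S.a' ^ m ∈ _root_.commutator Γ)
    (hb : S.b' ^ m ∈ _root_.commutator Γ) : S.b ∈ ⁅S.G, S.G⁆ := by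
  apply mem_of_coprime hc S.b_pow_mem
  apply S.P_le_D
  refine ⟨B S.a' S.b' ^ m, ?_, by rw [map_pow, S.hb]⟩
  intro i _
  change (B S.a' S.b' i) ^ m ∈ _root_.commutator Γ
  unfold B
  split_ifs
  · exact hb
  · rw [inv_pow]; exact inv_mem hb
  · exact ha
  · rw [inv_pow]; exact inv_mem ha
  · simp

lemma pow0 (hb : S.b ∈ ⁅S.G, S.G⁆) (x : S.G) : x ^ (r + 7) ∈ _root_.commutator S.G := by
  obtain ⟨x, hx⟩ := x
  rw [← Abelianization.ker_of, MonoidHom.mem_ker, map_pow]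
  induction hx using closure_induction with
  | mem x hx =>
    rcases hx with rfl | rfl
    · rw [← map_pow]
      have h2 : (⟨S.a, S.a_mem⟩ : S.G) ^ (r + 7) = 1 := Subtype.ext S.apow
      erw [h2]; simp
    · have h3 : (⟨S.b, S.b_mem⟩ : S.G) ∈ _root_.commutator S.G := (mem_comm _).1 hb
      rw [← Abelianization.ker_of, MonoidHom.mem_ker] at h3
      erw [h3]; simp
  | one => erw [map_one]; simp
  | mul x y hx hy ihx ihy =>
    have e : (⟨x * y, mul_mem hx hy⟩ : S.G) = (⟨x, hx⟩ : S.G) * ⟨y, hy⟩ := rfl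
    erw [e, map_mul, mul_pow, ihx, ihy, mul_one]
  | inv x hx ihx =>
    have e : (⟨x⁻¹, inv_mem hx⟩ : S.G) = (⟨x, hx⟩ : S.G)⁻¹ := rfl
    erw [e, map_inv, inv_pow, ihx, inv_one]

lemma DD (hb : S.b ∈ ⁅S.G, S.G⁆) (hb' : S.b' ∈ _root_.commutator Γ) :
    ds S.G 2 = (Subgroup.pi Set.univ fun _ => _root_.commutator Γ).map S.v := by
  apply le_antisymm
  · rw [ds_succ, ds_one]
    refine (commutator_mono S.D_le_range S.D_le_range).trans ?_
    rw [MonoidHom.range_eq_map, ← map_commutator, ← pi_top Set.univ, commutator_pi_pi_of_finite]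
    exact le_rfl
  · apply S.P_le (nz_ds _ _)
    rw [mem_pull, ds_succ, ds_one]
    have h1 := S.shift_mem (S.G_nz_D S.a_mem) hb (-2)
    have h2 : S.v (Pi.mulSingle 0 S.b') ∈ ⁅S.G, S.G⁆ := by
      apply S.P_le_D
      refine ⟨_, ?_, rfl⟩
      intro i _
      change Pi.mulSingle (M := fun _ => Γ) 0 S.b' i ∈ _root_.commutator Γ
      by_cases hi : i = 0
      · subst hi; simpa using hb'
      · rw [Pi.mulSingle_eq_of_ne hi]; exact one_mem _
    have h3 := commutator_mem_commutator h1 h2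
    rw [commutatorElement_def, conj_single, ← map_inv, ← map_mul] at h3
    convert h3 using 2
    funext l
    by_cases hl : l = 0
    · subst hl; simp [S.B2, commutatorElement_def]
    · simp [Pi.mulSingle_eq_of_ne hl]

lemma K (hb : S.b ∈ ⁅S.G, S.G⁆) (hb' : S.b' ∈ _root_.commutator Γ) (k : ℕ) :
    ds S.G (k + 2) = (Subgroup.pi Set.univ fun _ => derivedSeries Γ (k + 1)).map S.v := by
  induction k with
  | zero => rw [S.DD hb hb', zero_add, derivedSeries_one]
  | succ k ih =>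
    rw [show k + 1 + 2 = (k + 2) + 1 from rfl, ds_succ, ih, ← map_commutator,
      commutator_pi_pi_of_finite]
    rfl

lemma descent (hb : S.b ∈ ⁅S.G, S.G⁆) (hb' : S.b' ∈ _root_.commutator Γ) (k : ℕ)
    (M : Subgroup E) (hM : S.G ≤ nz M) (hne : M.relIndex (ds S.G (k + 2)) ≠ 0) :
    ds S.G (k + 3) ≤ M ∨ ((S.pull M).relIndex (derivedSeries Γ (k + 1)) ≠ 0 ∧
      (S.pull M).relIndex (derivedSeries Γ (k + 1)) < M.relIndex (ds S.G (k + 2))) := by
  set R := (derivedSeries Γ (k + 1)).map (S.v.comp (MonoidHom.mulSingle (fun _ => Γ) 0)) with hR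
  have hRK : R ≤ ds S.G (k + 2) := by
    rw [S.K hb hb']
    rintro _ ⟨x, hx, rfl⟩
    refine ⟨Pi.mulSingle 0 x, ?_, rfl⟩
    intro i _
    change Pi.mulSingle (M := fun _ => Γ) 0 x i ∈ derivedSeries Γ (k + 1)
    by_cases hi : i = 0
    · subst hi; simpa using hx
    · rw [Pi.mulSingle_eq_of_ne hi]; exact one_mem _
  have e1 : (S.pull M).relIndex (derivedSeries Γ (k + 1)) = M.relIndex R := by
    rw [pull, relIndex_comap]
  have hle := relIndex_le_of_le_right hRK hne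
  have hne' : M.relIndex R ≠ 0 := fun h => hne (relIndex_eq_zero_of_le_right hRK h)
  rcases hle.lt_or_eq with hlt | heq
  · right; rw [e1]; exact ⟨hne', hlt⟩
  left
  have hs := surj M R _ hRK heq hne
  rw [show k + 3 = (k + 2) + 1 from rfl, ds_succ, commutator_le]
  intro x hx y hy
  obtain ⟨_, ⟨u, hu, rfl⟩, hm⟩ := hs x hx
  obtain ⟨_, ⟨w, hw, rfl⟩, hm'⟩ := hs _ ((nz_ds S.G (k + 2) S.a_mem).2 y hy)
  set s := (S.v.comp (MonoidHom.mulSingle (fun _ => Γ) 0)) u with hs0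
  set t := S.a * (S.v.comp (MonoidHom.mulSingle (fun _ => Γ) 0)) w * S.a⁻¹ with ht0
  have hsG : s ∈ S.G := ds_le _ _ (hRK ⟨u, hu, rfl⟩)
  have htG : t ∈ S.G :=
    mul_mem (mul_mem S.a_mem (ds_le _ _ (hRK ⟨w, hw, rfl⟩))) (inv_mem S.a_mem)
  have hm2 : t⁻¹ * y ∈ M := by
    have := nz_conj (hM S.a_mem) hm'
    convert this using 1
    rw [ht0]; group
  have hst : s * t = t * s := by
    rw [hs0, ht0]
    simp only [MonoidHom.comp_apply]
    rw [S.conj, ← map_mul, ← map_mul]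
    congr 1; funext l
    have h01 := cne r (i := 0) (j := 1) (by omega) (by omega) (by omega)
    simp only [Nat.cast_zero, Nat.cast_one] at h01
    by_cases hl : l = 0
    · subst hl
      have : (0 : ZMod (r + 7)) - 1 ≠ 0 := by
        intro e; apply h01; linear_combination e
      simp [Pi.mulSingle_eq_of_ne this]
      have h' : (-1 : ZMod (r + 7)) ≠ 0 := by simpa using this
      simp [Pi.mulSingle_eq_of_ne h']
    · simp [Pi.mulSingle_eq_of_ne hl]
  set m := s⁻¹ * x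
  set m' := t⁻¹ * y
  have ex : x = s * m := by simp [m]
  have ey : y = t * m' := by simp [m']
  have e : ⁅x, y⁆ = (s * m * s⁻¹) * ((s * t) * (m' * m⁻¹) * (s * t)⁻¹) *
      (t * m'⁻¹ * t⁻¹) := by
    rw [ex, ey, commutatorElement_def]
    have h2 : s * t * s⁻¹ = t := by rw [hst]; group
    calc s * m * (t * m') * (s * m)⁻¹ * (t * m')⁻¹
        = (s * m * s⁻¹) * ((s * t) * (m' * m⁻¹) * (s * t)⁻¹) *
          ((s * t * s⁻¹) * m'⁻¹ * t⁻¹) := by group
      _ = _ := by rw [h2]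
  rw [e]
  refine mul_mem (mul_mem (nz_conj (hM hsG) hm) (nz_conj (hM (mul_mem hsG htG))
    (mul_mem hm2 (inv_mem hm)))) (nz_conj (hM htG) (inv_mem hm2))

end Step

end Pool.Agent.H64.NL
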