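import Pool.Agent.H64.NL2

namespace Pool.Agent.H64.NL

open Subgroup
open scoped commutatorElement

def X (q : ℕ → ℕ) : Type := ∀ n, ZMod (q n + 7)

def sh (q : ℕ → ℕ) : ℕ → ℕ := fun n => q (n + 1)

def tl {q : ℕ → ℕ} (x : X q) : X (sh q) := fun n => x (n + 1)

def cons {q : ℕ → ℕ} (i : ZMod (q 0 + 7)) (y : X (sh q)) : X q
  | 0 => i
  | n + 1 => y n

@[simp] lemma cons_zero {q : ℕ → ℕ} (i : ZMod (q 0 + 7)) (y : X (sh q)) : cons i y 0 = i := rfl
@[simp] lemma tl_cons {q : ℕ → ℕ} (i : ZMod (q 0 + 7)) (y : X (sh q)) : tl (cons i y) = y := rfl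
@[simp] lemma cons_tl {q : ℕ → ℕ} (x : X q) : cons (x 0) (tl x) = x := by
  funext n; cases n <;> rfl

lemma X_ext {q : ℕ → ℕ} {x y : X q} (h0 : x 0 = y 0) (h1 : tl x = tl y) : x = y := by
  rw [← cons_tl x, ← cons_tl y, h0, h1]

def vec (q : ℕ → ℕ) : (ZMod (q 0 + 7) → Equiv.Perm (X (sh q))) →* Equiv.Perm (X q) where
  toFun h :=
    { toFun := fun x => cons (x 0) (h (x 0) (tl x))
      invFun := fun x => cons (x 0) ((h (x 0)).symm (tl x))
      left_inv := fun x => by simp
      right_inv := fun x => by simp }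
  map_one' := by ext x : 1; simp
  map_mul' g h := by ext x : 1; simp

lemma vec_apply (q : ℕ → ℕ) (h : ZMod (q 0 + 7) → Equiv.Perm (X (sh q))) (x : X q) :
    vec q h x = cons (x 0) (h (x 0) (tl x)) := rfl

lemma vec_inj (q : ℕ → ℕ) : Function.Injective (vec q) := by
  intro g h e
  funext i
  ext y : 1
  have := congrArg (fun p : Equiv.Perm (X q) => tl (p (cons i y))) e
  simpa [vec_apply] using this

def ra (q : ℕ → ℕ) : Equiv.Perm (X q) where
  toFun x := cons (x 0 + 1) (tl x)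
  invFun x := cons (x 0 - 1) (tl x)
  left_inv x := by simp
  right_inv x := by simp

lemma ra_apply (q : ℕ → ℕ) (x : X q) : ra q x = cons (x 0 + 1) (tl x) := rfl
lemma ra_inv_apply (q : ℕ → ℕ) (x : X q) : (ra q)⁻¹ x = cons (x 0 - 1) (tl x) := rfl

lemma ra_pow (q : ℕ → ℕ) (n : ℕ) (x : X q) : (ra q ^ n) x = cons (x 0 + (n : ZMod (q 0 + 7))) (tl x) := by
  induction n with
  | zero => simp
  | succ n ih =>
    rw [pow_succ', Equiv.Perm.mul_apply, ih, ra_apply]
    simp [add_assoc]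

def lab : ℕ → (q : ℕ → ℕ) → X q → ℤ
  | 0, _, _ => 0
  | n + 1, q, x =>
    if x 0 = 0 then lab n (sh q) (tl x) else if x 0 = 1 then - lab n (sh q) (tl x)
    else if n = 0 then (if x 0 = 2 then 1 else if x 0 = 3 then -1 else 0) else 0

def bf (q : ℕ → ℕ) (t : ℤ) (x : X q) : X q := fun n => x n + ((t * lab n q x : ℤ) : ZMod (q n + 7))

lemma bf_zero (q : ℕ → ℕ) (t : ℤ) (x : X q) : bf q t x 0 = x 0 := by simp [bf, lab]

lemma tl_bf0 (q : ℕ → ℕ) (t : ℤ) (x : X q) (h : x 0 = 0) : tl (bf q t x) = bf (sh q) t (tl x) := by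
  funext n
  simp only [tl, bf, lab, h, if_true]
  rfl

lemma tl_bf1 (q : ℕ → ℕ) (t : ℤ) (x : X q) (h0 : x 0 ≠ 0) (h : x 0 = 1) :
    tl (bf q t x) = bf (sh q) (-t) (tl x) := by
  funext n
  have : lab (n + 1) q x = - lab n (sh q) (tl x) := by
    simp only [lab]; rw [if_neg h0, if_pos h]
  simp only [tl, bf, this, mul_neg, neg_mul]
  rfl

lemma lab_bf (n : ℕ) : ∀ (q : ℕ → ℕ) (t : ℤ) (x : X q), lab n q (bf q t x) = lab n q x := by
  induction n with
  | zero => intro q t x; rfl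
  | succ n ih =>
    intro q t x
    simp only [lab, bf_zero]
    by_cases h0 : x 0 = 0
    · rw [if_pos h0, if_pos h0, tl_bf0 q t x h0, ih]
    rw [if_neg h0, if_neg h0]
    by_cases h1 : x 0 = 1
    · rw [if_pos h1, if_pos h1, tl_bf1 q t x h0 h1, ih]
    rw [if_neg h1, if_neg h1]

lemma bf_bf (q : ℕ → ℕ) (t : ℤ) (x : X q) : bf q (-t) (bf q t x) = x := by
  funext n
  rw [bf, lab_bf, bf]
  push_cast; ring

def rb (q : ℕ → ℕ) : Equiv.Perm (X q) where
  toFun := bf q 1
  invFun := bf q (-1)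
  left_inv x := bf_bf q 1 x
  right_inv x := by simpa using bf_bf q (-1) x

lemma rb_eq (q : ℕ → ℕ) : rb q = vec q (B (ra (sh q)) (rb (sh q))) := by
  ext x : 1
  rw [vec_apply]
  change bf q 1 x = _
  apply X_ext
  · simp [bf_zero]
  rw [tl_cons]
  unfold B
  by_cases h0 : x 0 = 0
  · rw [if_pos h0, tl_bf0 q 1 x h0]; rfl
  rw [if_neg h0]
  by_cases h1 : x 0 = 1
  · rw [if_pos h1, tl_bf1 q 1 x h0 h1]; rfl
  rw [if_neg h1]
  have hl : ∀ n, lab (n + 2) q x = 0 := by
    intro n; simp only [lab]; rw [if_neg h0, if_neg h1]; simp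
  have hl1 : lab 1 q x = if x 0 = 2 then 1 else if x 0 = 3 then -1 else 0 := by
    simp only [lab]; rw [if_neg h0, if_neg h1]; simp
  have htl : tl (tl (bf q 1 x)) = tl (tl x) := by
    funext n
    simp [tl, bf, hl]
  have h00 : tl (bf q 1 x) 0 = tl x 0 + ((lab 1 q x : ℤ) : ZMod (sh q 0 + 7)) := by
    simp only [tl, bf, one_mul]; rfl
  by_cases h2 : x 0 = 2
  · rw [if_pos h2, ra_apply]
    apply X_ext
    · rw [h00, hl1, if_pos h2]; simp
    · rw [htl]; rfl
  rw [if_neg h2]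
  by_cases h3 : x 0 = 3
  · rw [if_pos h3, ra_inv_apply]
    apply X_ext
    · rw [h00, hl1, if_neg h2, if_pos h3]; simp [sub_eq_add_neg]
    · rw [htl]; rfl
  rw [if_neg h3]
  apply X_ext
  · rw [h00, hl1, if_neg h2, if_neg h3]; simp
  · rw [htl]; rfl

def GG (q : ℕ → ℕ) : Subgroup (Equiv.Perm (X q)) := closure {ra q, rb q}

lemma ra_mem (q : ℕ → ℕ) : ra q ∈ GG q := subset_closure (by simp)
lemma rb_mem (q : ℕ → ℕ) : rb q ∈ GG q := subset_closure (by simp)

lemma GG_gen (q : ℕ → ℕ) :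
    closure {(⟨ra q, ra_mem q⟩ : GG q), ⟨rb q, rb_mem q⟩} = ⊤ := by
  apply map_injective (GG q).subtype_injective
  rw [MonoidHom.map_closure, ← MonoidHom.range_eq_map, range_subtype]
  simp only [Set.image_pair]
  rfl

def vv (q : ℕ → ℕ) : (ZMod (q 0 + 7) → GG (sh q)) →* Equiv.Perm (X q) :=
  (vec q).comp ((GG (sh q)).subtype.compLeft _)

lemma vv_apply (q : ℕ → ℕ) (h : ZMod (q 0 + 7) → GG (sh q)) (x : X q) :
    vv q h x = cons (x 0) ((h (x 0) : Equiv.Perm (X (sh q))) (tl x)) := rfl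

def step (q : ℕ → ℕ) : Step (q 0) (Equiv.Perm (X q)) (GG (sh q)) where
  v := vv q
  inj := by
    intro g h e
    have := vec_inj q e
    funext i
    exact Subtype.ext (congrFun this i)
  a := ra q
  b := rb q
  a' := ⟨ra (sh q), ra_mem _⟩
  b' := ⟨rb (sh q), rb_mem _⟩
  gen := GG_gen _
  conj h := by
    ext x : 1
    rw [Equiv.Perm.mul_apply, Equiv.Perm.mul_apply, ra_inv_apply]
    simp [vv_apply, ra_apply]
  apow := by
    ext x : 1
    rw [ra_pow]
    have : ((q 0 + 7 : ℕ) : ZMod (q 0 + 7)) = 0 := ZMod.natCast_self _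
    rw [this]; simp
  hb := by
    rw [rb_eq]
    change _ = vec q _
    congr 1; funext i
    simp only [B, MonoidHom.compLeft_apply, Function.comp_apply]
    split_ifs <;> rfl

lemma step_G (q : ℕ → ℕ) : (step q).G = GG q := rfl

def Good (q : ℕ → ℕ) : Prop := ∀ n, Nat.Coprime (q n + 7) (q (n + 1) + 7)

lemma Good.sh {q : ℕ → ℕ} (h : Good q) : Good (sh q) := fun n => h (n + 1)

lemma rb_D {q : ℕ → ℕ} (h : Good q) : rb q ∈ ⁅GG q, GG q⁆ := by
  apply (step q).b_mem_D (h 0)
  · have : (step q).a' ^ (q (0 + 1) + 7) = 1 := Subtype.ext (step (sh q)).apow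
    rw [this]; exact one_mem _
  · exact (mem_comm _).1 (step (sh q)).b_pow_mem

lemma rb_D' {q : ℕ → ℕ} (h : Good q) : (step q).b' ∈ _root_.commutator (GG (sh q)) :=
  (mem_comm _).1 (rb_D h.sh)

lemma KK {q : ℕ → ℕ} (h : Good q) (k : ℕ) : ds (GG q) (k + 2) =
    (Subgroup.pi Set.univ fun _ => derivedSeries (GG (sh q)) (k + 1)).map (vv q) :=
  (step q).K (rb_D h) (rb_D' h) k

lemma ds_le_map {q : ℕ → ℕ} (h : Good q) (k : ℕ) : ds (GG q) (k + 1) ≤
    (Subgroup.pi Set.univ fun _ => derivedSeries (GG (sh q)) k).map (vv q) := by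
  cases k with
  | zero =>
    rw [zero_add, ds_one]
    intro x hx
    obtain ⟨y, rfl⟩ := (step q).D_le_range hx
    exact ⟨y, fun i _ => trivial, rfl⟩
  | succ k => rw [KK h k]

lemma pow_mem_ds (k : ℕ) : ∀ {q : ℕ → ℕ}, Good q → ∀ x ∈ derivedSeries (GG q) k,
    x ^ (q k + 7) ∈ derivedSeries (GG q) (k + 1) := by
  induction k with
  | zero =>
    intro q h x _
    rw [zero_add, derivedSeries_one]
    exact (step q).pow0 (rb_D h) x
  | succ k ih =>
    intro q h x hx
    rw [← mem_ds] at hx ⊢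
    obtain ⟨y, hy, e⟩ := ds_le_map h k hx
    rw [show k + 1 + 1 = k + 2 from rfl, KK h k]
    refine ⟨y ^ (q (k + 1) + 7), ?_, by rw [map_pow, e]; rfl⟩
    intro i _
    exact ih h.sh _ (hy i trivial)

lemma fix_ds (k : ℕ) : ∀ {q : ℕ → ℕ}, Good q → ∀ g ∈ ds (GG q) k, ∀ x : X q, ∀ n < k,
    g x n = x n := by
  induction k with
  | zero => intro q _ g _ x n hn; omega
  | succ k ih =>
    intro q h g hg x n hn
    obtain ⟨y, hy, rfl⟩ := ds_le_map h k hg
    rw [vv_apply]
    cases n with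
    | zero => rfl
    | succ n =>
      exact ih h.sh _ ((mem_ds _).2 (hy (x 0) trivial)) (tl x) n (by omega)

lemma eq_one_of_ds {q : ℕ → ℕ} (h : Good q) (g : GG q) (hg : ∀ k, g ∈ derivedSeries (GG q) k) :
    g = 1 := by
  apply Subtype.ext
  ext x : 1
  funext n
  exact fix_ds (n + 1) h _ ((mem_ds _).2 (hg _)) x n (by omega)

lemma ra_ne (q : ℕ → ℕ) : ra q ≠ 1 := by
  intro e
  have := congrArg (fun p : Equiv.Perm (X q) => p (fun _ => 0) 0) e
  simp only [ra_apply, cons_zero, Equiv.Perm.one_apply] at this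
  have h01 := cne (q 0) (i := 1) (j := 0) (by omega) (by omega) (by omega)
  simp only [Nat.cast_zero, Nat.cast_one] at h01
  apply h01; simpa using this

lemma ds_ne (k : ℕ) : ∀ {q : ℕ → ℕ}, Good q → ∃ g ∈ derivedSeries (GG q) (k + 1), g ≠ 1 := by
  induction k with
  | zero =>
    intro q h
    refine ⟨⟨rb q, rb_mem q⟩, ?_, ?_⟩
    · rw [← mem_ds, zero_add, ds_one]; exact rb_D h
    · intro e
      have e1 : (step q).b = 1 := congrArg Subtype.val e
      rw [(step q).hb, ← map_one (step q).v] at e1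
      have e2 := congrFun ((step q).inj e1) 2
      rw [(step q).B2] at e2
      exact ra_ne _ (congrArg Subtype.val e2)
  | succ k ih =>
    intro q h
    obtain ⟨g, hg, hne⟩ := ih h.sh
    have hm : vv q (fun _ => g) ∈ ds (GG q) (k + 2) := by
      rw [KK h k]; exact ⟨_, fun i _ => hg, rfl⟩
    refine ⟨⟨_, ds_le _ _ hm⟩, (mem_ds _).1 hm, ?_⟩
    intro e
    have e1 : (step q).v (fun _ => g) = (step q).v 1 := by
      rw [map_one]; exact congrArg Subtype.val e
    exact hne (congrFun ((step q).inj e1) 0)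

lemma csp (n : ℕ) : ∀ {q : ℕ → ℕ}, Good q → ∀ (M : Subgroup (GG q)), M.Normal → ∀ k,
    M.relIndex (derivedSeries (GG q) k) ≠ 0 → M.relIndex (derivedSeries (GG q) k) ≤ n →
    ∃ j, derivedSeries (GG q) j ≤ M := by
  induction n with
  | zero => intro q _ M _ k h1 h2; omega
  | succ n ih =>
    intro q h M hM k h1 h2
    have hle : derivedSeries (GG q) (k + 2) ≤ derivedSeries (GG q) k := by
      intro x hx
      rw [← mem_ds] at hx ⊢
      exact ds_anti' _ (by omega) hx
    set M' := M.map (GG q).subtype with hM'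
    have hnz : (step q).G ≤ nz M' := by
      intro g hg
      constructor
      · rintro _ ⟨x, hx, rfl⟩
        exact ⟨_, hM.conj_mem x hx ⟨g, hg⟩, rfl⟩
      · rintro _ ⟨x, hx, rfl⟩
        exact ⟨_, hM.conj_mem' x hx ⟨g, hg⟩, rfl⟩
    have e : M'.relIndex (ds (GG q) (k + 2)) = M.relIndex (derivedSeries (GG q) (k + 2)) := by
      rw [hM', ds, relIndex_map_map_of_injective _ _ (GG q).subtype_injective]
    have h3 : M.relIndex (derivedSeries (GG q) (k + 2)) ≠ 0 :=
      fun h0 => h1 (relIndex_eq_zero_of_le_right hle h0)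
    have h4 := relIndex_le_of_le_right hle h1
    have back : ∀ j, ds (GG q) j ≤ M' → derivedSeries (GG q) j ≤ M := by
      intro j hj x hx
      obtain ⟨y, hy, e⟩ := hj ((mem_ds x).2 hx)
      have : y = x := Subtype.ext e
      rwa [← this]
    rcases (step q).descent (rb_D h) (rb_D' h) k M' hnz (by rw [step_G, e]; exact h3) with h5 | ⟨h5, h6⟩
    · exact ⟨_, back _ h5⟩
    · rw [step_G, e] at h6
      have hN : ((step q).pull M').Normal :=
        ⟨fun x hx g => nz_conj ((step q).pull_normal hnz (mem_top g)) hx⟩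
      obtain ⟨j, hj⟩ := ih h.sh _ hN (k + 1) h5 (by omega)
      refine ⟨j + 1, back _ ((ds_le_map h j).trans ?_)⟩
      exact (step q).pi_le (hnz (step q).a_mem) hj

instance (q : ℕ → ℕ) : Group.FG (GG q) :=
  (Group.fg_iff_subgroup_fg _).2 ((Subgroup.fg_iff _).2 ⟨{ra q, rb q}, rfl, Set.toFinite _⟩)

lemma ds_fi {q : ℕ → ℕ} (h : Good q) (k : ℕ) : (derivedSeries (GG q) k).FiniteIndex := by
  induction k with
  | zero => rw [derivedSeries_zero]; infer_instance
  | succ k ih =>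
    set A := derivedSeries (GG q) k with hA
    haveI : Group.FG A := fg_of_index_ne_zero A
    have hc : (derivedSeries (GG q) (k + 1)).subgroupOf A = _root_.commutator A := by
      ext x
      rw [mem_subgroupOf, derivedSeries_succ, ← hA, mem_comm]
    haveI : Group.FG (Abelianization A) :=
      Group.fg_of_surjective (f := Abelianization.of) (QuotientGroup.mk'_surjective _)
    have ht : Monoid.IsTorsion (Abelianization A) := by
      intro x
      obtain ⟨y, rfl⟩ : ∃ y : A, Abelianization.of y = x :=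
        (QuotientGroup.mk'_surjective (_root_.commutator A)) x
      rw [isOfFinOrder_iff_pow_eq_one]
      refine ⟨q k + 7, by omega, ?_⟩
      rw [← map_pow, ← MonoidHom.mem_ker, Abelianization.ker_of]
      rw [← hc, mem_subgroupOf]
      exact pow_mem_ds k h _ y.2
    haveI hfin : Finite (Abelianization A) := CommGroup.finite_of_fg_torsion _ ht
    have h1 : (derivedSeries (GG q) (k + 1)).relIndex A ≠ 0 := by
      rw [relIndex, hc]
      exact (Nat.card_pos (α := Abelianization A)).ne'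
    have hle : derivedSeries (GG q) (k + 1) ≤ A := by
      rw [derivedSeries_succ]; exact commutator_le_left _ _
    refine ⟨?_⟩
    rw [← relIndex_mul_index hle]
    exact mul_ne_zero h1 ih.index_ne_zero

lemma csp' {q : ℕ → ℕ} (h : Good q) (M : Subgroup (GG q)) (hM : M.Normal) (hf : M.FiniteIndex) :
    ∃ j, ∀ k, j ≤ k → derivedSeries (GG q) k ≤ M := by
  obtain ⟨j, hj⟩ := csp _ h M hM 0 (by rw [derivedSeries_zero, relIndex_top_right]; exact hf.index_ne_zero) le_rfl
  refine ⟨j, fun k hk x hx => hj ?_⟩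
  rw [← mem_ds] at hx ⊢
  exact ds_anti' _ hk hx

end Pool.Agent.H64.NL
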