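import Mathlib

namespace Pool.Agent.H64.NLDefs

/-- minimal number of generators of a group (`⊤` if it is not finitely generated) -/
noncomputable def mgen (H : Type) [Group H] : ℕ∞ :=
  ⨅ (S : Finset H) (_ : Subgroup.closure (S : Set H) = ⊤), (S.card : ℕ∞)

/-- `δ(A)`: minimal number of generators of `A/[A,A]` -/
noncomputable def delta (A : Type) [Group A] : ℕ∞ := mgen (A ⧸ commutator A)

/-- the subgroup `[A,A] A^p` -/
def frat (p : ℕ) (A : Type) [Group A] : Subgroup A :=
  commutator A ⊔ Subgroup.closure (Set.range fun x : A => x ^ p)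

theorem frat_normal (p : ℕ) (A : Type) [Group A] : (frat p A).Normal := by
  constructor
  intro n hn g
  have h : g * n * g⁻¹ * n⁻¹ ∈ commutator A :=
    Subgroup.commutator_mem_commutator (Subgroup.mem_top g) (Subgroup.mem_top n)
  have e : g * n * g⁻¹ = (g * n * g⁻¹ * n⁻¹) * n := by group
  rw [e]
  exact Subgroup.mul_mem _ (Subgroup.mem_sup_left h) hn

/-- `d_p(A)`: minimal number of generators of `A/[A,A]A^p` -/
noncomputable def dp (p : ℕ) (A : Type) [Group A] : ℕ∞ :=
  haveI := frat_normal p A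
  mgen (A ⧸ frat p A)

/-- lower normal limit of `f` along the finite-index normal subgroups of `Γ` -/
noncomputable def NL (Γ : Type) [Group Γ] (f : Subgroup Γ → ℕ∞) : ℕ∞ :=
  ⨆ (M : Subgroup Γ) (_ : M.Normal ∧ M.FiniteIndex),
    ⨅ (N : Subgroup Γ) (_ : N.Normal ∧ N.FiniteIndex ∧ N ≤ M), f N

end Pool.Agent.H64.NLDefs
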