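import Pool.Agent.H64.NilWreath

namespace Pool.Agent.H64.NilUniv

open Module Polynomial

lemma countable_of_rank (F U : Type) [Field F] [Countable F] [AddCommGroup U] [Module F U]
    (h : Module.rank F U ≤ Cardinal.aleph0) : Countable U := by
  let b := Basis.ofVectorSpace F U
  haveI : Countable (Basis.ofVectorSpaceIndex F U) := by
    rw [← Cardinal.mk_le_aleph0_iff, b.mk_eq_rank'']; exact h
  exact b.repr.injective.countable

lemma rank_of_countable (F U : Type) [Field F] [AddCommGroup U] [Module F U] [Countable U] :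
    Module.rank F U ≤ Cardinal.aleph0 :=
  (rank_le_card F U).trans Cardinal.mk_le_aleph0

variable {F : Type} [Field F]

lemma iter {U E : Type} [NonUnitalRing U] [Module F U] [Ring E] [Algebra F E] (φ : U →ₙₐ[F] E)
    (a : U) (n : ℕ) : φ ((fun x => a * x)^[n] a) = φ a ^ (n + 1) := by
  induction n with
  | zero => simp
  | succ n ih => rw [Function.iterate_succ_apply', map_mul, ih, ← pow_succ']

lemma nil_int {E : Type} [Ring E] [Algebra F E] {y : E} (h : IsNilpotent y) : IsIntegral F y := by
  obtain ⟨N, hN⟩ := h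
  exact ⟨X ^ N, monic_X_pow N, by simpa using hN⟩

lemma alg_bound {U E : Type} [NonUnitalRing U] [Module F U] [IsScalarTower F U U]
    [SMulCommClass F U U] [Ring E] [Algebra F E] (u : U)
    (hu : FiniteDimensional F (NonUnitalAlgebra.adjoin F {u})) :
    ∃ H : ℕ, ∀ φ : U →ₙₐ[F] E, IsNilpotent (φ u) → φ u ^ H = 0 := by
  refine ⟨finrank F (NonUnitalAlgebra.adjoin F {u}) + 1, fun φ hn => ?_⟩
  by_contra hne
  set y := φ u
  set H := finrank F (NonUnitalAlgebra.adjoin F {u}) + 1 with hH
  obtain ⟨N, hN⟩ := hn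
  have h1 : minpoly F y ∣ X ^ N := minpoly.dvd F y (by simpa using hN)
  obtain ⟨r, -, hr⟩ := (dvd_prime_pow prime_X N).1 h1
  have hint : IsIntegral F y := nil_int ⟨N, hN⟩
  have h2 : minpoly F y = X ^ r := eq_of_monic_of_associated (minpoly.monic hint) (monic_X_pow r) hr
  have h3 : y ^ r = 0 := by simpa [h2] using minpoly.aeval F y
  have h4 : H < r := by
    by_contra hc
    exact hne (pow_eq_zero_of_le (by omega) h3)
  have hli := linearIndependent_pow (K := F) y
  have hd : (minpoly F y).natDegree = r := by rw [h2, natDegree_X_pow]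
  let ψ : NonUnitalAlgebra.adjoin F {u} →ₗ[F] E :=
    (φ : U →ₗ[F] E).comp (NonUnitalAlgebra.adjoin F {u}).toSubmodule.subtype
  have hmem : ∀ i : ℕ, y ^ (i + 1) ∈ LinearMap.range ψ := by
    intro i
    induction i with
    | zero => exact ⟨⟨u, NonUnitalAlgebra.self_mem_adjoin_singleton F u⟩, by rw [zero_add, pow_one]; rfl⟩
    | succ i ih =>
      obtain ⟨s, hs⟩ := ih
      refine ⟨s * ⟨u, NonUnitalAlgebra.self_mem_adjoin_singleton F u⟩, ?_⟩
      rw [pow_succ, ← hs]
      exact map_mul φ _ _
  have hli2 : LinearIndependent F fun i : Fin H => (⟨y ^ (i.1 + 1), hmem i⟩ : LinearMap.range ψ) := by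
    apply LinearIndependent.of_comp (LinearMap.range ψ).subtype
    exact hli.comp (fun i : Fin H => ⟨i.1 + 1, by omega⟩) fun i j h => by
      simpa [Fin.ext_iff] using h
  have h5 := hli2.fintype_card_le_finrank
  have h6 := LinearMap.finrank_range_le ψ
  rw [Fintype.card_fin] at h5
  omega

lemma nil_alg {E : Type} [Ring E] [Algebra F E] (B : NonUnitalSubalgebra F E) (b : B)
    (hb : IsNilpotent (b : E)) : FiniteDimensional F (NonUnitalAlgebra.adjoin F {b}) := by
  have hint : IsIntegral F (b : E) := nil_int hb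
  haveI : FiniteDimensional F (Algebra.adjoin F {(b : E)}) :=
    Module.Finite.iff_fg.2 hint.fg_adjoin_singleton
  have hle : ∀ s ∈ NonUnitalAlgebra.adjoin F {b}, (s : E) ∈ Algebra.adjoin F {(b : E)} := by
    intro s hs
    induction hs using NonUnitalAlgebra.adjoin_induction with
    | mem y hy => rw [hy]; exact Algebra.self_mem_adjoin_singleton F _
    | add y z _ _ h1 h2 => exact Subalgebra.add_mem _ h1 h2
    | zero => exact Subalgebra.zero_mem _
    | mul y z _ _ h1 h2 => exact Subalgebra.mul_mem _ h1 h2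
    | smul c y _ h => exact Subalgebra.smul_mem _ h c
  let ψ : NonUnitalAlgebra.adjoin F {b} →ₗ[F] Algebra.adjoin F {(b : E)} :=
    { toFun := fun s => ⟨(s.1 : E), hle s.1 s.2⟩
      map_add' := fun _ _ => rfl
      map_smul' := fun _ _ => rfl }
  exact FiniteDimensional.of_injective ψ fun s t h =>
    Subtype.ext (Subtype.ext (congrArg (fun z : Algebra.adjoin F {(b : E)} => (z : E)) h))

theorem algebraic (F : Type) [Field F] [Countable F] :
    ¬ ∃ (U : Type) (_ : NonUnitalRing U) (_ : Module F U) (_ : IsScalarTower F U U)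
        (_ : SMulCommClass F U U),
        (∀ a : U, FiniteDimensional F (NonUnitalAlgebra.adjoin F {a})) ∧
        Module.rank F U ≤ Cardinal.aleph0 ∧
        ∀ (B : Type) [NonUnitalRing B] [Module F B] [IsScalarTower F B B] [SMulCommClass F B B],
          (∀ b : B, FiniteDimensional F (NonUnitalAlgebra.adjoin F {b})) →
          Module.rank F B ≤ Cardinal.aleph0 → ∃ f : U →ₙₐ[F] B, Function.Surjective f := by
  rintro ⟨U, _, _, _, _, h1, h2, h3⟩
  obtain ⟨E, _, _, hE⟩ := Pool.Agent.H64.NilWreath.main F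
  haveI := countable_of_rank F U h2
  obtain ⟨B, _, hB, hφ⟩ := hE U fun u => alg_bound u (h1 u)
  obtain ⟨f, hf⟩ := h3 B (fun b => nil_alg B b (hB b b.2)) (rank_of_countable F B)
  refine hφ ((NonUnitalSubalgebraClass.subtype B).comp f) (fun u => (f u).2) fun b hb => ?_
  obtain ⟨u, hu⟩ := hf ⟨b, hb⟩
  exact ⟨u, congrArg Subtype.val hu⟩

theorem nil (F : Type) [Field F] [Countable F] :
    ¬ ∃ (A : Type) (_instR : NonUnitalRing A) (_instM : Module F A)
        (_instT : IsScalarTower F A A) (_instC : SMulCommClass F A A),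
        (∀ a : A, ∃ n : ℕ, (fun x : A => a * x)^[n] a = 0) ∧
        Module.rank F A ≤ Cardinal.aleph0 ∧
        ∀ (B : Type) [NonUnitalRing B] [Module F B] [IsScalarTower F B B]
          [SMulCommClass F B B],
          (∀ b : B, ∃ n : ℕ, (fun x : B => b * x)^[n] b = 0) →
          Module.rank F B ≤ Cardinal.aleph0 →
            ∃ f : A →ₙₐ[F] B, Function.Surjective f := by
  rintro ⟨U, _, _, _, _, h1, h2, h3⟩
  obtain ⟨E, _, _, hE⟩ := Pool.Agent.H64.NilWreath.main F
  haveI := countable_of_rank F U h2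
  obtain ⟨B, _, hB, hφ⟩ := hE U fun u => by
    obtain ⟨n, hn⟩ := h1 u
    exact ⟨n + 1, fun φ _ => by rw [← iter, hn, map_zero]⟩
  obtain ⟨f, hf⟩ := h3 B (fun b => by
    obtain ⟨n, hn⟩ := hB b b.2
    refine ⟨n, Subtype.ext ?_⟩
    have := iter (NonUnitalSubalgebraClass.subtype B) b n
    refine this.trans ?_
    rw [pow_succ]
    exact mul_eq_zero_of_left hn _) (rank_of_countable F B)
  refine hφ ((NonUnitalSubalgebraClass.subtype B).comp f) (fun u => (f u).2) fun b hb => ?_
  obtain ⟨u, hu⟩ := hf ⟨b, hb⟩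
  exact ⟨u, congrArg Subtype.val hu⟩

end Pool.Agent.H64.NilUniv
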