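import Pool.Agent.H64.Golod

/-! No countable algebraic algebra maps onto every finitely generated nil algebra. -/

namespace Pool.Agent.H64.NilWreath

open Module Pool.Agent.H64.Golod TensorProduct Polynomial

section ideal

variable {P V : Type} [CommRing P] [AddCommGroup V] [Module P V]

def InJ (j : End P V) : Prop :=
  ∃ W : Submodule P V, W.FG ∧ LinearMap.range j ≤ nilradical P • W

lemma InJ.zero : InJ (0 : End P V) := ⟨⊥, Submodule.fg_bot, by simp⟩

lemma InJ.add {j k : End P V} (hj : InJ j) (hk : InJ k) : InJ (j + k) := by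
  obtain ⟨W, h1, h2⟩ := hj
  obtain ⟨W', h1', h2'⟩ := hk
  refine ⟨W ⊔ W', h1.sup h1', ?_⟩
  rintro _ ⟨u, rfl⟩
  rw [Submodule.smul_sup]
  exact Submodule.add_mem_sup (h2 ⟨u, rfl⟩) (h2' ⟨u, rfl⟩)

lemma InJ.mul_left {j : End P V} (f : End P V) (hj : InJ j) : InJ (f * j) := by
  obtain ⟨W, h1, h2⟩ := hj
  refine ⟨W.map f, h1.map f, ?_⟩
  rintro _ ⟨u, rfl⟩
  rw [← Submodule.map_smul'']
  exact ⟨j u, h2 ⟨u, rfl⟩, rfl⟩

lemma InJ.mul_right {j : End P V} (f : End P V) (hj : InJ j) : InJ (j * f) := by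
  obtain ⟨W, h1, h2⟩ := hj
  refine ⟨W, h1, ?_⟩
  rintro _ ⟨u, rfl⟩
  exact h2 ⟨f u, rfl⟩

lemma InJ.nil {j : End P V} (hj : InJ j) : IsNilpotent j := by
  obtain ⟨W, h1, h2⟩ := hj
  haveI : Module.Finite P W := Module.Finite.iff_fg.2 h1
  have hW : ∀ u, j u ∈ W := fun u => Submodule.smul_le_right (h2 ⟨u, rfl⟩)
  let j' : End P W := j.restrict fun u _ => hW u
  obtain ⟨p, hp, -, hc, he⟩ :=
    LinearMap.exists_monic_and_natDegree_eq_and_coeff_mem_pow_and_aeval_eq_zero P j'
      (nilradical P) (by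
        rintro _ ⟨u, rfl⟩
        rw [Submodule.mem_smul_top_iff]
        exact h2 ⟨u, rfl⟩)
  have h3 : IsNilpotent (j' ^ p.natDegree) := by
    rw [aeval_eq_sum_range, Finset.sum_range_succ, hp.coeff_natDegree, one_smul,
      add_eq_zero_iff_neg_eq] at he
    rw [← he, isNilpotent_neg_iff]
    refine Commute.isNilpotent_sum (fun i hi => ?_) fun i k _ _ => ?_
    · have : IsNilpotent (p.coeff i) := mem_nilradical.1
        (Ideal.pow_le_self (by have := Finset.mem_range.1 hi; omega) (hc i))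
      obtain ⟨n, hn⟩ := this
      exact ⟨n, by rw [_root_.smul_pow, hn, zero_smul]⟩
    · exact ((Commute.pow_pow_self j' i k).smul_left _).smul_right _
  obtain ⟨n, hn⟩ := IsNilpotent.of_pow h3
  refine ⟨n + 1, LinearMap.ext fun u => ?_⟩
  have key : ∀ (m : ℕ) (y : W), ((j' ^ m) y : V) = (j ^ m) y := by
    intro m
    induction m with
    | zero => intro y; rfl
    | succ m ih => intro y; rw [pow_succ, pow_succ, End.mul_apply, End.mul_apply, ih]; rfl
  have := key n ⟨j u, hW u⟩
  rw [hn] at this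
  rw [pow_succ]
  exact this.symm

lemma InJ.pow_add {j : End P V} (g : End P V) (hj : InJ j) (n : ℕ) :
    InJ ((g + j) ^ n - g ^ n) := by
  induction n with
  | zero => simpa using InJ.zero
  | succ n ih =>
    have : (g + j) ^ (n + 1) - g ^ (n + 1) = ((g + j) ^ n - g ^ n) * g + (g + j) ^ n * j := by
      rw [pow_succ, pow_succ]; noncomm_ring
    rw [this]
    exact (ih.mul_right g).add (hj.mul_left _)

lemma InJ.nil_add {j g : End P V} (hg : IsNilpotent g) (hj : InJ j) : IsNilpotent (g + j) := by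
  obtain ⟨n, hn⟩ := hg
  have := (hj.pow_add g n).nil
  rw [hn, sub_zero] at this
  exact IsNilpotent.of_pow this

end ideal

variable (F : Type) [Field F]

abbrev P := (n : ℕ) → AdjoinRoot (X ^ (n + 1) : F[X])

noncomputable def t (n : ℕ) : P F := Pi.single n (AdjoinRoot.root _)

lemma t_nil (n : ℕ) : IsNilpotent (t F n) := by
  refine ⟨n + 1, ?_⟩
  have : AdjoinRoot.root (X ^ (n + 1) : F[X]) ^ (n + 1) = 0 := by
    rw [← AdjoinRoot.mk_X, ← map_pow, AdjoinRoot.mk_self]
  funext m
  by_cases h : m = n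
  · subst h
    rw [t, Pi.pow_apply, Pi.single_eq_same, this]; rfl
  · rw [t, Pi.pow_apply, Pi.single_eq_of_ne h, zero_pow (by omega)]; rfl

lemma t_pow (n : ℕ) : t F n ^ n ≠ 0 := fun h => by
  have := congrFun h n
  rw [t, Pi.pow_apply, Pi.single_eq_same, Pi.zero_apply, ← AdjoinRoot.mk_X, ← map_pow,
    AdjoinRoot.mk_eq_zero] at this
  have := natDegree_le_of_dvd this (pow_ne_zero _ X_ne_zero)
  simp at this

theorem main [Countable F] : ∃ (E : Type) (_ : Ring E) (_ : Algebra F E),
    ∀ (U : Type) [NonUnitalRing U] [Module F U] [Countable U],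
      (∀ u : U, ∃ H : ℕ, ∀ φ : U →ₙₐ[F] E, IsNilpotent (φ u) → φ u ^ H = 0) →
      ∃ B : NonUnitalSubalgebra F E, Countable B ∧ (∀ b ∈ B, IsNilpotent b) ∧
        ∀ φ : U →ₙₐ[F] E, (∀ u, φ u ∈ B) → ¬ ∀ b ∈ B, ∃ u, φ u = b := by
  obtain ⟨M, _, _, ρ, e, hM, hcyc, hnil⟩ := golod F
  refine ⟨End (P F) (P F ⊗[F] M), inferInstance, inferInstance, fun U _ _ _ hU => ?_⟩
  let lam : A F →ₐ[F] End (P F) (P F ⊗[F] M) := (End.baseChangeHom F (P F) M).comp ρ
  have lam_tmul : ∀ a p m, lam a (p ⊗ₜ m) = p ⊗ₜ ρ a m := fun a p m => rfl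
  -- an infinite independent family of words
  obtain ⟨b, hb1, hb2, hb3⟩ := exists_linearIndependent F
    (Set.range fun w : FreeMonoid (Fin 3) => ρ (MonoidAlgebra.single w 1) e)
  have hspan : Submodule.span F
      (Set.range fun w : FreeMonoid (Fin 3) => ρ (MonoidAlgebra.single w 1) e) = ⊤ := by
    rw [eq_top_iff]
    intro m _
    obtain ⟨a, rfl⟩ := hcyc m
    induction a using MonoidAlgebra.induction_linear with
    | zero => simp
    | add a a' h h' => rw [map_add]; exact Submodule.add_mem _ (h trivial) (h' trivial)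
    | single w c =>
      have : (MonoidAlgebra.single w c : A F) = c • MonoidAlgebra.single w 1 := by simp
      rw [this, map_smul]
      exact Submodule.smul_mem _ _ (Submodule.subset_span ⟨w, rfl⟩)
  haveI : Infinite b := by
    rw [Set.infinite_coe_iff]
    intro hfin
    exact hM ⟨⟨hfin.toFinset, by rw [hfin.coe_toFinset, hb2, hspan]⟩⟩
  obtain ⟨κ0, hκ0⟩ := exists_injective_nat (Option (Fin 3) → U)
  let κ : (Option (Fin 3) → U) → b := fun a => Infinite.natEmbedding b (κ0 a)
  have hκ : Function.Injective κ := (Infinite.natEmbedding b).injective.comp hκ0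
  choose w hw using fun a => hb1 (κ a).2
  have hli : LinearIndependent F fun a => ρ (MonoidAlgebra.single (w a) 1) e := by
    simp only [hw]
    exact hb3.comp κ hκ
  obtain ⟨g, hg⟩ := LinearMap.exists_leftInverse_of_injective
    (Finsupp.linearCombination F fun a => ρ (MonoidAlgebra.single (w a) 1) e)
    (LinearMap.ker_eq_bot.2 hli)
  let ev : (Option (Fin 3) → U) → U := fun a =>
    (w a).toList.foldl (fun u i => u * a (some i)) (a none)
  choose H hH using hU
  let γ : M →ₗ[F] P F := (Finsupp.linearCombination F fun a => t F (H (ev a) + 1)).comp g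
  have γw : ∀ a, γ (ρ (MonoidAlgebra.single (w a) 1) e) = t F (H (ev a) + 1) := by
    intro a
    have := LinearMap.congr_fun hg (Finsupp.single a 1)
    simp only [LinearMap.comp_apply, Finsupp.linearCombination_single, one_smul,
      LinearMap.id_apply] at this
    simp [γ, this]
  have γnil : ∀ m, γ m ∈ nilradical (P F) := by
    intro m
    simp only [γ, LinearMap.comp_apply, Finsupp.linearCombination_apply, Finsupp.sum]
    exact Submodule.sum_mem _ fun a _ =>
      Submodule.smul_of_tower_mem _ _ (mem_nilradical.2 (t_nil F _))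
  let l : P F ⊗[F] M →ₗ[P F] P F := γ.liftBaseChange (P F)
  have lnil : ∀ v, l v ∈ nilradical (P F) := by
    intro v
    induction v using TensorProduct.induction_on with
    | zero => simp
    | tmul p m => exact Submodule.smul_mem _ _ (γnil m)
    | add u v h h' => rw [map_add]; exact Submodule.add_mem _ h h'
  let z : End (P F) (P F ⊗[F] M) := l.smulRight (1 ⊗ₜ e)
  have zJ : InJ z := ⟨Submodule.span _ {1 ⊗ₜ e}, Submodule.fg_span_singleton _, by
    rintro _ ⟨u, rfl⟩
    exact Submodule.smul_mem_smul (lnil u) (Submodule.mem_span_singleton_self _)⟩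
  let B' : NonUnitalSubalgebra F (End (P F) (P F ⊗[F] M)) :=
    { carrier := {y | ∃ a ∈ J F 1, ∃ j, InJ j ∧ y = lam a + j}
      zero_mem' := ⟨0, Submodule.zero_mem _, 0, InJ.zero, by simp⟩
      add_mem' := by
        rintro _ _ ⟨a, ha, j, hj, rfl⟩ ⟨a', ha', j', hj', rfl⟩
        exact ⟨a + a', Submodule.add_mem _ ha ha', j + j', hj.add hj', by rw [map_add]; abel⟩
      mul_mem' := by
        rintro _ _ ⟨a, ha, j, hj, rfl⟩ ⟨a', ha', j', hj', rfl⟩
        exact ⟨a * a', J_right _ _ _ ha, lam a * j' + j * (lam a' + j'),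
          (hj'.mul_left _).add (hj.mul_right _), by rw [map_mul]; noncomm_ring⟩
      smul_mem' := by
        rintro c _ ⟨a, ha, j, hj, rfl⟩
        exact ⟨c • a, Submodule.smul_mem _ _ ha, algebraMap F _ c * j, hj.mul_left _,
          by rw [map_smul, smul_add, Algebra.smul_def c j]⟩ }
  let gen : Option (Fin 3) → End (P F) (P F ⊗[F] M) := fun o => o.elim z fun i => lam (x F i)
  let L := MonoidAlgebra.lift F (End (P F) (P F ⊗[F] M)) (FreeMonoid (Option (Fin 3)))
    (FreeMonoid.lift gen)
  haveI : Countable (MonoidAlgebra F (FreeMonoid (Option (Fin 3)))) :=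
    MonoidAlgebra.coeff_injective.countable
  have hnilB : ∀ y ∈ B', IsNilpotent y := by
    rintro _ ⟨a, ha, j, hj, rfl⟩
    exact hj.nil_add ((hnil a ha).map (End.baseChangeHom F (P F) M))
  refine ⟨B' ⊓ L.range.toNonUnitalSubalgebra, ?_, fun y hy => hnilB y hy.1, fun φ hφ hs => ?_⟩
  · exact ((Set.countable_range L).mono fun y hy => hy.2).to_subtype
  have hgen : ∀ o, gen o ∈ B' ⊓ L.range.toNonUnitalSubalgebra := by
    intro o
    refine ⟨?_, MonoidAlgebra.single (FreeMonoid.of o) 1, by simp [L]⟩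
    cases o with
    | none => exact ⟨0, Submodule.zero_mem _, z, zJ, by simp [gen]⟩
    | some i => exact ⟨x F i, x_mem i, 0, InJ.zero, by simp [gen]⟩
  choose a ha using fun o => hs _ (hgen o)
  have hev : ∀ (s : List (Fin 3)) (u : U), φ (s.foldl (fun u i => u * a (some i)) u) =
      φ u * lam (MonoidAlgebra.single (FreeMonoid.ofList s) 1) := by
    intro s
    induction s with
    | nil => intro u; simp [← MonoidAlgebra.one_def]
    | cons i s ih =>
      intro u
      rw [List.foldl_cons, ih, map_mul, ha, mul_assoc]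
      congr 1
      simp only [gen, Option.elim_some, x]
      rw [← map_mul, MonoidAlgebra.single_mul_single, mul_one, FreeMonoid.ofList_cons]
  have h1 : φ (ev a) = z * lam (MonoidAlgebra.single (w a) 1) := by
    simp only [ev]
    rw [hev, ha]; rfl
  have h2 := hH (ev a) φ (hnilB _ (hφ _).1)
  have h3 : ∀ n, (φ (ev a) ^ n) (1 ⊗ₜ e) = t F (H (ev a) + 1) ^ n • (1 ⊗ₜ e) := by
    intro n
    induction n with
    | zero => simp
    | succ n ih =>
      rw [pow_succ', End.mul_apply, ih, map_smul, h1, End.mul_apply, lam_tmul, pow_succ, mul_smul]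
      congr 1
      simp [z, l, γw]
  have h4 := congrArg (fun v => l (lam (MonoidAlgebra.single (w a) 1) v)) (h3 (H (ev a)))
  simp only [h2, LinearMap.zero_apply, map_zero, map_smul, lam_tmul] at h4
  apply t_pow F (H (ev a) + 1)
  rw [pow_succ, h4]
  simp [l, γw]

end Pool.Agent.H64.NilWreath
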