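import Pool.Agent.H65.FreeBasic

set_option autoImplicit false

namespace Pool.Agent.H64.OneRel

open scoped commutatorElement MatrixGroups
open Subgroup

theorem exists_psi {Q : Type} [Group Q] {a w : Q} (h : orderOf a = orderOf w) :
    ∃ ψ : zpowers a ≃* zpowers w, ψ ⟨a, mem_zpowers a⟩ = ⟨w, mem_zpowers w⟩ := by
  have key : ∀ (a : Q) (x : zpowers a), x ∈ zpowers (⟨a, mem_zpowers a⟩ : zpowers a) :=
    fun a ⟨_, n, rfl⟩ => ⟨n, rfl⟩
  exact ⟨mulEquivOfOrderOfEq (key a) (key w) (by simpa using h), by simp⟩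

theorem reps {Q J I : Type} [Group Q] (A : Subgroup Q) (x : I → Q × J)
    (hx : Function.Injective fun i => (((x i).1 : Q ⧸ A), (x i).2)) :
    ∃ E : ((Q ⧸ A) × J) × A ≃ Q × J, (∀ o a b, E (o, a * b) = ((E (o, a)).1 * b, (E (o, a)).2)) ∧
      ∀ i, E ((((x i).1 : Q ⧸ A), (x i).2), 1) = x i := by
  classical
  obtain ⟨r, h1, h2⟩ : ∃ r : (Q ⧸ A) × J → Q, (∀ o, (r o : Q ⧸ A) = o.1) ∧
      ∀ i, r (((x i).1 : Q ⧸ A), (x i).2) = (x i).1 := by
    refine ⟨Function.extend (fun i => (((x i).1 : Q ⧸ A), (x i).2)) (fun i => (x i).1)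
      fun o => o.1.out, fun o => ?_, fun i => hx.extend_apply _ _ i⟩
    by_cases h : ∃ i, (((x i).1 : Q ⧸ A), (x i).2) = o
    · obtain ⟨i, rfl⟩ := h
      rw [hx.extend_apply]
    · rw [Function.extend_apply' _ _ _ h]; simp
  refine ⟨⟨fun p => (r p.1 * p.2, p.1.2), fun q => (((q.1 : Q ⧸ A), q.2),
    ⟨(r ((q.1 : Q ⧸ A), q.2))⁻¹ * q.1, QuotientGroup.eq.1 (h1 _)⟩), ?_, ?_⟩, ?_, ?_⟩
  · rintro ⟨⟨o, j⟩, a⟩
    have : ((r (o, j) * a : Q) : Q ⧸ A) = o := by rw [QuotientGroup.mk_mul_of_mem _ a.2, h1]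
    simp [this]
  · rintro ⟨q, j⟩; simp
  · intro o a b; simp [mul_assoc]
  · intro i; simp [h2]

theorem extend {Q J I : Type} [Group Q] [Finite Q] [Finite J] [Finite I] {a w : Q}
    (h : orderOf a = orderOf w) (x y : I → Q × J)
    (hx : Function.Injective fun i => (((x i).1 : Q ⧸ zpowers a), (x i).2))
    (hy : Function.Injective fun i => (((y i).1 : Q ⧸ zpowers w), (y i).2)) :
    ∃ τ : Equiv.Perm (Q × J), (∀ p : Q × J, τ (p.1 * a⁻¹, p.2) = ((τ p).1 * w⁻¹, (τ p).2)) ∧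
      ∀ i, τ (x i) = y i := by
  obtain ⟨ψ, hψ⟩ := exists_psi h
  obtain ⟨EA, a1, a2⟩ := reps _ x hx
  obtain ⟨EB, b1, b2⟩ := reps _ y hy
  have hc : Nat.card (Q ⧸ zpowers a) = Nat.card (Q ⧸ zpowers w) := by
    have h1 := card_eq_card_quotient_mul_card_subgroup (zpowers a)
    have h2 := card_eq_card_quotient_mul_card_subgroup (zpowers w)
    rw [Nat.card_zpowers] at h1 h2
    exact Nat.eq_of_mul_eq_mul_right (orderOf_pos w) (by rw [← h2, ← h, ← h1])
  obtain ⟨e⟩ := Finite.card_eq.1 hc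
  obtain ⟨σ, hσ⟩ := Equiv.Perm.exists_extending_pair _ _
    ((e.prodCongr (Equiv.refl J)).injective.comp hx) hy
  refine ⟨EA.symm.trans ((((e.prodCongr (Equiv.refl J)).trans σ).prodCongr ψ.toEquiv).trans EB),
    fun p => ?_, fun i => ?_⟩
  · obtain ⟨⟨o, c⟩, rfl⟩ := EA.surjective p
    have := a1 o c (⟨a, mem_zpowers a⟩ : zpowers a)⁻¹
    simp only [coe_inv] at this
    rw [← this]
    simp only [Equiv.trans_apply, Equiv.symm_apply_apply, Equiv.prodCongr_apply, Prod.map_apply,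
      MulEquiv.toEquiv_eq_coe, MulEquiv.coe_toEquiv, map_mul, map_inv, hψ, b1, coe_inv]
  · rw [← a2 i, ← b2 i, ← hσ i]
    simp

/-- reduction -/
def red (n : ℕ) : SL(2, ℤ) →* SL(2, ZMod n) := Matrix.SpecialLinearGroup.map (Int.castRingHom _)

theorem red_eq_one (n : ℕ) (M : SL(2, ℤ)) :
    red n M = 1 ↔ ∀ i j, (n : ℤ) ∣ ((M : Matrix (Fin 2) (Fin 2) ℤ) - 1) i j := by
  simp only [← ZMod.intCast_zmod_eq_zero_iff_dvd, Matrix.SpecialLinearGroup.ext_iff, red]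
  refine forall_congr' fun i => forall_congr' fun j => ?_
  simp [Matrix.one_apply, sub_eq_zero]

theorem lift5 (N X : Matrix (Fin 2) (Fin 2) ℤ) (h : N = 1 + (5 : ℤ) • X) (j : ℕ) :
    ∃ Y, N ^ 5 ^ j = 1 + (5 : ℤ) ^ (j + 1) • (X + (5 : ℤ) • Y) := by
  induction j with
  | zero => exact ⟨0, by simp [h]⟩
  | succ j ih =>
    obtain ⟨Y, hY⟩ := ih
    rw [pow_succ, pow_mul, hY]
    generalize hZ : X + (5 : ℤ) • Y = Z
    refine ⟨Y + ((2 * 5 ^ j : ℤ) • (Z * Z) + (10 * (5 ^ j) ^ 2 : ℤ) • (Z * (Z * Z)) +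
      (25 * (5 ^ j) ^ 3 : ℤ) • (Z * (Z * (Z * Z))) +
      (25 * (5 ^ j) ^ 4 : ℤ) • (Z * (Z * (Z * (Z * Z))))), ?_⟩
    rw [smul_add (5 : ℤ) Y, ← add_assoc X, hZ]
    simp only [pow_succ _ 4, pow_succ _ 3, pow_succ _ 2, pow_two, mul_add, add_mul, one_mul, mul_one,
      smul_mul_assoc, mul_smul_comm, mul_assoc, pow_succ (5 : ℤ)]
    module

theorem ord (M : SL(2, ℤ)) (X : Matrix (Fin 2) (Fin 2) ℤ)
    (h : ((M ^ 6 : SL(2, ℤ)) : Matrix (Fin 2) (Fin 2) ℤ) = 1 + (5 : ℤ) • X) (hX : ¬ 5 ∣ X 0 0)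
    (h6 : orderOf (red 5 M) = 6) (k : ℕ) : orderOf (red (5 ^ (k + 2)) M) = 6 * 5 ^ (k + 1) := by
  have : Fact (Nat.Prime 5) := ⟨by norm_num⟩
  have h1 : orderOf (red (5 ^ (k + 2)) M ^ 6) = 5 ^ (k + 1) := by
    refine orderOf_eq_prime_pow ?_ ?_
    · rw [← map_pow, ← map_pow, red_eq_one, Matrix.SpecialLinearGroup.coe_pow]
      obtain ⟨Y, hY⟩ := lift5 _ _ h k
      intro hd
      obtain ⟨c, hc⟩ := hd 0 0
      rw [hY, add_sub_cancel_left] at hc
      simp only [Matrix.smul_apply, Matrix.add_apply, smul_eq_mul] at hc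
      push_cast at hc
      rw [pow_succ _ (k + 1), mul_assoc] at hc
      have := mul_left_cancel₀ (by positivity) hc
      exact hX ⟨c - Y 0 0, by omega⟩
    · rw [← map_pow, ← map_pow, red_eq_one, Matrix.SpecialLinearGroup.coe_pow]
      obtain ⟨Y, hY⟩ := lift5 _ _ h (k + 1)
      intro i j
      rw [hY, add_sub_cancel_left]
      exact ⟨(X + (5 : ℤ) • Y) i j, by simp⟩
  have h2 : 6 ∣ orderOf (red (5 ^ (k + 2)) M) := by
    rw [← h6, orderOf_dvd_iff_pow_eq_one, ← map_pow, red_eq_one]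
    have := pow_orderOf_eq_one (red (5 ^ (k + 2)) M)
    rw [← map_pow, red_eq_one] at this
    exact fun i j => Dvd.dvd.trans (by push_cast; exact dvd_pow_self _ (by omega)) (this i j)
  rw [orderOf_pow_of_dvd (by norm_num) h2] at h1
  rw [← h1, Nat.mul_div_cancel' h2]

theorem sep (M : SL(2, ℤ)) (hM : M ≠ 1) : ∀ᶠ k in Filter.atTop, red (5 ^ (k + 2)) M ≠ 1 := by
  obtain ⟨i, j, h⟩ : ∃ i j, ((M : Matrix (Fin 2) (Fin 2) ℤ) - 1) i j ≠ 0 := by
    by_contra h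
    push Not at h
    exact hM (Subtype.ext (sub_eq_zero.1 (Matrix.ext h)))
  filter_upwards [Filter.eventually_ge_atTop (((M : Matrix (Fin 2) (Fin 2) ℤ) - 1) i j).natAbs]
    with k hk h1
  have h2 := Int.natAbs_le_of_dvd_ne_zero ((red_eq_one _ _).1 h1 i j) h
  have h3 : k + 2 < 5 ^ (k + 2) := Nat.lt_pow_self (by norm_num)
  rw [Int.natAbs_natCast] at h2
  omega

/-- unrestricted lamplighter over `ℤ` -/
@[ext] structure LW where
  k : ℤ
  f : ℤ → ℤ

instance : Mul LW := ⟨fun p q => ⟨p.k + q.k, fun i => p.f i + q.f (i - p.k)⟩⟩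
instance : One LW := ⟨⟨0, fun _ => 0⟩⟩
instance : Inv LW := ⟨fun p => ⟨-p.k, fun i => -p.f (i + p.k)⟩⟩
@[simp] theorem mul_k (p q : LW) : (p * q).k = p.k + q.k := rfl
@[simp] theorem mul_f (p q : LW) (i : ℤ) : (p * q).f i = p.f i + q.f (i - p.k) := rfl
@[simp] theorem one_k : (1 : LW).k = 0 := rfl
@[simp] theorem one_f (i : ℤ) : (1 : LW).f i = 0 := rfl
@[simp] theorem inv_k (p : LW) : (p⁻¹).k = -p.k := rfl
@[simp] theorem inv_f (p : LW) (i : ℤ) : (p⁻¹).f i = -p.f (i + p.k) := rfl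

instance : Group LW := Group.ofLeftAxioms
  (fun p q r => by ext <;> simp [add_assoc, sub_sub]) (fun p => by ext <;> simp)
  (fun p => by ext <;> simp)

theorem zpow_k (g : LW) (n : ℤ) : (g ^ n).k = n * g.k := by
  induction n with
  | zero => simp
  | succ n ih => rw [zpow_add_one, mul_k, ih]; ring
  | pred n ih => rw [zpow_sub_one, mul_k, ih, inv_k]; ring

theorem zpow_f (g : LW) (h : g.k = 0) (n i : ℤ) : (g ^ n).f i = n * g.f i := by
  induction n with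
  | zero => simp
  | succ n ih => rw [zpow_add_one, mul_f, ih, zpow_k, h]; simp; ring
  | pred n ih => rw [zpow_sub_one, mul_f, ih, inv_f, zpow_k, h]; simp; ring

/-- free group -/
abbrev F := FreeGroup (Fin 2)
/-- first element -/
def u : F := .of 0 * .of 1
/-- second element -/
def w : F := ⁅u, FreeGroup.of 1 * u * (FreeGroup.of 1)⁻¹⁆

/-- lamp -/
def lb : LW := ⟨0, fun i => if i = 0 then 1 else 0⟩
/-- test map -/
def χ : F →* LW := FreeGroup.lift ![⟨1, fun _ => 0⟩ * lb⁻¹, lb]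

theorem χu : (χ u).k = 1 := by simp [χ, u, lb]
theorem χw : (χ w).k = 0 ∧ (χ w).f 0 = -1 := by
  simp [χ, w, u, lb, commutatorElement_def]

theorem cent {v : F} (hv : ∀ (z : F) (n : ℤ), v = z ^ n → IsUnit n) {g : F} (h : ⁅g, v⁆ = 1) :
    g ∈ zpowers v := by
  obtain ⟨z, p, q, rfl, h2⟩ := H65.FreeBasic.comm_root (commutatorElement_eq_one_iff_mul_comm.1 h)
  rcases Int.isUnit_iff.1 (hv z q h2) with rfl | rfl
  · exact ⟨p, by simp [h2]⟩
  · exact ⟨-p, by simp [h2]⟩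

theorem u_prim (z : F) (n : ℤ) (h : u = z ^ n) : IsUnit n := by
  have := χu
  rw [h, map_zpow, zpow_k] at this
  exact IsUnit.of_mul_eq_one _ this

theorem w_prim (z : F) (n : ℤ) (h : w = z ^ n) : IsUnit n := by
  obtain ⟨h1, h2⟩ := χw
  rw [h, map_zpow] at h1 h2
  rw [zpow_k, mul_eq_zero] at h1
  rcases h1 with rfl | h1
  · simp at h2
  · rw [zpow_f _ h1] at h2
    exact IsUnit.of_mul_eq_one (-(χ z).f 0) (by rw [mul_neg, h2, neg_neg])

/-- finite quotients -/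
def π (k : ℕ) : F →* SL(2, ZMod (5 ^ (k + 2))) := (red _).comp H65.Sanov.rho

theorem rho_u : H65.Sanov.rho u = ⟨!![5, 2; 2, 1], by decide⟩ := by
  simp only [u, map_mul, H65.Sanov.rho, FreeGroup.lift_apply_of]; decide

theorem rho_w : H65.Sanov.rho w = ⟨!![-319, 144; -144, 65], by decide⟩ := by
  simp only [w, map_commutatorElement, map_mul, map_inv, rho_u]
  simp only [H65.Sanov.rho, FreeGroup.lift_apply_of]; decide

theorem π_ord (k : ℕ) : orderOf (π k u) = orderOf (π k w) := by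
  simp only [π, MonoidHom.comp_apply, rho_u, rho_w]
  rw [ord _ !![6692, 2772; 2772, 1148] (by decide +kernel) (by decide)
      ((orderOf_eq_iff (by norm_num)).2 (by decide +kernel)),
    ord _ !![67446120627072, -30446273477664; 30446273477664, -13743941980032] (by decide +kernel)
      (by decide) ((orderOf_eq_iff (by norm_num)).2 (by decide +kernel))]

theorem π_sep {g : F} (h : g ≠ 1) : ∀ᶠ k in Filter.atTop, π k g ≠ 1 :=
  sep _ fun h1 => h (H65.Sanov.rho_injective (h1.trans (map_one _).symm))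

theorem π_sep' {v : F} (hv : ∀ (z : F) (n : ℤ), v = z ^ n → IsUnit n) (g : F) :
    ∀ᶠ k in Filter.atTop, π k g ∈ zpowers (π k v) → g ∈ zpowers v := by
  by_cases h : ⁅g, v⁆ = 1
  · exact .of_forall fun _ _ => cent hv h
  · filter_upwards [π_sep h] with k hk ⟨n, hn⟩
    refine (hk ?_).elim
    rw [map_commutatorElement, ← hn, commutatorElement_eq_one_iff_commute]
    exact (Commute.refl _).zpow_left n

end Pool.Agent.H64.OneRel
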