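import Pool.Agent.H64.OneRel1

set_option autoImplicit false

namespace Pool.Agent.H64.OneRel

open scoped commutatorElement MatrixGroups
open Subgroup HNNExtension

/-- inclusion of free groups -/
def j : F →* FreeGroup (Fin 3) := FreeGroup.map Fin.castSucc
/-- the relator -/
def r : FreeGroup (Fin 3) := .of 2 * j u * (FreeGroup.of 2)⁻¹ * (j w)⁻¹
/-- the one-relator group -/
abbrev P := PresentedGroup ({r} : Set (FreeGroup (Fin 3)))
/-- base map -/
def ι : F →* P := (PresentedGroup.mk _).comp j
/-- stable letter -/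
def T : P := PresentedGroup.of 2

theorem rel : T * ι u * T⁻¹ = ι w := by
  have : PresentedGroup.mk {r} r = 1 := PresentedGroup.one_of_mem rfl
  rw [r, map_mul, map_inv, mul_inv_eq_one, map_mul, map_mul, map_inv] at this
  exact this

theorem exists_lift {H : Type} [Group H] (f : F →* H) (x : H) (h : x * f u * x⁻¹ = f w) :
    ∃ θ : P →* H, (∀ g, θ (ι g) = f g) ∧ θ T = x := by
  have h1 : (FreeGroup.lift ![f (.of 0), f (.of 1), x]).comp j = f := by
    ext i; fin_cases i <;> simp [j]
  have h2 : ∀ g, FreeGroup.lift ![f (.of 0), f (.of 1), x] (j g) = f g := DFunLike.congr_fun h1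
  refine ⟨PresentedGroup.toGroup (f := ![f (.of 0), f (.of 1), x]) ?_, fun g => h2 g,
    PresentedGroup.toGroup.of _⟩
  rintro _ rfl
  simp [r, h2, h]

theorem u_ne : u ≠ 1 := fun h => by have := χu; simp [h] at this
theorem w_ne : w ≠ 1 := fun h => by have := χw.2; simp [h] at this

theorem ord_uw : orderOf u = orderOf w := by
  rw [orderOf_eq_zero (not_isOfFinOrder_of_isMulTorsionFree u_ne),
    orderOf_eq_zero (not_isOfFinOrder_of_isMulTorsionFree w_ne)]

theorem nf (g : P) : ∃ (h : F) (l : List (ℤˣ × F)),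
    l.IsChain (fun a b => a.2 ∈ toSubgroup (zpowers u) (zpowers w) a.1 → a.1 = b.1) ∧
    g = ι h * (l.map fun x => T ^ (x.1 : ℤ) * ι x.2).prod := by
  obtain ⟨φ, hφ⟩ := exists_psi ord_uw
  let κ : HNNExtension F _ _ φ →* P := HNNExtension.lift ι T (by
    rintro ⟨_, n, rfl⟩
    have : (⟨u ^ n, n, rfl⟩ : zpowers u) = ⟨u, mem_zpowers u⟩ ^ n := rfl
    rw [this, map_zpow, hφ]
    simp only [SubgroupClass.coe_zpow, map_zpow, ← rel, conj_zpow, inv_mul_cancel_right])
  have hs : g ∈ κ.range := by
    refine PresentedGroup.generated_by _ _ (fun i => ?_) g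
    fin_cases i
    · exact ⟨of (.of 0), by simp [κ, ι, j]; rfl⟩
    · exact ⟨of (.of 1), by simp [κ, ι, j]; rfl⟩
    · exact ⟨t, by simp [κ, T]⟩
  obtain ⟨x, rfl⟩ := hs
  obtain ⟨d⟩ := NormalWord.TransversalPair.nonempty F (zpowers u) (zpowers w)
  obtain ⟨v, rfl⟩ := (NormalWord.equiv φ d).symm.surjective x
  refine ⟨v.head, v.toList, v.chain, ?_⟩
  show κ (v.prod φ) = _
  simp [NormalWord.ReducedWord.prod, map_list_prod, κ, Function.comp_def]

/-- right translation action -/
def act {Q : Type} [Group Q] (J : Type) : Q →* Equiv.Perm (Q × J) where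
  toFun q := (Equiv.mulRight q⁻¹).prodCongr (Equiv.refl J)
  map_one' := by ext <;> simp
  map_mul' a b := by ext <;> simp [mul_assoc]

theorem act_apply {Q : Type} [Group Q] {J : Type} (q : Q) (p : Q × J) :
    act J q p = (p.1 * q⁻¹, p.2) := rfl

theorem inj_aux {Q : Type} [Group Q] (A : Subgroup Q) {L : ℕ} (c : Fin L → Prop) [DecidablePred c]
    (g : Fin L → Q) (h : ∀ i i' : Fin L, (i : ℕ) + 1 = i' → c i → ¬ c i' → g i ∉ A) :
    Function.Injective fun i => ((((if c i then ((g i)⁻¹, i.succ) else (1, i.castSucc)) :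
      Q × Fin (L + 1)).1 : Q ⧸ A),
      ((if c i then ((g i)⁻¹, i.succ) else (1, i.castSucc)) : Q × Fin (L + 1)).2) := by
  intro i i' e
  simp only [Prod.mk.injEq, Fin.ext_iff] at e
  obtain ⟨e1, e2⟩ := e
  by_cases h1 : c i <;> by_cases h2 : c i' <;>
    simp only [h1, h2, if_true, if_false, Fin.val_succ, Fin.val_castSucc] at e1 e2
  · exact Fin.ext (by omega)
  · exact absurd (by simpa using QuotientGroup.eq.1 e1) (h i i' e2 h1 h2)
  · exact absurd (by simpa using QuotientGroup.eq.1 e1.symm) (h i' i e2.symm h2 h1)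
  · exact Fin.ext e2

theorem detect (h : F) (l : List (ℤˣ × F))
    (hl : l.IsChain fun a b => a.2 ∈ toSubgroup (zpowers u) (zpowers w) a.1 → a.1 = b.1)
    (hne : h ≠ 1 ∨ l ≠ []) : ∃ N : Subgroup P, N.Normal ∧ N.FiniteIndex ∧
      ι h * (l.map fun x => T ^ (x.1 : ℤ) * ι x.2).prod ∉ N := by
  have e1 : ∀ᶠ k in Filter.atTop, π k h = 1 → h = 1 := by
    by_cases hh : h = 1
    · exact .of_forall fun _ _ => hh
    · exact (π_sep hh).mono fun k hk h1 => absurd h1 hk
  have e2 := Filter.eventually_all.2 fun i : Fin l.length => π_sep' u_prim l[i].2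
  have e3 := Filter.eventually_all.2 fun i : Fin l.length => π_sep' w_prim l[i].2
  obtain ⟨k, h1, h2, h3⟩ := (e1.and (e2.and e3)).exists
  have hc : ∀ i i' : Fin l.length, (i : ℕ) + 1 = i' →
      l[i].2 ∈ toSubgroup (zpowers u) (zpowers w) l[i].1 → l[i].1 = l[i'].1 := fun i i' e => by
    have := List.isChain_iff_getElem.1 hl i (by omega)
    simpa only [e, Fin.getElem_fin] using this
  obtain ⟨τ, t1, t2⟩ := extend (π_ord k) _ _
    (inj_aux (zpowers (π k u)) (fun i : Fin l.length => l[i].1 = 1) (fun i => π k l[i].2)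
      fun i i' e a b c => b ((hc i i' e (by rw [a]; exact h2 i c)).symm.trans a))
    (inj_aux (zpowers (π k w)) (fun i : Fin l.length => l[i].1 = -1) (fun i => π k l[i].2)
      fun i i' e a b c => b ((hc i i' e (by rw [a]; exact h3 i c)).symm.trans a))
  obtain ⟨θ, θ1, θ2⟩ := exists_lift ((act (Fin (l.length + 1))).comp (π k)) τ (by
    rw [mul_inv_eq_iff_eq_mul]; ext1 p; exact t1 p)
  have key : ∀ c : Fin (l.length + 1),
      θ ((l.drop c).map fun x => T ^ (x.1 : ℤ) * ι x.2).prod (1, Fin.last _) = (1, c) := by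
    intro c
    induction c using Fin.reverseInduction with
    | last => simp
    | cast i ih =>
      rw [Fin.val_castSucc, List.drop_eq_getElem_cons i.2, List.map_cons, List.prod_cons, map_mul,
        map_mul, Equiv.Perm.mul_apply, Equiv.Perm.mul_apply]
      rw [Fin.val_succ] at ih
      rw [ih, θ1, map_zpow, θ2, MonoidHom.comp_apply, act_apply, one_mul]
      have := t2 i
      rcases Int.units_eq_one_or l[i].1 with e | e
      · simp only [e, if_true, if_neg (by decide : ¬ (1 : ℤˣ) = -1)] at this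
        simp only [Fin.getElem_fin] at e this
        simpa [e] using this
      · simp only [e, if_true, if_neg (by decide : ¬ (-1 : ℤˣ) = 1)] at this
        simp only [Fin.getElem_fin] at e this
        simp [e, ← this]
  refine ⟨θ.ker, inferInstance, inferInstance, fun hk => ?_⟩
  have h4 := congrArg (fun σ : Equiv.Perm _ => σ (1, Fin.last _)) (MonoidHom.mem_ker.1 hk)
  have h5 := key 0
  simp only [Fin.val_zero, List.drop_zero] at h5
  simp only [map_mul, Equiv.Perm.mul_apply, h5, θ1, MonoidHom.comp_apply, act_apply, one_mul,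
    Equiv.Perm.one_apply, Prod.mk.injEq, inv_eq_one, Fin.ext_iff, Fin.val_zero, Fin.val_last] at h4
  rcases hne with a | a
  · exact a (h1 h4.1)
  · exact a (List.length_eq_zero_iff.1 h4.2.symm)

theorem resfin (g : P) (hg : g ≠ 1) : ∃ N : Subgroup P, N.Normal ∧ N.FiniteIndex ∧ g ∉ N := by
  obtain ⟨h, l, hl, rfl⟩ := nf g
  refine detect h l hl ?_
  by_contra hn
  push Not at hn
  simp [hn.1, hn.2] at hg

theorem ιu_ne : ι u ≠ 1 := by
  obtain ⟨N, -, -, h⟩ := detect u [] List.isChain_nil (Or.inl u_ne)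
  intro e
  simp [e] at h

theorem ιu_mem (k : ℕ) : ι u ∈ derivedSeries P k := by
  induction k with
  | zero => trivial
  | succ k ih =>
    have h1 : ι w ∈ derivedSeries P (k + 1) := by
      rw [w, map_commutatorElement, map_mul, map_mul, map_inv]
      exact commutator_mem_commutator ih ((derivedSeries_normal P k).conj_mem _ ih _)
    have := (derivedSeries_normal P (k + 1)).conj_mem _ h1 T⁻¹
    rw [← rel] at this
    simpa [mul_assoc] using this

end Pool.Agent.H64.OneRel
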