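import Mathlib

/-! A soluble group of labelled binary trees, one tree for each integer, with triangular action. -/

set_option autoImplicit false

namespace Pool.Agent.H64.Ord

abbrev Om := ℤ × List Bool × Bool

def par (n : ℤ) : Bool := decide (n % 2 = 1)
def sg (n : ℤ) : ℤ := if n % 2 = 0 then 1 else -1

lemma par_congr {a b : ℤ} (h : a % 2 = b % 2) : par a = par b := by simp [par, h]
lemma sg_congr {a b : ℤ} (h : a % 2 = b % 2) : sg a = sg b := by simp [sg, h]
lemma sg_cases (a : ℤ) : sg a = 1 ∨ sg a = -1 := by unfold sg; split_ifs <;> simp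
lemma sg_mod (e n : ℤ) : (sg e * n) % 2 = n % 2 := by
  rcases sg_cases e with h | h <;> rw [h] <;> omega
lemma sg_add (a b : ℤ) : sg (a + b) = sg a * sg b := by
  unfold sg; split_ifs <;> omega
lemma par_add (a b : ℤ) : par (a + b) = (par a ^^ par b) := by
  unfold par
  rcases Int.emod_two_eq_zero_or_one a with h | h <;> rcases Int.emod_two_eq_zero_or_one b with h' | h' <;>
    simp [h, h', Int.add_emod]
lemma sg_even {a : ℤ} (h : a % 2 = 0) : sg a = 1 := by simp [sg, h]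
lemma par_even {a : ℤ} (h : a % 2 = 0) : par a = false := by simp [par, h]
lemma sg_sq (a : ℤ) : sg a * sg a = 1 := by rcases sg_cases a with h | h <;> rw [h] <;> rfl

def iact (φ : List Bool → ℤ) : List Bool → List Bool
  | [] => []
  | c :: p => (c ^^ par (φ p)) :: iact φ p

def jact (φ : List Bool → ℤ) : List Bool → List Bool
  | [] => []
  | c :: p => (c ^^ par (φ (jact φ p))) :: jact φ p

@[simp] lemma iact_len (φ : List Bool → ℤ) (x : List Bool) : (iact φ x).length = x.length := by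
  induction x with
  | nil => rfl
  | cons c p ih => simp [iact, ih]

@[simp] lemma jact_len (φ : List Bool → ℤ) (x : List Bool) : (jact φ x).length = x.length := by
  induction x with
  | nil => rfl
  | cons c p ih => simp [jact, ih]

@[simp] lemma iact_jact (φ : List Bool → ℤ) (x : List Bool) : iact φ (jact φ x) = x := by
  induction x with
  | nil => rfl
  | cons c p ih => simp [iact, jact, ih]

@[simp] lemma jact_iact (φ : List Bool → ℤ) (x : List Bool) : jact φ (iact φ x) = x := by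
  induction x with
  | nil => rfl
  | cons c p ih => simp [iact, jact, ih]

lemma iact_inj (φ : List Bool → ℤ) {x y : List Bool} (h : iact φ x = iact φ y) : x = y := by
  rw [← jact_iact φ x, h, jact_iact]

lemma iact_comp {ψ φ φ' : List Bool → ℤ} (h : ∀ p, ψ p % 2 = (φ p + φ' (iact φ p)) % 2) (x : List Bool) :
    iact ψ x = iact φ' (iact φ x) := by
  induction x with
  | nil => rfl
  | cons c p ih => simp [iact, ih, par_congr (h p), par_add]

lemma iact_congr {ψ φ : List Bool → ℤ} (x : List Bool) (h : ∀ p : List Bool, p.length < x.length → ψ p % 2 = φ p % 2) :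
    iact ψ x = iact φ x := by
  induction x with
  | nil => rfl
  | cons c p ih =>
    simp only [iact]
    rw [ih fun q hq => h q (by simp; omega), par_congr (h p (by simp))]

lemma iact_triv {φ : List Bool → ℤ} (x : List Bool) (h : ∀ p : List Bool, p.length < x.length → φ p % 2 = 0) :
    iact φ x = x := by
  induction x with
  | nil => rfl
  | cons c p ih =>
    simp only [iact]
    rw [ih fun q hq => h q (by simp; omega), par_even (h p (by simp))]; simp

lemma sum_mod {α : Type} (s : Finset α) (f g : α → ℤ) (h : ∀ x ∈ s, f x % 2 = g x % 2) :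
    (∑ x ∈ s, f x) % 2 = (∑ x ∈ s, g x) % 2 := by
  rw [Finset.sum_int_mod, Finset.sum_int_mod s 2 g, Finset.sum_congr rfl h]

variable (r : ℕ)

noncomputable def lvl : Finset (List Bool) := (List.finite_length_eq Bool r).toFinset

@[simp] lemma mem_lvl (x : List Bool) : x ∈ lvl r ↔ x.length = r := by simp [lvl]

noncomputable def chi (f : Om → ℤ) (b : ℤ) : ℤ := ∑ x ∈ lvl r, f (b, x, true)

def lab (f : Om → ℤ) (b : ℤ) (p : List Bool) : ℤ := f (b, p, false)

noncomputable def ex (f : Om → ℤ) (ω : Om) : ℤ :=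
  chi r f (ω.1 + 1) + if ω.2.2 = true then f (ω.1, ω.2.1, false) else 0

def shape (ω : Om) : Prop := ω.2.1.length ≤ r ∧ (ω.2.2 = true → ω.2.1.length = r)

def lev (ω : Om) : ℤ := ω.1 * (r + 2) - ω.2.1.length - if ω.2.2 = true then 1 else 0

lemma lev_F (b : ℤ) (x : List Bool) : lev r (b, x, false) = b * (r + 2) - x.length := by simp [lev]
lemma lev_T (b : ℤ) (x : List Bool) : lev r (b, x, true) = b * (r + 2) - x.length - 1 := by simp [lev]
lemma lev_le (b : ℤ) (x : List Bool) (τ : Bool) : lev r (b, x, τ) ≤ b * (r + 2) - x.length := by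
  cases τ
  · rw [lev_F]
  · rw [lev_T]; omega

@[ext] structure Gam where
  f : Om → ℤ
  k : ℤ
  bd : ∃ N : ℤ, ∀ ω : Om, N < |ω.1| → f ω = 0
  sh : ∀ ω : Om, ¬ shape r ω → f ω = 0

variable {r}

def mv (γ : Gam r) (ω : Om) : Om := (ω.1 - γ.k, iact (lab γ.f ω.1) ω.2.1, ω.2.2)

def um (γ : Gam r) (ω : Om) : Om := (ω.1 + γ.k, jact (lab γ.f (ω.1 + γ.k)) ω.2.1, ω.2.2)

lemma um_mv (γ : Gam r) (ω : Om) : um γ (mv γ ω) = ω := by simp [um, mv]
lemma mv_um (γ : Gam r) (ω : Om) : mv γ (um γ ω) = ω := by simp [um, mv]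

lemma shape_mv (γ : Gam r) (ω : Om) : shape r (mv γ ω) ↔ shape r ω := by simp [shape, mv]
lemma shape_um (γ : Gam r) (ω : Om) : shape r (um γ ω) ↔ shape r ω := by simp [shape, um]
lemma lev_mv (γ : Gam r) (ω : Om) : lev r (mv γ ω) = lev r ω - γ.k * (r + 2) := by
  obtain ⟨b, x, τ⟩ := ω
  cases τ <;> simp only [mv, lev_F, lev_T, iact_len] <;> ring

noncomputable def act {R : Type} [CommRing R] (γ : Gam r) (φ : Om → R) (ω : Om) : R :=
  (sg (ex r γ.f ω) : R) * φ (mv γ ω)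

noncomputable instance : Mul (Gam r) := ⟨fun γ δ =>
  { f := fun ω => γ.f ω + act γ δ.f ω
    k := γ.k + δ.k
    bd := by
      obtain ⟨N, hN⟩ := γ.bd
      obtain ⟨M, hM⟩ := δ.bd
      refine ⟨max N (M + |γ.k|), fun ω h => ?_⟩
      rw [hN ω (lt_of_le_of_lt (le_max_left _ _) h), act, hM, mul_zero, add_zero]
      have := lt_of_le_of_lt (le_max_right _ _) h
      have h2 := abs_sub_abs_le_abs_sub ω.1 γ.k
      simp only [mv]; omega
    sh := fun ω h => by rw [γ.sh ω h, act, δ.sh _ (by rwa [shape_mv]), mul_zero, add_zero] }⟩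

instance : One (Gam r) := ⟨⟨fun _ => 0, 0, ⟨0, fun _ _ => rfl⟩, fun _ _ => rfl⟩⟩

noncomputable instance : Inv (Gam r) := ⟨fun γ =>
  { f := fun ω => -(sg (ex r γ.f (um γ ω)) * γ.f (um γ ω))
    k := -γ.k
    bd := by
      obtain ⟨N, hN⟩ := γ.bd
      refine ⟨N + |γ.k|, fun ω h => ?_⟩
      rw [hN, mul_zero, neg_zero]
      have h2 := abs_sub_abs_le_abs_add ω.1 γ.k
      simp only [um]; omega
    sh := fun ω h => by rw [γ.sh _ (by rwa [shape_um]), mul_zero, neg_zero] }⟩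

lemma mul_f (γ δ : Gam r) (ω : Om) : (γ * δ).f ω = γ.f ω + act γ δ.f ω := rfl
@[simp] lemma mul_k (γ δ : Gam r) : (γ * δ).k = γ.k + δ.k := rfl
@[simp] lemma one_f (ω : Om) : (1 : Gam r).f ω = 0 := rfl
@[simp] lemma one_k : (1 : Gam r).k = 0 := rfl
@[simp] lemma inv_k (γ : Gam r) : (γ⁻¹).k = -γ.k := rfl

lemma mul_f_mod (γ δ : Gam r) (ω : Om) : (γ * δ).f ω % 2 = (γ.f ω + δ.f (mv γ ω)) % 2 := by
  have := sg_mod (ex r γ.f ω) (δ.f (mv γ ω))
  rw [mul_f, act]; simp only [Int.cast_id]; omega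

lemma mv_mul (γ δ : Gam r) (ω : Om) : mv (γ * δ) ω = mv δ (mv γ ω) := by
  simp only [mv, mul_k, Prod.mk.injEq, and_true]
  exact ⟨by ring, iact_comp (fun p => mul_f_mod γ δ (ω.1, p, false)) _⟩

lemma chi_mul (γ δ : Gam r) (b : ℤ) :
    chi r (γ * δ).f b % 2 = (chi r γ.f b + chi r δ.f (b - γ.k)) % 2 := by
  unfold chi
  rw [sum_mod _ _ _ fun x _ => mul_f_mod γ δ (b, x, true), Finset.sum_add_distrib]
  congr 2
  exact Finset.sum_bij' (fun x _ => iact (lab γ.f b) x) (fun x _ => jact (lab γ.f b) x)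
    (by simp) (by simp) (by simp) (by simp) (fun x _ => rfl)

lemma ex_mul (γ δ : Gam r) (ω : Om) :
    ex r (γ * δ).f ω % 2 = (ex r γ.f ω + ex r δ.f (mv γ ω)) % 2 := by
  have h1 := chi_mul γ δ (ω.1 + 1)
  have h2 := mul_f_mod γ δ (ω.1, ω.2.1, false)
  have h3 : ω.1 + 1 - γ.k = ω.1 - γ.k + 1 := by ring
  rw [h3] at h1
  simp only [ex, mv] at h2 ⊢
  split_ifs <;> omega

lemma act_mul {R : Type} [CommRing R] (γ δ : Gam r) (φ : Om → R) :
    act (γ * δ) φ = act γ (act δ φ) := by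
  funext ω
  simp only [act]
  rw [sg_congr (ex_mul γ δ ω), sg_add, mv_mul]; push_cast; ring

lemma mv_one (ω : Om) : mv (1 : Gam r) ω = ω := by
  simp only [mv, one_k, sub_zero]
  rw [iact_triv _ fun p _ => rfl]

lemma act_one {R : Type} [CommRing R] (φ : Om → R) : act (1 : Gam r) φ = φ := by
  funext ω
  simp [act, mv_one, ex, chi, sg]

lemma act_add {R : Type} [CommRing R] (γ : Gam r) (φ ψ : Om → R) (ω : Om) :
    act γ (fun ω => φ ω + ψ ω) ω = act γ φ ω + act γ ψ ω := by simp only [act]; ring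

noncomputable instance : Group (Gam r) := Group.ofRightAxioms
  (fun a b c => by
    ext ω
    · have : (b * c).f = fun ω => b.f ω + act b c.f ω := rfl
      rw [mul_f, mul_f, mul_f, act_mul, this, act_add, add_assoc]
    · simp [add_assoc])
  (fun a => by
    ext ω
    · simp [mul_f, act]
    · simp)
  (fun a => by
    ext ω
    · have : (a⁻¹).f = fun ω => -(sg (ex r a.f (um a ω)) * a.f (um a ω)) := rfl
      rw [mul_f, act, this]
      simp only [um_mv, Int.cast_id, one_f]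
      linear_combination (-a.f ω) * sg_sq (ex r a.f ω)
    · simp)

lemma inv_f (γ : Gam r) (ω : Om) : (γ⁻¹).f ω = -act γ⁻¹ γ.f ω := by
  have := mul_f γ⁻¹ γ ω
  rw [inv_mul_cancel, one_f] at this; omega

lemma act_inv_fix {R : Type} [CommRing R] {γ : Gam r} {φ : Om → R} (h : act γ φ = φ) : act γ⁻¹ φ = φ := by
  conv_lhs => rw [← h]
  rw [← act_mul, inv_mul_cancel, act_one]

lemma act_zero {R : Type} [CommRing R] (γ : Gam r) {φ : Om → R} {ω : Om} (h : φ (mv γ ω) = 0) :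
    act γ φ ω = 0 := by rw [act, h, mul_zero]

lemma chi_inv (γ : Gam r) (b : ℤ) : chi r (γ⁻¹).f b % 2 = chi r γ.f (b + γ.k) % 2 := by
  have := chi_mul γ⁻¹ γ b
  rw [inv_mul_cancel, inv_k, sub_neg_eq_add] at this
  have h : chi r (1 : Gam r).f b = 0 := by simp [chi]
  omega

/-- Supported on levels at most `L`, no shift. -/
def Le (γ : Gam r) (L : ℤ) : Prop := γ.k = 0 ∧ ∀ ω, L < lev r ω → γ.f ω = 0

lemma Le.mono {γ : Gam r} {L L' : ℤ} (h : Le γ L) (h' : L ≤ L') : Le γ L' :=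
  ⟨h.1, fun ω hω => h.2 ω (by omega)⟩

lemma tri {R : Type} [CommRing R] {γ : Gam r} {L : ℤ} (h : Le γ L) (φ : Om → R) {ω : Om}
    (hω : L ≤ lev r ω) : act γ φ ω = φ ω := by
  obtain ⟨b, x, τ⟩ := ω
  have e1 : mv γ (b, x, τ) = (b, x, τ) := by
    simp only [mv, h.1, sub_zero]
    rw [iact_triv x fun p hp => by
      rw [lab, h.2]; · rfl
      have := lev_le r b x τ
      rw [lev_F]; omega]
  have e2 : ex r γ.f (b, x, τ) = 0 := by
    simp only [ex, chi]
    rw [Finset.sum_eq_zero fun y hy => h.2 _ (by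
      rw [mem_lvl] at hy
      have := lev_le r b x τ
      rw [lev_T, hy, add_mul]; omega)]
    split_ifs with h1
    · rw [h.2]; · rfl
      rw [h1, lev_T] at hω; rw [lev_F]; omega
    · rfl
  simp [act, e1, e2, sg]

lemma Le.mul {γ δ : Gam r} {L : ℤ} (h : Le γ L) (h' : Le δ L) : Le (γ * δ) L :=
  ⟨by simp [h.1, h'.1], fun ω hω => by rw [mul_f, tri h _ hω.le, h.2 ω hω, h'.2 ω hω]; rfl⟩

lemma Le.inv {γ : Gam r} {L : ℤ} (h : Le γ L) : Le γ⁻¹ L :=
  ⟨by simp [h.1], fun ω hω => by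
    rw [inv_f, act_zero, neg_zero]
    apply h.2; rw [lev_mv]; simp [h.1, hω]⟩

lemma conj_f (η τ : Gam r) (ω : Om) : (η * τ * η⁻¹).f ω =
    act η τ.f ω + (act η (act τ (η⁻¹).f) ω - act η (η⁻¹).f ω) := by
  have := mul_f η η⁻¹ ω
  rw [mul_inv_cancel, one_f] at this
  rw [mul_f, mul_f, act_mul]; omega

lemma conj_top (η : Gam r) {τ : Gam r} {L : ℤ} (h : Le τ L) {ω : Om} (hω : L + η.k * (r + 2) ≤ lev r ω) :
    (η * τ * η⁻¹).f ω = act η τ.f ω := by
  have : act η (act τ (η⁻¹).f) ω = act η (η⁻¹).f ω := by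
    rw [act, tri h _ (by rw [lev_mv]; omega)]; rfl
  rw [conj_f, this]; ring

lemma Le.conj (η : Gam r) {τ : Gam r} {L : ℤ} (h : Le τ L) : Le (η * τ * η⁻¹) (L + η.k * (r + 2)) :=
  ⟨by simp [h.1], fun ω hω => by
    rw [conj_top η h hω.le, act_zero]
    apply h.2; rw [lev_mv]; omega⟩

lemma conj_triv (η : Gam r) {τ : Gam r} (h : ∀ γ : Gam r, act τ γ.f = γ.f) (ω : Om) :
    (η * τ * η⁻¹).f ω = act η τ.f ω := by
  rw [conj_f, h]; ring

open Classical in
/-- One label. -/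
noncomputable def dl (ω : Om) (m : ℤ) : Gam r where
  f := fun ω' => if ω' = ω ∧ shape r ω then m else 0
  k := 0
  bd := ⟨|ω.1|, fun ω' h => if_neg fun h' => by rw [h'.1] at h; omega⟩
  sh := fun ω' h => if_neg fun (h' : ω' = ω ∧ shape r ω) => h (h'.1 ▸ h'.2)

lemma dl_self {ω : Om} (h : shape r ω) (m : ℤ) : (dl ω m : Gam r).f ω = m := if_pos ⟨rfl, h⟩
lemma dl_ne {ω ω' : Om} (h : ω' ≠ ω) (m : ℤ) : (dl ω m : Gam r).f ω' = 0 := if_neg fun h' => h h'.1
@[simp] lemma dl_k (ω : Om) (m : ℤ) : (dl ω m : Gam r).k = 0 := rfl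
lemma dl_f {ω : Om} (h : shape r ω) (m : ℤ) (ω' : Om) :
    (dl ω m : Gam r).f ω' = if ω' = ω then m else 0 := by
  split_ifs with h1
  · rw [h1, dl_self h]
  · exact dl_ne h1 m

lemma dl_le (ω : Om) (m : ℤ) : Le (dl ω m : Gam r) (lev r ω) :=
  ⟨rfl, fun ω' h => dl_ne (fun h' => by rw [h'] at h; omega) m⟩

lemma act_dl {γ : Gam r} {ω : Om} (h : Le γ (lev r ω)) (m : ℤ) (ω' : Om) :
    act γ (dl ω m : Gam r).f ω' = (dl ω m : Gam r).f ω' := by
  rcases le_or_gt (lev r ω) (lev r ω') with h1 | h1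
  · exact tri h _ h1
  · rw [act_zero, dl_ne]
    · intro h2; rw [h2] at h1; omega
    · apply dl_ne; intro h2
      have := lev_mv γ ω'
      rw [h2, h.1] at this; omega

lemma dl_add (ω : Om) (m n : ℤ) : (dl ω (m + n) : Gam r) = dl ω m * dl ω n := by
  ext ω'
  · rw [mul_f, act_dl (dl_le ω m)]
    simp only [dl]; split_ifs <;> simp
  · simp

lemma dl_zero (ω : Om) : (dl ω 0 : Gam r) = 1 := by
  ext ω' <;> simp [dl]

lemma dl_zpow (ω : Om) (m n : ℤ) : (dl ω m : Gam r) ^ n = dl ω (n * m) := by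
  induction n using Int.induction_on with
  | zero => simp [dl_zero]
  | succ n ih => rw [zpow_add_one, ih, ← dl_add]; congr 1; ring
  | pred n ih =>
    rw [zpow_sub_one, ih, mul_inv_eq_iff_eq_mul, ← dl_add]; congr 1; ring

/-- The shift. -/
def tt (b : ℤ) : Gam r := ⟨fun _ => 0, b, ⟨0, fun _ _ => rfl⟩, fun _ _ => rfl⟩

@[simp] lemma tt_f (b : ℤ) (ω : Om) : (tt b : Gam r).f ω = 0 := rfl
@[simp] lemma tt_k (b : ℤ) : (tt b : Gam r).k = b := rfl

lemma act_tt {R : Type} [CommRing R] (b : ℤ) (φ : Om → R) (ω : Om) :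
    act (tt b : Gam r) φ ω = φ (ω.1 - b, ω.2) := by
  have : iact (lab (tt b : Gam r).f ω.1) ω.2.1 = ω.2.1 := iact_triv _ fun p _ => rfl
  simp [act, mv, this, ex, chi, sg]

lemma tt_add (a b : ℤ) : (tt (a + b) : Gam r) = tt a * tt b := by
  ext ω <;> simp [mul_f, act]

lemma tt_zpow (n : ℤ) : (tt 1 : Gam r) ^ n = tt n := by
  induction n using Int.induction_on with
  | zero => rfl
  | succ n ih => rw [zpow_add_one, ih, ← tt_add]
  | pred n ih => rw [zpow_sub_one, ih, mul_inv_eq_iff_eq_mul, ← tt_add]; congr 1; ring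

lemma conj_tt (b : ℤ) (γ : Gam r) (ω : Om) : (tt b * γ * (tt b)⁻¹).f ω = γ.f (ω.1 - b, ω.2) := by
  have : ∀ ω, ((tt b : Gam r)⁻¹).f ω = 0 := fun ω => by rw [inv_f, act_zero, neg_zero]; rfl
  rw [mul_f, mul_f, act_tt, act_zero _ (this _)]; simp

open Classical in
/-- Restriction of the labels. -/
noncomputable def rs (p : Om → Prop) (γ : Gam r) : Gam r where
  f := fun ω => if p ω then γ.f ω else 0
  k := 0
  bd := γ.bd.imp fun N h ω hω => by rw [h ω hω]; simp
  sh := fun ω h => by rw [γ.sh ω h]; simp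

@[simp] lemma rs_k (p : Om → Prop) (γ : Gam r) : (rs p γ).k = 0 := rfl
lemma rs_pos {p : Om → Prop} (γ : Gam r) {ω : Om} (h : p ω) : (rs p γ).f ω = γ.f ω := if_pos h
lemma rs_neg {p : Om → Prop} (γ : Gam r) {ω : Om} (h : ¬ p ω) : (rs p γ).f ω = 0 := if_neg h

lemma fin_supp (γ : Gam r) : {ω | γ.f ω ≠ 0}.Finite := by
  obtain ⟨N, hN⟩ := γ.bd
  refine (((Set.finite_Icc (-N) N).prod ((List.finite_length_le Bool r).prod
    (Set.finite_univ (α := Bool))))).subset fun ω hω => ?_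
  have h1 : ¬ N < |ω.1| := fun h => hω (hN ω h)
  have h2 : shape r ω := by by_contra h; exact hω (γ.sh ω h)
  exact ⟨abs_le.1 (not_lt.1 h1), h2.1, trivial⟩

lemma exists_top (γ : Gam r) (hk : γ.k = 0) (h : γ ≠ 1) : ∃ ω, γ.f ω ≠ 0 ∧ Le γ (lev r ω) := by
  have : {ω | γ.f ω ≠ 0}.Nonempty := by
    by_contra hc
    apply h
    ext ω
    · by_contra h2; exact hc ⟨ω, h2⟩
    · exact hk
  obtain ⟨ω, h1, h2⟩ := Set.exists_max_image _ (lev r) (fin_supp γ) this
  exact ⟨ω, h1, hk, fun ω' h3 => by by_contra h4; have := h2 ω' h4; omega⟩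

lemma gen (S : Subgroup (Gam r)) (ht : tt 1 ∈ S) (hd : ∀ v, shape r (0, v) → dl (0, v) 1 ∈ S) (γ : Gam r) :
    γ ∈ S := by
  have h1 : ∀ b, tt b ∈ S := fun b => tt_zpow b ▸ S.zpow_mem ht b
  have h2 : ∀ ω m, shape r ω → dl ω m ∈ S := by
    intro ω m hω
    have h0 : shape r (0, ω.2) := hω
    have : (dl ω 1 : Gam r) = tt ω.1 * dl (0, ω.2) 1 * (tt ω.1)⁻¹ := by
      ext ω'
      · rw [conj_tt, dl_f hω, dl_f h0]
        congr 1
        simp [Prod.ext_iff, sub_eq_zero]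
      · simp
    have h3 := S.zpow_mem (this ▸ S.mul_mem (S.mul_mem (h1 _) (hd _ h0)) (S.inv_mem (h1 _))) m
    rwa [dl_zpow, mul_one] at h3
  have h3 : ∀ n : ℕ, ∀ γ : Gam r, γ.k = 0 → {ω | γ.f ω ≠ 0}.ncard = n → γ ∈ S := by
    intro n
    induction n using Nat.strong_induction_on with
    | _ n ih =>
      intro γ hk hn
      by_cases h : γ = 1
      · rw [h]; exact S.one_mem
      obtain ⟨ω, h4, h5⟩ := exists_top γ hk h
      have hs : shape r ω := by by_contra h; exact h4 (γ.sh ω h)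
      have hle : Le (rs (· ≠ ω) γ) (lev r ω) := ⟨rfl, fun ω' h6 => by
        by_cases h7 : ω' = ω
        · exact rs_neg _ (by simpa using h7)
        · rw [rs_pos _ h7, h5.2 ω' h6]⟩
      have : γ = rs (· ≠ ω) γ * dl ω (γ.f ω) := by
        ext ω'
        · rw [mul_f, act_dl hle, dl_f hs]
          split_ifs with h7
          · rw [rs_neg _ (by simpa using h7), h7]; simp
          · rw [rs_pos _ h7]; simp
        · simp [hk]
      rw [this]
      refine S.mul_mem (ih _ ?_ _ rfl rfl) (h2 _ _ hs)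
      rw [← hn]
      refine Set.ncard_lt_ncard ⟨fun ω' h6 => ?_, fun h6 => ?_⟩ (fin_supp γ)
      · by_cases h7 : ω' = ω
        · exact absurd (rs_neg _ (by simpa using h7)) h6
        · have h8 : (rs (· ≠ ω) γ).f ω' ≠ 0 := h6
          rwa [rs_pos _ h7] at h8
      · exact h6 h4 (rs_neg _ (by simp))
  have : γ = rs (fun _ => True) γ * tt γ.k := by
    ext ω
    · rw [mul_f, rs_pos _ trivial, act_zero _ rfl, add_zero]
    · simp
  rw [this]
  exact S.mul_mem (h3 _ _ rfl rfl) (h1 _)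

end Pool.Agent.H64.Ord
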