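import Mathlib
import Pool.Agent.H64.Ord2

/-! Derived length of the tree group and its smallest isolated normal subgroup. -/

set_option autoImplicit false

namespace Pool.Agent.H64.Ord
open scoped commutatorElement

variable {r : ℕ}

lemma comm_even {G : Type} [Group G] (S : Subgroup G) (φ : G → ℤ) (n : ℤ)
    (h : ∀ a ∈ S, ∀ b ∈ S, φ (a * b) % n = (φ a + φ b) % n) : ∀ g ∈ ⁅S, S⁆, φ g % n = 0 := by
  have h' : ∀ a ∈ S, ∀ b ∈ S, n ∣ φ (a * b) - φ a - φ b := fun a ha b hb => by
    have := (Int.ModEq.symm (h a ha b hb)).dvd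
    rwa [← sub_sub] at this
  have tr : ∀ {x y : ℤ}, n ∣ x → y = x → n ∣ y := fun h e => e ▸ h
  have h1 : n ∣ φ 1 := by
    have := h' 1 S.one_mem 1 S.one_mem
    rw [mul_one] at this
    simpa using this
  have hi : ∀ a ∈ S, n ∣ φ a + φ a⁻¹ := fun a ha => by
    have := h' a ha a⁻¹ (S.inv_mem ha)
    rw [mul_inv_cancel] at this
    exact tr (dvd_sub h1 this) (by ring)
  let T : Subgroup G :=
    { carrier := {g | g ∈ S ∧ n ∣ φ g}
      mul_mem' := fun {a b} ha hb => ⟨S.mul_mem ha.1 hb.1,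
        tr (dvd_add (dvd_add (h' a ha.1 b hb.1) ha.2) hb.2) (by ring)⟩
      one_mem' := ⟨S.one_mem, h1⟩
      inv_mem' := fun {a} ha => ⟨S.inv_mem ha.1, tr (dvd_sub (hi a ha.1) ha.2) (by ring)⟩ }
  have : ⁅S, S⁆ ≤ T := Subgroup.commutator_le.2 fun a ha b hb => by
    rw [commutatorElement_def]
    refine ⟨S.mul_mem (S.mul_mem (S.mul_mem ha hb) (S.inv_mem ha)) (S.inv_mem hb), ?_⟩
    have e1 := h' _ (S.mul_mem (S.mul_mem ha hb) (S.inv_mem ha)) _ (S.inv_mem hb)
    have e2 := h' _ (S.mul_mem ha hb) _ (S.inv_mem ha)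
    exact tr (dvd_add (dvd_add (dvd_add (dvd_add e1 e2) (h' a ha b hb)) (hi a ha)) (hi b hb)) (by ring)
  exact fun g hg => Int.emod_eq_zero_of_dvd (this hg).2

lemma inv_f_mod (γ : Gam r) (ω : Om) : (γ⁻¹).f ω % 2 = γ.f (mv γ⁻¹ ω) % 2 := by
  have := sg_mod (ex r (γ⁻¹).f ω) (γ.f (mv γ⁻¹ ω))
  rw [inv_f, act]; simp only [Int.cast_id]; omega

def Y (r j : ℕ) : Subgroup (Gam r) where
  carrier := {γ | γ.k = 0 ∧ (∀ b, chi r γ.f b % 2 = 0) ∧
    ∀ (b : ℤ) (x : List Bool), x.length < j → γ.f (b, x, false) % 2 = 0}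
  mul_mem' := by
    rintro a b ⟨a1, a2, a3⟩ ⟨b1, b2, b3⟩
    refine ⟨by simp [a1, b1], fun c => ?_, fun c x hx => ?_⟩
    · have := chi_mul a b c
      have := a2 c
      have := b2 (c - a.k)
      omega
    · have := mul_f_mod a b (c, x, false)
      have := a3 c x hx
      have : b.f (mv a (c, x, false)) % 2 = 0 := b3 _ _ (by simpa using hx)
      omega
  one_mem' := ⟨rfl, fun b => by simp [chi], fun _ _ _ => rfl⟩
  inv_mem' := by
    rintro a ⟨a1, a2, a3⟩
    refine ⟨by simp [a1], fun c => by rw [chi_inv, a2], fun c x hx => ?_⟩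
    rw [inv_f_mod]
    exact a3 _ _ (by simpa using hx)

lemma Y_mv {j : ℕ} {γ : Gam r} (h : γ ∈ Y r j) {ω : Om} (hω : ω.2.1.length ≤ j) : mv γ ω = ω := by
  simp only [mv, h.1, sub_zero]
  rw [iact_triv (φ := lab γ.f ω.1) _ fun p hp => h.2.2 _ _ (by omega)]

lemma Z_act {γ : Gam r} (h : γ ∈ Y r (r + 1)) (δ : Gam r) : act γ δ.f = δ.f := by
  funext ω
  by_cases hs : shape r ω
  · have h1 := h.2.1 (ω.1 + 1)
    have h2 := h.2.2 ω.1 ω.2.1 (by have := hs.1; omega)
    rw [act, Y_mv h (by have := hs.1; omega), sg_even (by unfold ex; split_ifs <;> omega)]; simp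
  · rw [act_zero _ (δ.sh _ (by rwa [shape_mv])), δ.sh _ hs]

lemma Z_mul {γ : Gam r} (h : γ ∈ Y r (r + 1)) (δ : Gam r) (ω : Om) : (γ * δ).f ω = γ.f ω + δ.f ω := by
  rw [mul_f, Z_act h]

lemma Z_inv {γ : Gam r} (h : γ ∈ Y r (r + 1)) (ω : Om) : (γ⁻¹).f ω = -γ.f ω := by
  rw [inv_f, Z_act ((Y r (r + 1)).inv_mem h)]

lemma Z_of_even {γ : Gam r} (hk : γ.k = 0) (h : ∀ ω, γ.f ω % 2 = 0) : γ ∈ Y r (r + 1) :=
  ⟨hk, fun b => by
    unfold chi
    rw [sum_mod _ _ (fun _ => 0) fun x _ => h _]; simp, fun _ _ _ => h _⟩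

lemma der_k {g : Gam r} (h : g ∈ derivedSeries (Gam r) 1) : g.k = 0 := by
  simpa using comm_even ⊤ Gam.k 0 (fun a _ b _ => by simp) g h

lemma der_Y (j : ℕ) : derivedSeries (Gam r) (j + 2) ≤ Y r (j + 1) := by
  induction j with
  | zero =>
    intro g hg
    refine ⟨der_k (derivedSeries_antitone _ (by omega) hg), fun b => ?_, fun b x hx => ?_⟩
    · exact comm_even _ (fun γ => chi r γ.f b) 2 (fun a ha c _ => by
        rw [chi_mul, der_k ha, sub_zero]) g hg
    · obtain rfl : x = [] := List.length_eq_zero_iff.1 (by omega)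
      exact comm_even _ (fun γ => γ.f (b, [], false)) 2 (fun a ha c _ => by
        rw [mul_f_mod]; simp [mv, der_k ha, iact]) g hg
  | succ j ih =>
    intro g hg
    have := ih (derivedSeries_antitone _ (by omega) hg)
    refine ⟨this.1, this.2.1, fun b x hx => ?_⟩
    exact comm_even _ (fun γ => γ.f (b, x, false)) 2 (fun a ha c _ => by
        rw [mul_f_mod, Y_mv (ih ha) (by simp; omega)]) g hg

lemma der_bot : derivedSeries (Gam r) (r + 3) = ⊥ := by
  rw [eq_bot_iff]
  intro g hg
  rw [Subgroup.mem_bot]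
  ext ω
  · simpa using comm_even _ (fun γ => γ.f ω) 0 (fun a ha c _ => by rw [Z_mul (der_Y r ha)]) g hg
  · exact der_k (derivedSeries_antitone _ (by omega) hg)

lemma iact_app (φ : List Bool → ℤ) (w y : List Bool) : ∃ w', iact φ (w ++ y) = w' ++ iact φ y := by
  induction w with
  | nil => exact ⟨[], rfl⟩
  | cons c w ih =>
    obtain ⟨w', h⟩ := ih
    exact ⟨_ :: w', by simp only [List.cons_append, iact, h]; rfl⟩

/-- No shift and the vertex `y` of block zero is fixed. -/
def Fx (y : List Bool) (g : Gam r) : Prop := g.k = 0 ∧ iact (lab g.f 0) y = y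

lemma Fx.mv {y : List Bool} {g : Gam r} (h : Fx y g) (τ : Bool) : mv g (0, y, τ) = (0, y, τ) := by
  simp [Ord.mv, h.1, h.2]

lemma Fx.mul {y : List Bool} {g h : Gam r} (hg : Fx y g) (hh : Fx y h) : Fx y (g * h) :=
  ⟨by simp [hg.1, hh.1], by
    have := mv_mul g h (0, y, true)
    rw [hg.mv, hh.mv] at this
    exact congrArg (·.2.1) this⟩

lemma Fx.inv {y : List Bool} {g : Gam r} (hg : Fx y g) : Fx y g⁻¹ :=
  ⟨by simp [hg.1], by
    have := mv_mul g g⁻¹ (0, y, true)
    rw [hg.mv, mul_inv_cancel, mv_one] at this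
    exact (congrArg (·.2.1) this).symm⟩

lemma Fx.sub {y : List Bool} {g : Gam r} (hg : Fx y g) (w : List Bool) (c τ : Bool) :
    ∃ w', Ord.mv g (0, w ++ c :: y, τ) = (0, w' ++ (c ^^ par (g.f (0, y, false))) :: y, τ) := by
  obtain ⟨w', h⟩ := iact_app (lab g.f 0) w (c :: y)
  exact ⟨w', by simp only [Ord.mv, hg.1, sub_zero, h, iact, hg.2]; rfl⟩

def Van (y : List Bool) (g : Gam r) : Prop := ∀ w τ, g.f (0, w ++ y, τ) = 0

def Rs (y : List Bool) (D : Subgroup (Gam r)) : Prop :=
  ∀ h : Gam r, ∃ g ∈ D, Fx y g ∧ ∀ w τ, g.f (0, w ++ y, τ) = h.f (0, w ++ y, τ)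

lemma rs_base : Rs [] (derivedSeries (Gam r) 1) := by
  intro h
  refine ⟨⁅rs (·.1 = 0) h, tt (-1)⁆, Subgroup.commutator_mem_commutator trivial trivial, ⟨?_, rfl⟩, ?_⟩
  · simp [commutatorElement_def]
  · intro w τ
    rw [commutatorElement_def, mul_assoc, mul_assoc, mul_f, ← mul_assoc, act_zero, add_zero,
      rs_pos (p := fun ω => ω.1 = 0) _ rfl]
    rw [conj_tt, inv_f, act_zero, neg_zero]
    apply rs_neg
    simp [mv]

lemma rs_step (y : List Bool) (c : Bool) (hy : y.length ≤ r) (D : Subgroup (Gam r)) (H : Rs y D) :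
    Rs (c :: y) ⁅D, D⁆ := by
  intro h
  obtain ⟨g, gD, gF, ge⟩ := H (rs (fun ω => c :: y <:+ ω.2.1) h)
  obtain ⟨s, sD, sF, se⟩ := H (dl (0, y, false) 1)
  have g0 : g.f (0, y, false) = 0 := by
    have := ge [] false
    rw [List.nil_append] at this
    rw [this, rs_neg]
    intro h; have := h.length_le; simp at this
  have g1 : Van ((!c) :: y) g := fun w τ => by
    have := ge (w ++ [!c]) τ
    rw [List.append_assoc, List.singleton_append] at this
    rw [this, rs_neg]
    rintro ⟨w', h⟩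
    have := (List.append_inj' h (by simp)).2
    simp at this
  have s0 : s.f (0, y, false) = 1 := by
    have := se [] false
    rw [List.nil_append] at this
    rw [this, dl_self ⟨hy, by simp⟩]
  have s1 : ∀ d, Van (d :: y) s := fun d w τ => by
    have := se (w ++ [d]) τ
    rw [List.append_assoc, List.singleton_append] at this
    rw [this, dl_ne]
    intro h
    have := congrArg (·.2.1.length) h
    simp at this; omega
  have vm : ∀ (a b : Gam r) (d : Bool), Fx y a → Van (d :: y) a →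
      Van ((d ^^ par (a.f (0, y, false))) :: y) b → Van (d :: y) (a * b) := by
    intro a b d aF ha hb w τ
    obtain ⟨w', e⟩ := aF.sub w d τ
    rw [mul_f, ha, act_zero _ (by rw [e]; exact hb _ _), add_zero]
  have vi : ∀ (a : Gam r) (d : Bool), Fx y a →
      Van ((d ^^ par (a.f (0, y, false))) :: y) a → Van (d :: y) a⁻¹ := by
    intro a d aF ha w τ
    obtain ⟨w', e⟩ := aF.inv.sub w d τ
    rw [par_congr (inv_f_mod a _), aF.inv.mv] at e
    rw [inv_f, act_zero _ (by rw [e]; exact ha _ _), neg_zero]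
  have p0 : par 0 = false := rfl
  have p1 : par 1 = true := rfl
  have v1 : Van (c :: y) (s * g⁻¹ * s⁻¹) :=
    vm _ _ _ (sF.mul gF.inv) (vm _ _ _ sF (s1 c) (vi _ _ gF (by simpa [s0, g0, p0, p1] using g1)))
      (vi _ _ sF (s1 _))
  have kF := ((gF.mul sF).mul gF.inv).mul sF.inv
  refine ⟨⁅g, s⁆, Subgroup.commutator_mem_commutator gD sD, ⟨kF.1, ?_⟩, ?_⟩
  · have := comm_even (⟨⟨⟨{a | Fx y a}, Fx.mul⟩, ⟨rfl, iact_triv _ fun _ _ => rfl⟩⟩, Fx.inv⟩ :
      Subgroup (Gam r)) (fun a => a.f (0, y, false)) 2 (fun a ha b _ => by rw [mul_f_mod, Fx.mv ha]) _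
      (Subgroup.commutator_mem_commutator gF sF)
    have k2 : iact (lab ⁅g, s⁆.f 0) y = y := kF.2
    simp only [iact, k2]
    rw [lab, par_even this]; simp
  · intro w τ
    obtain ⟨w', e⟩ := gF.sub w c τ
    rw [commutatorElement_def, mul_assoc, mul_assoc, mul_f, ← mul_assoc,
      act_zero _ (by rw [e]; simpa [g0, p0] using v1 w' τ), add_zero]
    have := ge (w ++ [c]) τ
    rw [List.append_assoc, List.singleton_append] at this
    rw [this, rs_pos _ (List.suffix_append _ _)]

lemma der_ne (hr : 0 < r) : derivedSeries (Gam r) (r + 2) ≠ ⊥ := by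
  have H : ∀ j ≤ r, Rs (List.replicate j true) (derivedSeries (Gam r) (j + 1)) := by
    intro j hj
    induction j with
    | zero => exact rs_base
    | succ j ih => exact rs_step _ true (by simp; omega) _ (ih (by omega))
  intro hb
  obtain ⟨g, gD, gF, ge⟩ := H r le_rfl (dl (0, List.replicate r true, true) 1)
  obtain ⟨s, sD, sF, se⟩ := H r le_rfl (dl (0, List.replicate r true, false) 1)
  have : ⁅g, s⁆ ∈ derivedSeries (Gam r) (r + 2) := Subgroup.commutator_mem_commutator gD sD
  rw [hb, Subgroup.mem_bot, commutatorElement_eq_one_iff_mul_comm] at this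
  have e := congrArg (·.f (0, List.replicate r true, true)) this
  have g1 := ge [] true
  have s1 := se [] true
  have s2 := se [] false
  rw [List.nil_append] at g1 s1 s2
  rw [dl_self ⟨by simp, by simp⟩] at g1 s2
  rw [dl_ne (by simp)] at s1
  obtain ⟨j, rfl⟩ : ∃ j, r = j + 1 := ⟨r - 1, by omega⟩
  have s3 := (der_Y j sD).2.1 (0 + 1)
  simp only [mul_f, act, gF.mv, sF.mv, g1, s1, ex, s2, if_true] at e
  rw [sg_add _ 1, sg_even s3] at e
  simp [sg] at e

lemma conj_dl (η : Gam r) {ω : Om} (hω : shape r ω) :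
    η * dl ω 2 * η⁻¹ = dl (um η ω) (sg (ex r η.f (um η ω)) * 2) := by
  ext ω'
  · rw [conj_triv η (Z_act (Z_of_even rfl fun ω' => by rw [dl_f hω]; split_ifs <;> rfl)), act,
      dl_f hω, dl_f ((shape_um η ω).2 hω)]
    by_cases h : ω' = um η ω
    · simp [h, mv_um]
    · rw [if_neg h, if_neg fun h' => h (by rw [← h', um_mv])]; simp
  · simp

lemma exists_iact (x y : List Bool) (h : x.length = y.length) :
    ∃ φ : List Bool → ℤ, (∀ p : List Bool, x.length ≤ p.length → φ p = 0) ∧ iact φ x = y := by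
  induction x generalizing y with
  | nil => exact ⟨fun _ => 0, fun _ _ => rfl, (List.length_eq_zero_iff.1 h.symm).symm⟩
  | cons c p ih =>
    obtain ⟨d, q, rfl⟩ := List.exists_cons_of_length_eq_add_one h.symm
    obtain ⟨φ, h1, h2⟩ := ih q (by simpa using h)
    refine ⟨Function.update φ p (if c = d then 0 else 1), fun p' hp => ?_, ?_⟩
    · rw [Function.update_of_ne (by rintro rfl; simp at hp), h1 _ (by simp at hp; omega)]
    · simp only [iact, Function.update_self]
      rw [iact_congr (φ := φ) p fun p' hp => by rw [Function.update_of_ne (by rintro rfl; simp at hp)], h2]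
      cases c <;> cases d <;> rfl

theorem monolith (C : Subgroup (Gam r)) [hn : C.Normal] (iso : ∀ g (n : ℕ), 0 < n → g ^ n ∈ C → g ∈ C)
    (hC : C ≠ ⊥) (b : ℤ) (x : List Bool) (hx : x.length = r) : dl (b, x, true) 1 ∈ C := by
  have isz : ∀ g (n : ℤ), n ≠ 0 → g ^ n ∈ C → g ∈ C := by
    intro g n h0 h
    apply iso g n.natAbs (by omega)
    rcases Int.natAbs_eq n with h1 | h1
    · rwa [h1, zpow_natCast] at h
    · rw [h1, zpow_neg, zpow_natCast] at h; simpa using h
  have sT : ∀ (b : ℤ) (x : List Bool), x.length = r → shape r (b, x, true) := fun b x h => ⟨h.le, fun _ => h⟩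
  by_contra hno
  have h1 : ∀ (b' : ℤ) (x' : List Bool) (m : ℤ), x'.length = r → m ≠ 0 → dl (b', x', true) (m * 2) ∉ C := by
    intro b' x' m hx' hm hC
    rw [← dl_zpow] at hC
    have hC := isz _ _ hm hC
    obtain ⟨φ, e1, e2⟩ := exists_iact x x' (by omega)
    let η : Gam r := ⟨fun ω => if ω.1 = b ∧ ω.2.2 = false then φ ω.2.1 else 0, b - b',
      ⟨|b|, fun ω h => if_neg fun h' => by rw [h'.1] at h; omega⟩, fun ω h => by
        split_ifs with h'
        · apply e1; by_contra h2; exact h ⟨by omega, by simp [h'.2]⟩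
        · rfl⟩
    have e3 : mv η (b, x, true) = (b', x', true) := by
      have : lab η.f b = φ := by funext p; simp [lab, η]
      simp only [mv, this, e2]; simp [η]
    have := hn.conj_mem _ hC η
    rw [conj_dl η (sT _ _ hx'), ← e3, um_mv, ← mul_one (_ * 2), ← dl_zpow] at this
    refine hno (isz _ _ ?_ this)
    rcases sg_cases (ex r η.f (b, x, true)) with h | h <;> rw [h] <;> omega
  have h2 : ∀ τ ∈ C, τ ∈ Y r (r + 1) → ∀ b x, τ.f (b, x, true) = 0 := by
    intro τ hτ hZ b x
    by_contra h0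
    have hs : shape r (b, x, true) := by by_contra h; exact h0 (τ.sh _ h)
    have hx := hs.2 rfl
    have hs' : shape r (b, x, false) := ⟨hs.1, by simp⟩
    apply h1 b x _ hx h0
    have : dl (b, x, true) (τ.f (b, x, true) * 2) * (dl (b, x, false) 1 * τ * (dl (b, x, false) 1)⁻¹) = τ := by
      ext ω
      · rw [Z_mul (Z_of_even rfl fun ω' => by rw [dl_f hs]; split_ifs <;> omega), conj_triv _ (Z_act hZ)]
        by_cases hω : shape r ω
        · have e1 : mv (dl (b, x, false) 1 : Gam r) ω = ω := by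
            simp only [mv, dl_k, sub_zero]
            rw [iact_triv _ fun p hp => by
              rw [lab, dl_ne]; · rfl
              intro h; have := congrArg (·.2.1.length) h
              have := hω.1; simp only at *; omega]
          have e2 : chi r (dl (b, x, false) 1 : Gam r).f (ω.1 + 1) = 0 :=
            Finset.sum_eq_zero fun y _ => dl_ne (by simp) _
          rw [act, e1, ex, e2, dl_f hs, dl_f hs']
          obtain ⟨b', x', τ'⟩ := ω
          by_cases h : b' = b ∧ x' = x
          · obtain ⟨rfl, rfl⟩ := h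
            cases τ' <;> simp [sg]; ring
          · have : ∀ t t' : Bool, ¬ ((b', x', t) : Om) = (b, x, t') := fun t t' h' => h (by simp at h'; tauto)
            simp [this, sg]
        · rw [Gam.sh _ ω hω, Gam.sh _ ω hω, act_zero _ (τ.sh _ (by rwa [shape_mv]))]; rfl
      · simp
    rw [eq_mul_inv_of_mul_eq this]
    exact C.mul_mem hτ (C.inv_mem (hn.conj_mem _ hτ _))
  have h3 : ∀ τ ∈ C, τ.k = 0 → ∀ (b : ℤ) (x : List Bool), x.length = r →
      mv τ (b, x, true) = (b, x, true) ∧ sg (ex r τ.f (b, x, true)) = 1 := by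
    intro τ hτ hk b x hx
    have hs := sT b x hx
    have m1 : τ * (dl (b, x, true) 2 * τ⁻¹ * (dl (b, x, true) 2)⁻¹) ∈ C :=
      C.mul_mem hτ (hn.conj_mem _ (C.inv_mem hτ) _)
    rw [← mul_assoc, ← mul_assoc, conj_dl τ hs, ← zpow_neg_one, dl_zpow] at m1
    have hs' := (shape_um τ _).2 hs
    have z1 : (dl (um τ (b, x, true)) (sg (ex r τ.f (um τ (b, x, true))) * 2) : Gam r) ∈ Y r (r + 1) :=
      Z_of_even rfl fun ω' => by rw [dl_f hs']; split_ifs <;> omega
    have := h2 _ m1 ((Y r (r + 1)).mul_mem z1 (Z_of_even rfl fun ω' => by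
      rw [dl_f hs]; split_ifs <;> omega)) b x
    rw [Z_mul z1, dl_self hs, dl_f hs'] at this
    split_ifs at this with h
    · rw [← h] at this
      refine ⟨by conv_lhs => rw [h, mv_um], by omega⟩
    · omega
  have h4 : ∀ τ ∈ C, τ.k = 0 → ∀ (b : ℤ) (x : List Bool), x.length ≤ r → iact (lab τ.f b) x = x := by
    intro τ hτ hk b x hx
    have e1 : iact (lab τ.f b) (List.replicate (r - x.length) true ++ x) = _ :=
      congrArg (·.2.1) (h3 τ hτ hk b (List.replicate (r - x.length) true ++ x) (by simp; omega)).1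
    obtain ⟨w, e2⟩ := iact_app (lab τ.f b) (List.replicate (r - x.length) true) x
    rw [e2] at e1
    exact (List.append_inj' e1 (by simp)).2
  have h5 : ∀ μ ∈ C, μ.k = 0 → (∀ b x, μ.f (b, x, true) = 0) → μ ∈ Y r (r + 1) := by
    intro μ hμ hk h0
    have c0 : ∀ b, chi r μ.f b = 0 := fun b => Finset.sum_eq_zero fun y _ => h0 _ _
    refine ⟨hk, fun b => by rw [c0]; rfl, fun b x hx => ?_⟩
    rcases Nat.lt_or_ge x.length r with h | h
    · have := h4 μ hμ hk b (true :: x) (by simp; omega)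
      simp only [iact, lab, par] at this
      have := (List.cons.inj this).1
      simp at this; omega
    · have := (h3 μ hμ hk b x (by omega)).2
      simp only [ex, c0, if_true, zero_add, sg] at this
      split_ifs at this with h; exact h
  have h6 : ∀ (L : ℤ) (n : ℕ), ∀ τ ∈ C, τ ∈ Y r (r + 1) →
      (∀ ω, τ.f ω ≠ 0 → L ≤ lev r ω ∧ lev r ω < L + n) → τ = 1 := by
    intro L n
    induction n with
    | zero =>
      intro τ _ hZ h
      ext ω
      · by_contra h0; have := h ω h0; omega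
      · exact hZ.1
    | succ n ih =>
      have half : ∀ τ ∈ C, τ ∈ Y r (r + 1) → (∀ ω, τ.f ω ≠ 0 → L ≤ lev r ω ∧ lev r ω < L + (n + 1 : ℕ)) →
          ∃ μ ∈ C, μ ∈ Y r (r + 1) ∧ ∀ ω, τ.f ω = 2 * μ.f ω := by
        intro τ hτ hZ h
        let μ : Gam r := ⟨fun ω => τ.f ω / 2, 0, τ.bd.imp fun N h ω hω => by rw [h ω hω]; rfl,
          fun ω h => by rw [τ.sh ω h]; rfl⟩
        have ev : ∀ ω, τ.f ω % 2 = 0 := by
          rintro ⟨b, x, t⟩
          cases t
          · by_cases hs : shape r (b, x, false)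
            · exact hZ.2.2 b x (by have := hs.1; simp only at this; omega)
            · rw [τ.sh _ hs]; rfl
          · rw [h2 τ hτ hZ]; rfl
        have e1 : ∀ ω, τ.f ω = 2 * μ.f ω := fun ω => by
          have := ev ω
          simp only [μ]; omega
        have hle : Le μ (L + n) := ⟨rfl, fun ω hω => by
          by_contra h0
          have := h ω (by rw [e1]; omega)
          omega⟩
        have e2 : ∀ ω, (τ⁻¹ * (μ * τ * μ⁻¹)).f ω = 2 * (act μ μ.f ω - μ.f ω) := fun ω => by
          rw [Z_mul ((Y r (r + 1)).inv_mem hZ), Z_inv hZ, conj_triv _ (Z_act hZ), act, act, e1, e1]; ring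
        have e3 := ih _ (C.mul_mem (C.inv_mem hτ) (hn.conj_mem _ hτ μ))
          (Z_of_even (by simp [μ]) fun ω => by rw [e2]; omega) fun ω h0 => by
            rw [e2] at h0
            constructor
            · by_contra h1
              have a1 : μ.f ω = 0 := by
                by_contra h3; have := h ω (by rw [e1]; omega); omega
              have a2 : μ.f (mv μ ω) = 0 := by
                by_contra h3
                have := h (mv μ ω) (by rw [e1]; omega)
                rw [lev_mv, hle.1] at this; omega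
              rw [act_zero _ a2, a1] at h0; omega
            · by_contra h1
              rw [tri hle _ (by omega)] at h0; omega
        have e4 : μ ^ 2 = τ := by
          ext ω
          · have := e2 ω
            rw [e3, one_f] at this
            rw [pow_two, mul_f, e1]; omega
          · simp [pow_two, μ, hZ.1]
        have hμ : μ ∈ C := iso μ 2 (by omega) (e4 ▸ hτ)
        exact ⟨μ, hμ, h5 μ hμ rfl fun b x => by
          have := h2 τ hτ hZ b x
          rw [e1] at this; omega, e1⟩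
      intro τ hτ hZ h
      ext ω
      · have : ∀ m : ℕ, ∀ τ ∈ C, τ ∈ Y r (r + 1) →
            (∀ ω, τ.f ω ≠ 0 → L ≤ lev r ω ∧ lev r ω < L + (n + 1 : ℕ)) → (τ.f ω).natAbs = m → τ.f ω = 0 := by
          intro m
          induction m using Nat.strong_induction_on with
          | _ m ihm =>
            intro τ hτ hZ h hm
            obtain ⟨μ, m1, m2, m3⟩ := half τ hτ hZ h
            by_contra h0
            have := ihm (μ.f ω).natAbs (by rw [m3] at hm h0; omega) μ m1 m2
              (fun ω h0 => h ω (by rw [m3]; omega)) rfl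
            rw [m3] at h0; omega
        exact this _ τ hτ hZ h rfl
      · exact hZ.1
  have h7 : ∀ τ ∈ C, τ.k = 0 → τ = 1 := by
    intro τ hτ hk
    have hZ : τ * τ ∈ Y r (r + 1) := ⟨by simp [hk], fun b => by rw [chi_mul, hk, sub_zero]; omega,
      fun b x hx => by
        rw [mul_f_mod]
        simp only [mv, hk, sub_zero, h4 τ hτ hk b x (by omega)]; omega⟩
    obtain ⟨L, hL⟩ := ((fin_supp (τ * τ)).image (lev r)).bddBelow
    obtain ⟨U, hU⟩ := ((fin_supp (τ * τ)).image (lev r)).bddAbove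
    have := h6 L (U + 1 - L).toNat _ (C.mul_mem hτ hτ) hZ fun ω h0 => by
      have := hL ⟨ω, h0, rfl⟩
      have := hU ⟨ω, h0, rfl⟩
      omega
    by_contra h
    obtain ⟨ω, o1, o2⟩ := exists_top τ hk h
    have e := mul_f τ τ ω
    rw [this, tri o2 _ le_rfl, one_f] at e
    omega
  apply hC
  rw [eq_bot_iff]
  intro g hg
  rw [Subgroup.mem_bot]
  apply h7 g hg
  by_contra hk
  have hs : shape r (0, [], false) := ⟨by simp, by simp⟩
  have m1 := h7 _ (C.mul_mem hg (hn.conj_mem _ (C.inv_mem hg) (dl (0, [], false) 1))) (by simp)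
  rw [← mul_assoc, ← mul_assoc, mul_inv_eq_one] at m1
  have := conj_top g (dl_le (0, [], false) 1) (ω := (g.k, [], false)) (by simp [lev_F])
  rw [m1, dl_ne (by simpa using hk), act] at this
  simp only [mv, sub_self, iact, dl_self hs] at this
  rcases sg_cases (ex r g.f (g.k, [], false)) with h | h <;> simp [h] at this

end Pool.Agent.H64.Ord
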