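import Mathlib
import Pool.Agent.H64.Ord3

/-! Special elements of the tree group, normal forms and an order on the index set. -/

set_option autoImplicit false

namespace Pool.Agent.H64.Ord

variable {r : ℕ}

def w1 (r : ℕ) : Om := (1, List.replicate r true, true)
def w2 (r : ℕ) : Om := (1, List.replicate r false, true)
def w3 (r : ℕ) : Om := (2, List.replicate r false, true)

lemma sh1 : shape r (w1 r) := ⟨by simp [w1], by simp [w1]⟩
lemma sh2 : shape r (w2 r) := ⟨by simp [w2], by simp [w2]⟩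
lemma sh3 : shape r (w3 r) := ⟨by simp [w3], by simp [w3]⟩
lemma lev1 : lev r (w1 r) = 1 := by simp [w1, lev_T]
lemma lev2 : lev r (w2 r) = 1 := by simp [w2, lev_T]
lemma lev3 : lev r (w3 r) = r + 3 := by simp [w3, lev_T]; ring
lemma w12 [h : NeZero r] : w1 r ≠ w2 r := by
  obtain ⟨j, rfl⟩ := Nat.exists_eq_succ_of_ne_zero h.out
  simp [w1, w2, List.replicate_succ]
lemma w13 : w1 r ≠ w3 r := by simp [w1, w3]
lemma w23 : w2 r ≠ w3 r := by simp [w2, w3]

lemma act_D {R : Type} [CommRing R] {γ : Gam r} (hk : γ.k = 0) (h : ∀ b x, γ.f (b, x, false) = 0)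
    (φ : Om → R) (ω : Om) : act γ φ ω = (sg (chi r γ.f (ω.1 + 1)) : R) * φ ω := by
  have : iact (lab γ.f ω.1) ω.2.1 = ω.2.1 := iact_triv _ fun p _ => by rw [lab, h]; rfl
  simp [act, mv, ex, h, hk, this]

lemma act_dD {R : Type} [CommRing R] (b : ℤ) (x : List Bool) (hx : x.length = r) (m : ℤ)
    (φ : Om → R) (ω : Om) :
    act (dl (b, x, true) m : Gam r) φ ω = (if ω.1 + 1 = b then (sg m : R) else 1) * φ ω := by
  have hs : shape r (b, x, true) := ⟨hx.le, fun _ => hx⟩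
  rw [act_D rfl (fun _ _ => dl_ne (by simp) _)]
  congr 1
  unfold chi
  split_ifs with h
  · rw [Finset.sum_eq_single x (fun y _ hy => dl_ne (by simp [hy]) _) (by simp [hx]), h, dl_self hs]
  · rw [Finset.sum_eq_zero fun y _ => dl_ne (by simp [h]) _]; simp [sg]

noncomputable def am (r : ℕ) (c : ℤ) : Gam r := dl (w1 r) c * dl (w2 r) (-c)
noncomputable def zz (r : ℕ) : Gam r := dl (w2 r) 1
noncomputable def uu (r : ℕ) : Gam r := dl (w2 r) 1 * dl (w3 r) (-1)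

@[simp] lemma am_k (c : ℤ) : (am r c).k = 0 := rfl
@[simp] lemma zz_k : (zz r).k = 0 := rfl
@[simp] lemma uu_k : (uu r).k = 0 := rfl

open Classical in
noncomputable def af (r : ℕ) (ω : Om) : ℤ := (if ω = w1 r then 1 else 0) - if ω = w2 r then 1 else 0

lemma am_f (c : ℤ) (ω : Om) : (am r c).f ω = c * af r ω := by
  rw [am, mul_f, act_dl (by rw [lev2, ← lev1]; exact dl_le _ _), dl_f sh1, dl_f sh2, af]
  split_ifs <;> simp

lemma af_w1 [NeZero r] : af r (w1 r) = 1 := by simp [af, w12]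
lemma af_lev {ω : Om} (h : lev r ω ≠ 1) : af r ω = 0 := by
  rw [af, if_neg, if_neg] <;> first | rfl | (rintro rfl; simp [lev1, lev2] at h)
lemma af_blk {ω : Om} (h : ω.1 ≠ 1) : af r ω = 0 := by
  rw [af, if_neg, if_neg] <;> first | rfl | (rintro rfl; simp [w1, w2] at h)

lemma uu_f (ω : Om) : (uu r).f ω = (if ω = w2 r then 1 else 0) - if ω = w3 r then 1 else 0 := by
  rw [uu, mul_f, act_dl ((dl_le _ _).mono (by rw [lev2, lev3]; omega)), dl_f sh2, dl_f sh3]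
  split_ifs <;> simp

lemma act_am {R : Type} [CommRing R] (c : ℤ) (φ : Om → R) : act (am r c) φ = φ := by
  funext ω
  rw [am, act_mul, w1, w2, act_dD _ _ (by simp), act_dD _ _ (by simp), sg_congr (a := -c) (b := c) (by omega)]
  split_ifs
  · rw [← mul_assoc, ← Int.cast_mul, sg_sq]; simp
  · simp

lemma act_zz {R : Type} [CommRing R] (φ : Om → R) (ω : Om) :
    act (zz r) φ ω = if ω.1 = 0 then -φ ω else φ ω := by
  rw [zz, w2, act_dD _ _ (by simp)]
  by_cases h : ω.1 = 0 <;> simp [h, sg]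

lemma act_uu {R : Type} [CommRing R] (φ : Om → R) (ω : Om) :
    act (uu r) φ ω = if ω.1 = 0 ∨ ω.1 = 1 then -φ ω else φ ω := by
  rw [uu, act_mul, w2, w3, act_dD _ _ (by simp), act_dD _ _ (by simp)]
  by_cases h : ω.1 = 0
  · simp [h, sg]
  · by_cases h' : ω.1 = 1
    · simp [h', sg]
    · rw [if_neg (by omega), if_neg (by omega), if_neg (by tauto)]; simp

lemma am_mul_f (c : ℤ) (η : Gam r) (ω : Om) : (am r c * η).f ω = c * af r ω + η.f ω := by
  rw [mul_f, act_am, am_f]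

lemma am_add (c d : ℤ) : am r (c + d) = am r c * am r d := by
  ext ω
  · rw [am_mul_f, am_f, am_f]; ring
  · simp

lemma am_zero : am r 0 = 1 := by
  ext ω
  · simp [am_f]
  · simp

lemma uu_am (c : ℤ) : uu r * am r c = am r (-c) * uu r := by
  ext ω
  · rw [am_mul_f, mul_f, act_uu, am_f]
    split_ifs with h
    · ring
    · rw [af_blk (by tauto)]; ring
  · simp

lemma zz_am : zz r * am r 1 = am r 1 * zz r := by
  ext ω
  · rw [am_mul_f, mul_f, act_zz, am_f]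
    split_ifs with h
    · rw [af_blk (by omega)]; ring
    · ring
  · simp

lemma zz_uu : zz r * (uu r * zz r) = uu r := by
  ext ω
  · rw [mul_f, act_zz, mul_f, act_uu, uu_f, zz, dl_f sh2]
    by_cases h : ω = w2 r
    · subst h; simp [w2, w3]
    · by_cases h' : ω = w3 r
      · subst h'; simp [w2, w3]
      · simp [h, h']
  · simp

lemma act_hi {R : Type} [CommRing R] {s : Gam r} {L : ℤ} (h : Le s L) {φ : Om → R}
    (hφ : ∀ ω, lev r ω < L → φ ω = 0) : act s φ = φ := by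
  funext ω
  rcases le_or_gt L (lev r ω) with h1 | h1
  · exact tri h _ h1
  · rw [hφ ω h1, act_zero _ (hφ _ (by rw [lev_mv, h.1]; omega))]

abbrev Vx := List Bool × Bool

def lv (r : ℕ) (v : Vx) : ℤ := lev r (0, v)

lemma lv_le (v : Vx) : lv r v ≤ 0 := by
  have := lev_le r 0 v.1 v.2
  unfold lv; simp only [Prod.mk.eta] at this; omega

lemma dl_zz (v : Vx) : dl (0, v) 1 * (zz r * dl (0, v) 1) = zz r := by
  ext ω
  · have : (zz r * dl (0, v) 1).f = fun ω => (zz r).f ω - (dl (0, v) 1 : Gam r).f ω := by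
      funext ω
      rw [mul_f, act_zz]
      split_ifs with h
      · ring
      · rw [dl_ne (fun h' => h (by rw [h']))]; ring
    rw [mul_f, act_hi (dl_le (0, v) 1), this]
    · ring
    · intro ω h
      rw [this]
      have := lv_le (r := r) v
      simp only
      rw [zz, dl_ne, dl_ne]
      · rfl
      · rintro rfl; omega
      · rintro rfl; rw [lev2] at h; unfold lv at this; omega
  · simp

noncomputable def nn (γ : Gam r) (ω : Om) : ℤ := γ.f ω - γ.f (w1 r) * af r ω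

lemma nadd {τ : Gam r} {L : ℤ} (hk : τ.k = 0) (h : ∀ ω, L < lev r ω → nn τ ω = 0) (σ : Gam r) {ω : Om}
    (hω : L ≤ lev r ω) : nn (τ * σ) ω = nn τ ω + nn σ ω := by
  have e : act τ σ.f = act (am r (-τ.f (w1 r)) * τ) σ.f := by rw [act_mul, act_am]
  have hle : Le (am r (-τ.f (w1 r)) * τ) L := ⟨by simp [hk], fun ω hω => by
    have := h ω hω
    rw [am_mul_f]; unfold nn at this; linarith⟩
  simp only [nn, mul_f, e]
  rw [tri hle _ hω]
  by_cases h1 : lev r ω = 1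
  · rw [tri hle _ (by rw [lev1]; omega)]; ring
  · rw [af_lev h1]; ring

noncomputable def nfe (v : Vx) (η : Gam r) : Gam r :=
  rs (fun ω => lv r v < lev r ω) (am r (-η.f (w1 r)) * η) * tt η.k

@[simp] lemma nfe_k (v : Vx) (η : Gam r) : (nfe v η).k = η.k := by simp [nfe]
lemma nfe_f (v : Vx) (η : Gam r) (ω : Om) : (nfe v η).f ω = if lv r v < lev r ω then nn η ω else 0 := by
  rw [nfe, mul_f, act_zero _ rfl, add_zero]
  split_ifs with h
  · rw [rs_pos _ h, am_mul_f, nn]; ring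
  · rw [rs_neg _ h]

lemma le_w1 {v : Vx} {s : Gam r} (h : Le s (lv r v)) (η : Gam r) : (s * η).f (w1 r) = η.f (w1 r) := by
  have := lv_le (r := r) v
  rw [mul_f, h.2 _ (by rw [lev1]; omega), tri h _ (by rw [lev1]; omega), zero_add]

lemma nfe_s {v : Vx} {s : Gam r} (h : Le s (lv r v)) (η : Gam r) : nfe v (s * η) = nfe v η := by
  ext ω
  · rw [nfe_f, nfe_f]
    split_ifs with h1
    · rw [nn, nn, le_w1 h, mul_f, h.2 _ h1, tri h _ h1.le, zero_add]
    · rfl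
  · simp [h.1]

variable [NeZero r]

lemma am_w1 (c : ℤ) (η : Gam r) : (am r c * η).f (w1 r) = c + η.f (w1 r) := by
  rw [am_mul_f, af_w1, mul_one]

lemma uu_w1 (η : Gam r) : (uu r * η).f (w1 r) = -η.f (w1 r) := by
  rw [mul_f, uu_f, act_uu, if_neg w12, if_neg w13, if_pos (Or.inr (show (w1 r).1 = 1 from rfl))]; simp

lemma nfe_a (v : Vx) (c : ℤ) (η : Gam r) : nfe v (am r c * η) = nfe v η := by
  ext ω
  · rw [nfe_f, nfe_f, nn, nn, am_w1, am_mul_f]
    split_ifs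
    · ring
    · rfl
  · simp

lemma nfe_u (v : Vx) (η : Gam r) : nfe v (uu r * η) = uu r * nfe v η := by
  ext ω
  · rw [nfe_f, nn, uu_w1, mul_f, mul_f, act_uu, act_uu, nfe_f, nn]
    by_cases h : lv r v < lev r ω
    · simp only [h, if_true]
      split_ifs with h1
      · ring
      · rw [af_blk (by tauto)]; ring
    · have := lv_le (r := r) v
      rw [uu_f, if_neg (show ¬ ω = w2 r by rintro rfl; rw [lev2] at h; omega),
        if_neg (show ¬ ω = w3 r by rintro rfl; rw [lev3] at h; omega)]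
      simp [h]
  · simp

omit [NeZero r] in
lemma nfe_dec (v : Vx) (η : Gam r) :
    ∃ s, Le s (lv r v) ∧ η = s * (am r (η.f (w1 r)) * nfe v η) := by
  have hl : Le (rs (fun ω => lev r ω ≤ lv r v) η) (lv r v) := ⟨rfl, fun ω h => rs_neg _ (by omega)⟩
  have := lv_le (r := r) v
  refine ⟨_, hl, ?_⟩
  ext ω
  · rw [mul_f, act_hi hl fun ω h => by
      rw [am_mul_f, nfe_f, if_neg (by omega), af_lev (by omega)]; simp, am_mul_f, nfe_f]
    split_ifs with h
    · rw [rs_neg _ (by omega), nn]; ring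
    · rw [rs_pos (p := fun ω => lev r ω ≤ lv r v) _ (by omega), af_lev (by omega)]; ring
  · simp

def key (r : ℕ) (ω : Om) : ℤ ×ₗ ℕ := toLex (lev r ω, Encodable.encode ω)

omit [NeZero r] in
lemma key_inj {a b : Om} (h : key r a = key r b) : a = b :=
  Encodable.encode_injective (congrArg (fun x => (ofLex x).2) h)

omit [NeZero r] in
lemma key_lev {a b : Om} (h : key r a ≤ key r b) : lev r a ≤ lev r b := by
  rcases Prod.Lex.toLex_le_toLex.1 h with h | h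
  · exact h.le
  · exact h.1.le

omit [NeZero r] in
lemma key_lt {a b : Om} (h : lev r a < lev r b) : key r a < key r b :=
  Prod.Lex.toLex_lt_toLex.2 (Or.inl h)

def QQ (v : Vx) (τ : Gam r) : Prop :=
  τ.k = 0 ∧ ∃ ω, lv r v < lev r ω ∧ 0 < nn τ ω ∧ ∀ ω', key r ω < key r ω' → nn τ ω' = 0

def EE (v : Vx) (τ : Gam r) : Prop := τ.k = 0 ∧ ∀ ω, lv r v < lev r ω → nn τ ω = 0

omit [NeZero r]

lemma QQ.mul {v : Vx} {τ σ : Gam r} (h : QQ v τ) (h' : QQ v σ) : QQ v (τ * σ) := by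
  obtain ⟨k1, a, a1, a2, a3⟩ := h
  obtain ⟨k2, b, b1, b2, b3⟩ := h'
  have e := fun ω => nadd (ω := ω) k1 (fun ω h => a3 ω (key_lt h)) σ
  refine ⟨by simp [k1, k2], ?_⟩
  rcases lt_trichotomy (key r a) (key r b) with h | h | h
  · refine ⟨b, b1, by rw [e _ (key_lev h.le), a3 _ h]; omega, fun ω hω => ?_⟩
    rw [e _ (key_lev (h.trans hω).le), a3 _ (h.trans hω), b3 _ hω]; rfl
  · obtain rfl := key_inj h
    refine ⟨a, a1, by rw [e _ le_rfl]; omega, fun ω hω => ?_⟩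
    rw [e _ (key_lev hω.le), a3 _ hω, b3 _ hω]; rfl
  · refine ⟨a, a1, by rw [e _ le_rfl, b3 _ h]; omega, fun ω hω => ?_⟩
    rw [e _ (key_lev hω.le), a3 _ hω, b3 _ (h.trans hω)]; rfl

lemma QQ.mul_E {v : Vx} {τ σ : Gam r} (h : QQ v τ) (h' : EE v σ) : QQ v (τ * σ) := by
  obtain ⟨k1, a, a1, a2, a3⟩ := h
  have e := fun ω => nadd (ω := ω) k1 (fun ω h => a3 ω (key_lt h)) σ
  refine ⟨by simp [k1, h'.1], a, a1, by rw [e _ le_rfl, h'.2 _ a1]; omega, fun ω hω => ?_⟩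
  have := key_lev hω.le
  rw [e _ this, a3 _ hω, h'.2 _ (by omega)]; rfl

lemma EE.mul_Q {v : Vx} {τ σ : Gam r} (h : EE v τ) (h' : QQ v σ) : QQ v (τ * σ) := by
  obtain ⟨k1, a, a1, a2, a3⟩ := h'
  have e := fun ω => nadd (ω := ω) h.1 h.2 σ
  refine ⟨by simp [k1, h.1], a, a1, by rw [e _ a1.le, h.2 _ a1]; omega, fun ω hω => ?_⟩
  have := key_lev hω.le
  rw [e _ (by omega), a3 _ hω, h.2 _ (by omega)]; rfl

lemma nn_one (ω : Om) : nn (1 : Gam r) ω = 0 := by simp [nn]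

lemma EE.inv {v : Vx} {τ : Gam r} (h : EE v τ) : EE v τ⁻¹ :=
  ⟨by simp [h.1], fun ω hω => by
    have := nadd h.1 h.2 τ⁻¹ hω.le
    rw [mul_inv_cancel, nn_one, h.2 _ hω] at this; omega⟩

lemma QQ.not_E {v : Vx} {τ : Gam r} (h : QQ v τ) : ¬ EE v τ := fun h' => by
  obtain ⟨_, a, a1, a2, _⟩ := h
  rw [h'.2 _ a1] at a2; omega

lemma QQ_inv {v : Vx} {τ : Gam r} (hk : τ.k = 0) {a : Om} (a1 : lv r v < lev r a) (a2 : nn τ a < 0)
    (a3 : ∀ ω', key r a < key r ω' → nn τ ω' = 0) : QQ v τ⁻¹ := by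
  have e := fun ω => nadd (ω := ω) hk (fun ω h => a3 ω (key_lt h)) τ⁻¹
  simp only [mul_inv_cancel, nn_one] at e
  refine ⟨by simp [hk], a, a1, by have := e _ le_rfl; omega, fun ω hω => ?_⟩
  have := e _ (key_lev hω.le)
  rw [a3 _ hω] at this; omega

lemma QQ_tri (v : Vx) {τ : Gam r} (hk : τ.k = 0) : QQ v τ ∨ QQ v τ⁻¹ ∨ EE v τ := by
  by_cases h : ∃ ω, lv r v < lev r ω ∧ nn τ ω ≠ 0
  · have hf : {ω | lv r v < lev r ω ∧ nn τ ω ≠ 0}.Finite :=
      (fin_supp (am r (-τ.f (w1 r)) * τ)).subset fun ω hω h0 => hω.2 (by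
        rw [am_mul_f] at h0; unfold nn; linarith)
    obtain ⟨a, ⟨a1, a2⟩, a3⟩ := Set.exists_max_image _ (key r) hf h
    have a4 : ∀ ω', key r a < key r ω' → nn τ ω' = 0 := fun ω hω => by
      by_contra h0
      have := key_lev hω.le
      exact absurd (a3 ω ⟨by omega, h0⟩) (not_le.2 hω)
    rcases lt_or_gt_of_ne a2 with h1 | h1
    · exact Or.inr (Or.inl (QQ_inv hk a1 h1 a4))
    · exact Or.inl ⟨hk, a, a1, h1, a4⟩
  · push Not at h
    exact Or.inr (Or.inr ⟨hk, h⟩)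

lemma QQ_uu [NeZero r] (v : Vx) : QQ v (uu r)⁻¹ := by
  have := lv_le (r := r) v
  have e : ∀ ω, nn (uu r) ω = (uu r).f ω := fun ω => by
    rw [nn, uu_f (w1 r), if_neg w12, if_neg w13]; simp
  refine QQ_inv rfl (a := w3 r) (by rw [lev3]; omega) (by rw [e, uu_f, if_neg w23.symm]; simp) fun ω h => ?_
  rw [e, uu_f, if_neg, if_neg]; · rfl
  · rintro rfl; exact lt_irrefl _ h
  · rintro rfl; have := key_lev h.le; rw [lev2, lev3] at this; omega

lemma EE_of [NeZero r] {v : Vx} {s : Gam r} (h : Le s (lv r v)) (c : ℤ) : EE v (s * am r c) :=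
  ⟨by simp [h.1], fun ω hω => by
    rw [nn, le_w1 h, mul_f, h.2 _ hω, tri h _ hω.le, am_f, am_f, af_w1]; ring⟩

lemma EE.dec {v : Vx} {τ : Gam r} (h : EE v τ) : ∃ s c, Le s (lv r v) ∧ τ = s * am r c := by
  obtain ⟨s, h1, h2⟩ := nfe_dec v τ
  have : nfe v τ = 1 := by
    ext ω
    · rw [nfe_f]; split_ifs with h3
      · exact h.2 _ h3
      · rfl
    · simp [h.1]
  exact ⟨s, _, h1, by rwa [this, mul_one] at h2⟩

abbrev Ix (r : ℕ) := Vx × Gam r

def lI (i : Ix r) : ℤ := lv r i.1 - i.2.k * (r + 2)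

def Lt (i j : Ix r) : Prop := lI i < lI j ∨ (lI i = lI j ∧
  (Encodable.encode i.1 < Encodable.encode j.1 ∨ (i.1 = j.1 ∧ QQ i.1 (j.2 * i.2⁻¹))))

def Eqv (i j : Ix r) : Prop := i.1 = j.1 ∧ EE i.1 (j.2 * i.2⁻¹)

lemma Eqv.lI {i j : Ix r} (h : Eqv i j) : lI i = lI j := by
  have := h.2.1
  simp only [mul_k, inv_k] at this
  rw [Ord.lI, Ord.lI, h.1, show i.2.k = j.2.k by omega]

lemma Eqv.symm {i j : Ix r} (h : Eqv i j) : Eqv j i :=
  ⟨h.1.symm, by have := h.2.inv; rw [← h.1]; simpa using this⟩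

lemma Lt.le {i j : Ix r} (h : Lt i j) : lI i ≤ lI j := by
  rcases h with h | h
  · exact h.le
  · exact h.1.le

lemma Lt.trans {i j l : Ix r} (h : Lt i j) (h' : Lt j l) : Lt i l := by
  rcases h with h | ⟨h, h1⟩
  · exact Or.inl (h.trans_le h'.le)
  rcases h' with h' | ⟨h', h2⟩
  · exact Or.inl (h ▸ h')
  refine Or.inr ⟨h.trans h', ?_⟩
  rcases h1 with h1 | ⟨h1, q1⟩ <;> rcases h2 with h2 | ⟨h2, q2⟩
  · exact Or.inl (h1.trans h2)
  · exact Or.inl (h2 ▸ h1)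
  · exact Or.inl (h1 ▸ h2)
  · rw [← h1] at q2
    exact Or.inr ⟨h1.trans h2, by simpa [mul_assoc] using q2.mul q1⟩

lemma Lt.eqv {i j l : Ix r} (h : Lt i j) (h' : Eqv j l) : Lt i l := by
  rcases h with h | ⟨h, h1 | ⟨h1, q⟩⟩
  · exact Or.inl (h'.lI ▸ h)
  · exact Or.inr ⟨h.trans h'.lI, Or.inl (h'.1 ▸ h1)⟩
  · have := h'.2
    rw [← h1] at this
    exact Or.inr ⟨h.trans h'.lI, Or.inr ⟨h1.trans h'.1, by simpa [mul_assoc] using this.mul_Q q⟩⟩

lemma Eqv.lt {i j l : Ix r} (h' : Eqv i j) (h : Lt j l) : Lt i l := by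
  rcases h with h | ⟨h, h1 | ⟨h1, q⟩⟩
  · exact Or.inl (h'.lI ▸ h)
  · exact Or.inr ⟨h'.lI.trans h, Or.inl (h'.1 ▸ h1)⟩
  · rw [← h'.1] at q
    exact Or.inr ⟨h'.lI.trans h, Or.inr ⟨h'.1.trans h1, by simpa [mul_assoc] using q.mul_E h'.2⟩⟩

lemma Lt.not_eqv {i j : Ix r} (h : Lt i j) : ¬ Eqv i j := fun h' => by
  rcases h with h | ⟨h, h1 | ⟨h1, q⟩⟩
  · exact absurd h'.lI h.ne
  · rw [h'.1] at h1; omega
  · exact q.not_E h'.2

lemma Eqv.refl (i : Ix r) : Eqv i i := ⟨rfl, by simp, fun ω _ => by rw [mul_inv_cancel, nn_one]⟩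

lemma Lt.irrefl (i : Ix r) : ¬ Lt i i := fun h => h.not_eqv (Eqv.refl i)

lemma Lt.tri (i j : Ix r) : Lt i j ∨ Lt j i ∨ Eqv i j := by
  rcases lt_trichotomy (lI i) (lI j) with h | h | h
  · exact Or.inl (Or.inl h)
  · rcases lt_trichotomy (Encodable.encode i.1) (Encodable.encode j.1) with h1 | h1 | h1
    · exact Or.inl (Or.inr ⟨h, Or.inl h1⟩)
    · have h2 := Encodable.encode_injective h1
      have hk : (j.2 * i.2⁻¹).k = 0 := by
        simp only [lI, h2, sub_right_inj] at h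
        have := mul_right_cancel₀ (by omega) h
        simp [this]
      rcases QQ_tri i.1 hk with q | q | q
      · exact Or.inl (Or.inr ⟨h, Or.inr ⟨h2, q⟩⟩)
      · exact Or.inr (Or.inl (Or.inr ⟨h.symm, Or.inr ⟨h2.symm, by rw [← h2]; simpa using q⟩⟩))
      · exact Or.inr (Or.inr ⟨h2, q⟩)
    · exact Or.inr (Or.inl (Or.inr ⟨h.symm, Or.inl h1⟩))
  · exact Or.inr (Or.inl (Or.inl h))

noncomputable def rm (γ : Gam r) (i : Ix r) : Ix r := (i.1, i.2 * γ⁻¹)
noncomputable def la (c : ℤ) (i : Ix r) : Ix r := (i.1, am r c * i.2)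
noncomputable def lu (i : Ix r) : Ix r := (i.1, uu r * i.2)
noncomputable def nf (i : Ix r) : Ix r := (i.1, nfe i.1 i.2)

lemma lI_rm (γ : Gam r) (i : Ix r) : lI (rm γ i) = lI i + γ.k * (r + 2) := by
  simp only [lI, rm, mul_k, inv_k]; ring

lemma Lt.rm {i j : Ix r} (h : Lt i j) (γ : Gam r) : Lt (rm γ i) (rm γ j) := by
  rcases h with h | ⟨h, h1 | ⟨h1, q⟩⟩
  · left; rw [lI_rm, lI_rm]; omega
  · exact Or.inr ⟨by rw [lI_rm, lI_rm, h], Or.inl h1⟩
  · exact Or.inr ⟨by rw [lI_rm, lI_rm, h], Or.inr ⟨h1, by simpa [Ord.rm, mul_assoc] using q⟩⟩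

variable [NeZero r]

lemma lt_lu (i : Ix r) : Lt (lu i) i :=
  Or.inr ⟨by simp [lI, lu], Or.inr ⟨rfl, by simpa [lu] using QQ_uu i.1⟩⟩

lemma eqv_nf (i : Ix r) : Eqv (nf i) i := by
  obtain ⟨s, h1, h2⟩ := nfe_dec i.1 i.2
  refine ⟨rfl, ?_⟩
  have : i.2 * (nf i).2⁻¹ = s * am r (i.2.f (w1 r)) := by
    rw [mul_inv_eq_iff_eq_mul, mul_assoc]; exact h2
  rw [this]; exact EE_of h1 _

lemma Eqv.nf {i j : Ix r} (h : Eqv i j) : nf i = nf j := by
  obtain ⟨s, c, h1, h2⟩ := h.2.dec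
  rw [mul_inv_eq_iff_eq_mul] at h2
  rw [Ord.nf, Ord.nf, ← h.1, h2, mul_assoc, nfe_s h1, nfe_a]

lemma nf_lu (i : Ix r) : nf (lu i) = lu (nf i) := by simp [nf, lu, nfe_u]

end Pool.Agent.H64.Ord
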