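import Mathlib
import Pool.Agent.H64.Ord4

/-! An ordered module over the tree group. -/

set_option autoImplicit false

namespace Pool.Agent.H64.Ord

variable {r : ℕ}

abbrev FF (r : ℕ) := Ix r →₀ ℚ

noncomputable def sgl (i : Ix r) : FF r := Finsupp.single i 1

noncomputable def Rel (r : ℕ) : Submodule ℚ (FF r) := Submodule.span ℚ
  {x | (∃ i, x = sgl (la 1 i) - ((2 : ℚ) • sgl i + sgl (lu i))) ∨
    ∃ v η s, Le s (lv r v) ∧ x = sgl (v, s * η) - sgl (v, η)}

def MM (r : ℕ) : Type := FF r ⧸ Rel r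

noncomputable instance : AddCommGroup (MM r) := inferInstanceAs (AddCommGroup (FF r ⧸ Rel r))
noncomputable instance : Module ℚ (MM r) := inferInstanceAs (Module ℚ (FF r ⧸ Rel r))

noncomputable def mk : FF r →ₗ[ℚ] MM r := (Rel r).mkQ

noncomputable def bas (i : Ix r) : MM r := mk (sgl i)

lemma mk_rel {x : FF r} (h : x ∈ Rel r) : mk x = 0 := (Submodule.Quotient.mk_eq_zero _).2 h

lemma rel1 (i : Ix r) : bas (la 1 i) = (2 : ℚ) • bas i + bas (lu i) := by
  have := mk_rel (r := r) (Submodule.subset_span (Or.inl ⟨i, rfl⟩))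
  rwa [map_sub, map_add, map_smul, sub_eq_zero] at this

lemma rel2 {v : Vx} {s : Gam r} (h : Le s (lv r v)) (η : Gam r) : bas (v, s * η) = bas (v, η) := by
  have := mk_rel (r := r) (Submodule.subset_span (Or.inr ⟨v, η, s, h, rfl⟩))
  rwa [map_sub, sub_eq_zero] at this

lemma bas_ind (p : Submodule ℚ (MM r)) (h : ∀ i, bas i ∈ p) (m : MM r) : m ∈ p := by
  obtain ⟨x, rfl⟩ : ∃ x, mk x = m := (Rel r).mkQ_surjective m
  induction x using Finsupp.induction_linear with
  | zero => simp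
  | add f g hf hg => rw [map_add]; exact p.add_mem hf hg
  | single i q =>
    have : Finsupp.single i q = q • sgl i := by simp [sgl]
    rw [this, map_smul]; exact p.smul_mem _ (h i)

lemma M_ext {N : Type} [AddCommGroup N] [Module ℚ N] {f g : MM r →ₗ[ℚ] N} (h : ∀ i, f (bas i) = g (bas i))
    (m : MM r) : f m = g m := bas_ind (LinearMap.eqLocus f g) h m

lemma exists_lift {N : Type} [AddCommGroup N] [Module ℚ N] (g : Ix r → N)
    (h1 : ∀ i, g (la 1 i) = (2 : ℚ) • g i + g (lu i))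
    (h2 : ∀ v η s, Le s (lv r v) → g (v, s * η) = g (v, η)) :
    ∃ f : MM r →ₗ[ℚ] N, ∀ i, f (bas i) = g i := by
  refine ⟨(Rel r).liftQ (Finsupp.linearCombination ℚ g) ?_, fun i => ?_⟩
  · rw [Rel, Submodule.span_le]
    rintro x (⟨i, rfl⟩ | ⟨v, η, s, h, rfl⟩)
    · simp [sgl, h1]
    · simp [sgl, h2 v η s h]
  · exact (Submodule.liftQ_apply _ _ _).trans (by simp [sgl])

lemma exists_rho (γ : Gam r) : ∃ f : MM r →ₗ[ℚ] MM r, ∀ i, f (bas i) = bas (rm γ i) :=
  exists_lift _ (fun i => by simpa [rm, la, lu, mul_assoc] using rel1 (rm γ i))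
    (fun v η s h => by simpa [rm, mul_assoc] using rel2 h (η * γ⁻¹))

noncomputable def rho (γ : Gam r) : MM r →ₗ[ℚ] MM r := (exists_rho γ).choose
lemma rho_bas (γ : Gam r) (i : Ix r) : rho γ (bas i) = bas (rm γ i) := (exists_rho γ).choose_spec i

lemma rho_mul (γ δ : Gam r) (m : MM r) : rho (γ * δ) m = rho γ (rho δ m) :=
  M_ext (g := rho γ ∘ₗ rho δ) (fun i => by simp [rho_bas, rm, mul_assoc]) m

lemma rho_one (m : MM r) : rho (1 : Gam r) m = m :=
  M_ext (g := LinearMap.id) (fun i => by simp [rho_bas, rm]) m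

lemma rho_fix {τ : Gam r} {L : ℤ} (h : Le τ L) {i : Ix r} (hi : L ≤ lI i) : rho τ (bas i) = bas i := by
  have := rel2 (v := i.1) ((h.inv.conj i.2).mono (by unfold lI at hi; omega)) i.2
  rw [rho_bas, rm]; simpa using this

noncomputable def actL (γ : Gam r) : (Om → ℚ) →ₗ[ℚ] (Om → ℚ) where
  toFun := act γ
  map_add' φ ψ := funext fun ω => act_add γ φ ψ ω
  map_smul' q φ := funext fun ω => by simp only [act, Pi.smul_apply, smul_eq_mul, RingHom.id_apply]; ring

noncomputable def dq (v : Vx) : Om → ℚ := Pi.single (0, v) 1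

lemma exists_pi : ∃ f : MM r →ₗ[ℚ] (Om → ℚ), ∀ i, f (bas i) = act i.2⁻¹ (dq i.1) := by
  refine exists_lift _ (fun i => ?_) (fun v η s h => ?_)
  · have e : act (uu r) (-dq i.1) = dq i.1 := by
      funext ω
      rw [act_uu]
      split_ifs with h
      · simp
      · simp only [dq, Pi.neg_apply]
        rw [Pi.single_eq_of_ne (fun h' => h (Or.inl (by rw [h'])))]; simp
    have e2 : act (uu r)⁻¹ (dq i.1) = -dq i.1 := by
      conv_lhs => rw [← e]
      rw [← act_mul, inv_mul_cancel, act_one]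
    simp only [la, lu, mul_inv_rev, act_mul, act_inv_fix (act_am _ _), e2]
    have := (actL i.2⁻¹).map_neg (dq i.1)
    simp only [actL, LinearMap.coe_mk, AddHom.coe_mk] at this
    rw [this]; module
  · simp only [mul_inv_rev, act_mul]
    rw [act_hi h.inv fun ω hω => Pi.single_eq_of_ne (by rintro rfl; exact lt_irrefl _ hω) _]

noncomputable def pi : MM r →ₗ[ℚ] (Om → ℚ) := exists_pi.choose
lemma pi_bas (i : Ix r) : pi (bas i) = act i.2⁻¹ (dq i.1) := exists_pi.choose_spec i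

lemma pi_rho (γ : Gam r) (m : MM r) : pi (rho γ m) = act γ (pi m) :=
  M_ext (f := pi ∘ₗ rho γ) (g := actL γ ∘ₗ pi) (fun i => by
    simp [rho_bas, pi_bas, rm, act_mul, actL]) m

lemma pi_lev (i : Ix r) {ω : Om} (h : lI i < lev r ω) : pi (bas i) ω = 0 := by
  rw [pi_bas, act_zero]
  apply Pi.single_eq_of_ne
  intro h'
  have := lev_mv i.2⁻¹ ω
  rw [h', inv_k] at this
  unfold lI lv at h; rw [neg_mul] at this; omega

noncomputable def pr : ℕ → (Ix r → FF r) × (Ix r → FF r)
  | 0 => (sgl, sgl)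
  | k + 1 => (fun i => (2 : ℚ) • (pr k).1 i + (pr k).2 (lu i),
      fun i => (1 / 2 : ℚ) • ((pr k).2 i - ((2 : ℚ) • (pr k).1 (lu i) + (pr k).2 (lu (lu i)))))

noncomputable def pp (c : ℤ) (i : Ix r) : FF r := if 0 ≤ c then (pr c.toNat).1 i else (pr (-c).toNat).2 i

lemma pp_nat (k : ℕ) (i : Ix r) : pp k i = (pr k).1 i := by simp [pp]
lemma pp_neg (k : ℕ) (i : Ix r) : pp (-k) i = (pr k).2 i := by
  cases k with
  | zero => rfl
  | succ k => rw [pp, if_neg (by omega), neg_neg, Int.toNat_natCast]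

lemma pp_rec (c : ℤ) (i : Ix r) : pp (c + 1) i = (2 : ℚ) • pp c i + pp (-c) (lu i) := by
  rcases le_or_gt 0 c with h | h
  · lift c to ℕ using h
    rw [← Nat.cast_succ, pp_nat, pp_nat, pp_neg]; rfl
  · obtain ⟨k, rfl⟩ : ∃ k : ℕ, c = -((k + 1 : ℕ) : ℤ) := ⟨(-c - 1).toNat, by omega⟩
    rw [show -((k + 1 : ℕ) : ℤ) + 1 = -(k : ℤ) by omega, neg_neg, pp_neg, pp_neg, pp_nat]
    simp only [pr]; module

lemma rel1' (c : ℤ) (i : Ix r) : bas (la (c + 1) i) = (2 : ℚ) • bas (la c i) + bas (la (-c) (lu i)) := by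
  have := rel1 (la c i)
  simp only [la, lu, ← mul_assoc, ← am_add, uu_am] at this ⊢
  rwa [add_comm c]

lemma mk_pp (c : ℤ) (i : Ix r) : mk (pp c i) = bas (la c i) := by
  have : ∀ k : ℕ, ∀ i : Ix r, mk (pp k i) = bas (la k i) ∧ mk (pp (-k) i) = bas (la (-k) i) := by
    intro k
    induction k with
    | zero => intro i; simp [pp, pr, la, am_zero, bas]
    | succ k ih =>
      have h1 : ∀ i : Ix r, mk (pp (k + 1) i) = bas (la (k + 1) i) := fun i => by
        rw [pp_rec, rel1', map_add, map_smul, (ih _).1, (ih _).2]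
      intro i
      refine ⟨h1 i, ?_⟩
      have e1 := congrArg mk (pp_rec (-(k + 1)) i)
      have e2 := rel1' (-(k + 1)) i
      rw [show -((k : ℤ) + 1) + 1 = -k by ring, neg_neg] at e1 e2
      rw [map_add, map_smul, (ih _).2, h1, e2] at e1
      exact (smul_right_injective _ two_ne_zero (add_right_cancel e1)).symm
  rcases Int.eq_nat_or_neg c with ⟨k, rfl | rfl⟩
  · exact (this k i).1
  · exact (this k i).2

def UU (i : Ix r) : Set (Ix r) := {j | ∃ n, j = lu^[n] (lu i)}

lemma lead (c : ℤ) (i : Ix r) : ∃ q : ℚ, 0 < q ∧ pp c i - q • sgl i ∈ Finsupp.supported ℚ ℚ (UU i) := by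
  have sub : ∀ (x : FF r) (i : Ix r), (∃ q : ℚ, 0 < q ∧ x - q • sgl (lu i) ∈ Finsupp.supported ℚ ℚ (UU (lu i))) →
      x ∈ Finsupp.supported ℚ ℚ (UU i) := by
    rintro x i ⟨q, _, h⟩
    have h1 : x - q • sgl (lu i) ∈ Finsupp.supported ℚ ℚ (UU i) :=
      Finsupp.supported_mono (by rintro _ ⟨n, rfl⟩; exact ⟨n + 1, rfl⟩) h
    have h2 : sgl (lu i) ∈ Finsupp.supported ℚ ℚ (UU i) := Finsupp.single_mem_supported _ _ ⟨0, rfl⟩
    simpa using Submodule.add_mem _ h1 (Submodule.smul_mem _ q h2)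
  have : ∀ k : ℕ, ∀ i : Ix r, (∃ q : ℚ, 0 < q ∧ pp k i - q • sgl i ∈ Finsupp.supported ℚ ℚ (UU i)) ∧
      ∃ q : ℚ, 0 < q ∧ pp (-k) i - q • sgl i ∈ Finsupp.supported ℚ ℚ (UU i) := by
    intro k
    induction k with
    | zero => intro i; exact ⟨⟨1, one_pos, by simp [pp, pr]⟩, ⟨1, one_pos, by simp [pp, pr]⟩⟩
    | succ k ih =>
      have h1 : ∀ i : Ix r, ∃ q : ℚ, 0 < q ∧ pp (k + 1) i - q • sgl i ∈ Finsupp.supported ℚ ℚ (UU i) := by
        intro i
        obtain ⟨q, h1, h2⟩ := (ih i).1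
        refine ⟨2 * q, by positivity, ?_⟩
        have := Submodule.add_mem _ (Submodule.smul_mem _ (2 : ℚ) h2) (sub _ _ (ih (lu i)).2)
        rw [pp_rec]; convert this using 1; module
      intro i
      refine ⟨h1 i, ?_⟩
      obtain ⟨q, h2, h3⟩ := (ih i).2
      refine ⟨q / 2, by positivity, ?_⟩
      have e1 := pp_rec (-(k + 1)) i
      rw [show -((k : ℤ) + 1) + 1 = -k by ring, neg_neg] at e1
      have := Submodule.smul_mem _ (1 / 2 : ℚ) (Submodule.sub_mem _ h3 (sub _ _ (h1 (lu i))))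
      rw [e1] at this
      push_cast
      convert this using 1; module
  rcases Int.eq_nat_or_neg c with ⟨k, rfl | rfl⟩
  · exact (this k i).1
  · exact (this k i).2

noncomputable def Low (i : Ix r) : Submodule ℚ (MM r) := Submodule.span ℚ (bas '' {j | Lt j i})

lemma low_bas {i j : Ix r} (h : Lt j i) : bas j ∈ Low i := Submodule.subset_span ⟨j, h, rfl⟩

lemma low_mono {i j : Ix r} (h : ∀ l, Lt l i → Lt l j) : Low i ≤ Low j :=
  Submodule.span_mono (Set.image_mono h)

lemma mk_low {i : Ix r} {x : FF r} (h : x ∈ Finsupp.supported ℚ ℚ {j | Lt j i}) : mk x ∈ Low i := by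
  rw [Finsupp.supported_eq_span_single] at h
  have := Submodule.mem_map_of_mem (f := mk) h
  rwa [Submodule.map_span, Set.image_image] at this

def Pos (m : MM r) : Prop := ∃ i, ∃ q : ℚ, 0 < q ∧ m - q • bas i ∈ Low i

lemma low_rho {i : Ix r} {m : MM r} (h : m ∈ Low i) (γ : Gam r) : rho γ m ∈ Low (rm γ i) := by
  have : Low i ≤ (Low (rm γ i)).comap (rho γ) := Submodule.span_le.2 (by
    rintro _ ⟨j, hj, rfl⟩
    show rho γ (bas j) ∈ Low _
    rw [rho_bas]; exact low_bas (Lt.rm hj γ))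
  exact this h

lemma Pos.rho {m : MM r} (h : Pos m) (γ : Gam r) : Pos (rho γ m) := by
  obtain ⟨i, q, h1, h2⟩ := h
  exact ⟨rm γ i, q, h1, by simpa [rho_bas] using low_rho h2 γ⟩

lemma low_pi {i : Ix r} {m : MM r} {q : ℚ} (h : m - q • bas i ∈ Low i) {ω : Om} (hω : lI i < lev r ω) :
    pi m ω = 0 := by
  have : Low i ≤ LinearMap.ker (LinearMap.proj ω ∘ₗ pi) := Submodule.span_le.2 (by
    rintro _ ⟨j, hj, rfl⟩
    exact pi_lev j (lt_of_le_of_lt (Lt.le hj) hω))
  have := this h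
  simpa [pi_lev i hω] using this

lemma low_sub {τ : Gam r} {i : Ix r} (h : Le τ (lI i)) (m : MM r) : m - rho τ m ∈ Low i := by
  refine bas_ind ((Low i).comap (LinearMap.id - rho τ)) (fun j => ?_) m
  show bas j - rho τ (bas j) ∈ Low i
  rcases le_or_gt (lI i) (lI j) with h1 | h1
  · rw [rho_fix h h1, sub_self]; exact zero_mem _
  · rw [rho_bas]
    exact sub_mem (low_bas (Or.inl h1)) (low_bas (Or.inl (by rw [lI_rm, h.1]; omega)))

variable [NeZero r]

lemma UU_lt {i j : Ix r} (h : j ∈ UU i) : Lt j i := by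
  obtain ⟨n, rfl⟩ := h
  induction n with
  | zero => exact lt_lu i
  | succ n ih => rw [Function.iterate_succ_apply']; exact (lt_lu _).trans ih

lemma UU_nf {i j : Ix r} (h : j ∈ UU i) (hi : nf i = i) : nf j = j := by
  obtain ⟨n, rfl⟩ := h
  induction n with
  | zero => show nf (lu i) = lu i; rw [nf_lu, hi]
  | succ n ih => rw [Function.iterate_succ_apply', nf_lu, ih]

lemma exists_ev : ∃ f : MM r →ₗ[ℚ] FF r, ∀ i, f (bas i) = pp (i.2.f (w1 r)) (nf i) := by
  refine exists_lift _ (fun i => ?_) (fun v η s h => ?_)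
  · rw [nf_lu]
    simp only [la, lu, nf, am_w1, uu_w1, nfe_a]
    rw [add_comm, pp_rec]; rfl
  · simp only [nf, le_w1 h, nfe_s h]

noncomputable def ev : MM r →ₗ[ℚ] FF r := exists_ev.choose
lemma ev_bas (i : Ix r) : ev (bas i) = pp (i.2.f (w1 r)) (nf i) := exists_ev.choose_spec i

lemma mk_ev (m : MM r) : mk (ev m) = m :=
  M_ext (f := mk ∘ₗ ev) (g := LinearMap.id) (fun i => by
    obtain ⟨s, h1, h2⟩ := nfe_dec i.1 i.2
    have := rel2 h1 (am r (i.2.f (w1 r)) * nfe i.1 i.2)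
    rw [← h2] at this
    simp only [LinearMap.comp_apply, ev_bas, mk_pp, LinearMap.id_apply]
    exact this.symm) m

lemma bas_eqv {i j : Ix r} (h : Eqv i j) : ∃ q : ℚ, 0 < q ∧ bas j - q • bas i ∈ Low i := by
  obtain ⟨s, c, h1, h2⟩ := h.2.dec
  rw [mul_inv_eq_iff_eq_mul] at h2
  obtain ⟨q, h3, h4⟩ := lead c i
  refine ⟨q, h3, ?_⟩
  have := mk_low (Finsupp.supported_mono (fun j hj => UU_lt hj) h4)
  rw [map_sub, map_smul, mk_pp, la, ← rel2 h1, ← mul_assoc, ← h2, h.1] at this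
  exact this

lemma Pos.add {m n : MM r} (h : Pos m) (h' : Pos n) : Pos (m + n) := by
  obtain ⟨i, q, h1, h2⟩ := h
  obtain ⟨j, p, h3, h4⟩ := h'
  rcases Lt.tri i j with h | h | h
  · refine ⟨j, p, h3, ?_⟩
    have := add_mem (add_mem (low_mono (fun l hl => hl.trans h) h2) (Submodule.smul_mem _ q (low_bas h))) h4
    convert this using 1; module
  · refine ⟨i, q, h1, ?_⟩
    have := add_mem (add_mem (low_mono (fun l hl => hl.trans h) h4) (Submodule.smul_mem _ p (low_bas h))) h2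
    convert this using 1; module
  · obtain ⟨s, h5, h6⟩ := bas_eqv h
    refine ⟨i, q + p * s, by positivity, ?_⟩
    have := add_mem (add_mem h2 (low_mono (fun l hl => hl.eqv h.symm) h4)) (Submodule.smul_mem _ p h6)
    convert this using 1; module

lemma not_pos_zero : ¬ Pos (0 : MM r) := by
  rintro ⟨i, q, h1, h2⟩
  have key : ∀ j : Ix r, ¬ Lt i j → ∃ p : ℚ, 0 < p ∧ ev (bas j) (nf i) = p * sgl (nf j) (nf i) := by
    intro j hj
    obtain ⟨p, h3, h4⟩ := lead (j.2.f (w1 r)) (nf j)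
    refine ⟨p, h3, ?_⟩
    have := (Finsupp.mem_supported' _ _).1 h4 (nf i) fun h =>
      hj (((eqv_nf i).symm.lt (UU_lt h)).eqv (eqv_nf j))
    rw [ev_bas]; simpa [sub_eq_zero] using this
  have : Low i ≤ LinearMap.ker (Finsupp.lapply (nf i) ∘ₗ ev) := Submodule.span_le.2 (by
    rintro _ ⟨j, hj, rfl⟩
    obtain ⟨p, _, h⟩ := key j fun h => Lt.irrefl _ (h.trans hj)
    show ev (bas j) (nf i) = 0
    rw [h, sgl, Finsupp.single_eq_of_ne', mul_zero]
    intro e
    have h5 := ((eqv_nf j).lt hj).eqv (eqv_nf i).symm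
    rw [e] at h5; exact Lt.irrefl _ h5)
  have := this h2
  obtain ⟨p, h3, h⟩ := key i (Lt.irrefl i)
  simp [h, sgl, h1.ne', h3.ne'] at this

lemma pos_tot {m : MM r} (hm : m ≠ 0) : Pos m ∨ Pos (-m) := by
  have h1 : ev m ∈ Finsupp.supported ℚ ℚ {j : Ix r | nf j = j} := by
    refine bas_ind ((Finsupp.supported ℚ ℚ {j : Ix r | nf j = j}).comap ev) (fun i => ?_) m
    obtain ⟨q, _, h⟩ := lead (i.2.f (w1 r)) (nf i)
    have e : nf (nf i) = nf i := (eqv_nf i).nf
    have h2 := Finsupp.supported_mono (t := {j : Ix r | nf j = j}) (fun j hj => UU_nf hj e) h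
    have h3 : sgl (nf i) ∈ Finsupp.supported ℚ ℚ {j : Ix r | nf j = j} := Finsupp.single_mem_supported _ _ e
    rw [Submodule.mem_comap, ev_bas]
    simpa using add_mem h2 (Submodule.smul_mem _ q h3)
  have h2 : (ev m).support.Nonempty := by
    rw [Finsupp.support_nonempty_iff]
    intro h; apply hm; rw [← mk_ev m, h, map_zero]
  have h3 : ∀ s : Finset (Ix r), s.Nonempty → ∃ i ∈ s, ∀ j ∈ s, ¬ Lt i j := by
    intro s hs
    induction hs using Finset.Nonempty.cons_induction with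
    | singleton a => exact ⟨a, by simp, by simpa using Lt.irrefl a⟩
    | cons a s _ _ ih =>
      obtain ⟨i, hi, h⟩ := ih
      by_cases ha : Lt i a
      · refine ⟨a, by simp, fun j hj => ?_⟩
        rcases Finset.mem_cons.1 hj with rfl | hj
        · exact Lt.irrefl _
        · exact fun h' => h j hj (ha.trans h')
      · refine ⟨i, Finset.mem_cons.2 (Or.inr hi), fun j hj => ?_⟩
        rcases Finset.mem_cons.1 hj with rfl | hj
        · exact ha
        · exact h j hj
  obtain ⟨i, hi, h4⟩ := h3 _ h2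
  have h5 : m - (ev m i) • bas i ∈ Low i := by
    have : ev m - (ev m i) • sgl i ∈ Finsupp.supported ℚ ℚ {j | Lt j i} := by
      rw [Finsupp.mem_supported']
      intro j hj
      by_cases e : j = i
      · simp [e, sgl]
      · have : ev m j = 0 := by
          by_contra h0
          have hj' := Finsupp.mem_support_iff.2 h0
          rcases Lt.tri i j with h | h | h
          · exact h4 j hj' h
          · exact hj h
          · have := h.nf
            rw [show nf i = i from h1 hi, show nf j = j from h1 hj'] at this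
            exact e this.symm
        simp [sgl, this, Finsupp.single_eq_of_ne e]
    have := mk_low this
    rwa [map_sub, map_smul, mk_ev] at this
  rcases lt_or_gt_of_ne (Finsupp.mem_support_iff.1 hi) with h | h
  · refine Or.inr ⟨i, -ev m i, by linarith, ?_⟩
    convert neg_mem h5 using 1; module
  · exact Or.inl ⟨i, _, h, h5⟩

end Pool.Agent.H64.Ord
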