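import Mathlib
import Pool.Agent.H64.Ord1
import Pool.Agent.H64.Ord5

/-! Orderable soluble groups with a unique proper normal relatively convex subgroup. -/

set_option autoImplicit false

namespace Pool.Agent.H64.Ord
open Pool.Agent.H64.OrdDefs
open scoped commutatorElement

variable {r : ℕ}

@[ext] structure SD (r : ℕ) where
  m : MM r
  g : Gam r

noncomputable instance : Mul (SD r) := ⟨fun x y => ⟨x.m + rho x.g y.m, x.g * y.g⟩⟩
noncomputable instance : One (SD r) := ⟨⟨0, 1⟩⟩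
noncomputable instance : Inv (SD r) := ⟨fun x => ⟨-rho x.g⁻¹ x.m, x.g⁻¹⟩⟩

@[simp] lemma mul_m (x y : SD r) : (x * y).m = x.m + rho x.g y.m := rfl
@[simp] lemma mul_g (x y : SD r) : (x * y).g = x.g * y.g := rfl
@[simp] lemma one_m : (1 : SD r).m = 0 := rfl
@[simp] lemma one_g : (1 : SD r).g = 1 := rfl
@[simp] lemma inv_m (x : SD r) : (x⁻¹).m = -rho x.g⁻¹ x.m := rfl
@[simp] lemma inv_g (x : SD r) : (x⁻¹).g = x.g⁻¹ := rfl

noncomputable instance : Group (SD r) := Group.ofRightAxioms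
  (fun a b c => by ext1 <;> simp [rho_mul, add_assoc, mul_assoc])
  (fun a => by ext1 <;> simp)
  (fun a => by ext1 <;> simp [← rho_mul, rho_one])

noncomputable def te (r : ℕ) : SD r := ⟨0, tt 1⟩
noncomputable def ee (v : Vx) : SD r := ⟨bas (v, 1), dl (0, v) 1⟩

noncomputable def G0 (r : ℕ) : Subgroup (SD r) := Subgroup.closure ({te r} ∪ {x | ∃ v, shape r (0, v) ∧ x = ee v})

lemma te_mem : te r ∈ G0 r := Subgroup.subset_closure (Or.inl rfl)
lemma ee_mem {v : Vx} (h : shape r (0, v)) : ee v ∈ G0 r := Subgroup.subset_closure (Or.inr ⟨v, h, rfl⟩)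

lemma cast_act (γ δ : Gam r) (ω : Om) : ((act γ δ.f ω : ℤ) : ℚ) = act γ (fun ω => (δ.f ω : ℚ)) ω := by
  simp [act]

lemma G0_pi {x : SD r} (h : x ∈ G0 r) : pi x.m = fun ω => (x.g.f ω : ℚ) := by
  induction h using Subgroup.closure_induction with
  | mem x h =>
    rcases h with rfl | ⟨v, hv, rfl⟩
    · funext ω; simp [te]
    · funext ω
      simp only [ee, pi_bas, inv_one, act_one, dl_f hv, dq, Pi.single_apply]
      split_ifs <;> simp
  | one => funext ω; simp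
  | mul x y _ _ hx hy =>
    funext ω
    simp only [mul_m, mul_g, map_add, pi_rho, hx, hy, Pi.add_apply, mul_f, Int.cast_add, cast_act]
  | inv x _ hx =>
    funext ω
    simp only [inv_m, inv_g, map_neg, pi_rho, hx, Pi.neg_apply, inv_f, Int.cast_neg, cast_act]

noncomputable def pj (r : ℕ) : G0 r →* Gam r where
  toFun x := x.1.g
  map_one' := rfl
  map_mul' _ _ := rfl

lemma pj_surj : Function.Surjective (pj r) := fun γ =>
  gen (pj r).range ⟨⟨_, te_mem⟩, rfl⟩ (fun _ h => ⟨⟨_, ee_mem h⟩, rfl⟩) γ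

lemma g_eq_one {x : SD r} (h : x ∈ G0 r) (hk : x.g.k = 0) (hm : x.m = 0) : x.g = 1 := by
  ext ω
  · have := congrFun (G0_pi h) ω
    rw [hm, map_zero, Pi.zero_apply] at this
    rw [one_f]
    exact_mod_cast this.symm
  · exact hk

lemma conj_m (y x : SD r) : (y * x * y⁻¹).m = rho y.g x.m + (y.m - rho (y.g * x.g * y.g⁻¹) y.m) := by
  simp only [mul_m, inv_m, mul_g, map_neg, ← rho_mul]; abel

variable [NeZero r]

noncomputable def c1 (r : ℕ) [NeZero r] : Cone (G0 r) where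
  P := {x | 0 < x.1.g.k ∨ (x.1.g.k = 0 ∧ (Pos x.1.m ∨ x.1.m = 0))}
  mul := by
    rintro a (ha | ⟨ha, ha'⟩) b (hb | ⟨hb, hb'⟩)
    · left; show 0 < a.1.g.k + b.1.g.k; omega
    · left; show 0 < a.1.g.k + b.1.g.k; omega
    · left; show 0 < a.1.g.k + b.1.g.k; omega
    · refine Or.inr ⟨by show a.1.g.k + b.1.g.k = 0; omega, ?_⟩
      show Pos (a.1.m + rho a.1.g b.1.m) ∨ a.1.m + rho a.1.g b.1.m = 0
      rcases ha' with h | h <;> rcases hb' with h' | h'
      · exact Or.inl (h.add (h'.rho _))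
      · rw [h', map_zero, add_zero]; exact Or.inl h
      · rw [h, zero_add]; exact Or.inl (h'.rho _)
      · rw [h, h', map_zero, add_zero]; exact Or.inr rfl
  conj := by
    rintro a (ha | ⟨ha, ha'⟩) g
    · left; show 0 < g.1.g.k + a.1.g.k + -g.1.g.k; omega
    · refine Or.inr ⟨by show g.1.g.k + a.1.g.k + -g.1.g.k = 0; omega, ?_⟩
      show Pos (g.1 * a.1 * g.1⁻¹).m ∨ (g.1 * a.1 * g.1⁻¹).m = 0
      rw [conj_m]
      rcases ha' with ⟨i, q, h1, h2⟩ | h
      · have hle : Le a.1.g (lI i) := ⟨ha, fun ω hω => by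
          have := low_pi h2 hω
          rw [G0_pi a.2] at this
          simpa using this⟩
        refine Or.inl ⟨rm g.1.g i, q, h1, ?_⟩
        have e1 := low_rho h2 g.1.g
        have e2 := low_sub (i := rm g.1.g i) (by rw [lI_rm]; exact hle.conj g.1.g) g.1.m
        rw [map_sub, map_smul, rho_bas] at e1
        convert add_mem e1 e2 using 1; abel
      · right; simp [h, g_eq_one a.2 ha h, rho_one]
  tot := by
    intro a
    rcases lt_trichotomy a.1.g.k 0 with h | h | h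
    · right; left; show 0 < -a.1.g.k; omega
    · by_cases hm : a.1.m = 0
      · exact Or.inl (Or.inr ⟨h, Or.inr hm⟩)
      · rcases pos_tot hm with h1 | h1
        · exact Or.inl (Or.inr ⟨h, Or.inl h1⟩)
        · refine Or.inr (Or.inr ⟨by show -a.1.g.k = 0; omega, Or.inl ?_⟩)
          have := h1.rho a.1.g⁻¹
          rwa [map_neg] at this
    · exact Or.inl (Or.inl h)

lemma c1_ker : (c1 r).ker ≤ (pj r).ker := by
  rintro a ⟨h1, h2⟩
  have h2' : 0 < -a.1.g.k ∨ (-a.1.g.k = 0 ∧ (Pos (-rho a.1.g⁻¹ a.1.m) ∨ -rho a.1.g⁻¹ a.1.m = 0)) := h2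
  rcases h1 with h1 | ⟨h1, h3⟩
  · rcases h2' with h | h <;> omega
  refine g_eq_one a.2 h1 ?_
  rcases h3 with h3 | h3
  · have h4 := h3.rho a.1.g⁻¹
    rcases h2' with h | ⟨_, h | h⟩
    · omega
    · have := h4.add h
      rw [add_neg_cancel] at this
      exact absurd this not_pos_zero
    · rw [neg_eq_zero.1 h] at h4
      exact absurd h4 not_pos_zero
  · exact h3

lemma lemX (c : Cone (G0 r)) (g : G0 r) (hg : g ∉ (pj r).ker)
    (H : ∀ b ∈ (pj r).ker, ⁅⁅b, g⁆, g⁆ ∈ c.ker) (h : G0 r) (hk : h.1.g.k = 0) : h ∈ c.ker := by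
  let B : AddSubgroup (MM r) :=
    { carrier := {m | (⟨m, 1⟩ : SD r) ∈ G0 r}
      add_mem' := fun {a b} ha hb => by
        have := (G0 r).mul_mem ha hb
        show (⟨a + b, 1⟩ : SD r) ∈ G0 r
        convert this using 1; ext1 <;> simp [rho_one]
      zero_mem' := (G0 r).one_mem
      neg_mem' := fun {a} ha => by
        have := (G0 r).inv_mem ha
        show (⟨-a, 1⟩ : SD r) ∈ G0 r
        convert this using 1; ext1 <;> simp [rho_one] }
  let P : Set (MM r) := {m | ∃ x ∈ c.P, x.1 = ⟨m, 1⟩}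
  have cj : ∀ (y : SD r) (m : MM r), y * ⟨m, 1⟩ * y⁻¹ = ⟨rho y.g m, 1⟩ := fun y m => by
    ext1
    · rw [conj_m]; simp [rho_one]
    · simp
  have kerP : ∀ (x : G0 r) (m : MM r), x.1 = ⟨m, 1⟩ → (x ∈ c.ker ↔ m ∈ P ∧ -m ∈ P) := by
    intro x m hx
    have hi : (x⁻¹).1 = ⟨-m, 1⟩ := by
      show x.1⁻¹ = _
      rw [hx]; ext1 <;> simp [rho_one]
    refine ⟨fun h => ⟨⟨x, h.1, hx⟩, ⟨x⁻¹, h.2, hi⟩⟩, ?_⟩
    rintro ⟨⟨y, h1, h2⟩, ⟨z, h3, h4⟩⟩
    exact ⟨by rwa [Subtype.ext (hx.trans h2.symm)], by rwa [Subtype.ext (hi.trans h4.symm)]⟩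
  obtain ⟨C, hn, iso, h1, h2⟩ := core (fun γ => (rho γ).toAddMonoidHom) rho_mul rho_one B
    (fun γ m hm => by
      obtain ⟨y, rfl⟩ := pj_surj γ
      have := (G0 r).mul_mem ((G0 r).mul_mem y.2 hm) ((G0 r).inv_mem y.2)
      rwa [cj] at this)
    P (by rintro m ⟨x, _, hx⟩; exact (show _ ∈ G0 r from hx ▸ x.2))
    (by
      rintro m ⟨x, hx, e⟩ n ⟨y, hy, e'⟩
      refine ⟨x * y, c.mul _ hx _ hy, ?_⟩
      show x.1 * y.1 = _
      rw [e, e']; ext1 <;> simp [rho_one])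
    (fun m hm => by
      rcases c.tot ⟨_, hm⟩ with h | h
      · exact Or.inl ⟨_, h, rfl⟩
      · refine Or.inr ⟨_, h, ?_⟩
        show (⟨m, 1⟩ : SD r)⁻¹ = _
        ext1 <;> simp [rho_one])
    (by
      rintro γ m ⟨x, hx, e⟩
      obtain ⟨y, rfl⟩ := pj_surj γ
      refine ⟨_, c.conj _ hx y, ?_⟩
      show y.1 * x.1 * y.1⁻¹ = _
      rw [e, cj]; rfl)
  have cm : ∀ (b : G0 r) (m : MM r), b.1 = ⟨m, 1⟩ → (⁅b, g⁆ : G0 r).1 = ⟨m - rho g.1.g m, 1⟩ := by
    intro b m hb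
    show b.1 * g.1 * b.1⁻¹ * g.1⁻¹ = _
    rw [hb]; ext1
    · simp [rho_one, ← rho_mul]; abel
    · simp
  have gC : g.1.g ∈ C := h1 _ fun x hx => by
    have := (kerP _ _ (cm _ _ (cm ⟨_, hx⟩ x rfl))).1 (H ⟨_, hx⟩ rfl)
    simp only [LinearMap.toAddMonoidHom_coe, map_sub] at this ⊢
    constructor
    · convert this.1 using 1; abel
    · convert this.2 using 1; abel
  have hC : C ≠ ⊥ := fun hb => hg (by rwa [hb, Subgroup.mem_bot] at gC)
  have aC : (am r 1)⁻¹ ∈ C := by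
    refine C.inv_mem (C.mul_mem (monolith C iso hC _ _ (by simp)) ?_)
    have := C.zpow_mem (monolith C iso hC 1 (List.replicate r false) (by simp)) (-1)
    rwa [dl_zpow] at this
  have eK : ∀ v (hv : shape r (0, v)), (⟨ee v, ee_mem hv⟩ : G0 r) ∈ c.ker := by
    intro v hv
    have hw : shape r (0, List.replicate r false, true) := sh2
    let z : G0 r := ⟨te r, te_mem⟩ * ⟨ee _, ee_mem hw⟩ * (⟨te r, te_mem⟩ : G0 r)⁻¹
    have hz : z.1 = ⟨bas ((List.replicate r false, true), (tt 1)⁻¹), zz r⟩ := by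
      show te r * ee _ * (te r)⁻¹ = _
      ext1
      · simp [te, ee, rho_bas, rm]
      · ext ω
        · simp only [te, ee, mul_g, inv_g]
          rw [conj_tt, zz, dl_f hw, dl_f sh2]
          congr 1
          simp [Prod.ext_iff, sub_eq_zero, w2]
        · simp [te, ee]
    have hb : ((⟨ee v, ee_mem hv⟩ : G0 r) * (z * ⟨ee v, ee_mem hv⟩ * z⁻¹)).1 =
        ⟨bas (v, 1) + bas (v, (zz r)⁻¹), 1⟩ := by
      show ee v * (z.1 * ee v * z.1⁻¹) = _
      rw [← mul_assoc, mul_inv_eq_iff_eq_mul, hz]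
      ext1
      · have := lv_le (r := r) v
        simp only [ee, mul_m, map_add, rho_one, rho_bas (zz r), rm, one_mul]
        rw [rho_fix (dl_le (0, v) 1) (by simp only [lI, lv, lev_T] at *; simp; omega),
          rho_fix (dl_le (0, v) 1) (by simp [lI, lv])]
        abel
      · simpa [ee] using dl_zz v
    apply c.ker_of_conj (g := z)
    rw [kerP _ _ hb]
    refine h2 _ aC (zz r * (uu r)⁻¹) _ (show _ ∈ G0 r from hb ▸ Subtype.prop _) ?_
    have e1 := rel1 (r := r) (v, 1)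
    have e2 := rel1 (r := r) (v, (zz r)⁻¹)
    have e3 : (zz r)⁻¹ * am r 1 = am r 1 * (zz r)⁻¹ := by
      rw [inv_mul_eq_iff_eq_mul, ← mul_assoc, zz_am]; simp
    have e4 : (zz r)⁻¹ * (uu r * (zz r)⁻¹) = uu r := by
      conv_lhs => rw [← zz_uu]
      simp [mul_assoc]
    simp only [la, lu, mul_one] at e1 e2
    simp only [LinearMap.toAddMonoidHom_coe, map_add, rho_bas, rm, inv_inv, one_mul, mul_inv_rev, e3, e4,
      e1, e2]
    module
  have key : ∀ x (hx : x ∈ G0 r), QuotientGroup.mk' c.ker ⟨x, hx⟩ =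
      QuotientGroup.mk' c.ker ⟨te r, te_mem⟩ ^ x.g.k := by
    intro x hx
    induction hx using Subgroup.closure_induction with
    | mem x h =>
      rcases h with rfl | ⟨v, hv, rfl⟩
      · simp [te]
      · simpa [ee] using eK v hv
    | one => rw [one_g, one_k, zpow_zero]; exact map_one _
    | mul x y h1 h2 hx hy =>
      rw [mul_g, mul_k, zpow_add, ← hx, ← hy, ← map_mul]; rfl
    | inv x h1 hx =>
      rw [inv_g, inv_k, zpow_neg, ← hx, ← map_inv]; rfl
  have := key h.1 h.2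
  rw [hk, zpow_zero] at this
  exact (QuotientGroup.eq_one_iff _).1 this

theorem final (r : ℕ) [NeZero r] :
    ∃ (Q : Type) (_ : Group Q), (∃ o : LinearOrder Q, BiInv o) ∧ derivedSeries Q (r + 2 + 2) = ⊥ ∧
      derivedSeries Q (r + 2 + 1) ≠ ⊥ ∧
      ∃! H : Subgroup Q, H.Normal ∧ RelConvex H ∧ H ≠ ⊥ ∧ H ≠ ⊤ := by
  refine main (G := G0 r) (fun x => x.1.g.k) (fun _ _ => rfl) ⟨te r, te_mem⟩ rfl (pj r).ker
    (fun b hb => by rw [show b.1.g = 1 from hb]; rfl) ?_ (c1 r) c1_ker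
    (fun c _ g hg H h hk => lemX c g hg H h hk) (r + 2) ?_ ?_
  · have hs : shape r (0, [], false) := ⟨by simp, by simp⟩
    refine ⟨⟨ee _, ee_mem hs⟩, rfl, fun h => ?_⟩
    have : (dl (0, [], false) 1 : Gam r) = 1 := h
    have h2 := dl_self hs 1
    rw [this] at h2; simp at h2
  · have h1 : ∀ x ∈ derivedSeries (G0 r) (r + 3), x.1.g = 1 := fun x hx => by
      have := map_derivedSeries_le_derivedSeries (pj r) (r + 3) ⟨x, hx, rfl⟩
      rwa [der_bot, Subgroup.mem_bot] at this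
    rw [eq_bot_iff, derivedSeries_succ, Subgroup.commutator_le]
    intro a ha b hb
    rw [Subgroup.mem_bot, commutatorElement_eq_one_iff_mul_comm]
    apply Subtype.ext
    show a.1 * b.1 = b.1 * a.1
    ext1 <;> simp [h1 a ha, h1 b hb, rho_one, add_comm]
  · intro h
    apply der_ne (Nat.pos_of_ne_zero (NeZero.ne r))
    rwa [← map_derivedSeries_eq pj_surj, Subgroup.map_eq_bot_iff]

end Pool.Agent.H64.Ord
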