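import Mathlib

set_option autoImplicit false

namespace Pool.Agent.H64.PStab

open Finset

/-- permutation stability, epsilon-delta form -/
def Stab (K : Type) [Group K] : Prop :=
  ∀ (S : Finset K) (ε : ℝ), 0 < ε → ∃ (T : Finset K) (δ : ℝ), 0 < δ ∧
    ∀ (n : ℕ) (f : K → Equiv.Perm (Fin n)),
      (∀ g ∈ T, ∀ h ∈ T,
        ((Finset.univ.filter (fun i : Fin n => f (g * h) i ≠ (f g * f h) i)).card : ℝ)
          / (n : ℝ) < δ) →
      ∃ ρ : K →* Equiv.Perm (Fin n), ∀ g ∈ S,
        ((Finset.univ.filter (fun i : Fin n => f g i ≠ ρ g i)).card : ℝ) / (n : ℝ) < ε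

theorem fin_stab {K : Type} [Group K] [Fintype K] {n : ℕ} (f : K → Equiv.Perm (Fin n)) (d : ℝ)
    (h : ∀ g h, ((univ.filter fun i : Fin n => f (g * h) i ≠ (f g * f h) i).card : ℝ) ≤ d) :
    ∃ ρ : K →* Equiv.Perm (Fin n), ∀ g,
      ((univ.filter fun i : Fin n => f g i ≠ ρ g i).card : ℝ) ≤ 2 * Fintype.card K ^ 3 * d := by
  classical
  let X0 : Fin n → Prop := fun x => ∀ g h, f (g * h) x = f g (f h x)
  let Y : Fin n → Prop := fun x => X0 x ∧ ∀ k, X0 (f k x)
  have h1 : ∀ x, Y x → f 1 x = x := fun x hx => by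
    have := hx.1 1 1
    rw [mul_one] at this
    exact ((f 1).injective this).symm
  have h2 : ∀ k x, Y x → Y (f k x) := fun k x hx =>
    ⟨hx.2 k, fun j => by rw [← hx.1]; exact hx.2 _⟩
  let a : K → Fin n → Fin n := fun g x => if Y x then f g x else x
  have a1 : ∀ x, a 1 x = x := fun x => by
    by_cases hx : Y x
    · simp only [a, if_pos hx, h1 x hx]
    · simp only [a, if_neg hx]
  have a2 : ∀ g h x, a (g * h) x = a g (a h x) := fun g h x => by
    by_cases hx : Y x
    · simp only [a, if_pos hx, if_pos (h2 h x hx), hx.1 g h]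
    · simp only [a, if_neg hx]
  let ρ : K →* Equiv.Perm (Fin n) :=
    { toFun := fun g => ⟨a g, a g⁻¹, fun x => by rw [← a2, inv_mul_cancel, a1],
        fun x => by rw [← a2, mul_inv_cancel, a1]⟩
      map_one' := Equiv.ext a1
      map_mul' := fun g h => Equiv.ext (a2 g h) }
  refine ⟨ρ, fun g => ?_⟩
  let bad : K × K → Finset (Fin n) := fun p =>
    univ.filter fun i : Fin n => f (p.1 * p.2) i ≠ (f p.1 * f p.2) i
  let N0 : Finset (Fin n) := univ.biUnion bad
  have hd : 0 ≤ d := le_trans (by positivity) (h 1 1)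
  have c0 : (N0.card : ℝ) ≤ Fintype.card K ^ 2 * d := by
    have : (N0.card : ℝ) ≤ ∑ p : K × K, ((bad p).card : ℝ) := by exact_mod_cast card_biUnion_le
    refine this.trans ((sum_le_sum fun p _ => h p.1 p.2).trans ?_)
    simp [sq]
  have m0 : ∀ x, ¬ X0 x → x ∈ N0 := fun x hx => by
    simp only [X0, not_forall] at hx
    obtain ⟨g, h, e⟩ := hx
    exact mem_biUnion.2 ⟨(g, h), mem_univ _, mem_filter.2 ⟨mem_univ _, e⟩⟩
  have sub : (univ.filter fun i : Fin n => f g i ≠ ρ g i) ⊆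
      N0 ∪ univ.biUnion fun k => N0.image (f k).symm := by
    intro x hx
    have hY : ¬ Y x := fun hY => (mem_filter.1 hx).2 (by
      show f g x = a g x
      simp only [a, if_pos hY])
    by_cases h0 : X0 x
    · have : ∃ k, ¬ X0 (f k x) := by
        by_contra hc
        push Not at hc
        exact hY ⟨h0, hc⟩
      obtain ⟨k, hk⟩ := this
      exact mem_union_right _ (mem_biUnion.2 ⟨k, mem_univ _,
        mem_image.2 ⟨_, m0 _ hk, by simp⟩⟩)
    · exact mem_union_left _ (m0 x h0)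
  have c1 : (univ.filter fun i : Fin n => f g i ≠ ρ g i).card ≤
      N0.card + Fintype.card K * N0.card := by
    refine (card_le_card sub).trans ((card_union_le _ _).trans (Nat.add_le_add_left ?_ _))
    refine card_biUnion_le.trans ((sum_le_sum fun k _ => card_image_le).trans ?_)
    simp
  have c2 : ((univ.filter fun i : Fin n => f g i ≠ ρ g i).card : ℝ) ≤
      N0.card + Fintype.card K * N0.card := by exact_mod_cast c1
  have c3 : (1 : ℝ) ≤ Fintype.card K := by exact_mod_cast Fintype.card_pos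
  have c4 : (0 : ℝ) ≤ N0.card := by positivity
  nlinarith [mul_le_mul_of_nonneg_left c0 (by positivity : (0 : ℝ) ≤ Fintype.card K)]

theorem stab_of_retract {G : Type} [Group G]
    (h : ∀ S : Finset G, ∃ (K : Type) (_ : Group K) (_ : Finite K) (i : K →* G) (r : G →* K),
      ∀ s ∈ S, i (r s) = s) : Stab G := by
  classical
  intro S ε hε
  obtain ⟨K, _, _, i, r, hr⟩ := h S
  haveI := Fintype.ofFinite K
  have c3 : (1 : ℝ) ≤ Fintype.card K := by exact_mod_cast Fintype.card_pos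
  refine ⟨univ.image i, ε / (4 * Fintype.card K ^ 3), by positivity, fun n f hf => ?_⟩
  rcases Nat.eq_zero_or_pos n with rfl | hn
  · exact ⟨1, fun g _ => by simpa using hε⟩
  have hn' : (0 : ℝ) < n := by exact_mod_cast hn
  obtain ⟨ρ, hρ⟩ := fin_stab (fun k => f (i k)) (ε / (4 * Fintype.card K ^ 3) * n) fun g h => by
    have := hf _ (mem_image_of_mem i (mem_univ g)) _ (mem_image_of_mem i (mem_univ h))
    rw [div_lt_iff₀ hn', ← map_mul] at this
    exact this.le
  refine ⟨ρ.comp r, fun g hg => ?_⟩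
  have := hρ (r g)
  rw [hr g hg] at this
  rw [div_lt_iff₀ hn']
  refine this.trans_lt ?_
  have e : 2 * (Fintype.card K : ℝ) ^ 3 * (ε / (4 * Fintype.card K ^ 3) * n) = ε * n / 2 := by
    field_simp; ring
  rw [e]
  have := mul_pos hε hn'
  linarith

def mv {n : ℕ} (σ : Equiv.Perm (Fin n)) : ℕ := (univ.filter fun i => σ i ≠ i).card

theorem mv_mul {n : ℕ} (σ τ : Equiv.Perm (Fin n)) : mv (σ * τ) ≤ mv σ + mv τ := by
  have h : ∀ σ : Equiv.Perm (Fin n), mv σ = σ.support.card := fun σ => rfl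
  rw [h, h, h]
  exact (card_le_card (Equiv.Perm.support_mul_le σ τ)).trans (card_union_le _ _)

theorem mv_conj {n : ℕ} (σ τ : Equiv.Perm (Fin n)) : mv (τ * σ⁻¹ * τ⁻¹) = mv σ := by
  have h : ∀ σ : Equiv.Perm (Fin n), mv σ = σ.support.card := fun σ => rfl
  rw [h, h, Equiv.Perm.card_support_conj, Equiv.Perm.support_inv]

/-- criterion for non-stability -/
theorem not_stab {K : Type} [Group K] (e g : K)
    (h1 : ∀ (n : ℕ) (ρ : K →* Equiv.Perm (Fin n)), ∃ y, ρ g = ρ e * (y * (ρ e)⁻¹ * y⁻¹))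
    (h2 : ∀ T : Finset K, ∃ (X : Type) (_ : Finite X) (_ : Nonempty X) (f : K → Equiv.Perm X),
      (∀ a ∈ T, ∀ b ∈ T, f (a * b) = f a * f b) ∧ f e = 1 ∧ ∀ x, f g x ≠ x) : ¬ Stab K := by
  classical
  intro hs
  obtain ⟨T, δ, hδ, hT⟩ := hs {e, g} (1 / 3) (by norm_num)
  obtain ⟨X, _, _, f, hf, he, hg⟩ := h2 T
  obtain ⟨n, ⟨q⟩⟩ := Finite.exists_equiv_fin X
  have hn : 0 < n := Fin.pos (q (Classical.arbitrary X))
  have hn' : (0 : ℝ) < n := by exact_mod_cast hn
  obtain ⟨ρ, hρ⟩ := hT n (fun k => q.permCongrHom (f k)) fun a ha b hb => by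
    simp only [hf a ha b hb, map_mul]
    simpa using hδ
  have a1 := hρ e (by simp)
  have a2 := hρ g (by simp)
  rw [div_lt_iff₀ hn'] at a1 a2
  obtain ⟨y, hy⟩ := h1 n ρ
  have b1 : mv (ρ g) ≤ mv (ρ e) + mv (ρ e) := by
    have := mv_mul (ρ e) (y * (ρ e)⁻¹ * y⁻¹)
    rwa [mv_conj, ← hy] at this
  have b2 : (mv (ρ e) : ℝ) < 1 / 3 * n := by
    have : mv (ρ e) = (univ.filter fun i : Fin n => q.permCongrHom (f e) i ≠ ρ e i).card := by
      rw [he, map_one, mv]
      exact congrArg _ (filter_congr fun i _ => ne_comm)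
    rw [this]; exact a1
  have b3 : n ≤ (univ.filter fun i : Fin n => q.permCongrHom (f g) i ≠ ρ g i).card + mv (ρ g) := by
    refine le_trans ?_ (card_union_le _ _)
    refine le_trans (by simp) (card_le_card (s := univ) fun i _ => ?_)
    by_contra hc
    simp only [mem_union, mem_filter, mem_univ, true_and, not_or, not_not] at hc
    apply hg (q.symm i)
    have := hc.1.trans hc.2
    apply q.injective
    simpa using this
  have b1' : (mv (ρ g) : ℝ) ≤ mv (ρ e) + mv (ρ e) := by exact_mod_cast b1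
  have b3' : (n : ℝ) ≤ (univ.filter fun i : Fin n => q.permCongrHom (f g) i ≠ ρ g i).card +
    mv (ρ g) := by exact_mod_cast b3
  linarith

end Pool.Agent.H64.PStab
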