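import Pool.Agent.H64.PStab1

set_option autoImplicit false

namespace Pool.Agent.H64.PStab

abbrev C := AddCircle (1 : ℚ)
abbrev M := C × C

def A : AddSubgroup (ℕ →₀ M) where
  carrier := {x | ∀ n, 2 ^ (n + 1) • (x n).1 = 0 ∧ 2 • (x n).2 = 0}
  zero_mem' := fun n => by simp
  add_mem' := fun {a b} ha hb n => by
    simp only [Finsupp.add_apply, Prod.fst_add, Prod.snd_add, smul_add, ha n, hb n, add_zero,
      and_self]
  neg_mem' := fun {a} ha n => by
    simp only [Finsupp.neg_apply, Prod.fst_neg, Prod.snd_neg, smul_neg, ha n, neg_zero, and_self]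

def υ : M →+ M := (AddMonoidHom.inl C C).comp (AddMonoidHom.snd C C)

noncomputable def F1 : (ℕ →₀ M) →+ (ℕ →₀ M) := Finsupp.mapRange.addMonoidHom υ

noncomputable def F0 : (ℕ →₀ M) →+ (ℕ →₀ M) :=
  F1 + (Finsupp.mapDomain.addMonoidHom Nat.succ).comp F1

theorem F0_zero (x : ℕ →₀ M) : F0 x 0 = ((x 0).2, 0) := by
  show F1 x 0 + Finsupp.mapDomain Nat.succ (F1 x) 0 = _
  rw [Finsupp.mapDomain_notin_range _ _ (by simp), add_zero]; rfl

theorem F0_succ (x : ℕ →₀ M) (n : ℕ) : F0 x (n + 1) = ((x (n + 1)).2 + (x n).2, 0) := by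
  show F1 x (n + 1) + Finsupp.mapDomain Nat.succ (F1 x) (Nat.succ n) = _
  rw [Finsupp.mapDomain_apply Nat.succ_injective]
  show ((x (n + 1)).2, 0) + ((x n).2, 0) = _
  simp

theorem F0_snd (x : ℕ →₀ M) (n : ℕ) : (F0 x n).2 = 0 := by
  cases n
  · rw [F0_zero]
  · rw [F0_succ]

theorem F0_two {x : ℕ →₀ M} (hx : x ∈ A) : 2 • F0 x = 0 := by
  ext n
  · cases n with
    | zero => simpa [F0_zero] using (hx 0).2
    | succ n =>
      rw [Finsupp.smul_apply, F0_succ, Prod.smul_fst, smul_add, (hx _).2, (hx _).2]; simp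
  · rw [Finsupp.smul_apply, Prod.smul_snd, F0_snd]; simp

theorem F0_F0 (x : ℕ →₀ M) : F0 (F0 x) = 0 := by
  ext n
  · cases n with
    | zero => rw [F0_zero, F0_snd]; rfl
    | succ n => rw [F0_succ, F0_snd, F0_snd]; simp
  · rw [F0_snd]; rfl

theorem F0_mem {x : ℕ →₀ M} (hx : x ∈ A) : F0 x ∈ A := by
  intro n
  refine ⟨?_, by rw [F0_snd, smul_zero]⟩
  have : 2 • (F0 x n).1 = 0 := congrArg (fun y : ℕ →₀ M => (y n).1) (F0_two hx)
  rw [pow_succ, mul_smul, this, smul_zero]

abbrev G := Multiplicative A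

noncomputable def h0 (x : G) : G :=
  Multiplicative.ofAdd ⟨x.toAdd.1 + F0 x.toAdd.1, A.add_mem x.toAdd.2 (F0_mem x.toAdd.2)⟩

theorem h0_h0 (x : G) : h0 (h0 x) = x := by
  apply Multiplicative.toAdd.injective
  apply Subtype.ext
  show x.toAdd.1 + F0 x.toAdd.1 + F0 (x.toAdd.1 + F0 x.toAdd.1) = x.toAdd.1
  rw [map_add, F0_F0, add_zero, add_assoc, ← two_smul ℕ, F0_two x.toAdd.2, add_zero]

noncomputable def η : MulAut G where
  toFun := h0
  invFun := h0
  left_inv := h0_h0
  right_inv := h0_h0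
  map_mul' x y := by
    apply Multiplicative.toAdd.injective
    apply Subtype.ext
    show x.toAdd.1 + y.toAdd.1 + F0 (x.toAdd.1 + y.toAdd.1) =
      x.toAdd.1 + F0 x.toAdd.1 + (y.toAdd.1 + F0 y.toAdd.1)
    rw [map_add]; abel

theorem η_fin : IsOfFinOrder η :=
  isOfFinOrder_iff_pow_eq_one.2 ⟨2, two_pos, by rw [sq]; exact MulEquiv.ext h0_h0⟩

noncomputable abbrev H := Subgroup.zpowers η

instance : Finite H := finite_zpowers.2 η_fin

abbrev K := G ⋊[H.subtype] H

noncomputable def flt (m : ℕ) : G →* G where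
  toFun x := Multiplicative.ofAdd ⟨x.toAdd.1.filter (· < m), fun n => by
    rw [Finsupp.filter_apply]
    split_ifs
    · exact x.toAdd.2 n
    · simp⟩
  map_one' := by
    apply Multiplicative.toAdd.injective
    apply Subtype.ext
    exact Finsupp.filter_zero _
  map_mul' x y := by
    apply Multiplicative.toAdd.injective
    apply Subtype.ext
    exact Finsupp.filter_add

theorem flt_fin (m : ℕ) : Finite (flt m).range := by
  have h1 : ∀ n : ℕ, ({u : C | 2 ^ (n + 1) • u = 0} ×ˢ {u : C | 2 • u = 0}).Finite := fun n =>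
    (AddCircle.finite_torsion _ (by positivity)).prod (AddCircle.finite_torsion _ two_pos)
  haveI := fun n => (h1 n).to_subtype
  refine Finite.of_injective (fun x (n : Fin m) =>
    (⟨x.1.toAdd.1 n, x.1.toAdd.2 n⟩ : ({u : C | 2 ^ (n.1 + 1) • u = 0} ×ˢ {u : C | 2 • u = 0} :
      Set M))) ?_
  rintro ⟨_, x, rfl⟩ ⟨_, y, rfl⟩ e
  apply Subtype.ext
  apply Multiplicative.toAdd.injective
  apply Subtype.ext
  refine Finsupp.ext fun n => ?_
  by_cases hn : n < m
  · exact congrArg Subtype.val (congrFun e ⟨n, hn⟩)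
  · exact (Finsupp.filter_apply_neg (· < m) x.toAdd.1 hn).trans
      (Finsupp.filter_apply_neg (· < m) y.toAdd.1 hn).symm

theorem stab_G : Stab G := by
  refine stab_of_retract fun S => ?_
  obtain ⟨m, hm⟩ : ∃ m, ∀ s ∈ S, ∀ n ∈ s.toAdd.1.support, n < m :=
    ⟨(S.sup fun s => s.toAdd.1.support.sup id) + 1, fun s hs n hn =>
      Nat.lt_succ_of_le ((Finset.le_sup (f := id) hn).trans
        (Finset.le_sup (f := fun s : G => s.toAdd.1.support.sup id) hs))⟩
  refine ⟨(flt m).range, inferInstance, flt_fin m, (flt m).range.subtype, (flt m).rangeRestrict,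
    fun s hs => ?_⟩
  apply Multiplicative.toAdd.injective
  apply Subtype.ext
  exact (Finsupp.filter_eq_self_iff _ _).2 fun n hn => hm s hs n (Finsupp.mem_support_iff.2 hn)

noncomputable def σ0 : (ℕ →₀ M) →+ C := Finsupp.liftAddHom fun _ => AddMonoidHom.fst C C

theorem σ0_single (n : ℕ) (a : M) : σ0 (Finsupp.single n a) = a.1 := by simp [σ0]

theorem σ0_F0 {x : ℕ →₀ M} (hx : x ∈ A) : σ0 (F0 x) = 0 := by
  have h1 : σ0.comp (Finsupp.mapDomain.addMonoidHom Nat.succ) = σ0 :=
    Finsupp.addHom_ext fun n a => by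
      show σ0 (Finsupp.mapDomain Nat.succ _) = _
      rw [Finsupp.mapDomain_single, σ0_single, σ0_single]
  have h2 : 2 • F1 x = 0 := by
    ext n
    · exact (hx n).2
    · show 2 • (0 : C) = 0
      simp
  show σ0 (F1 x + Finsupp.mapDomain.addMonoidHom Nat.succ (F1 x)) = 0
  rw [map_add, ← AddMonoidHom.comp_apply σ0 _ (F1 x), h1, ← two_smul ℕ, ← map_nsmul, h2, map_zero]

noncomputable def σ : G →* Multiplicative C := AddMonoidHom.toMultiplicative (σ0.comp A.subtype)

theorem σ_η (x : G) : σ (η x) = σ x := by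
  show Multiplicative.ofAdd (σ0 (x.toAdd.1 + F0 x.toAdd.1)) = Multiplicative.ofAdd (σ0 x.toAdd.1)
  rw [map_add, σ0_F0 x.toAdd.2, add_zero]

noncomputable def σ' : K →* Multiplicative C :=
  SemidirectProduct.lift σ 1 fun θ => by
    have : ∀ θ ∈ H, ∀ x, σ (θ x) = σ x := by
      rintro _ ⟨k, rfl⟩
      induction k using Int.induction_on with
      | zero => exact fun _ => rfl
      | succ k ih =>
        intro x
        show σ ((η ^ ((k : ℤ) + 1)) x) = _
        rw [zpow_add_one]
        exact (ih _).trans (σ_η x)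
      | pred k ih =>
        intro x
        show σ ((η ^ (-(k : ℤ) - 1)) x) = _
        rw [zpow_sub_one]
        exact (ih _).trans (σ_η x)
    refine MonoidHom.ext fun x => ?_
    simpa using this θ.1 θ.2 x

noncomputable def u (j : ℕ) : C := ((1 / 2 ^ j : ℚ) : C)

theorem u_pow (i j : ℕ) : 2 ^ i • u (i + j) = u j := by
  rw [u, u, ← AddCircle.coe_nsmul]
  congr 1
  rw [nsmul_eq_mul, pow_add]; push_cast; field_simp

theorem u_zero : u 0 = 0 := by simp [u]

theorem u_one : u 1 ≠ 0 := by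
  rw [u, Ne, AddCircle.coe_eq_zero_iff]
  rintro ⟨n, hn⟩
  have : (2 * n : ℤ) = 1 := by
    have h : (2 * n : ℚ) = 1 := by simp at hn; linarith
    exact_mod_cast h
  omega

theorem u_two : 2 • u 1 = 0 := by simpa [u_zero] using u_pow 1 0

theorem single_mem (j : ℕ) {a : M} (h1 : 2 ^ (j + 1) • a.1 = 0) (h2 : 2 • a.2 = 0) :
    Finsupp.single j a ∈ A := by
  intro n
  by_cases h : n = j
  · subst h; simpa using ⟨h1, h2⟩
  · rw [Finsupp.single_eq_of_ne h]; simp

noncomputable def y (j : ℕ) : G := Multiplicative.ofAdd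
  ⟨Finsupp.single j (u (j + 1), 0), single_mem j ((u_pow (j + 1) 0).trans u_zero) (by simp)⟩

noncomputable def v (j : ℕ) : G := y j ^ 2 ^ j

theorem v_val (j : ℕ) : (v j).toAdd.1 = Finsupp.single j (u 1, 0) := by
  show 2 ^ j • Finsupp.single j (u (j + 1), (0 : C)) = _
  rw [Finsupp.smul_single, Prod.smul_mk, u_pow, smul_zero]

theorem y_pow (j : ℕ) : y j ^ 2 ^ (j + 1) = 1 := by
  apply Multiplicative.toAdd.injective
  apply Subtype.ext
  show 2 ^ (j + 1) • Finsupp.single j (u (j + 1 + 0), (0 : C)) = 0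
  rw [Finsupp.smul_single, Prod.smul_mk, u_pow, smul_zero, u_zero]
  exact Finsupp.single_zero _

theorem comm (j : ℕ) : ∃ c : G, η c * c⁻¹ = v 0 * v j := by
  induction j with
  | zero =>
    refine ⟨1, ?_⟩
    have := y_pow 0
    simp only [v, pow_zero, pow_one, zero_add, sq] at this ⊢
    simp [this]
  | succ j ih =>
    obtain ⟨c, hc⟩ := ih
    let d : G := Multiplicative.ofAdd ⟨Finsupp.single j (0, u 1), single_mem j (by simp) u_two⟩
    have hd : η d * d⁻¹ = v j * v (j + 1) := by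
      apply Multiplicative.toAdd.injective
      apply Subtype.ext
      show Finsupp.single j (0, u 1) + F0 (Finsupp.single j (0, u 1)) + -Finsupp.single j (0, u 1) =
        (v j).toAdd.1 + (v (j + 1)).toAdd.1
      rw [v_val, v_val, add_neg_cancel_comm]
      show F1 _ + Finsupp.mapDomain Nat.succ (F1 _) = _
      have : F1 (Finsupp.single j (0, u 1)) = Finsupp.single j (u 1, 0) :=
        Finsupp.mapRange_single (hf := map_zero υ)
      rw [this, Finsupp.mapDomain_single]
    have h2 : v j * v j = 1 := by rw [v, ← pow_add, ← two_mul, ← pow_succ', y_pow]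
    refine ⟨c * d, ?_⟩
    rw [map_mul, mul_inv, mul_mul_mul_comm, hc, hd, mul_assoc, ← mul_assoc (v j), h2, one_mul]

theorem not_stab_K : ¬ Stab K := by
  classical
  refine not_stab (SemidirectProduct.inr ⟨η, Subgroup.mem_zpowers η⟩)
    (SemidirectProduct.inl (v 0)) (fun n ρ => ?_) fun T => ?_
  · obtain ⟨j, hj⟩ : ∃ j, j = Nat.card (Equiv.Perm (Fin n)) := ⟨_, rfl⟩
    obtain ⟨c, hc⟩ := comm j
    have h1 : ρ (SemidirectProduct.inl (v j)) = 1 := by
      rw [v, map_pow, map_pow]
      have h2 : ρ (SemidirectProduct.inl (y j)) ^ 2 ^ (j + 1) = 1 := by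
        rw [← map_pow, ← map_pow, y_pow, map_one, map_one]
      obtain ⟨a, -, ha⟩ := (Nat.dvd_prime_pow Nat.prime_two).1 (orderOf_dvd_of_pow_eq_one h2)
      have h3 : 2 ^ a ≤ j := by rw [← ha, hj]; exact orderOf_le_card
      refine orderOf_dvd_iff_pow_eq_one.1 ?_
      rw [ha]
      exact pow_dvd_pow _ (Nat.lt_two_pow_self.le.trans h3)
    refine ⟨ρ (SemidirectProduct.inl c), ?_⟩
    have h4 := congrArg (fun x => ρ (SemidirectProduct.inl x)) hc
    simp only [map_mul, h1, mul_one] at h4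
    rw [← h4]
    have h5 := SemidirectProduct.inl_aut (φ := H.subtype) ⟨η, Subgroup.mem_zpowers η⟩ c
    rw [show η c = H.subtype ⟨η, Subgroup.mem_zpowers η⟩ c from rfl, h5]
    simp [mul_assoc]
  · have h1 : ∀ x : ℕ →₀ M, x ∈ A → ∃ m, 2 ^ m • σ0 x = 0 := by
      intro x hx
      refine ⟨x.support.sup id + 1, ?_⟩
      rw [← map_nsmul]
      have : 2 ^ (x.support.sup id + 1) • x = 0 := by
        refine Finsupp.ext fun n => ?_
        by_cases hn : n ∈ x.support
        · obtain ⟨d, hd⟩ := Nat.exists_eq_add_of_le (Finset.le_sup (f := id) hn)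
          rw [hd, Finsupp.smul_apply]
          refine Prod.ext ?_ ?_
          · show 2 ^ (n + d + 1) • (x n).1 = 0
            rw [add_right_comm, pow_add, mul_comm, mul_smul, (hx n).1, smul_zero]
          · show 2 ^ (n + d + 1) • (x n).2 = 0
            rw [pow_succ, mul_smul, (hx n).2, smul_zero]
        · rw [Finsupp.smul_apply, Finsupp.notMem_support_iff.1 hn, smul_zero]; rfl
      rw [this, map_zero]
    have h2 : ∀ k : K, ∃ m, σ' k ^ 2 ^ m = 1 := by
      intro k
      obtain ⟨m, hm⟩ := h1 _ k.left.toAdd.2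
      refine ⟨m, ?_⟩
      have : σ' k = σ k.left := by simp [σ', SemidirectProduct.lift]
      rw [this]
      exact congrArg Multiplicative.ofAdd hm
    choose m hm using h2
    let X : Subgroup (Multiplicative C) := (powMonoidHom (2 ^ (T.sup m + 1))).ker
    have hX : Finite X := (AddCircle.finite_torsion (1 : ℚ)
      (n := 2 ^ (T.sup m + 1)) (by positivity)).to_subtype
    have hT : ∀ a ∈ T, σ' a ∈ X := fun a ha => by
      obtain ⟨d, hd⟩ := Nat.exists_eq_add_of_le (Finset.le_sup (f := m) ha)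
      show σ' a ^ 2 ^ (T.sup m + 1) = 1
      rw [hd, add_assoc, pow_add, pow_mul, hm, one_pow]
    refine ⟨X, hX, inferInstance,
      fun k => if h : σ' k ∈ X then Equiv.mulLeft ⟨σ' k, h⟩ else 1, fun a ha b hb => ?_, ?_, ?_⟩
    · have : σ' (a * b) ∈ X := by rw [map_mul]; exact X.mul_mem (hT a ha) (hT b hb)
      simp only [dif_pos this, dif_pos (hT a ha), dif_pos (hT b hb)]
      rw [← Equiv.mulLeft_mul]
      congr 1
      exact Subtype.ext (map_mul _ _ _)
    · have : σ' (SemidirectProduct.inr ⟨η, Subgroup.mem_zpowers η⟩) = 1 := by simp [σ']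
      simp only [this, dif_pos X.one_mem]
      exact Equiv.mulLeft_one
    · have h3 : σ' (SemidirectProduct.inl (v 0)) = Multiplicative.ofAdd (u 1) := by
        rw [σ', SemidirectProduct.lift_inl]
        show Multiplicative.ofAdd (σ0 (v 0).toAdd.1) = _
        rw [v_val, σ0_single]
      have h4 : Multiplicative.ofAdd (u 1) ∈ X := by
        show Multiplicative.ofAdd (2 ^ (T.sup m + 1) • u 1) = 1
        rw [pow_succ, mul_smul, u_two, smul_zero]; rfl
      intro x hx
      simp only [h3, dif_pos h4, Equiv.coe_mulLeft, mul_eq_right] at hx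
      exact u_one (congrArg Subtype.val hx)

instance : Countable C := QuotientAddGroup.mk_surjective.countable

instance : Countable G := inferInstanceAs (Countable A)

end Pool.Agent.H64.PStab
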