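import Mathlib

/-! Universally injective finite extensions in characteristic p are purely inseparable. -/

namespace Pool.Agent.H64.Pol

universe u

open Polynomial

theorem ext_prime {P R K : Type*} [CommRing P] [CommRing R] [Algebra P R] [Algebra.IsIntegral P R]
    [Field K] [IsAlgClosed K] (φ₀ : P →+* K) (Q : Ideal R) [hQ : Q.IsPrime]
    (h : Q.comap (algebraMap P R) = RingHom.ker φ₀) :
    ∃ φ : R →+* K, φ.comp (algebraMap P R) = φ₀ ∧ ∀ r, φ r = 0 → r ∈ Q := by
  let q : Ideal P := Q.comap (algebraMap P R)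
  haveI : q.IsPrime := Ideal.comap_isPrime _ _
  let ψ : P ⧸ q →+* K := Ideal.Quotient.lift q φ₀ (fun a ha => by
    have : a ∈ RingHom.ker φ₀ := h ▸ ha
    exact this)
  have hψ : Function.Injective ψ := by
    rw [injective_iff_map_eq_zero]
    intro a ha
    obtain ⟨a, rfl⟩ := Ideal.Quotient.mk_surjective a
    rw [Ideal.Quotient.eq_zero_iff_mem]
    have : a ∈ RingHom.ker φ₀ := ha
    rw [← h] at this
    exact this
  letI : Algebra (P ⧸ q) K := ψ.toAlgebra
  haveI : FaithfulSMul (P ⧸ q) K := (faithfulSMul_iff_algebraMap_injective _ _).2 hψ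
  haveI : FaithfulSMul (P ⧸ q) (R ⧸ Q) :=
    (faithfulSMul_iff_algebraMap_injective _ _).2 Ideal.algebraMap_quotient_injective
  haveI : Algebra.IsIntegral (P ⧸ q) (R ⧸ Q) := Algebra.IsIntegral.quotient
  let L : (R ⧸ Q) →ₐ[P ⧸ q] K := IsAlgClosed.lift
  refine ⟨(L : (R ⧸ Q) →+* K).comp (Ideal.Quotient.mk Q), ?_, ?_⟩
  · ext a
    have := L.commutes (Ideal.Quotient.mk q a)
    exact this
  · intro r hr
    have hk : RingHom.ker (L : (R ⧸ Q) →+* K) = ⊥ := by
      apply Ideal.eq_bot_of_comap_eq_bot (R := P ⧸ q)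
      rw [eq_bot_iff]
      intro a ha
      have h1 : L (algebraMap _ _ a) = 0 := ha
      rw [L.commutes] at h1
      exact (injective_iff_map_eq_zero _).1 hψ a h1
    have : Ideal.Quotient.mk Q r ∈ RingHom.ker (L : (R ⧸ Q) →+* K) := hr
    rw [hk, Ideal.mem_bot, Ideal.Quotient.eq_zero_iff_mem] at this
    exact this

theorem ext_inj {P R K : Type*} [CommRing P] [CommRing R] [Algebra P R] [Algebra.IsIntegral P R]
    [Field K] [IsAlgClosed K] (hi : Function.Injective (algebraMap P R)) (φ₀ : P →+* K) :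
    ∃ φ : R →+* K, φ.comp (algebraMap P R) = φ₀ := by
  haveI : (RingHom.ker φ₀).IsPrime := RingHom.ker_isPrime _
  obtain ⟨Q, -, hQ, hQ'⟩ := Ideal.exists_ideal_over_prime_of_isIntegral (S := R)
    (RingHom.ker φ₀) ⊥ (by
      intro a ha
      have : algebraMap P R a = 0 := ha
      rw [(injective_iff_map_eq_zero _).1 hi a this]
      exact zero_mem _)
  obtain ⟨φ, h, -⟩ := ext_prime φ₀ Q hQ'
  exact ⟨φ, h⟩

theorem pow_mem_of_fixed {F : Type u} [Field F] (p : ℕ) [ExpChar F p] (x : AlgebraicClosure F)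
    (h : ∀ σ : AlgebraicClosure F ≃ₐ[F] AlgebraicClosure F, σ x = x) :
    ∃ n : ℕ, x ^ p ^ n ∈ (algebraMap F (AlgebraicClosure F)).range := by
  classical
  rw [← mem_perfectClosure_iff_pow_mem, mem_perfectClosure_iff_natSepDegree_eq_one,
    natSepDegree_eq_of_isAlgClosed (AlgebraicClosure F), Finset.card_eq_one]
  have hx : IsAlgebraic F x := Algebra.IsAlgebraic.isAlgebraic x
  refine ⟨x, ?_⟩
  ext y
  rw [Multiset.mem_toFinset, mem_aroots, Finset.mem_singleton]
  constructor
  · rintro ⟨-, hy⟩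
    obtain ⟨σ, hσ⟩ := minpoly.exists_algEquiv_of_root' hx hy
    rw [← hσ, h]
  · rintro rfl
    exact ⟨minpoly.ne_zero hx.isIntegral, minpoly.aeval _ _⟩

theorem generic {P R : Type u} [CommRing P] [CommRing R] [Algebra P R] [Algebra.IsIntegral P R]
    (p : ℕ) [hp : Fact p.Prime] [CharP R p] (hi : Function.Injective (algebraMap P R))
    (h : ∀ (K : Type u) [Field K] [IsAlgClosed K] (φ ψ : R →+* K),
      φ.comp (algebraMap P R) = ψ.comp (algebraMap P R) → φ = ψ)
    (I : Ideal P) [hI : I.IsPrime] (r : R) :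
    ∃ (e : ℕ) (c : P), c ∉ I ∧ ∃ a : P,
      algebraMap P R c * r ^ p ^ e - algebraMap P R a ∈ I.map (algebraMap P R) := by
  let F := FractionRing (P ⧸ I)
  let K := AlgebraicClosure F
  let φ₀ : P →+* K := (algebraMap F K).comp ((algebraMap (P ⧸ I) F).comp (Ideal.Quotient.mk I))
  have hker : RingHom.ker φ₀ = I := by
    ext a
    rw [RingHom.mem_ker]
    simp only [φ₀, RingHom.comp_apply, map_eq_zero_iff _ (algebraMap F K).injective,
      map_eq_zero_iff _ (IsFractionRing.injective (P ⧸ I) F), Ideal.Quotient.eq_zero_iff_mem]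
  obtain ⟨φ₁, hφ₁⟩ := ext_inj hi φ₀
  have hpK : (p : K) = 0 := by
    rw [← map_natCast φ₁, CharP.cast_eq_zero, map_zero]
  have hpF : (p : F) = 0 := by
    apply (algebraMap F K).injective
    rw [map_natCast, hpK, map_zero]
  haveI : CharP F p := (CharP.charP_iff_prime_eq_zero hp.out).2 hpF
  haveI : ExpChar F p := ExpChar.prime hp.out
  obtain ⟨e, μ, hμ⟩ := pow_mem_of_fixed p (φ₁ r) (fun σ => by
    have := h K ((σ : K →+* K).comp φ₁) φ₁ (by
      rw [RingHom.comp_assoc, hφ₁]
      ext a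
      exact σ.commutes _)
    exact RingHom.congr_fun this r)
  obtain ⟨a, c, hc, rfl⟩ := IsFractionRing.div_surjective (A := P ⧸ I) μ
  obtain ⟨a, rfl⟩ := Ideal.Quotient.mk_surjective a
  obtain ⟨c, rfl⟩ := Ideal.Quotient.mk_surjective c
  have hc0 : c ∉ I := by
    intro hcI
    exact nonZeroDivisors.ne_zero hc (Ideal.Quotient.eq_zero_iff_mem.2 hcI)
  have hc1 : φ₀ c ≠ 0 := by
    intro h0
    exact hc0 (hker ▸ (RingHom.mem_ker.2 h0))
  set z := algebraMap P R c * r ^ p ^ e - algebraMap P R a with hz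
  have hz1 : φ₁ z = 0 := by
    have e1 : φ₁ (algebraMap P R c) = φ₀ c := RingHom.congr_fun hφ₁ c
    have e2 : φ₁ (algebraMap P R a) = φ₀ a := RingHom.congr_fun hφ₁ a
    rw [hz, map_sub, map_mul, map_pow, ← hμ, e1, e2, map_div₀]
    change φ₀ c * (φ₀ a / φ₀ c) - φ₀ a = 0
    rw [mul_div_cancel₀ _ hc1, sub_self]
  -- nilpotence
  have hnil : ∃ (c' : P) (N : ℕ), c' ∉ I ∧ algebraMap P R c' * z ^ N ∈ I.map (algebraMap P R) := by
    by_contra hcon
    push Not at hcon
    let S : Submonoid R :=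
      { carrier := {x | ∃ (c' : P) (N : ℕ), c' ∉ I ∧ x = algebraMap P R c' * z ^ N}
        one_mem' := ⟨1, 0, (Ideal.ne_top_iff_one _).1 hI.ne_top, by simp⟩
        mul_mem' := by
          rintro _ _ ⟨c1, n1, h1, rfl⟩ ⟨c2, n2, h2, rfl⟩
          refine ⟨c1 * c2, n1 + n2, fun hm => (hI.mem_or_mem hm).elim h1 h2, ?_⟩
          rw [map_mul, pow_add]; ring }
    obtain ⟨Q, hQ, hle, hdis⟩ := Ideal.exists_le_prime_disjoint (I.map (algebraMap P R)) S (by
      rw [Set.disjoint_left]
      rintro x hx ⟨c', N, h1, rfl⟩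
      exact hcon c' N h1 hx)
    have hQI : Q.comap (algebraMap P R) = RingHom.ker φ₀ := by
      rw [hker]
      apply le_antisymm
      · intro x hx
        by_contra hxI
        exact Set.disjoint_left.1 hdis hx ⟨x, 0, hxI, by simp⟩
      · exact Ideal.map_le_iff_le_comap.1 hle
    obtain ⟨φ, hφ, hφQ⟩ := ext_prime φ₀ Q hQI
    have : φ = φ₁ := h K φ φ₁ (hφ.trans hφ₁.symm)
    have hzQ : z ∈ Q := hφQ z (this ▸ hz1)
    exact Set.disjoint_left.1 hdis hzQ ⟨1, 1, (Ideal.ne_top_iff_one _).1 hI.ne_top, by simp⟩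
  obtain ⟨c', N, hc', hN⟩ := hnil
  refine ⟨e + N, c' * c ^ p ^ N, fun hm => (hI.mem_or_mem hm).elim hc'
    (fun h2 => hc0 (hI.mem_of_pow_mem _ h2)), c' * a ^ p ^ N, ?_⟩
  have hle : N ≤ p ^ N := (Nat.lt_pow_self hp.out.one_lt).le
  obtain ⟨M, hM⟩ := Nat.exists_eq_add_of_le hle
  have : algebraMap P R (c' * c ^ p ^ N) * r ^ p ^ (e + N) - algebraMap P R (c' * a ^ p ^ N)
      = algebraMap P R c' * z ^ N * z ^ M := by
    rw [mul_assoc, ← pow_add, ← hM, hz, sub_pow_char_pow, map_mul, map_mul, map_pow, map_pow,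
      mul_pow, ← pow_mul, ← pow_add]
    ring
  rw [this]
  exact Ideal.mul_mem_right _ _ hN

/-- `r` lies in `P + I R`. -/
def InT {P R : Type*} [CommRing P] [CommRing R] [Algebra P R] (I : Ideal P) (r : R) : Prop :=
  ∃ a : P, r - algebraMap P R a ∈ I.map (algebraMap P R)

theorem InT.pow {P R : Type*} [CommRing P] [CommRing R] [Algebra P R] {I : Ideal P} {r : R}
    (h : InT I r) (n : ℕ) : InT I (r ^ n) := by
  obtain ⟨a, ha⟩ := h
  refine ⟨a ^ n, ?_⟩
  rw [map_pow]
  obtain ⟨c, hc⟩ := sub_dvd_pow_sub_pow r (algebraMap P R a) n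
  rw [hc]
  exact Ideal.mul_mem_right _ _ ha

theorem mem_radical_of_map {P R : Type*} [CommRing P] [CommRing R] [Algebra P R]
    [Algebra.IsIntegral P R] (hi : Function.Injective (algebraMap P R)) (I : Ideal P) (a : P)
    (ha : algebraMap P R a ∈ I.map (algebraMap P R)) : a ∈ I.radical := by
  rw [Ideal.radical_eq_sInf, Submodule.mem_sInf]
  rintro J ⟨hIJ, hJ⟩
  obtain ⟨Q, -, hQ, hQ'⟩ := Ideal.exists_ideal_over_prime_of_isIntegral (S := R) J ⊥ (by
      intro a ha
      have : algebraMap P R a = 0 := ha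
      rw [(injective_iff_map_eq_zero _).1 hi a this]
      exact zero_mem _)
  rw [← hQ'] at hIJ ⊢
  exact Ideal.map_le_iff_le_comap.2 hIJ ha

theorem generic_unif {P R : Type u} [CommRing P] [CommRing R] [Algebra P R] [Module.Finite P R]
    (p : ℕ) [hp : Fact p.Prime] [CharP R p] (hi : Function.Injective (algebraMap P R))
    (h : ∀ (K : Type u) [Field K] [IsAlgClosed K] (φ ψ : R →+* K),
      φ.comp (algebraMap P R) = ψ.comp (algebraMap P R) → φ = ψ)
    (I : Ideal P) [hI : I.IsPrime] :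
    ∃ (e : ℕ) (c : P), c ∉ I ∧ ∀ r : R, InT I (algebraMap P R c * r ^ p ^ e) := by
  classical
  obtain ⟨s, hs⟩ := Module.Finite.fg_top (R := P) (M := R)
  have key : ∀ t : Finset R, ∃ (e : ℕ) (c : P), c ∉ I ∧
      ∀ r ∈ t, InT I (algebraMap P R c * r ^ p ^ e) := by
    intro t
    induction t using Finset.induction_on with
    | empty => exact ⟨0, 1, (Ideal.ne_top_iff_one _).1 hI.ne_top, by simp⟩
    | insert x t hx ih =>
      obtain ⟨e, c, hc, hr⟩ := ih
      obtain ⟨e', c', hc', hx'⟩ := generic p hi h I x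
      refine ⟨e + e', c ^ p ^ e' * c' ^ p ^ e, fun hm => (hI.mem_or_mem hm).elim
        (fun h2 => hc (hI.mem_of_pow_mem _ h2)) (fun h2 => hc' (hI.mem_of_pow_mem _ h2)), ?_⟩
      intro r hr'
      rcases Finset.mem_insert.1 hr' with rfl | hr'
      · obtain ⟨a, ha⟩ := InT.pow (I := I) hx' (p ^ e)
        refine ⟨c ^ p ^ e' * a, ?_⟩
        have := Ideal.mul_mem_left _ (algebraMap P R (c ^ p ^ e')) ha
        convert this using 1
        simp only [map_mul, map_pow, mul_pow, ← pow_mul, ← pow_add, add_comm e' e]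
        ring
      · obtain ⟨a, ha⟩ := InT.pow (hr r hr') (p ^ e')
        refine ⟨c' ^ p ^ e * a, ?_⟩
        have := Ideal.mul_mem_left _ (algebraMap P R (c' ^ p ^ e)) ha
        convert this using 1
        simp only [map_mul, map_pow, mul_pow, ← pow_mul, ← pow_add]
        ring
  obtain ⟨e, c, hc, hr⟩ := key s
  refine ⟨e, c, hc, fun r => ?_⟩
  have hr' : r ∈ Submodule.span P (s : Set R) := hs ▸ Submodule.mem_top
  induction hr' using Submodule.span_induction with
  | mem x hx => exact hr x hx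
  | zero => exact ⟨0, by simp [hp.out.ne_zero]⟩
  | add x y _ _ hx hy =>
    obtain ⟨a, ha⟩ := hx
    obtain ⟨b, hb⟩ := hy
    refine ⟨a + b, ?_⟩
    convert Ideal.add_mem _ ha hb using 1
    rw [add_pow_char_pow, map_add]; ring
  | smul a x _ hx =>
    obtain ⟨b, hb⟩ := hx
    refine ⟨a ^ p ^ e * b, ?_⟩
    convert Ideal.mul_mem_left _ (algebraMap P R (a ^ p ^ e)) hb using 1
    rw [Algebra.smul_def, map_mul, map_pow, mul_pow]; ring

theorem pointwise {P R : Type u} [CommRing P] [CommRing R] [Algebra P R] [Module.Finite P R]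
    (p : ℕ) [hp : Fact p.Prime] [CharP R p] (hi : Function.Injective (algebraMap P R))
    (h : ∀ (K : Type u) [Field K] [IsAlgClosed K] (φ ψ : R →+* K),
      φ.comp (algebraMap P R) = ψ.comp (algebraMap P R) → φ = ψ) (f : R) :
    ∃ d, f ^ p ^ d ∈ (algebraMap P R).range := by
  by_contra hcon
  push Not at hcon
  let S : Set (Ideal P) := {I | ∀ d, ¬ InT I (f ^ p ^ d)}
  have h0 : (⊥ : Ideal P) ∈ S := by
    rintro d ⟨a, ha⟩
    rw [Ideal.map_bot, Ideal.mem_bot, sub_eq_zero] at ha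
    exact hcon d ⟨a, ha.symm⟩
  obtain ⟨I, -, hI⟩ := zorn_le_nonempty₀ S (fun c hc hch y hy => by
    refine ⟨sSup c, ?_, fun z hz => le_sSup hz⟩
    rintro d ⟨a, ha⟩
    rw [sSup_eq_iSup', Ideal.map_iSup] at ha
    haveI : Nonempty c := ⟨⟨y, hy⟩⟩
    have hdir : Directed (· ≤ ·) (fun J : c => Ideal.map (algebraMap P R) (J : Ideal P)) := by
      intro J1 J2
      rcases hch.total J1.2 J2.2 with h12 | h21
      · exact ⟨J2, Ideal.map_mono h12, le_rfl⟩
      · exact ⟨J1, le_rfl, Ideal.map_mono h21⟩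
    obtain ⟨J, hJ⟩ := (Submodule.mem_iSup_of_directed _ hdir).1 ha
    exact hc J.2 d ⟨a, hJ⟩) ⊥ h0
  have hbig : ∀ a, a ∉ I → ∃ d, InT (I ⊔ Ideal.span {a}) (f ^ p ^ d) := by
    intro a ha
    by_contra hc
    push Not at hc
    have := hI.2 (y := I ⊔ Ideal.span {a}) hc le_sup_left
    exact ha (this (Ideal.mem_sup_right (Ideal.mem_span_singleton_self a)))
  have hprime : I.IsPrime := by
    refine ⟨?_, ?_⟩
    · rintro rfl
      exact hI.1 0 ⟨0, by rw [Ideal.map_top]; exact Submodule.mem_top⟩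
    · intro a b hab
      by_contra hc
      push Not at hc
      obtain ⟨d1, h1⟩ := hbig a hc.1
      obtain ⟨d2, h2⟩ := hbig b hc.2
      obtain ⟨π1, h1⟩ := h1.pow (p ^ d2)
      obtain ⟨π2, h2⟩ := h2.pow (p ^ d1)
      rw [← pow_mul, ← pow_add] at h1 h2
      rw [add_comm d2 d1] at h2
      set g := f ^ p ^ (d1 + d2) with hg
      have h3 : π1 - π2 ∈ ((I ⊔ Ideal.span {a}) ⊔ (I ⊔ Ideal.span {b})).radical := by
        apply mem_radical_of_map hi
        rw [Ideal.map_sup]
        have : algebraMap P R (π1 - π2) = (g - algebraMap P R π2) - (g - algebraMap P R π1) := by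
          rw [map_sub]; ring
        rw [this]
        exact sub_mem (Ideal.mem_sup_right h2) (Ideal.mem_sup_left h1)
      obtain ⟨N, hN⟩ := h3
      have hle : N ≤ p ^ N := (Nat.lt_pow_self hp.out.one_lt).le
      have h4 := Ideal.pow_mem_of_pow_mem _ hN hle
      obtain ⟨u, hu, v, hv, huv⟩ := Submodule.mem_sup.1 h4
      have huv' : algebraMap P R u + algebraMap P R v
          = algebraMap P R π1 ^ p ^ N - algebraMap P R π2 ^ p ^ N := by
        rw [← map_add, huv, map_pow, map_sub, sub_pow_char_pow]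
      set z := g ^ p ^ N - algebraMap P R (π1 ^ p ^ N - u) with hz
      have hpos : 0 < p ^ N := pow_pos hp.out.pos N
      have hz1 : z ∈ (I ⊔ Ideal.span {a}).map (algebraMap P R) := by
        have : z = (g - algebraMap P R π1) ^ p ^ N + algebraMap P R u := by
          rw [hz, sub_pow_char_pow, map_sub, map_pow]; ring
        rw [this]
        exact add_mem (Ideal.pow_mem_of_mem _ h1 _ hpos) (Ideal.mem_map_of_mem _ hu)
      have hz2 : z ∈ (I ⊔ Ideal.span {b}).map (algebraMap P R) := by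
        have : z = (g - algebraMap P R π2) ^ p ^ N - algebraMap P R v := by
          rw [hz, sub_pow_char_pow, map_sub, map_pow]; linear_combination huv'
        rw [this]
        exact sub_mem (Ideal.pow_mem_of_mem _ h2 _ hpos) (Ideal.mem_map_of_mem _ hv)
      have hz3 : z ^ 2 ∈ I.map (algebraMap P R) := by
        have := Ideal.mul_mem_mul hz1 hz2
        rw [← Ideal.map_mul] at this
        rw [sq]
        refine Ideal.map_mono ?_ this
        rw [Ideal.sup_mul, Ideal.mul_sup, Ideal.mul_sup, Ideal.span_singleton_mul_span_singleton]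
        refine sup_le (sup_le Ideal.mul_le_left Ideal.mul_le_left)
          (sup_le Ideal.mul_le_right ?_)
        exact (Ideal.span_singleton_le_iff_mem _).2 hab
      have hz4 := Ideal.pow_mem_of_pow_mem _ hz3 hp.out.two_le
      refine hI.1 (d1 + d2 + N + 1) ⟨(π1 ^ p ^ N - u) ^ p, ?_⟩
      convert hz4 using 1
      rw [hz, sub_pow_char (R := R), map_pow, hg, ← pow_mul, ← pow_mul, pow_succ,
        pow_add p (d1 + d2) N, mul_assoc]
  obtain ⟨e, c, hc, hr⟩ := generic_unif p hi h I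
  obtain ⟨d, π, hπ⟩ := hbig c hc
  rw [Ideal.map_sup, Ideal.map_span, Set.image_singleton] at hπ
  obtain ⟨y, hy, w, hw, hyw⟩ := Submodule.mem_sup.1 hπ
  obtain ⟨s, rfl⟩ := Ideal.mem_span_singleton'.1 hw
  obtain ⟨a, ha⟩ := hr s
  have hpos : 0 < p ^ e := pow_pos hp.out.pos e
  obtain ⟨m, hm⟩ := Nat.exists_eq_add_of_lt hpos
  refine hI.1 (d + e) ⟨π ^ p ^ e + c ^ m * a, ?_⟩
  have e1 : f ^ p ^ d = algebraMap P R π + y + s * algebraMap P R c := by
    linear_combination -hyw
  have e2 : algebraMap P R c ^ p ^ e = algebraMap P R c ^ m * algebraMap P R c := by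
    rw [hm, zero_add, pow_succ]
  convert add_mem (Ideal.pow_mem_of_mem _ hy _ hpos)
    (Ideal.mul_mem_left _ (algebraMap P R c ^ m) ha) using 1
  rw [pow_add, pow_mul, e1, add_pow_char_pow, add_pow_char_pow, mul_pow, e2, map_add, map_mul,
    map_pow, map_pow]
  ring

theorem uniform {P R : Type u} [CommRing P] [CommRing R] [Algebra P R] [Module.Finite P R]
    (p : ℕ) [hp : Fact p.Prime] [CharP R p] (hi : Function.Injective (algebraMap P R))
    (h : ∀ (K : Type u) [Field K] [IsAlgClosed K] (φ ψ : R →+* K),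
      φ.comp (algebraMap P R) = ψ.comp (algebraMap P R) → φ = ψ) :
    ∃ d, ∀ f : R, f ^ p ^ d ∈ (algebraMap P R).range := by
  classical
  obtain ⟨s, hs⟩ := Module.Finite.fg_top (R := P) (M := R)
  choose d hd using pointwise p hi h
  refine ⟨s.sup d, fun r => ?_⟩
  have hr' : r ∈ Submodule.span P (s : Set R) := hs ▸ Submodule.mem_top
  induction hr' using Submodule.span_induction with
  | mem x hx =>
    obtain ⟨m, hm⟩ := Nat.exists_eq_add_of_le (Finset.le_sup (f := d) hx)
    rw [hm, pow_add, pow_mul]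
    exact pow_mem (hd x) _
  | zero => rw [zero_pow (pow_pos hp.out.pos _).ne']; exact zero_mem _
  | add x y _ _ hx hy => rw [add_pow_char_pow]; exact add_mem hx hy
  | smul a x _ hx =>
    rw [Algebra.smul_def, mul_pow]
    exact mul_mem (pow_mem (RingHom.mem_range_self _ a) _) hx

/-- Subalgebra form. -/
theorem uniform_sub {k : Type*} {A : Type u} [Field k] [CommRing A] [Algebra k A]
    [Algebra.FiniteType k A] (p : ℕ) [hp : Fact p.Prime] [CharP A p] (P R : Subalgebra k A)
    (hPR : P ≤ R) (hint : ∀ a : A, IsIntegral P a)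
    (h : ∀ (K : Type u) [Field K] [IsAlgClosed K] (φ ψ : A →+* K),
      (∀ a ∈ P, φ a = ψ a) → ∀ r ∈ R, φ r = ψ r) :
    ∃ d, ∀ f ∈ R, f ^ p ^ d ∈ P := by
  letI : Algebra P R := RingHom.toAlgebra (Subalgebra.inclusion hPR : P →+* R)
  haveI : IsScalarTower P R A := IsScalarTower.of_algebraMap_eq (fun _ => rfl)
  haveI : IsScalarTower k P R := IsScalarTower.of_algebraMap_eq (fun _ => rfl)
  haveI : Algebra.IsIntegral P A := ⟨hint⟩
  haveI : Algebra.IsIntegral R A := Algebra.IsIntegral.tower_top P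
  haveI : Algebra.FiniteType R A := Algebra.FiniteType.of_restrictScalars_finiteType k R A
  haveI : Module.Finite R A := Algebra.IsIntegral.finite
  have hRA : Function.Injective (algebraMap R A) := Subtype.val_injective
  haveI : Algebra.FiniteType k R := ⟨fg_of_fg_of_fg k R A Algebra.FiniteType.out
    Module.Finite.fg_top hRA⟩
  haveI : Algebra.FiniteType P R := Algebra.FiniteType.of_restrictScalars_finiteType k P R
  haveI : Algebra.IsIntegral P R := ⟨fun r => (isIntegral_algebraMap_iff hRA).1 (hint r)⟩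
  haveI : Module.Finite P R := Algebra.IsIntegral.finite
  haveI : CharP R p := (algebraMap R A).charP hRA p
  obtain ⟨d, hd⟩ := uniform (P := P) (R := R) p (Subalgebra.inclusion_injective hPR)
    (fun K _ _ φ ψ hφ => by
      obtain ⟨φ', h1⟩ := ext_inj hRA φ
      obtain ⟨ψ', h2⟩ := ext_inj hRA ψ
      ext r
      have := h K φ' ψ' (fun a ha => by
        have e1 := RingHom.congr_fun h1 ⟨a, hPR ha⟩
        have e2 := RingHom.congr_fun h2 ⟨a, hPR ha⟩
        have e3 := RingHom.congr_fun hφ ⟨a, ha⟩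
        exact e1.trans (e3.trans e2.symm)) r r.2
      exact (RingHom.congr_fun h1 r).symm.trans (this.trans (RingHom.congr_fun h2 r)))
  refine ⟨d, fun f hf => ?_⟩
  obtain ⟨a, ha⟩ := hd ⟨f, hf⟩
  have : (a : A) = f ^ p ^ d := congrArg Subtype.val ha
  exact this ▸ a.2

end Pool.Agent.H64.Pol
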