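import Pool.Agent.H64.Pol1

/-! Conjugacy of points and the subgroup decomposition of Frobenius powers. -/

namespace Pool.Agent.H64.Pol

universe u

open Polynomial

theorem conj {G B D : Type*} [Group G] [Finite G] [CommRing B] [MulSemiringAction G B]
    [CommRing D] [IsDomain D] (φ ψ : B →+* D) (h : ∀ b : B, (∀ g : G, g • b = b) → φ b = ψ b) :
    ∃ σ : G, ∀ b, ψ b = φ (σ • b) := by
  classical
  haveI := Fintype.ofFinite G
  by_contra hcon
  push Not at hcon
  choose y hy using hcon
  let idx := Fintype.equivFin G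
  let Y : B[X] := ∑ σ : G, monomial (idx σ : ℕ) (y σ)
  have hY : ∀ σ, Y.coeff (idx σ) = y σ := by
    intro σ
    simp only [Y, finset_sum_coeff, coeff_monomial]
    rw [Finset.sum_eq_single σ]
    · simp
    · intro τ _ hτ
      rw [if_neg]
      intro h1
      exact hτ (idx.injective (Fin.ext h1))
    · simp
  let χ := MulSemiringAction.charpoly G Y
  have h1 : χ.map (mapRingHom φ) = χ.map (mapRingHom ψ) := by
    ext n m
    simp only [coeff_map, coe_mapRingHom]
    apply h
    intro g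
    rw [← coeff_smul, MulSemiringAction.smul_coeff_charpoly]
  have h2 : (χ.map (mapRingHom ψ)).eval (mapRingHom ψ Y) = 0 := by
    rw [eval_map, eval₂_at_apply, MulSemiringAction.eval_charpoly, map_zero]
  rw [← h1] at h2
  simp only [χ, MulSemiringAction.charpoly_eq, Polynomial.map_prod, eval_prod, Polynomial.map_sub,
    map_X, map_C, eval_sub, eval_X, eval_C, Finset.prod_eq_zero_iff] at h2
  obtain ⟨σ, -, hσ⟩ := h2
  have := congrArg (fun q => q.coeff (idx σ)) (sub_eq_zero.1 hσ)
  simp only [coe_mapRingHom, coeff_map, coeff_smul, hY] at this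
  exact hy σ this

variable {G B : Type*} [Group G] [CommRing B] [MulSemiringAction G B]

/-- fixed by every element of `H` -/
def Fx (H : Subgroup G) (b : B) : Prop := ∀ η ∈ H, η • b = b

theorem Fx.mul {H : Subgroup G} {a b : B} (ha : Fx H a) (hb : Fx H b) : Fx H (a * b) :=
  fun η hη => by rw [smul_mul', ha η hη, hb η hη]

theorem Fx.one {H : Subgroup G} : Fx H (1 : B) := fun η _ => smul_one η

theorem Fx.pow {H : Subgroup G} {a : B} (ha : Fx H a) (n : ℕ) : Fx H (a ^ n) :=
  fun η hη => by rw [smul_pow', ha η hη]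

/-- functions `τ ↦ ∑ ψ_j τ(θ_j)` -/
def DD (B : Type*) [CommRing B] [MulSemiringAction G B] (H : Subgroup G) : AddSubgroup (G → B) :=
  AddSubgroup.closure {F | ∃ ψ θ : B, Fx H ψ ∧ Fx H θ ∧ F = fun τ => ψ * τ • θ}

theorem DD_gen {H : Subgroup G} {ψ θ : B} (h1 : Fx H ψ) (h2 : Fx H θ) :
    (fun τ => ψ * τ • θ) ∈ DD B H := AddSubgroup.subset_closure ⟨ψ, θ, h1, h2, rfl⟩

theorem DD_mul {H : Subgroup G} {F F' : G → B} (h : F ∈ DD B H) (h' : F' ∈ DD B H) :
    F * F' ∈ DD B H := by
  induction h using AddSubgroup.closure_induction with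
  | mem F hF =>
    obtain ⟨ψ, θ, h1, h2, rfl⟩ := hF
    induction h' using AddSubgroup.closure_induction with
    | mem F' hF' =>
      obtain ⟨ψ', θ', h1', h2', rfl⟩ := hF'
      convert DD_gen (h1.mul h1') (h2.mul h2') using 1
      ext τ
      simp only [Pi.mul_apply, smul_mul']
      ring
    | zero => rw [mul_zero]; exact zero_mem _
    | add a b _ _ ha hb => rw [mul_add]; exact add_mem ha hb
    | neg a _ ha => rw [mul_neg]; exact neg_mem ha
  | zero => rw [zero_mul]; exact zero_mem _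
  | add a b _ _ ha hb => rw [add_mul]; exact add_mem ha hb
  | neg a _ ha => rw [neg_mul]; exact neg_mem ha

theorem DD_one {H : Subgroup G} : (1 : G → B) ∈ DD B H := by
  convert DD_gen (B := B) (H := H) Fx.one Fx.one using 1
  ext τ
  simp

theorem DD_prod {H : Subgroup G} {ι : Type*} (s : Finset ι) (F : ι → G → B)
    (h : ∀ i ∈ s, F i ∈ DD B H) : ∏ i ∈ s, F i ∈ DD B H :=
  Finset.prod_induction _ (· ∈ DD B H) (fun _ _ => DD_mul) DD_one h

theorem DD_norm {H : Subgroup G} [Fintype H] {y : B} (hy : Fx H y) (z : B) :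
    (fun τ : G => ∏ η : H, (τ • y - (η : G) • z)) ∈ DD B H := by
  have : (fun τ : G => ∏ η : H, (τ • y - (η : G) • z)) =
      ∑ i ∈ Finset.range ((MulSemiringAction.charpoly H z).natDegree + 1),
        fun τ : G => (MulSemiringAction.charpoly H z).coeff i * τ • y ^ i := by
    ext τ
    simp only [Finset.sum_apply, smul_pow']
    rw [← eval_eq_sum_range, MulSemiringAction.charpoly_eq, eval_prod]
    simp [Subgroup.smul_def]
  rw [this]
  refine sum_mem fun i _ => DD_gen ?_ (hy.pow i)
  intro η hη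
  exact MulSemiringAction.smul_coeff_charpoly (G := H) z i ⟨η, hη⟩

open Classical in
/-- the ideal attached to `H` -/
def IsA (H : Subgroup G) (w : B) : Prop := (fun τ : G => if τ ∈ H then w else 0) ∈ DD B H

theorem IsA_top {w : B} (hw : ∀ g : G, g • w = w) : IsA (⊤ : Subgroup G) w := by
  unfold IsA
  convert DD_gen (B := B) (H := (⊤ : Subgroup G)) (fun g _ => hw g) Fx.one using 1
  ext τ
  simp

theorem IsA.mul {H : Subgroup G} {w y : B} (hw : IsA H w) (hy : Fx H y) : IsA H (w * y) := by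
  unfold IsA at *
  convert DD_mul hw (DD_gen hy Fx.one) using 1
  ext τ
  simp only [Pi.mul_apply, smul_one, mul_one]
  split_ifs <;> simp

theorem inj_of_agree [Finite G] {K : Type*} [Field K] (φ ψ : B →+* K)
    (h : ∀ (H : Subgroup G) (w : B), IsA H w → φ w = ψ w) : φ = ψ := by
  classical
  obtain ⟨τ, hτ⟩ := conj (G := G) φ ψ (fun b hb => h ⊤ b (IsA_top hb))
  let H : Subgroup G :=
    { carrier := {σ | ∀ b, φ (σ • b) = φ b}
      one_mem' := fun b => by rw [one_smul]
      mul_mem' := fun {a c} ha hc b => by rw [mul_smul, ha, hc]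
      inv_mem' := fun {a} ha b => by rw [← ha (a⁻¹ • b), smul_inv_smul] }
  have hH : ∀ σ, σ ∈ H ↔ ∀ b, φ (σ • b) = φ b := fun σ => Iff.rfl
  by_cases hτH : τ ∈ H
  · ext b
    rw [hτ, (hH τ).1 hτH]
  exfalso
  have hy : ∀ σ : G, ∃ y : B, Fx H y ∧ (σ ∉ H → φ y ≠ φ (σ • y)) := by
    intro σ
    by_contra hc
    push Not at hc
    have hσ : σ ∉ H := (hc 1 Fx.one).1
    obtain ⟨η, hη⟩ := conj (G := H) φ (φ.comp (MulSemiringAction.toRingHom G B σ))
      (fun b hb => (hc b (fun η hη => hb ⟨η, hη⟩)).2)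
    exact hσ fun b => (hη b).trans ((hH η).1 η.2 b)
  choose y hy1 hy2 using hy
  haveI := Fintype.ofFinite G
  let w : B := ∏ σ ∈ Finset.univ.filter (· ∉ H), ∏ η : H, (y σ - (η : G) • σ • y σ)
  have hw : IsA H w := by
    unfold IsA
    convert DD_prod (Finset.univ.filter (· ∉ H)) _ (fun σ _ => DD_norm (hy1 σ) (σ • y σ)) using 1
    ext t
    rw [Finset.prod_apply]
    split_ifs with ht
    · refine Finset.prod_congr rfl fun σ _ => ?_
      rw [hy1 σ t ht]
    · symm
      refine Finset.prod_eq_zero (i := t) (by simpa using ht) ?_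
      refine Finset.prod_eq_zero (i := (1 : H)) (Finset.mem_univ _) ?_
      simp
  have hw0 : φ w ≠ 0 := by
    simp only [w, map_prod, map_sub, Finset.prod_ne_zero_iff]
    intro σ hσ η _
    rw [(hH η).1 η.2, sub_ne_zero]
    exact hy2 σ (by simpa using hσ)
  have e1 := h H w hw
  have e2 := h H _ (hw.mul (hy1 τ))
  rw [map_mul, map_mul, ← e1, hτ (y τ)] at e2
  exact hy2 τ hτH (mul_left_cancel₀ hw0 e2)

theorem isIntegral_of_fixed [Finite G] {k : Type*} [CommRing k] [Algebra k B] (P : Subalgebra k B)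
    (b : B) (S : Subring B) (hb : b ∈ S) (hS : ∀ (g : G), ∀ x ∈ S, g • x ∈ S)
    (h : ∀ x ∈ S, (∀ g : G, g • x = x) → x ∈ P) : IsIntegral P b := by
  haveI := Fintype.ofFinite G
  have h1 : MulSemiringAction.charpoly G b ∈ lifts (algebraMap P B) := by
    rw [lifts_iff_coeff_lifts]
    intro n
    refine ⟨⟨_, h _ ?_ (MulSemiringAction.smul_coeff_charpoly b n)⟩, rfl⟩
    have h2 : MulSemiringAction.charpoly G b ∈ lifts S.subtype := by
      rw [MulSemiringAction.charpoly_eq]
      refine prod_mem fun g _ => ?_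
      rw [mem_lifts]
      exact ⟨X - C ⟨_, hS g b hb⟩, by simp⟩
    obtain ⟨x, hx⟩ := (lifts_iff_coeff_lifts _).1 h2 n
    exact hx ▸ x.2
  obtain ⟨q, hq1, -, hq2⟩ := lifts_and_natDegree_eq_and_monic h1
    (MulSemiringAction.monic_charpoly G b)
  exact ⟨q, hq2, by rw [← eval_map, hq1, MulSemiringAction.eval_charpoly]⟩

theorem decomp {B : Type u} [CommRing B] [MulSemiringAction G B] [Finite G] {k : Type*} [Field k]
    [Algebra k B] [Algebra.FiniteType k B] (p : ℕ) [Fact p.Prime] [CharP B p]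
    (hk : ∀ (g : G) (c : k), g • algebraMap k B c = algebraMap k B c) :
    ∃ d, ∀ b : B, b ^ p ^ d ∈ Subring.closure {w : B | ∃ H : Subgroup G, IsA H w} := by
  let P : Subalgebra k B :=
    { (Subring.closure {w : B | ∃ H : Subgroup G, IsA H w}).toSubsemiring with
      algebraMap_mem' := fun c => Subring.subset_closure ⟨⊤, IsA_top fun g => hk g c⟩ }
  obtain ⟨d, hd⟩ := uniform_sub p P ⊤ le_top
    (fun a => isIntegral_of_fixed (G := G) P a ⊤ trivial (fun _ _ _ => trivial)
      (fun x _ hx => Subring.subset_closure ⟨⊤, IsA_top hx⟩))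
    (fun K _ _ φ ψ h r _ => by
      rw [inj_of_agree (G := G) φ ψ (fun H w hw => h w (Subring.subset_closure ⟨H, hw⟩))])
  exact ⟨d, fun b => hd b trivial⟩

end Pool.Agent.H64.Pol
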