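import Pool.Agent.H64.Pol2

/-! Frobenius powers of invariants of many copies are generated by invariants of few copies. -/

namespace Pool.Agent.H64.Pol

universe u

variable {G B A Λ : Type*} [Group G] [CommRing B] [MulSemiringAction G B]
  [CommRing A] [MulSemiringAction G A]

/-- relative trace -/
noncomputable def tr [Finite G] (H : Subgroup G) (x : A) : A :=
  haveI := Fintype.ofFinite (G ⧸ H)
  ∑ c : G ⧸ H, c.out • x

theorem out_smul {H : Subgroup G} {x : A} (hx : Fx H x) (g : G) :
    (QuotientGroup.mk g : G ⧸ H).out • x = g • x := by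
  obtain ⟨h, hh⟩ := QuotientGroup.mk_out_eq_mul H g
  rw [hh, mul_smul, hx h h.2]

theorem smul_tr [Finite G] {H : Subgroup G} {x : A} (hx : Fx H x) (g : G) :
    g • tr H x = tr H x := by
  unfold tr
  letI := Fintype.ofFinite (G ⧸ H)
  rw [Finset.smul_sum, ← Equiv.sum_comp (MulAction.toPerm g) (fun c : G ⧸ H => c.out • x)]
  refine Finset.sum_congr rfl fun c _ => ?_
  rw [MulAction.toPerm_apply, ← MulAction.Quotient.mk_smul_out, out_smul hx, smul_eq_mul, mul_smul]

/-- subring generated by the copies indexed by `J` -/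
def AJ (e : Λ → B →+* A) (J : Finset Λ) : Subring A :=
  Subring.closure {x | ∃ a ∈ J, ∃ b, x = e a b}

theorem AJ_mono (e : Λ → B →+* A) {J J' : Finset Λ} (h : J ⊆ J') : AJ e J ≤ AJ e J' :=
  Subring.closure_mono fun _ ⟨a, ha, b, hb⟩ => ⟨a, h ha, b, hb⟩

theorem mem_AJ (e : Λ → B →+* A) {J : Finset Λ} {a : Λ} (ha : a ∈ J) (b : B) : e a b ∈ AJ e J :=
  Subring.subset_closure ⟨a, ha, b, rfl⟩

theorem smul_AJ {e : Λ → B →+* A} (he : ∀ a (g : G) b, g • e a b = e a (g • b)) {J : Finset Λ}
    (g : G) (x : A) (hx : x ∈ AJ e J) : g • x ∈ AJ e J := by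
  have : AJ e J ≤ (AJ e J).comap (MulSemiringAction.toRingHom G A g) := by
    refine Subring.closure_le.2 ?_
    rintro _ ⟨a, ha, b, rfl⟩
    change g • e a b ∈ AJ e J
    rw [he]
    exact mem_AJ e ha _
  exact this hx

/-- subring generated by invariants of at most `s` copies -/
def QQ (G : Type*) [Group G] [MulSemiringAction G A] (e : Λ → B →+* A) (s : ℕ) : Subring A :=
  Subring.closure {x | ∃ J : Finset Λ, J.card ≤ s ∧ x ∈ AJ e J ∧ ∀ g : G, g • x = x}

theorem QQ_fixed {e : Λ → B →+* A} {s : ℕ} {x : A} (hx : x ∈ QQ G e s) (g : G) : g • x = x := by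
  induction hx using Subring.closure_induction with
  | mem x hx => obtain ⟨J, -, -, h⟩ := hx; exact h g
  | zero => exact smul_zero g
  | one => exact smul_one g
  | add x y _ _ hx hy => rw [smul_add, hx, hy]
  | neg x _ hx => rw [smul_neg, hx]
  | mul x y _ _ hx hy => rw [smul_mul', hx, hy]

theorem absorb [Finite G] {e : Λ → B →+* A} (he : ∀ a (g : G) b, g • e a b = e a (g • b)) {s : ℕ}
    (hs : 2 ≤ s) {H : Subgroup G} {w φ : B} (hw : IsA H w) (hφ : Fx H φ) (a b : Λ) :
    e a w * e b φ ∈ Submodule.span (QQ G e s) {x | ∃ ψ, Fx H ψ ∧ x = e a ψ} := by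
  classical
  letI := Fintype.ofFinite (G ⧸ H)
  have hφ' : Fx H (e b φ) := fun η hη => by rw [he, hφ η hη]
  have key : ∀ F ∈ DD B H, ∑ c : G ⧸ H, e a (F c.out) * c.out • e b φ ∈
      Submodule.span (QQ G e s) {x | ∃ ψ, Fx H ψ ∧ x = e a ψ} := by
    intro F hF
    induction hF using AddSubgroup.closure_induction with
    | mem F hF =>
      obtain ⟨ψ, θ, h1, h2, rfl⟩ := hF
      have hθ : Fx H (e a θ * e b φ) := Fx.mul (fun η hη => by rw [he, h2 η hη]) hφ'
      have hQ : tr H (e a θ * e b φ) ∈ QQ G e s := by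
        refine Subring.subset_closure ⟨{a, b}, Finset.card_le_two.trans hs, ?_, smul_tr hθ⟩
        unfold tr
        refine sum_mem fun c _ => smul_AJ he _ _ (mul_mem (mem_AJ e ?_ _) (mem_AJ e ?_ _)) <;> simp
      have := Submodule.smul_mem _ (⟨_, hQ⟩ : QQ G e s)
        (Submodule.subset_span (R := QQ G e s) (s := {x | ∃ ψ, Fx H ψ ∧ x = e a ψ}) ⟨ψ, h1, rfl⟩)
      convert this using 1
      change _ = tr H (e a θ * e b φ) * e a ψ
      unfold tr
      rw [Finset.sum_mul]
      refine Finset.sum_congr rfl fun c _ => ?_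
      rw [map_mul, smul_mul', he a]
      ring
    | zero => simp
    | add F F' _ _ h1 h2 =>
      simp only [Pi.add_apply, map_add, add_mul, Finset.sum_add_distrib]
      exact add_mem h1 h2
    | neg F _ h1 =>
      simp only [Pi.neg_apply, map_neg, neg_mul, Finset.sum_neg_distrib]
      exact neg_mem h1
  convert key _ hw using 1
  rw [Finset.sum_eq_single (QuotientGroup.mk 1 : G ⧸ H)]
  · have h1 : (QuotientGroup.mk 1 : G ⧸ H).out ∈ H := by
      obtain ⟨h, hh⟩ := QuotientGroup.mk_out_eq_mul H 1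
      rw [hh, one_mul]
      exact h.2
    rw [if_pos h1, hφ' _ h1]
  · intro c _ hc
    rw [if_neg, map_zero, zero_mul]
    intro h1
    apply hc
    rw [← QuotientGroup.out_eq' c, eq_comm, QuotientGroup.eq]
    simpa using h1
  · simp

/-- products of one factor for each subgroup -/
def MM (G : Type*) [Group G] [MulSemiringAction G B] [Fintype (Subgroup G)]
    (e : Λ → B →+* A) : Set A :=
  {x | ∃ (a : Subgroup G → Λ) (φ : Subgroup G → B), (∀ H, Fx H (φ H)) ∧ x = ∏ H, e (a H) (φ H)}

theorem mul_MM [Finite G] [Fintype (Subgroup G)] {e : Λ → B →+* A}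
    (he : ∀ a (g : G) b, g • e a b = e a (g • b)) {s : ℕ}
    (hs : 2 ≤ s) {H : Subgroup G} {w : B} (hw : IsA H w) (a : Λ) (y : A)
    (hy : y ∈ Submodule.span (QQ G e s) (MM G e)) :
    e a w * y ∈ Submodule.span (QQ G e s) (MM G e) := by
  classical
  induction hy using Submodule.span_induction with
  | mem y hy =>
    obtain ⟨α, φ, hφ, rfl⟩ := hy
    rw [← Finset.mul_prod_erase _ _ (Finset.mem_univ H), ← mul_assoc]
    have := absorb he hs hw (hφ H) a (α H)
    generalize e a w * e (α H) (φ H) = z at this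
    induction this using Submodule.span_induction with
    | mem z hz =>
      obtain ⟨ψ, hψ, rfl⟩ := hz
      refine Submodule.subset_span ⟨Function.update α H a, Function.update φ H ψ, ?_, ?_⟩
      · intro H'
        by_cases h : H' = H
        · subst h; simpa using hψ
        · rw [Function.update_of_ne h]; exact hφ H'
      · rw [← Finset.mul_prod_erase _ _ (Finset.mem_univ H)]
        simp only [Function.update_self]
        congr 1
        refine Finset.prod_congr rfl fun H' hH' => ?_
        rw [Function.update_of_ne (Finset.ne_of_mem_erase hH'),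
          Function.update_of_ne (Finset.ne_of_mem_erase hH')]
    | zero => simp
    | add x y _ _ hx hy => rw [add_mul]; exact add_mem hx hy
    | smul c x _ hx => rw [smul_mul_assoc]; exact Submodule.smul_mem _ _ hx
  | zero => simp
  | add x y _ _ hx hy => rw [mul_add]; exact add_mem hx hy
  | smul c x _ hx => rw [mul_smul_comm]; exact Submodule.smul_mem _ _ hx

/-- multiplier ring of a submodule -/
def Mult {Q : Subring A} (M : Submodule Q A) : Subring A where
  carrier := {x | ∀ y ∈ M, x * y ∈ M}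
  one_mem' := fun y hy => by rwa [one_mul]
  zero_mem' := fun y _ => by rw [zero_mul]; exact zero_mem _
  mul_mem' := fun {a b} ha hb y hy => by rw [mul_assoc]; exact ha _ (hb y hy)
  add_mem' := fun {a b} ha hb y hy => by rw [add_mul]; exact add_mem (ha y hy) (hb y hy)
  neg_mem' := fun {a} ha y hy => by rw [neg_mul]; exact neg_mem (ha y hy)

theorem pow_mem_MM [Finite G] [Fintype (Subgroup G)] [Nonempty Λ] {e : Λ → B →+* A}
    (he : ∀ a (g : G) b, g • e a b = e a (g • b)) {s : ℕ} (hs : 2 ≤ s) (p : ℕ) [Fact p.Prime]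
    [CharP A p] {d : ℕ}
    (hd : ∀ b : B, b ^ p ^ d ∈ Subring.closure {w : B | ∃ H : Subgroup G, IsA H w})
    (hgen : Subring.closure {x | ∃ a b, x = e a b} = ⊤) (x : A) :
    x ^ p ^ d ∈ Submodule.span (QQ G e s) (MM G e) := by
  have h1 : (⊤ : Subring A) ≤
      (Mult (Submodule.span (QQ G e s) (MM G e))).comap (iterateFrobenius A p d) := by
    rw [← hgen]
    refine Subring.closure_le.2 ?_
    rintro _ ⟨a, b, rfl⟩
    have h2 : Subring.closure {w : B | ∃ H : Subgroup G, IsA H w} ≤
        (Mult (Submodule.span (QQ G e s) (MM G e))).comap (e a) := by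
      refine Subring.closure_le.2 ?_
      rintro w ⟨H, hw⟩ y hy
      exact mul_MM he hs hw a y hy
    have := h2 (hd b)
    rw [Subring.mem_comap, map_pow] at this
    exact this
  have h3 : (1 : A) ∈ Submodule.span (QQ G e s) (MM G e) :=
    Submodule.subset_span ⟨fun _ => Classical.arbitrary Λ, fun _ => 1, fun _ => Fx.one, by simp⟩
  have := h1 (Subring.mem_top x) 1 h3
  rwa [mul_one] at this

end Pool.Agent.H64.Pol
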