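import Pool.Agent.H64.Pol3

/-! The orbit Chern class trick. -/

namespace Pool.Agent.H64.Pol

universe u

variable {G B A Λ : Type*} [Group G] [CommRing B] [MulSemiringAction G B]
  [CommRing A] [MulSemiringAction G A]

open MvPolynomial in
/-- polynomials whose coefficients only involve the copies attached to their variables -/
def Loc [DecidableEq Λ] (e : Λ → B →+* A) {ι : Type*} (J : ι → Finset Λ) :
    Subring (MvPolynomial ι A) where
  carrier := {E | ∀ α : ι →₀ ℕ, coeff α E ∈ AJ e (α.support.biUnion J)}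
  one_mem' := fun α => by
    classical
    rw [coeff_one]
    split_ifs
    · exact one_mem _
    · exact zero_mem _
  zero_mem' := fun α => by rw [coeff_zero]; exact zero_mem _
  add_mem' := fun {a b} ha hb α => by rw [coeff_add]; exact add_mem (ha α) (hb α)
  neg_mem' := fun {a} ha α => by rw [coeff_neg]; exact neg_mem (ha α)
  mul_mem' := fun {a b} ha hb α => by
    classical
    rw [coeff_mul]
    refine sum_mem fun x hx => ?_
    rw [Finset.HasAntidiagonal.mem_antidiagonal] at hx
    refine mul_mem (AJ_mono e ?_ (ha x.1)) (AJ_mono e ?_ (hb x.2))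
    · exact Finset.biUnion_subset_biUnion_of_subset_left _
        (Finsupp.support_mono (hx ▸ le_self_add))
    · exact Finset.biUnion_subset_biUnion_of_subset_left _
        (Finsupp.support_mono (hx ▸ le_add_self))

open MvPolynomial in
theorem etrick [Fintype G] {e : Λ → B →+* A} (he : ∀ a (g : G) b, g • e a b = e a (g • b))
    {r s : ℕ} (hs : Fintype.card G * r ≤ s) {ι : Type*} [Fintype ι] (π m : ι → A)
    (hπ : ∀ i, π i ∈ QQ G e s) (J : ι → Finset Λ) (hJ : ∀ i, (J i).card ≤ r)
    (hm : ∀ i, m i ∈ AJ e (J i)) (F : A) (hF : F = ∑ i, π i * m i) (hFx : ∀ g : G, g • F = F) :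
    (1 + Polynomial.C F * Polynomial.X) ^ Fintype.card G ∈
      Polynomial.lifts (QQ G e s).subtype := by
  classical
  rcases subsingleton_or_nontrivial A with hA | hA
  · rw [Subsingleton.elim ((1 + Polynomial.C F * Polynomial.X) ^ Fintype.card G) 0]
    exact zero_mem _
  let E : MvPolynomial ι A := ∏ σ : G, (1 + ∑ i, X i * C (σ • m i))
  have h1 : ∀ g : G, map (MulSemiringAction.toRingHom G A g) E = E := by
    intro g
    simp only [E, map_prod, map_add, map_one, map_sum, map_mul, map_X, map_C,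
      MulSemiringAction.toRingHom_apply, smul_smul]
    exact Equiv.prod_comp (Equiv.mulLeft g) (fun σ => 1 + ∑ i, X i * C (σ • m i))
  have h2 : E ∈ Loc e J := by
    refine prod_mem fun σ _ => add_mem (one_mem _) (sum_mem fun i _ => ?_)
    intro α
    rw [mul_comm, C_mul_X_eq_monomial, coeff_monomial]
    split_ifs with h
    · subst h
      refine AJ_mono e ?_ (smul_AJ he σ _ (hm i))
      rw [Finsupp.support_single_ne_zero _ one_ne_zero, Finset.singleton_biUnion]
    · exact zero_mem _
  have h3 : E.totalDegree ≤ Fintype.card G := by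
    refine (totalDegree_finset_prod _ _).trans ?_
    rw [← Finset.card_univ, Finset.card_eq_sum_ones]
    refine Finset.sum_le_sum fun σ _ => (totalDegree_add _ _).trans (max_le (by simp) ?_)
    refine totalDegree_finsetSum_le fun i _ => (totalDegree_mul _ _).trans ?_
    simp
  have h4 : ∀ α ∈ E.support, coeff α E ∈ QQ G e s := by
    intro α hα
    refine Subring.subset_closure ⟨α.support.biUnion J, ?_, h2 α, fun g => ?_⟩
    · refine (Finset.card_biUnion_le_card_mul _ _ r fun i _ => hJ i).trans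
        ((Nat.mul_le_mul_right r ?_).trans hs)
      refine le_trans ?_ ((le_totalDegree hα).trans h3)
      rw [Finset.card_eq_sum_ones, Finsupp.sum]
      exact Finset.sum_le_sum fun i hi => Nat.one_le_iff_ne_zero.2 (Finsupp.mem_support_iff.1 hi)
    · conv_rhs => rw [← h1 g, coeff_map]
      rfl
  let ev : MvPolynomial ι A →ₐ[A] Polynomial A :=
    aeval fun i => Polynomial.C (π i) * Polynomial.X
  have h5 : ev E = (1 + Polynomial.C F * Polynomial.X) ^ Fintype.card G := by
    rw [← Finset.card_univ, ← Finset.prod_const]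
    simp only [E, map_prod, map_add, map_one, map_sum, map_mul, ev, aeval_X, aeval_C]
    refine Finset.prod_congr rfl fun σ _ => ?_
    congr 1
    rw [← hFx σ, hF, Finset.smul_sum, map_sum, Finset.sum_mul]
    refine Finset.sum_congr rfl fun i _ => ?_
    rw [smul_mul', QQ_fixed (hπ i), map_mul, Polynomial.algebraMap_apply, Algebra.algebraMap_self,
      RingHom.id_apply]
    ring
  rw [← h5, E.as_sum, map_sum]
  refine sum_mem fun α hα => ?_
  simp only [ev, aeval_monomial, Finsupp.prod]
  refine mul_mem ?_ (prod_mem fun i _ => pow_mem (mul_mem ?_ (Polynomial.X_mem_lifts _)) _)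
  · exact Polynomial.C_mem_lifts (QQ G e s).subtype ⟨_, h4 α hα⟩
  · exact Polynomial.C_mem_lifts (QQ G e s).subtype ⟨_, hπ i⟩

theorem coeff_one_pow (b : A) (m : ℕ) :
    ((1 + Polynomial.C b * Polynomial.X) ^ m).coeff 1 = m * b ∧
      ((1 + Polynomial.C b * Polynomial.X) ^ m).coeff 0 = 1 := by
  induction m with
  | zero => simp [Polynomial.coeff_one]
  | succ m ih =>
    rw [pow_succ, mul_add, mul_one, ← mul_assoc, Polynomial.coeff_add, Polynomial.coeff_add,
      Polynomial.coeff_mul_X, Polynomial.coeff_mul_C, ih.1, ih.2, Polynomial.mul_coeff_zero]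
    constructor
    · push_cast; ring
    · simp

theorem pow_mem_of_lifts (p : ℕ) [hp : Fact p.Prime] [CharP A p] (Q : Subring A) (F : A) {N : ℕ}
    (hN : N ≠ 0) (h : (1 + Polynomial.C F * Polynomial.X) ^ N ∈ Polynomial.lifts Q.subtype) :
    F ^ p ^ N ∈ Q := by
  obtain ⟨a, m, hm, rfl⟩ := Nat.exists_eq_pow_mul_and_not_dvd hN p hp.out.ne_one
  have h1 : (1 + Polynomial.C F * Polynomial.X) ^ (p ^ a * m) =
      Polynomial.expand A (p ^ a) ((1 + Polynomial.C (F ^ p ^ a) * Polynomial.X) ^ m) := by
    rw [pow_mul, add_pow_char_pow, one_pow, mul_pow]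
    simp
  obtain ⟨x, hx⟩ := (Polynomial.lifts_iff_coeff_lifts _).1 h (1 * p ^ a)
  rw [h1, Polynomial.coeff_expand_mul (pow_pos hp.out.pos a), (coeff_one_pow _ m).1] at hx
  have h2 : (m : A) * F ^ p ^ a ∈ Q := hx ▸ x.2
  have hco : Nat.Coprime m p := ((Nat.Prime.coprime_iff_not_dvd hp.out).2 hm).symm
  obtain ⟨u, v, huv⟩ := (Nat.isCoprime_iff_coprime.2 hco)
  have h3 : ((u : ℤ) : A) * m = 1 := by
    have := congrArg (Int.cast : ℤ → A) huv
    push_cast at this
    rwa [CharP.cast_eq_zero A p, mul_zero, add_zero] at this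
  have h4 : F ^ p ^ a ∈ Q := by
    have := mul_mem (intCast_mem Q u) h2
    rwa [← mul_assoc, h3, one_mul] at this
  have hle : a ≤ p ^ a * m :=
    (Nat.lt_pow_self hp.out.one_lt).le.trans
      (Nat.le_mul_of_pos_right _ (Nat.pos_of_ne_zero fun h0 => hm (h0 ▸ dvd_zero p)))
  obtain ⟨c, hc⟩ := Nat.exists_eq_add_of_le hle
  rw [hc, pow_add, pow_mul]
  exact pow_mem h4 _

theorem main_abs [Finite G] [Nonempty Λ] {e : Λ → B →+* A}
    (he : ∀ a (g : G) b, g • e a b = e a (g • b)) (p : ℕ) [Fact p.Prime] [CharP A p] {d : ℕ}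
    (hd : ∀ b : B, b ^ p ^ d ∈ Subring.closure {w : B | ∃ H : Subgroup G, IsA H w})
    (hgen : Subring.closure {x | ∃ a b, x = e a b} = ⊤) (f : A) (hf : ∀ g : G, g • f = f) :
    f ^ p ^ (d + Nat.card G) ∈ QQ G e (Nat.card G * Nat.card (Subgroup G) + 2) := by
  classical
  haveI := Fintype.ofFinite G
  haveI := Fintype.ofFinite (Subgroup G)
  have h1 := pow_mem_MM he (s := Nat.card G * Nat.card (Subgroup G) + 2) le_add_self p hd hgen f
  obtain ⟨n, c, m, hm⟩ := Submodule.mem_span_set'.1 h1
  have h2 : ∀ i, ∃ J : Finset Λ, J.card ≤ Nat.card (Subgroup G) ∧ (m i : A) ∈ AJ e J := by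
    intro i
    obtain ⟨α, φ, -, h⟩ := (m i).2
    refine ⟨Finset.univ.image α, ?_, ?_⟩
    · rw [Nat.card_eq_fintype_card]
      exact Finset.card_image_le
    · rw [h]
      exact prod_mem fun H _ => mem_AJ e (Finset.mem_image_of_mem _ (Finset.mem_univ H)) _
  choose J hJ hJ' using h2
  have h3 := etrick he (r := Nat.card (Subgroup G)) (s := Nat.card G * Nat.card (Subgroup G) + 2)
    (by rw [Nat.card_eq_fintype_card (α := G)]; exact le_self_add) (fun i => (c i : A))
    (fun i => (m i : A)) (fun i => (c i).2) J hJ hJ' (f ^ p ^ d) hm.symm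
    (fun g => by rw [smul_pow', hf])
  have h4 := pow_mem_of_lifts p _ _ Fintype.card_ne_zero h3
  rwa [← pow_mul, ← pow_add, ← Nat.card_eq_fintype_card] at h4

end Pool.Agent.H64.Pol
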