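import Mathlib

/-! Polarizations of polynomial invariants: definitions. -/

namespace Pool.Agent.H64.Pol

open MvPolynomial

/-- `f ↦ f (M v)` on `k[V]`, `V = k ^ r`. -/
noncomputable def sub1 {k : Type*} [Field k] {r : ℕ} (M : Matrix (Fin r) (Fin r) k) :
    MvPolynomial (Fin r) k →ₐ[k] MvPolynomial (Fin r) k :=
  aeval fun i => ∑ j, C (M i j) * X j

/-- `f ↦ f (M v_1, …, M v_n)` on `k[V ^ n]`; the variable `(i, a)` is coordinate `i` of `v_a`. -/
noncomputable def subN {k : Type*} [Field k] {r : ℕ} (n : ℕ) (M : Matrix (Fin r) (Fin r) k) :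
    MvPolynomial (Fin r × Fin n) k →ₐ[k] MvPolynomial (Fin r × Fin n) k :=
  aeval fun x => ∑ j, C (M x.1 j) * X (j, x.2)

/-- the invariants `k[V] ^ G` -/
def inv1 {k : Type*} [Field k] {r : ℕ} {G : Type*} [Group G]
    (ρ : G →* Matrix (Fin r) (Fin r) k) : Set (MvPolynomial (Fin r) k) :=
  {f | ∀ g : G, sub1 (ρ g) f = f}

/-- the invariants `k[V ^ n] ^ G` of the diagonal action -/
def invN {k : Type*} [Field k] {r : ℕ} {G : Type*} [Group G]
    (ρ : G →* Matrix (Fin r) (Fin r) k) (n : ℕ) : Set (MvPolynomial (Fin r × Fin n) k) :=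
  {f | ∀ g : G, subN n (ρ g) f = f}

/-- `f (t_1 v_1 + ⋯ + t_n v_n)` as a polynomial in `t` with coefficients in `k[V ^ n]` -/
noncomputable def pol {k : Type*} [Field k] {r : ℕ} (n : ℕ) :
    MvPolynomial (Fin r) k →ₐ[k] MvPolynomial (Fin n) (MvPolynomial (Fin r × Fin n) k) :=
  aeval fun i => ∑ a, X a * C (X (i, a))

/-- the algebra generated by all polarizations `f_β` of the elements `f` of `S` -/
noncomputable def polAlg {k : Type*} [Field k] {r : ℕ} (S : Set (MvPolynomial (Fin r) k))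
    (n : ℕ) : Subalgebra k (MvPolynomial (Fin r × Fin n) k) :=
  Algebra.adjoin k {x | ∃ f ∈ S, ∃ β : Fin n →₀ ℕ, x = coeff β (pol n f)}

end Pool.Agent.H64.Pol
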