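import Pool.Agent.H64.Pol4
import Pool.Agent.H64.PolDefs

/-! The uniform bound. -/

namespace Pool.Agent.H64.Pol

open MvPolynomial

variable {k : Type*} [Field k] {r : ℕ} {G : Type*} [Group G]

theorem sub1_one (f : MvPolynomial (Fin r) k) : sub1 1 f = f := by
  have : sub1 (1 : Matrix (Fin r) (Fin r) k) = AlgHom.id k _ := by
    ext i : 1
    simp [sub1, Matrix.one_apply, apply_ite C]
  rw [this]; rfl

theorem sub1_mul (M N : Matrix (Fin r) (Fin r) k) (f : MvPolynomial (Fin r) k) :
    sub1 (M * N) f = sub1 N (sub1 M f) := by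
  have : sub1 (M * N) = (sub1 N).comp (sub1 M) := by
    ext i : 1
    simp only [sub1, aeval_X, AlgHom.comp_apply, map_sum, map_mul, aeval_C, algebraMap_eq,
      Matrix.mul_apply, Finset.sum_mul, Finset.mul_sum, mul_assoc]
    exact Finset.sum_comm
  rw [this]; rfl

theorem subN_one (n : ℕ) (f : MvPolynomial (Fin r × Fin n) k) : subN n 1 f = f := by
  have : subN n (1 : Matrix (Fin r) (Fin r) k) = AlgHom.id k _ := by
    ext i : 1
    simp [subN, Matrix.one_apply, apply_ite C]
  rw [this]; rfl

theorem subN_mul (n : ℕ) (M N : Matrix (Fin r) (Fin r) k) (f : MvPolynomial (Fin r × Fin n) k) :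
    subN n (M * N) f = subN n N (subN n M f) := by
  have : subN n (M * N) = (subN n N).comp (subN n M) := by
    ext i : 1
    simp only [subN, aeval_X, AlgHom.comp_apply, map_sum, map_mul, aeval_C, algebraMap_eq,
      Matrix.mul_apply, Finset.sum_mul, Finset.mul_sum, mul_assoc]
    exact Finset.sum_comm
  rw [this]; rfl

@[reducible] noncomputable def act1 (ρ : G →* Matrix (Fin r) (Fin r) k) :
    MulSemiringAction G (MvPolynomial (Fin r) k) where
  smul g f := sub1 (ρ g⁻¹) f
  one_smul f := by
    change sub1 (ρ 1⁻¹) f = f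
    rw [inv_one, map_one, sub1_one]
  mul_smul g h f := by
    change sub1 (ρ (g * h)⁻¹) f = sub1 (ρ g⁻¹) (sub1 (ρ h⁻¹) f)
    rw [mul_inv_rev, map_mul, sub1_mul]
  smul_zero g := map_zero (sub1 (ρ g⁻¹))
  smul_add g := map_add (sub1 (ρ g⁻¹))
  smul_one g := map_one (sub1 (ρ g⁻¹))
  smul_mul g := map_mul (sub1 (ρ g⁻¹))

@[reducible] noncomputable def actN (ρ : G →* Matrix (Fin r) (Fin r) k) (n : ℕ) :
    MulSemiringAction G (MvPolynomial (Fin r × Fin n) k) where
  smul g f := subN n (ρ g⁻¹) f
  one_smul f := by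
    change subN n (ρ 1⁻¹) f = f
    rw [inv_one, map_one, subN_one]
  mul_smul g h f := by
    change subN n (ρ (g * h)⁻¹) f = subN n (ρ g⁻¹) (subN n (ρ h⁻¹) f)
    rw [mul_inv_rev, map_mul, subN_mul]
  smul_zero g := map_zero (subN n (ρ g⁻¹))
  smul_add g := map_add (subN n (ρ g⁻¹))
  smul_one g := map_one (subN n (ρ g⁻¹))
  smul_mul g := map_mul (subN n (ρ g⁻¹))

/-- the `a`-th copy -/
noncomputable def emb (k : Type*) [Field k] (r n : ℕ) (a : Fin n) :
    MvPolynomial (Fin r) k →ₐ[k] MvPolynomial (Fin r × Fin n) k :=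
  rename fun i => (i, a)

theorem emb_inj {n : ℕ} (a : Fin n) : Function.Injective (emb k r n a) :=
  rename_injective _ fun _ _ h => (Prod.ext_iff.1 h).1

theorem subN_emb {n : ℕ} (a : Fin n) (M : Matrix (Fin r) (Fin r) k) (f : MvPolynomial (Fin r) k) :
    subN n M (emb k r n a f) = emb k r n a (sub1 M f) := by
  have : (subN n M).comp (emb k r n a) = (emb k r n a).comp (sub1 M) := by
    ext i : 1
    simp [subN, sub1, emb]
  exact AlgHom.congr_fun this f

theorem eval_pol {n : ℕ} (a : Fin n) {D : Type*} [CommRing D]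
    (φ : MvPolynomial (Fin r × Fin n) k →+* D) (f : MvPolynomial (Fin r) k) :
    eval (Pi.single a 1) (map φ (pol n f)) = φ (emb k r n a f) := by
  have : (eval (Pi.single a 1)).comp ((map φ).comp (pol (k := k) (r := r) n).toRingHom) =
      φ.comp (emb k r n a).toRingHom := by
    ext i : 1
    · ext c
      simp [pol, emb]
    · simp [pol, emb, Pi.single_apply]
  exact RingHom.congr_fun this f

theorem coeff_pol_mem {S : Set (MvPolynomial (Fin r) k)} {f : MvPolynomial (Fin r) k}
    (hf : f ∈ Algebra.adjoin k S) (n : ℕ) (β : Fin n →₀ ℕ) : coeff β (pol n f) ∈ polAlg S n := by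
  classical
  induction hf using Algebra.adjoin_induction generalizing β with
  | mem x hx => exact Algebra.subset_adjoin ⟨x, hx, β, rfl⟩
  | algebraMap c =>
    rw [AlgHom.commutes, MvPolynomial.algebraMap_apply, coeff_C]
    split_ifs
    · exact Subalgebra.algebraMap_mem _ c
    · exact zero_mem _
  | add x y _ _ hx hy => rw [map_add, coeff_add]; exact add_mem (hx β) (hy β)
  | mul x y _ _ hx hy =>
    rw [map_mul, coeff_mul]
    exact sum_mem fun z _ => mul_mem (hx _) (hy _)

theorem emb_mem {S : Set (MvPolynomial (Fin r) k)} {f : MvPolynomial (Fin r) k}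
    (hf : f ∈ S) {n : ℕ} (a : Fin n) : emb k r n a f ∈ polAlg S n := by
  have := eval_pol a (RingHom.id _) f
  rw [map_id, RingHom.id_apply, eval_eq] at this
  rw [← this]
  refine sum_mem fun β _ => mul_mem (Algebra.subset_adjoin ⟨f, hf, β, rfl⟩)
    (prod_mem fun b _ => pow_mem ?_ _)
  rw [Pi.single_apply]
  split_ifs
  · exact one_mem _
  · exact zero_mem _

theorem map_subN_pol {n : ℕ} (M : Matrix (Fin r) (Fin r) k) (f : MvPolynomial (Fin r) k) :
    map (subN n M : _ →+* _) (pol n f) = pol n (sub1 M f) := by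
  have : (map (subN n M : _ →+* _)).comp (pol (k := k) (r := r) n).toRingHom =
      (pol (k := k) (r := r) n).toRingHom.comp (sub1 M).toRingHom := by
    ext i : 1
    · ext c : 1
      simp [pol, sub1, subN]
    · simp only [pol, sub1, subN, RingHom.comp_apply, RingHom.coe_coe, aeval_X, map_sum, map_mul,
        map_X, map_C, aeval_C, MvPolynomial.algebraMap_apply, Finset.mul_sum, algebraMap_eq,
        AlgHom.toRingHom_eq_coe]
      rw [Finset.sum_comm]
      refine Finset.sum_congr rfl fun a _ => Finset.sum_congr rfl fun j _ => ?_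
      ring
  exact RingHom.congr_fun this f

/-- invariants as a subalgebra -/
def invAlg (ρ : G →* Matrix (Fin r) (Fin r) k) (n : ℕ) :
    Subalgebra k (MvPolynomial (Fin r × Fin n) k) where
  carrier := invN ρ n
  mul_mem' := fun {a b} ha hb g => by rw [map_mul, ha g, hb g]
  add_mem' := fun {a b} ha hb g => by rw [map_add, ha g, hb g]
  algebraMap_mem' := fun c g => AlgHom.commutes _ c

theorem fixed_level [Finite G] (p : ℕ) [Fact p.Prime] [CharP k p]
    (ρ : G →* Matrix (Fin r) (Fin r) k) (n : ℕ) :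
    ∃ d, ∀ f ∈ invN ρ n, f ^ p ^ d ∈ polAlg (inv1 ρ) n := by
  letI := act1 ρ
  letI := actN ρ n
  have h1 : ∀ (g : G) (f : MvPolynomial (Fin r) k), g • f = sub1 (ρ g⁻¹) f := fun _ _ => rfl
  have hN : ∀ (g : G) (f : MvPolynomial (Fin r × Fin n) k), g • f = subN n (ρ g⁻¹) f :=
    fun _ _ => rfl
  have hinv : ∀ f : MvPolynomial (Fin r) k, (∀ g : G, g • f = f) → f ∈ inv1 ρ := fun f hf g => by
    simpa [h1] using hf g⁻¹
  refine uniform_sub p (polAlg (inv1 ρ) n) (invAlg ρ n) ?_ ?_ ?_
  · refine Algebra.adjoin_le ?_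
    rintro _ ⟨f, hf, β, rfl⟩ g
    conv_rhs => rw [← hf g, ← map_subN_pol, coeff_map]
    rfl
  · intro x
    induction x using MvPolynomial.induction_on with
    | C c =>
      exact isIntegral_algebraMap (R := polAlg (inv1 ρ) n)
        (x := ⟨C c, Subalgebra.algebraMap_mem _ c⟩)
    | add x y hx hy => exact hx.add hy
    | mul_X x i hx =>
      refine hx.mul (isIntegral_of_fixed (G := G) _ _ (emb k r n i.2).toRingHom.range
        ⟨X i.1, by simp [emb]⟩ ?_ ?_)
      · rintro g _ ⟨b, rfl⟩
        exact ⟨g • b, (subN_emb _ _ _).symm⟩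
      · rintro _ ⟨b, rfl⟩ hb
        refine emb_mem (hinv b fun g => emb_inj i.2 ?_) _
        rw [h1, ← subN_emb]
        exact hb g
  · intro K _ _ φ ψ h f hf
    obtain ⟨σ, hσ⟩ := conj (G := G) ((map φ).comp (pol (k := k) (r := r) n).toRingHom)
      ((map ψ).comp (pol (k := k) (r := r) n).toRingHom) (fun b hb => by
        ext β
        simp only [RingHom.comp_apply, coeff_map]
        exact h _ (Algebra.subset_adjoin ⟨b, hinv b hb, β, rfl⟩))
    have : ψ = φ.comp (subN n (ρ σ⁻¹) : _ →+* _) := by
      ext i : 1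
      · ext c
        simp only [RingHom.comp_apply, RingHom.coe_coe, algHom_C]
        exact (h _ (Subalgebra.algebraMap_mem _ c)).symm
      · have e1 := congrArg (eval (Pi.single i.2 1)) (hσ (X i.1))
        simp only [RingHom.comp_apply, AlgHom.toRingHom_eq_coe, RingHom.coe_coe, eval_pol, h1,
          ← subN_emb] at e1
        simpa [emb] using e1
    rw [this, RingHom.comp_apply, RingHom.coe_coe, hf σ⁻¹]

theorem rename_polAlg {S : Set (MvPolynomial (Fin r) k)} {m n : ℕ} {j : Fin m → Fin n}
    (hj : Function.Injective j) {x : MvPolynomial (Fin r × Fin m) k} (hx : x ∈ polAlg S m) :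
    rename (Prod.map id j) x ∈ polAlg S n := by
  have : polAlg S m ≤ (polAlg S n).comap (rename (Prod.map id j)) := by
    refine Algebra.adjoin_le ?_
    rintro _ ⟨f, hf, β, rfl⟩
    refine Algebra.subset_adjoin ⟨f, hf, β.mapDomain j, ?_⟩
    rw [← coeff_killCompl hj]
    have h2 : (killCompl (R := MvPolynomial (Fin r × Fin n) k) hj).toRingHom.comp (pol (k := k) (r := r) n).toRingHom =
        (map (rename (Prod.map id j) : MvPolynomial (Fin r × Fin m) k →ₐ[k] _).toRingHom).comp
          (pol (k := k) (r := r) m).toRingHom := by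
      ext i : 1
      · ext c : 1
        simp [pol]
      · simp only [pol, RingHom.comp_apply, RingHom.coe_coe, aeval_X, map_sum, map_mul, map_X,
          map_C, killCompl_C, AlgHom.toRingHom_eq_coe, rename_X, Prod.map_apply, id]
        symm
        refine Finset.sum_of_injOn j hj.injOn (fun _ _ => Finset.mem_univ _) ?_ ?_
        · intro a _ ha
          have : a ∉ Set.range j := by simpa using ha
          rw [killCompl, aeval_X, dif_neg this, zero_mul]
        · intro a _
          rw [← rename_X j a, killCompl_rename_app]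
    have h3 := RingHom.congr_fun h2 f
    simp only [RingHom.comp_apply, AlgHom.toRingHom_eq_coe, RingHom.coe_coe] at h3
    rw [h3, coeff_map]
  exact this hx

theorem subN_rename {m n : ℕ} (j : Fin m → Fin n) (M : Matrix (Fin r) (Fin r) k)
    (x : MvPolynomial (Fin r × Fin m) k) :
    subN n M (rename (Prod.map id j) x) = rename (Prod.map id j) (subN m M x) := by
  have : (subN n M).comp (rename (Prod.map id j)) =
      (rename (Prod.map id j)).comp (subN m M) := by
    ext i : 1
    simp [subN]
  exact AlgHom.congr_fun this x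

theorem main [Finite G] (p : ℕ) [Fact p.Prime] [CharP k p] (ρ : G →* Matrix (Fin r) (Fin r) k) :
    ∃ d, ∀ n, 1 ≤ n → ∀ f ∈ invN ρ n, f ^ p ^ d ∈ polAlg (inv1 ρ) n := by
  classical
  letI := act1 ρ
  obtain ⟨d, hd⟩ := decomp (G := G) (B := MvPolynomial (Fin r) k) (k := k) p
    (fun g c => AlgHom.commutes (sub1 (ρ g⁻¹)) c)
  choose D hD using fixed_level p ρ
  set s := Nat.card G * Nat.card (Subgroup G) + 2 with hs
  refine ⟨d + Nat.card G + (Finset.range (s + 1)).sup D, fun n hn f hf => ?_⟩
  letI := actN ρ n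
  haveI : Nonempty (Fin n) := ⟨⟨0, hn⟩⟩
  have h1 := main_abs (G := G) (e := fun a => (emb k r n a).toRingHom)
    (fun a g b => subN_emb a _ b) p hd (by
      rw [eq_top_iff]
      intro x hx
      clear hx
      induction x using MvPolynomial.induction_on with
      | C c => exact Subring.subset_closure ⟨⟨0, hn⟩, C c, by simp [emb]⟩
      | add x y hx hy => exact add_mem hx hy
      | mul_X x i hx => exact mul_mem hx (Subring.subset_closure ⟨i.2, X i.1, by simp [emb]⟩))
    f (fun g => hf g⁻¹)
  have h2 : QQ G (fun a => (emb k r n a).toRingHom) s ≤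
      (polAlg (inv1 ρ) n).toSubring.comap
        (iterateFrobenius _ p ((Finset.range (s + 1)).sup D)) := by
    refine Subring.closure_le.2 ?_
    rintro x ⟨J, hJ, hx, hfx⟩
    let j : Fin J.card → Fin n := J.orderEmbOfFin rfl
    have hj : Function.Injective j := (J.orderEmbOfFin rfl).injective
    have h3 : AJ (fun a => (emb k r n a).toRingHom) J ≤
        (rename (Prod.map id j) : MvPolynomial (Fin r × Fin J.card) k →ₐ[k] _).toRingHom.range := by
      refine Subring.closure_le.2 ?_
      rintro _ ⟨a, ha, b, rfl⟩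
      have : a ∈ Set.range j := by
        rw [Finset.range_orderEmbOfFin]; exact ha
      obtain ⟨c, rfl⟩ := this
      refine ⟨emb k r _ c b, ?_⟩
      simp only [emb, AlgHom.toRingHom_eq_coe, RingHom.coe_coe, rename_rename]
      rfl
    obtain ⟨y, rfl⟩ := h3 hx
    have hy : y ∈ invN ρ J.card := by
      intro g
      apply rename_injective (Prod.map id j) (Function.injective_id.prodMap hj)
      rw [← subN_rename]
      have h6 : subN n (ρ g⁻¹⁻¹) _ = _ := hfx g⁻¹
      rw [inv_inv] at h6
      exact h6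
    obtain ⟨c, hc⟩ := Nat.exists_eq_add_of_le
      (Finset.le_sup (f := D) (Finset.mem_range.2 (Nat.lt_succ_of_le hJ)))
    have h4 := rename_polAlg hj (pow_mem (hD _ y hy) (p ^ c))
    rw [← pow_mul, ← pow_add, ← hc, map_pow] at h4
    exact h4
  have h5 := h2 h1
  rw [Subring.mem_comap, iterateFrobenius_def, ← pow_mul, ← pow_add] at h5
  exact h5

end Pool.Agent.H64.Pol
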