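import Pool.Agent.H64.AffDefs

/-! The groups `G x` over the ring `K[ε]/ε³`. -/

set_option linter.unusedSectionVars false

namespace Pool.Agent.H64.Pono1

open Pool.Agent.H64.AffDefs MvPolynomial

@[ext] structure R (K : Type) where
  a : K
  b : K
  c : K

variable {K : Type} [Field K]

namespace R

instance : Zero (R K) := ⟨⟨0, 0, 0⟩⟩
instance : One (R K) := ⟨⟨1, 0, 0⟩⟩
instance : Add (R K) := ⟨fun x y => ⟨x.a + y.a, x.b + y.b, x.c + y.c⟩⟩
instance : Neg (R K) := ⟨fun x => ⟨-x.a, -x.b, -x.c⟩⟩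
instance : Mul (R K) :=
  ⟨fun x y => ⟨x.a * y.a, x.a * y.b + x.b * y.a, x.a * y.c + x.b * y.b + x.c * y.a⟩⟩

@[simp] lemma zero_a : (0 : R K).a = 0 := rfl
@[simp] lemma zero_b : (0 : R K).b = 0 := rfl
@[simp] lemma zero_c : (0 : R K).c = 0 := rfl
@[simp] lemma one_a : (1 : R K).a = 1 := rfl
@[simp] lemma one_b : (1 : R K).b = 0 := rfl
@[simp] lemma one_c : (1 : R K).c = 0 := rfl
@[simp] lemma add_a (x y : R K) : (x + y).a = x.a + y.a := rfl
@[simp] lemma add_b (x y : R K) : (x + y).b = x.b + y.b := rfl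
@[simp] lemma add_c (x y : R K) : (x + y).c = x.c + y.c := rfl
@[simp] lemma neg_a (x : R K) : (-x).a = -x.a := rfl
@[simp] lemma neg_b (x : R K) : (-x).b = -x.b := rfl
@[simp] lemma neg_c (x : R K) : (-x).c = -x.c := rfl
@[simp] lemma mul_a (x y : R K) : (x * y).a = x.a * y.a := rfl
@[simp] lemma mul_b (x y : R K) : (x * y).b = x.a * y.b + x.b * y.a := rfl
@[simp] lemma mul_c (x y : R K) : (x * y).c = x.a * y.c + x.b * y.b + x.c * y.a := rfl

instance : CommRing (R K) where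
  add_assoc _ _ _ := by ext <;> simp [add_assoc]
  zero_add _ := by ext <;> simp
  add_zero _ := by ext <;> simp
  add_comm _ _ := by ext <;> simp [add_comm]
  neg_add_cancel _ := by ext <;> simp
  nsmul := nsmulRec
  zsmul := zsmulRec
  left_distrib _ _ _ := by ext <;> simp <;> ring
  right_distrib _ _ _ := by ext <;> simp <;> ring
  zero_mul _ := by ext <;> simp
  mul_zero _ := by ext <;> simp
  mul_assoc _ _ _ := by ext <;> simp <;> ring
  one_mul _ := by ext <;> simp
  mul_one _ := by ext <;> simp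
  mul_comm _ _ := by ext <;> simp <;> ring

@[simp] lemma sub_a (x y : R K) : (x - y).a = x.a - y.a := by simp [sub_eq_add_neg]
@[simp] lemma sub_b (x y : R K) : (x - y).b = x.b - y.b := by simp [sub_eq_add_neg]
@[simp] lemma sub_c (x y : R K) : (x - y).c = x.c - y.c := by simp [sub_eq_add_neg]

def C : K →+* R K where
  toFun t := ⟨t, 0, 0⟩
  map_one' := rfl
  map_mul' _ _ := by ext <;> simp
  map_zero' := rfl
  map_add' _ _ := by ext <;> simp

@[simp] lemma C_a (t : K) : (C t).a = t := rfl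
@[simp] lemma C_b (t : K) : (C t).b = 0 := rfl
@[simp] lemma C_c (t : K) : (C t).c = 0 := rfl

end R

/-- truncated exponential of `u ε + v ε²` -/
def E (u v : K) : R K := ⟨1, u, v + u ^ 2 / 2⟩

@[simp] lemma E_a (u v : K) : (E u v).a = 1 := rfl
@[simp] lemma E_b (u v : K) : (E u v).b = u := rfl
@[simp] lemma E_c (u v : K) : (E u v).c = v + u ^ 2 / 2 := rfl

variable [CharZero K]

lemma E_add (u v u' v' : K) : E (u + u') (v + v') = E u v * E u' v' := by
  ext <;> simp <;> ring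

lemma E_zero : E (0 : K) 0 = 1 := by ext <;> simp

@[ext] structure G (x : Fin 4 → R K) where
  y : Fin 4 → R K
  r : (R K)ˣ
  u : K
  v : K

variable {x : Fin 4 → R K}

/-- the multiplier on block `i` -/
def m (g : G x) (i : Fin 4) : R K := g.r * E (g.u * (x i).a) (g.v * (x i).a + g.u * (x i).b)

instance : One (G x) := ⟨⟨0, 1, 0, 0⟩⟩
instance : Mul (G x) :=
  ⟨fun g h => ⟨fun i => g.y i + m g i * h.y i, g.r * h.r, g.u + h.u, g.v + h.v⟩⟩
instance : Inv (G x) :=
  ⟨fun g => ⟨fun i => - (m (⟨0, g.r⁻¹, -g.u, -g.v⟩ : G x) i * g.y i), g.r⁻¹, -g.u, -g.v⟩⟩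

@[simp] lemma one_y : (1 : G x).y = 0 := rfl
@[simp] lemma one_r : (1 : G x).r = 1 := rfl
@[simp] lemma one_u : (1 : G x).u = 0 := rfl
@[simp] lemma one_v : (1 : G x).v = 0 := rfl
@[simp] lemma mul_y (g h : G x) (i) : (g * h).y i = g.y i + m g i * h.y i := rfl
@[simp] lemma mul_r (g h : G x) : (g * h).r = g.r * h.r := rfl
@[simp] lemma mul_u (g h : G x) : (g * h).u = g.u + h.u := rfl
@[simp] lemma mul_v (g h : G x) : (g * h).v = g.v + h.v := rfl
lemma inv_y (g : G x) (i) :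
    (g⁻¹).y i = - (m (⟨0, g.r⁻¹, -g.u, -g.v⟩ : G x) i * g.y i) := rfl
@[simp] lemma inv_r (g : G x) : (g⁻¹).r = g.r⁻¹ := rfl
@[simp] lemma inv_u (g : G x) : (g⁻¹).u = -g.u := rfl
@[simp] lemma inv_v (g : G x) : (g⁻¹).v = -g.v := rfl

@[simp] lemma m_one (i) : m (1 : G x) i = 1 := by simp [m, E_zero]

lemma m_mul (g h : G x) (i) : m (g * h) i = m g i * m h i := by
  simp only [m, mul_r, mul_u, mul_v, Units.val_mul]
  rw [mul_mul_mul_comm, ← E_add]
  congr 2 <;> ring

instance : Group (G x) := Group.ofLeftAxioms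
  (fun g h k => by
    refine G.ext (funext fun i => ?_) (mul_assoc _ _ _) (add_assoc _ _ _) (add_assoc _ _ _)
    simp only [mul_y, m_mul]; ring)
  (fun g => G.ext (funext fun i => by simp) (one_mul _) (zero_add _) (zero_add _))
  (fun g => G.ext (funext fun i => neg_add_cancel _) (inv_mul_cancel _) (neg_add_cancel _)
    (neg_add_cancel _))

lemma m_inv_mul (g : G x) (i) : m g⁻¹ i * m g i = 1 := by rw [← m_mul, inv_mul_cancel, m_one]

/-- translations -/
def tr (y : Fin 4 → R K) : G x := ⟨y, 1, 0, 0⟩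

@[simp] lemma m_tr (y : Fin 4 → R K) (i) : m (tr y : G x) i = 1 := by simp [m, tr, E_zero]
@[simp] lemma tr_y (y : Fin 4 → R K) : (tr y : G x).y = y := rfl
@[simp] lemma tr_r (y : Fin 4 → R K) : (tr y : G x).r = 1 := rfl
@[simp] lemma tr_u (y : Fin 4 → R K) : (tr y : G x).u = 0 := rfl
@[simp] lemma tr_v (y : Fin 4 → R K) : (tr y : G x).v = 0 := rfl

lemma tr_add (y y' : Fin 4 → R K) : (tr (y + y') : G x) = tr y * tr y' := by
  ext <;> simp

lemma tr_zero : (tr 0 : G x) = 1 := rfl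

lemma conj_tr (g : G x) (y : Fin 4 → R K) : g * tr y = tr (m g * y) * g := by
  refine G.ext (funext fun i => ?_) (by simp) (by simp) (by simp)
  simp [add_comm]

lemma tr_inj {y y' : Fin 4 → R K} (h : (tr y : G x) = tr y') : y = y' := congrArg G.y h

def two : (R K)ˣ := Units.map (R.C : K →+* R K).toMonoidHom (Units.mk0 2 two_ne_zero)

lemma two_val : ((two : (R K)ˣ) : R K) = R.C 2 := rfl

def sc : G x := ⟨0, two, 0, 0⟩

lemma m_sc (i) : m (sc : G x) i = 2 := by
  simp only [m, sc, zero_mul, add_zero, E_zero, mul_one, two_val]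
  exact map_ofNat _ 2

lemma comm_sc (y : Fin 4 → R K) : (tr y : G x) = sc * tr y * sc⁻¹ * (tr y)⁻¹ := by
  rw [conj_tr, mul_inv_cancel_right, eq_mul_inv_iff_mul_eq, ← tr_add]
  congr 1
  funext i
  simp [m_sc, two_mul]

lemma comm_mem (g h : G x) : ∃ y, g * h * g⁻¹ * h⁻¹ = tr y :=
  ⟨_, G.ext rfl (by simp) (by simp) (by simp)⟩

lemma eq_tr {g : G x} (h0 : x 0 = 0) (h1 : x 1 = 1) (h : ∀ i, m g i = 1) : g = tr g.y := by
  have e0 := h 0
  have e1 := h 1
  simp only [m, h0, R.zero_a, R.zero_b, mul_zero, add_zero, E_zero, mul_one] at e0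
  simp only [m, h1, e0, one_mul, R.one_a, R.one_b, mul_one, mul_zero, add_zero] at e1
  have hu : g.u = 0 := congrArg R.b e1
  have hv : g.v = 0 := by simpa [hu] using congrArg R.c e1
  exact G.ext rfl (Units.ext e0) hu hv

lemma fix_a {g : G x} {y : Fin 4 → R K} (hy : y ≠ 0) (h : m g * y = y) : (g.r : R K).a = 1 := by
  obtain ⟨i, hi⟩ := Function.ne_iff.1 hy
  have e := congrFun h i
  have ha : (m g i).a = (g.r : R K).a := by simp [m]
  rw [← ha]
  by_contra hc
  have hc' := sub_ne_zero.2 hc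
  apply hi
  have e1 := congrArg R.a e
  have e2 := congrArg R.b e
  have e3 := congrArg R.c e
  simp only [Pi.mul_apply, R.mul_a, R.mul_b, R.mul_c] at e1 e2 e3
  have f1 : (y i).a = 0 := (mul_eq_zero.1 (by linear_combination e1)).resolve_left hc'
  have f2 : (y i).b = 0 := (mul_eq_zero.1 (by rw [f1] at e2; linear_combination e2)).resolve_left hc'
  have f3 : (y i).c = 0 :=
    (mul_eq_zero.1 (by rw [f1, f2] at e3; linear_combination e3)).resolve_left hc'
  exact R.ext f1 f2 f3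

lemma center (h0 : x 0 = 0) (h1 : x 1 = 1) : Subgroup.center (G x) = ⊥ := by
  rw [eq_bot_iff]
  intro g hg
  rw [Subgroup.mem_center_iff] at hg
  have e : g = tr g.y := eq_tr h0 h1 fun i => by
    have := conj_tr g (fun _ => 1)
    rw [← hg, mul_left_inj] at this
    simpa using (congrFun (tr_inj this) i).symm
  rw [Subgroup.mem_bot, e, comm_sc, ← e, hg]
  group

lemma exists_tr (h0 : x 0 = 0) (h1 : x 1 = 1) (N : Subgroup (G x)) [hN : N.Normal] (a : G x)
    (ha : a ∈ N) (a1 : a ≠ 1) : ∃ y, y ≠ 0 ∧ tr y ∈ N := by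
  by_cases h : ∀ i, m a i = 1
  · have := eq_tr h0 h1 h
    exact ⟨a.y, fun h => a1 (by rw [this, h, tr_zero]), this ▸ ha⟩
  · push Not at h
    obtain ⟨i, hi⟩ := h
    refine ⟨m a - 1, fun h => hi (sub_eq_zero.1 (congrFun h i)), ?_⟩
    have : (tr (m a - 1) : G x) = a * (tr 1 * a⁻¹ * (tr 1)⁻¹) := by
      rw [← mul_assoc, ← mul_assoc, conj_tr, mul_inv_cancel_right, eq_mul_inv_iff_mul_eq, ← tr_add]
      simp
    rw [this]
    exact N.mul_mem ha (hN.conj_mem _ (N.inv_mem ha) _)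

lemma indec (h0 : x 0 = 0) (h1 : x 1 = 1) : Indecomposable (G x) := by
  intro G₁ G₂ _ _ e
  by_contra hc
  rw [not_or, not_subsingleton_iff_nontrivial, not_subsingleton_iff_nontrivial] at hc
  obtain ⟨_, _⟩ := hc
  obtain ⟨g1, hg1⟩ := exists_ne (1 : G₁)
  obtain ⟨g2, hg2⟩ := exists_ne (1 : G₂)
  obtain ⟨y1, n1, m1⟩ := exists_tr h0 h1 ((MonoidHom.snd G₁ G₂).comp e.toMonoidHom).ker
    (e.symm (g1, 1)) (by simp [Subgroup.mem_prod]) (by simpa using hg1)
  obtain ⟨y2, n2, m2⟩ := exists_tr h0 h1 ((MonoidHom.fst G₁ G₂).comp e.toMonoidHom).ker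
    (e.symm (1, g2)) (by simp [Subgroup.mem_prod]) (by simpa using hg2)
  have key : ∀ (g : G x) y, y ≠ 0 → e g * e (tr y) = e (tr y) * e g → (g.r : R K).a = 1 := by
    intro g y hy h
    rw [← map_mul, ← map_mul, e.apply_eq_iff_eq, conj_tr, mul_left_inj] at h
    exact fix_a hy (tr_inj h)
  have m1' : (e (tr y1)).2 = 1 := m1
  have m2' : (e (tr y2)).1 = 1 := m2
  have a1 := key (e.symm ((e sc).1, 1)) y2 n2 (by ext <;> simp [m2'])
  have a2 := key (e.symm (1, (e sc).2)) y1 n1 (by ext <;> simp [m1'])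
  have : (sc : G x) = e.symm ((e sc).1, 1) * e.symm (1, (e sc).2) := by
    rw [← map_mul]; simp
  have h := congrArg (fun g : G x => (g.r : R K).a) this
  simp only [mul_r, Units.val_mul, R.mul_a, a1, a2] at h
  have h2 : (2 : K) = 1 * 1 := h
  norm_num at h2

lemma tr_pow (y : Fin 4 → R K) (n : ℕ) : (tr y : G x) ^ n = tr (n • y) := by
  induction n with
  | zero => simp [tr_zero]
  | succ n ih => rw [pow_succ, ih, succ_nsmul, tr_add]

lemma tor_pow (r : (R K)ˣ) (u v : K) (n : ℕ) :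
    (⟨0, r, u, v⟩ : G x) ^ n = ⟨0, r ^ n, n * u, n * v⟩ := by
  induction n with
  | zero => ext <;> simp
  | succ n ih =>
    rw [pow_succ, ih]
    refine G.ext (funext fun i => by simp) (by simp [pow_succ]) (by simp; ring) (by simp; ring)

lemma E_pow (u v : K) (n : ℕ) : E u v ^ n = E (n * u) (n * v) := by
  induction n with
  | zero => simp [E_zero]
  | succ n ih => rw [pow_succ, ih, ← E_add]; congr 1 <;> push_cast <;> ring

def Eu (u v : K) : (R K)ˣ :=
  ⟨E u v, E (-u) (-v), by rw [← E_add]; simp [E_zero], by rw [← E_add]; simp [E_zero]⟩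

lemma unit_a (r : (R K)ˣ) : (r : R K).a ≠ 0 := by
  have := congrArg R.a r.mul_inv
  exact left_ne_zero_of_mul_eq_one this

lemma noFiniteIndex [IsAlgClosed K] : NoFiniteIndex (G x) := by
  intro H hH
  have hn : H.normalCore.index ≠ 0 := Subgroup.FiniteIndex.index_ne_zero
  have hp : ∀ g : G x, g ^ H.normalCore.index ∈ H := fun g =>
    H.normalCore_le (Subgroup.pow_index_mem _ g)
  set n := H.normalCore.index
  have hn' : (n : K) ≠ 0 := by exact_mod_cast hn
  rw [eq_top_iff]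
  intro g _
  have e : g = tr g.y * ⟨0, g.r, g.u, g.v⟩ := by ext <;> simp
  rw [e]
  refine H.mul_mem ?_ ?_
  · convert hp (tr fun i => R.C (n : K)⁻¹ * g.y i) using 1
    rw [tr_pow]
    congr 1
    funext i
    rw [Pi.smul_apply, nsmul_eq_mul, ← mul_assoc, ← map_natCast (R.C : K →+* R K), ← map_mul,
      mul_inv_cancel₀ hn', map_one, one_mul]
  · have ha := unit_a g.r
    obtain ⟨ρ, hρ⟩ := IsAlgClosed.exists_pow_nat_eq (g.r : R K).a (Nat.pos_of_ne_zero hn)
    have ρ0 : ρ ≠ 0 := fun h => ha (by rw [← hρ, h, zero_pow hn])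
    convert hp ⟨0, Units.map (R.C : K →+* R K).toMonoidHom (Units.mk0 ρ ρ0) *
      Eu ((g.r : R K).b / (g.r : R K).a / n)
        (((g.r : R K).c / (g.r : R K).a - ((g.r : R K).b / (g.r : R K).a) ^ 2 / 2) / n),
      g.u / n, g.v / n⟩ using 1
    rw [tor_pow]
    refine G.ext rfl (Units.ext ?_) (by simp; field_simp) (by simp; field_simp)
    show (g.r : R K) = ((_ ^ n : (R K)ˣ) : R K)
    rw [Units.val_pow_eq_pow_val, Units.val_mul, mul_pow]
    show _ = R.C ρ ^ n * E _ _ ^ n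
    rw [← map_pow, hρ, E_pow]
    ext <;> simp <;> field_simp <;> ring

end Pool.Agent.H64.Pono1
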