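import Pool.Agent.H64.Pono1

/-! Coordinates on `G x`, and the abstract isomorphism. -/

set_option linter.unusedSectionVars false

namespace Pool.Agent.H64.Pono2

open Pool.Agent.H64.AffDefs Pool.Agent.H64.Pono1 MvPolynomial

variable {K : Type} [Field K]

def IsReg {X ι : Type} (c : X → ι → K) (f : X → K) : Prop :=
  ∃ p : MvPolynomial ι K, ∀ x, f x = eval (c x) p

section
variable {X ι : Type} {c : X → ι → K} {f g : X → K}
lemma IsReg.const (a : K) : IsReg c fun _ => a := ⟨C a, by simp⟩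
lemma IsReg.var (i : ι) : IsReg c fun x => c x i := ⟨MvPolynomial.X i, by simp⟩
lemma IsReg.add (h : IsReg c f) (h' : IsReg c g) : IsReg c fun x => f x + g x := by
  obtain ⟨p, hp⟩ := h
  obtain ⟨q, hq⟩ := h'
  exact ⟨p + q, by simp [hp, hq]⟩
lemma IsReg.mul (h : IsReg c f) (h' : IsReg c g) : IsReg c fun x => f x * g x := by
  obtain ⟨p, hp⟩ := h
  obtain ⟨q, hq⟩ := h'
  exact ⟨p * q, by simp [hp, hq]⟩
lemma IsReg.neg (h : IsReg c f) : IsReg c fun x => - f x := by
  obtain ⟨p, hp⟩ := h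
  exact ⟨-p, by simp [hp]⟩

/-- all three components are regular -/
def Reg3 (c : X → ι → K) (f : X → R K) : Prop :=
  IsReg c (fun x => (f x).a) ∧ IsReg c (fun x => (f x).b) ∧ IsReg c (fun x => (f x).c)

variable {F F' : X → R K}
lemma Reg3.add (h : Reg3 c F) (h' : Reg3 c F') : Reg3 c fun x => F x + F' x :=
  ⟨h.1.add h'.1, h.2.1.add h'.2.1, h.2.2.add h'.2.2⟩
lemma Reg3.neg (h : Reg3 c F) : Reg3 c fun x => - F x := ⟨h.1.neg, h.2.1.neg, h.2.2.neg⟩
lemma Reg3.mul (h : Reg3 c F) (h' : Reg3 c F') : Reg3 c fun x => F x * F' x :=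
  ⟨h.1.mul h'.1, (h.1.mul h'.2.1).add (h.2.1.mul h'.1),
    ((h.1.mul h'.2.2).add (h.2.1.mul h'.2.1)).add (h.2.2.mul h'.1)⟩
lemma Reg3.E (h : IsReg c f) (h' : IsReg c g) : Reg3 c fun x => E (f x) (g x) :=
  ⟨IsReg.const 1, h, by
    simp only [E_c, pow_two, div_eq_mul_inv]
    exact h'.add ((h.mul h).mul (IsReg.const _))⟩
end

variable [CharZero K] {x : Fin 4 → R K}

abbrev ι := (Fin 4 × Fin 3) ⊕ Fin 6

def comp (r : R K) : Fin 3 → K := ![r.a, r.b, r.c]

def coord (g : G x) : ι → K := Sum.elim (fun p => comp (g.y p.1) p.2)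
  ![(g.r : R K).a, (g.r : R K).b, (g.r : R K).c, (g.r : R K).a⁻¹, g.u, g.v]

def mkU (a b c s : K) (h : a * s = 1) : (R K)ˣ :=
  ⟨⟨a, b, c⟩, ⟨s, -(b * (s * s)), b * b * (s * s * s) + -(c * (s * s))⟩,
    by ext <;> simp [h] <;> grind, by ext <;> simp [mul_comm s a, h] <;> grind⟩

lemma inv_val (r : (R K)ˣ) : ((r⁻¹ : (R K)ˣ) : R K) = ⟨(r : R K).a⁻¹,
    -((r : R K).b * ((r : R K).a⁻¹ * (r : R K).a⁻¹)),
    (r : R K).b * (r : R K).b * ((r : R K).a⁻¹ * (r : R K).a⁻¹ * (r : R K).a⁻¹) +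
      -((r : R K).c * ((r : R K).a⁻¹ * (r : R K).a⁻¹))⟩ := by
  have : r = mkU (r : R K).a (r : R K).b (r : R K).c _ (mul_inv_cancel₀ (unit_a r)) :=
    Units.ext rfl
  conv_lhs => rw [this]
  rfl

/-- the basic functions are regular -/
structure Basic {X κ : Type} (c : X → κ → K) (p : X → G x) : Prop where
  y : ∀ i, Reg3 c fun z => (p z).y i
  r : Reg3 c fun z => ((p z).r : R K)
  s : IsReg c fun z => ((p z).r : R K).a⁻¹
  u : IsReg c fun z => (p z).u
  v : IsReg c fun z => (p z).v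

lemma Basic.of {X κ : Type} {c : X → κ → K} {p : X → G x}
    (h : ∀ i, IsReg c fun z => coord (p z) i) : Basic c p :=
  ⟨fun i => ⟨h (.inl (i, 0)), h (.inl (i, 1)), h (.inl (i, 2))⟩, ⟨h (.inr 0), h (.inr 1), h (.inr 2)⟩,
    h (.inr 3), h (.inr 4), h (.inr 5)⟩

lemma Basic.to {X κ : Type} {c : X → κ → K} {p : X → G x} (h : Basic c p) (i : ι) :
    IsReg c fun z => coord (p z) i := by
  rcases i with ⟨i, k⟩ | k
  · fin_cases k
    exacts [(h.y i).1, (h.y i).2.1, (h.y i).2.2]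
  · fin_cases k
    exacts [h.r.1, h.r.2.1, h.r.2.2, h.s, h.u, h.v]

lemma Basic.m {X κ : Type} {c : X → κ → K} {p : X → G x} (hr : Reg3 c fun z => ((p z).r : R K))
    (hu : IsReg c fun z => (p z).u) (hv : IsReg c fun z => (p z).v) (i : Fin 4) :
    Reg3 c fun z => m (p z) i :=
  hr.mul (Reg3.E (hu.mul (IsReg.const _)) ((hv.mul (IsReg.const _)).add (hu.mul (IsReg.const _))))

lemma Basic.mul {X κ : Type} {c : X → κ → K} {p q : X → G x} (h : Basic c p) (h' : Basic c q) :
    Basic c fun z => p z * q z :=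
  ⟨fun i => (h.y i).add ((Basic.m h.r h.u h.v i).mul (h'.y i)), h.r.mul h'.r, by
    simp only [mul_r, Units.val_mul, R.mul_a, mul_inv]
    exact h.s.mul h'.s, h.u.add h'.u, h.v.add h'.v⟩

lemma Basic.inv {X κ : Type} {c : X → κ → K} {p : X → G x} (h : Basic c p) :
    Basic c fun z => (p z)⁻¹ := by
  have hr : Reg3 c fun z => (((p z).r⁻¹ : (R K)ˣ) : R K) := by
    simp only [inv_val]
    exact ⟨h.s, (h.r.2.1.mul (h.s.mul h.s)).neg,
      ((h.r.2.1.mul h.r.2.1).mul ((h.s.mul h.s).mul h.s)).add (h.r.2.2.mul (h.s.mul h.s)).neg⟩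
  refine ⟨fun i => ((Basic.m (p := fun z => ⟨0, (p z).r⁻¹, -(p z).u, -(p z).v⟩)
    hr h.u.neg h.v.neg i).mul (h.y i)).neg, hr, ?_, h.u.neg, h.v.neg⟩
  simp only [inv_r, inv_val, inv_inv]
  exact h.r.1

noncomputable def str (x : Fin 4 → R K) : AffineGroupStr K (G x) where
  ι := ι
  fin := inferInstance
  coord := coord
  inj g h e := G.ext (funext fun i => R.ext (congrFun e (.inl (i, 0))) (congrFun e (.inl (i, 1)))
      (congrFun e (.inl (i, 2))))
    (Units.ext (R.ext (congrFun e (.inr 0)) (congrFun e (.inr 1)) (congrFun e (.inr 2))))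
    (congrFun e (.inr 4)) (congrFun e (.inr 5))
  closed := ⟨{X (.inr 0) * X (.inr 3) - 1}, fun c => by
    simp only [Set.mem_singleton_iff, forall_eq, map_sub, map_mul, eval_X, map_one, sub_eq_zero]
    constructor
    · rintro ⟨g, rfl⟩
      exact mul_inv_cancel₀ (unit_a g.r)
    · intro h
      refine ⟨⟨fun i => ⟨c (.inl (i, 0)), c (.inl (i, 1)), c (.inl (i, 2))⟩,
        mkU (c (.inr 0)) (c (.inr 1)) (c (.inr 2)) (c (.inr 3)) h, c (.inr 4), c (.inr 5)⟩, ?_⟩
      funext i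
      rcases i with ⟨i, k⟩ | k
      · fin_cases k <;> rfl
      · fin_cases k
        exacts [rfl, rfl, rfl, (eq_inv_of_mul_eq_one_right h).symm, rfl, rfl]⟩
  mul_poly i := by
    obtain ⟨p, hp⟩ := ((Basic.of (c := fun z : G x × G x => Sum.elim (coord z.1) (coord z.2))
      (p := Prod.fst) fun i => IsReg.var
        (c := fun z : G x × G x => Sum.elim (coord z.1) (coord z.2)) (Sum.inl i)).mul
      (Basic.of (p := Prod.snd) fun i => IsReg.var
        (c := fun z : G x × G x => Sum.elim (coord z.1) (coord z.2)) (Sum.inr i))).to i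
    exact ⟨p, fun g h => hp (g, h)⟩
  inv_poly i := (Basic.of (c := coord) (p := id) fun i => IsReg.var i).inv.to i

section iso

variable (θ : K →+* R K) (hθ : ∀ t, (θ t).a = t)

/-- extension of a section `θ` to an automorphism of `K[ε]/ε³` -/
def ext3 : R K ≃+* R K where
  toFun r := ⟨r.a, r.b + (θ r.a).b, r.c + (θ r.b).b + (θ r.a).c⟩
  invFun r := ⟨r.a, r.b - (θ r.a).b, r.c - (θ (r.b - (θ r.a).b)).b - (θ r.a).c⟩
  left_inv r := by ext <;> simp <;> ring
  right_inv r := by ext <;> simp <;> ring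
  map_mul' r s := by ext <;> simp [hθ] <;> ring
  map_add' r s := by ext <;> simp <;> ring

lemma ext3_E (u v : K) : ext3 θ hθ (E u v) = E u (v + (θ u).b) := by
  ext <;> simp [ext3]
  ring

lemma ext3_m (g : G x) (i : Fin 4) : ext3 θ hθ (m g i) =
    m (x := fun i => ext3 θ hθ (x i)) ⟨fun i => ext3 θ hθ (g.y i),
      Units.map (ext3 θ hθ).toMonoidHom g.r, g.u, g.v + (θ g.u).b⟩ i := by
  rw [m, map_mul, ext3_E, m]
  congr 2
  simp [ext3, hθ]
  ring

noncomputable def iso : G x ≃* G (fun i => ext3 θ hθ (x i)) :=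
  MulEquiv.ofBijective
    ({ toFun := fun g => ⟨fun i => ext3 θ hθ (g.y i), Units.map (ext3 θ hθ).toMonoidHom g.r, g.u,
          g.v + (θ g.u).b⟩
       map_mul' := fun g h => G.ext (funext fun i => by
          simp only [mul_y, map_add, map_mul, ext3_m]) (map_mul _ _ _) rfl (by simp; ring) } :
      G x →ₙ* G (fun i => ext3 θ hθ (x i)))
    ⟨fun g h e => by
      have e1 := congrArg G.y e
      have e2 := congrArg (fun z => (G.r z : R K)) e
      have e3 : g.u = h.u := (congrArg G.u e :)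
      have e4 : g.v + (θ g.u).b = h.v + (θ h.u).b := congrArg G.v e
      exact G.ext (funext fun i => (ext3 θ hθ).injective (congrFun e1 i))
        (Units.ext ((ext3 θ hθ).injective e2)) e3 (by rw [e3] at e4; simpa using e4),
    fun h => ⟨⟨fun i => (ext3 θ hθ).symm (h.y i), Units.map (ext3 θ hθ).symm.toMonoidHom h.r, h.u,
      h.v - (θ h.u).b⟩, G.ext (funext fun i => (ext3 θ hθ).apply_symm_apply _)
        (Units.ext ((ext3 θ hθ).apply_symm_apply _)) rfl (sub_add_cancel _ _)⟩⟩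

end iso

abbrev K0 := AlgebraicClosure (RatFunc ℚ)

noncomputable def lam : K0 := algebraMap (Polynomial ℚ) K0 Polynomial.X

lemma exists_theta : ∃ θ : K0 →+* R K0, (∀ t, (θ t).a = t) ∧ θ lam = ⟨lam, 1, 0⟩ := by
  let f : Polynomial ℚ →+* R K0 :=
    Polynomial.eval₂RingHom (R.C.comp (algebraMap ℚ K0)) ⟨lam, 1, 0⟩
  letI : Algebra (Polynomial ℚ) (R K0) := f.toAlgebra
  let p0 : R K0 →+* K0 :=
    { toFun := R.a, map_one' := rfl, map_mul' := fun _ _ => rfl, map_zero' := rfl,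
      map_add' := fun _ _ => rfl }
  have hp : p0.comp f = algebraMap (Polynomial ℚ) K0 := by
    apply Polynomial.ringHom_ext'
    · exact Subsingleton.elim _ _
    · simp [f, p0, lam]
  let p : R K0 →ₐ[Polynomial ℚ] K0 := { p0 with commutes' := fun r => DFunLike.congr_fun hp r }
  haveI : Algebra.FormallySmooth (Polynomial ℚ) (RatFunc ℚ) :=
    Algebra.FormallySmooth.of_isLocalization (nonZeroDivisors (Polynomial ℚ))
  haveI : Algebra.FormallyEtale (RatFunc ℚ) K0 := Algebra.FormallyEtale.of_isSeparable _ _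
  haveI : Algebra.FormallySmooth (Polynomial ℚ) K0 :=
    Algebra.FormallySmooth.comp (Polynomial ℚ) (RatFunc ℚ) K0
  have hs : Function.Surjective p := fun t => ⟨R.C t, rfl⟩
  have hn : IsNilpotent (RingHom.ker (p : R K0 →+* K0)) := by
    refine ⟨3, ?_⟩
    have : RingHom.ker (p : R K0 →+* K0) = Ideal.span {(⟨0, 1, 0⟩ : R K0)} := by
      ext r
      rw [Ideal.mem_span_singleton', RingHom.mem_ker]
      constructor
      · intro h
        have h' : r.a = 0 := h
        exact ⟨⟨r.b, r.c, 0⟩, by ext <;> simp [h']⟩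
      · rintro ⟨s, rfl⟩
        show (s * _).a = 0
        simp
    rw [this, Ideal.span_singleton_pow, Ideal.zero_eq_bot, Ideal.span_singleton_eq_bot]
    ext <;> simp [pow_succ]
  let θ := Algebra.FormallySmooth.liftOfSurjective (AlgHom.id _ K0) p hs hn
  refine ⟨θ, fun t => Algebra.FormallySmooth.liftOfSurjective_apply (AlgHom.id _ K0) p hs hn t, ?_⟩
  have := θ.commutes Polynomial.X
  rw [lam]
  refine this.trans ?_
  show f Polynomial.X = _
  simp [f, lam]

end Pool.Agent.H64.Pono2
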