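import Pool.Agent.H64.Pono2

/-! No semialgebraic isomorphism between the constant and the deformed group. -/

set_option linter.unusedSectionVars false

namespace Pool.Agent.H64.Pono3

open Pool.Agent.H64.AffDefs Pool.Agent.H64.Pono1 Pool.Agent.H64.Pono2

variable {K : Type} [Field K] [CharZero K]

lemma poly_eval {κ : Type} (F : K → κ → K) (hF : ∀ j, ∃ q : Polynomial K, ∀ a, F a j = q.eval a)
    (p : MvPolynomial κ K) : ∃ q : Polynomial K, ∀ a, MvPolynomial.eval (F a) p = q.eval a := by
  induction p using MvPolynomial.induction_on with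
  | C c => exact ⟨Polynomial.C c, by simp⟩
  | add p p' h h' =>
    obtain ⟨q, hq⟩ := h
    obtain ⟨q', hq'⟩ := h'
    exact ⟨q + q', by simp [hq, hq']⟩
  | mul_X p j h =>
    obtain ⟨q, hq⟩ := h
    obtain ⟨q', hq'⟩ := hF j
    exact ⟨q * q', by simp [hq, hq']⟩

lemma add_poly (f : K → K) (h0 : f 0 = 0) (hadd : ∀ a b, f (a + b) = f a + f b)
    (q : Polynomial K) (hq : ∀ a, f a = q.eval a) (a : K) : f a = a * f 1 := by
  have hn : ∀ n : ℕ, f n = n * f 1 := by
    intro n
    induction n with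
    | zero => simp [h0]
    | succ n ih => push_cast; rw [hadd, ih]; ring
  have : q - Polynomial.X * Polynomial.C (f 1) = 0 := by
    apply Polynomial.eq_zero_of_infinite_isRoot
    refine (Set.infinite_range_of_injective (Nat.cast_injective (R := K))).mono ?_
    rintro _ ⟨n, rfl⟩
    simp [← hq, hn]
    ring
  have := congrArg (Polynomial.eval a) this
  simp only [Polynomial.eval_sub, Polynomial.eval_mul, Polynomial.eval_X, Polynomial.eval_C,
    Polynomial.eval_zero, ← hq] at this
  linear_combination this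

variable {x x' : Fin 4 → R K} (φ : G x ≃* G x')

def L (y : Fin 4 → R K) : Fin 4 → R K := (φ (tr y)).y

lemma φ_tr (y : Fin 4 → R K) : φ (tr y) = tr (L φ y) := by
  obtain ⟨y', h⟩ := comm_mem (φ sc) (φ (tr y))
  have : φ (tr y) = tr y' := by
    rw [← h, ← map_inv, ← map_inv, ← map_mul, ← map_mul, ← map_mul, ← comm_sc]
  rw [L, this]; rfl

lemma L_add (y y' : Fin 4 → R K) : L φ (y + y') = L φ y + L φ y' :=
  tr_inj (x := x') (by rw [← φ_tr, tr_add, map_mul, φ_tr, φ_tr, tr_add])

lemma L_zero : L φ 0 = 0 := by simp [L, tr_zero]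

lemma L_inj {y : Fin 4 → R K} (h : L φ y = 0) : y = 0 :=
  tr_inj (x := x) (φ.injective (by rw [φ_tr, h, tr_zero, tr_zero, map_one]))

lemma L_surj (y : Fin 4 → R K) : L φ (L φ.symm y) = y :=
  tr_inj (x := x') (by rw [← φ_tr, ← φ_tr, MulEquiv.apply_symm_apply])

def Int (A A' : Fin 4 → R K) : Prop := ∀ y, L φ (A * y) = A' * L φ y

variable {φ} {A A' B B' : Fin 4 → R K}

lemma Int.of (g : G x) : Int φ (m g) (m (φ g)) := fun y => by
  have := congrArg φ (conj_tr g y)
  rw [map_mul, map_mul, φ_tr, φ_tr, conj_tr, mul_left_inj] at this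
  exact (tr_inj this).symm

lemma Int.one : Int φ 1 1 := fun y => by simp
lemma Int.add (h : Int φ A A') (h' : Int φ B B') : Int φ (A + B) (A' + B') := fun y => by
  rw [add_mul, L_add, h, h', add_mul]
lemma Int.mul (h : Int φ A A') (h' : Int φ B B') : Int φ (A * B) (A' * B') := fun y => by
  rw [mul_assoc, h, h', mul_assoc]
lemma Int.neg (h : Int φ A A') : Int φ (-A) (-A') := fun y => by
  have := L_add φ (-A * y) (A * y)
  rw [← add_mul, neg_add_cancel, zero_mul, L_zero, h] at this
  rw [neg_mul A']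
  exact eq_neg_of_add_eq_zero_left this.symm
lemma Int.sub (h : Int φ A A') (h' : Int φ B B') : Int φ (A - B) (A' - B') := by
  rw [sub_eq_add_neg, sub_eq_add_neg]; exact h.add h'.neg
lemma Int.zero_right (h : Int φ 0 A') : A' = 0 := by
  have := h (L φ.symm 1)
  rw [zero_mul, L_zero, L_surj, mul_one] at this
  exact this.symm
lemma Int.zero_left (h : Int φ A 0) : A = 0 := by
  have := h 1
  rw [zero_mul, mul_one] at this
  exact L_inj φ this

def cst (a : K) : Fin 4 → R K := fun _ => R.C a

lemma Int.cst (h : IsSemialgebraic (str x) (str x') φ) :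
    ∃ σ : K ≃+* K, ∀ a, Int φ (cst a) (cst (σ a)) := by
  obtain ⟨σ, hσ⟩ := h
  refine ⟨σ, fun a y => ?_⟩
  have key : ∀ i k, comp (L φ (Pono3.cst a * y) i) k = σ a * comp (L φ y i) k := by
    intro i k
    obtain ⟨p, hp⟩ := hσ (Sum.inl (i, k))
    obtain ⟨q, hq⟩ := poly_eval
      (fun t j => σ (coord (tr (Pono3.cst (σ.symm t) * y) : G x) j)) (fun j => by
        rcases j with ⟨i, k⟩ | k
        · refine ⟨Polynomial.X * Polynomial.C (σ (comp (y i) k)), fun t => ?_⟩
          fin_cases k <;> simp [coord, comp, Pono3.cst] <;> ring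
        · exact ⟨Polynomial.C (σ (coord (1 : G x) (Sum.inr k))), fun t => by
            rw [Polynomial.eval_C]; rfl⟩) p
    have := add_poly (fun t => comp (L φ (Pono3.cst (σ.symm t) * y) i) k) (by
        have : Pono3.cst (σ.symm 0) * y = 0 := by funext i; simp [Pono3.cst]
        simp only [this, L_zero]
        fin_cases k <;> rfl) (fun s t => by
        have : Pono3.cst (σ.symm (s + t)) * y =
            Pono3.cst (σ.symm s) * y + Pono3.cst (σ.symm t) * y := by
          funext i; simp [Pono3.cst, add_mul]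
        simp only [this, L_add]
        fin_cases k <;> rfl) q (fun t => (hp (tr _)).trans (hq t)) (σ a)
    have e : Pono3.cst (σ.symm 1) * y = y := by funext i; simp [Pono3.cst]
    simpa only [RingEquiv.symm_apply_apply, e] using this
  funext i
  ext
  · simpa [Pono3.cst, comp] using key i 0
  · simpa [Pono3.cst, comp] using key i 1
  · simpa [Pono3.cst, comp] using key i 2

def lg (M : Fin 4 → R K) : Fin 4 → R K := (M - 1) - cst (1 / 2) * ((M - 1) * (M - 1))

lemma lg_form (h : G x') (h1 : (h.r : R K).a = 1) : ∃ α β α' β' : K, ∀ j,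
    lg (m h) j = ⟨0, α + β * (x' j).a, α' + β' * (x' j).a + β * (x' j).b⟩ := by
  refine ⟨(h.r : R K).b, h.u, (h.r : R K).c - (h.r : R K).b ^ 2 / 2, h.v, fun j => ?_⟩
  ext <;> simp [lg, cst, m, h1] <;> ring

lemma unip (g : G x) (hg : (g.r : R K).a = 1) : ((φ g).r : R K).a = 1 := by
  have h1 := (Int.of (φ := φ) g).sub Int.one
  have h2 := (h1.mul h1).mul h1
  have : (m g - 1) * (m g - 1) * (m g - 1) = 0 := by
    funext j
    ext <;> simp [m, hg]
  rw [this] at h2
  have h3 := congrArg R.a (congrFun h2.zero_right 0)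
  simp only [Pi.mul_apply, Pi.sub_apply, Pi.one_apply, R.mul_a, R.sub_a, R.one_a, m, E_a, mul_one,
    Pi.zero_apply, R.zero_a, mul_eq_zero, or_self] at h3
  exact sub_eq_zero.1 h3

theorem not_semi (h0 : x 0 = 0) (h1 : x 1 = 1) (hb : ∀ i, (x i).b = 0)
    (hinj : Function.Injective fun i => (x i).a) (l : K)
    (h0' : x' 0 = 0) (h1' : x' 1 = 1) (h2' : x' 2 = -1) (h3' : x' 3 = ⟨l, 1, 0⟩) :
    ¬ IsSemialgebraic (str x) (str x') φ := by
  intro h
  obtain ⟨σ, hσ⟩ := Int.cst h
  have hlg : ∀ g : G x, Int φ (lg (m g)) (lg (m (φ g))) := fun g => by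
    have h1 := (Int.of (φ := φ) g).sub Int.one
    have h2 := hσ (1 / 2)
    rw [map_div₀, map_one, map_ofNat] at h2
    exact h1.sub (h2.mul (h1.mul h1))
  let gA : G x := ⟨0, Eu 1 0, 0, 0⟩
  let gB : G x := ⟨0, 1, 1, 0⟩
  have hA := hlg gA
  have hB := hlg gB
  have eA : lg (m gA) = fun _ => ⟨0, 1, 0⟩ := by
    funext j; ext <;> simp [lg, cst, m, gA, Eu]
  have eB : lg (m gB) = fun j => ⟨0, (x j).a, 0⟩ := by
    funext j; ext <;> simp [lg, cst, m, gB, hb]; ring
  obtain ⟨α, β, α', β', fA⟩ := lg_form (φ gA) (unip gA rfl)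
  obtain ⟨γ, δ, γ', δ', fB⟩ := lg_form (φ gB) (unip gB rfl)
  rw [eA] at hA
  rw [eB] at hB
  set A' := lg (m (φ gA))
  set B' := lg (m (φ gB))
  -- nondegeneracy
  have nd : ∀ s t : K, s * α + t * γ = 0 → s * β + t * δ = 0 → s = 0 ∧ t = 0 := by
    intro s t e1 e2
    have i1 := ((hσ (σ.symm s)).mul hA).add ((hσ (σ.symm t)).mul hB)
    have i2 := i1.mul i1
    rw [RingEquiv.apply_symm_apply, RingEquiv.apply_symm_apply] at i2
    have : (cst s * A' + cst t * B') * (cst s * A' + cst t * B') = 0 := by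
      funext j
      have : s * (α + β * (x' j).a) + t * (γ + δ * (x' j).a) = 0 := by
        linear_combination e1 + (x' j).a * e2
      ext <;> simp [cst, fA, fB, this]
    rw [this] at i2
    have z := i2.zero_left
    have z0 := congrArg R.c (congrFun z 0)
    have z1 := congrArg R.c (congrFun z 1)
    simp [cst, h0] at z0
    simp [cst, h1, z0] at z1
    exact ⟨z0, z1⟩
  have hD : α * δ - β * γ ≠ 0 := by
    intro hD
    have a1 := nd δ (-β) (by linear_combination hD) (by ring)
    have a2 := nd γ (-α) (by ring) (by linear_combination -hD)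
    have a3 := nd 1 0 (by simpa using a2.2) (by simpa using a1.2)
    exact one_ne_zero a3.1
  have blk : ∀ i : Fin 4, ∃ j, (B' - cst (σ (x i).a) * A') j = 0 := by
    intro i
    have i1 := (hB.sub ((hσ (x i).a).mul hA)) (Pi.single i 1)
    have e1 : ((fun j => ⟨0, (x j).a, 0⟩) - cst (x i).a * fun _ => (⟨0, 1, 0⟩ : R K)) *
        (Pi.single i 1 : Fin 4 → R K) = 0 := by
      funext j
      by_cases hj : j = i
      · subst hj; ext <;> simp [cst]
      · simp [hj]
    rw [e1, L_zero] at i1
    have i2 := (hA.mul hA) (Pi.single i 1)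
    obtain ⟨j, hj⟩ : ∃ j, (L φ (Pi.single i 1) j).a ≠ 0 := by
      by_contra hc
      push Not at hc
      have : A' * A' * L φ (Pi.single i 1) = 0 := by
        funext j; ext <;> simp [fA, hc]
      rw [this] at i2
      have := congrArg R.c (congrFun (L_inj φ i2) i)
      simp at this
    refine ⟨j, ?_⟩
    have i3 := (congrFun i1 j).symm
    rw [Pi.mul_apply, Pi.zero_apply] at i3
    set N := (B' - cst (σ (x i).a) * A') j
    have c1 := congrArg R.a i3
    have c2 := congrArg R.b i3
    have c3 := congrArg R.c i3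
    simp only [R.mul_a, R.mul_b, R.mul_c, R.zero_a, R.zero_b, R.zero_c] at c1 c2 c3
    have f1 : N.a = 0 := (mul_eq_zero.1 c1).resolve_right hj
    have f2 : N.b = 0 := (mul_eq_zero.1 (by rw [f1] at c2; linear_combination c2)).resolve_right hj
    have f3 : N.c = 0 :=
      (mul_eq_zero.1 (by rw [f1, f2] at c3; linear_combination c3)).resolve_right hj
    exact R.ext f1 f2 f3
  choose J hJ using blk
  have eq1 : ∀ i, γ + δ * (x' (J i)).a = σ (x i).a * (α + β * (x' (J i)).a) := fun i => by
    have := congrArg R.b (hJ i)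
    simp [cst, fA, fB] at this
    linear_combination this
  have eq2 : ∀ i, γ' + δ' * (x' (J i)).a + δ * (x' (J i)).b =
      σ (x i).a * (α' + β' * (x' (J i)).a + β * (x' (J i)).b) := fun i => by
    have := congrArg R.c (hJ i)
    simp [cst, fA, fB] at this
    linear_combination this
  have Jinj : Function.Injective J := by
    intro i i' hi
    by_contra hne
    have e1 := eq1 i
    have e2 := eq1 i'
    rw [← hi] at e2
    have hd : σ (x i).a - σ (x i').a ≠ 0 := sub_ne_zero.2 fun h => hne (hinj (σ.injective h))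
    have e3 : α + β * (x' (J i)).a = 0 :=
      (mul_eq_zero.1 (by linear_combination e2 - e1)).resolve_left hd
    rw [e3, mul_zero] at e1
    exact hD (by linear_combination δ * e3 - β * e1)
  have Jsurj := Finite.injective_iff_surjective.1 Jinj
  have fin : ∀ j, (γ + δ * (x' j).a) * (α' + β' * (x' j).a + β * (x' j).b) =
      (α + β * (x' j).a) * (γ' + δ' * (x' j).a + δ * (x' j).b) := fun j => by
    obtain ⟨i, rfl⟩ := Jsurj j
    rw [eq1, eq2]; ring
  have q0 := fin 0
  have q1 := fin 1
  have q2 := fin 2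
  have q3 := fin 3
  rw [h0'] at q0
  rw [h1'] at q1
  rw [h2'] at q2
  rw [h3'] at q3
  simp only [R.zero_a, R.zero_b, R.one_a, R.one_b, R.neg_a, R.neg_b] at q0 q1 q2 q3
  apply hD
  linear_combination (-1 : K) * q3 + (1 - l ^ 2) * q0 + ((l + l ^ 2) / 2) * q1 +
    ((l ^ 2 - l) / 2) * q2

lemma lam_ne (n : ℤ) : lam ≠ n := by
  intro h
  have hinj : Function.Injective (algebraMap (Polynomial ℚ) K0) := by
    rw [IsScalarTower.algebraMap_eq (Polynomial ℚ) (RatFunc ℚ) K0]
    exact (algebraMap (RatFunc ℚ) K0).injective.comp (IsFractionRing.injective _ _)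
  have : (Polynomial.X : Polynomial ℚ) = n := hinj (by rw [map_intCast]; exact h)
  have := congrArg Polynomial.natDegree this
  simp at this

theorem main : ∃ (K : Type) (_ : Field K) (_ : IsAlgClosed K) (G H : Type) (_ : Group G)
    (_ : Group H) (A : AffineGroupStr K G) (B : AffineGroupStr K H),
      NoFiniteIndex G ∧ NoFiniteIndex H ∧ Indecomposable G ∧ Indecomposable H ∧
      Subgroup.center G = ⊥ ∧ Subgroup.center H = ⊥ ∧ Nonempty (G ≃* H) ∧
      ∀ φ : G ≃* H, ¬ IsSemialgebraic A B φ := by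
  obtain ⟨θ, hθ, hl⟩ := exists_theta
  let x : Fin 4 → R K0 := ![0, 1, -1, R.C lam]
  have a0 : ext3 θ hθ (x 0) = 0 := map_zero _
  have a1 : ext3 θ hθ (x 1) = 1 := map_one _
  have a2 : ext3 θ hθ (x 2) = -1 := by
    show ext3 θ hθ (-1) = -1
    rw [map_neg, map_one]
  have a3 : ext3 θ hθ (x 3) = ⟨lam, 1, 0⟩ := by
    show ext3 θ hθ (R.C lam) = _
    ext <;> simp [ext3, hl]
  refine ⟨K0, inferInstance, inferInstance, G x, G fun i => ext3 θ hθ (x i), inferInstance,
    inferInstance, str _, str _, noFiniteIndex, noFiniteIndex, indec rfl rfl, indec a0 a1,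
    center rfl rfl, center a0 a1, ⟨iso θ hθ⟩, fun φ => not_semi rfl rfl ?_ ?_ lam a0 a1 a2 a3⟩
  · intro i; fin_cases i <;> simp [x]
  · have l0 : lam ≠ 0 := by simpa using lam_ne 0
    have l1 : lam ≠ 1 := by simpa using lam_ne 1
    have l2 : lam ≠ -1 := by simpa using lam_ne (-1)
    have o : (1 : K0) ≠ -1 := by norm_num
    intro i j h
    fin_cases i <;> fin_cases j <;> simp_all [x, eq_comm]

end Pool.Agent.H64.Pono3
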