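import Mathlib

set_option autoImplicit false

namespace Pool.Agent.H64.ProP

open scoped commutatorElement

/-- alphabet -/
abbrev X := ZMod 3

/-- portraits -/
def W : Type := List X → X

/-- label -/
def W.l (g : W) : List X → X := g

@[ext] theorem W.ext' {g h : W} (H : ∀ x, g.l x = h.l x) : g = h := funext H

/-- wreath recursion -/
def mk (r : X) (f : X → W) : W := fun x => match x with
  | [] => r
  | i :: s => (f i).l s

/-- section -/
def sec (g : W) (v : List X) : W := fun s => g.l (v ++ s)

@[simp] theorem mk_nil (r : X) (f : X → W) : (mk r f).l [] = r := rfl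
@[simp] theorem mk_cons (r : X) (f : X → W) (i : X) (s : List X) :
    (mk r f).l (i :: s) = (f i).l s := rfl
@[simp] theorem sec_l (g : W) (v s : List X) : (sec g v).l s = g.l (v ++ s) := rfl
@[simp] theorem sec_mk (r : X) (f : X → W) (i : X) : sec (mk r f) [i] = f i := rfl
@[simp] theorem sec_nil (g : W) : sec g [] = g := rfl
theorem sec_sec (g : W) (v u : List X) : sec (sec g v) u = sec g (v ++ u) := by
  ext s; simp

theorem eq_mk (g : W) : g = mk (g.l []) fun i => sec g [i] := by
  ext x; cases x <;> rfl

/-- action -/
def act : List X → W → List X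
  | [], _ => []
  | i :: x, g => (i + g.l []) :: act x (sec g [i])

/-- inverse action -/
def iact : List X → W → List X
  | [], _ => []
  | j :: y, g => (j - g.l []) :: iact y (sec g [j - g.l []])

theorem iact_act (x : List X) : ∀ g, iact (act x g) g = x := by
  induction x with
  | nil => intro g; rfl
  | cons i x ih => intro g; simp [act, iact, ih]

instance : Mul W := ⟨fun g h => fun x => g.l (act x h) + h.l x⟩
instance : One W := ⟨fun _ => 0⟩
instance : Inv W := ⟨fun g => fun y => - g.l (iact y g)⟩

theorem mul_l (g h : W) (x : List X) : (g * h).l x = g.l (act x h) + h.l x := rfl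
@[simp] theorem one_l (x : List X) : (1 : W).l x = 0 := rfl
theorem inv_l (g : W) (y : List X) : (g⁻¹).l y = - g.l (iact y g) := rfl

theorem sec_mul1 (g h : W) (i : X) : sec (g * h) [i] = sec g [i + h.l []] * sec h [i] := by
  ext s; simp [mul_l, act]

theorem act_mul (x : List X) : ∀ g h : W, act x (g * h) = act (act x h) g := by
  induction x with
  | nil => intro g h; rfl
  | cons i x ih =>
    intro g h
    simp only [act, sec_mul1, ih, mul_l]
    congr 1; ring

@[simp] theorem sec_one (v : List X) : sec 1 v = 1 := rfl

@[simp] theorem act_one (x : List X) : act x 1 = x := by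
  induction x with
  | nil => rfl
  | cons i x ih => simp [act, ih]

instance : Group W := Group.ofLeftAxioms
  (fun g h k => by ext x; simp only [mul_l, act_mul]; ring)
  (fun g => by ext x; simp [mul_l])
  (fun g => by ext x; simp [mul_l, inv_l, iact_act])

theorem act_append (v s : List X) : ∀ g, act (v ++ s) g = act v g ++ act s (sec g v) := by
  induction v with
  | nil => intro g; rfl
  | cons i v ih => intro g; simp [act, ih, sec_sec]

theorem act_snoc (v : List X) (i : X) (g : W) : act (v ++ [i]) g = act v g ++ [i + g.l v] := by
  simp [act_append, act]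

@[simp] theorem act_length (x : List X) : ∀ g, (act x g).length = x.length := by
  induction x with
  | nil => intro g; rfl
  | cons i x ih => intro g; simp [act, ih]

theorem act_fix (x : List X) : ∀ g : W,
    (∀ y, y <+: x → y.length < x.length → g.l y = 0) → act x g = x := by
  induction x with
  | nil => intro g _; rfl
  | cons i x ih =>
    intro g h
    rw [act, h [] (by simp) (by simp), ih _ fun y hy hl => ?_, add_zero]
    exact h (i :: y) (by simpa using hy) (by simpa using hl)

theorem inv_act (g : W) (x : List X) : (g⁻¹).l (act x g) = - g.l x := by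
  simp [inv_l, iact_act]

theorem mk_mul (r r' : X) (f f' : X → W) :
    mk r f * mk r' f' = mk (r + r') fun i => f (i + r') * f' i := by
  ext x; cases x <;> simp [mul_l, act]

theorem mk_one : mk 0 (fun _ => 1) = 1 := by ext x; cases x <;> simp

theorem mk_inv (r : X) (f : X → W) : (mk r f)⁻¹ = mk (-r) fun i => (f (i - r))⁻¹ := by
  rw [inv_eq_iff_mul_eq_one, mk_mul, ← mk_one]
  congr 1
  · simp
  · funext i; simp [sub_eq_add_neg]

@[simp] theorem mul_nil (g h : W) : (g * h).l [] = g.l [] + h.l [] := rfl
@[simp] theorem inv_nil (g : W) : (g⁻¹).l [] = - g.l [] := rfl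

/-- sum of first-level labels -/
def bt (g : W) : X := ∑ j, g.l [j]

@[simp] theorem bt_mul (g h : W) : bt (g * h) = bt g + bt h := by
  simp only [bt, mul_l, act, Finset.sum_add_distrib]
  congr 1
  exact Fintype.sum_equiv (Equiv.addRight (h.l [])) _ _ fun _ => rfl

@[simp] theorem bt_one : bt 1 = 0 := by simp [bt]

@[simp] theorem bt_inv (g : W) : bt g⁻¹ = - bt g := by
  have := bt_mul g⁻¹ g
  rw [inv_mul_cancel, bt_one] at this
  exact eq_neg_of_add_eq_zero_left this.symm

theorem sec_mul (v : List X) : ∀ g h : W, sec (g * h) v = sec g (act v h) * sec h v := by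
  induction v with
  | nil => intro g h; rfl
  | cons i v ih =>
    intro g h
    have : ∀ k : W, ∀ j w, sec k (j :: w) = sec (sec k [j]) w := fun k j w => by rw [sec_sec]; rfl
    rw [this (g * h) i v, sec_mul1, ih, act, this g _ (act _ _), this h i v]

/-- local constraint -/
def D (g : W) (i : X) : X := bt (sec g [i]) - g.l [i + 1]

theorem D_mul (g h : W) (i : X) : D (g * h) i = D g (i + h.l []) + D h i := by
  simp only [D, sec_mul1, bt_mul, mul_l, act]
  rw [add_right_comm i 1]; ring

/-- the group -/
def G : Subgroup W where
  carrier := {g | ∀ v i, D (sec g v) i = 0}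
  one_mem' v i := by simp [D]
  mul_mem' {g h} hg hh v i := by rw [sec_mul, D_mul, hg, hh, add_zero]
  inv_mem' {g} hg v i := by
    have := D_mul (sec g (act v g⁻¹)) (sec g⁻¹ v) i
    rw [← sec_mul, mul_inv_cancel, hg, zero_add] at this
    rw [← this]; simp [D]

theorem sec_mem {g : W} (hg : g ∈ G) (v : List X) : sec g v ∈ G := fun u i => by
  rw [sec_sec]; exact hg _ _

theorem mk_mem {r : X} {f : X → W} (h1 : ∀ i, f i ∈ G) (h2 : ∀ i, bt (f i) = (f (i + 1)).l []) :
    mk r f ∈ G := fun v i => by
  cases v with
  | nil => simp [D, h2]
  | cons j v => exact h1 j v i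

/-- the branching subgroup -/
def K : Subgroup W where
  carrier := {g | g ∈ G ∧ g.l [] = 0 ∧ bt g = 0}
  one_mem' := ⟨G.one_mem, rfl, bt_one⟩
  mul_mem' {g h} hg hh := ⟨G.mul_mem hg.1 hh.1, by simp [hg.2.1, hh.2.1], by simp [hg.2.2, hh.2.2]⟩
  inv_mem' {g} hg := ⟨G.inv_mem hg.1, by simp [hg.2.1], by simp [hg.2.2]⟩

theorem K_conj {g k : W} (hg : g ∈ G) (hk : k ∈ K) : g * k * g⁻¹ ∈ K :=
  ⟨G.mul_mem (G.mul_mem hg hk.1) (G.inv_mem hg), by simp [hk.2.1], by simp [hk.2.2]⟩

/-- planting at first level -/
def at1 (i : X) : W →* W where
  toFun k := mk 0 fun j => if j = i then k else 1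
  map_one' := by simp [mk_one]
  map_mul' g h := by
    rw [mk_mul, add_zero]; congr 1
    funext j; by_cases hj : j = i <;> simp [hj]

theorem at1_def (i : X) (k : W) : at1 i k = mk 0 fun j => if j = i then k else 1 := rfl

/-- planting at a vertex -/
def atv : List X → W →* W
  | [] => MonoidHom.id W
  | i :: v => (at1 i).comp (atv v)

theorem atv_cons (i : X) (v : List X) (k : W) : atv (i :: v) k = at1 i (atv v k) := rfl
@[simp] theorem atv_nil (k : W) : atv [] k = k := rfl

theorem atv_append (v u : List X) (g : W) : atv (v ++ u) g = atv v (atv u g) := by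
  induction v with
  | nil => rfl
  | cons x v ih => simp [atv_cons, ih]

theorem at1_mem {k : W} (hk : k ∈ K) (i : X) : at1 i k ∈ K := by
  refine ⟨mk_mem (fun j => ?_) fun j => ?_, rfl, ?_⟩
  · split_ifs
    exacts [hk.1, G.one_mem]
  · split_ifs <;> simp [hk.2.1, hk.2.2]
  · simp only [bt, at1_def, mk_cons]
    refine Finset.sum_eq_zero fun j _ => ?_
    split_ifs <;> simp [hk.2.1]

theorem atv_mem {k : W} (hk : k ∈ K) (v : List X) : atv v k ∈ K := by
  induction v with
  | nil => exact hk
  | cons i v ih => exact at1_mem ih i

theorem atv_l (v s : List X) (k : W) : (atv v k).l (v ++ s) = k.l s := by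
  induction v with
  | nil => rfl
  | cons i v ih => simp [atv_cons, at1_def, ih]

theorem atv_l0 (v : List X) (k : W) : ∀ x, ¬ v <+: x → (atv v k).l x = 0 := by
  induction v with
  | nil => intro x h; simp at h
  | cons i v ih =>
    intro x h
    cases x with
    | nil => rfl
    | cons j x =>
      simp only [atv_cons, at1_def, mk_cons]
      split_ifs with hj
      · subst hj; exact ih x (by simpa using h)
      · rfl

theorem sec_atv (v : List X) (k : W) : sec (atv v k) v = k := by
  ext s; simp [atv_l]

theorem act_atv (v s : List X) (k : W) : act (v ++ s) (atv v k) = v ++ act s k := by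
  rw [act_append, sec_atv, act_fix]
  intro y _ hl
  exact atv_l0 _ _ _ fun h => absurd h.length_le (by omega)

theorem conj_at1 (g : W) (i : X) (k : W) :
    g * at1 i k * g⁻¹ = at1 (i + g.l []) (sec g [i] * k * (sec g [i])⁻¹) := by
  rw [mul_inv_eq_iff_eq_mul]
  conv_lhs => rw [eq_mk g]
  conv_rhs => rhs; rw [eq_mk g]
  rw [at1_def, at1_def, mk_mul, mk_mul]
  congr 1
  · simp
  · funext j; by_cases hj : j = i <;> simp [hj]

theorem conj_atv (v : List X) : ∀ (g k : W),
    g * atv v k * g⁻¹ = atv (act v g) (sec g v * k * (sec g v)⁻¹) := by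
  induction v with
  | nil => intro g k; rfl
  | cons i v ih => intro g k; rw [atv_cons, conj_at1, ih, act, atv_cons, sec_sec]; rfl

theorem comm_atv (v : List X) : ∀ (u : List X) (f g : W), v.length = u.length → v ≠ u →
    Commute (atv v f) (atv u g) := by
  induction v with
  | nil => intro u f g h1 h2; cases u <;> simp_all
  | cons i v ih =>
    intro u f g h1 h2
    cases u with
    | nil => simp at h1
    | cons j u =>
      rw [atv_cons, atv_cons]
      by_cases hij : i = j
      · subst hij
        exact (ih u f g (by simpa using h1) (by simpa using h2)).map _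
      · rw [Commute, SemiconjBy, at1_def, at1_def, mk_mul, mk_mul]
        congr 1; funext e
        by_cases h : e = i
        · subst h; simp [hij]
        · simp [h]

/-! topology -/

instance : TopologicalSpace W := inferInstanceAs (TopologicalSpace (List X → X))
instance : CompactSpace W := inferInstanceAs (CompactSpace (List X → X))
instance : T2Space W := inferInstanceAs (T2Space (List X → X))
instance : TotallyDisconnectedSpace W := inferInstanceAs (TotallyDisconnectedSpace (List X → X))

theorem cont_l (x : List X) : Continuous fun g : W => g.l x := continuous_apply x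

theorem cont_W {A : Type} [TopologicalSpace A] {f : A → W}
    (h : ∀ x, Continuous fun a => (f a).l x) : Continuous f := continuous_pi h

theorem cont_sec (v : List X) : Continuous fun g : W => sec g v := cont_W fun _ => cont_l _

theorem lc_comp {A B C : Type} [TopologicalSpace A] {f : A → B} {F : A → B → C}
    (hf : IsLocallyConstant f) (hF : ∀ b, IsLocallyConstant fun a => F a b) :
    IsLocallyConstant fun a => F a (f a) := by
  rw [IsLocallyConstant.iff_eventually_eq] at hf ⊢
  intro a
  filter_upwards [hf a, (IsLocallyConstant.iff_eventually_eq _).1 (hF (f a)) a] with y h1 h2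
  rw [h1, h2]

theorem lc_l (x : List X) : IsLocallyConstant fun g : W => g.l x :=
  (IsLocallyConstant.iff_continuous _).2 (cont_l x)

theorem lc_act (x : List X) : IsLocallyConstant fun g : W => act x g := by
  induction x with
  | nil => exact IsLocallyConstant.const _
  | cons i x ih =>
    exact (lc_l []).comp₂ (ih.comp_continuous (cont_sec [i])) fun r y => (i + r) :: y

theorem lc_iact (x : List X) : IsLocallyConstant fun g : W => iact x g := by
  induction x with
  | nil => exact IsLocallyConstant.const _
  | cons i x ih =>
    exact lc_comp (F := fun (g : W) r => (i - r) :: iact x (sec g [i - r])) (lc_l [])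
      fun r => (ih.comp_continuous (cont_sec [i - r])).comp fun y => (i - r) :: y

instance : IsTopologicalGroup W where
  continuous_mul := cont_W fun x => by
    refine Continuous.add ?_ ((cont_l x).comp continuous_snd)
    exact (lc_comp (F := fun (p : W × W) y => p.1.l y) ((lc_act x).comp_continuous continuous_snd)
      fun y => (lc_l y).comp_continuous continuous_fst).continuous
  continuous_inv := cont_W fun x =>
    (lc_comp (F := fun (g : W) y => g.l y) (lc_iact x) fun y => lc_l y).continuous.neg

theorem cont_bt : Continuous bt := continuous_finset_sum _ fun _ _ => cont_l _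

theorem G_closed : IsClosed (G : Set W) := by
  have : (G : Set W) = ⋂ v, ⋂ i, {g | D (sec g v) i = 0} := by
    ext g; simp only [Set.mem_iInter]; rfl
  rw [this]
  refine isClosed_iInter fun v => isClosed_iInter fun i => isClosed_eq ?_ continuous_const
  exact ((cont_bt.comp (cont_sec [i])).sub (cont_l _)).comp (cont_sec v)

theorem K_closed : IsClosed (K : Set W) :=
  G_closed.inter ((isClosed_eq (cont_l _) continuous_const).inter
    (isClosed_eq cont_bt continuous_const))

theorem cont_at1 (i : X) : Continuous (at1 i) := cont_W fun x => by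
  cases x with
  | nil => exact continuous_const
  | cons j x =>
    simp only [at1_def, mk_cons]
    split_ifs
    exacts [cont_l _, continuous_const]

theorem cont_atv (v : List X) : Continuous (atv v) := by
  induction v with
  | nil => exact continuous_id
  | cons i v ih => exact (cont_at1 i).comp ih

theorem tendsto_W {f : ℕ → W} {g : W} (h : ∀ n x, x.length < n → (f n).l x = g.l x) :
    Filter.Tendsto f Filter.atTop (nhds g) := by
  refine tendsto_pi_nhds.2 fun x => tendsto_const_nhds.congr' ?_
  filter_upwards [Filter.eventually_gt_atTop x.length] with n hn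
  exact (h n x hn).symm

end Pool.Agent.H64.ProP
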