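import Pool.Agent.H64.ProP1

set_option autoImplicit false

namespace Pool.Agent.H64.ProP

open scoped commutatorElement

/-- rooted rotation -/
def A (r : X) : W := mk r fun _ => 1

/-- the directed generator -/
def bf : List X → X
  | [] => 0
  | i :: s => if i = 0 then (A 1).l s else if i = 1 then 0 else bf s

/-- the directed generator -/
def b : W := bf

/-- sections of `b` -/
def bs (i : X) : W := if i = 0 then A 1 else if i = 1 then 1 else b

theorem b_eq : b = mk 0 bs := by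
  ext x
  cases x with
  | nil => rfl
  | cons i s =>
    simp only [mk_cons, bs]
    show bf (i :: s) = _
    rw [bf]; split_ifs <;> rfl

@[simp] theorem A_nil (r : X) : (A r).l [] = r := rfl
@[simp] theorem A_cons (r i : X) (s : List X) : (A r).l (i :: s) = 0 := rfl
@[simp] theorem b_nil : b.l [] = 0 := rfl
@[simp] theorem bt_A (r : X) : bt (A r) = 0 := by simp [bt]
@[simp] theorem sec_A (r i : X) : sec (A r) [i] = 1 := rfl
theorem sec_b (i : X) : sec b [i] = bs i := by
  conv_lhs => rw [b_eq]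
  rfl
theorem bs0 : bs 0 = A 1 := rfl
theorem bs1 : bs 1 = 1 := rfl
theorem bs2 : bs 2 = b := rfl

theorem X_cases (i : X) : i = 0 ∨ i = 1 ∨ i = 2 := by revert i; decide

theorem sum_X (f : X → X) : ∑ j, f j = f 0 + f 1 + f 2 := Fin.sum_univ_three f

@[simp] theorem bt_b : bt b = 1 := by rw [bt, sum_X]; rfl

theorem A_mul (r s : X) : A r * A s = A (r + s) := by simp [A, mk_mul]
theorem A_zero : A 0 = 1 := mk_one
theorem A_inv (r : X) : (A r)⁻¹ = A (-r) := by simp [A, mk_inv]

theorem A_mem (r : X) : A r ∈ G := mk_mem (fun _ => G.one_mem) fun _ => by simp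

theorem b_mem : b ∈ G := fun v => by
  induction v with
  | nil =>
    intro i
    rcases X_cases i with rfl | rfl | rfl <;> simp only [D, sec_nil, sec_b, bs0, bs1, bs2, bt_A,
      bt_one, bt_b] <;> rfl
  | cons j v ih =>
    intro i
    have : sec b (j :: v) = sec (bs j) v := by rw [← sec_b, sec_sec]; rfl
    rw [this]
    rcases X_cases j with rfl | rfl | rfl
    exacts [A_mem 1 v i, G.one_mem v i, ih i]

/-- the dense finitely generated subgroup -/
def Γ : Subgroup W := Subgroup.closure {A 1, b}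

theorem Γ_le : Γ ≤ G := (Subgroup.closure_le _).2 (by
  rintro x (rfl | rfl); exacts [A_mem 1, b_mem])

theorem b_Γ : b ∈ Γ := Subgroup.subset_closure (by simp)

theorem A_Γ (r : X) : A r ∈ Γ := by
  have h1 : A 1 ∈ Γ := Subgroup.subset_closure (by simp)
  rcases X_cases r with rfl | rfl | rfl
  · rw [A_zero]; exact Γ.one_mem
  · exact h1
  · have := Γ.mul_mem h1 h1
    rwa [A_mul] at this

/-- conjugates of `b` -/
def bb (r : X) : W := A r * b * (A r)⁻¹

theorem bb_eq (r : X) : bb r = mk 0 fun i => bs (i - r) := by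
  rw [bb, A_inv, b_eq, A, A, mk_mul, mk_mul]; simp [sub_eq_add_neg]

theorem bb_Γ (r : X) : bb r ∈ Γ := Γ.mul_mem (Γ.mul_mem (A_Γ r) b_Γ) (Γ.inv_mem (A_Γ r))

theorem repl {g : W} (hg : g ∈ Γ) (i : X) : ∃ x ∈ Γ, x.l [] = 0 ∧ sec x [i] = g := by
  induction hg using Subgroup.closure_induction with
  | mem x hx =>
    rcases hx with rfl | rfl
    · exact ⟨bb i, bb_Γ _, by simp [bb_eq], by simp [bb_eq, bs0]⟩
    · refine ⟨bb (i - 2), bb_Γ _, by simp [bb_eq], by simp [bb_eq, bs2]⟩
  | one => exact ⟨1, Γ.one_mem, rfl, rfl⟩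
  | mul x y _ _ hx hy =>
    obtain ⟨x', h1, h2, rfl⟩ := hx
    obtain ⟨y', h3, h4, rfl⟩ := hy
    exact ⟨x' * y', Γ.mul_mem h1 h3, by simp [h2, h4], by simp [sec_mul1, h4]⟩
  | inv x _ hx =>
    obtain ⟨x', h1, h2, rfl⟩ := hx
    refine ⟨x'⁻¹, Γ.inv_mem h1, by simp [h2], ?_⟩
    rw [eq_inv_iff_mul_eq_one]
    have := sec_mul1 x'⁻¹ x' i
    rw [inv_mul_cancel, h2, add_zero] at this
    exact this.symm

/-- normalised by `Γ` -/
def Nm (M : Subgroup W) : Prop := ∀ g ∈ Γ, ∀ n ∈ M, g * n * g⁻¹ ∈ M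

theorem Nm.comap {M : Subgroup W} (h : Nm M) (i : X) : Nm (M.comap (at1 i)) := by
  intro g hg n hn
  obtain ⟨x, h1, h2, rfl⟩ := repl hg i
  have := h x h1 _ hn
  rwa [conj_at1, h2, add_zero] at this

theorem Nm.shift {M : Subgroup W} (h : Nm M) {k : W} (hk : at1 0 k ∈ M) (i : X) : at1 i k ∈ M := by
  have := h _ (A_Γ i) _ hk
  rwa [conj_at1, A_nil, zero_add, sec_A, one_mul, inv_one, mul_one] at this

/-- the basic commutator -/
def c : W := ⁅A 1, b⁆

theorem c_eq : c = bb 1 * b⁻¹ := rfl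

theorem c_K : c ∈ K :=
  ⟨Γ_le (Γ.mul_mem (bb_Γ 1) (Γ.inv_mem b_Γ)), by simp [c_eq, bb], by simp [c_eq, bb]⟩

theorem comm_b : ⁅b, bb 1⁆ = at1 0 c := by
  rw [commutatorElement_def, bb_eq, at1_def]
  conv_lhs => rw [b_eq]
  rw [mk_inv, mk_inv, mk_mul, mk_mul, mk_mul]
  congr 1
  funext i
  rcases X_cases i with rfl | rfl | rfl
  · show bs 0 * bs 2 * (bs 0)⁻¹ * (bs 2)⁻¹ = c
    rfl
  · show bs 1 * bs 0 * (bs 1)⁻¹ * (bs 0)⁻¹ = 1
    simp [bs1]
  · show bs 2 * bs 1 * (bs 2)⁻¹ * (bs 1)⁻¹ = 1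
    simp [bs1]

theorem comm_bc : ⁅b, c⁆ = at1 0 c := by
  rw [← comm_b, c_eq]; simp [commutatorElement_def, mul_assoc]

theorem Nm.atc (v : List X) : ∀ {M : Subgroup W}, Nm M → c ∈ M → atv v c ∈ M := by
  induction v with
  | nil => intro M _ hc; exact hc
  | cons i v ih =>
    intro M h hc
    refine ih (h.comap i) (h.shift ?_ i)
    rw [← comm_bc]
    exact M.mul_mem (h b b_Γ c hc) (M.inv_mem hc)

theorem Nm.comapv (v : List X) : ∀ {M : Subgroup W}, Nm M → Nm (M.comap (atv v)) := by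
  induction v with
  | nil => intro M h; exact h
  | cons i v ih => intro M h; exact ih (h.comap i)

theorem mul_l1 (g h : W) (hh : h.l [] = 0) (j : X) : (g * h).l [j] = g.l [j] + h.l [j] := by
  simp [mul_l, act, hh]

theorem pow_l1 (g : W) (hg : g.l [] = 0) (j : X) (n : ℕ) : (g ^ n).l [j] = n * g.l [j] := by
  induction n with
  | zero => simp
  | succ n ih => rw [pow_succ, mul_l1 _ _ hg, ih]; push_cast; ring

theorem c_l : c.l [0] = -1 ∧ c.l [1] = 1 ∧ c.l [2] = 0 := by decide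

theorem c'_l : (A 1 * c * (A 1)⁻¹).l [0] = 0 ∧ (A 1 * c * (A 1)⁻¹).l [1] = -1 ∧
    (A 1 * c * (A 1)⁻¹).l [2] = 1 := by decide

theorem Nm.lab {M : Subgroup W} (h : Nm M) (hc : c ∈ M) (t : X → X) (ht : ∑ j, t j = 0) :
    ∃ d ∈ K, d ∈ M ∧ ∀ j, d.l [j] = t j := by
  have h2 := K_conj (A_mem 1) c_K
  refine ⟨c ^ (-t 0).val * (A 1 * c * (A 1)⁻¹) ^ (t 2).val,
    K.mul_mem (K.pow_mem c_K _) (K.pow_mem h2 _),
    M.mul_mem (M.pow_mem hc _) (M.pow_mem (h _ (A_Γ 1) _ hc) _), fun j => ?_⟩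
  rw [mul_l1 _ _ (K.pow_mem h2 _).2.1, pow_l1 _ c_K.2.1, pow_l1 _ h2.2.1, ZMod.natCast_zmod_val,
    ZMod.natCast_zmod_val]
  rw [sum_X] at ht
  rcases X_cases j with rfl | rfl | rfl
  · rw [c_l.1, c'_l.1]; ring
  · rw [c_l.2.1, c'_l.2.1]; linear_combination -ht
  · rw [c_l.2.2, c'_l.2.2]; ring

/-- elements supported on a descendant-closed set -/
def R (B : List X → Prop) (hB : ∀ x s, B x → B (x ++ s)) : Subgroup W where
  carrier := {g | ∀ x, ¬ B x → g.l x = 0}
  one_mem' _ _ := rfl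
  mul_mem' {g h} hg hh x hx := by
    rw [mul_l, act_fix, hg x hx, hh x hx, add_zero]
    rintro y ⟨s, rfl⟩ _
    exact hh y fun hy => hx (hB _ _ hy)
  inv_mem' {g} hg x hx := by
    have := inv_act g x
    rw [act_fix, hg x hx, neg_zero] at this
    · exact this
    rintro y ⟨s, rfl⟩ _
    exact hg y fun hy => hx (hB _ _ hy)

/-- level stabilisers -/
def St (n : ℕ) : Subgroup W := R (fun x => n ≤ x.length) fun x s h => by simp; omega

theorem mem_St {n : ℕ} {g : W} : g ∈ St n ↔ ∀ x : List X, x.length < n → g.l x = 0 := by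
  simp [St, R]

theorem St_act {n : ℕ} {g : W} (hg : g ∈ St n) {x : List X} (hx : x.length ≤ n) : act x g = x :=
  act_fix _ _ fun y _ hy => mem_St.1 hg y (by omega)

theorem St_mul {n : ℕ} {h : W} (hh : h ∈ St n) (g : W) {x : List X} (hx : x.length ≤ n) :
    (g * h).l x = g.l x + h.l x := by rw [mul_l, St_act hh hx]

theorem St_inv {n : ℕ} {h : W} (hh : h ∈ St n) {x : List X} (hx : x.length ≤ n) :
    (h⁻¹).l x = - h.l x := by rw [← inv_act, St_act hh hx]

section approx
variable (C : Subgroup W) (B : List X → Prop) (hB : ∀ x s, B x → B (x ++ s))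

/-- good elements -/
def Gd : Subgroup W := K ⊓ R (fun x => ∃ w j, x = w ++ [j] ∧ B w) (by
  rintro x s ⟨w, j, rfl, h⟩
  rcases List.eq_nil_or_concat s with rfl | ⟨s', j', rfl⟩
  · exact ⟨w, j, by simp, h⟩
  · exact ⟨w ++ (j :: s'), j', by simp, hB _ _ h⟩)

theorem sum_zero {n : ℕ} {g : W} (hg : g ∈ K) (hs : g ∈ St (n + 1)) (w : List X)
    (hw : w.length = n) : ∑ j, g.l (w ++ [j]) = 0 := by
  rcases List.eq_nil_or_concat w with rfl | ⟨u, i, rfl⟩
  · exact hg.2.2
  · have := hg.1 u i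
    simp only [D, bt, sec_l, List.append_assoc, List.cons_append, List.nil_append] at this
    rw [mem_St.1 hs (u ++ [i + 1]) (by simp at hw ⊢; omega), sub_zero] at this
    simpa using this

variable (hC : ∀ w, B w → ∀ t : X → X, ∑ j, t j = 0 → ∃ d ∈ K, atv w d ∈ C ∧ ∀ j, d.l [j] = t j)
include hC

theorem step (n : ℕ) (F : Finset (List X)) : ∀ g ∈ Gd B hB, g ∈ St (n + 1) →
    (∀ w, w.length = n → w ∉ F → ∀ j, g.l (w ++ [j]) = 0) →
    ∃ e ∈ C, e⁻¹ * g ∈ Gd B hB ∧ e⁻¹ * g ∈ St (n + 2) := by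
  classical
  induction F using Finset.induction_on with
  | empty =>
    intro g hg hs h
    refine ⟨1, C.one_mem, by simpa using hg, mem_St.2 fun x hx => ?_⟩
    rw [inv_one, one_mul]
    by_cases hl : x.length < n + 1
    · exact mem_St.1 hs x hl
    · rcases List.eq_nil_or_concat x with rfl | ⟨u, i, rfl⟩
      · simp at hl
      · simpa using h u (by simp at hx hl; omega) (by simp) i
  | insert w F _ ih =>
    intro g hg hs h
    by_cases h0 : w.length = n ∧ ∃ j, g.l (w ++ [j]) ≠ 0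
    · obtain ⟨hw, j0, hj0⟩ := h0
      have hBw : B w := by
        by_contra hn
        refine hj0 (hg.2 _ ?_)
        rintro ⟨w', j', he, h'⟩
        exact hn ((List.append_inj' he rfl).1 ▸ h')
      obtain ⟨d, hd, hdC, hdl⟩ := hC w hBw _ (sum_zero hg.1 hs w hw)
      have e1 : atv w d ∈ St (n + 1) := mem_St.2 fun x hx => by
        by_cases hp : w <+: x
        · obtain ⟨s, rfl⟩ := hp
          have : s = [] := List.length_eq_zero_iff.1 (by simp at hx; omega)
          rw [atv_l, this, hd.2.1]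
        · exact atv_l0 _ _ _ hp
      have e2 : atv w d ∈ Gd B hB := ⟨atv_mem hd w, fun x hx => by
        by_cases hp : w <+: x
        · obtain ⟨s, rfl⟩ := hp
          rcases List.eq_nil_or_concat s with rfl | ⟨u, i, rfl⟩
          · rw [atv_l, hd.2.1]
          · exact absurd ⟨w ++ u, i, by simp, hB _ _ hBw⟩ hx
        · exact atv_l0 _ _ _ hp⟩
      obtain ⟨e, he, h1, h2⟩ := ih ((atv w d)⁻¹ * g) ((Gd B hB).mul_mem ((Gd B hB).inv_mem e2) hg)
        ((St _).mul_mem ((St _).inv_mem e1) hs) fun u hu huF j => by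
          rw [St_mul hs _ (by simp [hu]), St_inv e1 (by simp [hu])]
          by_cases huw : u = w
          · subst huw; rw [atv_l, hdl]; simp
          · rw [h u hu (by simp [huw, huF]), atv_l0, neg_zero, add_zero]
            rintro ⟨s, hs⟩
            exact huw (List.append_inj hs (hw.trans hu.symm)).1.symm
      exact ⟨atv w d * e, C.mul_mem hdC he, by simpa [mul_assoc] using h1,
        by simpa [mul_assoc] using h2⟩
    · refine ih g hg hs fun u hu huF j => ?_
      by_cases huw : u = w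
      · subst huw
        by_contra hne
        exact h0 ⟨hu, j, hne⟩
      · exact h u hu (by simp [huw, huF]) j

theorem approx (hcl : IsClosed (C : Set W)) {g : W} (hg : g ∈ Gd B hB) : g ∈ C := by
  have key : ∀ n, ∃ e ∈ C, e⁻¹ * g ∈ Gd B hB ∧ e⁻¹ * g ∈ St (n + 1) := by
    intro n
    induction n with
    | zero =>
      refine ⟨1, C.one_mem, by simpa using hg, mem_St.2 fun x hx => ?_⟩
      have : x = [] := List.length_eq_zero_iff.1 (by omega)
      simp [this, hg.1.2.1]
    | succ n ih =>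
      obtain ⟨e, he, h1, h2⟩ := ih
      obtain ⟨e', he', h3, h4⟩ := step C B hB hC n (List.finite_length_eq X n).toFinset _ h1 h2
        fun w hw hn => absurd (by simpa using hw) hn
      exact ⟨e * e', C.mul_mem he he', by simpa [mul_assoc] using h3,
        by simpa [mul_assoc] using h4⟩
  choose e he _ hs using key
  refine hcl.mem_of_tendsto (tendsto_W (f := e) fun n x hx => ?_) (.of_forall he)
  have := St_mul (hs n) (e n) (x := x) (by omega)
  rw [mul_inv_cancel_left, mem_St.1 (hs n) x (by omega), add_zero] at this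
  exact this.symm

end approx

theorem Nm.K_le {M : Subgroup W} (h : Nm M) (hcl : IsClosed (M : Set W)) (hc : c ∈ M) : K ≤ M := by
  intro k hk
  refine approx M (fun _ => True) (fun _ _ _ => trivial) (fun w _ t ht => ?_) hcl ⟨hk, ?_⟩
  · exact (h.comapv w).lab (h.atc w hc) t ht
  · intro x hx
    rcases List.eq_nil_or_concat x with rfl | ⟨u, i, rfl⟩
    · exact hk.2.1
    · exact absurd ⟨u, i, by simp, trivial⟩ hx

/-- element with prescribed abelianisation -/
def E (p q : X) : W := A p * b ^ q.val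

theorem E_Γ (p q : X) : E p q ∈ Γ := Γ.mul_mem (A_Γ p) (Γ.pow_mem b_Γ _)

@[simp] theorem E_nil (p q : X) : (E p q).l [] = p := by
  have : ∀ n : ℕ, (b ^ n).l [] = 0 := fun n => by induction n <;> simp_all [pow_succ]
  simp [E, this]

@[simp] theorem bt_E (p q : X) : bt (E p q) = q := by
  have : ∀ n : ℕ, bt (b ^ n) = n := fun n => by induction n <;> simp_all [pow_succ]
  simp [E, this]

theorem G_le : G ≤ Γ.topologicalClosure := by
  intro g hg
  have hK : K ≤ Γ.topologicalClosure := by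
    refine Nm.K_le (fun x hx n hn => ?_) Γ.isClosed_topologicalClosure
      (Γ.le_topologicalClosure (Γ.mul_mem (bb_Γ 1) (Γ.inv_mem b_Γ)))
    have := Γ.le_topologicalClosure hx
    exact Subgroup.mul_mem _ (Subgroup.mul_mem _ this hn) (Subgroup.inv_mem _ this)
  have h1 := E_Γ (g.l []) (bt g)
  have : g * (E (g.l []) (bt g))⁻¹ ∈ K := ⟨G.mul_mem hg (G.inv_mem (Γ_le h1)), by simp, by simp⟩
  simpa using Subgroup.mul_mem _ (hK this) (Γ.le_topologicalClosure h1)

theorem K_fg : ∃ T : Finset W, (↑T : Set W) ⊆ K ∧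
    K ≤ (Subgroup.closure (T : Set W)).topologicalClosure := by
  classical
  have : Group.FG Γ := (Group.fg_iff_subgroup_fg _).2
    ⟨{A 1, b}, by simp [Γ]⟩
  let φ : W →* Multiplicative (X × X) :=
    { toFun := fun g => Multiplicative.ofAdd (g.l [], bt g)
      map_one' := by simp
      map_mul' := fun g h => by simp [← ofAdd_add] }
  have hφ : ∀ g, φ g = 1 ↔ g.l [] = 0 ∧ bt g = 0 := fun g => by
    simp [φ, Prod.ext_iff]
  have h1 : Group.FG (φ.comp Γ.subtype).ker := Subgroup.fg_of_index_ne_zero _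
  obtain ⟨T', hT⟩ := (Group.fg_iff_subgroup_fg _).1 h1
  let T : Finset W := T'.image Γ.subtype
  have hm : ∀ g, g ∈ Subgroup.closure (T : Set W) ↔ g ∈ Γ ∧ g.l [] = 0 ∧ bt g = 0 := fun g => by
    rw [Finset.coe_image, ← MonoidHom.map_closure, hT, ← hφ]; simp [and_comm]
  refine ⟨T, fun t ht => ?_, fun k hk => ?_⟩
  · have := (hm t).1 (Subgroup.subset_closure ht)
    exact ⟨Γ_le this.1, this.2⟩
  · have ho : IsOpen {g : W | g.l [] = 0 ∧ bt g = 0} :=
      ((isOpen_discrete {0}).preimage (cont_l [])).inter ((isOpen_discrete {0}).preimage cont_bt)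
    refine closure_mono ?_ (ho.inter_closure ⟨hk.2, G_le hk.1⟩)
    intro g hg
    exact (hm g).2 ⟨hg.2, hg.1⟩

theorem K_repl {g : W} (hg : g ∈ G) (i : X) : ∃ x ∈ K, sec x [i] = g := by
  let p := g.l []
  let q := bt g
  refine ⟨mk 0 fun j => if j = i then g else if j = i + 1 then E q (-p - q) else E (-p - q) p,
    ⟨mk_mem (fun j => ?_) fun j => ?_, rfl, ?_⟩, by simp⟩
  · split_ifs
    exacts [hg, Γ_le (E_Γ _ _), Γ_le (E_Γ _ _)]
  · obtain ⟨d, rfl⟩ : ∃ d, j = i + d := ⟨j - i, by ring⟩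
    simp only [add_assoc, add_eq_left, add_right_inj]
    rcases X_cases d with rfl | rfl | rfl
    · rw [if_pos rfl, if_neg (by decide), if_pos (by decide), E_nil]
    · rw [if_neg (by decide), if_pos rfl, if_neg (by decide), if_neg (by decide), E_nil, bt_E]
    · rw [if_neg (by decide), if_neg (by decide), if_pos (by decide), bt_E]
  · rw [bt, ← Equiv.sum_comp (Equiv.addLeft i), sum_X]
    simp only [mk_cons, Equiv.coe_addLeft, add_eq_left, add_right_inj]
    rw [if_pos trivial, if_neg (by decide), if_pos trivial, if_neg (by decide), if_neg (by decide),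
      E_nil, E_nil]
    ring

theorem G_trans (s : List X) : ∀ t : List X, s.length = t.length → ∃ g ∈ G, act s g = t := by
  induction s with
  | nil => intro t h; exact ⟨1, G.one_mem, (List.length_eq_zero_iff.1 h.symm).symm⟩
  | cons i s ih =>
    intro t h
    cases t with
    | nil => simp at h
    | cons j t =>
      obtain ⟨g, hg, rfl⟩ := ih t (by simpa using h)
      obtain ⟨x, hx, rfl⟩ := K_repl hg i
      exact ⟨A (j - i) * x, G.mul_mem (A_mem _) hx.1, by simp [sec_mul1, act, hx.2.1]⟩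

theorem K_trans (e : X) (s t : List X) (h : s.length = t.length) :
    ∃ k ∈ K, act (e :: s) k = e :: t := by
  obtain ⟨g, hg, rfl⟩ := G_trans s t h
  obtain ⟨x, hx, rfl⟩ := K_repl hg e
  exact ⟨x, hx, by simp [act, hx.2.1]⟩

theorem deep {M : Subgroup W} (hcl : IsClosed (M : Set W)) (h : ∀ f ∈ K, ∀ g ∈ K, ⁅f, g⁆ ∈ M)
    (i j : X) {k : W} (hk : k ∈ K) : atv [i, j] k ∈ M := by
  let N : Subgroup W := ⨅ g : Γ, M.comap (MulAut.conj (g : W)).toMonoidHom
  have hN : ∀ n, n ∈ N ↔ ∀ g ∈ Γ, g * n * g⁻¹ ∈ M := fun n => by simp [N, Subgroup.mem_iInf]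
  have h1 : Nm N := fun g hg n hn => (hN _).2 fun g' hg' => by
    simpa [mul_assoc] using (hN _).1 hn _ (Γ.mul_mem hg' hg)
  have h2 : IsClosed (N : Set W) := by
    have : (N : Set W) = ⋂ g : Γ, (fun n => (g : W) * n * (g : W)⁻¹) ⁻¹' M := by
      ext n; simp [hN]
    rw [this]
    exact isClosed_iInter fun g => hcl.preimage (by fun_prop)
  have h3 : at1 0 (at1 0 c) ∈ N := by
    obtain ⟨x, hx, hs⟩ := K_repl b_mem 0
    have : ⁅x, at1 0 c⁆ = at1 0 (at1 0 c) := by
      rw [commutatorElement_def, mul_assoc, mul_assoc, ← mul_assoc, ← mul_assoc, conj_at1, hx.2.1,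
        add_zero, hs, ← map_inv, ← map_mul, ← comm_bc, commutatorElement_def]
    rw [← this, hN]
    intro g hg
    rw [conjugate_commutatorElement]
    exact h _ (K_conj (Γ_le hg) hx) _ (K_conj (Γ_le hg) (at1_mem c_K 0))
  have h4 : atv [i, j] c ∈ N := h1.shift ((h1.comap 0).shift h3 j) i
  have := (h1.comapv [i, j]).K_le (h2.preimage (cont_atv _)) h4 hk
  simpa using (hN _).1 this 1 Γ.one_mem

end Pool.Agent.H64.ProP
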