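import Pool.Agent.H64.ProP2

set_option autoImplicit false

namespace Pool.Agent.H64.ProP

open scoped commutatorElement

/-- the invariant of closed subnormal subgroups -/
def Inv (H : Subgroup W) : Prop := ∃ m, ∀ v : List X, v.length = m →
  (∀ k ∈ K, atv v k ∈ H) ∨ (∀ h ∈ H, ∀ s, act (v ++ s) h = v ++ s)

theorem Inv_G : Inv G := ⟨0, fun v _ => Or.inl fun _ hk => (atv_mem hk v).1⟩

theorem comm_mem {L H : Subgroup W} (hn : ∀ h ∈ H, ∀ l ∈ L, h * l * h⁻¹ ∈ L) {y : List X}
    (hy : ∀ k ∈ K, atv y k ∈ H) {l : W} (hl : l ∈ L) (hm : act y l ≠ y) {f g : W} (hf : f ∈ K)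
    (hg : g ∈ K) : atv y ⁅f, g⁆ ∈ L := by
  have h1 : atv y f * (l * atv y f⁻¹ * l⁻¹) ∈ L := by
    simpa [mul_assoc] using L.mul_mem (hn _ (hy f hf) l hl) (L.inv_mem hl)
  rw [conj_atv] at h1
  generalize sec l y * f⁻¹ * (sec l y)⁻¹ = z at h1
  have hc := comm_atv (act y l) y z g (by simp) hm
  have h2 := L.mul_mem h1 (hn _ (hy g hg) _ (L.inv_mem h1))
  rw [map_commutatorElement, commutatorElement_def]
  convert h2 using 1
  simp only [mul_assoc, mul_inv_rev, mul_right_inj]
  rw [← mul_assoc (atv (act y l) z), hc.eq]; simp [mul_assoc]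

theorem Inv.step {L H : Subgroup W} (hH : Inv H) (hcl : IsClosed (L : Set W)) (hle : L ≤ H)
    (hn : ∀ h ∈ H, ∀ l ∈ L, h * l * h⁻¹ ∈ L) : Inv L := by
  obtain ⟨m, hm⟩ := hH
  have h1 : ∀ᶠ n in Filter.atTop, ∀ v ∈ {v : List X | v.length = m + 1},
      (∀ h ∈ L, ∀ s, act (v ++ s) h = v ++ s) ∨
        ∃ l ∈ L, ∃ s : List X, s.length ≤ n ∧ act (v ++ s) l ≠ v ++ s := by
    rw [Filter.eventually_all_finite (List.finite_length_eq X (m + 1))]
    intro v _
    by_cases h : ∀ h ∈ L, ∀ s, act (v ++ s) h = v ++ s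
    · exact .of_forall fun _ => Or.inl h
    · push Not at h
      obtain ⟨l, hl, s, hs⟩ := h
      filter_upwards [Filter.eventually_ge_atTop s.length] with n hn
      exact Or.inr ⟨l, hl, s, hn, hs⟩
  obtain ⟨n, hn'⟩ := h1.exists
  refine ⟨m + 1 + n + 2, fun y hy => ?_⟩
  obtain ⟨u, e, t, i, j, hu, ht, rfl⟩ : ∃ (u : List X) (e : X) (t : List X) (i j : X),
      u.length = m ∧ t.length = n ∧ y = u ++ e :: t ++ [i, j] := by
    obtain ⟨u, r, rfl, hu⟩ : ∃ u r, y = u ++ r ∧ u.length = m :=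
      ⟨y.take m, y.drop m, by simp, by simp; omega⟩
    obtain ⟨e, r, rfl⟩ := List.exists_cons_of_length_pos (l := r) (by simp at hy; omega)
    obtain ⟨t, r, rfl, ht⟩ : ∃ t r', r = t ++ r' ∧ t.length = n :=
      ⟨r.take n, r.drop n, by simp, by simp at hy ⊢; omega⟩
    obtain ⟨i, j, rfl⟩ := List.length_eq_two.1 (show r.length = 2 by simp at hy; omega)
    exact ⟨u, e, t, i, j, hu, ht, by simp⟩
  rcases hn' (u ++ [e]) (by simp [hu]) with h | ⟨l, hl, s, hs, hmv⟩
  · exact Or.inr fun g hg s => by simpa using h g hg (t ++ [i, j] ++ s)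
  left
  have hK : ∀ k ∈ K, atv u k ∈ H := (hm u hu).resolve_right fun h =>
    hmv (by simpa using h l (hle hl) (e :: s))
  obtain ⟨t1, t2, rfl, h12⟩ : ∃ t1 t2, t = t1 ++ t2 ∧ t1.length = s.length :=
    ⟨t.take s.length, t.drop s.length, by simp, by simp; omega⟩
  obtain ⟨k, hk, hks⟩ := K_trans e s t1 h12.symm
  have hmv2 : act (u ++ e :: (t1 ++ t2)) (atv u k * l * (atv u k)⁻¹) ≠ u ++ e :: (t1 ++ t2) := by
    intro h
    have e1 : u ++ e :: (t1 ++ t2) = act (u ++ e :: s) (atv u k) ++ t2 := by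
      rw [act_atv, hks]; simp
    rw [e1, act_append] at h
    have h2 := (List.append_inj h (by simp)).1
    rw [← act_mul, inv_mul_cancel_right, act_mul] at h2
    have h3 := congrArg (fun x => act x (atv u k)⁻¹) h2
    simp only [← act_mul, inv_mul_cancel, inv_mul_cancel_left, act_one] at h3
    exact hmv (by simpa using h3)
  intro k' hk'
  rw [atv_append]
  refine deep (M := L.comap (atv (u ++ e :: (t1 ++ t2)))) (hcl.preimage (cont_atv _))
    (fun f hf g hg => comm_mem hn (fun k hk => ?_) (hn _ (hK k hk) l hl) hmv2 hf hg) i j hk'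
  rw [atv_append]
  exact hK _ (atv_mem hk _)

theorem Inv.fg {H : Subgroup W} (hH : Inv H) (hcl : IsClosed (H : Set W)) (hG : H ≤ G) :
    ∃ S : Finset W, (Subgroup.closure (S : Set W)).topologicalClosure = H := by
  classical
  obtain ⟨m, hm⟩ := hH
  obtain ⟨T, hTK, hT⟩ := K_fg
  have : Finite {x : List X // x.length < m + 2} := List.finite_length_lt X (m + 2)
  let ρ : H → {x : List X // x.length < m + 2} → X := fun h x => (h : W).l x
  let S1 : Set W := Set.range fun φ : Set.range ρ => ((Classical.choose φ.2 : H) : W)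
  let U : Set (List X) := {v | v.length = m ∧ ∀ k ∈ K, atv v k ∈ H}
  have hU : U.Finite := (List.finite_length_eq X m).subset fun v hv => hv.1
  let S2 : Set W := ⋃ v ∈ U, atv v '' T
  have hS : (S1 ∪ S2).Finite :=
    (Set.finite_range _).union (hU.biUnion fun v _ => T.finite_toSet.image _)
  refine ⟨hS.toFinset, ?_⟩
  rw [hS.coe_toFinset]
  set C := (Subgroup.closure (S1 ∪ S2)).topologicalClosure
  have hC : S1 ∪ S2 ⊆ C := Subgroup.subset_closure.trans (Subgroup.le_topologicalClosure _)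
  refine le_antisymm (Subgroup.topologicalClosure_minimal _ ((Subgroup.closure_le _).2 ?_) hcl) ?_
  · rintro x (⟨φ, rfl⟩ | hx)
    · exact Subtype.prop _
    · simp only [S2, Set.mem_iUnion] at hx
      obtain ⟨v, hv, t, ht, rfl⟩ := hx
      exact hv.2 t (hTK ht)
  intro h hh
  have hKC : ∀ v ∈ U, K ≤ C.comap (atv v) := fun v hv =>
    hT.trans (Subgroup.topologicalClosure_minimal _ ((Subgroup.closure_le _).2 fun t ht =>
      hC (Or.inr (Set.mem_biUnion hv ⟨t, ht, rfl⟩)))
      ((Subgroup.isClosed_topologicalClosure _).preimage (cont_atv v)))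
  obtain ⟨r, hrC, hrH, hr⟩ : ∃ r ∈ C, r ∈ H ∧ ∀ x : List X, x.length < m + 2 → r.l x = h.l x := by
    let φ : Set.range ρ := ⟨ρ ⟨h, hh⟩, _, rfl⟩
    exact ⟨_, hC (Or.inl ⟨φ, rfl⟩), Subtype.prop _, fun x hx =>
      congrFun (Classical.choose_spec φ.2) ⟨x, hx⟩⟩
  have hagree : ∀ x : List X, x.length < m + 2 → act x r = act x h := by
    intro x
    induction x using List.reverseRecOn with
    | nil => intro _; rfl
    | append_singleton x i ih =>
      intro hx
      simp at hx
      rw [act_snoc, act_snoc, ih (by omega), hr x (by omega)]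
  have he : r⁻¹ * h ∈ St (m + 2) := mem_St.2 fun x hx => by
    rw [mul_l, ← hagree x hx, inv_act, hr x hx, neg_add_cancel]
  have heH := H.mul_mem (H.inv_mem hrH) hh
  have : r⁻¹ * h ∈ C := by
    refine approx C (fun w => ∃ v ∈ U, v <+: w)
      (fun x s ⟨v, hv, hp⟩ => ⟨v, hv, hp.trans (List.prefix_append _ _)⟩) ?_
      (Subgroup.isClosed_topologicalClosure _) ⟨⟨hG heH, mem_St.1 he _ (by simp), ?_⟩, ?_⟩
    · rintro w ⟨v, hv, z, rfl⟩ t ht
      obtain ⟨d, hd, -, hl⟩ := Nm.lab (M := K) (fun g hg n hn => K_conj (Γ_le hg) hn) c_K t ht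
      exact ⟨d, hd, by rw [atv_append]; exact hKC v hv (atv_mem hd z), hl⟩
    · exact Finset.sum_eq_zero fun j _ => mem_St.1 he _ (by simp)
    · intro x hx
      by_cases hl : x.length < m + 2
      · exact mem_St.1 he x hl
      obtain ⟨v, r', rfl, hv⟩ : ∃ v r', x = v ++ r' ∧ v.length = m :=
        ⟨x.take m, x.drop m, by simp, by simp; omega⟩
      rcases hm v hv with h1 | h1
      · rcases List.eq_nil_or_concat r' with rfl | ⟨z, j, rfl⟩
        · simp at hl; omega
        · exact absurd ⟨v ++ z, j, by simp, v, ⟨hv, h1⟩, List.prefix_append _ _⟩ hx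
      · have h2 := h1 _ heH (r' ++ [0])
        rw [← List.append_assoc, act_snoc, h1 _ heH] at h2
        simpa using h2
  simpa using C.mul_mem hrC this

theorem pow_St (g : W) (n : ℕ) : g ^ 3 ^ n ∈ St n := by
  induction n with
  | zero => exact mem_St.2 fun x hx => by simp at hx
  | succ n ih =>
    refine mem_St.2 fun x hx => ?_
    rw [pow_succ, pow_mul]
    generalize g ^ 3 ^ n = h at ih
    rw [pow_three', St_mul ih _ (by omega), St_mul ih _ (by omega)]
    generalize h.l x = r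
    revert r; decide

theorem pow_tendsto (g : W) : Filter.Tendsto (fun n => g ^ 3 ^ n) Filter.atTop (nhds 1) :=
  tendsto_W fun n x hx => mem_St.1 (pow_St g n) x hx

theorem atv_inj (v : List X) : Function.Injective (atv v) := fun f g h => by
  rw [← sec_atv v f, h, sec_atv]

theorem K_infinite : Infinite K := by
  rw [← not_finite_iff_infinite]
  intro _
  let f : K → K := fun k => ⟨atv [0] k, atv_mem k.2 _⟩
  have hf : Function.Injective f := fun x y h => Subtype.ext (atv_inj _ (congrArg Subtype.val h))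
  obtain ⟨k, hk⟩ := Finite.injective_iff_surjective.1 hf ⟨c, c_K⟩
  have := congrArg (fun z : K => (z : W).l [1]) hk
  simp only [f] at this
  rw [c_l.2.1, atv_l0 _ _ _ (by decide)] at this
  exact absurd this (by decide)

/-- the chain -/
def ch : ℕ → Subgroup W
  | 0 => G
  | k + 1 => K.map (atv (List.replicate k 0))

theorem ch_closed (k : ℕ) : IsClosed (ch k : Set W) := by
  cases k with
  | zero => exact G_closed
  | succ k => exact (K_closed.isCompact.image (cont_atv _)).isClosed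

theorem ch_le_G (k : ℕ) : ch k ≤ G := by
  cases k with
  | zero => exact le_rfl
  | succ k => rintro _ ⟨x, hx, rfl⟩; exact (atv_mem hx _).1

theorem ch_succ (k : ℕ) :
    ch (k + 2) = (K.map (atv [0])).map (atv (List.replicate k 0)) := by
  rw [ch, Subgroup.map_map, List.replicate_succ']
  congr 1; ext1 g; exact atv_append _ _ _

theorem ch_le (k : ℕ) : ch (k + 1) ≤ ch k := by
  cases k with
  | zero => exact ch_le_G 1
  | succ k =>
    rw [ch_succ]
    refine Subgroup.map_mono ?_
    rintro _ ⟨x, hx, rfl⟩; exact atv_mem hx _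

theorem ch_norm (k : ℕ) : ∀ g ∈ ch k, ∀ n ∈ ch (k + 1), g * n * g⁻¹ ∈ ch (k + 1) := by
  cases k with
  | zero => rintro g hg _ ⟨x, hx, rfl⟩; exact ⟨_, K_conj hg hx, rfl⟩
  | succ k =>
    rw [ch_succ]
    rintro _ ⟨g, hg, rfl⟩ _ ⟨_, ⟨x, hx, rfl⟩, rfl⟩
    refine ⟨g * atv [0] x * g⁻¹, ⟨_, K_conj (sec_mem hg.1 [0]) hx, ?_⟩, by simp⟩
    rw [conj_atv]; simp [act, hg.2.1]

theorem ch_index (k : ℕ) : (ch (k + 2)).relIndex (ch (k + 1)) = 0 := by
  rw [ch_succ, ch, Subgroup.relIndex_map_map_of_injective _ _ (atv_inj _)]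
  have := K_infinite
  have : Infinite (K ⧸ (K.map (atv [0])).subgroupOf K) := by
    refine Infinite.of_injective (fun k : K => ((⟨atv [1] k, atv_mem k.2 _⟩ : K) : K ⧸ _))
      fun x y h => ?_
    obtain ⟨z, -, hz⟩ := QuotientGroup.eq.1 h
    have h2 : atv [0] z = atv [1] ((x : W)⁻¹ * y) := by simpa using hz
    have h3 := congrArg (sec · [1]) h2
    simp only [sec_atv] at h3
    have : sec (atv [0] z) [1] = 1 := rfl
    exact Subtype.ext (inv_mul_eq_one.1 (h3.symm.trans this))
  exact Nat.card_eq_zero_of_infinite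

instance : CompactSpace G := isCompact_iff_compactSpace.1 G_closed.isCompact

theorem pro3 (N : Subgroup G) (ho : IsOpen (N : Set G)) (hn : N.Normal) :
    ∃ k : ℕ, N.index = 3 ^ k := by
  have : Finite (G ⧸ N) := N.quotient_finite_of_isOpen ho
  have : Fact (Nat.Prime 3) := ⟨Nat.prime_three⟩
  refine IsPGroup.iff_card.1 fun q => ?_
  obtain ⟨g, rfl⟩ := QuotientGroup.mk_surjective q
  have h1 : Filter.Tendsto (fun n => g ^ 3 ^ n) Filter.atTop (nhds 1) :=
    tendsto_subtype_rng.2 (pow_tendsto (g : W))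
  obtain ⟨n, hn⟩ := (h1.eventually (ho.mem_nhds N.one_mem)).exists
  exact ⟨n, by rw [← QuotientGroup.mk_pow, QuotientGroup.eq_one_iff]; exact hn⟩

theorem map_closed {H : Subgroup G} (h : IsClosed (H : Set G)) :
    IsClosed (H.map G.subtype : Set W) :=
  G_closed.isClosedEmbedding_subtypeVal.isClosedMap _ h

theorem subn_fg (H : Subgroup G) (hc : IsClosed (H : Set G))
    (h : ∃ n : ℕ, ∃ s : Fin (n + 1) → Subgroup G, s 0 = H ∧ s (Fin.last n) = ⊤ ∧
      ∀ i : Fin n, IsClosed (s i.castSucc : Set G) ∧ s i.castSucc ≤ s i.succ ∧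
        ((s i.castSucc).subgroupOf (s i.succ)).Normal) :
    ∃ S : Finset G, (Subgroup.closure (S : Set G)).topologicalClosure = H := by
  classical
  obtain ⟨n, s, rfl, hl, hs⟩ := h
  have key : ∀ i, Inv ((s i).map G.subtype) := by
    intro i
    induction i using Fin.reverseInduction with
    | last => rw [hl, ← MonoidHom.range_eq_map, Subgroup.range_subtype]; exact Inv_G
    | cast i ih =>
      obtain ⟨h1, h2, h3⟩ := hs i
      refine ih.step (map_closed h1) (Subgroup.map_mono h2) ?_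
      rintro _ ⟨g, hg, rfl⟩ _ ⟨l, hl, rfl⟩
      exact ⟨g * l * g⁻¹, (Subgroup.normal_subgroupOf_iff h2).1 h3 l g hl hg, rfl⟩
  obtain ⟨S, hS⟩ := (key 0).fg (map_closed hc) (Subgroup.map_subtype_le _)
  have hSG : ∀ x ∈ S, x ∈ G := fun x hx => Subgroup.map_subtype_le (s 0)
    (hS ▸ Subgroup.le_topologicalClosure _ (Subgroup.subset_closure hx))
  refine ⟨S.preimage Subtype.val Subtype.val_injective.injOn, ?_⟩
  have h1 : (Subgroup.closure ((S.preimage Subtype.val Subtype.val_injective.injOn : Finset G) :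
      Set G)).map G.subtype = Subgroup.closure (S : Set W) := by
    rw [MonoidHom.map_closure]; congr 1
    ext x; simp only [Finset.coe_preimage, Set.mem_image, Set.mem_preimage, Finset.mem_coe]
    exact ⟨by rintro ⟨y, hy, rfl⟩; exact hy, fun hx => ⟨⟨x, hSG x hx⟩, hx, rfl⟩⟩
  ext g
  have h2 := Topology.IsInducing.subtypeVal.closure_eq_preimage_closure_image
    ((Subgroup.closure ((S.preimage Subtype.val Subtype.val_injective.injOn : Finset G) :
      Set G) : Subgroup G) : Set G)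
  have h3 : g ∈ s 0 ↔ (g : W) ∈ (s 0).map G.subtype :=
    (Subgroup.mem_map_iff_mem (f := G.subtype) Subtype.val_injective).symm
  rw [h3, ← hS, ← h1]
  exact Set.ext_iff.1 h2 g

theorem unbounded (N : ℕ) : ∃ n : ℕ, ∃ s : Fin (n + 1) → Subgroup G, s 0 = ⊥ ∧ s (Fin.last n) = ⊤ ∧
    (∀ i : Fin n, IsClosed (s i.castSucc : Set G) ∧ s i.castSucc ≤ s i.succ ∧
      ((s i.castSucc).subgroupOf (s i.succ)).Normal) ∧
    N < (Finset.univ.filter (fun i : Fin n => (s i.castSucc).relIndex (s i.succ) = 0)).card := by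
  let s : Fin (N + 3 + 1) → Subgroup G := fun i =>
    if (i : ℕ) = 0 then ⊥ else (ch (N + 3 - i)).subgroupOf G
  have hs : ∀ i : Fin (N + 3), (i : ℕ) ≠ 0 → s i.castSucc = (ch (N + 2 - i + 1)).subgroupOf G ∧
      s i.succ = (ch (N + 2 - i)).subgroupOf G := fun i hi => by
    have := i.2
    simp only [s, Fin.val_castSucc, Fin.val_succ, hi, if_false, Nat.succ_ne_zero]
    constructor <;> congr 2 <;> omega
  refine ⟨N + 3, s, rfl, by simp [s, ch], fun i => ?_, ?_⟩
  · by_cases hi : (i : ℕ) = 0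
    · have : s i.castSucc = ⊥ := if_pos hi
      rw [this]
      exact ⟨by simpa using isClosed_singleton, bot_le, by simpa using inferInstance⟩
    · rw [(hs i hi).1, (hs i hi).2]
      have hle : (ch (N + 2 - i + 1)).subgroupOf G ≤ (ch (N + 2 - i)).subgroupOf G :=
        fun x hx => ch_le _ hx
      exact ⟨(ch_closed (N + 2 - i + 1)).preimage continuous_subtype_val, hle,
        (Subgroup.normal_subgroupOf_iff hle).2 fun l g hl hg => ch_norm _ g hg l hl⟩
  · refine lt_of_lt_of_le (by simp : N < (Finset.univ : Finset (Fin (N + 1))).card)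
      (Finset.card_le_card_of_injOn (fun j => ⟨j + 1, by omega⟩) (fun j _ => ?_) fun x _ y _ h =>
        Fin.ext (by simpa using h))
    have := j.2
    simp only [Finset.coe_filter, Finset.mem_univ, true_and, Set.mem_setOf_eq]
    rw [(hs _ (by simp)).1, (hs _ (by simp)).2, Subgroup.relIndex_subgroupOf (ch_le_G _)]
    have e : N + 2 - (j + 1) = N - j + 1 := by omega
    simp only [e]
    exact ch_index _

end Pool.Agent.H64.ProP
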