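import Mathlib

/-! Springer's theorem on quadratic forms under odd degree extensions. -/

namespace H64.Psi

open Polynomial

section Springer
variable {K : Type*} [Field K] {ι : Type*} [Fintype ι]

lemma odd_factor (h : K[X]) (h0 : h ≠ 0) (ho : Odd h.natDegree) :
    ∃ P : K[X], Irreducible P ∧ P ∣ h ∧ Odd P.natDegree := by
  induction h using WfDvdMonoid.induction_on_irreducible with
  | zero => exact absurd rfl h0
  | unit u hu =>
    rw [Polynomial.natDegree_eq_zero_of_isUnit hu] at ho
    exact absurd ho (by decide)
  | mul a i ha hi ih =>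
    rw [natDegree_mul hi.ne_zero ha] at ho
    rcases Nat.even_or_odd i.natDegree with he | hodd
    · have : Odd a.natDegree := by
        rcases Nat.even_or_odd a.natDegree with h1 | h1
        · exact absurd ho (Nat.not_odd_iff_even.2 (he.add h1))
        · exact h1
      obtain ⟨P, hP, hd, hO⟩ := ih ha this
      exact ⟨P, hP, hd.mul_left i, hO⟩
    · exact ⟨i, hi, dvd_mul_right i a, hodd⟩

noncomputable def qp (B : ι → ι → K) (v : ι → K[X]) : K[X] :=
  ∑ i, ∑ j, C (B i j) * (v i * v j)

lemma qp_mul (B : ι → ι → K) (p : K[X]) (u : ι → K[X]) :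
    qp B (fun i => p * u i) = p * p * qp B u := by
  unfold qp
  rw [Finset.mul_sum]
  refine Finset.sum_congr rfl fun i _ => ?_
  rw [Finset.mul_sum]
  refine Finset.sum_congr rfl fun j _ => ?_
  ring

lemma qp_natDegree (B : ι → ι → K) (w : ι → K[X]) (e : ℕ) (hw : ∀ i, (w i).natDegree ≤ e) :
    (qp B w).natDegree ≤ e + e := by
  unfold qp
  refine natDegree_sum_le_of_forall_le _ _ fun i _ => ?_
  refine natDegree_sum_le_of_forall_le _ _ fun j _ => ?_
  refine (natDegree_C_mul_le _ _).trans ?_
  exact natDegree_mul_le.trans (add_le_add (hw i) (hw j))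

lemma qp_coeff (B : ι → ι → K) (w : ι → K[X]) (e : ℕ) (hw : ∀ i, (w i).natDegree ≤ e) :
    (qp B w).coeff (e + e) = ∑ i, ∑ j, B i j * ((w i).coeff e * (w j).coeff e) := by
  unfold qp
  rw [finset_sum_coeff]
  refine Finset.sum_congr rfl fun i _ => ?_
  rw [finset_sum_coeff]
  refine Finset.sum_congr rfl fun j _ => ?_
  rw [coeff_C_mul, coeff_mul_add_eq_of_natDegree_le (hw i) (hw j)]

lemma qp_mod (B : ι → ι → K) (P : K[X]) (v : ι → K[X]) :
    P ∣ qp B v - qp B (fun i => v i % P) := by
  unfold qp
  rw [← Finset.sum_sub_distrib]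
  refine Finset.dvd_sum fun i _ => ?_
  rw [← Finset.sum_sub_distrib]
  refine Finset.dvd_sum fun j _ => ?_
  have h1 := EuclideanDomain.div_add_mod (v i) P
  have h2 := EuclideanDomain.div_add_mod (v j) P
  refine ⟨C (B i j) * ((v i / P) * v j + (v i % P) * (v j / P)), ?_⟩
  linear_combination (-(C (B i j) * v j)) * h1 - (C (B i j) * (v i % P)) * h2

lemma springer_poly (B : ι → ι → K)
    (han : ∀ c : ι → K, ∑ i, ∑ j, B i j * (c i * c j) = 0 → c = 0) (n : ℕ) :
    ∀ P : K[X], P.natDegree = n → Irreducible P → Odd n → ∀ v : ι → K[X],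
      P ∣ qp B v → ∀ i, P ∣ v i := by
  induction n using Nat.strong_induction_on with
  | _ n ih =>
  intro P hPn hP hodd
  have inner : ∀ e : ℕ, ∀ w : ι → K[X], (∀ i, (w i).natDegree ≤ e) → e < n →
      P ∣ qp B w → w = 0 := by
    intro e
    induction e using Nat.strong_induction_on with
    | _ e ihe =>
    intro w hw hen hd
    by_cases hc : (fun i => (w i).coeff e) = 0
    · rcases Nat.eq_zero_or_pos e with h0 | hpos
      · funext i
        have h1 := hw i
        have h2 : (w i).coeff e = 0 := congrFun hc i
        subst h0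
        rw [eq_C_of_natDegree_le_zero h1, h2]
        simp
      · refine ihe (e - 1) (by omega) w (fun i => ?_) (by omega) hd
        have h2 : (w i).coeff e = 0 := congrFun hc i
        have h1 := hw i
        by_contra hlt
        have h3 : (w i).natDegree = e := by omega
        have h4 : w i ≠ 0 := by
          intro h; rw [h] at h3; simp at h3; omega
        apply h4
        rw [← leadingCoeff_eq_zero, leadingCoeff, h3, h2]
    · have hne : (qp B w).coeff (e + e) ≠ 0 := by
        rw [qp_coeff B w e hw]
        intro h
        exact hc (han _ h)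
      have hdeg : (qp B w).natDegree = e + e :=
        le_antisymm (qp_natDegree B w e hw) (le_natDegree_of_ne_zero hne)
      obtain ⟨h, hh⟩ := hd
      have hq0 : qp B w ≠ 0 := by
        intro h; rw [h] at hne; simp at hne
      have hh0 : h ≠ 0 := by
        rintro rfl; simp at hh; exact hq0 hh
      have hsum : n + h.natDegree = e + e := by
        rw [← hdeg, hh, natDegree_mul hP.ne_zero hh0, hPn]
      have hho : Odd h.natDegree := by
        rcases Nat.even_or_odd h.natDegree with h1 | h1
        · have := hodd.add_even h1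
          rw [hsum] at this
          exact absurd this (Nat.not_odd_iff_even.2 ⟨e, rfl⟩)
        · exact h1
      obtain ⟨P', hP', hd', hO'⟩ := odd_factor h hh0 hho
      have hle : P'.natDegree ≤ h.natDegree := natDegree_le_of_dvd hd' hh0
      have hlt : P'.natDegree < n := by omega
      have hall := ih _ hlt P' rfl hP' hO' w (by rw [hh]; exact hd'.mul_left P)
      choose u hu using hall
      have hwu : w = fun i => P' * u i := funext hu
      have hpos : 0 < P'.natDegree := hO'.pos
      have he : 0 < e := by omega
      have hdu : ∀ i, (u i).natDegree ≤ e - 1 := by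
        intro i
        by_cases h0 : u i = 0
        · rw [h0]; simp
        · have := hw i
          rw [hu i, natDegree_mul hP'.ne_zero h0] at this
          omega
      have hPu : P ∣ qp B u := by
        have h1 : P ∣ P' * P' * qp B u := by
          rw [← qp_mul, ← hwu, hh]; exact dvd_mul_right P h
        have hprime := hP.prime
        have hn : ¬ P ∣ P' := by
          intro h2
          have := natDegree_le_of_dvd h2 hP'.ne_zero
          omega
        rcases hprime.dvd_or_dvd h1 with h2 | h2
        · rcases hprime.dvd_or_dvd h2 with h3 | h3 <;> exact absurd h3 hn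
        · exact h2
      have := ihe (e - 1) (by omega) u hdu (by omega) hPu
      rw [hwu, this]
      funext i; simp
  intro v hv i
  have hnpos : 0 < n := hodd.pos
  have h1 : P ∣ qp B (fun i => v i % P) := by
    have := (dvd_sub hv (qp_mod B P v))
    simpa using this
  have h2 := inner (n - 1) (fun i => v i % P) (fun i => by
    have h3 : (v i % P).natDegree < P.natDegree :=
      natDegree_mod_lt _ (by omega)
    omega) (by omega) h1
  exact EuclideanDomain.mod_eq_zero.1 (congrFun h2 i)

theorem springer {L : Type*} [Field L] [Algebra K L] [FiniteDimensional K L]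
    [Algebra.IsSeparable K L] (hodd : Odd (Module.finrank K L)) (B : ι → ι → K)
    (v : ι → L) (hv : v ≠ 0) (hq : ∑ i, ∑ j, algebraMap K L (B i j) * (v i * v j) = 0) :
    ∃ c : ι → K, c ≠ 0 ∧ ∑ i, ∑ j, B i j * (c i * c j) = 0 := by
  by_contra hcon
  have han : ∀ c : ι → K, ∑ i, ∑ j, B i j * (c i * c j) = 0 → c = 0 := by
    intro c hc
    by_contra h
    exact hcon ⟨c, h, hc⟩
  let pb := Field.powerBasisOfFiniteOfSeparable K L
  choose f hf using fun i => pb.exists_eq_aeval' (v i)
  have hint : IsIntegral K pb.gen := pb.isIntegral_gen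
  have hdeg : (minpoly K pb.gen).natDegree = Module.finrank K L := by
    rw [pb.natDegree_minpoly, pb.finrank]
  have hd : minpoly K pb.gen ∣ qp B f := by
    apply minpoly.dvd
    unfold qp
    simp only [map_sum, map_mul, aeval_C, ← hf]
    exact hq
  have := springer_poly B han _ (minpoly K pb.gen) hdeg (minpoly.irreducible hint) hodd f hd
  apply hv
  funext i
  obtain ⟨g, hg⟩ := this i
  rw [hf i, hg]
  simp

end Springer

end H64.Psi
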