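import Pool.Agent.H64.Psi1

/-! An isotropic covariant of the symmetric group on seven letters. -/

namespace H64.Psi

open MvPolynomial

abbrev R := MvPolynomial (Fin 7) ℂ
abbrev G := Equiv.Perm (Fin 7)

def E : Type := FractionRing R

noncomputable instance : Field E := inferInstanceAs (Field (FractionRing R))
noncomputable instance : Algebra R E := inferInstanceAs (Algebra R (FractionRing R))
instance : IsFractionRing R E := inferInstanceAs (IsFractionRing R (FractionRing R))
instance : CharZero E := inferInstanceAs (CharZero (FractionRing R))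

noncomputable def hom : G →* (R ≃+* R) where
  toFun σ := (renameEquiv ℂ σ).toRingEquiv
  map_one' := by
    ext1 f
    simp
  map_mul' σ τ := by
    ext1 f
    simp [rename_rename]

noncomputable instance : MulSemiringAction G E :=
  MulSemiringAction.compHom E ((IsFractionRing.ringEquivOfRingEquivHom R E).comp hom)

lemma smul_alg (σ : G) (f : R) : σ • algebraMap R E f = algebraMap R E (rename σ f) := by
  change IsFractionRing.ringEquivOfRingEquiv (hom σ) (algebraMap R E f) = _
  rw [IsFractionRing.ringEquivOfRingEquiv_algebraMap]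
  rfl

noncomputable def x (i : Fin 7) : E := algebraMap R E (X i)

lemma smul_x (σ : G) (i : Fin 7) : σ • x i = x (σ i) := by
  unfold x
  rw [smul_alg, rename_X]

lemma x_inj : Function.Injective x := by
  intro i j h
  exact X_injective (IsFractionRing.injective R E h)

instance : FaithfulSMul G E :=
  ⟨fun {σ τ} h => Equiv.ext fun i => x_inj (by rw [← smul_x, ← smul_x, h])⟩

def col : Fin 7 → Fin 3 := ![0, 0, 0, 0, 1, 1, 2]

def H : Subgroup G where
  carrier := {σ | col ∘ σ = col}
  one_mem' := rfl
  mul_mem' := by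
    intro a b ha hb
    change col ∘ (a * b : G) = col
    have ha' : col ∘ a = col := ha
    have hb' : col ∘ b = col := hb
    rw [Equiv.Perm.coe_mul, ← Function.comp_assoc, ha', hb']
  inv_mem' := by
    intro a ha
    have ha' : col ∘ a = col := ha
    change col ∘ (a⁻¹ : G) = col
    funext i
    have := congrFun ha' (a⁻¹ i)
    simpa using this.symm

lemma card_H : Nat.card H = 48 := by
  have h := DomMulAct.stabilizer_card col
  have h2 : Nat.card H = Fintype.card {g : G // col ∘ g = col} := by
    rw [← Nat.card_eq_fintype_card]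
    rfl
  rw [h2, h]
  decide

noncomputable abbrev K : Subfield E := FixedPoints.subfield G E
noncomputable abbrev L0 : Subfield E := FixedPoints.subfield H E

lemma K_le : K ≤ L0 := fun _ hx σ => hx (σ : G)

noncomputable abbrev L : IntermediateField K E := Subfield.extendScalars K_le

lemma finrank_L : Module.finrank K L = 105 := by
  classical
  have h1 : Module.finrank K E = 5040 := by
    rw [FixedPoints.finrank_eq_card, Fintype.card_perm]
    rfl
  have h2 : Module.finrank L E = 48 := by
    letI : Fintype H := Fintype.ofFinite H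
    have := FixedPoints.finrank_eq_card H E
    rw [← Nat.card_eq_fintype_card, card_H] at this
    exact this
  have h3 := Module.finrank_mul_finrank K L E
  rw [h1, h2] at h3
  omega

noncomputable def gP (j : Fin 6) (i : Fin 7) : R :=
  7 * X i ^ (j.val + 1) - ∑ l, X l ^ (j.val + 1)

lemma rename_gP (σ : G) (j : Fin 6) (i : Fin 7) : rename σ (gP j i) = gP j (σ i) := by
  unfold gP
  simp only [map_sub, map_mul, map_pow, rename_X, map_sum, map_ofNat]
  congr 1
  exact Equiv.sum_comp σ (fun l => (X l : R) ^ (j.val + 1))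

lemma sum_gP (j : Fin 6) : ∑ i, gP j i = 0 := by
  unfold gP
  rw [Finset.sum_sub_distrib, ← Finset.mul_sum]
  simp

noncomputable def g (j : Fin 6) (i : Fin 7) : E := algebraMap R E (gP j i)

lemma g_eq (j : Fin 6) (i : Fin 7) : g j i = 7 * x i ^ (j.val + 1) - ∑ l, x l ^ (j.val + 1) := by
  unfold g gP x
  simp only [map_sub, map_mul, map_pow, map_sum, map_ofNat]

noncomputable def B (j l : Fin 6) : K :=
  ⟨∑ i, g j i * g l i, fun σ => by
    change σ • (∑ i, g j i * g l i) = _
    unfold g
    simp only [Finset.smul_sum, smul_mul', smul_alg, rename_gP]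
    exact Equiv.sum_comp σ (fun i => algebraMap R E (gP j i) * algebraMap R E (gP l i))⟩

lemma q_eq (μ : Fin 6 → E) :
    ∑ j, ∑ l, (B j l : E) * (μ j * μ l) = ∑ i, (∑ j, μ j * g j i) ^ 2 := by
  simp only [B, sq, Finset.sum_mul, Finset.mul_sum]
  rw [Finset.sum_comm (s := (Finset.univ : Finset (Fin 7)))]
  refine Finset.sum_congr rfl fun j _ => ?_
  rw [Finset.sum_comm]
  refine Finset.sum_congr rfl fun i _ => ?_
  refine Finset.sum_congr rfl fun l _ => ?_
  ring

lemma exists_c : ∃ c : Fin 3 → ℂ, c 1 ≠ 0 ∧ ∑ i, c (col i) = 0 ∧ ∑ i, c (col i) ^ 2 = 0 := by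
  obtain ⟨s, hs⟩ := IsAlgClosed.exists_pow_nat_eq (-14 : ℂ) (n := 2) (by norm_num)
  refine ⟨![-4 + s, 10, -4 * (-4 + s) - 20], by simp, ?_, ?_⟩
  · simp [Fin.sum_univ_seven, col]
    ring
  · simp [Fin.sum_univ_seven, col]
    linear_combination 20 * hs

lemma eval_seven (p : Polynomial E) (hp : p.degree < 7) (y : E) :
    p.eval y = p.coeff 0 + ∑ j : Fin 6, p.coeff (j.val + 1) * y ^ (j.val + 1) := by
  have h : p.natDegree < 7 := by
    by_cases h0 : p = 0
    · rw [h0]; simp
    · exact (Polynomial.natDegree_lt_iff_degree_lt h0).2 hp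
  rw [Polynomial.eval_eq_sum_range' h, Finset.sum_range_succ',
    Fin.sum_univ_eq_sum_range (fun j => p.coeff (j + 1) * y ^ (j + 1)) 6]
  simp [add_comm]

lemma exists_L : ∃ v : Fin 6 → L, v ≠ 0 ∧
    ∑ j, ∑ l, algebraMap K L (B j l) * (v j * v l) = 0 := by
  classical
  obtain ⟨c, hc1, hs1, hs2⟩ := exists_c
  let r : Fin 7 → E := fun i => algebraMap R E (C (c (col i)))
  let lam : Polynomial E := Lagrange.interpolate Finset.univ x r
  have hinj : Set.InjOn x (Finset.univ : Finset (Fin 7)) := x_inj.injOn
  have hdeg : lam.degree < 7 := by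
    have := Lagrange.degree_interpolate_lt (r := r) hinj
    rw [Finset.card_univ, Fintype.card_fin] at this
    exact this
  have hev : ∀ i, lam.eval (x i) = r i := fun i =>
    Lagrange.eval_interpolate_at_node r hinj (Finset.mem_univ i)
  have hfix : ∀ σ ∈ H, lam.map (MulSemiringAction.toRingHom G E σ) = lam := by
    intro σ hσ
    have hσ' : col ∘ σ = col := hσ
    refine Polynomial.eq_of_degrees_lt_of_eval_index_eq Finset.univ hinj ?_ ?_ ?_
    · exact Polynomial.degree_map_le.trans_lt (by simpa using hdeg)
    · simpa using hdeg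
    · intro i _
      obtain ⟨i, rfl⟩ := σ.surjective i
      have h1 : x (σ i) = MulSemiringAction.toRingHom G E σ (x i) := (smul_x σ i).symm
      rw [hev, h1, Polynomial.eval_map_apply, hev]
      change σ • r i = r (σ i)
      simp only [r]
      rw [smul_alg, rename_C]
      have := congrFun hσ' i
      simp only [Function.comp] at this
      rw [this]
  have hmem : ∀ j : ℕ, lam.coeff j ∈ L := by
    intro j σ
    have := congrArg (fun p => Polynomial.coeff p j) (hfix σ σ.2)
    simp only [Polynomial.coeff_map] at this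
    exact this
  have hsr : ∑ i, r i = 0 := by
    simp only [r, ← map_sum, hs1, map_zero]
  have hsr2 : ∑ i, r i ^ 2 = 0 := by
    simp only [r, ← map_pow, ← map_sum, hs2, map_zero]
  have hF : ∀ i, ∑ j : Fin 6, lam.coeff (j.val + 1) * g j i = 7 * r i := by
    intro i
    have h1 : ∀ l, ∑ j : Fin 6, lam.coeff (j.val + 1) * x l ^ (j.val + 1) = r l - lam.coeff 0 := by
      intro l
      rw [← hev, eval_seven lam hdeg]
      ring
    have h2 : ∑ j : Fin 6, lam.coeff (j.val + 1) * g j i =
        7 * (∑ j : Fin 6, lam.coeff (j.val + 1) * x i ^ (j.val + 1)) -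
          ∑ l, ∑ j : Fin 6, lam.coeff (j.val + 1) * x l ^ (j.val + 1) := by
      rw [Finset.sum_comm, Finset.mul_sum, ← Finset.sum_sub_distrib]
      refine Finset.sum_congr rfl fun j _ => ?_
      rw [g_eq, ← Finset.mul_sum]
      ring
    rw [h2]
    simp only [h1]
    rw [Finset.sum_sub_distrib, hsr]
    simp
    ring
  refine ⟨fun j => ⟨lam.coeff (j.val + 1), hmem _⟩, ?_, ?_⟩
  · intro h0
    have h1 := hF 4
    have h2 : ∀ j : Fin 6, lam.coeff (j.val + 1) = 0 := fun j =>
      congrArg Subtype.val (congrFun h0 j)
    simp only [h2, zero_mul, Finset.sum_const_zero] at h1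
    have h3 : r 4 = 0 := by
      rcases mul_eq_zero.1 h1.symm with h | h
      · norm_num at h
      · exact h
    have h4 : (C (c (col 4)) : R) = 0 := by
      apply IsFractionRing.injective R E
      rw [map_zero]
      exact h3
    exact hc1 (by simpa [col] using h4)
  · apply Subtype.ext
    have := q_eq (fun j => lam.coeff (j.val + 1))
    simp only [hF, mul_pow, ← Finset.mul_sum, hsr2, mul_zero] at this
    simp only [IntermediateField.coe_sum, IntermediateField.coe_mul, ZeroMemClass.coe_zero]
    exact this

lemma exists_K : ∃ μ : Fin 6 → K, μ ≠ 0 ∧ ∑ j, ∑ l, B j l * (μ j * μ l) = 0 := by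
  obtain ⟨v, hv, hq⟩ := exists_L
  haveI : FiniteDimensional K L := Module.finite_of_finrank_pos (by rw [finrank_L]; norm_num)
  exact springer (by rw [finrank_L]; decide) B v hv hq

theorem exists_cov : ∃ F : Fin 7 → R, F 0 ≠ 0 ∧ (∀ (σ : G) i, rename σ (F i) = F (σ i)) ∧
    ∑ i, F i = 0 ∧ ∑ i, F i ^ 2 = 0 := by
  classical
  obtain ⟨μ, hμ, hq⟩ := exists_K
  obtain ⟨b, hb⟩ := IsLocalization.exist_integer_multiples_of_finite (nonZeroDivisors R)
    (fun j => (μ j : E))
  have hb0 : (b : R) ≠ 0 := nonZeroDivisors.ne_zero b.2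
  let D : R := ∏ σ : G, rename σ (b : R)
  have hD0 : D ≠ 0 := by
    refine Finset.prod_ne_zero_iff.2 fun σ _ => ?_
    intro h
    exact hb0 (rename_injective _ σ.injective (by rw [h, map_zero]))
  have hDs : ∀ π : G, rename π D = D := by
    intro π
    simp only [D, map_prod, rename_rename]
    exact Equiv.prod_comp (Equiv.mulLeft π) (fun σ : G => rename σ (b : R))
  have hdvd : (b : R) ∣ D := by
    have := Finset.dvd_prod_of_mem (fun σ : G => rename σ (b : R)) (Finset.mem_univ 1)
    simpa using this
  obtain ⟨d, hd⟩ := hdvd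
  have hν : ∀ j, ∃ ν : R, algebraMap R E ν = algebraMap R E D * (μ j : E) := by
    intro j
    obtain ⟨a, ha⟩ := hb j
    refine ⟨d * a, ?_⟩
    rw [map_mul, ha, hd, map_mul, Algebra.smul_def]
    ring
  choose ν hν using hν
  have hνs : ∀ (σ : G) j, rename σ (ν j) = ν j := by
    intro σ j
    apply IsFractionRing.injective R E
    rw [← smul_alg, hν, smul_mul', smul_alg, hDs, (μ j).2 σ]
  have hFE : ∀ i, algebraMap R E (∑ j, ν j * gP j i) =
      algebraMap R E D * ∑ j, (μ j : E) * g j i := by
    intro i
    rw [map_sum, Finset.mul_sum]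
    refine Finset.sum_congr rfl fun j _ => ?_
    rw [map_mul, hν, g, mul_assoc]
  have hcov : ∀ (σ : G) i, rename σ (∑ j, ν j * gP j i) = ∑ j, ν j * gP j (σ i) := by
    intro σ i
    simp only [map_sum, map_mul, hνs, rename_gP]
  refine ⟨fun i => ∑ j, ν j * gP j i, ?_, hcov, ?_, ?_⟩
  · intro h0
    have hall : ∀ i, ∑ j, (μ j : E) * g j i = 0 := by
      intro i
      have h1 := hcov (Equiv.swap 0 i) 0
      simp only [Equiv.swap_apply_left] at h1
      have h0' : ∑ j, ν j * gP j 0 = 0 := h0
      rw [h0', map_zero] at h1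
      have h2 := hFE i
      rw [← h1, map_zero] at h2
      rcases mul_eq_zero.1 h2.symm with h | h
      · exact absurd (IsFractionRing.injective R E (h.trans (map_zero _).symm)) hD0
      · exact h
    let p : Polynomial E := ∑ j : Fin 6, Polynomial.monomial (j.val + 1) (7 * (μ j : E)) -
      Polynomial.C (∑ j : Fin 6, (μ j : E) * ∑ l, x l ^ (j.val + 1))
    have hp : p.degree < 7 := by
      refine (Polynomial.degree_sub_le _ _).trans_lt (max_lt ?_ ?_)
      · refine (Polynomial.degree_sum_le _ _).trans_lt ?_
        rw [Finset.sup_lt_iff (by decide)]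
        intro j _
        refine (Polynomial.degree_monomial_le _ _).trans_lt ?_
        have := j.2
        exact_mod_cast (by omega : j.val + 1 < 7)
      · exact Polynomial.degree_C_le.trans_lt (by decide)
    have hp0 : p = 0 := by
      refine Polynomial.eq_zero_of_degree_lt_of_eval_index_eq_zero Finset.univ x_inj.injOn
        (by simpa using hp) fun i _ => ?_
      rw [← hall i]
      simp only [p, Polynomial.eval_sub, Polynomial.eval_finset_sum, Polynomial.eval_monomial,
        Polynomial.eval_C, g_eq]
      rw [← Finset.sum_sub_distrib]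
      refine Finset.sum_congr rfl fun j _ => ?_
      ring
    apply hμ
    funext j
    have h1 := congrArg (fun p => Polynomial.coeff p (j.val + 1)) hp0
    simp only [p, Polynomial.coeff_sub, Polynomial.finset_sum_coeff, Polynomial.coeff_monomial,
      Polynomial.coeff_C, Polynomial.coeff_zero] at h1
    rw [Finset.sum_eq_single j (by
      intro l _ hl
      rw [if_neg]
      intro h
      exact hl (Fin.ext (by omega))) (by simp)] at h1
    simp at h1
    exact h1
  · rw [Finset.sum_comm]
    simp only [← Finset.mul_sum, sum_gP, mul_zero, Finset.sum_const_zero]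
  · apply IsFractionRing.injective R E
    rw [map_sum, map_zero]
    simp only [map_pow, hFE, mul_pow, ← Finset.mul_sum]
    rw [← q_eq]
    have := congrArg K.subtype hq
    simp only [map_sum, map_mul, map_zero, Subfield.coe_subtype] at this
    rw [this, mul_zero]

end H64.Psi
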