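import Pool.Agent.H64.Psi2

/-! Grading tools and a homogeneous isotropic covariant. -/

namespace H64.Psi

open MvPolynomial

noncomputable def Ph : R →ₐ[ℂ] Polynomial R :=
  aeval (fun i => Polynomial.monomial 1 (X i : R))

lemma Ph_X (i : Fin 7) : Ph (X i) = Polynomial.monomial 1 (X i : R) := by
  simp [Ph]

lemma Ph_C (a : ℂ) : Ph (C a) = Polynomial.C (C a : R) := by
  simp [Ph, Polynomial.algebraMap_apply]

noncomputable def cp (n : ℕ) : R →ₗ[ℂ] R where
  toFun f := (Ph f).coeff n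
  map_add' f g := by simp
  map_smul' c f := by simp

lemma cp_apply (n : ℕ) (f : R) : cp n f = (Ph f).coeff n := rfl

lemma Ph_rename (σ : G) (f : R) :
    Ph (rename σ f) = (Ph f).map (rename σ : R →ₐ[ℂ] R).toRingHom := by
  induction f using MvPolynomial.induction_on with
  | C a => simp [Ph_C]
  | add p q hp hq => simp [hp, hq]
  | mul_X p i hp => simp [hp, Ph_X, Polynomial.map_monomial]

lemma cp_rename (n : ℕ) (σ : G) (f : R) : cp n (rename σ f) = rename σ (cp n f) := by
  rw [cp_apply, cp_apply, Ph_rename, Polynomial.coeff_map]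
  rfl

lemma cp_mulX_zero (f : R) (i : Fin 7) : cp 0 (f * X i) = 0 := by
  rw [cp_apply, map_mul, Ph_X, ← Polynomial.C_mul_X_eq_monomial, ← mul_assoc,
    Polynomial.mul_coeff_zero]
  simp

lemma cp_mulX_succ (n : ℕ) (f : R) (i : Fin 7) : cp (n + 1) (f * X i) = cp n f * X i := by
  rw [cp_apply, cp_apply, map_mul, Ph_X, ← Polynomial.C_mul_X_eq_monomial, ← mul_assoc,
    Polynomial.coeff_mul_X, Polynomial.coeff_mul_C]

def Hom (n : ℕ) (f : R) : Prop := Ph f = Polynomial.monomial n f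

lemma Hom.add {n : ℕ} {f g : R} (hf : Hom n f) (hg : Hom n g) : Hom n (f + g) := by
  unfold Hom at *
  rw [map_add, hf, hg, map_add]

lemma Hom.sub {n : ℕ} {f g : R} (hf : Hom n f) (hg : Hom n g) : Hom n (f - g) := by
  unfold Hom at *
  rw [map_sub, hf, hg, map_sub]

lemma Hom.mul {n m : ℕ} {f g : R} (hf : Hom n f) (hg : Hom m g) : Hom (n + m) (f * g) := by
  unfold Hom at *
  rw [map_mul, hf, hg, Polynomial.monomial_mul_monomial]

lemma hom_zero (n : ℕ) : Hom n 0 := by simp [Hom]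

lemma hom_one : Hom 0 1 := by simp [Hom]

lemma hom_X (i : Fin 7) : Hom 1 (X i) := Ph_X i

lemma Hom.pow {n : ℕ} {f : R} (hf : Hom n f) (k : ℕ) : Hom (k * n) (f ^ k) := by
  induction k with
  | zero => simpa using hom_one
  | succ k ih =>
    rw [pow_succ, Nat.succ_mul]
    exact ih.mul hf

lemma hom_sum {ι : Type*} (s : Finset ι) (n : ℕ) (f : ι → R) (h : ∀ i, Hom n (f i)) :
    Hom n (∑ i ∈ s, f i) := by
  classical
  induction s using Finset.induction_on with
  | empty => simpa using hom_zero n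
  | insert a s ha ih =>
    rw [Finset.sum_insert ha]
    exact (h a).add ih

lemma hom_prod {ι : Type*} (s : Finset ι) (f : ι → R) (h : ∀ i, ∃ n, Hom n (f i)) :
    ∃ n, Hom n (∏ i ∈ s, f i) := by
  classical
  induction s using Finset.induction_on with
  | empty => exact ⟨0, by simpa using hom_one⟩
  | insert a s ha ih =>
    rw [Finset.prod_insert ha]
    obtain ⟨n, hn⟩ := h a
    obtain ⟨m, hm⟩ := ih
    exact ⟨n + m, hn.mul hm⟩

lemma hom_cp (f : R) : ∀ n, Hom n (cp n f) := by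
  induction f using MvPolynomial.induction_on with
  | C a =>
    intro n
    rw [cp_apply, Ph_C, Polynomial.coeff_C]
    split_ifs with h
    · subst h
      simp [Hom, Ph_C]
    · exact hom_zero n
  | add p q hp hq =>
    intro n
    rw [map_add]
    exact (hp n).add (hq n)
  | mul_X p i hp =>
    intro n
    cases n with
    | zero => rw [cp_mulX_zero]; exact hom_zero 0
    | succ n => rw [cp_mulX_succ]; exact (hp n).mul (hom_X i)

lemma isHom_cp (f : R) : ∀ n, (cp n f).IsHomogeneous n := by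
  induction f using MvPolynomial.induction_on with
  | C a =>
    intro n
    rw [cp_apply, Ph_C, Polynomial.coeff_C]
    split_ifs with h
    · subst h
      exact isHomogeneous_C _ a
    · exact isHomogeneous_zero _ _ n
  | add p q hp hq =>
    intro n
    rw [map_add]
    exact (hp n).add (hq n)
  | mul_X p i hp =>
    intro n
    cases n with
    | zero => rw [cp_mulX_zero]; exact isHomogeneous_zero _ _ 0
    | succ n => rw [cp_mulX_succ]; exact (hp n).mul (isHomogeneous_X _ i)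

lemma Hom.cp_self {n : ℕ} {f : R} (hf : Hom n f) : cp n f = f := by
  rw [cp_apply, hf]
  simp

lemma Hom.isHomogeneous {n : ℕ} {f : R} (hf : Hom n f) : f.IsHomogeneous n := by
  rw [← hf.cp_self]
  exact isHom_cp f n

def Low (n : ℕ) (f : R) : Prop := ∀ m < n, cp m f = 0

lemma Hom.low {n : ℕ} {f : R} (hf : Hom n f) : Low n f := by
  intro m hm
  rw [cp_apply, hf, Polynomial.coeff_monomial, if_neg (by omega)]

lemma cp_zero (r : R) : ∃ c : ℂ, cp 0 r = C c := by
  have := (isHom_cp r 0)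
  exact ⟨_, (totalDegree_eq_zero_iff_eq_C.1 (by
    by_cases h : cp 0 r = 0
    · rw [h]; simp
    · exact this.totalDegree h))⟩

lemma cp_mul_low (n : ℕ) (r h : R) (hh : Low n h) (m : ℕ) (hm : m ≤ n) :
    cp m (r * h) = cp 0 r * cp m h := by
  rw [cp_apply, map_mul, Polynomial.coeff_mul, Finset.sum_eq_single (0, m)]
  · rfl
  · intro b hb hne
    have h1 : b.1 + b.2 = m := Finset.HasAntidiagonal.mem_antidiagonal.1 hb
    have h2 : b.2 < n := by
      by_contra h3
      apply hne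
      ext
      · simp; omega
      · simp; omega
    have := hh b.2 h2
    rw [cp_apply] at this
    rw [this, mul_zero]
  · intro h
    exact absurd (Finset.HasAntidiagonal.mem_antidiagonal.2 (by simp)) h

lemma span_cp (n : ℕ) (S : Set R) (hS : ∀ s ∈ S, Low n s) (h : R) (hh : h ∈ Ideal.span S) :
    Low n h ∧ cp n h ∈ Submodule.span ℂ (cp n '' S) := by
  induction hh using Submodule.span_induction with
  | mem s hs => exact ⟨hS s hs, Submodule.subset_span ⟨s, hs, rfl⟩⟩
  | zero => exact ⟨fun m _ => map_zero _, by rw [map_zero]; exact zero_mem _⟩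
  | add a b _ _ ha hb =>
    refine ⟨fun m hm => ?_, ?_⟩
    · rw [map_add, ha.1 m hm, hb.1 m hm, add_zero]
    · rw [map_add]; exact add_mem ha.2 hb.2
  | smul r a _ ha =>
    rw [smul_eq_mul]
    refine ⟨fun m hm => ?_, ?_⟩
    · rw [cp_mul_low n r a ha.1 m hm.le, ha.1 m hm, mul_zero]
    · rw [cp_mul_low n r a ha.1 n le_rfl]
      obtain ⟨c, hc⟩ := cp_zero r
      rw [hc, ← smul_eq_C_mul]
      exact Submodule.smul_mem _ c ha.2

lemma eval_Ph (f : R) : (Ph f).eval 1 = f := by
  induction f using MvPolynomial.induction_on with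
  | C a => simp [Ph_C]
  | add p q hp hq => simp [hp, hq]
  | mul_X p i hp => simp [hp, Ph_X]

theorem exists_hcov : ∃ (F : Fin 7 → R) (n : ℕ), (∀ i, Hom n (F i)) ∧ F 0 ≠ 0 ∧
    (∀ (σ : G) i, rename σ (F i) = F (σ i)) ∧ ∑ i, F i = 0 ∧ ∑ i, F i * F i = 0 := by
  obtain ⟨F, h0, hc, h1, h2⟩ := exists_cov
  let n := (Ph (F 0)).natDegree
  have hn : ∀ i, (Ph (F i)).natDegree ≤ n := by
    intro i
    have := hc (Equiv.swap 0 i) 0
    rw [Equiv.swap_apply_left] at this
    rw [← this, Ph_rename]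
    exact Polynomial.natDegree_map_le
  refine ⟨fun i => cp n (F i), n, fun i => hom_cp _ n, ?_, ?_, ?_, ?_⟩
  · intro h
    have h3 : (Ph (F 0)).leadingCoeff = 0 := h
    rw [Polynomial.leadingCoeff_eq_zero] at h3
    apply h0
    rw [← eval_Ph (F 0), h3]
    simp
  · intro σ i
    rw [← cp_rename, hc]
  · rw [← map_sum, h1, map_zero]
  · have h3 : cp (n + n) (∑ i, F i ^ 2) = 0 := by rw [h2, map_zero]
    rw [← h3, map_sum]
    refine Finset.sum_congr rfl fun i _ => ?_
    rw [sq, cp_apply (n + n), map_mul, Polynomial.coeff_mul_add_eq_of_natDegree_le (hn i) (hn i)]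
    rfl

structure Data where
  F : Fin 7 → R
  a : R
  p : R
  p' : R
  N : ℕ
  ha : Hom N a
  hp : ∀ i, Hom N (p * F i)
  hp' : ∀ i, Hom N (p' * F i)
  F0 : F 0 ≠ 0
  cov : ∀ (σ : G) i, rename σ (F i) = F (σ i)
  s1 : ∑ i, F i = 0
  s2 : ∑ i, F i * F i = 0
  a0 : a ≠ 0
  alt : ∀ σ : G, rename σ a = ((Equiv.Perm.sign σ : ℤ) : R) * a
  sp : ∀ σ : G, rename σ p = p
  sp' : ∀ σ : G, rename σ p' = p'
  ind : ∀ β β' : ℂ, C β * p + C β' * p' = 0 → β = 0 ∧ β' = 0

theorem exists_data : Nonempty Data := by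
  obtain ⟨F, n, hF, h0, hc, h1, h2⟩ := exists_hcov
  let Δ : R := (Matrix.vandermonde (fun i : Fin 7 => (X i : R))).det
  have hΔ0 : Δ ≠ 0 := Matrix.det_vandermonde_ne_zero_iff.2 X_injective
  obtain ⟨e, he⟩ : ∃ e, Hom e Δ := by
    simp only [Δ, Matrix.det_vandermonde]
    exact hom_prod _ _ fun i => hom_prod _ _ fun j => ⟨1, (hom_X j).sub (hom_X i)⟩
  have hΔ : ∀ σ : G, rename σ Δ = ((Equiv.Perm.sign σ : ℤ) : R) * Δ := by
    intro σ
    have h3 := Matrix.det_permute σ (Matrix.vandermonde (fun i : Fin 7 => (X i : R)))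
    rw [← h3]
    simp only [Δ]
    rw [AlgHom.map_det]
    congr 1
    ext i j
    simp [Matrix.vandermonde_apply]
  let p1 : R := ∑ i, X i
  let p2 : R := ∑ i, X i * X i
  have hp1 : Hom 1 p1 := hom_sum _ _ _ hom_X
  have hp2 : Hom 2 p2 := hom_sum _ _ _ fun i => (hom_X i).mul (hom_X i)
  have sp1 : ∀ σ : G, rename σ p1 = p1 := by
    intro σ
    simp only [p1, map_sum, rename_X]
    exact Equiv.sum_comp σ (fun i => (X i : R))
  have sp2 : ∀ σ : G, rename σ p2 = p2 := by
    intro σ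
    simp only [p2, map_sum, map_mul, rename_X]
    exact Equiv.sum_comp σ (fun i => (X i : R) * X i)
  have p10 : p1 ≠ 0 := by
    intro h
    have := congrArg (eval (fun _ => (1 : ℂ))) h
    simp [p1] at this
  refine ⟨⟨F, Δ * p1 ^ (n + 2), p1 ^ (e + 2), p1 ^ e * p2, e + 2 + n, ?_, ?_, ?_, h0, hc, h1, h2,
    mul_ne_zero hΔ0 (pow_ne_zero _ p10), ?_, ?_, ?_, ?_⟩⟩
  · have := he.mul (hp1.pow (n + 2))
    rwa [show e + (n + 2) * 1 = e + 2 + n by ring] at this
  · intro i
    have := (hp1.pow (e + 2)).mul (hF i)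
    rwa [mul_one] at this
  · intro i
    have := ((hp1.pow e).mul hp2).mul (hF i)
    rwa [mul_one] at this
  · intro σ
    rw [map_mul, map_pow, hΔ, sp1, mul_assoc]
  · intro σ
    rw [map_pow, sp1]
  · intro σ
    rw [map_mul, map_pow, sp1, sp2]
  · intro β β' h
    have h3 : p1 ^ e * (C β * p1 ^ 2 + C β' * p2) = 0 := by
      rw [← h]; ring
    have h4 : C β * p1 ^ 2 + C β' * p2 = 0 :=
      (mul_eq_zero.1 h3).resolve_left (pow_ne_zero _ p10)
    have h5 := congrArg (eval (fun _ => (1 : ℂ))) h4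
    have h6 := congrArg (eval (![1, 0, 0, 0, 0, 0, 0] : Fin 7 → ℂ)) h4
    simp [p1, p2, Fin.sum_univ_seven] at h5 h6
    constructor
    · linear_combination (1 / 42 : ℂ) * h5 - (1 / 6 : ℂ) * h6
    · linear_combination (-1 / 42 : ℂ) * h5 + (7 / 6 : ℂ) * h6

end H64.Psi
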