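import Pool.Agent.H64.Psi3

/-! A principal symmetric ideal with principal symmetric square. -/

namespace H64.Psi

open MvPolynomial Equiv

noncomputable def psi (f : R) : Ideal R := Ideal.span (Set.range fun σ : G => rename σ f)

def Stable (N : Ideal R) : Prop := ∀ (σ : G) z, z ∈ N → rename σ z ∈ N

lemma psi_stable (f : R) : Stable (psi f) := by
  intro π z hz
  induction hz using Submodule.span_induction with
  | mem s hs =>
    obtain ⟨σ, rfl⟩ := hs
    refine Ideal.subset_span ⟨π * σ, ?_⟩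
    simp [rename_rename]
  | zero => rw [map_zero]; exact zero_mem _
  | add a b _ _ ha hb => rw [map_add]; exact add_mem ha hb
  | smul r a _ ha => rw [smul_eq_mul, map_mul]; exact Ideal.mul_mem_left _ _ ha

lemma self_mem_psi (f : R) : f ∈ psi f := Ideal.subset_span ⟨1, by simp⟩

lemma unit_mem (N : Ideal R) (c : ℕ) (hc : c ≠ 0) (z : R) (h : (c : R) * z ∈ N) : z ∈ N := by
  have h1 : (C ((c : ℂ)⁻¹) : R) * ((c : R) * z) = z := by
    rw [← mul_assoc, ← map_natCast (C : ℂ →+* R), ← map_mul, inv_mul_cancel₀ (by exact_mod_cast hc)]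
    simp
  rw [← h1]
  exact Ideal.mul_mem_left _ _ h

lemma sign_sq (σ : G) : ((Perm.sign σ : ℤ) : R) * ((Perm.sign σ : ℤ) : R) = 1 := by
  rcases Int.units_eq_one_or (Perm.sign σ) with h | h <;> rw [h] <;> simp

namespace Data
variable (D : Data)

lemma swap_a {i j : Fin 7} (h : i ≠ j) : rename (swap i j) D.a = -D.a := by
  rw [D.alt, Perm.sign_swap h]
  simp

lemma orbit (N : Ideal R) (hN : Stable N) (u : R)
    (hu : ∀ σ : G, ∃ ε : R, ε * ε = 1 ∧ rename σ u = ε * u) (h : u * D.F 0 ∈ N) (i : Fin 7) :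
    u * D.F i ∈ N := by
  obtain ⟨ε, h1, h2⟩ := hu (swap 0 i)
  have h3 := Ideal.mul_mem_left N ε (hN (swap 0 i) _ h)
  rw [map_mul, h2, D.cov, swap_apply_left] at h3
  have : ε * (ε * u * D.F i) = u * D.F i := by
    linear_combination (u * D.F i) * h1
  rwa [this] at h3

lemma singles (N : Ideal R) (hN : Stable N) (u : R)
    (hu : ∀ σ : G, ∃ ε : R, ε * ε = 1 ∧ rename σ u = ε * u)
    (h : u * D.F 1 - u * D.F 2 ∈ N) (i : Fin 7) : u * D.F i ∈ N := by
  have hd : ∀ j, u * D.F i - u * D.F j ∈ N := by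
    intro j
    by_cases hij : i = j
    · rw [hij, sub_self]; exact zero_mem _
    obtain ⟨σ, hσ⟩ := Perm.exists_extending_pair (![1, 2] : Fin 2 → Fin 7) ![i, j] (by decide)
      (by
        intro s t hst
        fin_cases s <;> fin_cases t <;> simp_all [eq_comm])
    have h1 : σ 1 = i := hσ 0
    have h2 : σ 2 = j := hσ 1
    obtain ⟨ε, h3, h4⟩ := hu σ
    have h5 := Ideal.mul_mem_left N ε (hN σ _ h)
    rw [map_sub, map_mul, map_mul, h4, D.cov, D.cov, h1, h2] at h5
    have : ε * (ε * u * D.F i - ε * u * D.F j) = u * D.F i - u * D.F j := by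
      linear_combination (u * D.F i - u * D.F j) * h3
    rwa [this] at h5
  have hs := Ideal.sum_mem N (t := Finset.univ) fun j _ => hd j
  rw [Finset.sum_sub_distrib, Finset.sum_const, ← Finset.mul_sum, D.s1] at hs
  apply unit_mem N 7 (by norm_num)
  simpa using hs

lemma pairs (N : Ideal R) (hN : Stable N) (P : R) (hP : ∀ σ : G, rename σ P = P)
    (i0 j0 k0 : Fin 7) (hinj : Function.Injective (![i0, j0, k0] : Fin 3 → Fin 7))
    (h : P * (D.F i0 * D.F j0) - P * (D.F i0 * D.F k0) ∈ N) (i j : Fin 7) :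
    P * (D.F i * D.F j) ∈ N := by
  have hd : ∀ i j k, i ≠ j → i ≠ k → P * (D.F i * D.F j) - P * (D.F i * D.F k) ∈ N := by
    intro i j k hij hik
    by_cases hjk : j = k
    · rw [hjk, sub_self]; exact zero_mem _
    obtain ⟨σ, hσ⟩ := Perm.exists_extending_pair (![i0, j0, k0] : Fin 3 → Fin 7) ![i, j, k] hinj
      (by
        intro s t hst
        fin_cases s <;> fin_cases t <;> simp_all [eq_comm])
    have h1 : σ i0 = i := hσ 0
    have h2 : σ j0 = j := hσ 1
    have h3 : σ k0 = k := hσ 2
    have h5 := hN σ _ h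
    simp only [map_sub, map_mul, hP, D.cov, h1, h2, h3] at h5
    exact h5
  have h6 : ∀ i j, i ≠ j → 6 * (P * (D.F i * D.F j)) + P * (D.F i * D.F i) ∈ N := by
    intro i j hij
    have hs := Ideal.sum_mem N (t := Finset.univ.erase i)
      fun k hk => hd i j k hij (Finset.ne_of_mem_erase hk).symm
    have h7 : ∑ k ∈ Finset.univ.erase i, D.F k = -D.F i := by
      have := Finset.add_sum_erase Finset.univ D.F (Finset.mem_univ i)
      rw [D.s1] at this
      linear_combination this
    rw [Finset.sum_sub_distrib, Finset.sum_const, ← Finset.mul_sum, ← Finset.mul_sum, h7,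
      Finset.card_erase_of_mem (Finset.mem_univ i)] at hs
    simp only [Finset.card_univ, Fintype.card_fin, nsmul_eq_mul] at hs
    convert hs using 1
    push_cast
    ring
  have hsq : ∀ i, P * (D.F i * D.F i) ∈ N := by
    intro i
    have h8 : ∀ j, P * (D.F i * D.F i) - P * (D.F j * D.F j) ∈ N := by
      intro j
      by_cases hij : i = j
      · rw [hij, sub_self]; exact zero_mem _
      have := sub_mem (h6 i j hij) (h6 j i (Ne.symm hij))
      convert this using 1
      ring
    have hs := Ideal.sum_mem N (t := Finset.univ) fun j _ => h8 j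
    rw [Finset.sum_sub_distrib, Finset.sum_const, ← Finset.mul_sum, D.s2] at hs
    apply unit_mem N 7 (by norm_num)
    simpa using hs
  by_cases hij : i = j
  · rw [hij]; exact hsq j
  apply unit_mem N 6 (by norm_num)
  have := sub_mem (h6 i j hij) (hsq i)
  convert this using 1
  push_cast
  ring

def S : Set R := {s | s = D.a ∨ (∃ i, s = D.p * D.F i) ∨ ∃ i, s = D.p' * D.F i}

noncomputable def J : Ideal R := Ideal.span D.S

lemma a_mem : D.a ∈ D.J := Ideal.subset_span (Or.inl rfl)
lemma p_mem (i : Fin 7) : D.p * D.F i ∈ D.J := Ideal.subset_span (Or.inr (Or.inl ⟨i, rfl⟩))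
lemma p'_mem (i : Fin 7) : D.p' * D.F i ∈ D.J := Ideal.subset_span (Or.inr (Or.inr ⟨i, rfl⟩))

lemma J_stable : Stable D.J := by
  intro π z hz
  induction hz using Submodule.span_induction with
  | mem s hs =>
    rcases hs with rfl | ⟨i, rfl⟩ | ⟨i, rfl⟩
    · rw [D.alt]; exact Ideal.mul_mem_left _ _ D.a_mem
    · rw [map_mul, D.sp, D.cov]; exact D.p_mem _
    · rw [map_mul, D.sp', D.cov]; exact D.p'_mem _
  | zero => rw [map_zero]; exact zero_mem _
  | add a b _ _ ha hb => rw [map_add]; exact add_mem ha hb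
  | smul r a _ ha => rw [smul_eq_mul, map_mul]; exact Ideal.mul_mem_left _ _ ha

noncomputable def f : R := D.a + D.p * D.F 0 + D.p' * D.F 1

noncomputable def w : R :=
  D.a * D.a + D.a * (D.p * D.F 0) + D.a * (D.p' * D.F 1) + (D.p * D.F 0) * (D.p * D.F 1) +
    (D.p * D.F 2) * (D.p' * D.F 3) + (D.p' * D.F 2) * (D.p' * D.F 4)

lemma hom_f : Hom D.N D.f := (D.ha.add (D.hp 0)).add (D.hp' 1)

lemma hom_w : Hom (D.N + D.N) D.w :=
  (((((D.ha.mul D.ha).add (D.ha.mul (D.hp 0))).add (D.ha.mul (D.hp' 1))).add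
    ((D.hp 0).mul (D.hp 1))).add ((D.hp 2).mul (D.hp' 3))).add ((D.hp' 2).mul (D.hp' 4))

lemma J_eq : D.J = psi D.f := by
  apply le_antisymm
  · have hN := psi_stable D.f
    have h0 := self_mem_psi D.f
    have h1 : D.p * D.F 0 + D.p' * D.F 1 ∈ psi D.f := by
      apply unit_mem _ 2 (by norm_num)
      have := add_mem h0 (hN (swap 5 6) _ h0)
      convert this using 1
      simp only [f, map_add, map_mul, D.sp, D.sp', D.cov, D.swap_a (show (5 : Fin 7) ≠ 6 by decide),
        show swap (5 : Fin 7) 6 0 = 0 by decide, show swap (5 : Fin 7) 6 1 = 1 by decide]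
      push_cast
      ring
    have h2 : D.p' * D.F 1 - D.p' * D.F 2 ∈ psi D.f := by
      have := sub_mem h1 (hN (swap 1 2) _ h1)
      convert this using 1
      simp only [map_add, map_mul, D.sp, D.sp', D.cov,
        show swap (1 : Fin 7) 2 0 = 0 by decide, show swap (1 : Fin 7) 2 1 = 2 by decide]
      ring
    have h3 := D.singles _ hN D.p' (fun σ => ⟨1, by simp, by rw [D.sp', one_mul]⟩) h2
    have h4 : D.p * D.F 0 ∈ psi D.f := by
      have := sub_mem h1 (h3 1)
      simpa using this
    have h5 := D.orbit _ hN D.p (fun σ => ⟨1, by simp, by rw [D.sp, one_mul]⟩) h4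
    have h6 : D.a ∈ psi D.f := by
      have := sub_mem h0 h1
      convert this using 1
      simp only [f]
      ring
    refine Ideal.span_le.2 ?_
    rintro s (rfl | ⟨i, rfl⟩ | ⟨i, rfl⟩)
    · exact h6
    · exact h5 i
    · exact h3 i
  · refine Ideal.span_le.2 ?_
    rintro _ ⟨σ, rfl⟩
    exact D.J_stable σ _ (add_mem (add_mem D.a_mem (D.p_mem 0)) (D.p'_mem 1))

lemma J_sq : D.J ^ 2 = psi D.w := by
  rw [pow_two]
  apply le_antisymm
  · have hN := psi_stable D.w
    have h0 := self_mem_psi D.w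
    have hy : D.a * D.a + D.p * D.p * (D.F 0 * D.F 1) + D.p * D.p' * (D.F 2 * D.F 3) +
        D.p' * D.p' * (D.F 2 * D.F 4) ∈ psi D.w := by
      apply unit_mem _ 2 (by norm_num)
      have := add_mem h0 (hN (swap 5 6) _ h0)
      convert this using 1
      simp only [w, map_add, map_mul, D.sp, D.sp', D.cov, D.swap_a (show (5 : Fin 7) ≠ 6 by decide),
        show swap (5 : Fin 7) 6 0 = 0 by decide, show swap (5 : Fin 7) 6 1 = 1 by decide,
        show swap (5 : Fin 7) 6 2 = 2 by decide, show swap (5 : Fin 7) 6 3 = 3 by decide,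
        show swap (5 : Fin 7) 6 4 = 4 by decide]
      push_cast
      ring
    have hz : D.a * D.p * D.F 0 + D.a * D.p' * D.F 1 ∈ psi D.w := by
      have := sub_mem h0 hy
      convert this using 1
      simp only [w]
      ring
    have hA : D.p * D.p * (D.F 0 * D.F 1) - D.p * D.p * (D.F 0 * D.F 5) ∈ psi D.w := by
      have := sub_mem hy (hN (swap 1 5) _ hy)
      convert this using 1
      simp only [map_add, map_mul, D.sp, D.sp', D.cov, D.swap_a (show (1 : Fin 7) ≠ 5 by decide),
        show swap (1 : Fin 7) 5 0 = 0 by decide, show swap (1 : Fin 7) 5 1 = 5 by decide,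
        show swap (1 : Fin 7) 5 2 = 2 by decide, show swap (1 : Fin 7) 5 3 = 3 by decide,
        show swap (1 : Fin 7) 5 4 = 4 by decide]
      ring
    have hB : D.p * D.p' * (D.F 2 * D.F 3) - D.p * D.p' * (D.F 2 * D.F 5) ∈ psi D.w := by
      have := sub_mem hy (hN (swap 3 5) _ hy)
      convert this using 1
      simp only [map_add, map_mul, D.sp, D.sp', D.cov, D.swap_a (show (3 : Fin 7) ≠ 5 by decide),
        show swap (3 : Fin 7) 5 0 = 0 by decide, show swap (3 : Fin 7) 5 1 = 1 by decide,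
        show swap (3 : Fin 7) 5 2 = 2 by decide, show swap (3 : Fin 7) 5 3 = 5 by decide,
        show swap (3 : Fin 7) 5 4 = 4 by decide]
      ring
    have hC : D.p' * D.p' * (D.F 2 * D.F 4) - D.p' * D.p' * (D.F 2 * D.F 5) ∈ psi D.w := by
      have := sub_mem hy (hN (swap 4 5) _ hy)
      convert this using 1
      simp only [map_add, map_mul, D.sp, D.sp', D.cov, D.swap_a (show (4 : Fin 7) ≠ 5 by decide),
        show swap (4 : Fin 7) 5 0 = 0 by decide, show swap (4 : Fin 7) 5 1 = 1 by decide,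
        show swap (4 : Fin 7) 5 2 = 2 by decide, show swap (4 : Fin 7) 5 3 = 3 by decide,
        show swap (4 : Fin 7) 5 4 = 5 by decide]
      ring
    have h1 := D.pairs _ hN (D.p * D.p) (fun σ => by rw [map_mul, D.sp]) 0 1 5 (by decide) hA
    have h2 := D.pairs _ hN (D.p * D.p') (fun σ => by rw [map_mul, D.sp, D.sp']) 2 3 5
      (by decide) hB
    have h3 := D.pairs _ hN (D.p' * D.p') (fun σ => by rw [map_mul, D.sp']) 2 4 5 (by decide) hC
    have haa : D.a * D.a ∈ psi D.w := by
      have := sub_mem (sub_mem (sub_mem hy (h1 0 1)) (h2 2 3)) (h3 2 4)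
      convert this using 1
      ring
    have h4 : D.a * D.p' * D.F 1 - D.a * D.p' * D.F 2 ∈ psi D.w := by
      have := add_mem hz (hN (swap 1 2) _ hz)
      convert this using 1
      simp only [map_add, map_mul, D.sp, D.sp', D.cov, D.swap_a (show (1 : Fin 7) ≠ 2 by decide),
        show swap (1 : Fin 7) 2 0 = 0 by decide, show swap (1 : Fin 7) 2 1 = 2 by decide]
      ring
    have h5 := D.singles _ hN (D.a * D.p')
      (fun σ => ⟨_, sign_sq σ, by rw [map_mul, D.sp', D.alt, mul_assoc]⟩) h4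
    have h6 : D.a * D.p * D.F 0 ∈ psi D.w := by
      have := sub_mem hz (h5 1)
      simpa using this
    have h7 := D.orbit _ hN (D.a * D.p)
      (fun σ => ⟨_, sign_sq σ, by rw [map_mul, D.sp, D.alt, mul_assoc]⟩) h6
    rw [J, Ideal.span_mul_span']
    refine Ideal.span_le.2 ?_
    rintro _ ⟨s, hs, t, ht, rfl⟩
    change s * t ∈ psi D.w
    rcases hs with rfl | ⟨i, rfl⟩ | ⟨i, rfl⟩ <;> rcases ht with rfl | ⟨j, rfl⟩ | ⟨j, rfl⟩
    · exact haa
    · convert h7 j using 1; ring
    · convert h5 j using 1; ring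
    · convert h7 i using 1; ring
    · convert h1 i j using 1; ring
    · convert h2 i j using 1; ring
    · convert h5 i using 1; ring
    · convert h2 i j using 1; ring
    · convert h3 i j using 1; ring
  · refine Ideal.span_le.2 ?_
    rintro _ ⟨σ, rfl⟩
    have m : ∀ y z, y ∈ D.J → z ∈ D.J → rename σ (y * z) ∈ D.J * D.J := by
      intro y z hy hz
      rw [map_mul]
      exact Ideal.mul_mem_mul (D.J_stable σ _ hy) (D.J_stable σ _ hz)
    change rename σ D.w ∈ D.J * D.J
    simp only [w, map_add]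
    exact add_mem (add_mem (add_mem (add_mem (add_mem (m _ _ D.a_mem D.a_mem)
      (m _ _ D.a_mem (D.p_mem 0))) (m _ _ D.a_mem (D.p'_mem 1))) (m _ _ (D.p_mem 0) (D.p_mem 1)))
      (m _ _ (D.p_mem 2) (D.p'_mem 3))) (m _ _ (D.p'_mem 2) (D.p'_mem 4))

end Data

end H64.Psi
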