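import Pool.Agent.H64.Psi4

/-! No generator is an eigenvector of a transposition. -/

namespace H64.Psi

open MvPolynomial Equiv

lemma sign_addRight (k : Fin 7) : Perm.sign (Equiv.addRight k) = 1 := by
  have h : (Equiv.addRight k) ^ 7 = 1 := by
    ext y
    simp only [pow_succ, pow_zero, Perm.coe_mul, Function.comp, Equiv.coe_addRight, Perm.coe_one, id]
    revert k y
    decide
  have h2 := congrArg Perm.sign h
  rw [map_pow, map_one] at h2
  rcases Int.units_eq_one_or (Perm.sign (Equiv.addRight k)) with h3 | h3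
  · exact h3
  · rw [h3] at h2
    exact absurd h2 (by decide)

noncomputable def rho (k : Fin 6) : G := Perm.decomposeFin.symm (0, Equiv.addRight k)

lemma rho_zero (k : Fin 6) : rho k 0 = 0 := Perm.decomposeFin_symm_apply_zero _ _

lemma rho_succ (k y : Fin 6) : rho k y.succ = (y + k).succ := by
  unfold rho
  rw [Perm.decomposeFin_symm_apply_succ]
  simp

namespace Data
variable (D : Data)

noncomputable def V' : Submodule ℂ R :=
  Submodule.span ℂ {s | (∃ i, s = D.p * D.F i) ∨ ∃ i, s = D.p' * D.F i}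

lemma pV (i : Fin 7) : D.p * D.F i ∈ D.V' := Submodule.subset_span (Or.inl ⟨i, rfl⟩)
lemma pV' (i : Fin 7) : D.p' * D.F i ∈ D.V' := Submodule.subset_span (Or.inr ⟨i, rfl⟩)

lemma V'_stable (σ : G) (h : R) (hh : h ∈ D.V') : rename σ h ∈ D.V' := by
  induction hh using Submodule.span_induction with
  | mem s hs =>
    rcases hs with ⟨i, rfl⟩ | ⟨i, rfl⟩
    · rw [map_mul, D.sp, D.cov]; exact D.pV _
    · rw [map_mul, D.sp', D.cov]; exact D.pV' _
  | zero => rw [map_zero]; exact zero_mem _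
  | add a b _ _ ha hb => rw [map_add]; exact add_mem ha hb
  | smul r a _ ha => rw [map_smul]; exact Submodule.smul_mem _ r ha

lemma a_not_mem : D.a ∉ D.V' := by
  have key : ∀ h ∈ D.V', ∑ k : Fin 7, rename (Equiv.addRight k) h = 0 := by
    intro h hh
    have hs : ∀ i, ∑ k : Fin 7, D.F (i + k) = 0 := by
      intro i
      rw [← D.s1]
      exact Equiv.sum_comp (Equiv.addLeft i) D.F
    induction hh using Submodule.span_induction with
    | mem s hs' =>
      rcases hs' with ⟨i, rfl⟩ | ⟨i, rfl⟩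
      · simp only [map_mul, D.sp, D.cov, ← Finset.mul_sum]
        simp only [Equiv.coe_addRight, hs, mul_zero]
      · simp only [map_mul, D.sp', D.cov, ← Finset.mul_sum]
        simp only [Equiv.coe_addRight, hs, mul_zero]
    | zero => simp
    | add a b _ _ ha hb => simp only [map_add, Finset.sum_add_distrib, ha, hb, add_zero]
    | smul r a _ ha => simp only [map_smul, ← Finset.smul_sum, ha, smul_zero]
  intro h
  have := key _ h
  simp only [D.alt, sign_addRight] at this
  simp [D.a0] at this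

lemma plus {i j : Fin 7} (hij : i ≠ j) (h : R) (hh : h ∈ Submodule.span ℂ D.S) :
    h + rename (swap i j) h ∈ D.V' := by
  induction hh using Submodule.span_induction with
  | mem s hs =>
    rcases hs with rfl | ⟨l, rfl⟩ | ⟨l, rfl⟩
    · rw [D.swap_a hij, add_neg_cancel]; exact zero_mem _
    · exact add_mem (D.pV l) (D.V'_stable _ _ (D.pV l))
    · exact add_mem (D.pV' l) (D.V'_stable _ _ (D.pV' l))
  | zero => simp
  | add a b _ _ ha hb =>
    rw [map_add, add_add_add_comm]; exact add_mem ha hb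
  | smul r a _ ha => rw [map_smul, ← smul_add]; exact Submodule.smul_mem _ r ha

lemma minus {i j : Fin 7} (hij : i ≠ j) (h : R) (hh : h ∈ Submodule.span ℂ D.S) :
    ∃ α β β' : ℂ, h - rename (swap i j) h =
      C α * D.a + (C β * D.p + C β' * D.p') * (D.F i - D.F j) := by
  have hF : ∀ l, ∃ γ : ℂ, D.F l - D.F (swap i j l) = C γ * (D.F i - D.F j) := by
    intro l
    by_cases h1 : l = i
    · exact ⟨1, by rw [h1, swap_apply_left]; simp⟩
    by_cases h2 : l = j
    · exact ⟨-1, by rw [h2, swap_apply_right]; simp⟩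
    · exact ⟨0, by rw [swap_apply_of_ne_of_ne h1 h2]; simp⟩
  induction hh using Submodule.span_induction with
  | mem s hs =>
    rcases hs with rfl | ⟨l, rfl⟩ | ⟨l, rfl⟩
    · refine ⟨2, 0, 0, ?_⟩
      rw [D.swap_a hij, map_ofNat, map_zero]
      ring
    · obtain ⟨γ, hγ⟩ := hF l
      refine ⟨0, γ, 0, ?_⟩
      rw [map_mul, D.sp, D.cov, map_zero]
      linear_combination D.p * hγ
    · obtain ⟨γ, hγ⟩ := hF l
      refine ⟨0, 0, γ, ?_⟩
      rw [map_mul, D.sp', D.cov, map_zero]
      linear_combination D.p' * hγ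
  | zero => exact ⟨0, 0, 0, by simp⟩
  | add a b _ _ ha hb =>
    obtain ⟨α, β, β', h1⟩ := ha
    obtain ⟨α2, β2, β2', h2⟩ := hb
    refine ⟨α + α2, β + β2, β' + β2', ?_⟩
    simp only [map_add]
    linear_combination h1 + h2
  | smul r a _ ha =>
    obtain ⟨α, β, β', h1⟩ := ha
    refine ⟨r * α, r * β, r * β', ?_⟩
    rw [map_smul, smul_eq_C_mul, smul_eq_C_mul]
    simp only [map_mul]
    linear_combination C r * h1

lemma T_F (q : R) (hq : ∀ σ : G, rename σ q = q) (l : Fin 7) :
    ∃ c : ℂ, ∑ k, rename (rho k) (q * D.F l) = C c * (q * D.F 0) := by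
  simp only [map_mul, hq, D.cov, ← Finset.mul_sum]
  refine Fin.cases ?_ (fun y => ?_) l
  · refine ⟨6, ?_⟩
    simp only [rho_zero, Finset.sum_const, Finset.card_univ, Fintype.card_fin, nsmul_eq_mul,
      map_ofNat]
    push_cast
    ring
  · refine ⟨-1, ?_⟩
    simp only [rho_succ]
    have h1 : ∑ k : Fin 6, D.F (y + k).succ = ∑ k : Fin 6, D.F k.succ :=
      Equiv.sum_comp (Equiv.addLeft y) (fun k => D.F k.succ)
    have h2 := D.s1
    rw [Fin.sum_univ_succ] at h2
    rw [h1, map_neg, map_one]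
    linear_combination q * h2

lemma Z_bound (q : R) (hq : ∀ σ : G, rename σ q = q) (h : R)
    (hh : h ∈ Submodule.span ℂ {s | s = D.a ∨ ∃ l, s = q * D.F l}) :
    ∃ c : ℂ, ∑ k, rename (rho k) (h + rename (swap (5 : Fin 7) 6) h) = C c * (q * D.F 0) := by
  induction hh using Submodule.span_induction with
  | mem s hs =>
    rcases hs with rfl | ⟨l, rfl⟩
    · refine ⟨0, ?_⟩
      rw [D.swap_a (by decide), add_neg_cancel]
      simp
    · obtain ⟨c1, h1⟩ := D.T_F q hq l
      obtain ⟨c2, h2⟩ := D.T_F q hq (swap 5 6 l)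
      refine ⟨c1 + c2, ?_⟩
      rw [map_mul (rename (swap (5 : Fin 7) 6)), hq, D.cov]
      simp only [map_add, Finset.sum_add_distrib]
      rw [h1, h2]
      ring
  | zero => exact ⟨0, by simp⟩
  | add a b _ _ ha hb =>
    obtain ⟨c1, h1⟩ := ha
    obtain ⟨c2, h2⟩ := hb
    refine ⟨c1 + c2, ?_⟩
    simp only [map_add, Finset.sum_add_distrib] at h1 h2 ⊢
    linear_combination h1 + h2
  | smul r a _ ha =>
    obtain ⟨c1, h1⟩ := ha
    refine ⟨r * c1, ?_⟩
    rw [map_smul, ← smul_add]
    simp only [map_smul, ← Finset.smul_sum]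
    rw [h1, smul_eq_C_mul, map_mul]
    ring

lemma Z_val (q r : R) (hq : ∀ σ : G, rename σ q = q) (hr : ∀ σ : G, rename σ r = r)
    (hh : r * D.F 0 ∈ Submodule.span ℂ {s | s = D.a ∨ ∃ l, s = q * D.F l}) :
    ∃ c : ℂ, 12 * r = C c * q := by
  obtain ⟨c, hc⟩ := D.Z_bound q hq _ hh
  refine ⟨c, ?_⟩
  simp only [map_add, map_mul, hr, D.cov, show swap (5 : Fin 7) 6 0 = 0 by decide, rho_zero,
    Finset.sum_const, Finset.card_univ, Fintype.card_fin, nsmul_eq_mul] at hc
  apply mul_right_cancel₀ D.F0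
  push_cast at hc
  linear_combination hc

lemma S_hom (s : R) (hs : s ∈ D.S) : Hom D.N s := by
  rcases hs with rfl | ⟨l, rfl⟩ | ⟨l, rfl⟩
  · exact D.ha
  · exact D.hp l
  · exact D.hp' l

theorem no_eigen (g : R) (hg : D.J = psi g) {i j : Fin 7} (hij : i ≠ j) (c : ℂ) :
    rename (swap i j) g ≠ c • g := by
  intro hc
  have hgJ : g ∈ Ideal.span D.S := by
    change g ∈ D.J
    rw [hg]; exact self_mem_psi g
  obtain ⟨hlow, hV⟩ := span_cp D.N D.S (fun s hs => (D.S_hom s hs).low) g hgJ
  set gN := cp D.N g with hgN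
  have hV2 : gN ∈ Submodule.span ℂ D.S := by
    refine Submodule.span_mono ?_ hV
    rintro _ ⟨s, hs, rfl⟩
    rw [(D.S_hom s hs).cp_self]
    exact hs
  have hcN : rename (swap i j) gN = c • gN := by
    rw [hgN, ← cp_rename, hc, map_smul]
  have hW : ∀ U : Submodule ℂ R, (∀ σ : G, rename σ gN ∈ U) → ∀ s ∈ D.S, s ∈ U := by
    intro U hU s hs
    have h1 : s ∈ psi g := by
      rw [← hg]; exact Ideal.subset_span hs
    have h2 := (span_cp D.N _ (by
      rintro _ ⟨σ, rfl⟩ m hm
      change cp m (rename σ g) = 0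
      rw [cp_rename, hlow m hm, map_zero]) s h1).2
    rw [(D.S_hom s hs).cp_self] at h2
    refine (Submodule.span_le.2 ?_) h2
    rintro _ ⟨_, ⟨σ, rfl⟩, rfl⟩
    change cp D.N (rename σ g) ∈ U
    rw [cp_rename]
    exact hU σ
  by_cases hm : c = -1
  · obtain ⟨α, β, β', h1⟩ := D.minus hij gN hV2
    rw [hcN, hm] at h1
    set q := C β * D.p + C β' * D.p' with hq
    have hqs : ∀ σ : G, rename σ q = q := by
      intro σ
      simp only [hq, map_add, map_mul, rename_C, D.sp, D.sp']
    let Z : Submodule ℂ R := Submodule.span ℂ {s | s = D.a ∨ ∃ l, s = q * D.F l}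
    have haZ : D.a ∈ Z := Submodule.subset_span (Or.inl rfl)
    have hqZ : ∀ l, q * D.F l ∈ Z := fun l => Submodule.subset_span (Or.inr ⟨l, rfl⟩)
    have h2 : gN = (1 / 2 : ℂ) • (α • D.a + (q * D.F i - q * D.F j)) := by
      rw [smul_eq_C_mul D.a α, ← mul_sub, ← h1]
      module
    have hZ : ∀ σ : G, rename σ gN ∈ Z := by
      intro σ
      rw [h2]
      simp only [map_smul, map_add, map_sub, map_mul, hqs, D.cov, D.alt]
      refine Submodule.smul_mem _ _ (add_mem (Submodule.smul_mem _ _ ?_) (sub_mem (hqZ _) (hqZ _)))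
      rw [← zsmul_eq_mul]
      exact zsmul_mem haZ _
    obtain ⟨l1, h3⟩ := D.Z_val q D.p hqs D.sp (hW Z hZ _ (Or.inr (Or.inl ⟨0, rfl⟩)))
    obtain ⟨l2, h4⟩ := D.Z_val q D.p' hqs D.sp' (hW Z hZ _ (Or.inr (Or.inr ⟨0, rfl⟩)))
    have h5 := D.ind (12 - l1 * β) (-(l1 * β')) (by
      simp only [map_sub, map_neg, map_mul, map_ofNat]
      rw [hq] at h3
      linear_combination h3)
    have h6 := D.ind (-(l2 * β)) (12 - l2 * β') (by
      simp only [map_sub, map_neg, map_mul, map_ofNat]
      rw [hq] at h4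
      linear_combination h4)
    have h7 : (144 : ℂ) = 0 := by
      linear_combination (12 : ℂ) * h5.1 + (l1 * β) * h6.2 - (l2 * β) * h5.2
    norm_num at h7
  · have h1 := D.plus hij gN hV2
    rw [hcN] at h1
    have h2 : (1 + c) ≠ 0 := fun h => hm (by linear_combination h)
    have h3 : gN ∈ D.V' := by
      have h4 := Submodule.smul_mem _ (1 + c)⁻¹ h1
      have h5 : (1 + c)⁻¹ • (gN + c • gN) = gN := by
        rw [show gN + c • gN = (1 + c) • gN by rw [add_smul, one_smul], smul_smul,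
          inv_mul_cancel₀ h2, one_smul]
      rwa [h5] at h4
    exact D.a_not_mem (hW D.V' (fun σ => D.V'_stable σ _ h3) _ (Or.inl rfl))

end Data

end H64.Psi
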