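import Mathlib

/-! A homogeneous quasimorphism on the free group of rank two which is not a homomorphism. -/

namespace Pool.Agent.H64.QuasiF2

open CircleDeg1Lift Real

lemma strictMono_aux (c : ℝ) (s : ℝ) (hs : |s| = 1) :
    StrictMono fun y : ℝ => y + (c + s * cos (2 * π * y)) / 8 := by
  intro x y hxy
  have h1 := abs_cos_sub_cos_le (2 * π * y) (2 * π * x)
  have h2 : |2 * π * y - 2 * π * x| = 2 * π * (y - x) := by
    rw [← mul_sub, abs_of_nonneg]
    have := pi_pos
    have : 0 < y - x := by linarith
    positivity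
  have h3 : |s * cos (2 * π * y) - s * cos (2 * π * x)| ≤ 2 * π * (y - x) := by
    rw [← mul_sub, abs_mul, hs, one_mul, ← h2]; exact h1
  have h4 := (abs_le.1 h3).1
  have h5 : π < 4 := pi_lt_four
  have h6 : 0 < y - x := by linarith
  have h7 : π * (y - x) < 4 * (y - x) := by nlinarith
  show x + (c + s * cos (2 * π * x)) / 8 < y + (c + s * cos (2 * π * y)) / 8
  nlinarith

noncomputable def mk (s : ℝ) (hs : |s| = 1) : CircleDeg1Lift where
  toFun y := y + (1 + s * cos (2 * π * y)) / 8
  monotone' := (strictMono_aux 1 s hs).monotone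
  map_add_one' x := by
    have : cos (2 * π * (x + 1)) = cos (2 * π * x) := by
      rw [mul_add, mul_one, cos_add_two_pi]
    simp only [this]; ring

lemma mk_apply (s : ℝ) (hs : |s| = 1) (y : ℝ) :
    mk s hs y = y + (1 + s * cos (2 * π * y)) / 8 := rfl

lemma mk_cont (s : ℝ) (hs : |s| = 1) : Continuous (mk s hs) := by
  show Continuous fun y : ℝ => y + (1 + s * cos (2 * π * y)) / 8
  fun_prop

lemma mk_unit (s : ℝ) (hs : |s| = 1) : IsUnit (mk s hs) :=
  isUnit_iff_bijective.2 ⟨(strictMono_aux 1 s hs).injective,
    (continuous_iff_surjective _).1 (mk_cont s hs)⟩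

noncomputable def a : CircleDeg1Lift := mk (-1) (by simp)
noncomputable def b : CircleDeg1Lift := mk 1 (by simp)

lemma tau_a : translationNumber a = 0 := by
  have := translationNumber_of_eq_add_int a (x := 0) (m := 0) (by simp [a, mk_apply])
  simpa using this

lemma tau_b : translationNumber b = 0 := by
  have := translationNumber_of_eq_add_int b (x := 1 / 2) (m := 0) (by
    have : 2 * π * (1 / 2) = π := by ring
    rw [b, mk_apply, this, cos_pi]; simp)
  simpa using this

lemma tau_ba : 0 < translationNumber (b * a) := by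
  have hc : Continuous (b * a) := by
    rw [coe_mul]
    exact (mk_cont 1 (by simp)).comp (mk_cont (-1) (by simp))
  refine lt_translationNumber_of_forall_add_lt _ hc fun x => ?_
  rw [mul_apply, add_zero]
  have h1 : ∀ y, y ≤ b y := fun y => by
    have := neg_one_le_cos (2 * π * y)
    rw [b, mk_apply]; linarith
  by_cases h : cos (2 * π * x) = 1
  · have : a x = x := by rw [a, mk_apply, h]; simp
    rw [this, b, mk_apply, h]; linarith
  · have h2 := cos_le_one (2 * π * x)
    have h3 : cos (2 * π * x) < 1 := lt_of_le_of_ne h2 h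
    have : x < a x := by rw [a, mk_apply]; linarith
    exact this.trans_le (h1 _)

noncomputable def rep : FreeGroup Bool →* CircleDeg1Lift :=
  (Units.coeHom _).comp (FreeGroup.lift fun t => cond t (mk_unit (-1) (by simp)).unit
    (mk_unit 1 (by simp)).unit)

/-- the quasimorphism -/
noncomputable def Q (w : FreeGroup Bool) : ℝ := translationNumber (rep w)

lemma Q_defect (u v : FreeGroup Bool) : |Q v - Q (u * v) + Q u| ≤ 4 := by
  unfold Q
  rw [map_mul]
  have h1 := dist_map_zero_translationNumber_le (rep u)
  have h2 := dist_map_zero_translationNumber_le (rep v)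
  have h3 := dist_map_zero_translationNumber_le (rep u * rep v)
  have h4 := dist_map_map_zero_lt (rep u) (rep v)
  rw [mul_apply] at h3
  rw [Real.dist_eq, abs_le] at h1 h2 h3
  rw [Real.dist_eq, abs_lt] at h4
  rw [abs_le]
  constructor <;> linarith [h1.1, h1.2, h2.1, h2.2, h3.1, h3.2, h4.1, h4.2]

lemma Q_pow (u : FreeGroup Bool) (n : ℕ) : Q (u ^ n) = n * Q u := by
  unfold Q
  rw [map_pow, translationNumber_pow]

lemma Q_true : Q (FreeGroup.of true) = 0 := by
  have : rep (FreeGroup.of true) = a := by simp [rep, a]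
  rw [Q, this, tau_a]

lemma Q_false : Q (FreeGroup.of false) = 0 := by
  have : rep (FreeGroup.of false) = b := by simp [rep, b]
  rw [Q, this, tau_b]

lemma Q_mul : Q (FreeGroup.of false * FreeGroup.of true) ≠ 0 := by
  have h1 : rep (FreeGroup.of true) = a := by simp [rep, a]
  have h2 : rep (FreeGroup.of false) = b := by simp [rep, b]
  rw [Q, map_mul, h1, h2]
  exact tau_ba.ne'

/-- the coboundary of `Q ∘ π` is not the coboundary of a bounded function -/
theorem not_bounded_coboundary {G : Type*} [Group G] (π' : G →* FreeGroup Bool)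
    (hπ : Function.Surjective π') (h : G → ℝ) (C : ℝ) (hC : ∀ g, |h g| ≤ C)
    (H : ∀ u v, h v - h (u * v) + h u = Q (π' v) - Q (π' (u * v)) + Q (π' u)) : False := by
  have hz : ∀ g, h g = 0 := by
    intro g
    have key : ∀ n : ℕ, h (g ^ (n + 1)) = (n + 1) * h g := by
      intro n
      induction n with
      | zero => simp
      | succ n ih =>
        have := H (g ^ (n + 1)) g
        rw [← pow_succ, map_pow, map_pow, Q_pow, Q_pow, ih] at this
        push_cast at this ⊢
        linarith
    by_contra hg
    have hpos : 0 < |h g| := abs_pos.2 hg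
    obtain ⟨n, hn⟩ := exists_nat_gt (C / |h g|)
    have h1 := hC (g ^ (n + 1))
    rw [key, abs_mul, abs_of_nonneg (by positivity)] at h1
    rw [div_lt_iff₀ hpos] at hn
    nlinarith
  obtain ⟨x, hx⟩ := hπ (FreeGroup.of false)
  obtain ⟨y, hy⟩ := hπ (FreeGroup.of true)
  have := H x y
  rw [hz, hz, hz, map_mul, hx, hy, Q_true, Q_false] at this
  apply Q_mul
  linarith

end Pool.Agent.H64.QuasiF2
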