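import Mathlib

set_option autoImplicit false

namespace Pool.Agent.H64.RW

/-- finitary permutations of the natural numbers -/
def FS : Subgroup (Equiv.Perm ℕ) where
  carrier := {σ | {i | σ i ≠ i}.Finite}
  one_mem' := by simp
  mul_mem' := fun {a b} ha hb => (ha.union hb).subset (by
    intro i hi
    by_contra h
    simp only [Set.mem_union, Set.mem_setOf_eq, not_or, not_not] at h
    exact hi (by simp [h.1, h.2]))
  inv_mem' := fun {a} ha => ha.subset (by
    intro i hi h
    exact hi (Equiv.Perm.inv_eq_iff_eq.2 h.symm))

instance : Countable FS := by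
  let φ : FS → (ℕ →₀ ℤ) := fun σ => Finsupp.ofSupportFinite (fun i => (σ.1 i : ℤ) - i)
    (σ.2.subset (by intro i hi h; exact hi (by simp [h])))
  refine Function.Injective.countable (f := φ) fun a b h => ?_
  ext i
  have := congrArg (fun u : ℕ →₀ ℤ => u i) h
  simpa [φ, Finsupp.ofSupportFinite_coe] using this

/-- transpositions -/
def sw (i j : ℕ) : FS := ⟨Equiv.swap i j, (Set.toFinite {i, j}).subset (by
  intro k hk
  by_contra h
  simp only [Set.mem_insert_iff, Set.mem_singleton_iff, not_or] at h
  exact hk (Equiv.swap_apply_of_ne_of_ne h.1 h.2))⟩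

theorem FS_smul (σ : FS) (i : ℕ) : σ • i = σ.1 i := rfl

/-- restricted permutational wreath product -/
@[ext] structure Wr (A K X : Type) [One A] where
  f : X → A
  k : K
  fin : {x | f x ≠ 1}.Finite

variable {A K X : Type} [Group A] [Group K] [MulAction K X]

instance : Mul (Wr A K X) := ⟨fun a b => ⟨fun x => a.f x * b.f (a.k⁻¹ • x), a.k * b.k,
  (a.fin.union (b.fin.preimage (MulAction.injective a.k⁻¹).injOn)).subset (by
    intro x hx
    by_contra h
    simp only [Set.mem_union, Set.mem_setOf_eq, Set.mem_preimage, not_or, not_not] at h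
    exact hx (by simp [h.1, h.2]))⟩⟩
instance : One (Wr A K X) := ⟨⟨fun _ => 1, 1, by simp⟩⟩
instance : Inv (Wr A K X) := ⟨fun a => ⟨fun x => (a.f (a.k • x))⁻¹, a.k⁻¹,
  (a.fin.preimage (MulAction.injective a.k).injOn).subset (by
    intro x hx h
    exact hx (by simp [h]))⟩⟩

@[simp] theorem mul_f (a b : Wr A K X) (x : X) : (a * b).f x = a.f x * b.f (a.k⁻¹ • x) := rfl
@[simp] theorem mul_k (a b : Wr A K X) : (a * b).k = a.k * b.k := rfl
@[simp] theorem one_f (x : X) : (1 : Wr A K X).f x = 1 := rfl
@[simp] theorem one_k : (1 : Wr A K X).k = 1 := rfl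
@[simp] theorem inv_f (a : Wr A K X) (x : X) : (a⁻¹).f x = (a.f (a.k • x))⁻¹ := rfl
@[simp] theorem inv_k (a : Wr A K X) : (a⁻¹).k = a.k⁻¹ := rfl

instance : Group (Wr A K X) := Group.ofLeftAxioms
  (fun a b c => by ext1; · funext x; simp [mul_assoc, mul_smul]
                   · simp [mul_assoc])
  (fun a => by ext1; · funext x; simp
               · simp)
  (fun a => by ext1; · funext x; simp
               · simp)

instance [Countable A] [Countable K] [Countable X] : Countable (Wr A K X) := by
  haveI : Countable (Additive A) := inferInstanceAs (Countable A)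
  let φ : Wr A K X → (X →₀ Additive A) × K := fun w =>
    (Finsupp.ofSupportFinite (fun x => Additive.ofMul (w.f x)) w.fin, w.k)
  refine Function.Injective.countable (f := φ) fun a b h => ?_
  ext1
  · funext x
    have := congrArg (fun u : (X →₀ Additive A) × K => u.1 x) h
    simpa [φ, Finsupp.ofSupportFinite_coe] using this
  · exact congrArg Prod.snd h

open Classical in
/-- an element supported at one point -/
noncomputable def single (x : X) : A →* Wr A K X where
  toFun a := ⟨fun y => if y = x then a else 1, 1, (Set.finite_singleton x).subset (by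
    intro y hy
    by_contra h
    exact hy (if_neg h))⟩
  map_one' := by ext1; · funext y; simp
                 · rfl
  map_mul' a b := by
    ext1
    · funext y; simp only [mul_f, inv_one, one_smul]; split_ifs <;> simp
    · simp

open Classical in
theorem single_f (x : X) (a : A) (y : X) :
    (single x a : Wr A K X).f y = if y = x then a else 1 := rfl
@[simp] theorem single_k (x : X) (a : A) : (single x a : Wr A K X).k = 1 := rfl

theorem conj_single (w : Wr A K X) (x : X) (a : A) :
    w * single x a * w⁻¹ = single (w.k • x) (w.f (w.k • x) * a * (w.f (w.k • x))⁻¹) := by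
  ext1
  · funext y
    simp only [mul_f, inv_f, mul_k, single_k, mul_one, smul_inv_smul, single_f]
    by_cases h : y = w.k • x
    · subst h; simp
    · rw [if_neg h, if_neg (fun e => h (inv_smul_eq_iff.1 e))]; simp
  · simp

/-- the top group -/
def top (k : K) : Wr A K X := ⟨fun _ => 1, k, by simp⟩
@[simp] theorem top_f (k : K) (x : X) : (top k : Wr A K X).f x = 1 := rfl
@[simp] theorem top_k (k : K) : (top k : Wr A K X).k = k := rfl

end Pool.Agent.H64.RW
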