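import Mathlib

set_option autoImplicit false

namespace Pool.Agent.H64.ResQ

open Polynomial

abbrev F := AlgebraicClosure ℚ

theorem int_poly {R : Type} [AddCommGroup R] [Module F R] [Module.Finite F R]
    (L : Module.End F R) : ∃ q : ℤ[X], q ≠ 0 ∧ aeval L (q.map (algebraMap ℤ F)) = 0 := by
  obtain ⟨p, hp, hL⟩ : IsIntegral F L := Algebra.IsIntegral.isIntegral L
  have h1 : IsIntegral F (AdjoinRoot.root p) := AdjoinRoot.isIntegral_root' hp
  haveI : Algebra.IsAlgebraic ℚ F := AlgebraicClosure.isAlgebraic ℚ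
  haveI : Algebra.IsIntegral ℚ F := Algebra.IsAlgebraic.isIntegral
  have h2 : IsIntegral ℚ (AdjoinRoot.root p) := isIntegral_trans _ h1
  obtain ⟨q, hq, hq2⟩ := (IsFractionRing.isAlgebraic_iff ℤ ℚ (AdjoinRoot p)).2 h2.isAlgebraic
  refine ⟨q, hq, ?_⟩
  have h3 : aeval (AdjoinRoot.root p) (q.map (algebraMap ℤ F)) = 0 := by
    rw [aeval_map_algebraMap]; exact hq2
  rw [AdjoinRoot.aeval_eq, AdjoinRoot.mk_eq_zero] at h3
  obtain ⟨c, hc⟩ := h3
  rw [hc, map_mul]
  have : aeval L p = 0 := hL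
  rw [this, zero_mul]

theorem nil_of_chars {R : Type} [CommRing R] [Algebra F R] [Module.Finite F R] (r : R)
    (h : ∀ χ : R →ₐ[F] F, χ r = 0) : r ∈ nilradical R := by
  rw [mem_nilradical, nilpotent_iff_mem_prime]
  intro J hJ
  have hb : Function.Bijective (algebraMap F (R ⧸ J)) :=
    IsAlgClosed.algebraMap_bijective_of_isIntegral
  let e : F ≃ₐ[F] (R ⧸ J) := AlgEquiv.ofBijective (Algebra.ofId F (R ⧸ J)) hb
  have := h (e.symm.toAlgHom.comp (Ideal.Quotient.mkₐ F J))
  have h2 : e.symm (Ideal.Quotient.mk J r) = 0 := this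
  exact Ideal.Quotient.eq_zero_iff_mem.1 ((map_eq_zero_iff _ e.symm.injective).1 h2)

section
variable {R : Type} [CommRing R] [Algebra F R] (θ : R →ₐ[F] R) (Y : ℤ[X] → R)
  (hadd : ∀ f g, Y (f + g) = Y f * Y g) (h0 : Y 0 = 1) (hX : ∀ f, Y (X * f) = θ (Y f))
include hadd h0 hX

theorem step (J J' : Ideal R) (hJ : ∀ x ∈ J, θ x ∈ J) (hJJ : ∀ x ∈ J, ∀ y ∈ J, x * y ∈ J')
    (P : ℤ[X]) : ∀ f, Y f - 1 ∈ J → Y (P * f) - 1 ∈ J ∧
      Y (P * f) - 1 - aeval (θ.toLinearMap : Module.End F R) (P.map (algebraMap ℤ F)) (Y f - 1) ∈ J' := by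
  have hadd1 : ∀ f g, Y f - 1 ∈ J → Y g - 1 ∈ J → Y (f + g) - 1 ∈ J := by
    intro f g hf hg
    have : Y (f + g) - 1 = (Y f - 1) * Y g + (Y g - 1) := by rw [hadd]; ring
    rw [this]; exact J.add_mem (J.mul_mem_right _ hf) hg
  have hneg : ∀ f, Y f - 1 ∈ J → Y (-f) - 1 ∈ J := by
    intro f hf
    have h1 : Y f * Y (-f) = 1 := by rw [← hadd, add_neg_cancel, h0]
    have : Y (-f) - 1 = -((Y f - 1) * Y (-f)) := by linear_combination h1
    rw [this]; exact J.neg_mem (J.mul_mem_right _ hf)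
  induction P using Polynomial.induction_on with
  | C a =>
    intro f hf
    have key : ∀ a : ℤ, Y (C a * f) - 1 ∈ J ∧ Y (C a * f) - 1 - (a : R) * (Y f - 1) ∈ J' := by
      intro a
      induction a using Int.induction_on with
      | zero => simp [h0]
      | succ n ih =>
        have e : (C ((n : ℤ) + 1) : ℤ[X]) * f = C (n : ℤ) * f + f := by rw [C_add, C_1]; ring
        rw [e]
        refine ⟨hadd1 _ _ ih.1 hf, ?_⟩
        have : Y (C (n : ℤ) * f + f) - 1 - (((n : ℤ) + 1 : ℤ) : R) * (Y f - 1) =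
            (Y (C (n : ℤ) * f) - 1 - ((n : ℤ) : R) * (Y f - 1)) +
              (Y (C (n : ℤ) * f) - 1) * (Y f - 1) := by
          rw [hadd]; push_cast; ring
        rw [this]; exact J'.add_mem ih.2 (hJJ _ ih.1 _ hf)
      | pred n ih =>
        have e : (C (-(n : ℤ) - 1) : ℤ[X]) * f = C (-(n : ℤ)) * f + -f := by
          rw [C_sub, C_1]; ring
        rw [e]
        refine ⟨hadd1 _ _ ih.1 (hneg f hf), ?_⟩
        have h1 : Y f * Y (-f) = 1 := by rw [← hadd, add_neg_cancel, h0]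
        have : Y (C (-(n : ℤ)) * f + -f) - 1 - ((-(n : ℤ) - 1 : ℤ) : R) * (Y f - 1) =
            (Y (C (-(n : ℤ)) * f) - 1 - ((-(n : ℤ) : ℤ) : R) * (Y f - 1)) +
              (Y (C (-(n : ℤ)) * f) - 1) * (Y (-f) - 1) - (Y f - 1) * (Y (-f) - 1) := by
          rw [hadd]; push_cast; linear_combination h1
        rw [this]
        exact J'.sub_mem (J'.add_mem ih.2 (hJJ _ ih.1 _ (hneg f hf))) (hJJ _ hf _ (hneg f hf))
    refine ⟨(key a).1, ?_⟩
    have : aeval (θ.toLinearMap : Module.End F R) ((C a).map (algebraMap ℤ F)) (Y f - 1) =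
        (a : R) * (Y f - 1) := by
      simp [Module.End.intCast_apply]
    rw [this]; exact (key a).2
  | add p q hp hq =>
    intro f hf
    obtain ⟨h1, h2⟩ := hp f hf
    obtain ⟨h3, h4⟩ := hq f hf
    rw [add_mul]
    refine ⟨hadd1 _ _ h1 h3, ?_⟩
    rw [Polynomial.map_add, map_add, LinearMap.add_apply]
    have : ∀ u v : R, Y (p * f + q * f) - 1 - (u + v) = (Y (p * f) - 1 - u) + (Y (q * f) - 1 - v) +
        (Y (p * f) - 1) * (Y (q * f) - 1) := by
      intro u v; rw [hadd]; ring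
    rw [this]
    exact J'.add_mem (J'.add_mem h2 h4) (hJJ _ h1 _ h3)
  | monomial n a ih =>
    intro f hf
    have e1 : Y (X * f) - 1 = θ (Y f - 1) := by rw [hX, map_sub, map_one]
    obtain ⟨h1, h2⟩ := ih (X * f) (by rw [e1]; exact hJ _ hf)
    have e : C a * X ^ (n + 1) * f = C a * X ^ n * (X * f) := by ring
    rw [e]
    refine ⟨h1, ?_⟩
    rw [e1] at h2
    have e2 : (C a * X ^ (n + 1) : ℤ[X]) = C a * X ^ n * X := by ring
    rw [e2, Polynomial.map_mul (p := C a * X ^ n), map_mul, Polynomial.map_X, aeval_X,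
      Module.End.mul_apply]
    exact h2

theorem kill [Module.Finite F R] : ∃ P : ℤ[X], P ≠ 0 ∧ Y P = 1 := by
  obtain ⟨q, hq, hq0⟩ := int_poly (θ.toLinearMap : Module.End F R)
  obtain ⟨i, j, hij, hf⟩ := Finite.exists_ne_map_eq_of_infinite
    (fun n : ℕ => fun χ : R →ₐ[F] F => χ.comp (θ ^ n))
  have hpow : ∀ n : ℕ, Y (X ^ n) = (θ ^ n) (Y 1) := by
    intro n
    induction n with
    | zero => simp
    | succ n ih => rw [pow_succ', hX, ih, pow_succ', AlgHom.mul_apply]
  have h1 : Y (X ^ i - X ^ j) - 1 ∈ nilradical R := by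
    have e1 : Y (X ^ i) - Y (X ^ j) ∈ nilradical R := by
      apply nil_of_chars
      intro χ
      have := congrArg (fun φ : R →ₐ[F] F => φ (Y 1)) (congrFun hf χ)
      simp only [AlgHom.comp_apply] at this
      rw [map_sub, hpow, hpow, this, sub_self]
    have e2 : Y (X ^ j) * Y (-X ^ j) = 1 := by rw [← hadd, add_neg_cancel, h0]
    have e3 : Y (X ^ i - X ^ j) - 1 = (Y (X ^ i) - Y (X ^ j)) * Y (-X ^ j) := by
      rw [sub_eq_add_neg (X ^ i : ℤ[X]), hadd]; linear_combination e2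
    rw [e3]; exact Ideal.mul_mem_right _ _ e1
  have hne : (X ^ i - X ^ j : ℤ[X]) ≠ 0 := by
    intro h
    have := congrArg natDegree (sub_eq_zero.1 h)
    simp at this
    exact hij this
  have hθ : ∀ k : ℕ, ∀ x ∈ nilradical R ^ k, θ x ∈ nilradical R ^ k := by
    intro k x hx
    have h2 : Ideal.map θ (nilradical R) ≤ nilradical R := by
      rw [Ideal.map_le_iff_le_comap]
      intro y hy
      exact mem_nilradical.2 ((mem_nilradical.1 hy).map θ)
    have h3 := Ideal.mem_map_of_mem θ hx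
    rw [Ideal.map_pow] at h3
    exact Ideal.pow_right_mono h2 k h3
  have main : ∀ k : ℕ, Y (q ^ k * (X ^ i - X ^ j)) - 1 ∈ nilradical R ^ (k + 1) := by
    intro k
    induction k with
    | zero => simpa using h1
    | succ k ih =>
      have := (step θ Y hadd h0 hX (nilradical R ^ (k + 1)) (nilradical R ^ (k + 1 + 1)) (hθ _)
        (fun x hx y hy => by
          rw [pow_succ (nilradical R) (k + 1)]
          exact Ideal.mul_mem_mul hx (Ideal.pow_le_self (by omega) hy)) q _ ih).2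
      rw [hq0, LinearMap.zero_apply, sub_zero] at this
      rw [pow_succ' q, mul_assoc]; exact this
  haveI : IsNoetherianRing R := Algebra.FiniteType.isNoetherianRing F R
  obtain ⟨d, hd⟩ := IsNoetherianRing.isNilpotent_nilradical R
  refine ⟨q ^ d * (X ^ i - X ^ j), mul_ne_zero (pow_ne_zero _ hq) hne, ?_⟩
  have := main d
  rw [pow_succ, hd, zero_mul] at this
  exact sub_eq_zero.1 (by simpa using this)

end

open scoped IsMulCommutative in
theorem kill_mat {n : ℕ} (Y : ℤ[X] → Matrix (Fin n) (Fin n) F) (S : (Matrix (Fin n) (Fin n) F)ˣ)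
    (hadd : ∀ f g, Y (f + g) = Y f * Y g) (h0 : Y 0 = 1)
    (hX : ∀ f, Y (X * f) = (S⁻¹ : (Matrix (Fin n) (Fin n) F)ˣ) * Y f * S) :
    ∃ P : ℤ[X], P ≠ 0 ∧ Y P = 1 := by
  have hc : IsMulCommutative (Algebra.adjoin F (Set.range Y)) := by
    apply Algebra.isMulCommutative_adjoin
    rintro _ ⟨f, rfl⟩ _ ⟨g, rfl⟩
    rw [← hadd, ← hadd, add_comm]
  let c : Matrix (Fin n) (Fin n) F →ₐ[F] Matrix (Fin n) (Fin n) F :=
    { toFun := fun M => (S⁻¹ : (Matrix (Fin n) (Fin n) F)ˣ) * M * S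
      map_one' := by simp
      map_mul' := by intro a b; simp [mul_assoc]
      map_zero' := by simp
      map_add' := by intro a b; simp [mul_add, add_mul]
      commutes' := by
        intro r
        rw [mul_assoc, Algebra.commutes, ← mul_assoc]; simp }
  have hm : ∀ x ∈ Algebra.adjoin F (Set.range Y), c x ∈ Algebra.adjoin F (Set.range Y) := by
    intro x hx
    have : Algebra.adjoin F (Set.range Y) ≤ (Algebra.adjoin F (Set.range Y)).comap c := by
      apply Algebra.adjoin_le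
      rintro _ ⟨f, rfl⟩
      exact Algebra.subset_adjoin ⟨X * f, hX f⟩
    exact this hx
  let θ : Algebra.adjoin F (Set.range Y) →ₐ[F] Algebra.adjoin F (Set.range Y) :=
    (c.comp (Subalgebra.val _)).codRestrict _ (fun x => hm x.1 x.2)
  obtain ⟨P, hP, h⟩ := kill (R := Algebra.adjoin F (Set.range Y)) θ
    (fun f => ⟨Y f, Algebra.subset_adjoin ⟨f, rfl⟩⟩) (fun f g => Subtype.ext (hadd f g))
    (Subtype.ext h0) (fun f => Subtype.ext (hX f))
  exact ⟨P, hP, congrArg Subtype.val h⟩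

end Pool.Agent.H64.ResQ
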