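import Mathlib

set_option autoImplicit false

namespace Pool.Agent.H64.ResQ

open Polynomial LaurentPolynomial

abbrev A := LaurentPolynomial ℤ

noncomputable def alp : ℤ[X] := X + 1
noncomputable def gp : ℤ[X] := X ^ 2 + X + 1
noncomputable def al : A := toLaurent alp
noncomputable def ga : A := toLaurent gp ^ 2

@[ext] structure H where
  w : Aˣ
  a1 : A
  a2 : A
  b1 : A
  b2 : A
  c1 : A
  c2 : A

noncomputable instance : Mul H := ⟨fun g h => ⟨g.w * h.w, h.a1 + g.a1 * h.w, h.a2 + g.a2 * h.w,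
  g.w * h.b1 + g.b1, g.w * h.b2 + g.b2,
  h.c1 + 2 * (al * g.a1 * h.b1 - ga * g.a2 * h.b2) + g.c1,
  h.c2 + (g.a1 * h.b2 + g.a2 * h.b1) + g.c2⟩⟩
noncomputable instance : One H := ⟨⟨1, 0, 0, 0, 0, 0, 0⟩⟩
noncomputable instance : Inv H := ⟨fun g => ⟨g.w⁻¹, -g.a1 * (g.w⁻¹ : Aˣ), -g.a2 * (g.w⁻¹ : Aˣ),
  -(g.w⁻¹ : Aˣ) * g.b1, -(g.w⁻¹ : Aˣ) * g.b2,
  -g.c1 + 2 * (g.w⁻¹ : Aˣ) * (al * g.a1 * g.b1 - ga * g.a2 * g.b2),
  -g.c2 + (g.w⁻¹ : Aˣ) * (g.a1 * g.b2 + g.a2 * g.b1)⟩⟩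

@[simp] theorem mul_w (g h : H) : (g * h).w = g.w * h.w := rfl
@[simp] theorem mul_a1 (g h : H) : (g * h).a1 = h.a1 + g.a1 * h.w := rfl
@[simp] theorem mul_a2 (g h : H) : (g * h).a2 = h.a2 + g.a2 * h.w := rfl
@[simp] theorem mul_b1 (g h : H) : (g * h).b1 = g.w * h.b1 + g.b1 := rfl
@[simp] theorem mul_b2 (g h : H) : (g * h).b2 = g.w * h.b2 + g.b2 := rfl
@[simp] theorem mul_c1 (g h : H) :
    (g * h).c1 = h.c1 + 2 * (al * g.a1 * h.b1 - ga * g.a2 * h.b2) + g.c1 := rfl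
@[simp] theorem mul_c2 (g h : H) : (g * h).c2 = h.c2 + (g.a1 * h.b2 + g.a2 * h.b1) + g.c2 := rfl
@[simp] theorem one_w : (1 : H).w = 1 := rfl
@[simp] theorem one_a1 : (1 : H).a1 = 0 := rfl
@[simp] theorem one_a2 : (1 : H).a2 = 0 := rfl
@[simp] theorem one_b1 : (1 : H).b1 = 0 := rfl
@[simp] theorem one_b2 : (1 : H).b2 = 0 := rfl
@[simp] theorem one_c1 : (1 : H).c1 = 0 := rfl
@[simp] theorem one_c2 : (1 : H).c2 = 0 := rfl
@[simp] theorem inv_w (g : H) : (g⁻¹).w = g.w⁻¹ := rfl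
@[simp] theorem inv_a1 (g : H) : (g⁻¹).a1 = -g.a1 * (g.w⁻¹ : Aˣ) := rfl
@[simp] theorem inv_a2 (g : H) : (g⁻¹).a2 = -g.a2 * (g.w⁻¹ : Aˣ) := rfl
@[simp] theorem inv_b1 (g : H) : (g⁻¹).b1 = -(g.w⁻¹ : Aˣ) * g.b1 := rfl
@[simp] theorem inv_b2 (g : H) : (g⁻¹).b2 = -(g.w⁻¹ : Aˣ) * g.b2 := rfl
@[simp] theorem inv_c1 (g : H) : (g⁻¹).c1 =
    -g.c1 + 2 * (g.w⁻¹ : Aˣ) * (al * g.a1 * g.b1 - ga * g.a2 * g.b2) := rfl
@[simp] theorem inv_c2 (g : H) : (g⁻¹).c2 =
    -g.c2 + (g.w⁻¹ : Aˣ) * (g.a1 * g.b2 + g.a2 * g.b1) := rfl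

noncomputable instance : Group H := Group.ofLeftAxioms
  (by intro a b c; apply H.ext <;> simp [mul_assoc] <;> ring)
  (by intro a; apply H.ext <;> simp)
  (by intro a; apply H.ext <;> simp <;> ring)

noncomputable def x (a1 a2 : A) : H := ⟨1, a1, a2, 0, 0, 0, 0⟩
noncomputable def y (b1 b2 : A) : H := ⟨1, 0, 0, b1, b2, 0, 0⟩
noncomputable def z (c1 c2 : A) : H := ⟨1, 0, 0, 0, 0, c1, c2⟩
noncomputable def Tu : Aˣ := ⟨T 1, T (-1), by rw [← T_add]; rfl, by rw [← T_add]; rfl⟩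
noncomputable def tau : H := ⟨Tu, 0, 0, 0, 0, 0, 0⟩
noncomputable def sg : H := ⟨-1, 0, 0, 0, 0, 1, 0⟩

noncomputable def gens : Finset H := by
  classical exact {tau, sg, x 1 0, x 0 1, y 1 0, y 0 1}

noncomputable def Gam : Subgroup H := Subgroup.closure (gens : Set H)

theorem tau_mem : tau ∈ Gam := Subgroup.subset_closure (by simp [gens])
theorem sg_mem : sg ∈ Gam := Subgroup.subset_closure (by simp [gens])

theorem Tu_val : (Tu : A) = T 1 := rfl
theorem Tu_inv : ((Tu⁻¹ : Aˣ) : A) = T (-1) := rfl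

theorem fam (Φ : A → H) (hadd : ∀ f g, Φ (f + g) = Φ f * Φ g) (h1 : Φ 1 ∈ Gam)
    (hT : ∀ f, Φ f ∈ Gam → Φ (T 1 * f) ∈ Gam ∧ Φ (T (-1) * f) ∈ Gam) (f : A) : Φ f ∈ Gam := by
  have h0 : Φ 0 = 1 := by
    have := hadd 0 0
    rw [add_zero] at this
    exact left_eq_mul.1 this
  have hneg : ∀ f, Φ (-f) = (Φ f)⁻¹ := by
    intro f; rw [eq_inv_iff_mul_eq_one, ← hadd, neg_add_cancel, h0]
  induction f using LaurentPolynomial.induction_on with
  | h_C a =>
    induction a using Int.induction_on with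
    | zero => rw [map_zero, h0]; exact Gam.one_mem
    | succ n ih => rw [map_add, map_one, hadd]; exact Gam.mul_mem ih h1
    | pred n ih =>
      rw [map_sub, map_one, sub_eq_add_neg, hadd, hneg]; exact Gam.mul_mem ih (Gam.inv_mem h1)
  | h_add hp hq => rw [hadd]; exact Gam.mul_mem hp hq
  | h_C_mul_T n a ih =>
    have : (LaurentPolynomial.C a * T (n + 1) : A) = T 1 * (LaurentPolynomial.C a * T n) := by
      rw [T_add]; ring
    rw [this]; exact (hT _ ih).1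
  | h_C_mul_T_Z n a ih =>
    have : (LaurentPolynomial.C a * T (-n - 1) : A) = T (-1) * (LaurentPolynomial.C a * T (-n)) := by
      rw [T_sub]; ring
    rw [this]; exact (hT _ ih).2

theorem x_conj (a1 a2 : A) : x (T 1 * a1) (T 1 * a2) = tau⁻¹ * x a1 a2 * tau := by
  apply H.ext <;> simp [x, tau, Tu_val, mul_comm]
theorem x_conj' (a1 a2 : A) : x (T (-1) * a1) (T (-1) * a2) = tau * x a1 a2 * tau⁻¹ := by
  apply H.ext <;> simp [x, tau, Tu_inv] <;> ring
theorem y_conj (a1 a2 : A) : y (T 1 * a1) (T 1 * a2) = tau * y a1 a2 * tau⁻¹ := by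
  apply H.ext <;> simp [y, tau, Tu_val, mul_comm]
theorem y_conj' (a1 a2 : A) : y (T (-1) * a1) (T (-1) * a2) = tau⁻¹ * y a1 a2 * tau := by
  apply H.ext <;> simp [y, tau, Tu_inv]
theorem x_add (a1 a2 b1 b2 : A) : x (a1 + b1) (a2 + b2) = x a1 a2 * x b1 b2 := by
  apply H.ext <;> simp [x, add_comm]
theorem y_add (a1 a2 b1 b2 : A) : y (a1 + b1) (a2 + b2) = y a1 a2 * y b1 b2 := by
  apply H.ext <;> simp [y, add_comm]
theorem z_add (a1 a2 b1 b2 : A) : z (a1 + b1) (a2 + b2) = z a1 a2 * z b1 b2 := by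
  apply H.ext <;> simp [z, add_comm]
theorem comm_xy (a1 a2 b1 b2 : A) : x a1 a2 * (y b1 b2 * (x a1 a2)⁻¹ * (y b1 b2)⁻¹) =
    z (2 * (al * a1 * b1 - ga * a2 * b2)) (a1 * b2 + a2 * b1) := by
  apply H.ext <;> simp [x, y, z]

theorem x_mem (a1 a2 : A) : x a1 a2 ∈ Gam := by
  have h1 : x a1 0 ∈ Gam := by
    apply fam (fun f => x f 0) (fun f g => by rw [← x_add, add_zero])
      (Subgroup.subset_closure (by simp [gens]))
    intro f hf
    have e1 := x_conj f 0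
    have e2 := x_conj' f 0
    rw [mul_zero] at e1 e2
    rw [e1, e2]
    exact ⟨Gam.mul_mem (Gam.mul_mem (Gam.inv_mem tau_mem) hf) tau_mem,
      Gam.mul_mem (Gam.mul_mem tau_mem hf) (Gam.inv_mem tau_mem)⟩
  have h2 : x 0 a2 ∈ Gam := by
    apply fam (fun f => x 0 f) (fun f g => by rw [← x_add, add_zero])
      (Subgroup.subset_closure (by simp [gens]))
    intro f hf
    have e1 := x_conj 0 f
    have e2 := x_conj' 0 f
    rw [mul_zero] at e1 e2
    rw [e1, e2]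
    exact ⟨Gam.mul_mem (Gam.mul_mem (Gam.inv_mem tau_mem) hf) tau_mem,
      Gam.mul_mem (Gam.mul_mem tau_mem hf) (Gam.inv_mem tau_mem)⟩
  have := Gam.mul_mem h1 h2
  rwa [← x_add, add_zero, zero_add] at this

theorem y_mem (a1 a2 : A) : y a1 a2 ∈ Gam := by
  have h1 : y a1 0 ∈ Gam := by
    apply fam (fun f => y f 0) (fun f g => by rw [← y_add, add_zero])
      (Subgroup.subset_closure (by simp [gens]))
    intro f hf
    have e1 := y_conj f 0
    have e2 := y_conj' f 0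
    rw [mul_zero] at e1 e2
    rw [e1, e2]
    exact ⟨Gam.mul_mem (Gam.mul_mem tau_mem hf) (Gam.inv_mem tau_mem),
      Gam.mul_mem (Gam.mul_mem (Gam.inv_mem tau_mem) hf) tau_mem⟩
  have h2 : y 0 a2 ∈ Gam := by
    apply fam (fun f => y 0 f) (fun f g => by rw [← y_add, add_zero])
      (Subgroup.subset_closure (by simp [gens]))
    intro f hf
    have e1 := y_conj 0 f
    have e2 := y_conj' 0 f
    rw [mul_zero] at e1 e2
    rw [e1, e2]
    exact ⟨Gam.mul_mem (Gam.mul_mem tau_mem hf) (Gam.inv_mem tau_mem),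
      Gam.mul_mem (Gam.mul_mem (Gam.inv_mem tau_mem) hf) tau_mem⟩
  have := Gam.mul_mem h1 h2
  rwa [← y_add, add_zero, zero_add] at this

theorem bez : ∃ e : A, ga - al * e = 1 := by
  refine ⟨toLaurent (X * (gp + 1)), ?_⟩
  rw [ga, al, ← map_pow, ← map_mul, ← map_sub, ← map_one (toLaurent (R := ℤ))]
  congr 1
  rw [gp, alp]; ring

theorem z_mem (w1 w2 : A) : z (2 * w1) w2 ∈ Gam := by
  have h : ∀ a1 a2 b1 b2 : A, z (2 * (al * a1 * b1 - ga * a2 * b2)) (a1 * b2 + a2 * b1) ∈ Gam := by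
    intro a1 a2 b1 b2
    rw [← comm_xy]
    exact Gam.mul_mem (x_mem _ _) (Gam.mul_mem (Gam.mul_mem (y_mem _ _) (Gam.inv_mem (x_mem _ _)))
      (Gam.inv_mem (y_mem _ _)))
  obtain ⟨e, he⟩ := bez
  have := Gam.mul_mem (Gam.mul_mem (h (-e * w1) 0 1 0) (h 0 (-w1) 0 1)) (h w2 0 0 1)
  rw [← z_add, ← z_add] at this
  convert this using 2
  · linear_combination (-2 * w1) * he
  · ring

theorem alp_map : alp.map (Int.castRingHom (ZMod 2)) = X - Polynomial.C 1 := by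
  rw [alp, Polynomial.map_add, Polynomial.map_X, Polynomial.map_one, sub_eq_add_neg, ← Polynomial.C_neg]
  rfl

theorem two_dvd {p : ℤ[X]} (h : p.map (Int.castRingHom (ZMod 2)) = 0) : (2 : ℤ[X]) ∣ p := by
  have : (Polynomial.C 2 : ℤ[X]) ∣ p := by
    rw [C_dvd_iff_dvd_coeff]
    intro i
    have := congrArg (fun q => Polynomial.coeff q i) h
    simp only [Polynomial.coeff_map, Polynomial.coeff_zero] at this
    exact (ZMod.intCast_zmod_eq_zero_iff_dvd _ 2).1 this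
  exact this

theorem solve (m : ℤ[X]) (hm : ¬ (2 : ℤ[X]) ∣ m) :
    ∃ r s t e : ℤ[X], s * (alp + gp ^ 2 * r ^ 2) + t * m = 1 + 2 * e := by
  let φ := Polynomial.mapRingHom (Int.castRingHom (ZMod 2))
  have hs : Function.Surjective φ :=
    Polynomial.map_surjective _ (ZMod.ringHom_surjective _)
  have h0 : φ m ≠ 0 := fun h => hm (two_dvd h)
  have hirr : Irreducible (X - Polynomial.C 1 : (ZMod 2)[X]) := irreducible_X_sub_C 1
  obtain ⟨j, m2, h1, h2⟩ := WfDvdMonoid.max_power_factor h0 hirr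
  obtain ⟨r, rfl⟩ := hs m2
  have ha : φ alp = X - Polynomial.C 1 := alp_map
  have hg : ¬ (X - Polynomial.C 1 : (ZMod 2)[X]) ∣ φ gp := by
    rw [dvd_iff_isRoot]
    simp [φ, gp]
    decide
  have c1 : IsCoprime (X - Polynomial.C 1 : (ZMod 2)[X]) (φ r) :=
    hirr.coprime_iff_not_dvd.2 h1
  have c2 : IsCoprime (X - Polynomial.C 1 : (ZMod 2)[X]) (φ gp) :=
    hirr.coprime_iff_not_dvd.2 hg
  have c3 : IsCoprime (φ (alp + gp ^ 2 * r ^ 2)) (φ m) := by
    rw [h2, map_add, map_mul, map_pow, map_pow, ha]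
    apply IsCoprime.mul_right
    · apply IsCoprime.pow_right
      have := (IsCoprime.mul_right (c2.pow_right (n := 2)) (c1.pow_right (n := 2))).symm
      have := this.add_mul_left_left 1
      rwa [mul_one, add_comm] at this
    · have := c1.add_mul_left_left (φ gp ^ 2 * φ r)
      have e : X - Polynomial.C 1 + φ gp ^ 2 * φ r ^ 2 =
          X - Polynomial.C 1 + φ r * (φ gp ^ 2 * φ r) := by ring
      rw [e]; exact this
  obtain ⟨s, t, hst⟩ := c3
  obtain ⟨s, rfl⟩ := hs s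
  obtain ⟨t, rfl⟩ := hs t
  have : φ (s * (alp + gp ^ 2 * r ^ 2) + t * m - 1) = 0 := by
    rw [map_sub, map_add, map_mul, map_mul, hst, map_one, sub_self]
  obtain ⟨e, he⟩ := two_dvd this
  exact ⟨r, s, t, e, by linear_combination he⟩

theorem killz (K : Subgroup H) (K1 : ∀ g ∈ Gam, ∀ k ∈ K, g * k * g⁻¹ ∈ K)
    (K2 : ∀ g ∈ Gam, g * g ∈ K → g ∈ K) (P : ℤ[X]) (hP : P ≠ 0) (hx : x (toLaurent P) 0 ∈ K) :
    z 0 1 ∈ K := by
  have good0 : ∀ w : A, z (2 * (toLaurent (alp * P) * w)) 0 ∈ K := by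
    intro w
    have := K.mul_mem hx (K1 _ (y_mem w 0) _ (K.inv_mem hx))
    rw [comm_xy] at this
    convert this using 2
    · rw [map_mul, al]; ring
    · ring
  have hne : alp * P ≠ 0 := mul_ne_zero (by rw [alp]; exact X_add_C_ne_zero 1) hP
  have hu : ¬ IsUnit (2 : ℤ[X]) := by
    intro h
    have := h.map (Polynomial.evalRingHom 0)
    simp only [map_ofNat] at this
    rcases Int.isUnit_iff.1 this with h | h <;> omega
  obtain ⟨n, m, hm, he⟩ := WfDvdMonoid.max_power_factor' hne hu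
  have good : ∀ n : ℕ, (∀ w : A, z (2 * (toLaurent (2 ^ n * m) * w)) 0 ∈ K) →
      ∀ w : A, z (2 * (toLaurent m * w)) 0 ∈ K := by
    intro n
    induction n with
    | zero => intro h; simpa using h
    | succ n ih =>
      intro h
      apply ih
      intro w
      apply K2 _ (z_mem _ _)
      rw [← z_add]
      convert h w using 2
      · simp only [map_mul, map_pow, map_ofNat]; ring
      · ring
  have good1 := good n (he ▸ good0)
  obtain ⟨r, s, t, e, h⟩ := solve m hm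
  have h' := congrArg toLaurent h
  simp only [map_add, map_mul, map_pow, map_one, map_ofNat] at h'
  set g : H := y (toLaurent s) (-(toLaurent r * toLaurent s)) * sg * x 1 (toLaurent r) *
    z (2 * (-1 - toLaurent e)) 0 with hg
  have gm : g ∈ Gam :=
    Gam.mul_mem (Gam.mul_mem (Gam.mul_mem (y_mem _ _) sg_mem) (x_mem _ _)) (z_mem _ _)
  have gK : g ∈ K := by
    apply K2 _ gm
    convert good1 (-toLaurent t) using 1
    apply H.ext <;> simp [hg, x, y, z, sg]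
    rw [al, ga]; linear_combination 2 * h'
  have k1 := K.mul_mem gK (K1 _ (x_mem 1 0) _ (K.inv_mem gK))
  have k2 := K.mul_mem k1 (K1 _ (y_mem 0 (-1)) _ (K.inv_mem k1))
  apply K2 _ (by simpa using z_mem 0 1)
  convert k2 using 1
  apply H.ext <;> simp [hg, x, y, z, sg]
  all_goals ring

end Pool.Agent.H64.ResQ
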