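import Pool.Agent.H64.ResQ1
import Pool.Agent.H64.ResQ2

set_option autoImplicit false

namespace Pool.Agent.H64.ResQ

open Polynomial LaurentPolynomial

theorem no_mono (a b : (ZMod 2)[X]) (k : ℕ) :
    (X + 1) * a ^ 2 + (X ^ 2 + X + 1) ^ 2 * b ^ 2 ≠ X ^ k := by
  intro h
  have h2 : (2 : (ZMod 2)[X]) = 0 := by
    have : (2 : (ZMod 2)[X]) = Polynomial.C 2 := rfl
    rw [this]
    have : (2 : ZMod 2) = 0 := rfl
    rw [this, map_zero]
  have nd : ∀ m : ℕ, ¬ (X ^ 2 + X + 1 : (ZMod 2)[X]) ∣ X ^ m := by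
    intro m hm
    have c : IsCoprime (X ^ 2 + X + 1 : (ZMod 2)[X]) X := ⟨1, -(X + 1), by ring⟩
    have hu := (c.pow_right (n := m)).isUnit_of_dvd' dvd_rfl hm
    have hd := Polynomial.natDegree_eq_zero_of_isUnit hu
    have : (X ^ 2 + X + 1 : (ZMod 2)[X]).natDegree = 2 := by compute_degree!
    omega
  have hd := congrArg derivative h
  simp only [derivative_add, derivative_mul, derivative_X, derivative_one, derivative_pow,
    Nat.cast_ofNat] at hd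
  have e2 : (Polynomial.C (2 : ZMod 2)) = 0 := h2
  rw [e2] at hd
  simp only [zero_mul, mul_zero, add_zero, one_mul, mul_one] at hd
  rcases Nat.even_or_odd k with hk | hk
  · have : (k : ZMod 2) = 0 := (ZMod.natCast_eq_zero_iff_even).2 hk
    rw [this, map_zero, zero_mul] at hd
    rw [hd, mul_zero, zero_add] at h
    exact nd k ⟨(X ^ 2 + X + 1) * b ^ 2, by rw [← h]; ring⟩
  · have : (k : ZMod 2) = 1 := (ZMod.natCast_eq_one_iff_odd).2 hk
    rw [this, map_one, one_mul] at hd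
    obtain ⟨j, rfl⟩ := hk
    rw [hd, Nat.add_sub_cancel] at h
    exact nd (2 * j) ⟨-((X ^ 2 + X + 1) * b ^ 2), by linear_combination h⟩

theorem common (a b : A) : ∃ (n : ℕ) (p q : ℤ[X]), toLaurent p = a * T n ∧ toLaurent q = b * T n := by
  obtain ⟨n, p, hp⟩ := exists_T_pow a
  obtain ⟨m, q, hq⟩ := exists_T_pow b
  refine ⟨n + m, p * X ^ m, q * X ^ n, ?_, ?_⟩
  · rw [map_mul, hp, toLaurent_X_pow, mul_assoc, ← T_add]; push_cast; rfl
  · rw [map_mul, hq, toLaurent_X_pow, mul_assoc, ← T_add, add_comm]; push_cast; rfl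

theorem no_sol (a1 a2 b1 b2 d c : A) (h1 : 1 + 2 * d + (al * a1 * b1 - ga * a2 * b2) = 0)
    (h2 : 2 * c + (a1 * b2 + a2 * b1) = 0) : False := by
  obtain ⟨n, p1, p2, hp1, hp2⟩ := common a1 a2
  obtain ⟨m, q1, q2, hq1, hq2⟩ := common b1 b2
  obtain ⟨l, e, he⟩ := exists_T_pow (2 * (d + d ^ 2 + al * ga * c ^ 2))
  have key : (al * a1 ^ 2 + ga * a2 ^ 2) * (al * b1 ^ 2 + ga * b2 ^ 2) =
      1 + 2 * (2 * (d + d ^ 2 + al * ga * c ^ 2)) := by
    linear_combination (al * a1 * b1 - ga * a2 * b2 - 1 - 2 * d) * h1 +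
      al * ga * (a1 * b2 + a2 * b1 - 2 * c) * h2
  have k2 : (alp * p1 ^ 2 + gp ^ 2 * p2 ^ 2) * ((alp * q1 ^ 2 + gp ^ 2 * q2 ^ 2) * X ^ l) =
      X ^ (2 * n + 2 * m + l) + 2 * (e * X ^ (2 * n + 2 * m)) := by
    apply toLaurent_injective
    simp only [map_add, map_mul, map_pow, map_ofNat, hp1, hp2, hq1, hq2, he, toLaurent_X]
    have t1 : (T n : A) = T 1 ^ n := by rw [T_pow, mul_one]
    have t2 : (T m : A) = T 1 ^ m := by rw [T_pow, mul_one]
    have t3 : (T l : A) = T 1 ^ l := by rw [T_pow, mul_one]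
    rw [t1, t2, t3]
    rw [al, ga] at key
    rw [al, ga]
    linear_combination (T 1 ^ (2 * n + 2 * m + l) : A) * key
  have k3 := congrArg (Polynomial.mapRingHom (Int.castRingHom (ZMod 2))) k2
  have h2' : (2 : (ZMod 2)[X]) = 0 := by
    have : (2 : (ZMod 2)[X]) = Polynomial.C 2 := rfl
    rw [this]
    have : (2 : ZMod 2) = 0 := rfl
    rw [this, map_zero]
  simp only [map_add, map_mul, map_pow, map_ofNat, h2', zero_mul, add_zero, alp, gp, map_one,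
    coe_mapRingHom, Polynomial.map_X] at k3
  obtain ⟨i, -, u, hu⟩ := (dvd_prime_pow prime_X _).1 (Dvd.intro _ k3)
  obtain ⟨r, hr, hru⟩ := Polynomial.isUnit_iff.1 u.isUnit
  have hr1 : r = 1 := by
    revert hr; generalize r = r; revert r; decide
  rw [← hru, hr1, map_one, mul_one] at hu
  exact no_mono _ _ _ hu

noncomputable def Gam' : Subgroup H where
  carrier := {g | ∃ (k : ℤ) (d : A), (g.w = Tu ^ k ∧ g.c1 = 2 * d) ∨ (g.w = -Tu ^ k ∧ g.c1 = 1 + 2 * d)}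
  one_mem' := ⟨0, 0, Or.inl ⟨by simp, by simp⟩⟩
  mul_mem' := by
    rintro g h ⟨k, d, hg⟩ ⟨l, e, hh⟩
    rcases hg with ⟨g1, g2⟩ | ⟨g1, g2⟩ <;> rcases hh with ⟨h1, h2⟩ | ⟨h1, h2⟩
    · exact ⟨k + l, d + e + (al * g.a1 * h.b1 - ga * g.a2 * h.b2), Or.inl
        ⟨by rw [mul_w, g1, h1, zpow_add], by rw [mul_c1, g2, h2]; ring⟩⟩
    · exact ⟨k + l, d + e + (al * g.a1 * h.b1 - ga * g.a2 * h.b2), Or.inr
        ⟨by rw [mul_w, g1, h1, zpow_add, mul_neg], by rw [mul_c1, g2, h2]; ring⟩⟩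
    · exact ⟨k + l, d + e + (al * g.a1 * h.b1 - ga * g.a2 * h.b2), Or.inr
        ⟨by rw [mul_w, g1, h1, zpow_add, neg_mul], by rw [mul_c1, g2, h2]; ring⟩⟩
    · exact ⟨k + l, 1 + d + e + (al * g.a1 * h.b1 - ga * g.a2 * h.b2), Or.inl
        ⟨by rw [mul_w, g1, h1, zpow_add, neg_mul_neg], by rw [mul_c1, g2, h2]; ring⟩⟩
  inv_mem' := by
    rintro g ⟨k, d, hg⟩
    rcases hg with ⟨g1, g2⟩ | ⟨g1, g2⟩
    · exact ⟨-k, -d + (g.w⁻¹ : Aˣ) * (al * g.a1 * g.b1 - ga * g.a2 * g.b2), Or.inl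
        ⟨by rw [inv_w, g1, zpow_neg], by rw [inv_c1, g2]; ring⟩⟩
    · exact ⟨-k, -1 - d + (g.w⁻¹ : Aˣ) * (al * g.a1 * g.b1 - ga * g.a2 * g.b2), Or.inr
        ⟨by rw [inv_w, g1, zpow_neg, inv_neg], by rw [inv_c1, g2]; ring⟩⟩

theorem Gam_le : Gam ≤ Gam' := by
  rw [Gam, Subgroup.closure_le]
  intro g hg
  simp only [gens, Finset.coe_insert, Finset.coe_singleton, Set.mem_insert_iff,
    Set.mem_singleton_iff] at hg
  rcases hg with rfl | rfl | rfl | rfl | rfl | rfl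
  · exact ⟨1, 0, Or.inl ⟨by simp [tau], by simp [tau]⟩⟩
  · exact ⟨0, 0, Or.inr ⟨by simp [sg], by simp [sg]⟩⟩
  · exact ⟨0, 0, Or.inl ⟨by simp [x], by simp [x]⟩⟩
  · exact ⟨0, 0, Or.inl ⟨by simp [x], by simp [x]⟩⟩
  · exact ⟨0, 0, Or.inl ⟨by simp [y], by simp [y]⟩⟩
  · exact ⟨0, 0, Or.inl ⟨by simp [y], by simp [y]⟩⟩

instance : CharZero A := charZero_of_injective_ringHom (toLaurent_injective (R := ℤ))

theorem unip (g : H) (hw : g.w = 1) (hg : IsOfFinOrder g) : g = 1 := by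
  obtain ⟨n, hn, h⟩ := isOfFinOrder_iff_pow_eq_one.1 hg
  have h1 : ∀ n : ℕ, (g ^ n).w = 1 ∧ (g ^ n).a1 = n * g.a1 ∧ (g ^ n).a2 = n * g.a2 ∧
      (g ^ n).b1 = n * g.b1 ∧ (g ^ n).b2 = n * g.b2 := by
    intro n
    induction n with
    | zero => simp
    | succ n ih =>
      obtain ⟨i1, i2, i3, i4, i5⟩ := ih
      simp [pow_succ, i1, i2, i3, i4, i5, hw]
      refine ⟨?_, ?_, ?_, ?_⟩ <;> ring
  have hn' : (n : A) ≠ 0 := by exact_mod_cast hn.ne'
  obtain ⟨-, i2, i3, i4, i5⟩ := h1 n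
  rw [h] at i2 i3 i4 i5
  have e2 : g.a1 = 0 := by simpa [hn.ne'] using i2.symm
  have e3 : g.a2 = 0 := by simpa [hn.ne'] using i3.symm
  have e4 : g.b1 = 0 := by simpa [hn.ne'] using i4.symm
  have e5 : g.b2 = 0 := by simpa [hn.ne'] using i5.symm
  have h2 : ∀ n : ℕ, (g ^ n).c1 = n * g.c1 ∧ (g ^ n).c2 = n * g.c2 := by
    intro n
    induction n with
    | zero => simp
    | succ n ih =>
      simp [pow_succ, ih.1, ih.2, e4, e5]
      refine ⟨?_, ?_⟩ <;> ring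
  obtain ⟨j1, j2⟩ := h2 n
  rw [h] at j1 j2
  have e6 : g.c1 = 0 := by simpa [hn.ne'] using j1.symm
  have e7 : g.c2 = 0 := by simpa [hn.ne'] using j2.symm
  apply H.ext <;> simp [*]

def wHom : H →* Aˣ := ⟨⟨fun g => g.w, rfl⟩, fun _ _ => rfl⟩

theorem Tu_zpow (k : ℤ) : ((Tu ^ k : Aˣ) : A) = T k := by
  induction k using Int.induction_on with
  | zero => rfl
  | succ n ih => rw [zpow_add_one, Units.val_mul, ih, Tu_val, T_add]
  | pred n ih => rw [zpow_sub_one, Units.val_mul, ih, Tu_inv, T_sub]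

theorem Tu_fin {k : ℤ} (h : IsOfFinOrder (Tu ^ k)) : k = 0 := by
  obtain ⟨n, hn, h⟩ := isOfFinOrder_iff_pow_eq_one.1 h
  have h1 := congrArg Units.val h
  rw [Units.val_pow_eq_pow_val, Tu_zpow, T_pow, Units.val_one, ← T_zero] at h1
  have h2 := congrArg LaurentPolynomial.degree h1
  rw [degree_T, degree_T] at h2
  have h3 : (n : ℤ) * k = 0 := by exact_mod_cast h2
  rcases mul_eq_zero.1 h3 with h | h
  · omega
  · exact h

theorem tf (g : H) (hg : g ∈ Gam) (hf : IsOfFinOrder g) : g = 1 := by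
  obtain ⟨k, d, h⟩ := Gam_le hg
  have hw : IsOfFinOrder g.w := wHom.isOfFinOrder hf
  rcases h with ⟨h1, -⟩ | ⟨h1, h2⟩
  · rw [h1] at hw
    rw [Tu_fin hw, zpow_zero] at h1
    exact unip g h1 hf
  · exfalso
    have hw2 := hw.pow (n := 2)
    rw [h1, neg_sq, ← zpow_natCast, ← zpow_mul] at hw2
    have hk : k = 0 := by have := Tu_fin hw2; omega
    rw [hk, zpow_zero] at h1
    have := unip (g ^ 2) (by rw [pow_two, mul_w, h1]; simp) hf.pow
    rw [pow_two] at this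
    have c1 := congrArg H.c1 this
    have c2 := congrArg H.c2 this
    rw [mul_c1, one_c1, h2] at c1
    rw [mul_c2, one_c2] at c2
    refine no_sol g.a1 g.a2 g.b1 g.b2 d g.c2 ?_ (by linear_combination c2)
    have : (2 : A) * (1 + 2 * d + (al * g.a1 * g.b1 - ga * g.a2 * g.b2)) = 0 := by
      linear_combination c1
    exact (mul_eq_zero.1 this).resolve_left two_ne_zero

theorem exists_t : ∃ t : ℝ, 0 < t ∧ Transcendental ℤ t := by
  have h := transcendental_liouvilleNumber (le_refl 2)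
  refine ⟨_, ?_, h.pow (n := 2) (by norm_num)⟩
  have : liouvilleNumber ((2 : ℕ) : ℝ) ≠ 0 := by
    intro h0
    rw [h0] at h
    exact h isAlgebraic_zero
  positivity

theorem exists_ev : ∃ ev : A →+* ℝ, Function.Injective ev ∧ 0 < ev al ∧ 0 < ev (toLaurent gp) := by
  obtain ⟨t, ht, htr⟩ := exists_t
  refine ⟨LaurentPolynomial.eval₂ (Int.castRingHom ℝ) (Units.mk0 t ht.ne'), ?_, ?_, ?_⟩
  · rw [injective_iff_map_eq_zero]
    intro a ha
    obtain ⟨n, p, hp⟩ := exists_T_pow a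
    have h1 := congrArg (LaurentPolynomial.eval₂ (Int.castRingHom ℝ) (Units.mk0 t ht.ne')) hp
    rw [map_mul, ha, zero_mul, eval₂_toLaurent] at h1
    have hp0 : p = 0 := by
      by_contra hne
      exact htr ⟨p, hne, h1⟩
    rw [hp0, map_zero] at hp
    exact ((isUnit_T (n : ℤ)).mul_left_eq_zero).1 hp.symm
  · rw [al, eval₂_toLaurent]; simp [alp]; positivity
  · rw [eval₂_toLaurent]; simp [gp]; positivity

theorem exists_rho : ∃ ρ : H →* Matrix (Fin 3) (Fin 3) ℂ, Function.Injective ρ := by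
  obtain ⟨ev, hev, h1, h2⟩ := exists_ev
  set u : ℝ := Real.sqrt (ev al) with hu
  have hu0 : 0 < u := Real.sqrt_pos.2 h1
  have huu : u * u = ev al := Real.mul_self_sqrt h1.le
  set v : ℝ := ev (toLaurent gp) with hv
  have hvv : v * v = ev ga := by rw [ga, map_pow, pow_two]
  let e : A →+* ℂ := Complex.ofRealHom.comp ev
  have huc : (u : ℂ) * u = e al := by
    show _ = ((ev al : ℝ) : ℂ)
    rw [← huu]; push_cast; rfl
  have hvc : (v : ℂ) * v = e ga := by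
    show _ = ((ev ga : ℝ) : ℂ)
    rw [← hvv]; push_cast; rfl
  have hI := Complex.I_mul_I
  refine ⟨⟨⟨fun g => !![1, u * e g.a1 + v * e g.a2 * Complex.I, e g.c1 / 2 + u * v * e g.c2 * Complex.I;
      0, e g.w, u * e g.b1 + v * e g.b2 * Complex.I; 0, 0, 1], ?_⟩, ?_⟩, ?_⟩
  · ext i j
    fin_cases i <;> fin_cases j <;> simp
  · intro g h
    ext i j
    fin_cases i <;> fin_cases j <;> simp [Matrix.mul_apply, Fin.sum_univ_three, map_ofNat]
    · ring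
    · linear_combination (-(e g.a1 * e h.b1)) * huc + (e g.a2 * e h.b2) * hvc -
        (v * v * e g.a2 * e h.b2) * hI
    · ring
  · have inj : ∀ (r s : ℝ) (a b a' b' : A), r ≠ 0 → s ≠ 0 →
        (r : ℂ) * e a + s * e b * Complex.I = r * e a' + s * e b' * Complex.I → a = a' ∧ b = b' := by
      intro r s a b a' b' hr hs h
      have h1 := congrArg Complex.re h
      have h2 := congrArg Complex.im h
      simp [e, hr, hs] at h1 h2
      exact ⟨hev h1, hev h2⟩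
    intro g h hgh
    have m01 := congrFun (congrFun hgh 0) 1
    have m02 := congrFun (congrFun hgh 0) 2
    have m11 := congrFun (congrFun hgh 1) 1
    have m12 := congrFun (congrFun hgh 1) 2
    simp only [MonoidHom.coe_mk, OneHom.coe_mk, Matrix.of_apply, Matrix.cons_val', Matrix.cons_val,
      Matrix.cons_val_fin_one, Matrix.cons_val_zero, Matrix.cons_val_one] at m01 m02 m11 m12
    obtain ⟨i1, i2⟩ := inj u v _ _ _ _ hu0.ne' h2.ne' m01
    obtain ⟨i3, i4⟩ := inj u v _ _ _ _ hu0.ne' h2.ne' m12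
    obtain ⟨i5, i6⟩ := inj (1 / 2) (u * v) g.c1 g.c2 h.c1 h.c2 (by norm_num)
      (mul_pos hu0 h2).ne' (by push_cast; linear_combination m02)
    have i7 : g.w = h.w := by
      apply Units.ext
      apply hev
      exact Complex.ofReal_injective m11
    exact H.ext i7 i1 i2 i3 i4 i5 i6

theorem z_mem' : z 0 1 ∈ Gam := by simpa using z_mem 0 1

noncomputable def xx (f : ℤ[X]) : Gam := ⟨x (toLaurent f) 0, x_mem _ _⟩

theorem xx_add (f g : ℤ[X]) : xx (f + g) = xx f * xx g := by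
  apply Subtype.ext
  show x _ _ = x _ _ * x _ _
  rw [← x_add, map_add, add_zero]

theorem xx_zero : xx 0 = 1 := by
  apply Subtype.ext
  show x _ _ = 1
  rw [map_zero]; rfl

theorem xx_X (f : ℤ[X]) : xx (X * f) = (⟨tau, tau_mem⟩ : Gam)⁻¹ * xx f * ⟨tau, tau_mem⟩ := by
  apply Subtype.ext
  show x _ _ = tau⁻¹ * x _ _ * tau
  rw [← x_conj, map_mul, toLaurent_X, mul_zero]

theorem kill_gl {n : ℕ} (Y : ℤ[X] → Matrix.GeneralLinearGroup (Fin n) F)
    (S : Matrix.GeneralLinearGroup (Fin n) F)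
    (hadd : ∀ f g, Y (f + g) = Y f * Y g) (h0 : Y 0 = 1) (hX : ∀ f, Y (X * f) = S⁻¹ * Y f * S) :
    ∃ P : ℤ[X], P ≠ 0 ∧ Y P = 1 := by
  obtain ⟨P, hP, h⟩ := kill_mat (fun f => (Y f).val) S
    (fun f g => congrArg Units.val (hadd f g)) (congrArg Units.val h0)
    (fun f => congrArg Units.val (hX f))
  exact ⟨P, hP, Units.ext h⟩

theorem kerK {G M : Type} [Group G] [Group M] (Γ : Subgroup G) (ψ : Γ →* M)
    (h2 : ∀ g, ψ g * ψ g = 1 → ψ g = 1) : ∃ K : Subgroup G,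
    (∀ g ∈ Γ, ∀ k ∈ K, g * k * g⁻¹ ∈ K) ∧ (∀ g ∈ Γ, g * g ∈ K → g ∈ K) ∧
    ∀ g : Γ, g.1 ∈ K ↔ ψ g = 1 := by
  have hK : ∀ g : Γ, g.1 ∈ ψ.ker.map Γ.subtype ↔ ψ g = 1 := by
    intro g
    constructor
    · rintro ⟨k, hk, h⟩
      have : k = g := Subtype.ext h
      rw [← this]; exact hk
    · intro h; exact ⟨g, h, rfl⟩
  refine ⟨ψ.ker.map Γ.subtype, ?_, ?_, hK⟩
  · rintro g hg _ ⟨k, hk, rfl⟩
    exact ⟨⟨g, hg⟩ * k * ⟨g, hg⟩⁻¹, (MonoidHom.normal_ker ψ).conj_mem k hk _, rfl⟩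
  · intro g hg hgg
    apply (hK ⟨g, hg⟩).2
    apply h2
    rw [← map_mul]
    exact (hK (⟨g, hg⟩ * ⟨g, hg⟩)).1 hgg

theorem psi_kill {M : Type} [Group M] (hM : ∀ (Y : ℤ[X] → M) (S : M),
    (∀ f g, Y (f + g) = Y f * Y g) → Y 0 = 1 → (∀ f, Y (X * f) = S⁻¹ * Y f * S) →
    ∃ P : ℤ[X], P ≠ 0 ∧ Y P = 1) (ψ : Gam →* M)
    (h2 : ∀ g, ψ g * ψ g = 1 → ψ g = 1) : ψ ⟨z 0 1, z_mem'⟩ = 1 := by
  obtain ⟨K, K1, K2, hK⟩ := kerK Gam ψ h2
  obtain ⟨P, hP, hY⟩ := hM (fun f => ψ (xx f)) (ψ ⟨tau, tau_mem⟩)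
    (by intro f g; rw [xx_add, map_mul])
    (by rw [xx_zero, map_one])
    (by intro f; rw [xx_X, map_mul, map_mul, map_inv])
  exact (hK ⟨z 0 1, z_mem'⟩).1 (killz K K1 K2 P hP ((hK (xx P)).2 hY))

theorem gen {N M : Type} [Group N] [Group M] (hM : ∀ (Y : ℤ[X] → M) (S : M),
    (∀ f g, Y (f + g) = Y f * Y g) → Y 0 = 1 → (∀ f, Y (X * f) = S⁻¹ * Y f * S) →
    ∃ P : ℤ[X], P ≠ 0 ∧ Y P = 1) (ρ : H →* N) (hρ : Function.Injective ρ) :
    ¬ (∀ G : Subgroup N, G.FG → (∀ x : G, IsOfFinOrder x → x = 1) → ∀ g : G, g ≠ 1 →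
        ∃ φ : G →* M, φ g ≠ 1 ∧ ∀ h : M, h ∈ φ.range → IsOfFinOrder h → h = 1) := by
  classical
  intro hall
  obtain ⟨φ, h1, h2⟩ := hall (Gam.map ρ)
    ⟨gens.image ρ, by rw [Gam, MonoidHom.map_closure, Finset.coe_image]⟩
    (by
      rintro ⟨_, g, hg, rfl⟩ hf
      have h3 : IsOfFinOrder (ρ g) := (Gam.map ρ).subtype.isOfFinOrder hf
      have h4 : IsOfFinOrder g := (hρ.isOfFinOrder_iff (f := ρ)).1 h3
      apply Subtype.ext
      show ρ g = 1
      rw [tf g hg h4, map_one])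
    ⟨ρ (z 0 1), Subgroup.mem_map_of_mem ρ z_mem'⟩
    (by
      intro h
      have h3 : ρ (z 0 1) = ρ 1 := by rw [map_one]; exact congrArg Subtype.val h
      have := congrArg H.c2 (hρ h3)
      simp [z] at this)
  apply h1
  apply psi_kill hM (φ.comp (ρ.subgroupMap Gam))
  intro g hg
  apply h2 _ ⟨ρ.subgroupMap Gam g, rfl⟩
  rw [isOfFinOrder_iff_pow_eq_one]
  exact ⟨2, by norm_num, by rw [pow_two]; exact hg⟩

theorem final :
    ¬ (∀ n : ℕ, ∀ G : Subgroup (Matrix.GeneralLinearGroup (Fin n) ℂ),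
      G.FG →
      (∀ x : G, IsOfFinOrder x → x = 1) →
      ∀ g : G, g ≠ 1 →
        ∃ φ : G →* Matrix.GeneralLinearGroup (Fin n) (AlgebraicClosure ℚ),
          φ g ≠ 1 ∧
          ∀ h : Matrix.GeneralLinearGroup (Fin n) (AlgebraicClosure ℚ),
            h ∈ φ.range → IsOfFinOrder h → h = 1) := by
  intro hall
  obtain ⟨ρ0, hρ0⟩ := exists_rho
  exact gen kill_gl (N := Matrix.GeneralLinearGroup (Fin 3) ℂ) ρ0.toHomUnits
    (fun a b h => hρ0 (congrArg Units.val h)) (hall 3)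

end Pool.Agent.H64.ResQ
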