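import Mathlib

/-! The semigroup of words `g^b c g^e c ⋯ c g^a`; its algebras are domains, and in
characteristic seven there is no embedding in a division ring. -/

namespace Pool.Agent.H64.SemiEmb1

abbrev E := {e : ZMod 7 // e ≠ 5}

def ea : Fin 3 → E := ![⟨0, by decide⟩, ⟨1, by decide⟩, ⟨3, by decide⟩]
def eb : Fin 4 → E := ![⟨0, by decide⟩, ⟨1, by decide⟩, ⟨3, by decide⟩, ⟨6, by decide⟩]
def mid (a : Fin 3) (b : Fin 4) : E := ⟨(ea a).1 + (eb b).1, by revert a b; decide⟩

@[ext] structure S where
  b : Fin 4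
  l : List E
  a : Fin 3
deriving DecidableEq

instance : Semigroup S where
  mul s t := ⟨s.b, s.l ++ mid s.a t.b :: t.l, t.a⟩
  mul_assoc s t u := by
    show S.mk _ _ _ = S.mk _ _ _
    congr 1
    show (s.l ++ mid s.a t.b :: t.l) ++ mid t.a u.b :: u.l =
      s.l ++ mid s.a t.b :: (t.l ++ mid t.a u.b :: u.l)
    simp

lemma mul_def (s t : S) : s * t = ⟨s.b, s.l ++ mid s.a t.b :: t.l, t.a⟩ := rfl

lemma conv_zero {F : Type} [Field F] (h2 : (2 : F) ≠ 0) (u : Fin 3 → F) (v : Fin 4 → F)
    (h : ∀ e : E, ∑ a, ∑ b, (if mid a b = e then u a * v b else 0) = 0) : u = 0 ∨ v = 0 := by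
  have h0 := h ⟨0, by decide⟩
  have h1 := h ⟨1, by decide⟩
  have h2' := h ⟨2, by decide⟩
  have h3 := h ⟨3, by decide⟩
  have h4 := h ⟨4, by decide⟩
  have h6 := h ⟨6, by decide⟩
  simp (decide := true) only [Fin.sum_univ_three, Fin.sum_univ_four, if_true, if_false, add_zero,
    zero_add] at h0 h1 h2' h3 h4 h6
  have hv : v 0 = 0 → v 1 = 0 → v 2 = 0 → v 3 = 0 → v = 0 := fun a b c d => by
    funext i; fin_cases i <;> assumption
  by_cases u0 : u 0 = 0
  · by_cases u1 : u 1 = 0
    · by_cases u2 : u 2 = 0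
      · left; funext i; fin_cases i <;> assumption
      · right
        apply hv <;> apply (mul_eq_zero.1 _).resolve_left u2
        · rw [u0] at h3; linear_combination h3
        · rw [u1] at h4; linear_combination h4
        · rw [u0] at h6; linear_combination h6
        · rw [u1] at h2'; linear_combination h2'
    · right
      have a3 : v 3 = 0 := (mul_eq_zero.1 (by rw [u0] at h0; linear_combination h0)).resolve_left u1
      have a0 : v 0 = 0 := (mul_eq_zero.1 (by rw [u0] at h1; linear_combination h1)).resolve_left u1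
      have a1 : v 1 = 0 := (mul_eq_zero.1 (by rw [a3] at h2'; linear_combination h2')).resolve_left u1
      have a2 : v 2 = 0 := (mul_eq_zero.1 (by rw [a1] at h4; linear_combination h4)).resolve_left u1
      exact hv a0 a1 a2 a3
  · right
    have a0 : v 0 = 0 := by
      by_contra v0
      have e1 : 2 * v 0 * (u 1 * u 2) = 0 := by
        linear_combination u 2 * h1 + u 1 * h3 - u 0 * h4
      have e2 : u 1 * u 2 = 0 := (mul_eq_zero.1 e1).resolve_left (mul_ne_zero h2 v0)
      have e3 : u 0 * u 0 * v 0 = 0 := by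
        linear_combination u 0 * h0 - u 1 * h6 + v 2 * e2
      exact mul_ne_zero (mul_ne_zero u0 u0) v0 e3
    have a1 : v 1 = 0 := (mul_eq_zero.1 (by rw [a0] at h1; linear_combination h1)).resolve_left u0
    have a2 : v 2 = 0 := (mul_eq_zero.1 (by rw [a0] at h3; linear_combination h3)).resolve_left u0
    have a3 : v 3 = 0 := (mul_eq_zero.1 (by rw [a2] at h6; linear_combination h6)).resolve_left u0
    exact hv a0 a1 a2 a3

theorem noZeroDivisors {F : Type} [Field F] (h2 : (2 : F) ≠ 0) :
    NoZeroDivisors (MonoidAlgebra F S) where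
  eq_zero_or_eq_zero_of_mul_eq_zero {x y} hxy := by
    classical
    by_contra hc
    push Not at hc
    obtain ⟨s, hs, hsm⟩ := x.coeff.support.exists_max_image (fun s => s.l.length)
      (Finsupp.support_nonempty_iff.2 (by simpa using hc.1))
    obtain ⟨t, ht, htm⟩ := y.coeff.support.exists_max_image (fun s => s.l.length)
      (Finsupp.support_nonempty_iff.2 (by simpa using hc.2))
    have key := conv_zero h2 (fun a => x.coeff ⟨s.b, s.l, a⟩) (fun b => y.coeff ⟨b, t.l, t.a⟩) ?_
    · rcases key with h | h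
      · exact Finsupp.mem_support_iff.1 hs (congrFun h s.a)
      · exact Finsupp.mem_support_iff.1 ht (congrFun h t.b)
    intro e
    have h1 : (x * y).coeff ⟨s.b, s.l ++ e :: t.l, t.a⟩ = 0 := by rw [hxy]; rfl
    refine Eq.trans ?_ h1
    rw [MonoidAlgebra.coeff_mul]
    simp only [Finsupp.sum]
    have fact : ∀ p ∈ x.coeff.support, ∀ q ∈ y.coeff.support,
        (if p * q = ⟨s.b, s.l ++ e :: t.l, t.a⟩ then x.coeff p * y.coeff q else 0) =
        ∑ a, ∑ b, if p = ⟨s.b, s.l, a⟩ then (if q = ⟨b, t.l, t.a⟩ then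
          (if mid a b = e then x.coeff ⟨s.b, s.l, a⟩ * y.coeff ⟨b, t.l, t.a⟩ else 0) else 0)
          else 0 := by
      intro p hp q hq
      have l1 := hsm p hp
      have l2 := htm q hq
      rw [Finset.sum_eq_single p.a, Finset.sum_eq_single q.b]
      · by_cases h : p * q = ⟨s.b, s.l ++ e :: t.l, t.a⟩
        · rw [if_pos h]
          rw [mul_def, S.mk.injEq] at h
          obtain ⟨hb, hl, ha⟩ := h
          have hlen := congrArg List.length hl
          simp only [List.length_append, List.length_cons] at hlen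
          obtain ⟨e1, e2⟩ := List.append_inj hl (by omega)
          rw [List.cons.injEq] at e2
          have hp' : p = ⟨s.b, s.l, p.a⟩ := S.ext hb e1 rfl
          have hq' : q = ⟨q.b, t.l, t.a⟩ := S.ext rfl e2.2 ha
          rw [if_pos hp', if_pos hq', if_pos e2.1, ← hp', ← hq']
        · rw [if_neg h]
          split_ifs with a1 a2 a3
          · exfalso
            apply h
            rw [a1, a2, mul_def]
            simp [a3]
          all_goals rfl
      · intro b _ hb
        have : ¬ q = ⟨b, t.l, t.a⟩ := fun h => hb (by rw [h])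
        simp [this]
      · simp
      · intro a _ ha
        have : ¬ p = ⟨s.b, s.l, a⟩ := fun h => ha (by rw [h])
        simp [this]
      · simp
    rw [Finset.sum_congr rfl fun p hp => Finset.sum_congr rfl fun q hq => fact p hp q hq]
    symm
    rw [Finset.sum_congr rfl fun p _ => Finset.sum_comm, Finset.sum_comm]
    refine Finset.sum_congr rfl fun a _ => ?_
    rw [Finset.sum_congr rfl fun p _ => Finset.sum_comm, Finset.sum_comm]
    refine Finset.sum_congr rfl fun b _ => ?_
    simp only [Finset.sum_ite_irrel, Finset.sum_const_zero, Finset.sum_ite_eq', Finsupp.mem_support_iff]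
    split_ifs <;> simp_all

theorem no_embedding : ¬ ∃ (D : Type) (_ : DivisionRing D)
    (f : MonoidAlgebra (ZMod 7) S →ₙ+* D), Function.Injective f := by
  rintro ⟨D, _, f, hf⟩
  let φ : S → D := fun s => f (MonoidAlgebra.single s 1)
  have φmul : ∀ s t, φ (s * t) = φ s * φ t := fun s t => by
    simp only [φ]
    rw [← map_mul, MonoidAlgebra.single_mul_single, mul_one]
  have φne : ∀ s, φ s ≠ 0 := fun s h => by
    have := hf (h.trans (map_zero f).symm)
    rw [MonoidAlgebra.single_eq_zero] at this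
    exact absurd this (by decide)
  have h7 : (7 : D) = 0 := by
    have h1 : (7 : ℕ) • φ ⟨0, [], 0⟩ = 0 := by
      simp only [φ]
      rw [← map_nsmul, MonoidAlgebra.smul_single]
      have : (7 : ℕ) • (1 : ZMod 7) = 0 := by decide
      rw [this]; simp
    rw [nsmul_eq_mul] at h1
    exact_mod_cast (mul_eq_zero.1 h1).resolve_right (φne _)
  haveI : Fact (Nat.Prime 7) := ⟨by norm_num⟩
  haveI : CharP D 7 := (CharP.charP_iff_prime_eq_zero (by norm_num)).2 (by exact_mod_cast h7)
  let p : Fin 3 → D := fun a => φ ⟨0, [], a⟩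
  let q : Fin 4 → D := fun b => φ ⟨b, [], 0⟩
  have rel : ∀ a b a' b', mid a b = mid a' b' → p a * q b = p a' * q b' := by
    intro a b a' b' h
    simp only [p, q, ← φmul, mul_def, h]
  have p0 : p 0 ≠ 0 := φne _
  have q0 : q 0 ≠ 0 := φne _
  let P : Fin 3 → D := fun a => (p 0)⁻¹ * p a
  let Q : Fin 4 → D := fun b => q b * (q 0)⁻¹
  have P0 : P 0 = 1 := inv_mul_cancel₀ p0
  have Q0 : Q 0 = 1 := mul_inv_cancel₀ q0
  have rel' : ∀ a b a' b', mid a b = mid a' b' → P a * Q b = P a' * Q b' := by
    intro a b a' b' h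
    simp only [P, Q, mul_assoc]
    rw [← mul_assoc (p a), rel a b a' b' h, mul_assoc]
  have r0 := rel' 1 3 0 0 (by decide)
  have r1 := rel' 0 1 1 0 (by decide)
  have r2 := rel' 1 1 2 3 (by decide)
  have r3 := rel' 0 2 2 0 (by decide)
  have r4 := rel' 1 2 2 1 (by decide)
  have r6 := rel' 0 3 2 2 (by decide)
  rw [P0, Q0] at r0 r1 r3
  rw [P0] at r6
  simp only [one_mul, mul_one] at r0 r1 r3 r6
  rw [r1] at r2 r4
  rw [r3] at r4 r6
  set g := P 1
  have g0 : g ≠ 0 := left_ne_zero_of_mul_eq_one r0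
  have e1 : Q 3 = g⁻¹ := eq_inv_of_mul_eq_one_right r0
  have e2 : P 2 = g ^ 3 := by
    rw [e1] at r2
    have : P 2 = g * g * g := by rw [r2, inv_mul_cancel_right₀ g0]
    rw [this]; noncomm_ring
  have e3 : g ^ 7 = 1 := by
    rw [r6, e2] at r0
    rw [← r0]; noncomm_ring
  have e4 : (g - 1) ^ 7 = 0 := by
    rw [sub_pow_char_of_commute (p := 7) (Commute.one_right g), e3]; simp
  have e5 : g = 1 := sub_eq_zero.1 (pow_eq_zero_iff (by norm_num) |>.1 e4)
  have e6 : p 1 = p 0 := by
    have : (p 0)⁻¹ * p 1 = 1 := e5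
    rw [inv_mul_eq_one₀ p0] at this
    exact this.symm
  have := hf e6
  simp [MonoidAlgebra.single_left_inj] at this

end Pool.Agent.H64.SemiEmb1
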