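import Pool.Agent.H64.SemiEmb1
import Pool.Agent.H64.HahnAct
import Pool.Agent.H64.SkewOre

/-! In characteristic three the semigroup algebra embeds in a division ring. -/

namespace Pool.Agent.H64.SemiEmb2

open Pool.Agent.H64.SemiEmb1 Pool.Agent.H64.HahnAct Pool.Agent.H64.SkewOre Multiplicative

instance : Fact (Nat.Prime 3) := ⟨by norm_num⟩

abbrev L := AlgebraicClosure (ZMod 3)
abbrev K := HahnSeries ℚ L
abbrev Γ := Multiplicative ℤ

noncomputable def fr : RingAut L := frobeniusEquiv L 3

noncomputable def σ : Γ →* (L →+* L) where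
  toFun n := (zpowersHom (RingAut L) fr n : L ≃+* L)
  map_one' := by rw [map_one]; rfl
  map_mul' a b := by rw [map_mul]; rfl

def μ : Γ →* ℚ := (Units.coeHom ℚ).comp (zpowersHom ℚˣ (Units.mk0 2 two_ne_zero))

lemma μ_apply (n : ℤ) : μ (ofAdd n) = 2 ^ n := by simp [μ]

lemma μ_pos (g : Γ) : 0 < μ g := by
  rw [← ofAdd_toAdd g, μ_apply]; positivity

lemma σ_apply (n : ℕ) (x : L) : σ (ofAdd (n : ℤ)) x = x ^ 3 ^ n := by
  show (zpowersHom (RingAut L) fr (ofAdd (n : ℤ)) : L ≃+* L) x = _
  rw [zpowersHom_apply, toAdd_ofAdd, zpow_natCast]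
  induction n with
  | zero => simp
  | succ n ih =>
    rw [pow_succ', RingAut.mul_apply, ih, pow_succ, pow_mul]
    rfl

noncomputable instance : MulSemiringAction Γ K := act σ μ μ_pos

lemma smul_coeff (n : ℕ) (x : K) (r : ℚ) :
    (ofAdd (n : ℤ) • x).coeff r = (x.coeff (r / 2 ^ n)) ^ 3 ^ n := by
  show (tw _ _ _ x).coeff r = _
  rw [tw_coeff, σ_apply, μ_apply, zpow_natCast]

abbrev R := SkewMonoidAlgebra K Γ

lemma exists_zeta : ∃ z : L, IsPrimitiveRoot z 7 := by
  haveI : NeZero ((7 : ℕ) : ZMod 3) := ⟨by decide⟩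
  haveI : NeZero ((7 : ℕ) : L) := NeZero.of_injective (algebraMap (ZMod 3) L).injective
  exact HasEnoughRootsOfUnity.exists_primitiveRoot L 7

noncomputable def ζ : L := exists_zeta.choose
lemma hζ : IsPrimitiveRoot ζ 7 := exists_zeta.choose_spec

noncomputable def g : R := SkewMonoidAlgebra.single 1 (HahnSeries.C ζ)
noncomputable def c : R :=
  ∑ i : Fin 6, SkewMonoidAlgebra.single (ofAdd ((i.1 + 1 : ℕ) : ℤ)) (HahnSeries.single 1 1)

/-- double coefficient -/
noncomputable def co (j : ℤ) (r : ℚ) : R →+ L where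
  toFun z := (z.coeff (ofAdd j)).coeff r
  map_zero' := by simp
  map_add' := by simp

lemma co_ext {z : R} (h : ∀ j r, co j r z = 0) : z = 0 := by
  ext j r
  exact h j.toAdd r

lemma co_g (j : ℤ) (r : ℚ) (z : R) : co j r (g * z) = ζ * co j r z := by
  show ((g * z).coeff (ofAdd j)).coeff r = ζ * (z.coeff (ofAdd j)).coeff r
  rw [g, SkewMonoidAlgebra.coeff_single_one_mul, HahnSeries.C_mul_eq_smul]
  simp

lemma co_gpow (j : ℤ) (r : ℚ) (n : ℕ) (z : R) : co j r (g ^ n * z) = ζ ^ n * co j r z := by
  induction n with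
  | zero => simp
  | succ n ih => rw [pow_succ', mul_assoc, co_g, ih, pow_succ', mul_assoc]

lemma co_c (j : ℤ) (r : ℚ) (z : R) : co j r (c * z) =
    ∑ i : Fin 6, (co (j - (i.1 + 1 : ℕ)) ((r - 1) / 2 ^ (i.1 + 1)) z) ^ 3 ^ (i.1 + 1) := by
  rw [c, Finset.sum_mul, map_sum]
  refine Finset.sum_congr rfl fun i _ => ?_
  show ((_ * z).coeff (ofAdd j)).coeff r = _
  rw [SkewMonoidAlgebra.coeff_single_mul, HahnSeries.coeff_single_mul, one_mul, smul_coeff]
  congr 3
  rw [← ofAdd_neg, ← ofAdd_add, neg_add_eq_sub]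

lemma co_one (j : ℤ) (r : ℚ) : co j r 1 = if r = 0 ∧ j = 0 then 1 else 0 := by
  show ((1 : R).coeff (ofAdd j)).coeff r = _
  by_cases hj : j = 0
  · subst hj
    simp [HahnSeries.coeff_one]
  · have : (1 : Γ) ≠ ofAdd j := fun h => hj (by simpa using h.symm)
    simp [Finsupp.single_apply, this, hj]

def OddQ (r : ℚ) : Prop := ∃ m : ℕ, r = 2 * m + 1
def Good (j : ℤ) (r : ℚ) : Prop := (r = 0 ∧ j = 0) ∨ OddQ r

lemma not_odd_zero : ¬ OddQ 0 := fun ⟨m, h⟩ => by
  have : (0 : ℚ) < 2 * m + 1 := by positivity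
  linarith

def InN (z : R) : Prop := ∀ j r, ¬ Good j r → co j r z = 0
def InM (z : R) : Prop := ∀ j r, ¬ OddQ r → co j r z = 0

lemma InM.inN {z : R} (h : InM z) : InN z := fun j r hr => h j r fun h' => hr (Or.inr h')

lemma InN.gpow {z : R} (h : InN z) (n : ℕ) : InN (g ^ n * z) := fun j r hr => by
  rw [co_gpow, h j r hr, mul_zero]

lemma inN_one : InN 1 := fun j r hr => by
  rw [co_one, if_neg fun h => hr (Or.inl h)]

lemma InN.c_mul {z : R} (h : InN z) : InM (c * z) := fun j r hr => by
  rw [co_c]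
  refine Finset.sum_eq_zero fun i _ => ?_
  rw [h, zero_pow (by positivity)]
  rintro (⟨h1, -⟩ | ⟨m, hm⟩)
  · rw [div_eq_zero_iff] at h1
    rcases h1 with h1 | h1
    · exact hr ⟨0, by simp; linarith⟩
    · exact absurd h1 (by positivity)
  · rw [div_eq_iff (by positivity)] at hm
    exact hr ⟨(2 * m + 1) * 2 ^ i.1, by push_cast; rw [pow_succ] at hm; linarith⟩

lemma odd_pow {a b m n : ℕ} (h : (2 * m + 1) * 2 ^ a = (2 * n + 1) * 2 ^ b) : a = b := by
  induction a generalizing b with
  | zero =>
    cases b with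
    | zero => rfl
    | succ b => rw [pow_succ, ← mul_assoc] at h; omega
  | succ a ih =>
    cases b with
    | zero => rw [pow_succ, ← mul_assoc] at h; omega
    | succ b =>
      rw [pow_succ, pow_succ, ← mul_assoc, ← mul_assoc] at h
      rw [ih (b := b) (by omega)]

lemma co_c_good {z : R} (h : InN z) {j : ℤ} {r : ℚ} (hg : Good j r) (i : Fin 6) :
    co (j + (i.1 + 1 : ℕ)) (1 + 2 ^ (i.1 + 1) * r) (c * z) = co j r z ^ 3 ^ (i.1 + 1) := by
  rw [co_c, Finset.sum_eq_single i]
  · have e1 : j + (i.1 + 1 : ℕ) - (i.1 + 1 : ℕ) = j := by ring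
    have e2 : (1 + 2 ^ (i.1 + 1) * r - 1) / 2 ^ (i.1 + 1) = r := by field_simp; ring
    rw [e1, e2]
  · intro k _ hk
    rw [h, zero_pow (by positivity)]
    have hk' : k.1 ≠ i.1 := fun h => hk (Fin.ext h)
    rw [add_sub_cancel_left]
    rintro (⟨h1, h2⟩ | ⟨m, hm⟩)
    · have hr : r = 0 := by
        rw [div_eq_zero_iff, mul_eq_zero] at h1
        rcases h1 with (h1 | h1) | h1
        · exact absurd h1 (by positivity)
        · exact h1
        · exact absurd h1 (by positivity)
      rcases hg with ⟨-, hj⟩ | ho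
      · omega
      · exact not_odd_zero (hr ▸ ho)
    · rw [div_eq_iff (by positivity)] at hm
      rcases hg with ⟨hr, -⟩ | ⟨n, hn⟩
      · rw [hr, mul_zero] at hm
        exact absurd hm.symm (by positivity)
      · rw [hn] at hm
        have : (2 * n + 1) * 2 ^ (i.1 + 1) = (2 * m + 1) * 2 ^ (k.1 + 1) := by
          rw [mul_comm]; exact_mod_cast hm
        have := odd_pow this
        omega
  · simp

def sh (i : Fin 6) : E := ⟨(i.1 : ZMod 7) - 1, by revert i; decide⟩

lemma fourier (b : E → L) (h : ∀ k : Fin 6, ∑ e : E, (ζ ^ (k.1 + 1)) ^ e.1.val * b e = 0) :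
    ∀ e, b e = 0 := by
  let φ : Fin 6 ≃ E := Equiv.ofBijective sh (by decide)
  have key := Matrix.eq_zero_of_forall_index_sum_pow_mul_eq_zero
    (f := fun k : Fin 6 => ζ ^ (k.1 + 1)) (v := fun i => b (φ i)) (fun k l hkl => by
      have := hζ.pow_inj (i := k.1 + 1) (j := l.1 + 1) (by omega) (by omega) hkl
      exact Fin.ext (by omega)) (fun k => by
      have h1 := h k
      rw [← φ.sum_comp] at h1
      have h7 : (ζ ^ (k.1 + 1)) ^ 7 = 1 := by rw [← pow_mul, mul_comm, pow_mul, hζ.pow_eq_one, one_pow]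
      rw [← mul_zero (ζ ^ (k.1 + 1)), ← h1, Finset.mul_sum]
      refine Finset.sum_congr rfl fun i _ => ?_
      rw [← mul_assoc, ← pow_succ']
      congr 1
      have : ∀ i : Fin 6, (sh i).1.val + 1 = i.1 ∨ (sh i).1.val + 1 = i.1 + 7 := by decide
      rcases this i with h2 | h2
      · exact congrArg _ h2.symm
      · rw [show (φ i).1.val + 1 = i.1 + 7 from h2, pow_add _ i.1, h7, mul_one])
  intro e
  obtain ⟨i, rfl⟩ := φ.surjective e
  exact congrFun key i

lemma frob_sum (n : ℕ) (f : E → L) : (∑ e, f e) ^ 3 ^ n = ∑ e, f e ^ 3 ^ n :=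
  sum_pow_char_pow 3 n _ _

lemma fourier' (a : E → L)
    (h : ∀ i : Fin 6, ∑ e : E, ζ ^ e.1.val * a e ^ 3 ^ (i.1 + 1) = 0) : ∀ e, a e = 0 := by
  have := fourier (fun e => a e ^ 3 ^ 6) fun k => by
    have : ∀ k : Fin 6, ∃ i : Fin 6, 3 ^ (5 - i.1) % 7 = k.1 + 1 := by decide
    obtain ⟨i, hi⟩ := this k
    have h1 := congrArg (· ^ 3 ^ (5 - i.1)) (h i)
    simp only [frob_sum] at h1
    rw [zero_pow (by positivity)] at h1
    rw [← h1]
    refine Finset.sum_congr rfl fun e _ => ?_
    rw [mul_pow, ← pow_mul (a e), ← pow_add 3, show i.1 + 1 + (5 - i.1) = 6 by omega, ← hi,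
      ← pow_eq_pow_mod _ hζ.pow_eq_one, ← pow_mul, ← pow_mul, mul_comm e.1.val]
  intro e
  exact pow_eq_zero_iff (by positivity) |>.1 (this e)

lemma key (y : E → R) (hy : ∀ e, InN (y e)) (h : ∑ e : E, g ^ e.1.val * (c * y e) = 0) :
    ∀ e, y e = 0 := by
  intro e
  refine co_ext fun j r => ?_
  by_cases hg : Good j r
  · refine fourier' (fun e => co j r (y e)) (fun i => ?_) e
    have := congrArg (co (j + (i.1 + 1 : ℕ)) (1 + 2 ^ (i.1 + 1) * r)) h
    rw [map_sum, map_zero] at this
    rw [← this]
    exact Finset.sum_congr rfl fun e _ => by rw [co_gpow, co_c_good (hy e) hg]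
  · exact hy e j r hg

instance : CharP R 3 := by
  refine (CharP.charP_iff_prime_eq_zero (by norm_num)).2 ?_
  refine co_ext fun j r => ?_
  rw [← nsmul_one, map_nsmul, nsmul_eq_mul, CharP.cast_eq_zero L 3, zero_mul]

noncomputable instance alg : Algebra (ZMod 3) R := ZMod.algebra R 3

lemma co_smul (j : ℤ) (r : ℚ) (a : ZMod 3) (z : R) :
    co j r (algebraMap (ZMod 3) R a * z) = algebraMap (ZMod 3) L a * co j r z := by
  rw [← ZMod.natCast_zmod_val a, map_natCast, map_natCast, ← nsmul_eq_mul, ← nsmul_eq_mul, map_nsmul]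

noncomputable def χ : List E → R
  | [] => 1
  | e :: l => c * (g ^ e.1.val * χ l)

noncomputable def v (p : E × List E) : R := g ^ p.1.1.val * χ p.2

lemma inN_χ (l : List E) : InN (χ l) := by
  induction l with
  | nil => exact inN_one
  | cons e l ih => exact (ih.gpow _).c_mul.inN

noncomputable def T : (E × List E →₀ ZMod 3) →+ R :=
  Finsupp.liftAddHom fun p => (AddMonoidHom.mulRight (v p)).comp (algebraMap (ZMod 3) R)

lemma T_single (p : E × List E) (a : ZMod 3) :
    T (Finsupp.single p a) = algebraMap (ZMod 3) R a * v p := by simp [T]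

lemma inN_T (f : E × List E →₀ ZMod 3) : InN (T f) := by
  induction f using Finsupp.induction_linear with
  | zero => intro j r _; simp
  | add f g hf hg => intro j r h; rw [map_add, map_add, hf j r h, hg j r h, add_zero]
  | single p a => intro j r h; rw [T_single, co_smul, v, (inN_χ _).gpow _ j r h, mul_zero]

noncomputable def tl (e : E) : (E × List E →₀ ZMod 3) →+ (E × List E →₀ ZMod 3) :=
  Finsupp.comapDomain.addMonoidHom (f := fun p : E × List E => (e, p.1 :: p.2))
    (fun p q h => by simp at h; exact Prod.ext h.1 h.2)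

lemma tl_apply (e : E) (f : E × List E →₀ ZMod 3) (p : E × List E) :
    tl e f p = f (e, p.1 :: p.2) := rfl

lemma T_eq (f : E × List E →₀ ZMod 3) : T f =
    ∑ e : E, algebraMap (ZMod 3) R (f (e, [])) * g ^ e.1.val +
      ∑ e : E, g ^ e.1.val * (c * T (tl e f)) := by
  induction f using Finsupp.induction_linear with
  | zero => simp
  | add f f' hf hf' =>
    rw [map_add, hf, hf']
    simp only [Finsupp.add_apply, map_add, add_mul, mul_add, Finset.sum_add_distrib]
    abel
  | single p a =>
    obtain ⟨e, l⟩ := p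
    rw [T_single]
    cases l with
    | nil =>
      have : ∀ e', tl e' (Finsupp.single (e, []) a) = 0 := fun e' => by
        ext q; simp [tl_apply]
      rw [Finset.sum_eq_single e]
      · simp [this, v, χ]
      · intro b _ hb
        rw [Finsupp.single_eq_of_ne (by simpa using hb)]; simp
      · simp
    | cons e1 l =>
      have h1 : ∀ e', e' ≠ e → tl e' (Finsupp.single (e, e1 :: l) a) = 0 := fun e' he => by
        ext q; rw [tl_apply, Finsupp.single_eq_of_ne (by simp [he])]; rfl
      have h2 : tl e (Finsupp.single (e, e1 :: l) a) = Finsupp.single (e1, l) a := by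
        ext q
        rw [tl_apply]
        simp [Finsupp.single_apply, Prod.ext_iff]
      rw [Finset.sum_eq_zero fun e' _ => by rw [Finsupp.single_eq_of_ne (by simp)]; simp,
        zero_add, Finset.sum_eq_single e, h2, T_single]
      · simp only [v, χ]
        rw [Algebra.left_comm, Algebra.left_comm]
      · intro b _ hb
        simp [h1 b hb]
      · simp

lemma T_inj_aux (n : ℕ) : ∀ f : E × List E →₀ ZMod 3, (∀ p, n ≤ p.2.length → f p = 0) →
    T f = 0 → f = 0 := by
  induction n with
  | zero => intro f h _; ext p; exact h p (Nat.zero_le _)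
  | succ n ih =>
    intro f h hT
    rw [T_eq] at hT
    have h0 : ∀ e, f (e, []) = 0 := by
      have h1 := congrArg (co 0 0) hT
      rw [map_add, map_sum, map_sum, map_zero, Finset.sum_eq_zero (s := Finset.univ)
        (f := fun e : E => co 0 0 (g ^ e.1.val * (c * T (tl e f)))) fun e _ => by
          rw [co_gpow, (inN_T _).c_mul 0 0 not_odd_zero, mul_zero], add_zero] at h1
      have h2 : ∑ e : E, ζ ^ e.1.val * algebraMap (ZMod 3) L (f (e, [])) = 0 := by
        rw [← h1]
        refine Finset.sum_congr rfl fun e _ => ?_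
        rw [co_smul, ← mul_one (g ^ _), co_gpow, co_one]
        simp [mul_comm]
      have h3 := fourier' (fun e => algebraMap (ZMod 3) L (f (e, []))) fun i => by
        rw [← h2]
        refine Finset.sum_congr rfl fun e _ => ?_
        rw [← map_pow, ZMod.pow_card_pow]
      intro e
      exact (algebraMap (ZMod 3) L).injective ((h3 e).trans (map_zero _).symm)
    simp only [h0, map_zero, zero_mul, Finset.sum_const_zero, zero_add] at hT
    have h4 := key _ (fun e => inN_T _) hT
    ext ⟨e, l⟩
    cases l with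
    | nil => exact h0 e
    | cons e1 l =>
      have := ih (tl e f) (fun p hp => h _ (by simpa using hp)) (h4 e)
      exact DFunLike.congr_fun this (e1, l)

lemma T_inj (f : E × List E →₀ ZMod 3) (h : T f = 0) : f = 0 := by
  refine T_inj_aux (f.support.sup (fun p => p.2.length) + 1) f (fun p hp => ?_) h
  by_contra hc
  have := Finset.le_sup (f := fun p : E × List E => p.2.length) (Finsupp.mem_support_iff.2 hc)
  omega

def code (s : S) : E × List E := (eb s.b, s.l ++ [ea s.a])

lemma code_inj : Function.Injective code := by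
  intro s t h
  simp only [code, Prod.mk.injEq] at h
  obtain ⟨h1, h2⟩ := List.append_inj' h.2 rfl
  have e1 : Function.Injective eb := by decide
  have e2 : Function.Injective ea := by decide
  exact S.ext (e1 h.1) h1 (e2 (by simpa using h2))

lemma χ_append (l l' : List E) : χ (l ++ l') = χ l * χ l' := by
  induction l with
  | nil => simp [χ]
  | cons e l ih => simp [χ, ih, mul_assoc]

lemma g7 : g ^ 7 = 1 := by
  have : g = SkewMonoidAlgebra.singleOneRingHom (HahnSeries.C ζ) := rfl
  rw [this, ← map_pow, ← map_pow, hζ.pow_eq_one, map_one, map_one]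

noncomputable def φ : S →ₙ* R where
  toFun s := v (code s)
  map_mul' s t := by
    have : g ^ (mid s.a t.b).1.val = g ^ (ea s.a).1.val * g ^ (eb t.b).1.val := by
      rw [← pow_add, pow_eq_pow_mod ((ea s.a).1.val + _) g7, ← ZMod.val_add]; rfl
    simp only [v, code, mul_def, List.append_assoc, List.cons_append, χ_append, χ, this, mul_assoc,
      mul_one]

noncomputable def Φ : MonoidAlgebra (ZMod 3) S →ₙ+* R where
  toFun x := T (x.coeff.mapDomain code)
  map_zero' := by simp
  map_add' x y := by simp [Finsupp.mapDomain_add]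
  map_mul' x y := by
    induction x using MonoidAlgebra.induction_linear with
    | zero => simp
    | add x x' h h' => simp only [add_mul, MonoidAlgebra.coeff_add, Finsupp.mapDomain_add, map_add, h, h']
    | single s a =>
      induction y using MonoidAlgebra.induction_linear with
      | zero => simp
      | add y y' h h' =>
        simp only [mul_add, MonoidAlgebra.coeff_add, Finsupp.mapDomain_add, map_add, h, h']
      | single t b =>
        simp only [MonoidAlgebra.single_mul_single, MonoidAlgebra.coeff_single,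
          Finsupp.mapDomain_single, T_single, map_mul]
        have : v (code (s * t)) = v (code s) * v (code t) := φ.map_mul s t
        rw [this, mul_assoc, mul_assoc, ← mul_assoc (v (code s)), ← Algebra.commutes b, mul_assoc]

lemma Φ_inj : Function.Injective Φ := by
  rw [injective_iff_map_eq_zero]
  intro x hx
  have := T_inj _ hx
  rw [← Finsupp.mapDomain_zero (f := code)] at this
  exact MonoidAlgebra.coeff_injective (Finsupp.mapDomain_injective code_inj this)

theorem embedding : ∃ (D : Type) (_ : DivisionRing D) (f : MonoidAlgebra (ZMod 3) S →ₙ+* D),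
    Function.Injective f :=
  ⟨OreLocalization (nonZeroDivisors R) R, inferInstance,
    (OreLocalization.numeratorRingHom : R →+* _).toNonUnitalRingHom.comp Φ,
    Pool.Agent.H64.SkewOre.numerator_inj.comp Φ_inj⟩

end Pool.Agent.H64.SemiEmb2
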