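import Mathlib

/-! Rooted and directed permutations of words over seven letters. -/

namespace H64.Spr

open Equiv
open scoped commutatorElement

abbrev A := Fin 7
abbrev L := List A

def g1 : Perm A := ⟨![1, 0, 2, 4, 3, 5, 6], ![1, 0, 2, 4, 3, 5, 6], by decide, by decide⟩
def g2 : Perm A := ⟨![1, 2, 3, 4, 5, 6, 0], ![6, 0, 1, 2, 3, 4, 5], by decide, by decide⟩
def zeta : Perm A := ⟨![1, 2, 3, 4, 0, 5, 6], ![4, 0, 1, 2, 3, 5, 6], by decide, by decide⟩
def tau : Perm A := ⟨![0, 1, 4, 2, 3, 5, 6], ![0, 1, 3, 4, 2, 5, 6], by decide, by decide⟩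

def S : Subgroup (Perm A) := Subgroup.closure {g1, g2}

def ev : List Bool → Perm A
  | [] => 1
  | b :: l => (if b then g1 else g2) * ev l

lemma g1_mem : g1 ∈ S := Subgroup.subset_closure (by simp)
lemma g2_mem : g2 ∈ S := Subgroup.subset_closure (by simp)

lemma ev_mem (l : List Bool) : ev l ∈ S := by
  induction l with
  | nil => exact S.one_mem
  | cons b l ih =>
    refine S.mul_mem ?_ ih
    cases b
    · exact g2_mem
    · exact g1_mem

lemma zeta_mem : zeta ∈ S := by
  have : zeta = ev [false, false, false, false, false, false, true, false, false, false, true,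
    false, false, false, false, false, false] := by decide +kernel
  rw [this]; exact ev_mem _

lemma tau_mem : tau ∈ S := by
  have : tau = ev [false, false, false, true, false, false, false, true, false] := by decide +kernel
  rw [this]; exact ev_mem _

lemma g1_sq : g1 ^ 2 = 1 := by decide +kernel
lemma g2_pow : g2 ^ 7 = 1 := by decide +kernel
lemma zeta_pow : zeta ^ 5 = 1 := by decide +kernel

lemma trans0 (c : A) : ∃ s ∈ S, s 0 = c := by
  refine ⟨g2 ^ c.val, S.pow_mem g2_mem _, ?_⟩
  revert c; decide +kernel

lemma perf (M : Subgroup (Perm A)) (h1 : ∀ t ∈ M, g1 * t * g1⁻¹ ∈ M)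
    (h2 : ∀ t ∈ M, g2 * t * g2⁻¹ ∈ M) (hk : ⁅g1, g2⁆ ∈ M) : S ≤ M := by
  have hl : ∀ l, ev l * ⁅g1, g2⁆ * (ev l)⁻¹ ∈ M := by
    intro l
    induction l with
    | nil => simpa [ev] using hk
    | cons b l ih =>
      cases b
      · have := h2 _ ih
        simpa [ev, mul_assoc] using this
      · have := h1 _ ih
        simpa [ev, mul_assoc] using this
  rw [S, Subgroup.closure_le]
  rintro t (rfl | rfl)
  · have := M.mul_mem (hl [false, true, false, true])
      (hl [false, true, false, false, false, true, false, false, true, false])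
    exact (congrArg (· ∈ M) (by decide +kernel)).mp this
  · have := M.mul_mem (hl [true, false, false, true, false, true])
      (hl [false, false, false, true, false, false, true, false, true])
    exact (congrArg (· ∈ M) (by decide +kernel)).mp this

section ms
variable {ι H : Type} [DecidableEq ι] [Group H]

abbrev ms (i : ι) (a : H) : ι → H := Pi.mulSingle i a

lemma ms_comm {i j k : ι} (hj : i ≠ j) (hk : i ≠ k) (hjk : j ≠ k) (a b c d : H) :
    ⁅ms i a * ms j b, ms i c * ms k d⁆ = ms i ⁅a, c⁆ := by
  funext o
  by_cases h1 : o = i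
  · subst h1; simp [commutatorElement_def, hj, hk]
  by_cases h2 : o = j
  · subst h2; simp [commutatorElement_def, h1, hjk]
  by_cases h3 : o = k
  · subst h3; simp [commutatorElement_def, h1, h2]
  simp [commutatorElement_def, h1, h2, h3]

lemma ms_conj {i j : ι} (hj : i ≠ j) (a b c : H) :
    (ms i a * ms j b) * ms i c * (ms i a * ms j b)⁻¹ = ms i (a * c * a⁻¹) := by
  funext o
  by_cases h1 : o = i
  · subst h1; simp [hj]
  simp [h1]

lemma ms_swap {i j : ι} (hj : i ≠ j) (a b : H) : ms i a * ms j b = ms j b * ms i a :=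
  (Pi.mulSingle_commute (f := fun _ => H) hj a b).eq

def sh (t : Perm ι) (f : ι → H) : ι → H := fun o => f (t⁻¹ o)

omit [DecidableEq ι] in
lemma sh_mul (t : Perm ι) (f g : ι → H) : sh t (f * g) = sh t f * sh t g := rfl

lemma sh_ms (t : Perm ι) (i : ι) (a : H) : sh t (ms i a) = ms (t i) a := by
  funext o
  by_cases h : o = t i
  · subst h; simp [sh]
  · have : t⁻¹ o ≠ i := fun h2 => h (by rw [← h2]; simp)
    exact (Pi.mulSingle_eq_of_ne (M := fun _ => H) this a).trans
      (Pi.mulSingle_eq_of_ne (M := fun _ => H) h a).symm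

end ms

def rootF (t : Perm A) : L → L
  | [] => []
  | c :: u => t c :: u

def root : Perm A →* Perm L := MonoidHom.mk'
  (fun t => ⟨rootF t, rootF t⁻¹, by intro u; cases u <;> simp [rootF],
    by intro u; cases u <;> simp [rootF]⟩)
  (by intro a b; ext1 u; cases u <;> simp [rootF])

@[simp] lemma root_nil (t : Perm A) : root t [] = [] := rfl
@[simp] lemma root_cons (t : Perm A) (c : A) (u : L) : root t (c :: u) = t c :: u := rfl

def blF (f : A → Perm L) : L → L
  | [] => []
  | c :: u => c :: f c u

def bl : (A → Perm L) →* Perm L := MonoidHom.mk'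
  (fun f => ⟨blF f, blF f⁻¹, by intro u; cases u <;> simp [blF],
    by intro u; cases u <;> simp [blF]⟩)
  (by intro a b; ext1 u; cases u <;> simp [blF])

@[simp] lemma bl_nil (f : A → Perm L) : bl f [] = [] := rfl
@[simp] lemma bl_cons (f : A → Perm L) (c : A) (u : L) : bl f (c :: u) = c :: f c u := rfl

lemma root_bl (t : Perm A) (f : A → Perm L) : root t * bl f * (root t)⁻¹ = bl (sh t f) := by
  rw [mul_inv_eq_iff_eq_mul]
  ext1 u
  cases u <;> simp [sh]

def sub (c : A) : Perm L →* Perm L := bl.comp (MonoidHom.mulSingle (fun _ : A => Perm L) c)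

lemma sub_apply (c : A) (φ : Perm L) : sub c φ = bl (ms c φ) := rfl

def under : L → Perm L →* Perm L
  | [] => MonoidHom.id _
  | c :: v => (sub c).comp (under v)

lemma under_app (v : L) (φ : Perm L) (u : L) : under v φ (v ++ u) = v ++ φ u := by
  induction v with
  | nil => rfl
  | cons c v ih => simp [under, sub_apply, ih]

lemma under_fix (v : L) (φ : Perm L) (u : L) (h : ¬ v <+: u) : under v φ u = u := by
  induction v generalizing u with
  | nil => simp at h
  | cons c v ih =>
    cases u with
    | nil => simp [under, sub_apply]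
    | cons d u =>
      by_cases hd : d = c
      · subst hd
        simp [under, sub_apply, ih u (by simpa using h)]
      · simp [under, sub_apply, hd]

def dir : ℕ → Perm A →* Perm L
  | 0 => 1
  | r + 1 => MonoidHom.mk' (fun t => bl (ms 0 (dir r t) * ms 1 (root t))) (by
      intro a b
      rw [← map_mul]
      congr 1
      funext o
      by_cases h0 : o = 0
      · subst h0; simp
      by_cases h1 : o = 1
      · subst h1; simp
      simp [h0, h1])

lemma dir_succ (r : ℕ) (t : Perm A) : dir (r + 1) t = bl (ms 0 (dir r t) * ms 1 (root t)) := rfl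

lemma wreath_gen (r : ℕ) : ∀ (N : Subgroup (Perm L)), (∀ t ∈ S, root t ∈ N) →
    (∀ t ∈ S, dir r t ∈ N) → ∀ v : L, v.length ≤ r → ∀ t ∈ S, under v (root t) ∈ N := by
  induction r with
  | zero =>
    intro N h1 _ v hv t ht
    obtain rfl : v = [] := List.length_eq_zero_iff.1 (by omega)
    exact h1 t ht
  | succ r ih =>
    intro N h1 h2 v hv t ht
    have hsh : ∀ s ∈ S, ∀ f, bl f ∈ N → bl (sh s f) ∈ N := by
      intro s hs f hf
      rw [← root_bl]
      exact N.mul_mem (N.mul_mem (h1 s hs) hf) (N.inv_mem (h1 s hs))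
    have hb : ∀ t ∈ S, bl (ms 1 (root t) * ms 0 (dir r t)) ∈ N := by
      intro t ht
      rw [ms_swap (by decide)]; exact h2 t ht
    have hM : S ≤ N.comap ((sub 1).comp root) := by
      have hc : ∀ s ∈ S, ∀ t ∈ N.comap ((sub 1).comp root),
          s * t * s⁻¹ ∈ N.comap ((sub 1).comp root) := by
        intro s hs t ht
        have := N.mul_mem (N.mul_mem (hb s hs) ht) (N.inv_mem (hb s hs))
        change bl _ * bl (ms 1 (root t)) * (bl _)⁻¹ ∈ N at this
        rw [← map_inv, ← map_mul, ← map_mul, ms_conj (by decide)] at this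
        show bl (ms 1 (root (s * t * s⁻¹))) ∈ N
        simpa only [map_mul, map_inv] using this
      apply perf _ (hc g1 g1_mem) (hc g2 g2_mem)
      have h3 := hsh (ev [false, true]) (ev_mem _) _ (hb g2 g2_mem)
      rw [sh_mul, sh_ms, sh_ms, show ev [false, true] 1 = 1 by decide +kernel,
        show ev [false, true] 0 = 2 by decide +kernel] at h3
      have h4 : ⁅bl _, bl _⁆ ∈ N := N.mul_mem (N.mul_mem (N.mul_mem (hb g1 g1_mem) h3)
        (N.inv_mem (hb g1 g1_mem))) (N.inv_mem h3)
      rw [← map_commutatorElement, ms_comm (by decide) (by decide) (by decide),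
        ← map_commutatorElement] at h4
      exact h4
    cases v with
    | nil => exact h1 t ht
    | cons c v =>
      have h5 := ih (N.comap (sub 0)) (by
          intro t ht
          have := hsh g1 g1_mem (ms 1 (root t)) (hM ht)
          rw [sh_ms, show g1 1 = 0 by decide +kernel] at this
          exact this) (by
          intro t ht
          have := N.mul_mem (N.inv_mem (hM ht)) (hb t ht)
          change (bl (ms 1 (root t)))⁻¹ * _ ∈ N at this
          rw [← map_inv, ← map_mul, inv_mul_cancel_left] at this
          exact this) v (by simpa using hv) t ht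
      obtain ⟨s, hs, rfl⟩ := trans0 c
      have := hsh s hs (ms 0 (under v (root t))) h5
      rw [sh_ms] at this
      exact this

end H64.Spr
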