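import Pool.Agent.H64.Spr1

/-! The group acting on the 8-regular tree. -/

namespace H64.Spr

open Equiv
open scoped commutatorElement

abbrev V := Bool × L
abbrev O := Option A

def enc (e : Bool) : O → L → V
  | none, u => (!e, u)
  | some c, u => (e, c :: u)

def dec (e : Bool) (v : V) : Option (O × L) :=
  if v.1 = e then (match v.2 with
    | [] => none
    | c :: u => some (some c, u)) else some (none, v.2)

lemma dec_enc (e : Bool) (o : O) (u : L) : dec e (enc e o u) = some (o, u) := by
  cases o <;> cases e <;> simp [dec, enc]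

lemma dec_root (e : Bool) : dec e (e, []) = none := by simp [dec]

lemma vcases (e : Bool) (v : V) : v = (e, []) ∨ ∃ o u, v = enc e o u := by
  obtain ⟨d, u⟩ := v
  by_cases h : d = e
  · subst h
    cases u with
    | nil => exact Or.inl rfl
    | cons c u => exact Or.inr ⟨some c, u, rfl⟩
  · refine Or.inr ⟨none, u, ?_⟩
    cases d <;> cases e <;> simp_all [enc]

def wrF (e : Bool) (t : Perm O) (f : O → Perm L) (v : V) : V :=
  match dec e v with
  | none => v
  | some (o, u) => enc e (t o) (f o u)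

lemma wrF_root (e : Bool) (t : Perm O) (f : O → Perm L) : wrF e t f (e, []) = (e, []) := by
  simp [wrF, dec_root]
lemma wrF_enc (e : Bool) (t : Perm O) (f : O → Perm L) (o : O) (u : L) :
    wrF e t f (enc e o u) = enc e (t o) (f o u) := by simp [wrF, dec_enc]

def wr (e : Bool) (t : Perm O) (f : O → Perm L) : Perm V :=
  ⟨wrF e t f, wrF e t⁻¹ (fun o => (f (t⁻¹ o))⁻¹), by
    intro v
    rcases vcases e v with rfl | ⟨o, u, rfl⟩
    · rw [wrF_root, wrF_root]
    · rw [wrF_enc, wrF_enc]; simp, by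
    intro v
    rcases vcases e v with rfl | ⟨o, u, rfl⟩
    · rw [wrF_root, wrF_root]
    · rw [wrF_enc, wrF_enc]; simp⟩

lemma wr_root (e : Bool) (t : Perm O) (f : O → Perm L) : wr e t f (e, []) = (e, []) :=
  wrF_root e t f
lemma wr_enc (e : Bool) (t : Perm O) (f : O → Perm L) (o : O) (u : L) :
    wr e t f (enc e o u) = enc e (t o) (f o u) := wrF_enc e t f o u

lemma pext (e : Bool) {g h : Perm V} (h1 : g (e, []) = h (e, []))
    (h2 : ∀ o u, g (enc e o u) = h (enc e o u)) : g = h := by
  ext1 v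
  rcases vcases e v with rfl | ⟨o, u, rfl⟩
  · exact h1
  · exact h2 o u

def P (e : Bool) : Perm O →* Perm V := MonoidHom.mk' (fun t => wr e t 1) (by
  intro a b
  apply pext e <;> simp [wr_root, wr_enc])

def B (e : Bool) : (O → Perm L) →* Perm V := MonoidHom.mk' (fun f => wr e 1 f) (by
  intro a b
  apply pext e <;> simp [wr_root, wr_enc])

@[simp] lemma P_root (e : Bool) (t : Perm O) : P e t (e, []) = (e, []) := wr_root _ _ _
@[simp] lemma P_enc (e : Bool) (t : Perm O) (o : O) (u : L) :
    P e t (enc e o u) = enc e (t o) u := wr_enc _ _ _ _ _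
@[simp] lemma B_root (e : Bool) (f : O → Perm L) : B e f (e, []) = (e, []) := wr_root _ _ _
@[simp] lemma B_enc (e : Bool) (f : O → Perm L) (o : O) (u : L) :
    B e f (enc e o u) = enc e o (f o u) := wr_enc _ _ _ _ _

lemma P_B (e : Bool) (t : Perm O) (f : O → Perm L) :
    P e t * B e f * (P e t)⁻¹ = B e (sh t f) := by
  rw [mul_inv_eq_iff_eq_mul]
  apply pext e <;> simp [sh]

def C (e : Bool) : Perm L →* Perm V :=
  (B (!e)).comp (MonoidHom.mulSingle (fun _ : O => Perm L) none)

lemma C_def (e : Bool) (φ : Perm L) : C e φ = B (!e) (ms none φ) := rfl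

lemma C_same (e : Bool) (φ : Perm L) (u : L) : C e φ (e, u) = (e, φ u) := by
  have := B_enc (!e) (ms none φ) none u
  rw [C_def]
  simpa [enc] using this

lemma C_other (e : Bool) (φ : Perm L) (u : L) : C e φ (!e, u) = (!e, u) := by
  cases u with
  | nil => exact B_root _ _
  | cons c u =>
    have := B_enc (!e) (ms none φ) (some c) u
    rw [C_def]
    simpa [enc] using this

lemma sext (e : Bool) {g h : Perm V} (h1 : ∀ u, g (e, u) = h (e, u))
    (h2 : ∀ u, g (!e, u) = h (!e, u)) : g = h := by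
  ext1 ⟨d, u⟩
  by_cases hd : d = e
  · subst hd; exact h1 u
  · obtain rfl : d = !e := by cases d <;> cases e <;> simp_all
    exact h2 u

lemma C_root (e : Bool) (t : Perm A) : C e (root t) = P e (optionCongr t) := by
  apply pext e
  · rw [C_same, P_root]; rfl
  · intro o u
    rw [P_enc]
    cases o with
    | none => exact C_other e _ u
    | some c => exact C_same e _ _

lemma C_sub (e : Bool) (c : A) (φ : Perm L) : C e (sub c φ) = B e (ms (some c) φ) := by
  apply pext e
  · rw [C_same, B_root]; rfl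
  · intro o u
    rw [B_enc]
    cases o with
    | none => simpa [enc] using C_other e _ u
    | some d =>
      show C e _ (e, d :: u) = (e, d :: _)
      rw [C_same, sub_apply, bl_cons]
      by_cases h : d = c
      · subst h; simp
      · simp [h]

def rho : Perm O :=
  ⟨fun o => match o with
    | none => some 3
    | some c => if c = 3 then some 5 else if c = 5 then none else some c,
   fun o => match o with
    | none => some 5
    | some c => if c = 3 then none else if c = 5 then some 3 else some c,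
   by decide, by decide⟩

def hat : Perm A →* Perm O := MonoidHom.mk' (fun t => optionCongr t) (by
  intro a b; ext1 o; cases o <;> simp)

lemma hat_apply (t : Perm A) : hat t = optionCongr t := rfl

def gens : Set (Perm V) := {g | ∃ e, g = P e (hat g1) ∨ g = P e (hat g2) ∨ g = P e rho}

def G : Subgroup (Perm V) := Subgroup.closure gens

lemma P_hat_of {Γ : Subgroup (Perm V)} {e : Bool} (h1 : P e (hat g1) ∈ Γ) (h2 : P e (hat g2) ∈ Γ)
    {t : Perm A} (ht : t ∈ S) : P e (hat t) ∈ Γ := by
  have : S ≤ Γ.comap ((P e).comp hat) := by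
    rw [S, Subgroup.closure_le]
    rintro t (rfl | rfl)
    · exact h1
    · exact h2
  exact this ht

lemma P_hat_mem (e : Bool) {t : Perm A} (ht : t ∈ S) : P e (hat t) ∈ G :=
  P_hat_of (Γ := G) (Subgroup.subset_closure (k := gens) ⟨e, Or.inl rfl⟩)
    (Subgroup.subset_closure (k := gens) ⟨e, Or.inr (Or.inl rfl)⟩) ht

lemma P_rho_mem (e : Bool) : P e rho ∈ G := Subgroup.subset_closure ⟨e, Or.inr (Or.inr rfl)⟩

lemma exists_move (e : Bool) (c : A) : ∃ t : Perm O, P e t ∈ G ∧ t none = some c := by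
  obtain ⟨s, hs, hc⟩ := trans0 c
  refine ⟨hat (s * (g2 ^ 3)⁻¹) * rho, ?_, ?_⟩
  · rw [map_mul]
    exact G.mul_mem (P_hat_mem e (S.mul_mem hs (S.inv_mem (S.pow_mem g2_mem 3)))) (P_rho_mem e)
  · show some (s ((g2 ^ 3)⁻¹ 3)) = some c
    rw [show (g2 ^ 3)⁻¹ 3 = 0 by decide +kernel, hc]

/-- permutations of words that act inside `G` on either side -/
def D : Subgroup (Perm L) := G.comap (C true) ⊓ G.comap (C false)

lemma mem_D {φ : Perm L} : φ ∈ D ↔ ∀ e, C e φ ∈ G := by
  constructor
  · rintro ⟨h1, h2⟩ e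
    cases e
    · exact h2
    · exact h1
  · intro h; exact ⟨h true, h false⟩

lemma B_ms_mem {φ : Perm L} (h : φ ∈ D) (e : Bool) (o : O) : B e (ms o φ) ∈ G := by
  have h0 : B e (ms none φ) ∈ G := by
    have := mem_D.1 h (!e)
    rwa [C_def, Bool.not_not] at this
  cases o with
  | none => exact h0
  | some c =>
    obtain ⟨t, ht, hc⟩ := exists_move e c
    rw [← hc, ← sh_ms, ← P_B]
    exact G.mul_mem (G.mul_mem ht h0) (G.inv_mem ht)

lemma root_D {t : Perm A} (ht : t ∈ S) : root t ∈ D :=
  mem_D.2 (fun e => by rw [C_root]; exact P_hat_mem e ht)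

lemma sub_D {φ : Perm L} (h : φ ∈ D) (c : A) : sub c φ ∈ D :=
  mem_D.2 (fun e => by rw [C_sub]; exact B_ms_mem h e _)

lemma under_D {φ : Perm L} (h : φ ∈ D) (v : L) : under v φ ∈ D := by
  induction v with
  | nil => exact h
  | cons c v ih => exact sub_D ih c

lemma dir_D {t : Perm A} (ht : t ∈ S) (r : ℕ) : dir r t ∈ D := by
  induction r with
  | zero => exact D.one_mem
  | succ r ih =>
    rw [dir_succ, map_mul]
    exact D.mul_mem (sub_D ih 0) (sub_D (root_D ht) 1)

lemma transport (x : Perm V) (e e' : Bool) (π : L) (hx : ∀ u, x (e, u) = (e', π ++ u))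
    (φ : Perm L) : x⁻¹ * C e' (under π φ) * x = C e φ := by
  rw [mul_assoc, inv_mul_eq_iff_eq_mul]
  apply sext e
  · intro u
    simp only [Perm.mul_apply]
    rw [hx, C_same, C_same, hx, under_app]
  · intro u
    simp only [Perm.mul_apply]
    rw [C_other]
    rcases hv : x (!e, u) with ⟨d, v⟩
    by_cases hd : d = e'
    · subst hd
      rw [C_same, under_fix]
      rintro ⟨w, rfl⟩
      rw [← hx] at hv
      have := congrArg Prod.fst (x.injective hv)
      simp at this
    · obtain rfl : d = !e' := by cases d <;> cases e' <;> simp_all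
      exact C_other _ _ _

lemma isolate {H : Type} [Group H] (Γ : Subgroup H) (a b c d : H) (ab : Commute a b)
    (ac : Commute a c) (ad : Commute a d) (bc : Commute b c) (bd : Commute b d) (cd : Commute c d)
    (ha : a ^ 3 = 1) (hb : b ^ 5 = 1) (hc : c ^ 2 = 1) (hd : d ^ 7 = 1)
    (h : a * (b * c * d) ∈ Γ) : a ∈ Γ ∧ b ∈ Γ ∧ c ∈ Γ ∧ d ∈ Γ := by
  have key : ∀ k, a ^ (k % 3) * (b ^ (k % 5) * c ^ (k % 2) * d ^ (k % 7)) ∈ Γ := by
    intro k
    have := Γ.pow_mem h k
    rwa [((ab.mul_right ac).mul_right ad).mul_pow, (bd.mul_left cd).mul_pow, bc.mul_pow,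
      pow_eq_pow_mod k ha, pow_eq_pow_mod k hb, pow_eq_pow_mod k hc, pow_eq_pow_mod k hd] at this
  refine ⟨?_, ?_, ?_, ?_⟩
  · simpa using key 70
  · simpa using key 126
  · simpa using key 105
  · simpa using key 120

lemma core (x : Perm V) (d : Bool) (π1 π0 : L) (hl : π0.length ≤ π1.length)
    (h1 : ∀ u, x (d, u) = (!d, π1 ++ u))
    (h2 : x⁻¹ * C (!d) (under π0 (root tau)) * x = P (!d) rho) :
    ∃ y ∈ G, G ≤ Subgroup.closure {x, y} := by
  set r := π1.length with hr
  let z := under π1 (root zeta)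
  let fz : O → Perm L := ms none z * ms (some 3) z * ms (some 5) z
  let f1 : O → Perm L := ms (some 0) (root g1) * ms (some 1) (dir r g1)
  let f2 : O → Perm L := ms (some 2) (root g2) * ms (some 4) (dir r g2)
  have hzD : z ∈ D := under_D (root_D zeta_mem) _
  refine ⟨P d rho * (B d fz * B d f1 * B d f2), ?_, ?_⟩
  · refine G.mul_mem (P_rho_mem d) (G.mul_mem (G.mul_mem ?_ ?_) ?_)
    · simp only [fz, map_mul]
      exact G.mul_mem (G.mul_mem (B_ms_mem hzD _ _) (B_ms_mem hzD _ _)) (B_ms_mem hzD _ _)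
    · simp only [f1, map_mul]
      exact G.mul_mem (B_ms_mem (root_D g1_mem) _ _) (B_ms_mem (dir_D g1_mem r) _ _)
    · simp only [f2, map_mul]
      exact G.mul_mem (B_ms_mem (root_D g2_mem) _ _) (B_ms_mem (dir_D g2_mem r) _ _)
  generalize hΓ : Subgroup.closure {x, P d rho * (B d fz * B d f1 * B d f2)} = Γ
  have hx : x ∈ Γ := hΓ ▸ Subgroup.subset_closure (by simp)
  have hy : P d rho * (B d fz * B d f1 * B d f2) ∈ Γ := hΓ ▸ Subgroup.subset_closure (by simp)
  have cm : ∀ f, sh rho f = f → Commute (P d rho) (B d f) := by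
    intro f hf
    have := P_B d rho f
    rwa [hf, mul_inv_eq_iff_eq_mul] at this
  have cb : ∀ f g : O → Perm L, (∀ o, f o = 1 ∨ g o = 1) → Commute (B d f) (B d g) := by
    intro f g h
    apply Commute.map
    funext o
    rcases h o with h | h <;> simp [h]
  have r0 : rho none = some 3 := rfl
  have r3 : rho (some 3) = some 5 := rfl
  have r5 : rho (some 5) = none := rfl
  obtain ⟨hρ, hfz, hf1, hf2⟩ := isolate Γ _ _ _ _
    (cm fz (by
      simp only [fz, sh_mul, sh_ms, r0, r3, r5]
      rw [ms_swap (i := none) (by decide), mul_assoc, mul_assoc, ms_swap (i := none) (by decide)]))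
    (cm f1 (by simp only [f1, sh_mul, sh_ms]; rfl))
    (cm f2 (by simp only [f2, sh_mul, sh_ms]; rfl))
    (cb _ _ (by rintro (_ | o); · simp [f1]
                · fin_cases o <;> simp [fz, f1]))
    (cb _ _ (by rintro (_ | o); · simp [f2]
                · fin_cases o <;> simp [fz, f2]))
    (cb _ _ (by rintro (_ | o); · simp [f2]
                · fin_cases o <;> simp [f1, f2]))
    (by rw [← map_pow, show rho ^ 3 = 1 by decide +kernel, map_one])
    (by
      have hz : z ^ 5 = 1 := by rw [← map_pow, ← map_pow, zeta_pow, map_one, map_one]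
      rw [← map_pow, ← (B d).map_one]
      congr 1
      funext o
      rcases o with _ | o
      · simp [fz, hz]
      · fin_cases o <;> simp [fz, hz])
    (by
      have a1 : root g1 ^ 2 = 1 := by rw [← map_pow, g1_sq, map_one]
      have a2 : dir r g1 ^ 2 = 1 := by rw [← map_pow, g1_sq, map_one]
      rw [← map_pow, ← (B d).map_one]
      congr 1
      funext o
      rcases o with _ | o
      · simp [f1]
      · fin_cases o <;> simp [f1, a1, a2])
    (by
      have a1 : root g2 ^ 7 = 1 := by rw [← map_pow, g2_pow, map_one]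
      have a2 : dir r g2 ^ 7 = 1 := by rw [← map_pow, g2_pow, map_one]
      rw [← map_pow, ← (B d).map_one]
      congr 1
      funext o
      rcases o with _ | o
      · simp [f2]
      · fin_cases o <;> simp [f2, a1, a2]) hy
  have hshift : ∀ f : O → Perm L, f none = 1 → B d f ∈ Γ → B d (sh (hat zeta) f) ∈ Γ := by
    intro f hf hfΓ
    have hz : x⁻¹ * B d fz * x ∈ Γ := Γ.mul_mem (Γ.mul_mem (Γ.inv_mem hx) hfz) hx
    have hdis : Perm.Disjoint ((P d (hat zeta))⁻¹ * (x⁻¹ * B d fz * x)) (B d f) := by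
      rintro ⟨e, u⟩
      by_cases he : e = d
      · subst he
        left
        rw [Perm.mul_apply, Perm.inv_eq_iff_eq, Perm.mul_apply, Perm.mul_apply,
          Perm.inv_eq_iff_eq, hat_apply, ← C_root, C_same, h1, h1]
        have := B_enc e fz none (π1 ++ u)
        simp only [enc] at this
        rw [this]
        simp [fz, z, under_app]
      · right
        obtain rfl : e = !d := by cases d <;> cases e <;> simp_all
        have := B_enc d f none u
        simpa [enc, hf] using this
    have hc := hdis.commute.eq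
    rw [← P_B]
    have h3 := Γ.mul_mem (Γ.mul_mem hz hfΓ) (Γ.inv_mem hz)
    generalize x⁻¹ * B d fz * x = w at h3 hc
    have : w * B d f * w⁻¹ = P d (hat zeta) * B d f * (P d (hat zeta))⁻¹ := by
      calc w * B d f * w⁻¹ = P d (hat zeta) * ((P d (hat zeta))⁻¹ * w * B d f) * w⁻¹ := by group
        _ = _ := by rw [hc]; group
    rwa [this] at h3
  have z0 : hat zeta (some 0) = some 1 := rfl
  have z1 : hat zeta (some 1) = some 2 := rfl
  have z2 : hat zeta (some 2) = some 3 := rfl
  have z3 : hat zeta (some 3) = some 4 := rfl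
  have z4 : hat zeta (some 4) = some 0 := rfl
  have s1 := hshift f2 (by simp [f2]) hf2
  simp only [f2, sh_mul, sh_ms, z2, z4] at s1
  have s2 := hshift _ (by simp) s1
  simp only [sh_mul, sh_ms, z3, z0] at s2
  have s3 := hshift _ (by simp) s2
  simp only [sh_mul, sh_ms, z4, z1] at s3
  have gen : ∀ (ψ : Perm A →* Perm L) (i j k : O) (a b : Perm L), i ≠ j → i ≠ k → j ≠ k →
      B d (ms i (ψ g1) * ms j a) ∈ Γ → B d (ms i (ψ g2) * ms k b) ∈ Γ →
      ∀ t ∈ S, B d (ms i (ψ t)) ∈ Γ := by
    intro ψ i j k a b hij hik hjk u1 u2 t ht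
    have hc : ∀ (s : Perm A) (j : O) (a : Perm L), i ≠ j → B d (ms i (ψ s) * ms j a) ∈ Γ →
        ∀ t, B d (ms i (ψ t)) ∈ Γ → B d (ms i (ψ (s * t * s⁻¹))) ∈ Γ := by
      intro s j a hij u t ht
      have := Γ.mul_mem (Γ.mul_mem u ht) (Γ.inv_mem u)
      rw [← map_inv, ← map_mul, ← map_mul, ms_conj hij] at this
      simpa only [map_mul, map_inv] using this
    refine perf (Γ.comap (((B d).comp (MonoidHom.mulSingle (fun _ : O => Perm L) i)).comp ψ))
      (hc g1 j a hij u1) (hc g2 k b hik u2) ?_ ht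
    have h4 : ⁅B d _, B d _⁆ ∈ Γ := Γ.mul_mem (Γ.mul_mem (Γ.mul_mem u1 u2)
      (Γ.inv_mem u1)) (Γ.inv_mem u2)
    rw [← map_commutatorElement, ms_comm hij hik hjk, ← map_commutatorElement] at h4
    exact h4
  have m1 := gen root (some 0) (some 1) (some 2) _ _ (by decide) (by decide) (by decide) hf1 s3
  have m2 := gen (dir r) (some 1) (some 0) (some 4) (root g1) (root g2) (by decide) (by decide)
    (by decide) (by rw [ms_swap (by decide)]; exact hf1) (by rw [ms_swap (by decide)]; exact s2)
  have hsh1 : ∀ (c : A) (φ : Perm L), B d (ms (some c) φ) ∈ Γ → B d (ms (some (zeta c)) φ) ∈ Γ := by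
    intro c φ h
    have := hshift _ (by simp) h
    rwa [sh_ms] at this
  have m3 := wreath_gen r (Γ.comap ((B d).comp (MonoidHom.mulSingle (fun _ : O => Perm L) (some 0))))
    m1 (fun t ht => hsh1 4 _ (hsh1 3 _ (hsh1 2 _ (hsh1 1 _ (m2 t ht)))))
  have m4 : ∀ v : L, v.length ≤ r → ∀ t ∈ S, C (!d) (under v (root t)) ∈ Γ := by
    intro v hv t ht
    have h5 : B d (ms (some 3) (under v (root t))) ∈ Γ :=
      hsh1 2 _ (hsh1 1 _ (hsh1 0 _ (m3 v hv t ht)))
    have h6 := Γ.mul_mem (Γ.mul_mem (Γ.inv_mem hρ) h5) hρ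
    rw [← r0, ← sh_ms, ← P_B] at h6
    rw [C_def, Bool.not_not]
    simpa [mul_assoc] using h6
  have m5 : ∀ t ∈ S, P d (hat t) ∈ Γ := by
    intro t ht
    rw [hat_apply, ← C_root, ← transport x d (!d) π1 h1]
    exact Γ.mul_mem (Γ.mul_mem (Γ.inv_mem hx) (m4 π1 le_rfl t ht)) hx
  have m6 : ∀ t ∈ S, P (!d) (hat t) ∈ Γ := by
    intro t ht
    rw [hat_apply, ← C_root]
    exact m4 [] (by simp) t ht
  have m7 : P (!d) rho ∈ Γ := by
    rw [← h2]
    exact Γ.mul_mem (Γ.mul_mem (Γ.inv_mem hx) (m4 π0 hl tau tau_mem)) hx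
  rw [G, Subgroup.closure_le]
  rintro g ⟨e, he⟩
  by_cases hd : e = d
  · subst hd
    rcases he with rfl | rfl | rfl
    · exact m5 _ g1_mem
    · exact m5 _ g2_mem
    · exact hρ
  · obtain rfl : e = !d := by cases d <;> cases e <;> simp_all
    rcases he with rfl | rfl | rfl
    · exact m6 _ g1_mem
    · exact m6 _ g2_mem
    · exact m7

end H64.Spr
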