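import Pool.Agent.H64.Spr2

namespace H64.Spr

open Equiv

def app (w : V) (u : L) : V := (w.1, w.2 ++ u)

@[simp] lemma app_nil (w : V) : app w [] = w := by simp [app]
lemma app_app (w : V) (u v : L) : app (app w u) v = app w (u ++ v) := by simp [app]
lemma app_enc (e : Bool) (o : O) (u v : L) : app (enc e o u) v = enc e o (u ++ v) := by
  cases o <;> rfl

def Ed (u v : V) : Prop := (∃ c, v = app u [c]) ∨ (u.2 = [] ∧ v.2 = [] ∧ u.1 ≠ v.1)
def Adj (u v : V) : Prop := Ed u v ∨ Ed v u

lemma Adj.symm {u v : V} (h : Adj u v) : Adj v u := Or.symm h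

lemma adj_root (e : Bool) (o : O) : Adj (e, []) (enc e o []) := by
  cases o with
  | none => exact Or.inl (Or.inr ⟨rfl, rfl, by cases e <;> simp [enc]⟩)
  | some c => exact Or.inl (Or.inl ⟨c, rfl⟩)

lemma P_ed (e : Bool) (t : Perm O) {u v : V} (h : Ed u v) : Adj (P e t u) (P e t v) := by
  rcases h with ⟨c, rfl⟩ | ⟨h1, h2, h3⟩
  · rcases vcases e u with rfl | ⟨o, w, rfl⟩
    · rw [P_root, show app (e, []) [c] = enc e (some c) [] from rfl, P_enc]
      exact adj_root _ _
    · rw [app_enc, P_enc, P_enc, ← app_enc]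
      exact Or.inl (Or.inl ⟨c, rfl⟩)
  · obtain ⟨a, u⟩ := u
    obtain ⟨b, v⟩ := v
    simp only at h1 h2 h3
    subst h1 h2
    by_cases ha : a = e
    · subst ha
      obtain rfl : b = !a := by cases a <;> cases b <;> simp_all
      rw [P_root, show ((!a, []) : V) = enc a none [] from rfl, P_enc]
      exact adj_root _ _
    · obtain rfl : b = e := by cases a <;> cases b <;> cases e <;> simp_all
      obtain rfl : a = !b := by cases a <;> cases b <;> simp_all
      rw [P_root, show ((!b, []) : V) = enc b none [] from rfl, P_enc]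
      exact (adj_root _ _).symm

def ty (v : V) : ZMod 2 := (if v.1 then 1 else 0) + (v.2.length : ZMod 2)

lemma ty_enc (e : Bool) (o : O) (u : L) :
    ty (enc e o u) = (if e then 1 else 0) + 1 + (u.length : ZMod 2) := by
  cases o with
  | none =>
    cases e
    · simp [ty, enc]
    · simp only [ty, enc]
      simp only [Bool.not_true, Bool.false_eq_true, if_false, if_true]
      congr 1
  | some c => cases e <;> simp [ty, enc, add_comm, add_left_comm]

structure Nice (g : Perm V) : Prop where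
  adj : ∀ u v, Adj u v → Adj (g u) (g v)
  ty : ∀ v, ty (g v) = ty v
  pre : ∃ N, ∀ w : V, N ≤ w.2.length →
    ∃ w' : V, w.2.length ≤ w'.2.length + N ∧ ∀ u, g (app w u) = app w' u

lemma nice_P (e : Bool) (t : Perm O) : Nice (P e t) := by
  refine ⟨?_, ?_, 2, ?_⟩
  · rintro u v (h | h)
    · exact P_ed e t h
    · exact (P_ed e t h).symm
  · intro v
    rcases vcases e v with rfl | ⟨o, w, rfl⟩
    · rw [P_root]
    · rw [P_enc, ty_enc, ty_enc]
  · intro w hw
    rcases vcases e w with rfl | ⟨o, w, rfl⟩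
    · simp at hw
    · refine ⟨enc e (t o) w, ?_, fun u => by rw [app_enc, app_enc, P_enc]⟩
      cases o <;> cases t _ <;> simp only [enc, List.length_cons] <;> omega

lemma nice_G {g : Perm V} (hg : g ∈ G) : Nice g := by
  induction hg using Subgroup.closure_induction'' with
  | one => exact ⟨fun _ _ h => h, fun _ => rfl, 0, fun w _ => ⟨w, le_rfl, fun _ => rfl⟩⟩
  | mem x hx => obtain ⟨e, rfl | rfl | rfl⟩ := hx <;> exact nice_P _ _
  | inv_mem x hx => obtain ⟨e, rfl | rfl | rfl⟩ := hx <;> rw [← map_inv] <;> exact nice_P _ _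
  | mul x y _ _ hx hy =>
    refine ⟨fun u v h => hx.adj _ _ (hy.adj _ _ h), fun v => (hx.ty _).trans (hy.ty _), ?_⟩
    obtain ⟨N, hN⟩ := hx.pre
    obtain ⟨M, hM⟩ := hy.pre
    refine ⟨N + M, fun w hw => ?_⟩
    obtain ⟨w', h1, h2⟩ := hM w (by omega)
    obtain ⟨w'', h3, h4⟩ := hN w' (by omega)
    exact ⟨w'', by omega, fun u => by rw [Perm.mul_apply, h2, h4]⟩

lemma adj_app {u w : V} {v : L} {c : A} (h : Adj u (app w (v ++ [c]))) :
    u = app w v ∨ ∃ d, u = app w (v ++ [c, d]) := by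
  obtain ⟨a, u⟩ := u
  rcases h with (⟨d, h⟩ | ⟨-, h, -⟩) | (⟨d, h⟩ | ⟨h, -, -⟩)
  · left
    simp only [app, Prod.mk.injEq, ← List.append_assoc] at h ⊢
    exact ⟨h.1.symm, (List.append_inj_left' h.2 rfl).symm⟩
  · simp [app] at h
  · right
    exact ⟨d, by rw [h, app_app]; simp⟩
  · simp [app] at h

lemma exists_moved {x : Perm V} (hx : Nice x) (hne : x ≠ 1) (N : ℕ) :
    ∃ w : V, N ≤ w.2.length ∧ x w ≠ w := by
  by_contra h
  push Not at h
  have key : ∀ k, ∀ w : V, N ≤ w.2.length + k → x w = w := by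
    intro k
    induction k with
    | zero => exact h
    | succ k ih =>
      intro w hw
      have a : ∀ c, Adj (x w) (app w ([] ++ [c])) := by
        intro c
        have := hx.adj w (app w [c]) (Or.inl (Or.inl ⟨c, rfl⟩))
        rwa [ih (app w [c]) (by simp [app]; omega)] at this
      rcases adj_app (a 0) with h0 | ⟨d, h0⟩
      · simpa using h0
      rcases adj_app (a 1) with h1 | ⟨d', h1⟩
      · simpa using h1
      rw [h0] at h1
      simp [app] at h1
  apply hne
  ext1 w
  exact key N w (by omega)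

def Disj (u w : V) : Prop := ∀ a b, app u a ≠ app w b

lemma exists_disj {w w' : V} (h : w' ≠ w) : ∃ v, Disj (app w' v) (app w v) := by
  have oth : ∀ k : A, ∃ c : A, c ≠ k := by decide
  by_cases h1 : w.2 <+: w'.2
  · obtain ⟨κ, hκ⟩ := h1
    cases κ with
    | nil =>
      refine ⟨[], fun a b hab => h ?_⟩
      simp only [app, Prod.mk.injEq] at hab
      exact Prod.ext hab.1 (by simpa using hκ.symm)
    | cons k κ =>
      obtain ⟨c, hc⟩ := oth k
      refine ⟨[c], fun a b hab => hc ?_⟩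
      simp only [app, Prod.mk.injEq, ← hκ, List.append_assoc, List.append_cancel_left_eq] at hab
      simpa using (List.cons.inj hab.2).1.symm
  by_cases h2 : w'.2 <+: w.2
  · obtain ⟨κ, hκ⟩ := h2
    cases κ with
    | nil => exact absurd ⟨[], by simpa using hκ.symm⟩ h1
    | cons k κ =>
      obtain ⟨c, hc⟩ := oth k
      refine ⟨[c], fun a b hab => hc ?_⟩
      simp only [app, Prod.mk.injEq, ← hκ, List.append_assoc, List.append_cancel_left_eq] at hab
      simpa using (List.cons.inj hab.2).1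
  refine ⟨[], fun a b hab => ?_⟩
  simp only [app, Prod.mk.injEq, List.append_nil] at hab
  rcases List.prefix_or_prefix_of_prefix (List.prefix_append w.2 b)
    (hab.2 ▸ List.prefix_append w'.2 a) with h3 | h3
  · exact h1 h3
  · exact h2 h3

lemma normalize (π : L) : ∀ e : Bool, ∃ g ∈ G, ∃ e' : Bool, (∀ u, g (app (e, π) u) = (e', u)) ∧
    ∀ w, Disj w (e, π) → ∃ w', ∀ u, g (app w u) = app w' u := by
  induction π with
  | nil => intro e; exact ⟨1, G.one_mem, e, fun u => rfl, fun w _ => ⟨w, fun u => rfl⟩⟩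
  | cons c π ih =>
    intro e
    obtain ⟨g, hg, e', h1, h2⟩ := ih (!e)
    obtain ⟨t, ht, hc⟩ := exists_move e c
    have hc' : t⁻¹ (some c) = none := by rw [← hc]; simp
    have h0 : ∀ u, P e t⁻¹ (app (e, c :: π) u) = app (!e, π) u := by
      intro u
      rw [show ((e, c :: π) : V) = enc e (some c) π from rfl, app_enc, P_enc, hc']
      rfl
    refine ⟨g * P e t⁻¹, G.mul_mem hg (by rw [map_inv]; exact G.inv_mem ht), e', ?_, ?_⟩
    · intro u
      rw [Perm.mul_apply, h0, h1]
    · intro w hw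
      rcases vcases e w with rfl | ⟨o, v, rfl⟩
      · exact absurd (by simp [app]) (hw (c :: π) [])
      · obtain ⟨w', hw'⟩ := h2 (enc e (t⁻¹ o) v) (by
          intro a b hab
          rw [← h0, app_enc, ← P_enc, ← app_enc] at hab
          exact hw a b ((P e t⁻¹).injective hab))
        exact ⟨w', fun u => by rw [Perm.mul_apply, app_enc, P_enc, ← app_enc, hw']⟩

lemma conj_gen {x g : Perm V} (hg : g ∈ G)
    (h : ∃ y ∈ G, G ≤ Subgroup.closure {g * x * g⁻¹, y}) :
    ∃ y ∈ G, G ≤ Subgroup.closure {x, y} := by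
  obtain ⟨y, hy, h⟩ := h
  refine ⟨g⁻¹ * y * g, G.mul_mem (G.mul_mem (G.inv_mem hg) hy) hg, fun z hz => ?_⟩
  have h1 := h (G.mul_mem (G.mul_mem hg hz) (G.inv_mem hg))
  have h2 : Subgroup.closure {g * x * g⁻¹, y} ≤
      (Subgroup.closure {x, g⁻¹ * y * g}).comap (MulAut.conj g⁻¹).toMonoidHom := by
    rw [Subgroup.closure_le]
    rintro a (rfl | rfl)
    · apply Subgroup.subset_closure
      simp [mul_assoc]
    · apply Subgroup.subset_closure
      simp
  have := h2 h1
  simpa [mul_assoc] using this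

theorem three_halves {x : Perm V} (hx : x ∈ G) (hne : x ≠ 1) :
    ∃ y ∈ G, G ≤ Subgroup.closure {x, y} := by
  obtain ⟨N, hN⟩ := (nice_G hx).pre
  obtain ⟨w, hw, hmv⟩ := exists_moved (nice_G hx) hne N
  obtain ⟨w', -, hw'⟩ := hN w hw
  obtain ⟨v, hv⟩ := exists_disj (w := w) (w' := w') (by
    have := hw' []
    rw [app_nil, app_nil] at this
    rwa [← this])
  obtain ⟨g, hg, e, h1, h2⟩ := normalize (app w v).2 (app w v).1
  obtain ⟨w'', h3⟩ := h2 _ hv
  apply conj_gen hg
  have h4 : ∀ u, (g * x * g⁻¹) (e, u) = app w'' u := by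
    intro u
    rw [← h1, Perm.mul_apply, Perm.mul_apply, Perm.coe_inv, Equiv.symm_apply_apply]
    show g (x (app (app w v) u)) = _
    rw [app_app, hw', ← app_app, h3]
  have h5 : w''.1 = !e := by
    have : w''.1 ≠ e := by
      intro h
      have h6 := h3 []
      rw [app_nil w'', show w'' = (e, w''.2) from Prod.ext h rfl, ← h1] at h6
      exact hv _ _ (g.injective h6)
    revert this
    cases w''.1 <;> cases e <;> simp
  obtain ⟨e'', π⟩ := w''
  simp only at h5
  subst h5
  generalize g * x * g⁻¹ = x1 at h4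
  let σ : Perm O := hat g2 * rho⁻¹
  have hσ : P e σ ∈ G := by
    simp only [σ, map_mul, map_inv]
    exact G.mul_mem (P_hat_mem e g2_mem) (G.inv_mem (P_rho_mem e))
  have s1 : σ none = some 6 := by decide +kernel
  have s2 : σ (some 3) = none := by decide +kernel
  have s3 : σ * hat tau * σ⁻¹ = rho := by decide +kernel
  clear_value σ
  have h6 : ∀ u, (P e σ * x1) (e, u) = (e, (6 :: π) ++ u) := by
    intro u
    rw [Perm.mul_apply, h4]
    have := P_enc e σ none (π ++ u)
    rw [s1] at this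
    exact this
  apply conj_gen hσ
  apply core _ (!e) (6 :: π ++ [3]) (6 :: π) (by simp)
  · intro u
    have := P_enc e σ (some 3) u
    rw [s2] at this
    rw [Perm.mul_apply, show ((!e, u) : V) = enc e none u from rfl, ← this, Perm.coe_inv,
      Equiv.symm_apply_apply]
    rw [show enc e (some 3) u = (e, 3 :: u) from rfl, h6]
    simp
  · have := transport _ e e (6 :: π) h6 (root tau)
    rw [Bool.not_not, ← s3, map_mul, map_mul, map_inv, hat_apply, ← C_root, ← this]
    group

def Sub (w : V) : Set V := {v | ∃ u, v = app w u}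

lemma adj_sub {w u u' : V} (hu : u ∈ Sub w) (h : Adj u' u) : u' ∈ Sub w ∨ u = w := by
  obtain ⟨v, rfl⟩ := hu
  rcases List.eq_nil_or_concat v with rfl | ⟨v, c, rfl⟩
  · right; simp
  · left
    rw [List.concat_eq_append] at h
    rcases adj_app h with rfl | ⟨d, rfl⟩
    · exact ⟨_, rfl⟩
    · exact ⟨_, rfl⟩

def Keeps (T : ℕ → Set V) (g : Perm V) : Prop := ∀ k, ∃ m, ∀ u ∈ T m, g u ∈ T k

lemma keeps_closure (T : ℕ → Set V) {x y : Perm V} (h1 : Keeps T x) (h2 : Keeps T x⁻¹)
    (h3 : Keeps T y) (h4 : Keeps T y⁻¹) {g : Perm V} (hg : g ∈ Subgroup.closure {x, y}) :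
    Keeps T g := by
  induction hg using Subgroup.closure_induction'' with
  | one => exact fun k => ⟨k, fun u hu => hu⟩
  | mem a ha => rcases ha with rfl | rfl <;> assumption
  | inv_mem a ha => rcases ha with rfl | rfl <;> assumption
  | mul a b _ _ ha hb =>
    intro k
    obtain ⟨m1, h1⟩ := ha k
    obtain ⟨m2, h2⟩ := hb m1
    exact ⟨m2, fun u hu => h1 _ (h2 u hu)⟩

lemma ty_app (w : V) (c : A) : ty (app w [c]) ≠ ty w := by
  have : ty (app w [c]) = ty w + 1 := by
    obtain ⟨e, u⟩ := w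
    cases e <;> simp [ty, app, add_assoc]
  rw [this, Ne, add_eq_left]
  decide

lemma fixed_point {y : Perm V} (hy : Nice y) : ∃ (e : Bool) (T : ℕ → Set V),
    (∀ k, (T k).Nonempty) ∧ (∀ k, ∀ u ∈ T k, u.1 = e) ∧ Keeps T y ∧ Keeps T y⁻¹ := by
  by_cases hfix : ∃ p, y p = p
  · obtain ⟨p, hp⟩ := hfix
    refine ⟨p.1, fun _ => {p}, fun _ => ⟨p, rfl⟩, ?_, fun k => ⟨k, ?_⟩, fun k => ⟨k, ?_⟩⟩
    · rintro _ _ rfl; rfl
    · rintro _ rfl; exact hp
    · rintro _ rfl; exact (Perm.inv_eq_iff_eq.2 hp.symm)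
  push Not at hfix
  have base : ∃ e : Bool, y (e, []) ∈ Sub (e, []) := by
    by_contra h
    push Not at h
    have h1 : y (true, []) ∈ Sub (false, []) := by
      refine ⟨(y (true, [])).2, Prod.ext ?_ rfl⟩
      by_contra h2
      exact h true ⟨(y (true, [])).2, Prod.ext (by simpa [app] using h2) rfl⟩
    rcases adj_sub h1 (hy.adj _ _ (adj_root false none)) with h2 | h2
    · exact h false h2
    · have := hy.ty (true, [])
      rw [h2] at this
      revert this; decide
  have step : ∀ p, y p ∈ Sub p → ∃ c, y (app p [c]) ∈ Sub (app p [c]) := by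
    rintro p ⟨u, hu⟩
    cases u with
    | nil => exact absurd (by simpa using hu) (hfix p)
    | cons c u =>
      refine ⟨c, ?_⟩
      have h1 : y p ∈ Sub (app p [c]) := ⟨u, by rw [hu, app_app]; rfl⟩
      rcases adj_sub h1 (hy.adj _ _ (Or.inr (Or.inl ⟨c, rfl⟩))) with h2 | h2
      · exact h2
      · exact absurd (h2 ▸ hy.ty p) (ty_app p c)
  obtain ⟨e, he⟩ := base
  choose f hf using step
  let q : ℕ → {p // y p ∈ Sub p} := fun n =>
    Nat.rec ⟨(e, []), he⟩ (fun _ p => ⟨app p.1 [f p.1 p.2], hf p.1 p.2⟩) n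
  let p : ℕ → V := fun n => (q n).1
  have p0 : p 0 = (e, []) := rfl
  have ps : ∀ n, ∃ c, p (n + 1) = app (p n) [c] := fun n => ⟨_, rfl⟩
  have py : ∀ n, y (p n) ∈ Sub (p n) := fun n => (q n).2
  clear_value p
  have pl : ∀ n, (p n).2.length = n := by
    intro n
    induction n with
    | zero => rw [p0]; rfl
    | succ n ih => obtain ⟨c, hc⟩ := ps n; rw [hc]; simp [app, ih]
  have pm : ∀ k d, ∃ u, p (k + d) = app (p k) u := by
    intro k d
    induction d with
    | zero => exact ⟨[], by simp⟩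
    | succ d ih =>
      obtain ⟨u, hu⟩ := ih
      obtain ⟨c, hc⟩ := ps (k + d)
      exact ⟨u ++ [c], by rw [← add_assoc, hc, hu, app_app]⟩
  have sm : ∀ k d, Sub (p (k + d)) ⊆ Sub (p k) := by
    rintro k d _ ⟨u, rfl⟩
    obtain ⟨v, hv⟩ := pm k d
    exact ⟨v ++ u, by rw [hv, app_app]⟩
  obtain ⟨N, hN⟩ := hy.pre
  refine ⟨e, fun k => Sub (p k), fun k => ⟨p k, [], by simp⟩, ?_, ?_, ?_⟩
  · intro k u hu
    obtain ⟨v, rfl⟩ := sm 0 k (by simpa using hu)
    rw [p0]; rfl
  · intro k
    obtain ⟨w', -, hw'⟩ := hN (p (k + N)) (by rw [pl]; omega)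
    refine ⟨k + N, ?_⟩
    rintro _ ⟨u, rfl⟩
    obtain ⟨κ, hκ⟩ := py (k + N)
    have := hw' []
    rw [app_nil, app_nil, hκ] at this
    apply sm k N
    exact ⟨κ ++ u, by rw [hw', ← this, app_app]⟩
  · intro k
    obtain ⟨w', -, hw'⟩ := hN (p (k + N)) (by rw [pl]; omega)
    obtain ⟨κ, hκ⟩ := py (k + N)
    have h1 := hw' []
    rw [app_nil, app_nil, hκ] at h1
    refine ⟨k + N + κ.length, ?_⟩
    rintro _ ⟨u, rfl⟩
    obtain ⟨v, hv⟩ := pm (k + N) κ.length
    obtain ⟨κ', hκ'⟩ := py (k + N + κ.length)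
    have h2 : app w' v = app (p (k + N + κ.length)) κ' := by rw [← hκ', ← hw', ← hv]
    have h3 : w' = p (k + N + κ.length) := by
      simp only [app, Prod.mk.injEq] at h2
      refine Prod.ext h2.1 (List.append_inj_left h2.2 ?_)
      rw [pl, ← h1]; simp [app, pl]
    apply sm k N
    exact ⟨u, by rw [← h3, ← hw']; simp⟩

theorem not_two {y : Perm V} (hy : y ∈ G) :
    ∃ e, ¬ G ≤ Subgroup.closure {C e (root g1), y} := by
  obtain ⟨e, T, h1, h2, h3, h4⟩ := fixed_point (nice_G hy)
  have hc : ∀ φ, Keeps T (C (!e) φ) := by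
    intro φ k
    refine ⟨k, fun u hu => ?_⟩
    have := C_other (!e) φ u.2
    rw [Bool.not_not, ← h2 k u hu] at this
    rw [← h2 k u hu, this]; exact hu
  refine ⟨!e, fun h => ?_⟩
  obtain ⟨m, hm⟩ := keeps_closure T (hc _) (by rw [← map_inv]; exact hc _) h3 h4
    (h (P_rho_mem (!e))) 0
  obtain ⟨u, hu⟩ := h1 m
  have h5 := h2 0 _ (hm u hu)
  have h6 := P_enc (!e) rho none u.2
  rw [show enc (!e) none u.2 = u from Prod.ext (by simp [enc, h2 m u hu]) rfl] at h6
  rw [h6] at h5
  have : (!e) = e := h5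
  simp at this

lemma C_ne_one (e : Bool) : C e (root g1) ≠ 1 := by
  intro h
  have := C_same e (root g1) [0]
  rw [h] at this
  have h2 := congrArg Prod.snd this
  revert h2
  simp only [Perm.one_apply, root_cons]
  decide

lemma top_iff {x y : G} :
    Subgroup.closure {x, y} = ⊤ ↔ G ≤ Subgroup.closure {x.1, y.1} := by
  have : (Subgroup.closure {x, y}).map G.subtype = Subgroup.closure {x.1, y.1} := by
    rw [MonoidHom.map_closure]; simp [Set.image_pair]
  rw [← this]
  constructor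
  · intro h g hg
    rw [h]
    exact ⟨⟨g, hg⟩, trivial, rfl⟩
  · intro h
    rw [eq_top_iff]
    intro g _
    obtain ⟨a, ha, he⟩ := h g.2
    have : a = g := Subtype.ext he
    exact this ▸ ha

end H64.Spr
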