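import Mathlib

set_option autoImplicit false

namespace Pool.Agent.H64.Staff

open scoped commutatorElement

/-- Heisenberg group, `⟨a,b,c⟩ = y^b z^c x^a` -/
@[ext] structure H where
  a : ℤ
  b : ℤ
  c : ℤ
  deriving DecidableEq

instance : Mul H := ⟨fun p q => ⟨p.a + q.a, p.b + q.b, p.c + q.c + p.a * q.b⟩⟩
instance : One H := ⟨⟨0, 0, 0⟩⟩
instance : Inv H := ⟨fun p => ⟨-p.a, -p.b, -p.c + p.a * p.b⟩⟩
@[simp] theorem mul_a (p q : H) : (p * q).a = p.a + q.a := rfl
@[simp] theorem mul_b (p q : H) : (p * q).b = p.b + q.b := rfl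
@[simp] theorem mul_c (p q : H) : (p * q).c = p.c + q.c + p.a * q.b := rfl
@[simp] theorem one_a : (1 : H).a = 0 := rfl
@[simp] theorem one_b : (1 : H).b = 0 := rfl
@[simp] theorem one_c : (1 : H).c = 0 := rfl
@[simp] theorem inv_a (p : H) : (p⁻¹).a = -p.a := rfl
@[simp] theorem inv_b (p : H) : (p⁻¹).b = -p.b := rfl
@[simp] theorem inv_c (p : H) : (p⁻¹).c = -p.c + p.a * p.b := rfl

instance : Group H := Group.ofLeftAxioms
  (fun p q r => by ext <;> simp <;> ring) (fun p => by ext <;> simp)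
  (fun p => by ext <;> simp)

/-- generators -/
def x : H := ⟨1, 0, 0⟩
/-- generators -/
def y : H := ⟨0, 1, 0⟩
/-- generators -/
def z : H := ⟨0, 0, 1⟩

theorem zpow_a (g : H) (n : ℤ) : (g ^ n).a = n * g.a := by
  induction n with
  | zero => simp
  | succ n ih => rw [zpow_add_one, mul_a, ih]; ring
  | pred n ih => rw [zpow_sub_one, mul_a, ih, inv_a]; ring

theorem zpow_b (g : H) (n : ℤ) : (g ^ n).b = n * g.b := by
  induction n with
  | zero => simp
  | succ n ih => rw [zpow_add_one, mul_b, ih]; ring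
  | pred n ih => rw [zpow_sub_one, mul_b, ih, inv_b]; ring

theorem zpow_c (g : H) (h : g.a = 0 ∨ g.b = 0) (n : ℤ) : (g ^ n).c = n * g.c := by
  induction n with
  | zero => simp
  | succ n ih => rw [zpow_add_one, mul_c, ih, zpow_a]; rcases h with h | h <;> rw [h] <;> ring
  | pred n ih =>
    rw [zpow_sub_one, mul_c, ih, inv_c, zpow_a, inv_b]; rcases h with h | h <;> rw [h] <;> ring

theorem z_eq : z = ⁅x, y⁆ := by decide

theorem nf (q : H) : q = y ^ q.b * x ^ q.a * z ^ q.c := by
  ext <;> simp only [mul_a, mul_b, mul_c, zpow_a, zpow_b, zpow_c x (Or.inr rfl),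
    zpow_c y (Or.inl rfl), zpow_c z (Or.inl rfl)] <;> simp [x, y, z]

theorem H_ext {K : Type} [Group K] {f g : H →* K} (h1 : f x = g x) (h2 : f y = g y) : f = g := by
  ext q
  rw [nf q, z_eq]
  simp only [map_mul, map_zpow, map_commutatorElement, h1, h2]

/-- the endomorphism with prescribed values -/
def th (g h : H) : H →* H where
  toFun q := h ^ q.b * g ^ q.a * ⟨0, 0, q.c * (g.a * h.b - h.a * g.b)⟩
  map_one' := by ext <;> simp
  map_mul' p q := by
    simp only [mul_a, mul_b, zpow_add]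
    ext <;> simp only [mul_a, mul_b, mul_c, zpow_a, zpow_b] <;> ring

@[simp] theorem th_x (g h : H) : th g h x = g := by ext <;> simp [th, x]
@[simp] theorem th_y (g h : H) : th g h y = h := by ext <;> simp [th, y]

/-- coefficients -/
abbrev k := ZMod 2
/-- the group algebra -/
abbrev Λ := MonoidAlgebra k H
/-- group elements -/
noncomputable abbrev o : H →* Λ := MonoidAlgebra.of k H

theorem top (ε : ℤ) (hε : ε = 1 ∨ ε = -1) {u v : Λ} (hu : u ≠ 0) (hv : v ≠ 0) :
    ∃ g0 ∈ u.coeff.support, ∃ h0 ∈ v.coeff.support, g0 * h0 ∈ (u * v).coeff.support ∧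
      (∀ g ∈ u.coeff.support, ε * g.a ≤ ε * g0.a) ∧ ∀ h ∈ v.coeff.support, ε * h.a ≤ ε * h0.a := by
  let key : H → ℤ ×ₗ ℤ ×ₗ ℤ := fun q => toLex (ε * q.a, toLex (q.b, q.c))
  have hk : ∀ p q, key p ≤ key q ↔ ε * p.a < ε * q.a ∨
      (ε * p.a = ε * q.a ∧ (p.b < q.b ∨ (p.b = q.b ∧ p.c ≤ q.c))) := fun p q => by
    simp [key, Prod.Lex.le_iff]
  simp only [ne_eq, ← MonoidAlgebra.coeff_eq_zero, ← Finsupp.support_nonempty_iff] at hu hv
  obtain ⟨g0, hg0, hg⟩ := Finset.exists_max_image _ key hu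
  obtain ⟨h0, hh0, hh⟩ := Finset.exists_max_image _ key hv
  simp only [hk] at hg hh
  refine ⟨g0, hg0, h0, hh0, ?_, fun g h => by have := hg g h; omega,
    fun g h => by have := hh g h; omega⟩
  rw [Finsupp.mem_support_iff, MonoidAlgebra.coeff_mul_mul_of_uniqueMul]
  · exact mul_ne_zero (Finsupp.mem_support_iff.1 hg0) (Finsupp.mem_support_iff.1 hh0)
  intro g h h1 h2 e
  have e1 := hg g h1
  have e2 := hh h h2
  have ea := congrArg H.a e
  have eb := congrArg H.b e
  have ec := congrArg H.c e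
  simp only [mul_a, mul_b, mul_c] at ea eb ec
  have a1 : g.a = g0.a := by rcases hε with rfl | rfl <;> omega
  have a2 : h.a = h0.a := by omega
  have b1 : g.b = g0.b := by rw [a1] at e1; rw [a2] at e2; omega
  have b2 : h.b = h0.b := by omega
  rw [a1, b2] at ec
  rw [a1, b1] at e1; rw [a2, b2] at e2
  exact ⟨H.ext a1 b1 (by omega), H.ext a2 b2 (by omega)⟩

theorem dom {u v : Λ} (hu : u ≠ 0) (hv : v ≠ 0) : u * v ≠ 0 := by
  obtain ⟨g, -, h, -, h1, -⟩ := top 1 (Or.inl rfl) hu hv
  intro h0; simp [h0] at h1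

theorem homog {u v : Λ} (h0 : u * v ≠ 0) (h : ∀ g ∈ (u * v).coeff.support, g.a = 0) :
    ∃ j, ∀ g ∈ u.coeff.support, g.a = j := by
  obtain ⟨g0, a1, h0', a2, a3, a4, a5⟩ := top 1 (Or.inl rfl) (left_ne_zero_of_mul h0)
    (right_ne_zero_of_mul h0)
  obtain ⟨g1, b1, h1, b2, b3, b4, b5⟩ := top (-1) (Or.inr rfl) (left_ne_zero_of_mul h0)
    (right_ne_zero_of_mul h0)
  have e1 := h _ a3
  have e2 := h _ b3
  have e3 := a5 _ b2
  simp only [mul_a] at e1 e2
  exact ⟨g0.a, fun g hg => by have := a4 g hg; have := b4 g hg; omega⟩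

/-- linear functionals -/
noncomputable def L (ψ : H → k) : Λ →ₗ[k] k :=
  Finsupp.linearCombination k ψ ∘ₗ (MonoidAlgebra.coeffLinearEquiv k).toLinearMap

@[simp] theorem L_o (ψ : H → k) (g : H) : L ψ (o g) = ψ g := by simp [L]

theorem L_zero {ψ : H → k} {u : Λ} (h : ∀ g ∈ u.coeff.support, ψ g = 0) : L ψ u = 0 := by
  simp only [L, LinearMap.comp_apply, LinearEquiv.coe_coe, MonoidAlgebra.coeffLinearEquiv_apply,
    Finsupp.linearCombination_apply, Finsupp.sum]
  exact Finset.sum_eq_zero fun g hg => by simp [h g hg]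

theorem L_ind (g : H) (u : Λ) : L (Pi.single g 1) u = u.coeff g := by
  induction u using MonoidAlgebra.induction_on with
  | of q => rw [L_o]; simp [Pi.single_apply, Finsupp.single_apply]
  | add u v hu hv => simp [hu, hv]
  | smul c u hu => simp [hu]

theorem L_left (ψ : H → k) (g : H) (u : Λ) : L ψ (o g * u) = L (fun h => ψ (g * h)) u := by
  induction u using MonoidAlgebra.induction_on with
  | of q => rw [← map_mul, L_o, L_o]
  | add u v hu hv => rw [mul_add, map_add, map_add, hu, hv]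
  | smul c u hu => rw [mul_smul_comm, map_smul, map_smul, hu]

theorem L_right (ψ : H → k) (g : H) (u : Λ) : L ψ (u * o g) = L (fun h => ψ (h * g)) u := by
  induction u using MonoidAlgebra.induction_on with
  | of q => rw [← map_mul, L_o, L_o]
  | add u v hu hv => rw [add_mul, map_add, map_add, hu, hv]
  | smul c u hu => rw [smul_mul_assoc, map_smul, map_smul, hu]

/-- test functions -/
def ψ (j : ℤ) (e : ZMod 3) (q : H) : k := if q.a = j ∧ ((q.b : ZMod 3) + q.c) ≠ e then 1 else 0

/-- generators -/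
noncomputable abbrev X : Λ := o x
/-- generators -/
noncomputable abbrev Y : Λ := o y
/-- generators -/
noncomputable abbrev Z : Λ := o z

/-- ring elements -/
noncomputable def r : Λ := 1 + Z + Z * Y
/-- ring elements -/
noncomputable def r' : Λ := 1 + Z + Y
/-- ring elements -/
noncomputable def κ1 : Λ := (1 + Y) * (1 + Z * Y)
/-- ring elements -/
noncomputable def κ2 : Λ := (1 + Y) * (X + Z) + Z + 1

theorem XY : X * Y = Z * (Y * X) := by simp only [X, Y, Z, ← map_mul]; rfl
theorem Zc (q : H) : o q * Z = Z * o q := by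
  simp only [X, Y, Z, ← map_mul]; congr 1; ext <;> simp [z, add_comm]
theorem XY' (w : Λ) : X * (Y * w) = Z * (Y * (X * w)) := by simp only [← mul_assoc, XY]
theorem XZ : X * Z = Z * X := Zc x
theorem YZ : Y * Z = Z * Y := Zc y
theorem XZ' (w : Λ) : X * (Z * w) = Z * (X * w) := by rw [← mul_assoc, XZ, mul_assoc]
theorem YZ' (w : Λ) : Y * (Z * w) = Z * (Y * w) := by rw [← mul_assoc, YZ, mul_assoc]

theorem eq_of_smul {u v : Λ} (h : (1 : k) • u = v) : u = v := by rwa [one_smul] at h

theorem two (u : Λ) : u + u = 0 := by apply eq_of_smul; match_scalars; decide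
theorem neg_eq (u : Λ) : -u = u := neg_eq_of_add_eq_zero_left (two u)

theorem f_eq : κ1 + 1 = r * Y := by (simp only [r, r', κ1, κ2, mul_add, add_mul, mul_assoc, one_mul, mul_one, XY, XY', XZ, YZ, XZ', YZ']; apply eq_of_smul; match_scalars <;> decide)
theorem g_eq : κ2 = X + Y * X + r + Z := by (simp only [r, r', κ1, κ2, mul_add, add_mul, mul_assoc, one_mul, mul_one, XY, XY', XZ, YZ, XZ', YZ']; apply eq_of_smul; match_scalars <;> decide)
theorem id1 : Z * (κ2 * (r * r')) =
    r * ((1 + Z + Z * Z * Y) * X + Z * Z * r' + (X + Z) * (r * r')) := by (simp only [r, r', κ1, κ2, mul_add, add_mul, mul_assoc, one_mul, mul_one, XY, XY', XZ, YZ, XZ', YZ']; apply eq_of_smul; match_scalars <;> decide)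
theorem id2 : Z * (κ2 * (Z * r + r' * X)) =
    r * (Z * Z * Z + Z * (1 + Z) * X + X * X + (X + Z) * (Z * r + r' * X)) := by (simp only [r, r', κ1, κ2, mul_add, add_mul, mul_assoc, one_mul, mul_one, XY, XY', XZ, YZ, XZ', YZ']; apply eq_of_smul; match_scalars <;> decide)
theorem id3 : r * (X * (Z + Y) + Z + Z * Y + Z * Z * Y) + κ2 * (Z * r') = Z * Z * Z * Y * Y := by
  (simp only [r, r', κ1, κ2, mul_add, add_mul, mul_assoc, one_mul, mul_one, XY, XY', XZ, YZ, XZ', YZ']; apply eq_of_smul; match_scalars <;> decide)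

theorem L_r (j : ℤ) (e : ZMod 3) (u : Λ) : L (ψ j e) (r * u) = 0 := by
  induction u using MonoidAlgebra.induction_on with
  | of q =>
    simp only [r, add_mul, one_mul, X, Y, Z, ← map_mul, map_add, L_o, ψ, mul_a, mul_b, mul_c, z, y]
    by_cases h : q.a = j
    · simp only [h, zero_add, true_and, zero_mul, add_zero]
      push_cast
      generalize (q.b : ZMod 3) = m
      generalize (q.c : ZMod 3) = n
      revert e m n; decide
    · simp [h]
  | add u v hu hv => rw [mul_add, map_add, hu, hv, add_zero]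
  | smul c u hu => rw [mul_smul_comm, map_smul, hu, smul_zero]

theorem sol {q P : Λ} (h : Z * (κ2 * q) = r * P) : ∃ p, (κ1 + 1) * p + κ2 * q = 0 := by
  refine ⟨o y⁻¹ * (o z⁻¹ * P), ?_⟩
  have h1 : r * o z⁻¹ = o z⁻¹ * r := by
    simp only [r, mul_add, add_mul, one_mul, mul_one, X, Y, Z, ← map_mul]; rfl
  rw [f_eq, mul_assoc, ← mul_assoc Y, ← map_mul, mul_inv_cancel, map_one, one_mul, ← mul_assoc, h1,
    mul_assoc, ← h, ← mul_assoc, ← map_mul, inv_mul_cancel, map_one, one_mul, two]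

theorem nonfree (t1 t : Λ) (h : (κ1 + 1) * t1 + κ2 * t = 0)
    (hg : ∀ p q, (κ1 + 1) * p + κ2 * q = 0 → ∃ c, q = t * c) : False := by
  obtain ⟨p1, h1⟩ := sol id1
  obtain ⟨c1, e1⟩ := hg _ _ h1
  obtain ⟨p2, h2⟩ := sol id2
  obtain ⟨c2, e2⟩ := hg _ _ h2
  have hrr : ∀ φ : H → k, L φ (r * r') = φ 1 + φ (z * z) + φ y + φ (z * z * y) + φ (z * y * y) := by
    intro φ
    have : r * r' = o 1 + Z * Z + Y + Z * Z * Y + Z * Y * Y := by rw [map_one]; (simp only [r, r', κ1, κ2, mul_add, add_mul, mul_assoc, one_mul, mul_one, XY, XY', XZ, YZ, XZ', YZ']; apply eq_of_smul; match_scalars <;> decide)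
    simp only [this, X, Y, Z, ← map_mul, map_add, L_o]
  obtain ⟨j, hj⟩ := homog (u := t) (v := c1) (by
    rw [← e1]; intro h0
    have := hrr (Pi.single 1 1)
    rw [h0, map_zero] at this
    revert this; decide) (by
    intro g hg
    rw [← e1, Finsupp.mem_support_iff, ← L_ind, hrr] at hg
    by_contra hne
    have : ∀ q : H, q.a = 0 → Pi.single (M := fun _ => k) g 1 q = 0 := fun q hq =>
      Pi.single_eq_of_ne (by rintro rfl; exact hne hq) _
    apply hg
    rw [this _ rfl, this _ rfl, this _ rfl, this _ rfl, this _ rfl]; rfl)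
  have h3 : ∀ e, L (ψ j e) t = 0 := fun e => by
    have := congrArg (L (ψ j (e + 1))) h
    rw [f_eq, g_eq, mul_assoc, add_mul, add_mul, add_mul, ← map_mul] at this
    simp only [map_add, L_r, L_left, map_zero] at this
    rw [L_zero fun g hg => by simp [ψ, hj g hg, x], L_zero fun g hg => by simp [ψ, hj g hg, x, y]]
      at this
    simp only [zero_add, add_zero] at this
    rw [← this]; congr 2; funext q
    simp [ψ, z, add_comm (1 : ZMod 3), ← add_assoc]
  have h4 : ∀ i e, L (ψ i e) t = 0 := fun i e => by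
    by_cases hi : i = j
    · rw [hi, h3]
    · exact L_zero fun g hg => by simp [ψ, hj g hg, Ne.symm hi]
  have h5 : ∀ c i e, L (ψ i e) (t * c) = 0 := fun c => by
    induction c using MonoidAlgebra.induction_on with
    | of q =>
      intro i e
      rw [L_right, ← h4 (i - q.a) (e - (q.b + q.c + (i - q.a) * q.b))]
      congr 2; funext g
      simp only [ψ, mul_a, mul_b, mul_c, ← eq_sub_iff_add_eq]
      refine if_congr (and_congr_right fun hg => ?_) rfl rfl
      rw [hg]; push_cast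
      rw [ne_eq, ne_eq, eq_sub_iff_add_eq]
      congr! 2; ring
    | add u v hu hv => intro i e; rw [mul_add, map_add, hu, hv, add_zero]
    | smul c u hu => intro i e; rw [mul_smul_comm, map_smul, hu, smul_zero]
  have := h5 c2 1 1
  have e3 : Z * r = r * Z := by
    simp only [r, mul_add, add_mul, mul_assoc, one_mul, mul_one, YZ]
  rw [← e2, e3, map_add, L_r, r', add_mul, add_mul, one_mul] at this
  simp only [X, Y, Z, ← map_mul, map_add, L_o] at this
  revert this; decide

theorem o_ne (q : H) : o q ≠ 0 := fun h => by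
  have := L_o (fun _ => 1) q
  rw [h, map_zero] at this
  exact absurd this (by decide)

theorem unimod : ∃ s1 s2 : Λ, s1 ≠ 0 ∧ (κ1 + 1) * s1 + κ2 * s2 = 1 := by
  refine ⟨o y⁻¹ * ((X * (Z + Y) + Z + Z * Y + Z * Z * Y) * o (z * z * z * y * y)⁻¹),
    Z * r' * o (z * z * z * y * y)⁻¹, dom (o_ne _) (dom (fun h => ?_) (o_ne _)), ?_⟩
  · have := congrArg (L (Pi.single z 1)) h
    simp only [mul_add, X, Y, Z, ← map_mul, map_add, L_o, map_zero] at this
    revert this; decide
  · rw [f_eq, mul_assoc, ← mul_assoc Y, ← map_mul, mul_inv_cancel, map_one, one_mul, ← mul_assoc,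
      ← mul_assoc κ2, ← add_mul, id3]
    simp only [X, Y, Z, ← map_mul, mul_inv_cancel, map_one]

end Pool.Agent.H64.Staff
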