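import Pool.Agent.H64.Staff1

set_option autoImplicit false

namespace Pool.Agent.H64.Staff

open scoped commutatorElement

/-- the Magnus group -/
@[ext] structure G where
  m1 : Λ
  m2 : Λ
  q : H

noncomputable instance : Mul G :=
  ⟨fun g h => ⟨g.m1 + o g.q * h.m1, g.m2 + o g.q * h.m2, g.q * h.q⟩⟩
noncomputable instance : One G := ⟨⟨0, 0, 1⟩⟩
noncomputable instance : Inv G := ⟨fun g => ⟨o g.q⁻¹ * g.m1, o g.q⁻¹ * g.m2, g.q⁻¹⟩⟩
@[simp] theorem mul_m1 (g h : G) : (g * h).m1 = g.m1 + o g.q * h.m1 := rfl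
@[simp] theorem mul_m2 (g h : G) : (g * h).m2 = g.m2 + o g.q * h.m2 := rfl
@[simp] theorem mul_q (g h : G) : (g * h).q = g.q * h.q := rfl
@[simp] theorem one_m1 : (1 : G).m1 = 0 := rfl
@[simp] theorem one_m2 : (1 : G).m2 = 0 := rfl
@[simp] theorem one_q : (1 : G).q = 1 := rfl
@[simp] theorem inv_m1 (g : G) : (g⁻¹).m1 = o g.q⁻¹ * g.m1 := rfl
@[simp] theorem inv_m2 (g : G) : (g⁻¹).m2 = o g.q⁻¹ * g.m2 := rfl
@[simp] theorem inv_q (g : G) : (g⁻¹).q = g.q⁻¹ := rfl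

noncomputable instance : Group G := Group.ofLeftAxioms
  (fun p q r => by
    refine G.ext ?_ ?_ ?_ <;>
      simp only [mul_m1, mul_m2, mul_q, map_mul, mul_add, mul_assoc, add_assoc])
  (fun p => by
    refine G.ext ?_ ?_ ?_ <;>
      simp only [mul_m1, mul_m2, mul_q, one_m1, one_m2, one_q, map_one, one_mul, zero_add])
  (fun p => by
    refine G.ext ?_ ?_ ?_ <;>
      simp only [mul_m1, mul_m2, mul_q, one_m1, one_m2, one_q, inv_m1, inv_m2, inv_q, two,
        inv_mul_cancel])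

/-- projection -/
def Gq : G →* H := ⟨⟨G.q, rfl⟩, fun _ _ => rfl⟩

/-- free group -/
abbrev F := FreeGroup (Fin 2)

/-- Magnus map -/
noncomputable def μ : F →* G := FreeGroup.lift ![⟨1, 0, x⟩, ⟨0, 1, y⟩]

theorem μ0 : μ (FreeGroup.of 0) = ⟨1, 0, x⟩ := by simp [μ]
theorem μ1 : μ (FreeGroup.of 1) = ⟨0, 1, y⟩ := by simp [μ]

/-- induced ring map -/
noncomputable def T (θ : H →* H) : Λ →+* Λ := MonoidAlgebra.mapDomainRingHom k θ

theorem T_o (θ : H →* H) (q : H) : T θ (o q) = o (θ q) := by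
  simp [T, MonoidAlgebra.mapDomain_single]

theorem T_T {θ η : H →* H} (h : θ.comp η = MonoidHom.id H) (u : Λ) : T θ (T η u) = u := by
  rw [T, T, ← RingHom.comp_apply, ← MonoidAlgebra.mapDomainRingHom_comp, h,
    MonoidAlgebra.mapDomainRingHom_id, RingHom.id_apply]

/-- endomorphism with prescribed values -/
noncomputable def Φ (g h : G) : G →* G where
  toFun p := ⟨T (th g.q h.q) p.m1 * g.m1 + T (th g.q h.q) p.m2 * h.m1,
    T (th g.q h.q) p.m1 * g.m2 + T (th g.q h.q) p.m2 * h.m2, th g.q h.q p.q⟩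
  map_one' := by refine G.ext ?_ ?_ ?_ <;> simp
  map_mul' p q := by
    refine G.ext ?_ ?_ ?_ <;>
      simp only [mul_m1, mul_m2, mul_q, map_add, map_mul, T_o, add_mul, mul_add, mul_assoc] <;>
      abel

theorem factor (φ : F →* G) : φ = (Φ (φ (.of 0)) (φ (.of 1))).comp μ := by
  ext1 i
  fin_cases i
  · show _ = Φ _ _ (μ (.of 0)); rw [μ0]; refine G.ext ?_ ?_ ?_ <;> simp [Φ]
  · show _ = Φ _ _ (μ (.of 1)); rw [μ1]; refine G.ext ?_ ?_ ?_ <;> simp [Φ]

theorem factor' (a : Fin 2 → F) (w : F) : μ (FreeGroup.lift a w) = Φ (μ (a 0)) (μ (a 1)) (μ w) := by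
  have := DFunLike.congr_fun (factor (μ.comp (FreeGroup.lift a))) w
  simpa using this

/-- laws of `G` -/
def W : Set (FreeGroup ℕ) := {w | ∀ φ : FreeGroup ℕ →* G, φ w = 1}

theorem ker_eq : μ.ker = Subgroup.closure {v : F | ∃ (f : ℕ → F) (w : FreeGroup ℕ),
    w ∈ W ∧ FreeGroup.lift f w = v} := by
  refine le_antisymm (fun v hv => Subgroup.subset_closure ?_) ((Subgroup.closure_le _).2 ?_)
  · refine ⟨fun n => if n = 0 then .of 0 else .of 1, FreeGroup.map Fin.val v, fun φ => ?_, ?_⟩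
    · rw [← MonoidHom.comp_apply, factor (φ.comp _), MonoidHom.comp_apply, MonoidHom.mem_ker.1 hv,
        map_one]
    · rw [← MonoidHom.comp_apply]
      refine (DFunLike.congr_fun (?_ : _ = MonoidHom.id F) v).trans rfl
      ext1 i; fin_cases i <;> simp
  · rintro _ ⟨f, w, hw, rfl⟩
    exact hw (μ.comp (FreeGroup.lift f))

theorem comm_G (g h : G) : ⁅g, h⁆ = ⟨(1 + o (g.q * h.q * g.q⁻¹)) * g.m1 + (o g.q + o ⁅g.q, h.q⁆) * h.m1,
    (1 + o (g.q * h.q * g.q⁻¹)) * g.m2 + (o g.q + o ⁅g.q, h.q⁆) * h.m2, ⁅g.q, h.q⁆⟩ := by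
  refine G.ext ?_ ?_ rfl <;>
    simp only [commutatorElement_def, mul_m1, mul_m2, mul_q, inv_m1, inv_m2, inv_q, map_mul,
      add_mul, mul_add, one_mul, mul_assoc, add_assoc] <;> exact congrArg _ (add_left_comm _ _ _)

/-- the relator -/
def ρ : F := ⁅⁅(FreeGroup.of 0 : F), (FreeGroup.of 1 : F)⁆, (FreeGroup.of 1 : F)⁆

theorem μρ : μ ρ = ⟨κ1, κ2, 1⟩ := by
  have e1 : x * y * x⁻¹ = z * y := by decide
  have e2 : z * y * z⁻¹ = y := by decide
  have e3 : ⁅z, y⁆ = 1 := by decide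
  simp only [ρ, map_commutatorElement, μ0, μ1, comm_G, ← z_eq, e1, e2, e3]
  refine G.ext ?_ ?_ rfl <;> simp only [κ1, κ2, map_mul, map_one, mul_one, mul_zero, add_zero,
    zero_add, add_assoc]

theorem surj (q : H) : ∃ w, (μ w).q = q := by
  refine ⟨FreeGroup.of 1 ^ q.b * FreeGroup.of 0 ^ q.a *
    ⁅(FreeGroup.of 0 : F), (FreeGroup.of 1 : F)⁆ ^ q.c, ?_⟩
  show Gq (μ _) = q
  simp only [map_mul, map_zpow, map_commutatorElement, μ0, μ1]
  conv_rhs => rw [nf q, z_eq]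
  rfl

theorem realize (l : Λ) : ∃ w, μ w = ⟨l * κ1, l * κ2, 1⟩ := by
  induction l using MonoidAlgebra.induction_on with
  | of q =>
    obtain ⟨u, rfl⟩ := surj q
    refine ⟨u * ρ * u⁻¹, ?_⟩
    simp only [map_mul, map_inv, μρ]
    refine G.ext ?_ ?_ (by simp) <;>
      simp only [mul_m1, mul_m2, mul_q, inv_m1, inv_m2, mul_one, ← mul_assoc, ← map_mul,
        mul_inv_cancel, map_one, one_mul] <;> rw [add_right_comm, two, zero_add]
  | add u v hu hv =>
    obtain ⟨a, ha⟩ := hu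
    obtain ⟨b, hb⟩ := hv
    refine ⟨a * b, ?_⟩
    rw [map_mul, ha, hb]
    refine G.ext ?_ ?_ (by simp) <;> simp only [mul_m1, mul_m2, map_one, one_mul, add_mul]
  | smul c u hu =>
    rcases (by revert c; decide : c = 0 ∨ c = 1) with rfl | rfl
    · exact ⟨1, by rw [map_one, zero_smul, zero_mul, zero_mul]; rfl⟩
    · rwa [one_smul]

/-- the element -/
def hh : F := ρ * .of 0

theorem μhh : μ hh = ⟨κ1 + 1, κ2, x⟩ := by
  rw [hh, map_mul, μρ, μ0]
  refine G.ext ?_ ?_ (by simp) <;> simp only [mul_m1, mul_m2, map_one, one_mul, mul_zero, add_zero]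

theorem nonprim : ¬ ∃ (a b : Fin 2 → F) (i : Fin 2),
    (∀ j, (FreeGroup.lift b (a j))⁻¹ * FreeGroup.of j ∈ μ.ker) ∧
    (∀ j, (FreeGroup.lift a (b j))⁻¹ * FreeGroup.of j ∈ μ.ker) ∧ (a i)⁻¹ * hh ∈ μ.ker := by
  rintro ⟨a, b, i, h1, h2, h3⟩
  simp only [MonoidHom.mem_ker, map_mul, map_inv, inv_mul_eq_one, factor'] at h1 h2 h3
  have a0 := h1 0; have a1 := h1 1; have b0 := h2 0; have b1 := h2 1
  rw [μ0] at a0 b0; rw [μ1] at a1 b1
  rw [μhh] at h3
  have hi : μ (a 0) = ⟨κ1 + 1, κ2, x⟩ ∨ μ (a 1) = ⟨κ1 + 1, κ2, x⟩ := by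
    fin_cases i
    exacts [Or.inl h3, Or.inr h3]
  generalize μ (a 0) = A0, μ (a 1) = A1, μ (b 0) = B0, μ (b 1) = B1 at *
  have hθ : (th A0.q A1.q).comp (th B0.q B1.q) = MonoidHom.id H :=
    H_ext (by simpa [Φ] using congrArg G.q b0) (by simpa [Φ] using congrArg G.q b1)
  have n11 := congrArg G.m1 b0; have n12 := congrArg G.m2 b0
  have n21 := congrArg G.m1 b1; have n22 := congrArg G.m2 b1
  have m12 := congrArg (T (th A0.q A1.q) ∘ G.m2) a0
  have m21 := congrArg (T (th A0.q A1.q) ∘ G.m1) a1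
  simp only [Φ, MonoidHom.coe_mk, OneHom.coe_mk, Function.comp_apply, map_add, map_mul, T_T hθ,
    map_zero] at n11 n12 n21 n22 m12 m21
  have key : ∀ p q, q = T (th A0.q A1.q) B1.m1 * (A0.m1 * p + A0.m2 * q) +
      T (th A0.q A1.q) B1.m2 * (A1.m1 * p + A1.m2 * q) := fun p q => by
    rw [mul_add, mul_add, add_add_add_comm]
    simp only [← mul_assoc, ← add_mul, n21, n22, zero_mul, one_mul, zero_add]
  rcases hi with rfl | rfl
  · exact nonfree _ _ m12 fun p q h => ⟨_, (key p q).trans (by rw [h, mul_zero, zero_add])⟩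
  · exact nonfree _ _ m21 fun p q h => ⟨_, (key p q).trans (by rw [h, mul_zero, add_zero])⟩

theorem main : ∃ g : Fin 2 → F, (∀ w, FreeGroup.lift g w ∈ μ.ker → w ∈ μ.ker) ∧
    (FreeGroup.of 0)⁻¹ * FreeGroup.lift g hh ∈ μ.ker := by
  obtain ⟨s1, s2, hs, he⟩ := unimod
  obtain ⟨w1, e1⟩ := realize s1
  obtain ⟨w2, e2⟩ := realize s2
  have hθ : th x y = MonoidHom.id H := H_ext (by simp) (by simp)
  have hT : ∀ u, T (MonoidHom.id H) u = u := fun u => by simp [T]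
  have key : ∀ w, μ (FreeGroup.lift ![w1 * .of 0, w2 * .of 1] w) =
      ⟨(μ w).m1 + ((μ w).m1 * s1 + (μ w).m2 * s2) * κ1,
        (μ w).m2 + ((μ w).m1 * s1 + (μ w).m2 * s2) * κ2, (μ w).q⟩ := fun w => by
    rw [factor']
    simp only [Matrix.cons_val_zero, Matrix.cons_val_one, map_mul, e1, e2, μ0, μ1]
    refine G.ext ?_ ?_ ?_ <;>
      simp only [Φ, MonoidHom.coe_mk, OneHom.coe_mk, mul_m1, mul_m2, mul_q, one_mul, hθ, hT, map_one,
        mul_zero, add_zero, mul_add, add_mul, mul_one, mul_assoc, MonoidHom.id_apply] <;> abel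
  refine ⟨![w1 * .of 0, w2 * .of 1], fun w hw => ?_, ?_⟩
  · rw [MonoidHom.mem_ker] at hw ⊢
    rw [key] at hw
    have h1 := congrArg G.m1 hw; have h2 := congrArg G.m2 hw
    simp only [one_m1, one_m2] at h1 h2
    generalize ht : (μ w).m1 * s1 + (μ w).m2 * s2 = t at h1 h2
    rw [add_eq_zero_iff_eq_neg, neg_eq] at h1 h2
    have h3 : t * s1 = 0 := by
      have : t * ((κ1 + 1) * s1 + κ2 * s2) = t + t * s1 := by
        conv_rhs => lhs; rw [← ht, h1, h2]
        simp only [mul_add, add_mul, mul_assoc, one_mul]; abel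
      rwa [he, mul_one, left_eq_add] at this
    have h4 : t = 0 := by by_contra h; exact dom h hs h3
    exact G.ext (by simp [h1, h4]) (by simp [h2, h4]) (congrArg G.q hw :)
  · rw [MonoidHom.mem_ker, map_mul, map_inv, inv_mul_eq_one, key, μhh, μ0]
    refine G.ext ?_ ?_ rfl <;> simp only [he, one_mul]
    · rw [add_right_comm, two, zero_add]
    · rw [two]

end Pool.Agent.H64.Staff
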