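import Mathlib

namespace Pool.Agent.H64.Stk

open Finset

theorem key {K : Type*} [Field K] [Fintype K] (p : ℕ) [Fact p.Prime] [CharP K p] (hp2 : p ≠ 2)
    (r : ℕ) (hr : 1 ≤ r) (hcard : Fintype.card K = p ^ (4 * r)) (θ c M : K)
    (hinj : ∀ j, 0 < j → j < 4 * r → θ ^ p ^ j ≠ θ) (hθ : θ ≠ 0)
    (hc : c ^ (p - 1) = 1) (hM : M ^ (p - 1) = 1)
    (hA : (θ - 1) * ∏ j ∈ (range (4 * r)).erase 0, (θ - θ ^ p ^ j) = c * θ ^ (4 * r))
    (hB : ∏ j ∈ range (4 * r), (θ ^ p ^ j - 1) = M ^ 2) : False := by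
  classical
  have hpp : p.Prime := Fact.out
  obtain ⟨u, hu⟩ : Odd p := hpp.odd_of_ne_two hp2
  -- p ^ (2 r) = 4 w + 1
  obtain ⟨w, hw⟩ : ∃ w, p ^ (2 * r) = 4 * w + 1 := by
    obtain ⟨v, hv⟩ : Odd (p ^ r) := Odd.pow ⟨u, hu⟩
    refine ⟨v * v + v, ?_⟩
    rw [mul_comm 2 r, pow_mul, hv]; ring
  set h := 4 * w * (2 * w + 1) with hh
  have hn : p ^ (4 * r) = 2 * h + 1 := by
    have : p ^ (4 * r) = (p ^ (2 * r)) ^ 2 := by rw [← pow_mul]; ring_nf
    rw [this, hw, hh]; ring
  have hx : ∀ x : K, x ≠ 0 → x ^ (2 * h) = 1 := by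
    intro x hx
    have := FiniteField.pow_card_sub_one_eq_one x hx
    rwa [hcard, hn, Nat.add_sub_cancel] at this
  have hfro : ∀ x : K, x ^ p ^ (4 * r) = x := by
    intro x
    rw [← hcard]; exact FiniteField.pow_card x
  -- the geometric sum
  set G := ∑ j ∈ range (4 * r), p ^ j with hG
  have hGe : G * (2 * u) + 1 = p ^ (4 * r) := by
    have := geom_sum_mul_add (2 * u) (4 * r)
    rw [hG, hu]; exact this
  have hhG : h = G * u := by
    have : 2 * h + 1 = G * (2 * u) + 1 := by rw [hGe, hn]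
    nlinarith
  obtain ⟨t, ht⟩ : Even G := by
    have : ∀ m, Even (∑ j ∈ range (2 * m), p ^ j) := by
      intro m
      induction m with
      | zero => simp
      | succ m ih =>
        rw [show 2 * (m + 1) = 2 * m + 1 + 1 by ring, sum_range_succ, sum_range_succ, add_assoc]
        exact ih.add ((Odd.pow ⟨u, hu⟩).add_odd (Odd.pow ⟨u, hu⟩))
    have := this (2 * r)
    rwa [show 2 * (2 * r) = 4 * r by ring] at this
  have hp1 : p - 1 = 2 * u := by omega
  have hcχ : c ^ h = 1 := by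
    rw [hhG, ht, show (t + t) * u = (2 * u) * t by ring, pow_mul, ← hp1, hc, one_pow]
  have hθχ : (θ ^ (4 * r)) ^ h = 1 := by
    rw [← pow_mul, show 4 * r * h = (2 * h) * (2 * r) by ring, pow_mul, hx θ hθ, one_pow]
  have h1χ : (θ - 1) ^ h = 1 := by
    have e : (θ - 1) ^ G = M ^ 2 := by
      rw [← hB, hG, ← prod_pow_eq_pow_sum]
      refine prod_congr rfl fun j _ => ?_
      rw [sub_pow_char_pow, one_pow]
    rw [hhG, pow_mul, e, ← pow_mul, ← hp1, hM]
  -- the middle term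
  have hmid : (θ - θ ^ p ^ (2 * r)) ^ h = -1 := by
    set a := θ - θ ^ p ^ (2 * r) with ha
    have ha0 : a ≠ 0 := sub_ne_zero.2 (hinj (2 * r) (by omega) (by omega)).symm
    have e1 : a ^ p ^ (2 * r) = -a := by
      rw [ha, sub_pow_char_pow, ← pow_mul, ← pow_add, show 2 * r + 2 * r = 4 * r by ring, hfro]
      ring
    have e2 : a ^ (4 * w) = -1 := by
      rw [hw, pow_succ] at e1
      have : (a ^ (4 * w) + 1) * a = 0 := by linear_combination e1
      rcases mul_eq_zero.1 this with h0 | h0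
      · linear_combination h0
      · exact absurd h0 ha0
    rw [hh, pow_mul, e2]
    exact Odd.neg_one_pow ⟨w, rfl⟩
  have hrest : ∏ j ∈ ((range (4 * r)).erase 0).erase (2 * r), (θ - θ ^ p ^ j) ^ h = 1 := by
    refine prod_involution (fun j _ => 4 * r - j) ?_ ?_ ?_ ?_
    · intro j hj
      simp only [mem_erase, mem_range] at hj
      obtain ⟨hj1, hj2, hj3⟩ := hj
      set a := θ - θ ^ p ^ j with ha
      have ha0 : a ≠ 0 := sub_ne_zero.2 (hinj j (by omega) hj3).symm
      have e1 : θ - θ ^ p ^ (4 * r - j) = -a ^ p ^ (4 * r - j) := by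
        rw [ha, sub_pow_char_pow, ← pow_mul, ← pow_add, show j + (4 * r - j) = 4 * r by omega, hfro]
        ring
      obtain ⟨v, hv⟩ : Odd (p ^ (4 * r - j)) := Odd.pow ⟨u, hu⟩
      rw [e1, ← mul_pow, hv, show a * -a ^ (2 * v + 1) = -(a ^ (v + 1)) ^ 2 by ring, neg_pow,
        ← pow_mul, hx _ (pow_ne_zero _ ha0), mul_one]
      exact Even.neg_one_pow ⟨2 * w * (2 * w + 1), by rw [hh]; ring⟩
    · intro j hj _
      simp only [mem_erase, mem_range] at hj
      omega
    · intro j hj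
      simp only [mem_erase, mem_range] at hj ⊢
      omega
    · intro j hj
      simp only [mem_erase, mem_range] at hj
      show 4 * r - (4 * r - j) = j
      omega
  have hall : (∏ j ∈ (range (4 * r)).erase 0, (θ - θ ^ p ^ j)) ^ h = -1 := by
    rw [← prod_pow, ← mul_prod_erase _ _ (a := 2 * r) (by simp only [mem_erase, mem_range]; omega),
      hmid, hrest, mul_one]
  have := congrArg (· ^ h) hA
  simp only [mul_pow] at this
  rw [h1χ, hall, hcχ, hθχ] at this
  have h2 : ((2 : ℕ) : K) = 0 := by push_cast; linear_combination -this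
  rw [CharP.cast_eq_zero_iff K p] at h2
  exact hp2 ((Nat.prime_dvd_prime_iff_eq hpp Nat.prime_two).1 h2)

end Pool.Agent.H64.Stk
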