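import Pool.Agent.H64.Stk1

namespace Pool.Agent.H64.Stk

open Finset Polynomial

noncomputable def sR (R : Type*) [CommRing R] (n : ℕ) : R[X] :=
  ∑ k ∈ range (n + 1), C ((k : R) + 1) * X ^ k

theorem ident (R : Type*) [CommRing R] (n : ℕ) :
    (X - 1) * derivative (sR R n) + 2 * sR R n = C (((n : R) + 1) * ((n : R) + 2)) * X ^ n := by
  induction n with
  | zero => simp [sR]; rfl
  | succ n ih =>
    have e : sR R (n + 1) = sR R n + C (((n + 1 : ℕ) : R) + 1) * X ^ (n + 1) := by
      rw [sR, sum_range_succ]; rfl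
    rw [e, derivative_add, derivative_C_mul, derivative_X_pow_succ]
    simp only [map_mul, map_add, map_one, map_natCast, map_ofNat, Nat.cast_add, Nat.cast_one] at ih ⊢
    linear_combination ih

theorem coeff_sR (R : Type*) [CommRing R] (n i : ℕ) (hi : i ≤ n) :
    (sR R n).coeff i = (i : R) + 1 := by
  rw [sR, finsetSum_coeff, sum_eq_single i]
  · rw [coeff_C_mul, coeff_X_pow]; simp
  · intro b _ hb
    rw [coeff_C_mul, coeff_X_pow, if_neg (Ne.symm hb), mul_zero]
  · intro h; exact absurd (mem_range.2 (by omega)) h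

theorem natDegree_sR_le (R : Type*) [CommRing R] (n : ℕ) : (sR R n).natDegree ≤ n := by
  rw [sR]
  refine natDegree_sum_le_of_forall_le _ _ fun i hi => ?_
  exact (natDegree_C_mul_X_pow_le _ _).trans (by have := mem_range.1 hi; omega)

theorem map_sR {R S : Type*} [CommRing R] [CommRing S] (φ : R →+* S) (n : ℕ) :
    (sR R n).map φ = sR S n := by
  simp [sR, Polynomial.map_sum]

theorem main (k : ℕ) (hk : 1 ≤ k) (p : ℕ) [Fact p.Prime] :
    ¬ Irreducible (sR (ZMod p) (8 * k * (k + 1))) := by
  classical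
  intro hf
  have hpp : p.Prime := Fact.out
  obtain ⟨r, hr⟩ : ∃ r, r = 2 * k * (k + 1) := ⟨_, rfl⟩
  have hr4 : 4 ≤ r := by rw [hr]; nlinarith
  have hn : 8 * k * (k + 1) = 4 * r := by rw [hr]; ring
  rw [hn] at hf
  set n := 4 * r with hnr
  have hn2 : n + 2 = 2 * (2 * k + 1) ^ 2 := by rw [hnr, hr]; ring
  set f := sR (ZMod p) n with hfd
  have hid := ident (ZMod p) n
  rw [← hfd] at hid
  by_cases h0 : ((n : ZMod p) + 1) * ((n : ZMod p) + 2) = 0
  · rw [h0, map_zero, zero_mul] at hid
    have hsep : IsCoprime f (derivative f) := PerfectField.separable_of_irreducible hf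
    have hd : f ∣ (X - 1) * derivative f := ⟨-2, by linear_combination hid⟩
    have hd2 : f ∣ X - C 1 := hsep.dvd_of_dvd_mul_right hd
    have hle := natDegree_le_of_dvd hd2 (X_sub_C_ne_zero 1)
    rw [natDegree_X_sub_C] at hle
    have c1 : f.coeff n = 0 := coeff_eq_zero_of_natDegree_lt (by omega)
    have c2 : f.coeff (n - 1) = 0 := coeff_eq_zero_of_natDegree_lt (by omega)
    rw [hfd, coeff_sR _ _ _ le_rfl] at c1
    rw [hfd, coeff_sR _ _ _ (by omega), Nat.cast_sub (by omega)] at c2
    have : (1 : ZMod p) = 0 := by push_cast at c2; linear_combination c1 - c2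
    exact one_ne_zero this
  have h1 : (n : ZMod p) + 1 ≠ 0 := left_ne_zero_of_mul h0
  have h2 : (n : ZMod p) + 2 ≠ 0 := right_ne_zero_of_mul h0
  have h2' : (n : ZMod p) + 2 = 2 * ((2 * k + 1 : ℕ) : ZMod p) ^ 2 := by exact_mod_cast congrArg (Nat.cast : ℕ → ZMod p) hn2
  have htwo : (2 : ZMod p) ≠ 0 := by
    intro h; apply h2; rw [h2', h, zero_mul]
  have hp2 : p ≠ 2 := by
    rintro rfl
    exact htwo rfl
  have hM0 : ((2 * k + 1 : ℕ) : ZMod p) ≠ 0 := by
    intro h; apply h2; rw [h2', h]; ring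
  have hdeg : f.natDegree = n := by
    refine le_antisymm (natDegree_sR_le _ _) (le_natDegree_of_ne_zero ?_)
    rw [hfd, coeff_sR _ _ _ le_rfl]; exact h1
  haveI : Fact (Irreducible f) := ⟨hf⟩
  let K := AdjoinRoot f
  let pb := AdjoinRoot.powerBasis hf.ne_zero
  haveI : Module.Finite (ZMod p) K := pb.finite
  haveI : Finite K := Module.finite_of_finite (ZMod p)
  letI : Fintype K := Fintype.ofFinite K
  have hfr : Module.finrank (ZMod p) K = n := by
    rw [pb.finrank]; exact hdeg
  have hcard : Fintype.card K = p ^ n := by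
    rw [Module.card_eq_pow_finrank (K := ZMod p), ZMod.card, hfr]
  haveI : CharP K p := charP_of_injective_algebraMap (algebraMap (ZMod p) K).injective p
  set θ : K := AdjoinRoot.root f with hθ
  have hfrob : ∀ (i : ℕ) (x : K), (FiniteField.frobeniusAlgHom (ZMod p) K ^ i) x = x ^ p ^ i := by
    intro i x
    rw [AlgHom.coe_pow, FiniteField.coe_frobeniusAlgHom, pow_iterate, ZMod.card]
  have hinj : Set.InjOn (fun j => θ ^ p ^ j) (range n : Set ℕ) := by
    intro i hi j hj hij
    have hi' : i < Module.finrank (ZMod p) K := by rw [hfr]; simpa using hi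
    have hj' : j < Module.finrank (ZMod p) K := by rw [hfr]; simpa using hj
    have := (FiniteField.bijective_frobeniusAlgHom_pow (ZMod p) K).1 (a₁ := ⟨i, hi'⟩) (a₂ := ⟨j, hj'⟩)
      (AdjoinRoot.algHom_ext (by rw [hfrob, hfrob]; exact hij))
    exact congrArg Fin.val this
  have hroot : aeval θ f = 0 := by rw [hθ, AdjoinRoot.aeval_eq, AdjoinRoot.mk_self]
  have hrootj : ∀ j, aeval (θ ^ p ^ j) f = 0 := by
    intro j
    rw [← hfrob, aeval_algHom_apply, hroot, map_zero]
  set g : K[X] := sR K n with hg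
  have hfg : f.map (algebraMap (ZMod p) K) = g := map_sR _ _
  have hgroot : ∀ j, g.eval (θ ^ p ^ j) = 0 := by
    intro j; rw [← hfg, eval_map_algebraMap]; exact hrootj j
  have hcast : ∀ m : ℕ, algebraMap (ZMod p) K (m : ZMod p) = (m : K) := fun m => map_natCast _ m
  have k1 : (n : K) + 1 ≠ 0 := by
    have := (map_ne_zero (algebraMap (ZMod p) K)).2 h1
    simpa [hcast] using this
  have k2 : (2 : K) ≠ 0 := by
    have := (map_ne_zero (algebraMap (ZMod p) K)).2 htwo
    simpa [map_ofNat] using this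
  have hgdeg : g.natDegree = n := by rw [← hfg, natDegree_map, hdeg]
  have hglc : g.leadingCoeff = (n : K) + 1 := by
    rw [leadingCoeff, hgdeg, hg, coeff_sR _ _ _ le_rfl]
  have hdvd : Lagrange.nodal (range n) (fun j => θ ^ p ^ j) ∣ g := by
    rw [Lagrange.nodal_eq]
    refine Finset.prod_dvd_of_coprime ?_ fun j _ => dvd_iff_isRoot.2 (hgroot j)
    intro i hi j hj hij
    exact isCoprime_X_sub_C_of_isUnit_sub (sub_ne_zero.2 fun h => hij (hinj hi hj h)).isUnit
  have hfac : g = C ((n : K) + 1) * Lagrange.nodal (range n) (fun j => θ ^ p ^ j) := by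
    rw [← hglc]
    refine eq_leadingCoeff_mul_of_monic_of_dvd_of_natDegree_le Lagrange.nodal_monic hdvd ?_
    rw [hgdeg, Lagrange.natDegree_nodal, card_range]
  have hidK := ident K n
  rw [← hg] at hidK
  have hθ0 : θ ≠ 0 := by
    intro h
    have := hgroot 0
    rw [pow_zero, pow_one, h, ← coeff_zero_eq_eval_zero, hg, coeff_sR _ _ _ (by omega)] at this
    simp at this
  have hfer : ∀ a : ZMod p, a ≠ 0 → (algebraMap (ZMod p) K a) ^ (p - 1) = 1 := by
    intro a ha
    rw [← map_pow, ZMod.pow_card_sub_one_eq_one ha, map_one]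
  refine key p hp2 r (by omega) hcard θ ((n : K) + 2) ((2 * k + 1 : ℕ) : K) ?_ hθ0 ?_ ?_ ?_ ?_
  · intro j hj0 hj h
    have := hinj (x₁ := j) (x₂ := 0) (by simpa using hj) (by simp; omega) (by simpa using h)
    omega
  · have := hfer _ h2
    simpa [hcast, map_ofNat] using this
  · have := hfer _ hM0
    rwa [hcast] at this
  · have e1 := congrArg (eval θ) hidK
    have e0 := hgroot 0
    rw [pow_zero, pow_one] at e0
    have e2 := Lagrange.eval_nodal_derivative_eval_node_eq (s := range n) (v := fun j => θ ^ p ^ j)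
      (i := 0) (mem_range.2 (by omega))
    simp only [pow_zero, pow_one] at e2
    rw [Lagrange.eval_nodal] at e2
    have e3 : eval θ (derivative g) = ((n : K) + 1) * ∏ j ∈ (range n).erase 0, (θ - θ ^ p ^ j) := by
      conv_lhs => rw [hfac]
      rw [derivative_C_mul, eval_mul, eval_C, e2]
    simp only [eval_add, eval_mul, eval_sub, eval_X, eval_one, eval_C, eval_pow, e0, e3, mul_zero,
      add_zero] at e1
    apply mul_left_cancel₀ k1
    linear_combination e1
  · have e1 := congrArg (eval 1) hidK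
    have e3 : eval 1 g = ((n : K) + 1) * ∏ j ∈ range n, (θ ^ p ^ j - 1) := by
      conv_lhs => rw [hfac]
      rw [eval_mul, eval_C, Lagrange.eval_nodal]
      congr 1
      rw [show (∏ j ∈ range n, (θ ^ p ^ j - 1)) = ∏ j ∈ range n, (-(1 - θ ^ p ^ j)) by simp,
        prod_neg, card_range, Even.neg_one_pow ⟨2 * r, by omega⟩, one_mul]
    simp only [eval_add, eval_mul, eval_sub, eval_X, eval_one, eval_C, eval_pow, e3, sub_self,
      zero_mul, zero_add, one_pow, mul_one, eval_ofNat] at e1
    have e4 : (n : K) + 2 = 2 * ((2 * k + 1 : ℕ) : K) ^ 2 := by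
      have := congrArg (algebraMap (ZMod p) K) h2'
      rwa [map_add, map_mul, map_pow, hcast, hcast, map_ofNat] at this
    apply mul_left_cancel₀ (mul_ne_zero k1 k2)
    rw [e4] at e1
    linear_combination e1

end Pool.Agent.H64.Stk
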