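import Mathlib

set_option autoImplicit false

namespace Pool.Agent.H64.SubA5Defs

/-- A map on finite words over five letters fixing the root all of whose local permutations
(the permutation of the five children of a vertex) lie in `A₅`. For a permutation of the words
this says: it is an element of the infinite iterated wreath product `W` of `A₅`. -/
def LocA5 (g : List (Fin 5) → List (Fin 5)) : Prop :=
  g [] = [] ∧ ∀ v, ∃ σ ∈ alternatingGroup (Fin 5), ∀ x, g (v ++ [x]) = g v ++ [σ x]

/-- `Γ` maps onto every finite-level quotient `W_n` of `W`. -/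
def DenseInW (Γ : Subgroup (Equiv.Perm (List (Fin 5)))) : Prop :=
  ∀ (n : ℕ) (g : Equiv.Perm (List (Fin 5))), LocA5 g →
    ∃ γ ∈ Γ, ∀ v : List (Fin 5), v.length = n → γ v = g v

/-- The ball of radius `r` for the word length with respect to `S ∪ S⁻¹`. -/
def ball {G : Type} [Group G] (S : Set G) (r : ℕ) : Set G :=
  {g | ∃ l : List G, l.length ≤ r ∧ (∀ s ∈ l, s ∈ S ∨ s⁻¹ ∈ S) ∧ l.prod = g}

end Pool.Agent.H64.SubA5Defs
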