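import Pool.Agent.H64.Branch1
import Pool.Agent.H64.SubA5Defs

set_option autoImplicit false

namespace Pool.Agent.H64.SubA5

open Pool.Agent.H64.Branch Pool.Agent.H64.SubA5Defs

abbrev Al := alternatingGroup X
abbrev B := ZMod 3 × ZMod 2 × ZMod 2
abbrev Lt := Al ⊕ B

def u : Equiv.Perm X := ⟨![2, 3, 0, 1, 4], ![2, 3, 0, 1, 4], by decide, by decide⟩
def β' : Al := ⟨β, by rw [Equiv.Perm.mem_alternatingGroup]; decide⟩
def u' : Al := ⟨u, by rw [Equiv.Perm.mem_alternatingGroup]; decide⟩

def L60 : List (List Bool) := [[], [true], [false], [true, true], [false, true], [true, false], [false, true, true], [true, false, true], [true, true, false], [false, true, false], [true, false, true, true], [true, true, false, true], [false, true, false, true], [false, true, true, false], [true, false, true, false], [true, true, false, true, true], [false, true, false, true, true], [false, true, true, false, true], [true, false, true, false, true], [true, false, true, true, false], [true, true, false, true, false], [false, true, false, true, false], [false, true, true, false, true, true], [true, false, true, false,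 true, true], [true, false, true, true, false, true], [true, true, false, true, false, true], [false, true, false, true, false, true], [false, true, false, true, true, false], [false, true, true, false, true, false], [true, false, true, true, false, true, true], [true, true, false, true, false, true, true], [false, true, false, true, false, true, true], [false, true, false, true, true, false, true], [false, true, true, false, true, false, true], [true, false, true, false, true, true, false], [true, false, true, true, false, true, false], [false, true, false, true, true, false, true, true], [false, true, true, false, true, false, true, true], [true, false, true, false, true, true, false, true], [true, false, true, true, false, true, false, true], [true, true, false, true, false, true, true, false], [false, true, false, true, false, true, true, false], [false, true, false, true, true, false, true, false], [true, false, true, false, true, true, false, true, true], [true, false, true, true, false, true, false, true, true], [true, true, false, true, false, true, true, false, true], [false, true, false,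 true, false, true, true, false, true], [false, true, false, true, true, false, true, false, true], [false, true, true, false, true, false, true, true, false], [true, false, true, false, true, true, false, true, false], [true, true, false, true, false, true, true, false, true, true], [false, true, false, true, false, true, true, false, true, true], [false, true, false, true, true, false, true, false, true, true], [false, true, true, false, true, false, true, true, false, true], [true, false, true, true, false, true, false, true, true, false], [true, true, false, true, false, true, true, false, true, false], [true, false, true, true, false, true, false, true, true, false, true], [false, true, false, true, true, false, true, false, true, true, false], [false, true, true, false, true, false, true, true, false, true, false], [false, true, false, true, true, false, true, false, true, true, false, true]]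
def e60 (w : List Bool) : Equiv.Perm X := (w.map fun b => if b then β else u).prod
theorem all60 : ∀ σ : Equiv.Perm X, Equiv.Perm.sign σ = 1 → σ ∈ L60.map e60 := by decide +kernel

def ρ (b : B) : B := (b.1, b.2.2, b.2.1 + b.2.2)
def lab (b : B) (x : X) : Al := if x = 1 then β' ^ b.1.val else if x = 2 then u' ^ b.2.1.val else 1

theorem ρ_add : ∀ b c : B, ρ (b + c) = ρ b + ρ c := by decide
theorem ρ_zero : ρ 0 = 0 := by decide
theorem lab_add : ∀ (b c : B) (x : X), lab (b + c) x = lab b x * lab c x := by decide +kernel
theorem lab_zero : ∀ x : X, lab 0 x = 1 := by decide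

def rt (σ : Al) : P := root σ.1

theorem rt_mul (σ τ : Al) : rt (σ * τ) = rt σ * rt τ := map_mul root _ _
theorem rt_one : rt 1 = 1 := map_one root

def bf : B → List X → List X
  | _, [] => []
  | b, x :: w => x :: (if x = 0 then bf (ρ b) w else rt (lab b x) w)

theorem bf_add (w : List X) : ∀ b c, bf b (bf c w) = bf (b + c) w := by
  induction w with
  | nil => intro b c; rfl
  | cons x w ih =>
    intro b c
    by_cases h : x = 0
    · simp [bf, h, ih, ρ_add]
    · simp [bf, h, lab_add, rt_mul]

theorem bf_zero (w : List X) : bf 0 w = w := by
  induction w with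
  | nil => rfl
  | cons x w ih =>
    by_cases h : x = 0
    · simp [bf, h, ih, ρ_zero]
    · simp [bf, h, lab_zero, rt_one]

def db (b : B) : P := ⟨bf b, bf (-b), fun w => by rw [bf_add, neg_add_cancel, bf_zero],
  fun w => by rw [bf_add, add_neg_cancel, bf_zero]⟩

theorem db_add (b c : B) : db (b + c) = db b * db c := Equiv.ext fun w => (bf_add w b c).symm
theorem db_zero : db 0 = 1 := Equiv.ext bf_zero

theorem db_eq (b : B) : db b = wr 1 fun x => if x = 0 then db (ρ b) else rt (lab b x) := by
  ext1 w
  cases w with
  | nil => rfl
  | cons x w =>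
    change x :: _ = x :: _
    by_cases h : x = 0 <;> simp [h] <;> rfl

def gen : Lt → P := Sum.elim rt db

def ev (w : List Lt) : P := (w.map gen).prod

theorem ev_nil : ev [] = 1 := rfl
theorem ev_cons (l : Lt) (w : List Lt) : ev (l :: w) = gen l * ev w := by simp [ev]
theorem ev_append (v w : List Lt) : ev (v ++ w) = ev v * ev w := by simp [ev]

def G : Subgroup P := Subgroup.closure (Set.range gen)

theorem gen_mem (l : Lt) : gen l ∈ G := Subgroup.subset_closure ⟨l, rfl⟩

theorem ev_mem (w : List Lt) : ev w ∈ G := by
  induction w with
  | nil => exact one_mem _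
  | cons l w ih => rw [ev_cons]; exact mul_mem (gen_mem l) ih

theorem exists_word {g : P} (hg : g ∈ G) : ∃ w, ev w = g := by
  induction hg using Subgroup.closure_induction'' with
  | mem x hx => obtain ⟨l, rfl⟩ := hx; exact ⟨[l], by simp [ev]⟩
  | inv_mem x hx =>
    obtain ⟨σ | b, rfl⟩ := hx
    · exact ⟨[Sum.inl σ⁻¹], by simp [ev, gen, rt]⟩
    · refine ⟨[Sum.inr (-b)], ?_⟩
      simp only [ev, gen, List.map_cons, List.map_nil, List.prod_cons, List.prod_nil, mul_one,
        Sum.elim_inr]
      rw [eq_inv_iff_mul_eq_one, ← db_add, neg_add_cancel, db_zero]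
  | one => exact ⟨[], rfl⟩
  | mul x y _ _ hx hy =>
    obtain ⟨v, rfl⟩ := hx
    obtain ⟨w, rfl⟩ := hy
    exact ⟨v ++ w, ev_append _ _⟩

def r1 : Lt → Al := Sum.elim id fun _ => 1

def rtw : List Lt → Al
  | [] => 1
  | l :: w => r1 l * rtw w

def s1 : Lt → X → List Lt
  | Sum.inl _, _ => []
  | Sum.inr b, y => if y = 0 then [Sum.inr (ρ b)] else [Sum.inl (lab b y)]

def secw : List Lt → X → List Lt
  | [], _ => []
  | l :: w, x => s1 l ((rtw w).1 x) ++ secw w x

theorem gen_eq (l : Lt) : gen l = wr (r1 l).1 fun y => ev (s1 l y) := by
  rcases l with σ | b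
  · rfl
  · show db b = _
    rw [db_eq]
    congr 1
    funext y
    simp only [s1]
    split_ifs <;> simp [ev, gen]

theorem ev_eq (w : List Lt) : ev w = wr (rtw w).1 fun x => ev (secw w x) := by
  induction w with
  | nil => exact wr_one.symm
  | cons l w ih =>
    rw [ev_cons, gen_eq]
    conv_lhs => rw [ih, wr_mul]
    simp only [secw, ev_append]
    rfl

theorem rt_mem (σ : Al) : rt σ ∈ G := gen_mem (Sum.inl σ)
theorem db_mem (b : B) : db b ∈ G := gen_mem (Sum.inr b)

theorem al_trans (x y : X) : ∃ σ : Al, σ.1 x = y := by
  have : ∀ x y : X, ∃ w ∈ L60, e60 w x = y ∧ Equiv.Perm.sign (e60 w) = 1 := by decide +kernel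
  obtain ⟨w, -, h1, h2⟩ := this x y
  exact ⟨⟨e60 w, Equiv.Perm.mem_alternatingGroup.2 h2⟩, h1⟩

theorem at1_mv {x : X} {g : P} (h : at1 x g ∈ G) (y : X) : at1 y g ∈ G := by
  obtain ⟨σ, rfl⟩ := al_trans x y
  have := mul_mem (mul_mem (rt_mem σ) h) (inv_mem (rt_mem σ))
  rw [rt, root_def, conj_at1] at this
  simpa using this

/-- an even permutation with 1 -> 2, 3 -> 0 -/
def κ : Al := ⟨⟨![1, 2, 4, 0, 3], ![3, 0, 1, 4, 2], by decide, by decide⟩, by
  rw [Equiv.Perm.mem_alternatingGroup]; decide⟩

theorem at1_rt (x : X) (σ : Al) : at1 x (rt σ) ∈ G := by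
  refine at1_mv (x := 1) ?_ x
  let S : Subgroup Al := G.comap ((at1 1).comp (root.comp Al.subtype))
  have hS : ∀ s : Al, s ∈ S ↔ at1 1 (rt s) ∈ G := fun _ => Iff.rfl
  have cj : ∀ (f : X → P) (a : Al), wr 1 f ∈ G → f 1 = rt a → ∀ s ∈ S, a * s * a⁻¹ ∈ S := by
    intro f a hf ha s hs
    have := mul_mem (mul_mem hf ((hS s).1 hs)) (inv_mem hf)
    rw [conj_at1, ha] at this
    rw [hS, rt_mul, rt_mul]
    rw [show rt a⁻¹ = (rt a)⁻¹ from map_inv root a.1]
    exact this
  have e1 := db_mem (1, 0, 0)
  have e2 := mul_mem (mul_mem (inv_mem (rt_mem κ)) (db_mem (0, 1, 0))) (rt_mem κ)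
  rw [db_eq] at e1
  rw [db_eq, rt, ← map_inv, root_def, root_def, wr_mul, wr_mul] at e2
  simp only [mul_one, one_mul, inv_mul_cancel] at e2
  have l1 : lab (1, 0, 0) 1 = β' := by decide
  have l2 : lab (0, 1, 0) (κ.1 1) = u' := by decide
  have k1 : κ.1 1 ≠ 0 := by decide
  have c1 := cj _ β' e1 (by simp [l1])
  have c2 := cj _ u' e2 (by simp only [if_neg k1, l2])
  have hn : S.Normal := ⟨fun s hs a => by
    obtain ⟨w, -, hw⟩ := List.mem_map.1 (all60 a.1 (Equiv.Perm.mem_alternatingGroup.1 a.2))
    have : ∀ (w : List Bool) (a : Al), e60 w = a.1 → a * s * a⁻¹ ∈ S := by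
      intro w
      induction w with
      | nil =>
        intro a ha
        have : a = 1 := Subtype.ext ha.symm
        simpa [this] using hs
      | cons c w ih =>
        intro a ha
        cases c
        · have := c2 _ (ih (u'⁻¹ * a) (by
            show _ = u⁻¹ * a.1
            rw [← ha]; simp [e60]))
          convert this using 1; group
        · have := c1 _ (ih (β'⁻¹ * a) (by
            show _ = β⁻¹ * a.1
            rw [← ha]; simp [e60]))
          convert this using 1; group
    exact this w a hw⟩
  have hc : β' * u' * β'⁻¹ * u'⁻¹ ∈ S := by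
    have := mul_mem (mul_mem (mul_mem e1 e2) (inv_mem e1)) (inv_mem e2)
    rw [← base_def, ← base_def, ← map_inv base, ← map_inv base, ← map_mul, ← map_mul,
      ← map_mul] at this
    rw [hS]
    convert this using 1
    show base _ = base _
    congr 1
    funext y
    have q0 : κ.1 0 = 1 := by decide
    have q1 : κ.1 1 = 2 := by decide
    have q2 : κ.1 2 = 4 := by decide
    have q3 : κ.1 3 = 0 := by decide
    have q4 : κ.1 4 = 3 := by decide
    fin_cases y <;> simp [q0, q1, q2, q3, q4, lab, rt, ZMod.val_one]
  rcases hn.eq_bot_or_eq_top with h | h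
  · rw [h, Subgroup.mem_bot] at hc
    exact absurd hc (by decide)
  · rw [← hS, h]; trivial

theorem ρ_surj : ∀ b : B, ∃ c, ρ c = b := by decide

theorem at1_G (x : X) {g : P} (hg : g ∈ G) : at1 x g ∈ G := by
  have : G ≤ G.comap (at1 x) := by
    refine (Subgroup.closure_le _).2 ?_
    rintro _ ⟨σ | b, rfl⟩
    · exact at1_rt x σ
    · obtain ⟨c, rfl⟩ := ρ_surj b
      refine at1_mv (x := 0) ?_ x
      have h1 : base (fun y => if y = 0 then 1 else rt (lab c y)) ∈ G := by
        refine base_mem _ fun y => ?_
        split_ifs
        · rw [map_one]; exact one_mem _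
        · exact at1_rt _ _
      have h2 := mul_mem (inv_mem h1) (db_mem c)
      convert h2 using 1
      rw [eq_inv_mul_iff_mul_eq, db_eq, at1_def, base_def, wr_mul, mul_one]
      congr 1
      funext y
      by_cases h : y = 0
      · subst h; simp [gen]
      · simp [h]
  exact this hg

theorem wr_mem (σ : Al) (f : X → P) (hf : ∀ x, f x ∈ G) : wr σ.1 f ∈ G := by
  rw [wr_eq]
  exact mul_mem (rt_mem σ) (base_mem f fun x => at1_G x (hf x))

theorem locA5 {g : P} (hg : g ∈ G) : LocA5 g := by
  obtain ⟨w, rfl⟩ := exists_word hg
  have h0 : ∀ w, ev w [] = [] := fun w => by rw [ev_eq]; rfl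
  refine ⟨h0 w, fun v => ?_⟩
  clear hg
  induction v generalizing w with
  | nil => exact ⟨_, (rtw w).2, fun x => by rw [h0, ev_eq]; simp [h0]⟩
  | cons y v ih =>
    obtain ⟨σ, hσ, h⟩ := ih (secw w y)
    exact ⟨σ, hσ, fun x => by rw [ev_eq]; simp [h]⟩

theorem dense_fun (n : ℕ) : ∀ g : List X → List X, LocA5 g →
    ∃ γ ∈ G, ∀ v : List X, v.length = n → γ v = g v := by
  induction n with
  | zero =>
    intro g hg
    exact ⟨1, one_mem _, fun v hv => by rw [List.length_eq_zero_iff.1 hv, hg.1]; rfl⟩
  | succ n ih =>
    intro g hg
    obtain ⟨σ, hσ, h⟩ := hg.2 []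
    have hd : ∀ x w, g (x :: w) = σ x :: (g (x :: w)).tail := by
      intro x w
      induction w using List.reverseRecOn with
      | nil => have := h x; rw [hg.1] at this; simp only [List.nil_append] at this; rw [this]; rfl
      | append_singleton w y ihw =>
        obtain ⟨τ, -, h2⟩ := hg.2 (x :: w)
        rw [← List.cons_append, h2, ihw]; rfl
    have hf : ∀ x, LocA5 fun w => (g (x :: w)).tail := by
      intro x
      refine ⟨by have := h x; rw [hg.1] at this; simp only [List.nil_append] at this
                 simp only [this]; rfl, fun v => ?_⟩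
      obtain ⟨τ, hτ, h2⟩ := hg.2 (x :: v)
      refine ⟨τ, hτ, fun y => ?_⟩
      show (g (x :: v ++ [y])).tail = _
      rw [h2, hd x v]; rfl
    choose γ hγ e using fun x => ih _ (hf x)
    refine ⟨wr σ γ, wr_mem ⟨σ, hσ⟩ γ hγ, fun v hv => ?_⟩
    cases v with
    | nil => simp at hv
    | cons x w => rw [wr_cons, e x w (by simpa using hv), ← hd]

theorem G_fg : G.FG := (Subgroup.fg_iff _).2 ⟨_, rfl, Set.finite_range _⟩

end Pool.Agent.H64.SubA5
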