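import Pool.Agent.H64.SubA51

set_option autoImplicit false

namespace Pool.Agent.H64.SubA5

open Pool.Agent.H64.Branch Pool.Agent.H64.SubA5Defs Finset Filter Topology

def wt (c : Lt → ℕ) (w : List Lt) : ℕ := (w.map c).sum

theorem wt_cons (c : Lt → ℕ) (l : Lt) (w : List Lt) : wt c (l :: w) = c l + wt c w := by simp [wt]
theorem wt_append (c : Lt → ℕ) (v w : List Lt) : wt c (v ++ w) = wt c v + wt c w := by simp [wt]

theorem wt_sec (c c' : Lt → ℕ) (h : ∀ l, ∑ y, wt c (s1 l y) = c' l) (w : List Lt) :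
    ∑ x, wt c (secw w x) = wt c' w := by
  induction w with
  | nil => simp [secw, wt]
  | cons l w ih =>
    simp only [secw, wt_append, sum_add_distrib, ih, wt_cons]
    rw [← h l, Equiv.sum_comp (rtw w).1 fun y => wt c (s1 l y)]

def cB : Lt → ℕ := Sum.elim (fun _ => 0) fun _ => 1
def cm : Lt → ℕ := Sum.elim (fun σ => if σ.1 0 = 0 then 0 else 1) fun _ => 0
def t0 : Lt → ℕ := Sum.elim (fun _ => 0) fun b => b.2.1.val
def t1 : Lt → ℕ := Sum.elim (fun _ => 0) fun b => b.2.2.val
def t2 : Lt → ℕ := Sum.elim (fun _ => 0) fun b => (b.2.1 + b.2.2).val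

theorem h_inl (c : Lt → ℕ) (σ : Al) : ∑ y, wt c (s1 (Sum.inl σ) y) = 0 := by simp [s1, wt]

theorem sec_B (w : List Lt) : ∑ x, wt cB (secw w x) = wt cB w :=
  wt_sec _ _ (by rintro (σ | b); exact h_inl _ σ; revert b; decide +kernel) w
theorem sec_m (w : List Lt) : ∑ x, wt cm (secw w x) = wt t0 w :=
  wt_sec _ _ (by rintro (σ | b); exact h_inl _ σ; revert b; decide +kernel) w
theorem sec_0 (w : List Lt) : ∑ x, wt t0 (secw w x) = wt t1 w :=
  wt_sec _ _ (by rintro (σ | b); exact h_inl _ σ; revert b; decide +kernel) w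
theorem sec_1 (w : List Lt) : ∑ x, wt t1 (secw w x) = wt t2 w :=
  wt_sec _ _ (by rintro (σ | b); exact h_inl _ σ; revert b; decide +kernel) w

theorem t_sum (w : List Lt) : wt t0 w + wt t1 w + wt t2 w ≤ 2 * wt cB w := by
  induction w with
  | nil => simp [wt]
  | cons l w ih =>
    have : t0 l + t1 l + t2 l ≤ 2 * cB l := by
      rcases l with σ | b
      · exact le_rfl
      · revert b; decide
    simp only [wt_cons]; omega

noncomputable def len (g : P) : ℕ := sInf {n | ∃ w, ev w = g ∧ wt cB w = n}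

theorem len_le (w : List Lt) : len (ev w) ≤ wt cB w := Nat.sInf_le ⟨w, rfl, rfl⟩

theorem exists_geo {g : P} (hg : g ∈ G) : ∃ w, ev w = g ∧ wt cB w = len g := by
  obtain ⟨w, rfl⟩ := exists_word hg
  exact Nat.sInf_mem (s := {n | ∃ v, ev v = ev w ∧ wt cB v = n}) ⟨_, w, rfl, rfl⟩

theorem len_mul {g h : P} (hg : g ∈ G) (hh : h ∈ G) : len (g * h) ≤ len g + len h := by
  obtain ⟨v, rfl, e⟩ := exists_geo hg
  obtain ⟨w, rfl, e'⟩ := exists_geo hh
  rw [← e, ← e', ← ev_append, ← wt_append]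
  exact len_le _

theorem len_gen (l : Lt) : len (gen l) ≤ cB l := by simpa [ev, wt] using len_le [l]

noncomputable def wd (g : P) : List Lt := Classical.epsilon fun w => ev w = g ∧ wt cB w = len g

theorem wd_spec {g : P} (hg : g ∈ G) : ev (wd g) = g ∧ wt cB (wd g) = len g :=
  Classical.epsilon_spec (exists_geo hg)

noncomputable def sc (g : P) (x : X) : P := ev (secw (wd g) x)

theorem sc_ev (w : List Lt) (x : X) : sc (ev w) x = ev (secw w x) := by
  have h := (wd_spec (ev_mem w)).1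
  rw [ev_eq, ev_eq w] at h
  have := congrFun (wr_inj h).2 x
  rw [← ev_eq] at this
  exact this

noncomputable def S : ℕ → P → ℕ
  | 0, g => len g
  | k + 1, g => ∑ x, S k (sc g x)

theorem S_succ (k : ℕ) (w : List Lt) : S (k + 1) (ev w) = ∑ x, S k (ev (secw w x)) := by
  simp only [S, sc_ev]

theorem S_mono (k : ℕ) : ∀ w, S (k + 1) (ev w) ≤ S k (ev w) := by
  induction k with
  | zero =>
    intro w
    obtain ⟨v, e, e'⟩ := exists_geo (ev_mem w)
    show _ ≤ len _
    rw [← e', ← e, S_succ, ← sec_B]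
    exact sum_le_sum fun x _ => len_le _
  | succ k ih =>
    intro w
    rw [S_succ, S_succ]
    exact sum_le_sum fun x _ => ih _

theorem fin_aux (y : List Lt) (b : B) : ∑ x, len (ev (secw y x)) ≤
    ∑ x, len (if (rtw y).1 x = 0 then db b * ev (secw y x) else ev (secw y x)) + 1 := by
  have h1 : ∑ x : X, (if (rtw y).1 x = 0 then 1 else 0) = 1 :=
    (Equiv.sum_comp (rtw y).1 fun z => if z = 0 then 1 else 0).trans (by simp)
  rw [← h1, ← sum_add_distrib]
  refine sum_le_sum fun x _ => ?_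
  split_ifs
  · have := len_mul (db_mem (-b)) (mul_mem (db_mem b) (ev_mem (secw y x)))
    rw [← mul_assoc, ← db_add, neg_add_cancel, db_zero, one_mul] at this
    have h2 : len (db (-b)) ≤ 1 := len_gen (Sum.inr (-b))
    omega
  · exact le_rfl

theorem S_one_aux (y : List Lt) : ∃ b : B,
    ∑ x, len (if (rtw y).1 x = 0 then db b * ev (secw y x) else ev (secw y x)) ≤ wt cm y := by
  induction y with
  | nil =>
    refine ⟨0, ?_⟩
    have : len 1 = 0 := Nat.le_zero.1 (len_le [])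
    simp [secw, ev_nil, db_zero, this]
  | cons l y ih =>
    obtain ⟨b, hb⟩ := ih
    rcases l with σ | c
    · by_cases h : σ.1 0 = 0
      · refine ⟨b, ?_⟩
        rw [wt_cons]
        refine le_trans (le_of_eq (sum_congr rfl fun x _ => ?_)) (hb.trans (Nat.le_add_left _ _))
        have : (rtw (Sum.inl σ :: y)).1 x = 0 ↔ (rtw y).1 x = 0 := by
          show σ.1 ((rtw y).1 x) = 0 ↔ _
          rw [← h, σ.1.injective.eq_iff, h]
        simp only [this]; rfl
      · refine ⟨0, ?_⟩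
        have h2 : cm (Sum.inl σ) = 1 := if_neg h
        rw [wt_cons, h2, add_comm]
        refine le_trans (le_of_eq (sum_congr rfl fun x _ => ?_))
          ((fin_aux y b).trans (Nat.add_le_add_right hb 1))
        rw [db_zero, one_mul, ite_self]; rfl
    · refine ⟨b - ρ c, ?_⟩
      rw [wt_cons]
      refine le_trans (sum_le_sum fun x _ => ?_) (hb.trans (Nat.le_add_left _ _))
      have e : rtw (Sum.inr c :: y) = rtw y := one_mul _
      rw [e]
      simp only [secw, s1]
      split_ifs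
      · rw [List.singleton_append, ev_cons, ← mul_assoc]
        show len (db _ * db _ * _) ≤ _
        rw [← db_add, sub_add_cancel]
      · rw [List.singleton_append, ev_cons]
        have := len_mul (gen_mem (Sum.inl (lab c ((rtw y).1 x)))) (ev_mem (secw y x))
        have h2 : len (gen (Sum.inl (lab c ((rtw y).1 x)))) ≤ 0 := len_gen _
        omega

theorem S_one (y : List Lt) : S 1 (ev y) ≤ wt cm y + 1 := by
  obtain ⟨b, hb⟩ := S_one_aux y
  rw [S_succ]
  exact (fin_aux y b).trans (Nat.add_le_add_right hb 1)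

theorem S_step (k C : ℕ) (c c' : Lt → ℕ) (h : ∀ w, ∑ x, wt c (secw w x) = wt c' w)
    (hk : ∀ w, S k (ev w) ≤ wt c w + C) (w : List Lt) : S (k + 1) (ev w) ≤ wt c' w + 5 * C := by
  rw [S_succ, ← h]
  refine (sum_le_sum fun x _ => hk _).trans ?_
  simp [sum_add_distrib]

theorem S_four {g : P} (hg : g ∈ G) : 3 * S 4 g ≤ 2 * len g + 155 := by
  obtain ⟨w, rfl, e⟩ := exists_geo hg
  have a2 := S_step 1 1 _ _ sec_m S_one
  have a3 := S_step 2 _ _ _ sec_0 a2
  have a4 := S_step 3 _ _ _ sec_1 a3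
  have : S 2 (ev w) ≤ _ := a2 w
  have : S 3 (ev w) ≤ _ := a3 w
  have : S 4 (ev w) ≤ _ := a4 w
  have : S 3 (ev w) ≤ _ := S_mono 2 w
  have : S 4 (ev w) ≤ _ := S_mono 3 w
  have := t_sum w
  omega

def Bdd (k : ℕ) (r : ℝ) : Prop :=
  ∃ C : ℝ, ∀ T : Finset P, (∀ g ∈ T, g ∈ G) → ∑ g ∈ T, r ^ S k g ≤ C

theorem bdd_succ {k : ℕ} {r : ℝ} (hr : 0 ≤ r) (h : Bdd k r) : Bdd (k + 1) r := by
  classical
  obtain ⟨C, hC⟩ := h
  refine ⟨Fintype.card Al * C ^ 5, fun T hT => ?_⟩
  let T' : Finset P := T.biUnion fun g => univ.image (sc g)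
  have h1 := hC T' fun g hg => by
    obtain ⟨g, -, hg⟩ := mem_biUnion.1 hg
    obtain ⟨x, -, rfl⟩ := mem_image.1 hg
    exact ev_mem _
  let i : P → Al × (X → P) := fun g => (rtw (wd g), sc g)
  have hi : Set.InjOn i T := fun g hg g' hg' e => by
    rw [← (wd_spec (hT g hg)).1, ← (wd_spec (hT g' hg')).1, ev_eq, ev_eq (wd g')]
    have e1 : rtw (wd g) = rtw (wd g') := congrArg Prod.fst e
    have e2 : sc g = sc g' := congrArg Prod.snd e
    rw [e1]
    exact congrArg _ e2
  calc ∑ g ∈ T, r ^ S (k + 1) g = ∑ g ∈ T, ∏ x, r ^ S k ((i g).2 x) :=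
        sum_congr rfl fun g _ => by rw [S, prod_pow_eq_pow_sum]
    _ = ∑ p ∈ T.image i, ∏ x, r ^ S k (p.2 x) := (sum_image (f := fun p : Al × (X → P) =>
        ∏ x, r ^ S k (p.2 x)) hi).symm
    _ ≤ ∑ p ∈ univ ×ˢ Fintype.piFinset (fun _ : X => T'), ∏ x, r ^ S k (p.2 x) := by
        refine sum_le_sum_of_subset_of_nonneg (fun p hp => ?_) fun _ _ _ => by positivity
        obtain ⟨g, hg, rfl⟩ := mem_image.1 hp
        exact mem_product.2 ⟨mem_univ _, Fintype.mem_piFinset.2 fun x =>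
          mem_biUnion.2 ⟨g, hg, mem_image_of_mem _ (mem_univ x)⟩⟩
    _ = Fintype.card Al * (∑ g ∈ T', r ^ S k g) ^ 5 := by
        rw [sum_product]
        simp only [← prod_univ_sum (fun _ : X => T') fun _ g => r ^ S k g]
        simp
    _ ≤ _ := by
        have : 0 ≤ ∑ g ∈ T', r ^ S k g := sum_nonneg fun _ _ => by positivity
        gcongr

theorem bdd_step {t : ℝ} (h0 : 0 < t) (h1 : t ≤ 1) (h : Bdd 0 (t ^ 3)) : Bdd 0 (t ^ 2) := by
  have hr : 0 ≤ t ^ 3 := by positivity
  obtain ⟨C, hC⟩ := bdd_succ hr (bdd_succ hr (bdd_succ hr (bdd_succ hr h)))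
  refine ⟨C / t ^ 155, fun T hT => ?_⟩
  rw [le_div_iff₀ (by positivity), sum_mul]
  refine le_trans (sum_le_sum fun g hg => ?_) (hC T hT)
  rw [← pow_mul, ← pow_mul, ← pow_add]
  exact pow_le_pow_of_le_one h0.le h1 (S_four (hT g hg))

open Classical in
noncomputable def E : ℕ → Finset P
  | 0 => univ.image rt
  | n + 1 => ((univ : Finset (Al × B)) ×ˢ E n).image fun p => rt p.1.1 * (db p.1.2 * p.2)

theorem mem_E_zero {g : P} : g ∈ E 0 ↔ ∃ σ, rt σ = g := by
  simp only [E, mem_image, mem_univ, true_and]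

theorem mem_E_succ {n : ℕ} {g : P} : g ∈ E (n + 1) ↔ ∃ σ b, ∃ h ∈ E n, rt σ * (db b * h) = g := by
  simp only [E, mem_image, mem_product, mem_univ, true_and, Prod.exists]

theorem E_card (n : ℕ) : (E n).card ≤ 60 * 720 ^ n := by
  classical
  have hA : Fintype.card Al = 60 := by
    have := two_mul_card_alternatingGroup (α := X)
    rw [Fintype.card_perm, Fintype.card_fin] at this
    exact Nat.eq_of_mul_eq_mul_left two_pos this
  induction n with
  | zero => exact card_image_le.trans (by rw [card_univ, hA]; rfl)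
  | succ n ih =>
    refine card_image_le.trans ?_
    rw [card_product, card_univ, Fintype.card_prod, hA]
    have : Fintype.card B = 12 := rfl
    rw [this, pow_succ]
    omega

theorem E_rt (n : ℕ) (σ : Al) {g : P} (hg : g ∈ E n) : rt σ * g ∈ E n := by
  classical
  cases n with
  | zero =>
    obtain ⟨τ, rfl⟩ := mem_E_zero.1 hg
    exact mem_E_zero.2 ⟨σ * τ, rt_mul _ _⟩
  | succ n =>
    rw [mem_E_succ] at hg
    rw [mem_E_succ]
    refine hg.elim fun τ h1 => h1.elim fun b h2 => h2.elim fun h h3 => ⟨σ * τ, b, h, h3.1, ?_⟩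
    rw [rt_mul, mul_assoc, h3.2]

theorem mem_E (w : List Lt) : ev w ∈ E (wt cB w) := by
  classical
  induction w with
  | nil => exact mem_E_zero.2 ⟨1, rt_one⟩
  | cons l w ih =>
    rw [ev_cons, wt_cons]
    rcases l with σ | b
    · rw [show cB (Sum.inl σ) = 0 from rfl, zero_add]; exact E_rt _ σ ih
    · rw [show cB (Sum.inr b) = 1 from rfl, add_comm]
      rw [mem_E_succ]
      refine ⟨1, b, ev w, ih, ?_⟩
      rw [rt_one, one_mul]; rfl

theorem bdd_init : Bdd 0 (1 / 1440) := by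
  classical
  refine ⟨120, fun T hT => ?_⟩
  rw [← sum_fiberwise_of_maps_to (s := T) (t := range (T.sup len + 1)) (g := len)
    fun g hg => mem_range.2 (Nat.lt_succ_of_le (le_sup hg))]
  refine le_trans (sum_le_sum (g := fun n => 60 * (1 / 2 : ℝ) ^ n) fun n _ => ?_) ?_
  · have h1 : (T.filter fun g => len g = n) ⊆ E n := fun g hg => by
      obtain ⟨h1, h2⟩ := mem_filter.1 hg
      obtain ⟨w, rfl, e⟩ := exists_geo (hT g h1)
      rw [← h2, ← e]; exact mem_E w
    have h2 : ((T.filter fun g => len g = n).card : ℝ) ≤ 60 * 720 ^ n := by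
      exact_mod_cast (card_le_card h1).trans (E_card n)
    rw [sum_congr rfl (g := fun _ => (1 / 1440 : ℝ) ^ n) fun g hg => by
      rw [← (mem_filter.1 hg).2]; rfl, sum_const, nsmul_eq_mul]
    refine (mul_le_mul_of_nonneg_right h2 (by positivity)).trans (le_of_eq ?_)
    rw [mul_assoc, ← mul_pow]; norm_num
  · rw [← mul_sum]
    have := sum_geometric_two_le (T.sup len + 1)
    linarith

theorem bdd_all {s : ℝ} (h0 : 0 < s) (h1 : s < 1) : Bdd 0 s := by
  have h : ∀ n : ℕ, Bdd 0 ((1 / 1440 : ℝ) ^ ((2 / 3 : ℝ) ^ n)) := by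
    intro n
    induction n with
    | zero => simpa using bdd_init
    | succ n ih =>
      have := bdd_step (t := (1 / 1440 : ℝ) ^ ((2 / 3 : ℝ) ^ n / 3)) (by positivity)
        (Real.rpow_le_one (by norm_num) (by norm_num) (by positivity)) (by
          rw [← Real.rpow_natCast, ← Real.rpow_mul (by norm_num)]
          convert ih using 2; push_cast; ring)
      rw [← Real.rpow_natCast, ← Real.rpow_mul (by norm_num)] at this
      convert this using 2; push_cast; ring
  have ht : Tendsto (fun n : ℕ => (1 / 1440 : ℝ) ^ ((2 / 3 : ℝ) ^ n)) atTop (𝓝 1) := by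
    have := (tendsto_const_nhds (x := (1 / 1440 : ℝ))).rpow
      (tendsto_pow_atTop_nhds_zero_of_lt_one (r := (2 / 3 : ℝ)) (by norm_num) (by norm_num))
      (Or.inl (by norm_num))
    rwa [Real.rpow_zero] at this
  obtain ⟨n, hn⟩ := (ht.eventually (lt_mem_nhds h1)).exists
  obtain ⟨C, hC⟩ := h n
  exact ⟨C, fun T hT => le_trans (sum_le_sum fun g _ => pow_le_pow_left₀ h0.le hn.le _) (hC T hT)⟩

theorem ball_len (T : Finset P) (hT : ∀ g ∈ T, g ∈ G) : ∃ c : ℕ, ∀ r, ∀ g ∈ ball (T : Set P) r,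
    g ∈ G ∧ len g ≤ c * r := by
  refine ⟨T.sup fun g => len g + len g⁻¹, ?_⟩
  rintro r _ ⟨l, h1, h2, rfl⟩
  induction l generalizing r with
  | nil => exact ⟨one_mem _, (len_le []).trans (Nat.zero_le _)⟩
  | cons s l ih =>
    obtain ⟨h3, h4⟩ := ih l.length le_rfl fun x hx => h2 x (List.mem_cons_of_mem _ hx)
    have h5 : s ∈ G ∧ len s ≤ T.sup fun g => len g + len g⁻¹ := by
      rcases h2 s List.mem_cons_self with h | h
      · exact ⟨hT s h, (Nat.le_add_right _ _).trans (le_sup (f := fun g => len g + len g⁻¹) h)⟩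
      · refine ⟨by simpa using inv_mem (hT _ h), ?_⟩
        have := le_sup (f := fun g => len g + len g⁻¹) h
        simp only [inv_inv] at this
        omega
    rw [List.prod_cons]
    refine ⟨mul_mem h5.1 h3, (len_mul h5.1 h3).trans ?_⟩
    rw [List.length_cons] at h1
    nlinarith [h5.2]

theorem growth (T : Finset P) (hT : ∀ g ∈ T, g ∈ G) :
    Tendsto (fun r : ℕ => ((ball (T : Set P) r).ncard : ℝ) ^ (1 / r : ℝ)) atTop (𝓝 1) := by
  obtain ⟨c, hc⟩ := ball_len T hT
  have key : ∀ s : ℝ, 0 < s → s < 1 → ∃ C : ℝ, 0 < C ∧ ∀ r, ∀ U : Finset P,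
      (U : Set P) ⊆ ball (T : Set P) r → (U.card : ℝ) * s ^ (c * r) ≤ C := by
    intro s h0 h1
    obtain ⟨C, hC⟩ := bdd_all h0 h1
    refine ⟨max C 1, by positivity, fun r U hU => ?_⟩
    refine le_trans ?_ ((hC U fun g hg => (hc r g (hU hg)).1).trans (le_max_left _ _))
    rw [← nsmul_eq_mul, ← sum_const]
    exact sum_le_sum fun g hg => pow_le_pow_of_le_one h0.le h1.le (hc r g (hU hg)).2
  have hfin : ∀ r, (ball (T : Set P) r).Finite := by
    intro r
    by_contra hinf
    obtain ⟨C, -, hC⟩ := key (1 / 2) (by norm_num) (by norm_num)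
    obtain ⟨n, hn⟩ := exists_nat_gt (C / (1 / 2) ^ (c * r))
    obtain ⟨U, hU, e⟩ := Set.Infinite.exists_subset_card_eq hinf n
    have := hC r U hU
    rw [e] at this
    rw [div_lt_iff₀ (by positivity)] at hn
    linarith
  have hone : ∀ r, (1 : ℝ) ≤ (ball (T : Set P) r).ncard := fun r => by
    exact_mod_cast (Set.ncard_pos (hfin r)).2 ⟨1, [], by simp, by simp, rfl⟩
  refine tendsto_order.2 ⟨fun a ha => Eventually.of_forall fun r =>
    ha.trans_le (Real.one_le_rpow (hone r) (by positivity)), fun a ha => ?_⟩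
  obtain ⟨s, hs0, hs1, hs⟩ : ∃ s : ℝ, 0 < s ∧ s < 1 ∧ 1 < a * s ^ c := by
    have h1 : Tendsto (fun s : ℝ => a * s ^ c) (𝓝[<] 1) (𝓝 (a * 1 ^ c)) :=
      ((continuous_const.mul (continuous_pow c)).tendsto 1).mono_left nhdsWithin_le_nhds
    have h2 := h1.eventually (lt_mem_nhds (by simpa using ha : 1 < a * 1 ^ c))
    obtain ⟨s, h3, h4⟩ := (h2.and (Ioo_mem_nhdsLT (zero_lt_one' ℝ))).exists
    exact ⟨s, h4.1, h4.2, h3⟩
  obtain ⟨C, hC0, hC⟩ := key s hs0 hs1
  have h3 := (tendsto_pow_atTop_atTop_of_one_lt hs).eventually (eventually_gt_atTop C)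
  filter_upwards [h3, eventually_gt_atTop 0] with r hr hr0
  have h4 := hC r (hfin r).toFinset (by simp)
  rw [← Set.ncard_eq_toFinset_card _ (hfin r)] at h4
  have h5 : ((ball (T : Set P) r).ncard : ℝ) < a ^ r := by
    rw [mul_pow, ← pow_mul] at hr
    exact lt_of_mul_lt_mul_right (h4.trans_lt hr) (by positivity)
  have := Real.rpow_lt_rpow (by positivity) h5 (z := 1 / r) (by positivity)
  rwa [one_div, Real.pow_rpow_inv_natCast (by linarith) hr0.ne', ← one_div] at this

end Pool.Agent.H64.SubA5
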