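import Mathlib

/-! Groups of symplectic shears acting infinitely transitively. -/

namespace H64.SyGa

open Polynomial

section Coeff
variable {K : Type*} [Field K] [Infinite K]

lemma coeff_mem_sum {M : Type*} [AddCommGroup M] [Module K M] (W : Submodule K M) (D : ℕ)
    (m : ℕ → M) (h : ∀ t : K, ∑ k ∈ Finset.range D, t ^ k • m k ∈ W) (k : ℕ) (hk : k < D) :
    m k ∈ W := by
  by_contra hn
  obtain ⟨f, hf, hW⟩ := W.exists_dual_map_eq_bot_of_notMem hn inferInstance
  have hz : ∀ x ∈ W, f x = 0 := fun x hx => by
    have : f x ∈ W.map f := Submodule.mem_map_of_mem hx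
    rwa [hW, Submodule.mem_bot] at this
  let p : K[X] := ∑ j ∈ Finset.range D, monomial j (f (m j))
  have hp : p = 0 := by
    apply Polynomial.funext
    intro t
    have := hz _ (h t)
    simp only [map_sum, map_smul, smul_eq_mul] at this
    simp only [p, eval_finsetSum, eval_monomial, eval_zero]
    rw [← this]
    exact Finset.sum_congr rfl fun j _ => mul_comm _ _
  have : p.coeff k = f (m k) := by
    simp only [p, finsetSum_coeff, coeff_monomial]
    rw [Finset.sum_eq_single k]
    · simp
    · intro j _ hj; simp [hj]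
    · intro hh; exact absurd (Finset.mem_range.2 hk) hh
  rw [hp] at this
  exact hf (by simpa using this.symm)

lemma coeff_mem_poly {R : Type*} [CommRing R] [Algebra K R] (W : Submodule K R) (p : R[X])
    (h : ∀ t : K, p.eval (algebraMap K R t) ∈ W) (k : ℕ) : p.coeff k ∈ W := by
  by_cases hk : k < p.natDegree + 1
  · refine coeff_mem_sum W (p.natDegree + 1) p.coeff (fun t => ?_) k hk
    have := h t
    rw [eval_eq_sum_range] at this
    have e : ∑ k ∈ Finset.range (p.natDegree + 1), t ^ k • p.coeff k =
        ∑ i ∈ Finset.range (p.natDegree + 1), p.coeff i * algebraMap K R t ^ i :=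
      Finset.sum_congr rfl fun j _ => by rw [Algebra.smul_def, map_pow, mul_comm]
    rw [e]; exact this
  · rw [coeff_eq_zero_of_natDegree_lt (by omega)]; exact W.zero_mem

end Coeff

section In
variable {V : Type*} (H : Subgroup (Equiv.Perm V))

def In (f : V → V) : Prop := ∃ h ∈ H, ∀ x, h x = f x

variable {H}

lemma In.id : In H (fun x => x) := ⟨1, H.one_mem, fun _ => rfl⟩

lemma In.congr {f g : V → V} (hf : In H f) (e : ∀ x, g x = f x) : In H g := by
  obtain ⟨h, hh, e'⟩ := hf
  exact ⟨h, hh, fun x => (e' x).trans (e x).symm⟩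

lemma In.comp {f g : V → V} (hf : In H f) (hg : In H g) : In H (fun x => f (g x)) := by
  obtain ⟨h, hh, e⟩ := hf
  obtain ⟨h', hh', e'⟩ := hg
  exact ⟨h * h', H.mul_mem hh hh', fun x => by simp [e, e']⟩

lemma In.cancel {f k g : V → V} (hf : In H f) (hk : In H k) (e : ∀ x, g (f x) = k x) :
    In H g := by
  obtain ⟨h, hh, e1⟩ := hf
  obtain ⟨h', hh', e2⟩ := hk
  refine ⟨h' * h⁻¹, H.mul_mem hh' (H.inv_mem hh), fun x => ?_⟩
  have := e (h⁻¹ x)
  rw [← e1, ← e2] at this
  simpa using this.symm

end In

section Shear
variable {K : Type*} [Field K] {V : Type*} [AddCommGroup V] [Module K V]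
  (om : V →ₗ[K] V →ₗ[K] K)

def T (v : V) (g : K → K) : V → V := fun x => x + g (om v x) • v

variable {om} (alt : ∀ v, om v v = 0) {H : Subgroup (Equiv.Perm V)}
include alt

lemma skew (x y : V) : om x y = - om y x := by
  have := alt (x + y)
  simp only [map_add, LinearMap.add_apply, alt] at this
  linear_combination this

lemma T_comp (v : V) (g h : K → K) (x : V) :
    T om v g (T om v h x) = T om v (fun s => g s + h s) x := by
  simp only [T, map_add, map_smul, alt, smul_eq_mul, mul_zero, add_zero, add_smul]
  abel

lemma In_add {v : V} {g h : K → K} (hg : In H (T om v g)) (hh : In H (T om v h)) :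
    In H (T om v (fun s => g s + h s)) :=
  (hg.comp hh).congr fun x => (T_comp alt v g h x).symm

lemma In_neg {v : V} {g : K → K} (hg : In H (T om v g)) : In H (T om v (fun s => - g s)) :=
  hg.cancel In.id fun x => by rw [T_comp alt]; simp [T]

lemma conjT {u v : V} {c : K} {g : K → K} (hu : In H (T om u (fun s => c * s)))
    (hv : In H (T om v g)) : In H (T om (v + (c * om u v) • u) g) := by
  refine hu.cancel (hu.comp hv) fun x => ?_
  have e : om (v + (c * om u v) • u) (x + (c * om u x) • u) = om v x := by
    simp only [map_add, map_smul, LinearMap.add_apply, LinearMap.smul_apply, alt, smul_eq_mul,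
      skew alt v u]
    ring
  have e2 : om u (x + g (om v x) • v) = om u x + g (om v x) * om u v := by
    simp only [map_add, map_smul, smul_eq_mul]
  unfold T
  rw [e, e2]
  module

omit alt in
lemma T_smul (v : V) (r : K) (g : K → K) (x : V) :
    T om (r • v) g x = T om v (fun s => r * g (r * s)) x := by
  simp only [T, map_smul, LinearMap.smul_apply, smul_eq_mul, smul_smul, mul_comm]

variable (om H) in
def S (v : V) : Prop := ∀ c : K, In H (T om v (fun s => c * s))

omit alt in
lemma S_zero : S om H 0 := fun _ => In.id.congr fun x => by simp [T]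

omit alt in
lemma S_smul {v : V} (hv : S om H v) (r : K) : S om H (r • v) := fun c =>
  (hv (r * c * r)).congr fun x => by
    rw [T_smul]; simp only [T]; congr 2; ring

lemma move_add {u v : V} {g : K → K} (hu : S om H u) (h : om u v ≠ 0) (a : K)
    (hv : In H (T om v g)) : In H (T om (v + a • u) g) := by
  have := conjT alt (hu (a / om u v)) hv
  rwa [div_mul_cancel₀ _ h] at this

lemma S_add {u v : V} (hu : S om H u) (hv : S om H v) (h : om u v ≠ 0) (a : K) :
    S om H (v + a • u) := fun c => move_add alt hu h a (hv c)

lemma S_add' {w v z : V} (hw : S om H w) (hv : S om H v) (hz : S om H z) (h1 : om z w ≠ 0)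
    (h2 : om z v ≠ 0) (h3 : om z (w + v) ≠ 0) : S om H (w + v) := by
  by_cases h : om v w = 0
  · have a1 := S_add alt hz hw h1 1
    have a2 := S_add alt hv a1 (by
      simp only [map_add, map_smul, h, one_smul, zero_add, skew alt v z]
      exact neg_ne_zero.2 h2) 1
    have a3 := S_add alt hz a2 (by
      simp only [map_add, map_smul, alt, smul_eq_mul, mul_zero, add_zero, one_mul] at h3 ⊢
      exact h3) (-1)
    have e : w + (1 : K) • z + (1 : K) • v + (-1 : K) • z = w + v := by module
    rwa [e] at a3
  · simpa using S_add alt hv hw h 1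

end Shear

end H64.SyGa
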