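import Pool.Agent.H64.SyGa1

namespace H64.SyGa

open Polynomial

variable {K : Type*} [Field K] [CharZero K] {V : Type*} [AddCommGroup V] [Module K V]
  {om : V →ₗ[K] V →ₗ[K] K} (alt : ∀ v, om v v = 0) (nd : ∀ x, (∀ y, om y x = 0) → x = 0)
  {H : Subgroup (Equiv.Perm V)}

section Curve
variable (D : ℕ) (w : ℕ → V) (hw : ∀ W : Submodule K V, (∀ k < D, w k ∈ W) → W = ⊤)
include nd hw

lemma curve_finite {x : V} (hx : x ≠ 0) :
    {t : K | om (∑ k ∈ Finset.range D, t ^ k • w k) x = 0}.Finite := by
  classical
  let p : K[X] := ∑ j ∈ Finset.range D, monomial j (om (w j) x)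
  have hev : ∀ t : K, p.eval t = om (∑ k ∈ Finset.range D, t ^ k • w k) x := fun t => by
    simp only [p, eval_finsetSum, eval_monomial, map_sum, map_smul, LinearMap.sum_apply,
      LinearMap.smul_apply, smul_eq_mul]
    exact Finset.sum_congr rfl fun j _ => mul_comm _ _
  have hp : p ≠ 0 := by
    intro h0
    have : LinearMap.ker (om.flip x) = ⊤ := hw _ fun k hk =>
      coeff_mem_sum _ D w (fun t => by
        rw [LinearMap.mem_ker, LinearMap.flip_apply, ← hev, h0, eval_zero]) k hk
    apply hx
    apply nd
    intro y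
    have hy : y ∈ LinearMap.ker (om.flip x) := this ▸ Submodule.mem_top
    exact hy
  refine (p.roots.toFinset.finite_toSet).subset fun t ht => ?_
  simp only [Finset.mem_coe, Multiset.mem_toFinset, mem_roots hp, IsRoot.def, hev]
  exact ht

include alt in
lemma S_all (hS : ∀ t : K, S om H (∑ k ∈ Finset.range D, t ^ k • w k)) (v : V) : S om H v := by
  let W : Submodule K V :=
    { carrier := {v | S om H v}
      zero_mem' := S_zero
      smul_mem' := fun r _ hv => S_smul hv r
      add_mem' := fun {a b} ha hb => by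
        by_cases h1 : a = 0
        · simpa [h1] using hb
        by_cases h2 : b = 0
        · simpa [h2] using ha
        by_cases h3 : a + b = 0
        · rw [h3]; exact S_zero
        obtain ⟨t, ht⟩ := (((curve_finite nd D w hw h1).union (curve_finite nd D w hw h2)).union
          (curve_finite nd D w hw h3)).exists_notMem
        simp only [Set.mem_union, Set.mem_setOf_eq, not_or] at ht
        exact S_add' alt ha hb (hS t) ht.1.1 ht.1.2 ht.2 }
  have : W = ⊤ := hw W fun k hk => coeff_mem_sum W D w hS k hk
  have hv : v ∈ W := this ▸ Submodule.mem_top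
  exact hv

end Curve

include nd in
lemma generic {ι : Type*} [Finite ι] (x : ι → V) (hx : ∀ i, x i ≠ 0) : ∃ z, ∀ i, om z (x i) ≠ 0 :=
  Module.Dual.exists_forall_ne_zero_of_forall_exists (fun i => om.flip (x i)) fun i => by
    by_contra hc
    push Not at hc
    exact hx i (nd _ hc)

section All
variable (hS : ∀ v, S om H v)
include alt hS

omit [CharZero K] in
lemma transport1 {v u : V} {g : K → K} (h : om u v ≠ 0) (hv : In H (T om v g)) :
    In H (T om u g) := by
  have := move_add alt (hS (u - v)) (v := v) (by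
    simpa [map_sub, LinearMap.sub_apply, alt] using h) 1 hv
  simpa using this

include nd in
lemma transport {v : V} {g : K → K} (h : v ≠ 0) (hv : In H (T om v g)) (u : V) :
    In H (T om u g) := by
  by_cases hu : u = 0
  · exact In.id.congr fun x => by simp [T, hu]
  obtain ⟨z, hz⟩ := generic nd ![v, u] (fun i => by fin_cases i <;> simpa)
  have h1 : om z v ≠ 0 := hz 0
  have h2 : om z u ≠ 0 := hz 1
  exact transport1 alt hS (by rw [skew alt]; exact neg_ne_zero.2 h2) (transport1 alt hS h1 hv)

end All

variable (om H) in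
def W : Submodule K (K → K) where
  carrier := {g | ∀ (c : K) (v : V), (∀ v, om v v = 0) → In H (T om v (fun s => c * g s))}
  zero_mem' := fun c v _ => In.id.congr fun x => by simp [T]
  smul_mem' := fun r g hg c v a => (hg (c * r) v a).congr fun x => by
    simp [T, mul_assoc]
  add_mem' := fun {g h} hg hh c v a => (In_add a (hg c v a) (hh c v a)).congr fun x => by
    simp [T, mul_add]

omit [CharZero K] in
lemma W_scale {g : K → K} (hg : g ∈ W om H) {r : K} (hr : r ≠ 0) :
    (fun s => g (r * s)) ∈ W om H := fun c v a =>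
  (hg (c / r) (r • v) a).congr fun x => by
    rw [T_smul]; simp only [T]; congr 2; field_simp

lemma W_base (h : (fun s : K => s ^ 2 + 1) ∈ W om H) :
    (fun s : K => s ^ 2) ∈ W om H ∧ (fun _ : K => (1 : K)) ∈ W om H := by
  have h2 := W_scale h (r := 2) two_ne_zero
  have h3 : (fun s : K => s ^ 2) ∈ W om H := by
    have := (W om H).smul_mem (1 / 3 : K) ((W om H).sub_mem h2 h)
    have e : (fun s : K => s ^ 2) = (1 / 3 : K) • ((fun s : K => (2 * s) ^ 2 + 1) -
      fun s : K => s ^ 2 + 1) := by
      funext s; simp only [Pi.smul_apply, Pi.sub_apply, smul_eq_mul]; ring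
    rw [e]; exact this
  refine ⟨h3, ?_⟩
  have := (W om H).sub_mem h h3
  have e : (fun _ : K => (1 : K)) = (fun s : K => s ^ 2 + 1) - fun s : K => s ^ 2 := by
    funext s; simp
  rw [e]; exact this

omit [CharZero K] in
include nd in
lemma W_shift (h1 : (fun _ : K => (1 : K)) ∈ W om H) {g : K → K} (hg : g ∈ W om H) (r : K) :
    (fun s => g (s + r)) ∈ W om H := fun c v a => by
  by_cases hv : v = 0
  · exact In.id.congr fun x => by simp [T, hv]
  have : ∃ y, om y v ≠ 0 := by
    by_contra hc
    push Not at hc
    exact hv (nd _ hc)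
  obtain ⟨y, hy⟩ := this
  have t1 := h1 (- r / om y v) y a
  have t2 := h1 (r / om y v) y a
  refine (t2.comp ((hg c v a).comp t1)).congr fun x => ?_
  have e : om v (x + (-r / om y v * 1) • y) = om v x + r := by
    simp only [map_add, map_smul, smul_eq_mul, skew a v y]
    field_simp
  unfold T
  rw [e]
  module

include nd in
lemma W_down (h1 : (fun _ : K => (1 : K)) ∈ W om H) {m : ℕ} (hm : (fun s : K => s ^ m) ∈ W om H)
    {j : ℕ} (hj : j ≤ m) : (fun s : K => s ^ j) ∈ W om H := by
  have := coeff_mem_poly (W om H) ((X + C (fun s : K => s)) ^ m) (fun t => by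
    have := W_shift nd h1 hm t
    have e : eval (algebraMap K (K → K) t) ((X + C (fun s : K => s)) ^ m) =
        fun s => (s + t) ^ m := by
      funext s
      simp [add_comm]
    rw [e]; exact this) (m - j)
  rw [coeff_X_add_C_pow] at this
  have hc : ((m.choose (m - j) : ℕ) : K) ≠ 0 :=
    Nat.cast_ne_zero.2 (Nat.choose_pos (Nat.sub_le _ _)).ne'
  have h2 := (W om H).smul_mem (((m.choose (m - j) : ℕ) : K)⁻¹) this
  have e : (fun s : K => s ^ j) = (((m.choose (m - j) : ℕ) : K)⁻¹) •
      ((fun s : K => s) ^ (m - (m - j)) * (m.choose (m - j) : K → K)) := by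
    funext s
    simp only [Pi.smul_apply, Pi.mul_apply, Pi.pow_apply, Pi.natCast_apply, smul_eq_mul,
      Nat.sub_sub_self hj]
    field_simp
  rw [e]; exact h2

end H64.SyGa
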