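import Pool.Agent.H64.SyGa2

namespace H64.SyGa

open Polynomial

variable {K : Type*} [Field K] [CharZero K] {V : Type*} [AddCommGroup V] [Module K V]
  {om : V →ₗ[K] V →ₗ[K] K} (alt : ∀ v, om v v = 0) (nd : ∀ x, (∀ y, om y x = 0) → x = 0)
  {H : Subgroup (Equiv.Perm V)}

section Up
variable {a a' b : V} (h1 : om a a' = 1) (h2 : om a b = 0) (h3 : om a' b = 0)

variable (H) in
def W2 : Submodule K ((K × K → K) × (K × K → K)) where
  carrier := {q | ∀ c : K, In H (fun x => x + (c * q.1 (om a x, om b x)) • a +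
    (c * q.2 (om a x, om b x)) • b)}
  zero_mem' := fun c => In.id.congr fun x => by simp
  smul_mem' := fun r g hg c => (hg (c * r)).congr fun x => by simp [mul_assoc]
  add_mem' := fun {g h} hg hh c => ((hg c).comp (hh c)).congr fun x => by
    have h2' : om b a = 0 := by rw [skew alt, h2, neg_zero]
    simp only [map_add, map_smul, alt, h2, h2', smul_eq_mul, mul_zero, add_zero, Prod.fst_add,
      Prod.snd_add, Pi.add_apply]
    module

include alt h3 in
lemma P_in (hq : (fun s : K => s ^ 2) ∈ W om H) (t : K) :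
    In H (fun x => x + (t * om b x ^ 2) • a' + (2 * t * om a' x * om b x) • b) := by
  have h3' : om b a' = 0 := by rw [skew alt, h3, neg_zero]
  refine ((hq (t / 2) (a' + b) alt).comp ((hq (t / 2) (a' - b) alt).comp
    (hq (-t) a' alt))).congr fun x => ?_
  simp only [T, map_add, map_sub, map_smul, LinearMap.add_apply, LinearMap.sub_apply, alt, h3, h3',
    smul_eq_mul, mul_zero, add_zero, sub_zero]
  match_scalars <;> ring

include alt nd h1 h2 h3 in
lemma W_up (hS : ∀ v, S om H v) (hb : b ≠ 0) (hq : (fun s : K => s ^ 2) ∈ W om H) {k : ℕ}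
    (hk : (fun s : K => s ^ k) ∈ W om H) : (fun s : K => s ^ (2 * k + 1)) ∈ W om H := by
  have h3' : om b a' = 0 := by rw [skew alt, h3, neg_zero]
  have h2' : om b a = 0 := by rw [skew alt, h2, neg_zero]
  have h1' : om a' a = -1 := by rw [skew alt, h1]
  let A : (K × K → K) × (K × K → K) := (fun z => z.1, fun z => z.1)
  let B : (K × K → K) × (K × K → K) := (fun z => z.2 ^ 2, fun z => z.2 ^ 2)
  let E : (K × K → K) × (K × K → K) := (1, 0)
  let F : (K × K → K) × (K × K → K) := (0, fun z => 2 * z.2)
  have key := coeff_mem_poly (W2 alt H h2) ((C A + C B * X) ^ k * (C E + C F * X)) (fun t c => by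
    refine ((P_in alt h3 hq (-t)).comp ((hk c a alt).comp (P_in alt h3 hq t))).congr fun x => ?_
    have e1 : (eval (algebraMap K _ t) ((C A + C B * X) ^ k * (C E + C F * X))).1
        (om a x, om b x) = (om a x + t * om b x ^ 2) ^ k := by
      simp only [eval_mul, eval_pow, eval_add, eval_C, eval_X, Prod.fst_mul, Prod.pow_fst,
        Prod.fst_add, Pi.mul_apply, Pi.pow_apply, Pi.add_apply, A, B, E, F, Prod.algebraMap_apply,
        Pi.algebraMap_apply, Algebra.algebraMap_self, RingHom.id_apply, Pi.one_apply,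
        Pi.zero_apply]
      ring
    have e2 : (eval (algebraMap K _ t) ((C A + C B * X) ^ k * (C E + C F * X))).2
        (om a x, om b x) = (om a x + t * om b x ^ 2) ^ k * (2 * om b x * t) := by
      simp only [eval_mul, eval_pow, eval_add, eval_C, eval_X, Prod.snd_mul, Prod.pow_snd,
        Prod.snd_add, Pi.mul_apply, Pi.pow_apply, Pi.add_apply, A, B, E, F, Prod.algebraMap_apply,
        Pi.algebraMap_apply, Algebra.algebraMap_self, RingHom.id_apply, Pi.one_apply,
        Pi.zero_apply]
      ring
    rw [e1, e2]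
    simp only [T, map_add, map_smul, alt, h1, h2, h3, h1', h2', h3', smul_eq_mul, mul_zero,
      add_zero, mul_one]
    match_scalars <;> ring) (k * 1 + 1)
  have d1 : (C A + C B * X).natDegree ≤ 1 := by compute_degree
  have d2 : (C E + C F * X).natDegree ≤ 1 := by compute_degree
  rw [coeff_mul_add_eq_of_natDegree_le ((natDegree_pow_le).trans (Nat.mul_le_mul_left k d1)) d2,
    coeff_pow_of_natDegree_le d1] at key
  intro c v _
  refine transport alt nd hS hb ((key (c / 2)).congr fun x => ?_) v
  simp only [T, coeff_add, coeff_C_mul, coeff_X_one, coeff_C, one_ne_zero, if_false, zero_add,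
    mul_one, Prod.fst_mul, Prod.snd_mul, Prod.pow_fst, Prod.pow_snd, Pi.mul_apply, Pi.pow_apply,
    B, F, Pi.zero_apply, mul_zero, zero_smul, add_zero]
  congr 2
  ring

include alt nd h1 h2 h3 in
lemma W_poly (hS : ∀ v, S om H v) (hb : b ≠ 0) (h : (fun s : K => s ^ 2 + 1) ∈ W om H)
    (p : K[X]) : (fun s => p.eval s) ∈ W om H := by
  obtain ⟨hq, ho⟩ := W_base h
  have hall : ∀ k : ℕ, (fun s : K => s ^ k) ∈ W om H := by
    intro k
    induction k with
    | zero => simpa using ho
    | succ k ih => exact W_down nd ho (W_up alt nd h1 h2 h3 hS hb hq ih) (by omega)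
  induction p using Polynomial.induction_on' with
  | add p q hp hq' =>
    have := (W om H).add_mem hp hq'
    have e : (fun s => (p + q).eval s) = (fun s => p.eval s) + fun s => q.eval s := by
      funext s; simp
    rw [e]; exact this
  | monomial n r =>
    have := (W om H).smul_mem r (hall n)
    have e : (fun s => (monomial n r).eval s) = r • fun s : K => s ^ n := by
      funext s; simp
    rw [e]; exact this

end Up

section Trans
variable (hp : ∀ p : K[X], (fun s => p.eval s) ∈ W om H)
include alt hp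

omit [CharZero K] in
lemma move1 (A : Finset V) {x y : V} (h : ∀ a ∈ A, om (y - x) (x - a) ≠ 0) :
    ∃ g ∈ H, g x = y ∧ ∀ a ∈ A, g a = a := by
  let p : K[X] := ∏ a ∈ A, C (om (y - x) (x - a))⁻¹ * (X - C (om (y - x) a))
  obtain ⟨g, hg, e⟩ := hp p 1 (y - x) alt
  refine ⟨g, hg, ?_, fun a ha => ?_⟩
  · have : p.eval (om (y - x) x) = 1 := by
      simp only [p, eval_prod, eval_mul, eval_C, eval_sub, eval_X]
      refine Finset.prod_eq_one fun a ha => ?_
      rw [← map_sub]
      exact inv_mul_cancel₀ (h a ha)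
    rw [e]; simp only [T, this]; simp
  · have : p.eval (om (y - x) a) = 0 := by
      simp only [p, eval_prod, eval_mul, eval_C, eval_sub, eval_X]
      exact Finset.prod_eq_zero ha (by simp)
    rw [e]; simp only [T, this]; simp

include nd in
lemma move (A : Finset V) {x y : V} (hx : x ∉ A) (hy : y ∉ A) :
    ∃ g ∈ H, g x = y ∧ ∀ a ∈ A, g a = a := by
  classical
  obtain ⟨u, hu⟩ := generic nd (ι := A ⊕ A) (Sum.elim (fun a => x - a) (fun a => y - a)) (by
    rintro (a | a)
    · exact sub_ne_zero.2 fun e => hx (e ▸ a.2)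
    · exact sub_ne_zero.2 fun e => hy (e ▸ a.2))
  obtain ⟨r, hr⟩ := Infinite.exists_notMem_finset
    (A.image (fun a => om x (x - a) / om u (x - a)) ∪ A.image (fun a => om y (y - a) / om u (y - a)))
  simp only [Finset.mem_union, Finset.mem_image, not_or, not_exists, not_and] at hr
  obtain ⟨g1, hg1, e1, f1⟩ := move1 alt hp A (x := x) (y := r • u) (fun a ha h0 => by
    have hne : om u (x - a) ≠ 0 := hu (Sum.inl ⟨a, ha⟩)
    apply hr.1 a ha
    rw [map_sub om, map_smul, LinearMap.sub_apply, LinearMap.smul_apply, smul_eq_mul] at h0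
    field_simp
    linear_combination -h0)
  obtain ⟨g2, hg2, e2, f2⟩ := move1 alt hp A (x := y) (y := r • u) (fun a ha h0 => by
    have hne : om u (y - a) ≠ 0 := hu (Sum.inr ⟨a, ha⟩)
    apply hr.2 a ha
    rw [map_sub om, map_smul, LinearMap.sub_apply, LinearMap.smul_apply, smul_eq_mul] at h0
    field_simp
    linear_combination -h0)
  refine ⟨g2⁻¹ * g1, H.mul_mem (H.inv_mem hg2) hg1, ?_, fun a ha => ?_⟩
  · rw [Equiv.Perm.mul_apply, e1, ← e2]; simp
  · rw [Equiv.Perm.mul_apply, f1 a ha, Equiv.Perm.inv_eq_iff_eq, f2 a ha]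

include nd in
lemma trans (m : ℕ) (x y : Fin m → V) (hx : Function.Injective x) (hy : Function.Injective y) :
    ∃ g ∈ H, ∀ i, g (x i) = y i := by
  classical
  induction m with
  | zero => exact ⟨1, H.one_mem, fun i => i.elim0⟩
  | succ m ih =>
    obtain ⟨g, hg, e⟩ := ih (fun i => x i.succ) (fun i => y i.succ)
      (hx.comp (Fin.succ_injective m)) (hy.comp (Fin.succ_injective m))
    obtain ⟨g', hg', e1, e2⟩ := move alt nd hp (Finset.univ.image fun i : Fin m => y i.succ)
      (x := g (x 0)) (y := y 0) (by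
        simp only [Finset.mem_image, Finset.mem_univ, true_and, not_exists]
        intro i hi
        rw [← e i] at hi
        exact Fin.succ_ne_zero i (hx (g.injective hi))) (by
        simp only [Finset.mem_image, Finset.mem_univ, true_and, not_exists]
        intro i hi
        exact Fin.succ_ne_zero i (hy hi))
    refine ⟨g' * g, H.mul_mem hg' hg, fun i => ?_⟩
    refine Fin.cases ?_ (fun i => ?_) i
    · exact e1
    · rw [Equiv.Perm.mul_apply, e i]
      exact e2 _ (Finset.mem_image_of_mem _ (Finset.mem_univ i))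

end Trans

include alt nd in
theorem main (D : ℕ) (w : ℕ → V) (hw : ∀ W : Submodule K V, (∀ k < D, w k ∈ W) → W = ⊤)
    (hS : ∀ t : K, S om H (∑ k ∈ Finset.range D, t ^ k • w k)) {v : V} (hv : v ≠ 0)
    (hc : ∀ c : K, In H (T om v (fun s => c * (s ^ 2 + 1))))
    {a a' b : V} (h1 : om a a' = 1) (h2 : om a b = 0) (h3 : om a' b = 0) (hb : b ≠ 0)
    (m : ℕ) (x y : Fin m → V) (hx : Function.Injective x) (hy : Function.Injective y) :
    ∃ g ∈ H, ∀ i, g (x i) = y i := by
  have hS' := S_all alt nd D w hw hS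
  exact trans alt nd (W_poly alt nd h1 h2 h3 hS' hb fun c u _ => transport alt nd hS' hv (hc c) u)
    m x y hx hy

end H64.SyGa
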