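import Pool.Agent.H64.SyGa3

namespace H64.SyGa

open Matrix

variable {K : Type*} [Field K] {ι : Type*} [Fintype ι] [DecidableEq ι]

section Rank
variable (N : Matrix ι ι K) (ρ : ι → ℕ) (h1 : ∀ i j, N i j ≠ 0 → ρ i = ρ j + 1)
include h1

lemma pow_entry (k : ℕ) : ∀ i j, (N ^ k) i j ≠ 0 → ρ i = ρ j + k := by
  induction k with
  | zero =>
    intro i j h
    by_cases e : i = j
    · simp [e]
    · simp [one_apply_ne e] at h
  | succ k ih =>
    intro i j h
    rw [pow_succ, mul_apply] at h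
    obtain ⟨l, -, hl⟩ := Finset.exists_ne_zero_of_sum_ne_zero h
    have a1 := ih i l (left_ne_zero_of_mul hl)
    have a2 := h1 l j (right_ne_zero_of_mul hl)
    omega

lemma pow_zero' (D : ℕ) (hD : ∀ i, ρ i < D) : N ^ D = 0 := by
  ext i j
  by_contra h
  have := pow_entry N ρ h1 D i j h
  have := hD i
  omega

lemma col (hρ : Function.Injective ρ) (i0 : ι) (h0 : ρ i0 = 0)
    (h2 : ∀ i k, ρ i = k + 1 → ∃ j, ρ j = k ∧ N i j ≠ 0) (k : ℕ) :
    ∀ i, ρ i = k → ∃ c : K, c ≠ 0 ∧ (N ^ k).mulVec (Pi.single i0 1) = c • Pi.single i 1 := by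
  induction k with
  | zero =>
    intro i hi
    have : i = i0 := hρ (hi.trans h0.symm)
    exact ⟨1, one_ne_zero, by rw [pow_zero, one_mulVec, one_smul, this]⟩
  | succ k ih =>
    intro i hi
    obtain ⟨j, hj, hN⟩ := h2 i k hi
    obtain ⟨c, hc, e⟩ := ih j hj
    refine ⟨c * N i j, mul_ne_zero hc hN, ?_⟩
    rw [pow_succ', ← mulVec_mulVec, e, mulVec_smul, mulVec_single_one]
    funext l
    by_cases hl : l = i
    · simp [hl]
    · have : N l j = 0 := by
        by_contra hh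
        exact hl (hρ ((h1 l j hh).trans (by omega)))
      simp [hl, this]

lemma span_top [CharZero K] (D : ℕ) (hD : ∀ i, ρ i < D) (hρ : Function.Injective ρ) (i0 : ι)
    (h0 : ρ i0 = 0) (h2 : ∀ i k, ρ i = k + 1 → ∃ j, ρ j = k ∧ N i j ≠ 0)
    (W : Submodule K (ι → K))
    (hW : ∀ k < D, ((k.factorial : K)⁻¹ • N ^ k).mulVec (Pi.single i0 1) ∈ W) : W = ⊤ := by
  have hs : ∀ i, (Pi.single i 1 : ι → K) ∈ W := fun i => by
    obtain ⟨c, hc, e⟩ := col N ρ h1 hρ i0 h0 h2 (ρ i) i rfl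
    have := hW _ (hD i)
    rw [smul_mulVec, e, smul_smul] at this
    exact (W.smul_mem_iff (mul_ne_zero (inv_ne_zero
      (Nat.cast_ne_zero.2 (Nat.factorial_ne_zero _))) hc)).1 this
  rw [eq_top_iff]
  intro x _
  rw [pi_eq_sum_univ' x]
  exact W.sum_mem fun i _ => W.smul_mem _ (hs i)

end Rank

section Exp
variable [CharZero K]

def E (N : Matrix ι ι K) (D : ℕ) (t : K) : Matrix ι ι K :=
  ∑ k ∈ Finset.range D, t ^ k • ((k.factorial : K)⁻¹ • N ^ k)

variable {N : Matrix ι ι K} {D : ℕ} (hN : N ^ D = 0)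
include hN

lemma E_eq (t : K) : E N D t = IsNilpotent.exp (t • N) := by
  rw [IsNilpotent.exp_eq_sum (k := D) (by rw [smul_pow, hN, smul_zero])]
  refine Finset.sum_congr rfl fun k _ => ?_
  ext i j
  simp [smul_pow, Rat.smul_def]
  ring

lemma E_zero : E N D 0 = 1 := by rw [E_eq hN]; simp

lemma E_add (s t : K) : E N D (s + t) = E N D s * E N D t := by
  rw [E_eq hN, E_eq hN, E_eq hN, add_smul]
  exact IsNilpotent.exp_add_of_commute (((Commute.refl N).smul_left s).smul_right t)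
    (IsNilpotent.smul ⟨D, hN⟩ s) (IsNilpotent.smul ⟨D, hN⟩ t)

lemma E_symp {O : Matrix ι ι K} (hO : Nᵀ * O = - (O * N)) (t : K) :
    (E N D t)ᵀ * O * E N D t = O := by
  have hk : ∀ k : ℕ, (N ^ k)ᵀ * O = (-1 : K) ^ k • (O * N ^ k) := by
    intro k
    induction k with
    | zero => simp
    | succ k ih =>
      conv_lhs => rw [pow_succ N, transpose_mul, Matrix.mul_assoc, ih, Matrix.mul_smul,
        ← Matrix.mul_assoc, hO]
      rw [pow_succ (-1 : K), pow_succ' N]
      simp [Matrix.mul_assoc]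
  have : (E N D t)ᵀ * O = O * E N D (-t) := by
    simp only [E, transpose_sum, transpose_smul, Finset.sum_mul, Finset.mul_sum, Matrix.smul_mul,
      Matrix.mul_smul, hk, smul_smul]
    refine Finset.sum_congr rfl fun k _ => ?_
    congr 1
    rw [neg_pow t]; ring
  rw [this, Matrix.mul_assoc, ← E_add hN, neg_add_cancel, E_zero hN, Matrix.mul_one]

end Exp

section Concrete
variable (K) (n : ℕ)

def A : Matrix (Fin n) (Fin n) K := Matrix.of fun i j => if (j : ℕ) = i + 1 then 1 else 0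
def B : Matrix (Fin n) (Fin n) K := Matrix.of fun i j => if (i : ℕ) = 0 ∧ (j : ℕ) = 0 then 1 else 0
def NN : Matrix (Fin n ⊕ Fin n) (Fin n ⊕ Fin n) K := fromBlocks (A K n) 0 (B K n) (-(A K n)ᵀ)
def OO : Matrix (Fin n ⊕ Fin n) (Fin n ⊕ Fin n) K := fromBlocks 0 1 (-1) 0
def rho : Fin n ⊕ Fin n → ℕ := Sum.elim (fun i => n - 1 - i) (fun i => n + i)

lemma NN_OO : (NN K n)ᵀ * OO K n = - (OO K n * NN K n) := by
  have : (B K n)ᵀ = B K n := by
    ext i j; simp [B, and_comm]
  simp [NN, OO, fromBlocks_transpose, fromBlocks_multiply, fromBlocks_neg, this]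

lemma rho_lt (i) : rho n i < 2 * n := by
  rcases i with i | i <;> simp only [rho, Sum.elim_inl, Sum.elim_inr] <;> omega

lemma rho_inj : Function.Injective (rho n) := by
  rintro (i | i) (j | j) h <;> simp only [rho, Sum.elim_inl, Sum.elim_inr] at h
  · congr 1; ext; omega
  · omega
  · omega
  · congr 1; ext; omega

lemma rho_step (i j) (h : NN K n i j ≠ 0) : rho n i = rho n j + 1 := by
  rcases i with i | i <;> rcases j with j | j <;>
    simp [NN, A, B] at h <;> simp only [rho, Sum.elim_inl, Sum.elim_inr] <;> omega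

lemma rho_pred (i) (k : ℕ) (h : rho n i = k + 1) : ∃ j, rho n j = k ∧ NN K n i j ≠ 0 := by
  rcases i with i | i <;> simp only [rho, Sum.elim_inl, Sum.elim_inr] at h
  · refine ⟨Sum.inl ⟨i + 1, by omega⟩, ?_, by simp [NN, A]⟩
    simp only [rho, Sum.elim_inl]; omega
  · by_cases hi : (i : ℕ) = 0
    · refine ⟨Sum.inl i, ?_, by simp [NN, B, hi]⟩
      simp only [rho, Sum.elim_inl]; omega
    · refine ⟨Sum.inr ⟨i - 1, by omega⟩, ?_, ?_⟩
      · simp only [rho, Sum.elim_inr]; omega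
      · have : (i : ℕ) = i - 1 + 1 := by omega
        simp [NN, A, ← this]

def om : (Fin n ⊕ Fin n → K) →ₗ[K] (Fin n ⊕ Fin n → K) →ₗ[K] K := Matrix.toBilin' (OO K n)

lemma om_apply (u v : Fin n ⊕ Fin n → K) : om K n u v =
    ∑ i : Fin n, (u (Sum.inl i) * v (Sum.inr i) - u (Sum.inr i) * v (Sum.inl i)) := by
  simp [om, toBilin'_apply', OO, fromBlocks_mulVec, dotProduct, Fintype.sum_sum_type, neg_mulVec,
    Finset.sum_sub_distrib, sub_eq_add_neg, Finset.sum_add_distrib]

lemma om_alt (v) : om K n v v = 0 := by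
  rw [om_apply]; exact Finset.sum_eq_zero fun i _ => by ring

lemma om_inl (i : Fin n) (v) : om K n (Pi.single (Sum.inl i) 1) v = v (Sum.inr i) := by
  simp [om_apply, Pi.single_apply]

lemma om_inr (i : Fin n) (v) : om K n (Pi.single (Sum.inr i) 1) v = - v (Sum.inl i) := by
  simp [om_apply, Pi.single_apply]

lemma om_nd (x) (h : ∀ y, om K n y x = 0) : x = 0 := by
  funext i
  rcases i with i | i
  · have := h (Pi.single (Sum.inr i) 1); rw [om_inr] at this; simpa using this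
  · have := h (Pi.single (Sum.inl i) 1); rw [om_inl] at this; simpa using this

lemma NN_nil : NN K n ^ (2 * n) = 0 := pow_zero' _ (rho n) (rho_step K n) _ (rho_lt n)

lemma om_E [CharZero K] (t : K) (u v) :
    om K n ((E (NN K n) (2 * n) t).mulVec u) ((E (NN K n) (2 * n) t).mulVec v) = om K n u v := by
  have := E_symp (NN_nil K n) (NN_OO K n) t
  simp only [om, toBilin'_apply']
  conv_rhs => rw [← this]
  rw [Matrix.mul_assoc, ← mulVec_mulVec, ← mulVec_mulVec, dotProduct_mulVec u, vecMul_transpose]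

theorem concrete [CharZero K] (hn : 2 ≤ n) (H : Subgroup (Equiv.Perm (Fin n ⊕ Fin n → K)))
    (hE : ∀ t, In H (fun x => (E (NN K n) (2 * n) t).mulVec x))
    (hT : ∀ c : K, In H (T (om K n) (Pi.single (Sum.inl ⟨n - 1, by omega⟩) 1) (fun s => c * s)))
    (hC : ∀ c : K, In H (T (om K n) (Pi.single (Sum.inl ⟨n - 1, by omega⟩) 1)
      (fun s => c * (s ^ 2 + 1))))
    (m : ℕ) (x y : Fin m → (Fin n ⊕ Fin n → K)) (hx : Function.Injective x)
    (hy : Function.Injective y) : ∃ g ∈ H, ∀ i, g (x i) = y i := by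
  refine main (om_alt K n) (om_nd K n) (2 * n)
    (fun k => ((k.factorial : K)⁻¹ • NN K n ^ k).mulVec (Pi.single (Sum.inl ⟨n - 1, by omega⟩) 1))
    (span_top _ (rho n) (rho_step K n) _ (rho_lt n) (rho_inj n) (Sum.inl ⟨n - 1, by omega⟩)
      (by simp [rho]) (rho_pred K n))
    (fun t c => ?_) (by simp) hC (a := Pi.single (Sum.inl ⟨0, by omega⟩) 1)
    (a' := Pi.single (Sum.inr ⟨0, by omega⟩) 1) (b := Pi.single (Sum.inl ⟨1, by omega⟩) 1)
    (by simp [om_inl]) (by simp [om_inl]) (by simp [om_inr, Pi.single_apply]) (by simp) m x y hx hy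
  have e : ∑ k ∈ Finset.range (2 * n), t ^ k • ((k.factorial : K)⁻¹ • NN K n ^ k).mulVec
      (Pi.single (Sum.inl ⟨n - 1, by omega⟩) 1) =
      (E (NN K n) (2 * n) t).mulVec (Pi.single (Sum.inl ⟨n - 1, by omega⟩) 1) := by
    simp only [E, sum_mulVec, smul_mulVec]
  rw [e]
  refine (hE t).cancel ((hE t).comp (hT c)) fun z => ?_
  simp only [T, om_E, mulVec_add, mulVec_smul]

end Concrete

end H64.SyGa
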