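import Pool.Agent.H64.TB3
import Pool.Agent.H64.SyGa1

/-! A cuspidal Danielewski surface with leaves at different levels. -/

namespace H64.TB

open MvPolynomial

variable {K : Type} [Field K]

section Deg
variable {B : Type} [CommRing B] [Algebra K B] (D : Derivation K B B)

lemma iter_add (n : ℕ) (f g : B) : (⇑D)^[n] (f + g) = (⇑D)^[n] f + (⇑D)^[n] g := by
  induction n generalizing f g with
  | zero => rfl
  | succ n ih => simp only [Function.iterate_succ_apply, map_add, ih]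

lemma iter_zero (n : ℕ) : (⇑D)^[n] (0 : B) = 0 := Function.iterate_fixed (map_zero D) n

lemma iter_mul (n : ℕ) : ∀ (p q : ℕ) (f g : B), p + q = n → (⇑D)^[p + 1] f = 0 →
    (⇑D)^[q + 1] g = 0 →
    (⇑D)^[n] (f * g) = (n.choose p : B) * ((⇑D)^[p] f * (⇑D)^[q] g) ∧
      (⇑D)^[n + 1] (f * g) = 0 := by
  induction n with
  | zero =>
    intro p q f g e hf hg
    obtain rfl : p = 0 := by omega
    obtain rfl : q = 0 := by omega
    simp only [zero_add, Function.iterate_one] at hf hg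
    simp [hf, hg]
  | succ n ih =>
    intro p q f g e hf hg
    have L : ∀ m, (⇑D)^[m + 1] (f * g) = (⇑D)^[m] (f * D g) + (⇑D)^[m] (D f * g) := fun m => by
      rw [Function.iterate_succ_apply, Derivation.leibniz, iter_add, smul_eq_mul, smul_eq_mul,
        mul_comm g]
    rw [L, L]
    rcases p with _ | p <;> rcases q with _ | q
    · omega
    · have hf' : D f = 0 := hf
      obtain ⟨a, b⟩ := ih 0 q f (D g) (by omega) hf hg
      rw [a, b, hf', zero_mul, iter_zero, iter_zero]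
      simp
    · have hg' : D g = 0 := hg
      obtain ⟨a, b⟩ := ih p 0 (D f) g (by omega) hf hg
      obtain rfl : n = p := by omega
      rw [a, b, hg', mul_zero, iter_zero, iter_zero]
      simp
    · obtain ⟨a, b⟩ := ih (p + 1) q f (D g) (by omega) hf hg
      obtain ⟨c, d⟩ := ih p (q + 1) (D f) g (by omega) hf hg
      rw [a, b, c, d, Nat.choose_succ_succ, ← Function.iterate_succ_apply,
        ← Function.iterate_succ_apply]
      push_cast
      exact ⟨by ring, add_zero _⟩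

def Deg (f : B) (d : ℕ) : Prop := (⇑D)^[d] f ≠ 0 ∧ (⇑D)^[d + 1] f = 0

variable {D}

lemma Deg.exists (hD : ∀ b : B, ∃ n : ℕ, (⇑D)^[n] b = 0) {f : B} (hf : f ≠ 0) : ∃ d, Deg D f d := by
  classical
  have h0 : Nat.find (hD f) ≠ 0 := fun e => hf (by have := Nat.find_spec (hD f); rwa [e] at this)
  obtain ⟨d, hd⟩ := Nat.exists_eq_succ_of_ne_zero h0
  exact ⟨d, Nat.find_min (hD f) (by omega), by have := Nat.find_spec (hD f); rwa [hd] at this⟩

lemma Deg.unique {f : B} {d e : ℕ} (h1 : Deg D f d) (h2 : Deg D f e) : d = e := by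
  have key : ∀ {d e : ℕ}, Deg D f d → Deg D f e → ¬ d < e := fun {d e} h1 h2 hlt => by
    obtain ⟨k, rfl⟩ := Nat.exists_eq_add_of_lt hlt
    apply h2.1
    rw [show d + k + 1 = k + (d + 1) by omega, Function.iterate_add_apply, h1.2, iter_zero]
  have := key h1 h2
  have := key h2 h1
  omega

lemma Deg.mul [IsDomain B] [CharZero B] {f g : B} {d e : ℕ} (h1 : Deg D f d) (h2 : Deg D g e) :
    Deg D (f * g) (d + e) := by
  obtain ⟨a, b⟩ := iter_mul D (d + e) d e f g rfl h1.2 h2.2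
  refine ⟨?_, b⟩
  rw [a]
  exact mul_ne_zero (Nat.cast_ne_zero.2 (Nat.choose_pos (by omega)).ne') (mul_ne_zero h1.1 h2.1)

lemma Deg.pow [IsDomain B] [CharZero B] {f : B} {d : ℕ} (h1 : Deg D f d) (k : ℕ) :
    Deg D (f ^ k) (k * d) := by
  induction k with
  | zero => exact ⟨by simp, by simp⟩
  | succ k ih => rw [pow_succ, Nat.succ_mul]; exact ih.mul h1

lemma Deg.deriv {f : B} {d : ℕ} (h1 : Deg D f d) (h : D f ≠ 0) : ∃ e, d = e + 1 ∧ Deg D (D f) e := by
  rcases d with _ | e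
  · exact absurd h1.2 h
  · exact ⟨e, rfl, h1.1, h1.2⟩

end Deg

noncomputable def yv : R K := (X 0 + 1) * X 1
noncomputable def zv : R K := X 1 * (yv - 1)
noncomputable def tv : R K := X 1 ^ 2 * (yv - 1)
noncomputable def nn : R K := X 0 ^ 2 * (X 0 - 1)
noncomputable def Sg : Subalgebra K (R K) := Algebra.adjoin K {X 0, yv, zv, tv}

lemma Sg_s : (X 0 : R K) ∈ Sg := Algebra.subset_adjoin (by simp)
lemma Sg_y : (yv : R K) ∈ Sg := Algebra.subset_adjoin (by simp)
lemma Sg_z : (zv : R K) ∈ Sg := Algebra.subset_adjoin (by simp)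
lemma Sg_t : (tv : R K) ∈ Sg := Algebra.subset_adjoin (by simp)
lemma Sg_x : (X 0 + 1 : R K) ∈ Sg := add_mem Sg_s (one_mem _)

lemma Sg_pow (f : R K) : ∃ N : ℕ, (X 0 + 1) ^ N * f ∈ Sg := by
  induction f using MvPolynomial.induction_on with
  | C a => exact ⟨0, by simpa using Sg.algebraMap_mem a⟩
  | add p q hp hq =>
    obtain ⟨N, hp⟩ := hp
    obtain ⟨M, hq⟩ := hq
    refine ⟨N + M, ?_⟩
    have := add_mem (mul_mem (pow_mem Sg_x M) hp) (mul_mem (pow_mem Sg_x N) hq)
    convert this using 1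
    ring
  | mul_X p i hp =>
    obtain ⟨N, hp⟩ := hp
    fin_cases i
    · exact ⟨N, by rw [← mul_assoc]; exact mul_mem hp Sg_s⟩
    · refine ⟨N + 1, ?_⟩
      have := mul_mem hp Sg_y
      convert this using 1
      simp only [yv, Fin.mk_one]
      ring

lemma Sg_div {f : R K} (hf : X 0 ^ 2 * f ∈ Sg) : f ∈ Sg := by
  obtain ⟨N, hN⟩ := Sg_pow f
  induction N with
  | zero => simpa using hN
  | succ N ih =>
    apply ih
    have := add_mem (mul_mem (sub_mem (one_mem _) Sg_s) hN) (mul_mem (pow_mem Sg_x N) hf)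
    convert this using 1
    ring

lemma Sg_curve {f : R K} (hf : f ∈ Sg) :
    ∃ q : Polynomial K, ∀ a : K, a ≠ 0 → ev (a - 1) a⁻¹ f = q.eval a := by
  induction hf using Algebra.adjoin_induction with
  | mem x hx =>
    simp only [Set.mem_insert_iff, Set.mem_singleton_iff] at hx
    rcases hx with rfl | rfl | rfl | rfl
    · exact ⟨Polynomial.X - 1, fun a _ => by simp⟩
    · exact ⟨1, fun a ha => by simp [yv, ha]⟩
    · exact ⟨0, fun a ha => by simp [zv, yv, ha]⟩
    · exact ⟨0, fun a ha => by simp [tv, yv, ha]⟩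
  | algebraMap r => exact ⟨Polynomial.C r, fun a _ => by simp⟩
  | add x y _ _ hx hy =>
    obtain ⟨p, hp⟩ := hx
    obtain ⟨q, hq⟩ := hy
    exact ⟨p + q, fun a ha => by simp [hp a ha, hq a ha]⟩
  | mul x y _ _ hx hy =>
    obtain ⟨p, hp⟩ := hx
    obtain ⟨q, hq⟩ := hy
    exact ⟨p * q, fun a ha => by simp [hp a ha, hq a ha]⟩

structure Good (S : Subalgebra K (R K)) : Prop where
  le : ∀ f ∈ S, f ∈ Sg ∧ (X 0 : R K) ^ 2 ∣ f - z f
  cond : ∀ g ∈ Sg, nn * g ∈ S
  s2 : (X 0 : R K) ^ 2 ∈ S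
  s3 : (X 0 : R K) ^ 3 ∈ S

variable [CharZero K]

lemma D_s {S : Subalgebra K (R K)} (hS : Good S) (D : Derivation K S S)
    (hD : ∀ b : S, ∃ n : ℕ, (⇑D)^[n] b = 0) : D ⟨_, hS.s2⟩ = 0 ∧ D ⟨_, hS.s3⟩ = 0 := by
  set σ : S := ⟨_, hS.s2⟩ with hσ
  set ρ : S := ⟨_, hS.s3⟩ with hρ
  have hp : Prime (X 0 : R K) := X_prime
  have e1 : ρ ^ 2 = σ ^ 3 := Subtype.ext (by simp only [σ, ρ]; push_cast; ring)
  have e2 := congrArg (fun b => ((D b : S) : R K)) e1
  simp only [Derivation.leibniz_pow, smul_eq_mul, nsmul_eq_mul] at e2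
  push_cast at e2
  have c2 : ((2 : S) : R K) = 2 := map_ofNat S.val 2
  have c3 : ((3 : S) : R K) = 3 := map_ofNat S.val 3
  rw [c2, c3] at e2
  have e3 : (2 * (D ρ : R K)) = 3 * X 0 * (D σ : R K) := by
    apply mul_left_cancel₀ (pow_ne_zero 3 hp.ne_zero)
    simp only [σ, ρ] at e2 ⊢
    linear_combination e2
  have u2 : IsUnit (2 : R K) := by
    simpa [map_ofNat] using (IsUnit.mk0 (2 : K) two_ne_zero).map (algebraMap K (R K))
  have u3 : IsUnit (3 : R K) := by
    simpa [map_ofNat] using (IsUnit.mk0 (3 : K) three_ne_zero).map (algebraMap K (R K))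
  suffices h0 : D σ = 0 by
    refine ⟨h0, Subtype.ext ?_⟩
    rw [h0] at e3
    simpa [u2.ne_zero] using e3
  by_contra hne
  have d1 : (X 0 : R K) ∣ (D σ : R K) := by
    have := (hS.le _ (add_mem (D ρ).2 (D ρ).2)).2
    rw [← two_mul, e3, map_mul, map_mul, z_X0, mul_zero, zero_mul, sub_zero, mul_comm 3, mul_assoc,
      pow_two, mul_dvd_mul_iff_left hp.ne_zero] at this
    exact (u3.dvd_mul_left).1 this
  have d2 : (X 0 : R K) ^ 2 ∣ (D σ : R K) := by
    have := (hS.le _ (D σ).2).2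
    obtain ⟨c, hc⟩ := d1
    rwa [show z (D σ : R K) = 0 by rw [hc, map_mul, z_X0, zero_mul], sub_zero] at this
  obtain ⟨a2, ha2⟩ := d2
  have m2 : a2 ∈ Sg := Sg_div (ha2 ▸ (hS.le _ (D σ).2).1)
  have hn : (nn : R K) ≠ 0 := fun e => h_ne (K := K) (by
    have : (h : R K) = nn * (X 0 + 1) := by simp only [h, nn]; ring
    rw [this, e, zero_mul])
  have hσ0 : σ ≠ 0 := fun e => hne (by rw [e, map_zero])
  obtain ⟨d, hd⟩ := Deg.exists hD hσ0
  obtain ⟨d', rfl, hd'⟩ := hd.deriv hne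
  obtain ⟨e, he⟩ := Deg.exists hD (f := ⟨_, hS.cond 1 (one_mem _)⟩)
    (fun e => hn (by simpa using congrArg Subtype.val e))
  obtain ⟨e', he'⟩ := Deg.exists hD (f := ⟨_, hS.cond (a2 ^ (e + 1)) (pow_mem m2 _)⟩) (fun e => by
    have := congrArg Subtype.val e
    simp only [ZeroMemClass.coe_zero, mul_eq_zero, hn, false_or] at this
    apply hne
    apply Subtype.ext
    rw [ha2, pow_eq_zero_iff (by omega) |>.1 this, mul_zero]; rfl)
  have k1 := (hd'.pow (e + 1)).mul he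
  have k2 := (hd.pow (e + 1)).mul he'
  have : D σ ^ (e + 1) * ⟨_, hS.cond 1 (one_mem _)⟩ =
      σ ^ (e + 1) * ⟨_, hS.cond (a2 ^ (e + 1)) (pow_mem m2 _)⟩ := Subtype.ext (by
    push_cast
    rw [ha2]
    simp only [σ]
    ring)
  rw [this] at k1
  have := k1.unique k2
  nlinarith

end H64.TB
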