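import Pool.Agent.H64.TA1

namespace H64.TB

open MvPolynomial

variable {K : Type} [Field K] [CharZero K] {S : Subalgebra K (R K)}

omit [CharZero K] in
lemma h_eq : (h : R K) = nn * (X 0 + 1) := by simp only [h, nn]; ring

omit [CharZero K] in
lemma Good.hmul (hS : Good S) (f : R K) : ∃ N : ℕ, h ^ N * f ∈ S := by
  obtain ⟨N, hN⟩ := Sg_pow f
  refine ⟨N + 1, ?_⟩
  have hn : (nn : R K) ∈ Sg := mul_mem (pow_mem Sg_s _) (sub_mem Sg_s (one_mem _))
  have := hS.cond _ (mul_mem (mul_mem (pow_mem hn N) Sg_x) hN)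
  convert this using 1
  rw [h_eq, pow_succ, mul_pow]; ring

theorem vanish (hS : Good S) (D : Derivation K S S) (hD : ∀ b : S, ∃ n : ℕ, (⇑D)^[n] b = 0)
    (f : S) : ev (-1) 0 (D f : R K) = 0 := by
  obtain ⟨d2, d3⟩ := D_s hS D hD
  set σ : S := ⟨_, hS.s2⟩ with hσ
  set ρ : S := ⟨_, hS.s3⟩ with hρ
  let H : S := σ ^ 2 - σ
  have hH : (H : R K) = h := by simp only [H, σ, h]; push_cast; ring
  have dH : D H = 0 := by simp [H, d2]
  have pH : pderiv 1 (h : R K) = 0 := by simp [h, Derivation.leibniz, pderiv_X]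
  let η : S := ⟨_, hS.cond _ Sg_y⟩
  have hη : (η : R K) = h * X 1 := by simp only [η, yv, h_eq]; ring
  let π : S := D η
  let Q : R K → Prop := fun f => ∃ (N : ℕ) (g : S), (g : R K) = h ^ N * f ∧
    h * (D g : R K) = (π : R K) * pderiv 1 (g : R K)
  have up : ∀ (M : ℕ) (g : S), h * (D g : R K) = (π : R K) * pderiv 1 (g : R K) →
      h * (D (H ^ M * g) : R K) = (π : R K) * pderiv 1 ((H ^ M * g : S) : R K) := fun M g e => by
    simp only [Derivation.leibniz, Derivation.leibniz_pow, dH, smul_zero, add_zero, smul_eq_mul,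
      mul_zero]
    push_cast
    simp only [Derivation.leibniz, Derivation.leibniz_pow, hH, pH, smul_zero, add_zero,
      smul_eq_mul, mul_zero]
    linear_combination h ^ M * e
  have mul : ∀ p q, Q p → Q q → Q (p * q) := fun p q ⟨N, g, e1, e2⟩ ⟨M, g', f1, f2⟩ =>
    ⟨N + M, g * g', by push_cast; rw [e1, f1]; ring, by
      rw [Derivation.leibniz]
      simp only [smul_eq_mul]
      push_cast
      rw [Derivation.leibniz]
      simp only [smul_eq_mul]
      linear_combination (g : R K) * f2 + (g' : R K) * e2⟩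
  have hQ : ∀ f, Q f := by
    intro f
    induction f using MvPolynomial.induction_on with
    | C a => exact ⟨0, algebraMap K S a, by simp, by simp⟩
    | add p q hp hq =>
      obtain ⟨N, g, e1, e2⟩ := hp
      obtain ⟨M, g', f1, f2⟩ := hq
      refine ⟨N + M, H ^ M * g + H ^ N * g', by push_cast; rw [e1, f1, hH]; ring, ?_⟩
      have a := up M g e2
      have b := up N g' f2
      rw [map_add, Subalgebra.coe_add, Subalgebra.coe_add, map_add]
      linear_combination a + b
    | mul_X p i hp =>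
      refine mul _ _ hp ?_
      fin_cases i
      · refine ⟨1, ρ * σ - ρ, by simp only [σ, ρ, h]; push_cast; ring, ?_⟩
        have : D (ρ * σ - ρ) = 0 := by simp [d2, d3]
        rw [this]
        simp [σ, ρ, Derivation.leibniz, pderiv_X]
      · refine ⟨1, η, by simp [hη], ?_⟩
        rw [hη]
        simp [Derivation.leibniz, pH, π, mul_comm]
  have key : ∀ f : S, h * (D f : R K) = (π : R K) * pderiv 1 (f : R K) := fun f => by
    obtain ⟨N, g, e1, e2⟩ := hQ f
    have : g = H ^ N * f := Subtype.ext (by push_cast; rw [e1, hH])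
    rw [this] at e2
    simp only [Derivation.leibniz, Derivation.leibniz_pow, dH, smul_zero, add_zero, smul_eq_mul,
      mul_zero] at e2
    push_cast at e2
    simp only [Derivation.leibniz, Derivation.leibniz_pow, hH, pH, smul_zero, add_zero,
      smul_eq_mul, mul_zero] at e2
    apply mul_left_cancel₀ (pow_ne_zero N h_ne)
    linear_combination e2
  have hπ : pderiv 1 (π : R K) = 0 := by
    have hDπ : D π = 0 := by
      by_contra hne
      obtain ⟨N, hN⟩ := hS.hmul (pderiv 1 (π : R K))
      have e : H ^ (N + 1) * D π = π * ⟨_, hN⟩ := Subtype.ext (by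
        push_cast
        rw [hH]
        linear_combination h ^ N * key π)
      have H0 : H ≠ 0 := fun e => h_ne (K := K) (by rw [← hH, e]; rfl)
      have dgH : Deg D H 0 := ⟨H0, dH⟩
      obtain ⟨d, hd⟩ := Deg.exists hD (f := π) (fun e => hne (by rw [e, map_zero]))
      obtain ⟨d', rfl, hd'⟩ := hd.deriv hne
      obtain ⟨c, hc⟩ := Deg.exists hD (f := ⟨_, hN⟩) (fun e0 => by
        rw [e0, mul_zero] at e
        exact mul_ne_zero (pow_ne_zero _ H0) hne e)
      have k1 := (dgH.pow (N + 1)).mul hd'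
      rw [e] at k1
      have := k1.unique (hd.mul hc)
      omega
    have := key π
    rw [hDπ, ZeroMemClass.coe_zero, mul_zero] at this
    rcases mul_eq_zero.1 this.symm with e | e
    · rw [e, map_zero]
    · exact e
  let lam : R K →ₐ[K] Polynomial K := aeval ![Polynomial.X - 1, 0]
  have hlam : ∀ a f, (lam f).eval a = ev (a - 1) 0 f := fun a f => by
    have : (Polynomial.aeval a).comp lam = ev (a - 1) 0 :=
      MvPolynomial.algHom_ext fun i => by fin_cases i <;> simp [lam]
    simpa using AlgHom.congr_fun this f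
  have hn : (nn : R K) ≠ 0 := fun e => h_ne (K := K) (by rw [h_eq, e, zero_mul])
  let τ : S := ⟨_, hS.cond _ Sg_t⟩
  have e1 : (X 0 + 1) * (D τ : R K) = (π : R K) * (X 1 * (3 * yv - 2)) := by
    apply mul_left_cancel₀ hn
    have := key τ
    have e : pderiv 1 (τ : R K) = nn * (X 1 * (3 * yv - 2)) := by
      have p0 : pderiv 1 (X 0 : R K) = 0 := by simp [pderiv_X]
      simp only [τ, nn, tv, yv, Derivation.leibniz, Derivation.leibniz_pow, p0, pderiv_X_self,
        map_add, map_sub, Derivation.map_one_eq_zero, smul_eq_mul, nsmul_eq_mul]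
      push_cast
      ring
    rw [e, h_eq] at this
    linear_combination this
  obtain ⟨q, hq⟩ := Sg_curve (hS.le _ (D τ).2).1
  have e2 : lam π = Polynomial.X ^ 2 * q := by
    apply Polynomial.eq_of_infinite_eval_eq
    refine ((Set.finite_singleton (0 : K)).infinite_compl).mono fun a ha => ?_
    have ha0 : a ≠ 0 := ha
    have := congrArg (ev (a - 1) a⁻¹) e1
    rw [map_mul, map_mul, hq a ha0, diff (π : R K) 0 (by rw [hπ, C_0]), ← hlam] at this
    simp only [yv, map_add, map_mul, map_sub, ev_X0, ev_X1, map_one, map_ofNat, sub_add_cancel,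
      mul_inv_cancel₀ ha0, zero_mul, add_zero] at this
    simp only [Set.mem_setOf_eq, Polynomial.eval_mul, Polynomial.eval_pow, Polynomial.eval_X]
    field_simp at this
    linear_combination -this
  have e3 := congrArg lam (key f)
  rw [map_mul, map_mul, e2] at e3
  have e4 : lam h = Polynomial.X * ((Polynomial.X - 1) ^ 2 * (Polynomial.X - 2)) := by
    simp [lam, h]; ring
  rw [e4, pow_two Polynomial.X, mul_assoc, mul_assoc Polynomial.X, mul_assoc Polynomial.X] at e3
  have e5 := congrArg (Polynomial.eval 0) (mul_left_cancel₀ Polynomial.X_ne_zero e3)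
  rw [Polynomial.eval_mul, hlam] at e5
  simpa using e5

omit [CharZero K] in
lemma fg_of_le {A S : Subalgebra K (R K)} (hle : A ≤ S) (hS : S.FG)
    (hi : ∀ f ∈ S, IsIntegral A f) : A.FG := by
  letI : Algebra A S := (Subalgebra.inclusion hle).toAlgebra
  haveI : IsScalarTower K A S := IsScalarTower.of_algebraMap_eq fun _ => rfl
  haveI : IsScalarTower A S (R K) := IsScalarTower.of_algebraMap_eq fun _ => rfl
  haveI : Algebra.IsIntegral A S := ⟨fun f =>
    (isIntegral_algebraMap_iff (B := R K) Subtype.val_injective).1 (hi f f.2)⟩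
  haveI : Algebra.FiniteType K S := ⟨S.fg_top.2 hS⟩
  haveI : Algebra.FiniteType A S := Algebra.FiniteType.of_restrictScalars_finiteType K _ _
  haveI : Module.Finite A S := Algebra.IsIntegral.finite
  exact A.fg_top.1 (fg_of_fg_of_fg K A S Algebra.FiniteType.out Module.Finite.fg_top
    (Subalgebra.inclusion_injective hle))

noncomputable def A1 : Subalgebra K (R K) := Sg ⊓ Cg z (X 0 ^ 2)
noncomputable def A2 : Subalgebra K (R K) := A1 ⊓ AlgHom.equalizer (ev 1 0) (ev 1 1)

omit [CharZero K] in
lemma A1_sq {g : R K} (hg : g ∈ Sg) : X 0 ^ 2 * g ∈ A1 :=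
  ⟨mul_mem (pow_mem Sg_s _) hg, by change (X 0 : R K) ^ 2 ∣ _; simp⟩

omit [CharZero K] in
lemma good1 : Good (A1 : Subalgebra K (R K)) where
  le f hf := hf
  cond g hg := by
    have := A1_sq (mul_mem (sub_mem Sg_s (one_mem _)) hg)
    rwa [← mul_assoc] at this
  s2 := by simpa using A1_sq (one_mem _)
  s3 := A1_sq Sg_s

omit [CharZero K] in
lemma good2 : Good (A2 : Subalgebra K (R K)) where
  le f hf := hf.1
  cond g hg := ⟨good1.cond g hg, by simp [nn]⟩
  s2 := ⟨good1.s2, by simp⟩
  s3 := ⟨good1.s3, by simp⟩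

omit [CharZero K] in
lemma A1_fg : (A1 : Subalgebra K (R K)).FG := by
  classical
  refine fg_of_le (S := Sg) inf_le_left ⟨{X 0, yv, zv, tv}, by simp [Sg]⟩ fun f hf => ?_
  have I : ∀ g ∈ (A1 : Subalgebra K (R K)), IsIntegral (A1 : Subalgebra K (R K)) g :=
    fun g hg => isIntegral_algebraMap (x := (⟨g, hg⟩ : A1))
  have i0 : IsIntegral (A1 : Subalgebra K (R K)) (X 0 : R K) :=
    IsIntegral.of_pow two_pos (I _ good1.s2)
  have iy : IsIntegral (A1 : Subalgebra K (R K)) (yv : R K) := by
    have m : ((1 - X 0) * yv : R K) ∈ A1 := ⟨mul_mem (sub_mem (one_mem _) Sg_s) Sg_y, by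
      change (X 0 : R K) ^ 2 ∣ _
      exact ⟨- X 1, by simp [yv]; ring⟩⟩
    have := ((isIntegral_one.add i0).mul (I _ m)).add (I _ (A1_sq Sg_y))
    have e : (yv : R K) = (1 + X 0) * ((1 - X 0) * yv) + X 0 ^ 2 * yv := by ring
    rw [e]; exact this
  have iz : IsIntegral (A1 : Subalgebra K (R K)) (zv : R K) := by
    have := (((isIntegral_one.sub i0).mul iy).mul (iy.sub isIntegral_one)).add (I _ (A1_sq Sg_z))
    have e : (zv : R K) = (1 - X 0) * yv * (yv - 1) + X 0 ^ 2 * zv := by simp only [zv, yv]; ring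
    rw [e]; exact this
  have it : IsIntegral (A1 : Subalgebra K (R K)) (tv : R K) := by
    have := (((isIntegral_one.sub i0).mul iy).mul iz).add (I _ (A1_sq Sg_t))
    have e : (tv : R K) = (1 - X 0) * yv * zv + X 0 ^ 2 * tv := by simp only [tv, zv, yv]; ring
    rw [e]; exact this
  induction hf using Algebra.adjoin_induction with
  | mem x hx =>
    simp only [Set.mem_insert_iff, Set.mem_singleton_iff] at hx
    rcases hx with rfl | rfl | rfl | rfl <;> assumption
  | algebraMap r => exact I _ (Subalgebra.algebraMap_mem _ r)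
  | add x y _ _ hx hy => exact hx.add hy
  | mul x y _ _ hx hy => exact hx.mul hy

omit [CharZero K] in
lemma A2_fg : (A2 : Subalgebra K (R K)).FG := by
  refine fg_of_le (S := A1) inf_le_left A1_fg fun f hf => ?_
  let g : (A2 : Subalgebra K (R K)) := ⟨(f - C (ev 1 0 f)) * (f - C (ev 1 1 f)),
    mul_mem (sub_mem hf (A1.algebraMap_mem _)) (sub_mem hf (A1.algebraMap_mem _)), by simp⟩
  refine ⟨(Polynomial.X - Polynomial.C (algebraMap K _ (ev 1 0 f))) *
    (Polynomial.X - Polynomial.C (algebraMap K _ (ev 1 1 f))) - Polynomial.C g, by monicity!, ?_⟩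
  simp only [Polynomial.eval₂_sub, Polynomial.eval₂_mul, Polynomial.eval₂_X, Polynomial.eval₂_C]
  exact sub_self _

end H64.TB
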