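import Pool.Agent.H64.TA2

namespace H64.TB

open Polynomial

variable {K : Type} [Field K]

noncomputable def ioS (S : Subalgebra K (R K)) : S[X] →ₐ[K] (R K)[X] := mapAlgHom S.val

@[simp] lemma ioS_C (S : Subalgebra K (R K)) (a : S) : ioS S (C a) = C (a : R K) := by simp [ioS]
@[simp] lemma ioS_u (S : Subalgebra K (R K)) : ioS S X = X := by simp [ioS]
lemma ioS_coeff (S : Subalgebra K (R K)) (F : S[X]) (i : ℕ) :
    (ioS S F).coeff i = F.coeff i := by simp [ioS]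
lemma ioS_inj (S : Subalgebra K (R K)) : Function.Injective (ioS S) :=
  Polynomial.map_injective (S.val : S →+* R K) Subtype.val_injective

lemma mem_ioS {S : Subalgebra K (R K)} {F : (R K)[X]} :
    F ∈ (ioS S).range ↔ ∀ i, F.coeff i ∈ S := by
  have := Polynomial.mem_map_range (S.val : S →+* R K) (p := F)
  constructor
  · rintro ⟨G, rfl⟩ i
    exact (ioS_coeff S G i).symm ▸ (G.coeff i).2
  · intro h
    obtain ⟨G, hG⟩ := this.2 fun i => ⟨⟨_, h i⟩, rfl⟩
    exact ⟨G, hG⟩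

lemma equivS {S : Subalgebra K (R K)} (Φ Ψ : (R K)[X] →ₐ[K] (R K)[X]) (h1 : ∀ F, Φ (Ψ F) = F)
    (h2 : ∀ F, Ψ (Φ F) = F) (m1 : ∀ F ∈ (ioS S).range, Φ F ∈ (ioS S).range)
    (m2 : ∀ F ∈ (ioS S).range, Ψ F ∈ (ioS S).range) :
    ∃ E : S[X] ≃ₐ[K] S[X], ∀ b, ioS S (E b) = Φ (ioS S b) := by
  let e : (ioS S).range ≃ₐ[K] (ioS S).range :=
    AlgEquiv.ofAlgHom ((Φ.comp (ioS S).range.val).codRestrict _ fun F => m1 F F.2)
      ((Ψ.comp (ioS S).range.val).codRestrict _ fun F => m2 F F.2)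
      (AlgHom.ext fun F => Subtype.ext (h1 F)) (AlgHom.ext fun F => Subtype.ext (h2 F))
  refine ⟨(AlgEquiv.ofInjective _ (ioS_inj S)).trans
    (e.trans (AlgEquiv.ofInjective _ (ioS_inj S)).symm), fun b => ?_⟩
  exact congrArg Subtype.val ((AlgEquiv.ofInjective _ (ioS_inj S)).apply_symm_apply
    (e (AlgEquiv.ofInjective _ (ioS_inj S) b)))

lemma mem_B1 {F : (R K)[X]} : F ∈ (ioS A1).range ↔ F ∈ (ioS Sg).range ∧ xx ^ 2 ∣ F - Z F := by
  rw [mem_ioS, mem_ioS, xx, ← C_pow, C_dvd_iff_dvd_coeff, ← forall_and]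
  simp only [coeff_sub, Z, coe_mapAlgHom, coeff_map, RingHom.coe_coe]
  rfl

lemma mem_B2 {F : (R K)[X]} : F ∈ (ioS A2).range ↔ F ∈ (ioS A1).range ∧ EV 1 0 F = EV 1 1 F := by
  rw [mem_ioS, mem_ioS, Polynomial.ext_iff, ← forall_and]
  simp only [EV_coeff]
  rfl

lemma Ph_cusp {P Q : (R K)[X]} (hP : xx ^ 2 ∣ P - Z P) (hQ : xx ^ 2 ∣ Q - Z Q) {F : (R K)[X]}
    (hF : xx ^ 2 ∣ F - Z F) : xx ^ 2 ∣ Ph P Q F - Z (Ph P Q F) := by
  obtain ⟨G, hG⟩ := hF
  have e : Ph P Q F = Ph P Q (Z F) + xx ^ 2 * Ph P Q G := by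
    have : F = Z F + xx ^ 2 * G := by rw [← hG]; ring
    conv_lhs => rw [this]
    simp
  have m1 : ∀ F, Ph P Q (Z F) ∈ Cg Z (xx ^ 2 : (R K)[X]) := by
    intro F
    have hc : ∀ f : R K, Ph P Q (Z (C f)) ∈ Cg Z (xx ^ 2 : (R K)[X]) := by
      intro f
      induction f using MvPolynomial.induction_on with
      | C a =>
        have : (C (MvPolynomial.C a) : (R K)[X]) = algebraMap K _ a := rfl
        rw [this, AlgHom.commutes, AlgHom.commutes]
        exact Subalgebra.algebraMap_mem _ _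
      | add p q hp hq => simp only [map_add]; exact add_mem hp hq
      | mul_X p i hp =>
        simp only [map_mul]
        refine mul_mem hp ?_
        fin_cases i
        · have : Ph P Q (Z xx) = 0 := by simp
          exact this.symm ▸ zero_mem _
        · have : Ph P Q (Z yy) = P := by simp
          exact this.symm ▸ hP
    induction F using Polynomial.induction_on with
    | C a => exact hc a
    | add p q hp hq => simp only [map_add]; exact add_mem hp hq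
    | monomial n a ih =>
      rw [pow_succ X, ← mul_assoc, map_mul, map_mul, Z_u, Ph_u]
      exact mul_mem ih hQ
  have m2 : xx ^ 2 * Ph P Q G ∈ Cg Z (xx ^ 2 : (R K)[X]) := by
    change xx ^ 2 ∣ _
    simp
  rw [e]
  exact add_mem (m1 F) m2

lemma Cy : (C yv : (R K)[X]) = (xx + 1) * yy := by simp [yv, xx, yy]
lemma Cz : (C zv : (R K)[X]) = yy * ((xx + 1) * yy - 1) := by simp [zv, yv, xx, yy]
lemma Ct : (C tv : (R K)[X]) = yy ^ 2 * ((xx + 1) * yy - 1) := by simp [tv, yv, xx, yy]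
lemma Cn : (C nn : (R K)[X]) = xx ^ 2 * (xx - 1) := by simp [nn, xx]
lemma U_C {f : R K} (hf : f ∈ Sg) : C f ∈ (ioS (Sg : Subalgebra K (R K))).range :=
  ⟨C ⟨f, hf⟩, ioS_C _ _⟩
lemma U_x : (xx : (R K)[X]) ∈ (ioS (Sg : Subalgebra K (R K))).range := U_C Sg_s
lemma U_u : (X : (R K)[X]) ∈ (ioS (Sg : Subalgebra K (R K))).range := ⟨X, ioS_u _⟩

lemma Ph_U {P Q : (R K)[X]} (hQ : Q ∈ (ioS Sg).range) (hy : (xx + 1) * P ∈ (ioS Sg).range)
    (hz : P * ((xx + 1) * P - 1) ∈ (ioS Sg).range)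
    (ht : P ^ 2 * ((xx + 1) * P - 1) ∈ (ioS Sg).range) {F : (R K)[X]} (hF : F ∈ (ioS Sg).range) :
    Ph P Q F ∈ (ioS Sg).range := by
  obtain ⟨G, rfl⟩ := hF
  have hc : ∀ f ∈ (Sg : Subalgebra K (R K)), Ph P Q (C f) ∈ (ioS Sg).range := by
    intro f hf
    induction hf using Algebra.adjoin_induction with
    | mem x hx =>
      simp only [Set.mem_insert_iff, Set.mem_singleton_iff] at hx
      rcases hx with rfl | rfl | rfl | rfl
      · exact (Ph_x P Q).symm ▸ U_x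
      · simpa [Cy] using hy
      · simpa [Cz] using hz
      · simpa [Ct] using ht
    | algebraMap r =>
      have : (C (algebraMap K (R K) r) : (R K)[X]) = algebraMap K _ r := rfl
      rw [this, AlgHom.commutes]
      exact Subalgebra.algebraMap_mem _ _
    | add x y _ _ hx hy => simp only [map_add]; exact add_mem hx hy
    | mul x y _ _ hx hy => simp only [map_mul]; exact mul_mem hx hy
  change Ph P Q (ioS Sg G) ∈ _
  induction G using Polynomial.induction_on with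
  | C a => rw [ioS_C]; exact hc a a.2
  | add p q hp hq => simp only [map_add]; exact add_mem hp hq
  | monomial n a ih =>
    rw [pow_succ X, ← mul_assoc, map_mul, map_mul, ioS_u, Ph_u]
    exact mul_mem ih hQ

section Gen
variable {T : Type} [CommRing T] [Algebra K T] {U : Subalgebra K T} {x y z t u p c : T}
  (hx : x ∈ U) (hy : y ∈ U) (hz : z ∈ U) (ht : t ∈ U) (hu : u ∈ U) (hp : p ∈ U) (hc : c ∈ U)
include hx hy hz ht hu hp hc

lemma g1 : y + (x + 1) ^ 2 * p * u ∈ U := by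
  apply_rules (maxDepth := 100) [add_mem, mul_mem, sub_mem, pow_mem, one_mem]
lemma g2 : z + y * (x + 1) * p * u + (x + 1) * p * u * (y - 1 + (x + 1) ^ 2 * p * u) ∈ U := by
  apply_rules (maxDepth := 100) [add_mem, mul_mem, sub_mem, pow_mem, one_mem]
lemma g3 : t + y ^ 2 * p * u + ((y + y) * p * u + ((x + 1) * p * u) ^ 2) *
    (y - 1 + (x + 1) ^ 2 * p * u) ∈ U := by
  apply_rules (maxDepth := 100) [add_mem, mul_mem, sub_mem, pow_mem, one_mem]
lemma g4 : c * (x ^ 2 * (x - 1)) * (z + y * u + u * (y - 1 + (x + 1) * u)) *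
    (y - 1 + (x + 1) * u) ∈ U := by
  apply_rules (maxDepth := 100) [add_mem, mul_mem, sub_mem, pow_mem, one_mem]
lemma g5 : c * (x ^ 2 * (x - 1)) * (z + y * u + u * (y - 1 + (x + 1) * u)) * (z + y * u) ∈ U := by
  apply_rules (maxDepth := 100) [add_mem, mul_mem, sub_mem, pow_mem, one_mem]
lemma g6 : y - (x + 1) * p ∈ U := by
  apply_rules (maxDepth := 100) [add_mem, mul_mem, sub_mem, pow_mem, one_mem]
lemma g7 : z - y * p - p * (y - 1 - (x + 1) * p) ∈ U := by
  apply_rules (maxDepth := 100) [add_mem, mul_mem, sub_mem, pow_mem, one_mem]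
lemma g8 : t - y * c + (p ^ 2 - c - c) * (y - 1 - (x + 1) * p) ∈ U := by
  apply_rules (maxDepth := 100) [add_mem, mul_mem, sub_mem, pow_mem, one_mem]

end Gen

lemma sh_mem {p : (R K)[X]} (hp : p ∈ (ioS Sg).range)
    (hc : xx ^ 2 ∣ (xx + 1) * p - Z ((xx + 1) * p)) {F : (R K)[X]} (hF : F ∈ (ioS A1).range) :
    Ph (yy + (xx + 1) * p * X) X F ∈ (ioS A1).range := by
  obtain ⟨h1, h2⟩ := mem_B1.1 hF
  have hy := U_C (K := K) Sg_y
  have hz := U_C (K := K) Sg_z
  have ht := U_C (K := K) Sg_t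
  have hx := U_x (K := K)
  have hu := U_u (K := K)
  refine mem_B1.2 ⟨Ph_U hu ?_ ?_ ?_ h1, Ph_cusp ?_ (by simp) h2⟩
  · have e : (xx + 1) * (yy + (xx + 1) * p * X) = C yv + (xx + 1) ^ 2 * p * X := by
      rw [Cy]; ring
    rw [e]
    exact g1 hx hy hz ht hu hp hp
  · have e : (yy + (xx + 1) * p * X) * ((xx + 1) * (yy + (xx + 1) * p * X) - 1) =
        C zv + C yv * (xx + 1) * p * X + (xx + 1) * p * X * (C yv - 1 + (xx + 1) ^ 2 * p * X) := by
      rw [Cy, Cz]; ring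
    rw [e]
    exact g2 hx hy hz ht hu hp hp
  · have e : (yy + (xx + 1) * p * X) ^ 2 * ((xx + 1) * (yy + (xx + 1) * p * X) - 1) =
        C tv + C yv ^ 2 * p * X + ((C yv + C yv) * p * X + ((xx + 1) * p * X) ^ 2) *
          (C yv - 1 + (xx + 1) ^ 2 * p * X) := by
      rw [Cy, Ct]; ring
    rw [e]
    exact g3 hx hy hz ht hu hp hp
  · obtain ⟨g, hg⟩ := hc
    refine ⟨g * X, ?_⟩
    rw [map_add, map_mul _ _ X, Z_y, Z_u]
    linear_combination X * hg

lemma shear1 {p : (R K)[X]} (hp : p ∈ (ioS Sg).range) (hf : ∀ P Q, Ph P Q p = p)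
    (hc : xx ^ 2 ∣ (xx + 1) * p - Z ((xx + 1) * p)) :
    ∃ E : (A1 : Subalgebra K (R K))[X] ≃ₐ[K] (A1 : Subalgebra K (R K))[X],
      ∀ b, ioS A1 (E b) = Ph (yy + (xx + 1) * p * X) X (ioS A1 b) := by
  refine equivS _ (Ph (yy + (xx + 1) * (-p) * X) X) (fun F => ?_) (fun F => ?_)
    (fun F => sh_mem hp hc) (fun F => sh_mem (neg_mem hp) (by
      obtain ⟨g, hg⟩ := hc
      refine ⟨-g, ?_⟩
      simp only [map_mul, map_neg] at hg ⊢
      linear_combination -hg))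
  · exact AlgHom.congr_fun (ext3 (f := (Ph _ _).comp (Ph _ _)) (g := AlgHom.id K _)
      (by simp) (by simp [hf]; ring) (by simp)) F
  · exact AlgHom.congr_fun (ext3 (f := (Ph _ _).comp (Ph _ _)) (g := AlgHom.id K _)
      (by simp) (by simp [hf]; ring) (by simp)) F

noncomputable def FF (c : K) : (R K)[X] :=
  algebraMap K _ c * (xx ^ 2 * (xx - 1)) * (yy + X) * ((xx + 1) * (yy + X) - 1) ^ 2

lemma al_mem1 (c : K) {F : (R K)[X]} (hF : F ∈ (ioS A1).range) :
    Ph (yy - FF c) (X + FF c) F ∈ (ioS A1).range := by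
  obtain ⟨h1, h2⟩ := mem_B1.1 hF
  have hy := U_C (K := K) Sg_y
  have hz := U_C (K := K) Sg_z
  have ht := U_C (K := K) Sg_t
  have hx := U_x (K := K)
  have hu := U_u (K := K)
  have hc : algebraMap K (R K)[X] c ∈ (ioS (Sg : Subalgebra K (R K))).range :=
    Subalgebra.algebraMap_mem _ _
  have hF : FF c ∈ (ioS (Sg : Subalgebra K (R K))).range := by
    have e : FF c = algebraMap K _ c * (xx ^ 2 * (xx - 1)) *
        (C zv + C yv * X + X * (C yv - 1 + (xx + 1) * X)) * (C yv - 1 + (xx + 1) * X) := by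
      rw [FF, Cy, Cz]; ring
    rw [e]
    exact g4 hx hy hz ht hu hc hc
  have hvF : yy * FF c ∈ (ioS (Sg : Subalgebra K (R K))).range := by
    have e : yy * FF c = algebraMap K _ c * (xx ^ 2 * (xx - 1)) *
        (C zv + C yv * X + X * (C yv - 1 + (xx + 1) * X)) * (C zv + C yv * X) := by
      rw [FF, Cy, Cz]; ring
    rw [e]
    exact g5 hx hy hz ht hu hc hc
  have hZ : Z (FF c) = 0 := by simp [FF]
  have hd : (xx : (R K)[X]) ^ 2 ∣ FF c := ⟨algebraMap K _ c * (xx - 1) * (yy + X) *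
    ((xx + 1) * (yy + X) - 1) ^ 2, by rw [FF]; ring⟩
  refine mem_B1.2 ⟨Ph_U (add_mem hu hF) ?_ ?_ ?_ h1,
    Ph_cusp (by
      obtain ⟨g, hg⟩ := hd
      refine ⟨-g, ?_⟩
      rw [map_sub, hZ, Z_y]
      linear_combination -hg) (by simpa [hZ] using hd) h2⟩
  · have e : (xx + 1) * (yy - FF c) = C yv - (xx + 1) * FF c := by rw [Cy]; ring
    rw [e]
    exact g6 hx hy hz ht hu hF hc
  · have e : (yy - FF c) * ((xx + 1) * (yy - FF c) - 1) =
        C zv - C yv * FF c - FF c * (C yv - 1 - (xx + 1) * FF c) := by rw [Cy, Cz]; ring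
    rw [e]
    exact g7 hx hy hz ht hu hF hc
  · have e : (yy - FF c) ^ 2 * ((xx + 1) * (yy - FF c) - 1) =
        C tv - C yv * (yy * FF c) + (FF c ^ 2 - yy * FF c - yy * FF c) *
          (C yv - 1 - (xx + 1) * FF c) := by rw [Cy, Ct]; ring
    rw [e]
    exact g8 hx hy hz ht hu hF hvF

lemma al_mem2 (c : K) {F : (R K)[X]} (hF : F ∈ (ioS A2).range) :
    Ph (yy - FF c) (X + FF c) F ∈ (ioS A2).range := by
  obtain ⟨h1, h2⟩ := mem_B2.1 hF
  refine mem_B2.2 ⟨al_mem1 c h1, ?_⟩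
  rw [EV_Ph (c := 0) (by simp [FF]), EV_Ph (c := 1) (by simp [FF]), h2]
  simp [FF]

lemma alpha {S : Subalgebra K (R K)}
    (hm : ∀ c, ∀ F ∈ (ioS S).range, Ph (yy - FF c) (X + FF c) F ∈ (ioS S).range) :
    ∃ E : S[X] ≃ₐ[K] S[X], ∀ b, ioS S (E b) = Ph (yy - FF 1) (X + FF 1) (ioS S b) := by
  have hf : ∀ c d : K, Ph (yy - FF c) (X + FF c) (FF d) = FF d := fun c d => by
    have : Ph (yy - FF c) (X + FF c) (yy + X) = yy + X := by simp
    generalize hΦ : Ph (yy - FF c) (X + FF c) = Φ at this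
    have hx : Φ xx = xx := by rw [← hΦ, Ph_x]
    generalize hw : (yy + X : (R K)[X]) = W at this
    simp only [FF, hw, map_mul, map_pow, map_sub, this, AlgHom.commutes, map_add, hx, map_one]
  have hn : (FF (-1) : (R K)[X]) = - FF 1 := by simp only [FF, map_neg, map_one]; ring
  refine equivS _ (Ph (yy - FF (-1)) (X + FF (-1))) (fun F => ?_) (fun F => ?_) (hm 1) (hm (-1))
  · exact AlgHom.congr_fun (ext3 (f := (Ph _ _).comp (Ph _ _)) (g := AlgHom.id K _)
      (by simp) (by rw [AlgHom.comp_apply, Ph_y, map_sub, hf, Ph_y, hn]; simp)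
      (by rw [AlgHom.comp_apply, Ph_u, map_add, hf, Ph_u, hn]; simp)) F
  · exact AlgHom.congr_fun (ext3 (f := (Ph _ _).comp (Ph _ _)) (g := AlgHom.id K _)
      (by simp) (by rw [AlgHom.comp_apply, Ph_y, map_sub, hf, Ph_y, hn]; simp)
      (by rw [AlgHom.comp_apply, Ph_u, map_add, hf, Ph_u, hn]; simp)) F

end H64.TB
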