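import Pool.Agent.H64.TA3

namespace H64.TB

open Polynomial

variable {K : Type} [Field K] [CharZero K]

lemma coeff_one_mem {A : Type} [CommRing A] [Algebra K A] (H : Subalgebra K A[X])
    (hH : ∀ (E : A[X] ≃ₐ[K] A[X]) (a : A), E (C a) ∈ H) (E : A[X] ≃ₐ[K] A[X]) (a : A) :
    C ((E (C a)).coeff 1) * X ∈ H := by
  set F := E (C a) with hF
  have key := H64.SyGa.coeff_mem_sum (Subalgebra.toSubmodule H) (F.natDegree + 2)
    (fun k => monomial k (F.coeff k)) (fun t => by
      by_cases ht : t = 0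
      · rw [Finset.sum_range_succ', ht]
        simpa using hH AlgEquiv.refl (F.coeff 0)
      · letI : Invertible (algebraMap K A t) := (invertibleOfNonzero ht).map (algebraMap K A)
        have := hH (E.trans ((algEquivCMulXAddC (algebraMap K A t) 0).restrictScalars K)) a
        have e : ∑ k ∈ Finset.range (F.natDegree + 2), t ^ k • monomial k (F.coeff k) =
            F.comp (C (algebraMap K A t) * X) := by
          ext n
          rw [comp_C_mul_X_coeff, finsetSum_coeff, Finset.sum_eq_single n]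
          · rw [coeff_smul, coeff_monomial_same, Algebra.smul_def, map_pow, mul_comm]
          · intro b _ hb; simp [coeff_monomial, hb]
          · intro hn
            rw [coeff_eq_zero_of_natDegree_lt (p := F) (by simp at hn; omega)]; simp
        rw [e]
        simpa [comp_eq_aeval] using this) 1 (by omega)
  rwa [C_mul_X_eq_monomial]

omit [CharZero K] in
lemma coeff_one_eq (F : (R K)[X]) : F.coeff 1 = (derivative F).eval 0 := by
  rw [← coeff_zero_eq_eval_zero, coeff_derivative]; simp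

omit [CharZero K] in
lemma j3 : (Ph (yy - FF 1) (X + FF 1) (C (nn * zv)) : (R K)[X]).coeff 1 =
    - (nn ^ 2 * (yv - 1) * (3 * yv - 1) * (2 * yv - 1 - 2 * nn * yv * (yv - 1) ^ 2)) := by
  rw [coeff_one_eq, C_mul, Cn, Cz]
  simp only [map_mul, map_pow, map_sub, map_add, map_one, Ph_x, Ph_y]
  simp only [FF, xx, yy, map_one, derivative_mul, derivative_sub, derivative_add, derivative_C,
    derivative_X, derivative_one, derivative_pow, eval_add, eval_mul, eval_sub, eval_pow, eval_C,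
    eval_X, eval_one, eval_zero, nn, yv]
  push_cast
  ring

omit [CharZero K] in
lemma j4 : (Ph (yy + (xx + 1) * (1 - xx + xx ^ 2) * X) X (C (nn * tv)) : (R K)[X]).coeff 1 =
    nn * (1 - MvPolynomial.X 0 + MvPolynomial.X 0 ^ 2) * (yv * (3 * yv - 2)) := by
  rw [coeff_one_eq, C_mul, Cn, Ct]
  simp only [map_mul, map_pow, map_sub, map_add, map_one, Ph_x, Ph_y]
  simp only [xx, yy, map_one, derivative_mul, derivative_sub, derivative_add, derivative_C,
    derivative_X, derivative_one, derivative_pow, eval_add, eval_mul, eval_sub, eval_pow, eval_C,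
    eval_X, eval_one, eval_zero, nn, yv]
  push_cast
  ring

omit [CharZero K] in
lemma j1 (p : R K) (hp : ∀ P Q, Ph P Q (C p) = C p) :
    (Ph (yy + (xx + 1) * C p * X) X (C (p * yv)) : (R K)[X]).coeff 1 =
    ((MvPolynomial.X 0 + 1) * p) ^ 2 := by
  rw [coeff_one_eq, C_mul, Cy]
  simp only [map_mul, map_add, map_one, Ph_x, Ph_y, hp]
  simp only [xx, yy, derivative_mul, derivative_add, derivative_C,
    derivative_X, derivative_one, eval_add, eval_mul, eval_C, eval_X, eval_one, eval_zero]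
  ring

theorem typeA (H : Subalgebra K (A1 : Subalgebra K (R K))[X])
    (hH : ∀ (E : (A1 : Subalgebra K (R K))[X] ≃ₐ[K] (A1 : Subalgebra K (R K))[X]) (a : A1),
      E (C a) ∈ H) : H = ⊤ := by
  have hC : ∀ a, C a ∈ H := hH AlgEquiv.refl
  let J : Ideal (A1 : Subalgebra K (R K)) :=
    { carrier := {a | C a * X ∈ H}
      zero_mem' := by simp
      add_mem' := fun {a b} ha hb => by
        simp only [Set.mem_setOf_eq, C_add, add_mul] at *
        exact add_mem ha hb
      smul_mem' := fun c a ha => by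
        simp only [Set.mem_setOf_eq, smul_eq_mul, C_mul, mul_assoc] at *
        exact mul_mem (hC c) ha }
  have hJ : ∀ (E : (A1 : Subalgebra K (R K))[X] ≃ₐ[K] (A1 : Subalgebra K (R K))[X]) (a : A1),
    (E (C a)).coeff 1 ∈ J := coeff_one_mem H hH
  suffices h1 : J = ⊤ by
    have hX : X ∈ H := by
      have : (1 : (A1 : Subalgebra K (R K))) ∈ J := h1 ▸ Submodule.mem_top
      simpa [J] using this
    rw [eq_top_iff]
    intro F _
    induction F using Polynomial.induction_on' with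
    | add p q hp hq => exact add_mem (hp trivial) (hq trivial)
    | monomial n a => rw [← C_mul_X_pow_eq_monomial]; exact mul_mem (hC a) (pow_mem hX n)
  by_contra hne
  obtain ⟨M, hM, hle⟩ := J.exists_le_maximal hne
  haveI := hM.isPrime
  let φ := Ideal.Quotient.mk M
  have hφ : ∀ a ∈ J, φ a = 0 := fun a ha => Ideal.Quotient.eq_zero_iff_mem.2 (hle ha)
  let σ : (A1 : Subalgebra K (R K)) := ⟨_, good1.s2⟩
  let ρ : (A1 : Subalgebra K (R K)) := ⟨_, good1.s3⟩
  let Y : (A1 : Subalgebra K (R K)) := ⟨_, good1.cond _ Sg_y⟩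
  have s1 : (1 - MvPolynomial.X 0 : R K) ∈ Sg := sub_mem (one_mem _) Sg_s
  have s2 : (1 - MvPolynomial.X 0 + MvPolynomial.X 0 ^ 2 : R K) ∈ Sg := add_mem s1 (pow_mem Sg_s _)
  have c1 : (C (1 - MvPolynomial.X 0) : (R K)[X]) = 1 - xx := by simp [xx]
  have c2 : (C (1 - MvPolynomial.X 0 + MvPolynomial.X 0 ^ 2) : (R K)[X]) = 1 - xx + xx ^ 2 := by
    simp [xx]
  obtain ⟨E1, e1⟩ := shear1 (K := K) (U_C s1) (by simp [c1])
    ⟨-1, by rw [c1]; simp only [map_mul, map_add, map_sub, map_one, Z_x]; ring⟩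
  obtain ⟨E2, e2⟩ := shear1 (K := K) (U_C s2) (by simp [c2])
    ⟨xx, by rw [c2]; simp only [map_mul, map_add, map_sub, map_one, map_pow, Z_x]; ring⟩
  obtain ⟨E3, e3⟩ := alpha (K := K) (S := A1) (fun c F => al_mem1 c)
  have m1 : ((1 - MvPolynomial.X 0) * yv : R K) ∈ A1 := ⟨mul_mem s1 Sg_y, by
    change (MvPolynomial.X 0 : R K) ^ 2 ∣ _
    exact ⟨- MvPolynomial.X 1, by simp [yv]; ring⟩⟩
  have m2 : ((1 - MvPolynomial.X 0 + MvPolynomial.X 0 ^ 2) * yv : R K) ∈ A1 :=
    ⟨mul_mem s2 Sg_y, by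
      change (MvPolynomial.X 0 : R K) ^ 2 ∣ _
      exact ⟨MvPolynomial.X 0 * MvPolynomial.X 1, by simp [yv]; ring⟩⟩
  have a1 : (E1 (C ⟨_, m1⟩)).coeff 1 = (1 - σ) ^ 2 := Subtype.ext (by
    rw [← ioS_coeff, e1, ioS_C, j1 _ (by simp [c1])]
    simp only [σ]; push_cast; ring)
  have a2 : (E2 (C ⟨_, m2⟩)).coeff 1 = (1 + ρ) ^ 2 := Subtype.ext (by
    rw [← ioS_coeff, e2, ioS_C, j1 _ (by simp [c2])]
    simp only [ρ]; push_cast; ring)
  have a3 : (ρ - σ) ^ 2 * (E3 (C ⟨_, good1.cond _ Sg_z⟩)).coeff 1 =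
      - ((Y - (ρ - σ)) * (Y + Y + Y - (ρ - σ)) * ((ρ - σ) * Y + (ρ - σ) * Y - (ρ - σ) ^ 2 -
        (Y + Y) * (Y - (ρ - σ)) ^ 2)) := Subtype.ext (by
    push_cast
    rw [← ioS_coeff, e3, ioS_C, j3]
    simp only [ρ, σ, Y, nn]; ring)
  have a4 : (ρ - σ) * σ * (E2 (C ⟨_, good1.cond _ Sg_t⟩)).coeff 1 =
      (σ - ρ + σ ^ 2) * (Y * (Y + Y + Y - (ρ - σ) - (ρ - σ))) := Subtype.ext (by
    push_cast
    rw [← ioS_coeff, e2, ioS_C, c2, j4]
    simp only [ρ, σ, Y, nn]; ring)
  have a5 : Y * (Y - (ρ - σ)) = (σ + ρ) * ⟨_, good1.cond _ (mul_mem (sub_mem Sg_s (one_mem _))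
      Sg_z)⟩ := Subtype.ext (by
    push_cast
    simp only [ρ, σ, Y, nn, zv, yv]; ring)
  have b1 := hφ _ (hJ E1 ⟨_, m1⟩)
  have b2 := hφ _ (hJ E2 ⟨_, m2⟩)
  have b3 := congrArg φ a3
  have b4 := congrArg φ a4
  have b5 := congrArg φ a5
  rw [a1, map_pow, pow_eq_zero_iff two_ne_zero, map_sub, map_one, sub_eq_zero] at b1
  rw [a2, map_pow, pow_eq_zero_iff two_ne_zero, map_add, map_one] at b2
  have b2' : φ ρ = -1 := by linear_combination b2
  rw [map_mul, hφ _ (hJ _ _)] at b3 b4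
  simp only [map_mul, map_sub, map_add, map_neg, map_pow, ← b1, b2'] at b3 b4 b5
  have nz : ∀ n : ℕ, n ≠ 0 → ((n : ℕ) : (A1 : Subalgebra K (R K)) ⧸ M) ≠ 0 := fun n hn => by
    have := ((IsUnit.mk0 (n : K) (Nat.cast_ne_zero.2 hn)).map
      (algebraMap K (A1 : Subalgebra K (R K)))).map φ
    rw [map_natCast, map_natCast] at this
    exact this.ne_zero
  have b6 : φ Y * (φ Y + 2) = 0 := by linear_combination b5
  rcases mul_eq_zero.1 b6 with e | e
  · rw [e] at b3
    exact nz 16 (by norm_num) (by push_cast; linear_combination -b3)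
  · have e' : φ Y = -2 := by linear_combination e
    rw [e'] at b4
    exact nz 12 (by norm_num) (by push_cast; linear_combination -b4)

theorem extra (H : Subalgebra K (A2 : Subalgebra K (R K))[X])
    (hH : ∀ (E : (A2 : Subalgebra K (R K))[X] ≃ₐ[K] (A2 : Subalgebra K (R K))[X]) (a : A2),
      E (C a) ∈ H) : ∃ a : (A2 : Subalgebra K (R K)), C a * X ∈ H ∧ ev (-1) 0 (a : R K) ≠ 0 := by
  obtain ⟨E3, e3⟩ := alpha (K := K) (S := A2) (fun c F => al_mem2 c)
  refine ⟨_, coeff_one_mem H hH E3 ⟨_, good2.cond _ Sg_z⟩, ?_⟩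
  rw [← ioS_coeff, e3, ioS_C, j3]
  simp [nn, yv, map_ofNat]
  norm_num

end H64.TB
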