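import Pool.Agent.H64.TA4

namespace H64.TB

open Polynomial

variable {K : Type} [Field K] [CharZero K]

omit [CharZero K] in
lemma mem2 {g : R K} (hg : g ∈ Sg) (h : ev 1 0 g = ev 1 1 g) : MvPolynomial.X 0 ^ 2 * g ∈ A2 :=
  ⟨A1_sq hg, by simp [h]⟩

noncomputable def w' (j : K) : R K :=
  (MvPolynomial.X 0 + 1) * (MvPolynomial.X 1 - MvPolynomial.C j)

omit [CharZero K] in
lemma w'_mem (j : K) : w' j ∈ (Sg : Subalgebra K (R K)) := by
  have := sub_mem Sg_y (mul_mem (Sg.algebraMap_mem j) Sg_x)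
  convert this using 1
  simp only [w', yv, MvPolynomial.algebraMap_eq]; ring

omit [CharZero K] in
lemma w_eq (j : K) : w j = MvPolynomial.X 0 ^ 2 * w' j := by simp only [w, w']; ring

omit [CharZero K] in
lemma w_mem (j : K) : w j ∈ (Sg : Subalgebra K (R K)) := by
  rw [w_eq]; exact mul_mem (pow_mem Sg_s _) (w'_mem j)

lemma br2 (D : Derivation K (A2 : Subalgebra K (R K))[X] (A2 : Subalgebra K (R K))[X]) (j j' : K)
    (hj : (j = 0 ∧ j' = 1) ∨ (j = 1 ∧ j' = 0)) (c : R K) (hcS : c ∈ Sg) (hc : ev 1 j' c = 0)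
    (γ : (A2 : Subalgebra K (R K))) (hγ : (γ : R K) = c * w j ^ 2) :
    EV 1 j (ioS A2 (D (C γ))) = 0 := by
  let κ : (A2 : Subalgebra K (R K))[X] →ₐ[K] (R K)[X] := (Ph (algebraMap K _ j) X).comp (ioS A2)
  have hw : Ph (algebraMap K _ j) X (C (w j)) = 0 := by
    have : (C (w j) : (R K)[X]) = xx ^ 2 * (xx + 1) * (yy - algebraMap K _ j) := by
      simp [w, xx, yy]
    rw [this, map_mul, map_sub, Ph_y, AlgHom.commutes, sub_self, mul_zero]
  have hV : c * w j ∈ (A2 : Subalgebra K (R K)) := by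
    have := mem2 (mul_mem (w'_mem j) hcS) (by
      rcases hj with ⟨rfl, rfl⟩ | ⟨rfl, rfl⟩ <;> simp [hc, w'])
    rwa [← mul_assoc, ← w_eq, mul_comm] at this
  have := kill D κ (α := C ⟨_, good2.cond _ (w'_mem j')⟩) (γ := C γ)
    (W := C ⟨_, good2.cond _ (mul_mem (w'_mem j') (w_mem j))⟩) (V := C ⟨_, hV⟩)
    (by
      rw [← C_mul, ← C_mul]
      congr 1
      apply Subtype.ext
      push_cast
      rw [hγ]; ring)
    (by simp only [κ, AlgHom.comp_apply, ioS_C, hγ, map_mul, pow_two, hw, mul_zero])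
    (by simp only [κ, AlgHom.comp_apply, ioS_C, map_mul, hw, mul_zero])
    (by simp only [κ, AlgHom.comp_apply, ioS_C, map_mul, hw, mul_zero]) (by
      intro e
      have := congrArg (EV 2 0) e
      simp only [κ, AlgHom.comp_apply, ioS_C, map_zero] at this
      rw [EV_Ph (c := j) (AlgHom.commutes _ _), EV_C, aeval_C, Polynomial.algebraMap_apply,
        Algebra.algebraMap_self_apply, C_eq_zero] at this
      rcases hj with ⟨rfl, rfl⟩ | ⟨rfl, rfl⟩ <;> simp [nn, w'] at this <;> norm_num at this)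
  have e := congrArg (EV 1 j) this
  simp only [κ, AlgHom.comp_apply, map_zero] at e
  rw [EV_Ph (c := j) (AlgHom.commutes _ _)] at e
  simpa using e

noncomputable def rho2 : (A2 : Subalgebra K (R K))[X] →ₐ[K] K[X] := (EV 1 0).comp (ioS A2)

omit [CharZero K] in
lemma rho2_C (a : (A2 : Subalgebra K (R K))) : rho2 (C a) = C (ev 1 0 (a : R K)) := by simp [rho2]

lemma D_n2 (D : Derivation K (A2 : Subalgebra K (R K))[X] (A2 : Subalgebra K (R K))[X])
    (f : (A2 : Subalgebra K (R K))) (hf : ev 1 0 (f : R K) = 0) : rho2 (D (C f)) = 0 := by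
  have hf' : ev 1 1 (f : R K) = 0 := (show ev 1 0 (f : R K) = ev 1 1 (f : R K) from f.2.2) ▸ hf
  have hfS : (f : R K) ∈ Sg := f.2.1.1
  have m : ∀ j : K, (f : R K) * w j ^ 2 ∈ (A2 : Subalgebra K (R K)) := fun j => by
    have := mem2 (mul_mem (mul_mem (w'_mem j) (w_mem j)) hfS) (by simp [hf, hf'])
    have e : (f : R K) * w j ^ 2 = MvPolynomial.X 0 ^ 2 * (w' j * w j * (f : R K)) := by
      rw [pow_two, ← mul_assoc, ← mul_assoc, ← mul_assoc, ← w_eq]; ring
    rwa [e]
  have mw : ∀ j : K, w j ^ 2 ∈ (A1 : Subalgebra K (R K)) := fun j =>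
    pow_mem (by rw [w_eq]; exact A1_sq (w'_mem j)) _
  have mr : (4 - w 0 ^ 2 - w 1 ^ 2 : R K) ∈ (A2 : Subalgebra K (R K)) :=
    ⟨sub_mem (sub_mem (ofNat_mem _ 4) (mw 0)) (mw 1), by simp [w, map_ofNat]; norm_num⟩
  have hr : ev 1 0 (4 - w 0 ^ 2 - w 1 ^ 2 : R K) = 0 := by
    simp [w, map_ofNat]; norm_num
  have e : (4 : K) • (C f : (A2 : Subalgebra K (R K))[X]) =
      C ⟨_, m 0⟩ + C ⟨_, m 1⟩ + C f * C ⟨_, mr⟩ := by
    rw [← C_mul, ← C_add, ← C_add, smul_C]
    congr 1
    apply Subtype.ext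
    push_cast
    rw [Algebra.smul_def, map_ofNat]
    ring
  have b0 := br2 D 0 1 (Or.inl ⟨rfl, rfl⟩) f hfS hf' ⟨_, m 0⟩ rfl
  have b1 := br2 D 1 0 (Or.inr ⟨rfl, rfl⟩) f hfS hf ⟨_, m 1⟩ rfl
  rw [← (mem_B2.1 (AlgHom.mem_range_self (ioS A2) _)).2] at b1
  have := congrArg (fun b => rho2 (D b)) e
  simp only [map_add, Derivation.leibniz, smul_eq_mul, map_mul, rho2_C, hf, hr, map_zero, zero_mul,
    add_zero, Derivation.map_smul, map_smul] at this
  have b0' : rho2 (D (C ⟨_, m 0⟩)) = 0 := b0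
  have b1' : rho2 (D (C ⟨_, m 1⟩)) = 0 := b1
  rw [b0', b1', add_zero] at this
  exact (smul_eq_zero.1 this).resolve_left (by norm_num)

lemma D_chain2 (D : Derivation K (A2 : Subalgebra K (R K))[X] (A2 : Subalgebra K (R K))[X])
    (b : (A2 : Subalgebra K (R K))[X]) : rho2 (D b) = derivative (rho2 b) * rho2 (D X) := by
  have hX : rho2 (X : (A2 : Subalgebra K (R K))[X]) = X := by simp [rho2]
  induction b using Polynomial.induction_on with
  | C a =>
    have := D_n2 D (a - algebraMap K _ (ev 1 0 (a : R K))) (by simp)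
    have e : (C (algebraMap K (A2 : Subalgebra K (R K)) (ev 1 0 (a : R K))) :
      (A2 : Subalgebra K (R K))[X]) = algebraMap K _ (ev 1 0 (a : R K)) := rfl
    have e2 : (C a : (A2 : Subalgebra K (R K))[X]) = C (a - algebraMap K _ (ev 1 0 (a : R K))) +
        algebraMap K _ (ev 1 0 (a : R K)) := by rw [← e, ← C_add, sub_add_cancel]
    have e3 := congrArg (fun b => rho2 (D b)) e2
    simp only [map_add, Derivation.map_algebraMap, this, map_zero, add_zero] at e3
    rw [e3, rho2_C]; simp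
  | add p q hp hq => simp [hp, hq, add_mul]
  | monomial n a ih =>
    rw [pow_succ, ← mul_assoc, Derivation.leibniz, map_mul rho2 _ X, derivative_mul]
    simp only [smul_eq_mul, map_add, map_mul rho2, ih, hX, derivative_X]
    ring

lemma ker_const2 (D : Derivation K (A2 : Subalgebra K (R K))[X] (A2 : Subalgebra K (R K))[X])
    (hs : ∃ s, D s = 1) {b : (A2 : Subalgebra K (R K))[X]} (hb : D b = 0) :
    rho2 b ∈ (⊥ : Subalgebra K K[X]) := by
  obtain ⟨s, hs⟩ := hs
  have h1 := D_chain2 D s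
  have h2 := D_chain2 D b
  rw [hs, map_one] at h1
  rw [hb, map_zero] at h2
  have h3 : derivative (rho2 b) = 0 :=
    (mul_eq_zero.1 h2.symm).resolve_right (right_ne_zero_of_mul (h1 ▸ one_ne_zero))
  exact Algebra.mem_bot.2 ⟨_, (eq_C_of_derivative_eq_zero h3).symm⟩

omit [CharZero K] in
lemma pd_mem {f : R K} (hf : f ∈ Sg) : (MvPolynomial.X 0 + 1) * MvPolynomial.pderiv 1 f ∈ Sg := by
  have p0 : MvPolynomial.pderiv 1 (MvPolynomial.X 0 : R K) = 0 := by simp [MvPolynomial.pderiv_X]
  induction hf using Algebra.adjoin_induction with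
  | mem x hx =>
    simp only [Set.mem_insert_iff, Set.mem_singleton_iff] at hx
    rcases hx with rfl | rfl | rfl | rfl
    · rw [p0, mul_zero]; exact zero_mem _
    · have := mul_mem (Sg_x (K := K)) Sg_x
      convert this using 1
      simp [yv, p0]
    · have := mul_mem (Sg_x (K := K)) (sub_mem (add_mem Sg_y Sg_y) (one_mem _))
      convert this using 1
      simp only [zv, yv, Derivation.leibniz, p0, MvPolynomial.pderiv_X_self,
        map_add, map_sub, Derivation.map_one_eq_zero, smul_eq_mul]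
      ring
    · have := mul_mem (Sg_y (K := K)) (sub_mem (sub_mem (add_mem (add_mem Sg_y Sg_y) Sg_y)
        (one_mem _)) (one_mem _))
      convert this using 1
      simp only [tv, yv, Derivation.leibniz, Derivation.leibniz_pow, p0, MvPolynomial.pderiv_X_self,
        map_add, map_sub, Derivation.map_one_eq_zero, smul_eq_mul, nsmul_eq_mul]
      push_cast
      ring
  | algebraMap r => rw [Derivation.map_algebraMap, mul_zero]; exact zero_mem _
  | add x y _ _ hx hy => rw [map_add, mul_add]; exact add_mem hx hy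
  | mul x y hx' hy' hx hy =>
    have := add_mem (mul_mem hx' hy) (mul_mem hy' hx)
    have e : (MvPolynomial.X 0 + 1) * MvPolynomial.pderiv 1 (x * y) =
        x * ((MvPolynomial.X 0 + 1) * MvPolynomial.pderiv 1 y) +
        y * ((MvPolynomial.X 0 + 1) * MvPolynomial.pderiv 1 x) := by
      simp only [Derivation.leibniz, smul_eq_mul]; ring
    rw [e]; exact this

omit [CharZero K] in
lemma pd_nil (f : R K) : ∃ n : ℕ, (⇑(MvPolynomial.pderiv 1 : Derivation K (R K) (R K)))^[n + 1] f
    = 0 := by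
  induction f using MvPolynomial.induction_on with
  | C a => exact ⟨0, by simp⟩
  | add p q hp hq =>
    obtain ⟨n, hn⟩ := hp
    obtain ⟨m, hm⟩ := hq
    refine ⟨n + m, ?_⟩
    rw [iter_add, show n + m + 1 = m + (n + 1) by omega, Function.iterate_add_apply, hn, iter_zero,
      show m + (n + 1) = n + (m + 1) by omega, Function.iterate_add_apply, hm, iter_zero, add_zero]
  | mul_X p i hp =>
    obtain ⟨n, hn⟩ := hp
    refine ⟨n + 1, (iter_mul _ (n + 1) n 1 p _ rfl hn ?_).2⟩
    fin_cases i <;> simp [MvPolynomial.pderiv_X]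

theorem nonrigid {S : Subalgebra K (R K)} (hS : Good S) :
    ∃ D : Derivation K S S, (∀ b : S, ∃ n : ℕ, (⇑D)^[n] b = 0) ∧ D ≠ 0 := by
  have hm : ∀ f : S, h * MvPolynomial.pderiv 1 (f : R K) ∈ S := fun f => by
    have := hS.cond _ (pd_mem (hS.le _ f.2).1)
    rwa [← mul_assoc, ← h_eq] at this
  have pH : MvPolynomial.pderiv 1 (h : R K) = 0 := by
    simp [h, Derivation.leibniz, MvPolynomial.pderiv_X]
  let D : Derivation K S S := Derivation.mk'
    { toFun := fun f => ⟨_, hm f⟩
      map_add' := fun f g => Subtype.ext (by simp [mul_add])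
      map_smul' := fun c f => Subtype.ext (by simp) } (fun f g => Subtype.ext (by
        simp; ring))
  have hD : ∀ f : S, (D f : R K) = h * MvPolynomial.pderiv 1 (f : R K) := fun f => rfl
  refine ⟨D, fun b => ?_, fun e => ?_⟩
  · have : ∀ n : ℕ, (((⇑D)^[n] b : S) : R K) =
        h ^ n * (⇑(MvPolynomial.pderiv 1 : Derivation K (R K) (R K)))^[n] b := by
      intro n
      induction n with
      | zero => simp
      | succ n ih =>
        rw [Function.iterate_succ_apply', hD, ih, Function.iterate_succ_apply']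
        simp [pH]; ring
    obtain ⟨n, hn⟩ := pd_nil (b : R K)
    exact ⟨n + 1, Subtype.ext (by rw [this, hn, mul_zero]; rfl)⟩
  · have := hD ⟨_, hS.cond _ Sg_y⟩
    rw [e] at this
    have e2 : (nn * yv : R K) = h * MvPolynomial.X 1 := by simp only [yv, h_eq]; ring
    simp [e2, pH, h_ne] at this

end H64.TB
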