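import Mathlib

/-! A cuspidal surface with two nodes: non-cancellation in type B. -/

namespace H64.TB

open MvPolynomial

variable {K : Type} [Field K]

def Cg {S : Type} [CommRing S] [Algebra K S] (z : S →ₐ[K] S) (d : S) : Subalgebra K S where
  carrier := {f | d ∣ f - z f}
  mul_mem' := fun {f g} hf hg => by
    have : f * g - z (f * g) = (f - z f) * g + z f * (g - z g) := by rw [map_mul]; ring
    simp only [Set.mem_setOf_eq] at *
    rw [this]
    exact (hf.mul_right _).add (hg.mul_left _)
  add_mem' := fun {f g} hf hg => by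
    have : f + g - z (f + g) = (f - z f) + (g - z g) := by rw [map_add]; ring
    simp only [Set.mem_setOf_eq] at *
    rw [this]
    exact hf.add hg
  algebraMap_mem' := fun r => by simp

abbrev R (K : Type) [Field K] := MvPolynomial (Fin 2) K

noncomputable def ev (a b : K) : R K →ₐ[K] K := aeval ![a, b]
noncomputable def z : R K →ₐ[K] R K := aeval ![0, X 1]

@[simp] lemma ev_X0 (a b : K) : ev a b (X 0) = a := by simp [ev]
@[simp] lemma ev_X1 (a b : K) : ev a b (X 1) = b := by simp [ev]
@[simp] lemma ev_C (a b c : K) : ev a b (C c) = c := by simp [ev]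
@[simp] lemma z_X0 : z (X 0 : R K) = 0 := by simp [z]
@[simp] lemma z_X1 : z (X 1 : R K) = X 1 := by simp [z]
@[simp] lemma z_C (c : K) : z (C c : R K) = C c := by simp [z]

noncomputable def A (t : K) : Subalgebra K (R K) :=
  Cg z (X 0 ^ 2) ⊓ AlgHom.equalizer (ev 1 0) (ev 1 1) ⊓ AlgHom.equalizer (ev (-1) 0) (ev (-1) t)

lemma mem_A {t : K} {f : R K} : f ∈ A t ↔
    (X 0 : R K) ^ 2 ∣ f - z f ∧ ev 1 0 f = ev 1 1 f ∧ ev (-1) 0 f = ev (-1) t f := by
  simp only [A, Algebra.mem_inf, AlgHom.mem_equalizer, and_assoc]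
  rfl

lemma mem1 (t : K) (g : R K) (h : ev 1 0 g = ev 1 1 g) : X 0 ^ 2 * (X 0 + 1) * g ∈ A t :=
  mem_A.2 ⟨by simp [mul_assoc], by simp [h], by simp⟩

noncomputable def h : R K := X 0 ^ 2 * (X 0 + 1) * (X 0 - 1)

lemma cond (t : K) (g : R K) : h * g ∈ A t := by
  have := mem1 t ((X 0 - 1) * g) (by simp)
  rwa [← mul_assoc] at this

lemma h_mem (t : K) : (h : R K) ∈ A t := by simpa using cond t 1

lemma h_ne [CharZero K] : (h : R K) ≠ 0 := fun e => by
  have := congrArg (ev 2 0) e
  simp [h] at this
  norm_num at this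

lemma integral (t : K) (f : R K) : IsIntegral (A t) f := by
  induction f using MvPolynomial.induction_on with
  | C a => exact isIntegral_algebraMap (x := algebraMap K (A t) a)
  | add p q hp hq => exact hp.add hq
  | mul_X p i hp =>
    refine hp.mul ?_
    fin_cases i
    · exact IsIntegral.of_pow two_pos
        (isIntegral_algebraMap (x := (⟨X 0 ^ 2, mem_A.2 ⟨by simp, by simp, by simp⟩⟩ : A t)))
    · let g : A t := ⟨X 1 * (X 1 - 1) * (X 1 - C t), mem_A.2 ⟨by simp, by simp, by simp⟩⟩
      refine ⟨Polynomial.X * (Polynomial.X - 1) * (Polynomial.X - Polynomial.C (algebraMap K _ t))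
        - Polynomial.C g, by monicity!, ?_⟩
      simp only [Polynomial.eval₂_sub, Polynomial.eval₂_mul, Polynomial.eval₂_X,
        Polynomial.eval₂_C, Polynomial.eval₂_one]
      exact sub_self _

lemma A_fg (t : K) : (A t).FG := by
  haveI : Algebra.IsIntegral (A t) (R K) := ⟨integral t⟩
  haveI : Algebra.FiniteType (A t) (R K) := Algebra.FiniteType.of_restrictScalars_finiteType K _ _
  haveI : Module.Finite (A t) (R K) := Algebra.IsIntegral.finite
  exact (A t).fg_top.1 (fg_of_fg_of_fg K (A t) (R K) Algebra.FiniteType.out Module.Finite.fg_top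
    Subtype.val_injective)

variable [CharZero K]

lemma extend (t : K) (φ : A t →ₐ[K] R K) (hφ : Function.Injective φ) :
    ∃ σ : R K →ₐ[K] R K, ∀ a : A t, σ a = φ a := by
  let F := FractionRing (R K)
  let ι := algebraMap (R K) F
  have hι : Function.Injective ι := IsFractionRing.injective _ _
  let H : A t := ⟨h, h_mem t⟩
  let m : R K → A t := fun f => ⟨h * f, cond t f⟩
  have hH : ι (φ H) ≠ 0 := by
    rw [map_ne_zero_iff _ hι, map_ne_zero_iff _ hφ]
    exact fun e => h_ne (congrArg Subtype.val e)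
  let ψ : R K →+* F :=
    { toFun := fun f => ι (φ (m f)) / ι (φ H)
      map_one' := by
        have : m 1 = H := Subtype.ext (mul_one _)
        rw [this, div_self hH]
      map_mul' := fun f g => by
        have : m (f * g) * H = m f * m g := Subtype.ext (by simp only [m, H]; push_cast; ring)
        have := congrArg (fun a => ι (φ a)) this
        simp only [map_mul] at this
        rw [div_mul_div_comm, div_eq_div_iff hH (mul_ne_zero hH hH)]
        linear_combination ι (φ H) * this
      map_zero' := by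
        have : m 0 = 0 := Subtype.ext (mul_zero _)
        simp [this]
      map_add' := fun f g => by
        have : m (f + g) = m f + m g := Subtype.ext (mul_add _ _ _)
        rw [this, map_add, map_add, add_div] }
  have hψ : ∀ a : A t, ψ a = ι (φ a) := fun a => by
    have : m a = H * a := rfl
    change ι (φ (m a)) / ι (φ H) = _
    rw [this, map_mul, map_mul, mul_div_cancel_left₀ _ hH]
  have hint : ∀ f, ∃ r, ι r = ψ f := fun f =>
    IsIntegrallyClosed.algebraMap_eq_of_integral
      (IsIntegral.map_of_comp_eq (φ : A t →+* R K) ψ (RingHom.ext fun a => (hψ a).symm)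
        (integral t f))
  choose r hr using hint
  have key : ι.comp (aeval (fun i => r (X i)) : R K →ₐ[K] R K) = ψ := by
    refine MvPolynomial.ringHom_ext (fun a => ?_) (fun i => by simp [hr])
    have := hψ (algebraMap K (A t) a)
    rw [AlgHom.commutes] at this
    simpa using this.symm
  exact ⟨aeval (fun i => r (X i)), fun a => hι ((RingHom.congr_fun key a).trans (hψ a))⟩

omit [CharZero K] in
lemma chain (σ : R K →ₐ[K] R K) (h0 : pderiv 1 (σ (X 0)) = 0) (f : R K) :
    pderiv 1 (σ f) = σ (pderiv 1 f) * pderiv 1 (σ (X 1)) := by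
  induction f using MvPolynomial.induction_on with
  | C a => simp [algHom_C]
  | add p q hp hq => simp [hp, hq, add_mul]
  | mul_X p i hp =>
    fin_cases i
    · simp [Derivation.leibniz, hp, h0, pderiv_X]; ring
    · simp [Derivation.leibniz, hp, pderiv_X]; ring

lemma diff (P : R K) (μ : K) (hP : pderiv 1 P = C μ) (a b : K) : ev a b P = ev a 0 P + μ * b := by
  let κ : R K →ₐ[K] Polynomial K := aeval ![Polynomial.C a, Polynomial.X]
  have h1 : ∀ f, Polynomial.derivative (κ f) = κ (pderiv 1 f) := by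
    intro f
    induction f using MvPolynomial.induction_on with
    | C a => simp [κ]
    | add p q hp hq => simp [hp, hq]
    | mul_X p i hp =>
      rw [map_mul, Polynomial.derivative_mul, hp]
      fin_cases i
      · simp [κ, Derivation.leibniz, pderiv_X]; ring
      · simp [κ, Derivation.leibniz, pderiv_X]; ring
  have h2 : ∀ b f, (κ f).eval b = ev a b f := fun b f => by
    have : (Polynomial.aeval b).comp κ = ev a b :=
      MvPolynomial.algHom_ext fun i => by fin_cases i <;> simp [κ]
    simpa using AlgHom.congr_fun this f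
  have h3 : Polynomial.derivative (κ P - Polynomial.C μ * Polynomial.X) = 0 := by
    rw [map_sub, h1, hP]; simp [κ]
  have h4 := Polynomial.eq_C_of_derivative_eq_zero h3
  have e1 := congrArg (Polynomial.eval b) h4
  have e2 := congrArg (Polynomial.eval 0) h4
  simp only [Polynomial.eval_sub, Polynomial.eval_mul, Polynomial.eval_C, Polynomial.eval_X,
    h2] at e1 e2
  linear_combination e1 - e2

omit [CharZero K] in
lemma sq_one {b b' : K} (hne : b' ≠ b) (h1 : b * (b - 1) = b' * (b' - 1))
    (h2 : b ^ 2 * (b - 1) = b' ^ 2 * (b' - 1)) : (b' - b) ^ 2 = 1 := by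
  have e1 : b + b' = 1 := by
    apply mul_left_cancel₀ (sub_ne_zero.2 hne)
    linear_combination -h1
  have e2 : b * b' = 0 := by
    apply mul_left_cancel₀ (sub_ne_zero.2 hne)
    linear_combination h2 + (b' - b) * (b + b') * e1
  linear_combination (b + b' + 1) * e1 - 4 * e2

theorem not_iso : IsEmpty (A (1 : K) ≃ₐ[K] A (2 : K)) := ⟨fun θ => by
  obtain ⟨σ, hσ⟩ := extend 1 ((A 2).val.comp θ.toAlgHom) (Subtype.val_injective.comp θ.injective)
  obtain ⟨τ, hτ⟩ := extend 2 ((A 1).val.comp θ.symm.toAlgHom)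
    (Subtype.val_injective.comp θ.symm.injective)
  have hσ' : ∀ a : A (1 : K), σ a = θ a := hσ
  have hτ' : ∀ a : A (2 : K), τ a = θ.symm a := hτ
  have st : ∀ f, σ (τ f) = f := fun f => by
    have e1 : σ (τ (h * f)) = h * f := by
      rw [hτ' ⟨_, cond 2 f⟩, hσ', AlgEquiv.apply_symm_apply]
    have e2 : σ (τ h) = h := by rw [hτ' ⟨_, h_mem 2⟩, hσ', AlgEquiv.apply_symm_apply]
    rw [map_mul, map_mul, e2] at e1
    exact mul_left_cancel₀ h_ne e1
  have ts : ∀ f, τ (σ f) = f := fun f => by
    have e1 : τ (σ (h * f)) = h * f := by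
      rw [hσ' ⟨_, cond 1 f⟩, hτ', AlgEquiv.symm_apply_apply]
    have e2 : τ (σ h) = h := by rw [hσ' ⟨_, h_mem 1⟩, hτ', AlgEquiv.symm_apply_apply]
    rw [map_mul, map_mul, e2] at e1
    exact mul_left_cancel₀ h_ne e1
  have mem : ∀ f ∈ A (1 : K), σ f ∈ A (2 : K) := fun f hf => by
    rw [hσ' ⟨f, hf⟩]; exact (θ ⟨f, hf⟩).2
  have hp : Prime (X 0 : R K) := X_prime
  have d1 : (X 0 : R K) ∣ σ h := by
    have := (mem_A.1 (mem _ (cond 1 (τ (X 0))))).1
    rw [map_mul, st, map_mul, z_X0, mul_zero, sub_zero, pow_two] at this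
    exact (mul_dvd_mul_iff_right hp.ne_zero).1 this
  have d2 : ∃ a : K, (X 0 : R K) ∣ σ (X 0 - C a) := by
    rw [h, map_mul, map_mul, map_pow] at d1
    rcases hp.dvd_or_dvd d1 with d | d
    · rcases hp.dvd_or_dvd d with d | d
      · exact ⟨0, by simpa using hp.dvd_of_dvd_pow d⟩
      · exact ⟨-1, by simpa using d⟩
    · exact ⟨1, by simpa using d⟩
  obtain ⟨a, w, hw⟩ := d2
  have hwu : IsUnit w := by
    let s : K → R K →ₐ[K] R K := fun c => aeval ![X 0 + C c, X 1]
    have hs : ∀ f, s (-a) (s a f) = f := fun f => by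
      have : (s (-a)).comp (s a) = AlgHom.id K _ :=
        MvPolynomial.algHom_ext fun i => by fin_cases i <;> simp [s]
      exact AlgHom.congr_fun this f
    have e := congrArg (fun f => s a (τ f)) hw
    simp only [ts, map_mul] at e
    have e' : s a (X 0 - C a) = X 0 := by simp [s]
    rw [e'] at e
    rcases hp.irreducible.isUnit_or_isUnit e with u | u
    · have := (u.map (s (-a))).map σ
      rw [hs, st] at this
      exact absurd this hp.not_unit
    · have := (u.map (s (-a))).map σ
      rwa [hs, st] at this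
  obtain ⟨l, -, rfl⟩ := isUnit_iff_eq_C_of_isReduced.1 hwu
  have h0 : pderiv 1 (σ (X 0)) = 0 := by
    have := congrArg (pderiv 1) hw
    simpa [algHom_C, Derivation.leibniz, pderiv_X] using this
  have h1 := chain σ h0 (τ (X 1))
  rw [st, pderiv_X_self] at h1
  obtain ⟨μ, hμ, hμe⟩ := isUnit_iff_eq_C_of_isReduced.1 (IsUnit.of_mul_eq_one_right _ h1.symm)
  have m1 := mem_A.1 (mem (X 1 * (X 1 - 1)) (mem_A.2 ⟨by simp, by simp, by simp⟩))
  have m2 := mem_A.1 (mem (X 1 ^ 2 * (X 1 - 1)) (mem_A.2 ⟨by simp, by simp, by simp⟩))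
  simp only [map_mul, map_sub, map_pow, map_one] at m1 m2
  have hμ0 := hμ.ne_zero
  have a1 := sq_one (by rw [diff _ μ hμe 1 1]; simpa using hμ0) m1.2.1 m2.2.1
  have a2 := sq_one (by rw [diff _ μ hμe (-1) 2]; simpa using hμ0) m1.2.2 m2.2.2
  rw [diff _ μ hμe 1 1] at a1
  rw [diff _ μ hμe (-1) 2] at a2
  have : (3 : K) = 0 := by linear_combination a2 - 4 * a1
  norm_num at this⟩

end H64.TB
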