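import Pool.Agent.H64.TB1

namespace H64.TB

open Polynomial

variable {K : Type} [Field K]

noncomputable def xx : (R K)[X] := C (MvPolynomial.X 0)
noncomputable def yy : (R K)[X] := C (MvPolynomial.X 1)

lemma ext3 {T : Type} [CommRing T] [Algebra K T] {f g : (R K)[X] →ₐ[K] T} (hx : f xx = g xx)
    (hy : f yy = g yy) (hu : f X = g X) : f = g :=
  Polynomial.algHom_ext' (MvPolynomial.algHom_ext fun i => by
    fin_cases i
    · exact hx
    · exact hy) hu

noncomputable def io (t : K) : (A t)[X] →ₐ[K] (R K)[X] := mapAlgHom (A t).val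
noncomputable def EV (a b : K) : (R K)[X] →ₐ[K] K[X] := mapAlgHom (ev a b)
noncomputable def Z : (R K)[X] →ₐ[K] (R K)[X] := mapAlgHom z
noncomputable def Ph (P Q : (R K)[X]) : (R K)[X] →ₐ[K] (R K)[X] :=
  aevalTower (MvPolynomial.aeval ![xx, P]) Q

@[simp] lemma EV_x (a b : K) : EV a b xx = C a := by simp [EV, xx]
@[simp] lemma EV_y (a b : K) : EV a b yy = C b := by simp [EV, yy]
@[simp] lemma EV_u (a b : K) : EV a b X = X := by simp [EV]
@[simp] lemma Z_x : Z (xx : (R K)[X]) = 0 := by simp [Z, xx]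
@[simp] lemma Z_y : Z (yy : (R K)[X]) = yy := by simp [Z, yy]
@[simp] lemma Z_u : Z (X : (R K)[X]) = X := by simp [Z]
@[simp] lemma Ph_x (P Q : (R K)[X]) : Ph P Q xx = xx := by simp [Ph, xx]
@[simp] lemma Ph_y (P Q : (R K)[X]) : Ph P Q yy = P := by simp [Ph, yy]
@[simp] lemma Ph_u (P Q : (R K)[X]) : Ph P Q X = Q := by simp [Ph]
@[simp] lemma io_C (t : K) (a : A t) : io t (C a) = C (a : R K) := by simp [io]
@[simp] lemma io_u (t : K) : io t X = X := by simp [io]
lemma io_coeff (t : K) (F : (A t)[X]) (i : ℕ) : (io t F).coeff i = F.coeff i := by simp [io]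
lemma EV_coeff (a b : K) (F : (R K)[X]) (i : ℕ) : (EV a b F).coeff i = ev a b (F.coeff i) := by
  simp [EV]
@[simp] lemma EV_C (a b : K) (f : R K) : EV a b (C f) = C (ev a b f) := by simp [EV]

lemma io_inj (t : K) : Function.Injective (io t) :=
  Polynomial.map_injective ((A t).val : A t →+* R K) Subtype.val_injective

lemma mem_B {t : K} {F : (R K)[X]} : F ∈ (io t).range ↔
    xx ^ 2 ∣ F - Z F ∧ EV 1 0 F = EV 1 1 F ∧ EV (-1) 0 F = EV (-1) t F := by
  have h1 : F ∈ (io t).range ↔ ∀ i, F.coeff i ∈ A t := by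
    have := Polynomial.mem_map_range ((A t).val : A t →+* R K) (p := F)
    constructor
    · rintro ⟨G, rfl⟩ i
      exact (io_coeff t G i).symm ▸ (G.coeff i).2
    · intro h
      obtain ⟨G, hG⟩ := this.2 fun i => ⟨⟨_, h i⟩, rfl⟩
      exact ⟨G, hG⟩
  rw [h1, xx, ← C_pow, C_dvd_iff_dvd_coeff]
  simp only [mem_A, forall_and, Polynomial.ext_iff, EV_coeff, coeff_sub, Z, coe_mapAlgHom,
    coeff_map, RingHom.coe_coe]

lemma EV_Ph {P Q : (R K)[X]} {a b c : K} (h : EV a b P = C c) (F : (R K)[X]) :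
    EV a b (Ph P Q F) = aeval (EV a b Q) (EV a c F) := by
  have : (EV a b).comp (Ph P Q) = (aeval (EV a b Q)).comp (EV a c) :=
    ext3 (by simp) (by simp [h]) (by simp)
  exact AlgHom.congr_fun this F

lemma Ph_mem {P Q : (R K)[X]} {s t : K} (hP : xx ^ 2 ∣ P - Z P) (hQ : xx ^ 2 ∣ Q - Z Q)
    (p1 : EV 1 0 P = C 0) (p2 : EV 1 1 P = C 1) (p3 : EV (-1) 0 P = C 0) (p4 : EV (-1) s P = C t)
    (q1 : EV 1 0 Q = EV 1 1 Q) (q2 : EV (-1) 0 Q = EV (-1) s Q) {F : (R K)[X]}
    (hF : F ∈ (io t).range) : Ph P Q F ∈ (io s).range := by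
  obtain ⟨⟨G, hG⟩, h2, h3⟩ := mem_B.1 hF
  refine mem_B.2 ⟨?_, by rw [EV_Ph p1, EV_Ph p2, q1, h2], by rw [EV_Ph p3, EV_Ph p4, q2, h3]⟩
  have e : Ph P Q F = Ph P Q (Z F) + xx ^ 2 * Ph P Q G := by
    have : F = Z F + xx ^ 2 * G := by rw [← hG]; ring
    conv_lhs => rw [this]
    simp
  have m1 : ∀ F, Ph P Q (Z F) ∈ Cg Z (xx ^ 2 : (R K)[X]) := by
    intro F
    have hc : ∀ f : R K, Ph P Q (Z (C f)) ∈ Cg Z (xx ^ 2 : (R K)[X]) := by
      intro f
      induction f using MvPolynomial.induction_on with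
      | C a => 
        have : (C (MvPolynomial.C a) : (R K)[X]) = algebraMap K _ a := rfl
        rw [this, AlgHom.commutes, AlgHom.commutes]
        exact Subalgebra.algebraMap_mem _ _
      | add p q hp hq => simp only [map_add]; exact add_mem hp hq
      | mul_X p i hp =>
        simp only [map_mul]
        refine mul_mem hp ?_
        fin_cases i
        · have : Ph P Q (Z xx) = 0 := by simp
          exact this.symm ▸ zero_mem _
        · have : Ph P Q (Z yy) = P := by simp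
          exact this.symm ▸ hP
    induction F using Polynomial.induction_on with
    | C a => exact hc a
    | add p q hp hq => simp only [map_add]; exact add_mem hp hq
    | monomial n a ih =>
      rw [pow_succ X, ← mul_assoc, map_mul, map_mul, Z_u, Ph_u]
      exact mul_mem ih hQ
  have m2 : xx ^ 2 * Ph P Q G ∈ Cg Z (xx ^ 2 : (R K)[X]) := by
    change xx ^ 2 ∣ _
    simp
  rw [e]
  exact add_mem (m1 F) m2

lemma equiv_of {s t : K} (Φ Ψ : (R K)[X] →ₐ[K] (R K)[X]) (h1 : ∀ F, Φ (Ψ F) = F)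
    (h2 : ∀ F, Ψ (Φ F) = F) (m1 : ∀ F ∈ (io t).range, Φ F ∈ (io s).range)
    (m2 : ∀ F ∈ (io s).range, Ψ F ∈ (io t).range) :
    ∃ E : (A t)[X] ≃ₐ[K] (A s)[X], ∀ b, io s (E b) = Φ (io t b) := by
  let e : (io t).range ≃ₐ[K] (io s).range :=
    AlgEquiv.ofAlgHom ((Φ.comp (io t).range.val).codRestrict _ fun F => m1 F F.2)
      ((Ψ.comp (io s).range.val).codRestrict _ fun F => m2 F F.2)
      (AlgHom.ext fun F => Subtype.ext (h1 F)) (AlgHom.ext fun F => Subtype.ext (h2 F))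
  refine ⟨(AlgEquiv.ofInjective _ (io_inj t)).trans
    (e.trans (AlgEquiv.ofInjective _ (io_inj s)).symm), fun b => ?_⟩
  have := congrArg Subtype.val ((AlgEquiv.ofInjective _ (io_inj s)).apply_symm_apply
    (e (AlgEquiv.ofInjective _ (io_inj t) b)))
  exact this

theorem cyl [CharZero K] : Nonempty ((A (2 : K))[X] ≃ₐ[K] (A (1 : K))[X]) := by
  let q : (R K)[X] := algebraMap K _ 2⁻¹
  have hq : 2 * q = 1 := by
    have : (2 : (R K)[X]) = algebraMap K _ 2 := by simp [map_ofNat]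
    rw [this, ← map_mul, mul_inv_cancel₀ two_ne_zero, map_one]
  have hq' : 2 * (C 2⁻¹ : K[X]) = 1 := by
    have : (2 : K[X]) = C 2 := rfl
    rw [this, ← map_mul, mul_inv_cancel₀ two_ne_zero, map_one]
  have c1 : ∀ P Q, Ph P Q q = q := fun P Q => AlgHom.commutes _ _
  have c2 : Z q = q := AlgHom.commutes _ _
  have c3 : ∀ a b, EV a b q = C 2⁻¹ := fun a b => AlgHom.commutes _ _
  let a : (R K)[X] := (xx ^ 3 - 1) ^ 2 * (xx ^ 3 + 2)
  let m11 := 1 + a * q ^ 2
  let m22 := 1 - a * q ^ 3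
  let m12 : (R K)[X] := xx ^ 6 - 1
  let m21 := (xx ^ 6 - 1) * (4 - xx ^ 6) * q ^ 5
  have det : m11 * m22 - m12 * m21 = 1 := by
    simp only [m11, m22, m12, m21, a]
    linear_combination (-((xx ^ 3 - 1) ^ 2 * (xx ^ 3 + 2)) * q ^ 2 * (2 * q ^ 2 + q + 1)) * hq
  have f11 : ∀ P Q, Ph P Q m11 = m11 := fun P Q => by simp [m11, a, c1, map_ofNat]
  have f22 : ∀ P Q, Ph P Q m22 = m22 := fun P Q => by simp [m22, a, c1, map_ofNat]
  have f12 : ∀ P Q, Ph P Q m12 = m12 := fun P Q => by simp [m12]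
  have f21 : ∀ P Q, Ph P Q m21 = m21 := fun P Q => by simp [m21, c1, map_ofNat]
  let U := Cg Z (xx ^ 2 : (R K)[X])
  have u3 : (xx ^ 3 : (R K)[X]) ∈ U := by
    change xx ^ 2 ∣ _
    simp [pow_dvd_pow]
  have u6 : (xx ^ 6 : (R K)[X]) ∈ U := by
    have := mul_mem u3 u3
    rwa [← pow_add] at this
  have uq : q ∈ U := U.algebraMap_mem _
  have uy : (yy : (R K)[X]) ∈ U := by change xx ^ 2 ∣ _; simp
  have uu : (X : (R K)[X]) ∈ U := by change xx ^ 2 ∣ _; simp
  have ua : a ∈ U := mul_mem (pow_mem (sub_mem u3 (one_mem _)) _) (add_mem u3 (ofNat_mem _ 2))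
  have u11 : m11 ∈ U := add_mem (one_mem _) (mul_mem ua (pow_mem uq _))
  have u22 : m22 ∈ U := sub_mem (one_mem _) (mul_mem ua (pow_mem uq _))
  have u12 : m12 ∈ U := sub_mem u6 (one_mem _)
  have u21 : m21 ∈ U :=
    mul_mem (mul_mem (sub_mem u6 (one_mem _)) (sub_mem (ofNat_mem _ 4) u6)) (pow_mem uq _)
  have e12 : ∀ b, EV 1 b m12 = 0 := fun b => by simp [m12]
  have e12' : ∀ b, EV (-1) b m12 = 0 := fun b => by simp [m12]; norm_num
  have e21 : ∀ b, EV 1 b m21 = 0 := fun b => by simp [m21]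
  have e21' : ∀ b, EV (-1) b m21 = 0 := fun b => by simp [m21]; norm_num
  have e11 : ∀ b, EV 1 b m11 = 1 := fun b => by simp [m11, a]
  have e22 : ∀ b, EV 1 b m22 = 1 := fun b => by simp [m22, a]
  have e11' : ∀ b, EV (-1) b m11 = 2 := fun b => by
    simp only [m11, a, map_add, map_mul, map_pow, map_sub, map_one, EV_x, c3, map_ofNat, map_neg]
    linear_combination (2 * C 2⁻¹ + 1) * hq'
  have e22' : ∀ b, EV (-1) b m22 = C 2⁻¹ := fun b => by
    simp only [m22, a, map_add, map_mul, map_pow, map_sub, map_one, EV_x, c3, map_ofNat, map_neg]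
    linear_combination (-(2 * C 2⁻¹ ^ 2 + C 2⁻¹ + 1)) * hq'
  obtain ⟨E, -⟩ := equiv_of (s := 1) (t := 2) (Ph (m11 * yy + m12 * X) (m21 * yy + m22 * X))
    (Ph (m22 * yy - m12 * X) (m11 * X - m21 * yy)) (fun F => by
      refine AlgHom.congr_fun (ext3 (f := (Ph _ _).comp (Ph _ _)) (g := AlgHom.id K _)
        (by simp) ?_ ?_) F
      · simp only [AlgHom.comp_apply, Ph_y, Ph_u, map_sub, map_mul, f22, f12, AlgHom.id_apply]
        linear_combination yy * det
      · simp only [AlgHom.comp_apply, Ph_y, Ph_u, map_sub, map_mul, f11, f21, AlgHom.id_apply]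
        linear_combination X * det) (fun F => by
      refine AlgHom.congr_fun (ext3 (f := (Ph _ _).comp (Ph _ _)) (g := AlgHom.id K _)
        (by simp) ?_ ?_) F
      · simp only [AlgHom.comp_apply, Ph_y, Ph_u, map_add, map_mul, f11, f12, AlgHom.id_apply]
        linear_combination yy * det
      · simp only [AlgHom.comp_apply, Ph_y, Ph_u, map_add, map_mul, f22, f21, AlgHom.id_apply]
        linear_combination X * det)
    (fun F hF => Ph_mem (add_mem (mul_mem u11 uy) (mul_mem u12 uu))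
      (add_mem (mul_mem u21 uy) (mul_mem u22 uu)) (by simp [e12]) (by simp [e12, e11])
      (by simp [e12']) (by simp [e12', e11', map_ofNat]) (by simp [e21, e22]) (by simp [e21', e22'])
      hF)
    (fun F hF => Ph_mem (sub_mem (mul_mem u22 uy) (mul_mem u12 uu))
      (sub_mem (mul_mem u11 uu) (mul_mem u21 uy)) (by simp [e12]) (by simp [e12, e22])
      (by simp [e12']) (by
        simp only [map_sub, map_mul, e12', e22', EV_y, zero_mul, sub_zero, map_ofNat, map_one]
        linear_combination hq') (by simp [e21, e11]) (by simp [e21', e11']) hF)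
  exact ⟨E⟩

lemma shear (i : ℕ) : ∃ E : (A (1 : K))[X] ≃ₐ[K] (A (1 : K))[X],
    ∀ b, io 1 (E b) = Ph (yy + C h * X ^ i) X (io 1 b) := by
  have hc : (C h : (R K)[X]) = xx ^ 2 * (xx + 1) * (xx - 1) := by simp [h, xx]
  have m : ∀ c : K, ∀ F ∈ (io (1 : K)).range,
      Ph (yy + algebraMap K _ c * C h * X ^ i) X F ∈ (io 1).range := fun c F hF =>
    Ph_mem (by
      rw [hc]
      simp only [map_add, map_mul, map_pow, Z_x, Z_y]
      exact ⟨algebraMap K _ c * (xx + 1) * (xx - 1) * X ^ i, by ring⟩) (by simp)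
      (by simp [h]) (by simp [h]) (by simp [h]) (by simp [h]) (by simp) (by simp) hF
  refine equiv_of _ (Ph (yy - C h * X ^ i) X) (fun F => ?_) (fun F => ?_)
    (by simpa using m 1) (by
      have e : (yy - C h * X ^ i : (R K)[X]) = yy + algebraMap K _ (-1) * C h * X ^ i := by
        rw [map_neg, map_one]; ring
      rw [e]; exact m (-1))
  · exact AlgHom.congr_fun (ext3 (f := (Ph _ _).comp (Ph _ _)) (g := AlgHom.id K _)
      (by simp) (by simp [hc]) (by simp)) F
  · exact AlgHom.congr_fun (ext3 (f := (Ph _ _).comp (Ph _ _)) (g := AlgHom.id K _)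
      (by simp) (by simp [hc]) (by simp)) F

end H64.TB
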