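import Pool.Agent.H64.TB2

namespace H64.TB

open Polynomial

variable {K : Type} [Field K] [CharZero K]

omit [CharZero K] in
lemma kill {B S : Type} [CommRing B] [Algebra K B] [CommRing S] [IsDomain S] [Algebra K S]
    (D : Derivation K B B) (κ : B →ₐ[K] S) {α γ W V : B} (e : α * γ = W * V) (h1 : κ γ = 0)
    (h2 : κ W = 0) (h3 : κ V = 0) (h4 : κ α ≠ 0) : κ (D γ) = 0 := by
  have := congrArg (fun b => κ (D b)) e
  simp only [Derivation.leibniz, smul_eq_mul, map_add, map_mul, h1, h2, h3, zero_mul,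
    add_zero] at this
  exact (mul_eq_zero.1 this).resolve_left h4

noncomputable def w (j : K) : R K :=
  MvPolynomial.X 0 ^ 2 * (MvPolynomial.X 0 + 1) * (MvPolynomial.X 1 - MvPolynomial.C j)

lemma br (D : Derivation K (A (1 : K))[X] (A (1 : K))[X]) (j j' : K)
    (hj : (j = 0 ∧ j' = 1) ∨ (j = 1 ∧ j' = 0)) (c : R K) (hc : ev 1 j' c = 0) (γ : A (1 : K))
    (hγ : (γ : R K) = c * w j ^ 2) : EV 1 j (io 1 (D (C γ))) = 0 := by
  let κ : (A (1 : K))[X] →ₐ[K] (R K)[X] := (Ph (algebraMap K _ j) X).comp (io 1)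
  have hw : Ph (algebraMap K _ j) X (C (w j)) = 0 := by
    have : (C (w j) : (R K)[X]) = xx ^ 2 * (xx + 1) * (yy - algebraMap K _ j) := by
      simp [w, xx, yy]
    rw [this, map_mul, map_sub, Ph_y, AlgHom.commutes, sub_self, mul_zero]
  have hV : c * w j ∈ A (1 : K) := by
    have := mem1 1 ((MvPolynomial.X 1 - MvPolynomial.C j) * c) (by
      rcases hj with ⟨rfl, rfl⟩ | ⟨rfl, rfl⟩ <;> simp [hc])
    rwa [← mul_assoc, mul_comm] at this
  have := kill D κ (α := C ⟨_, cond 1 (MvPolynomial.X 1 - MvPolynomial.C j')⟩) (γ := C γ)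
    (W := C ⟨_, cond 1 ((MvPolynomial.X 1 - MvPolynomial.C j') * w j)⟩) (V := C ⟨_, hV⟩)
    (by
      rw [← C_mul, ← C_mul]
      congr 1
      apply Subtype.ext
      push_cast
      rw [hγ]; ring)
    (by simp only [κ, AlgHom.comp_apply, io_C, hγ, map_mul, pow_two, hw, mul_zero])
    (by simp only [κ, AlgHom.comp_apply, io_C, map_mul, hw, mul_zero])
    (by simp only [κ, AlgHom.comp_apply, io_C, map_mul, hw, mul_zero]) (by
      intro e
      have := congrArg (EV 2 0) e
      simp only [κ, AlgHom.comp_apply, io_C, map_zero] at this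
      rw [EV_Ph (c := j) (AlgHom.commutes _ _), EV_C, aeval_C, Polynomial.algebraMap_apply,
        Algebra.algebraMap_self_apply, C_eq_zero] at this
      rcases hj with ⟨rfl, rfl⟩ | ⟨rfl, rfl⟩ <;> simp [h] at this <;> norm_num at this)
  have e := congrArg (EV 1 j) this
  simp only [κ, AlgHom.comp_apply, map_zero] at e
  rw [EV_Ph (c := j) (AlgHom.commutes _ _)] at e
  simpa using e

noncomputable def rho : (A (1 : K))[X] →ₐ[K] K[X] := (EV 1 0).comp (io 1)

omit [CharZero K] in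
lemma rho_C (a : A (1 : K)) : rho (C a) = C (ev 1 0 (a : R K)) := by simp [rho]

lemma D_n (D : Derivation K (A (1 : K))[X] (A (1 : K))[X]) (f : A (1 : K))
    (hf : ev 1 0 (f : R K) = 0) : rho (D (C f)) = 0 := by
  have hf' : ev 1 1 (f : R K) = 0 := (mem_A.1 f.2).2.1 ▸ hf
  have m : ∀ j : K, (f : R K) * w j ^ 2 ∈ A (1 : K) := fun j => by
    have := mem1 (1 : K) ((MvPolynomial.X 1 - MvPolynomial.C j) * w j * (f : R K))
      (by simp [hf, hf'])
    have e : (f : R K) * w j ^ 2 = MvPolynomial.X 0 ^ 2 * (MvPolynomial.X 0 + 1) *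
        ((MvPolynomial.X 1 - MvPolynomial.C j) * w j * (f : R K)) := by simp only [w]; ring
    rwa [e]
  have mr : (4 - w 0 ^ 2 - w 1 ^ 2 : R K) ∈ A (1 : K) := mem_A.2 ⟨by
    simp only [w, map_sub, map_mul, map_pow, z_X0, map_ofNat]
    exact ⟨-(MvPolynomial.X 0 ^ 2 * (MvPolynomial.X 0 + 1) ^ 2 *
      ((MvPolynomial.X 1 - MvPolynomial.C 0) ^ 2 + (MvPolynomial.X 1 - MvPolynomial.C 1) ^ 2)),
      by ring⟩, by simp [w, map_ofNat]; norm_num, by simp [w, map_ofNat]⟩
  have hr : ev 1 0 (4 - w 0 ^ 2 - w 1 ^ 2 : R K) = 0 := by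
    simp [w, map_ofNat]; norm_num
  have e : (4 : K) • (C f : (A (1 : K))[X]) = C ⟨_, m 0⟩ + C ⟨_, m 1⟩ + C f * C ⟨_, mr⟩ := by
    rw [← C_mul, ← C_add, ← C_add, smul_C]
    congr 1
    apply Subtype.ext
    push_cast
    rw [Algebra.smul_def, map_ofNat]
    ring
  have b0 := br D 0 1 (Or.inl ⟨rfl, rfl⟩) f hf' ⟨_, m 0⟩ rfl
  have b1 := br D 1 0 (Or.inr ⟨rfl, rfl⟩) f hf ⟨_, m 1⟩ rfl
  rw [← (mem_B.1 (AlgHom.mem_range_self (io 1) _)).2.1] at b1
  have := congrArg (fun b => rho (D b)) e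
  simp only [map_add, Derivation.leibniz, smul_eq_mul, map_mul, rho_C, hf, hr, map_zero, zero_mul,
    add_zero, Derivation.map_smul, map_smul] at this
  have b0' : rho (D (C ⟨_, m 0⟩)) = 0 := b0
  have b1' : rho (D (C ⟨_, m 1⟩)) = 0 := b1
  rw [b0', b1', add_zero] at this
  exact (smul_eq_zero.1 this).resolve_left (by norm_num)

lemma D_chain (D : Derivation K (A (1 : K))[X] (A (1 : K))[X]) (b : (A (1 : K))[X]) :
    rho (D b) = derivative (rho b) * rho (D X) := by
  have hX : rho (X : (A (1 : K))[X]) = X := by simp [rho]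
  induction b using Polynomial.induction_on with
  | C a =>
    have := D_n D (a - algebraMap K _ (ev 1 0 (a : R K))) (by simp)
    have e : (C (algebraMap K (A (1 : K)) (ev 1 0 (a : R K))) : (A (1 : K))[X]) =
      algebraMap K _ (ev 1 0 (a : R K)) := rfl
    have e2 : (C a : (A (1 : K))[X]) = C (a - algebraMap K _ (ev 1 0 (a : R K))) +
        algebraMap K _ (ev 1 0 (a : R K)) := by rw [← e, ← C_add, sub_add_cancel]
    have e3 := congrArg (fun b => rho (D b)) e2
    simp only [map_add, Derivation.map_algebraMap, this, map_zero, add_zero] at e3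
    rw [e3, rho_C]; simp
  | add p q hp hq => simp [hp, hq, add_mul]
  | monomial n a ih =>
    rw [pow_succ, ← mul_assoc, Derivation.leibniz, map_mul rho _ X, derivative_mul]
    simp only [smul_eq_mul, map_add, map_mul rho, ih, hX, derivative_X]
    ring

lemma ker_const (D : Derivation K (A (1 : K))[X] (A (1 : K))[X]) (hs : ∃ s, D s = 1)
    {b : (A (1 : K))[X]} (hb : D b = 0) : rho b ∈ (⊥ : Subalgebra K K[X]) := by
  obtain ⟨s, hs⟩ := hs
  have h1 := D_chain D s
  have h2 := D_chain D b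
  rw [hs, map_one] at h1
  rw [hb, map_zero] at h2
  have h3 : derivative (rho b) = 0 :=
    (mul_eq_zero.1 h2.symm).resolve_right (right_ne_zero_of_mul (h1 ▸ one_ne_zero))
  exact Algebra.mem_bot.2 ⟨_, (eq_C_of_derivative_eq_zero h3).symm⟩

lemma not_fg (H : Subalgebra K (A (1 : K))[X]) (h1 : ∀ b ∈ H, rho b ∈ (⊥ : Subalgebra K K[X]))
    (h2 : ∀ i : ℕ, ∃ b ∈ H, io 1 b = C h ^ 2 * X ^ i) : ¬ H.FG := by
  rintro ⟨S, rfl⟩
  let N := S.sup natDegree
  let κ : R K →ₐ[K] K[X] := MvPolynomial.aeval ![1 + X ^ N, 0]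
  have hκ : ∀ f, (X : K[X]) ^ N ∣ κ f - C (ev 1 0 f) := by
    intro f
    induction f using MvPolynomial.induction_on with
    | C a => simp [κ]
    | add p q hp hq =>
      have := hp.add hq
      rw [map_add, map_add, C_add]
      convert this using 1
      ring
    | mul_X p i hp =>
      rw [map_mul, map_mul, C_mul]
      fin_cases i
      · obtain ⟨g, hg⟩ := hp
        refine ⟨g + κ p, ?_⟩
        simp only [κ, Fin.zero_eta, MvPolynomial.aeval_X, Matrix.cons_val_zero, ev_X0, C_1] at hg ⊢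
        linear_combination hg
      · simp [κ]
  let T : Subalgebra K (A (1 : K))[X] :=
    ((reesAlgebra (Ideal.span {(X : K[X])})).restrictScalars K).comap ((mapAlgHom κ).comp (io 1))
  have mT : ∀ b, b ∈ T ↔ ∀ i, (X : K[X]) ^ i ∣ κ ((io 1 b).coeff i) := fun b => by
    simp [T, mem_reesAlgebra_iff, Ideal.span_singleton_pow, Ideal.mem_span_singleton]
  have hle : Algebra.adjoin K (S : Set (A (1 : K))[X]) ≤ T := by
    refine Algebra.adjoin_le fun b hb => (mT b).2 fun i => ?_
    rcases Nat.eq_zero_or_pos i with rfl | hi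
    · simp
    by_cases hN : i ≤ N
    · obtain ⟨c, hc⟩ := Algebra.mem_bot.1 (h1 b (Algebra.subset_adjoin hb))
      have e := congrArg (fun p => coeff p i) hc
      simp only [Polynomial.algebraMap_apply, coeff_C, hi.ne', if_false, rho, AlgHom.comp_apply,
        EV_coeff] at e
      have := hκ ((io 1 b).coeff i)
      rw [← e, C_0, sub_zero] at this
      exact (pow_dvd_pow _ hN).trans this
    · have : b.natDegree ≤ N := Finset.le_sup (f := natDegree) hb
      rw [io_coeff, coeff_eq_zero_of_natDegree_lt (by omega)]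
      simp
  have hne : κ (h ^ 2) ≠ 0 := fun e => by
    have := congrArg (eval 1) e
    simp [κ, h] at this
    norm_num at this
  obtain ⟨b, hb, e⟩ := h2 ((κ (h ^ 2)).natDegree + 1)
  have := (mT b).1 (hle hb) ((κ (h ^ 2)).natDegree + 1)
  rw [e, ← C_pow, coeff_C_mul, coeff_X_pow_self, mul_one] at this
  have := natDegree_le_of_dvd this hne
  rw [natDegree_X_pow] at this
  omega

end H64.TB
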