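import Pool.Agent.H64.TDDefs

set_option linter.unusedSectionVars false

namespace Pool.Agent.H64.TD

open Pool.Agent.H64.TDDefs Module

variable {K : Type} [Field K] [CharZero K]

def A (K : Type) [Field K] : End K (Fin 3 → K) where
  toFun v := ![0, v 1, - v 2]
  map_add' u v := by ext i; fin_cases i <;> simp [add_comm]
  map_smul' c v := by ext i; fin_cases i <;> simp

def B (K : Type) [Field K] : End K (Fin 3 → K) where
  toFun v := fun _ => v 0 + v 1 + v 2
  map_add' u v := by ext i; simp; ring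
  map_smul' c v := by ext i; simp; ring

@[simp] lemma A0 (v : Fin 3 → K) : A K v 0 = 0 := rfl
@[simp] lemma A1 (v : Fin 3 → K) : A K v 1 = v 1 := rfl
@[simp] lemma A2 (v : Fin 3 → K) : A K v 2 = - v 2 := rfl
@[simp] lemma Bi (v : Fin 3 → K) (i : Fin 3) : B K v i = v 0 + v 1 + v 2 := rfl

lemma rel1 : tdExpr (-1 : K) 0 1 (A K) (B K) = 0 := by
  ext v i
  fin_cases v <;> fin_cases i <;> simp [tdExpr, pow_two]

lemma rel2 : tdExpr (-1 : K) 3 0 (B K) (A K) = 0 := by
  ext v i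
  fin_cases v <;> fin_cases i <;> simp [tdExpr, pow_two] <;> ring

lemma map_tdExpr {R S : Type} [Ring R] [Algebra K R] [Ring S] [Algebra K S] (f : R →ₐ[K] S)
    (β γ ϱ : K) (a b : R) : f (tdExpr β γ ϱ a b) = tdExpr β γ ϱ (f a) (f b) := by
  simp [tdExpr]

noncomputable def rho (K : Type) [Field K] [CharZero K] :
    TAlg (-1 : K) 0 3 1 0 →ₐ[K] End K (Fin 3 → K) :=
  RingQuot.liftAlgHom K ⟨FreeAlgebra.lift K (fun b => cond b (A K) (B K)), by
    rintro x y (_ | _)
    · rw [map_tdExpr]; simpa using rel1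
    · rw [map_tdExpr]; simpa using rel2⟩

lemma rho_A : rho K (gen _ _ _ _ _ true) = A K := by
  simp [rho, gen]

lemma rho_B : rho K (gen _ _ _ _ _ false) = B K := by
  simp [rho, gen]

lemma irred (W : Submodule K (Fin 3 → K)) (hA : W.map (A K) ≤ W) (hB : W.map (B K) ≤ W) :
    W = ⊥ ∨ W = ⊤ := by
  have hA' : ∀ v ∈ W, A K v ∈ W := fun v hv => hA ⟨v, hv, rfl⟩
  have hB' : ∀ v ∈ W, B K v ∈ W := fun v hv => hB ⟨v, hv, rfl⟩
  have key : ∀ v ∈ W, ∀ i, Pi.single i (v i) ∈ W := by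
    intro v hv i
    have h1 := hA' v hv
    have h2 := hA' _ h1
    fin_cases i
    · convert W.sub_mem hv h2 using 1
      ext j; fin_cases j <;> simp
    · convert W.smul_mem (1 / 2 : K) (W.add_mem h1 h2) using 1
      ext j; fin_cases j <;> simp <;> ring
    · convert W.smul_mem (1 / 2 : K) (W.sub_mem h2 h1) using 1
      ext j; fin_cases j <;> simp <;> ring
  by_cases h : W = ⊥
  · exact Or.inl h
  right
  obtain ⟨v, hv, hv0⟩ := Submodule.exists_mem_ne_zero_of_ne_bot h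
  obtain ⟨i, hi⟩ : ∃ i, v i ≠ 0 := Function.ne_iff.1 hv0
  have h1 : (fun _ => (1 : K)) ∈ W := by
    convert W.smul_mem (v i)⁻¹ (hB' _ (key v hv i)) using 1
    ext j
    fin_cases i <;> simp at hi ⊢ <;> field_simp
  rw [eq_top_iff]
  intro w _
  rw [pi_eq_sum_univ' w]
  refine W.sum_mem fun j _ => W.smul_mem _ ?_
  convert key _ h1 j using 1

lemma memA (μ : K) (v : Fin 3 → K) :
    v ∈ (A K).eigenspace μ ↔ μ * v 0 = 0 ∧ v 1 = μ * v 1 ∧ - v 2 = μ * v 2 := by
  rw [End.mem_eigenspace_iff, funext_iff, Fin.forall_fin_succ, Fin.forall_fin_two]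
  simp only [A0, A1, A2, Pi.smul_apply, smul_eq_mul, Fin.succ_zero_eq_one, Fin.succ_one_eq_two]
  rw [eq_comm]

lemma diagA : Diagonalizable (A K) := by
  rw [Diagonalizable, eq_top_iff]
  intro v _
  have : v = Pi.single 0 (v 0) + Pi.single 1 (v 1) + Pi.single 2 (v 2) := by
    ext j; fin_cases j <;> simp
  rw [this]
  refine Submodule.add_mem _ (Submodule.add_mem _ ?_ ?_) ?_
  · exact Submodule.mem_iSup_of_mem 0 (by rw [memA]; simp)
  · exact Submodule.mem_iSup_of_mem 1 (by rw [memA]; simp)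
  · exact Submodule.mem_iSup_of_mem (-1) (by rw [memA]; simp)

lemma memB0 (v : Fin 3 → K) : v ∈ (B K).eigenspace 0 ↔ v 0 + v 1 + v 2 = 0 := by
  rw [End.mem_eigenspace_iff, funext_iff]
  simp

lemma memB3 (v : Fin 3 → K) : v ∈ (B K).eigenspace 3 ↔ v 0 = v 1 ∧ v 1 = v 2 := by
  rw [End.mem_eigenspace_iff, funext_iff, Fin.forall_fin_succ, Fin.forall_fin_two]
  simp only [Bi, Pi.smul_apply, smul_eq_mul, Fin.succ_zero_eq_one, Fin.succ_one_eq_two]
  constructor
  · rintro ⟨h0, h1, h2⟩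
    constructor
    · linear_combination (1 / 3 : K) * (h1 - h0)
    · linear_combination (1 / 3 : K) * (h2 - h1)
  · rintro ⟨h0, h1⟩
    refine ⟨?_, ?_, ?_⟩
    · linear_combination (-2 : K) * h0 - h1
    · linear_combination h0 - h1
    · linear_combination h0 + 2 * h1

lemma diagB : Diagonalizable (B K) := by
  rw [Diagonalizable, eq_top_iff]
  intro v _
  have : v = (v - (1 / 3 : K) • B K v) + (1 / 3 : K) • B K v := by simp
  rw [this]
  refine Submodule.add_mem _ ?_ ?_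
  · exact Submodule.mem_iSup_of_mem 0 (by rw [memB0]; simp; ring)
  · exact Submodule.mem_iSup_of_mem 3 (by rw [memB3]; simp)

def ev (K : Type) [Field K] : Fin 3 → K := ![0, 1, -1]

lemma ev_inj : Function.Injective (ev K) := by
  intro i j h
  fin_cases i <;> fin_cases j <;> simp [ev] at h ⊢ <;> norm_num at h

lemma memA' (μ : K) (v : Fin 3 → K) (hv : v ∈ (A K).eigenspace μ) (k : Fin 3) (hk : ev K k ≠ μ) :
    v k = 0 := by
  rw [memA] at hv
  obtain ⟨h0, h1, h2⟩ := hv
  fin_cases k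
  · simp [ev] at hk ⊢
    exact (mul_eq_zero.1 h0).resolve_left (Ne.symm hk)
  · simp [ev] at hk ⊢
    have : (1 - μ) * v 1 = 0 := by linear_combination h1
    exact (mul_eq_zero.1 this).resolve_left (sub_ne_zero.2 hk)
  · simp [ev] at hk ⊢
    have : (-1 - μ) * v 2 = 0 := by linear_combination h2
    exact (mul_eq_zero.1 this).resolve_left (sub_ne_zero.2 hk)

lemma single_mem (k : Fin 3) : (Pi.single k 1 : Fin 3 → K) ∈ (A K).eigenspace (ev K k) := by
  rw [memA]
  fin_cases k <;> simp [ev]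

lemma hasEv (k : Fin 3) : (A K).HasEigenvalue (ev K k) :=
  End.hasEigenvalue_of_hasEigenvector ⟨single_mem k, by simp⟩

lemma notTri : ¬ ActsTridiagonally (A K) (B K) := by
  rintro ⟨d, θ, hθ, hev, h⟩
  choose f hf using fun k : Fin 3 => (hev _).1 (hasEv (K := K) k)
  have hfi : Function.Injective f := fun a b hab => ev_inj (K := K) (by rw [← hf, ← hf, hab])
  have key : ∀ a b : Fin 3, (f b : ℕ) ≤ f a + 1 := by
    intro a b
    by_contra hab
    have h1 := h (f a) ⟨Pi.single a 1, by rw [hf]; exact single_mem a, rfl⟩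
    have h2 : (⨆ (j : Fin (d + 1)) (_ : (j : ℕ) ≤ f a + 1 ∧ (f a : ℕ) ≤ j + 1),
        (A K).eigenspace (θ j)) ≤ LinearMap.ker (LinearMap.proj b) := by
      refine iSup₂_le fun j hj v hv => ?_
      refine memA' _ v hv b fun hb => hab ?_
      have : f b = j := hθ (by rw [hf, hb])
      rw [this]; exact hj.1
    have h3 := h2 h1
    simp only [LinearMap.mem_ker, LinearMap.coe_proj, Function.eval, Bi] at h3
    fin_cases a <;> simp at h3
  have n01 : (f 0 : ℕ) ≠ f 1 := fun h => absurd (hfi (Fin.ext h)) (by decide)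
  have n02 : (f 0 : ℕ) ≠ f 2 := fun h => absurd (hfi (Fin.ext h)) (by decide)
  have n12 : (f 1 : ℕ) ≠ f 2 := fun h => absurd (hfi (Fin.ext h)) (by decide)
  have := key 0 1
  have := key 1 0
  have := key 0 2
  have := key 2 0
  have := key 1 2
  have := key 2 1
  omega

lemma evB0 : (B K).HasEigenvalue 0 :=
  End.hasEigenvalue_of_hasEigenvector (x := ![1, -1, 0])
    ⟨by rw [memB0]; simp, fun h => by simpa using congrFun h 0⟩

lemma evB3 : (B K).HasEigenvalue 3 :=
  End.hasEigenvalue_of_hasEigenvector (x := fun _ => 1)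
    ⟨by rw [memB3]; simp, fun h => by simpa using congrFun h 0⟩

lemma dimB3 : finrank K ((B K).eigenspace 3) = 1 := by
  have : (B K).eigenspace 3 = K ∙ (fun _ => (1 : K)) := by
    ext v
    rw [memB3, Submodule.mem_span_singleton]
    constructor
    · rintro ⟨h0, h1⟩
      refine ⟨v 0, ?_⟩
      ext j; fin_cases j <;> simp [h0, h1]
    · rintro ⟨c, rfl⟩; simp
  rw [this, finrank_span_singleton]
  exact fun h => by simpa using congrFun h 0

lemma dimB0 : finrank K ((B K).eigenspace 0) = 2 := by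
  have h1 : LinearMap.range (B K) = (B K).eigenspace 3 := by
    ext v
    rw [memB3]
    constructor
    · rintro ⟨w, rfl⟩; simp
    · rintro ⟨h0, h1⟩
      refine ⟨Pi.single 0 (v 0), ?_⟩
      ext j; fin_cases j <;> simp [h0, h1]
  have h2 := LinearMap.finrank_range_add_finrank_ker (B K)
  rw [h1, dimB3, ← End.eigenspace_zero] at h2
  simp only [finrank_fintype_fun_eq_card, Fintype.card_fin] at h2
  omega

theorem main (K : Type) [Field K] [CharZero K] :
    ∃ (β γ γ' ϱ ϱ' : K) (n : ℕ) (ρ : TAlg β γ γ' ϱ ϱ' →ₐ[K] End K (Fin n → K)),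
      IsIrreducible ρ ∧
      Diagonalizable (ρ (gen β γ γ' ϱ ϱ' true)) ∧ Diagonalizable (ρ (gen β γ γ' ϱ ϱ' false)) ∧
      ¬ IsTridiagonalPair (ρ (gen β γ γ' ϱ ϱ' true)) (ρ (gen β γ γ' ϱ ϱ' false)) ∧
      ∃ μ ν : K, (ρ (gen β γ γ' ϱ ϱ' false)).HasEigenvalue μ ∧
        (ρ (gen β γ γ' ϱ ϱ' false)).HasEigenvalue ν ∧
        finrank K ((ρ (gen β γ γ' ϱ ϱ' false)).eigenspace μ) ≠
          finrank K ((ρ (gen β γ γ' ϱ ϱ' false)).eigenspace ν) := by
  refine ⟨-1, 0, 3, 1, 0, 3, rho K, ⟨inferInstance, fun W hW => ?_⟩, ?_⟩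
  · exact irred W (by rw [← rho_A]; exact hW _) (by rw [← rho_B]; exact hW _)
  rw [rho_A, rho_B]
  refine ⟨diagA, diagB, fun h => notTri h.2.2.1, 0, 3, evB0, evB3, ?_⟩
  rw [dimB0, dimB3]; decide

end Pool.Agent.H64.TD
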