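import Mathlib

/-! The tridiagonal algebra, its modules, and tridiagonal pairs. -/

namespace Pool.Agent.H64.TDDefs

open Module

variable {K : Type} [Field K]

/-- The left side `[A, A²B - βABA + BA² - γ(AB+BA) - ϱB]` of a tridiagonal relation. -/
def tdExpr {R : Type} [Ring R] [Algebra K R] (β γ ϱ : K) (A B : R) : R :=
  A * (A ^ 2 * B - β • (A * B * A) + B * A ^ 2 - γ • (A * B + B * A) - ϱ • B) -
    (A ^ 2 * B - β • (A * B * A) + B * A ^ 2 - γ • (A * B + B * A) - ϱ • B) * A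

/-- The two tridiagonal relations on the free algebra with generators `A = ι true`,
`A* = ι false`. -/
inductive TDRel (β γ γ' ϱ ϱ' : K) : FreeAlgebra K Bool → FreeAlgebra K Bool → Prop
  | first : TDRel β γ γ' ϱ ϱ'
      (tdExpr β γ ϱ (FreeAlgebra.ι K true) (FreeAlgebra.ι K false)) 0
  | second : TDRel β γ γ' ϱ ϱ'
      (tdExpr β γ' ϱ' (FreeAlgebra.ι K false) (FreeAlgebra.ι K true)) 0

/-- The tridiagonal algebra `T(β,γ,γ*,ϱ,ϱ*)`. -/
abbrev TAlg (β γ γ' ϱ ϱ' : K) : Type := RingQuot (TDRel β γ γ' ϱ ϱ')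

/-- The generators of `T`: `gen true = A`, `gen false = A*`. -/
def gen (β γ γ' ϱ ϱ' : K) (b : Bool) : TAlg β γ γ' ϱ ϱ' :=
  RingQuot.mkAlgHom K (TDRel β γ γ' ϱ ϱ') (FreeAlgebra.ι K b)

variable {V : Type} [AddCommGroup V] [Module K V]

/-- `A` is diagonalizable over `K`: its eigenspaces span. -/
def Diagonalizable (A : End K V) : Prop := ⨆ μ : K, A.eigenspace μ = ⊤

/-- The eigenspaces of `A` have an ordering `V_0, …, V_d` with `B V_i ⊆ V_(i-1) + V_i + V_(i+1)`. -/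
def ActsTridiagonally (A B : End K V) : Prop :=
  ∃ (d : ℕ) (θ : Fin (d + 1) → K), Function.Injective θ ∧
    (∀ μ, A.HasEigenvalue μ ↔ μ ∈ Set.range θ) ∧
    ∀ i, (A.eigenspace (θ i)).map B ≤
      ⨆ (j : Fin (d + 1)) (_ : (j : ℕ) ≤ i + 1 ∧ (i : ℕ) ≤ j + 1), A.eigenspace (θ j)

/-- `A, B` is a tridiagonal pair on `V`. -/
def IsTridiagonalPair (A B : End K V) : Prop :=
  Diagonalizable A ∧ Diagonalizable B ∧ ActsTridiagonally A B ∧ ActsTridiagonally B A ∧
    ∀ W : Submodule K V, W.map A ≤ W → W.map B ≤ W → W = ⊥ ∨ W = ⊤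

/-- The `T`-module given by the representation `ρ` is irreducible. -/
def IsIrreducible {T : Type} [Ring T] [Algebra K T] (ρ : T →ₐ[K] End K V) : Prop :=
  Nontrivial V ∧ ∀ W : Submodule K V, (∀ t : T, W.map (ρ t) ≤ W) → W = ⊥ ∨ W = ⊤

/-- `B` has two eigenspaces of different dimensions. -/
def HasUnequalEigenspaces (B : End K V) : Prop :=
  ∃ μ ν : K, B.HasEigenvalue μ ∧ B.HasEigenvalue ν ∧
    finrank K (B.eigenspace μ) ≠ finrank K (B.eigenspace ν)

/-- The action of the generator `A` (`b = true`) or `A*` (`b = false`) in the representation. -/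
def act {β γ γ' ϱ ϱ' : K} (ρ : TAlg β γ γ' ϱ ϱ' →ₐ[K] End K V) (b : Bool) : End K V :=
  ρ (gen β γ γ' ϱ ϱ' b)

end Pool.Agent.H64.TDDefs
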