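import Mathlib

/-! Locally finite groups with bounded `p`-subgroups, and a finitely generated extension of such a
group by a cyclic group. -/

set_option autoImplicit false

namespace Pool.Agent.H64.Thin
open Subgroup

section thin
variable {A B : Type} [Group A] [Group B]

/-- Finitely generated subgroups of `K` are finite with bounded `p`-part for each prime `p`. -/
def Thin (K : Subgroup A) : Prop :=
  ∀ p : ℕ, p.Prime → ∃ b, ∀ S : Finset A, (S : Set A) ⊆ K → ¬ p ^ b ∣ Nat.card (closure (S : Set A))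

lemma Thin.mono {K L : Subgroup A} (h : Thin K) (hl : L ≤ K) : Thin L := fun p hp =>
  (h p hp).imp fun _ hb S hS => hb S (hS.trans hl)

lemma Thin.fin {K : Subgroup A} (h : Thin K) (S : Finset A) (hS : (S : Set A) ⊆ K) :
    Finite (closure (S : Set A)) := by
  obtain ⟨b, hb⟩ := h 2 Nat.prime_two
  exact Nat.finite_of_card_ne_zero fun e => hb S hS (by simp [e])

lemma Thin.map {K : Subgroup A} (h : Thin K) (f : A →* B) : Thin (K.map f) := by
  classical
  intro p hp
  obtain ⟨b, hb⟩ := h p hp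
  refine ⟨b, fun S hS hd => ?_⟩
  obtain ⟨T, h1, rfl⟩ := Finset.subset_set_image_iff.1 (show (S : Set B) ⊆ f '' K from hS)
  refine hb T h1 (hd.trans ?_)
  rw [Finset.coe_image, ← MonoidHom.map_closure]
  exact card_map_dvd _ f

lemma Thin.comap {K : Subgroup B} (h : Thin K) (f : A →* B) (hf : Function.Injective f) :
    Thin (K.comap f) := by
  classical
  intro p hp
  obtain ⟨b, hb⟩ := h p hp
  refine ⟨b, fun S hS hd => hb (S.image f) ?_ ?_⟩
  · rw [Finset.coe_image]; rintro _ ⟨a, ha, rfl⟩; exact hS ha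
  · rw [Finset.coe_image, ← MonoidHom.map_closure]
    rwa [Nat.card_congr (equivMapOfInjective _ f hf).toEquiv] at hd

lemma Thin.ord {K : Subgroup A} (h : Thin K) {a : A} (ha : a ∈ K) : IsOfFinOrder a := by
  have := h.fin {a} (by simpa using ha)
  rw [Finset.coe_singleton, ← zpowers_eq_closure] at this
  exact finite_zpowers.1 (Set.toFinite _)

lemma Thin.finite {K : Subgroup A} (h : Thin K) {e : ℕ} (he : 0 < e) (hK : ∀ a ∈ K, a ^ e = 1) :
    Finite K := by
  classical
  choose! b hb using h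
  have key : ∀ S : Finset A, (S : Set A) ⊆ K → S.card ≤ ∏ p ∈ e.primeFactors, p ^ b p := by
    intro S hS
    have hfin : Finite (closure (S : Set A)) :=
      Nat.finite_of_card_ne_zero fun e => hb 2 Nat.prime_two S hS (by simp [e])
    have h1 : Nat.card (closure (S : Set A)) ∣ ∏ p ∈ e.primeFactors, p ^ b p := by
      rw [Nat.dvd_iff_prime_pow_dvd_dvd]
      intro p k hp hk
      rcases Nat.eq_zero_or_pos k with rfl | h0
      · simp
      haveI := Fact.mk hp
      obtain ⟨g, hg⟩ := exists_prime_orderOf_dvd_card' p ((dvd_pow_self p h0.ne').trans hk)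
      have h2 : p ∣ e := by
        rw [← hg, orderOf_dvd_iff_pow_eq_one]
        exact Subtype.ext (hK _ ((closure_le K).2 hS g.2))
      have h3 : k ≤ b p := by
        by_contra hc
        exact hb p hp S hS ((pow_dvd_pow p (by omega)).trans hk)
      exact (pow_dvd_pow p h3).trans
        (Finset.dvd_prod_of_mem (fun p => p ^ b p) (Nat.mem_primeFactors.2 ⟨hp, h2, he.ne'⟩))
    have h2 := Nat.le_of_dvd (Finset.prod_pos fun p hp => pow_pos (Nat.pos_of_mem_primeFactors hp) _) h1
    refine le_trans ?_ h2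
    have := Set.ncard_le_ncard (subset_closure (k := (S : Set A))) (Set.toFinite _)
    rwa [Set.ncard_coe_finset] at this
  by_contra hc
  obtain ⟨S, h1, h2⟩ := Set.Infinite.exists_subset_card_eq (s := (K : Set A)) hc
    (∏ p ∈ e.primeFactors, p ^ b p + 1)
  have := key S h1
  omega

lemma fi_of_finite (K Z : Subgroup A) [K.Normal] [Finite K] [(K ⊔ Z).FiniteIndex] : Z.FiniteIndex := by
  have : Finite (A ⧸ Z) := by
    refine Finite.of_surjective (fun c : (A ⧸ (K ⊔ Z)) × K => ((c.1.out * c.2 : A) : A ⧸ Z)) fun a => ?_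
    obtain ⟨a, rfl⟩ := QuotientGroup.mk_surjective a
    have : (a : A ⧸ (K ⊔ Z)).out⁻¹ * a ∈ ((K ⊔ Z : Subgroup A) : Set A) := QuotientGroup.eq.1 (by simp)
    rw [normal_mul] at this
    obtain ⟨k, hk, z, hz, e⟩ := this
    refine ⟨(a, ⟨k, hk⟩), QuotientGroup.eq.2 ?_⟩
    simp only at e
    rw [mul_inv_rev, mul_assoc, ← e]; simpa using hz
  exact finiteIndex_of_finite_quotient

lemma abel [Group.FG A] (K : Subgroup A) [hn : K.Normal] (h : Thin K) (hc : ∀ a ∈ K, ∀ b ∈ K, a * b = b * a)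
    (g : A) [(K ⊔ zpowers g).FiniteIndex] : Finite K := by
  obtain ⟨S, hS⟩ := (Group.fg_iff_subgroup_fg _).1 (inferInstance : Group.FG ↥(K ⊔ zpowers g))
  have h1 : ∀ s ∈ S, ∃ k ∈ K, ∃ z ∈ zpowers g, k * z = s := fun s hs => by
    have : s ∈ ((K ⊔ zpowers g : Subgroup A) : Set A) := hS ▸ subset_closure hs
    rwa [normal_mul] at this
  choose! k hk z hz e using h1
  let n := ∏ s ∈ S, orderOf (k s)
  have hn0 : 0 < n := Finset.prod_pos fun s hs => (h.ord (hk s hs)).orderOf_pos
  let L : Subgroup A :=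
    { carrier := {a | a ∈ K ∧ a ^ n = 1}
      mul_mem' := fun {a b} ha hb => ⟨K.mul_mem ha.1 hb.1, by
        rw [Commute.mul_pow (hc a ha.1 b hb.1), ha.2, hb.2, mul_one]⟩
      one_mem' := ⟨K.one_mem, one_pow _⟩
      inv_mem' := fun {a} ha => ⟨K.inv_mem ha.1, by rw [inv_pow, ha.2, inv_one]⟩ }
  haveI : L.Normal := ⟨fun a ha c => ⟨hn.conj_mem a ha.1 c, by rw [conj_pow, ha.2]; simp⟩⟩
  haveI : Finite L := (h.mono (L := L) fun a ha => ha.1).finite hn0 fun a ha => ha.2
  have h2 : K ≤ L ⊔ zpowers g := by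
    refine le_sup_left.trans (hS.ge.trans ((closure_le _).2 fun s hs => ?_))
    rw [← e s hs]
    exact mul_mem_sup ⟨hk s hs, orderOf_dvd_iff_pow_eq_one.1 (Finset.dvd_prod_of_mem _ hs)⟩ (hz s hs)
  have h3 : ((zpowers g : Set A) ∩ K).Finite := by
    by_cases hg : IsOfFinOrder g
    · exact (finite_zpowers.2 hg).inter_of_left _
    · refine (Set.finite_singleton 1).subset ?_
      rintro _ ⟨⟨m, rfl⟩, hm⟩
      by_contra hc
      have h0 : m ≠ 0 := fun e => hc (by simp [e])
      exact hg (isOfFinOrder_iff_zpow_eq_one.2 (by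
        obtain ⟨k, hk, e⟩ := isOfFinOrder_iff_zpow_eq_one.1 (h.ord hm)
        exact ⟨m * k, mul_ne_zero h0 hk, by rwa [zpow_mul]⟩))
  refine ((Set.toFinite (L : Set A)).mul h3).subset fun a ha => ?_
  have : a ∈ ((L ⊔ zpowers g : Subgroup A) : Set A) := h2 ha
  rw [normal_mul] at this
  obtain ⟨l, hl, y, hy, rfl⟩ := this
  exact ⟨l, hl, y, ⟨hy, (K.mul_mem_cancel_left hl.1).1 ha⟩, rfl⟩

lemma solv [Group.FG A] (g : A) (d : ℕ) : ∀ (K : Subgroup A) [K.Normal], Thin K →
    (K ⊔ zpowers g).FiniteIndex → (fun H => ⁅H, H⁆)^[d] K = ⊥ → (zpowers g).FiniteIndex ∧ Finite K := by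
  induction d with
  | zero =>
    intro K _ _ h1 h2
    rw [show K = ⊥ from h2] at h1 ⊢
    exact ⟨by simpa using h1, inferInstance⟩
  | succ d ih =>
    intro K _ h h1 h2
    let π := QuotientGroup.mk' ⁅K, K⁆
    have hπ : Function.Surjective π := QuotientGroup.mk'_surjective _
    haveI : (K.map π).Normal := Normal.map inferInstance π hπ
    haveI : (K.map π ⊔ zpowers (π g)).FiniteIndex := by
      rw [← MonoidHom.map_zpowers, ← Subgroup.map_sup]
      exact ⟨fun e => h1.1 (Nat.eq_zero_of_zero_dvd (e ▸ index_map_dvd _ hπ))⟩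
    haveI : Finite (K.map π) := abel _ (h.map π) (by
      rintro _ ⟨a, ha, rfl⟩ _ ⟨b, hb, rfl⟩
      rw [← commutatorElement_eq_one_iff_mul_comm, ← map_commutatorElement]
      exact (QuotientGroup.eq_one_iff _).2 (commutator_mem_commutator ha hb)) (π g)
    have h3 := fi_of_finite (K.map π) (zpowers (π g))
    have h4 : (⁅K, K⁆ ⊔ zpowers g).FiniteIndex := by
      refine ⟨fun e => h3.1 ?_⟩
      rw [← MonoidHom.map_zpowers, index_map, QuotientGroup.ker_mk', sup_comm, e, zero_mul]
    obtain ⟨h5, h6⟩ := ih ⁅K, K⁆ (h.mono (commutator_le_left _ _)) h4 h2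
    refine ⟨h5, ?_⟩
    rw [finite_iff_finite_and_finiteIndex (⁅K, K⁆.subgroupOf K)]
    refine ⟨Finite.of_equiv _ (subgroupOfEquivOfLe (commutator_le_left K K)).symm.toEquiv, ⟨?_⟩⟩
    have := relIndex_ker K π
    rw [QuotientGroup.ker_mk'] at this
    rw [← relIndex, this]
    exact Nat.card_pos.ne'

lemma solv' [Group.FG A] (g : A) (d : ℕ) (hd : derivedSeries A d = ⊥) (K : Subgroup A) [K.Normal]
    (h : Thin K) (h1 : K ⊔ zpowers g = ⊤) : (zpowers g).FiniteIndex ∧ Finite K := by
  refine solv g d K h (by rw [h1]; infer_instance) (eq_bot_iff.2 (hd ▸ ?_))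
  clear hd
  induction d with
  | zero => exact le_top
  | succ d ih => rw [Function.iterate_succ_apply', derivedSeries_succ]; exact commutator_mono ih ih

lemma cyc (M : Subgroup A) [M.Normal] (t : A) (ht : M ⊔ zpowers t = ⊤) (H : Subgroup A) :
    ∃ g : H, M.subgroupOf H ⊔ zpowers g = ⊤ := by
  let π := QuotientGroup.mk' M
  haveI : IsCyclic (A ⧸ M) := isCyclic_iff_exists_zpowers_eq_top.2 ⟨π t, by
    have := congrArg (Subgroup.map π) ht
    rwa [Subgroup.map_sup, map_top_of_surjective _ (QuotientGroup.mk'_surjective _),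
      (Subgroup.map_eq_bot_iff M (f := π)).2 (by simp [π]), bot_sup_eq, MonoidHom.map_zpowers] at this⟩
  obtain ⟨c, hc⟩ := (Subgroup.isCyclic_iff_exists_zpowers_eq_top (H.map π)).1 inferInstance
  obtain ⟨g, hg, rfl⟩ : c ∈ H.map π := hc ▸ mem_zpowers c
  refine ⟨⟨g, hg⟩, eq_top_iff.2 fun h _ => ?_⟩
  obtain ⟨n, hn⟩ : π h ∈ zpowers (π g) := hc ▸ mem_map_of_mem π h.2
  rw [← mul_inv_cancel_right h ((⟨g, hg⟩ : H) ^ n)⁻¹, inv_inv]
  refine mul_mem_sup ?_ (zpow_mem_zpowers _ n)
  rw [mem_subgroupOf, ← QuotientGroup.eq_one_iff]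
  show π _ = 1
  simp only at hn
  simp [← hn]

end thin

section grp
variable {G : Type} [Group G] (x t : G)

def xs (i : ℕ) : G := t ^ i * x * (t ^ i)⁻¹
def W (s : ℕ) : Subgroup G := closure (xs x t '' {i | i < s})

lemma xs_succ (i : ℕ) : xs x t (i + 1) = t * xs x t i * t⁻¹ := by
  simp [xs, pow_succ', mul_assoc]

lemma W_mono {r s : ℕ} (h : r ≤ s) : W x t r ≤ W x t s :=
  closure_mono (Set.image_mono fun _ hi => lt_of_lt_of_le hi h)

lemma W_conj {s : ℕ} {g : G} (h : g ∈ W x t s) : t * g * t⁻¹ ∈ W x t (s + 1) := by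
  have : W x t s ≤ (W x t (s + 1)).comap (MulAut.conj t).toMonoidHom := by
    refine (closure_le _).2 ?_
    rintro _ ⟨i, hi, rfl⟩
    exact subset_closure ⟨i + 1, Nat.succ_lt_succ hi, xs_succ x t i⟩
  exact this h

lemma W_map {H : Type} [Group H] (f : G →* H) (s : ℕ) : (W x t s).map f = W (f x) (f t) s := by
  rw [W, MonoidHom.map_closure, Set.image_image]
  simp [W, xs]

def U (j : ℕ) : Subgroup G := (W x t (2 * j)).comap (MulAut.conj (t ^ j)).toMonoidHom

lemma mem_U {j : ℕ} {g : G} : g ∈ U x t j ↔ t ^ j * g * (t ^ j)⁻¹ ∈ W x t (2 * j) := Iff.rfl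

lemma U_mono : Monotone (U x t) := monotone_nat_of_le_succ fun j g hg => by
  rw [mem_U] at hg ⊢
  have := W_mono x t (show 2 * j + 1 ≤ 2 * (j + 1) by omega) (W_conj x t hg)
  simpa [pow_succ', mul_assoc] using this

theorem abstr (hg : closure {x, t} = ⊤) (h1 : ∀ p : ℕ, p.Prime → ∃ b, ∀ s, ¬ p ^ b ∣ Nat.card (W x t s))
    (h2 : ∀ s, xs x t s ∉ W x t s) :
    ∃ M : Subgroup G, M.Normal ∧ Thin M ∧ Infinite M ∧ M ⊔ zpowers t = ⊤ := by
  have hm : ∀ g, g ∈ ⨆ j, U x t j ↔ ∃ j, g ∈ U x t j := fun g =>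
    mem_iSup_of_directed (U_mono x t).directed_le
  have hW : ∀ s, W x t s ≤ ⨆ j, U x t j := fun s g h => (hm g).2 ⟨s, by
    rw [mem_U]
    have : ∀ j : ℕ, t ^ j * g * (t ^ j)⁻¹ ∈ W x t (s + j) := fun j => by
      induction j with
      | zero => simpa using h
      | succ j ih => simpa [pow_succ', mul_assoc, add_assoc] using W_conj x t ih
    rw [two_mul]; exact this s⟩
  have hx : x ∈ ⨆ j, U x t j := hW 1 (subset_closure ⟨0, by simp, by simp [xs]⟩)
  refine ⟨⨆ j, U x t j, ?_, fun p hp => ?_, ?_, ?_⟩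
  · rw [← normalizer_eq_top_iff, eq_top_iff, ← hg, closure_le]
    rintro _ (rfl | rfl)
    · exact le_normalizer hx
    · intro g
      simp only [SetLike.mem_coe, hm]
      constructor
      · rintro ⟨j, h⟩
        refine ⟨j + 1, ?_⟩
        rw [mem_U] at h ⊢
        have := W_conj x _ (W_conj x _ h)
        rwa [show ∀ t : G, t * (t * (t ^ j * g * (t ^ j)⁻¹) * t⁻¹) * t⁻¹ =
          t ^ (j + 1) * (t * g * t⁻¹) * (t ^ (j + 1))⁻¹ from fun t => by group] at this
      · rintro ⟨j, h⟩
        refine ⟨j + 1, ?_⟩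
        rw [mem_U] at h ⊢
        have := W_mono x _ (show 2 * j ≤ 2 * (j + 1) by omega) h
        simpa [pow_succ, mul_assoc] using this
  · obtain ⟨b, hb⟩ := h1 p hp
    refine ⟨b, fun S hS hd => ?_⟩
    choose! j hj using fun g hg => (hm g).1 hg
    have : closure (S : Set G) ≤ U x t (S.sup j) :=
      (closure_le _).2 fun g hg => U_mono x t (Finset.le_sup hg) (hj g (hS hg))
    exact hb _ ((hd.trans (card_dvd_of_le this)).trans
      (card_comap_dvd_of_injective _ _ (MulAut.conj _).injective))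
  · refine Infinite.of_injective (fun i : ℕ => (⟨xs x t i, hW (i + 1) (subset_closure ⟨i, by simp, rfl⟩)⟩ :
      ↥(⨆ j, U x t j))) (Function.Injective.of_lt_imp_ne fun i j hij e => h2 j ?_)
    rw [← show xs x t i = xs x t j from congrArg Subtype.val e]
    exact subset_closure ⟨i, hij, rfl⟩
  · rw [eq_top_iff, ← hg, closure_le]
    rintro _ (rfl | rfl)
    · exact mem_sup_left hx
    · exact mem_sup_right (mem_zpowers _)

end grp

abbrev FF := FreeGroup Bool
def xF : FF := FreeGroup.of true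
def tF : FF := FreeGroup.of false

open RegularWreathProduct in
lemma step (s q : ℕ) (hq : 1 < q) (N : Subgroup FF) [N.Normal] [N.FiniteIndex]
    (h : xs xF tF s ∉ W xF tF s ⊔ N) :
    ∃ N' : Subgroup FF, N'.Normal ∧ N' ≤ N ∧ (∃ r, N'.index ∣ q ^ r * N.index) ∧
      W xF tF (s + 1) ⊓ N ≤ N' ∧ xs xF tF (s + 1) ∉ W xF tF (s + 1) ⊔ N' := by
  classical
  haveI : NeZero q := ⟨by omega⟩
  haveI : Fact (1 < q) := ⟨hq⟩
  let π := QuotientGroup.mk' N
  let V := W (π xF) (π tF) s
  let e : FF ⧸ N → Multiplicative (ZMod q) := fun γ =>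
    if (π tF)⁻¹ * γ * π tF ∈ V then Multiplicative.ofAdd 1 else 1
  let φ : FF →* RegularWreathProduct (Multiplicative (ZMod q)) (FF ⧸ N) :=
    FreeGroup.lift fun b => if b then inl (π xF) else ⟨e, π tF⟩
  have hx : φ xF = inl (π xF) := by simp [φ, xF]
  have ht : φ tF = ⟨e, π tF⟩ := by simp [φ, tF]
  have hr : ∀ g, (φ g).right = π g := fun g => by
    have : rightHom.comp φ = π := FreeGroup.ext_hom _ _ fun b => by
      cases b
      · exact congrArg right ht
      · exact congrArg right hx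
    exact DFunLike.congr_fun this g
  have cj : ∀ g, φ g = inl (π g) → ∀ γ, (φ (tF * g * tF⁻¹)).left γ =
      e γ * (e (π tF * (π g)⁻¹ * (π tF)⁻¹ * γ))⁻¹ := fun g hg γ => by
    simp [ht, hg, mul_assoc]
  have h1 : ∀ i ≤ s, φ (xs xF tF i) = inl (π (xs xF tF i)) := by
    intro i hi
    induction i with
    | zero => simpa [xs] using hx
    | succ i ih =>
      refine RegularWreathProduct.ext (funext fun γ => ?_) (hr _)
      have hV : π (xs xF tF i) ∈ V := by
        rw [show V = _ from (W_map xF tF π s).symm]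
        exact mem_map_of_mem π (subset_closure ⟨i, hi, rfl⟩)
      rw [xs_succ, cj _ (ih (by omega)), left_inl, Pi.one_apply, mul_inv_eq_one]
      refine if_congr ?_ rfl rfl
      rw [← V.mul_mem_cancel_left (V.inv_mem hV)]
      simp [mul_assoc]
  have h2 : ∀ w ∈ W xF tF (s + 1), φ w = inl (π w) := fun w hw =>
    MonoidHom.eqOn_closure (f := φ) (g := inl.comp π) (by
      rintro _ ⟨i, hi, rfl⟩; exact h1 i (Nat.lt_succ_iff.1 hi)) hw
  refine ⟨φ.ker, inferInstance, fun g hg => ?_, ⟨Nat.card (FF ⧸ N), ?_⟩, fun w hw => ?_, fun hc => ?_⟩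
  · rw [← QuotientGroup.eq_one_iff]
    exact (hr g).symm.trans (congrArg right hg)
  · rw [index_ker]
    refine (card_subgroup_dvd_card _).trans ?_
    rw [RegularWreathProduct.card, Nat.card_congr Multiplicative.toAdd, Nat.card_zmod]; rfl
  · rw [MonoidHom.mem_ker, h2 w hw.1, show π w = 1 from (QuotientGroup.eq_one_iff _).2 hw.2, map_one]
  · have : xs xF tF (s + 1) ∈ ((W xF tF (s + 1) ⊔ φ.ker : Subgroup FF) : Set FF) := hc
    rw [mul_normal] at this
    obtain ⟨w, hw, n, hn, e1⟩ := this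
    have h3 := cj _ (h1 s le_rfl) 1
    rw [← xs_succ, ← e1, map_mul, h2 w hw, show φ n = 1 from hn] at h3
    have hV : π (xs xF tF s) ∉ V := by
      rw [show V = _ from (W_map xF tF π s).symm]
      intro hc
      apply h
      rw [← QuotientGroup.ker_mk' N, ← comap_map_eq]
      exact hc
    simp [e, mul_assoc, V.one_mem, hV] at h3
    exact one_ne_zero (Multiplicative.ofAdd.injective h3).symm

theorem exists_group : ∃ (G : Type) (_ : Group G) (_ : Group.FG G) (M : Subgroup G) (t : G),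
    M.Normal ∧ Thin M ∧ Infinite M ∧ M ⊔ zpowers t = ⊤ := by
  let T := fun s => {N : Subgroup FF // N.Normal ∧ N.FiniteIndex ∧ xs xF tF s ∉ W xF tF s ⊔ N}
  have st : ∀ s (a : T s), ∃ b : T (s + 1), b.1 ≤ a.1 ∧ (∃ r, b.1.index ∣ (s.factorial + 1) ^ r * a.1.index) ∧
      W xF tF (s + 1) ⊓ a.1 ≤ b.1 := by
    rintro s ⟨N, h1, h2, h3⟩
    obtain ⟨N', k1, k2, ⟨r, k3⟩, k4, k5⟩ := step s (s.factorial + 1) (by have := s.factorial_pos; omega) N h3
    exact ⟨⟨N', k1, ⟨fun e => by simp [e, h2.1] at k3⟩, k5⟩, k2, ⟨r, k3⟩, k4⟩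
  choose f f1 f2 f3 using st
  let ψ : FF →* Multiplicative (ZMod 2) := FreeGroup.lift fun _ => Multiplicative.ofAdd 1
  let a0 : T 0 := ⟨ψ.ker, inferInstance, inferInstance, by simp [W, xs, ψ, xF]⟩
  let a : ∀ s, T s := fun s => Nat.rec a0 f s
  let N : ℕ → Subgroup FF := fun s => (a s).1
  have an : Antitone N := antitone_nat_of_succ_le fun s => f1 s (a s)
  haveI : ∀ s, (N s).Normal := fun s => (a s).2.1
  haveI : (⨅ s, N s).Normal := normal_iInf_normal this
  let π := QuotientGroup.mk' (⨅ s, N s)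
  have hπ : Function.Surjective π := QuotientGroup.mk'_surjective _
  have key : ∀ s, (⨅ s, N s) ⊓ W xF tF s = N s ⊓ W xF tF s := fun s => by
    refine le_antisymm (inf_le_inf_right _ (iInf_le _ s)) (le_inf (le_iInf fun k => ?_) inf_le_right)
    rcases le_total k s with h | h
    · exact inf_le_left.trans (an h)
    · induction k, h using Nat.le_induction with
      | base => exact inf_le_left
      | succ k h ih => exact (le_inf (inf_le_right.trans (W_mono _ _ (by omega))) ih).trans (f3 k (a k))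
  refine (abstr (π xF) (π tF) ?_ ?_ ?_).elim fun M hM => ⟨_, inferInstance, inferInstance, M, _, hM⟩
  · rw [← map_top_of_surjective π hπ, ← FreeGroup.closure_range_of, MonoidHom.map_closure]
    congr 1
    ext g
    simp [xF, tF, or_comm, eq_comm]
  · intro p hp
    refine ⟨(N p).index, fun s hd => ?_⟩
    rw [← W_map, ← relIndex_ker, QuotientGroup.ker_mk', ← inf_relIndex_right, key, inf_relIndex_right] at hd
    replace hd := hd.trans (relIndex_dvd_index_of_normal _ _)
    have : p ^ (N p).index ∣ (N p).index := by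
      rcases le_total s p with h | h
      · exact hd.trans (index_dvd_of_le (an h))
      · induction s, h using Nat.le_induction with
        | base => exact hd
        | succ k h ih =>
          obtain ⟨r, hr⟩ := f2 k (a k)
          refine ih (Nat.Coprime.dvd_of_dvd_mul_left (Nat.Coprime.pow _ _ ?_) (hd.trans hr))
          rw [hp.coprime_iff_not_dvd, Nat.dvd_add_right ((hp.dvd_factorial).2 h)]
          simpa using hp.ne_one
    exact absurd (Nat.le_of_dvd (Nat.pos_of_ne_zero (a p).2.2.1.1) this) (not_le.2 (Nat.lt_pow_self hp.one_lt))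
  · intro s hs
    apply (a s).2.2.2
    rw [← W_map, show xs (π xF) (π tF) s = π (xs xF tF s) by simp [xs], ← mem_comap, comap_map_eq,
      QuotientGroup.ker_mk'] at hs
    exact sup_le_sup_left (iInf_le N s) _ hs

theorem main : ¬ (∀ (G : Type) [Group G] [Group.FG G],
    (∀ P : ∀ (H : Type) [Group H], Prop,
      (∀ (H : Type) [Group H] [Finite H], P H) →
      (∀ (H : Type) [CommGroup H], P H) →
      (∀ (H K : Type) [Group H] [Group K], Nonempty (H ≃* K) → P H → P K) →
      (∀ (H : Type) [Group H] (K : Subgroup H), P H → P K) →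
      (∀ (H : Type) [Group H] (N : Subgroup H) [N.Normal], P H → P (H ⧸ N)) →
      (∀ (H : Type) [Group H] (N : Subgroup H) [N.Normal], P N → P (H ⧸ N) → P H) →
      (∀ (H : Type) [Group H] (S : Set (Subgroup H)),
        DirectedOn (fun A B => A ≤ B) S → sSup S = ⊤ → (∀ K ∈ S, P K) → P H) →
      P G) →
    (¬ ∃ K : Subgroup G, K.FiniteIndex ∧ Group.IsNilpotent K) →
    ∃ (H : Subgroup G) (N : Subgroup H) (_ : N.Normal),
      Group.FG (H ⧸ N) ∧ derivedSeries (H ⧸ N) 2 = ⊥ ∧
      ¬ ∃ K : Subgroup (H ⧸ N), K.FiniteIndex ∧ Group.IsNilpotent K) := by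
  classical
  intro h
  obtain ⟨G, _, _, M, t, _, hT, hI, ht⟩ := exists_group
  refine (h G (fun P p1 p2 _ _ _ p6 p7 => p6 G M ?_ ?_) ?_).elim ?_
  · have hT' : Thin (⊤ : Subgroup M) := (hT.comap M.subtype M.subtype_injective).mono fun a _ => a.2
    refine p7 M {K | Finite K} ?_ ?_ fun K hK => @p1 K _ hK
    · intro K hK L hL
      have h1 : ((K : Set M) ∪ L).Finite := (@Set.toFinite _ _ hK).union (@Set.toFinite _ _ hL)
      exact ⟨_, hT'.fin h1.toFinset (by simp), fun a ha => subset_closure (by simp [ha]),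
        fun a ha => subset_closure (by simp [ha])⟩
    · refine eq_top_iff.2 fun a _ => ?_
      exact le_sSup (show closure (({a} : Finset M) : Set M) ∈ _ from hT'.fin {a} (by simp))
        (subset_closure (by simp))
  · let π := QuotientGroup.mk' M
    have h1 : zpowers (π t) = ⊤ := by
      have := congrArg (Subgroup.map π) ht
      rwa [Subgroup.map_sup, map_top_of_surjective _ (QuotientGroup.mk'_surjective _),
        (Subgroup.map_eq_bot_iff M (f := π)).2 (by simp [π]), bot_sup_eq, MonoidHom.map_zpowers] at this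
    letI : CommGroup (G ⧸ M) := { (inferInstance : Group (G ⧸ M)) with
      mul_comm := fun a b => by
        obtain ⟨a, rfl⟩ : a ∈ zpowers (π t) := by simp [h1]
        obtain ⟨b, rfl⟩ : b ∈ zpowers (π t) := by simp [h1]
        exact zpow_mul_comm _ _ _ }
    exact p2 (G ⧸ M)
  · rintro ⟨K, _, _⟩
    obtain ⟨g, hg⟩ := cyc M t ht K
    obtain ⟨d, hd⟩ := (inferInstance : Group.IsSolvable K)
    have h1 := (solv' g d hd _ (hT.comap K.subtype K.subtype_injective) hg).2
    have h2 : Finite (K.subgroupOf M) := Finite.of_injective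
      (fun a : K.subgroupOf M => (⟨⟨a.1.1, a.2⟩, a.1.2⟩ : M.comap K.subtype))
      fun a b e => Subtype.ext (Subtype.ext (congrArg (fun c => c.1.1) e))
    exact not_finite_iff_infinite.2 hI
      ((finite_iff_finite_and_finiteIndex (K.subgroupOf M)).2 ⟨h2, inferInstance⟩)
  · rintro H ⟨N, _, _, h2, h3⟩
    obtain ⟨g, hg⟩ := cyc M t ht H
    let π := QuotientGroup.mk' N
    have hπ : Function.Surjective π := QuotientGroup.mk'_surjective _
    haveI : ((M.subgroupOf H).map π).Normal := Normal.map inferInstance π hπ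
    have := (solv' (π g) 2 h2 _ ((hT.comap H.subtype H.subtype_injective).map π) (by
      rw [← MonoidHom.map_zpowers, ← Subgroup.map_sup]
      exact (congrArg _ hg).trans (map_top_of_surjective π hπ))).1
    refine h3 ⟨_, this, ?_⟩
    letI : CommGroup (zpowers (π g)) := { (inferInstance : Group (zpowers (π g))) with
      mul_comm := by rintro ⟨_, a, rfl⟩ ⟨_, b, rfl⟩; exact Subtype.ext (zpow_mul_comm _ _ _) }
    exact CommGroup.isNilpotent

end Pool.Agent.H64.Thin
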