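import Pool.Agent.H64.RW

set_option autoImplicit false

open scoped Pointwise Topology
open Filter

namespace Pool.Agent.H64.TopCh

open Pool.Agent.H64.RW

variable {P : Type} [Group P]

/-- the ambient group -/
abbrev Q (P : Type) [Group P] := Wr P FS ℕ

theorem lt_inv {σ : FS} {n : ℕ} (h : ∀ i < n, σ • i = i) {i : ℕ} (hi : n ≤ i) : n ≤ σ⁻¹ • i := by
  by_contra hc
  have := h _ (not_le.1 hc)
  rw [smul_inv_smul] at this
  omega

/-- basic neighbourhoods -/
def U (H : Subgroup P) (n : ℕ) : Subgroup (Q P) where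
  carrier := {w | (∀ i < n, w.f i = 1 ∧ w.k • i = i) ∧ ∀ i, w.f i ∈ H}
  one_mem' := ⟨fun _ _ => ⟨rfl, rfl⟩, fun _ => H.one_mem⟩
  mul_mem' := fun {a b} ha hb => ⟨fun i hi => by
      have e : a.k⁻¹ • i = i := inv_smul_eq_iff.2 (ha.1 i hi).2.symm
      simp [e, mul_smul, ha.1 i hi, hb.1 i hi], fun i => H.mul_mem (ha.2 _) (hb.2 _)⟩
  inv_mem' := fun {a} ha => ⟨fun i hi => by
      have e : a.k⁻¹ • i = i := inv_smul_eq_iff.2 (ha.1 i hi).2.symm
      simp [e, ha.1 i hi], fun i => H.inv_mem (ha.2 _)⟩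

theorem U_mono {H H' : Subgroup P} {n m : ℕ} (h : H ≤ H') (hn : m ≤ n) : U H n ≤ U H' m :=
  fun _ hw => ⟨fun i hi => hw.1 i (by omega), fun i => h (hw.2 i)⟩

theorem exists_bound (q : Q P) : ∃ n, ∀ i, n ≤ i → q.f i = 1 ∧ q.k • i = i := by
  obtain ⟨n, hn⟩ := (q.fin.union q.k.2).bddAbove
  refine ⟨n + 1, fun i hi => ?_⟩
  by_contra h
  have : i ≤ n := hn (by
    by_contra h2
    simp only [Set.mem_union, Set.mem_setOf_eq, not_or, not_not] at h2
    exact h h2)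
  omega

theorem comm_of (q w : Q P) (n : ℕ) (hq : ∀ i, n ≤ i → q.f i = 1 ∧ q.k • i = i)
    (hw : ∀ i < n, w.f i = 1 ∧ w.k • i = i) : q * w = w * q := by
  have a1 : ∀ (σ : FS), (∀ i, n ≤ i → σ • i = i) → ∀ i < n, σ • i < n := by
    intro σ h i hi
    by_contra hc
    have : σ • i = i := MulAction.injective σ (h _ (not_lt.1 hc))
    omega
  have a2 : ∀ (σ : FS), (∀ i < n, σ • i = i) → ∀ i, n ≤ i → n ≤ σ • i := by
    intro σ h i hi
    by_contra hc
    have : σ • i = i := MulAction.injective σ (h _ (not_le.1 hc))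
    omega
  have q1 : ∀ i, n ≤ i → q.k⁻¹ • i = i := fun i hi => inv_smul_eq_iff.2 (hq i hi).2.symm
  have w1 : ∀ i < n, w.k⁻¹ • i = i := fun i hi => inv_smul_eq_iff.2 (hw i hi).2.symm
  ext1
  · funext i
    simp only [mul_f]
    rcases lt_or_ge i n with hi | hi
    · rw [(hw _ (a1 _ q1 i hi)).1, (hw i hi).1, w1 i hi]; simp
    · rw [(hq _ (a2 _ w1 i hi)).1, (hq i hi).1, q1 i hi]; simp
  · ext i
    change (q.k • w.k • i : ℕ) = w.k • q.k • i
    rcases lt_or_ge i n with hi | hi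
    · rw [(hw i hi).2, (hw _ (a1 _ (fun i hi => (hq i hi).2) i hi)).2]
    · rw [(hq i hi).2, (hq _ (a2 _ (fun i hi => (hw i hi).2) i hi)).2]

/-- the filter basis -/
@[reducible] def B (H : Subgroup P) : GroupFilterBasis (Q P) where
  sets := Set.range fun n => (U H n : Set (Q P))
  nonempty := Set.range_nonempty _
  inter_sets := by
    rintro _ _ ⟨n, rfl⟩ ⟨m, rfl⟩
    exact ⟨_, ⟨max n m, rfl⟩, Set.subset_inter (U_mono le_rfl (le_max_left _ _))
      (U_mono le_rfl (le_max_right _ _))⟩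
  one' := by rintro _ ⟨n, rfl⟩; exact (U H n).one_mem
  mul' := by
    rintro _ ⟨n, rfl⟩
    exact ⟨_, ⟨n, rfl⟩, by rintro _ ⟨a, ha, b, hb, rfl⟩; exact (U H n).mul_mem ha hb⟩
  inv' := by rintro _ ⟨n, rfl⟩; exact ⟨_, ⟨n, rfl⟩, fun a ha => (U H n).inv_mem ha⟩
  conj' := by
    rintro q _ ⟨n, rfl⟩
    obtain ⟨m, hm⟩ := exists_bound q
    refine ⟨_, ⟨max n m, rfl⟩, fun w hw => ?_⟩
    have := comm_of q w m hm (fun i hi => hw.1 i (lt_of_lt_of_le hi (le_max_right _ _)))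
    change q * w * q⁻¹ ∈ U H n
    rw [this, mul_inv_cancel_right]
    exact U_mono le_rfl (le_max_left _ _) hw

/-- the group topology attached to a subgroup -/
def τ (H : Subgroup P) : GroupTopology (Q P) := ⟨(B H).topology, (B H).isTopologicalGroup⟩

theorem mem_τ (H : Subgroup P) (V : Set (Q P)) :
    V ∈ @nhds _ (τ H).toTopologicalSpace 1 ↔ ∃ n, (U H n : Set (Q P)) ⊆ V := by
  change V ∈ @nhds _ (B H).topology 1 ↔ _
  rw [(B H).nhds_one_hasBasis.mem_iff]
  constructor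
  · rintro ⟨_, ⟨n, rfl⟩, h⟩; exact ⟨n, h⟩
  · rintro ⟨n, h⟩; exact ⟨_, ⟨n, rfl⟩, h⟩

theorem le_iff_nhds {G : Type} [Group G] (s t : GroupTopology G) :
    s ≤ t ↔ @nhds _ s.toTopologicalSpace 1 ≤ @nhds _ t.toTopologicalSpace 1 := by
  constructor
  · intro h; exact nhds_mono h
  · intro h
    change s.toTopologicalSpace ≤ t.toTopologicalSpace
    refine le_of_nhds_le_nhds fun x => ?_
    have hs := s.2
    have ht := t.2
    rw [← @nhds_translation_mul_inv G s.toTopologicalSpace _ _ x,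
      ← @nhds_translation_mul_inv G t.toTopologicalSpace _ _ x]
    exact comap_mono h

theorem single_mem {H : Subgroup P} {n i : ℕ} (hi : n ≤ i) {h : P} (hh : h ∈ H) :
    (single i h : Q P) ∈ U H n := by
  refine ⟨fun j hj => ⟨?_, rfl⟩, fun j => ?_⟩
  · rw [single_f, if_neg (by omega)]
  · rw [single_f]; split_ifs
    · exact hh
    · exact H.one_mem

theorem τ_le_iff (H H' : Subgroup P) : τ H ≤ τ H' ↔ H ≤ H' := by
  rw [le_iff_nhds]
  constructor
  · intro h x hx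
    obtain ⟨n, hn⟩ := (mem_τ _ _).1 (h ((mem_τ H' _).2 ⟨0, le_rfl⟩))
    have := (hn (single_mem le_rfl hx)).2 n
    rwa [single_f, if_pos rfl] at this
  · intro h V hV
    obtain ⟨n, hn⟩ := (mem_τ _ _).1 hV
    exact (mem_τ _ _).2 ⟨n, fun w hw => hn (U_mono h le_rfl hw)⟩

theorem τ_lt_iff (H H' : Subgroup P) : τ H < τ H' ↔ H < H' := by
  simp only [lt_iff_le_not_ge, τ_le_iff]

theorem τ_t2 (H : Subgroup P) : @T2Space _ (τ H).toTopologicalSpace := by
  refine (@GroupFilterBasis.t2Space_iff_sInter_subset _ _ (τ H).toTopologicalSpace (B H) rfl).2 ?_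
  intro w hw
  have : ∀ i, w.f i = 1 ∧ w.k • i = i := fun i => (hw _ ⟨i + 1, rfl⟩).1 i (by omega)
  change w = 1
  ext1
  · funext i; exact (this i).1
  · ext i; exact (this i).2

/-- uniform generation of the bigger subgroup -/
def Strong (H H' : Subgroup P) : Prop :=
  ∀ z ∈ H', ∃ N : ℕ, ∀ y ∈ H', y ∉ H →
    z ∈ {s : P | s ∈ H ∨ ∃ h ∈ H, s = y * h * y⁻¹} ^ N

section top
variable {G : Type} [Group G] [TopologicalSpace G] [IsTopologicalGroup G]

theorem ex_pow (N : ℕ) : ∀ V ∈ 𝓝 (1 : G), ∃ V' ∈ 𝓝 (1 : G), V' ^ N ⊆ V := by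
  induction N with
  | zero => intro V hV; exact ⟨V, hV, by simpa using mem_of_mem_nhds hV⟩
  | succ N ih =>
    intro V hV
    obtain ⟨W, hW, h1⟩ := exists_nhds_one_split hV
    obtain ⟨W', hW', h2⟩ := ih W hW
    refine ⟨W ∩ W', inter_mem hW hW', ?_⟩
    rw [pow_succ]
    rintro _ ⟨a, ha, b, hb, rfl⟩
    exact h1 a (h2 (Set.pow_subset_pow_left Set.inter_subset_right ha)) b hb.1

theorem ex_conj (V : Set G) (hV : V ∈ 𝓝 (1 : G)) :
    ∃ V' ∈ 𝓝 (1 : G), V' ⊆ V ∧ ∀ a ∈ V', ∀ b ∈ V', a * b * a⁻¹ ∈ V := by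
  obtain ⟨W, hW, h1⟩ := exists_nhds_split_inv hV
  obtain ⟨W', hW', h2⟩ := exists_nhds_one_split hW
  refine ⟨V ∩ (W ∩ W'), inter_mem hV (inter_mem hW hW'), Set.inter_subset_left, ?_⟩
  intro a ha b hb
  rw [← div_eq_mul_inv]
  exact h1 _ (h2 a ha.2.2 b hb.2.2) a ha.2.1

end top

theorem top_mem (H : Subgroup P) {n : ℕ} {σ : FS} (h : ∀ i < n, σ • i = i) :
    (top σ : Q P) ∈ U H n := ⟨fun i hi => ⟨rfl, h i hi⟩, fun _ => H.one_mem⟩

/-- shifted blocks -/
def blk (f : ℕ → P) (k m : ℕ) : Q P :=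
  ⟨fun i => if m ≤ i ∧ i < m + k then f (i - m) else 1, 1, (Set.finite_lt_nat (m + k)).subset (by
    intro i hi
    by_contra h
    exact hi (if_neg (fun e => h e.2)))⟩

theorem blk_succ (f : ℕ → P) (k m : ℕ) : blk f (k + 1) m = blk f k m * single (m + k) (f k) := by
  ext1
  · funext i
    simp only [mul_f, blk, inv_one, one_smul, single_f]
    by_cases h : i = m + k
    · subst h; simp
    · rw [if_neg h, mul_one]
      congr 1
      apply propext; omega
  · simp [blk]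

/-- block swap -/
def bs (n k m : ℕ) (hm : k ≤ m) : FS :=
  ⟨Function.Involutive.toPerm
    (fun i => if n ≤ i ∧ i < k then i + m else if n + m ≤ i ∧ i < k + m then i - m else i) (by
      intro i
      simp only
      split_ifs <;> omega), (Set.finite_lt_nat (k + m)).subset (by
    intro i hi
    simp only [Function.Involutive.coe_toPerm, Set.mem_setOf_eq] at hi ⊢
    split_ifs at hi <;> omega)⟩

theorem bs_smul (n k m : ℕ) (hm : k ≤ m) (i : ℕ) : bs n k m hm • i =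
    if n ≤ i ∧ i < k then i + m else if n + m ≤ i ∧ i < k + m then i - m else i := rfl

theorem cover {H H' : Subgroup P} (hlt : H < H') (hs : Strong H H') : τ H ⋖ τ H' := by
  refine ⟨(τ_lt_iff _ _).2 hlt, fun σ h1 h2 => h2.not_ge ?_⟩
  letI := σ.toTopologicalSpace
  haveI : IsTopologicalGroup (Q P) := σ.2
  have ha : ∀ V ∈ 𝓝 (1 : Q P), ∃ n, (U H n : Set (Q P)) ⊆ V :=
    fun V hV => (mem_τ _ _).1 ((le_iff_nhds _ _).1 h1.le hV)
  have hb : ∀ n, (U H' n : Set (Q P)) ∈ 𝓝 (1 : Q P) :=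
    fun n => (le_iff_nhds _ _).1 h2.le ((mem_τ _ _).2 ⟨n, le_rfl⟩)
  obtain ⟨n0, hc⟩ : ∃ n, (U H n : Set (Q P)) ∉ 𝓝 (1 : Q P) := by
    by_contra hcon
    push Not at hcon
    apply h1.not_ge
    rw [le_iff_nhds]
    intro V hV
    obtain ⟨n, hn⟩ := (mem_τ _ _).1 hV
    exact mem_of_superset (hcon n) hn
  have step1 : ∀ z ∈ H', ∀ V ∈ 𝓝 (1 : Q P), ∃ n, ∀ i, n ≤ i → single i z ∈ V := by
    intro z hz V hV
    obtain ⟨N, hN⟩ := hs z hz
    obtain ⟨V1, hV1, p1⟩ := ex_pow N V hV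
    obtain ⟨V2, hV2, s2, p2⟩ := ex_conj V1 hV1
    obtain ⟨V3, hV3, s3, p3⟩ := ex_conj V2 hV2
    obtain ⟨n1, hn1⟩ := ha V3 hV3
    have hU : ∀ w ∈ U H (max n0 n1), w ∈ V3 := fun w hw =>
      hn1 (U_mono le_rfl (le_max_right _ _) hw)
    obtain ⟨x, hx, hx2⟩ : ∃ x ∈ V3 ∩ U H' (max n0 n1), x ∉ U H (max n0 n1) := by
      by_contra hcon
      push Not at hcon
      exact hc (mem_of_superset (inter_mem hV3 (hb _))
        (fun x hx => U_mono le_rfl (le_max_left _ _) (hcon x hx)))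
    obtain ⟨j, hj⟩ : ∃ j, x.f j ∉ H := by
      by_contra hcon
      push Not at hcon
      exact hx2 ⟨hx.2.1, hcon⟩
    have hj1 : max n0 n1 ≤ j := by
      by_contra hcon
      exact hj ((hx.2.1 j (not_le.1 hcon)).1 ▸ H.one_mem)
    refine ⟨max n0 n1, fun i hi => p1 ?_⟩
    have := Set.mem_image_of_mem (single i : P →* Q P) (hN _ (hx.2.2 j) hj)
    rw [Set.image_pow] at this
    refine Set.pow_subset_pow_left ?_ this
    rintro _ ⟨s, hs | ⟨h, hh, rfl⟩, rfl⟩
    · exact s2 (s3 (hU _ (single_mem hi hs)))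
    · have e1 := p3 x hx.1 _ (hU _ (single_mem (lt_inv (fun i hi => (hx.2.1 i hi).2) hj1) hh))
      rw [conj_single, smul_inv_smul] at e1
      have e2 := p2 (top (sw i j)) (s3 (hU _ (top_mem H fun l hl =>
        Equiv.swap_apply_of_ne_of_ne (by omega) (by omega)))) _ e1
      rw [conj_single] at e2
      simpa [FS_smul, sw] using e2
  have step2 : ∀ f : ℕ → P, (∀ i, f i ∈ H') → ∀ k, ∀ V ∈ 𝓝 (1 : Q P),
      ∃ m0, ∀ m, m0 ≤ m → blk f k m ∈ V := by
    intro f hf k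
    induction k with
    | zero =>
      intro V hV
      refine ⟨0, fun m _ => ?_⟩
      have : blk f 0 m = 1 := by
        ext1
        · funext i; simp [blk]
        · rfl
      rw [this]; exact mem_of_mem_nhds hV
    | succ k ih =>
      intro V hV
      obtain ⟨W, hW, p⟩ := exists_nhds_one_split hV
      obtain ⟨m1, h1⟩ := ih W hW
      obtain ⟨m2, h2⟩ := step1 (f k) (hf k) W hW
      refine ⟨max m1 m2, fun m hm => ?_⟩
      rw [blk_succ]
      exact p _ (h1 m (le_of_max_le_left hm)) _ (h2 _ (by omega))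
  rw [le_iff_nhds]
  intro W hW
  obtain ⟨W1, hW1, p1⟩ := exists_nhds_one_split hW
  obtain ⟨W2, hW2, s2, p2⟩ := ex_conj W1 hW1
  obtain ⟨n, hn⟩ := ha W2 hW2
  refine (mem_τ _ _).2 ⟨n, fun w hw => ?_⟩
  obtain ⟨k, hk⟩ := exists_bound w
  obtain ⟨m0, hm0⟩ := step2 w.f hw.2 k W2 hW2
  have hm : k ≤ max m0 k := le_max_right _ _
  have e : w = top (bs n k _ hm)⁻¹ * blk w.f k (max m0 k) * (top (bs n k _ hm)⁻¹)⁻¹ * top w.k := by
    ext1
    · funext i
      simp only [mul_f, top_f, inv_f, top_k, inv_inv, one_mul, inv_one, mul_one, blk, bs_smul]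
      have a1 : i < n → w.f i = 1 := fun h => (hw.1 i h).1
      have a2 : k ≤ i → w.f i = 1 := fun h => (hk i h).1
      have a3 : i - max m0 k < n → w.f (i - max m0 k) = 1 := fun h => (hw.1 (i - max m0 k) h).1
      split_ifs
      · congr 1; omega
      · omega
      · omega
      · exact a2 (by omega)
      · rw [a2 (by omega), a3 (by omega)]
      · rcases lt_or_ge i n with h | h
        · exact a1 h
        · exact a2 (by omega)
    · simp [blk]
  rw [e]
  refine p1 _ (p2 _ (hn (top_mem H fun i hi => ?_)) _ (hm0 _ (le_max_left _ _))) _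
    (s2 (hn (top_mem H fun i hi => (hw.1 i hi).2)))
  rw [inv_smul_eq_iff, bs_smul, if_neg (by omega), if_neg (by omega)]

end Pool.Agent.H64.TopCh
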