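import Pool.Agent.H64.TopCh1

set_option autoImplicit false

open scoped Pointwise Topology
open Filter

namespace Pool.Agent.H64.TopCh

open Pool.Agent.H64.RW

/-- the symmetric group on three letters -/
abbrev A := Equiv.Perm (Fin 3)

/-- a subgroup of order two -/
def C : Subgroup A := MulAction.stabilizer A (2 : Fin 3)

theorem mem_C (a : A) : a ∈ C ↔ a 2 = 2 := Iff.rfl

theorem C_strong : ∀ u s : A, u 2 ≠ 2 → s 2 ≠ 2 →
    ∃ c1 c c2 : A, c1 2 = 2 ∧ c 2 = 2 ∧ c2 2 = 2 ∧ s = c1 * (u * c * u⁻¹) * c2 := by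
  decide +kernel

/-- the inner group -/
abbrev PP := Wr A FS FS

/-- the middle subgroup -/
def T : Subgroup PP where
  carrier := {p | ∀ x, p.f x ∈ C}
  one_mem' := fun _ => C.one_mem
  mul_mem' := fun ha hb _ => C.mul_mem (ha _) (hb _)
  inv_mem' := fun ha _ => C.inv_mem (ha _)

/-- the chain of subgroups -/
def S (n : ℕ) : Subgroup PP where
  carrier := {p | p.k.1 0 = 0 ∧ ∀ x : FS, n ≤ (x⁻¹).1 0 → p.f x ∈ C}
  one_mem' := ⟨rfl, fun _ _ => C.one_mem⟩
  mul_mem' := fun {a b} ha hb => ⟨by simp [ha.1, hb.1], fun x hx =>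
    C.mul_mem (ha.2 x hx) (hb.2 _ (by simpa [ha.1] using hx))⟩
  inv_mem' := fun {a} ha => by
    have : (a.k.1)⁻¹ 0 = 0 := Equiv.Perm.inv_eq_iff_eq.2 ha.1.symm
    have this' : (Equiv.symm a.k.1) 0 = 0 := this
    exact ⟨this, fun x hx => C.inv_mem (ha.2 _ (by simpa [this'] using hx))⟩

theorem S_mono {n m : ℕ} (h : n ≤ m) : S n ≤ S m :=
  fun _ hp => ⟨hp.1, fun x hx => hp.2 x (h.trans hx)⟩

theorem S_lt (n : ℕ) : S n < S (n + 1) := by
  refine lt_of_le_of_ne (S_mono (by omega)) fun e => ?_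
  have h1 : (single (sw 0 n) (Equiv.swap 1 2) : PP) ∈ S (n + 1) := by
    refine ⟨rfl, fun x hx => ?_⟩
    rw [single_f, if_neg]
    · exact C.one_mem
    · rintro rfl
      simp [sw] at hx
  rw [← e] at h1
  have := h1.2 (sw 0 n) (by simp [sw])
  rw [single_f, if_pos rfl, mem_C] at this
  exact absurd this (by decide)

theorem S_strict : StrictMono S := strictMono_nat_of_lt_succ S_lt

theorem top_T (k : FS) : (top k : PP) ∈ T := fun _ => C.one_mem

theorem single_T (x : FS) {c : A} (hc : c ∈ C) : (single x c : PP) ∈ T := by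
  intro y
  rw [single_f]; split_ifs
  · exact hc
  · exact C.one_mem

theorem S0_lt : S 0 < T := by
  refine lt_of_le_of_ne (fun p hp x => hp.2 x (Nat.zero_le _)) fun e => ?_
  have h1 := top_T (sw 0 1)
  rw [← e] at h1
  have := h1.1
  simp [sw] at this

theorem T_lt : T < ⊤ := by
  refine lt_top_iff_ne_top.2 fun e => ?_
  have h1 : (single 1 (Equiv.swap 1 2) : PP) ∈ T := e ▸ Subgroup.mem_top _
  have := h1 1
  rw [single_f, if_pos rfl, mem_C] at this
  exact absurd this (by decide)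

theorem mem3 {G : Type} [Group G] {X : Set G} {a b c : G} (ha : a ∈ X) (hb : b ∈ X) (hc : c ∈ X) :
    a * b * c ∈ X ^ 3 := by
  rw [pow_succ, pow_two]
  exact Set.mul_mem_mul (Set.mul_mem_mul ha hb) hc

theorem strong1 : Strong (S 0) T := by
  intro z hz
  refine ⟨3, fun y hy hy2 => ?_⟩
  have mem : ∀ p ∈ T, p.k.1 0 = 0 → p ∈ S 0 := fun p hp h => ⟨h, fun x _ => hp x⟩
  have hb : y.k.1 0 ≠ 0 := fun h => hy2 (mem y hy h)
  have key : ∀ w ∈ T, w.k.1 0 ≠ y.k.1 0 → ∃ h ∈ S 0, ∃ d ∈ S 0, w = y * h * y⁻¹ * d := by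
    intro w hw hne
    refine ⟨y⁻¹ * top (sw 0 (w.k.1 0)) * y,
      mem _ (T.mul_mem (T.mul_mem (T.inv_mem hy) (top_T _)) hy) ?_,
      (top (sw 0 (w.k.1 0)))⁻¹ * w, mem _ (T.mul_mem (T.inv_mem (top_T _)) hw) ?_, by group⟩
    · simp [sw, Equiv.swap_apply_of_ne_of_ne hb hne.symm]
    · simp [sw]
  by_cases h : z.k.1 0 = y.k.1 0
  · obtain ⟨h', hh, d, hd, e⟩ := key (top (sw (y.k.1 0) (y.k.1 0 + 1)) * z)
      (T.mul_mem (top_T _) hz) (by simp [sw, h])
    have : z = (top (sw (y.k.1 0) (y.k.1 0 + 1)))⁻¹ * (y * h' * y⁻¹) * d := by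
      rw [mul_assoc, ← e]; group
    rw [this]
    refine mem3 (Or.inl (Subgroup.inv_mem _ (mem _ (top_T _) ?_))) (Or.inr ⟨h', hh, rfl⟩) (Or.inl hd)
    exact Equiv.swap_apply_of_ne_of_ne hb.symm (by omega)
  · obtain ⟨h', hh, d, hd, e⟩ := key z hz h
    rw [e, ← one_mul (y * h' * y⁻¹)]
    exact mem3 (Or.inl (S 0).one_mem) (Or.inr ⟨h', hh, rfl⟩) (Or.inl hd)

theorem strong2 : Strong T ⊤ := by
  classical
  let Bd : PP → Prop := fun z => ∃ N : ℕ, ∀ y ∈ (⊤ : Subgroup PP), y ∉ T →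
    z ∈ {s : PP | s ∈ T ∨ ∃ h ∈ T, s = y * h * y⁻¹} ^ N
  have hT : ∀ z ∈ T, Bd z := fun z hz => ⟨1, fun y _ _ => by rw [pow_one]; exact Or.inl hz⟩
  have hmul : ∀ a b, Bd a → Bd b → Bd (a * b) := by
    rintro a b ⟨N, hN⟩ ⟨M, hM⟩
    exact ⟨N + M, fun y h1 h2 => by rw [pow_add]; exact Set.mul_mem_mul (hN y h1 h2) (hM y h1 h2)⟩
  have hs : ∀ x s, Bd (single x s) := by
    intro x s
    by_cases hsC : s ∈ C
    · exact hT _ (single_T x hsC)
    refine ⟨3, fun y _ hy => ?_⟩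
    obtain ⟨x0, hx0⟩ : ∃ x0, y.f x0 ∉ C := by
      by_contra h
      push Not at h
      exact hy h
    obtain ⟨c1, c, c2, h1, h2, h3, e⟩ := C_strong _ _ hx0 hsC
    have e1 := conj_single y (y.k⁻¹ • x0) c
    rw [smul_inv_smul] at e1
    have e2 := conj_single (top (x * x0⁻¹) : PP) x0 (y.f x0 * c * (y.f x0)⁻¹)
    simp only [top_k, top_f, smul_eq_mul, inv_mul_cancel_right, one_mul, inv_one, mul_one] at e2
    have : (single x s : PP) = (single x c1 * top (x * x0⁻¹)) * (y * single (y.k⁻¹ • x0) c * y⁻¹) *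
        ((top (x * x0⁻¹))⁻¹ * single x c2) := by
      rw [e, map_mul, map_mul, ← e2, e1]; group
    rw [this]
    exact mem3 (Or.inl (T.mul_mem (single_T _ h1) (top_T _)))
      (Or.inr ⟨_, single_T _ h2, rfl⟩) (Or.inl (T.mul_mem (T.inv_mem (top_T _)) (single_T _ h3)))
  have hall : ∀ F : Finset FS, ∀ z : PP, (∀ x, x ∉ F → z.f x = 1) → Bd z := by
    intro F
    induction F using Finset.induction_on with
    | empty => exact fun z hz => hT z fun x => by rw [hz x (by simp)]; exact C.one_mem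
    | insert x F hx ih =>
      intro z hz
      have : z = single x (z.f x) * ((single x (z.f x))⁻¹ * z) := by group
      rw [this]
      refine hmul _ _ (hs _ _) (ih _ fun y hy => ?_)
      simp only [mul_f, inv_f, single_k, one_smul, inv_k, inv_one, single_f]
      by_cases h : y = x
      · simp [h]
      · simp [h, hz y (by simp [h, hy])]
  intro z _
  exact hall z.fin.toFinset z fun x hx => by simpa using hx

theorem main :
    ∃ (G : Type) (_ : Group G), Countable G ∧ Infinite G ∧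
      (∃ t : GroupTopology G, @T2Space G t.toTopologicalSpace ∧ t.toTopologicalSpace ≠ ⊥) ∧
      ∃ (k : ℕ) (τ : Fin (k + 1) → GroupTopology G),
        (∀ i : Fin k, τ i.castSucc ⋖ τ i.succ) ∧
        (∀ i : Fin (k + 1), @T2Space G (τ i).toTopologicalSpace) ∧
        ∃ S : Set (GroupTopology G), S.Infinite ∧ IsChain (· ≤ ·) S ∧
          ∀ s ∈ S, τ 0 < s ∧ s < τ (Fin.last k) := by
  refine ⟨Q PP, inferInstance, inferInstance, ?_, ⟨τ ⊤, τ_t2 _, ?_⟩, 2,
    fun i => τ (![S 0, T, ⊤] i), ?_, fun i => τ_t2 _, Set.range fun n => τ (S (n + 1)), ?_, ?_, ?_⟩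
  · refine Infinite.of_injective (fun n : ℕ => (top (sw 0 n) : Q PP)) fun a b h => ?_
    simpa [sw] using congrArg (fun w : Q PP => w.k.1 0) h
  · intro e
    have : τ (⊤ : Subgroup PP) ≤ τ T := by
      change (τ ⊤).toTopologicalSpace ≤ _
      rw [e]; exact bot_le
    exact T_lt.not_ge ((τ_le_iff _ _).1 this)
  · intro i
    fin_cases i
    · exact cover S0_lt strong1
    · exact cover T_lt strong2
  · refine Set.infinite_range_of_injective (StrictMono.injective fun a b h => ?_)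
    exact (τ_lt_iff _ _).2 (S_strict (by omega))
  · rintro _ ⟨a, rfl⟩ _ ⟨b, rfl⟩ _
    rcases le_total a b with h | h
    · exact Or.inl ((τ_le_iff _ _).2 (S_mono (by omega)))
    · exact Or.inr ((τ_le_iff _ _).2 (S_mono (by omega)))
  · rintro _ ⟨a, rfl⟩
    exact ⟨(τ_lt_iff _ _).2 (S_strict (by omega : 0 < a + 1)),
      (τ_lt_iff _ _).2 ((S_lt _).trans_le le_top)⟩

end Pool.Agent.H64.TopCh
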