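import Pool.Agent.H70.GrigJac
import Pool.Agent.H70.GrigTor

set_option autoImplicit false

namespace Pool.Agent.H64.WrMax

open MonoidAlgebra

section Gen
variable (Q : Type) [Group Q]

abbrev R := MonoidAlgebra (ZMod 2) Q

/-- left multiplication -/
noncomputable def lm : Q →* MulAut (Multiplicative (R Q)) where
  toFun g :=
    { toFun := fun v => Multiplicative.ofAdd (of (ZMod 2) Q g * v.toAdd)
      invFun := fun v => Multiplicative.ofAdd (of (ZMod 2) Q g⁻¹ * v.toAdd)
      left_inv := fun v => by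
        simp only [toAdd_ofAdd]
        rw [← mul_assoc, ← map_mul, inv_mul_cancel, map_one, one_mul]; rfl
      right_inv := fun v => by
        simp only [toAdd_ofAdd]
        rw [← mul_assoc, ← map_mul, mul_inv_cancel, map_one, one_mul]; rfl
      map_mul' := fun v w => by
        simp only [toAdd_mul, mul_add, ofAdd_add] }
  map_one' := by
    refine MulEquiv.ext fun v => ?_
    show of (ZMod 2) Q 1 * v.toAdd = v.toAdd
    rw [map_one, one_mul]
  map_mul' g h := by
    refine MulEquiv.ext fun v => ?_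
    show of (ZMod 2) Q (g * h) * v.toAdd = of (ZMod 2) Q g * (of (ZMod 2) Q h * v.toAdd)
    rw [map_mul, mul_assoc]

theorem lm_apply (g : Q) (v : Multiplicative (R Q)) :
    lm Q g v = Multiplicative.ofAdd (of (ZMod 2) Q g * v.toAdd) := rfl

abbrev W := Multiplicative (R Q) ⋊[lm Q] Q

variable {Q}

noncomputable def tr (v : R Q) : W Q := SemidirectProduct.inl (Multiplicative.ofAdd v)

theorem tr_add (v w : R Q) : tr (v + w) = tr v * tr w := by simp [tr]

theorem tr_zero : tr (0 : R Q) = 1 := by simp [tr]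

theorem conj_tr (g : Q) (v : R Q) :
    SemidirectProduct.inr g * tr v * (SemidirectProduct.inr g)⁻¹ = tr (of (ZMod 2) Q g * v) := by
  rw [tr, tr, ← map_inv, ← SemidirectProduct.inl_aut]; rfl

theorem zm (c : ZMod 2) : c = 0 ∨ c = 1 := by revert c; decide

theorem add_self (v : R Q) : v + v = 0 := by
  rw [← two_smul (ZMod 2) v]
  have : (2 : ZMod 2) = 0 := by decide
  rw [this, zero_smul]

theorem decomp (x : W Q) : x = tr x.left.toAdd * SemidirectProduct.inr x.right := by
  simp [tr]

/-- the left ideal cut out by a subgroup containing the top group -/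
noncomputable def idl (K : Subgroup (W Q)) (h : ∀ g : Q, SemidirectProduct.inr g ∈ K) :
    Submodule (R Q) (R Q) where
  carrier := {v | tr v ∈ K}
  zero_mem' := by show tr 0 ∈ K; rw [tr_zero]; exact K.one_mem
  add_mem' := by
    intro v w hv hw
    show tr (v + w) ∈ K
    rw [tr_add]; exact K.mul_mem hv hw
  smul_mem' := by
    intro r v hv
    show tr (r * v) ∈ K
    induction r using MonoidAlgebra.induction_on with
    | of g => rw [← conj_tr]; exact K.mul_mem (K.mul_mem (h g) hv) (K.inv_mem (h g))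
    | add x y hx hy => rw [add_mul, tr_add]; exact K.mul_mem hx hy
    | smul c x hx =>
      rcases zm c with rfl | rfl
      · rw [zero_smul, zero_mul, tr_zero]; exact K.one_mem
      · rw [one_smul]; exact hx

theorem top_of (K : Subgroup (W Q)) (h : ∀ g : Q, SemidirectProduct.inr g ∈ K)
    (h1 : tr (1 : R Q) ∈ K) : K = ⊤ := by
  rw [eq_top_iff]
  intro x _
  rw [decomp x]
  refine K.mul_mem ?_ (h _)
  have := (idl K h).smul_mem x.left.toAdd (x := 1) h1
  rw [smul_eq_mul, mul_one] at this
  exact this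

noncomputable def sub (I : Submodule (R Q) (R Q)) : Subgroup (W Q) where
  carrier := {x | x.left.toAdd ∈ I}
  one_mem' := I.zero_mem
  mul_mem' := by
    intro x y hx hy
    show (x * y).left.toAdd ∈ I
    rw [SemidirectProduct.mul_left, toAdd_mul]
    exact I.add_mem hx (I.smul_mem _ hy)
  inv_mem' := by
    intro x hx
    show (x⁻¹).left.toAdd ∈ I
    rw [SemidirectProduct.inv_left]
    exact I.smul_mem _ (I.neg_mem hx)

theorem inr_sub (I : Submodule (R Q) (R Q)) (g : Q) : SemidirectProduct.inr g ∈ sub I :=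
  I.zero_mem

theorem tr_sub (I : Submodule (R Q) (R Q)) (v : R Q) : tr v ∈ sub I ↔ v ∈ I := Iff.rfl

theorem coatom (I : Submodule (R Q) (R Q)) (hI : IsCoatom I) : IsCoatom (sub I) := by
  refine ⟨fun h => hI.1 ?_, fun K hK => ?_⟩
  · rw [eq_top_iff]
    intro v _
    rw [← tr_sub, h]; trivial
  · have h : ∀ g : Q, SemidirectProduct.inr g ∈ K := fun g => hK.le (inr_sub I g)
    have : I < idl K h := by
      refine lt_of_le_of_ne (fun v hv => hK.le ((tr_sub I v).2 hv)) fun e => hK.not_ge ?_
      intro x hx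
      have h2 : tr x.left.toAdd ∈ K := by
        have := K.mul_mem hx (K.inv_mem (h x.right))
        rwa [← eq_mul_inv_of_mul_eq (decomp x).symm] at this
      show x.left.toAdd ∈ I
      rw [e]; exact h2
    refine top_of K h ?_
    have h3 : (1 : R Q) ∈ idl K h := by rw [hI.2 _ this]; trivial
    exact h3

theorem ker_le (I : Submodule (R Q) (R Q)) (hn : (sub I).Normal) :
    RingHom.ker (MonoidAlgebra.lift (ZMod 2) (ZMod 2) Q 1) ≤ I := by
  have h1 : ∀ g : Q, of (ZMod 2) Q g - 1 ∈ I := by
    intro g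
    have := hn.conj_mem _ (inr_sub I g) (tr 1)⁻¹
    have h2 := (sub I).mul_mem this ((sub I).inv_mem (inr_sub I g))
    rw [inv_inv, mul_assoc, mul_assoc, ← mul_assoc (SemidirectProduct.inr g), conj_tr, mul_one]
      at h2
    have e : (tr (1 : R Q))⁻¹ * tr (of (ZMod 2) Q g) = tr (of (ZMod 2) Q g - 1) := by
      rw [inv_mul_eq_iff_eq_mul, ← tr_add]; congr 1; abel
    rw [e] at h2
    exact h2
  have h2 : ∀ v : R Q, v - (MonoidAlgebra.lift (ZMod 2) (ZMod 2) Q 1 v) • (1 : R Q) ∈ I := by
    intro v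
    induction v using MonoidAlgebra.induction_on with
    | of g => rw [MonoidAlgebra.lift_of]; simpa using h1 g
    | add x y hx hy =>
      rw [map_add, add_smul]
      convert I.add_mem hx hy using 1; abel
    | smul c x hx =>
      rcases zm c with rfl | rfl
      · simp
      · rw [one_smul]; exact hx
  intro v hv
  have := h2 v
  rw [RingHom.mem_ker] at hv
  rw [hv, zero_smul, sub_zero] at this
  exact this

theorem exists_max (hJ : Ring.jacobson (R Q) ≠
    RingHom.ker (MonoidAlgebra.lift (ZMod 2) (ZMod 2) Q 1)) :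
    ∃ H : Subgroup (W Q), IsCoatom H ∧ ¬ H.Normal := by
  by_contra hc
  push Not at hc
  apply hJ
  apply le_antisymm
  · have : (RingHom.ker (MonoidAlgebra.lift (ZMod 2) (ZMod 2) Q 1)).IsMaximal := by
      apply RingHom.ker_isMaximal_of_surjective
      intro c
      exact ⟨c • 1, by simp⟩
    exact Ring.jacobson_le_of_isMaximal _
  · rw [Ring.jacobson, Module.jacobson]
    refine le_sInf fun I hI => ker_le I (hc _ (coatom I hI))

theorem fg [h : Group.FG Q] : Group.FG (W Q) := by
  classical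
  obtain ⟨S, hS⟩ := h.out
  refine ⟨⟨insert (tr 1) (S.image SemidirectProduct.inr), top_of _ (fun g => ?_) ?_⟩⟩
  · have : g ∈ Subgroup.closure (S : Set Q) := by rw [hS]; trivial
    have h2 := Subgroup.mem_map_of_mem (SemidirectProduct.inr : Q →* W Q) this
    rw [MonoidHom.map_closure] at h2
    refine Subgroup.closure_mono ?_ h2
    rw [Finset.coe_insert, Finset.coe_image]
    exact Set.subset_insert _ _
  · exact Subgroup.subset_closure (by simp)

theorem pgrp (h : IsPGroup 2 Q) : IsPGroup 2 (W Q) := by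
  intro x
  obtain ⟨k, hk⟩ := h x.right
  refine ⟨k + 1, ?_⟩
  have h1 : (x ^ 2 ^ k).right = 1 := by
    have := map_pow (SemidirectProduct.rightHom : W Q →* Q) x (2 ^ k)
    rw [SemidirectProduct.rightHom_eq_right] at this
    rw [this, hk]
  rw [pow_succ, pow_mul, decomp (x ^ 2 ^ k), h1, map_one, mul_one, sq, ← tr_add, add_self, tr_zero]

noncomputable def mp {P : Type} [Group P] (π : Q →* P) : W Q →* W P :=
  SemidirectProduct.map
    (AddMonoidHom.toMultiplicative (MonoidAlgebra.mapDomainRingHom (ZMod 2) π).toAddMonoidHom) π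
    (fun g => by
      refine MonoidHom.ext fun v => ?_
      show MonoidAlgebra.mapDomainRingHom (ZMod 2) π (of (ZMod 2) Q g * v.toAdd) =
        of (ZMod 2) P (π g) * MonoidAlgebra.mapDomainRingHom (ZMod 2) π v.toAdd
      rw [map_mul]
      congr 1
      simp)

theorem fin {P : Type} [Group P] [Finite P] : Finite (W P) := by
  have : Finite (R P) := Finite.of_injective (fun v : R P => (v.coeff : P → ZMod 2))
    (fun v w h => by ext g; exact congrFun h g)
  exact Finite.of_injective (fun x : W P => (x.left, x.right))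
    (fun x y h => SemidirectProduct.ext (congrArg Prod.fst h) (congrArg Prod.snd h))

theorem rf (h : ∀ S : Finset Q, ∃ (P : Type) (_ : Group P) (_ : Finite P) (π : Q →* P),
      Set.InjOn π S) (x : W Q) (hx : x ≠ 1) :
    ∃ N : Subgroup (W Q), N.Normal ∧ N.index ≠ 0 ∧ x ∉ N := by
  classical
  obtain ⟨P, _, _, π, hπ⟩ := h (insert 1 (insert x.right x.left.toAdd.coeff.support))
  haveI : Finite (W P) := fin
  refine ⟨(mp π).ker, inferInstance, ?_, fun hk => hx ?_⟩
  · rw [Subgroup.index_ker]; exact Nat.card_pos.ne'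
  · rw [MonoidHom.mem_ker] at hk
    have h1 : π x.right = 1 := congrArg SemidirectProduct.right hk
    have h2 : MonoidAlgebra.mapDomainRingHom (ZMod 2) π x.left.toAdd = 0 :=
      congrArg (fun y : W P => y.left.toAdd) hk
    have h3 : x.right = 1 := hπ (by simp) (by simp) (by rw [h1, map_one])
    have h4 : x.left.toAdd = 0 := by
      have h5 : Finsupp.mapDomain π x.left.toAdd.coeff = 0 := congrArg MonoidAlgebra.coeff h2
      have h6 := Finsupp.mapDomain_injOn (M := ZMod 2) _ hπ (x₁ := x.left.toAdd.coeff) (x₂ := 0)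
        (by intro g hg; simp only [Finset.coe_insert]; right; right; exact hg) (by simp)
        (by rw [h5]; simp)
      ext g
      rw [h6]; rfl
    rw [decomp x, h3, h4, tr_zero, map_one, one_mul]

end Gen

open Pool.Agent.H70.GrigDefs Pool.Agent.H70.GrigJac

theorem snoc_fa (u : List Bool) (x : Bool) : ∃ y, fa (u ++ [x]) = fa u ++ [y] := by
  cases u with
  | nil => exact ⟨!x, rfl⟩
  | cons z u => exact ⟨x, rfl⟩

theorem snoc_ft (u : List Bool) (x : Bool) : ∀ i, ∃ y, ft i (u ++ [x]) = ft i u ++ [y] := by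
  induction u with
  | nil => intro i; cases x; exacts [⟨false, by simp [ft, fa]⟩, ⟨true, by simp [ft]⟩]
  | cons z u ih =>
    intro i
    cases z
    · by_cases h : i = 2
      · exact ⟨x, by simp [ft, h]⟩
      · obtain ⟨y, hy⟩ := snoc_fa u x
        exact ⟨y, by simp [ft, h, hy]⟩
    · obtain ⟨y, hy⟩ := ih (i + 1)
      exact ⟨y, by simp [ft, hy]⟩

theorem snoc (g : Equiv.Perm (List Bool)) (hg : g ∈ Grig) :
    g [] = [] ∧ ∀ u x, ∃ y, g (u ++ [x]) = g u ++ [y] := by
  induction hg using Subgroup.closure_induction'' with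
  | mem x hx =>
    rcases hx with rfl | rfl | rfl | rfl
    exacts [⟨rfl, snoc_fa⟩, ⟨rfl, fun u x => snoc_ft u x 0⟩, ⟨rfl, fun u x => snoc_ft u x 1⟩,
      ⟨rfl, fun u x => snoc_ft u x 2⟩]
  | inv_mem x hx =>
    rcases hx with rfl | rfl | rfl | rfl
    exacts [⟨rfl, snoc_fa⟩, ⟨rfl, fun u x => snoc_ft u x 0⟩, ⟨rfl, fun u x => snoc_ft u x 1⟩,
      ⟨rfl, fun u x => snoc_ft u x 2⟩]
  | one => exact ⟨rfl, fun u x => ⟨x, rfl⟩⟩
  | mul a b _ _ ha hb =>
    refine ⟨by rw [Equiv.Perm.mul_apply, hb.1, ha.1], fun u x => ?_⟩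
    obtain ⟨y, hy⟩ := hb.2 u x
    obtain ⟨z, hz⟩ := ha.2 (b u) y
    exact ⟨z, by rw [Equiv.Perm.mul_apply, hy, hz]; rfl⟩

theorem pow_fix (g : Equiv.Perm (List Bool)) (hg : g ∈ Grig) (u : List Bool) :
    (g ^ 2 ^ u.length) u = u := by
  induction u using List.reverseRecOn with
  | nil => simpa using (snoc g hg).1
  | append_singleton u x ih =>
    rw [List.length_append, List.length_singleton, pow_succ, pow_mul, sq, Equiv.Perm.mul_apply]
    have hh := snoc _ (Grig.pow_mem hg (2 ^ u.length))
    generalize g ^ 2 ^ u.length = h at *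
    obtain ⟨y, hy⟩ := hh.2 u x
    obtain ⟨z, hz⟩ := hh.2 u y
    rw [ih] at hy hz
    rw [hy, hz]
    by_cases e : y = x
    · subst e; rw [← hz, hy]
    · have : z ≠ y := by
        rintro rfl
        have := h.injective (hy.trans hz.symm)
        simp at this
        exact e this.symm
      congr 2
      revert e this; cases x <;> cases y <;> cases z <;> simp

theorem grig_p : IsPGroup 2 Grig := by
  intro g
  have hfin := Pool.Agent.H70.GrigTor.torsion g
  obtain ⟨k, m, hm, e⟩ := Nat.exists_eq_two_pow_mul_odd (orderOf_pos_iff.2 hfin).ne'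
  refine ⟨k, ?_⟩
  set h := g ^ 2 ^ k with hh
  have h1 : h ^ m = 1 := by rw [hh, ← pow_mul, ← e, pow_orderOf_eq_one]
  apply Subtype.ext
  ext1 u
  have h2 := pow_fix h.1 h.2 u
  have h3 : (h.1 ^ m) u = u := by
    have : h.1 ^ m = 1 := congrArg Subtype.val h1
    rw [this]; rfl
  have a2 : Function.IsPeriodicPt h.1 (2 ^ u.length) u := by
    rw [Function.IsPeriodicPt, Function.IsFixedPt, ← Equiv.Perm.coe_pow]; exact h2
  have a3 : Function.IsPeriodicPt h.1 m u := by
    rw [Function.IsPeriodicPt, Function.IsFixedPt, ← Equiv.Perm.coe_pow]; exact h3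
  have a4 := a2.gcd a3
  have : Nat.gcd (2 ^ u.length) m = 1 :=
    Nat.Coprime.pow_left _ (Nat.coprime_two_left.2 hm)
  rw [this] at a4
  exact a4

theorem grig_fg : Group.FG Grig := by
  rw [Group.fg_iff_subgroup_fg]
  exact (Subgroup.fg_iff _).2 ⟨_, rfl, Set.toFinite _⟩

def lev (n : ℕ) : Grig →* Equiv.Perm {u : List Bool // u.length ≤ n} where
  toFun g := Equiv.Perm.subtypePerm g.1 fun u => by
    obtain ⟨C, hC⟩ := bound g.1 g.2
    rw [(hC u).1]
  map_one' := rfl
  map_mul' _ _ := rfl

theorem grig_rf (S : Finset Grig) : ∃ (P : Type) (_ : Group P) (_ : Finite P) (π : Grig →* P),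
    Set.InjOn π S := by
  have h1 : ∀ q : Grig × Grig, ∃ n : ℕ, ∀ m, n ≤ m → lev m q.1 = lev m q.2 → q.1 = q.2 := by
    intro q
    by_cases h : q.1 = q.2
    · exact ⟨0, fun _ _ _ => h⟩
    · have : ∃ u, q.1.1 u ≠ q.2.1 u := by
        by_contra hc
        push Not at hc
        exact h (Subtype.ext (Equiv.ext hc))
      obtain ⟨u, hu⟩ := this
      refine ⟨u.length, fun m hm e => absurd ?_ hu⟩
      exact congrArg Subtype.val (Equiv.congr_fun e ⟨u, hm⟩)
  choose n hn using h1
  haveI : Finite {u : List Bool // u.length ≤ (S ×ˢ S).sup n} := List.finite_length_le Bool _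
  refine ⟨_, inferInstance, inferInstance, lev ((S ×ˢ S).sup n), fun a ha b hb e => ?_⟩
  exact hn (a, b) _ (Finset.le_sup (f := n) (Finset.mk_mem_product ha hb)) e

theorem main : ¬ (∀ (p : ℕ), p.Prime → ∀ (G : Type) [Group G], Group.FG G → IsPGroup p G →
      (∀ g : G, g ≠ 1 → ∃ N : Subgroup G, N.Normal ∧ N.index ≠ 0 ∧ g ∉ N) →
      ∀ H : Subgroup G, IsCoatom H → H.Normal) := by
  intro h
  obtain ⟨H, h1, h2⟩ := exists_max (Q := Grig) Pool.Agent.H70.GrigJac.main
  haveI := grig_fg
  exact h2 (h 2 Nat.prime_two (W Grig) fg (pgrp grig_p) (rf grig_rf) H h1)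

end Pool.Agent.H64.WrMax
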