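import Pool.Agent.H64.ZipperDefs

namespace Pool.Agent.H64.Zipper

open Pool.Agent.H64.ZipperDefs LaurentPolynomial

def s5 : (ZMod 49)ˣ := ⟨5, 10, by decide, by decide⟩
def q2 : (ZMod 49)ˣ := ⟨2, 25, by decide, by decide⟩

def gh (n : ℕ) : Braid n →* (ZMod 49)ˣ :=
  PresentedGroup.toGroup (f := fun _ => s5) (by
    rintro r (⟨i, j, -, rfl⟩ | ⟨i, j, -, rfl⟩) <;> simp)

lemma gh_sigma (n i : ℕ) (h1 : 1 ≤ i) (h2 : i ≤ n - 1) : gh n (sigma n i) = s5 := by
  simp [sigma, h1, h2, gh]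

lemma gh_list (n : ℕ) (l : List ℕ) (h : ∀ i ∈ l, 1 ≤ i ∧ i ≤ n - 1) :
    gh n (l.map (sigma n)).prod = s5 ^ l.length := by
  induction l with
  | nil => simp
  | cons a l ih =>
    have ha := h a (by simp)
    rw [List.map_cons, List.prod_cons, map_mul, ih (fun i hi => h i (by simp [hi])),
      gh_sigma n a ha.1 ha.2, List.length_cons, pow_succ']

lemma gh_up (n a b : ℕ) (ha : 1 ≤ a) (hb : b ≤ n - 1) : gh n (up n a b) = s5 ^ (b + 1 - a) := by
  rw [up, gh_list, List.length_range']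
  intro i hi
  rw [List.mem_range'_1] at hi
  omega

lemma gh_down (n a b : ℕ) (ha : 1 ≤ a) (hb : b ≤ n - 1) :
    gh n (down n a b) = s5 ^ (b + 1 - a) := by
  rw [down, gh_list, List.length_reverse, List.length_range']
  intro i hi
  rw [List.mem_reverse, List.mem_range'_1] at hi
  omega

noncomputable def Phi (n : ℕ) : RB n →+* ZMod 49 :=
  MonoidAlgebra.liftNCRingHom (LaurentPolynomial.eval₂ (Int.castRingHom (ZMod 49)) q2)
    ((Units.coeHom _).comp (gh n)) (fun _ _ => Commute.all _ _)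

lemma Phi_br (n : ℕ) (g : Braid n) : Phi n (br g) = (gh n g : ZMod 49) := by
  simp [Phi, br, MonoidAlgebra.liftNCRingHom_single]

lemma Phi_q (n : ℕ) : Phi n (q n) = 2 := by
  have : q n = MonoidAlgebra.single 1 (T 1) := by
    simp [q, MonoidAlgebra.coe_algebraMap]
  rw [this, Phi, MonoidAlgebra.liftNCRingHom_single, eval₂_T]
  simp [q2]

lemma Phi_br_inv (n : ℕ) (g : Braid n) (k : ℕ) (h : gh n g = s5 ^ k) :
    Phi n (br g⁻¹) = 10 ^ k := by
  rw [Phi_br, map_inv, h, ← inv_pow, Units.val_pow_eq_pow_val]; rfl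

lemma Phi_br_pow (n : ℕ) (g : Braid n) (k : ℕ) (h : gh n g = s5 ^ k) :
    Phi n (br g) = 5 ^ k := by
  rw [Phi_br, h, Units.val_pow_eq_pow_val]; rfl

lemma Phi_E (n j : ℕ) (hj : j ≤ n - 1) : Phi n (E n j) = 2 ^ j * 10 ^ j - 5 ^ j := by
  rw [E, map_sub, map_mul, map_pow, Phi_q, Phi_br_inv n _ _ (gh_down n 1 j le_rfl hj),
    Phi_br_pow n _ _ (gh_up n 1 j le_rfl hj)]
  simp

lemma Phi_F (n j : ℕ) (hj : j ≤ n - 1) : Phi n (F n j) = 2 ^ (j - 1) * 10 ^ j - 5 ^ j := by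
  rw [F, map_sub, map_mul, map_pow, Phi_q, Phi_br_inv n _ _ (gh_down n 1 j le_rfl hj),
    Phi_br_pow n _ _ (gh_up n 1 j le_rfl hj)]
  simp

lemma Phi_two (n i : ℕ) (h1 : 1 ≤ i) (h2 : i ≤ n - 1) :
    Phi n (q n * br (sigma n i)⁻¹ + 1 - q n - br (sigma n i)) = 14 := by
  have h : gh n (sigma n i) = s5 ^ 1 := by rw [gh_sigma n i h1 h2, pow_one]
  rw [map_sub, map_sub, map_add, map_mul, map_one, Phi_q, Phi_br_inv n _ _ h, Phi_br_pow n _ _ h]
  decide

lemma Phi_X2 (n : ℕ) (hn : 3 ≤ n) : Phi n (X n 2) = 14 := by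
  rw [X]; exact Phi_two n 1 le_rfl (by omega)

lemma Phi_X3 (n : ℕ) (hn : 3 ≤ n) : Phi n (X n 3) = 7 := by
  have : X n 3 = E n 2 * X n 2 := rfl
  rw [this, map_mul, Phi_X2 n hn, Phi_E n 2 (by omega)]
  decide

lemma Phi_X4 (n : ℕ) (k : ℕ) (hn : k + 4 ≤ n) : Phi n (X n (k + 4)) = 0 := by
  induction k with
  | zero =>
    have : X n 4 = E n 3 * X n 3 := by rw [X]
    rw [zero_add, this, map_mul, Phi_X3 n (by omega), Phi_E n 3 (by omega)]
    decide
  | succ k ih =>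
    have : X n (k + 1 + 4) = E n (k + 4) * X n (k + 4) := by rw [X]
    rw [this, map_mul, ih (by omega), mul_zero]

lemma Phi_rel (n k : ℕ) (h2 : 2 ≤ k) (hk : k ≤ n - 1) :
    Phi n ((G n k - F n k) * X n k) = 0 := by
  rw [map_mul, map_sub]
  rcases Nat.lt_or_ge k 4 with h | h
  · have : k = 2 ∨ k = 3 := by omega
    rcases this with rfl | rfl
    · rw [Phi_X2 n (by omega), Phi_F n 2 hk, G, if_pos rfl, Phi_two n 2 (by omega) hk]
      decide
    · rw [Phi_X3 n (by omega), Phi_F n 3 hk, G, if_neg (by omega), map_sub, map_mul, map_pow,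
        Phi_q, Phi_br_inv n _ _ (gh_down n 2 3 (by omega) hk),
        Phi_br_pow n _ _ (gh_up n 2 3 (by omega) hk)]
      decide
  · obtain ⟨m, rfl⟩ : ∃ m, k = m + 4 := ⟨k - 4, by omega⟩
    rw [Phi_X4 n m (by omega), mul_zero]

theorem X3_not_mem (n : ℕ) (hn : 3 ≤ n) : X n 3 ∉ relIdeal n := by
  intro h
  have hle : relIdeal n ≤ TwoSidedIdeal.ker (Phi n) := by
    rw [relIdeal, TwoSidedIdeal.span_le]
    rintro r ⟨k, h2, hk, rfl⟩
    simpa [TwoSidedIdeal.mem_ker] using Phi_rel n k h2 hk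
  have := hle h
  rw [TwoSidedIdeal.mem_ker, Phi_X3 n hn] at this
  exact absurd this (by decide)

theorem main (n : ℕ) (hn : 3 ≤ n) : (relIdeal n).ringCon.mk' (X n 3) ≠ (0 : Z n) := by
  intro h
  apply X3_not_mem n hn
  rw [TwoSidedIdeal.mem_iff]
  rw [← map_zero (relIdeal n).ringCon.mk'] at h
  exact (RingCon.eq _).1 h

end Pool.Agent.H64.Zipper
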