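import Mathlib

/-! Braid groups, their group algebra over the Laurent polynomials, and the elements X, F, G. -/

namespace Pool.Agent.H64.ZipperDefs

open LaurentPolynomial

/-- Artin's braid relations on generators indexed by `Fin (n-1)`. -/
def braidRels (n : ℕ) : Set (FreeGroup (Fin (n - 1))) :=
  {r | ∃ i j : Fin (n - 1), (i : ℕ) + 1 = j ∧
      r = FreeGroup.of i * FreeGroup.of j * FreeGroup.of i *
        (FreeGroup.of j * FreeGroup.of i * FreeGroup.of j)⁻¹} ∪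
  {r | ∃ i j : Fin (n - 1), (i : ℕ) + 2 ≤ j ∧
      r = FreeGroup.of i * FreeGroup.of j * (FreeGroup.of j * FreeGroup.of i)⁻¹}

/-- The braid group on `n` strands. -/
abbrev Braid (n : ℕ) : Type := PresentedGroup (braidRels n)

/-- The Artin generator `σ_i` for `1 ≤ i ≤ n-1` (only these values are used). -/
def sigma (n i : ℕ) : Braid n :=
  if h : 1 ≤ i ∧ i ≤ n - 1 then PresentedGroup.of (⟨i - 1, by omega⟩ : Fin (n - 1)) else 1

/-- `σ_a σ_(a+1) ⋯ σ_b`. -/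
def up (n a b : ℕ) : Braid n := ((List.range' a (b + 1 - a)).map (sigma n)).prod

/-- `σ_b σ_(b-1) ⋯ σ_a`. -/
def down (n a b : ℕ) : Braid n := ((List.range' a (b + 1 - a)).reverse.map (sigma n)).prod

/-- The group algebra `R B_n`, `R = ℤ[q,q⁻¹]`. -/
abbrev RB (n : ℕ) : Type := MonoidAlgebra (LaurentPolynomial ℤ) (Braid n)

/-- The scalar `q`. -/
noncomputable def q (n : ℕ) : RB n := algebraMap (LaurentPolynomial ℤ) (RB n) (T 1)

/-- A braid as an element of the group algebra. -/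
noncomputable def br {n : ℕ} (g : Braid n) : RB n := MonoidAlgebra.of _ _ g

/-- `E_j = q^j (σ_j ⋯ σ_1)⁻¹ - σ_1 ⋯ σ_j`. -/
noncomputable def E (n j : ℕ) : RB n := q n ^ j * br (down n 1 j)⁻¹ - br (up n 1 j)

/-- `X_2 = q σ_1⁻¹ + 1 - q - σ_1`, `X_k = E_(k-1) X_(k-1)` (values at 0, 1 are not used). -/
noncomputable def X (n : ℕ) : ℕ → RB n
  | 0 => 0
  | 1 => 0
  | 2 => q n * br (sigma n 1)⁻¹ + 1 - q n - br (sigma n 1)
  | k + 3 => E n (k + 2) * X n (k + 2)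

/-- `F_k = q^(k-1) (σ_k ⋯ σ_1)⁻¹ - σ_1 ⋯ σ_k`. -/
noncomputable def F (n k : ℕ) : RB n := q n ^ (k - 1) * br (down n 1 k)⁻¹ - br (up n 1 k)

/-- `G_2 = q σ_2⁻¹ + 1 - q - σ_2`, `G_k = q^(k-1) (σ_k ⋯ σ_2)⁻¹ - σ_2 ⋯ σ_k` for `k ≥ 3`. -/
noncomputable def G (n k : ℕ) : RB n :=
  if k = 2 then q n * br (sigma n 2)⁻¹ + 1 - q n - br (sigma n 2)
  else q n ^ (k - 1) * br (down n 2 k)⁻¹ - br (up n 2 k)

/-- The two-sided ideal generated by `(G_k - F_k) X_k`, `2 ≤ k ≤ n-1`. -/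
noncomputable def relIdeal (n : ℕ) : TwoSidedIdeal (RB n) :=
  TwoSidedIdeal.span {r | ∃ k, 2 ≤ k ∧ k ≤ n - 1 ∧ r = (G n k - F n k) * X n k}

/-- The quotient algebra `Z_n`. -/
abbrev Z (n : ℕ) : Type := (relIdeal n).ringCon.Quotient

end Pool.Agent.H64.ZipperDefs
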