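import Pool.Agent.H64.ZubDefs

set_option autoImplicit false

namespace Pool.Agent.H64.Zub

open Filter Topology

section ProP

variable {p : ℕ}

theorem tendsto_of_proP {G : Type} [Group G] [TopologicalSpace G] (h : IsProP p G) (g : G) :
    Tendsto (fun n : ℕ => g ^ p ^ n) atTop (𝓝 1) := by
  obtain ⟨h1, h2, h3, h4, h5⟩ := h
  rw [tendsto_nhds]
  intro s hs h1s
  obtain ⟨U, hU⟩ := ProfiniteGrp.exist_openNormalSubgroup_sub_open_nhds_of_one hs h1s
  obtain ⟨k, hk⟩ := h5 U.toSubgroup U.isOpen (QuotientGroup.mk g)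
  rw [← QuotientGroup.mk_pow, QuotientGroup.eq_one_iff] at hk
  filter_upwards [eventually_ge_atTop k] with n hn
  apply hU
  obtain ⟨d, rfl⟩ := Nat.exists_eq_add_of_le hn
  show g ^ p ^ (k + d) ∈ U.toSubgroup
  rw [pow_add, pow_mul]
  exact U.toSubgroup.pow_mem hk _

theorem proP_of_tendsto {G : Type} [Group G] [TopologicalSpace G] [h1 : IsTopologicalGroup G]
    [h2 : CompactSpace G] [h3 : T2Space G] [h4 : TotallyDisconnectedSpace G]
    (h : ∀ g : G, Tendsto (fun n : ℕ => g ^ p ^ n) atTop (𝓝 1)) : IsProP p G := by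
  refine ⟨h1, h2, h3, h4, fun U _ hU q => ?_⟩
  obtain ⟨g, rfl⟩ := QuotientGroup.mk_surjective q
  obtain ⟨k, hk⟩ := ((h g).eventually (hU.mem_nhds U.one_mem)).exists
  exact ⟨k, by rw [← QuotientGroup.mk_pow, QuotientGroup.eq_one_iff]; exact hk⟩

theorem proP_finite {G : Type} [Group G] [TopologicalSpace G] [DiscreteTopology G] [Finite G]
    (h : IsPGroup p G) : IsProP p G :=
  ⟨inferInstance, inferInstance, inferInstance, inferInstance, fun U _ _ => h.to_quotient U⟩

theorem proP_iso {G H : Type} [Group G] [TopologicalSpace G] [Group H] [TopologicalSpace H]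
    (h : IsProP p G) (e : G ≃ₜ* H) : IsProP p H := by
  have ht := tendsto_of_proP h
  obtain ⟨h1, h2, h3, h4, -⟩ := h
  have : IsTopologicalGroup H :=
    e.symm.toHomeomorph.isInducing.topologicalGroup e.symm.toMulEquiv
  have : CompactSpace H := e.toHomeomorph.compactSpace
  have : T2Space H := e.toHomeomorph.t2Space
  have : TotallyDisconnectedSpace H := e.toHomeomorph.totallyDisconnectedSpace
  refine proP_of_tendsto fun g => ?_
  obtain ⟨g, rfl⟩ := e.surjective g
  have h := (e.continuous.tendsto 1).comp (ht g)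
  have e1 : e.toHomeomorph 1 = 1 := map_one e
  rw [e1] at h
  exact h.congr fun n => map_pow e g (p ^ n)

theorem proP_sub {G : Type} [Group G] [TopologicalSpace G] (h : IsProP p G) (H : Subgroup G)
    (hH : IsClosed (H : Set G)) : IsProP p H := by
  have ht := tendsto_of_proP h
  obtain ⟨h1, h2, h3, h4, -⟩ := h
  have : CompactSpace H := isCompact_iff_compactSpace.1 hH.isCompact
  refine proP_of_tendsto fun g => ?_
  rw [tendsto_subtype_rng]
  simpa using ht g

theorem proP_quot {G : Type} [Group G] [TopologicalSpace G] (h : IsProP p G) (N : Subgroup G)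
    [N.Normal] (hN : IsClosed (N : Set G)) : IsProP p (G ⧸ N) := by
  have ht := tendsto_of_proP h
  obtain ⟨h1, h2, h3, h4, -⟩ := h
  have : NonarchimedeanGroup (G ⧸ N) := ⟨fun U hU => by
    have hU' : (QuotientGroup.mk : G → G ⧸ N) ⁻¹' U ∈ 𝓝 (1 : G) :=
      QuotientGroup.continuous_mk.continuousAt.preimage_mem_nhds (by simpa using hU)
    obtain ⟨s, hs, hso, h1s⟩ := mem_nhds_iff.1 hU'
    obtain ⟨W, hW⟩ := ProfiniteGrp.exist_openNormalSubgroup_sub_open_nhds_of_one hso h1s
    refine ⟨⟨W.toSubgroup.map (QuotientGroup.mk' N), ?_⟩, ?_⟩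
    · exact QuotientGroup.isOpenMap_coe _ W.isOpen
    · rintro _ ⟨w, hw, rfl⟩
      exact hs (hW hw)⟩
  refine proP_of_tendsto fun q => ?_
  obtain ⟨g, rfl⟩ := QuotientGroup.mk_surjective q
  have := (QuotientGroup.continuous_mk (N := N).tendsto 1).comp (ht g)
  simpa [Function.comp_def] using this

theorem proP_prod {ι : Type} {G : ι → Type} [∀ i, Group (G i)] [∀ i, TopologicalSpace (G i)]
    (h : ∀ i, IsProP p (G i)) : IsProP p (∀ i, G i) := by
  have := fun i => (h i).1
  have := fun i => (h i).2.1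
  have := fun i => (h i).2.2.1
  have := fun i => (h i).2.2.2.1
  refine proP_of_tendsto fun g => ?_
  rw [tendsto_pi_nhds]
  intro i
  simpa using tendsto_of_proP (h i) (g i)

/-- pro-`p` groups satisfying an abstract closure-stable property form a variety -/
theorem variety_of (L : ∀ (G : Type) [Group G], Prop) (h0 : L PUnit)
    (hinj : ∀ (G H : Type) [Group G] [Group H] (f : H →* G), Function.Injective f → L G → L H)
    (hsur : ∀ (G H : Type) [Group G] [Group H] (f : G →* H), Function.Surjective f → L G → L H)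
    (hpi : ∀ (ι : Type) (G : ι → Type) [∀ i, Group (G i)], (∀ i, L (G i)) → L (∀ i, G i)) :
    IsVariety p (fun G _ _ => IsProP p G ∧ L G) where
  proP _ _ _ h := h.1
  nonempty := ⟨PUnit, inferInstance, inferInstance,
    proP_finite (IsPGroup.of_subsingleton _ _), h0⟩
  iso G H _ _ _ _ h e := ⟨proP_iso h.1 e, hsur G H e.toMulEquiv.toMonoidHom e.surjective h.2⟩
  sub G _ _ h H hH := ⟨proP_sub h.1 H hH, hinj G H H.subtype H.subtype_injective h.2⟩
  quot G _ _ h N _ hN := ⟨proP_quot h.1 N hN,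
    hsur G _ (QuotientGroup.mk' N) (QuotientGroup.mk'_surjective N) h.2⟩
  prod ι G _ _ h := ⟨proP_prod fun i => (h i).1, hpi ι G fun i => (h i).2⟩

end ProP

section Free

variable (V : Cls) (X : Type)

/-- index set of finite quotients in `V` -/
structure Ix where
  M : Subgroup (FreeGroup X)
  nl : M.Normal
  hv : @V (FreeGroup X ⧸ M) (@QuotientGroup.Quotient.group _ _ M nl) ⊥
  fin : {x | FreeGroup.of x ∉ M}.Finite

variable {V X}

instance (j : Ix V X) : j.M.Normal := j.nl

/-- the quotient -/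
def Q (j : Ix V X) : Type := FreeGroup X ⧸ j.M

instance (j : Ix V X) : Group (Q j) := inferInstanceAs (Group (FreeGroup X ⧸ j.M))
instance (j : Ix V X) : TopologicalSpace (Q j) := ⊥
instance (j : Ix V X) : DiscreteTopology (Q j) := ⟨rfl⟩

/-- projection -/
def pr (j : Ix V X) : FreeGroup X →* Q j := QuotientGroup.mk' j.M

theorem pr_eq_one (j : Ix V X) (w : FreeGroup X) : pr j w = 1 ↔ w ∈ j.M :=
  QuotientGroup.eq_one_iff w

variable (V X)

/-- diagonal map -/
def dg : FreeGroup X →* ∀ j : Ix V X, Q j := Pi.monoidHom fun j => pr j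

/-- the free object -/
def FF : Subgroup (∀ j : Ix V X, Q j) := (dg V X).range.topologicalClosure

/-- the map to the free object -/
def dg' : FreeGroup X →* FF V X :=
  (dg V X).codRestrict _ fun w => Subgroup.le_topologicalClosure _ ⟨w, rfl⟩

theorem dense_dg' : DenseRange (dg' V X) := by
  rw [DenseRange, Subtype.dense_iff]
  intro x hx
  have : Subtype.val '' Set.range (dg' V X) = ((dg V X).range : Set (∀ j : Ix V X, Q j)) := by
    ext y; constructor
    · rintro ⟨_, ⟨w, rfl⟩, rfl⟩; exact ⟨w, rfl⟩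
    · rintro ⟨w, rfl⟩; exact ⟨_, ⟨w, rfl⟩, rfl⟩
  exact closure_mono this.ge hx

variable {V X}

theorem exists_ix {p : ℕ} (hV : IsVariety p V) {G : Type} [Group G] [TopologicalSpace G]
    (hG : V G) (φ : FreeGroup X →* G) (hf : Tendsto (fun x => φ (FreeGroup.of x)) cofinite (𝓝 1))
    (U : Subgroup G) [U.Normal] (hU : IsOpen (U : Set G)) :
    ∃ j : Ix V X, j.M = ((QuotientGroup.mk' U).comp φ).ker := by
  obtain ⟨h1, h2, h3, h4, -⟩ := hV.proP G hG
  have hd : DiscreteTopology (G ⧸ U) := QuotientGroup.discreteTopology hU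
  have hq := hV.quot G hG U (U.isClosed_of_isOpen hU)
  set ψ := (QuotientGroup.mk' U).comp φ
  have hr := hV.sub _ hq ψ.range (isClosed_discrete _)
  refine ⟨⟨ψ.ker, inferInstance, ?_, ?_⟩, rfl⟩
  · letI : TopologicalSpace (FreeGroup X ⧸ ψ.ker) := ⊥
    haveI : DiscreteTopology (FreeGroup X ⧸ ψ.ker) := ⟨rfl⟩
    exact hV.iso _ _ hr
      { (QuotientGroup.quotientKerEquivRange ψ).symm with
        continuous_toFun := continuous_of_discreteTopology
        continuous_invFun := continuous_of_discreteTopology }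
  · have := hf.eventually (hU.mem_nhds U.one_mem)
    rw [eventually_cofinite] at this
    refine this.subset fun x hx h => hx ?_
    exact (QuotientGroup.eq_one_iff (N := U) (φ (FreeGroup.of x))).2 h

theorem exists_free {p : ℕ} (hV : IsVariety p V) (X : Type) :
    IsFree V X (FF V X) (fun x => dg' V X (FreeGroup.of x)) := by
  refine ⟨hV.sub _ (hV.prod _ _ fun j => j.hv) _ (Subgroup.isClosed_topologicalClosure _), ?_, ?_⟩
  · rw [tendsto_subtype_rng, tendsto_pi_nhds]
    intro j
    refine tendsto_const_nhds.congr' ?_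
    rw [EventuallyEq, eventually_cofinite]
    refine j.fin.subset fun x hx h => hx ?_
    exact ((pr_eq_one j _).2 h).symm
  intro G _ _ hG f hf
  obtain ⟨h1, h2, h3, h4, -⟩ := hV.proP G hG
  set φ0 : FreeGroup X →* G := FreeGroup.lift f with hφ0
  set Γ : Subgroup ((∀ j : Ix V X, Q j) × G) := ((dg V X).prod φ0).range.topologicalClosure
  have hΓc : IsClosed (Γ : Set ((∀ j : Ix V X, Q j) × G)) := Subgroup.isClosed_topologicalClosure _
  have key : ∀ g : G, ((1 : ∀ j : Ix V X, Q j), g) ∈ Γ → g = 1 := by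
    intro g hg
    by_contra hne
    obtain ⟨U, hU⟩ := ProfiniteGrp.exist_openNormalSubgroup_sub_open_nhds_of_one
      (isOpen_compl_singleton (x := g)) (fun h => hne (Set.mem_singleton_iff.1 h).symm)
    obtain ⟨j, hj⟩ := exists_ix hV hG φ0 (by simpa [hφ0] using hf) U.toSubgroup U.isOpen
    have hd : DiscreteTopology (G ⧸ U.toSubgroup) := QuotientGroup.discreteTopology U.isOpen
    let θ : Q j →* G ⧸ U.toSubgroup :=
      QuotientGroup.lift j.M ((QuotientGroup.mk' U.toSubgroup).comp φ0) (by rw [hj])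
    have hC : IsClosed {z : (∀ j : Ix V X, Q j) × G | θ (z.1 j) = QuotientGroup.mk z.2} :=
      isClosed_eq (continuous_of_discreteTopology.comp ((continuous_apply j).comp continuous_fst))
        (QuotientGroup.continuous_mk.comp continuous_snd)
    have : (Γ : Set ((∀ j : Ix V X, Q j) × G)) ⊆ {z : (∀ j : Ix V X, Q j) × G | θ (z.1 j) = QuotientGroup.mk z.2} := by
      refine closure_minimal ?_ hC
      rintro _ ⟨w, rfl⟩
      rfl
    have h := this hg
    simp only [Set.mem_setOf_eq, Pi.one_apply, map_one] at h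
    exact hU ((QuotientGroup.eq_one_iff g).1 h.symm) rfl
  have uniq : ∀ x g g', (x, g) ∈ Γ → (x, g') ∈ Γ → g = g' := by
    intro x g g' h h'
    have := Γ.mul_mem (Γ.inv_mem h) h'
    have := key (g⁻¹ * g') (by simpa using this)
    exact inv_mul_eq_one.1 this
  have ex : ∀ x : FF V X, ∃ g, (x.1, g) ∈ Γ := by
    intro x
    have hc : IsClosed (Prod.fst '' (Γ : Set ((∀ j : Ix V X, Q j) × G))) := isClosedMap_fst_of_compactSpace _ hΓc
    have : (FF V X : Set (∀ j : Ix V X, Q j)) ⊆ Prod.fst '' (Γ : Set ((∀ j : Ix V X, Q j) × G)) := by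
      refine closure_minimal ?_ hc
      rintro _ ⟨w, rfl⟩
      exact ⟨(dg V X w, φ0 w), Subgroup.le_topologicalClosure _ ⟨w, rfl⟩, rfl⟩
    obtain ⟨⟨y, g⟩, h, e⟩ := this x.2
    exact ⟨g, by rw [← e]; exact h⟩
  choose φ hφ using ex
  let Φ : FF V X →* G := MonoidHom.mk' φ fun a b =>
    uniq _ _ _ (hφ (a * b)) (Γ.mul_mem (hφ a) (hφ b))
  have hΦ : ∀ w, Φ (dg' V X w) = φ0 w := fun w =>
    uniq _ _ _ (hφ _) (Subgroup.le_topologicalClosure _ ⟨w, rfl⟩)
  have hcont : Continuous Φ := by
    rw [continuous_iff_isClosed]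
    intro C hC
    have hc : IsClosed (Prod.fst '' ((Γ : Set ((∀ j : Ix V X, Q j) × G)) ∩ Prod.snd ⁻¹' C)) :=
      isClosedMap_fst_of_compactSpace _ (hΓc.inter (hC.preimage continuous_snd))
    convert hc.preimage (continuous_subtype_val (p := fun x => x ∈ FF V X)) using 1
    ext x
    constructor
    · intro h
      exact ⟨(x.1, φ x), ⟨hφ x, h⟩, rfl⟩
    · rintro ⟨⟨y, g⟩, ⟨h, hg⟩, e⟩
      have : g = φ x := uniq x.1 _ _ (by rw [← e]; exact h) (hφ x)
      show φ x ∈ C
      rw [← this]; exact hg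
  refine ⟨Φ, ⟨hcont, fun x => by rw [hΦ, hφ0, FreeGroup.lift_apply_of]⟩, ?_⟩
  rintro ψ ⟨hψ, hψx⟩
  have : ψ.comp (dg' V X) = Φ.comp (dg' V X) := by
    ext x
    simp only [MonoidHom.comp_apply]
    rw [hψx, hΦ, hφ0, FreeGroup.lift_apply_of]
  exact DFunLike.coe_injective ((dense_dg' V X).equalizer hψ hcont
    (funext fun w => DFunLike.congr_fun this w))

end Free

end Pool.Agent.H64.Zub
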