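import Mathlib

set_option autoImplicit false

namespace Pool.Agent.H64.Zub

open Polynomial

theorem exists_S (p : ℕ) [Fact p.Prime] :
    ∃ (S : Type) (_ : CommRing S) (_ : Algebra (ZMod p) S) (_ : Finite S) (ε : S),
      ε ^ (p + 1) = 0 ∧ ∀ a : ZMod p, ε ^ p * algebraMap _ S a = 0 → a = 0 := by
  have hm : (X ^ (p + 1) : (ZMod p)[X]).Monic := monic_X_pow _
  have := hm.finite_adjoinRoot
  refine ⟨AdjoinRoot (X ^ (p + 1) : (ZMod p)[X]), inferInstance, inferInstance,
    Module.finite_of_finite (ZMod p), AdjoinRoot.root _, ?_, fun a h => ?_⟩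
  · rw [← AdjoinRoot.mk_X, ← map_pow, AdjoinRoot.mk_eq_zero]
  · rw [← AdjoinRoot.mk_X, ← map_pow, AdjoinRoot.algebraMap_eq, ← AdjoinRoot.mk_C, ← map_mul,
      AdjoinRoot.mk_eq_zero, X_pow_dvd_iff] at h
    simpa [coeff_X_pow_mul'] using h p (by omega)

theorem isPGroup_wr {p : ℕ} [Fact p.Prime] {D Q : Type} [Group D] [Group Q] [Finite D] [Finite Q]
    (hD : IsPGroup p D) (hQ : IsPGroup p Q) : IsPGroup p (D ≀ᵣ Q) := by
  obtain ⟨a, ha⟩ := IsPGroup.iff_card.1 hD
  obtain ⟨b, hb⟩ := IsPGroup.iff_card.1 hQ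
  refine IsPGroup.of_card (n := a * Nat.card Q + b) ?_
  rw [RegularWreathProduct.card, ha, pow_add, pow_mul]
  congr 1

theorem isPGroup_zmod (p n : ℕ) [Fact p.Prime] : IsPGroup p (Multiplicative (ZMod (p ^ n))) := by
  have : NeZero (p ^ n) := ⟨pow_ne_zero _ (Fact.out : p.Prime).ne_zero⟩
  exact IsPGroup.of_card (n := n) (by simp)

section Core

variable {p : ℕ} [Fact p.Prime] {S : Type} [CommRing S] [Algebra (ZMod p) S]
  {K : Type} [Group K]

/-- left translation -/
def Lt (S : Type) [CommRing S] (g : K) : Module.End S (K → S) where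
  toFun f s := f (g⁻¹ * s)
  map_add' _ _ := rfl
  map_smul' _ _ := rfl

/-- right translation -/
def Rt (S : Type) [CommRing S] (g : K) : Module.End S (K → S) where
  toFun f s := f (s * g)
  map_add' _ _ := rfl
  map_smul' _ _ := rfl

/-- multiplication operator -/
def Mu (S : Type) [CommRing S] [Algebra (ZMod p) S] (D : K → ZMod p) : Module.End S (K → S) where
  toFun f s := algebraMap _ S (D s) * f s
  map_add' _ _ := by ext; simp [mul_add]
  map_smul' _ _ := by ext; simp [mul_left_comm]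

theorem Lt_mul (g h : K) : Lt S (g * h) = Lt S g * Lt S h := by
  refine LinearMap.ext fun f => funext fun s => ?_
  simp [Lt, mul_assoc]

theorem Lt_one : Lt S (1 : K) = 1 := by
  refine LinearMap.ext fun f => funext fun s => ?_
  simp [Lt]

theorem Lt_Mu (g : K) (D : K → ZMod p) :
    Lt S g * Mu S D = Mu S (fun s => D (g⁻¹ * s)) * Lt S g := rfl

theorem Lt_Rt (g h : K) : Lt S g * Rt S h = Rt S h * Lt S g := by
  refine LinearMap.ext fun f => funext fun s => ?_
  simp [Lt, Rt, mul_assoc]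

theorem Mu_add (D E : K → ZMod p) : Mu S (D + E) = Mu S D + Mu S E := by
  refine LinearMap.ext fun f => funext fun s => ?_
  simp [Mu, add_mul]

theorem Mu_zero : Mu S (0 : K → ZMod p) = 0 := by
  refine LinearMap.ext fun f => funext fun s => ?_
  simp [Mu]

theorem MuR_pow (ω : K) (D : K → ZMod p) (m : ℕ) :
    (Mu S D * Rt S ω) ^ m = Mu S (fun s => ∏ i ∈ Finset.range m, D (s * ω ^ i)) * Rt S (ω ^ m) := by
  induction m with
  | zero =>
    refine LinearMap.ext fun f => funext fun s => ?_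
    simp [Mu, Rt]
  | succ m ih =>
    rw [pow_succ, ih]
    refine LinearMap.ext fun f => funext fun s => ?_
    simp [Mu, Rt, Finset.prod_range_succ, mul_assoc, pow_succ]

theorem Rt_one : Rt S (1 : K) = 1 := by
  refine LinearMap.ext fun f => funext fun s => ?_
  simp [Rt]

theorem pow_add_eps {A : Type} [Ring A] [Algebra S A] (ε : S) (a Y : A) (m : ℕ) :
    ∃ Y', (a + ε • Y) ^ m = a ^ m + ε • Y' := by
  induction m with
  | zero => exact ⟨0, by simp⟩
  | succ m ih =>
    obtain ⟨Y', h⟩ := ih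
    refine ⟨a ^ m * Y + Y' * (a + ε • Y), ?_⟩
    rw [pow_succ, h, pow_succ]
    simp only [add_mul, mul_add, smul_add, mul_smul_comm, smul_mul_assoc]
    abel

/-- additive left part -/
def lf (w : Multiplicative (ZMod p) ≀ᵣ K) : K → ZMod p := fun s => (w.left s).toAdd

theorem lf_mul (w w' : Multiplicative (ZMod p) ≀ᵣ K) :
    lf (w * w') = lf w + fun s => lf w' (w.right⁻¹ * s) := rfl

theorem lf_one : lf (1 : Multiplicative (ZMod p) ≀ᵣ K) = 0 := rfl

variable (ε : S) (ω : K)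

/-- the main monoid -/
def PP : Submonoid (Module.End S (K → S) × (Multiplicative (ZMod p) ≀ᵣ K)) where
  carrier := {x | ∃ Y, x.1 = (1 + ε • (Mu S (lf x.2) * Rt S ω + ε • Y)) * Lt S x.2.right}
  one_mem' := ⟨0, by simp [lf_one, Mu_zero, Lt_one]⟩
  mul_mem' := by
    rintro ⟨x, w⟩ ⟨x', w'⟩ ⟨Y, h⟩ ⟨Y', h'⟩
    simp only at h h'
    set g := w.right
    set a := Mu S (lf w) * Rt S ω
    set a'' := Mu S (fun s => lf w' (g⁻¹ * s)) * Rt S ω
    set Y'' := Lt S g * Y' * Lt S g⁻¹
    have e1 : Lt S g * (Mu S (lf w') * Rt S ω) = a'' * Lt S g := by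
      rw [← mul_assoc, Lt_Mu, mul_assoc, Lt_Rt, ← mul_assoc]
    have e2 : Lt S g * Y' = Y'' * Lt S g := by
      simp only [Y'', mul_assoc, ← Lt_mul, inv_mul_cancel, Lt_one, mul_one]
    have e3 : Lt S g * (1 + ε • (Mu S (lf w') * Rt S ω + ε • Y')) =
        (1 + ε • (a'' + ε • Y'')) * Lt S g := by
      simp only [add_mul, mul_add, mul_smul_comm, smul_mul_assoc, e1, e2, mul_one, one_mul]
    refine ⟨Y + Y'' + (a + ε • Y) * (a'' + ε • Y''), ?_⟩
    simp only [Prod.mk_mul_mk, RegularWreathProduct.mul_right, lf_mul, Mu_add, Lt_mul]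
    rw [h, h', mul_assoc, ← mul_assoc (Lt S g), e3, ← mul_assoc, ← mul_assoc, mul_assoc _ (Lt S g)]
    congr 1
    rw [add_mul (Mu S (lf w))]
    simp only [a, a'', add_mul, mul_add, smul_add, mul_smul_comm, smul_mul_assoc, mul_one, one_mul,
      smul_smul]
    module

/-- the top layer -/
def nu (hε : ε ^ (p + 1) = 0) : Multiplicative (K → ZMod p) →* PP (p := p) ε ω where
  toFun E := ⟨(1 + ε ^ p • Mu S E.toAdd, 1), ε ^ (p - 2) • Mu S E.toAdd, by
    have h2 := (Fact.out : p.Prime).two_le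
    simp only [lf_one, Mu_zero, zero_mul, zero_add, RegularWreathProduct.one_right, Lt_one, mul_one,
      smul_smul]
    congr 2
    obtain ⟨d, rfl⟩ := Nat.exists_eq_add_of_le h2
    simp only [Nat.add_sub_cancel_left]; ring⟩
  map_one' := by ext1; simp [Mu_zero]
  map_mul' E E' := by
    have h2 := (Fact.out : p.Prime).two_le
    have : ε ^ p * ε ^ p = 0 := by
      obtain ⟨d, hd⟩ := Nat.exists_eq_add_of_le (show p + 1 ≤ p + p by omega)
      rw [← pow_add, hd, pow_add, hε, zero_mul]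
    ext1
    simp only [toAdd_mul, Mu_add, Submonoid.coe_mul, Prod.mk_mul_mk, mul_one, add_mul, mul_add,
      one_mul, mul_smul_comm, smul_mul_assoc, smul_smul, this, zero_smul, smul_add, add_zero]
    congr 1
    abel

variable {ε ω}

theorem nu_inj (hε : ε ^ (p + 1) = 0) (hc : ∀ a : ZMod p, ε ^ p * algebraMap _ S a = 0 → a = 0) :
    Function.Injective (nu (p := p) ε ω hε) := by
  intro E E' h
  have h1 : (1 + ε ^ p • Mu S E.toAdd : Module.End S (K → S)) = 1 + ε ^ p • Mu S E'.toAdd :=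
    congrArg (fun x : PP (p := p) ε ω => x.1.1) h
  ext s
  have h2 := congrFun (LinearMap.congr_fun (add_left_cancel h1) 1) s
  simp only [Mu, LinearMap.smul_apply, LinearMap.coe_mk, AddHom.coe_mk, Pi.smul_apply,
    Pi.one_apply, mul_one, smul_eq_mul] at h2
  have := hc (E.toAdd s - E'.toAdd s) (by rw [map_sub, mul_sub, h2, sub_self])
  exact sub_eq_zero.1 this

theorem pow_p (hε : ε ^ (p + 1) = 0) (hω : ω ^ p = 1) (x : PP (p := p) ε ω)
    (hx : x.1.2.right = 1) :
    x ^ p = nu ε ω hε (Multiplicative.ofAdd fun s => ∏ i ∈ Finset.range p, lf x.1.2 (s * ω ^ i)) := by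
  obtain ⟨⟨x, w⟩, Y, h⟩ := x
  simp only at h hx
  have hp : p.Prime := Fact.out
  have hw : ∀ m : ℕ, (w ^ m).right = 1 ∧ lf (w ^ m) = m • lf w := by
    intro m
    induction m with
    | zero => exact ⟨rfl, by rw [pow_zero, zero_smul, lf_one]⟩
    | succ m ih =>
      rw [pow_succ, RegularWreathProduct.mul_right, lf_mul, ih.1, ih.2, hx, succ_nsmul]
      simp
  ext1
  refine Prod.ext ?_ ?_
  · show x ^ p = 1 + ε ^ p • Mu S fun s => ∏ i ∈ Finset.range p, lf w (s * ω ^ i)
    have hp0 : (p : Module.End S (K → S)) = 0 := by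
      rw [← map_natCast (algebraMap S (Module.End S (K → S))),
        ← map_natCast (algebraMap (ZMod p) S), ZMod.natCast_self, map_zero, map_zero]
    rw [h, hx, Lt_one, mul_one, (Commute.one_left _).add_pow_prime_eq hp, hp0, one_pow, _root_.smul_pow]
    obtain ⟨Y', hY'⟩ := pow_add_eps ε (Mu S (lf w) * Rt S ω) Y p
    rw [hY', smul_add, smul_smul, ← pow_succ, hε, MuR_pow, hω, Rt_one]
    simp
  · show w ^ p = 1
    refine RegularWreathProduct.ext ?_ (hw p).1
    ext s
    have := congrFun (hw p).2 s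
    simp only [Pi.smul_apply, nsmul_eq_mul, ZMod.natCast_self, zero_mul] at this
    exact this

theorem conj_nu (hε : ε ^ (p + 1) = 0) (x : PP (p := p) ε ω) (E : K → ZMod p) :
    x * nu ε ω hε (Multiplicative.ofAdd E) =
      nu ε ω hε (Multiplicative.ofAdd fun s => E (x.1.2.right⁻¹ * s)) * x := by
  obtain ⟨⟨x, w⟩, Y, h⟩ := x
  simp only at h
  ext1
  refine Prod.ext ?_ (by simp [nu])
  show x * (1 + ε ^ p • Mu S E) = (1 + ε ^ p • Mu S fun s => E (w.right⁻¹ * s)) * x
  have h1 : ε ^ p * ε = 0 := by rw [← pow_succ, hε]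
  have h2 : ε * ε ^ p = 0 := by rw [mul_comm, h1]
  rw [mul_add, add_mul, mul_one, one_mul, h]
  congr 1
  generalize Mu S (lf w) * Rt S ω + ε • Y = Z
  simp only [add_mul, mul_add, mul_smul_comm, smul_mul_assoc, one_mul, smul_add,
    smul_smul, h1, h2, zero_smul, add_zero, Lt_Mu]

theorem pp_pow [Finite K] (hK : IsPGroup p K) (hε : ε ^ (p + 1) = 0) (hω : ω ^ p = 1)
    (x : PP (p := p) ε ω) : ∃ k, x ^ p ^ k = 1 := by
  have hZ : IsPGroup p (Multiplicative (ZMod p)) := IsPGroup.of_card (n := 1) (by simp)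
  obtain ⟨k, hk⟩ := isPGroup_wr hZ hK x.1.2
  refine ⟨k + 1, ?_⟩
  have h1 : (x ^ p ^ k).1.2 = 1 := hk
  rw [pow_succ, pow_mul, pow_p hε hω _ (by rw [h1]; rfl), h1, lf_one]
  have hp := (Fact.out : p.Prime).pos
  have : (fun s : K => ∏ i ∈ Finset.range p, (0 : K → ZMod p) (s * ω ^ i)) = 0 := by
    ext s
    exact Finset.prod_eq_zero (Finset.mem_range.2 hp) rfl
  rw [this]
  exact map_one (nu ε ω hε)

theorem core [Finite K] (hK : IsPGroup p K) (ω : K) (hω : ω ^ p = 1)
    (Λ : (K → ZMod p) →+ ZMod p) :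
    ∃ (H : Type) (_ : Group H) (_ : Finite H) (π : H →* Multiplicative (ZMod p) ≀ᵣ K),
      IsPGroup p H ∧ Function.Surjective π ∧ ∀ x : H, (π x).right ^ p = 1 →
        (x ^ p ^ 2 = 1 ↔ ∀ t, Λ (fun s => ∏ i ∈ Finset.range p,
          lf (π x ^ p) (t * s * ω ^ i)) = 0) := by
  obtain ⟨S, _, _, _, ε, hε, hc⟩ := exists_S p
  have hp : p.Prime := Fact.out
  have hfin : Finite (Module.End S (K → S)) := DFunLike.finite _
  let P := PP (p := p) ε ω
  letI : Group P := groupOfIsUnit fun x => by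
    obtain ⟨k, hk⟩ := pp_pow hK hε hω x
    exact IsUnit.of_pow_eq_one hk (pow_ne_zero _ hp.ne_zero)
  have hP : IsPGroup p P := fun x => pp_pow hK hε hω x
  let A : Subgroup (Multiplicative (K → ZMod p)) :=
    { carrier := {E | ∀ t, Λ (fun s => E.toAdd (t * s)) = 0}
      one_mem' := fun t => map_zero Λ
      mul_mem' := fun {a b} ha hb t => by
        have := map_add Λ (fun s => a.toAdd (t * s)) (fun s => b.toAdd (t * s))
        rw [ha t, hb t, add_zero] at this
        exact this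
      inv_mem' := fun {a} ha t => by
        have := map_neg Λ (fun s => a.toAdd (t * s))
        rw [ha t, neg_zero] at this
        exact this }
  let ν : Multiplicative (K → ZMod p) →* P := nu ε ω hε
  let C : Subgroup P := A.map ν
  haveI : C.Normal := ⟨by
    rintro _ ⟨E, hE, rfl⟩ g
    refine ⟨Multiplicative.ofAdd fun s => E.toAdd (g.1.2.right⁻¹ * s), fun t => ?_, ?_⟩
    · simpa [mul_assoc] using hE (g.1.2.right⁻¹ * t)
    · rw [eq_mul_inv_iff_mul_eq]
      exact (conj_nu hε g E.toAdd).symm⟩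
  let π0 : P →* Multiplicative (ZMod p) ≀ᵣ K := (MonoidHom.snd _ _).comp P.subtype
  have hC : C ≤ π0.ker := by
    rintro _ ⟨E, -, rfl⟩
    rfl
  refine ⟨P ⧸ C, inferInstance, inferInstance, QuotientGroup.lift C π0 hC, hP.to_quotient C, ?_, ?_⟩
  · intro w
    exact ⟨QuotientGroup.mk ⟨((1 + ε • (Mu S (lf w) * Rt S ω + ε • 0)) * Lt S w.right, w), 0, rfl⟩,
      rfl⟩
  · intro x hx
    obtain ⟨x, rfl⟩ := QuotientGroup.mk_surjective x
    rw [← QuotientGroup.mk_pow, QuotientGroup.eq_one_iff, pow_two, pow_mul]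
    have h1 : (x ^ p).1.2 = π0 x ^ p := map_pow π0 x p
    have h2 : (x ^ p).1.2.right = 1 := by
      rw [h1]
      exact (map_pow RegularWreathProduct.rightHom _ p).trans hx
    have h3 := pow_p hε hω (x ^ p) h2
    rw [h1] at h3
    change (x ^ p) ^ p = ν _ at h3
    rw [h3, Subgroup.mem_map_iff_mem (nu_inj hε hc)]
    rfl

end Core

end Pool.Agent.H64.Zub
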