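import Mathlib

set_option autoImplicit false

namespace Pool.Agent.H64.Zub

open Filter Topology

/-- pro-`p` group: a profinite group all of whose quotients by open normal subgroups are
`p`-groups -/
def IsProP (p : ℕ) (G : Type) [Group G] [TopologicalSpace G] : Prop :=
  IsTopologicalGroup G ∧ CompactSpace G ∧ T2Space G ∧ TotallyDisconnectedSpace G ∧
    ∀ (U : Subgroup G) [U.Normal], IsOpen (U : Set G) → IsPGroup p (G ⧸ U)

/-- a class of groups with a topology -/
abbrev Cls : Type 1 := ∀ (G : Type) [Group G] [TopologicalSpace G], Prop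

/-- variety of pro-`p` groups -/
structure IsVariety (p : ℕ) (V : Cls) : Prop where
  proP : ∀ (G : Type) [Group G] [TopologicalSpace G], V G → IsProP p G
  nonempty : ∃ (G : Type) (_ : Group G) (_ : TopologicalSpace G), V G
  iso : ∀ (G H : Type) [Group G] [TopologicalSpace G] [Group H] [TopologicalSpace H],
    V G → (G ≃ₜ* H) → V H
  sub : ∀ (G : Type) [Group G] [TopologicalSpace G], V G →
    ∀ H : Subgroup G, IsClosed (H : Set G) → V H
  quot : ∀ (G : Type) [Group G] [TopologicalSpace G], V G →
    ∀ (N : Subgroup G) [N.Normal], IsClosed (N : Set G) → V (G ⧸ N)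
  prod : ∀ (ι : Type) (G : ι → Type) [∀ i, Group (G i)] [∀ i, TopologicalSpace (G i)],
    (∀ i, V (G i)) → V (∀ i, G i)

/-- `F` with the map `i` is a free group of `V` on `X` -/
def IsFree (V : Cls) (X F : Type) [Group F] [TopologicalSpace F] (i : X → F) : Prop :=
  V F ∧ Tendsto i cofinite (𝓝 1) ∧
    ∀ (G : Type) [Group G] [TopologicalSpace G], V G → ∀ f : X → G, Tendsto f cofinite (𝓝 1) →
      ∃! φ : F →* G, Continuous φ ∧ ∀ x, φ (i x) = f x

end Pool.Agent.H64.Zub
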